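import Pool.Agent.Hyp6.CfBO
import Pool.Agent.Hyp6.InsN.M00

/-!
# HYP6: instance with bounds 0: n = 2, r = 3, values [0, 2, 0], inner blocks []

1373 base clauses, 272 given clauses, 362 gadgets, 2825 learned clauses.
-/

set_option autoImplicit false
set_option maxRecDepth 100000

namespace Pool.Agent.Hyp6

open Rup

universe u v

namespace DN00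

noncomputable def base : List Ru := [
.rs (.lip 0 24 27 7),
.rs (.part [68, 3, 184] [0, 0, 1] [] []),
.rs (.join 0 1 6 2 1 1 [(0, 0)]),
.rs (.join 1 9 4 3 2 1 [(0, 0), (3, 0)]),
.rs (.join 1 1 3 3 2 2 [(0, 1)]),
.rs (.join 1 9 5 4 4 1 [(0, 1), (3, 0)]),
.rs (.l2 0 24 144 4 1 1),
.degU 5 [(1, 2), (2, 3)],
.degU 2 [(0, 1), (1, 2), (2, 2)],
.rs (.join 0 32 7 2 1 1 [(5, 0)]),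
.rs (.join 0 1 4 2 1 1 [(0, 0)]),
.rs (.lipl 0 36 53 1 17),
.rs (.part [36, 81, 138] [0, 1, 0] [] []),
.rs (.l2 2 10 66 1 1 1),
.rs (.mono 0 2 130 1),
.rs (.l2 2 80 96 6 1 1),
.rs (.part [20, 1, 234] [0, 0, 1] [] []),
.rs (.join 0 1 2 2 1 1 [(0, 0)]),
.rs (.le 1 9 8 3 2),
.rs (.join 2 1 4 2 1 1 [(0, 0)]),
.rs (.lipl 0 18 86 0 68),
.rs (.lipl 1 72 89 1 17),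
.rs (.join 1 1 1 3 1 2 [(0, 0)]),
.rs (.l2 0 24 80 4 1 1),
.rs (.un 0 2),
.rs (.l2 2 17 24 4 1 1),
.rs (.le 2 68 64 6 3),
.rs (.mono 0 2 18 1),
.rs (.lipl 0 34 114 2 80),
.rs (.join 1 2 3 3 1 2 [(1, 0)]),
.rs (.deg 5 [0, 0, 3]),
.rs (.lipl 0 8 74 1 66),
.rs (.lipl 0 20 86 2 66),
.rs (.join 2 1 2 3 1 2 [(0, 0)]),
.rs (.ab2 0 132),
.rs (.un 0 5),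
.rs (.ab2 0 6),
.rs (.l2 0 5 132 2 1 1),
.degU 3 [(1, 5)],
.rs (.part [8, 80, 160] [0, 0, 0] [7] []),
.rs (.hall [0] [0, 1, 2, 6]),
.rs (.deg 3 [0, 3, 0]),
.rs (.l2 2 34 40 5 1 1),
.rs (.part [100, 9, 146] [1, 0, 0] [] []),
.rs (.join 1 2 2 3 2 2 [(1, 1)]),
.rs (.lipl 1 2 82 2 80),
.rs (.join 2 8 4 3 1 3 [(3, 1)]),
.rs (.part [34, 81, 140] [0, 1, 0] [] []),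
.rs (.part [69, 24, 162] [1, 0, 0] [] []),
.rs (.le 2 96 64 6 3),
.rs (.part [33, 8, 214] [0, 0, 1] [] []),
.rs (.lip 0 64 112 56),
.rs (.le 1 80 16 4 1),
.rs (.join 0 16 6 2 2 0 [(4, 0)]),
.rs (.join 0 4 5 2 1 1 [(2, 0)]),
.rs (.join 2 2 4 3 2 3 [(1, 2)]),
.degU 5 [(0, 4), (2, 1)],
.rs (.join 2 4 4 3 1 2 [(2, 0)]),
.degU 0 [(0, 2), (1, 3)],
.rs (.join 0 1 7 2 1 1 [(0, 0)]),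
.rs (.lipl 2 138 218 0 80),
.rs (.join 1 2 2 2 2 0 [(1, 0)]),
.rs (.join 1 1 3 4 2 2 [(0, 0)]),
.rs (.lipl 2 148 213 2 65),
.rs (.l2 0 72 96 6 1 1),
.degU 1 [(0, 2), (1, 1), (2, 2)],
.rs (.mono 2 3 131 1),
.degU 4 [(0, 5)],
.rs (.part [36, 1, 194] [0, 0, 0] [24] []),
.rs (.part [4, 3, 192] [0, 0, 0] [56] []),
.rs (.l2 2 6 36 2 1 2),
.rs (.join 0 2 5 2 2 0 [(1, 0)]),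
.rs (.ab2 0 129),
.degU 3 [(0, 1), (1, 1), (2, 3)],
.rs (.ordE 0 4 2),
.rs (.mono 2 129 193 1),
.rs (.part [8, 96, 144] [0, 0, 0] [7] []),
.rs (.part [8, 16, 224] [0, 0, 0] [7] []),
.rs (.ab2 0 66),
.rs (.part [18, 77, 160] [0, 1, 0] [] []),
.rs (.un 0 6),
.rs (.deg 6 [3, 1, 0]),
.rs (.join 1 2 6 3 0 3 [(1, 0)]),
.rs (.lipl 2 162 242 2 80),
.rs (.join 2 2 5 3 2 2 [(1, 1)]),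
.rs (.part [57, 66, 132] [1, 0, 0] [] []),
.degU 5 [(0, 5)],
.rs (.part [184, 1, 70] [1, 0, 0] [] []),
.rs (.lipl 2 148 158 1 10),
.rs (.lipl 1 65 77 2 12),
.rs (.join 1 1 5 4 3 1 [(0, 0)]),
.rs (.srt 1 4 1 3 2),
.rs (.l2 2 18 20 4 1 2),
.rs (.join 2 4 6 3 1 2 [(2, 0)]),
.rs (.part [36, 66, 153] [0, 0, 1] [] []),
.rs (.part [8, 64, 176] [0, 0, 0] [7] []),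
.rs (.part [18, 45, 192] [0, 1, 0] [] []),
.rs (.join 2 16 5 2 1 1 [(4, 0)]),
.rs (.lipl 2 146 218 2 72),
.rs (.join 2 4 3 3 1 2 [(2, 0)]),
.rs (.part [64, 10, 181] [0, 0, 1] [] []),
.rs (.l2 2 10 18 1 1 2),
.rs (.part [16, 64, 168] [0, 0, 0] [7] []),
.rs (.join 2 2 6 3 2 2 [(1, 1)]),
.rs (.lipl 1 66 75 1 9),
.rs (.l2 2 5 12 2 1 1),
.rs (.l2 2 20 36 2 1 2),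
.rs (.srt 1 1 1 0 2),
.rs (.part [4, 1, 194] [0, 0, 0] [56] []),
.rs (.lipl 2 161 173 1 12),
.rs (.le 2 12 8 3 4),
.rs (.lipl 0 48 58 2 10),
.rs (.ordE 0 32 1),
.rs (.ab 1 6),
.rs (.l2 0 3 130 1 1 1),
.rs (.part [16, 32, 200] [0, 0, 0] [7] []),
.rs (.join 1 1 1 4 3 1 [(0, 0)]),
.rs (.lipl 2 224 242 2 18),
.rs (.part [136, 16, 96] [0, 0, 0] [7] []),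
.rs (.join 2 8 6 2 1 1 [(3, 0)]),
.rs (.join 0 16 6 3 0 3 [(4, 0)]),
.rs (.lip 2 128 184 56),
.rs (.part [74, 17, 164] [1, 0, 0] [] []),
.rs (.mono 2 160 164 1),
.rs (.srt 1 3 1 0 2),
.rs (.join 2 16 5 3 2 2 [(4, 1)]),
.rs (.lipl 1 9 77 2 68),
.rs (.join 1 1 4 4 2 2 [(0, 0)]),
.rs (.lipl 2 130 150 0 20),
.rs (.mono 0 8 12 1),
.rs (.le 2 17 1 0 1),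
.rs (.hall [0] [3, 4, 5, 6]),
.rs (.ab 2 7),
.rs (.ordE 1 64 3),
.rs (.l2 0 17 24 4 1 1),
.degU 1 [(0, 2), (2, 3)],
.rs (.join 1 1 4 3 2 1 [(0, 0)]),
.rs (.part [101, 16, 138] [1, 0, 0] [] []),
.rs (.part [5, 64, 130] [0, 0, 0] [56] []),
.rs (.part [88, 3, 164] [1, 0, 0] [] []),
.rs (.join 1 1 1 3 2 2 [(0, 1)]),
.rs (.join 2 4 4 3 2 2 [(2, 1)]),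
.rs (.part [10, 81, 164] [0, 1, 0] [] []),
.rs (.part [130, 1, 68] [0, 0, 0] [56] []),
.rs (.le 2 10 8 3 3),
.rs (.join 0 2 6 2 1 1 [(1, 0)]),
.rs (.lipl 0 36 46 2 10),
.rs (.deg 5 [2, 0, 1]),
.rs (.join 2 2 5 3 2 1 [(1, 0)]),
.rs (.part [64, 17, 174] [0, 0, 1] [] []),
.rs (.part [64, 5, 130] [0, 0, 0] [56] []),
.rs (.join 2 1 2 2 1 1 [(0, 0)]),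
.rs (.join 1 32 6 4 0 4 [(5, 0)]),
.rs (.l2 2 9 10 3 1 1),
.rs (.part [23, 72, 160] [1, 0, 0] [] []),
.rs (.mono 2 136 140 1),
.rs (.hall [0] [0, 1, 6, 7]),
.rs (.part [72, 32, 144] [0, 0, 0] [7] []),
.rs (.lipl 0 4 84 1 80),
.rs (.join 2 1 4 3 2 2 [(0, 1)]),
.rs (.part [20, 105, 130] [0, 1, 0] [] []),
.rs (.part [65, 2, 132] [0, 0, 0] [56] []),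
.rs (.ordE 2 64 1),
.rs (.lipl 2 162 182 2 20),
.rs (.lip 0 40 45 7),
.rs (.join 2 2 2 2 1 1 [(1, 0)]),
.rs (.l2 1 9 17 0 1 1),
.rs (.part [32, 64, 152] [0, 0, 0] [7] []),
.rs (.lipl 0 2 82 1 80),
.rs (.deg 4 [2, 1, 0]),
.rs (.join 1 16 6 4 1 3 [(4, 0)]),
.rs (.part [80, 40, 135] [0, 0, 1] [] []),
.rs (.le 2 72 64 6 3),
.rs (.lipl 2 192 210 2 18),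
.rs (.join 1 2 6 3 2 3 [(1, 2)]),
.rs (.part [64, 3, 132] [0, 0, 0] [56] []),
.rs (.join 2 2 3 3 3 0 [(1, 0)]),
.rs (.join 1 2 3 2 2 1 [(1, 1)]),
.rs (.part [64, 40, 144] [0, 0, 0] [7] []),
.rs (.part [18, 64, 173] [0, 0, 1] [] []),
.rs (.part [80, 43, 132] [0, 1, 0] [] []),
.rs (.part [102, 9, 144] [1, 0, 0] [] []),
.rs (.ab 1 4),
.rs (.ordE 1 64 1),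
.rs (.lipl 1 17 27 0 10),
.rs (.deg 2 [2, 0, 1]),
.rs (.part [64, 16, 168] [0, 0, 0] [7] []),
.rs (.ab2 0 20),
.rs (.l2 0 129 130 7 1 1),
.rs (.l2 2 12 20 2 1 1),
.rs (.part [132, 2, 65] [0, 0, 0] [56] []),
.rs (.join 1 1 5 4 4 0 [(0, 0)]),
.rs (.lipl 2 192 226 2 34),
.rs (.l2 2 18 20 4 1 1),
.rs (.lipl 2 138 155 2 17),
.rs (.join 2 1 4 3 1 3 [(0, 1)]),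
.rs (.le 1 9 8 3 3),
.rs (.lipl 0 48 58 1 10),
.rs (.deg 0 [1, 2, 0]),
.rs (.lip 0 64 70 7),
.rs (.join 2 2 5 3 1 2 [(1, 0)]),
.rs (.join 1 1 5 4 2 2 [(0, 0)]),
.rs (.le 2 80 64 6 3),
.rs (.l2 1 17 18 4 1 1),
.rs (.part [68, 43, 144] [0, 1, 0] [] []),
.rs (.part [135, 8, 112] [1, 0, 0] [] []),
.rs (.ab2 1 48),
.rs (.part [48, 13, 194] [0, 1, 0] [] []),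
.rs (.lipl 0 34 46 2 12),
.rs (.lipl 2 162 234 2 72),
.rs (.part [112, 6, 137] [1, 0, 0] [] []),
.rs (.join 1 16 6 3 2 1 [(4, 0)]),
.rs (.l2 2 18 24 4 1 2),
.rs (.mono 0 4 20 1),
.rs (.part [58, 65, 132] [1, 0, 0] [] []),
.rs (.l2 2 9 10 3 1 2),
.rs (.part [70, 17, 168] [0, 0, 1] [] []),
.rs (.l2 1 3 9 0 2 1),
.rs (.deg 2 [3, 0, 0]),
.rs (.hall [0] [3, 4, 6, 7]),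
.rs (.join 2 2 4 3 2 2 [(1, 1)]),
.rs (.deg 6 [1, 0, 3]),
.degU 1 [(1, 2), (2, 3)],
.rs (.mono 1 32 96 1),
.rs (.join 1 1 2 2 1 1 [(0, 0)]),
.rs (.deg 2 [1, 2, 0]),
.rs (.join 2 1 3 3 2 2 [(0, 1)]),
.rs (.l2 2 66 68 6 1 1),
.rs (.lip 0 48 53 7),
.rs (.lipl 0 6 23 1 17),
.rs (.mono 2 16 80 1),
.rs (.join 1 1 4 3 3 2 [(0, 2)]),
.rs (.l2 2 66 80 6 1 1),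
.rs (.join 1 1 2 2 2 0 [(0, 0)]),
.rs (.le 2 12 8 3 2),
.rs (.lipl 1 9 27 2 18),
.rs (.join 0 8 4 2 2 0 [(3, 0)]),
.rs (.join 2 32 6 3 3 2 [(5, 2)]),
.rs (.ab2 0 48),
.rs (.join 2 4 5 3 3 2 [(2, 2)]),
.rs (.ab 0 6),
.rs (.join 1 1 4 3 1 2 [(0, 0)]),
.rs (.part [64, 2, 133] [0, 0, 0] [56] []),
.rs (.join 1 2 6 4 0 4 [(1, 0)]),
.rs (.l2 2 10 18 1 1 1),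
.rs (.lip 0 68 92 56),
.rs (.join 2 18 5 3 2 1 [(1, 0), (4, 0)]),
.rs (.part [96, 9, 150] [0, 0, 1] [] []),
.rs (.lipl 0 12 30 2 18),
.rs (.mono 2 144 146 1),
.rs (.l2 2 9 17 0 1 1),
.rs (.part [18, 73, 164] [0, 1, 0] [] []),
.rs (.lipl 0 48 57 1 9),
.rs (.join 1 1 3 2 2 2 [(0, 2)]),
.rs (.join 2 4 3 3 2 1 [(2, 0)]),
.rs (.lip 2 160 167 7),
.rs (.lipl 0 20 53 1 33),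
.rs (.lipl 2 162 171 1 9),
.rs (.l2 2 18 34 1 1 1),
.rs (.join 1 1 2 3 2 1 [(0, 0)]),
.rs (.part [69, 48, 138] [1, 0, 0] [] []),
.rs (.deg 4 [1, 2, 0]),
.rs (.lip 0 64 69 7),
.rs (.mono 2 192 200 1),
.rs (.l2 2 10 24 3 1 2),
.rs (.l2 2 72 96 6 1 1),
.rs (.lip 1 8 13 7),
.rs (.join 0 64 7 2 1 1 [(6, 0)]),
.rs (.part [36, 3, 216] [0, 0, 1] [] []),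
.rs (.join 2 4 4 2 1 1 [(2, 0)]),
.rs (.part [1, 66, 132] [0, 0, 0] [56] []),
.degU 4 [(0, 1), (1, 1), (2, 3)],
.rs (.part [40, 16, 192] [0, 0, 0] [7] []),
.rs (.l2 1 10 34 1 1 1),
.rs (.l2 0 12 36 2 1 1),
.rs (.l2 2 10 72 3 2 1),
.rs (.join 2 8 5 3 0 3 [(3, 0)]),
.rs (.lipl 1 65 75 2 10),
.rs (.part [20, 72, 163] [0, 0, 1] [] []),
.rs (.l2 2 18 48 4 2 1),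
.rs (.l2 0 33 40 5 1 1),
.rs (.lipl 2 146 158 1 12),
.rs (.l2 1 9 17 0 2 1),
.rs (.l2 2 20 24 4 1 1),
.rs (.join 2 1 1 2 1 1 [(0, 0)]),
.rs (.part [34, 8, 213] [0, 0, 1] [] []),
.rs (.join 2 1 6 2 1 1 [(0, 0)]),
.rs (.join 2 8 6 3 2 1 [(3, 0)]),
.rs (.mono 2 192 208 1),
.rs (.le 2 17 1 0 3),
.rs (.lipl 0 32 50 2 18),
.rs (.lipl 1 10 27 2 17),
.rs (.l2 1 6 10 1 2 1),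
.rs (.le 2 10 8 3 1),
.rs (.l2 0 65 72 6 1 1),
.rs (.part [86, 9, 160] [1, 0, 0] [] []),
.rs (.l2 2 20 24 4 1 2),
.rs (.l2 2 24 40 3 1 1),
.rs (.ordE 1 1 2),
.rs (.le 2 18 16 4 4),
.rs (.part [6, 9, 240] [0, 0, 1] [] []),
.rs (.deg 1 [0, 3, 0]),
.rs (.lipl 0 33 43 0 10),
.rs (.lipl 0 20 29 1 9),
.rs (.lipl 1 1 81 2 80),
.rs (.lip 1 1 41 56),
.rs (.le 2 40 8 3 1),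
.rs (.l2 2 10 72 3 1 2),
.rs (.le 2 20 16 4 2),
.rs (.le 1 10 2 1 2),
.rs (.lipl 0 18 27 1 9),
.rs (.join 2 1 5 3 1 3 [(0, 1)]),
.rs (.mono 2 192 193 1),
.rs (.ordE 1 8 2),
.rs (.l2 1 10 18 1 1 1),
.rs (.join 2 1 4 3 2 3 [(0, 2)]),
.rs (.join 1 1 4 3 3 0 [(0, 0)]),
.rs (.join 1 16 5 4 2 2 [(4, 0)]),
.rs (.join 2 4 4 3 3 1 [(2, 1)]),
.rs (.mono 0 32 36 1),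
.rs (.mono 1 4 68 1),
.rs (.ab2 0 33),
.rs (.l2 2 65 72 6 1 1),
.rs (.join 2 1 3 2 1 1 [(0, 0)]),
.rs (.ab2 0 40),
.rs (.le 2 18 16 4 3),
.rs (.deg 4 [0, 2, 1]),
.rs (.l2 2 3 18 1 2 1),
.rs (.part [96, 24, 135] [0, 0, 1] [] []),
.rs (.join 2 4 6 3 2 1 [(2, 0)]),
.rs (.mono 1 64 66 1),
.rs (.join 1 3 4 3 2 1 [(0, 0), (1, 0)]),
.rs (.part [32, 8, 208] [0, 0, 0] [7] []),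
.rs (.lipl 1 3 75 2 72),
.rs (.lipl 0 32 98 1 66),
.rs (.deg 5 [1, 0, 2]),
.rs (.ordE 1 64 2),
.rs (.join 2 4 5 2 1 1 [(2, 0)]),
.rs (.part [17, 74, 164] [0, 1, 0] [] []),
.rs (.deg 0 [0, 1, 2]),
.rs (.lipl 1 17 83 2 66),
.rs (.l2 2 3 6 1 1 1),
.rs (.lipl 0 36 45 2 9),
.rs (.mono 0 1 33 1),
.rs (.part [8, 48, 192] [0, 0, 0] [7] []),
.rs (.lipl 1 17 29 2 12),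
.rs (.ab2 0 36),
.rs (.mono 0 64 192 1),
.rs (.join 2 2 5 3 1 3 [(1, 1)]),
.rs (.lipl 0 6 23 2 17),
.rs (.l2 1 9 10 3 2 1),
.rs (.ab2 1 66),
.rs (.join 2 2 4 3 1 3 [(1, 1)]),
.degU 0 [(1, 3), (2, 2)],
.degU 0 [(1, 2), (2, 3)],
.rs (.l2 0 66 72 6 1 1),
.rs (.l2 0 68 80 6 1 1),
.rs (.lipl 1 9 29 1 20),
.rs (.join 2 2 2 3 2 2 [(1, 1)]),
.rs (.join 1 1 4 2 2 1 [(0, 1)]),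
.rs (.part [36, 64, 152] [0, 0, 0] [3] []),
.rs (.join 0 1 5 2 0 2 [(0, 0)]),
.rs (.l2 2 33 34 5 1 1),
.rs (.l2 1 9 40 3 1 1),
.rs (.mono 2 16 24 1),
.rs (.part [144, 64, 40] [0, 0, 0] [7] []),
.rs (.part [36, 75, 144] [0, 1, 0] [] []),
.rs (.lipl 1 64 97 1 33),
.rs (.le 2 20 4 2 3),
.rs (.part [34, 73, 148] [0, 1, 0] [] []),
.rs (.ordE 0 8 1),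
.rs (.join 1 2 3 3 3 1 [(1, 1)]),
.rs (.le 2 17 1 0 2),
.rs (.l2 2 18 24 4 2 1),
.rs (.l2 2 18 80 4 1 1),
.rs (.join 2 1 5 3 2 1 [(0, 0)]),
.rs (.join 0 8 6 2 1 1 [(3, 0)]),
.rs (.join 2 4 5 3 1 3 [(2, 1)]),
.rs (.lipl 2 148 214 2 66),
.rs (.part [92, 2, 161] [1, 0, 0] [] []),
.rs (.hall [2] [0, 1, 2, 6]),
.rs (.ab 1 3),
.rs (.l2 1 5 9 0 2 1),
.rs (.deg 7 [3, 1, 0]),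
.rs (.lipl 2 192 212 2 20),
.rs (.join 0 2 4 2 1 1 [(1, 0)]),
.rs (.lipl 2 160 240 2 80),
.rs (.le 1 17 16 4 1),
.rs (.lipl 1 9 45 2 36),
.rs (.part [20, 3, 232] [0, 0, 1] [] []),
.rs (.ordE 0 64 2),
.rs (.part [68, 1, 130] [0, 0, 0] [56] []),
.degU 3 [(1, 3), (2, 2)],
.rs (.join 1 10 4 4 3 1 [(1, 0), (3, 0)]),
.rs (.le 1 10 8 3 2),
.rs (.deg 0 [0, 3, 0]),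
.degU 3 [(0, 1), (1, 2), (2, 2)],
.rs (.ordE 2 64 2),
.rs (.part [64, 32, 152] [0, 0, 0] [7] []),
.rs (.le 2 34 2 1 3),
.rs (.part [99, 16, 140] [1, 0, 0] [] []),
.rs (.join 1 1 4 4 3 1 [(0, 0)]),
.rs (.lipl 1 18 27 1 9),
.rs (.join 0 4 6 2 1 1 [(2, 0)]),
.rs (.part [108, 2, 145] [1, 0, 0] [] []),
.rs (.part [4, 65, 186] [0, 0, 1] [] []),
.rs (.hall [1] [3, 4, 5, 7]),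
.rs (.hall [0] [0, 2, 6, 7]),
.rs (.le 0 20 4 2 1),
.rs (.part [36, 9, 210] [0, 0, 1] [] []),
.rs (.l2 1 9 24 3 1 1),
.rs (.deg 1 [2, 1, 0]),
.rs (.join 1 2 2 4 2 2 [(1, 0)]),
.rs (.l2 1 3 17 0 1 2),
.rs (.join 1 6 3 4 2 2 [(1, 0), (2, 0)]),
.rs (.join 2 2 6 3 2 1 [(1, 0)]),
.rs (.lipl 0 6 86 2 80),
.rs (.join 0 32 6 2 1 1 [(5, 0)]),
.rs (.lipl 1 72 89 2 17),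
.rs (.l2 2 12 20 2 1 2),
.rs (.lipl 0 33 43 1 10),
.rs (.lip 1 8 15 7),
.rs (.mono 2 144 176 1),
.rs (.join 0 8 4 2 1 1 [(3, 0)]),
.rs (.deg 6 [0, 3, 1]),
.rs (.lip 0 64 104 56),
.rs (.mono 0 16 18 1),
.rs (.join 2 16 5 3 1 2 [(4, 0)]),
.rs (.lipl 0 36 45 1 9),
.rs (.join 0 1 2 2 2 0 [(0, 0)]),
.rs (.le 1 66 2 1 2),
.rs (.lip 2 128 176 56),
.rs (.join 1 10 4 3 2 1 [(1, 0), (3, 0)]),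
.rs (.ordE 0 2 2),
.rs (.l2 2 66 72 6 1 1),
.rs (.part [3, 4, 192] [0, 0, 0] [56] []),
.rs (.mono 0 64 72 1),
.rs (.mono 2 66 98 1),
.rs (.l2 0 48 144 4 1 1),
.rs (.mono 0 32 48 1),
.rs (.l2 2 3 18 1 1 1),
.rs (.l2 2 5 68 2 1 1),
.rs (.le 2 18 16 4 2),
.rs (.part [2, 68, 129] [0, 0, 0] [56] []),
.degU 0 [(1, 5)],
.rs (.deg 1 [0, 2, 1]),
.rs (.un 2 5),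
.rs (.mono 2 8 72 1),
.rs (.join 1 5 3 4 2 2 [(0, 0), (2, 0)]),
.rs (.part [36, 89, 130] [0, 1, 0] [] []),
.rs (.part [64, 4, 131] [0, 0, 0] [56] []),
.rs (.mono 0 64 80 1),
.rs (.l2 2 72 80 6 1 1),
.rs (.srt 1 4 1 3 3),
.rs (.part [98, 9, 148] [1, 0, 0] [] []),
.rs (.hall [0] [3, 5, 6, 7]),
.rs (.part [8, 18, 229] [0, 0, 1] [] []),
.rs (.part [36, 73, 146] [0, 1, 0] [] []),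
.degU 1 [(0, 1), (1, 1), (2, 3)],
.rs (.lip 2 128 135 7),
.rs (.lip 1 8 11 7),
.rs (.l2 2 10 12 3 1 1),
.rs (.le 1 5 4 2 1),
.rs (.deg 6 [2, 0, 2]),
.rs (.mono 2 160 161 1),
.degU 4 [(0, 3), (1, 1), (2, 1)],
.rs (.lipl 2 138 234 2 96),
.rs (.part [32, 80, 143] [0, 0, 1] [] []),
.degU 3 [(0, 4), (1, 1)],
.rs (.l2 2 9 12 3 2 1),
.rs (.part [6, 64, 129] [0, 0, 0] [56] []),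
.rs (.lipl 1 9 75 0 66),
.rs (.part [64, 1, 134] [0, 0, 0] [56] []),
.rs (.lipl 1 9 27 1 18),
.rs (.l2 0 3 6 1 1 1),
.rs (.mono 2 9 137 1),
.rs (.part [30, 64, 161] [1, 0, 0] [] []),
.rs (.part [116, 9, 130] [1, 0, 0] [] []),
.rs (.lip 0 68 116 56),
.rs (.ab 0 3),
.rs (.mono 2 144 148 1),
.rs (.part [16, 9, 230] [0, 0, 1] [] []),
.rs (.l2 2 9 24 3 1 1),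
.rs (.ab 1 0),
.rs (.part [90, 1, 164] [1, 0, 0] [] []),
.rs (.mono 2 160 224 1),
.rs (.lipl 0 18 90 2 72),
.rs (.part [2, 65, 132] [0, 0, 0] [56] []),
.rs (.lipl 2 164 173 1 9),
.rs (.lipl 0 64 98 1 34),
.rs (.l2 2 33 40 5 2 1),
.rs (.lipl 0 33 51 2 18),
.rs (.part [64, 8, 176] [0, 0, 0] [7] []),
.rs (.join 2 1 1 3 1 2 [(0, 0)]),
.rs (.part [2, 9, 244] [0, 0, 1] [] []),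
.rs (.mono 0 32 160 1),
.rs (.lipl 0 4 76 1 72),
.rs (.join 1 4 6 4 1 3 [(2, 0)]),
.rs (.l2 2 17 20 4 1 1),
.rs (.l2 0 6 130 1 1 1),
.rs (.lipl 2 164 174 2 10),
.rs (.lipl 0 10 43 1 33),
.rs (.le 2 10 8 3 2),
.rs (.l2 0 3 18 1 1 1),
.rs (.lipl 2 130 198 2 68),
.rs (.lipl 2 164 229 1 65),
.rs (.join 2 1 5 3 2 3 [(0, 2)]),
.rs (.join 2 8 6 3 3 0 [(3, 0)]),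
.rs (.join 2 4 5 3 2 1 [(2, 0)]),
.rs (.join 1 12 4 4 2 2 [(2, 0), (3, 0)]),
.rs (.le 1 6 4 2 1),
.rs (.join 2 2 3 3 2 2 [(1, 1)]),
.rs (.le 1 33 32 5 1),
.rs (.lipl 0 34 46 1 12),
.rs (.part [114, 9, 132] [1, 0, 0] [] []),
.rs (.join 2 1 2 3 0 3 [(0, 0)]),
.rs (.lipl 0 68 86 2 18),
.rs (.mono 2 1 17 1),
.rs (.join 0 16 6 2 1 1 [(4, 0)]),
.rs (.l2 1 9 17 0 1 2),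
.rs (.lipl 2 145 155 1 10),
.rs (.le 2 20 16 4 4),
.rs (.join 2 32 6 2 1 1 [(5, 0)]),
.rs (.part [16, 96, 136] [0, 0, 0] [7] []),
.rs (.ordE 0 16 1),
.rs (.join 1 8 4 3 2 1 [(3, 0)]),
.rs (.ab2 1 9),
.rs (.mono 1 2 66 1),
.rs (.un 1 4),
.rs (.join 1 1 2 4 3 1 [(0, 0)]),
.rs (.ab2 0 68),
.rs (.part [29, 64, 162] [1, 0, 0] [] []),
.rs (.le 1 66 2 1 3),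
.rs (.part [24, 64, 160] [0, 0, 0] [7] []),
.rs (.l2 1 9 24 3 2 1),
.rs (.lipl 0 17 27 0 10),
.rs (.ab2 0 18),
.rs (.mono 2 132 148 1),
.rs (.part [32, 16, 200] [0, 0, 0] [7] []),
.rs (.lipl 2 164 182 0 18),
.rs (.join 2 2 5 3 0 3 [(1, 0)]),
.rs (.part [1, 6, 192] [0, 0, 0] [56] []),
.rs (.part [50, 9, 196] [1, 0, 0] [] []),
.rs (.lip 0 128 135 7),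
.rs (.part [51, 72, 132] [1, 0, 0] [] []),
.rs (.join 2 4 5 3 2 2 [(2, 1)]),
.rs (.ab2 1 80),
.rs (.join 1 8 4 3 3 0 [(3, 0)]),
.rs (.join 2 2 2 3 2 1 [(1, 0)]),
.rs (.lip 2 160 163 7),
.rs (.part [199, 8, 48] [1, 0, 0] [] []),
.rs (.join 1 3 3 3 2 1 [(0, 0), (1, 0)]),
.rs (.l2 2 34 96 5 2 1),
.degU 4 [(1, 2), (2, 3)],
.rs (.join 0 32 6 2 2 0 [(5, 0)]),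
.rs (.le 2 18 2 1 1),
.rs (.join 1 16 6 3 0 3 [(4, 0)]),
.rs (.l2 2 12 20 2 2 1),
.rs (.part [160, 15, 80] [0, 1, 0] [] []),
.rs (.deg 0 [1, 1, 1]),
.rs (.le 2 48 16 4 1),
.rs (.part [45, 66, 144] [1, 0, 0] [] []),
.rs (.mono 1 32 34 1),
.rs (.join 0 2 3 2 1 1 [(1, 0)]),
.rs (.join 1 1 3 3 3 1 [(0, 1)]),
.rs (.l2 2 36 40 5 1 1),
.rs (.join 0 4 3 2 2 0 [(2, 0)]),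
.rs (.lipl 1 32 97 2 65),
.rs (.part [20, 97, 138] [0, 1, 0] [] []),
.rs (.join 1 3 5 4 4 0 [(0, 0), (1, 0)]),
.rs (.part [96, 8, 144] [0, 0, 0] [7] []),
.rs (.lipl 2 140 173 1 33),
.rs (.join 1 2 4 3 2 1 [(1, 0)]),
.rs (.join 1 1 3 3 3 2 [(0, 2)]),
.rs (.lipl 2 148 181 0 33),
.rs (.lipl 0 48 114 2 66),
.rs (.l2 2 17 48 4 1 2),
.rs (.part [136, 64, 48] [0, 0, 0] [7] []),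
.rs (.join 0 2 5 2 1 1 [(1, 0)]),
.rs (.ordE 2 16 1),
.rs (.lipl 1 64 81 1 17),
.rs (.l2 2 68 72 6 1 1),
.rs (.part [70, 40, 145] [1, 0, 0] [] []),
.rs (.join 2 2 5 3 3 0 [(1, 0)]),
.rs (.join 1 10 5 3 2 1 [(1, 0), (3, 0)]),
.rs (.mono 0 16 48 1),
.rs (.ordE 1 32 2),
.rs (.mono 1 32 48 1),
.rs (.part [68, 2, 129] [0, 0, 0] [56] []),
.rs (.deg 2 [2, 1, 0]),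
.rs (.deg 5 [3, 0, 0]),
.rs (.join 0 4 4 2 0 2 [(2, 0)]),
.rs (.part [84, 9, 162] [1, 0, 0] [] []),
.rs (.part [48, 64, 143] [0, 0, 1] [] []),
.rs (.deg 6 [1, 1, 2]),
.rs (.part [53, 72, 130] [1, 0, 0] [] []),
.rs (.lip 2 164 228 64),
.rs (.join 2 1 1 3 2 2 [(0, 1)]),
.rs (.ordE 2 4 2),
.rs (.join 0 2 7 2 1 1 [(1, 0)]),
.rs (.mono 0 2 6 1),
.rs (.ordE 0 2 1),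
.rs (.part [51, 64, 140] [1, 0, 0] [] []),
.rs (.l2 2 3 5 0 1 1),
.rs (.l2 2 24 80 4 1 1),
.rs (.l2 1 17 20 4 1 1),
.rs (.l2 0 17 48 4 1 1),
.rs (.part [96, 27, 132] [0, 1, 0] [] []),
.rs (.join 1 2 3 2 1 1 [(1, 0)]),
.rs (.deg 3 [1, 0, 2]),
.rs (.join 2 4 6 2 1 1 [(2, 0)]),
.rs (.join 0 8 7 2 1 1 [(3, 0)]),
.rs (.join 1 6 3 3 2 1 [(1, 0), (2, 0)]),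
.rs (.part [98, 17, 140] [1, 0, 0] [] []),
.rs (.l2 2 40 72 3 1 1),
.rs (.join 1 2 4 4 2 2 [(1, 0)]),
.degU 5 [(0, 1), (1, 1), (2, 3)],
.rs (.part [132, 1, 66] [0, 0, 0] [56] []),
.rs (.l2 2 3 34 1 2 1),
.rs (.join 2 4 3 3 3 2 [(2, 2)]),
.rs (.srt 1 3 1 0 1),
.rs (.part [4, 66, 129] [0, 0, 0] [56] []),
.rs (.mono 1 64 65 1),
.rs (.join 1 2 6 4 1 3 [(1, 0)]),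
.rs (.join 1 8 4 4 2 2 [(3, 0)]),
.rs (.lipl 1 9 43 2 34),
.rs (.join 0 1 1 2 2 0 [(0, 0)]),
.rs (.mono 2 80 84 1),
.rs (.lipl 0 6 78 2 72),
.rs (.ordE 1 8 1),
.rs (.join 1 1 2 4 4 0 [(0, 0)]),
.rs (.le 2 20 16 4 3),
.rs (.ab2 1 10),
.rs (.ab 0 0),
.rs (.lip 1 65 81 16),
.rs (.lipl 1 9 27 0 18),
.rs (.part [132, 64, 3] [0, 0, 0] [56] []),
.rs (.part [16, 72, 160] [0, 0, 0] [7] []),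
.rs (.mono 2 80 208 1),
.rs (.join 1 1 5 3 3 0 [(0, 0)]),
.rs (.part [160, 16, 72] [0, 0, 0] [7] []),
.rs (.l2 2 20 80 4 1 2),
.rs (.lipl 0 16 82 1 66),
.rs (.ab2 0 96),
.rs (.deg 6 [2, 2, 0]),
.rs (.ab2 0 24),
.rs (.ordE 1 16 2),
.rs (.ab 0 2),
.rs (.l2 0 36 48 5 1 1),
.rs (.lipl 2 164 182 1 18),
.rs (.un 1 1),
.rs (.join 0 8 7 2 2 0 [(3, 0)]),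
.rs (.lipl 1 10 27 1 17),
.rs (.lipl 1 1 73 0 72),
.rs (.l2 1 3 9 0 1 2),
.rs (.lipl 2 162 179 0 17),
.rs (.join 2 2 5 3 2 3 [(1, 2)]),
.rs (.part [16, 72, 167] [0, 0, 1] [] []),
.rs (.join 1 9 5 3 2 1 [(0, 0), (3, 0)]),
.rs (.lip 0 48 54 7),
.rs (.l2 2 66 72 6 1 2),
.rs (.part [34, 80, 141] [0, 0, 1] [] []),
.rs (.hall [1] [3, 4, 5, 6]),
.rs (.join 2 2 3 3 3 2 [(1, 2)]),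
.rs (.l2 2 10 12 3 2 1),
.rs (.part [32, 72, 144] [0, 0, 0] [7] []),
.rs (.join 2 16 5 3 0 3 [(4, 0)]),
.rs (.lipl 0 6 102 2 96),
.rs (.srt 1 5 1 4 1),
.rs (.lipl 2 161 171 2 10),
.rs (.part [160, 8, 80] [0, 0, 0] [7] []),
.rs (.mono 2 2 66 1),
.degU 2 [(0, 4), (2, 1)],
.degU 1 [(0, 4), (2, 1)],
.rs (.lipl 2 134 143 1 9),
.degU 5 [(0, 2), (2, 3)],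
.rs (.deg 2 [0, 2, 1]),
.degU 0 [(0, 4), (1, 1)],
.rs (.join 1 1 6 4 4 0 [(0, 0)]),
.rs (.part [2, 4, 193] [0, 0, 0] [56] []),
.rs (.part [43, 64, 148] [1, 0, 0] [] []),
.rs (.l2 2 18 48 4 1 2),
.rs (.l2 0 40 160 5 1 1),
.rs (.mono 0 2 10 1),
.rs (.join 1 3 2 4 3 1 [(0, 0), (1, 0)]),
.rs (.join 2 1 4 3 2 1 [(0, 0)]),
.rs (.lipl 2 162 174 1 12),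
.rs (.mono 2 8 24 1),
.rs (.lipl 0 68 102 2 34),
.rs (.ab2 1 6),
.rs (.lip 0 192 199 7),
.rs (.join 2 8 5 3 2 2 [(3, 1)]),
.rs (.mono 2 130 131 1),
.rs (.part [70, 9, 176] [0, 0, 1] [] []),
.rs (.part [80, 8, 160] [0, 0, 0] [7] []),
.rs (.join 0 2 2 2 1 1 [(1, 0)]),
.rs (.l2 2 3 17 0 1 1),
.rs (.un 2 0),
.rs (.ordE 0 1 1),
.rs (.l2 2 10 34 1 1 1),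
.rs (.join 1 1 4 3 3 1 [(0, 1)]),
.rs (.le 2 33 1 0 1),
.rs (.lipl 1 9 89 2 80),
.rs (.part [66, 5, 184] [0, 0, 1] [] []),
.rs (.lipl 0 64 76 0 12),
.rs (.l2 2 36 40 5 2 1),
.rs (.lipl 0 64 98 2 34),
.rs (.l2 2 9 72 3 1 1),
.rs (.part [20, 9, 226] [0, 0, 1] [] []),
.degU 1 [(0, 1), (1, 2), (2, 2)],
.rs (.part [34, 1, 220] [0, 0, 1] [] []),
.rs (.lipl 2 160 232 0 72),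
.rs (.deg 3 [1, 2, 0]),
.rs (.join 1 16 6 3 1 2 [(4, 0)]),
.rs (.join 2 2 4 3 2 1 [(1, 0)]),
.rs (.lip 0 96 102 7),
.rs (.join 1 2 4 2 1 1 [(1, 0)]),
.rs (.join 2 3 4 3 2 1 [(0, 0), (1, 0)]),
.rs (.lip 0 40 43 7),
.rs (.lipl 2 164 181 0 17),
.rs (.l2 2 72 80 6 1 2),
.rs (.part [1, 64, 134] [0, 0, 0] [56] []),
.rs (.part [2, 5, 192] [0, 0, 0] [56] []),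
.rs (.deg 1 [1, 0, 2]),
.rs (.part [34, 29, 192] [0, 1, 0] [] []),
.degU 0 [(0, 3), (1, 1), (2, 1)],
.rs (.part [144, 8, 96] [0, 0, 0] [7] []),
.rs (.l2 2 10 34 1 1 2),
.rs (.part [45, 80, 130] [1, 0, 0] [] []),
.rs (.part [6, 1, 192] [0, 0, 0] [56] []),
.rs (.join 2 32 6 3 3 1 [(5, 1)]),
.rs (.join 2 8 6 3 2 2 [(3, 1)]),
.rs (.part [32, 80, 136] [0, 0, 0] [7] []),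
.rs (.lipl 1 9 75 1 66),
.rs (.part [10, 64, 181] [0, 0, 1] [] []),
.rs (.un 1 6),
.degU 4 [(0, 2), (1, 1), (2, 2)],
.rs (.part [36, 64, 155] [0, 0, 1] [] []),
.rs (.part [65, 6, 184] [0, 0, 1] [] []),
.rs (.join 1 1 4 2 1 1 [(0, 0)]),
.rs (.deg 7 [0, 1, 3]),
.rs (.part [129, 64, 6] [0, 0, 0] [56] []),
.rs (.deg 1 [2, 0, 1]),
.rs (.lipl 1 17 27 2 10),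
.rs (.join 2 16 5 3 1 3 [(4, 1)]),
.rs (.part [20, 73, 162] [0, 1, 0] [] []),
.rs (.le 1 24 16 4 1),
.rs (.join 2 8 4 3 2 2 [(3, 1)]),
.rs (.mono 2 66 194 1),
.rs (.join 1 1 2 3 2 2 [(0, 1)]),
.rs (.le 2 34 2 1 2),
.rs (.part [12, 81, 162] [0, 1, 0] [] []),
.rs (.lipl 0 12 29 1 17),
.rs (.part [17, 64, 174] [0, 0, 1] [] []),
.rs (.join 1 8 6 4 2 2 [(3, 0)]),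
.rs (.le 1 17 16 4 3),
.rs (.mono 1 16 80 1),
.rs (.l2 2 6 10 1 1 1),
.rs (.part [33, 64, 158] [0, 0, 1] [] []),
.rs (.srt 1 2 1 1 3),
.rs (.lip 1 1 25 56),
.rs (.join 1 2 6 3 1 2 [(1, 0)]),
.rs (.join 1 4 3 2 0 2 [(2, 0)]),
.degU 1 [(0, 2), (1, 2), (2, 1)],
.rs (.lipl 0 48 114 1 66),
.rs (.lipl 0 36 54 2 18),
.rs (.part [67, 48, 140] [1, 0, 0] [] []),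
.rs (.join 0 4 6 2 2 0 [(2, 0)]),
.rs (.mono 2 144 152 1),
.rs (.part [2, 1, 196] [0, 0, 0] [56] []),
.rs (.lip 1 65 89 56),
.rs (.l2 0 20 48 4 1 1),
.rs (.mono 1 32 40 1),
.rs (.join 0 4 4 2 1 1 [(2, 0)]),
.rs (.part [20, 75, 160] [0, 1, 0] [] []),
.rs (.part [64, 9, 182] [0, 0, 1] [] []),
.rs (.le 2 5 1 0 1),
.rs (.join 2 4 3 3 2 2 [(2, 1)]),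
.rs (.l2 2 9 40 3 1 1),
.rs (.part [45, 64, 146] [1, 0, 0] [] []),
.rs (.l2 2 24 72 3 2 1),
.rs (.le 2 48 32 5 1),
.rs (.deg 6 [2, 1, 1]),
.rs (.part [129, 2, 68] [0, 0, 0] [56] []),
.rs (.lipl 0 33 51 1 18),
.rs (.part [102, 8, 145] [1, 0, 0] [] []),
.rs (.deg 6 [1, 3, 0]),
.rs (.ab2 0 10),
.rs (.join 2 2 5 3 3 2 [(1, 2)]),
.rs (.l2 2 34 96 5 1 1),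
.rs (.join 1 1 1 3 3 0 [(0, 0)]),
.rs (.part [82, 9, 164] [1, 0, 0] [] []),
.rs (.l2 2 18 34 1 1 2),
.rs (.deg 3 [0, 1, 2]),
.rs (.part [54, 65, 136] [1, 0, 0] [] []),
.rs (.srt 1 4 1 3 1),
.rs (.join 2 8 4 3 2 1 [(3, 0)]),
.rs (.part [4, 64, 131] [0, 0, 0] [56] []),
.rs (.l2 2 24 48 4 1 1),
.rs (.part [66, 4, 129] [0, 0, 0] [56] []),
.rs (.lipl 1 64 73 1 9),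
.rs (.lipl 1 17 89 2 72),
.rs (.lipl 2 164 174 1 10),
.rs (.part [3, 64, 132] [0, 0, 0] [56] []),
.rs (.le 2 20 4 2 2),
.rs (.join 1 8 5 4 2 2 [(3, 0)]),
.rs (.l2 2 9 24 3 1 2),
.rs (.part [30, 65, 160] [1, 0, 0] [] []),
.rs (.ab 0 1),
.rs (.lipl 0 64 74 2 10),
.rs (.join 2 4 3 3 3 3 [(2, 3)]),
.rs (.join 1 2 6 3 2 2 [(1, 1)]),
.rs (.lipl 0 24 58 2 34),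
.rs (.ordE 1 8 3),
.rs (.mono 2 65 193 1),
.rs (.part [116, 2, 137] [1, 0, 0] [] []),
.rs (.mono 1 2 3 1),
.rs (.part [6, 57, 192] [0, 1, 0] [] []),
.rs (.part [100, 17, 138] [1, 0, 0] [] []),
.rs (.srt 1 2 1 1 1),
.rs (.lipl 0 2 74 1 72),
.rs (.join 2 16 5 3 2 1 [(4, 0)]),
.rs (.join 1 1 4 3 2 2 [(0, 1)]),
.rs (.part [54, 72, 129] [1, 0, 0] [] []),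
.rs (.join 2 4 4 3 3 3 [(2, 3)]),
.rs (.hall [0] [3, 4, 5, 7]),
.rs (.lip 0 6 54 56),
.rs (.join 1 2 3 4 2 2 [(1, 0)]),
.rs (.deg 7 [2, 1, 1]),
.rs (.le 2 34 2 1 1),
.rs (.l2 2 18 34 1 2 1),
.rs (.mono 2 132 134 1),
.degU 4 [(0, 1), (1, 2), (2, 2)],
.rs (.lipl 0 10 27 1 17),
.rs (.part [72, 48, 135] [0, 0, 1] [] []),
.rs (.join 0 1 1 2 1 1 [(0, 0)]),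
.rs (.lipl 2 144 153 1 9),
.degU 6 [(0, 1), (1, 3), (2, 2)],
.rs (.part [12, 64, 176] [0, 0, 0] [3] []),
.rs (.un 0 1),
.rs (.ab2 1 65),
.rs (.join 2 4 4 3 2 1 [(2, 0)]),
.rs (.lipl 2 140 157 1 17),
.rs (.hall [1] [4, 5, 6, 7]),
.degU 3 [(0, 3), (1, 1), (2, 1)],
.rs (.l2 1 9 12 3 1 1),
.rs (.part [2, 64, 133] [0, 0, 0] [56] []),
.rs (.ordE 2 2 2),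
.rs (.deg 2 [1, 0, 2]),
.rs (.ab2 1 17),
.rs (.join 0 2 6 2 2 0 [(1, 0)]),
.rs (.l2 0 5 12 2 1 1),
.rs (.l2 1 3 34 1 1 1),
.rs (.part [20, 64, 171] [0, 0, 1] [] []),
.rs (.mono 0 18 22 1),
.rs (.ab2 0 34),
.rs (.le 2 36 32 5 2),
.rs (.lipl 2 140 220 0 80),
.rs (.ordE 1 1 3),
.rs (.join 2 16 5 3 3 0 [(4, 0)]),
.rs (.lipl 2 176 186 2 10),
.rs (.l2 2 34 66 1 1 1),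
.rs (.ordE 0 4 1),
.rs (.join 2 16 6 3 3 2 [(4, 2)]),
.rs (.l2 0 12 20 2 1 1),
.rs (.lipl 2 138 171 1 33),
.rs (.lipl 2 146 179 1 33),
.rs (.join 1 4 3 4 2 2 [(2, 0)]),
.rs (.lipl 1 9 75 2 66),
.rs (.join 2 1 5 3 1 2 [(0, 0)]),
.rs (.mono 2 130 138 1),
.rs (.part [106, 1, 148] [1, 0, 0] [] []),
.rs (.join 2 1 3 3 1 2 [(0, 0)]),
.rs (.deg 4 [1, 1, 1]),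
.rs (.join 0 16 5 2 1 1 [(4, 0)]),
.rs (.lip 0 66 90 56),
.rs (.le 0 6 2 1 1),
.rs (.l2 1 6 66 1 1 2),
.rs (.join 1 18 5 3 2 1 [(1, 0), (4, 0)]),
.rs (.l2 0 10 40 3 1 1),
.rs (.part [76, 17, 162] [1, 0, 0] [] []),
.rs (.l2 2 3 66 1 1 1),
.rs (.mono 2 1 9 1),
.rs (.l2 2 18 24 4 1 1),
.rs (.l2 2 10 34 1 2 1),
.rs (.l2 0 18 24 4 1 1),
.rs (.lipl 0 64 84 2 20),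
.rs (.lipl 2 161 171 1 10),
.rs (.join 2 1 3 3 2 1 [(0, 0)]),
.rs (.lipl 0 34 106 2 72),
.rs (.lipl 2 161 173 2 12),
.rs (.part [8, 32, 208] [0, 0, 0] [7] []),
.rs (.deg 3 [2, 1, 0]),
.rs (.join 2 16 6 3 2 1 [(4, 0)]),
.rs (.join 2 2 6 2 1 1 [(1, 0)]),
.rs (.ab2 0 12),
.rs (.part [20, 43, 192] [0, 1, 0] [] []),
.rs (.ab2 1 72),
.rs (.lipl 0 10 30 1 20),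
.rs (.part [102, 16, 137] [1, 0, 0] [] []),
.rs (.part [64, 24, 160] [0, 0, 0] [7] []),
.degU 3 [(0, 2), (1, 1), (2, 2)],
.rs (.lipl 2 160 169 1 9),
.rs (.join 2 4 4 3 3 2 [(2, 2)]),
.rs (.mono 1 16 24 1),
.rs (.part [12, 1, 242] [0, 0, 1] [] []),
.rs (.l2 1 3 10 1 1 1),
.rs (.mono 2 72 200 1),
.degU 4 [(1, 1), (2, 4)],
.rs (.mono 2 130 146 1),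
.rs (.join 2 2 3 2 1 1 [(1, 0)]),
.rs (.lip 0 20 84 64),
.rs (.part [135, 16, 104] [1, 0, 0] [] []),
.rs (.part [40, 64, 144] [0, 0, 0] [7] []),
.rs (.l2 2 5 6 2 1 1),
.rs (.join 2 4 3 2 1 1 [(2, 0)]),
.rs (.mono 2 1 3 1),
.degU 1 [(0, 3), (1, 1), (2, 1)],
.rs (.lipl 0 64 98 0 34),
.rs (.mono 1 4 6 1),
.rs (.join 2 1 4 3 1 2 [(0, 0)]),
.rs (.l2 0 36 40 5 1 1),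
.rs (.l2 2 18 48 4 1 1),
.rs (.part [64, 18, 173] [0, 0, 1] [] []),
.degU 3 [(1, 2), (2, 3)],
.rs (.le 1 65 64 6 1),
.rs (.ab2 1 24),
.rs (.part [12, 83, 160] [0, 1, 0] [] []),
.rs (.part [5, 2, 192] [0, 0, 0] [56] []),
.rs (.join 1 1 3 3 1 2 [(0, 0)]),
.rs (.srt 1 5 1 4 2),
.rs (.le 2 33 1 0 2),
.rs (.lipl 0 6 15 1 9),
.rs (.part [64, 12, 179] [0, 0, 1] [] []),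
.rs (.join 1 8 5 4 3 1 [(3, 0)]),
.rs (.ab2 0 65),
.rs (.lipl 2 132 198 1 66),
.rs (.ab2 1 5),
.rs (.l2 2 10 72 3 1 1),
.rs (.ab 1 5),
.rs (.part [12, 64, 179] [0, 0, 1] [] []),
.rs (.lipl 0 64 100 0 36),
.rs (.l2 2 9 12 3 1 1),
.rs (.join 1 9 5 4 4 0 [(0, 0), (3, 0)]),
.rs (.ordE 1 16 3),
.rs (.un 2 3),
.rs (.mono 0 32 34 1),
.rs (.lipl 2 138 155 1 17),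
.degU 1 [(0, 5)],
.degU 2 [(0, 3), (2, 2)],
.rs (.part [20, 66, 169] [0, 0, 1] [] []),
.rs (.le 2 72 64 6 1),
.rs (.part [36, 1, 218] [0, 0, 1] [] []),
.rs (.join 2 1 6 3 2 1 [(0, 0)]),
.rs (.l2 2 20 24 4 2 1),
.rs (.join 2 4 5 3 3 1 [(2, 1)]),
.rs (.un 1 2),
.rs (.join 2 4 3 3 3 1 [(2, 1)]),
.rs (.lip 0 48 51 7),
.rs (.lipl 0 12 30 1 18),
.rs (.join 1 2 3 3 2 1 [(1, 0)]),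
.rs (.l2 0 17 20 4 1 1),
.rs (.join 1 1 3 3 2 1 [(0, 0)]),
.rs (.mono 1 64 72 1),
.degU 0 [(0, 1), (1, 4)],
.rs (.un 2 1),
.rs (.join 1 10 5 4 4 0 [(1, 0), (3, 0)]),
.rs (.srt 1 2 1 1 2),
.rs (.le 2 34 32 5 3),
.rs (.lipl 0 34 102 0 68),
.rs (.deg 6 [1, 2, 1]),
.rs (.mono 0 4 36 1),
.rs (.lipl 2 164 182 2 18),
.rs (.part [33, 6, 216] [0, 0, 1] [] []),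
.rs (.l2 0 18 48 4 1 1),
.rs (.join 1 17 5 4 4 1 [(0, 1), (4, 0)]),
.rs (.le 1 12 4 2 1),
.rs (.join 1 1 3 4 3 1 [(0, 0)]),
.rs (.join 1 16 6 4 0 4 [(4, 0)]),
.rs (.part [48, 8, 192] [0, 0, 0] [7] []),
.rs (.join 0 1 3 2 1 1 [(0, 0)]),
.rs (.join 1 8 5 4 4 0 [(3, 0)]),
.rs (.ab2 2 3),
.rs (.join 1 1 3 2 2 1 [(0, 1)]),
.rs (.l2 2 18 80 4 1 2),
.rs (.ab 0 4),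
.rs (.ordE 0 128 2),
.rs (.lip 0 5 53 56),
.rs (.l2 0 3 10 1 1 1),
.rs (.lipl 0 34 43 1 9),
.rs (.lipl 2 162 179 1 17),
.rs (.part [48, 9, 198] [0, 0, 1] [] []),
.rs (.l2 2 17 24 4 2 1),
.degU 0 [(0, 1), (1, 3), (2, 1)],
.rs (.join 2 2 2 3 1 2 [(1, 0)]),
.rs (.lipl 2 164 230 1 66),
.rs (.deg 1 [0, 1, 2]),
.rs (.part [4, 9, 242] [0, 0, 1] [] []),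
.rs (.l2 2 10 40 3 1 1),
.rs (.srt 1 5 1 4 3),
.rs (.ab 1 1),
.rs (.ab 1 2),
.rs (.mono 2 192 224 1),
.rs (.ordE 1 2 2),
.rs (.part [34, 89, 132] [0, 1, 0] [] []),
.rs (.join 1 1 5 3 2 1 [(0, 0)]),
.rs (.un 0 4),
.rs (.join 2 8 5 3 1 2 [(3, 0)]),
.rs (.join 2 2 6 3 1 2 [(1, 0)]),
.rs (.part [69, 40, 146] [1, 0, 0] [] []),
.rs (.part [24, 32, 192] [0, 0, 0] [7] []),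
.rs (.join 1 2 5 3 2 1 [(1, 0)]),
.rs (.lipl 2 162 174 2 12),
.rs (.ordE 1 2 3),
.rs (.le 2 96 64 6 2),
.rs (.l2 2 10 18 1 2 1),
.rs (.lipl 2 162 182 0 20),
.rs (.lipl 0 64 84 0 20),
.degU 4 [(0, 4), (1, 1)],
.rs (.mono 2 132 196 1),
.rs (.join 1 1 5 2 2 0 [(0, 0)]),
.rs (.join 1 8 4 3 1 2 [(3, 0)]),
.rs (.deg 5 [0, 1, 2]),
.rs (.join 1 2 6 4 2 2 [(1, 0)]),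
.rs (.lip 0 34 98 64),
.rs (.ab2 0 130),
.rs (.hall [0] [4, 5, 6, 7]),
.rs (.lip 0 5 29 56),
.rs (.join 1 2 4 3 1 2 [(1, 0)]),
.rs (.join 1 2 2 3 2 1 [(1, 0)]),
.rs (.lipl 2 146 242 2 96),
.rs (.part [96, 29, 130] [0, 1, 0] [] []),
.rs (.join 2 4 6 3 3 2 [(2, 2)]),
.rs (.join 2 8 5 3 2 1 [(3, 0)]),
.rs (.deg 6 [4, 0, 0]),
.rs (.l2 2 3 34 1 1 1),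
.rs (.mono 2 160 168 1),
.rs (.un 2 2),
.rs (.lipl 1 9 105 0 96),
.rs (.join 2 16 6 3 1 2 [(4, 0)]),
.rs (.lipl 0 9 27 1 18),
.rs (.join 0 8 4 2 0 2 [(3, 0)]),
.rs (.mono 2 1 65 1),
.degU 3 [(1, 1), (2, 4)],
.rs (.lip 0 128 184 56),
.rs (.part [53, 66, 136] [1, 0, 0] [] []),
.rs (.join 2 1 5 3 0 3 [(0, 0)]),
.rs (.join 1 3 3 4 3 2 [(0, 0), (1, 1)]),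
.rs (.ordE 2 64 3),
.rs (.l2 2 18 66 1 2 1),
.rs (.l2 2 3 65 0 2 1),
.rs (.ordE 1 4 1),
.rs (.lipl 2 148 220 0 72),
.rs (.le 1 34 32 5 1),
.rs (.join 2 2 4 3 1 2 [(1, 0)]),
.rs (.le 2 36 32 5 1),
.rs (.part [34, 1, 196] [0, 0, 0] [24] []),
.rs (.part [160, 64, 24] [0, 0, 0] [7] []),
.rs (.join 2 2 6 3 3 2 [(1, 2)]),
.rs (.part [34, 64, 157] [0, 0, 1] [] []),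
.rs (.ordE 0 128 3),
.rs (.join 2 2 3 3 3 1 [(1, 1)]),
.rs (.lip 2 146 210 64),
.rs (.join 2 2 4 2 1 1 [(1, 0)]),
.rs (.join 2 4 5 3 3 0 [(2, 0)]),
.rs (.join 2 2 3 3 2 1 [(1, 0)]),
.rs (.join 1 16 6 4 2 2 [(4, 0)]),
.rs (.lip 0 68 108 56),
.rs (.mono 0 16 80 1),
.rs (.join 0 1 5 2 1 1 [(0, 0)]),
.rs (.part [67, 24, 164] [1, 0, 0] [] []),
.rs (.join 2 2 4 3 0 3 [(1, 0)]),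
.rs (.mono 2 17 145 1),
.rs (.lipl 0 36 54 0 18),
.rs (.part [88, 6, 161] [1, 0, 0] [] []),
.rs (.le 2 66 64 6 3),
.rs (.l2 0 3 66 1 1 1),
.rs (.part [4, 65, 130] [0, 0, 0] [56] []),
.rs (.le 1 17 16 4 2),
.rs (.part [64, 48, 136] [0, 0, 0] [7] []),
.rs (.ordE 1 2 1),
.rs (.part [102, 17, 136] [1, 0, 0] [] []),
.rs (.join 1 1 1 4 2 2 [(0, 0)]),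
.rs (.part [34, 9, 212] [0, 0, 1] [] []),
.rs (.lip 0 96 101 7),
.rs (.ab2 0 160),
.rs (.le 2 36 32 5 3),
.rs (.l2 2 6 36 2 1 1),
.rs (.srt 1 1 1 0 3),
.rs (.part [22, 9, 224] [1, 0, 0] [] []),
.rs (.ab2 0 136),
.rs (.mono 2 192 194 1),
.rs (.part [248, 1, 6] [1, 0, 0] [] []),
.degU 2 [(0, 2), (2, 3)],
.rs (.le 2 36 4 2 2),
.rs (.part [1, 68, 130] [0, 0, 0] [56] []),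
.rs (.join 2 4 4 3 2 3 [(2, 2)]),
.rs (.l2 2 12 68 2 1 1),
.rs (.lipl 0 18 114 0 96),
.rs (.mono 2 132 140 1),
.rs (.join 1 17 5 4 4 0 [(0, 0), (4, 0)]),
.degU 0 [(1, 4), (2, 1)],
.rs (.join 0 8 5 2 1 1 [(3, 0)]),
.rs (.join 2 2 5 2 1 1 [(1, 0)]),
.rs (.join 2 10 4 3 2 1 [(1, 0), (3, 0)]),
.degU 4 [(0, 2), (1, 3)],
.rs (.lipl 1 10 43 1 33),
.rs (.lipl 2 132 141 1 9),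
.rs (.l2 2 40 96 5 1 1),
.rs (.part [1, 4, 194] [0, 0, 0] [56] []),
.rs (.ordE 2 8 1),
.rs (.part [6, 41, 208] [0, 1, 0] [] []),
.rs (.join 0 8 5 2 2 0 [(3, 0)]),
.rs (.ab 0 5),
.rs (.mono 0 4 132 1),
.degU 3 [(0, 3), (1, 2)],
.rs (.mono 2 24 152 1),
.rs (.lip 1 1 49 56),
.rs (.mono 2 4 132 1),
.rs (.l2 0 12 24 3 1 1),
.rs (.lipl 2 162 171 2 9),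
.rs (.join 2 16 6 2 1 1 [(4, 0)]),
.rs (.lipl 0 2 98 2 96),
.rs (.l2 1 17 48 4 1 1),
.rs (.join 2 16 5 3 3 1 [(4, 1)]),
.rs (.part [9, 82, 164] [0, 1, 0] [] []),
.rs (.mono 2 2 130 1),
.rs (.part [1, 2, 196] [0, 0, 0] [56] []),
.rs (.part [15, 80, 160] [1, 0, 0] [] []),
.rs (.part [33, 2, 220] [0, 0, 1] [] []),
.rs (.ab2 0 192),
.rs (.join 1 1 1 3 2 1 [(0, 0)]),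
.rs (.ab2 2 72),
.rs (.lipl 1 3 75 0 72),
.rs (.le 1 96 32 5 1),
.rs (.hall [2] [3, 4, 5, 6]),
.rs (.l2 0 6 34 1 1 1),
.rs (.lipl 0 40 106 1 66),
.rs (.ordE 1 32 1),
.rs (.lipl 0 36 102 1 66),
.rs (.l2 0 10 18 1 1 1),
.rs (.l2 0 24 48 4 1 1),
.rs (.lipl 0 34 51 1 17),
.rs (.part [80, 45, 130] [0, 1, 0] [] []),
.rs (.join 2 1 5 3 2 2 [(0, 1)]),
.rs (.join 1 3 2 4 4 0 [(0, 0), (1, 0)]),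
.rs (.part [67, 40, 148] [1, 0, 0] [] []),
.rs (.part [6, 49, 200] [0, 1, 0] [] []),
.rs (.deg 3 [2, 0, 1]),
.rs (.lipl 2 140 173 2 33),
.rs (.part [27, 64, 164] [1, 0, 0] [] []),
.rs (.join 2 6 4 3 2 1 [(1, 0), (2, 0)]),
.rs (.part [36, 27, 192] [0, 1, 0] [] []),
.rs (.join 1 1 6 4 2 2 [(0, 0)]),
.degU 4 [(0, 4), (2, 1)],
.rs (.join 1 9 4 4 4 0 [(0, 0), (3, 0)]),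
.rs (.mono 1 64 80 1),
.rs (.lipl 0 6 86 1 80),
.rs (.part [104, 6, 145] [1, 0, 0] [] []),
.rs (.join 1 8 6 4 4 0 [(3, 0)]),
.rs (.join 2 1 2 3 2 2 [(0, 1)]),
.rs (.mono 2 130 162 1),
.rs (.part [96, 16, 136] [0, 0, 0] [7] []),
.rs (.deg 1 [1, 2, 0]),
.rs (.lipl 1 80 89 1 9),
.rs (.join 0 4 7 2 1 1 [(2, 0)]),
.rs (.lipl 1 17 29 1 12),
.rs (.part [32, 24, 192] [0, 0, 0] [7] []),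
.rs (.join 2 8 6 3 3 2 [(3, 2)]),
.rs (.ab2 0 72),
.rs (.part [88, 5, 162] [1, 0, 0] [] []),
.rs (.mono 0 4 6 1),
.rs (.mono 0 64 96 1),
.rs (.lipl 1 16 81 0 65),
.rs (.lipl 0 34 54 2 20),
.rs (.deg 4 [0, 1, 2]),
.rs (.mono 2 129 137 1),
.rs (.lipl 1 18 27 2 9),
.rs (.lipl 0 17 27 1 10),
.rs (.lipl 1 2 74 0 72),
.rs (.l2 2 6 20 2 1 1),
.rs (.join 1 9 4 4 4 1 [(0, 1), (3, 0)]),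
.rs (.deg 4 [2, 0, 1]),
.rs (.lip 0 64 67 7),
.rs (.join 1 1 3 2 1 1 [(0, 0)]),
.rs (.l2 0 68 72 6 1 1),
.rs (.part [130, 64, 5] [0, 0, 0] [56] []),
.rs (.lipl 2 148 181 1 33),
.rs (.ab2 1 3),
.rs (.part [80, 32, 136] [0, 0, 0] [7] []),
.rs (.un 1 5),
.rs (.part [78, 17, 160] [1, 0, 0] [] []),
.degU 2 [(0, 5)],
.rs (.l2 2 6 12 2 1 1),
.rs (.srt 1 3 1 0 4),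
.rs (.ab2 1 68),
.rs (.part [46, 65, 144] [1, 0, 0] [] []),
.rs (.lip 2 128 168 56),
.rs (.lip 0 6 46 56),
.rs (.lipl 0 96 116 2 20),
.rs (.part [68, 27, 160] [0, 1, 0] [] []),
.rs (.ordE 2 32 2),
.rs (.ordE 0 64 1),
.rs (.l2 2 12 72 3 1 2),
.rs (.hall [0] [0, 1, 2, 7]),
.rs (.lip 1 65 73 8),
.rs (.le 0 66 64 6 1),
.rs (.lipl 0 4 13 1 9),
.rs (.join 2 8 5 2 1 1 [(3, 0)]),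
.rs (.deg 1 [3, 0, 0]),
.rs (.deg 2 [1, 1, 1]),
.rs (.lipl 0 20 54 2 34),
.rs (.join 2 2 4 3 3 3 [(1, 3)]),
.rs (.mono 2 192 196 1),
.rs (.part [66, 29, 160] [0, 1, 0] [] []),
.rs (.lipl 2 164 173 0 9),
.rs (.ab2 0 144),
.rs (.join 1 1 6 4 1 3 [(0, 0)]),
.rs (.lipl 0 36 46 1 10),
.rs (.part [199, 16, 40] [1, 0, 0] [] []),
.rs (.part [64, 6, 129] [0, 0, 0] [56] []),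
.rs (.deg 6 [3, 0, 1]),
.rs (.l2 2 24 72 3 1 1),
.rs (.l2 2 3 10 1 1 1),
.rs (.un 2 4),
.rs (.part [48, 11, 196] [0, 1, 0] [] []),
.rs (.join 1 2 2 2 1 1 [(1, 0)]),
.rs (.part [27, 96, 132] [1, 0, 0] [] []),
.rs (.un 0 3),
.rs (.lipl 2 144 216 0 72),
.rs (.l2 1 5 9 0 1 2),
.rs (.hall [1] [1, 2, 6, 7]),
.rs (.mono 0 2 34 1),
.rs (.lipl 0 2 22 2 20),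
.rs (.l2 2 6 18 1 1 1),
.rs (.join 2 4 5 3 1 2 [(2, 0)]),
.rs (.lip 0 64 88 56),
.rs (.part [106, 17, 132] [1, 0, 0] [] []),
.rs (.deg 1 [1, 1, 1]),
.rs (.join 0 2 2 2 2 0 [(1, 0)]),
.rs (.deg 6 [0, 2, 2]),
.rs (.l2 2 36 68 2 1 1),
.rs (.l2 0 72 80 6 1 1),
.rs (.lipl 1 65 75 1 10),
.rs (.mono 2 129 161 1),
.rs (.deg 6 [0, 4, 0]),
.rs (.join 1 24 5 4 3 1 [(3, 0), (4, 0)]),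
.rs (.l2 2 48 80 4 1 1),
.rs (.part [18, 9, 228] [0, 0, 1] [] []),
.rs (.join 2 2 4 3 3 1 [(1, 1)]),
.rs (.deg 2 [0, 1, 2]),
.rs (.lipl 0 20 86 1 66),
.rs (.join 2 1 1 3 2 1 [(0, 0)]),
.rs (.deg 3 [0, 2, 1]),
.rs (.le 2 18 2 1 2),
.rs (.join 1 5 3 3 2 1 [(0, 0), (2, 0)]),
.rs (.join 0 2 4 2 0 2 [(1, 0)]),
.rs (.deg 5 [2, 1, 0]),
.rs (.l2 2 12 68 2 2 1),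
.rs (.join 1 2 6 3 1 3 [(1, 1)]),
.rs (.deg 0 [0, 2, 1]),
.rs (.ab2 0 80),
.rs (.join 1 5 4 4 2 2 [(0, 0), (2, 0)]),
.rs (.ordE 1 16 1),
.rs (.lipl 1 9 89 1 80),
.rs (.deg 3 [1, 1, 1]),
.rs (.deg 5 [0, 2, 1]),
.rs (.l2 0 6 18 1 1 1),
.rs (.lipl 2 146 218 0 72),
.rs (.join 2 1 6 3 1 2 [(0, 0)]),
.rs (.lip 1 1 57 56),
.rs (.join 2 2 2 3 1 3 [(1, 1)]),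
.rs (.l2 1 18 34 1 1 1),
.rs (.part [36, 8, 208] [0, 0, 0] [3] []),
.rs (.mono 2 132 164 1),
.degU 0 [(0, 3), (1, 2)],
.rs (.ordE 0 32 2),
.rs (.le 1 66 2 1 1),
.rs (.part [54, 64, 137] [1, 0, 0] [] []),
.rs (.deg 7 [1, 0, 3]),
.rs (.lipl 2 148 182 2 34),
.rs (.l2 0 10 24 3 1 1),
.rs (.l2 1 9 10 3 1 1),
.rs (.join 2 32 6 3 2 1 [(5, 0)]),
.rs (.part [66, 57, 132] [0, 1, 0] [] []),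
.rs (.deg 5 [1, 1, 1]),
.rs (.part [16, 8, 224] [0, 0, 0] [7] []),
.rs (.lipl 2 164 181 2 17),
.rs (.join 1 9 4 4 3 1 [(0, 0), (3, 0)]),
.rs (.join 2 8 4 3 1 2 [(3, 0)]),
.rs (.join 2 16 6 3 2 2 [(4, 1)]),
.rs (.join 0 4 3 2 1 1 [(2, 0)]),
.rs (.part [66, 1, 132] [0, 0, 0] [56] []),
.rs (.le 1 33 32 5 2),
.rs (.hall [0] [1, 2, 6, 7]),
.rs (.mono 2 160 162 1),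
.rs (.le 2 12 8 3 3),
.rs (.lipl 2 148 181 2 33),
.rs (.l2 0 3 34 1 1 1),
.rs (.ab 0 7),
.rs (.l2 0 5 65 0 1 1),
.rs (.part [29, 66, 160] [1, 0, 0] [] []),
.rs (.part [13, 66, 176] [1, 0, 0] [] []),
.rs (.srt 1 3 1 0 3),
.rs (.le 1 20 4 2 1),
.rs (.l2 1 3 18 1 1 1),
.rs (.join 1 1 1 2 1 1 [(0, 0)]),
.rs (.lipl 2 164 173 2 9),
.rs (.lip 2 162 226 64),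
.rs (.part [4, 2, 193] [0, 0, 0] [56] []),
.rs (.deg 5 [1, 2, 0]),
.rs (.lip 0 192 248 56),
.rs (.lipl 1 9 43 0 34),
.rs (.le 0 18 2 1 1),
.rs (.le 0 96 64 6 1),
.rs (.lip 0 96 99 7),
.rs (.part [43, 80, 132] [1, 0, 0] [] []),
.rs (.part [34, 77, 144] [0, 1, 0] [] []),
.rs (.part [72, 16, 160] [0, 0, 0] [7] []),
.rs (.l2 2 20 48 4 2 1),
.rs (.join 2 2 3 3 1 2 [(1, 0)]),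
.rs (.l2 2 72 80 6 2 1),
.rs (.part [20, 8, 224] [0, 0, 0] [3] []),
.rs (.join 2 4 5 3 0 4 [(2, 1)]),
.rs (.l2 0 5 36 2 1 1),
.rs (.join 2 4 4 3 1 3 [(2, 1)]),
.rs (.part [33, 74, 148] [0, 1, 0] [] []),
.rs (.part [53, 64, 138] [1, 0, 0] [] []),
.rs (.lipl 2 164 244 1 80),
.rs (.lipl 2 148 182 0 34),
.degU 5 [(0, 1), (1, 2), (2, 2)],
.rs (.part [16, 40, 192] [0, 0, 0] [7] []),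
.rs (.lipl 0 36 102 2 66),
.rs (.join 1 6 4 3 2 1 [(1, 0), (2, 0)]),
.rs (.join 2 8 4 2 1 1 [(3, 0)]),
.rs (.l2 0 66 80 6 1 1),
.rs (.l2 2 5 17 0 1 1),
.rs (.mono 0 64 68 1),
.rs (.deg 4 [1, 0, 2]),
.rs (.ordE 0 16 2),
.rs (.join 2 1 4 3 0 3 [(0, 0)]),
.rs (.join 2 8 6 3 1 2 [(3, 0)]),
.rs (.ab2 1 40),
.rs (.le 2 33 1 0 3),
.rs (.part [65, 4, 130] [0, 0, 0] [56] []),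
.rs (.part [54, 9, 192] [1, 0, 0] [] []),
.rs (.mono 2 32 160 1),
.rs (.le 2 18 2 1 3),
.rs (.lipl 1 10 43 2 33),
.rs (.lipl 2 164 181 1 17),
.rs (.lipl 1 9 89 0 80),
.rs (.le 1 40 32 5 1),
.rs (.l2 2 68 80 6 1 1),
.rs (.part [6, 25, 224] [0, 1, 0] [] []),
.rs (.join 1 17 5 3 2 1 [(0, 0), (4, 0)]),
.rs (.mono 0 4 12 1),
.rs (.mono 0 64 65 1),
.rs (.lipl 0 64 74 0 10),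
.rs (.part [46, 64, 145] [1, 0, 0] [] []),
.rs (.lipl 2 132 198 2 66),
.rs (.l2 2 12 36 2 1 2),
.rs (.join 0 16 7 2 1 1 [(4, 0)]),
.rs (.ab2 0 5),
.rs (.join 1 2 6 3 2 1 [(1, 0)]),
.rs (.part [48, 64, 136] [0, 0, 0] [7] []),
.rs (.l2 2 17 48 4 1 1),
.rs (.ab2 0 3),
.rs (.lipl 1 64 74 1 10),
.rs (.join 1 5 4 3 2 1 [(0, 0), (2, 0)]),
.rs (.lip 0 6 30 56),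
.rs (.lipl 1 9 29 2 20),
.rs (.join 2 2 4 3 3 2 [(1, 2)]),
.rs (.l2 0 6 10 1 1 1)]

/-- the bounds. -/
def bl : List Bnd := [⟨false, [(0, 0), (0, 1), (0, 2), (0, 3), (0, 4), (0, 5), (0, 6), (0, 7)], 9⟩, ⟨false, [(1, 0), (1, 1), (1, 2), (1, 3), (1, 4), (1, 5), (1, 6), (1, 7)], 10⟩, ⟨false, [(0, 7), (1, 7)], 1⟩, ⟨true, [(0, 0), (0, 1), (0, 2), (0, 3), (0, 4), (0, 5), (1, 0), (1, 1), (1, 2), (1, 3), (1, 4), (1, 5)], 13⟩]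

noncomputable def gb : List Gb := [
⟨0, [2, 3, 2, 1, 0, 2, 0, 0]⟩,
⟨0, [1, 1, 0, 3, 3, 2, 0, 0]⟩,
⟨0, [0, 1, 0, 2, 0, 2, 5, 0]⟩,
⟨1, [3, 1, 1, 2, 2, 2, 0, 0]⟩,
⟨3, [0, 1, 0, 0, 1, 0, 2, 2, 1, 2, 1, 2]⟩,
⟨3, [0, 1, 1, 1, 1, 1, 2, 1, 1, 1, 1, 1]⟩,
⟨3, [1, 1, 4, 1, 0, 3, 1, 0, 0, 1, 0, 0]⟩,
⟨0, [1, 0, 0, 3, 3, 2, 1, 0]⟩,
⟨1, [3, 1, 1, 2, 2, 0, 2, 0]⟩,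
⟨0, [1, 2, 2, 0, 1, 3, 1, 0]⟩,
⟨2, [1, 1]⟩,
⟨1, [3, 1, 0, 3, 2, 1, 1, 0]⟩,
⟨3, [1, 3, 0, 1, 3, 0, 1, 0, 0, 1, 1, 1]⟩,
⟨0, [0, 0, 1, 0, 3, 4, 2, 0]⟩,
⟨3, [0, 0, 0, 1, 0, 0, 3, 2, 0, 3, 2, 1]⟩,
⟨0, [1, 0, 0, 0, 2, 3, 4, 0]⟩,
⟨0, [0, 0, 2, 2, 3, 2, 1, 0]⟩,
⟨0, [0, 1, 3, 2, 2, 2, 0, 0]⟩,
⟨3, [0, 0, 0, 0, 1, 0, 3, 2, 0, 4, 1, 1]⟩,
⟨3, [1, 1, 0, 1, 1, 0, 2, 2, 1, 1, 1, 1]⟩,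
⟨0, [1, 0, 0, 2, 2, 3, 2, 0]⟩,
⟨1, [3, 3, 0, 1, 0, 0, 4, 0]⟩,
⟨3, [0, 0, 0, 0, 1, 0, 3, 2, 1, 2, 2, 1]⟩,
⟨3, [0, 0, 0, 1, 0, 4, 3, 2, 0, 2, 0, 0]⟩,
⟨1, [2, 2, 2, 1, 1, 0, 3, 0]⟩,
⟨3, [0, 0, 2, 0, 0, 0, 3, 2, 0, 2, 2, 1]⟩,
⟨0, [0, 1, 0, 1, 1, 3, 4, 0]⟩,
⟨0, [0, 1, 0, 2, 2, 3, 2, 0]⟩,
⟨0, [0, 3, 2, 0, 1, 0, 4, 0]⟩,
⟨1, [3, 2, 2, 2, 0, 0, 2, 0]⟩,
⟨1, [2, 1, 1, 2, 2, 0, 3, 0]⟩,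
⟨0, [0, 0, 0, 1, 2, 2, 5, 0]⟩,
⟨0, [0, 3, 2, 1, 0, 0, 4, 0]⟩,
⟨0, [0, 3, 3, 0, 0, 3, 1, 0]⟩,
⟨2, [2, 0]⟩,
⟨1, [2, 2, 2, 1, 1, 1, 2, 0]⟩,
⟨3, [0, 0, 0, 1, 0, 4, 2, 2, 1, 2, 0, 0]⟩,
⟨0, [0, 0, 1, 2, 2, 2, 3, 0]⟩,
⟨1, [2, 1, 0, 2, 2, 0, 4, 0]⟩,
⟨1, [1, 1, 1, 2, 2, 2, 2, 0]⟩,
⟨0, [0, 1, 4, 0, 1, 0, 4, 0]⟩,
⟨3, [1, 1, 0, 1, 0, 1, 2, 2, 1, 1, 1, 1]⟩,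
⟨0, [0, 1, 0, 2, 3, 3, 1, 0]⟩,
⟨3, [1, 1, 1, 3, 1, 0, 1, 1, 1, 1, 1, 0]⟩,
⟨3, [1, 1, 1, 1, 3, 0, 1, 1, 1, 1, 1, 0]⟩,
⟨0, [0, 2, 2, 0, 1, 0, 5, 0]⟩,
⟨1, [2, 2, 1, 2, 0, 0, 4, 0]⟩,
⟨1, [3, 3, 3, 1, 0, 0, 1, 0]⟩,
⟨0, [0, 3, 2, 1, 2, 2, 0, 0]⟩,
⟨3, [0, 0, 2, 0, 0, 0, 3, 1, 1, 2, 2, 1]⟩,
⟨3, [2, 1, 1, 1, 2, 0, 1, 1, 1, 1, 1, 0]⟩,
⟨0, [0, 2, 2, 0, 3, 3, 0, 0]⟩,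
⟨0, [1, 0, 1, 3, 3, 2, 0, 0]⟩,
⟨0, [0, 1, 0, 3, 2, 2, 2, 0]⟩,
⟨3, [0, 0, 0, 0, 0, 1, 3, 2, 0, 4, 1, 1]⟩,
⟨2, [0, 2]⟩,
⟨0, [0, 0, 1, 1, 1, 3, 4, 0]⟩,
⟨3, [3, 1, 0, 1, 0, 3, 1, 1, 1, 1, 0, 0]⟩,
⟨3, [1, 0, 0, 0, 1, 0, 3, 2, 0, 2, 2, 1]⟩,
⟨0, [2, 2, 1, 0, 0, 0, 5, 0]⟩,
⟨3, [0, 1, 1, 1, 1, 1, 2, 1, 1, 2, 1, 0]⟩,
⟨3, [1, 1, 4, 0, 1, 1, 1, 0, 0, 1, 1, 1]⟩,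
⟨1, [3, 2, 2, 3, 1, 0, 0, 0]⟩,
⟨0, [1, 0, 1, 1, 1, 1, 5, 0]⟩,
⟨3, [1, 1, 4, 1, 1, 0, 1, 0, 0, 1, 1, 1]⟩,
⟨3, [1, 4, 1, 1, 1, 0, 1, 0, 0, 1, 1, 1]⟩,
⟨1, [3, 1, 0, 2, 1, 0, 4, 0]⟩,
⟨1, [3, 0, 0, 3, 3, 0, 2, 0]⟩,
⟨1, [3, 2, 0, 1, 1, 1, 3, 0]⟩,
⟨0, [0, 1, 4, 1, 3, 0, 1, 0]⟩,
⟨0, [0, 2, 2, 0, 0, 1, 5, 0]⟩,
⟨0, [0, 0, 2, 2, 2, 2, 2, 0]⟩,
⟨1, [3, 2, 2, 1, 0, 0, 3, 0]⟩,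
⟨0, [1, 1, 3, 1, 0, 3, 1, 0]⟩,
⟨0, [0, 3, 2, 0, 2, 2, 1, 0]⟩,
⟨3, [1, 0, 0, 0, 1, 0, 2, 2, 1, 2, 1, 2]⟩,
⟨0, [0, 0, 0, 1, 2, 2, 4, 1]⟩,
⟨3, [0, 2, 0, 0, 0, 0, 3, 1, 1, 2, 2, 1]⟩,
⟨0, [0, 1, 2, 0, 1, 2, 4, 0]⟩,
⟨1, [2, 2, 1, 2, 2, 0, 2, 0]⟩,
⟨3, [1, 0, 4, 0, 0, 0, 2, 0, 0, 2, 2, 1]⟩,
⟨0, [0, 1, 0, 0, 2, 2, 5, 0]⟩,
⟨3, [0, 1, 0, 0, 0, 0, 3, 2, 0, 3, 3, 0]⟩,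
⟨1, [3, 2, 0, 1, 1, 0, 4, 0]⟩,
⟨0, [0, 1, 0, 0, 3, 2, 4, 0]⟩,
⟨1, [3, 3, 0, 1, 1, 0, 3, 0]⟩,
⟨0, [0, 2, 4, 0, 1, 1, 2, 0]⟩,
⟨1, [2, 3, 0, 2, 2, 2, 0, 0]⟩,
⟨0, [0, 1, 0, 0, 2, 3, 4, 0]⟩,
⟨1, [4, 2, 0, 2, 0, 0, 3, 0]⟩,
⟨0, [0, 0, 1, 2, 2, 3, 2, 0]⟩,
⟨3, [0, 1, 0, 0, 0, 0, 3, 2, 0, 2, 3, 1]⟩,
⟨0, [2, 2, 2, 1, 0, 0, 3, 0]⟩,
⟨3, [3, 1, 0, 1, 3, 0, 1, 1, 1, 1, 0, 0]⟩,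
⟨1, [3, 2, 0, 2, 0, 0, 4, 0]⟩,
⟨0, [0, 3, 3, 0, 1, 1, 2, 0]⟩,
⟨1, [3, 0, 0, 2, 2, 0, 4, 0]⟩,
⟨0, [0, 1, 2, 0, 2, 3, 2, 0]⟩,
⟨3, [0, 0, 1, 1, 0, 0, 2, 2, 1, 2, 2, 1]⟩,
⟨1, [2, 2, 2, 3, 2, 0, 0, 0]⟩,
⟨0, [2, 1, 2, 0, 1, 1, 3, 0]⟩,
⟨0, [0, 0, 0, 2, 3, 3, 2, 0]⟩,
⟨1, [3, 0, 0, 3, 2, 3, 0, 0]⟩,
⟨1, [3, 2, 1, 2, 0, 0, 3, 0]⟩,
⟨0, [1, 2, 2, 1, 2, 2, 0, 0]⟩,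
⟨1, [3, 1, 0, 2, 2, 0, 3, 0]⟩,
⟨3, [1, 1, 0, 0, 1, 0, 2, 1, 0, 2, 3, 1]⟩,
⟨0, [1, 0, 3, 1, 1, 3, 1, 0]⟩,
⟨3, [0, 0, 0, 0, 1, 0, 3, 2, 1, 3, 2, 0]⟩,
⟨0, [1, 1, 3, 0, 1, 4, 0, 0]⟩,
⟨3, [1, 0, 0, 0, 0, 1, 2, 2, 1, 2, 2, 1]⟩,
⟨1, [3, 2, 0, 3, 2, 1, 0, 0]⟩,
⟨1, [2, 2, 0, 2, 1, 0, 4, 0]⟩,
⟨0, [1, 1, 3, 0, 3, 2, 0, 0]⟩,
⟨0, [1, 2, 2, 1, 0, 3, 1, 0]⟩,
⟨1, [2, 2, 2, 1, 2, 2, 0, 0]⟩,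
⟨0, [1, 1, 3, 0, 1, 0, 4, 0]⟩,
⟨0, [0, 1, 1, 0, 3, 3, 2, 0]⟩,
⟨0, [0, 1, 3, 1, 2, 2, 1, 0]⟩,
⟨1, [2, 2, 0, 1, 1, 1, 4, 0]⟩,
⟨0, [2, 3, 2, 1, 2, 0, 0, 0]⟩,
⟨0, [1, 1, 3, 1, 3, 0, 1, 0]⟩,
⟨0, [0, 1, 0, 0, 1, 4, 4, 0]⟩,
⟨0, [0, 1, 4, 1, 0, 3, 1, 0]⟩,
⟨1, [2, 2, 1, 2, 1, 0, 3, 0]⟩,
⟨1, [2, 2, 2, 2, 2, 1, 0, 0]⟩,
⟨1, [3, 1, 0, 3, 2, 2, 0, 0]⟩,
⟨3, [0, 1, 0, 0, 1, 0, 2, 1, 2, 2, 2, 1]⟩,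
⟨0, [0, 1, 1, 2, 2, 3, 1, 0]⟩,
⟨1, [3, 1, 1, 3, 1, 0, 2, 0]⟩,
⟨0, [0, 1, 4, 1, 1, 3, 0, 0]⟩,
⟨0, [0, 0, 1, 3, 2, 2, 2, 0]⟩,
⟨3, [1, 0, 1, 1, 1, 4, 1, 1, 1, 1, 0, 0]⟩,
⟨3, [0, 0, 0, 1, 4, 0, 2, 2, 1, 2, 0, 0]⟩,
⟨3, [1, 2, 1, 2, 1, 0, 1, 1, 1, 1, 1, 0]⟩,
⟨0, [0, 3, 2, 0, 0, 1, 4, 0]⟩,
⟨0, [1, 1, 3, 1, 1, 3, 0, 0]⟩,
⟨1, [3, 3, 2, 2, 1, 0, 0, 0]⟩,
⟨0, [1, 0, 2, 2, 3, 2, 0, 0]⟩,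
⟨1, [4, 1, 1, 3, 2, 0, 0, 0]⟩,
⟨0, [0, 3, 3, 1, 0, 2, 1, 0]⟩,
⟨0, [0, 0, 0, 1, 3, 3, 2, 1]⟩,
⟨1, [3, 1, 0, 3, 1, 1, 2, 0]⟩,
⟨0, [0, 0, 0, 2, 2, 3, 3, 0]⟩,
⟨0, [0, 2, 0, 2, 2, 3, 1, 0]⟩,
⟨1, [2, 2, 1, 2, 2, 1, 1, 0]⟩,
⟨0, [0, 0, 0, 0, 3, 3, 4, 0]⟩,
⟨1, [3, 2, 0, 3, 2, 0, 1, 0]⟩,
⟨0, [1, 3, 0, 2, 2, 2, 0, 0]⟩,
⟨0, [0, 3, 2, 0, 1, 2, 2, 0]⟩,
⟨0, [0, 1, 0, 2, 3, 2, 2, 0]⟩,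
⟨1, [4, 2, 0, 1, 1, 0, 3, 0]⟩,
⟨1, [3, 2, 2, 2, 1, 0, 1, 0]⟩,
⟨0, [0, 0, 1, 2, 3, 2, 2, 0]⟩,
⟨1, [3, 1, 0, 3, 2, 0, 2, 0]⟩,
⟨3, [0, 0, 1, 0, 0, 0, 3, 2, 2, 2, 2, 0]⟩,
⟨0, [0, 1, 1, 3, 3, 2, 0, 0]⟩,
⟨0, [0, 1, 3, 1, 1, 4, 0, 0]⟩,
⟨1, [3, 2, 2, 2, 2, 0, 0, 0]⟩,
⟨1, [3, 2, 1, 2, 2, 1, 0, 0]⟩,
⟨0, [1, 1, 0, 3, 2, 2, 1, 0]⟩,
⟨1, [2, 2, 0, 2, 2, 0, 3, 0]⟩,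
⟨1, [3, 2, 1, 2, 1, 1, 1, 0]⟩,
⟨3, [0, 1, 1, 2, 0, 0, 2, 0, 0, 3, 2, 1]⟩,
⟨1, [2, 2, 2, 2, 0, 0, 3, 0]⟩,
⟨0, [0, 0, 0, 2, 2, 4, 2, 0]⟩,
⟨3, [0, 1, 0, 0, 0, 1, 2, 2, 1, 2, 2, 1]⟩,
⟨0, [0, 1, 0, 1, 3, 3, 2, 0]⟩,
⟨3, [0, 2, 0, 0, 1, 1, 2, 3, 1, 2, 0, 0]⟩,
⟨1, [2, 2, 0, 3, 1, 0, 3, 0]⟩,
⟨0, [1, 2, 2, 0, 1, 1, 3, 0]⟩,
⟨0, [0, 1, 3, 1, 1, 0, 4, 0]⟩,
⟨1, [2, 2, 2, 1, 0, 0, 4, 0]⟩,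
⟨1, [3, 2, 0, 2, 1, 1, 2, 0]⟩,
⟨0, [0, 0, 0, 3, 2, 2, 3, 0]⟩,
⟨0, [0, 1, 3, 1, 1, 3, 1, 0]⟩,
⟨1, [2, 2, 2, 2, 1, 0, 2, 0]⟩,
⟨1, [2, 2, 0, 2, 2, 1, 2, 0]⟩,
⟨3, [1, 3, 0, 3, 1, 0, 1, 0, 1, 1, 1, 0]⟩,
⟨3, [1, 2, 0, 1, 2, 1, 1, 1, 0, 1, 1, 1]⟩,
⟨0, [0, 2, 3, 0, 0, 1, 4, 0]⟩,
⟨3, [0, 1, 0, 0, 0, 0, 4, 1, 1, 3, 2, 0]⟩,
⟨1, [2, 2, 0, 2, 1, 1, 3, 0]⟩,
⟨1, [3, 3, 0, 2, 0, 0, 3, 0]⟩,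
⟨1, [3, 0, 0, 3, 2, 1, 2, 0]⟩,
⟨0, [0, 0, 0, 2, 2, 4, 1, 1]⟩,
⟨0, [0, 0, 1, 0, 2, 2, 5, 0]⟩,
⟨1, [2, 2, 2, 2, 2, 0, 1, 0]⟩,
⟨1, [2, 2, 2, 3, 0, 0, 2, 0]⟩,
⟨1, [2, 0, 0, 2, 2, 2, 3, 0]⟩,
⟨3, [0, 1, 0, 0, 0, 0, 3, 2, 2, 2, 2, 0]⟩,
⟨0, [1, 2, 2, 1, 3, 0, 1, 0]⟩,
⟨0, [2, 1, 2, 1, 1, 0, 3, 0]⟩,
⟨3, [1, 3, 0, 1, 3, 0, 1, 1, 1, 1, 0, 0]⟩,
⟨0, [0, 2, 2, 2, 2, 2, 0, 0]⟩,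
⟨0, [0, 1, 0, 2, 2, 2, 3, 0]⟩,
⟨1, [2, 2, 0, 2, 2, 2, 1, 0]⟩,
⟨3, [0, 1, 0, 1, 0, 0, 2, 1, 2, 2, 2, 1]⟩,
⟨0, [0, 0, 2, 3, 2, 2, 1, 0]⟩,
⟨1, [2, 2, 0, 3, 2, 2, 0, 0]⟩,
⟨0, [0, 0, 1, 0, 3, 2, 4, 0]⟩,
⟨1, [3, 2, 1, 3, 1, 0, 1, 0]⟩,
⟨0, [0, 1, 1, 2, 1, 2, 3, 0]⟩,
⟨3, [1, 4, 0, 0, 0, 0, 2, 0, 0, 2, 2, 1]⟩,
⟨0, [1, 3, 2, 0, 3, 0, 1, 0]⟩,
⟨3, [0, 1, 1, 0, 2, 0, 2, 0, 0, 2, 3, 1]⟩,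
⟨0, [0, 3, 3, 0, 0, 0, 4, 0]⟩,
⟨3, [0, 0, 0, 2, 0, 1, 2, 2, 0, 2, 3, 0]⟩,
⟨1, [3, 1, 0, 2, 2, 2, 1, 0]⟩,
⟨0, [0, 1, 0, 1, 1, 4, 3, 0]⟩,
⟨0, [1, 0, 0, 2, 2, 2, 3, 0]⟩,
⟨1, [2, 2, 1, 2, 2, 2, 0, 0]⟩,
⟨3, [2, 1, 1, 2, 1, 0, 1, 1, 1, 1, 1, 0]⟩,
⟨1, [3, 2, 0, 2, 1, 0, 3, 0]⟩,
⟨3, [1, 1, 1, 1, 1, 0, 2, 1, 1, 1, 1, 1]⟩,
⟨0, [1, 2, 2, 1, 0, 1, 3, 0]⟩,
⟨1, [2, 2, 0, 1, 1, 0, 5, 0]⟩,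
⟨1, [3, 2, 0, 2, 2, 0, 2, 0]⟩,
⟨0, [2, 2, 2, 0, 1, 0, 3, 0]⟩,
⟨1, [3, 2, 0, 3, 1, 0, 2, 0]⟩,
⟨0, [1, 3, 3, 1, 0, 0, 2, 0]⟩,
⟨0, [0, 2, 2, 0, 2, 2, 2, 0]⟩,
⟨3, [0, 0, 0, 0, 0, 1, 3, 3, 0, 2, 2, 1]⟩,
⟨0, [0, 2, 3, 0, 1, 0, 4, 0]⟩,
⟨0, [0, 3, 4, 0, 1, 0, 2, 0]⟩,
⟨0, [1, 3, 3, 0, 1, 0, 2, 0]⟩,
⟨1, [3, 2, 2, 3, 0, 1, 0, 0]⟩,
⟨3, [1, 0, 0, 0, 0, 0, 3, 2, 1, 3, 2, 0]⟩,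
⟨0, [0, 1, 3, 0, 1, 1, 4, 0]⟩,
⟨1, [2, 0, 0, 2, 2, 1, 4, 0]⟩,
⟨1, [3, 2, 0, 2, 2, 2, 0, 0]⟩,
⟨0, [1, 0, 0, 1, 3, 3, 2, 0]⟩,
⟨0, [0, 1, 2, 1, 1, 2, 3, 0]⟩,
⟨3, [2, 0, 0, 0, 1, 1, 3, 2, 1, 2, 0, 0]⟩,
⟨3, [0, 0, 1, 0, 0, 0, 4, 1, 1, 3, 2, 0]⟩,
⟨0, [0, 0, 1, 3, 3, 2, 1, 0]⟩,
⟨1, [3, 0, 0, 3, 1, 0, 4, 0]⟩,
⟨0, [0, 0, 1, 0, 2, 3, 4, 0]⟩,
⟨1, [3, 2, 2, 2, 1, 1, 0, 0]⟩,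
⟨1, [3, 1, 1, 3, 1, 1, 1, 0]⟩,
⟨0, [0, 2, 2, 1, 2, 2, 1, 0]⟩,
⟨1, [2, 2, 0, 3, 2, 0, 2, 0]⟩,
⟨3, [1, 0, 0, 0, 1, 0, 3, 2, 2, 2, 1, 0]⟩,
⟨1, [3, 0, 0, 2, 2, 2, 2, 0]⟩,
⟨0, [0, 1, 3, 1, 0, 1, 4, 0]⟩,
⟨3, [1, 0, 1, 1, 4, 1, 1, 1, 1, 1, 0, 0]⟩,
⟨1, [3, 3, 3, 1, 1, 0, 0, 0]⟩,
⟨3, [1, 0, 3, 1, 3, 0, 1, 1, 0, 1, 1, 0]⟩,
⟨3, [1, 0, 0, 1, 1, 0, 3, 2, 1, 2, 1, 0]⟩,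
⟨3, [1, 1, 1, 0, 1, 1, 2, 1, 0, 2, 1, 1]⟩,
⟨0, [1, 3, 3, 0, 0, 1, 2, 0]⟩,
⟨3, [1, 3, 0, 1, 0, 3, 1, 1, 1, 1, 0, 0]⟩,
⟨1, [3, 0, 0, 3, 3, 2, 0, 0]⟩,
⟨3, [0, 0, 1, 0, 0, 1, 3, 2, 0, 3, 2, 0]⟩,
⟨1, [2, 2, 1, 1, 1, 1, 3, 0]⟩,
⟨0, [0, 2, 0, 3, 2, 2, 1, 0]⟩,
⟨0, [1, 3, 0, 1, 1, 3, 1, 0]⟩,
⟨1, [2, 1, 2, 2, 2, 2, 0, 0]⟩,
⟨0, [0, 2, 2, 0, 2, 3, 1, 0]⟩,
⟨1, [3, 2, 0, 2, 2, 1, 1, 0]⟩,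
⟨0, [0, 0, 1, 1, 3, 3, 2, 0]⟩,
⟨1, [2, 1, 0, 2, 2, 1, 3, 0]⟩,
⟨3, [1, 0, 0, 0, 0, 1, 3, 2, 0, 2, 1, 2]⟩,
⟨0, [0, 1, 1, 1, 2, 2, 3, 0]⟩,
⟨3, [0, 0, 1, 0, 1, 0, 2, 2, 1, 2, 2, 1]⟩,
⟨0, [0, 1, 4, 0, 1, 4, 0, 0]⟩,
⟨1, [3, 2, 1, 3, 2, 0, 0, 0]⟩,
⟨1, [2, 2, 1, 1, 1, 0, 4, 0]⟩,
⟨3, [1, 0, 3, 3, 1, 0, 1, 1, 0, 1, 1, 0]⟩,
⟨3, [0, 0, 0, 1, 4, 0, 3, 2, 0, 2, 0, 0]⟩,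
⟨3, [0, 0, 1, 0, 0, 1, 2, 2, 1, 2, 2, 1]⟩,
⟨3, [0, 0, 0, 0, 1, 0, 2, 2, 1, 2, 2, 2]⟩]

noncomputable def gads : List Gt := [
⟨2, [⟨5, 3, []⟩, ⟨64, 3, []⟩, ⟨128, 4, []⟩], [7, 3], 1, [(193, 1), (196, 1)]⟩,
⟨2, [⟨34, 3, []⟩, ⟨64, 3, []⟩, ⟨128, 4, []⟩], [7, 3], 1, [(194, 1), (224, 1)]⟩,
⟨0, [⟨96, 2, []⟩, ⟨132, 2, []⟩], [3, 3, 3], 1, [(36, 1), (68, 1), (160, 1), (192, 1)]⟩,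
⟨2, [⟨3, 2, []⟩, ⟨128, 2, []⟩], [3, 3, 3], 1, [(129, 1), (130, 1)]⟩,
⟨0, [⟨16, 2, []⟩, ⟨10, 2, []⟩], [3, 3, 3], 1, [(18, 1), (24, 1)]⟩,
⟨1, [⟨24, 3, []⟩, ⟨64, 3, []⟩], [3, 3], 1, [(72, 1), (80, 1)]⟩,
⟨2, [⟨16, 2, []⟩, ⟨128, 2, []⟩], [3, 3, 3], 1, [(144, 1)]⟩,
⟨1, [⟨2, 2, []⟩, ⟨24, 4, []⟩], [3, 1, 1], 1, [(10, 1), (18, 1)]⟩,
⟨2, [⟨1, 2, []⟩, ⟨2, 2, []⟩], [3, 3, 3], 1, [(3, 1)]⟩,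
⟨0, [⟨3, 2, []⟩, ⟨64, 2, []⟩], [3, 3, 3], 1, [(65, 1), (66, 1)]⟩,
⟨0, [⟨3, 2, []⟩, ⟨4, 2, []⟩], [3, 3, 3], 1, [(5, 1), (6, 1)]⟩,
⟨1, [⟨18, 3, []⟩, ⟨64, 3, []⟩], [3, 3], 1, [(66, 1), (80, 1)]⟩,
⟨2, [⟨8, 3, []⟩, ⟨64, 3, []⟩, ⟨128, 4, []⟩], [7, 3], 1, [(200, 1)]⟩,
⟨2, [⟨8, 3, []⟩, ⟨32, 3, []⟩, ⟨128, 4, []⟩], [7, 3], 1, [(168, 1)]⟩,
⟨2, [⟨20, 2, []⟩, ⟨128, 2, []⟩], [3, 3, 3], 1, [(132, 1), (144, 1)]⟩,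
⟨1, [⟨96, 4, []⟩, ⟨8, 2, []⟩], [3, 2, 2], 1, [(40, 1), (72, 1)]⟩,
⟨0, [⟨16, 2, []⟩, ⟨3, 2, []⟩], [3, 3, 3], 1, [(17, 1), (18, 1)]⟩,
⟨0, [⟨4, 2, []⟩, ⟨18, 2, []⟩], [3, 3, 3], 1, [(6, 1), (20, 1)]⟩,
⟨2, [⟨10, 3, []⟩, ⟨32, 3, []⟩, ⟨128, 4, []⟩], [7, 3], 1, [(162, 1), (168, 1)]⟩,
⟨2, [⟨65, 3, []⟩, ⟨6, 3, []⟩, ⟨128, 4, []⟩], [7, 3], 1, [(131, 1), (133, 1), (194, 1), (196, 1)]⟩,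
⟨2, [⟨33, 3, []⟩, ⟨2, 3, []⟩, ⟨128, 4, []⟩], [7, 3], 1, [(131, 1), (162, 1)]⟩,
⟨0, [⟨2, 2, []⟩, ⟨8, 2, []⟩], [3, 3, 3], 1, [(10, 1)]⟩,
⟨0, [⟨66, 2, []⟩, ⟨16, 2, []⟩], [3, 3, 3], 1, [(18, 1), (80, 1)]⟩,
⟨1, [⟨50, 3, []⟩, ⟨64, 3, []⟩], [3, 3], 1, [(66, 1), (80, 1), (96, 1)]⟩,
⟨2, [⟨20, 3, []⟩, ⟨96, 3, []⟩, ⟨128, 4, []⟩], [7, 3], 1, [(164, 1), (176, 1), (196, 1), (208, 1)]⟩,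
⟨0, [⟨8, 2, []⟩, ⟨64, 2, []⟩], [3, 3, 3], 1, [(72, 1)]⟩,
⟨2, [⟨12, 3, []⟩, ⟨80, 3, []⟩, ⟨128, 4, []⟩], [7, 3], 1, [(148, 1), (152, 1), (196, 1), (200, 1)]⟩,
⟨0, [⟨20, 2, []⟩, ⟨130, 2, []⟩], [3, 3, 3], 1, [(6, 1), (18, 1), (132, 1), (144, 1)]⟩,
⟨1, [⟨49, 3, []⟩, ⟨64, 3, []⟩], [3, 3], 1, [(65, 1), (80, 1), (96, 1)]⟩,
⟨2, [⟨36, 3, []⟩, ⟨64, 3, []⟩, ⟨128, 4, []⟩], [7, 3], 1, [(196, 1), (224, 1)]⟩,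
⟨2, [⟨36, 3, []⟩, ⟨2, 3, []⟩, ⟨128, 4, []⟩], [7, 3], 1, [(134, 1), (162, 1)]⟩,
⟨2, [⟨17, 3, []⟩, ⟨6, 3, []⟩, ⟨128, 4, []⟩], [7, 3], 1, [(131, 1), (133, 1), (146, 1), (148, 1)]⟩,
⟨2, [⟨33, 3, []⟩, ⟨4, 3, []⟩, ⟨128, 4, []⟩], [7, 3], 1, [(133, 1), (164, 1)]⟩,
⟨2, [⟨9, 3, []⟩, ⟨32, 3, []⟩, ⟨128, 4, []⟩], [7, 3], 1, [(161, 1), (168, 1)]⟩,
⟨2, [⟨40, 3, []⟩, ⟨64, 3, []⟩, ⟨128, 4, []⟩], [7, 3], 1, [(200, 1), (224, 1)]⟩,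
⟨0, [⟨72, 2, []⟩, ⟨4, 2, []⟩], [3, 3, 3], 1, [(12, 1), (68, 1)]⟩,
⟨2, [⟨34, 3, []⟩, ⟨4, 3, []⟩, ⟨128, 4, []⟩], [7, 3], 1, [(134, 1), (164, 1)]⟩,
⟨0, [⟨12, 2, []⟩, ⟨144, 2, []⟩], [3, 3, 3], 1, [(20, 1), (24, 1), (132, 1), (136, 1)]⟩,
⟨2, [⟨68, 3, []⟩, ⟨48, 3, []⟩, ⟨128, 4, []⟩], [7, 3], 1, [(148, 1), (164, 1), (208, 1), (224, 1)]⟩,
⟨2, [⟨1, 2, []⟩, ⟨4, 2, []⟩], [3, 3, 3], 1, [(5, 1)]⟩,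
⟨2, [⟨10, 3, []⟩, ⟨96, 3, []⟩, ⟨128, 4, []⟩], [7, 3], 1, [(162, 1), (168, 1), (194, 1), (200, 1)]⟩,
⟨0, [⟨4, 2, []⟩, ⟨16, 2, []⟩], [3, 3, 3], 1, [(20, 1)]⟩,
⟨2, [⟨9, 3, []⟩, ⟨16, 3, []⟩, ⟨128, 4, []⟩], [7, 3], 1, [(145, 1), (152, 1)]⟩,
⟨1, [⟨14, 3, []⟩, ⟨64, 3, []⟩], [3, 3], 1, [(66, 1), (68, 1), (72, 1)]⟩,
⟨2, [⟨1, 2, []⟩, ⟨128, 2, []⟩], [3, 3, 3], 1, [(129, 1)]⟩,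
⟨2, [⟨17, 3, []⟩, ⟨40, 3, []⟩, ⟨128, 4, []⟩], [7, 3], 1, [(137, 1), (152, 1), (161, 1), (176, 1)]⟩,
⟨0, [⟨2, 2, []⟩, ⟨48, 2, []⟩], [3, 3, 3], 1, [(18, 1), (34, 1)]⟩,
⟨2, [⟨12, 3, []⟩, ⟨3, 3, []⟩, ⟨128, 4, []⟩], [7, 3], 1, [(133, 1), (134, 1), (137, 1), (138, 1)]⟩,
⟨2, [⟨80, 2, []⟩, ⟨128, 2, []⟩], [3, 3, 3], 1, [(144, 1), (192, 1)]⟩,
⟨1, [⟨42, 3, []⟩, ⟨64, 3, []⟩], [3, 3], 1, [(66, 1), (72, 1), (96, 1)]⟩,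
⟨0, [⟨16, 2, []⟩, ⟨32, 2, []⟩], [3, 3, 3], 1, [(48, 1)]⟩,
⟨2, [⟨20, 3, []⟩, ⟨2, 3, []⟩, ⟨128, 4, []⟩], [7, 3], 1, [(134, 1), (146, 1)]⟩,
⟨2, [⟨4, 2, []⟩, ⟨64, 2, []⟩], [3, 3, 3], 1, [(68, 1)]⟩,
⟨0, [⟨68, 2, []⟩, ⟨1, 2, []⟩], [3, 3, 3], 1, [(5, 1), (65, 1)]⟩,
⟨2, [⟨17, 3, []⟩, ⟨96, 3, []⟩, ⟨128, 4, []⟩], [7, 3], 1, [(161, 1), (176, 1), (193, 1), (208, 1)]⟩,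
⟨0, [⟨66, 2, []⟩, ⟨4, 2, []⟩], [3, 3, 3], 1, [(6, 1), (68, 1)]⟩,
⟨1, [⟨40, 4, []⟩, ⟨16, 2, []⟩], [3, 2, 2], 1, [(24, 1), (48, 1)]⟩,
⟨2, [⟨34, 3, []⟩, ⟨1, 3, []⟩, ⟨128, 4, []⟩], [7, 3], 1, [(131, 1), (161, 1)]⟩,
⟨1, [⟨21, 4, []⟩, ⟨64, 2, []⟩], [3, 2, 2], 1, [(65, 1), (68, 1), (80, 1)]⟩,
⟨0, [⟨18, 2, []⟩, ⟨64, 2, []⟩], [3, 3, 3], 1, [(66, 1), (80, 1)]⟩,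
⟨2, [⟨68, 2, []⟩, ⟨128, 2, []⟩], [3, 3, 3], 1, [(132, 1), (192, 1)]⟩,
⟨2, [⟨12, 3, []⟩, ⟨16, 3, []⟩, ⟨128, 4, []⟩], [7, 3], 1, [(148, 1), (152, 1)]⟩,
⟨1, [⟨1, 3, []⟩, ⟨6, 3, []⟩], [3, 3], 1, [(3, 1), (5, 1)]⟩,
⟨2, [⟨8, 2, []⟩, ⟨16, 2, []⟩], [3, 3, 3], 1, [(24, 1)]⟩,
⟨2, [⟨2, 2, []⟩, ⟨4, 2, []⟩], [3, 3, 3], 1, [(6, 1)]⟩,
⟨2, [⟨18, 3, []⟩, ⟨72, 3, []⟩, ⟨128, 4, []⟩], [7, 3], 1, [(138, 1), (152, 1), (194, 1), (208, 1)]⟩,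
⟨2, [⟨72, 2, []⟩, ⟨16, 2, []⟩], [3, 3, 3], 1, [(24, 1), (80, 1)]⟩,
⟨0, [⟨32, 2, []⟩, ⟨18, 2, []⟩], [3, 3, 3], 1, [(34, 1), (48, 1)]⟩,
⟨0, [⟨24, 2, []⟩, ⟨96, 2, []⟩], [3, 3, 3], 1, [(40, 1), (48, 1), (72, 1), (80, 1)]⟩,
⟨0, [⟨2, 2, []⟩, ⟨192, 2, []⟩], [3, 3, 3], 1, [(66, 1), (130, 1)]⟩,
⟨0, [⟨40, 2, []⟩, ⟨16, 2, []⟩], [3, 3, 3], 1, [(24, 1), (48, 1)]⟩,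
⟨2, [⟨18, 3, []⟩, ⟨64, 3, []⟩, ⟨128, 4, []⟩], [7, 3], 1, [(194, 1), (208, 1)]⟩,
⟨2, [⟨34, 3, []⟩, ⟨80, 3, []⟩, ⟨128, 4, []⟩], [7, 3], 1, [(146, 1), (176, 1), (194, 1), (224, 1)]⟩,
⟨0, [⟨68, 2, []⟩, ⟨32, 2, []⟩], [3, 3, 3], 1, [(36, 1), (96, 1)]⟩,
⟨2, [⟨8, 2, []⟩, ⟨32, 2, []⟩], [3, 3, 3], 1, [(40, 1)]⟩,
⟨2, [⟨72, 3, []⟩, ⟨48, 3, []⟩, ⟨128, 4, []⟩], [7, 3], 1, [(152, 1), (168, 1), (208, 1), (224, 1)]⟩,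
⟨2, [⟨4, 3, []⟩, ⟨64, 3, []⟩, ⟨128, 4, []⟩], [7, 3], 1, [(196, 1)]⟩,
⟨1, [⟨19, 3, []⟩, ⟨64, 3, []⟩], [3, 3], 1, [(65, 1), (66, 1), (80, 1)]⟩,
⟨0, [⟨18, 2, []⟩, ⟨136, 2, []⟩], [3, 3, 3], 1, [(10, 1), (24, 1), (130, 1), (144, 1)]⟩,
⟨2, [⟨9, 3, []⟩, ⟨64, 3, []⟩, ⟨128, 4, []⟩], [7, 3], 1, [(193, 1), (200, 1)]⟩,
⟨0, [⟨65, 2, []⟩, ⟨16, 2, []⟩], [3, 3, 3], 1, [(17, 1), (80, 1)]⟩,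
⟨2, [⟨33, 3, []⟩, ⟨80, 3, []⟩, ⟨128, 4, []⟩], [7, 3], 1, [(145, 1), (176, 1), (193, 1), (224, 1)]⟩,
⟨2, [⟨20, 3, []⟩, ⟨8, 3, []⟩, ⟨128, 4, []⟩], [7, 3], 1, [(140, 1), (152, 1)]⟩,
⟨0, [⟨40, 2, []⟩, ⟨144, 2, []⟩], [3, 3, 3], 1, [(24, 1), (48, 1), (136, 1), (160, 1)]⟩,
⟨0, [⟨96, 2, []⟩, ⟨5, 2, []⟩], [3, 3, 3], 1, [(33, 1), (36, 1), (65, 1), (68, 1)]⟩,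
⟨1, [⟨9, 2, []⟩, ⟨64, 4, []⟩], [3, 1, 1], 1, [(65, 1), (72, 1)]⟩,
⟨1, [⟨33, 4, []⟩, ⟨2, 2, []⟩], [3, 2, 2], 1, [(3, 1), (34, 1)]⟩,
⟨2, [⟨1, 3, []⟩, ⟨4, 3, []⟩, ⟨128, 4, []⟩], [7, 3], 1, [(133, 1)]⟩,
⟨2, [⟨24, 3, []⟩, ⟨64, 3, []⟩, ⟨128, 4, []⟩], [7, 3], 1, [(200, 1), (208, 1)]⟩,
⟨0, [⟨80, 2, []⟩, ⟨8, 2, []⟩], [3, 3, 3], 1, [(24, 1), (72, 1)]⟩,
⟨1, [⟨8, 3, []⟩, ⟨18, 3, []⟩], [3, 3], 1, [(10, 1), (24, 1)]⟩,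
⟨1, [⟨14, 4, []⟩, ⟨64, 2, []⟩], [3, 2, 2], 1, [(66, 1), (68, 1), (72, 1)]⟩,
⟨2, [⟨5, 2, []⟩, ⟨128, 2, []⟩], [3, 3, 3], 1, [(129, 1), (132, 1)]⟩,
⟨0, [⟨32, 2, []⟩, ⟨20, 2, []⟩], [3, 3, 3], 1, [(36, 1), (48, 1)]⟩,
⟨2, [⟨33, 3, []⟩, ⟨66, 3, []⟩, ⟨128, 4, []⟩], [7, 3], 1, [(131, 1), (162, 1), (193, 1), (224, 1)]⟩,
⟨2, [⟨18, 3, []⟩, ⟨4, 3, []⟩, ⟨64, 4, []⟩], [7, 3], 1, [(70, 1), (84, 1)]⟩,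
⟨0, [⟨4, 2, []⟩, ⟨64, 2, []⟩], [3, 3, 3], 1, [(68, 1)]⟩,
⟨0, [⟨65, 2, []⟩, ⟨2, 2, []⟩], [3, 3, 3], 1, [(3, 1), (66, 1)]⟩,
⟨2, [⟨10, 3, []⟩, ⟨4, 3, []⟩, ⟨128, 4, []⟩], [7, 3], 1, [(134, 1), (140, 1)]⟩,
⟨2, [⟨36, 3, []⟩, ⟨16, 3, []⟩, ⟨128, 4, []⟩], [7, 3], 1, [(148, 1), (176, 1)]⟩,
⟨1, [⟨26, 3, []⟩, ⟨64, 3, []⟩], [3, 3], 1, [(66, 1), (72, 1), (80, 1)]⟩,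
⟨0, [⟨24, 2, []⟩, ⟨64, 2, []⟩], [3, 3, 3], 1, [(72, 1), (80, 1)]⟩,
⟨0, [⟨32, 2, []⟩, ⟨10, 2, []⟩], [3, 3, 3], 1, [(34, 1), (40, 1)]⟩,
⟨2, [⟨2, 3, []⟩, ⟨64, 3, []⟩, ⟨128, 4, []⟩], [7, 3], 1, [(194, 1)]⟩,
⟨0, [⟨8, 2, []⟩, ⟨16, 2, []⟩], [3, 3, 3], 1, [(24, 1)]⟩,
⟨2, [⟨18, 2, []⟩, ⟨128, 2, []⟩], [3, 3, 3], 1, [(130, 1), (144, 1)]⟩,
⟨0, [⟨34, 2, []⟩, ⟨64, 2, []⟩], [3, 3, 3], 1, [(66, 1), (96, 1)]⟩,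
⟨1, [⟨7, 4, []⟩, ⟨64, 2, []⟩], [3, 2, 2], 1, [(65, 1), (66, 1), (68, 1)]⟩,
⟨0, [⟨80, 3, []⟩, ⟨4, 3, []⟩, ⟨2, 4, []⟩], [7, 3], 1, [(22, 1), (70, 1)]⟩,
⟨1, [⟨24, 4, []⟩, ⟨32, 2, []⟩], [3, 2, 2], 1, [(40, 1), (48, 1)]⟩,
⟨0, [⟨96, 2, []⟩, ⟨2, 2, []⟩], [3, 3, 3], 1, [(34, 1), (66, 1)]⟩,
⟨0, [⟨4, 2, []⟩, ⟨24, 2, []⟩], [3, 3, 3], 1, [(12, 1), (20, 1)]⟩,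
⟨1, [⟨49, 4, []⟩, ⟨64, 2, []⟩], [3, 2, 2], 1, [(65, 1), (80, 1), (96, 1)]⟩,
⟨2, [⟨16, 2, []⟩, ⟨32, 2, []⟩], [3, 3, 3], 1, [(48, 1)]⟩,
⟨2, [⟨17, 3, []⟩, ⟨64, 3, []⟩, ⟨128, 4, []⟩], [7, 3], 1, [(193, 1), (208, 1)]⟩,
⟨2, [⟨10, 3, []⟩, ⟨16, 3, []⟩, ⟨128, 4, []⟩], [7, 3], 1, [(146, 1), (152, 1)]⟩,
⟨2, [⟨17, 3, []⟩, ⟨32, 3, []⟩, ⟨128, 4, []⟩], [7, 3], 1, [(161, 1), (176, 1)]⟩,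
⟨2, [⟨10, 2, []⟩, ⟨128, 2, []⟩], [3, 3, 3], 1, [(130, 1), (136, 1)]⟩,
⟨1, [⟨80, 4, []⟩, ⟨8, 2, []⟩], [3, 2, 2], 1, [(24, 1), (72, 1)]⟩,
⟨1, [⟨35, 4, []⟩, ⟨64, 2, []⟩], [3, 2, 2], 1, [(65, 1), (66, 1), (96, 1)]⟩,
⟨2, [⟨34, 2, []⟩, ⟨128, 2, []⟩], [3, 3, 3], 1, [(130, 1), (160, 1)]⟩,
⟨0, [⟨12, 2, []⟩, ⟨64, 2, []⟩], [3, 3, 3], 1, [(68, 1), (72, 1)]⟩,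
⟨2, [⟨20, 3, []⟩, ⟨66, 3, []⟩, ⟨128, 4, []⟩], [7, 3], 1, [(134, 1), (146, 1), (196, 1), (208, 1)]⟩,
⟨0, [⟨130, 2, []⟩, ⟨24, 2, []⟩], [3, 3, 3], 1, [(10, 1), (18, 1), (136, 1), (144, 1)]⟩,
⟨0, [⟨96, 2, []⟩, ⟨8, 2, []⟩], [3, 3, 3], 1, [(40, 1), (72, 1)]⟩,
⟨2, [⟨4, 2, []⟩, ⟨128, 2, []⟩], [3, 3, 3], 1, [(132, 1)]⟩,
⟨2, [⟨36, 3, []⟩, ⟨8, 3, []⟩, ⟨128, 4, []⟩], [7, 3], 1, [(140, 1), (168, 1)]⟩,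
⟨2, [⟨12, 2, []⟩, ⟨128, 2, []⟩], [3, 3, 3], 1, [(132, 1), (136, 1)]⟩,
⟨2, [⟨20, 3, []⟩, ⟨40, 3, []⟩, ⟨128, 4, []⟩], [7, 3], 1, [(140, 1), (152, 1), (164, 1), (176, 1)]⟩,
⟨0, [⟨65, 2, []⟩, ⟨32, 2, []⟩], [3, 3, 3], 1, [(33, 1), (96, 1)]⟩,
⟨1, [⟨6, 4, []⟩, ⟨1, 2, []⟩], [3, 2, 2], 1, [(3, 1), (5, 1)]⟩,
⟨1, [⟨3, 3, []⟩, ⟨64, 3, []⟩], [3, 3], 1, [(65, 1), (66, 1)]⟩,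
⟨2, [⟨66, 3, []⟩, ⟨5, 3, []⟩, ⟨128, 4, []⟩], [7, 3], 1, [(131, 1), (134, 1), (193, 1), (196, 1)]⟩,
⟨0, [⟨80, 2, []⟩, ⟨3, 2, []⟩], [3, 3, 3], 1, [(17, 1), (18, 1), (65, 1), (66, 1)]⟩,
⟨2, [⟨33, 3, []⟩, ⟨64, 3, []⟩, ⟨128, 4, []⟩], [7, 3], 1, [(193, 1), (224, 1)]⟩,
⟨1, [⟨13, 3, []⟩, ⟨64, 3, []⟩], [3, 3], 1, [(65, 1), (68, 1), (72, 1)]⟩,
⟨0, [⟨16, 2, []⟩, ⟨6, 2, []⟩], [3, 3, 3], 1, [(18, 1), (20, 1)]⟩,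
⟨1, [⟨9, 3, []⟩, ⟨64, 3, []⟩], [3, 3], 1, [(65, 1), (72, 1)]⟩,
⟨1, [⟨33, 2, []⟩, ⟨64, 4, []⟩], [3, 1, 1], 1, [(65, 1), (96, 1)]⟩,
⟨0, [⟨130, 2, []⟩, ⟨64, 2, []⟩], [3, 3, 3], 1, [(66, 1), (192, 1)]⟩,
⟨0, [⟨72, 2, []⟩, ⟨16, 2, []⟩], [3, 3, 3], 1, [(24, 1), (80, 1)]⟩,
⟨0, [⟨18, 2, []⟩, ⟨132, 2, []⟩], [3, 3, 3], 1, [(6, 1), (20, 1), (130, 1), (144, 1)]⟩,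
⟨1, [⟨72, 4, []⟩, ⟨16, 2, []⟩], [3, 2, 2], 1, [(24, 1), (80, 1)]⟩,
⟨2, [⟨26, 3, []⟩, ⟨64, 3, []⟩, ⟨128, 4, []⟩], [7, 3], 1, [(194, 1), (200, 1), (208, 1)]⟩,
⟨2, [⟨3, 2, []⟩, ⟨64, 2, []⟩], [3, 3, 3], 1, [(65, 1), (66, 1)]⟩,
⟨1, [⟨25, 4, []⟩, ⟨64, 2, []⟩], [3, 2, 2], 1, [(65, 1), (72, 1), (80, 1)]⟩,
⟨2, [⟨0, 0, [(3, 2)]⟩, ⟨128, 2, []⟩], [3, 3, 3], 1, [(131, 1)]⟩,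
⟨2, [⟨0, 0, [(5, 2)]⟩, ⟨128, 2, []⟩], [3, 3, 3], 1, [(133, 1)]⟩,
⟨2, [⟨6, 3, []⟩, ⟨64, 3, []⟩, ⟨128, 4, []⟩], [7, 3], 1, [(194, 1), (196, 1)]⟩,
⟨2, [⟨0, 0, [(48, 2)]⟩, ⟨64, 2, []⟩], [3, 3, 3], 1, [(112, 1)]⟩,
⟨2, [⟨12, 3, []⟩, ⟨32, 3, []⟩, ⟨128, 4, []⟩], [7, 3], 1, [(164, 1), (168, 1)]⟩,
⟨0, [⟨68, 2, []⟩, ⟨16, 2, []⟩], [3, 3, 3], 1, [(20, 1), (80, 1)]⟩,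
⟨2, [⟨17, 2, []⟩, ⟨128, 2, []⟩], [3, 3, 3], 1, [(129, 1), (144, 1)]⟩,
⟨0, [⟨2, 2, []⟩, ⟨16, 2, []⟩], [3, 3, 3], 1, [(18, 1)]⟩,
⟨0, [⟨72, 2, []⟩, ⟨5, 2, []⟩], [3, 3, 3], 1, [(9, 1), (12, 1), (65, 1), (68, 1)]⟩,
⟨0, [⟨1, 2, []⟩, ⟨16, 2, []⟩], [3, 3, 3], 1, [(17, 1)]⟩,
⟨0, [⟨16, 2, []⟩, ⟨192, 2, []⟩], [3, 3, 3], 1, [(80, 1), (144, 1)]⟩,
⟨0, [⟨2, 2, []⟩, ⟨40, 2, []⟩], [3, 3, 3], 1, [(10, 1), (34, 1)]⟩,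
⟨0, [⟨6, 2, []⟩, ⟨1, 2, []⟩], [3, 3, 3], 1, [(3, 1), (5, 1)]⟩,
⟨2, [⟨34, 3, []⟩, ⟨72, 3, []⟩, ⟨128, 4, []⟩], [7, 3], 1, [(138, 1), (168, 1), (194, 1), (224, 1)]⟩,
⟨2, [⟨18, 3, []⟩, ⟨5, 3, []⟩, ⟨128, 4, []⟩], [7, 3], 1, [(131, 1), (134, 1), (145, 1), (148, 1)]⟩,
⟨2, [⟨96, 3, []⟩, ⟨24, 3, []⟩, ⟨128, 4, []⟩], [7, 3], 1, [(168, 1), (176, 1), (200, 1), (208, 1)]⟩,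
⟨1, [⟨8, 3, []⟩, ⟨34, 3, []⟩], [3, 3], 1, [(10, 1), (40, 1)]⟩,
⟨2, [⟨18, 3, []⟩, ⟨8, 3, []⟩, ⟨128, 4, []⟩], [7, 3], 1, [(138, 1), (152, 1)]⟩,
⟨1, [⟨41, 4, []⟩, ⟨64, 2, []⟩], [3, 2, 2], 1, [(65, 1), (72, 1), (96, 1)]⟩,
⟨2, [⟨18, 3, []⟩, ⟨4, 3, []⟩, ⟨128, 4, []⟩], [7, 3], 1, [(134, 1), (148, 1)]⟩,
⟨2, [⟨20, 3, []⟩, ⟨32, 3, []⟩, ⟨128, 4, []⟩], [7, 3], 1, [(164, 1), (176, 1)]⟩,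
⟨0, [⟨48, 2, []⟩, ⟨64, 2, []⟩], [3, 3, 3], 1, [(80, 1), (96, 1)]⟩,
⟨1, [⟨66, 4, []⟩, ⟨1, 2, []⟩], [3, 2, 2], 1, [(3, 1), (65, 1)]⟩,
⟨2, [⟨8, 3, []⟩, ⟨16, 3, []⟩, ⟨128, 4, []⟩], [7, 3], 1, [(152, 1)]⟩,
⟨1, [⟨16, 2, []⟩, ⟨3, 4, []⟩], [3, 1, 1], 1, [(17, 1), (18, 1)]⟩,
⟨0, [⟨20, 2, []⟩, ⟨64, 2, []⟩], [3, 3, 3], 1, [(68, 1), (80, 1)]⟩,
⟨2, [⟨65, 2, []⟩, ⟨128, 2, []⟩], [3, 3, 3], 1, [(129, 1), (192, 1)]⟩,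
⟨0, [⟨2, 2, []⟩, ⟨24, 2, []⟩], [3, 3, 3], 1, [(10, 1), (18, 1)]⟩,
⟨2, [⟨10, 3, []⟩, ⟨80, 3, []⟩, ⟨128, 4, []⟩], [7, 3], 1, [(146, 1), (152, 1), (194, 1), (200, 1)]⟩,
⟨0, [⟨9, 2, []⟩, ⟨64, 2, []⟩], [3, 3, 3], 1, [(65, 1), (72, 1)]⟩,
⟨0, [⟨5, 2, []⟩, ⟨64, 2, []⟩], [3, 3, 3], 1, [(65, 1), (68, 1)]⟩,
⟨0, [⟨10, 2, []⟩, ⟨5, 2, []⟩], [3, 3, 3], 1, [(3, 1), (6, 1), (9, 1), (12, 1)]⟩,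
⟨2, [⟨0, 0, [(6, 2)]⟩, ⟨128, 2, []⟩], [3, 3, 3], 1, [(134, 1)]⟩,
⟨0, [⟨136, 2, []⟩, ⟨6, 2, []⟩], [3, 3, 3], 1, [(10, 1), (12, 1), (130, 1), (132, 1)]⟩,
⟨1, [⟨3, 4, []⟩, ⟨4, 2, []⟩], [3, 2, 2], 1, [(5, 1), (6, 1)]⟩,
⟨0, [⟨34, 2, []⟩, ⟨144, 2, []⟩], [3, 3, 3], 1, [(18, 1), (48, 1), (130, 1), (160, 1)]⟩,
⟨0, [⟨144, 2, []⟩, ⟨3, 2, []⟩], [3, 3, 3], 1, [(17, 1), (18, 1), (129, 1), (130, 1)]⟩,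
⟨0, [⟨2, 2, []⟩, ⟨9, 2, []⟩], [3, 3, 3], 1, [(3, 1), (10, 1)]⟩,
⟨1, [⟨22, 3, []⟩, ⟨64, 3, []⟩], [3, 3], 1, [(66, 1), (68, 1), (80, 1)]⟩,
⟨2, [⟨32, 2, []⟩, ⟨128, 2, []⟩], [3, 3, 3], 1, [(160, 1)]⟩,
⟨2, [⟨17, 3, []⟩, ⟨66, 3, []⟩, ⟨128, 4, []⟩], [7, 3], 1, [(131, 1), (146, 1), (193, 1), (208, 1)]⟩,
⟨2, [⟨34, 3, []⟩, ⟨68, 3, []⟩, ⟨128, 4, []⟩], [7, 3], 1, [(134, 1), (164, 1), (194, 1), (224, 1)]⟩,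
⟨2, [⟨32, 2, []⟩, ⟨64, 2, []⟩], [3, 3, 3], 1, [(96, 1)]⟩,
⟨2, [⟨68, 3, []⟩, ⟨3, 3, []⟩, ⟨128, 4, []⟩], [7, 3], 1, [(133, 1), (134, 1), (193, 1), (194, 1)]⟩,
⟨1, [⟨1, 3, []⟩, ⟨10, 3, []⟩], [3, 3], 1, [(3, 1), (9, 1)]⟩,
⟨2, [⟨68, 3, []⟩, ⟨24, 3, []⟩, ⟨128, 4, []⟩], [7, 3], 1, [(140, 1), (148, 1), (200, 1), (208, 1)]⟩,
⟨2, [⟨36, 3, []⟩, ⟨66, 3, []⟩, ⟨128, 4, []⟩], [7, 3], 1, [(134, 1), (162, 1), (196, 1), (224, 1)]⟩,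
⟨1, [⟨8, 3, []⟩, ⟨16, 3, []⟩], [3, 3], 1, [(24, 1)]⟩,
⟨2, [⟨9, 3, []⟩, ⟨4, 3, []⟩, ⟨128, 4, []⟩], [7, 3], 1, [(133, 1), (140, 1)]⟩,
⟨0, [⟨72, 2, []⟩, ⟨2, 2, []⟩], [3, 3, 3], 1, [(10, 1), (66, 1)]⟩,
⟨2, [⟨33, 3, []⟩, ⟨6, 3, []⟩, ⟨128, 4, []⟩], [7, 3], 1, [(131, 1), (133, 1), (162, 1), (164, 1)]⟩,
⟨0, [⟨33, 2, []⟩, ⟨130, 2, []⟩], [3, 3, 3], 1, [(3, 1), (34, 1), (129, 1), (160, 1)]⟩,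
⟨2, [⟨17, 3, []⟩, ⟨4, 3, []⟩, ⟨128, 4, []⟩], [7, 3], 1, [(133, 1), (148, 1)]⟩,
⟨2, [⟨36, 3, []⟩, ⟨65, 3, []⟩, ⟨128, 4, []⟩], [7, 3], 1, [(133, 1), (161, 1), (196, 1), (224, 1)]⟩,
⟨2, [⟨80, 3, []⟩, ⟨6, 3, []⟩, ⟨128, 4, []⟩], [7, 3], 1, [(146, 1), (148, 1), (194, 1), (196, 1)]⟩,
⟨2, [⟨18, 3, []⟩, ⟨96, 3, []⟩, ⟨128, 4, []⟩], [7, 3], 1, [(162, 1), (176, 1), (194, 1), (208, 1)]⟩,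
⟨2, [⟨66, 3, []⟩, ⟨48, 3, []⟩, ⟨128, 4, []⟩], [7, 3], 1, [(146, 1), (162, 1), (208, 1), (224, 1)]⟩,
⟨0, [⟨4, 2, []⟩, ⟨192, 2, []⟩], [3, 3, 3], 1, [(68, 1), (132, 1)]⟩,
⟨0, [⟨32, 2, []⟩, ⟨192, 2, []⟩], [3, 3, 3], 1, [(96, 1), (160, 1)]⟩,
⟨2, [⟨33, 3, []⟩, ⟨24, 3, []⟩, ⟨128, 4, []⟩], [7, 3], 1, [(137, 1), (145, 1), (168, 1), (176, 1)]⟩,
⟨2, [⟨22, 3, []⟩, ⟨64, 3, []⟩, ⟨128, 4, []⟩], [7, 3], 1, [(194, 1), (196, 1), (208, 1)]⟩,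
⟨0, [⟨17, 2, []⟩, ⟨64, 2, []⟩], [3, 3, 3], 1, [(65, 1), (80, 1)]⟩,
⟨2, [⟨10, 3, []⟩, ⟨64, 3, []⟩, ⟨128, 4, []⟩], [7, 3], 1, [(194, 1), (200, 1)]⟩,
⟨1, [⟨9, 4, []⟩, ⟨16, 2, []⟩], [3, 2, 2], 1, [(17, 1), (24, 1)]⟩,
⟨2, [⟨34, 3, []⟩, ⟨16, 3, []⟩, ⟨128, 4, []⟩], [7, 3], 1, [(146, 1), (176, 1)]⟩,
⟨0, [⟨6, 2, []⟩, ⟨64, 2, []⟩], [3, 3, 3], 1, [(66, 1), (68, 1)]⟩,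
⟨0, [⟨144, 2, []⟩, ⟨64, 2, []⟩], [3, 3, 3], 1, [(80, 1), (192, 1)]⟩,
⟨0, [⟨80, 2, []⟩, ⟨32, 2, []⟩], [3, 3, 3], 1, [(48, 1), (96, 1)]⟩,
⟨0, [⟨96, 2, []⟩, ⟨16, 2, []⟩], [3, 3, 3], 1, [(48, 1), (80, 1)]⟩,
⟨2, [⟨10, 3, []⟩, ⟨5, 3, []⟩, ⟨128, 4, []⟩], [7, 3], 1, [(131, 1), (134, 1), (137, 1), (140, 1)]⟩,
⟨0, [⟨160, 2, []⟩, ⟨3, 2, []⟩], [3, 3, 3], 1, [(33, 1), (34, 1), (129, 1), (130, 1)]⟩,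
⟨2, [⟨0, 0, [(24, 2)]⟩, ⟨128, 2, []⟩], [3, 3, 3], 1, [(152, 1)]⟩,
⟨0, [⟨129, 2, []⟩, ⟨64, 2, []⟩], [3, 3, 3], 1, [(65, 1), (192, 1)]⟩,
⟨0, [⟨66, 2, []⟩, ⟨1, 2, []⟩], [3, 3, 3], 1, [(3, 1), (65, 1)]⟩,
⟨0, [⟨2, 2, []⟩, ⟨64, 2, []⟩], [3, 3, 3], 1, [(66, 1)]⟩,
⟨1, [⟨6, 3, []⟩, ⟨64, 3, []⟩], [3, 3], 1, [(66, 1), (68, 1)]⟩,
⟨0, [⟨1, 2, []⟩, ⟨2, 2, []⟩], [3, 3, 3], 1, [(3, 1)]⟩,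
⟨2, [⟨10, 3, []⟩, ⟨68, 3, []⟩, ⟨128, 4, []⟩], [7, 3], 1, [(134, 1), (140, 1), (194, 1), (200, 1)]⟩,
⟨2, [⟨9, 3, []⟩, ⟨2, 3, []⟩, ⟨128, 4, []⟩], [7, 3], 1, [(131, 1), (138, 1)]⟩,
⟨1, [⟨8, 2, []⟩, ⟨5, 4, []⟩], [3, 1, 1], 1, [(9, 1), (12, 1)]⟩,
⟨1, [⟨10, 3, []⟩, ⟨64, 3, []⟩], [3, 3], 1, [(66, 1), (72, 1)]⟩,
⟨1, [⟨8, 2, []⟩, ⟨3, 4, []⟩], [3, 1, 1], 1, [(9, 1), (10, 1)]⟩,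
⟨2, [⟨32, 2, []⟩, ⟨0, 0, [(72, 2)]⟩], [3, 3, 3], 1, [(104, 1)]⟩,
⟨2, [⟨50, 3, []⟩, ⟨64, 3, []⟩, ⟨128, 4, []⟩], [7, 3], 1, [(194, 1), (208, 1), (224, 1)]⟩,
⟨0, [⟨72, 2, []⟩, ⟨32, 2, []⟩], [3, 3, 3], 1, [(40, 1), (96, 1)]⟩,
⟨0, [⟨34, 2, []⟩, ⟨136, 2, []⟩], [3, 3, 3], 1, [(10, 1), (40, 1), (130, 1), (160, 1)]⟩,
⟨2, [⟨16, 3, []⟩, ⟨64, 3, []⟩, ⟨128, 4, []⟩], [7, 3], 1, [(208, 1)]⟩,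
⟨1, [⟨21, 3, []⟩, ⟨64, 3, []⟩], [3, 3], 1, [(65, 1), (68, 1), (80, 1)]⟩,
⟨1, [⟨18, 4, []⟩, ⟨8, 2, []⟩], [3, 2, 2], 1, [(10, 1), (24, 1)]⟩,
⟨2, [⟨48, 2, []⟩, ⟨128, 2, []⟩], [3, 3, 3], 1, [(144, 1), (160, 1)]⟩,
⟨0, [⟨16, 2, []⟩, ⟨64, 2, []⟩], [3, 3, 3], 1, [(80, 1)]⟩,
⟨2, [⟨4, 2, []⟩, ⟨0, 0, [(66, 2)]⟩], [3, 3, 3], 1, [(70, 1)]⟩,
⟨1, [⟨41, 3, []⟩, ⟨64, 3, []⟩], [3, 3], 1, [(65, 1), (72, 1), (96, 1)]⟩,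
⟨0, [⟨40, 2, []⟩, ⟨64, 2, []⟩], [3, 3, 3], 1, [(72, 1), (96, 1)]⟩,
⟨1, [⟨26, 4, []⟩, ⟨64, 2, []⟩], [3, 2, 2], 1, [(66, 1), (72, 1), (80, 1)]⟩,
⟨2, [⟨34, 3, []⟩, ⟨8, 3, []⟩, ⟨128, 4, []⟩], [7, 3], 1, [(138, 1), (168, 1)]⟩,
⟨2, [⟨24, 2, []⟩, ⟨128, 2, []⟩], [3, 3, 3], 1, [(136, 1), (144, 1)]⟩,
⟨2, [⟨34, 3, []⟩, ⟨65, 3, []⟩, ⟨128, 4, []⟩], [7, 3], 1, [(131, 1), (161, 1), (194, 1), (224, 1)]⟩,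
⟨2, [⟨20, 3, []⟩, ⟨72, 3, []⟩, ⟨128, 4, []⟩], [7, 3], 1, [(140, 1), (152, 1), (196, 1), (208, 1)]⟩,
⟨2, [⟨2, 2, []⟩, ⟨64, 2, []⟩], [3, 3, 3], 1, [(66, 1)]⟩,
⟨0, [⟨8, 2, []⟩, ⟨32, 2, []⟩], [3, 3, 3], 1, [(40, 1)]⟩,
⟨0, [⟨32, 2, []⟩, ⟨6, 2, []⟩], [3, 3, 3], 1, [(34, 1), (36, 1)]⟩,
⟨0, [⟨4, 2, []⟩, ⟨8, 2, []⟩], [3, 3, 3], 1, [(12, 1)]⟩,
⟨0, [⟨80, 2, []⟩, ⟨6, 2, []⟩], [3, 3, 3], 1, [(18, 1), (20, 1), (66, 1), (68, 1)]⟩,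
⟨0, [⟨4, 2, []⟩, ⟨34, 2, []⟩], [3, 3, 3], 1, [(6, 1), (36, 1)]⟩,
⟨1, [⟨17, 3, []⟩, ⟨64, 3, []⟩], [3, 3], 1, [(65, 1), (80, 1)]⟩,
⟨1, [⟨11, 3, []⟩, ⟨64, 3, []⟩], [3, 3], 1, [(65, 1), (66, 1), (72, 1)]⟩,
⟨1, [⟨17, 4, []⟩, ⟨2, 2, []⟩], [3, 2, 2], 1, [(3, 1), (18, 1)]⟩,
⟨0, [⟨5, 2, []⟩, ⟨2, 2, []⟩], [3, 3, 3], 1, [(3, 1), (6, 1)]⟩,
⟨1, [⟨17, 2, []⟩, ⟨64, 4, []⟩], [3, 1, 1], 1, [(65, 1), (80, 1)]⟩,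
⟨0, [⟨4, 2, []⟩, ⟨40, 2, []⟩], [3, 3, 3], 1, [(12, 1), (36, 1)]⟩,
⟨0, [⟨20, 2, []⟩, ⟨129, 2, []⟩], [3, 3, 3], 1, [(5, 1), (17, 1), (132, 1), (144, 1)]⟩,
⟨1, [⟨1, 3, []⟩, ⟨66, 3, []⟩], [3, 3], 1, [(3, 1), (65, 1)]⟩,
⟨1, [⟨9, 4, []⟩, ⟨2, 2, []⟩], [3, 2, 2], 1, [(3, 1), (10, 1)]⟩,
⟨0, [⟨48, 2, []⟩, ⟨8, 2, []⟩], [3, 3, 3], 1, [(24, 1), (40, 1)]⟩,
⟨1, [⟨17, 4, []⟩, ⟨8, 2, []⟩], [3, 2, 2], 1, [(9, 1), (24, 1)]⟩,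
⟨0, [⟨10, 2, []⟩, ⟨64, 2, []⟩], [3, 3, 3], 1, [(66, 1), (72, 1)]⟩,
⟨2, [⟨36, 3, []⟩, ⟨24, 3, []⟩, ⟨128, 4, []⟩], [7, 3], 1, [(140, 1), (148, 1), (168, 1), (176, 1)]⟩,
⟨0, [⟨80, 2, []⟩, ⟨130, 2, []⟩], [3, 3, 3], 1, [(18, 1), (66, 1), (144, 1), (192, 1)]⟩,
⟨2, [⟨20, 3, []⟩, ⟨1, 3, []⟩, ⟨128, 4, []⟩], [7, 3], 1, [(133, 1), (145, 1)]⟩,
⟨2, [⟨12, 3, []⟩, ⟨64, 3, []⟩, ⟨128, 4, []⟩], [7, 3], 1, [(196, 1), (200, 1)]⟩,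
⟨0, [⟨66, 2, []⟩, ⟨160, 2, []⟩], [3, 3, 3], 1, [(34, 1), (96, 1), (130, 1), (192, 1)]⟩,
⟨0, [⟨68, 2, []⟩, ⟨136, 2, []⟩], [3, 3, 3], 1, [(12, 1), (72, 1), (132, 1), (192, 1)]⟩,
⟨0, [⟨4, 2, []⟩, ⟨17, 2, []⟩], [3, 3, 3], 1, [(5, 1), (20, 1)]⟩,
⟨1, [⟨56, 4, []⟩, ⟨64, 2, []⟩], [3, 2, 2], 1, [(72, 1), (80, 1), (96, 1)]⟩,
⟨2, [⟨3, 3, []⟩, ⟨64, 3, []⟩, ⟨128, 4, []⟩], [7, 3], 1, [(193, 1), (194, 1)]⟩,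
⟨2, [⟨12, 3, []⟩, ⟨48, 3, []⟩, ⟨128, 4, []⟩], [7, 3], 1, [(148, 1), (152, 1), (164, 1), (168, 1)]⟩,
⟨0, [⟨68, 2, []⟩, ⟨2, 2, []⟩], [3, 3, 3], 1, [(6, 1), (66, 1)]⟩,
⟨0, [⟨1, 2, []⟩, ⟨192, 2, []⟩], [3, 3, 3], 1, [(65, 1), (129, 1)]⟩,
⟨1, [⟨48, 4, []⟩, ⟨8, 2, []⟩], [3, 2, 2], 1, [(24, 1), (40, 1)]⟩,
⟨2, [⟨36, 3, []⟩, ⟨80, 3, []⟩, ⟨128, 4, []⟩], [7, 3], 1, [(148, 1), (176, 1), (196, 1), (224, 1)]⟩,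
⟨0, [⟨24, 2, []⟩, ⟨32, 2, []⟩], [3, 3, 3], 1, [(40, 1), (48, 1)]⟩,
⟨2, [⟨17, 3, []⟩, ⟨2, 3, []⟩, ⟨128, 4, []⟩], [7, 3], 1, [(131, 1), (146, 1)]⟩,
⟨1, [⟨5, 3, []⟩, ⟨64, 3, []⟩], [3, 3], 1, [(65, 1), (68, 1)]⟩,
⟨0, [⟨48, 2, []⟩, ⟨72, 2, []⟩], [3, 3, 3], 1, [(24, 1), (40, 1), (80, 1), (96, 1)]⟩,
⟨0, [⟨1, 2, []⟩, ⟨4, 2, []⟩], [3, 3, 3], 1, [(5, 1)]⟩,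
⟨1, [⟨25, 3, []⟩, ⟨64, 3, []⟩], [3, 3], 1, [(65, 1), (72, 1), (80, 1)]⟩,
⟨2, [⟨34, 3, []⟩, ⟨24, 3, []⟩, ⟨128, 4, []⟩], [7, 3], 1, [(138, 1), (146, 1), (168, 1), (176, 1)]⟩,
⟨2, [⟨18, 3, []⟩, ⟨32, 3, []⟩, ⟨128, 4, []⟩], [7, 3], 1, [(162, 1), (176, 1)]⟩,
⟨0, [⟨1, 2, []⟩, ⟨64, 2, []⟩], [3, 3, 3], 1, [(65, 1)]⟩,
⟨2, [⟨80, 3, []⟩, ⟨40, 3, []⟩, ⟨128, 4, []⟩], [7, 3], 1, [(152, 1), (176, 1), (200, 1), (224, 1)]⟩,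
⟨2, [⟨2, 3, []⟩, ⟨4, 3, []⟩, ⟨128, 4, []⟩], [7, 3], 1, [(134, 1)]⟩,
⟨1, [⟨18, 4, []⟩, ⟨1, 2, []⟩], [3, 2, 2], 1, [(3, 1), (17, 1)]⟩,
⟨0, [⟨96, 2, []⟩, ⟨129, 2, []⟩], [3, 3, 3], 1, [(33, 1), (65, 1), (160, 1), (192, 1)]⟩,
⟨2, [⟨65, 2, []⟩, ⟨2, 2, []⟩], [3, 3, 3], 1, [(3, 1), (66, 1)]⟩,
⟨2, [⟨2, 2, []⟩, ⟨128, 2, []⟩], [3, 3, 3], 1, [(130, 1)]⟩,
⟨2, [⟨9, 2, []⟩, ⟨128, 2, []⟩], [3, 3, 3], 1, [(129, 1), (136, 1)]⟩,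
⟨2, [⟨20, 3, []⟩, ⟨64, 3, []⟩, ⟨128, 4, []⟩], [7, 3], 1, [(196, 1), (208, 1)]⟩,
⟨1, [⟨65, 4, []⟩, ⟨2, 2, []⟩], [3, 2, 2], 1, [(3, 1), (66, 1)]⟩,
⟨2, [⟨66, 2, []⟩, ⟨128, 2, []⟩], [3, 3, 3], 1, [(130, 1), (192, 1)]⟩,
⟨2, [⟨40, 2, []⟩, ⟨128, 2, []⟩], [3, 3, 3], 1, [(136, 1), (160, 1)]⟩,
⟨1, [⟨8, 3, []⟩, ⟨80, 3, []⟩], [3, 3], 1, [(24, 1), (72, 1)]⟩,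
⟨1, [⟨1, 3, []⟩, ⟨2, 3, []⟩], [3, 3], 1, [(3, 1)]⟩,
⟨1, [⟨42, 4, []⟩, ⟨64, 2, []⟩], [3, 2, 2], 1, [(66, 1), (72, 1), (96, 1)]⟩,
⟨2, [⟨96, 2, []⟩, ⟨128, 2, []⟩], [3, 3, 3], 1, [(160, 1), (192, 1)]⟩,
⟨0, [⟨96, 2, []⟩, ⟨4, 2, []⟩], [3, 3, 3], 1, [(36, 1), (68, 1)]⟩,
⟨2, [⟨36, 3, []⟩, ⟨72, 3, []⟩, ⟨128, 4, []⟩], [7, 3], 1, [(140, 1), (168, 1), (196, 1), (224, 1)]⟩,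
⟨2, [⟨12, 3, []⟩, ⟨2, 3, []⟩, ⟨128, 4, []⟩], [7, 3], 1, [(134, 1), (138, 1)]⟩,
⟨1, [⟨33, 3, []⟩, ⟨64, 3, []⟩], [3, 3], 1, [(65, 1), (96, 1)]⟩,
⟨0, [⟨65, 2, []⟩, ⟨4, 2, []⟩], [3, 3, 3], 1, [(5, 1), (68, 1)]⟩,
⟨0, [⟨2, 2, []⟩, ⟨32, 2, []⟩], [3, 3, 3], 1, [(34, 1)]⟩,
⟨2, [⟨32, 3, []⟩, ⟨64, 3, []⟩, ⟨128, 4, []⟩], [7, 3], 1, [(224, 1)]⟩,
⟨1, [⟨13, 4, []⟩, ⟨64, 2, []⟩], [3, 2, 2], 1, [(65, 1), (68, 1), (72, 1)]⟩,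
⟨1, [⟨1, 3, []⟩, ⟨8, 3, []⟩], [3, 3], 1, [(9, 1)]⟩,
⟨0, [⟨33, 2, []⟩, ⟨64, 2, []⟩], [3, 3, 3], 1, [(65, 1), (96, 1)]⟩,
⟨2, [⟨12, 3, []⟩, ⟨96, 3, []⟩, ⟨128, 4, []⟩], [7, 3], 1, [(164, 1), (168, 1), (196, 1), (200, 1)]⟩,
⟨2, [⟨33, 3, []⟩, ⟨72, 3, []⟩, ⟨128, 4, []⟩], [7, 3], 1, [(137, 1), (168, 1), (193, 1), (224, 1)]⟩,
⟨2, [⟨18, 3, []⟩, ⟨68, 3, []⟩, ⟨128, 4, []⟩], [7, 3], 1, [(134, 1), (148, 1), (194, 1), (208, 1)]⟩,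
⟨1, [⟨68, 4, []⟩, ⟨1, 2, []⟩], [3, 2, 2], 1, [(5, 1), (65, 1)]⟩,
⟨2, [⟨72, 2, []⟩, ⟨128, 2, []⟩], [3, 3, 3], 1, [(136, 1), (192, 1)]⟩,
⟨0, [⟨80, 2, []⟩, ⟨2, 2, []⟩], [3, 3, 3], 1, [(18, 1), (66, 1)]⟩,
⟨1, [⟨10, 4, []⟩, ⟨16, 2, []⟩], [3, 2, 2], 1, [(18, 1), (24, 1)]⟩,
⟨0, [⟨160, 2, []⟩, ⟨64, 2, []⟩], [3, 3, 3], 1, [(96, 1), (192, 1)]⟩,
⟨0, [⟨132, 2, []⟩, ⟨64, 2, []⟩], [3, 3, 3], 1, [(68, 1), (192, 1)]⟩,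
⟨2, [⟨18, 3, []⟩, ⟨40, 3, []⟩, ⟨128, 4, []⟩], [7, 3], 1, [(138, 1), (152, 1), (162, 1), (176, 1)]⟩,
⟨2, [⟨34, 3, []⟩, ⟨5, 3, []⟩, ⟨128, 4, []⟩], [7, 3], 1, [(131, 1), (134, 1), (161, 1), (164, 1)]⟩,
⟨0, [⟨32, 2, []⟩, ⟨3, 2, []⟩], [3, 3, 3], 1, [(33, 1), (34, 1)]⟩,
⟨1, [⟨1, 3, []⟩, ⟨18, 3, []⟩], [3, 3], 1, [(3, 1), (17, 1)]⟩,
⟨2, [⟨64, 2, []⟩, ⟨128, 2, []⟩], [3, 3, 3], 1, [(192, 1)]⟩,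
⟨2, [⟨1, 3, []⟩, ⟨2, 3, []⟩, ⟨128, 4, []⟩], [7, 3], 1, [(131, 1)]⟩,
⟨1, [⟨12, 4, []⟩, ⟨1, 2, []⟩], [3, 2, 2], 1, [(5, 1), (9, 1)]⟩,
⟨0, [⟨80, 2, []⟩, ⟨4, 2, []⟩], [3, 3, 3], 1, [(20, 1), (68, 1)]⟩,
⟨2, [⟨8, 2, []⟩, ⟨64, 2, []⟩], [3, 3, 3], 1, [(72, 1)]⟩,
⟨2, [⟨19, 3, []⟩, ⟨64, 3, []⟩, ⟨128, 4, []⟩], [7, 3], 1, [(193, 1), (194, 1), (208, 1)]⟩,
⟨2, [⟨8, 2, []⟩, ⟨128, 2, []⟩], [3, 3, 3], 1, [(136, 1)]⟩,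
⟨2, [⟨18, 3, []⟩, ⟨32, 3, []⟩, ⟨64, 4, []⟩], [7, 3], 1, [(98, 1), (112, 1)]⟩,
⟨2, [⟨0, 0, [(40, 2)]⟩, ⟨128, 2, []⟩], [3, 3, 3], 1, [(168, 1)]⟩,
⟨1, [⟨1, 2, []⟩, ⟨24, 4, []⟩], [3, 1, 1], 1, [(9, 1), (17, 1)]⟩,
⟨0, [⟨12, 2, []⟩, ⟨160, 2, []⟩], [3, 3, 3], 1, [(36, 1), (40, 1), (132, 1), (136, 1)]⟩,
⟨1, [⟨5, 4, []⟩, ⟨2, 2, []⟩], [3, 2, 2], 1, [(3, 1), (6, 1)]⟩,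
⟨2, [⟨48, 3, []⟩, ⟨64, 3, []⟩, ⟨128, 4, []⟩], [7, 3], 1, [(208, 1), (224, 1)]⟩,
⟨2, [⟨10, 3, []⟩, ⟨48, 3, []⟩, ⟨128, 4, []⟩], [7, 3], 1, [(146, 1), (152, 1), (162, 1), (168, 1)]⟩,
⟨0, [⟨36, 2, []⟩, ⟨64, 2, []⟩], [3, 3, 3], 1, [(68, 1), (96, 1)]⟩,
⟨2, [⟨20, 3, []⟩, ⟨3, 3, []⟩, ⟨128, 4, []⟩], [7, 3], 1, [(133, 1), (134, 1), (145, 1), (146, 1)]⟩,
⟨2, [⟨36, 3, []⟩, ⟨3, 3, []⟩, ⟨128, 4, []⟩], [7, 3], 1, [(133, 1), (134, 1), (161, 1), (162, 1)]⟩,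
⟨2, [⟨0, 0, [(48, 2)]⟩, ⟨128, 2, []⟩], [3, 3, 3], 1, [(176, 1)]⟩,
⟨0, [⟨24, 2, []⟩, ⟨160, 2, []⟩], [3, 3, 3], 1, [(40, 1), (48, 1), (136, 1), (144, 1)]⟩,
⟨0, [⟨4, 2, []⟩, ⟨32, 2, []⟩], [3, 3, 3], 1, [(36, 1)]⟩,
⟨2, [⟨66, 3, []⟩, ⟨24, 3, []⟩, ⟨128, 4, []⟩], [7, 3], 1, [(138, 1), (146, 1), (200, 1), (208, 1)]⟩,
⟨2, [⟨16, 2, []⟩, ⟨64, 2, []⟩], [3, 3, 3], 1, [(80, 1)]⟩,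
⟨1, [⟨11, 4, []⟩, ⟨64, 2, []⟩], [3, 2, 2], 1, [(65, 1), (66, 1), (72, 1)]⟩,
⟨1, [⟨10, 4, []⟩, ⟨1, 2, []⟩], [3, 2, 2], 1, [(3, 1), (9, 1)]⟩,
⟨1, [⟨28, 4, []⟩, ⟨64, 2, []⟩], [3, 2, 2], 1, [(68, 1), (72, 1), (80, 1)]⟩,
⟨2, [⟨16, 3, []⟩, ⟨32, 3, []⟩, ⟨128, 4, []⟩], [7, 3], 1, [(176, 1)]⟩,
⟨2, [⟨17, 3, []⟩, ⟨72, 3, []⟩, ⟨128, 4, []⟩], [7, 3], 1, [(137, 1), (152, 1), (193, 1), (208, 1)]⟩,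
⟨0, [⟨4, 2, []⟩, ⟨48, 2, []⟩], [3, 3, 3], 1, [(20, 1), (36, 1)]⟩,
⟨0, [⟨32, 2, []⟩, ⟨64, 2, []⟩], [3, 3, 3], 1, [(96, 1)]⟩,
⟨0, [⟨5, 2, []⟩, ⟨66, 2, []⟩], [3, 3, 3], 1, [(3, 1), (6, 1), (65, 1), (68, 1)]⟩,
⟨2, [⟨33, 3, []⟩, ⟨68, 3, []⟩, ⟨128, 4, []⟩], [7, 3], 1, [(133, 1), (164, 1), (193, 1), (224, 1)]⟩,
⟨0, [⟨2, 2, []⟩, ⟨4, 2, []⟩], [3, 3, 3], 1, [(6, 1)]⟩,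
⟨0, [⟨32, 2, []⟩, ⟨12, 2, []⟩], [3, 3, 3], 1, [(36, 1), (40, 1)]⟩,
⟨0, [⟨66, 2, []⟩, ⟨32, 2, []⟩], [3, 3, 3], 1, [(34, 1), (96, 1)]⟩,
⟨1, [⟨10, 2, []⟩, ⟨64, 4, []⟩], [3, 1, 1], 1, [(66, 1), (72, 1)]⟩,
⟨2, [⟨6, 2, []⟩, ⟨128, 2, []⟩], [3, 3, 3], 1, [(130, 1), (132, 1)]⟩,
⟨1, [⟨33, 4, []⟩, ⟨8, 2, []⟩], [3, 2, 2], 1, [(9, 1), (40, 1)]⟩,
⟨2, [⟨36, 2, []⟩, ⟨128, 2, []⟩], [3, 3, 3], 1, [(132, 1), (160, 1)]⟩]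

theorem base_ok : base.all (fun q => q.ok 8 3 [7, 56] big4 big4 [(1, 1, 1, 0), (1, 2, 1, 1), (1, 4, 1, 3), (1, 5, 1, 4), (1, 3, 1, 0)]) = true := by
  decide +kernel

theorem gb_ok : gb.all (fun c => c.ok 8 3 bl) = true := by decide +kernel

theorem gads_ok : gads.all (fun g => g.okV 8 3 [0, 2, 0]) = true := by decide +kernel

theorem cmp_ok : cmpR names cnf (clsu 3 base ++ (gb.map (Gb.cl bl) ++ gads.map Gt.cl)) = true := by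
  decide +kernel

end DN00

theorem instn_00 : instNS 2 3 [0, 2, 0] DN00.bl [(1, 1, 1, 0), (1, 2, 1, 1), (1, 4, 1, 3), (1, 5, 1, 4), (1, 3, 1, 0)] DN00.base DN00.gb DN00.gads DN00.names DN00.cnf DN00.db DN00.prf = true :=
  instNS_of DN00.base_ok DN00.gb_ok DN00.gads_ok (by decide +kernel) DN00.okc DN00.cmp_ok DN00.chk_ok

/-- there is no configuration of this instance. -/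
theorem noN_00 {V : Type v} [DecidableEq V] {ι : Type u} [Fintype ι] {B : ι → Finset V}
    {Q : Finset V} {x : ℕ → V} {C : ℕ → Finset V} (h : CfN B Q 2 3 x C [0, 2, 0] DN00.bl) : False :=
  h.absurd_srt (s := 1) (by decide) rfl instn_00

end Pool.Agent.Hyp6
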