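import Pool.Agent.Hyp6.CfBO
import Pool.Agent.Hyp6.InsN.M01

/-!
# HYP6: instance with bounds 1: n = 1, r = 2, values [4, 2], inner blocks []

1447 base clauses, 58 given clauses, 927 gadgets, 2374 learned clauses.
-/

set_option autoImplicit false
set_option maxRecDepth 100000

namespace Pool.Agent.Hyp6

open Rup

universe u v

namespace DN01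

noncomputable def base : List Ru := [
.rs (.lipl 1 74 94 1 20),
.rs (.join 1 2 5 5 3 3 [(1, 1)]),
.rs (.deg 4 [0, 3]),
.rs (.lip 1 72 77 7),
.rs (.lipl 1 82 94 1 12),
.rs (.join 0 32 6 3 2 1 [(5, 0)]),
.rs (.lip 0 64 67 7),
.rs (.join 0 12 6 3 2 1 [(2, 0), (3, 0)]),
.rs (.ordE 0 1 3),
.rs (.ab2 1 5),
.rs (.ab2 0 48),
.rs (.ordE 1 2 3),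
.rs (.ab2 0 18),
.rs (.join 1 4 3 4 4 2 [(2, 2)]),
.rs (.lipl 1 41 61 0 20),
.rs (.part [44, 83] [0, 1] [] []),
.rs (.join 1 8 4 4 2 2 [(3, 0)]),
.rs (.lipl 1 22 94 1 72),
.rs (.ab2 1 40),
.rs (.join 0 6 6 4 2 2 [(1, 0), (2, 0)]),
.rs (.lip 1 40 45 7),
.degU 1 [(0, 4), (1, 1)],
.rs (.ab2 1 24),
.rs (.lipl 1 13 93 0 80),
.rs (.mono 0 4 36 1),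
.rs (.lipl 0 65 83 1 18),
.rs (.mono 0 2 10 1),
.rs (.lip 1 68 100 32),
.rs (.l2 1 9 24 3 2 1),
.rs (.ordE 0 1 1),
.rs (.join 1 32 6 4 3 4 [(5, 3)]),
.rs (.join 1 2 3 5 3 2 [(1, 0)]),
.rs (.lipl 0 10 27 1 17),
.rs (.join 1 8 6 4 3 3 [(3, 2)]),
.rs (.join 1 2 6 4 3 1 [(1, 0)]),
.rs (.lipl 1 98 115 1 17),
.rs (.mono 1 6 38 1),
.rs (.part [104, 23] [1, 0] [] []),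
.rs (.mono 0 16 18 1),
.rs (.ab 0 6),
.rs (.hall [0] [3, 4, 5]),
.rs (.l2 1 10 72 3 1 3),
.rs (.lip 1 96 112 16),
.rs (.join 0 12 4 3 1 2 [(2, 0), (3, 0)]),
.rs (.l2 1 6 12 2 2 2),
.rs (.lipl 1 44 61 0 17),
.rs (.l2 1 24 80 4 2 1),
.rs (.deg 6 [4, 0]),
.rs (.le 0 17 16 4 3),
.rs (.lip 1 96 97 1),
.rs (.ordE 0 4 2),
.rs (.le 1 68 4 2 4),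
.rs (.lipl 1 81 91 1 10),
.rs (.lip 1 68 116 56),
.rs (.part [34, 93] [0, 1] [] []),
.rs (.l2 0 33 96 5 1 1),
.rs (.join 1 16 6 5 2 4 [(4, 1)]),
.rs (.lipl 1 76 93 1 17),
.rs (.join 0 2 6 3 2 1 [(1, 0)]),
.rs (.lipl 1 81 93 0 12),
.rs (.l2 0 20 48 4 1 1),
.rs (.lipl 0 17 89 1 72),
.rs (.part [88, 39] [0, 1] [] []),
.rs (.join 0 5 6 4 4 0 [(0, 0), (2, 0)]),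
.rs (.mono 1 96 100 1),
.rs (.lip 1 6 54 56),
.rs (.mono 0 64 80 1),
.rs (.join 0 34 6 3 3 0 [(1, 0), (5, 0)]),
.rs (.join 1 1 6 4 1 4 [(0, 1)]),
.rs (.join 1 16 5 2 1 1 [(4, 0)]),
.rs (.join 0 1 4 3 2 2 [(0, 1)]),
.rs (.l2 0 66 68 6 1 1),
.rs (.join 0 3 5 3 3 1 [(0, 1), (1, 0)]),
.degU 2 [(0, 2), (1, 3)],
.rs (.lipl 1 46 63 0 17),
.rs (.lipl 0 18 90 0 72),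
.rs (.join 0 1 4 2 2 2 [(0, 2)]),
.rs (.l2 1 9 33 0 2 1),
.rs (.join 1 16 6 4 2 2 [(4, 0)]),
.rs (.lipl 0 9 77 0 68),
.rs (.lipl 1 45 111 1 66),
.rs (.le 1 34 2 1 3),
.rs (.lip 1 0 56 56),
.rs (.join 1 1 4 4 2 2 [(0, 0)]),
.rs (.le 0 5 4 2 1),
.rs (.join 1 2 5 5 2 4 [(1, 1)]),
.rs (.l2 1 9 12 3 1 2),
.rs (.lipl 1 22 94 0 72),
.rs (.mono 0 32 96 1),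
.rs (.mono 1 24 28 1),
.rs (.lipl 1 51 63 1 12),
.rs (.join 0 4 3 2 1 2 [(2, 1)]),
.rs (.lipl 1 13 109 0 96),
.rs (.lip 1 16 23 7),
.rs (.lipl 0 34 51 0 17),
.rs (.srt 0 1 0 0 4),
.rs (.join 0 2 6 3 1 2 [(1, 0)]),
.rs (.join 0 8 5 3 1 2 [(3, 0)]),
.rs (.lip 0 3 43 56),
.rs (.part [81, 46] [0, 1] [] []),
.rs (.mono 0 3 19 1),
.rs (.part [68, 3] [0, 0] [56] []),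
.rs (.lipl 1 41 109 0 68),
.rs (.lipl 0 33 53 0 20),
.rs (.lipl 1 76 93 0 17),
.rs (.srt 0 5 0 4 2),
.rs (.lipl 1 74 110 0 36),
.rs (.join 1 4 6 4 3 3 [(2, 2)]),
.rs (.le 0 20 16 4 2),
.rs (.mono 0 48 49 1),
.rs (.join 1 1 2 3 2 1 [(0, 0)]),
.degU 3 [(0, 2), (1, 3)],
.rs (.l2 0 10 34 1 1 1),
.rs (.lipl 1 76 110 1 34),
.rs (.lipl 1 28 124 1 96),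
.rs (.deg 2 [0, 3]),
.rs (.l2 0 18 20 4 2 1),
.rs (.mono 1 3 35 1),
.rs (.lip 0 6 54 56),
.rs (.l2 0 3 33 0 2 1),
.rs (.lip 1 6 46 56),
.rs (.l2 1 3 17 0 1 2),
.rs (.lipl 1 50 62 0 12),
.rs (.join 0 2 3 1 0 2 [(1, 1)]),
.rs (.join 0 6 5 3 2 1 [(1, 0), (2, 0)]),
.rs (.join 0 5 5 3 3 2 [(0, 2), (2, 0)]),
.rs (.lip 0 3 27 56),
.rs (.l2 1 17 20 4 2 1),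
.rs (.lip 0 40 43 7),
.rs (.part [16, 104] [0, 0] [7] []),
.rs (.join 0 1 3 3 3 1 [(0, 1)]),
.rs (.join 0 2 5 3 1 2 [(1, 0)]),
.rs (.l2 1 18 48 4 1 2),
.rs (.l2 1 36 48 5 1 1),
.rs (.lipl 1 73 91 0 18),
.rs (.join 0 36 6 3 2 2 [(2, 1), (5, 0)]),
.rs (.srt 0 4 0 3 1),
.rs (.part [4, 67] [0, 0] [56] []),
.rs (.le 1 12 8 3 3),
.rs (.le 0 36 4 2 2),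
.rs (.srt 0 4 0 3 3),
.rs (.part [11, 116] [1, 0] [] []),
.rs (.lip 0 12 76 64),
.rs (.join 0 2 4 3 2 2 [(1, 1)]),
.rs (.ordE 0 16 1),
.rs (.join 1 4 6 4 4 3 [(2, 3)]),
.rs (.lipl 1 82 115 1 33),
.rs (.mono 1 86 118 2),
.rs (.ordE 0 2 3),
.rs (.lipl 1 76 110 0 34),
.rs (.lipl 1 42 62 0 20),
.rs (.join 1 2 3 4 2 2 [(1, 0)]),
.rs (.mono 0 80 81 1),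
.rs (.le 1 36 4 2 3),
.rs (.le 1 66 2 1 3),
.rs (.lipl 1 81 91 0 10),
.rs (.lipl 1 13 31 1 18),
.rs (.lipl 1 73 109 1 36),
.rs (.lip 0 5 29 56),
.rs (.lipl 0 10 30 1 20),
.rs (.part [74, 53] [0, 1] [] []),
.rs (.part [64, 63] [0, 1] [] []),
.rs (.join 1 1 6 5 2 4 [(0, 1)]),
.rs (.join 0 20 6 3 2 2 [(2, 0), (4, 1)]),
.rs (.l2 1 33 36 5 1 3),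
.rs (.le 0 66 2 1 2),
.rs (.lipl 1 28 94 0 66),
.rs (.part [35, 92] [0, 1] [] []),
.rs (.le 0 17 1 0 3),
.rs (.part [25, 102] [0, 1] [] []),
.rs (.lip 0 9 73 64),
.rs (.part [26, 101] [1, 0] [] []),
.rs (.l2 0 17 18 4 1 2),
.rs (.join 0 8 4 3 1 2 [(3, 0)]),
.rs (.join 1 1 1 3 2 2 [(0, 1)]),
.rs (.mono 0 4 5 1),
.rs (.join 0 1 5 2 2 0 [(0, 0)]),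
.rs (.part [23, 104] [0, 1] [] []),
.rs (.join 1 2 6 4 1 3 [(1, 0)]),
.rs (.ab 0 2),
.rs (.lipl 0 6 78 1 72),
.rs (.lipl 1 19 31 0 12),
.rs (.join 0 1 6 3 1 2 [(0, 0)]),
.rs (.l2 0 6 10 1 2 1),
.rs (.lipl 1 38 118 0 80),
.rs (.part [8, 112] [0, 0] [7] []),
.rs (.lipl 1 52 118 0 66),
.rs (.join 1 2 4 3 2 2 [(1, 1)]),
.rs (.ab2 1 66),
.rs (.part [17, 104] [0, 0] [6] []),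
.rs (.join 0 33 6 3 3 0 [(0, 0), (5, 0)]),
.rs (.le 0 72 64 6 2),
.rs (.join 0 17 6 3 3 2 [(0, 2), (4, 0)]),
.rs (.l2 1 33 48 5 2 2),
.rs (.le 1 40 8 3 3),
.rs (.lipl 1 14 110 1 96),
.rs (.part [64, 56] [0, 0] [7] []),
.rs (.part [49, 78] [1, 0] [] []),
.rs (.lipl 1 38 47 1 9),
.rs (.l2 0 33 36 5 1 1),
.rs (.join 1 16 6 4 1 3 [(4, 0)]),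
.rs (.join 0 40 6 3 2 1 [(3, 0), (5, 0)]),
.rs (.join 1 1 5 4 2 4 [(0, 2)]),
.rs (.le 1 24 8 3 4),
.rs (.le 1 3 1 0 2),
.rs (.l2 0 68 96 6 2 1),
.rs (.join 0 6 3 3 1 2 [(1, 0), (2, 0)]),
.rs (.join 1 16 6 5 2 3 [(4, 0)]),
.rs (.join 0 16 5 3 1 2 [(4, 0)]),
.rs (.lipl 1 37 109 0 72),
.rs (.join 1 8 5 3 0 3 [(3, 0)]),
.rs (.join 0 36 6 3 2 2 [(2, 0), (5, 1)]),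
.rs (.join 1 1 2 4 1 3 [(0, 0)]),
.rs (.l2 1 5 33 0 1 2),
.rs (.le 1 18 2 1 1),
.rs (.join 0 2 5 2 2 1 [(1, 1)]),
.rs (.l2 1 36 40 5 2 1),
.rs (.join 1 4 3 4 2 2 [(2, 0)]),
.rs (.part [68, 59] [0, 1] [] []),
.rs (.l2 0 66 96 6 1 1),
.rs (.lip 1 65 105 56),
.rs (.join 0 10 6 3 3 0 [(1, 0), (3, 0)]),
.rs (.lipl 1 14 110 0 96),
.rs (.ab 1 5),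
.rs (.ab2 0 10),
.rs (.lipl 1 21 31 0 10),
.rs (.join 0 18 6 3 3 0 [(1, 0), (4, 0)]),
.rs (.lipl 1 44 109 0 65),
.rs (.lipl 0 12 77 0 65),
.rs (.join 1 8 4 3 2 2 [(3, 1)]),
.rs (.lipl 1 81 117 0 36),
.rs (.join 0 2 5 3 2 2 [(1, 1)]),
.rs (.part [5, 66] [0, 0] [56] []),
.rs (.join 1 4 3 5 4 2 [(2, 1)]),
.rs (.lip 1 68 76 8),
.rs (.l2 0 66 80 6 1 1),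
.rs (.l2 0 18 48 4 1 1),
.rs (.join 1 1 2 3 1 3 [(0, 1)]),
.rs (.le 1 36 32 5 4),
.rs (.le 0 65 1 0 3),
.rs (.part [41, 86] [1, 0] [] []),
.rs (.join 0 1 2 3 3 0 [(0, 0)]),
.rs (.join 1 4 5 4 4 3 [(2, 3)]),
.rs (.lipl 0 20 30 0 10),
.rs (.join 1 1 6 4 1 3 [(0, 0)]),
.rs (.lipl 1 84 118 1 34),
.rs (.join 0 18 6 3 2 1 [(1, 0), (4, 0)]),
.rs (.join 0 34 6 3 2 1 [(1, 0), (5, 0)]),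
.rs (.lipl 1 44 109 1 65),
.rs (.join 0 33 6 3 2 2 [(0, 0), (5, 1)]),
.rs (.srt 0 1 0 0 2),
.rs (.ordE 0 64 3),
.rs (.part [1, 70] [0, 0] [56] []),
.rs (.un 0 1),
.rs (.l2 0 6 10 1 1 1),
.rs (.l2 0 9 72 3 2 1),
.rs (.join 0 8 6 4 2 2 [(3, 0)]),
.rs (.l2 1 6 20 2 2 1),
.rs (.join 1 16 6 5 3 3 [(4, 1)]),
.rs (.part [6, 121] [0, 1] [] []),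
.rs (.lipl 1 14 31 0 17),
.rs (.part [6, 65] [0, 0] [56] []),
.rs (.lipl 0 49 61 1 12),
.rs (.step 0 2 88 [24, 72, 80, 88] []),
.rs (.join 0 1 2 2 2 0 [(0, 0)]),
.rs (.l2 0 65 96 6 1 1),
.rs (.join 0 17 5 3 2 1 [(0, 0), (4, 0)]),
.rs (.lipl 1 41 61 1 20),
.rs (.ordE 0 2 2),
.rs (.le 0 33 32 5 2),
.rs (.join 1 1 6 4 2 3 [(0, 1)]),
.rs (.join 1 4 6 4 2 4 [(2, 2)]),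
.rs (.join 0 4 4 3 2 1 [(2, 0)]),
.rs (.lipl 1 100 118 0 18),
.rs (.part [88, 39] [1, 0] [] []),
.rs (.lipl 1 98 110 0 12),
.rs (.part [52, 75] [0, 1] [] []),
.rs (.join 1 8 4 4 1 3 [(3, 0)]),
.rs (.part [73, 54] [0, 1] [] []),
.rs (.ab2 1 96),
.rs (.join 0 17 5 3 3 0 [(0, 0), (4, 0)]),
.rs (.join 1 4 5 5 3 3 [(2, 1)]),
.rs (.le 0 12 4 2 1),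
.rs (.l2 0 72 80 6 1 1),
.rs (.join 0 1 5 3 3 1 [(0, 1)]),
.rs (.join 0 2 3 3 1 2 [(1, 0)]),
.rs (.l2 0 34 66 1 1 1),
.rs (.part [38, 89] [0, 1] [] []),
.rs (.lipl 1 84 117 0 33),
.rs (.join 1 16 6 4 2 4 [(4, 2)]),
.rs (.deg 5 [3, 0]),
.rs (.l2 0 34 96 5 1 1),
.rs (.lipl 0 17 27 1 10),
.rs (.deg 0 [3, 0]),
.rs (.un 0 5),
.rs (.lipl 1 35 55 0 20),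
.rs (.lipl 1 26 94 0 68),
.rs (.lipl 1 19 31 1 12),
.rs (.lipl 0 65 75 1 10),
.rs (.l2 1 17 24 4 2 1),
.rs (.join 1 2 6 4 2 4 [(1, 2)]),
.rs (.lipl 1 100 109 1 9),
.rs (.part [37, 90] [0, 1] [] []),
.rs (.mono 0 5 13 1),
.rs (.lipl 1 53 119 1 66),
.rs (.lipl 1 52 117 1 65),
.rs (.mono 0 17 81 1),
.rs (.hall [1] [0, 1, 2]),
.rs (.lipl 0 9 27 1 18),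
.rs (.lipl 0 33 43 1 10),
.rs (.lip 1 40 46 7),
.rs (.join 0 48 6 4 2 2 [(4, 0), (5, 0)]),
.rs (.le 0 33 32 5 1),
.rs (.mono 0 32 33 1),
.rs (.l2 1 10 72 3 1 2),
.rs (.l2 0 36 68 2 1 1),
.rs (.l2 1 34 48 5 2 2),
.rs (.join 1 1 1 2 1 1 [(0, 0)]),
.rs (.lipl 1 100 109 0 9),
.rs (.part [96, 24] [0, 0] [7] []),
.rs (.l2 1 17 80 4 1 2),
.rs (.ab2 0 33),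
.rs (.mono 1 80 82 1),
.rs (.join 1 4 4 3 3 2 [(2, 2)]),
.rs (.lip 0 64 112 56),
.rs (.lip 0 66 114 56),
.rs (.le 0 20 16 4 1),
.rs (.part [28, 99] [0, 1] [] []),
.rs (.part [20, 107] [0, 1] [] []),
.rs (.join 1 4 3 4 1 3 [(2, 0)]),
.rs (.join 0 32 6 3 1 2 [(5, 0)]),
.rs (.deg 2 [2, 1]),
.rs (.lipl 1 21 31 1 10),
.rs (.join 1 8 4 3 1 2 [(3, 0)]),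
.rs (.ordL 0 66 1),
.rs (.l2 1 18 24 4 1 2),
.rs (.lipl 1 97 109 0 12),
.rs (.part [2, 125] [0, 1] [] []),
.rs (.join 0 10 5 3 3 0 [(1, 0), (3, 0)]),
.rs (.lip 0 33 97 64),
.rs (.part [104, 23] [0, 1] [] []),
.rs (.l2 0 65 80 6 2 1),
.rs (.join 0 2 4 3 1 2 [(1, 0)]),
.rs (.part [3, 68] [0, 0] [56] []),
.rs (.lip 1 64 88 56),
.rs (.join 0 16 6 4 2 2 [(4, 0)]),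
.rs (.lip 0 64 88 56),
.rs (.lipl 0 17 29 0 12),
.rs (.join 1 4 5 5 1 4 [(2, 0)]),
.rs (.lipl 1 81 115 0 34),
.rs (.join 0 1 1 3 2 2 [(0, 1)]),
.degU 0 [(0, 2), (1, 3)],
.rs (.join 1 1 3 3 2 2 [(0, 1)]),
.rs (.join 1 8 6 4 2 2 [(3, 0)]),
.rs (.part [58, 69] [0, 1] [] []),
.rs (.l2 0 10 34 1 2 1),
.rs (.le 0 9 8 3 2),
.rs (.lip 0 17 81 64),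
.rs (.lipl 0 10 106 1 96),
.rs (.join 1 4 5 4 3 2 [(2, 1)]),
.rs (.join 0 1 4 2 2 1 [(0, 1)]),
.rs (.lipl 1 35 47 0 12),
.rs (.lipl 1 28 62 0 34),
.degU 4 [(0, 2), (1, 3)],
.rs (.join 0 4 6 3 2 1 [(2, 0)]),
.rs (.join 0 16 6 3 2 1 [(4, 0)]),
.rs (.lip 0 1 41 56),
.rs (.ordE 1 64 2),
.rs (.lipl 0 33 45 0 12),
.rs (.lipl 1 35 115 0 80),
.rs (.join 1 4 5 4 2 2 [(2, 0)]),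
.rs (.step 0 6 60 [28, 44, 52, 56, 60] []),
.rs (.join 1 16 5 4 2 2 [(4, 0)]),
.rs (.part [51, 76] [1, 0] [] []),
.rs (.step 0 6 15 [7, 11, 13, 14, 15] []),
.rs (.join 0 6 3 3 2 2 [(1, 0), (2, 1)]),
.rs (.lipl 1 98 107 0 9),
.rs (.lipl 1 29 125 1 96),
.rs (.join 1 4 5 4 3 1 [(2, 0)]),
.rs (.join 1 4 3 4 3 2 [(2, 1)]),
.rs (.join 1 8 4 5 2 3 [(3, 0)]),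
.rs (.join 0 8 6 3 1 2 [(3, 0)]),
.rs (.l2 0 12 20 2 2 1),
.rs (.part [113, 14] [1, 0] [] []),
.rs (.mono 0 64 72 1),
.rs (.lipl 0 33 43 0 10),
.rs (.part [87, 40] [1, 0] [] []),
.rs (.join 0 16 6 2 1 1 [(4, 0)]),
.rs (.l2 0 65 80 6 1 1),
.rs (.srt 0 1 0 0 3),
.rs (.lipl 1 52 62 1 10),
.rs (.join 0 10 4 3 2 2 [(1, 1), (3, 0)]),
.degU 3 [(0, 1), (1, 4)],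
.rs (.join 1 1 1 3 1 3 [(0, 1)]),
.rs (.l2 1 68 72 6 2 2),
.rs (.lip 1 96 101 7),
.rs (.join 1 4 4 5 3 3 [(2, 1)]),
.rs (.join 0 1 2 3 1 2 [(0, 0)]),
.rs (.le 0 66 64 6 1),
.rs (.join 1 4 6 4 3 1 [(2, 0)]),
.rs (.le 1 65 1 0 1),
.rs (.lipl 1 35 115 1 80),
.rs (.part [98, 29] [1, 0] [] []),
.rs (.mono 0 32 48 1),
.rs (.part [83, 44] [1, 0] [] []),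
.rs (.l2 0 66 72 6 1 1),
.rs (.lipl 1 33 113 0 80),
.rs (.lipl 1 97 115 1 18),
.rs (.lip 0 48 54 7),
.rs (.join 1 12 4 5 4 2 [(2, 1), (3, 0)]),
.rs (.le 0 68 4 2 2),
.rs (.join 0 5 5 3 2 1 [(0, 0), (2, 0)]),
.rs (.part [82, 45] [1, 0] [] []),
.rs (.ab 0 4),
.rs (.join 1 2 4 5 3 2 [(1, 0)]),
.rs (.mono 0 51 115 2),
.rs (.join 1 2 4 4 2 3 [(1, 1)]),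
.rs (.lipl 1 76 94 0 18),
.rs (.lipl 1 46 63 1 17),
.rs (.join 0 6 5 3 2 2 [(1, 1), (2, 0)]),
.rs (.l2 0 65 72 6 1 1),
.rs (.lipl 0 36 53 1 17),
.rs (.join 1 4 5 4 2 4 [(2, 2)]),
.rs (.lip 0 16 22 7),
.rs (.join 0 1 3 4 2 2 [(0, 0)]),
.rs (.deg 4 [3, 0]),
.rs (.join 0 2 5 1 1 0 [(1, 0)]),
.rs (.le 0 6 4 2 2),
.rs (.lip 0 48 53 7),
.rs (.join 1 16 5 3 2 2 [(4, 1)]),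
.rs (.l2 0 10 18 1 1 1),
.rs (.lipl 0 33 105 0 72),
.rs (.lip 0 66 90 56),
.rs (.lipl 0 68 85 0 17),
.rs (.lipl 0 66 75 1 9),
.rs (.part [96, 31] [0, 1] [] []),
.rs (.srt 0 3 0 0 2),
.rs (.mono 0 33 49 1),
.rs (.part [39, 88] [0, 1] [] []),
.rs (.join 0 8 5 4 2 2 [(3, 0)]),
.rs (.join 1 2 5 5 2 3 [(1, 0)]),
.rs (.join 1 16 5 5 3 3 [(4, 1)]),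
.rs (.join 0 34 6 3 1 2 [(1, 0), (5, 0)]),
.rs (.join 1 8 6 3 2 2 [(3, 1)]),
.rs (.lipl 1 37 55 0 18),
.rs (.join 1 1 6 4 2 4 [(0, 2)]),
.rs (.part [32, 95] [0, 1] [] []),
.rs (.part [53, 74] [1, 0] [] []),
.rs (.lipl 1 74 94 0 20),
.rs (.l2 1 12 72 3 1 2),
.rs (.mono 1 5 13 1),
.rs (.lip 0 66 106 56),
.rs (.join 1 1 1 3 2 3 [(0, 2)]),
.rs (.join 1 1 1 3 1 2 [(0, 0)]),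
.rs (.lip 0 72 73 1),
.rs (.join 0 4 5 1 0 1 [(2, 0)]),
.rs (.lipl 0 10 43 0 33),
.rs (.join 0 16 5 3 2 1 [(4, 0)]),
.rs (.l2 0 48 80 4 2 1),
.rs (.l2 0 66 96 6 2 1),
.rs (.part [65, 62] [0, 1] [] []),
.rs (.join 0 2 2 1 2 0 [(1, 1)]),
.rs (.join 0 12 5 4 3 1 [(2, 0), (3, 0)]),
.rs (.deg 0 [2, 1]),
.rs (.le 0 24 16 4 1),
.rs (.lipl 1 38 55 0 17),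
.rs (.lipl 1 84 117 1 33),
.rs (.ab2 1 68),
.rs (.deg 3 [1, 2]),
.rs (.part [17, 110] [0, 1] [] []),
.rs (.part [76, 51] [1, 0] [] []),
.rs (.lip 0 84 124 56),
.rs (.l2 0 66 80 6 1 2),
.rs (.join 1 4 5 5 2 3 [(2, 0)]),
.rs (.part [77, 50] [1, 0] [] []),
.rs (.mono 0 64 66 1),
.rs (.le 0 96 64 6 1),
.rs (.l2 1 65 96 6 2 2),
.rs (.join 1 4 5 4 4 2 [(2, 2)]),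
.rs (.join 0 1 2 4 4 0 [(0, 0)]),
.rs (.le 0 34 32 5 2),
.rs (.lipl 1 37 117 1 80),
.rs (.lip 0 6 30 56),
.rs (.join 1 32 6 4 3 3 [(5, 2)]),
.rs (.l2 0 72 80 6 2 1),
.rs (.lipl 0 17 83 1 66),
.rs (.l2 1 5 36 2 1 3),
.rs (.part [62, 65] [1, 0] [] []),
.rs (.mono 0 64 65 1),
.rs (.lipl 1 41 107 0 66),
.rs (.part [73, 54] [1, 0] [] []),
.rs (.part [84, 43] [1, 0] [] []),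
.rs (.join 1 1 1 4 2 3 [(0, 1)]),
.rs (.lip 1 2 58 56),
.rs (.le 1 72 8 3 3),
.rs (.ab2 0 3),
.rs (.lipl 0 12 46 0 34),
.rs (.mono 1 70 71 1),
.degU 5 [(0, 2), (1, 3)],
.rs (.part [30, 97] [1, 0] [] []),
.rs (.join 1 16 6 4 2 3 [(4, 1)]),
.rs (.part [4, 123] [0, 1] [] []),
.rs (.lipl 1 50 62 1 12),
.rs (.join 0 8 6 3 2 1 [(3, 0)]),
.rs (.lipl 1 28 61 0 33),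
.rs (.lip 0 68 116 56),
.rs (.lipl 1 51 119 1 68),
.rs (.l2 0 17 18 4 1 1),
.rs (.join 0 2 3 4 2 2 [(1, 0)]),
.rs (.lipl 1 21 117 1 96),
.rs (.join 0 6 4 3 2 2 [(1, 1), (2, 0)]),
.rs (.join 1 4 6 4 1 3 [(2, 0)]),
.rs (.lipl 0 18 51 0 33),
.rs (.l2 1 5 33 0 2 1),
.rs (.lip 0 72 75 7),
.rs (.join 1 4 6 5 2 4 [(2, 1)]),
.rs (.lipl 1 74 91 0 17),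
.rs (.lipl 1 98 107 1 9),
.rs (.ab2 0 80),
.rs (.l2 1 20 24 4 2 1),
.rs (.join 1 9 6 4 3 1 [(0, 0), (3, 0)]),
.rs (.lip 1 64 70 7),
.rs (.join 1 32 6 4 2 4 [(5, 2)]),
.rs (.join 0 4 4 1 0 1 [(2, 0)]),
.rs (.part [24, 96] [0, 0] [7] []),
.rs (.join 0 33 6 3 2 2 [(0, 1), (5, 0)]),
.rs (.l2 0 10 18 1 2 1),
.rs (.lip 0 80 83 7),
.rs (.ab2 0 66),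
.rs (.le 0 9 8 3 3),
.rs (.join 1 2 3 3 2 2 [(1, 1)]),
.rs (.join 1 2 2 3 2 2 [(1, 1)]),
.rs (.lipl 0 20 29 1 9),
.rs (.l2 0 17 65 0 1 2),
.rs (.l2 1 10 24 3 2 1),
.rs (.lipl 0 17 51 1 34),
.rs (.deg 1 [1, 2]),
.rs (.l2 0 18 48 4 2 1),
.rs (.join 1 1 2 3 0 3 [(0, 0)]),
.rs (.lip 1 66 90 56),
.rs (.lipl 1 37 55 1 18),
.rs (.mono 0 6 7 1),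
.rs (.lip 1 24 27 7),
.rs (.mono 1 68 100 1),
.rs (.join 1 1 2 4 2 3 [(0, 1)]),
.rs (.join 1 1 2 5 2 3 [(0, 0)]),
.rs (.deg 6 [2, 2]),
.rs (.l2 1 5 9 0 2 1),
.rs (.lipl 1 100 118 1 18),
.rs (.join 1 1 4 5 2 3 [(0, 0)]),
.rs (.join 1 3 6 3 2 1 [(0, 0), (1, 0)]),
.rs (.join 0 10 6 3 1 2 [(1, 0), (3, 0)]),
.rs (.lip 0 96 101 7),
.rs (.lip 0 80 85 7),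
.rs (.deg 6 [3, 1]),
.rs (.mono 0 16 80 1),
.rs (.part [2, 69] [0, 0] [56] []),
.rs (.le 0 36 4 2 1),
.rs (.mono 1 126 127 2),
.rs (.le 0 96 32 5 2),
.rs (.ab 1 4),
.rs (.ordE 1 8 1),
.rs (.mono 0 4 12 1),
.rs (.l2 0 17 48 4 2 1),
.rs (.lip 1 80 83 7),
.rs (.lipl 1 22 118 1 96),
.rs (.join 0 2 2 2 1 1 [(1, 0)]),
.rs (.part [27, 100] [1, 0] [] []),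
.rs (.ab2 0 65),
.rs (.part [43, 84] [1, 0] [] []),
.rs (.lip 0 68 108 56),
.rs (.join 0 10 4 3 2 1 [(1, 0), (3, 0)]),
.rs (.ordE 1 8 2),
.rs (.join 1 16 5 4 3 3 [(4, 2)]),
.rs (.l2 0 10 72 3 2 1),
.rs (.join 1 8 5 4 2 3 [(3, 1)]),
.rs (.lipl 0 10 27 0 17),
.rs (.join 0 3 5 3 4 1 [(0, 1), (1, 1)]),
.rs (.part [50, 77] [0, 1] [] []),
.rs (.l2 1 9 24 3 1 1),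
.rs (.lipl 1 26 59 0 33),
.rs (.l2 0 65 96 6 2 1),
.rs (.join 0 1 1 3 1 2 [(0, 0)]),
.rs (.join 0 4 3 1 0 2 [(2, 1)]),
.rs (.lipl 1 25 93 0 68),
.rs (.lipl 1 42 110 0 68),
.rs (.join 1 2 4 4 3 2 [(1, 1)]),
.rs (.l2 1 65 66 6 1 1),
.rs (.ab 1 2),
.rs (.le 0 18 2 1 2),
.rs (.join 1 2 3 3 1 2 [(1, 0)]),
.rs (.join 0 2 4 1 0 2 [(1, 1)]),
.rs (.srt 0 2 0 1 1),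
.rs (.l2 0 72 96 6 2 1),
.rs (.l2 0 68 72 6 1 2),
.rs (.lipl 1 42 59 1 17),
.rs (.l2 1 3 9 0 2 1),
.rs (.ab 1 0),
.rs (.join 0 2 2 3 1 2 [(1, 0)]),
.rs (.join 0 12 5 3 3 0 [(2, 0), (3, 0)]),
.rs (.mono 0 72 76 1),
.rs (.join 0 1 6 3 2 2 [(0, 1)]),
.rs (.join 0 4 6 3 1 2 [(2, 0)]),
.degU 1 [(0, 2), (1, 3)],
.rs (.lipl 0 12 45 0 33),
.rs (.join 1 12 4 5 4 2 [(2, 0), (3, 1)]),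
.rs (.l2 1 20 48 4 2 1),
.rs (.lip 1 72 78 7),
.rs (.lipl 0 17 89 0 72),
.rs (.join 0 24 6 3 3 0 [(3, 0), (4, 0)]),
.rs (.lipl 1 46 111 1 65),
.rs (.le 0 10 2 1 3),
.rs (.lipl 0 18 86 0 68),
.rs (.join 1 4 6 4 2 2 [(2, 0)]),
.rs (.join 0 48 6 4 3 1 [(4, 0), (5, 0)]),
.rs (.lipl 0 66 83 0 17),
.rs (.lip 1 38 102 64),
.rs (.lipl 1 98 118 1 20),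
.degU 3 [(0, 3), (1, 2)],
.rs (.le 1 20 16 4 3),
.rs (.le 0 17 16 4 2),
.rs (.join 0 48 6 4 4 0 [(4, 0), (5, 0)]),
.rs (.l2 1 17 65 0 1 2),
.rs (.l2 1 3 33 0 1 2),
.rs (.part [22, 105] [1, 0] [] []),
.rs (.lip 1 48 53 7),
.rs (.join 1 8 5 4 1 3 [(3, 0)]),
.rs (.lipl 1 100 117 0 17),
.rs (.join 1 4 5 5 4 2 [(2, 1)]),
.rs (.deg 1 [2, 1]),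
.rs (.join 1 8 5 5 2 3 [(3, 0)]),
.rs (.l2 1 5 17 0 1 2),
.rs (.part [3, 124] [0, 1] [] []),
.rs (.lipl 1 13 31 0 18),
.rs (.l2 1 9 40 3 1 2),
.rs (.lipl 0 12 29 0 17),
.rs (.part [40, 87] [0, 1] [] []),
.rs (.lip 1 64 69 7),
.rs (.join 1 2 3 4 1 3 [(1, 0)]),
.rs (.lipl 0 18 30 0 12),
.rs (.lip 1 68 92 56),
.rs (.join 0 2 5 2 1 2 [(1, 1)]),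
.rs (.lipl 1 22 118 0 96),
.rs (.join 1 16 5 4 3 2 [(4, 1)]),
.rs (.lipl 0 12 30 0 18),
.rs (.join 0 20 6 3 2 1 [(2, 0), (4, 0)]),
.rs (.ab2 1 48),
.rs (.join 0 6 4 4 4 0 [(1, 0), (2, 0)]),
.rs (.join 0 1 3 3 2 2 [(0, 1)]),
.rs (.ab2 1 6),
.rs (.join 1 8 6 5 1 4 [(3, 0)]),
.rs (.l2 0 18 34 1 1 2),
.rs (.lipl 1 100 110 0 10),
.rs (.lipl 1 50 122 1 72),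
.rs (.lip 0 48 51 7),
.rs (.join 1 2 6 5 3 3 [(1, 1)]),
.rs (.join 0 9 5 3 3 0 [(0, 0), (3, 0)]),
.rs (.lip 1 100 108 8),
.rs (.ordE 1 64 4),
.rs (.l2 1 18 34 1 1 2),
.rs (.part [49, 78] [0, 1] [] []),
.rs (.join 1 4 5 5 3 2 [(2, 0)]),
.rs (.lip 0 80 86 7),
.rs (.join 1 9 4 5 4 2 [(0, 0), (3, 1)]),
.rs (.lipl 1 50 118 1 68),
.rs (.lipl 1 81 117 1 36),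
.rs (.lipl 1 38 118 1 80),
.rs (.join 0 6 5 3 3 0 [(1, 0), (2, 0)]),
.rs (.lip 0 72 78 7),
.rs (.lipl 1 28 94 1 66),
.rs (.srt 0 5 0 4 4),
.rs (.l2 0 33 34 5 1 1),
.rs (.l2 1 18 48 4 1 1),
.rs (.l2 1 10 34 1 1 2),
.rs (.lipl 1 84 94 0 10),
.rs (.join 0 40 6 4 4 0 [(3, 0), (5, 0)]),
.rs (.part [89, 38] [1, 0] [] []),
.rs (.join 1 2 2 4 3 2 [(1, 1)]),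
.rs (.lipl 1 28 93 0 65),
.rs (.join 1 1 3 3 1 2 [(0, 0)]),
.rs (.lipl 1 37 47 0 10),
.rs (.le 1 5 1 0 3),
.rs (.lipl 1 50 59 1 9),
.rs (.join 0 2 3 2 2 2 [(1, 2)]),
.rs (.ab2 1 72),
.rs (.join 0 1 3 3 2 1 [(0, 0)]),
.rs (.part [101, 26] [1, 0] [] []),
.rs (.join 0 5 6 4 3 1 [(0, 0), (2, 0)]),
.rs (.join 1 1 4 3 2 2 [(0, 1)]),
.rs (.lip 1 80 86 7),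
.rs (.mono 0 66 74 1),
.rs (.le 1 36 32 5 3),
.rs (.part [79, 48] [1, 0] [] []),
.rs (.join 1 4 5 4 1 3 [(2, 0)]),
.rs (.l2 0 18 34 1 2 1),
.rs (.l2 1 18 34 1 2 1),
.rs (.mono 0 89 93 2),
.rs (.ab 0 0),
.rs (.lipl 1 44 110 1 66),
.rs (.hall [0] [1, 2, 6]),
.rs (.join 0 4 4 3 2 2 [(2, 1)]),
.rs (.join 1 1 6 4 2 2 [(0, 0)]),
.rs (.part [64, 7] [0, 0] [56] []),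
.rs (.lipl 1 50 118 0 68),
.rs (.lipl 0 36 45 1 9),
.rs (.lipl 1 21 93 0 72),
.rs (.part [72, 48] [0, 0] [7] []),
.rs (.part [10, 117] [0, 1] [] []),
.rs (.mono 1 48 52 1),
.rs (.join 0 20 6 3 3 0 [(2, 0), (4, 0)]),
.rs (.le 0 68 64 6 1),
.rs (.join 0 20 6 3 1 2 [(2, 0), (4, 0)]),
.rs (.l2 0 6 66 1 1 2),
.rs (.join 0 4 5 3 2 2 [(2, 1)]),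
.rs (.join 0 12 6 3 3 1 [(2, 0), (3, 1)]),
.rs (.join 0 4 4 2 2 1 [(2, 1)]),
.rs (.l2 0 68 96 6 1 2),
.rs (.l2 0 34 36 5 1 1),
.rs (.lip 0 18 82 64),
.rs (.le 1 24 8 3 3),
.rs (.part [48, 72] [0, 0] [7] []),
.rs (.lipl 1 38 55 1 17),
.rs (.join 1 4 5 4 2 3 [(2, 1)]),
.rs (.lipl 1 12 78 0 66),
.rs (.lip 0 5 53 56),
.rs (.l2 0 66 68 6 2 1),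
.rs (.mono 0 96 98 1),
.rs (.join 1 4 4 5 2 3 [(2, 0)]),
.rs (.join 1 4 6 4 2 3 [(2, 1)]),
.rs (.join 0 2 2 4 2 2 [(1, 0)]),
.rs (.join 0 3 4 3 3 1 [(0, 1), (1, 0)]),
.rs (.join 1 1 6 3 2 2 [(0, 1)]),
.rs (.join 1 8 6 5 2 3 [(3, 0)]),
.rs (.l2 0 66 96 6 1 2),
.rs (.part [12, 115] [0, 1] [] []),
.rs (.l2 1 12 36 2 2 2),
.rs (.l2 1 3 34 1 2 1),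
.rs (.ab2 0 96),
.rs (.mono 0 64 96 1),
.rs (.join 1 3 5 5 4 3 [(0, 1), (1, 1)]),
.rs (.join 1 1 2 3 2 3 [(0, 2)]),
.rs (.deg 3 [3, 0]),
.degU 1 [(0, 3), (1, 2)],
.rs (.lipl 0 12 46 1 34),
.rs (.join 1 4 4 4 3 2 [(2, 1)]),
.rs (.part [36, 91] [0, 1] [] []),
.rs (.join 1 2 2 4 2 3 [(1, 1)]),
.rs (.lip 0 34 98 64),
.rs (.un 0 6),
.rs (.lip 0 64 69 7),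
.rs (.join 1 8 5 3 2 2 [(3, 1)]),
.rs (.lipl 1 54 126 1 72),
.rs (.join 1 2 5 4 2 3 [(1, 1)]),
.rs (.part [105, 22] [1, 0] [] []),
.rs (.part [21, 106] [1, 0] [] []),
.rs (.mono 0 4 6 1),
.rs (.lip 0 20 84 64),
.rs (.lip 0 98 122 56),
.rs (.part [97, 30] [1, 0] [] []),
.rs (.join 1 1 5 5 2 3 [(0, 0)]),
.rs (.l2 0 6 20 2 1 1),
.rs (.join 0 2 2 1 1 0 [(1, 0)]),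
.rs (.join 0 1 2 3 2 1 [(0, 0)]),
.rs (.join 0 18 6 3 1 2 [(1, 0), (4, 0)]),
.rs (.le 1 3 1 0 3),
.rs (.srt 0 3 0 0 4),
.rs (.mono 0 65 97 1),
.rs (.lip 1 65 113 56),
.rs (.lipl 0 20 53 0 33),
.rs (.part [18, 109] [0, 1] [] []),
.rs (.lipl 1 42 59 0 17),
.rs (.l2 1 12 24 3 2 1),
.rs (.le 1 65 1 0 2),
.rs (.lipl 1 44 110 0 66),
.rs (.join 0 3 5 3 3 0 [(0, 0), (1, 0)]),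
.rs (.l2 1 9 33 0 1 2),
.rs (.part [55, 72] [1, 0] [] []),
.rs (.join 1 8 4 3 2 3 [(3, 2)]),
.rs (.mono 0 65 81 1),
.rs (.l2 0 6 18 1 1 2),
.rs (.join 0 8 4 4 2 2 [(3, 0)]),
.rs (.lip 0 56 62 7),
.rs (.join 1 8 5 4 2 2 [(3, 0)]),
.rs (.lipl 0 33 105 1 72),
.rs (.l2 1 3 9 0 1 1),
.rs (.join 0 4 6 3 2 2 [(2, 1)]),
.rs (.lipl 1 14 94 0 80),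
.rs (.join 0 1 4 3 3 1 [(0, 1)]),
.rs (.mono 0 80 82 1),
.rs (.join 0 2 6 3 2 2 [(1, 1)]),
.rs (.part [69, 58] [0, 1] [] []),
.rs (.join 1 1 4 4 2 3 [(0, 1)]),
.rs (.lipl 1 74 91 1 17),
.rs (.l2 0 68 72 6 1 1),
.rs (.deg 5 [1, 2]),
.rs (.part [40, 80] [0, 0] [7] []),
.rs (.ordE 1 16 3),
.rs (.l2 1 18 24 4 2 1),
.rs (.lipl 0 18 83 0 65),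
.rs (.le 1 5 1 0 2),
.rs (.le 0 12 4 2 2),
.rs (.l2 0 10 40 3 2 1),
.rs (.part [30, 97] [0, 1] [] []),
.rs (.lip 1 4 60 56),
.rs (.part [46, 81] [1, 0] [] []),
.rs (.part [65, 6] [0, 0] [56] []),
.rs (.join 1 8 6 4 1 3 [(3, 0)]),
.rs (.l2 1 3 34 1 1 2),
.rs (.part [29, 98] [0, 1] [] []),
.rs (.part [78, 49] [1, 0] [] []),
.rs (.lipl 1 22 31 0 9),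
.rs (.le 1 80 16 4 3),
.rs (.lipl 1 98 115 0 17),
.rs (.lip 1 5 45 56),
.rs (.lip 1 37 101 64),
.rs (.lipl 0 36 53 0 17),
.rs (.part [106, 21] [1, 0] [] []),
.rs (.lipl 1 41 59 0 18),
.rs (.ordE 0 8 1),
.rs (.l2 0 68 80 6 1 1),
.rs (.part [70, 57] [1, 0] [] []),
.rs (.join 1 1 1 3 2 1 [(0, 0)]),
.rs (.join 0 1 1 3 2 1 [(0, 0)]),
.rs (.lip 0 64 104 56),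
.rs (.lipl 1 49 117 0 68),
.rs (.lip 1 68 84 16),
.rs (.lipl 1 34 102 1 68),
.rs (.join 1 8 6 3 2 3 [(3, 2)]),
.rs (.join 0 2 6 4 2 2 [(1, 0)]),
.rs (.join 0 2 2 2 2 0 [(1, 0)]),
.rs (.ordE 0 64 4),
.rs (.l2 1 12 68 2 1 2),
.rs (.join 1 16 6 4 3 1 [(4, 0)]),
.rs (.lipl 1 84 93 0 9),
.rs (.l2 1 6 34 1 2 1),
.rs (.part [8, 119] [0, 1] [] []),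
.rs (.ab2 0 9),
.rs (.join 1 4 5 4 3 3 [(2, 2)]),
.rs (.lipl 1 52 117 0 65),
.rs (.join 1 4 3 3 2 2 [(2, 1)]),
.rs (.join 0 24 5 4 4 0 [(3, 0), (4, 0)]),
.rs (.join 0 4 3 3 2 2 [(2, 1)]),
.rs (.lip 0 65 113 56),
.rs (.join 1 2 6 4 2 2 [(1, 0)]),
.rs (.part [5, 122] [0, 1] [] []),
.rs (.join 1 4 4 3 2 2 [(2, 1)]),
.rs (.join 0 2 6 2 1 1 [(1, 0)]),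
.rs (.part [33, 94] [0, 1] [] []),
.rs (.part [72, 55] [0, 1] [] []),
.rs (.un 0 2),
.rs (.l2 1 3 17 0 2 1),
.rs (.join 1 2 4 3 2 1 [(1, 0)]),
.rs (.ordE 0 8 3),
.rs (.ordE 0 16 2),
.rs (.lipl 1 98 118 0 20),
.rs (.lipl 1 21 55 1 34),
.rs (.part [16, 111] [0, 1] [] []),
.rs (.join 1 4 4 5 3 2 [(2, 0)]),
.rs (.lipl 1 50 115 0 65),
.rs (.l2 0 33 48 5 1 1),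
.rs (.part [66, 5] [0, 0] [56] []),
.rs (.join 0 36 6 3 3 0 [(2, 0), (5, 0)]),
.rs (.mono 0 12 14 1),
.rs (.lipl 0 20 29 0 9),
.degU 5 [(0, 1), (1, 4)],
.rs (.join 1 1 3 3 2 1 [(0, 0)]),
.rs (.lip 1 32 39 7),
.rs (.join 1 8 4 3 2 1 [(3, 0)]),
.rs (.lipl 1 97 115 0 18),
.rs (.lipl 1 73 107 1 34),
.rs (.lipl 0 10 43 1 33),
.rs (.join 0 4 6 2 0 2 [(2, 0)]),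
.rs (.mono 0 96 97 1),
.rs (.lipl 0 65 75 0 10),
.rs (.lipl 1 34 102 0 68),
.rs (.part [66, 61] [0, 1] [] []),
.rs (.deg 1 [0, 3]),
.rs (.l2 0 18 80 4 2 1),
.rs (.join 0 36 6 3 2 1 [(2, 0), (5, 0)]),
.rs (.l2 0 40 72 3 1 2),
.rs (.lip 0 24 27 7),
.rs (.l2 0 6 66 1 2 1),
.rs (.join 1 10 6 4 3 1 [(1, 0), (3, 0)]),
.rs (.deg 4 [2, 1]),
.rs (.l2 1 5 12 2 2 1),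
.rs (.lip 0 1 49 56),
.rs (.join 1 8 4 4 3 3 [(3, 2)]),
.rs (.l2 1 65 80 6 2 2),
.rs (.join 1 4 4 4 2 3 [(2, 1)]),
.rs (.un 1 0),
.rs (.ab2 0 5),
.rs (.part [31, 96] [1, 0] [] []),
.rs (.join 1 2 6 4 3 3 [(1, 2)]),
.rs (.join 1 2 6 5 2 4 [(1, 1)]),
.rs (.join 1 1 6 4 0 4 [(0, 0)]),
.rs (.join 0 9 6 3 3 1 [(0, 1), (3, 0)]),
.rs (.l2 1 5 20 2 1 2),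
.rs (.part [114, 13] [1, 0] [] []),
.rs (.lipl 1 38 110 1 72),
.rs (.part [25, 102] [1, 0] [] []),
.rs (.lipl 1 28 62 1 34),
.rs (.lipl 1 97 117 0 20),
.rs (.srt 0 2 0 1 3),
.rs (.lip 0 64 70 7),
.rs (.l2 0 17 20 4 1 1),
.rs (.join 1 2 6 4 2 3 [(1, 1)]),
.rs (.join 0 2 4 4 2 2 [(1, 0)]),
.rs (.step 0 5 71 [7, 67, 69, 70, 71] []),
.rs (.l2 1 12 24 3 1 3),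
.rs (.l2 1 5 17 0 2 1),
.rs (.ordE 0 64 2),
.rs (.join 0 33 6 3 3 1 [(0, 1), (5, 0)]),
.rs (.part [11, 116] [0, 1] [] []),
.rs (.join 0 24 6 3 2 1 [(3, 0), (4, 0)]),
.rs (.lipl 0 36 46 0 10),
.rs (.step 0 6 39 [7, 35, 37, 38, 39] []),
.rs (.lip 0 96 102 7),
.rs (.lip 0 100 124 56),
.rs (.l2 0 17 33 0 2 1),
.rs (.lipl 1 14 31 1 17),
.rs (.ordE 1 4 3),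
.rs (.mono 1 6 22 1),
.rs (.l2 1 18 48 4 2 1),
.rs (.join 0 17 6 3 2 1 [(0, 0), (4, 0)]),
.rs (.le 0 36 32 5 2),
.rs (.join 0 2 3 3 2 1 [(1, 0)]),
.rs (.join 0 33 6 3 2 1 [(0, 0), (5, 0)]),
.rs (.join 0 32 6 3 2 2 [(5, 1)]),
.rs (.join 0 2 5 3 2 1 [(1, 0)]),
.rs (.lip 1 96 98 2),
.rs (.join 1 3 4 5 3 2 [(0, 0), (1, 0)]),
.rs (.l2 1 6 18 1 1 2),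
.rs (.le 1 33 1 0 3),
.rs (.srt 0 4 0 3 2),
.rs (.join 1 32 6 4 4 3 [(5, 3)]),
.rs (.lipl 1 44 61 1 17),
.rs (.join 1 2 6 5 2 3 [(1, 0)]),
.rs (.part [103, 24] [1, 0] [] []),
.rs (.join 0 16 5 2 1 1 [(4, 0)]),
.rs (.mono 0 32 34 1),
.rs (.join 0 16 6 3 2 2 [(4, 1)]),
.rs (.join 0 5 5 3 4 1 [(0, 1), (2, 1)]),
.rs (.lipl 1 73 91 1 18),
.rs (.l2 0 72 96 6 1 1),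
.rs (.join 0 20 6 3 2 2 [(2, 1), (4, 0)]),
.rs (.lipl 1 38 110 0 72),
.rs (.join 0 20 5 4 2 2 [(2, 0), (4, 0)]),
.rs (.join 0 18 5 3 3 0 [(1, 0), (4, 0)]),
.rs (.ab2 0 40),
.rs (.part [81, 46] [1, 0] [] []),
.rs (.l2 0 12 68 2 1 1),
.rs (.lipl 1 41 59 1 18),
.rs (.ab 0 1),
.rs (.l2 0 66 72 6 1 2),
.rs (.part [108, 19] [1, 0] [] []),
.rs (.join 0 4 3 3 1 2 [(2, 0)]),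
.rs (.lipl 1 84 94 1 10),
.rs (.join 1 2 2 2 1 1 [(1, 0)]),
.rs (.lip 1 46 110 64),
.rs (.lipl 1 82 118 0 36),
.rs (.le 0 40 32 5 1),
.rs (.join 0 1 3 3 3 2 [(0, 2)]),
.rs (.l2 1 3 18 1 2 1),
.rs (.l2 0 5 9 0 1 2),
.rs (.ab2 0 24),
.rs (.lipl 1 35 103 1 68),
.rs (.join 0 2 6 2 1 2 [(1, 1)]),
.rs (.ab 1 6),
.rs (.part [80, 47] [0, 1] [] []),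
.rs (.join 0 12 5 3 2 2 [(2, 1), (3, 0)]),
.rs (.l2 0 10 66 1 2 1),
.rs (.part [67, 60] [1, 0] [] []),
.rs (.lipl 1 74 107 0 33),
.rs (.mono 0 17 49 1),
.rs (.l2 0 20 36 2 1 1),
.rs (.deg 2 [1, 2]),
.rs (.lipl 0 18 27 1 9),
.rs (.lipl 0 34 43 0 9),
.rs (.l2 0 17 80 4 1 1),
.rs (.join 0 1 5 3 2 1 [(0, 0)]),
.rs (.lipl 1 53 125 1 72),
.rs (.join 0 6 6 3 2 1 [(1, 0), (2, 0)]),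
.rs (.lipl 1 21 117 0 96),
.rs (.join 0 12 4 3 2 2 [(2, 1), (3, 0)]),
.rs (.join 0 2 4 3 2 1 [(1, 0)]),
.rs (.join 0 8 6 3 2 2 [(3, 1)]),
.rs (.join 1 2 3 4 3 2 [(1, 1)]),
.rs (.lipl 1 74 107 1 33),
.rs (.lipl 1 20 86 0 66),
.rs (.deg 1 [3, 0]),
.rs (.join 1 8 6 4 3 1 [(3, 0)]),
.rs (.lipl 0 17 51 0 34),
.rs (.lip 0 16 21 7),
.rs (.part [59, 68] [1, 0] [] []),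
.rs (.lipl 0 20 86 0 66),
.rs (.lipl 0 34 43 1 9),
.rs (.lipl 1 43 111 1 68),
.degU 6 [(0, 2), (1, 4)],
.rs (.join 0 12 6 3 2 2 [(2, 0), (3, 1)]),
.rs (.lip 0 56 59 7),
.rs (.part [26, 101] [0, 1] [] []),
.rs (.join 0 24 5 4 3 1 [(3, 0), (4, 0)]),
.rs (.le 0 20 4 2 2),
.rs (.deg 6 [1, 3]),
.rs (.l2 0 68 80 6 2 1),
.rs (.lipl 1 76 109 1 33),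
.rs (.part [100, 27] [0, 1] [] []),
.rs (.l2 0 9 65 0 2 1),
.rs (.l2 1 6 18 1 1 1),
.rs (.join 0 4 3 3 2 1 [(2, 0)]),
.rs (.l2 0 9 10 3 2 1),
.rs (.join 0 1 5 3 3 0 [(0, 0)]),
.rs (.le 0 33 32 5 3),
.rs (.ab 0 3),
.rs (.l2 1 6 18 1 2 1),
.rs (.lipl 0 18 30 1 12),
.rs (.join 1 4 3 3 3 2 [(2, 2)]),
.rs (.join 0 8 4 3 2 2 [(3, 1)]),
.rs (.l2 1 10 24 3 1 2),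
.rs (.lipl 1 42 107 0 65),
.rs (.part [75, 52] [1, 0] [] []),
.rs (.l2 1 17 20 4 1 2),
.rs (.part [24, 103] [0, 1] [] []),
.rs (.join 0 6 5 3 1 2 [(1, 0), (2, 0)]),
.rs (.l2 1 33 36 5 1 2),
.rs (.lipl 1 49 59 1 10),
.rs (.mono 0 4 20 1),
.rs (.lipl 0 66 75 0 9),
.rs (.join 1 32 6 4 2 2 [(5, 0)]),
.rs (.lip 1 40 43 7),
.rs (.step 0 6 58 [26, 42, 50, 56, 58] []),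
.rs (.srt 0 2 0 1 4),
.rs (.ordE 0 8 2),
.rs (.part [102, 25] [1, 0] [] []),
.rs (.le 0 65 64 6 2),
.rs (.l2 0 6 10 1 1 2),
.rs (.l2 0 65 66 6 1 1),
.rs (.lipl 0 20 53 1 33),
.rs (.mono 0 64 68 1),
.rs (.lipl 1 42 110 1 68),
.rs (.join 1 32 6 4 1 3 [(5, 0)]),
.rs (.join 1 1 5 3 2 3 [(0, 2)]),
.rs (.lipl 1 100 110 1 10),
.rs (.join 0 2 4 2 1 2 [(1, 1)]),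
.rs (.lipl 0 9 75 1 66),
.rs (.l2 1 66 72 6 2 2),
.rs (.part [19, 108] [1, 0] [] []),
.rs (.lipl 1 38 47 0 9),
.rs (.lip 0 10 74 64),
.rs (.lip 0 1 25 56),
.rs (.l2 0 80 96 6 1 2),
.degU 0 [(0, 4), (1, 1)],
.rs (.le 1 96 64 6 4),
.rs (.join 0 9 6 3 3 0 [(0, 0), (3, 0)]),
.rs (.lipl 1 13 47 0 34),
.rs (.lipl 1 82 94 0 12),
.rs (.join 1 1 5 4 2 2 [(0, 0)]),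
.rs (.join 0 6 3 3 2 2 [(1, 1), (2, 0)]),
.rs (.join 0 4 3 2 0 2 [(2, 0)]),
.rs (.join 0 4 5 3 1 2 [(2, 0)]),
.rs (.le 0 48 32 5 1),
.rs (.part [22, 105] [0, 1] [] []),
.rs (.join 0 5 5 3 3 0 [(0, 0), (2, 0)]),
.rs (.le 0 66 2 1 1),
.rs (.join 0 4 5 2 0 2 [(2, 0)]),
.rs (.l2 0 34 66 1 1 2),
.rs (.l2 0 33 65 0 2 1),
.rs (.deg 5 [0, 3]),
.rs (.ordE 1 32 3),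
.rs (.join 0 8 5 2 2 0 [(3, 0)]),
.rs (.le 1 65 1 0 3),
.rs (.l2 0 17 18 4 2 1),
.rs (.ab 0 5),
.rs (.join 0 6 6 4 3 1 [(1, 0), (2, 0)]),
.rs (.mono 0 32 40 1),
.rs (.le 1 72 8 3 4),
.rs (.lipl 0 12 30 1 18),
.rs (.part [19, 108] [0, 1] [] []),
.rs (.ab2 0 6),
.rs (.lipl 1 26 59 1 33),
.rs (.lipl 1 82 91 1 9),
.rs (.join 0 5 4 3 2 2 [(0, 1), (2, 0)]),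
.rs (.l2 1 6 20 2 2 2),
.rs (.l2 1 6 36 2 1 1),
.rs (.l2 1 34 40 5 2 1),
.rs (.join 0 4 4 3 1 2 [(2, 0)]),
.rs (.lipl 0 25 59 1 34),
.rs (.join 1 2 4 4 1 3 [(1, 0)]),
.rs (.l2 1 12 24 3 1 2),
.rs (.join 1 32 6 4 4 0 [(5, 0)]),
.rs (.l2 1 36 48 5 2 1),
.rs (.l2 0 18 80 4 1 1),
.rs (.deg 6 [0, 4]),
.rs (.lipl 0 34 99 0 65),
.rs (.join 1 1 6 5 2 3 [(0, 0)]),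
.rs (.lipl 0 17 53 1 36),
.rs (.join 0 16 5 4 2 2 [(4, 0)]),
.rs (.lipl 1 76 109 0 33),
.rs (.part [74, 53] [1, 0] [] []),
.rs (.lipl 1 50 59 0 9),
.rs (.le 0 68 4 2 1),
.rs (.join 0 16 5 3 2 2 [(4, 1)]),
.rs (.lipl 0 17 27 0 10),
.rs (.join 1 2 5 4 2 4 [(1, 2)]),
.rs (.lip 0 2 26 56),
.rs (.lipl 0 20 30 1 10),
.rs (.srt 0 5 0 4 3),
.degU 0 [(0, 3), (1, 2)],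
.rs (.lipl 1 44 62 0 18),
.rs (.lipl 0 9 29 0 20),
.rs (.part [54, 73] [1, 0] [] []),
.rs (.lipl 1 22 55 0 33),
.rs (.lipl 0 34 46 1 12),
.rs (.join 0 16 6 3 1 2 [(4, 0)]),
.rs (.join 0 4 3 2 1 1 [(2, 0)]),
.rs (.part [43, 84] [0, 1] [] []),
.rs (.ordE 1 32 2),
.rs (.part [29, 98] [1, 0] [] []),
.rs (.l2 1 12 24 3 2 2),
.rs (.l2 1 6 20 2 1 2),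
.rs (.join 1 1 2 3 2 2 [(0, 1)]),
.rs (.ab2 1 80),
.rs (.join 1 2 5 4 2 2 [(1, 0)]),
.rs (.join 0 4 6 3 0 3 [(2, 0)]),
.rs (.join 0 4 4 2 1 1 [(2, 0)]),
.degU 4 [(0, 3), (1, 2)],
.rs (.mono 1 5 21 1),
.rs (.mono 1 44 45 1),
.rs (.l2 0 3 9 0 2 1),
.rs (.l2 1 5 12 2 2 2),
.rs (.join 0 8 4 2 1 1 [(3, 0)]),
.rs (.l2 1 12 20 2 2 2),
.rs (.mono 0 4 68 1),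
.rs (.join 1 2 5 3 2 3 [(1, 2)]),
.rs (.l2 0 68 80 6 1 2),
.rs (.un 0 4),
.rs (.join 1 2 4 4 3 1 [(1, 0)]),
.rs (.join 0 4 5 3 2 1 [(2, 0)]),
.rs (.le 0 18 16 4 1),
.rs (.l2 1 10 40 3 2 1),
.rs (.join 0 4 6 2 1 2 [(2, 1)]),
.rs (.ab2 0 68),
.rs (.join 0 12 6 3 1 2 [(2, 0), (3, 0)]),
.rs (.join 0 6 6 4 4 0 [(1, 0), (2, 0)]),
.rs (.l2 1 5 20 2 2 2),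
.rs (.join 1 16 5 3 1 2 [(4, 0)]),
.rs (.join 0 4 5 2 2 0 [(2, 0)]),
.rs (.part [32, 88] [0, 0] [7] []),
.rs (.ordE 0 16 3),
.rs (.lipl 1 45 125 1 80),
.rs (.join 1 1 3 4 2 2 [(0, 0)]),
.rs (.join 0 12 6 3 2 2 [(2, 1), (3, 0)]),
.rs (.lipl 1 46 126 1 80),
.rs (.ordE 0 32 1),
.rs (.lipl 1 52 61 1 9),
.rs (.lip 0 6 46 56),
.rs (.join 1 1 2 4 2 2 [(0, 0)]),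
.rs (.part [90, 37] [1, 0] [] []),
.rs (.join 1 2 5 4 3 2 [(1, 1)]),
.rs (.lipl 0 17 29 1 12),
.rs (.ordE 0 2 1),
.rs (.part [48, 79] [0, 1] [] []),
.rs (.join 0 3 6 4 4 0 [(0, 0), (1, 0)]),
.rs (.lip 0 40 46 7),
.rs (.le 0 20 4 2 1),
.rs (.l2 0 6 34 1 1 1),
.rs (.lipl 1 52 62 0 10),
.rs (.part [57, 70] [0, 1] [] []),
.rs (.lip 1 65 89 56),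
.rs (.lip 0 16 19 7),
.rs (.join 1 2 5 5 3 2 [(1, 0)]),
.rs (.join 1 1 5 3 2 2 [(0, 1)]),
.rs (.lipl 1 49 61 0 12),
.rs (.join 1 4 6 4 3 4 [(2, 3)]),
.rs (.join 0 2 3 3 2 2 [(1, 1)]),
.rs (.srt 0 3 0 0 1),
.rs (.l2 0 9 40 3 2 1),
.rs (.l2 0 9 33 0 2 1),
.rs (.ordE 0 64 1),
.rs (.lipl 0 10 75 1 65),
.rs (.join 0 12 6 3 3 0 [(2, 0), (3, 0)]),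
.rs (.lipl 0 12 29 1 17),
.rs (.part [15, 112] [0, 1] [] []),
.rs (.srt 0 4 0 3 4),
.rs (.join 0 1 2 4 2 2 [(0, 0)]),
.rs (.l2 1 34 48 5 2 1),
.rs (.l2 1 65 72 6 2 2),
.rs (.join 0 1 4 3 3 2 [(0, 2)]),
.rs (.join 0 40 6 4 3 1 [(3, 0), (5, 0)]),
.rs (.l2 0 65 72 6 2 1),
.rs (.mono 1 65 97 1),
.rs (.part [9, 118] [0, 1] [] []),
.rs (.ab2 0 12),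
.rs (.lipl 1 21 93 1 72),
.rs (.lipl 0 17 83 0 66),
.rs (.l2 1 80 96 6 2 2),
.rs (.mono 1 66 82 1),
.rs (.join 1 4 4 4 4 2 [(2, 2)]),
.rs (.part [84, 43] [0, 1] [] []),
.rs (.lipl 1 52 61 0 9),
.rs (.part [45, 82] [1, 0] [] []),
.rs (.l2 1 9 24 3 1 2),
.rs (.ordE 1 4 1),
.rs (.lipl 1 81 93 1 12),
.rs (.join 1 8 5 3 2 3 [(3, 2)]),
.rs (.join 0 2 5 2 2 0 [(1, 0)]),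
.rs (.lip 1 96 102 7),
.rs (.join 1 1 5 5 2 4 [(0, 1)]),
.rs (.hall [0] [4, 5, 6]),
.rs (.lipl 1 97 107 0 10),
.rs (.lipl 1 22 31 1 9),
.rs (.deg 2 [3, 0]),
.rs (.lip 1 14 78 64),
.rs (.part [116, 11] [1, 0] [] []),
.rs (.part [85, 42] [1, 0] [] []),
.rs (.join 0 1 6 3 2 1 [(0, 0)]),
.rs (.lip 0 49 113 64),
.rs (.join 0 1 1 4 2 2 [(0, 0)]),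
.rs (.l2 1 17 33 0 1 2),
.rs (.le 0 96 32 5 1),
.rs (.join 0 17 6 3 3 1 [(0, 1), (4, 0)]),
.rs (.l2 0 6 34 1 1 2),
.rs (.part [80, 40] [0, 0] [7] []),
.rs (.join 1 8 6 5 2 4 [(3, 1)]),
.rs (.le 0 34 2 1 2),
.rs (.join 0 12 4 3 3 0 [(2, 0), (3, 0)]),
.rs (.part [70, 57] [0, 1] [] []),
.rs (.join 0 5 4 3 2 2 [(0, 0), (2, 1)]),
.rs (.ordE 1 4 2),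
.rs (.step 0 2 73 [9, 65, 72] []),
.rs (.join 1 4 4 4 2 2 [(2, 0)]),
.rs (.lipl 1 22 55 1 33),
.rs (.l2 0 10 12 3 2 1),
.rs (.lipl 1 54 119 1 65),
.rs (.lipl 0 18 51 1 33),
.rs (.join 1 16 6 4 3 2 [(4, 1)]),
.rs (.mono 0 65 73 1),
.rs (.lipl 1 14 47 1 33),
.rs (.join 0 6 5 4 3 1 [(1, 0), (2, 0)]),
.rs (.l2 1 17 48 4 1 2),
.rs (.join 0 2 2 3 2 2 [(1, 1)]),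
.rs (.ab2 0 17),
.rs (.join 1 32 6 4 2 3 [(5, 1)]),
.rs (.ordL 0 18 1),
.rs (.l2 1 12 40 3 2 1),
.rs (.l2 1 9 10 3 1 2),
.rs (.l2 1 10 12 3 2 1),
.rs (.join 0 4 4 2 0 2 [(2, 0)]),
.rs (.l2 0 5 17 0 1 2),
.rs (.lipl 1 82 91 0 9),
.rs (.deg 4 [1, 2]),
.rs (.mono 0 16 17 1),
.rs (.join 1 1 1 3 0 3 [(0, 0)]),
.rs (.join 1 2 4 4 0 4 [(1, 0)]),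
.rs (.lipl 1 37 47 1 10),
.rs (.l2 0 65 80 6 1 2),
.rs (.join 1 1 5 4 2 3 [(0, 1)]),
.rs (.join 1 16 5 5 2 3 [(4, 0)]),
.rs (.lipl 1 97 117 1 20),
.rs (.deg 3 [2, 1]),
.rs (.join 0 5 3 3 3 2 [(0, 2), (2, 0)]),
.degU 2 [(0, 1), (1, 4)],
.rs (.join 1 2 6 3 2 1 [(1, 0)]),
.rs (.l2 1 34 40 5 2 2),
.rs (.join 1 4 3 5 3 2 [(2, 0)]),
.rs (.lip 1 64 104 56),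
.rs (.lipl 1 30 126 1 96),
.rs (.join 1 1 1 5 2 3 [(0, 0)]),
.rs (.part [71, 56] [0, 1] [] []),
.rs (.lipl 1 74 110 1 36),
.rs (.lip 0 3 51 56),
.rs (.l2 1 3 66 1 1 1),
.rs (.l2 1 33 65 0 1 2),
.rs (.part [86, 41] [1, 0] [] []),
.rs (.join 1 4 6 5 2 3 [(2, 0)]),
.rs (.join 0 20 5 3 2 1 [(2, 0), (4, 0)]),
.rs (.le 0 34 32 5 1),
.rs (.l2 0 18 66 1 1 1),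
.rs (.l2 0 65 68 6 1 1),
.rs (.part [112, 15] [1, 0] [] []),
.rs (.lip 1 64 67 7),
.rs (.join 1 16 6 4 3 3 [(4, 2)]),
.rs (.mono 0 32 36 1),
.rs (.step 0 6 23 [7, 19, 21, 22, 23] []),
.rs (.srt 0 5 0 4 1),
.rs (.lipl 0 9 75 0 66),
.rs (.mono 1 5 37 1),
.rs (.srt 0 2 0 1 2),
.rs (.lipl 1 37 109 1 72),
.rs (.lipl 0 9 27 0 18),
.rs (.join 1 8 6 4 2 3 [(3, 1)]),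
.rs (.l2 0 68 96 6 1 1),
.rs (.join 0 1 6 3 3 0 [(0, 0)]),
.rs (.join 0 1 4 3 3 0 [(0, 0)]),
.rs (.l2 1 34 48 5 1 3),
.rs (.lipl 1 88 121 1 33),
.rs (.part [82, 45] [0, 1] [] []),
.rs (.lip 0 8 11 7),
.rs (.join 1 2 2 4 2 2 [(1, 0)]),
.rs (.lipl 0 17 113 0 96),
.rs (.lip 0 80 88 8),
.rs (.l2 1 10 40 3 1 2),
.rs (.join 0 4 3 1 0 1 [(2, 0)]),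
.rs (.lipl 0 36 45 0 9),
.rs (.ab2 1 65),
.rs (.join 1 32 6 4 3 2 [(5, 1)]),
.rs (.lip 0 7 31 56),
.rs (.join 1 1 1 4 2 2 [(0, 0)]),
.rs (.join 1 8 4 3 3 3 [(3, 3)]),
.rs (.part [51, 76] [0, 1] [] []),
.rs (.join 0 8 4 3 2 1 [(3, 0)]),
.rs (.lipl 1 10 78 0 68),
.rs (.lipl 0 33 113 0 80),
.rs (.l2 1 66 80 6 2 2),
.rs (.l2 1 6 34 1 1 2),
.rs (.ab2 1 3),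
.degU 6 [(0, 3), (1, 3)],
.rs (.join 0 1 4 3 2 1 [(0, 0)]),
.rs (.lipl 1 73 93 1 20),
.rs (.lipl 0 34 114 0 80),
.rs (.join 0 2 2 3 2 1 [(1, 0)]),
.rs (.lipl 1 49 61 1 12),
.rs (.ab2 0 72),
.rs (.le 0 80 64 6 1),
.rs (.join 0 4 4 2 1 2 [(2, 1)]),
.rs (.join 1 8 6 4 2 4 [(3, 2)]),
.rs (.join 1 2 2 5 3 3 [(1, 1)]),
.rs (.mono 0 40 42 1),
.rs (.lipl 1 42 62 1 20),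
.rs (.lipl 1 52 124 1 72),
.rs (.mono 0 5 21 1),
.rs (.lipl 1 49 115 0 66),
.rs (.l2 0 33 34 5 2 1),
.rs (.lipl 1 13 47 1 34),
.rs (.l2 0 33 36 5 2 1),
.rs (.le 0 6 4 2 1),
.rs (.lip 0 24 29 7),
.rs (.part [69, 58] [1, 0] [] []),
.rs (.step 0 4 73 [9, 65, 72] []),
.rs (.join 1 4 3 4 3 1 [(2, 0)]),
.rs (.join 1 2 4 5 2 3 [(1, 0)]),
.rs (.l2 1 17 24 4 1 2),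
.rs (.l2 1 20 36 2 1 2),
.rs (.l2 0 80 96 6 1 1),
.rs (.lip 1 72 75 7),
.rs (.lipl 0 18 27 0 9),
.rs (.join 1 4 4 4 1 3 [(2, 0)]),
.rs (.le 1 96 32 5 4),
.rs (.part [61, 66] [1, 0] [] []),
.rs (.part [67, 60] [0, 1] [] []),
.rs (.lipl 1 84 118 0 34),
.rs (.join 0 12 5 3 2 1 [(2, 0), (3, 0)]),
.rs (.lipl 1 82 115 0 33),
.rs (.join 0 5 5 3 3 1 [(0, 1), (2, 0)]),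
.rs (.mono 1 1 5 1),
.rs (.l2 0 18 20 4 1 1),
.rs (.lip 0 72 77 7),
.rs (.part [99, 28] [1, 0] [] []),
.rs (.ordL 0 80 1),
.rs (.lip 1 96 99 7),
.rs (.l2 0 9 17 0 2 1),
.rs (.mono 0 75 91 2),
.rs (.lipl 1 37 117 0 80),
.rs (.join 1 8 4 4 2 3 [(3, 1)]),
.rs (.part [1, 126] [0, 1] [] []),
.rs (.join 1 1 3 2 1 1 [(0, 0)]),
.rs (.l2 0 6 18 1 1 1),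
.rs (.join 1 5 3 5 5 2 [(0, 0), (2, 2)]),
.rs (.part [47, 80] [1, 0] [] []),
.rs (.step 0 6 57 [25, 41, 49, 56, 57] []),
.rs (.lip 1 1 57 56),
.rs (.l2 1 12 20 2 1 2),
.rs (.join 1 32 6 4 3 1 [(5, 0)]),
.rs (.join 1 16 5 4 2 3 [(4, 1)]),
.rs (.lipl 1 35 47 1 12),
.rs (.join 0 1 5 3 2 2 [(0, 1)]),
.rs (.join 1 2 6 3 2 2 [(1, 1)]),
.rs (.le 0 36 32 5 1),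
.rs (.join 0 12 4 3 2 1 [(2, 0), (3, 0)]),
.rs (.l2 1 36 48 5 2 2),
.rs (.l2 1 20 36 2 1 1),
.rs (.part [122, 5] [1, 0] [] []),
.rs (.lipl 1 26 62 1 36),
.rs (.lip 1 22 86 64),
.rs (.lip 1 100 101 1),
.rs (.l2 0 6 12 2 1 1),
.rs (.join 0 8 5 3 2 1 [(3, 0)]),
.rs (.ordE 0 4 1),
.rs (.lipl 1 49 59 0 10),
.rs (.join 0 2 6 2 0 2 [(1, 0)]),
.rs (.le 1 68 64 6 4),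
.rs (.lipl 1 52 118 1 66),
.rs (.join 0 24 6 4 4 0 [(3, 0), (4, 0)]),
.rs (.lipl 0 20 85 0 65),
.rs (.part [60, 67] [0, 1] [] []),
.rs (.le 0 17 16 4 1),
.rs (.join 0 1 5 3 3 2 [(0, 2)]),
.rs (.join 0 36 6 3 1 2 [(2, 0), (5, 0)]),
.rs (.lip 1 120 126 7),
.rs (.lipl 1 97 109 1 12),
.rs (.lipl 1 11 31 1 20),
.rs (.join 1 32 6 5 3 3 [(5, 1)]),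
.rs (.join 0 1 6 4 2 2 [(0, 0)]),
.rs (.join 1 4 4 5 4 2 [(2, 1)]),
.rs (.l2 0 66 80 6 2 1),
.rs (.l2 0 20 68 2 1 1),
.rs (.part [41, 86] [0, 1] [] []),
.rs (.mono 1 38 54 1),
.rs (.mono 0 72 73 1),
.rs (.part [14, 113] [0, 1] [] []),
.rs (.part [27, 100] [0, 1] [] []),
.rs (.lipl 1 14 47 0 33),
.rs (.join 0 2 3 2 1 2 [(1, 1)]),
.rs (.join 0 4 5 1 1 0 [(2, 0)]),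
.rs (.srt 0 3 0 0 3),
.rs (.l2 0 17 20 4 2 1),
.rs (.join 1 4 6 4 3 2 [(2, 1)]),
.rs (.join 1 2 4 4 2 2 [(1, 0)]),
.rs (.join 1 2 2 3 2 1 [(1, 0)]),
.rs (.lip 0 14 78 64),
.rs (.join 1 8 6 4 3 4 [(3, 3)]),
.rs (.lipl 1 36 102 0 66),
.rs (.mono 0 9 25 1),
.rs (.join 1 2 6 2 1 1 [(1, 0)]),
.rs (.join 0 17 6 3 3 0 [(0, 0), (4, 0)]),
.rs (.lipl 1 81 115 1 34),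
.rs (.lipl 1 100 117 1 17),
.rs (.ab 1 1),
.rs (.lipl 1 82 118 1 36),
.rs (.l2 0 12 36 2 1 1),
.rs (.lipl 1 76 94 1 18),
.rs (.le 0 10 2 1 2),
.rs (.l2 0 10 18 1 1 2),
.rs (.l2 0 17 65 0 2 1),
.rs (.l2 0 9 12 3 2 1),
.rs (.lipl 1 98 110 1 12),
.rs (.join 0 1 4 3 1 2 [(0, 0)]),
.rs (.join 0 5 5 3 2 2 [(0, 1), (2, 0)]),
.rs (.join 1 2 2 5 2 3 [(1, 0)]),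
.rs (.l2 0 12 20 2 1 1),
.rs (.deg 5 [2, 1]),
.rs (.lipl 1 67 79 1 12),
.rs (.join 1 9 5 5 4 3 [(0, 2), (3, 0)]),
.rs (.lipl 0 10 75 0 65),
.rs (.part [121, 6] [1, 0] [] []),
.rs (.l2 1 3 18 1 1 2),
.rs (.lipl 0 34 51 1 17)]

/-- the bounds. -/
def bl : List Bnd := [⟨false, [(0, 0), (0, 1), (0, 2), (0, 3), (0, 4), (0, 5), (0, 6)], 12⟩, ⟨true, [(0, 0), (0, 1), (0, 2), (0, 3), (0, 4), (0, 5)], 8⟩]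

noncomputable def gb : List Gb := [
⟨0, [2, 2, 0, 3, 3, 3, 0]⟩,
⟨0, [3, 3, 3, 1, 1, 0, 2]⟩,
⟨0, [4, 1, 0, 2, 2, 2, 2]⟩,
⟨0, [3, 0, 0, 3, 3, 2, 2]⟩,
⟨0, [3, 2, 1, 3, 2, 2, 0]⟩,
⟨1, [2, 1, 0, 2, 2, 0]⟩,
⟨0, [3, 3, 1, 2, 1, 0, 3]⟩,
⟨0, [2, 1, 0, 2, 2, 1, 5]⟩,
⟨0, [3, 4, 0, 1, 1, 0, 4]⟩,
⟨0, [4, 3, 0, 1, 0, 0, 5]⟩,
⟨0, [3, 3, 3, 2, 2, 0, 0]⟩,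
⟨0, [2, 2, 1, 2, 1, 1, 4]⟩,
⟨0, [2, 1, 1, 2, 2, 1, 4]⟩,
⟨1, [2, 0, 0, 2, 2, 1]⟩,
⟨1, [3, 3, 0, 1, 0, 0]⟩,
⟨0, [3, 3, 2, 3, 0, 0, 2]⟩,
⟨1, [3, 0, 0, 2, 2, 0]⟩,
⟨0, [2, 0, 0, 2, 2, 2, 5]⟩,
⟨0, [3, 3, 1, 2, 2, 0, 2]⟩,
⟨1, [2, 1, 1, 1, 1, 1]⟩,
⟨0, [3, 2, 2, 2, 2, 2, 0]⟩,
⟨0, [4, 2, 2, 2, 0, 0, 3]⟩,
⟨0, [3, 3, 3, 2, 0, 0, 2]⟩,
⟨0, [3, 3, 2, 2, 0, 0, 3]⟩,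
⟨0, [3, 2, 1, 2, 0, 0, 5]⟩,
⟨0, [3, 3, 3, 1, 0, 0, 3]⟩,
⟨0, [3, 3, 0, 2, 0, 0, 5]⟩,
⟨0, [3, 2, 0, 4, 2, 2, 0]⟩,
⟨0, [4, 3, 0, 1, 1, 0, 4]⟩,
⟨0, [3, 3, 1, 1, 1, 0, 4]⟩,
⟨0, [4, 4, 0, 4, 1, 0, 0]⟩,
⟨1, [2, 2, 0, 1, 1, 1]⟩,
⟨0, [4, 1, 0, 4, 4, 0, 0]⟩,
⟨0, [3, 2, 0, 3, 2, 1, 2]⟩,
⟨1, [2, 1, 0, 2, 1, 1]⟩,
⟨0, [3, 2, 2, 3, 2, 1, 0]⟩,
⟨0, [3, 2, 1, 2, 2, 2, 1]⟩,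
⟨0, [2, 2, 2, 2, 2, 2, 1]⟩,
⟨0, [3, 3, 1, 1, 0, 0, 5]⟩,
⟨0, [3, 2, 1, 2, 2, 0, 3]⟩,
⟨0, [3, 3, 0, 1, 1, 0, 5]⟩,
⟨0, [2, 2, 2, 2, 2, 1, 2]⟩,
⟨0, [3, 2, 1, 3, 2, 0, 2]⟩,
⟨0, [3, 2, 2, 2, 0, 0, 4]⟩,
⟨0, [4, 2, 1, 2, 2, 2, 0]⟩,
⟨1, [2, 2, 0, 2, 1, 0]⟩,
⟨0, [4, 2, 2, 3, 2, 0, 0]⟩,
⟨0, [4, 0, 1, 2, 2, 2, 2]⟩,
⟨1, [2, 2, 2, 1, 0, 0]⟩,
⟨0, [2, 2, 1, 2, 2, 2, 2]⟩,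
⟨1, [2, 2, 1, 2, 0, 0]⟩,
⟨0, [2, 2, 1, 2, 1, 0, 5]⟩,
⟨1, [2, 1, 1, 2, 1, 0]⟩,
⟨0, [3, 3, 2, 1, 0, 0, 4]⟩,
⟨0, [3, 2, 1, 2, 3, 0, 2]⟩,
⟨0, [3, 3, 3, 2, 1, 0, 1]⟩,
⟨0, [4, 2, 1, 4, 2, 0, 0]⟩,
⟨0, [4, 3, 0, 2, 0, 0, 4]⟩]

noncomputable def gads : List Gt := [
⟨0, [⟨3, 3, []⟩, ⟨84, 3, []⟩], [3, 3], 1, [(5, 1), (6, 1), (17, 1), (18, 1), (65, 1), (66, 1)]⟩,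
⟨1, [⟨12, 4, []⟩, ⟨32, 4, []⟩, ⟨66, 4, []⟩], [7], 1, [(38, 1), (42, 1), (100, 1), (104, 1)]⟩,
⟨0, [⟨6, 3, []⟩, ⟨33, 3, []⟩], [3, 3], 1, [(3, 1), (5, 1), (34, 1), (36, 1)]⟩,
⟨1, [⟨1, 2, []⟩, ⟨2, 3, []⟩, ⟨4, 3, []⟩, ⟨32, 2, []⟩, ⟨64, 3, []⟩], [7, 7, 9, 24, 24], 2, [(7, 1), (70, 1), (96, 1), (103, 2)]⟩,
⟨1, [⟨8, 2, []⟩, ⟨48, 4, []⟩, ⟨0, 0, [(5, 1)]⟩, ⟨64, 5, []⟩], [3, 1, 1, 4, 4, 4, 4], 2, [(69, 1), (88, 1), (93, 2), (104, 1), (109, 2)]⟩,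
⟨0, [⟨26, 3, []⟩, ⟨65, 3, []⟩], [3, 3], 1, [(3, 1), (9, 1), (17, 1), (66, 1), (72, 1), (80, 1)]⟩,
⟨0, [⟨24, 4, []⟩, ⟨1, 2, []⟩, ⟨0, 0, [(68, 2)]⟩, ⟨2, 2, []⟩], [5, 10, 10, 10, 4, 4], 2, [(3, 1), (76, 1), (79, 2), (84, 1), (87, 2)]⟩,
⟨1, [⟨2, 2, []⟩, ⟨64, 4, []⟩], [3, 1, 1], 1, [(66, 1)]⟩,
⟨1, [⟨1, 2, []⟩, ⟨18, 3, []⟩, ⟨4, 3, []⟩, ⟨8, 2, []⟩, ⟨0, 0, [(96, 3)]⟩], [7, 7, 9, 24, 24], 2, [(7, 1), (21, 1), (102, 1), (104, 1), (111, 2), (116, 1), (125, 2)]⟩,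
⟨0, [⟨24, 3, []⟩, ⟨33, 3, []⟩], [3, 3], 1, [(9, 1), (17, 1), (40, 1), (48, 1)]⟩,
⟨1, [⟨8, 2, []⟩, ⟨1, 2, []⟩, ⟨2, 1, []⟩, ⟨4, 3, []⟩, ⟨64, 3, []⟩], [21, 21, 3, 14, 14], 2, [(5, 1), (70, 1), (72, 1), (79, 2)]⟩,
⟨0, [⟨2, 2, [(40, 1)]⟩, ⟨64, 3, []⟩], [3, 3], 1, [(66, 1), (104, 1)]⟩,
⟨1, [⟨18, 4, []⟩, ⟨32, 4, []⟩, ⟨68, 4, []⟩], [7], 1, [(38, 1), (52, 1), (98, 1), (112, 1)]⟩,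
⟨0, [⟨1, 3, []⟩, ⟨66, 2, [(40, 1)]⟩], [3, 3], 1, [(3, 1), (41, 1), (65, 1)]⟩,
⟨0, [⟨68, 3, []⟩, ⟨18, 3, []⟩], [3, 3], 1, [(6, 1), (20, 1), (66, 1), (80, 1)]⟩,
⟨1, [⟨1, 2, []⟩, ⟨6, 4, []⟩, ⟨0, 0, [(48, 1)]⟩, ⟨64, 5, []⟩], [3, 1, 1, 4, 4, 4, 4], 2, [(67, 1), (69, 1), (112, 1), (115, 2), (117, 2)]⟩,
⟨1, [⟨33, 4, []⟩, ⟨4, 4, []⟩, ⟨64, 3, [(3, 1)]⟩], [7], 1, [(7, 1), (69, 1), (100, 1)]⟩,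
⟨1, [⟨2, 2, []⟩, ⟨4, 2, []⟩, ⟨16, 3, []⟩, ⟨32, 3, []⟩, ⟨64, 5, []⟩], [3, 3, 3, 12, 12], 2, [(70, 1), (112, 1), (118, 2)]⟩,
⟨1, [⟨8, 2, []⟩, ⟨16, 2, []⟩, ⟨0, 0, [(5, 2)]⟩, ⟨2, 2, []⟩], [3, 3, 3, 12, 12, 12], 2, [(7, 1), (24, 1), (31, 2)]⟩,
⟨1, [⟨74, 4, []⟩, ⟨16, 4, []⟩, ⟨32, 4, []⟩], [7], 1, [(50, 1), (56, 1), (112, 1)]⟩,
⟨0, [⟨20, 3, []⟩, ⟨97, 3, []⟩], [3, 3], 1, [(5, 1), (17, 1), (36, 1), (48, 1), (68, 1), (80, 1)]⟩,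
⟨1, [⟨8, 1, []⟩, ⟨2, 2, []⟩, ⟨4, 4, []⟩, ⟨64, 5, []⟩], [1, 1, 1, 1, 6, 2, 2], 2, [(70, 1), (72, 1), (78, 2)]⟩,
⟨1, [⟨17, 4, []⟩, ⟨4, 4, []⟩, ⟨32, 3, [(3, 1)]⟩], [7], 1, [(7, 1), (37, 1), (52, 1)]⟩,
⟨1, [⟨1, 2, []⟩, ⟨4, 2, []⟩, ⟨8, 3, []⟩, ⟨16, 3, []⟩, ⟨32, 3, []⟩], [3, 3, 3, 28, 28], 2, [(5, 1), (56, 1), (61, 2)]⟩,
⟨1, [⟨72, 5, []⟩, ⟨3, 5, []⟩, ⟨4, 3, []⟩], [4, 4], 1, [(13, 1), (14, 1), (69, 1), (70, 1)]⟩,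
⟨1, [⟨18, 4, []⟩, ⟨4, 4, []⟩, ⟨64, 3, [(3, 1)]⟩], [7], 1, [(7, 1), (70, 1), (84, 1)]⟩,
⟨0, [⟨68, 3, []⟩, ⟨9, 3, []⟩], [3, 3], 1, [(5, 1), (12, 1), (65, 1), (72, 1)]⟩,
⟨1, [⟨16, 3, []⟩, ⟨32, 3, []⟩], [3, 3], 1, [(48, 1)]⟩,
⟨0, [⟨48, 3, []⟩, ⟨72, 3, []⟩], [3, 3], 1, [(24, 1), (40, 1), (80, 1), (96, 1)]⟩,
⟨0, [⟨18, 3, []⟩, ⟨97, 3, []⟩], [3, 3], 1, [(3, 1), (17, 1), (34, 1), (48, 1), (66, 1), (80, 1)]⟩,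
⟨0, [⟨40, 3, []⟩, ⟨20, 3, []⟩], [3, 3], 1, [(12, 1), (24, 1), (36, 1), (48, 1)]⟩,
⟨0, [⟨1, 3, []⟩, ⟨82, 3, []⟩], [3, 3], 1, [(3, 1), (17, 1), (65, 1)]⟩,
⟨1, [⟨3, 4, []⟩, ⟨4, 4, []⟩, ⟨0, 0, [(24, 1)]⟩, ⟨0, 0, [(96, 3)]⟩], [3, 4, 4, 4, 4, 8, 8], 2, [(29, 1), (30, 1), (101, 1), (102, 1), (120, 1), (125, 2), (126, 2)]⟩,
⟨1, [⟨2, 2, []⟩, ⟨4, 2, []⟩, ⟨8, 2, []⟩, ⟨16, 2, []⟩, ⟨0, 0, [(96, 3)]⟩], [7, 7, 11, 28, 24], 2, [(6, 1), (104, 1), (112, 1), (126, 2)]⟩,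
⟨0, [⟨6, 3, []⟩, ⟨9, 3, []⟩], [3, 3], 1, [(3, 1), (5, 1), (10, 1), (12, 1)]⟩,
⟨0, [⟨0, 0, [(9, 2)]⟩, ⟨16, 2, []⟩, ⟨32, 2, []⟩, ⟨70, 4, []⟩], [9, 1, 1, 6, 6, 6], 2, [(11, 1), (13, 1), (48, 1), (59, 2), (61, 2), (73, 1), (121, 2)]⟩,
⟨0, [⟨18, 3, []⟩, ⟨76, 3, []⟩], [3, 3], 1, [(6, 1), (10, 1), (20, 1), (24, 1), (66, 1), (80, 1)]⟩,
⟨1, [⟨10, 4, []⟩, ⟨16, 4, []⟩, ⟨32, 4, []⟩], [7], 1, [(50, 1), (56, 1)]⟩,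
⟨1, [⟨4, 4, []⟩, ⟨0, 0, [(3, 1), (34, 1)]⟩], [3, 2, 2], 1, [(7, 1), (38, 1)]⟩,
⟨0, [⟨96, 3, []⟩, ⟨10, 3, []⟩], [3, 3], 1, [(34, 1), (40, 1), (66, 1), (72, 1)]⟩,
⟨0, [⟨16, 2, []⟩, ⟨32, 2, []⟩, ⟨3, 4, []⟩, ⟨4, 2, []⟩], [3, 3, 3, 12, 8, 8], 2, [(5, 1), (6, 1), (48, 1), (53, 2), (54, 2)]⟩,
⟨1, [⟨0, 0, [(80, 2)]⟩, ⟨40, 4, []⟩], [3, 1, 1], 1, [(88, 1), (112, 1)]⟩,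
⟨1, [⟨2, 2, []⟩, ⟨4, 2, []⟩, ⟨0, 0, [(48, 2)]⟩, ⟨8, 2, []⟩], [3, 3, 3, 12, 12, 12], 2, [(6, 1), (56, 1), (62, 2)]⟩,
⟨1, [⟨1, 2, []⟩, ⟨2, 2, []⟩, ⟨24, 3, []⟩, ⟨32, 3, []⟩, ⟨64, 3, []⟩], [3, 3, 3, 28, 28], 2, [(3, 1), (104, 1), (107, 2), (112, 1), (115, 2)]⟩,
⟨1, [⟨0, 0, [(6, 2)]⟩, ⟨65, 4, []⟩], [3, 1, 1], 1, [(7, 1), (70, 1)]⟩,
⟨1, [⟨16, 2, [(5, 1)]⟩, ⟨32, 3, []⟩], [3, 3], 1, [(37, 1), (48, 1)]⟩,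
⟨0, [⟨66, 3, []⟩, ⟨12, 3, []⟩], [3, 3], 1, [(6, 1), (10, 1), (68, 1), (72, 1)]⟩,
⟨0, [⟨8, 2, []⟩, ⟨32, 2, [(17, 2)]⟩, ⟨2, 2, []⟩, ⟨0, 0, [(17, 2)]⟩], [3, 1, 1, 12, 12, 12], 2, [(19, 1), (25, 1), (27, 2), (40, 1)]⟩,
⟨1, [⟨2, 2, []⟩, ⟨4, 3, [(48, 1)]⟩], [3, 1, 1], 1, [(6, 1), (50, 1)]⟩,
⟨1, [⟨16, 2, []⟩, ⟨10, 3, []⟩, ⟨32, 3, []⟩, ⟨4, 2, []⟩, ⟨64, 3, []⟩], [7, 7, 9, 24, 24], 2, [(50, 1), (56, 1), (68, 1), (98, 1), (104, 1), (118, 2), (124, 2)]⟩,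
⟨0, [⟨3, 3, []⟩, ⟨36, 3, []⟩], [3, 3], 1, [(5, 1), (6, 1), (33, 1), (34, 1)]⟩,
⟨0, [⟨32, 2, []⟩, ⟨24, 4, []⟩, ⟨0, 0, [(9, 2)]⟩, ⟨0, 0, [(18, 2)]⟩], [3, 1, 1, 12, 12, 12], 2, [(27, 1), (40, 1), (48, 1), (59, 2)]⟩,
⟨0, [⟨2, 2, [(48, 1)]⟩, ⟨1, 3, []⟩], [3, 3], 1, [(3, 1), (49, 1)]⟩,
⟨1, [⟨3, 4, []⟩, ⟨4, 4, []⟩, ⟨0, 0, [(48, 1)]⟩, ⟨64, 3, []⟩], [3, 4, 4, 4, 4, 8, 8], 2, [(53, 1), (54, 1), (69, 1), (70, 1), (112, 1), (117, 2), (118, 2)]⟩,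
⟨1, [⟨68, 4, []⟩, ⟨0, 0, [(34, 2)]⟩], [3, 2, 2], 1, [(38, 1), (98, 1)]⟩,
⟨1, [⟨1, 2, []⟩, ⟨16, 2, []⟩, ⟨8, 1, []⟩, ⟨32, 3, []⟩, ⟨64, 3, []⟩], [21, 21, 3, 14, 14], 2, [(48, 1), (65, 1), (104, 1), (121, 2)]⟩,
⟨0, [⟨80, 3, []⟩, ⟨44, 3, []⟩], [3, 3], 1, [(20, 1), (24, 1), (48, 1), (68, 1), (72, 1), (96, 1)]⟩,
⟨1, [⟨2, 2, []⟩, ⟨4, 4, []⟩, ⟨8, 2, []⟩, ⟨32, 4, []⟩, ⟨64, 5, []⟩], [3, 1, 1, 12, 4, 4], 2, [(70, 1), (104, 1), (110, 2)]⟩,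
⟨1, [⟨6, 5, []⟩, ⟨40, 5, []⟩, ⟨16, 3, []⟩], [4, 4], 1, [(26, 1), (28, 1), (50, 1), (52, 1)]⟩,
⟨0, [⟨8, 3, []⟩, ⟨32, 3, []⟩], [3, 3], 1, [(40, 1)]⟩,
⟨1, [⟨1, 2, []⟩, ⟨4, 2, []⟩, ⟨16, 3, []⟩, ⟨32, 3, []⟩, ⟨64, 5, []⟩], [3, 3, 3, 12, 12], 2, [(69, 1), (112, 1), (117, 2)]⟩,
⟨1, [⟨40, 3, []⟩, ⟨64, 3, []⟩], [3, 3], 1, [(72, 1), (96, 1)]⟩,
⟨0, [⟨8, 2, []⟩, ⟨80, 4, []⟩, ⟨1, 2, []⟩, ⟨2, 2, []⟩], [3, 1, 1, 12, 12, 12], 2, [(3, 1), (24, 1), (27, 2), (72, 1), (75, 2)]⟩,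
⟨0, [⟨0, 0, [(12, 2)]⟩, ⟨80, 4, []⟩, ⟨1, 2, []⟩, ⟨2, 2, []⟩], [3, 1, 1, 12, 12, 12], 2, [(3, 1), (28, 1), (31, 2), (76, 1), (79, 2)]⟩,
⟨1, [⟨66, 4, []⟩, ⟨0, 0, [(20, 2)]⟩], [3, 2, 2], 1, [(22, 1), (84, 1)]⟩,
⟨0, [⟨40, 3, []⟩, ⟨18, 3, []⟩], [3, 3], 1, [(10, 1), (24, 1), (34, 1), (48, 1)]⟩,
⟨1, [⟨2, 2, []⟩, ⟨16, 2, []⟩, ⟨8, 1, []⟩, ⟨32, 3, []⟩, ⟨64, 3, []⟩], [21, 21, 3, 14, 14], 2, [(48, 1), (66, 1), (104, 1), (122, 2)]⟩,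
⟨1, [⟨17, 4, []⟩, ⟨10, 4, []⟩, ⟨32, 4, []⟩], [7], 1, [(35, 1), (41, 1), (50, 1), (56, 1)]⟩,
⟨1, [⟨2, 2, []⟩, ⟨64, 3, [(12, 1)]⟩], [3, 1, 1], 1, [(14, 1), (66, 1)]⟩,
⟨1, [⟨34, 5, []⟩, ⟨12, 5, []⟩, ⟨64, 3, []⟩], [4, 4], 1, [(70, 1), (74, 1), (100, 1), (104, 1)]⟩,
⟨1, [⟨1, 2, []⟩, ⟨2, 2, []⟩, ⟨0, 0, [(36, 2)]⟩, ⟨16, 2, []⟩], [3, 3, 3, 12, 12, 12], 2, [(3, 1), (52, 1), (55, 2)]⟩,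
⟨1, [⟨65, 4, []⟩, ⟨34, 4, []⟩, ⟨4, 4, []⟩], [7], 1, [(7, 1), (37, 1), (70, 1), (100, 1)]⟩,
⟨0, [⟨0, 0, [(10, 2)]⟩, ⟨16, 2, []⟩, ⟨32, 2, []⟩, ⟨69, 4, []⟩], [9, 1, 1, 6, 6, 6], 2, [(11, 1), (14, 1), (48, 1), (59, 2), (62, 2), (74, 1), (122, 2)]⟩,
⟨1, [⟨34, 4, []⟩, ⟨0, 0, [(20, 2)]⟩], [3, 2, 2], 1, [(22, 1), (52, 1)]⟩,
⟨1, [⟨1, 2, []⟩, ⟨2, 2, []⟩, ⟨0, 0, [(12, 2)]⟩, ⟨16, 2, []⟩], [3, 3, 3, 12, 12, 12], 2, [(3, 1), (28, 1), (31, 2)]⟩,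
⟨1, [⟨36, 4, []⟩, ⟨0, 0, [(80, 2)]⟩], [3, 2, 2], 1, [(84, 1), (112, 1)]⟩,
⟨1, [⟨1, 2, []⟩, ⟨2, 3, []⟩, ⟨4, 3, []⟩, ⟨16, 2, []⟩, ⟨32, 3, []⟩], [7, 7, 9, 24, 24], 2, [(7, 1), (38, 1), (48, 1), (55, 2)]⟩,
⟨1, [⟨9, 4, []⟩, ⟨18, 4, []⟩, ⟨36, 4, []⟩], [7], 1, [(7, 1), (14, 1), (21, 1), (28, 1), (35, 1), (42, 1), (49, 1), (56, 1)]⟩,
⟨1, [⟨16, 2, []⟩, ⟨32, 2, []⟩, ⟨2, 3, []⟩, ⟨4, 3, []⟩, ⟨64, 5, []⟩], [3, 3, 3, 12, 12], 2, [(70, 1), (112, 1), (118, 2)]⟩,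
⟨0, [⟨24, 3, []⟩, ⟨34, 3, []⟩], [3, 3], 1, [(10, 1), (18, 1), (40, 1), (48, 1)]⟩,
⟨1, [⟨1, 2, [(40, 1)]⟩, ⟨64, 3, []⟩], [3, 3], 1, [(65, 1), (104, 1)]⟩,
⟨0, [⟨17, 3, []⟩, ⟨14, 3, []⟩], [3, 3], 1, [(3, 1), (5, 1), (9, 1), (18, 1), (20, 1), (24, 1)]⟩,
⟨1, [⟨18, 5, []⟩, ⟨36, 5, []⟩, ⟨64, 3, []⟩], [4, 4], 1, [(70, 1), (84, 1), (98, 1), (112, 1)]⟩,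
⟨1, [⟨33, 4, []⟩, ⟨0, 0, [(80, 2)]⟩], [3, 2, 2], 1, [(81, 1), (112, 1)]⟩,
⟨1, [⟨3, 4, []⟩, ⟨36, 4, []⟩, ⟨64, 4, []⟩], [7], 1, [(69, 1), (70, 1), (97, 1), (98, 1)]⟩,
⟨0, [⟨2, 2, []⟩, ⟨1, 2, [(12, 2)]⟩, ⟨16, 2, []⟩, ⟨0, 0, [(12, 2)]⟩], [3, 1, 1, 12, 12, 12], 2, [(3, 1), (14, 1), (28, 1), (30, 2)]⟩,
⟨0, [⟨1, 3, []⟩, ⟨20, 3, []⟩], [3, 3], 1, [(5, 1), (17, 1)]⟩,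
⟨1, [⟨8, 2, []⟩, ⟨32, 2, []⟩, ⟨0, 0, [(6, 2)]⟩, ⟨1, 2, []⟩], [3, 3, 3, 12, 12, 12], 2, [(7, 1), (40, 1), (47, 2)]⟩,
⟨0, [⟨72, 3, []⟩, ⟨49, 3, []⟩], [3, 3], 1, [(9, 1), (24, 1), (40, 1), (65, 1), (80, 1), (96, 1)]⟩,
⟨0, [⟨6, 3, []⟩, ⟨64, 3, []⟩], [3, 3], 1, [(66, 1), (68, 1)]⟩,
⟨1, [⟨6, 3, []⟩, ⟨33, 5, []⟩, ⟨80, 5, []⟩], [1, 1], 1, [(19, 1), (21, 1), (50, 1), (52, 1), (67, 1), (69, 1), (98, 1), (100, 1)]⟩,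
⟨1, [⟨18, 4, []⟩, ⟨4, 4, []⟩, ⟨32, 3, [(3, 1)]⟩], [7], 1, [(7, 1), (38, 1), (52, 1)]⟩,
⟨1, [⟨65, 4, []⟩, ⟨0, 0, [(36, 2)]⟩], [3, 2, 2], 1, [(37, 1), (100, 1)]⟩,
⟨1, [⟨2, 2, []⟩, ⟨4, 2, []⟩, ⟨40, 5, []⟩, ⟨16, 3, []⟩, ⟨64, 3, []⟩], [3, 3, 3, 24, 24], 2, [(14, 1), (38, 1), (88, 1), (94, 2), (112, 1), (118, 2)]⟩,
⟨0, [⟨4, 2, []⟩, ⟨2, 2, [(9, 2)]⟩, ⟨16, 2, []⟩, ⟨0, 0, [(9, 2)]⟩], [3, 1, 1, 12, 12, 12], 2, [(6, 1), (13, 1), (25, 1), (29, 2)]⟩,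
⟨1, [⟨3, 4, []⟩, ⟨64, 2, []⟩], [3, 2, 2], 1, [(65, 1), (66, 1)]⟩,
⟨1, [⟨2, 2, []⟩, ⟨5, 4, []⟩, ⟨0, 0, [(40, 1)]⟩, ⟨64, 5, []⟩], [3, 1, 1, 4, 4, 4, 4], 2, [(67, 1), (70, 1), (104, 1), (107, 2), (110, 2)]⟩,
⟨0, [⟨1, 3, []⟩, ⟨100, 3, []⟩], [3, 3], 1, [(5, 1), (33, 1), (65, 1)]⟩,
⟨1, [⟨18, 4, []⟩, ⟨64, 2, []⟩], [3, 2, 2], 1, [(66, 1), (80, 1)]⟩,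
⟨1, [⟨8, 2, []⟩, ⟨32, 4, []⟩], [3, 1, 1], 1, [(40, 1)]⟩,
⟨0, [⟨1, 3, []⟩, ⟨2, 2, [(72, 1)]⟩], [3, 3], 1, [(3, 1), (73, 1)]⟩,
⟨1, [⟨10, 4, []⟩, ⟨4, 4, []⟩, ⟨64, 3, [(33, 1)]⟩], [7], 1, [(39, 1), (45, 1), (70, 1), (76, 1)]⟩,
⟨1, [⟨1, 2, []⟩, ⟨34, 3, []⟩, ⟨4, 3, []⟩, ⟨8, 2, []⟩, ⟨64, 3, []⟩], [7, 7, 9, 24, 24], 2, [(7, 1), (37, 1), (70, 1), (72, 1), (79, 2), (100, 1), (109, 2)]⟩,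
⟨1, [⟨34, 4, []⟩, ⟨20, 4, []⟩, ⟨64, 4, []⟩], [7], 1, [(70, 1), (82, 1), (100, 1), (112, 1)]⟩,
⟨1, [⟨8, 2, []⟩, ⟨16, 2, []⟩, ⟨3, 3, []⟩, ⟨4, 3, []⟩, ⟨64, 3, []⟩], [3, 3, 3, 28, 28], 2, [(24, 1), (69, 1), (70, 1), (93, 2), (94, 2)]⟩,
⟨1, [⟨8, 2, []⟩, ⟨16, 2, []⟩, ⟨2, 3, []⟩, ⟨4, 3, []⟩, ⟨64, 5, []⟩], [3, 3, 3, 12, 12], 2, [(70, 1), (88, 1), (94, 2)]⟩,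
⟨0, [⟨8, 3, []⟩, ⟨16, 2, [(66, 1)]⟩], [3, 3], 1, [(24, 1), (74, 1)]⟩,
⟨1, [⟨68, 5, []⟩, ⟨40, 5, []⟩, ⟨16, 3, []⟩], [4, 4], 1, [(28, 1), (52, 1), (88, 1), (112, 1)]⟩,
⟨1, [⟨65, 4, []⟩, ⟨16, 4, []⟩, ⟨32, 4, []⟩], [7], 1, [(49, 1), (112, 1)]⟩,
⟨1, [⟨8, 2, []⟩, ⟨20, 3, []⟩, ⟨32, 3, []⟩, ⟨1, 2, []⟩, ⟨64, 3, []⟩], [7, 7, 9, 24, 24], 2, [(44, 1), (56, 1), (65, 1), (100, 1), (109, 2), (112, 1), (121, 2)]⟩,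
⟨0, [⟨18, 3, []⟩, ⟨100, 3, []⟩], [3, 3], 1, [(6, 1), (20, 1), (34, 1), (48, 1), (66, 1), (80, 1)]⟩,
⟨0, [⟨0, 0, [(17, 2)]⟩, ⟨8, 2, []⟩, ⟨38, 4, []⟩, ⟨64, 2, []⟩], [5, 1, 1, 10, 10, 10], 2, [(19, 1), (21, 1), (49, 1), (72, 1), (91, 2), (93, 2), (121, 2)]⟩,
⟨1, [⟨10, 4, []⟩, ⟨20, 4, []⟩, ⟨64, 4, []⟩], [7], 1, [(70, 1), (76, 1), (82, 1), (88, 1)]⟩,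
⟨1, [⟨0, 0, [(40, 2)]⟩, ⟨80, 4, []⟩], [3, 1, 1], 1, [(56, 1), (104, 1)]⟩,
⟨0, [⟨1, 3, []⟩, ⟨70, 3, []⟩], [3, 3], 1, [(3, 1), (5, 1), (65, 1)]⟩,
⟨0, [⟨5, 3, []⟩, ⟨98, 3, []⟩], [3, 3], 1, [(3, 1), (6, 1), (33, 1), (36, 1), (65, 1), (68, 1)]⟩,
⟨1, [⟨20, 4, []⟩, ⟨0, 0, [(96, 2)]⟩], [3, 2, 2], 1, [(100, 1), (112, 1)]⟩,
⟨1, [⟨5, 4, []⟩, ⟨18, 4, []⟩, ⟨64, 4, []⟩], [7], 1, [(67, 1), (70, 1), (81, 1), (84, 1)]⟩,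
⟨1, [⟨2, 2, []⟩, ⟨4, 4, []⟩, ⟨16, 3, []⟩, ⟨32, 3, []⟩, ⟨64, 3, []⟩], [3, 5, 5, 24, 24], 2, [(22, 1), (100, 1), (112, 1), (118, 2)]⟩,
⟨1, [⟨36, 4, []⟩, ⟨0, 0, [(72, 2)]⟩], [3, 2, 2], 1, [(76, 1), (104, 1)]⟩,
⟨1, [⟨34, 4, []⟩, ⟨0, 0, [(65, 2)]⟩], [3, 2, 2], 1, [(67, 1), (97, 1)]⟩,
⟨0, [⟨8, 2, []⟩, ⟨16, 2, []⟩, ⟨6, 4, []⟩, ⟨1, 2, []⟩], [3, 3, 3, 12, 8, 8], 2, [(3, 1), (5, 1), (24, 1), (27, 2), (29, 2)]⟩,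
⟨1, [⟨1, 2, []⟩, ⟨2, 3, []⟩, ⟨4, 3, []⟩, ⟨8, 2, []⟩, ⟨16, 3, []⟩], [7, 7, 9, 24, 24], 2, [(7, 1), (22, 1), (24, 1), (31, 2)]⟩,
⟨1, [⟨36, 5, []⟩, ⟨3, 3, []⟩, ⟨64, 5, []⟩], [2, 2], 1, [(69, 1), (70, 1), (97, 1), (98, 1)]⟩,
⟨0, [⟨16, 2, []⟩, ⟨32, 2, [(10, 2)]⟩, ⟨1, 2, []⟩, ⟨0, 0, [(10, 2)]⟩], [3, 1, 1, 12, 12, 12], 2, [(11, 1), (26, 1), (27, 2), (48, 1)]⟩,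
⟨1, [⟨24, 3, []⟩, ⟨0, 0, [(36, 3)]⟩, ⟨1, 2, []⟩, ⟨2, 2, []⟩, ⟨64, 5, []⟩], [3, 3, 12, 12, 12], 2, [(67, 1), (108, 1), (111, 2), (116, 1), (119, 2)]⟩,
⟨1, [⟨20, 5, []⟩, ⟨40, 3, []⟩, ⟨64, 5, []⟩], [2, 2], 1, [(76, 1), (88, 1), (100, 1), (112, 1)]⟩,
⟨1, [⟨1, 2, []⟩, ⟨2, 2, []⟩, ⟨0, 0, [(20, 2)]⟩, ⟨8, 2, []⟩], [3, 3, 3, 12, 12, 12], 2, [(3, 1), (28, 1), (31, 2)]⟩,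
⟨1, [⟨1, 2, []⟩, ⟨2, 2, []⟩, ⟨8, 2, []⟩, ⟨16, 2, []⟩, ⟨0, 0, [(96, 3)]⟩], [7, 7, 11, 28, 24], 2, [(3, 1), (104, 1), (112, 1), (123, 2)]⟩,
⟨1, [⟨0, 0, [(48, 2)]⟩, ⟨68, 4, []⟩], [3, 1, 1], 1, [(52, 1), (112, 1)]⟩,
⟨0, [⟨17, 3, []⟩, ⟨98, 3, []⟩], [3, 3], 1, [(3, 1), (18, 1), (33, 1), (48, 1), (65, 1), (80, 1)]⟩,
⟨1, [⟨9, 4, []⟩, ⟨4, 4, []⟩, ⟨32, 3, [(3, 1)]⟩], [7], 1, [(7, 1), (37, 1), (44, 1)]⟩,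
⟨1, [⟨0, 0, [(48, 1)]⟩, ⟨2, 2, []⟩, ⟨4, 4, []⟩, ⟨64, 5, []⟩], [1, 1, 1, 1, 6, 2, 2], 2, [(70, 1), (112, 1), (118, 2)]⟩,
⟨1, [⟨17, 5, []⟩, ⟨36, 5, []⟩, ⟨64, 3, []⟩], [4, 4], 1, [(69, 1), (84, 1), (97, 1), (112, 1)]⟩,
⟨1, [⟨72, 5, []⟩, ⟨32, 3, []⟩, ⟨20, 5, []⟩], [2, 2], 1, [(44, 1), (56, 1), (100, 1), (112, 1)]⟩,
⟨1, [⟨33, 5, []⟩, ⟨4, 3, []⟩, ⟨64, 5, []⟩], [2, 2], 1, [(69, 1), (100, 1)]⟩,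
⟨0, [⟨1, 2, []⟩, ⟨4, 2, []⟩, ⟨48, 4, []⟩, ⟨8, 2, []⟩], [3, 3, 3, 12, 8, 8], 2, [(5, 1), (24, 1), (29, 2), (40, 1), (45, 2)]⟩,
⟨1, [⟨66, 4, []⟩, ⟨16, 4, []⟩, ⟨32, 4, []⟩], [7], 1, [(50, 1), (112, 1)]⟩,
⟨1, [⟨24, 4, []⟩, ⟨2, 4, []⟩, ⟨4, 4, []⟩], [7], 1, [(14, 1), (22, 1)]⟩,
⟨1, [⟨28, 5, []⟩, ⟨33, 5, []⟩, ⟨64, 3, []⟩], [4, 4], 1, [(69, 1), (73, 1), (81, 1), (100, 1), (104, 1), (112, 1)]⟩,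
⟨1, [⟨8, 2, [(6, 1)]⟩, ⟨32, 3, []⟩], [3, 3], 1, [(38, 1), (40, 1)]⟩,
⟨1, [⟨16, 2, []⟩, ⟨1, 2, []⟩, ⟨2, 1, []⟩, ⟨4, 3, []⟩, ⟨64, 3, []⟩], [21, 21, 3, 14, 14], 2, [(5, 1), (70, 1), (80, 1), (87, 2)]⟩,
⟨0, [⟨66, 3, []⟩, ⟨17, 3, []⟩], [3, 3], 1, [(3, 1), (18, 1), (65, 1), (80, 1)]⟩,
⟨1, [⟨40, 4, []⟩, ⟨64, 2, []⟩], [3, 2, 2], 1, [(72, 1), (96, 1)]⟩,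
⟨1, [⟨8, 2, []⟩, ⟨16, 3, []⟩, ⟨32, 3, []⟩, ⟨2, 2, []⟩, ⟨64, 3, []⟩], [7, 7, 9, 24, 24], 2, [(56, 1), (66, 1), (112, 1), (122, 2)]⟩,
⟨1, [⟨2, 3, []⟩, ⟨4, 3, []⟩, ⟨16, 3, []⟩, ⟨32, 3, []⟩, ⟨64, 4, []⟩], [3, 3, 12, 12, 16], 2, [(54, 1), (70, 1), (112, 1), (118, 2)]⟩,
⟨0, [⟨0, 0, [(34, 2)]⟩, ⟨65, 4, []⟩, ⟨8, 2, []⟩, ⟨16, 2, []⟩], [3, 1, 1, 12, 12, 12], 2, [(24, 1), (35, 1), (59, 2), (98, 1), (122, 2)]⟩,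
⟨0, [⟨1, 2, []⟩, ⟨4, 2, [(18, 2)]⟩, ⟨8, 2, []⟩, ⟨0, 0, [(18, 2)]⟩], [3, 1, 1, 12, 12, 12], 2, [(5, 1), (19, 1), (26, 1), (27, 2)]⟩,
⟨0, [⟨33, 3, []⟩, ⟨74, 3, []⟩], [3, 3], 1, [(3, 1), (9, 1), (34, 1), (40, 1), (65, 1), (96, 1)]⟩,
⟨1, [⟨0, 0, [(6, 1)]⟩, ⟨16, 2, []⟩, ⟨32, 4, []⟩, ⟨64, 5, []⟩], [1, 1, 1, 1, 6, 2, 2], 2, [(70, 1), (112, 1), (118, 2)]⟩,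
⟨1, [⟨34, 4, []⟩, ⟨4, 4, []⟩, ⟨80, 4, []⟩], [7], 1, [(22, 1), (52, 1), (70, 1), (100, 1)]⟩,
⟨1, [⟨6, 3, []⟩, ⟨64, 3, []⟩], [3, 3], 1, [(66, 1), (68, 1)]⟩,
⟨0, [⟨0, 0, [(9, 2)]⟩, ⟨16, 2, []⟩, ⟨38, 4, []⟩, ⟨64, 2, []⟩], [5, 1, 1, 10, 10, 10], 2, [(11, 1), (13, 1), (41, 1), (80, 1), (91, 2), (93, 2), (121, 2)]⟩,
⟨1, [⟨0, 0, [(6, 2)]⟩, ⟨96, 4, []⟩], [3, 1, 1], 1, [(38, 1), (70, 1)]⟩,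
⟨1, [⟨72, 5, []⟩, ⟨5, 5, []⟩, ⟨2, 3, []⟩], [4, 4], 1, [(11, 1), (14, 1), (67, 1), (70, 1)]⟩,
⟨1, [⟨20, 4, []⟩, ⟨0, 0, [(72, 2)]⟩], [3, 2, 2], 1, [(76, 1), (88, 1)]⟩,
⟨1, [⟨20, 4, []⟩, ⟨0, 0, [(34, 2)]⟩], [3, 2, 2], 1, [(38, 1), (50, 1)]⟩,
⟨1, [⟨10, 4, []⟩, ⟨4, 4, []⟩, ⟨64, 3, [(17, 1)]⟩], [7], 1, [(23, 1), (29, 1), (70, 1), (76, 1)]⟩,
⟨1, [⟨9, 4, []⟩, ⟨32, 4, []⟩, ⟨64, 3, [(24, 1)]⟩], [7], 1, [(56, 1), (97, 1), (104, 1)]⟩,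
⟨1, [⟨66, 4, []⟩, ⟨33, 4, []⟩, ⟨4, 4, []⟩], [7], 1, [(7, 1), (38, 1), (69, 1), (100, 1)]⟩,
⟨0, [⟨3, 3, []⟩, ⟨100, 3, []⟩], [3, 3], 1, [(5, 1), (6, 1), (33, 1), (34, 1), (65, 1), (66, 1)]⟩,
⟨1, [⟨3, 3, []⟩, ⟨4, 3, []⟩, ⟨16, 2, []⟩, ⟨32, 2, []⟩, ⟨64, 5, []⟩], [3, 3, 12, 12, 12], 2, [(69, 1), (70, 1), (112, 1), (117, 2), (118, 2)]⟩,
⟨1, [⟨9, 4, []⟩, ⟨18, 4, []⟩, ⟨32, 4, []⟩], [7], 1, [(35, 1), (42, 1), (49, 1), (56, 1)]⟩,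
⟨1, [⟨1, 1, [(48, 1)]⟩, ⟨4, 4, []⟩], [3, 1, 1], 1, [(5, 1), (52, 1)]⟩,
⟨1, [⟨0, 0, [(20, 1)]⟩, ⟨0, 0, [(3, 1)]⟩, ⟨0, 0, [(40, 1)]⟩, ⟨64, 5, []⟩], [3, 3, 5, 5, 6, 6], 2, [(67, 1), (84, 1), (104, 1), (127, 2)]⟩,
⟨1, [⟨13, 5, []⟩, ⟨48, 5, []⟩, ⟨64, 3, []⟩], [4, 4], 1, [(81, 1), (84, 1), (88, 1), (97, 1), (100, 1), (104, 1)]⟩,
⟨1, [⟨2, 3, []⟩, ⟨4, 3, []⟩, ⟨24, 3, []⟩, ⟨32, 3, []⟩, ⟨64, 3, []⟩], [3, 17, 18, 12, 12], 2, [(42, 1), (44, 1), (50, 1), (52, 1), (70, 1), (104, 1), (110, 2), (112, 1), (118, 2)]⟩,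
⟨1, [⟨0, 0, [(40, 1)]⟩, ⟨1, 2, []⟩, ⟨2, 3, []⟩, ⟨4, 3, []⟩, ⟨64, 4, []⟩], [21, 9, 3, 3, 14], 2, [(5, 1), (67, 1), (70, 1), (104, 1), (111, 2)]⟩,
⟨1, [⟨48, 2, []⟩, ⟨64, 4, []⟩], [3, 1, 1], 1, [(80, 1), (96, 1)]⟩,
⟨1, [⟨8, 2, []⟩, ⟨32, 3, [(6, 1)]⟩], [3, 1, 1], 1, [(14, 1), (40, 1)]⟩,
⟨1, [⟨65, 4, []⟩, ⟨24, 4, []⟩, ⟨32, 4, []⟩], [7], 1, [(41, 1), (49, 1), (104, 1), (112, 1)]⟩,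
⟨1, [⟨40, 4, []⟩, ⟨20, 4, []⟩, ⟨64, 4, []⟩], [7], 1, [(76, 1), (88, 1), (100, 1), (112, 1)]⟩,
⟨0, [⟨1, 2, []⟩, ⟨22, 4, []⟩, ⟨8, 2, []⟩, ⟨64, 2, []⟩], [3, 1, 1, 12, 12, 12], 2, [(3, 1), (5, 1), (17, 1), (72, 1), (75, 2), (77, 2), (89, 2)]⟩,
⟨1, [⟨17, 4, []⟩, ⟨10, 4, []⟩, ⟨36, 4, []⟩], [7], 1, [(7, 1), (13, 1), (22, 1), (28, 1), (35, 1), (41, 1), (50, 1), (56, 1)]⟩,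
⟨1, [⟨12, 4, []⟩, ⟨32, 4, []⟩, ⟨65, 4, []⟩], [7], 1, [(37, 1), (41, 1), (100, 1), (104, 1)]⟩,
⟨1, [⟨96, 5, []⟩, ⟨5, 5, []⟩, ⟨2, 3, []⟩], [4, 4], 1, [(35, 1), (38, 1), (67, 1), (70, 1)]⟩,
⟨1, [⟨4, 4, []⟩, ⟨0, 0, [(3, 1), (18, 1)]⟩], [3, 2, 2], 1, [(7, 1), (22, 1)]⟩,
⟨1, [⟨2, 2, []⟩, ⟨5, 3, []⟩, ⟨16, 3, []⟩, ⟨32, 3, []⟩, ⟨64, 4, []⟩], [3, 3, 17, 12, 12], 2, [(49, 1), (52, 1), (67, 1), (70, 1), (112, 1), (115, 2), (118, 2)]⟩,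
⟨1, [⟨8, 2, []⟩, ⟨16, 3, []⟩, ⟨32, 3, []⟩, ⟨2, 2, []⟩, ⟨4, 3, []⟩], [7, 7, 9, 24, 24], 2, [(6, 1), (52, 1), (56, 1), (62, 2)]⟩,
⟨0, [⟨12, 3, []⟩, ⟨50, 3, []⟩], [3, 3], 1, [(6, 1), (10, 1), (20, 1), (24, 1), (36, 1), (40, 1)]⟩,
⟨0, [⟨40, 3, []⟩, ⟨17, 3, []⟩], [3, 3], 1, [(9, 1), (24, 1), (33, 1), (48, 1)]⟩,
⟨1, [⟨18, 4, []⟩, ⟨32, 4, []⟩, ⟨64, 3, [(24, 1)]⟩], [7], 1, [(56, 1), (98, 1), (112, 1)]⟩,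
⟨1, [⟨8, 2, [(3, 1)]⟩, ⟨32, 3, []⟩], [3, 3], 1, [(35, 1), (40, 1)]⟩,
⟨1, [⟨0, 0, [(5, 2)]⟩, ⟨96, 4, []⟩], [3, 1, 1], 1, [(37, 1), (69, 1)]⟩,
⟨1, [⟨34, 4, []⟩, ⟨4, 4, []⟩, ⟨64, 3, [(3, 1)]⟩], [7], 1, [(7, 1), (70, 1), (100, 1)]⟩,
⟨0, [⟨0, 0, [(17, 2)]⟩, ⟨66, 4, []⟩, ⟨8, 2, []⟩, ⟨32, 2, []⟩], [3, 1, 1, 12, 12, 12], 2, [(19, 1), (40, 1), (59, 2), (81, 1), (121, 2)]⟩,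
⟨1, [⟨8, 2, []⟩, ⟨32, 2, []⟩, ⟨3, 3, []⟩, ⟨4, 3, []⟩, ⟨64, 3, []⟩], [3, 17, 17, 14, 14], 2, [(37, 1), (38, 1), (69, 1), (70, 1), (72, 1), (109, 2), (110, 2)]⟩,
⟨0, [⟨0, 0, [(10, 2)]⟩, ⟨65, 4, []⟩, ⟨16, 2, []⟩, ⟨32, 2, []⟩], [3, 1, 1, 12, 12, 12], 2, [(11, 1), (48, 1), (59, 2), (74, 1), (122, 2)]⟩,
⟨1, [⟨33, 4, []⟩, ⟨0, 0, [(68, 2)]⟩], [3, 2, 2], 1, [(69, 1), (100, 1)]⟩,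
⟨1, [⟨17, 4, []⟩, ⟨4, 4, []⟩, ⟨64, 4, []⟩], [7], 1, [(69, 1), (84, 1)]⟩,
⟨1, [⟨33, 4, []⟩, ⟨20, 4, []⟩, ⟨64, 4, []⟩], [7], 1, [(69, 1), (81, 1), (100, 1), (112, 1)]⟩,
⟨1, [⟨6, 4, []⟩, ⟨1, 2, []⟩, ⟨8, 2, []⟩, ⟨32, 4, []⟩, ⟨64, 5, []⟩], [3, 2, 2, 12, 4, 4], 2, [(67, 1), (69, 1), (104, 1), (107, 2), (109, 2)]⟩,
⟨1, [⟨0, 0, [(66, 2)]⟩, ⟨5, 4, []⟩], [3, 1, 1], 1, [(67, 1), (70, 1)]⟩,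
⟨0, [⟨10, 3, []⟩, ⟨97, 3, []⟩], [3, 3], 1, [(3, 1), (9, 1), (34, 1), (40, 1), (66, 1), (72, 1)]⟩,
⟨0, [⟨0, 0, [(10, 2)]⟩, ⟨80, 4, []⟩, ⟨1, 2, []⟩, ⟨4, 2, []⟩], [3, 1, 1, 12, 12, 12], 2, [(5, 1), (26, 1), (31, 2), (74, 1), (79, 2)]⟩,
⟨1, [⟨6, 3, []⟩, ⟨33, 5, []⟩, ⟨72, 5, []⟩], [1, 1], 1, [(11, 1), (13, 1), (42, 1), (44, 1), (67, 1), (69, 1), (98, 1), (100, 1)]⟩,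
⟨1, [⟨6, 4, []⟩, ⟨64, 2, []⟩], [3, 2, 2], 1, [(66, 1), (68, 1)]⟩,
⟨1, [⟨10, 4, []⟩, ⟨17, 4, []⟩, ⟨4, 4, []⟩], [7], 1, [(7, 1), (13, 1), (22, 1), (28, 1)]⟩,
⟨0, [⟨80, 3, []⟩, ⟨9, 3, []⟩], [3, 3], 1, [(17, 1), (24, 1), (65, 1), (72, 1)]⟩,
⟨1, [⟨4, 3, []⟩, ⟨67, 3, []⟩], [3, 3], 1, [(5, 1), (6, 1), (68, 1)]⟩,
⟨0, [⟨4, 2, []⟩, ⟨1, 2, [(10, 2)]⟩, ⟨16, 2, []⟩, ⟨0, 0, [(10, 2)]⟩], [3, 1, 1, 12, 12, 12], 2, [(5, 1), (14, 1), (26, 1), (30, 2)]⟩,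
⟨1, [⟨20, 4, []⟩, ⟨32, 4, []⟩, ⟨64, 3, [(10, 1)]⟩], [7], 1, [(46, 1), (58, 1), (100, 1), (112, 1)]⟩,
⟨1, [⟨8, 2, []⟩, ⟨32, 2, []⟩, ⟨0, 0, [(3, 2)]⟩, ⟨4, 2, []⟩], [3, 3, 3, 12, 12, 12], 2, [(7, 1), (40, 1), (47, 2)]⟩,
⟨1, [⟨0, 0, [(24, 2)]⟩, ⟨36, 4, []⟩], [3, 1, 1], 1, [(28, 1), (56, 1)]⟩,
⟨1, [⟨5, 5, []⟩, ⟨2, 3, []⟩, ⟨64, 5, []⟩], [2, 2], 1, [(67, 1), (70, 1)]⟩,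
⟨1, [⟨16, 3, []⟩, ⟨32, 3, []⟩, ⟨1, 2, []⟩, ⟨2, 2, []⟩, ⟨64, 3, []⟩], [19, 19, 12, 12, 12], 2, [(3, 1), (112, 1), (115, 2)]⟩,
⟨1, [⟨8, 2, []⟩, ⟨32, 2, []⟩, ⟨0, 0, [(5, 2)]⟩, ⟨2, 2, []⟩], [3, 3, 3, 12, 12, 12], 2, [(7, 1), (40, 1), (47, 2)]⟩,
⟨0, [⟨66, 3, []⟩, ⟨1, 3, []⟩], [3, 3], 1, [(3, 1), (65, 1)]⟩,
⟨1, [⟨24, 3, []⟩, ⟨64, 3, []⟩], [3, 3], 1, [(72, 1), (80, 1)]⟩,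
⟨1, [⟨12, 4, []⟩, ⟨0, 0, [(66, 2)]⟩], [3, 2, 2], 1, [(70, 1), (74, 1)]⟩,
⟨0, [⟨1, 3, []⟩, ⟨76, 3, []⟩], [3, 3], 1, [(5, 1), (9, 1), (65, 1)]⟩,
⟨1, [⟨32, 4, []⟩, ⟨0, 0, [(20, 1), (24, 1)]⟩], [3, 2, 2], 1, [(52, 1), (56, 1)]⟩,
⟨1, [⟨2, 2, [(48, 1)]⟩, ⟨64, 3, []⟩], [3, 3], 1, [(66, 1), (112, 1)]⟩,
⟨0, [⟨1, 2, []⟩, ⟨6, 4, []⟩, ⟨0, 0, [(10, 2)]⟩, ⟨0, 0, [(20, 2)]⟩], [3, 1, 1, 12, 12, 12], 2, [(3, 1), (5, 1), (30, 1), (31, 2)]⟩,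
⟨0, [⟨24, 3, []⟩, ⟨98, 3, []⟩], [3, 3], 1, [(10, 1), (18, 1), (40, 1), (48, 1), (72, 1), (80, 1)]⟩,
⟨0, [⟨0, 0, [(17, 2)]⟩, ⟨2, 2, []⟩, ⟨44, 4, []⟩, ⟨64, 2, []⟩], [5, 1, 1, 10, 10, 10], 2, [(21, 1), (25, 1), (49, 1), (66, 1), (87, 2), (91, 2), (115, 2)]⟩,
⟨1, [⟨24, 4, []⟩, ⟨36, 4, []⟩, ⟨64, 4, []⟩], [7], 1, [(76, 1), (84, 1), (104, 1), (112, 1)]⟩,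
⟨0, [⟨21, 3, []⟩, ⟨72, 3, []⟩], [3, 3], 1, [(9, 1), (12, 1), (24, 1), (65, 1), (68, 1), (80, 1)]⟩,
⟨1, [⟨8, 2, []⟩, ⟨16, 2, []⟩, ⟨1, 2, []⟩, ⟨2, 2, []⟩, ⟨0, 0, [(68, 3)]⟩], [7, 7, 11, 28, 24], 2, [(24, 1), (69, 1), (70, 1), (95, 2)]⟩,
⟨0, [⟨2, 3, []⟩, ⟨28, 3, []⟩], [3, 3], 1, [(6, 1), (10, 1), (18, 1)]⟩,
⟨1, [⟨25, 5, []⟩, ⟨34, 5, []⟩, ⟨0, 0, [(68, 3)]⟩], [4, 4], 1, [(71, 1), (78, 1), (86, 1), (101, 1), (108, 1), (116, 1)]⟩,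
⟨1, [⟨1, 2, []⟩, ⟨4, 4, []⟩, ⟨16, 3, []⟩, ⟨32, 3, []⟩, ⟨64, 3, []⟩], [3, 5, 5, 24, 24], 2, [(21, 1), (100, 1), (112, 1), (117, 2)]⟩,
⟨1, [⟨5, 3, []⟩, ⟨0, 0, [(66, 3)]⟩], [3, 3], 1, [(67, 1), (70, 1)]⟩,
⟨1, [⟨18, 4, []⟩, ⟨33, 4, []⟩, ⟨4, 4, []⟩], [7], 1, [(7, 1), (21, 1), (38, 1), (52, 1)]⟩,
⟨0, [⟨80, 3, []⟩, ⟨33, 3, []⟩], [3, 3], 1, [(17, 1), (48, 1), (65, 1), (96, 1)]⟩,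
⟨1, [⟨9, 4, []⟩, ⟨18, 4, []⟩, ⟨64, 4, []⟩], [7], 1, [(67, 1), (74, 1), (81, 1), (88, 1)]⟩,
⟨0, [⟨32, 2, []⟩, ⟨24, 4, []⟩, ⟨2, 2, []⟩, ⟨0, 0, [(17, 2)]⟩], [3, 1, 1, 12, 12, 12], 2, [(19, 1), (40, 1), (48, 1), (51, 2)]⟩,
⟨1, [⟨8, 2, []⟩, ⟨2, 2, []⟩, ⟨1, 1, []⟩, ⟨4, 3, []⟩, ⟨64, 3, []⟩], [21, 21, 3, 14, 14], 2, [(6, 1), (69, 1), (72, 1), (79, 2)]⟩,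
⟨0, [⟨66, 3, []⟩, ⟨36, 3, []⟩], [3, 3], 1, [(6, 1), (34, 1), (68, 1), (96, 1)]⟩,
⟨1, [⟨3, 4, []⟩, ⟨20, 4, []⟩, ⟨64, 4, []⟩], [7], 1, [(69, 1), (70, 1), (81, 1), (82, 1)]⟩,
⟨0, [⟨8, 2, []⟩, ⟨16, 2, []⟩, ⟨3, 4, []⟩, ⟨4, 2, []⟩], [3, 3, 3, 12, 8, 8], 2, [(5, 1), (6, 1), (24, 1), (29, 2), (30, 2)]⟩,
⟨1, [⟨1, 2, [(40, 1)]⟩, ⟨2, 3, []⟩], [3, 3], 1, [(3, 1), (42, 1)]⟩,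
⟨1, [⟨20, 4, []⟩, ⟨32, 4, []⟩, ⟨64, 3, [(24, 1)]⟩], [7], 1, [(56, 1), (100, 1), (112, 1)]⟩,
⟨1, [⟨48, 3, []⟩, ⟨64, 3, []⟩], [3, 3], 1, [(80, 1), (96, 1)]⟩,
⟨0, [⟨28, 3, []⟩, ⟨65, 3, []⟩], [3, 3], 1, [(5, 1), (9, 1), (17, 1), (68, 1), (72, 1), (80, 1)]⟩,
⟨0, [⟨1, 4, []⟩, ⟨2, 2, []⟩, ⟨8, 2, []⟩, ⟨64, 2, []⟩], [3, 2, 2, 12, 12, 12], 2, [(3, 1), (72, 1), (75, 2)]⟩,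
⟨1, [⟨0, 0, [(3, 1)]⟩, ⟨8, 2, []⟩, ⟨16, 3, []⟩, ⟨32, 3, []⟩, ⟨64, 4, []⟩], [21, 9, 3, 3, 14], 2, [(40, 1), (67, 1), (88, 1), (112, 1), (123, 2)]⟩,
⟨1, [⟨8, 2, []⟩, ⟨16, 3, []⟩, ⟨32, 3, []⟩, ⟨1, 2, []⟩, ⟨4, 3, []⟩], [7, 7, 9, 24, 24], 2, [(5, 1), (52, 1), (56, 1), (61, 2)]⟩,
⟨0, [⟨42, 3, []⟩, ⟨5, 3, []⟩], [3, 3], 1, [(3, 1), (6, 1), (9, 1), (12, 1), (33, 1), (36, 1)]⟩,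
⟨0, [⟨32, 2, []⟩, ⟨24, 4, []⟩, ⟨0, 0, [(10, 2)]⟩, ⟨0, 0, [(17, 2)]⟩], [3, 1, 1, 12, 12, 12], 2, [(27, 1), (40, 1), (48, 1), (59, 2)]⟩,
⟨1, [⟨80, 4, []⟩, ⟨10, 4, []⟩, ⟨32, 4, []⟩], [7], 1, [(50, 1), (56, 1), (98, 1), (104, 1)]⟩,
⟨1, [⟨40, 3, []⟩, ⟨0, 0, [(80, 3)]⟩], [3, 3], 1, [(88, 1), (112, 1)]⟩,
⟨0, [⟨0, 0, [(12, 2)]⟩, ⟨16, 2, []⟩, ⟨32, 2, []⟩, ⟨67, 4, []⟩], [9, 1, 1, 6, 6, 6], 2, [(13, 1), (14, 1), (48, 1), (61, 2), (62, 2), (76, 1), (124, 2)]⟩,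
⟨1, [⟨33, 5, []⟩, ⟨6, 3, []⟩, ⟨64, 5, []⟩], [2, 2], 1, [(67, 1), (69, 1), (98, 1), (100, 1)]⟩,
⟨0, [⟨66, 3, []⟩, ⟨37, 3, []⟩], [3, 3], 1, [(3, 1), (6, 1), (34, 1), (65, 1), (68, 1), (96, 1)]⟩,
⟨1, [⟨10, 4, []⟩, ⟨4, 4, []⟩, ⟨64, 4, []⟩], [7], 1, [(70, 1), (76, 1)]⟩,
⟨0, [⟨17, 3, []⟩, ⟨38, 3, []⟩], [3, 3], 1, [(3, 1), (5, 1), (18, 1), (20, 1), (33, 1), (48, 1)]⟩,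
⟨0, [⟨4, 2, [(24, 1)]⟩, ⟨1, 3, []⟩], [3, 3], 1, [(5, 1), (25, 1)]⟩,
⟨1, [⟨17, 3, []⟩, ⟨6, 5, []⟩, ⟨64, 5, []⟩], [1, 1], 1, [(67, 1), (69, 1), (82, 1), (84, 1)]⟩,
⟨1, [⟨18, 4, []⟩, ⟨12, 4, []⟩, ⟨96, 4, []⟩], [7], 1, [(38, 1), (42, 1), (52, 1), (56, 1), (70, 1), (74, 1), (84, 1), (88, 1)]⟩,
⟨1, [⟨35, 5, []⟩, ⟨20, 5, []⟩, ⟨64, 3, []⟩], [4, 4], 1, [(69, 1), (70, 1), (81, 1), (82, 1), (100, 1), (112, 1)]⟩,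
⟨1, [⟨0, 0, [(5, 1)]⟩, ⟨8, 2, []⟩, ⟨16, 3, []⟩, ⟨32, 3, []⟩, ⟨64, 4, []⟩], [21, 9, 3, 3, 14], 2, [(40, 1), (69, 1), (88, 1), (112, 1), (125, 2)]⟩,
⟨1, [⟨33, 4, []⟩, ⟨10, 4, []⟩, ⟨20, 4, []⟩], [7], 1, [(7, 1), (13, 1), (19, 1), (25, 1), (38, 1), (44, 1), (50, 1), (56, 1)]⟩,
⟨1, [⟨18, 4, []⟩, ⟨4, 4, []⟩, ⟨96, 4, []⟩], [7], 1, [(38, 1), (52, 1), (70, 1), (84, 1)]⟩,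
⟨0, [⟨40, 3, []⟩, ⟨84, 3, []⟩], [3, 3], 1, [(12, 1), (24, 1), (36, 1), (48, 1), (72, 1), (96, 1)]⟩,
⟨1, [⟨33, 4, []⟩, ⟨0, 0, [(72, 2)]⟩], [3, 2, 2], 1, [(73, 1), (104, 1)]⟩,
⟨1, [⟨8, 2, []⟩, ⟨32, 2, []⟩, ⟨0, 0, [(18, 2)]⟩, ⟨1, 2, []⟩], [3, 3, 3, 12, 12, 12], 2, [(19, 1), (40, 1), (59, 2)]⟩,
⟨1, [⟨1, 2, []⟩, ⟨2, 3, []⟩, ⟨4, 3, []⟩, ⟨8, 2, []⟩, ⟨64, 3, []⟩], [7, 7, 9, 24, 24], 2, [(7, 1), (70, 1), (72, 1), (79, 2)]⟩,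
⟨1, [⟨9, 4, []⟩, ⟨18, 4, []⟩, ⟨68, 4, []⟩], [7], 1, [(7, 1), (14, 1), (21, 1), (28, 1), (67, 1), (74, 1), (81, 1), (88, 1)]⟩,
⟨1, [⟨68, 4, []⟩, ⟨16, 2, []⟩], [3, 2, 2], 1, [(20, 1), (80, 1)]⟩,
⟨1, [⟨65, 5, []⟩, ⟨4, 3, []⟩, ⟨18, 5, []⟩], [2, 2], 1, [(7, 1), (21, 1), (70, 1), (84, 1)]⟩,
⟨1, [⟨4, 4, []⟩, ⟨0, 0, [(3, 1), (17, 1)]⟩], [3, 2, 2], 1, [(7, 1), (21, 1)]⟩,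
⟨0, [⟨5, 3, []⟩, ⟨34, 3, []⟩], [3, 3], 1, [(3, 1), (6, 1), (33, 1), (36, 1)]⟩,
⟨0, [⟨13, 3, []⟩, ⟨80, 3, []⟩], [3, 3], 1, [(17, 1), (20, 1), (24, 1), (65, 1), (68, 1), (72, 1)]⟩,
⟨1, [⟨40, 4, []⟩, ⟨16, 2, []⟩, ⟨2, 2, []⟩, ⟨4, 4, []⟩, ⟨64, 5, []⟩], [3, 2, 2, 12, 4, 4], 2, [(70, 1), (88, 1), (94, 2), (112, 1), (118, 2)]⟩,
⟨1, [⟨5, 4, []⟩, ⟨2, 2, []⟩], [3, 2, 2], 1, [(3, 1), (6, 1)]⟩,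
⟨1, [⟨40, 4, []⟩, ⟨18, 4, []⟩, ⟨64, 4, []⟩], [7], 1, [(74, 1), (88, 1), (98, 1), (112, 1)]⟩,
⟨1, [⟨2, 2, [(48, 1)]⟩, ⟨4, 3, []⟩], [3, 3], 1, [(6, 1), (52, 1)]⟩,
⟨0, [⟨8, 3, []⟩, ⟨32, 2, [(66, 1)]⟩], [3, 3], 1, [(40, 1), (74, 1)]⟩,
⟨1, [⟨68, 4, []⟩, ⟨24, 4, []⟩, ⟨32, 4, []⟩], [7], 1, [(44, 1), (52, 1), (104, 1), (112, 1)]⟩,
⟨0, [⟨1, 2, []⟩, ⟨2, 2, []⟩, ⟨0, 0, [(68, 2)]⟩, ⟨56, 4, []⟩], [3, 3, 3, 12, 4, 4], 2, [(3, 1), (76, 1), (79, 2), (84, 1), (87, 2), (100, 1), (103, 2)]⟩,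
⟨1, [⟨16, 2, []⟩, ⟨2, 2, []⟩, ⟨1, 1, []⟩, ⟨4, 3, []⟩, ⟨64, 3, []⟩], [21, 21, 3, 14, 14], 2, [(6, 1), (69, 1), (80, 1), (87, 2)]⟩,
⟨0, [⟨72, 3, []⟩, ⟨18, 3, []⟩], [3, 3], 1, [(10, 1), (24, 1), (66, 1), (80, 1)]⟩,
⟨1, [⟨34, 5, []⟩, ⟨20, 5, []⟩, ⟨64, 3, []⟩], [4, 4], 1, [(70, 1), (82, 1), (100, 1), (112, 1)]⟩,
⟨1, [⟨16, 2, []⟩, ⟨32, 4, []⟩, ⟨2, 3, []⟩, ⟨4, 3, []⟩, ⟨64, 3, []⟩], [3, 17, 17, 12, 12], 2, [(38, 1), (70, 1), (112, 1), (118, 2)]⟩,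
⟨0, [⟨12, 3, []⟩, ⟨97, 3, []⟩], [3, 3], 1, [(5, 1), (9, 1), (36, 1), (40, 1), (68, 1), (72, 1)]⟩,
⟨0, [⟨65, 4, []⟩, ⟨2, 2, []⟩, ⟨0, 0, [(24, 2)]⟩, ⟨32, 2, []⟩], [3, 10, 10, 12, 4, 4], 2, [(3, 1), (25, 1), (56, 1), (59, 2), (66, 1), (88, 1), (122, 2)]⟩,
⟨1, [⟨0, 0, [(48, 2)]⟩, ⟨72, 4, []⟩], [3, 1, 1], 1, [(56, 1), (112, 1)]⟩,
⟨0, [⟨4, 2, []⟩, ⟨3, 4, []⟩, ⟨8, 2, []⟩, ⟨0, 0, [(18, 2)]⟩], [3, 1, 1, 12, 12, 12], 2, [(5, 1), (6, 1), (26, 1), (30, 2)]⟩,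
⟨1, [⟨8, 2, []⟩, ⟨16, 2, []⟩, ⟨0, 0, [(36, 2)]⟩, ⟨1, 2, []⟩], [3, 3, 3, 12, 12, 12], 2, [(24, 1), (37, 1), (61, 2)]⟩,
⟨0, [⟨66, 3, []⟩, ⟨9, 3, []⟩], [3, 3], 1, [(3, 1), (10, 1), (65, 1), (72, 1)]⟩,
⟨1, [⟨32, 2, []⟩, ⟨80, 4, []⟩], [3, 1, 1], 1, [(48, 1), (96, 1)]⟩,
⟨1, [⟨1, 2, []⟩, ⟨4, 2, []⟩, ⟨0, 0, [(34, 2)]⟩, ⟨16, 2, []⟩], [3, 3, 3, 12, 12, 12], 2, [(5, 1), (50, 1), (55, 2)]⟩,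
⟨1, [⟨10, 4, []⟩, ⟨33, 4, []⟩, ⟨4, 4, []⟩], [7], 1, [(7, 1), (13, 1), (38, 1), (44, 1)]⟩,
⟨1, [⟨1, 2, [(48, 1)]⟩, ⟨64, 3, []⟩], [3, 3], 1, [(65, 1), (112, 1)]⟩,
⟨1, [⟨40, 4, []⟩, ⟨16, 2, []⟩], [3, 2, 2], 1, [(24, 1), (48, 1)]⟩,
⟨1, [⟨16, 2, [(3, 1)]⟩, ⟨32, 3, []⟩], [3, 3], 1, [(35, 1), (48, 1)]⟩,
⟨1, [⟨16, 3, []⟩, ⟨0, 0, [(12, 1), (34, 1), (40, 1)]⟩], [3, 3], 1, [(28, 1), (50, 1), (56, 1)]⟩,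
⟨0, [⟨0, 0, [(17, 2)]⟩, ⟨72, 4, []⟩, ⟨2, 2, []⟩, ⟨4, 2, []⟩], [3, 1, 1, 12, 12, 12], 2, [(6, 1), (25, 1), (31, 2), (81, 1), (87, 2)]⟩,
⟨0, [⟨17, 3, []⟩, ⟨76, 3, []⟩], [3, 3], 1, [(5, 1), (9, 1), (20, 1), (24, 1), (65, 1), (80, 1)]⟩,
⟨1, [⟨8, 2, []⟩, ⟨32, 2, []⟩, ⟨3, 3, []⟩, ⟨4, 3, []⟩, ⟨64, 3, []⟩], [3, 3, 3, 28, 28], 2, [(40, 1), (69, 1), (70, 1), (109, 2), (110, 2)]⟩,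
⟨0, [⟨1, 3, []⟩, ⟨6, 3, []⟩], [3, 3], 1, [(3, 1), (5, 1)]⟩,
⟨1, [⟨1, 2, []⟩, ⟨4, 4, []⟩, ⟨16, 2, []⟩, ⟨32, 4, []⟩, ⟨64, 5, []⟩], [3, 1, 1, 12, 4, 4], 2, [(69, 1), (112, 1), (117, 2)]⟩,
⟨0, [⟨1, 3, []⟩, ⟨66, 2, [(48, 1)]⟩], [3, 3], 1, [(3, 1), (49, 1), (65, 1)]⟩,
⟨0, [⟨4, 2, [(24, 1)]⟩, ⟨64, 3, []⟩], [3, 3], 1, [(68, 1), (88, 1)]⟩,
⟨1, [⟨8, 2, []⟩, ⟨32, 2, []⟩, ⟨0, 0, [(20, 2)]⟩, ⟨1, 2, []⟩], [3, 3, 3, 12, 12, 12], 2, [(21, 1), (40, 1), (61, 2)]⟩,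
⟨0, [⟨16, 2, []⟩, ⟨40, 4, []⟩, ⟨0, 0, [(9, 2)]⟩, ⟨0, 0, [(34, 2)]⟩], [3, 1, 1, 12, 12, 12], 2, [(24, 1), (43, 1), (48, 1), (59, 2)]⟩,
⟨1, [⟨8, 2, [(6, 1)]⟩, ⟨64, 3, []⟩], [3, 3], 1, [(70, 1), (72, 1)]⟩,
⟨1, [⟨66, 4, []⟩, ⟨8, 2, []⟩], [3, 2, 2], 1, [(10, 1), (72, 1)]⟩,
⟨1, [⟨4, 1, [(24, 1)]⟩, ⟨64, 4, []⟩], [3, 1, 1], 1, [(68, 1), (88, 1)]⟩,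
⟨0, [⟨35, 3, []⟩, ⟨24, 3, []⟩], [3, 3], 1, [(9, 1), (10, 1), (17, 1), (18, 1), (40, 1), (48, 1)]⟩,
⟨0, [⟨2, 3, []⟩, ⟨64, 3, []⟩], [3, 3], 1, [(66, 1)]⟩,
⟨1, [⟨0, 0, [(72, 2)]⟩, ⟨48, 4, []⟩], [3, 1, 1], 1, [(88, 1), (104, 1)]⟩,
⟨0, [⟨1, 2, []⟩, ⟨4, 2, []⟩, ⟨0, 0, [(66, 2)]⟩, ⟨56, 4, []⟩], [3, 3, 3, 12, 4, 4], 2, [(5, 1), (74, 1), (79, 2), (82, 1), (87, 2), (98, 1), (103, 2)]⟩,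
⟨0, [⟨1, 2, []⟩, ⟨6, 4, []⟩, ⟨0, 0, [(18, 2)]⟩, ⟨0, 0, [(12, 2)]⟩], [3, 1, 1, 12, 12, 12], 2, [(3, 1), (5, 1), (30, 1), (31, 2)]⟩,
⟨0, [⟨10, 3, []⟩, ⟨100, 3, []⟩], [3, 3], 1, [(6, 1), (12, 1), (34, 1), (40, 1), (66, 1), (72, 1)]⟩,
⟨1, [⟨34, 5, []⟩, ⟨72, 5, []⟩, ⟨4, 3, []⟩], [4, 4], 1, [(14, 1), (44, 1), (70, 1), (100, 1)]⟩,
⟨0, [⟨2, 2, []⟩, ⟨65, 4, []⟩, ⟨8, 2, []⟩, ⟨16, 2, []⟩], [3, 1, 1, 12, 12, 12], 2, [(3, 1), (24, 1), (27, 2), (66, 1), (90, 2)]⟩,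
⟨1, [⟨19, 5, []⟩, ⟨12, 5, []⟩, ⟨0, 0, [(96, 3)]⟩], [4, 4], 1, [(101, 1), (102, 1), (105, 1), (106, 1), (116, 1), (120, 1)]⟩,
⟨1, [⟨1, 2, []⟩, ⟨2, 3, []⟩, ⟨4, 3, []⟩, ⟨8, 2, []⟩, ⟨32, 3, []⟩], [7, 7, 9, 24, 24], 2, [(7, 1), (38, 1), (40, 1), (47, 2)]⟩,
⟨1, [⟨20, 4, []⟩, ⟨0, 0, [(33, 2)]⟩], [3, 2, 2], 1, [(37, 1), (49, 1)]⟩,
⟨1, [⟨5, 4, []⟩, ⟨10, 4, []⟩, ⟨64, 4, []⟩], [7], 1, [(67, 1), (70, 1), (73, 1), (76, 1)]⟩,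
⟨1, [⟨3, 3, []⟩, ⟨36, 5, []⟩, ⟨80, 5, []⟩], [1, 1], 1, [(21, 1), (22, 1), (49, 1), (50, 1), (69, 1), (70, 1), (97, 1), (98, 1)]⟩,
⟨1, [⟨16, 2, [(6, 1)]⟩, ⟨64, 3, []⟩], [3, 3], 1, [(70, 1), (80, 1)]⟩,
⟨0, [⟨5, 3, []⟩, ⟨82, 3, []⟩], [3, 3], 1, [(3, 1), (6, 1), (17, 1), (20, 1), (65, 1), (68, 1)]⟩,
⟨1, [⟨0, 0, [(24, 1)]⟩, ⟨2, 2, []⟩, ⟨4, 4, []⟩, ⟨64, 5, []⟩], [1, 1, 1, 1, 6, 2, 2], 2, [(70, 1), (88, 1), (94, 2)]⟩,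
⟨1, [⟨1, 2, []⟩, ⟨64, 3, [(10, 1)]⟩], [3, 1, 1], 1, [(11, 1), (65, 1)]⟩,
⟨1, [⟨6, 2, []⟩, ⟨64, 4, []⟩], [3, 1, 1], 1, [(66, 1), (68, 1)]⟩,
⟨1, [⟨16, 2, [(6, 1)]⟩, ⟨32, 3, []⟩], [3, 3], 1, [(38, 1), (48, 1)]⟩,
⟨1, [⟨32, 3, []⟩, ⟨64, 3, []⟩], [3, 3], 1, [(96, 1)]⟩,
⟨1, [⟨18, 4, []⟩, ⟨4, 4, []⟩, ⟨64, 4, []⟩], [7], 1, [(70, 1), (84, 1)]⟩,
⟨1, [⟨17, 4, []⟩, ⟨32, 4, []⟩, ⟨64, 3, [(24, 1)]⟩], [7], 1, [(56, 1), (97, 1), (112, 1)]⟩,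
⟨0, [⟨26, 3, []⟩, ⟨5, 3, []⟩], [3, 3], 1, [(3, 1), (6, 1), (9, 1), (12, 1), (17, 1), (20, 1)]⟩,
⟨1, [⟨5, 4, []⟩, ⟨16, 4, []⟩, ⟨32, 4, []⟩], [7], 1, [(49, 1), (52, 1)]⟩,
⟨1, [⟨32, 4, []⟩, ⟨0, 0, [(18, 1), (24, 1)]⟩], [3, 2, 2], 1, [(50, 1), (56, 1)]⟩,
⟨1, [⟨1, 2, [(48, 1)]⟩, ⟨2, 3, []⟩], [3, 3], 1, [(3, 1), (50, 1)]⟩,
⟨0, [⟨3, 3, []⟩, ⟨64, 3, []⟩], [3, 3], 1, [(65, 1), (66, 1)]⟩,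
⟨1, [⟨1, 2, []⟩, ⟨2, 2, []⟩, ⟨0, 0, [(24, 2)]⟩, ⟨32, 2, []⟩], [3, 3, 3, 12, 12, 12], 2, [(3, 1), (56, 1), (59, 2)]⟩,
⟨0, [⟨65, 3, []⟩, ⟨12, 3, []⟩], [3, 3], 1, [(5, 1), (9, 1), (68, 1), (72, 1)]⟩,
⟨1, [⟨8, 2, []⟩, ⟨16, 2, []⟩, ⟨0, 0, [(6, 2)]⟩, ⟨1, 2, []⟩], [3, 3, 3, 12, 12, 12], 2, [(7, 1), (24, 1), (31, 2)]⟩,
⟨1, [⟨33, 4, []⟩, ⟨4, 4, []⟩, ⟨64, 3, [(10, 1)]⟩], [7], 1, [(15, 1), (46, 1), (69, 1), (100, 1)]⟩,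
⟨1, [⟨80, 4, []⟩, ⟨0, 0, [(10, 2)]⟩], [3, 2, 2], 1, [(26, 1), (74, 1)]⟩,
⟨0, [⟨8, 2, [(5, 1)]⟩, ⟨64, 3, []⟩], [3, 3], 1, [(69, 1), (72, 1)]⟩,
⟨1, [⟨2, 2, []⟩, ⟨4, 2, []⟩, ⟨0, 0, [(24, 2)]⟩, ⟨32, 2, []⟩], [3, 3, 3, 12, 12, 12], 2, [(6, 1), (56, 1), (62, 2)]⟩,
⟨1, [⟨6, 5, []⟩, ⟨33, 5, []⟩, ⟨64, 3, []⟩], [4, 4], 1, [(67, 1), (69, 1), (98, 1), (100, 1)]⟩,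
⟨1, [⟨16, 2, []⟩, ⟨32, 2, []⟩, ⟨3, 3, []⟩, ⟨4, 3, []⟩, ⟨64, 3, []⟩], [3, 17, 17, 14, 14], 2, [(37, 1), (38, 1), (69, 1), (70, 1), (80, 1), (117, 2), (118, 2)]⟩,
⟨1, [⟨2, 3, []⟩, ⟨4, 3, []⟩, ⟨24, 3, []⟩, ⟨32, 3, []⟩, ⟨64, 4, []⟩], [3, 3, 12, 12, 16], 2, [(46, 1), (54, 1), (70, 1), (104, 1), (110, 2), (112, 1), (118, 2)]⟩,
⟨0, [⟨8, 2, []⟩, ⟨16, 2, []⟩, ⟨5, 4, []⟩, ⟨2, 2, []⟩], [3, 3, 3, 12, 8, 8], 2, [(3, 1), (6, 1), (24, 1), (27, 2), (30, 2)]⟩,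
⟨1, [⟨16, 2, []⟩, ⟨64, 4, []⟩], [3, 1, 1], 1, [(80, 1)]⟩,
⟨1, [⟨2, 2, []⟩, ⟨4, 2, []⟩, ⟨0, 0, [(40, 2)]⟩, ⟨16, 2, []⟩], [3, 3, 3, 12, 12, 12], 2, [(6, 1), (56, 1), (62, 2)]⟩,
⟨1, [⟨12, 5, []⟩, ⟨48, 3, []⟩, ⟨64, 5, []⟩], [2, 2], 1, [(84, 1), (88, 1), (100, 1), (104, 1)]⟩,
⟨1, [⟨24, 4, []⟩, ⟨32, 4, []⟩, ⟨2, 3, []⟩, ⟨4, 3, []⟩, ⟨64, 3, []⟩], [3, 12, 12, 16, 16], 2, [(46, 1), (54, 1), (70, 1), (104, 1), (110, 2), (112, 1), (118, 2)]⟩,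
⟨1, [⟨8, 2, []⟩, ⟨32, 2, []⟩, ⟨0, 0, [(18, 2)]⟩, ⟨4, 2, []⟩], [3, 3, 3, 12, 12, 12], 2, [(22, 1), (40, 1), (62, 2)]⟩,
⟨1, [⟨48, 4, []⟩, ⟨12, 4, []⟩, ⟨64, 4, []⟩], [7], 1, [(84, 1), (88, 1), (100, 1), (104, 1)]⟩,
⟨0, [⟨18, 3, []⟩, ⟨41, 3, []⟩], [3, 3], 1, [(3, 1), (10, 1), (17, 1), (24, 1), (34, 1), (48, 1)]⟩,
⟨1, [⟨32, 2, []⟩, ⟨24, 4, []⟩, ⟨0, 0, [(3, 1)]⟩, ⟨64, 5, []⟩], [3, 1, 1, 4, 4, 4, 4], 2, [(67, 1), (104, 1), (107, 2), (112, 1), (115, 2)]⟩,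
⟨0, [⟨65, 3, []⟩, ⟨14, 3, []⟩], [3, 3], 1, [(3, 1), (5, 1), (9, 1), (66, 1), (68, 1), (72, 1)]⟩,
⟨1, [⟨24, 3, []⟩, ⟨0, 0, [(96, 3)]⟩], [3, 3], 1, [(104, 1), (112, 1)]⟩,
⟨1, [⟨24, 3, []⟩, ⟨32, 3, []⟩, ⟨5, 4, []⟩, ⟨2, 2, []⟩, ⟨64, 3, []⟩], [3, 3, 12, 24, 24], 2, [(41, 1), (44, 1), (49, 1), (52, 1), (67, 1), (70, 1), (104, 1), (107, 2), (110, 2), (112, 1), (115, 2), (118, 2)]⟩,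
⟨1, [⟨10, 3, []⟩, ⟨36, 5, []⟩, ⟨64, 5, []⟩], [1, 1], 1, [(70, 1), (76, 1), (98, 1), (104, 1)]⟩,
⟨1, [⟨3, 3, []⟩, ⟨4, 3, []⟩, ⟨8, 2, []⟩, ⟨16, 2, []⟩, ⟨64, 5, []⟩], [3, 3, 12, 12, 12], 2, [(69, 1), (70, 1), (88, 1), (93, 2), (94, 2)]⟩,
⟨1, [⟨24, 4, []⟩, ⟨32, 4, []⟩, ⟨64, 4, []⟩], [7], 1, [(104, 1), (112, 1)]⟩,
⟨1, [⟨10, 4, []⟩, ⟨32, 4, []⟩, ⟨4, 3, [(24, 1)]⟩], [7], 1, [(38, 1), (44, 1), (56, 1)]⟩,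
⟨1, [⟨3, 3, []⟩, ⟨4, 3, []⟩, ⟨48, 4, []⟩, ⟨8, 2, []⟩, ⟨64, 3, []⟩], [3, 3, 12, 24, 24], 2, [(21, 1), (22, 1), (37, 1), (38, 1), (69, 1), (70, 1), (88, 1), (93, 2), (94, 2), (104, 1), (109, 2), (110, 2)]⟩,
⟨1, [⟨33, 4, []⟩, ⟨12, 4, []⟩, ⟨64, 4, []⟩], [7], 1, [(69, 1), (73, 1), (100, 1), (104, 1)]⟩,
⟨0, [⟨68, 3, []⟩, ⟨10, 3, []⟩], [3, 3], 1, [(6, 1), (12, 1), (66, 1), (72, 1)]⟩,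
⟨1, [⟨4, 3, []⟩, ⟨2, 2, [(80, 1)]⟩], [3, 3], 1, [(6, 1), (84, 1)]⟩,
⟨1, [⟨40, 4, []⟩, ⟨17, 4, []⟩, ⟨64, 4, []⟩], [7], 1, [(73, 1), (88, 1), (97, 1), (112, 1)]⟩,
⟨1, [⟨16, 2, []⟩, ⟨32, 2, []⟩, ⟨1, 2, []⟩, ⟨2, 2, []⟩, ⟨0, 0, [(68, 3)]⟩], [7, 7, 11, 28, 24], 2, [(48, 1), (69, 1), (70, 1), (119, 2)]⟩,
⟨0, [⟨48, 3, []⟩, ⟨10, 3, []⟩], [3, 3], 1, [(18, 1), (24, 1), (34, 1), (40, 1)]⟩,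
⟨0, [⟨40, 3, []⟩, ⟨81, 3, []⟩], [3, 3], 1, [(9, 1), (24, 1), (33, 1), (48, 1), (72, 1), (96, 1)]⟩,
⟨1, [⟨1, 1, []⟩, ⟨0, 0, [(24, 2)]⟩, ⟨32, 4, []⟩, ⟨64, 5, []⟩], [1, 1, 1, 1, 6, 2, 2], 2, [(65, 1), (120, 1), (121, 2)]⟩,
⟨1, [⟨17, 4, []⟩, ⟨32, 4, []⟩, ⟨4, 3, [(24, 1)]⟩], [7], 1, [(37, 1), (52, 1), (56, 1)]⟩,
⟨1, [⟨1, 1, [(24, 1)]⟩, ⟨4, 4, []⟩], [3, 1, 1], 1, [(5, 1), (28, 1)]⟩,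
⟨0, [⟨1, 2, []⟩, ⟨2, 2, []⟩, ⟨48, 4, []⟩, ⟨8, 2, []⟩], [3, 3, 3, 12, 8, 8], 2, [(3, 1), (24, 1), (27, 2), (40, 1), (43, 2)]⟩,
⟨0, [⟨1, 3, []⟩, ⟨4, 3, []⟩], [3, 3], 1, [(5, 1)]⟩,
⟨1, [⟨2, 2, []⟩, ⟨33, 3, []⟩, ⟨4, 3, []⟩, ⟨8, 2, []⟩, ⟨64, 3, []⟩], [7, 7, 9, 24, 24], 2, [(7, 1), (38, 1), (69, 1), (72, 1), (79, 2), (100, 1), (110, 2)]⟩,
⟨1, [⟨12, 4, []⟩, ⟨32, 4, []⟩, ⟨64, 4, []⟩], [7], 1, [(100, 1), (104, 1)]⟩,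
⟨1, [⟨1, 1, [(48, 1)]⟩, ⟨64, 4, []⟩], [3, 1, 1], 1, [(65, 1), (112, 1)]⟩,
⟨1, [⟨80, 5, []⟩, ⟨3, 5, []⟩, ⟨4, 3, []⟩], [4, 4], 1, [(21, 1), (22, 1), (69, 1), (70, 1)]⟩,
⟨1, [⟨20, 4, []⟩, ⟨33, 4, []⟩, ⟨66, 4, []⟩], [7], 1, [(7, 1), (19, 1), (38, 1), (50, 1), (69, 1), (81, 1), (100, 1), (112, 1)]⟩,
⟨1, [⟨0, 0, [(12, 1)]⟩, ⟨0, 0, [(3, 1)]⟩, ⟨0, 0, [(48, 1)]⟩, ⟨64, 5, []⟩], [3, 3, 5, 5, 6, 6], 2, [(67, 1), (76, 1), (112, 1), (127, 2)]⟩,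
⟨1, [⟨4, 2, []⟩, ⟨66, 4, []⟩], [3, 1, 1], 1, [(6, 1), (68, 1)]⟩,
⟨1, [⟨24, 4, []⟩, ⟨32, 4, []⟩, ⟨0, 0, [(3, 1)]⟩, ⟨64, 3, []⟩], [3, 4, 4, 4, 4, 8, 8], 2, [(43, 1), (51, 1), (67, 1), (104, 1), (107, 2), (112, 1), (115, 2)]⟩,
⟨1, [⟨9, 4, []⟩, ⟨4, 4, []⟩, ⟨64, 3, [(3, 1)]⟩], [7], 1, [(7, 1), (69, 1), (76, 1)]⟩,
⟨1, [⟨66, 4, []⟩, ⟨24, 4, []⟩, ⟨32, 4, []⟩], [7], 1, [(42, 1), (50, 1), (104, 1), (112, 1)]⟩,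
⟨1, [⟨16, 2, []⟩, ⟨32, 2, []⟩, ⟨3, 3, []⟩, ⟨4, 4, []⟩, ⟨64, 4, []⟩], [3, 3, 3, 12, 20], 2, [(52, 1), (69, 1), (70, 1), (112, 1), (117, 2), (118, 2)]⟩,
⟨1, [⟨96, 4, []⟩, ⟨3, 4, []⟩, ⟨4, 4, []⟩], [7], 1, [(37, 1), (38, 1), (69, 1), (70, 1)]⟩,
⟨0, [⟨44, 3, []⟩, ⟨65, 3, []⟩], [3, 3], 1, [(5, 1), (9, 1), (33, 1), (68, 1), (72, 1), (96, 1)]⟩,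
⟨0, [⟨0, 0, [(18, 2)]⟩, ⟨1, 2, []⟩, ⟨4, 2, []⟩, ⟨104, 4, []⟩], [9, 1, 1, 6, 6, 6], 2, [(5, 1), (26, 1), (31, 2), (50, 1), (55, 2), (82, 1), (87, 2)]⟩,
⟨1, [⟨16, 2, []⟩, ⟨12, 3, []⟩, ⟨32, 3, []⟩, ⟨1, 2, []⟩, ⟨64, 3, []⟩], [7, 7, 9, 24, 24], 2, [(52, 1), (56, 1), (65, 1), (100, 1), (104, 1), (117, 2), (121, 2)]⟩,
⟨1, [⟨17, 4, []⟩, ⟨34, 4, []⟩, ⟨64, 4, []⟩], [7], 1, [(67, 1), (82, 1), (97, 1), (112, 1)]⟩,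
⟨1, [⟨72, 5, []⟩, ⟨32, 3, []⟩, ⟨17, 5, []⟩], [2, 2], 1, [(41, 1), (56, 1), (97, 1), (112, 1)]⟩,
⟨1, [⟨16, 2, []⟩, ⟨72, 4, []⟩], [3, 1, 1], 1, [(24, 1), (80, 1)]⟩,
⟨1, [⟨8, 2, []⟩, ⟨16, 2, []⟩, ⟨0, 0, [(36, 2)]⟩, ⟨2, 2, []⟩], [3, 3, 3, 12, 12, 12], 2, [(24, 1), (38, 1), (62, 2)]⟩,
⟨0, [⟨4, 2, []⟩, ⟨3, 4, []⟩, ⟨0, 0, [(17, 2)]⟩, ⟨0, 0, [(10, 2)]⟩], [3, 1, 1, 12, 12, 12], 2, [(5, 1), (6, 1), (27, 1), (31, 2)]⟩,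
⟨0, [⟨16, 2, []⟩, ⟨32, 2, [(9, 2)]⟩, ⟨2, 2, []⟩, ⟨0, 0, [(9, 2)]⟩], [3, 1, 1, 12, 12, 12], 2, [(11, 1), (25, 1), (27, 2), (48, 1)]⟩,
⟨0, [⟨1, 2, []⟩, ⟨2, 2, []⟩, ⟨24, 4, []⟩, ⟨64, 2, []⟩], [3, 3, 3, 12, 8, 8], 2, [(3, 1), (72, 1), (75, 2), (80, 1), (83, 2)]⟩,
⟨0, [⟨16, 2, []⟩, ⟨32, 2, []⟩, ⟨6, 4, []⟩, ⟨1, 2, []⟩], [3, 3, 3, 12, 8, 8], 2, [(3, 1), (5, 1), (48, 1), (51, 2), (53, 2)]⟩,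
⟨1, [⟨1, 2, []⟩, ⟨4, 2, []⟩, ⟨24, 3, []⟩, ⟨32, 3, []⟩, ⟨64, 3, []⟩], [3, 17, 17, 14, 14], 2, [(44, 1), (52, 1), (65, 1), (104, 1), (109, 2), (112, 1), (117, 2)]⟩,
⟨0, [⟨6, 3, []⟩, ⟨65, 3, []⟩], [3, 3], 1, [(3, 1), (5, 1), (66, 1), (68, 1)]⟩,
⟨0, [⟨16, 2, [(3, 1)]⟩, ⟨64, 3, []⟩], [3, 3], 1, [(67, 1), (80, 1)]⟩,
⟨1, [⟨2, 2, []⟩, ⟨68, 4, []⟩], [3, 1, 1], 1, [(6, 1), (66, 1)]⟩,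
⟨1, [⟨2, 2, []⟩, ⟨5, 4, []⟩, ⟨0, 0, [(48, 1)]⟩, ⟨64, 5, []⟩], [3, 1, 1, 4, 4, 4, 4], 2, [(67, 1), (70, 1), (112, 1), (115, 2), (118, 2)]⟩,
⟨1, [⟨1, 2, [(48, 1)]⟩, ⟨4, 3, []⟩], [3, 3], 1, [(5, 1), (52, 1)]⟩,
⟨1, [⟨0, 0, [(33, 1)]⟩, ⟨0, 0, [(18, 1)]⟩, ⟨0, 0, [(12, 1)]⟩, ⟨64, 5, []⟩], [3, 3, 5, 5, 6, 6], 2, [(76, 1), (82, 1), (97, 1), (127, 2)]⟩,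
⟨1, [⟨17, 4, []⟩, ⟨4, 4, []⟩, ⟨64, 3, [(3, 1)]⟩], [7], 1, [(7, 1), (69, 1), (84, 1)]⟩,
⟨0, [⟨0, 0, [(20, 2)]⟩, ⟨1, 2, []⟩, ⟨2, 2, []⟩, ⟨104, 4, []⟩], [9, 1, 1, 6, 6, 6], 2, [(3, 1), (28, 1), (31, 2), (52, 1), (55, 2), (84, 1), (87, 2)]⟩,
⟨1, [⟨16, 3, []⟩, ⟨32, 3, []⟩, ⟨5, 4, []⟩, ⟨2, 2, []⟩, ⟨64, 3, []⟩], [3, 3, 12, 24, 24], 2, [(49, 1), (52, 1), (67, 1), (70, 1), (112, 1), (115, 2), (118, 2)]⟩,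
⟨0, [⟨9, 3, []⟩, ⟨38, 3, []⟩], [3, 3], 1, [(3, 1), (5, 1), (10, 1), (12, 1), (33, 1), (40, 1)]⟩,
⟨1, [⟨5, 5, []⟩, ⟨34, 5, []⟩, ⟨64, 3, []⟩], [4, 4], 1, [(67, 1), (70, 1), (97, 1), (100, 1)]⟩,
⟨1, [⟨6, 4, []⟩, ⟨9, 4, []⟩, ⟨64, 4, []⟩], [7], 1, [(67, 1), (69, 1), (74, 1), (76, 1)]⟩,
⟨1, [⟨8, 2, []⟩, ⟨20, 3, []⟩, ⟨32, 3, []⟩, ⟨2, 2, []⟩, ⟨64, 3, []⟩], [7, 7, 9, 24, 24], 2, [(44, 1), (56, 1), (66, 1), (100, 1), (110, 2), (112, 1), (122, 2)]⟩,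
⟨0, [⟨24, 3, []⟩, ⟨64, 3, []⟩], [3, 3], 1, [(72, 1), (80, 1)]⟩,
⟨1, [⟨2, 2, []⟩, ⟨5, 4, []⟩, ⟨0, 0, [(24, 1)]⟩, ⟨64, 5, []⟩], [3, 1, 1, 4, 4, 4, 4], 2, [(67, 1), (70, 1), (88, 1), (91, 2), (94, 2)]⟩,
⟨0, [⟨6, 2, []⟩, ⟨1, 2, []⟩, ⟨48, 4, []⟩, ⟨8, 2, []⟩], [3, 3, 3, 12, 8, 8], 2, [(3, 1), (5, 1), (24, 1), (27, 2), (29, 2), (40, 1), (43, 2), (45, 2)]⟩,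
⟨1, [⟨2, 2, []⟩, ⟨4, 2, []⟩, ⟨24, 3, []⟩, ⟨32, 3, []⟩, ⟨64, 3, []⟩], [3, 3, 3, 28, 28], 2, [(6, 1), (104, 1), (110, 2), (112, 1), (118, 2)]⟩,
⟨0, [⟨12, 3, []⟩, ⟨49, 3, []⟩], [3, 3], 1, [(5, 1), (9, 1), (20, 1), (24, 1), (36, 1), (40, 1)]⟩,
⟨1, [⟨0, 0, [(36, 1)]⟩, ⟨0, 0, [(3, 1)]⟩, ⟨0, 0, [(24, 1)]⟩, ⟨64, 5, []⟩], [3, 3, 5, 5, 6, 6], 2, [(67, 1), (88, 1), (100, 1), (127, 2)]⟩,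
⟨1, [⟨48, 5, []⟩, ⟨8, 3, []⟩, ⟨64, 5, []⟩], [2, 2], 1, [(88, 1), (104, 1)]⟩,
⟨0, [⟨8, 2, []⟩, ⟨18, 4, []⟩, ⟨64, 2, []⟩, ⟨0, 0, [(17, 2)]⟩], [3, 1, 1, 12, 12, 12], 2, [(10, 1), (24, 1), (81, 1), (89, 2)]⟩,
⟨0, [⟨8, 2, [(6, 1)]⟩, ⟨64, 3, []⟩], [3, 3], 1, [(70, 1), (72, 1)]⟩,
⟨1, [⟨3, 3, []⟩, ⟨4, 4, []⟩, ⟨16, 2, []⟩, ⟨32, 3, []⟩, ⟨64, 3, []⟩], [3, 9, 12, 20, 20], 2, [(37, 1), (38, 1), (69, 1), (70, 1), (84, 1), (112, 1), (117, 2), (118, 2)]⟩,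
⟨0, [⟨1, 3, []⟩, ⟨44, 3, []⟩], [3, 3], 1, [(5, 1), (9, 1), (33, 1)]⟩,
⟨1, [⟨10, 4, []⟩, ⟨4, 4, []⟩, ⟨80, 4, []⟩], [7], 1, [(22, 1), (28, 1), (70, 1), (76, 1)]⟩,
⟨1, [⟨66, 5, []⟩, ⟨40, 5, []⟩, ⟨16, 3, []⟩], [4, 4], 1, [(26, 1), (50, 1), (88, 1), (112, 1)]⟩,
⟨1, [⟨0, 0, [(5, 2)]⟩, ⟨64, 4, []⟩], [3, 1, 1], 1, [(69, 1)]⟩,
⟨1, [⟨16, 2, []⟩, ⟨32, 3, []⟩, ⟨3, 3, []⟩, ⟨4, 3, []⟩, ⟨64, 4, []⟩], [3, 3, 17, 12, 12], 2, [(37, 1), (38, 1), (69, 1), (70, 1), (112, 1), (117, 2), (118, 2)]⟩,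
⟨1, [⟨65, 3, []⟩, ⟨4, 3, []⟩], [3, 3], 1, [(5, 1), (68, 1)]⟩,
⟨1, [⟨48, 4, []⟩, ⟨8, 2, []⟩], [3, 2, 2], 1, [(24, 1), (40, 1)]⟩,
⟨1, [⟨20, 4, []⟩, ⟨32, 4, []⟩, ⟨66, 4, []⟩], [7], 1, [(38, 1), (50, 1), (100, 1), (112, 1)]⟩,
⟨1, [⟨8, 2, [(3, 1)]⟩, ⟨64, 3, []⟩], [3, 3], 1, [(67, 1), (72, 1)]⟩,
⟨1, [⟨2, 3, []⟩, ⟨4, 3, []⟩, ⟨16, 3, []⟩, ⟨32, 3, []⟩, ⟨64, 3, []⟩], [3, 17, 18, 12, 12], 2, [(50, 1), (52, 1), (70, 1), (112, 1), (118, 2)]⟩,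
⟨0, [⟨34, 3, []⟩, ⟨84, 3, []⟩], [3, 3], 1, [(6, 1), (18, 1), (36, 1), (48, 1), (66, 1), (96, 1)]⟩,
⟨1, [⟨66, 2, []⟩, ⟨4, 4, []⟩], [3, 1, 1], 1, [(6, 1), (68, 1)]⟩,
⟨1, [⟨2, 2, []⟩, ⟨4, 2, []⟩, ⟨0, 0, [(24, 3)]⟩, ⟨32, 3, []⟩, ⟨64, 5, []⟩], [3, 3, 3, 12, 12], 2, [(70, 1), (120, 1), (126, 2)]⟩,
⟨1, [⟨2, 3, []⟩, ⟨4, 3, []⟩, ⟨0, 0, [(80, 2)]⟩, ⟨32, 3, []⟩], [3, 3, 4, 4, 4, 8, 8], 2, [(38, 1), (86, 1), (112, 1), (118, 2)]⟩,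
⟨1, [⟨0, 0, [(10, 1)]⟩, ⟨0, 0, [(5, 1)]⟩, ⟨0, 0, [(48, 1)]⟩, ⟨64, 5, []⟩], [3, 3, 5, 5, 6, 6], 2, [(69, 1), (74, 1), (112, 1), (127, 2)]⟩,
⟨1, [⟨72, 4, []⟩, ⟨20, 4, []⟩, ⟨32, 4, []⟩], [7], 1, [(44, 1), (56, 1), (100, 1), (112, 1)]⟩,
⟨0, [⟨65, 3, []⟩, ⟨18, 3, []⟩], [3, 3], 1, [(3, 1), (17, 1), (66, 1), (80, 1)]⟩,
⟨1, [⟨72, 4, []⟩, ⟨2, 4, []⟩, ⟨4, 4, []⟩], [7], 1, [(14, 1), (70, 1)]⟩,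
⟨1, [⟨9, 2, []⟩, ⟨4, 4, []⟩], [3, 1, 1], 1, [(5, 1), (12, 1)]⟩,
⟨1, [⟨1, 2, []⟩, ⟨2, 2, []⟩, ⟨8, 3, []⟩, ⟨16, 3, []⟩, ⟨32, 3, []⟩], [3, 3, 3, 28, 28], 2, [(3, 1), (56, 1), (59, 2)]⟩,
⟨1, [⟨33, 4, []⟩, ⟨2, 4, []⟩, ⟨4, 4, []⟩], [7], 1, [(7, 1), (38, 1)]⟩,
⟨0, [⟨3, 3, []⟩, ⟨76, 3, []⟩], [3, 3], 1, [(5, 1), (6, 1), (9, 1), (10, 1), (65, 1), (66, 1)]⟩,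
⟨1, [⟨28, 5, []⟩, ⟨32, 3, []⟩, ⟨66, 5, []⟩], [2, 2], 1, [(38, 1), (42, 1), (50, 1), (100, 1), (104, 1), (112, 1)]⟩,
⟨1, [⟨8, 2, []⟩, ⟨64, 3, [(33, 1)]⟩], [3, 1, 1], 1, [(41, 1), (72, 1)]⟩,
⟨1, [⟨16, 2, []⟩, ⟨32, 2, []⟩, ⟨65, 3, []⟩, ⟨2, 3, []⟩, ⟨4, 3, []⟩], [3, 3, 3, 28, 28], 2, [(7, 1), (48, 1), (55, 2), (70, 1), (118, 2)]⟩,
⟨1, [⟨2, 2, []⟩, ⟨4, 2, []⟩, ⟨72, 3, []⟩, ⟨16, 3, []⟩, ⟨32, 3, []⟩], [3, 3, 3, 28, 28], 2, [(6, 1), (56, 1), (62, 2), (112, 1), (118, 2)]⟩,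
⟨0, [⟨18, 3, []⟩, ⟨37, 3, []⟩], [3, 3], 1, [(3, 1), (6, 1), (17, 1), (20, 1), (34, 1), (48, 1)]⟩,
⟨1, [⟨0, 0, [(96, 2)]⟩, ⟨24, 4, []⟩], [3, 1, 1], 1, [(104, 1), (112, 1)]⟩,
⟨0, [⟨8, 3, []⟩, ⟨16, 3, []⟩], [3, 3], 1, [(24, 1)]⟩,
⟨1, [⟨33, 4, []⟩, ⟨0, 0, [(12, 2)]⟩], [3, 2, 2], 1, [(13, 1), (44, 1)]⟩,
⟨0, [⟨3, 3, []⟩, ⟨12, 3, []⟩], [3, 3], 1, [(5, 1), (6, 1), (9, 1), (10, 1)]⟩,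
⟨0, [⟨33, 3, []⟩, ⟨64, 3, []⟩], [3, 3], 1, [(65, 1), (96, 1)]⟩,
⟨1, [⟨32, 2, []⟩, ⟨24, 4, []⟩, ⟨0, 0, [(5, 1)]⟩, ⟨64, 5, []⟩], [3, 1, 1, 4, 4, 4, 4], 2, [(69, 1), (104, 1), (109, 2), (112, 1), (117, 2)]⟩,
⟨1, [⟨17, 4, []⟩, ⟨36, 4, []⟩, ⟨64, 4, []⟩], [7], 1, [(69, 1), (84, 1), (97, 1), (112, 1)]⟩,
⟨1, [⟨65, 5, []⟩, ⟨2, 3, []⟩, ⟨20, 5, []⟩], [2, 2], 1, [(7, 1), (19, 1), (70, 1), (82, 1)]⟩,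
⟨1, [⟨9, 4, []⟩, ⟨20, 4, []⟩, ⟨32, 4, []⟩], [7], 1, [(37, 1), (44, 1), (49, 1), (56, 1)]⟩,
⟨0, [⟨0, 0, [(18, 2)]⟩, ⟨65, 4, []⟩, ⟨8, 2, []⟩, ⟨32, 2, []⟩], [3, 1, 1, 12, 12, 12], 2, [(19, 1), (40, 1), (59, 2), (82, 1), (122, 2)]⟩,
⟨1, [⟨2, 3, []⟩, ⟨4, 3, []⟩], [3, 3], 1, [(6, 1)]⟩,
⟨1, [⟨16, 2, []⟩, ⟨40, 4, []⟩, ⟨0, 0, [(3, 1)]⟩, ⟨64, 5, []⟩], [3, 1, 1, 4, 4, 4, 4], 2, [(67, 1), (88, 1), (91, 2), (112, 1), (115, 2)]⟩,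
⟨1, [⟨9, 3, []⟩, ⟨36, 5, []⟩, ⟨64, 5, []⟩], [1, 1], 1, [(69, 1), (76, 1), (97, 1), (104, 1)]⟩,
⟨0, [⟨2, 2, []⟩, ⟨4, 2, [(17, 2)]⟩, ⟨8, 2, []⟩, ⟨0, 0, [(17, 2)]⟩], [3, 1, 1, 12, 12, 12], 2, [(6, 1), (19, 1), (25, 1), (27, 2)]⟩,
⟨1, [⟨9, 4, []⟩, ⟨80, 4, []⟩, ⟨6, 4, []⟩], [7], 1, [(19, 1), (21, 1), (26, 1), (28, 1), (67, 1), (69, 1), (74, 1), (76, 1)]⟩,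
⟨0, [⟨3, 4, []⟩, ⟨8, 2, []⟩, ⟨0, 0, [(80, 2)]⟩, ⟨32, 2, []⟩], [5, 10, 10, 10, 4, 4], 2, [(40, 1), (81, 1), (82, 1), (121, 2), (122, 2)]⟩,
⟨0, [⟨1, 3, []⟩, ⟨64, 3, []⟩], [3, 3], 1, [(65, 1)]⟩,
⟨1, [⟨16, 2, [(3, 1)]⟩, ⟨64, 3, []⟩], [3, 3], 1, [(67, 1), (80, 1)]⟩,
⟨0, [⟨28, 3, []⟩, ⟨66, 3, []⟩], [3, 3], 1, [(6, 1), (10, 1), (18, 1), (68, 1), (72, 1), (80, 1)]⟩,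
⟨0, [⟨1, 2, []⟩, ⟨4, 2, []⟩, ⟨24, 4, []⟩, ⟨32, 2, []⟩], [3, 3, 3, 12, 8, 8], 2, [(5, 1), (40, 1), (45, 2), (48, 1), (53, 2)]⟩,
⟨0, [⟨17, 3, []⟩, ⟨100, 3, []⟩], [3, 3], 1, [(5, 1), (20, 1), (33, 1), (48, 1), (65, 1), (80, 1)]⟩,
⟨0, [⟨66, 4, []⟩, ⟨1, 2, []⟩, ⟨0, 0, [(24, 2)]⟩, ⟨32, 2, []⟩], [3, 10, 10, 12, 4, 4], 2, [(3, 1), (26, 1), (56, 1), (59, 2), (65, 1), (88, 1), (121, 2)]⟩,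
⟨0, [⟨12, 3, []⟩, ⟨81, 3, []⟩], [3, 3], 1, [(5, 1), (9, 1), (20, 1), (24, 1), (68, 1), (72, 1)]⟩,
⟨0, [⟨96, 3, []⟩, ⟨8, 3, []⟩], [3, 3], 1, [(40, 1), (72, 1)]⟩,
⟨1, [⟨19, 5, []⟩, ⟨4, 3, []⟩, ⟨64, 5, []⟩], [2, 2], 1, [(69, 1), (70, 1), (84, 1)]⟩,
⟨0, [⟨1, 2, []⟩, ⟨6, 4, []⟩, ⟨16, 2, []⟩, ⟨0, 0, [(12, 2)]⟩], [3, 1, 1, 12, 12, 12], 2, [(3, 1), (5, 1), (28, 1), (29, 2)]⟩,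
⟨1, [⟨5, 4, []⟩, ⟨2, 2, []⟩, ⟨16, 2, []⟩, ⟨32, 4, []⟩, ⟨64, 5, []⟩], [3, 2, 2, 12, 4, 4], 2, [(67, 1), (70, 1), (112, 1), (115, 2), (118, 2)]⟩,
⟨1, [⟨3, 3, []⟩, ⟨4, 3, []⟩, ⟨24, 3, []⟩, ⟨32, 3, []⟩, ⟨64, 4, []⟩], [3, 3, 12, 12, 16], 2, [(45, 1), (46, 1), (53, 1), (54, 1), (69, 1), (70, 1), (104, 1), (109, 2), (110, 2), (112, 1), (117, 2), (118, 2)]⟩,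
⟨1, [⟨3, 4, []⟩, ⟨4, 4, []⟩, ⟨8, 2, []⟩, ⟨32, 3, []⟩, ⟨64, 3, []⟩], [11, 12, 4, 4, 16, 16], 2, [(45, 1), (46, 1), (69, 1), (70, 1), (72, 1), (109, 2), (110, 2)]⟩,
⟨1, [⟨12, 5, []⟩, ⟨66, 5, []⟩, ⟨0, 0, [(48, 3)]⟩], [4, 4], 1, [(54, 1), (58, 1), (116, 1), (120, 1)]⟩,
⟨1, [⟨68, 4, []⟩, ⟨16, 4, []⟩, ⟨32, 4, []⟩], [7], 1, [(52, 1), (112, 1)]⟩,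
⟨1, [⟨0, 0, [(6, 2)]⟩, ⟨64, 4, []⟩], [3, 1, 1], 1, [(70, 1)]⟩,
⟨1, [⟨9, 4, []⟩, ⟨0, 0, [(18, 2)]⟩], [3, 2, 2], 1, [(19, 1), (26, 1)]⟩,
⟨0, [⟨1, 4, []⟩, ⟨2, 2, []⟩, ⟨8, 2, []⟩, ⟨32, 2, []⟩], [3, 2, 2, 12, 12, 12], 2, [(3, 1), (40, 1), (43, 2)]⟩,
⟨0, [⟨32, 2, []⟩, ⟨16, 2, [(9, 2)]⟩, ⟨2, 2, []⟩, ⟨0, 0, [(9, 2)]⟩], [3, 1, 1, 12, 12, 12], 2, [(11, 1), (41, 1), (43, 2), (48, 1)]⟩,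
⟨1, [⟨72, 4, []⟩, ⟨3, 4, []⟩, ⟨4, 4, []⟩], [7], 1, [(13, 1), (14, 1), (69, 1), (70, 1)]⟩,
⟨0, [⟨28, 3, []⟩, ⟨3, 3, []⟩], [3, 3], 1, [(5, 1), (6, 1), (9, 1), (10, 1), (17, 1), (18, 1)]⟩,
⟨1, [⟨66, 4, []⟩, ⟨0, 0, [(36, 2)]⟩], [3, 2, 2], 1, [(38, 1), (100, 1)]⟩,
⟨1, [⟨18, 3, []⟩, ⟨36, 5, []⟩, ⟨64, 5, []⟩], [1, 1], 1, [(70, 1), (84, 1), (98, 1), (112, 1)]⟩,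
⟨1, [⟨8, 2, []⟩, ⟨32, 4, []⟩, ⟨2, 3, []⟩, ⟨4, 3, []⟩, ⟨64, 3, []⟩], [3, 5, 5, 24, 24], 2, [(42, 1), (70, 1), (100, 1), (110, 2)]⟩,
⟨1, [⟨2, 3, []⟩, ⟨4, 3, []⟩, ⟨8, 2, []⟩, ⟨16, 2, []⟩, ⟨64, 3, []⟩], [19, 19, 12, 12, 12], 2, [(24, 1), (70, 1), (94, 2)]⟩,
⟨1, [⟨66, 5, []⟩, ⟨24, 5, []⟩, ⟨32, 3, []⟩], [4, 4], 1, [(42, 1), (50, 1), (104, 1), (112, 1)]⟩,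
⟨1, [⟨32, 4, []⟩, ⟨2, 2, []⟩], [3, 2, 2], 1, [(34, 1)]⟩,
⟨1, [⟨48, 3, []⟩, ⟨12, 5, []⟩, ⟨65, 5, []⟩], [1, 1], 1, [(21, 1), (25, 1), (37, 1), (41, 1), (84, 1), (88, 1), (100, 1), (104, 1)]⟩,
⟨1, [⟨2, 2, []⟩, ⟨9, 3, []⟩, ⟨4, 3, []⟩, ⟨16, 2, []⟩, ⟨0, 0, [(96, 3)]⟩], [7, 7, 9, 24, 24], 2, [(7, 1), (14, 1), (101, 1), (108, 1), (112, 1), (119, 2), (126, 2)]⟩,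
⟨1, [⟨2, 3, []⟩, ⟨4, 3, []⟩, ⟨48, 4, []⟩, ⟨8, 2, []⟩, ⟨64, 3, []⟩], [3, 3, 12, 24, 24], 2, [(22, 1), (38, 1), (70, 1), (88, 1), (94, 2), (104, 1), (110, 2)]⟩,
⟨1, [⟨10, 4, []⟩, ⟨4, 4, []⟩, ⟨64, 3, [(3, 1)]⟩], [7], 1, [(7, 1), (70, 1), (76, 1)]⟩,
⟨1, [⟨24, 4, []⟩, ⟨32, 4, []⟩, ⟨2, 2, []⟩, ⟨5, 3, []⟩, ⟨64, 3, []⟩], [11, 12, 4, 4, 16, 16], 2, [(43, 1), (46, 1), (51, 1), (54, 1), (66, 1), (104, 1), (107, 2), (110, 2), (112, 1), (115, 2), (118, 2)]⟩,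
⟨1, [⟨4, 3, []⟩, ⟨3, 3, []⟩], [3, 3], 1, [(5, 1), (6, 1)]⟩,
⟨1, [⟨24, 4, []⟩, ⟨32, 4, []⟩, ⟨0, 0, [(5, 1)]⟩, ⟨64, 3, []⟩], [3, 4, 4, 4, 4, 8, 8], 2, [(45, 1), (53, 1), (69, 1), (104, 1), (109, 2), (112, 1), (117, 2)]⟩,
⟨1, [⟨33, 4, []⟩, ⟨10, 4, []⟩, ⟨64, 4, []⟩], [7], 1, [(67, 1), (73, 1), (98, 1), (104, 1)]⟩,
⟨1, [⟨20, 4, []⟩, ⟨32, 4, []⟩, ⟨64, 4, []⟩], [7], 1, [(100, 1), (112, 1)]⟩,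
⟨0, [⟨1, 3, []⟩, ⟨10, 3, []⟩], [3, 3], 1, [(3, 1), (9, 1)]⟩,
⟨0, [⟨16, 2, [(5, 1)]⟩, ⟨64, 3, []⟩], [3, 3], 1, [(69, 1), (80, 1)]⟩,
⟨1, [⟨20, 4, []⟩, ⟨32, 4, []⟩, ⟨64, 3, [(9, 1)]⟩], [7], 1, [(45, 1), (57, 1), (100, 1), (112, 1)]⟩,
⟨1, [⟨80, 5, []⟩, ⟨32, 3, []⟩, ⟨12, 5, []⟩], [2, 2], 1, [(52, 1), (56, 1), (100, 1), (104, 1)]⟩,
⟨1, [⟨4, 2, []⟩, ⟨8, 3, []⟩, ⟨16, 3, []⟩, ⟨32, 3, []⟩, ⟨64, 2, []⟩], [17, 17, 17, 14, 14], 2, [(56, 1), (68, 1), (124, 2)]⟩,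
⟨1, [⟨10, 4, []⟩, ⟨0, 0, [(20, 2)]⟩], [3, 2, 2], 1, [(22, 1), (28, 1)]⟩,
⟨1, [⟨0, 0, [(68, 2)]⟩, ⟨3, 4, []⟩], [3, 1, 1], 1, [(69, 1), (70, 1)]⟩,
⟨1, [⟨8, 2, []⟩, ⟨16, 2, []⟩, ⟨0, 0, [(33, 2)]⟩, ⟨4, 2, []⟩], [3, 3, 3, 12, 12, 12], 2, [(24, 1), (37, 1), (61, 2)]⟩,
⟨1, [⟨2, 2, []⟩, ⟨33, 3, []⟩, ⟨4, 3, []⟩, ⟨16, 2, []⟩, ⟨64, 3, []⟩], [7, 7, 9, 24, 24], 2, [(7, 1), (38, 1), (69, 1), (80, 1), (87, 2), (100, 1), (118, 2)]⟩,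
⟨0, [⟨9, 3, []⟩, ⟨82, 3, []⟩], [3, 3], 1, [(3, 1), (10, 1), (17, 1), (24, 1), (65, 1), (72, 1)]⟩,
⟨1, [⟨1, 2, []⟩, ⟨4, 2, []⟩, ⟨0, 0, [(24, 2)]⟩, ⟨32, 2, []⟩], [3, 3, 3, 12, 12, 12], 2, [(5, 1), (56, 1), (61, 2)]⟩,
⟨1, [⟨12, 4, []⟩, ⟨65, 4, []⟩, ⟨48, 4, []⟩], [7], 1, [(21, 1), (25, 1), (37, 1), (41, 1), (84, 1), (88, 1), (100, 1), (104, 1)]⟩,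
⟨1, [⟨80, 5, []⟩, ⟨5, 5, []⟩, ⟨2, 3, []⟩], [4, 4], 1, [(19, 1), (22, 1), (67, 1), (70, 1)]⟩,
⟨1, [⟨8, 2, []⟩, ⟨17, 3, []⟩, ⟨32, 3, []⟩, ⟨4, 2, []⟩, ⟨64, 3, []⟩], [7, 7, 9, 24, 24], 2, [(41, 1), (56, 1), (68, 1), (97, 1), (109, 2), (112, 1), (124, 2)]⟩,
⟨0, [⟨1, 2, []⟩, ⟨10, 4, []⟩, ⟨64, 2, []⟩, ⟨0, 0, [(18, 2)]⟩], [3, 1, 1, 12, 12, 12], 2, [(3, 1), (9, 1), (82, 1), (83, 2)]⟩,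
⟨1, [⟨0, 0, [(48, 2)]⟩, ⟨64, 4, []⟩], [3, 1, 1], 1, [(112, 1)]⟩,
⟨1, [⟨3, 3, []⟩, ⟨64, 3, []⟩], [3, 3], 1, [(65, 1), (66, 1)]⟩,
⟨1, [⟨34, 5, []⟩, ⟨4, 3, []⟩, ⟨64, 5, []⟩], [2, 2], 1, [(70, 1), (100, 1)]⟩,
⟨1, [⟨96, 5, []⟩, ⟨3, 5, []⟩, ⟨4, 3, []⟩], [4, 4], 1, [(37, 1), (38, 1), (69, 1), (70, 1)]⟩,
⟨1, [⟨16, 2, []⟩, ⟨32, 2, []⟩, ⟨0, 0, [(5, 2)]⟩, ⟨2, 2, []⟩], [3, 3, 3, 12, 12, 12], 2, [(7, 1), (48, 1), (55, 2)]⟩,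
⟨1, [⟨17, 4, []⟩, ⟨32, 4, []⟩, ⟨64, 3, [(12, 1)]⟩], [7], 1, [(45, 1), (60, 1), (97, 1), (112, 1)]⟩,
⟨1, [⟨8, 2, []⟩, ⟨32, 3, []⟩, ⟨3, 3, []⟩, ⟨4, 3, []⟩, ⟨64, 4, []⟩], [3, 3, 17, 12, 12], 2, [(37, 1), (38, 1), (69, 1), (70, 1), (104, 1), (109, 2), (110, 2)]⟩,
⟨1, [⟨16, 2, []⟩, ⟨32, 2, []⟩, ⟨0, 0, [(3, 2)]⟩, ⟨4, 2, []⟩], [3, 3, 3, 12, 12, 12], 2, [(7, 1), (48, 1), (55, 2)]⟩,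
⟨0, [⟨0, 0, [(33, 2)]⟩, ⟨8, 2, []⟩, ⟨16, 2, []⟩, ⟨70, 4, []⟩], [9, 1, 1, 6, 6, 6], 2, [(24, 1), (35, 1), (37, 1), (59, 2), (61, 2), (97, 1), (121, 2)]⟩,
⟨0, [⟨72, 3, []⟩, ⟨33, 3, []⟩], [3, 3], 1, [(9, 1), (40, 1), (65, 1), (96, 1)]⟩,
⟨1, [⟨24, 4, []⟩, ⟨32, 4, []⟩, ⟨4, 2, []⟩, ⟨3, 3, []⟩, ⟨64, 3, []⟩], [11, 12, 4, 4, 16, 16], 2, [(45, 1), (46, 1), (53, 1), (54, 1), (68, 1), (104, 1), (109, 2), (110, 2), (112, 1), (117, 2), (118, 2)]⟩,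
⟨1, [⟨6, 4, []⟩, ⟨33, 4, []⟩, ⟨64, 4, []⟩], [7], 1, [(67, 1), (69, 1), (98, 1), (100, 1)]⟩,
⟨0, [⟨0, 0, [(17, 2)]⟩, ⟨2, 2, []⟩, ⟨4, 2, []⟩, ⟨104, 4, []⟩], [9, 1, 1, 6, 6, 6], 2, [(6, 1), (25, 1), (31, 2), (49, 1), (55, 2), (81, 1), (87, 2)]⟩,
⟨0, [⟨8, 3, []⟩, ⟨48, 3, []⟩], [3, 3], 1, [(24, 1), (40, 1)]⟩,
⟨0, [⟨72, 3, []⟩, ⟨34, 3, []⟩], [3, 3], 1, [(10, 1), (40, 1), (66, 1), (96, 1)]⟩,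
⟨1, [⟨2, 2, []⟩, ⟨4, 4, []⟩, ⟨16, 3, []⟩, ⟨32, 3, []⟩, ⟨64, 3, []⟩], [3, 17, 17, 12, 12], 2, [(52, 1), (70, 1), (112, 1), (118, 2)]⟩,
⟨1, [⟨16, 3, []⟩, ⟨32, 3, []⟩, ⟨6, 4, []⟩, ⟨1, 2, []⟩, ⟨64, 3, []⟩], [3, 3, 12, 24, 24], 2, [(50, 1), (52, 1), (67, 1), (69, 1), (112, 1), (115, 2), (117, 2)]⟩,
⟨0, [⟨1, 3, []⟩, ⟨8, 3, []⟩], [3, 3], 1, [(9, 1)]⟩,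
⟨1, [⟨3, 4, []⟩, ⟨12, 4, []⟩, ⟨64, 4, []⟩], [7], 1, [(69, 1), (70, 1), (73, 1), (74, 1)]⟩,
⟨1, [⟨41, 5, []⟩, ⟨6, 5, []⟩, ⟨64, 3, []⟩], [4, 4], 1, [(67, 1), (69, 1), (74, 1), (76, 1), (98, 1), (100, 1)]⟩,
⟨0, [⟨68, 3, []⟩, ⟨17, 3, []⟩], [3, 3], 1, [(5, 1), (20, 1), (65, 1), (80, 1)]⟩,
⟨1, [⟨1, 2, []⟩, ⟨4, 4, []⟩], [3, 1, 1], 1, [(5, 1)]⟩,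
⟨1, [⟨18, 4, []⟩, ⟨12, 4, []⟩, ⟨64, 4, []⟩], [7], 1, [(70, 1), (74, 1), (84, 1), (88, 1)]⟩,
⟨1, [⟨1, 1, [(40, 1)]⟩, ⟨4, 4, []⟩], [3, 1, 1], 1, [(5, 1), (44, 1)]⟩,
⟨0, [⟨1, 3, []⟩, ⟨84, 3, []⟩], [3, 3], 1, [(5, 1), (17, 1), (65, 1)]⟩,
⟨1, [⟨0, 0, [(5, 1)]⟩, ⟨8, 2, []⟩, ⟨32, 4, []⟩, ⟨64, 5, []⟩], [1, 1, 1, 1, 6, 2, 2], 2, [(69, 1), (104, 1), (109, 2)]⟩,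
⟨1, [⟨16, 2, []⟩, ⟨96, 4, []⟩], [3, 1, 1], 1, [(48, 1), (80, 1)]⟩,
⟨1, [⟨4, 2, []⟩, ⟨65, 4, []⟩], [3, 1, 1], 1, [(5, 1), (68, 1)]⟩,
⟨1, [⟨3, 4, []⟩, ⟨4, 4, []⟩, ⟨16, 2, []⟩, ⟨40, 3, []⟩, ⟨64, 3, []⟩], [11, 12, 4, 4, 16, 16], 2, [(29, 1), (30, 1), (53, 1), (54, 1), (69, 1), (70, 1), (80, 1), (93, 2), (94, 2), (117, 2), (118, 2)]⟩,
⟨1, [⟨9, 4, []⟩, ⟨36, 4, []⟩, ⟨64, 4, []⟩], [7], 1, [(69, 1), (76, 1), (97, 1), (104, 1)]⟩,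
⟨1, [⟨12, 4, []⟩, ⟨0, 0, [(33, 2)]⟩], [3, 2, 2], 1, [(37, 1), (41, 1)]⟩,
⟨1, [⟨72, 4, []⟩, ⟨0, 0, [(20, 2)]⟩], [3, 2, 2], 1, [(28, 1), (84, 1)]⟩,
⟨1, [⟨2, 2, []⟩, ⟨4, 4, []⟩, ⟨16, 2, []⟩, ⟨32, 4, []⟩, ⟨64, 5, []⟩], [3, 1, 1, 12, 4, 4], 2, [(70, 1), (112, 1), (118, 2)]⟩,
⟨0, [⟨8, 2, []⟩, ⟨48, 4, []⟩, ⟨0, 0, [(18, 2)]⟩, ⟨0, 0, [(33, 2)]⟩], [3, 1, 1, 12, 12, 12], 2, [(24, 1), (40, 1), (51, 1), (59, 2)]⟩,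
⟨1, [⟨66, 4, []⟩, ⟨32, 2, []⟩], [3, 2, 2], 1, [(34, 1), (96, 1)]⟩,
⟨0, [⟨0, 0, [(18, 2)]⟩, ⟨72, 4, []⟩, ⟨1, 2, []⟩, ⟨4, 2, []⟩], [3, 1, 1, 12, 12, 12], 2, [(5, 1), (26, 1), (31, 2), (82, 1), (87, 2)]⟩,
⟨1, [⟨80, 4, []⟩, ⟨12, 4, []⟩, ⟨32, 4, []⟩], [7], 1, [(52, 1), (56, 1), (100, 1), (104, 1)]⟩,
⟨1, [⟨1, 2, []⟩, ⟨2, 2, []⟩, ⟨0, 0, [(20, 2)]⟩, ⟨32, 2, []⟩], [3, 3, 3, 12, 12, 12], 2, [(3, 1), (52, 1), (55, 2)]⟩,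
⟨1, [⟨16, 2, []⟩, ⟨32, 3, [(6, 1)]⟩], [3, 1, 1], 1, [(22, 1), (48, 1)]⟩,
⟨1, [⟨0, 0, [(24, 2)]⟩, ⟨32, 4, []⟩], [3, 1, 1], 1, [(56, 1)]⟩,
⟨1, [⟨8, 2, [(5, 1)]⟩, ⟨32, 3, []⟩], [3, 3], 1, [(37, 1), (40, 1)]⟩,
⟨0, [⟨8, 2, []⟩, ⟨16, 2, [(33, 2)]⟩, ⟨2, 2, []⟩, ⟨0, 0, [(33, 2)]⟩], [3, 1, 1, 12, 12, 12], 2, [(24, 1), (35, 1), (41, 1), (43, 2)]⟩,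
⟨0, [⟨80, 3, []⟩, ⟨12, 3, []⟩], [3, 3], 1, [(20, 1), (24, 1), (68, 1), (72, 1)]⟩,
⟨1, [⟨8, 2, []⟩, ⟨16, 2, []⟩, ⟨0, 0, [(33, 2)]⟩, ⟨2, 2, []⟩], [3, 3, 3, 12, 12, 12], 2, [(24, 1), (35, 1), (59, 2)]⟩,
⟨0, [⟨1, 3, []⟩, ⟨68, 2, [(24, 1)]⟩], [3, 3], 1, [(5, 1), (25, 1), (65, 1)]⟩,
⟨1, [⟨17, 4, []⟩, ⟨32, 4, []⟩, ⟨64, 4, []⟩], [7], 1, [(97, 1), (112, 1)]⟩,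
⟨0, [⟨0, 0, [(9, 2)]⟩, ⟨80, 4, []⟩, ⟨2, 2, []⟩, ⟨4, 2, []⟩], [3, 1, 1, 12, 12, 12], 2, [(6, 1), (25, 1), (31, 2), (73, 1), (79, 2)]⟩,
⟨0, [⟨2, 2, []⟩, ⟨9, 4, []⟩, ⟨64, 2, []⟩, ⟨0, 0, [(17, 2)]⟩], [3, 1, 1, 12, 12, 12], 2, [(3, 1), (10, 1), (81, 1), (83, 2)]⟩,
⟨1, [⟨0, 0, [(33, 1)]⟩, ⟨0, 0, [(10, 1)]⟩, ⟨0, 0, [(20, 1)]⟩, ⟨64, 5, []⟩], [3, 3, 5, 5, 6, 6], 2, [(74, 1), (84, 1), (97, 1), (127, 2)]⟩,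
⟨1, [⟨72, 5, []⟩, ⟨16, 3, []⟩, ⟨34, 5, []⟩], [2, 2], 1, [(26, 1), (56, 1), (82, 1), (112, 1)]⟩,
⟨0, [⟨40, 3, []⟩, ⟨80, 3, []⟩], [3, 3], 1, [(24, 1), (48, 1), (72, 1), (96, 1)]⟩,
⟨0, [⟨1, 3, []⟩, ⟨68, 2, [(48, 1)]⟩], [3, 3], 1, [(5, 1), (49, 1), (65, 1)]⟩,
⟨1, [⟨4, 2, []⟩, ⟨3, 4, []⟩, ⟨0, 0, [(24, 1)]⟩, ⟨64, 5, []⟩], [3, 1, 1, 4, 4, 4, 4], 2, [(69, 1), (70, 1), (88, 1), (93, 2), (94, 2)]⟩,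
⟨0, [⟨0, 0, [(33, 2)]⟩, ⟨2, 2, []⟩, ⟨4, 2, []⟩, ⟨88, 4, []⟩], [9, 1, 1, 6, 6, 6], 2, [(6, 1), (41, 1), (47, 2), (49, 1), (55, 2), (97, 1), (103, 2)]⟩,
⟨0, [⟨8, 2, []⟩, ⟨16, 2, []⟩, ⟨3, 4, []⟩, ⟨64, 2, []⟩], [3, 3, 3, 12, 8, 8], 2, [(24, 1), (65, 1), (66, 1), (89, 2), (90, 2)]⟩,
⟨1, [⟨1, 2, []⟩, ⟨34, 3, []⟩, ⟨4, 3, []⟩, ⟨16, 2, []⟩, ⟨64, 3, []⟩], [7, 7, 9, 24, 24], 2, [(7, 1), (37, 1), (70, 1), (80, 1), (87, 2), (100, 1), (117, 2)]⟩,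
⟨1, [⟨4, 4, []⟩, ⟨32, 2, []⟩], [3, 2, 2], 1, [(36, 1)]⟩,
⟨0, [⟨9, 3, []⟩, ⟨64, 3, []⟩], [3, 3], 1, [(65, 1), (72, 1)]⟩,
⟨1, [⟨2, 2, []⟩, ⟨64, 3, [(20, 1)]⟩], [3, 1, 1], 1, [(22, 1), (66, 1)]⟩,
⟨1, [⟨18, 4, []⟩, ⟨12, 4, []⟩, ⟨32, 4, []⟩], [7], 1, [(38, 1), (42, 1), (52, 1), (56, 1)]⟩,
⟨1, [⟨17, 4, []⟩, ⟨32, 4, []⟩, ⟨68, 4, []⟩], [7], 1, [(37, 1), (52, 1), (97, 1), (112, 1)]⟩,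
⟨1, [⟨65, 4, []⟩, ⟨2, 4, []⟩, ⟨4, 4, []⟩], [7], 1, [(7, 1), (70, 1)]⟩,
⟨1, [⟨1, 2, []⟩, ⟨4, 2, []⟩, ⟨0, 0, [(10, 2)]⟩, ⟨16, 2, []⟩], [3, 3, 3, 12, 12, 12], 2, [(5, 1), (26, 1), (31, 2)]⟩,
⟨1, [⟨6, 4, []⟩, ⟨16, 4, []⟩, ⟨32, 4, []⟩], [7], 1, [(50, 1), (52, 1)]⟩,
⟨0, [⟨9, 3, []⟩, ⟨98, 3, []⟩], [3, 3], 1, [(3, 1), (10, 1), (33, 1), (40, 1), (65, 1), (72, 1)]⟩,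
⟨1, [⟨4, 3, []⟩, ⟨1, 2, [(80, 1)]⟩], [3, 3], 1, [(5, 1), (84, 1)]⟩,
⟨1, [⟨80, 4, []⟩, ⟨2, 4, []⟩, ⟨4, 4, []⟩], [7], 1, [(22, 1), (70, 1)]⟩,
⟨1, [⟨1, 2, []⟩, ⟨66, 4, []⟩], [3, 1, 1], 1, [(3, 1), (65, 1)]⟩,
⟨1, [⟨32, 4, []⟩, ⟨0, 0, [(10, 1), (24, 1)]⟩], [3, 2, 2], 1, [(42, 1), (56, 1)]⟩,
⟨1, [⟨16, 3, []⟩, ⟨32, 3, []⟩, ⟨3, 3, []⟩, ⟨4, 3, []⟩, ⟨64, 4, []⟩], [3, 3, 12, 12, 16], 2, [(53, 1), (54, 1), (69, 1), (70, 1), (112, 1), (117, 2), (118, 2)]⟩,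
⟨1, [⟨10, 4, []⟩, ⟨32, 4, []⟩, ⟨64, 3, [(24, 1)]⟩], [7], 1, [(56, 1), (98, 1), (104, 1)]⟩,
⟨0, [⟨12, 3, []⟩, ⟨64, 3, []⟩], [3, 3], 1, [(68, 1), (72, 1)]⟩,
⟨1, [⟨17, 4, []⟩, ⟨12, 4, []⟩, ⟨32, 4, []⟩], [7], 1, [(37, 1), (41, 1), (52, 1), (56, 1)]⟩,
⟨1, [⟨1, 1, [(24, 1)]⟩, ⟨64, 4, []⟩], [3, 1, 1], 1, [(65, 1), (88, 1)]⟩,
⟨1, [⟨12, 4, []⟩, ⟨0, 0, [(34, 2)]⟩], [3, 2, 2], 1, [(38, 1), (42, 1)]⟩,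
⟨0, [⟨0, 0, [(9, 2)]⟩, ⟨2, 2, []⟩, ⟨4, 2, []⟩, ⟨112, 4, []⟩], [9, 1, 1, 6, 6, 6], 2, [(6, 1), (25, 1), (31, 2), (41, 1), (47, 2), (73, 1), (79, 2)]⟩,
⟨1, [⟨24, 4, []⟩, ⟨32, 4, []⟩, ⟨0, 0, [(3, 1)]⟩, ⟨0, 0, [(68, 3)]⟩], [3, 4, 4, 4, 4, 8, 8], 2, [(43, 1), (51, 1), (71, 1), (108, 1), (111, 2), (116, 1), (119, 2)]⟩,
⟨1, [⟨16, 2, []⟩, ⟨40, 3, []⟩, ⟨2, 3, []⟩, ⟨4, 3, []⟩, ⟨64, 4, []⟩], [3, 3, 17, 12, 12], 2, [(14, 1), (38, 1), (70, 1), (88, 1), (94, 2), (112, 1), (118, 2)]⟩,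
⟨1, [⟨8, 2, []⟩, ⟨16, 3, []⟩, ⟨32, 3, []⟩, ⟨4, 2, []⟩, ⟨64, 3, []⟩], [7, 7, 9, 24, 24], 2, [(56, 1), (68, 1), (112, 1), (124, 2)]⟩,
⟨1, [⟨1, 2, []⟩, ⟨68, 4, []⟩], [3, 1, 1], 1, [(5, 1), (65, 1)]⟩,
⟨1, [⟨24, 4, []⟩, ⟨32, 4, []⟩, ⟨1, 2, []⟩, ⟨6, 3, []⟩, ⟨64, 3, []⟩], [11, 12, 4, 4, 16, 16], 2, [(43, 1), (45, 1), (51, 1), (53, 1), (65, 1), (104, 1), (107, 2), (109, 2), (112, 1), (115, 2), (117, 2)]⟩,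
⟨1, [⟨4, 2, []⟩, ⟨3, 4, []⟩, ⟨0, 0, [(40, 1)]⟩, ⟨64, 5, []⟩], [3, 1, 1, 4, 4, 4, 4], 2, [(69, 1), (70, 1), (104, 1), (109, 2), (110, 2)]⟩,
⟨0, [⟨10, 3, []⟩, ⟨64, 3, []⟩], [3, 3], 1, [(66, 1), (72, 1)]⟩,
⟨1, [⟨8, 2, []⟩, ⟨16, 2, []⟩, ⟨0, 0, [(34, 2)]⟩, ⟨1, 2, []⟩], [3, 3, 3, 12, 12, 12], 2, [(24, 1), (35, 1), (59, 2)]⟩,
⟨1, [⟨72, 5, []⟩, ⟨16, 3, []⟩, ⟨33, 5, []⟩], [2, 2], 1, [(25, 1), (56, 1), (81, 1), (112, 1)]⟩,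
⟨1, [⟨16, 3, []⟩, ⟨32, 3, []⟩, ⟨2, 4, []⟩, ⟨4, 4, []⟩, ⟨64, 3, []⟩], [3, 3, 12, 16, 16], 2, [(54, 1), (70, 1), (112, 1), (118, 2)]⟩,
⟨1, [⟨1, 1, [(40, 1)]⟩, ⟨64, 4, []⟩], [3, 1, 1], 1, [(65, 1), (104, 1)]⟩,
⟨0, [⟨17, 3, []⟩, ⟨64, 3, []⟩], [3, 3], 1, [(65, 1), (80, 1)]⟩,
⟨1, [⟨17, 4, []⟩, ⟨2, 4, []⟩, ⟨4, 4, []⟩], [7], 1, [(7, 1), (22, 1)]⟩,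
⟨1, [⟨1, 2, []⟩, ⟨4, 2, []⟩, ⟨24, 3, []⟩, ⟨32, 3, []⟩, ⟨64, 3, []⟩], [3, 3, 3, 28, 28], 2, [(5, 1), (104, 1), (109, 2), (112, 1), (117, 2)]⟩,
⟨0, [⟨40, 3, []⟩, ⟨64, 3, []⟩], [3, 3], 1, [(72, 1), (96, 1)]⟩,
⟨0, [⟨1, 3, []⟩, ⟨34, 3, []⟩], [3, 3], 1, [(3, 1), (33, 1)]⟩,
⟨0, [⟨2, 3, []⟩, ⟨4, 3, []⟩], [3, 3], 1, [(6, 1)]⟩,
⟨1, [⟨4, 4, []⟩, ⟨64, 2, []⟩], [3, 2, 2], 1, [(68, 1)]⟩,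
⟨1, [⟨2, 3, []⟩, ⟨4, 3, []⟩, ⟨24, 4, []⟩, ⟨32, 2, []⟩, ⟨64, 3, []⟩], [3, 3, 12, 24, 24], 2, [(14, 1), (22, 1), (70, 1), (104, 1), (110, 2), (112, 1), (118, 2)]⟩,
⟨1, [⟨2, 2, []⟩, ⟨4, 2, []⟩, ⟨8, 3, []⟩, ⟨16, 3, []⟩, ⟨32, 3, []⟩], [3, 3, 3, 28, 28], 2, [(6, 1), (56, 1), (62, 2)]⟩,
⟨1, [⟨33, 5, []⟩, ⟨12, 5, []⟩, ⟨64, 3, []⟩], [4, 4], 1, [(69, 1), (73, 1), (100, 1), (104, 1)]⟩,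
⟨0, [⟨0, 0, [(12, 2)]⟩, ⟨1, 2, []⟩, ⟨2, 2, []⟩, ⟨112, 4, []⟩], [9, 1, 1, 6, 6, 6], 2, [(3, 1), (28, 1), (31, 2), (44, 1), (47, 2), (76, 1), (79, 2)]⟩,
⟨0, [⟨1, 3, []⟩, ⟨2, 2, [(80, 1)]⟩], [3, 3], 1, [(3, 1), (81, 1)]⟩,
⟨0, [⟨16, 2, []⟩, ⟨40, 4, []⟩, ⟨0, 0, [(10, 2)]⟩, ⟨0, 0, [(33, 2)]⟩], [3, 1, 1, 12, 12, 12], 2, [(24, 1), (43, 1), (48, 1), (59, 2)]⟩,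
⟨1, [⟨9, 4, []⟩, ⟨0, 0, [(20, 2)]⟩], [3, 2, 2], 1, [(21, 1), (28, 1)]⟩,
⟨1, [⟨1, 2, [(40, 1)]⟩, ⟨4, 3, []⟩], [3, 3], 1, [(5, 1), (44, 1)]⟩,
⟨1, [⟨0, 0, [(24, 2)]⟩, ⟨68, 4, []⟩], [3, 1, 1], 1, [(28, 1), (88, 1)]⟩,
⟨1, [⟨18, 4, []⟩, ⟨32, 4, []⟩, ⟨65, 4, []⟩], [7], 1, [(35, 1), (49, 1), (98, 1), (112, 1)]⟩,
⟨0, [⟨0, 0, [(33, 2)]⟩, ⟨66, 4, []⟩, ⟨8, 2, []⟩, ⟨16, 2, []⟩], [3, 1, 1, 12, 12, 12], 2, [(24, 1), (35, 1), (59, 2), (97, 1), (121, 2)]⟩,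
⟨1, [⟨1, 2, []⟩, ⟨2, 2, []⟩, ⟨16, 3, []⟩, ⟨32, 3, []⟩, ⟨64, 5, []⟩], [3, 3, 3, 12, 12], 2, [(67, 1), (112, 1), (115, 2)]⟩,
⟨0, [⟨72, 3, []⟩, ⟨36, 3, []⟩], [3, 3], 1, [(12, 1), (40, 1), (68, 1), (96, 1)]⟩,
⟨1, [⟨16, 2, [(5, 1)]⟩, ⟨64, 3, []⟩], [3, 3], 1, [(69, 1), (80, 1)]⟩,
⟨0, [⟨20, 3, []⟩, ⟨73, 3, []⟩], [3, 3], 1, [(5, 1), (12, 1), (17, 1), (24, 1), (68, 1), (80, 1)]⟩,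
⟨1, [⟨1, 1, []⟩, ⟨16, 2, []⟩, ⟨32, 4, []⟩, ⟨64, 5, []⟩], [1, 1, 1, 1, 6, 2, 2], 2, [(65, 1), (112, 1), (113, 2)]⟩,
⟨1, [⟨8, 2, []⟩, ⟨32, 2, []⟩, ⟨65, 3, []⟩, ⟨2, 3, []⟩, ⟨4, 3, []⟩], [3, 3, 3, 28, 28], 2, [(7, 1), (40, 1), (47, 2), (70, 1), (110, 2)]⟩,
⟨1, [⟨28, 5, []⟩, ⟨34, 5, []⟩, ⟨64, 3, []⟩], [4, 4], 1, [(70, 1), (74, 1), (82, 1), (100, 1), (104, 1), (112, 1)]⟩,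
⟨0, [⟨1, 2, [(40, 1)]⟩, ⟨64, 3, []⟩], [3, 3], 1, [(65, 1), (104, 1)]⟩,
⟨1, [⟨0, 0, [(40, 1)]⟩, ⟨2, 2, []⟩, ⟨4, 4, []⟩, ⟨64, 5, []⟩], [1, 1, 1, 1, 6, 2, 2], 2, [(70, 1), (104, 1), (110, 2)]⟩,
⟨1, [⟨17, 4, []⟩, ⟨4, 4, []⟩, ⟨64, 3, [(34, 1)]⟩], [7], 1, [(39, 1), (54, 1), (69, 1), (84, 1)]⟩,
⟨1, [⟨9, 4, []⟩, ⟨0, 0, [(36, 2)]⟩], [3, 2, 2], 1, [(37, 1), (44, 1)]⟩,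
⟨1, [⟨73, 4, []⟩, ⟨16, 4, []⟩, ⟨32, 4, []⟩], [7], 1, [(49, 1), (56, 1), (112, 1)]⟩,
⟨1, [⟨4, 4, []⟩, ⟨48, 4, []⟩, ⟨72, 4, []⟩], [7], 1, [(28, 1), (44, 1), (84, 1), (100, 1)]⟩,
⟨0, [⟨72, 3, []⟩, ⟨17, 3, []⟩], [3, 3], 1, [(9, 1), (24, 1), (65, 1), (80, 1)]⟩,
⟨0, [⟨48, 3, []⟩, ⟨9, 3, []⟩], [3, 3], 1, [(17, 1), (24, 1), (33, 1), (40, 1)]⟩,
⟨1, [⟨9, 4, []⟩, ⟨32, 4, []⟩, ⟨64, 3, [(20, 1)]⟩], [7], 1, [(53, 1), (60, 1), (97, 1), (104, 1)]⟩,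
⟨0, [⟨96, 3, []⟩, ⟨18, 3, []⟩], [3, 3], 1, [(34, 1), (48, 1), (66, 1), (80, 1)]⟩,
⟨0, [⟨65, 3, []⟩, ⟨10, 3, []⟩], [3, 3], 1, [(3, 1), (9, 1), (66, 1), (72, 1)]⟩,
⟨1, [⟨1, 2, []⟩, ⟨4, 2, []⟩, ⟨0, 0, [(40, 2)]⟩, ⟨16, 2, []⟩], [3, 3, 3, 12, 12, 12], 2, [(5, 1), (56, 1), (61, 2)]⟩,
⟨1, [⟨2, 3, []⟩, ⟨4, 3, []⟩, ⟨8, 2, []⟩, ⟨32, 2, []⟩, ⟨64, 3, []⟩], [19, 19, 12, 12, 12], 2, [(40, 1), (70, 1), (110, 2)]⟩,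
⟨0, [⟨9, 3, []⟩, ⟨100, 3, []⟩], [3, 3], 1, [(5, 1), (12, 1), (33, 1), (40, 1), (65, 1), (72, 1)]⟩,
⟨0, [⟨32, 2, []⟩, ⟨16, 2, [(10, 2)]⟩, ⟨1, 2, []⟩, ⟨0, 0, [(10, 2)]⟩], [3, 1, 1, 12, 12, 12], 2, [(11, 1), (42, 1), (43, 2), (48, 1)]⟩,
⟨0, [⟨96, 3, []⟩, ⟨9, 3, []⟩], [3, 3], 1, [(33, 1), (40, 1), (65, 1), (72, 1)]⟩,
⟨1, [⟨4, 3, []⟩, ⟨64, 3, []⟩], [3, 3], 1, [(68, 1)]⟩,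
⟨0, [⟨6, 3, []⟩, ⟨73, 3, []⟩], [3, 3], 1, [(3, 1), (5, 1), (10, 1), (12, 1), (66, 1), (68, 1)]⟩,
⟨1, [⟨1, 2, []⟩, ⟨2, 3, []⟩, ⟨4, 3, []⟩, ⟨16, 2, []⟩, ⟨64, 3, []⟩], [7, 7, 9, 24, 24], 2, [(7, 1), (70, 1), (80, 1), (87, 2)]⟩,
⟨1, [⟨8, 2, []⟩, ⟨48, 4, []⟩, ⟨0, 0, [(3, 1)]⟩, ⟨64, 5, []⟩], [3, 1, 1, 4, 4, 4, 4], 2, [(67, 1), (88, 1), (91, 2), (104, 1), (107, 2)]⟩,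
⟨0, [⟨1, 3, []⟩, ⟨18, 3, []⟩], [3, 3], 1, [(3, 1), (17, 1)]⟩,
⟨1, [⟨66, 4, []⟩, ⟨9, 4, []⟩, ⟨4, 4, []⟩], [7], 1, [(7, 1), (14, 1), (69, 1), (76, 1)]⟩,
⟨1, [⟨72, 4, []⟩, ⟨0, 0, [(36, 2)]⟩], [3, 2, 2], 1, [(44, 1), (100, 1)]⟩,
⟨1, [⟨3, 4, []⟩, ⟨4, 4, []⟩, ⟨0, 0, [(40, 1)]⟩, ⟨64, 3, []⟩], [3, 4, 4, 4, 4, 8, 8], 2, [(45, 1), (46, 1), (69, 1), (70, 1), (104, 1), (109, 2), (110, 2)]⟩,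
⟨1, [⟨2, 2, []⟩, ⟨4, 4, []⟩, ⟨8, 3, []⟩, ⟨32, 3, []⟩, ⟨64, 3, []⟩], [3, 17, 17, 12, 12], 2, [(44, 1), (70, 1), (104, 1), (110, 2)]⟩,
⟨1, [⟨0, 0, [(3, 2)]⟩, ⟨4, 4, []⟩], [3, 1, 1], 1, [(7, 1)]⟩,
⟨1, [⟨33, 4, []⟩, ⟨18, 4, []⟩, ⟨64, 4, []⟩], [7], 1, [(67, 1), (81, 1), (98, 1), (112, 1)]⟩,
⟨0, [⟨9, 3, []⟩, ⟨22, 3, []⟩], [3, 3], 1, [(3, 1), (5, 1), (10, 1), (12, 1), (17, 1), (24, 1)]⟩,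
⟨0, [⟨16, 2, []⟩, ⟨72, 4, []⟩, ⟨1, 2, []⟩, ⟨2, 2, []⟩], [3, 1, 1, 12, 12, 12], 2, [(3, 1), (24, 1), (27, 2), (80, 1), (83, 2)]⟩,
⟨0, [⟨2, 2, [(24, 1)]⟩, ⟨1, 3, []⟩], [3, 3], 1, [(3, 1), (25, 1)]⟩,
⟨0, [⟨17, 3, []⟩, ⟨44, 3, []⟩], [3, 3], 1, [(5, 1), (9, 1), (20, 1), (24, 1), (33, 1), (48, 1)]⟩,
⟨0, [⟨17, 3, []⟩, ⟨74, 3, []⟩], [3, 3], 1, [(3, 1), (9, 1), (18, 1), (24, 1), (65, 1), (80, 1)]⟩,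
⟨1, [⟨5, 4, []⟩, ⟨34, 4, []⟩, ⟨64, 4, []⟩], [7], 1, [(67, 1), (70, 1), (97, 1), (100, 1)]⟩,
⟨0, [⟨1, 2, []⟩, ⟨4, 2, []⟩, ⟨40, 4, []⟩, ⟨16, 2, []⟩], [3, 3, 3, 12, 8, 8], 2, [(5, 1), (24, 1), (29, 2), (48, 1), (53, 2)]⟩,
⟨1, [⟨32, 2, []⟩, ⟨72, 4, []⟩], [3, 1, 1], 1, [(40, 1), (96, 1)]⟩,
⟨1, [⟨48, 4, []⟩, ⟨8, 2, []⟩, ⟨2, 2, []⟩, ⟨4, 4, []⟩, ⟨64, 5, []⟩], [3, 2, 2, 12, 4, 4], 2, [(70, 1), (88, 1), (94, 2), (104, 1), (110, 2)]⟩,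
⟨1, [⟨9, 4, []⟩, ⟨32, 4, []⟩, ⟨64, 4, []⟩], [7], 1, [(97, 1), (104, 1)]⟩,
⟨1, [⟨3, 4, []⟩, ⟨4, 4, []⟩, ⟨8, 2, []⟩, ⟨48, 3, []⟩, ⟨64, 3, []⟩], [11, 12, 4, 4, 16, 16], 2, [(29, 1), (30, 1), (45, 1), (46, 1), (69, 1), (70, 1), (72, 1), (93, 2), (94, 2), (109, 2), (110, 2)]⟩,
⟨0, [⟨2, 2, [(40, 1)]⟩, ⟨1, 3, []⟩], [3, 3], 1, [(3, 1), (41, 1)]⟩,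
⟨0, [⟨5, 3, []⟩, ⟨18, 3, []⟩], [3, 3], 1, [(3, 1), (6, 1), (17, 1), (20, 1)]⟩,
⟨1, [⟨5, 3, []⟩, ⟨64, 3, []⟩], [3, 3], 1, [(65, 1), (68, 1)]⟩,
⟨1, [⟨48, 4, []⟩, ⟨2, 4, []⟩, ⟨4, 4, []⟩], [7], 1, [(22, 1), (38, 1)]⟩,
⟨0, [⟨8, 3, []⟩, ⟨80, 2, [(6, 1)]⟩], [3, 3], 1, [(14, 1), (24, 1), (72, 1)]⟩,
⟨1, [⟨6, 4, []⟩, ⟨1, 2, []⟩], [3, 2, 2], 1, [(3, 1), (5, 1)]⟩,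
⟨0, [⟨32, 2, [(3, 1)]⟩, ⟨64, 3, []⟩], [3, 3], 1, [(67, 1), (96, 1)]⟩,
⟨1, [⟨3, 4, []⟩, ⟨4, 4, []⟩, ⟨64, 4, []⟩], [7], 1, [(69, 1), (70, 1)]⟩,
⟨0, [⟨0, 0, [(34, 2)]⟩, ⟨8, 2, []⟩, ⟨16, 2, []⟩, ⟨69, 4, []⟩], [9, 1, 1, 6, 6, 6], 2, [(24, 1), (35, 1), (38, 1), (59, 2), (62, 2), (98, 1), (122, 2)]⟩,
⟨1, [⟨3, 4, []⟩, ⟨4, 2, []⟩], [3, 2, 2], 1, [(5, 1), (6, 1)]⟩,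
⟨1, [⟨9, 4, []⟩, ⟨4, 4, []⟩, ⟨64, 4, []⟩], [7], 1, [(69, 1), (76, 1)]⟩,
⟨0, [⟨2, 2, []⟩, ⟨4, 2, []⟩, ⟨0, 0, [(65, 2)]⟩, ⟨56, 4, []⟩], [3, 3, 3, 12, 4, 4], 2, [(6, 1), (73, 1), (79, 2), (81, 1), (87, 2), (97, 1), (103, 2)]⟩,
⟨1, [⟨34, 4, []⟩, ⟨4, 4, []⟩, ⟨64, 4, []⟩], [7], 1, [(70, 1), (100, 1)]⟩,
⟨1, [⟨1, 2, [(24, 1)]⟩, ⟨64, 3, []⟩], [3, 3], 1, [(65, 1), (88, 1)]⟩,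
⟨1, [⟨96, 4, []⟩, ⟨2, 4, []⟩, ⟨4, 4, []⟩], [7], 1, [(38, 1), (70, 1)]⟩,
⟨0, [⟨24, 3, []⟩, ⟨96, 3, []⟩], [3, 3], 1, [(40, 1), (48, 1), (72, 1), (80, 1)]⟩,
⟨0, [⟨33, 3, []⟩, ⟨14, 3, []⟩], [3, 3], 1, [(3, 1), (5, 1), (9, 1), (34, 1), (36, 1), (40, 1)]⟩,
⟨0, [⟨1, 3, []⟩, ⟨28, 3, []⟩], [3, 3], 1, [(5, 1), (9, 1), (17, 1)]⟩,
⟨1, [⟨16, 3, []⟩, ⟨32, 3, []⟩, ⟨2, 2, []⟩, ⟨4, 2, []⟩, ⟨64, 3, []⟩], [19, 19, 12, 12, 12], 2, [(6, 1), (112, 1), (118, 2)]⟩,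
⟨1, [⟨12, 4, []⟩, ⟨0, 0, [(96, 2)]⟩], [3, 2, 2], 1, [(100, 1), (104, 1)]⟩,
⟨1, [⟨10, 5, []⟩, ⟨36, 5, []⟩, ⟨64, 3, []⟩], [4, 4], 1, [(70, 1), (76, 1), (98, 1), (104, 1)]⟩,
⟨1, [⟨2, 2, [(24, 1)]⟩, ⟨4, 3, []⟩], [3, 3], 1, [(6, 1), (28, 1)]⟩,
⟨1, [⟨0, 0, [(3, 2)]⟩, ⟨96, 4, []⟩], [3, 1, 1], 1, [(35, 1), (67, 1)]⟩,
⟨1, [⟨34, 4, []⟩, ⟨12, 4, []⟩, ⟨64, 4, []⟩], [7], 1, [(70, 1), (74, 1), (100, 1), (104, 1)]⟩,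
⟨1, [⟨72, 5, []⟩, ⟨32, 3, []⟩, ⟨18, 5, []⟩], [2, 2], 1, [(42, 1), (56, 1), (98, 1), (112, 1)]⟩,
⟨1, [⟨12, 4, []⟩, ⟨34, 4, []⟩, ⟨65, 4, []⟩], [7], 1, [(7, 1), (11, 1), (37, 1), (41, 1), (70, 1), (74, 1), (100, 1), (104, 1)]⟩,
⟨1, [⟨1, 2, []⟩, ⟨64, 3, [(12, 1)]⟩], [3, 1, 1], 1, [(13, 1), (65, 1)]⟩,
⟨1, [⟨68, 5, []⟩, ⟨24, 5, []⟩, ⟨32, 3, []⟩], [4, 4], 1, [(44, 1), (52, 1), (104, 1), (112, 1)]⟩,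
⟨1, [⟨2, 2, [(24, 1)]⟩, ⟨64, 3, []⟩], [3, 3], 1, [(66, 1), (88, 1)]⟩,
⟨1, [⟨33, 4, []⟩, ⟨4, 4, []⟩, ⟨64, 4, []⟩], [7], 1, [(69, 1), (100, 1)]⟩,
⟨1, [⟨34, 5, []⟩, ⟨5, 3, []⟩, ⟨64, 5, []⟩], [2, 2], 1, [(67, 1), (70, 1), (97, 1), (100, 1)]⟩,
⟨0, [⟨8, 2, [(3, 1)]⟩, ⟨64, 3, []⟩], [3, 3], 1, [(67, 1), (72, 1)]⟩,
⟨1, [⟨66, 5, []⟩, ⟨4, 3, []⟩, ⟨33, 5, []⟩], [2, 2], 1, [(7, 1), (38, 1), (69, 1), (100, 1)]⟩,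
⟨0, [⟨1, 2, [(24, 1)]⟩, ⟨64, 3, []⟩], [3, 3], 1, [(65, 1), (88, 1)]⟩,
⟨0, [⟨80, 3, []⟩, ⟨8, 3, []⟩], [3, 3], 1, [(24, 1), (72, 1)]⟩,
⟨1, [⟨9, 4, []⟩, ⟨20, 4, []⟩, ⟨64, 4, []⟩], [7], 1, [(69, 1), (76, 1), (81, 1), (88, 1)]⟩,
⟨1, [⟨1, 2, []⟩, ⟨6, 3, []⟩, ⟨16, 3, []⟩, ⟨32, 3, []⟩, ⟨64, 4, []⟩], [3, 3, 17, 12, 12], 2, [(50, 1), (52, 1), (67, 1), (69, 1), (112, 1), (115, 2), (117, 2)]⟩,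
⟨1, [⟨18, 4, []⟩, ⟨36, 4, []⟩, ⟨64, 4, []⟩], [7], 1, [(70, 1), (84, 1), (98, 1), (112, 1)]⟩,
⟨0, [⟨1, 3, []⟩, ⟨12, 3, []⟩], [3, 3], 1, [(5, 1), (9, 1)]⟩,
⟨1, [⟨8, 2, []⟩, ⟨80, 4, []⟩], [3, 1, 1], 1, [(24, 1), (72, 1)]⟩,
⟨1, [⟨18, 4, []⟩, ⟨32, 4, []⟩, ⟨64, 3, [(12, 1)]⟩], [7], 1, [(46, 1), (60, 1), (98, 1), (112, 1)]⟩,
⟨1, [⟨8, 2, []⟩, ⟨64, 3, [(18, 1)]⟩], [3, 1, 1], 1, [(26, 1), (72, 1)]⟩,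
⟨1, [⟨72, 4, []⟩, ⟨18, 4, []⟩, ⟨32, 4, []⟩], [7], 1, [(42, 1), (56, 1), (98, 1), (112, 1)]⟩,
⟨1, [⟨4, 2, []⟩, ⟨3, 4, []⟩, ⟨0, 0, [(48, 1)]⟩, ⟨64, 5, []⟩], [3, 1, 1, 4, 4, 4, 4], 2, [(69, 1), (70, 1), (112, 1), (117, 2), (118, 2)]⟩,
⟨0, [⟨38, 3, []⟩, ⟨24, 3, []⟩], [3, 3], 1, [(10, 1), (12, 1), (18, 1), (20, 1), (40, 1), (48, 1)]⟩,
⟨0, [⟨33, 3, []⟩, ⟨76, 3, []⟩], [3, 3], 1, [(5, 1), (9, 1), (36, 1), (40, 1), (65, 1), (96, 1)]⟩,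
⟨0, [⟨21, 3, []⟩, ⟨104, 3, []⟩], [3, 3], 1, [(9, 1), (12, 1), (24, 1), (33, 1), (36, 1), (48, 1), (65, 1), (68, 1), (80, 1)]⟩,
⟨0, [⟨0, 0, [(20, 2)]⟩, ⟨72, 4, []⟩, ⟨1, 2, []⟩, ⟨2, 2, []⟩], [3, 1, 1, 12, 12, 12], 2, [(3, 1), (28, 1), (31, 2), (84, 1), (87, 2)]⟩,
⟨1, [⟨32, 2, []⟩, ⟨16, 4, []⟩], [3, 1, 1], 1, [(48, 1)]⟩,
⟨0, [⟨35, 3, []⟩, ⟨80, 3, []⟩], [3, 3], 1, [(17, 1), (18, 1), (48, 1), (65, 1), (66, 1), (96, 1)]⟩,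
⟨1, [⟨10, 3, []⟩, ⟨64, 3, []⟩], [3, 3], 1, [(66, 1), (72, 1)]⟩,
⟨1, [⟨2, 2, []⟩, ⟨4, 4, []⟩, ⟨24, 3, []⟩, ⟨32, 3, []⟩, ⟨64, 3, []⟩], [3, 17, 17, 12, 12], 2, [(44, 1), (52, 1), (70, 1), (104, 1), (110, 2), (112, 1), (118, 2)]⟩,
⟨0, [⟨2, 2, []⟩, ⟨4, 2, [(9, 2)]⟩, ⟨16, 2, []⟩, ⟨0, 0, [(9, 2)]⟩], [3, 1, 1, 12, 12, 12], 2, [(6, 1), (11, 1), (25, 1), (27, 2)]⟩,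
⟨1, [⟨9, 4, []⟩, ⟨34, 4, []⟩, ⟨4, 4, []⟩], [7], 1, [(7, 1), (14, 1), (37, 1), (44, 1)]⟩,
⟨0, [⟨18, 3, []⟩, ⟨73, 3, []⟩], [3, 3], 1, [(3, 1), (10, 1), (17, 1), (24, 1), (66, 1), (80, 1)]⟩,
⟨1, [⟨10, 4, []⟩, ⟨32, 4, []⟩, ⟨64, 3, [(17, 1)]⟩], [7], 1, [(51, 1), (57, 1), (98, 1), (104, 1)]⟩,
⟨0, [⟨35, 3, []⟩, ⟨72, 3, []⟩], [3, 3], 1, [(9, 1), (10, 1), (40, 1), (65, 1), (66, 1), (96, 1)]⟩,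
⟨1, [⟨34, 4, []⟩, ⟨12, 4, []⟩, ⟨80, 4, []⟩], [7], 1, [(22, 1), (26, 1), (52, 1), (56, 1), (70, 1), (74, 1), (100, 1), (104, 1)]⟩,
⟨1, [⟨0, 0, [(5, 2)]⟩, ⟨66, 4, []⟩], [3, 1, 1], 1, [(7, 1), (69, 1)]⟩,
⟨1, [⟨8, 2, []⟩, ⟨64, 4, []⟩], [3, 1, 1], 1, [(72, 1)]⟩,
⟨0, [⟨0, 0, [(18, 2)]⟩, ⟨8, 2, []⟩, ⟨32, 2, []⟩, ⟨69, 4, []⟩], [9, 1, 1, 6, 6, 6], 2, [(19, 1), (22, 1), (40, 1), (59, 2), (62, 2), (82, 1), (122, 2)]⟩,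
⟨1, [⟨12, 4, []⟩, ⟨16, 4, []⟩, ⟨32, 4, []⟩], [7], 1, [(52, 1), (56, 1)]⟩,
⟨1, [⟨3, 4, []⟩, ⟨4, 4, []⟩, ⟨16, 3, []⟩, ⟨32, 3, []⟩, ⟨64, 3, []⟩], [3, 12, 12, 16, 16], 2, [(53, 1), (54, 1), (69, 1), (70, 1), (112, 1), (117, 2), (118, 2)]⟩,
⟨0, [⟨16, 2, [(6, 1)]⟩, ⟨64, 3, []⟩], [3, 3], 1, [(70, 1), (80, 1)]⟩,
⟨1, [⟨36, 4, []⟩, ⟨0, 0, [(18, 2)]⟩], [3, 2, 2], 1, [(22, 1), (50, 1)]⟩,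
⟨1, [⟨20, 4, []⟩, ⟨0, 0, [(65, 2)]⟩], [3, 2, 2], 1, [(69, 1), (81, 1)]⟩,
⟨1, [⟨32, 2, []⟩, ⟨24, 4, []⟩, ⟨0, 0, [(6, 1)]⟩, ⟨64, 5, []⟩], [3, 1, 1, 4, 4, 4, 4], 2, [(70, 1), (104, 1), (110, 2), (112, 1), (118, 2)]⟩,
⟨1, [⟨9, 4, []⟩, ⟨0, 0, [(34, 2)]⟩], [3, 2, 2], 1, [(35, 1), (42, 1)]⟩,
⟨1, [⟨3, 2, []⟩, ⟨4, 4, []⟩], [3, 1, 1], 1, [(5, 1), (6, 1)]⟩,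
⟨1, [⟨0, 0, [(24, 2)]⟩, ⟨96, 4, []⟩], [3, 1, 1], 1, [(56, 1), (88, 1)]⟩,
⟨1, [⟨12, 4, []⟩, ⟨32, 4, []⟩, ⟨64, 3, [(24, 1)]⟩], [7], 1, [(56, 1), (100, 1), (104, 1)]⟩,
⟨1, [⟨10, 4, []⟩, ⟨20, 4, []⟩, ⟨32, 4, []⟩], [7], 1, [(38, 1), (44, 1), (50, 1), (56, 1)]⟩,
⟨1, [⟨10, 4, []⟩, ⟨32, 4, []⟩, ⟨64, 4, []⟩], [7], 1, [(98, 1), (104, 1)]⟩,
⟨0, [⟨37, 3, []⟩, ⟨24, 3, []⟩], [3, 3], 1, [(9, 1), (12, 1), (17, 1), (20, 1), (40, 1), (48, 1)]⟩,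
⟨0, [⟨1, 3, []⟩, ⟨2, 3, []⟩], [3, 3], 1, [(3, 1)]⟩,
⟨1, [⟨18, 4, []⟩, ⟨32, 4, []⟩, ⟨4, 3, [(24, 1)]⟩], [7], 1, [(38, 1), (52, 1), (56, 1)]⟩,
⟨0, [⟨1, 2, []⟩, ⟨2, 2, []⟩, ⟨24, 4, []⟩, ⟨32, 2, []⟩], [3, 3, 3, 12, 8, 8], 2, [(3, 1), (40, 1), (43, 2), (48, 1), (51, 2)]⟩,
⟨1, [⟨32, 4, []⟩, ⟨64, 2, []⟩], [3, 2, 2], 1, [(96, 1)]⟩,
⟨1, [⟨0, 0, [(3, 2)]⟩, ⟨64, 4, []⟩], [3, 1, 1], 1, [(67, 1)]⟩,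
⟨0, [⟨68, 3, []⟩, ⟨1, 3, []⟩], [3, 3], 1, [(5, 1), (65, 1)]⟩,
⟨1, [⟨65, 4, []⟩, ⟨18, 4, []⟩, ⟨4, 4, []⟩], [7], 1, [(7, 1), (21, 1), (70, 1), (84, 1)]⟩,
⟨1, [⟨48, 4, []⟩, ⟨10, 4, []⟩, ⟨64, 4, []⟩], [7], 1, [(82, 1), (88, 1), (98, 1), (104, 1)]⟩,
⟨1, [⟨3, 4, []⟩, ⟨4, 4, []⟩, ⟨0, 0, [(24, 1)]⟩, ⟨64, 3, []⟩], [3, 4, 4, 4, 4, 8, 8], 2, [(29, 1), (30, 1), (69, 1), (70, 1), (88, 1), (93, 2), (94, 2)]⟩,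
⟨0, [⟨1, 2, []⟩, ⟨2, 2, []⟩, ⟨40, 4, []⟩, ⟨16, 2, []⟩], [3, 3, 3, 12, 8, 8], 2, [(3, 1), (24, 1), (27, 2), (48, 1), (51, 2)]⟩,
⟨1, [⟨32, 3, []⟩, ⟨0, 0, [(24, 3)]⟩], [3, 3], 1, [(56, 1)]⟩,
⟨0, [⟨1, 2, []⟩, ⟨4, 2, [(10, 2)]⟩, ⟨16, 2, []⟩, ⟨0, 0, [(10, 2)]⟩], [3, 1, 1, 12, 12, 12], 2, [(5, 1), (11, 1), (26, 1), (27, 2)]⟩,
⟨0, [⟨0, 0, [(36, 2)]⟩, ⟨8, 2, []⟩, ⟨16, 2, []⟩, ⟨67, 4, []⟩], [9, 1, 1, 6, 6, 6], 2, [(24, 1), (37, 1), (38, 1), (61, 2), (62, 2), (100, 1), (124, 2)]⟩,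
⟨0, [⟨0, 0, [(9, 2)]⟩, ⟨66, 4, []⟩, ⟨16, 2, []⟩, ⟨32, 2, []⟩], [3, 1, 1, 12, 12, 12], 2, [(11, 1), (48, 1), (59, 2), (73, 1), (121, 2)]⟩,
⟨1, [⟨2, 3, []⟩, ⟨4, 3, []⟩, ⟨40, 4, []⟩, ⟨16, 2, []⟩, ⟨64, 3, []⟩], [3, 3, 12, 24, 24], 2, [(14, 1), (38, 1), (70, 1), (88, 1), (94, 2), (112, 1), (118, 2)]⟩,
⟨1, [⟨16, 2, []⟩, ⟨40, 4, []⟩, ⟨0, 0, [(6, 1)]⟩, ⟨64, 5, []⟩], [3, 1, 1, 4, 4, 4, 4], 2, [(70, 1), (88, 1), (94, 2), (112, 1), (118, 2)]⟩,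
⟨0, [⟨24, 3, []⟩, ⟨36, 3, []⟩], [3, 3], 1, [(12, 1), (20, 1), (40, 1), (48, 1)]⟩,
⟨1, [⟨12, 4, []⟩, ⟨32, 4, []⟩, ⟨64, 3, [(17, 1)]⟩], [7], 1, [(53, 1), (57, 1), (100, 1), (104, 1)]⟩,
⟨0, [⟨16, 2, [(6, 1)]⟩, ⟨8, 3, []⟩], [3, 3], 1, [(14, 1), (24, 1)]⟩,
⟨0, [⟨4, 2, []⟩, ⟨2, 2, [(17, 2)]⟩, ⟨8, 2, []⟩, ⟨0, 0, [(17, 2)]⟩], [3, 1, 1, 12, 12, 12], 2, [(6, 1), (21, 1), (25, 1), (29, 2)]⟩,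
⟨0, [⟨8, 2, []⟩, ⟨48, 4, []⟩, ⟨0, 0, [(17, 2)]⟩, ⟨0, 0, [(34, 2)]⟩], [3, 1, 1, 12, 12, 12], 2, [(24, 1), (40, 1), (51, 1), (59, 2)]⟩,
⟨1, [⟨16, 3, []⟩, ⟨64, 3, []⟩], [3, 3], 1, [(80, 1)]⟩,
⟨1, [⟨32, 2, []⟩, ⟨64, 4, []⟩], [3, 1, 1], 1, [(96, 1)]⟩,
⟨1, [⟨36, 5, []⟩, ⟨16, 3, []⟩, ⟨64, 5, []⟩], [2, 2], 1, [(84, 1), (112, 1)]⟩,
⟨1, [⟨24, 3, []⟩, ⟨32, 3, []⟩, ⟨6, 4, []⟩, ⟨1, 2, []⟩, ⟨64, 3, []⟩], [3, 3, 12, 24, 24], 2, [(42, 1), (44, 1), (50, 1), (52, 1), (67, 1), (69, 1), (104, 1), (107, 2), (109, 2), (112, 1), (115, 2), (117, 2)]⟩,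
⟨1, [⟨0, 0, [(17, 1)]⟩, ⟨0, 0, [(34, 1)]⟩, ⟨0, 0, [(12, 1)]⟩, ⟨64, 5, []⟩], [3, 3, 5, 5, 6, 6], 2, [(76, 1), (81, 1), (98, 1), (127, 2)]⟩,
⟨1, [⟨33, 4, []⟩, ⟨12, 4, []⟩, ⟨80, 4, []⟩], [7], 1, [(21, 1), (25, 1), (52, 1), (56, 1), (69, 1), (73, 1), (100, 1), (104, 1)]⟩,
⟨1, [⟨80, 4, []⟩, ⟨3, 4, []⟩, ⟨4, 4, []⟩], [7], 1, [(21, 1), (22, 1), (69, 1), (70, 1)]⟩,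
⟨1, [⟨1, 2, []⟩, ⟨4, 2, []⟩, ⟨0, 0, [(48, 2)]⟩, ⟨8, 2, []⟩], [3, 3, 3, 12, 12, 12], 2, [(5, 1), (56, 1), (61, 2)]⟩,
⟨1, [⟨36, 4, []⟩, ⟨0, 0, [(66, 2)]⟩], [3, 2, 2], 1, [(70, 1), (98, 1)]⟩,
⟨1, [⟨9, 4, []⟩, ⟨4, 4, []⟩, ⟨96, 4, []⟩], [7], 1, [(37, 1), (44, 1), (69, 1), (76, 1)]⟩,
⟨1, [⟨0, 0, [(3, 2)]⟩, ⟨68, 4, []⟩], [3, 1, 1], 1, [(7, 1), (67, 1)]⟩,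
⟨1, [⟨16, 3, []⟩, ⟨32, 3, []⟩, ⟨1, 2, []⟩, ⟨4, 2, []⟩, ⟨64, 3, []⟩], [19, 19, 12, 12, 12], 2, [(5, 1), (112, 1), (117, 2)]⟩,
⟨1, [⟨4, 4, []⟩, ⟨0, 0, [(3, 1), (33, 1)]⟩], [3, 2, 2], 1, [(7, 1), (37, 1)]⟩,
⟨1, [⟨2, 3, []⟩, ⟨4, 3, []⟩, ⟨16, 2, []⟩, ⟨32, 2, []⟩, ⟨64, 3, []⟩], [19, 19, 12, 12, 12], 2, [(48, 1), (70, 1), (118, 2)]⟩,
⟨1, [⟨24, 4, []⟩, ⟨0, 0, [(34, 2)]⟩], [3, 2, 2], 1, [(42, 1), (50, 1)]⟩,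
⟨0, [⟨24, 4, []⟩, ⟨2, 2, []⟩, ⟨0, 0, [(65, 2)]⟩, ⟨4, 2, []⟩], [5, 10, 10, 10, 4, 4], 2, [(6, 1), (73, 1), (79, 2), (81, 1), (87, 2)]⟩,
⟨1, [⟨24, 3, []⟩, ⟨32, 3, []⟩, ⟨2, 2, []⟩, ⟨4, 2, []⟩, ⟨64, 5, []⟩], [3, 3, 12, 12, 12], 2, [(70, 1), (104, 1), (110, 2), (112, 1), (118, 2)]⟩,
⟨1, [⟨48, 4, []⟩, ⟨0, 0, [(66, 2)]⟩], [3, 2, 2], 1, [(82, 1), (98, 1)]⟩,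
⟨1, [⟨10, 4, []⟩, ⟨4, 4, []⟩, ⟨96, 4, []⟩], [7], 1, [(38, 1), (44, 1), (70, 1), (76, 1)]⟩,
⟨0, [⟨1, 3, []⟩, ⟨4, 2, [(80, 1)]⟩], [3, 3], 1, [(5, 1), (81, 1)]⟩,
⟨1, [⟨24, 4, []⟩, ⟨34, 4, []⟩, ⟨64, 4, []⟩], [7], 1, [(74, 1), (82, 1), (104, 1), (112, 1)]⟩,
⟨1, [⟨8, 3, []⟩, ⟨32, 3, []⟩], [3, 3], 1, [(40, 1)]⟩,
⟨1, [⟨3, 3, []⟩, ⟨4, 3, []⟩, ⟨8, 2, []⟩, ⟨32, 2, []⟩, ⟨64, 5, []⟩], [3, 3, 12, 12, 12], 2, [(69, 1), (70, 1), (104, 1), (109, 2), (110, 2)]⟩,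
⟨1, [⟨8, 2, [(5, 1)]⟩, ⟨64, 3, []⟩], [3, 3], 1, [(69, 1), (72, 1)]⟩,
⟨1, [⟨24, 4, []⟩, ⟨32, 4, []⟩, ⟨0, 0, [(6, 1)]⟩, ⟨64, 3, []⟩], [3, 4, 4, 4, 4, 8, 8], 2, [(46, 1), (54, 1), (70, 1), (104, 1), (110, 2), (112, 1), (118, 2)]⟩,
⟨0, [⟨65, 3, []⟩, ⟨34, 3, []⟩], [3, 3], 1, [(3, 1), (33, 1), (66, 1), (96, 1)]⟩,
⟨1, [⟨1, 2, [(24, 1)]⟩, ⟨2, 3, []⟩], [3, 3], 1, [(3, 1), (26, 1)]⟩,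
⟨1, [⟨12, 5, []⟩, ⟨32, 3, []⟩, ⟨64, 5, []⟩], [2, 2], 1, [(100, 1), (104, 1)]⟩,
⟨0, [⟨72, 3, []⟩, ⟨20, 3, []⟩], [3, 3], 1, [(12, 1), (24, 1), (68, 1), (80, 1)]⟩,
⟨1, [⟨34, 4, []⟩, ⟨4, 4, []⟩, ⟨72, 4, []⟩], [7], 1, [(14, 1), (44, 1), (70, 1), (100, 1)]⟩,
⟨1, [⟨9, 4, []⟩, ⟨18, 4, []⟩, ⟨4, 4, []⟩], [7], 1, [(7, 1), (14, 1), (21, 1), (28, 1)]⟩,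
⟨0, [⟨1, 3, []⟩, ⟨88, 3, []⟩], [3, 3], 1, [(9, 1), (17, 1), (65, 1)]⟩,
⟨1, [⟨2, 3, []⟩, ⟨0, 0, [(5, 1), (20, 1), (33, 1)]⟩], [3, 3], 1, [(7, 1), (22, 1), (35, 1)]⟩,
⟨1, [⟨10, 4, []⟩, ⟨32, 4, []⟩, ⟨64, 3, [(20, 1)]⟩], [7], 1, [(54, 1), (60, 1), (98, 1), (104, 1)]⟩,
⟨1, [⟨2, 2, [(40, 1)]⟩, ⟨4, 3, []⟩], [3, 3], 1, [(6, 1), (44, 1)]⟩,
⟨0, [⟨66, 3, []⟩, ⟨33, 3, []⟩], [3, 3], 1, [(3, 1), (34, 1), (65, 1), (96, 1)]⟩,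
⟨0, [⟨8, 3, []⟩, ⟨18, 3, []⟩], [3, 3], 1, [(10, 1), (24, 1)]⟩,
⟨1, [⟨48, 3, []⟩, ⟨8, 2, []⟩, ⟨3, 3, []⟩, ⟨4, 3, []⟩, ⟨64, 4, []⟩], [3, 3, 18, 12, 12], 2, [(21, 1), (22, 1), (37, 1), (38, 1), (69, 1), (70, 1), (88, 1), (93, 2), (94, 2), (104, 1), (109, 2), (110, 2)]⟩,
⟨0, [⟨5, 3, []⟩, ⟨64, 3, []⟩], [3, 3], 1, [(65, 1), (68, 1)]⟩,
⟨1, [⟨9, 2, []⟩, ⟨32, 4, []⟩], [3, 1, 1], 1, [(33, 1), (40, 1)]⟩,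
⟨1, [⟨16, 2, []⟩, ⟨32, 4, []⟩], [3, 1, 1], 1, [(48, 1)]⟩,
⟨1, [⟨1, 2, []⟩, ⟨8, 2, []⟩, ⟨16, 1, []⟩, ⟨32, 3, []⟩, ⟨64, 3, []⟩], [21, 21, 3, 14, 14], 2, [(40, 1), (65, 1), (112, 1), (121, 2)]⟩,
⟨1, [⟨2, 3, []⟩, ⟨64, 3, []⟩], [3, 3], 1, [(66, 1)]⟩,
⟨0, [⟨96, 3, []⟩, ⟨28, 3, []⟩], [3, 3], 1, [(36, 1), (40, 1), (48, 1), (68, 1), (72, 1), (80, 1)]⟩,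
⟨0, [⟨80, 3, []⟩, ⟨34, 3, []⟩], [3, 3], 1, [(18, 1), (48, 1), (66, 1), (96, 1)]⟩,
⟨0, [⟨66, 3, []⟩, ⟨20, 3, []⟩], [3, 3], 1, [(6, 1), (18, 1), (68, 1), (80, 1)]⟩,
⟨0, [⟨80, 3, []⟩, ⟨10, 3, []⟩], [3, 3], 1, [(18, 1), (24, 1), (66, 1), (72, 1)]⟩,
⟨1, [⟨16, 2, []⟩, ⟨12, 3, []⟩, ⟨32, 3, []⟩, ⟨2, 2, []⟩, ⟨64, 3, []⟩], [7, 7, 9, 24, 24], 2, [(52, 1), (56, 1), (66, 1), (100, 1), (104, 1), (118, 2), (122, 2)]⟩,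
⟨0, [⟨65, 3, []⟩, ⟨20, 3, []⟩], [3, 3], 1, [(5, 1), (17, 1), (68, 1), (80, 1)]⟩,
⟨1, [⟨4, 4, []⟩, ⟨8, 2, []⟩], [3, 2, 2], 1, [(12, 1)]⟩,
⟨1, [⟨8, 2, []⟩, ⟨18, 3, []⟩, ⟨32, 3, []⟩, ⟨1, 2, []⟩, ⟨0, 0, [(68, 3)]⟩], [7, 7, 9, 24, 24], 2, [(42, 1), (56, 1), (69, 1), (102, 1), (111, 2), (116, 1), (125, 2)]⟩,
⟨0, [⟨4, 2, [(40, 1)]⟩, ⟨1, 3, []⟩], [3, 3], 1, [(5, 1), (41, 1)]⟩,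
⟨1, [⟨1, 2, []⟩, ⟨64, 4, []⟩], [3, 1, 1], 1, [(65, 1)]⟩,
⟨1, [⟨34, 4, []⟩, ⟨0, 0, [(72, 2)]⟩], [3, 2, 2], 1, [(74, 1), (104, 1)]⟩,
⟨1, [⟨0, 0, [(34, 1)]⟩, ⟨0, 0, [(5, 1)]⟩, ⟨0, 0, [(24, 1)]⟩, ⟨64, 5, []⟩], [3, 3, 5, 5, 6, 6], 2, [(69, 1), (88, 1), (98, 1), (127, 2)]⟩,
⟨0, [⟨2, 2, []⟩, ⟨5, 4, []⟩, ⟨0, 0, [(17, 2)]⟩, ⟨0, 0, [(12, 2)]⟩], [3, 1, 1, 12, 12, 12], 2, [(3, 1), (6, 1), (29, 1), (31, 2)]⟩,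
⟨0, [⟨16, 2, []⟩, ⟨8, 2, [(33, 2)]⟩, ⟨2, 2, []⟩, ⟨0, 0, [(33, 2)]⟩], [3, 1, 1, 12, 12, 12], 2, [(24, 1), (35, 1), (49, 1), (51, 2)]⟩,
⟨0, [⟨2, 2, [(24, 1)]⟩, ⟨64, 3, []⟩], [3, 3], 1, [(66, 1), (88, 1)]⟩,
⟨1, [⟨72, 4, []⟩, ⟨16, 4, []⟩, ⟨32, 4, []⟩], [7], 1, [(56, 1), (112, 1)]⟩,
⟨1, [⟨48, 5, []⟩, ⟨12, 5, []⟩, ⟨64, 3, []⟩], [4, 4], 1, [(84, 1), (88, 1), (100, 1), (104, 1)]⟩,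
⟨1, [⟨17, 4, []⟩, ⟨32, 4, []⟩, ⟨64, 3, [(10, 1)]⟩], [7], 1, [(43, 1), (58, 1), (97, 1), (112, 1)]⟩,
⟨0, [⟨10, 3, []⟩, ⟨21, 3, []⟩], [3, 3], 1, [(3, 1), (6, 1), (9, 1), (12, 1), (18, 1), (24, 1)]⟩,
⟨0, [⟨1, 2, []⟩, ⟨66, 4, []⟩, ⟨8, 2, []⟩, ⟨16, 2, []⟩], [3, 1, 1, 12, 12, 12], 2, [(3, 1), (24, 1), (27, 2), (65, 1), (89, 2)]⟩,
⟨1, [⟨24, 4, []⟩, ⟨32, 3, []⟩, ⟨2, 2, []⟩, ⟨4, 2, []⟩, ⟨64, 4, []⟩], [3, 18, 12, 12, 12], 2, [(14, 1), (22, 1), (70, 1), (104, 1), (110, 2), (112, 1), (118, 2)]⟩,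
⟨0, [⟨3, 3, []⟩, ⟨68, 3, []⟩], [3, 3], 1, [(5, 1), (6, 1), (65, 1), (66, 1)]⟩,
⟨1, [⟨20, 4, []⟩, ⟨65, 4, []⟩, ⟨40, 4, []⟩], [7], 1, [(13, 1), (25, 1), (37, 1), (49, 1), (76, 1), (88, 1), (100, 1), (112, 1)]⟩,
⟨1, [⟨4, 3, []⟩, ⟨1, 2, [(72, 1)]⟩], [3, 3], 1, [(5, 1), (76, 1)]⟩,
⟨1, [⟨24, 3, []⟩, ⟨32, 3, []⟩, ⟨3, 4, []⟩, ⟨4, 2, []⟩, ⟨64, 3, []⟩], [3, 3, 12, 24, 24], 2, [(41, 1), (42, 1), (49, 1), (50, 1), (69, 1), (70, 1), (104, 1), (109, 2), (110, 2), (112, 1), (117, 2), (118, 2)]⟩,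
⟨1, [⟨0, 0, [(48, 2)]⟩, ⟨12, 4, []⟩], [3, 1, 1], 1, [(52, 1), (56, 1)]⟩,
⟨0, [⟨0, 0, [(17, 2)]⟩, ⟨8, 2, []⟩, ⟨32, 2, []⟩, ⟨70, 4, []⟩], [9, 1, 1, 6, 6, 6], 2, [(19, 1), (21, 1), (40, 1), (59, 2), (61, 2), (81, 1), (121, 2)]⟩,
⟨1, [⟨3, 3, []⟩, ⟨0, 0, [(68, 3)]⟩], [3, 3], 1, [(69, 1), (70, 1)]⟩,
⟨1, [⟨0, 0, [(9, 1)]⟩, ⟨0, 0, [(34, 1)]⟩, ⟨0, 0, [(20, 1)]⟩, ⟨64, 5, []⟩], [3, 3, 5, 5, 6, 6], 2, [(73, 1), (84, 1), (98, 1), (127, 2)]⟩,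
⟨1, [⟨1, 2, []⟩, ⟨4, 2, []⟩, ⟨0, 0, [(10, 2)]⟩, ⟨32, 2, []⟩], [3, 3, 3, 12, 12, 12], 2, [(5, 1), (42, 1), (47, 2)]⟩,
⟨1, [⟨24, 3, []⟩, ⟨32, 3, []⟩, ⟨1, 2, []⟩, ⟨4, 2, []⟩, ⟨64, 5, []⟩], [3, 3, 12, 12, 12], 2, [(69, 1), (104, 1), (109, 2), (112, 1), (117, 2)]⟩,
⟨1, [⟨0, 0, [(24, 1)]⟩, ⟨1, 2, []⟩, ⟨2, 3, []⟩, ⟨4, 3, []⟩, ⟨64, 4, []⟩], [21, 9, 3, 3, 14], 2, [(5, 1), (67, 1), (70, 1), (88, 1), (95, 2)]⟩,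
⟨1, [⟨36, 5, []⟩, ⟨24, 3, []⟩, ⟨64, 5, []⟩], [2, 2], 1, [(76, 1), (84, 1), (104, 1), (112, 1)]⟩,
⟨1, [⟨1, 2, []⟩, ⟨64, 3, [(20, 1)]⟩], [3, 1, 1], 1, [(21, 1), (65, 1)]⟩,
⟨1, [⟨8, 2, [(3, 1)]⟩, ⟨16, 3, []⟩], [3, 3], 1, [(19, 1), (24, 1)]⟩,
⟨1, [⟨0, 0, [(40, 2)]⟩, ⟨64, 4, []⟩], [3, 1, 1], 1, [(104, 1)]⟩,
⟨1, [⟨6, 4, []⟩, ⟨17, 4, []⟩, ⟨64, 4, []⟩], [7], 1, [(67, 1), (69, 1), (82, 1), (84, 1)]⟩,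
⟨1, [⟨32, 3, []⟩, ⟨24, 3, []⟩], [3, 3], 1, [(40, 1), (48, 1)]⟩,
⟨1, [⟨2, 2, []⟩, ⟨4, 3, []⟩, ⟨24, 3, []⟩, ⟨32, 3, []⟩, ⟨64, 4, []⟩], [3, 3, 17, 12, 12], 2, [(44, 1), (52, 1), (70, 1), (104, 1), (110, 2), (112, 1), (118, 2)]⟩,
⟨1, [⟨66, 3, []⟩, ⟨4, 3, []⟩], [3, 3], 1, [(6, 1), (68, 1)]⟩,
⟨1, [⟨33, 4, []⟩, ⟨0, 0, [(20, 2)]⟩], [3, 2, 2], 1, [(21, 1), (52, 1)]⟩,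
⟨1, [⟨1, 2, []⟩, ⟨2, 2, []⟩, ⟨0, 0, [(36, 2)]⟩, ⟨8, 2, []⟩], [3, 3, 3, 12, 12, 12], 2, [(3, 1), (44, 1), (47, 2)]⟩,
⟨1, [⟨17, 4, []⟩, ⟨34, 4, []⟩, ⟨4, 4, []⟩], [7], 1, [(7, 1), (22, 1), (37, 1), (52, 1)]⟩,
⟨0, [⟨24, 4, []⟩, ⟨1, 2, []⟩, ⟨0, 0, [(66, 2)]⟩, ⟨4, 2, []⟩], [5, 10, 10, 10, 4, 4], 2, [(5, 1), (74, 1), (79, 2), (82, 1), (87, 2)]⟩,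
⟨1, [⟨33, 4, []⟩, ⟨4, 4, []⟩, ⟨72, 4, []⟩], [7], 1, [(13, 1), (44, 1), (69, 1), (100, 1)]⟩,
⟨0, [⟨6, 3, []⟩, ⟨17, 3, []⟩], [3, 3], 1, [(3, 1), (5, 1), (18, 1), (20, 1)]⟩,
⟨1, [⟨4, 2, []⟩, ⟨64, 4, []⟩], [3, 1, 1], 1, [(68, 1)]⟩,
⟨1, [⟨16, 2, []⟩, ⟨32, 2, []⟩, ⟨0, 0, [(12, 2)]⟩, ⟨1, 2, []⟩], [3, 3, 3, 12, 12, 12], 2, [(13, 1), (48, 1), (61, 2)]⟩,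
⟨0, [⟨37, 3, []⟩, ⟨72, 3, []⟩], [3, 3], 1, [(9, 1), (12, 1), (40, 1), (65, 1), (68, 1), (96, 1)]⟩,
⟨1, [⟨3, 3, []⟩, ⟨4, 3, []⟩, ⟨40, 4, []⟩, ⟨16, 2, []⟩, ⟨64, 3, []⟩], [3, 3, 12, 24, 24], 2, [(13, 1), (14, 1), (37, 1), (38, 1), (69, 1), (70, 1), (88, 1), (93, 2), (94, 2), (112, 1), (117, 2), (118, 2)]⟩,
⟨1, [⟨3, 3, []⟩, ⟨4, 4, []⟩, ⟨8, 2, []⟩, ⟨32, 3, []⟩, ⟨64, 3, []⟩], [3, 9, 12, 20, 20], 2, [(37, 1), (38, 1), (69, 1), (70, 1), (76, 1), (104, 1), (109, 2), (110, 2)]⟩,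
⟨1, [⟨8, 3, []⟩, ⟨16, 3, []⟩], [3, 3], 1, [(24, 1)]⟩,
⟨1, [⟨2, 2, []⟩, ⟨4, 2, []⟩, ⟨24, 3, []⟩, ⟨32, 3, []⟩, ⟨64, 3, []⟩], [3, 17, 17, 14, 14], 2, [(44, 1), (52, 1), (66, 1), (104, 1), (110, 2), (112, 1), (118, 2)]⟩,
⟨0, [⟨12, 3, []⟩, ⟨98, 3, []⟩], [3, 3], 1, [(6, 1), (10, 1), (36, 1), (40, 1), (68, 1), (72, 1)]⟩,
⟨1, [⟨65, 4, []⟩, ⟨10, 4, []⟩, ⟨4, 4, []⟩], [7], 1, [(7, 1), (13, 1), (70, 1), (76, 1)]⟩,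
⟨1, [⟨10, 5, []⟩, ⟨80, 5, []⟩, ⟨4, 3, []⟩], [4, 4], 1, [(22, 1), (28, 1), (70, 1), (76, 1)]⟩,
⟨1, [⟨8, 2, []⟩, ⟨48, 4, []⟩, ⟨0, 0, [(6, 1)]⟩, ⟨64, 5, []⟩], [3, 1, 1, 4, 4, 4, 4], 2, [(70, 1), (88, 1), (94, 2), (104, 1), (110, 2)]⟩,
⟨1, [⟨17, 4, []⟩, ⟨10, 4, []⟩, ⟨64, 4, []⟩], [7], 1, [(67, 1), (73, 1), (82, 1), (88, 1)]⟩,
⟨1, [⟨1, 2, [(24, 1)]⟩, ⟨4, 3, []⟩], [3, 3], 1, [(5, 1), (28, 1)]⟩,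
⟨0, [⟨20, 3, []⟩, ⟨74, 3, []⟩], [3, 3], 1, [(6, 1), (12, 1), (18, 1), (24, 1), (68, 1), (80, 1)]⟩,
⟨1, [⟨1, 2, []⟩, ⟨4, 2, []⟩, ⟨0, 0, [(18, 2)]⟩, ⟨32, 2, []⟩], [3, 3, 3, 12, 12, 12], 2, [(5, 1), (50, 1), (55, 2)]⟩,
⟨1, [⟨48, 4, []⟩, ⟨9, 4, []⟩, ⟨64, 4, []⟩], [7], 1, [(81, 1), (88, 1), (97, 1), (104, 1)]⟩,
⟨0, [⟨8, 2, []⟩, ⟨52, 4, []⟩, ⟨1, 2, []⟩, ⟨64, 2, []⟩], [3, 1, 1, 12, 12, 12], 2, [(12, 1), (24, 1), (40, 1), (65, 1), (77, 2), (89, 2), (105, 2)]⟩,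
⟨1, [⟨4, 4, []⟩, ⟨16, 2, []⟩], [3, 2, 2], 1, [(20, 1)]⟩,
⟨1, [⟨2, 2, []⟩, ⟨4, 4, []⟩], [3, 1, 1], 1, [(6, 1)]⟩,
⟨0, [⟨24, 3, []⟩, ⟨97, 3, []⟩], [3, 3], 1, [(9, 1), (17, 1), (40, 1), (48, 1), (72, 1), (80, 1)]⟩,
⟨1, [⟨16, 2, []⟩, ⟨32, 2, []⟩, ⟨0, 0, [(6, 2)]⟩, ⟨1, 2, []⟩], [3, 3, 3, 12, 12, 12], 2, [(7, 1), (48, 1), (55, 2)]⟩,
⟨0, [⟨65, 3, []⟩, ⟨38, 3, []⟩], [3, 3], 1, [(3, 1), (5, 1), (33, 1), (66, 1), (68, 1), (96, 1)]⟩,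
⟨1, [⟨8, 2, []⟩, ⟨96, 4, []⟩], [3, 1, 1], 1, [(40, 1), (72, 1)]⟩,
⟨1, [⟨8, 2, []⟩, ⟨16, 3, []⟩, ⟨32, 3, []⟩, ⟨1, 2, []⟩, ⟨64, 3, []⟩], [7, 7, 9, 24, 24], 2, [(56, 1), (65, 1), (112, 1), (121, 2)]⟩,
⟨0, [⟨8, 3, []⟩, ⟨64, 3, []⟩], [3, 3], 1, [(72, 1)]⟩,
⟨1, [⟨1, 2, []⟩, ⟨4, 3, [(48, 1)]⟩], [3, 1, 1], 1, [(5, 1), (49, 1)]⟩,
⟨1, [⟨16, 2, []⟩, ⟨9, 3, []⟩, ⟨32, 3, []⟩, ⟨4, 2, []⟩, ⟨64, 3, []⟩], [7, 7, 9, 24, 24], 2, [(49, 1), (56, 1), (68, 1), (97, 1), (104, 1), (117, 2), (124, 2)]⟩,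
⟨1, [⟨32, 3, []⟩, ⟨8, 2, [(68, 1)]⟩], [3, 3], 1, [(40, 1), (100, 1)]⟩,
⟨0, [⟨0, 0, [(10, 2)]⟩, ⟨1, 2, []⟩, ⟨4, 2, []⟩, ⟨112, 4, []⟩], [9, 1, 1, 6, 6, 6], 2, [(5, 1), (26, 1), (31, 2), (42, 1), (47, 2), (74, 1), (79, 2)]⟩,
⟨0, [⟨10, 3, []⟩, ⟨52, 3, []⟩], [3, 3], 1, [(6, 1), (12, 1), (18, 1), (24, 1), (34, 1), (40, 1)]⟩,
⟨0, [⟨2, 2, []⟩, ⟨5, 4, []⟩, ⟨0, 0, [(9, 2)]⟩, ⟨0, 0, [(20, 2)]⟩], [3, 1, 1, 12, 12, 12], 2, [(3, 1), (6, 1), (29, 1), (31, 2)]⟩,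
⟨1, [⟨40, 5, []⟩, ⟨20, 5, []⟩, ⟨64, 3, []⟩], [4, 4], 1, [(76, 1), (88, 1), (100, 1), (112, 1)]⟩,
⟨0, [⟨1, 4, []⟩, ⟨2, 2, []⟩, ⟨8, 2, []⟩, ⟨16, 2, []⟩], [3, 2, 2, 12, 12, 12], 2, [(3, 1), (24, 1), (27, 2)]⟩,
⟨1, [⟨24, 3, []⟩, ⟨32, 3, []⟩, ⟨1, 2, []⟩, ⟨2, 2, []⟩, ⟨64, 5, []⟩], [3, 3, 12, 12, 12], 2, [(67, 1), (104, 1), (107, 2), (112, 1), (115, 2)]⟩,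
⟨0, [⟨5, 3, []⟩, ⟨10, 3, []⟩], [3, 3], 1, [(3, 1), (6, 1), (9, 1), (12, 1)]⟩,
⟨1, [⟨9, 4, []⟩, ⟨32, 4, []⟩, ⟨4, 3, [(24, 1)]⟩], [7], 1, [(37, 1), (44, 1), (56, 1)]⟩,
⟨1, [⟨18, 4, []⟩, ⟨32, 4, []⟩, ⟨64, 4, []⟩], [7], 1, [(98, 1), (112, 1)]⟩,
⟨1, [⟨0, 0, [(48, 1)]⟩, ⟨1, 2, []⟩, ⟨2, 3, []⟩, ⟨4, 3, []⟩, ⟨64, 4, []⟩], [21, 9, 3, 3, 14], 2, [(5, 1), (67, 1), (70, 1), (112, 1), (119, 2)]⟩,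
⟨1, [⟨1, 2, []⟩, ⟨2, 2, []⟩, ⟨0, 0, [(12, 2)]⟩, ⟨32, 2, []⟩], [3, 3, 3, 12, 12, 12], 2, [(3, 1), (44, 1), (47, 2)]⟩,
⟨1, [⟨3, 3, []⟩, ⟨4, 3, []⟩, ⟨24, 4, []⟩, ⟨32, 2, []⟩, ⟨64, 3, []⟩], [3, 3, 12, 24, 24], 2, [(13, 1), (14, 1), (21, 1), (22, 1), (69, 1), (70, 1), (104, 1), (109, 2), (110, 2), (112, 1), (117, 2), (118, 2)]⟩,
⟨0, [⟨5, 3, []⟩, ⟨66, 3, []⟩], [3, 3], 1, [(3, 1), (6, 1), (65, 1), (68, 1)]⟩,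
⟨1, [⟨65, 5, []⟩, ⟨40, 5, []⟩, ⟨16, 3, []⟩], [4, 4], 1, [(25, 1), (49, 1), (88, 1), (112, 1)]⟩,
⟨0, [⟨10, 3, []⟩, ⟨81, 3, []⟩], [3, 3], 1, [(3, 1), (9, 1), (18, 1), (24, 1), (66, 1), (72, 1)]⟩,
⟨1, [⟨10, 4, []⟩, ⟨36, 4, []⟩, ⟨64, 4, []⟩], [7], 1, [(70, 1), (76, 1), (98, 1), (104, 1)]⟩,
⟨1, [⟨8, 2, [(5, 1)]⟩, ⟨16, 3, []⟩], [3, 3], 1, [(21, 1), (24, 1)]⟩,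
⟨0, [⟨2, 2, []⟩, ⟨4, 2, []⟩, ⟨24, 4, []⟩, ⟨64, 2, []⟩], [3, 3, 3, 12, 8, 8], 2, [(6, 1), (72, 1), (78, 2), (80, 1), (86, 2)]⟩,
⟨1, [⟨24, 4, []⟩, ⟨32, 2, []⟩], [3, 2, 2], 1, [(40, 1), (48, 1)]⟩,
⟨1, [⟨20, 5, []⟩, ⟨32, 3, []⟩, ⟨64, 5, []⟩], [2, 2], 1, [(100, 1), (112, 1)]⟩,
⟨1, [⟨8, 2, [(6, 1)]⟩, ⟨16, 3, []⟩], [3, 3], 1, [(22, 1), (24, 1)]⟩,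
⟨1, [⟨12, 4, []⟩, ⟨0, 0, [(18, 2)]⟩], [3, 2, 2], 1, [(22, 1), (26, 1)]⟩,
⟨0, [⟨8, 2, []⟩, ⟨16, 2, []⟩, ⟨5, 4, []⟩, ⟨64, 2, []⟩], [3, 3, 3, 12, 8, 8], 2, [(24, 1), (65, 1), (68, 1), (89, 2), (92, 2)]⟩,
⟨1, [⟨2, 2, []⟩, ⟨8, 2, []⟩, ⟨16, 1, []⟩, ⟨32, 3, []⟩, ⟨64, 3, []⟩], [21, 21, 3, 14, 14], 2, [(40, 1), (66, 1), (112, 1), (122, 2)]⟩,
⟨1, [⟨2, 3, []⟩, ⟨4, 3, []⟩, ⟨8, 3, []⟩, ⟨32, 3, []⟩, ⟨64, 4, []⟩], [3, 3, 12, 12, 16], 2, [(46, 1), (70, 1), (104, 1), (110, 2)]⟩,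
⟨1, [⟨20, 5, []⟩, ⟨66, 5, []⟩, ⟨32, 3, []⟩], [4, 4], 1, [(38, 1), (50, 1), (100, 1), (112, 1)]⟩,
⟨1, [⟨8, 2, []⟩, ⟨32, 2, []⟩, ⟨2, 3, []⟩, ⟨4, 3, []⟩, ⟨64, 5, []⟩], [3, 3, 3, 12, 12], 2, [(70, 1), (104, 1), (110, 2)]⟩,
⟨1, [⟨8, 2, []⟩, ⟨32, 2, []⟩, ⟨0, 0, [(17, 2)]⟩, ⟨2, 2, []⟩], [3, 3, 3, 12, 12, 12], 2, [(19, 1), (40, 1), (59, 2)]⟩,
⟨1, [⟨12, 4, []⟩, ⟨0, 0, [(65, 2)]⟩], [3, 2, 2], 1, [(69, 1), (73, 1)]⟩,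
⟨0, [⟨1, 3, []⟩, ⟨2, 2, [(96, 1)]⟩], [3, 3], 1, [(3, 1), (97, 1)]⟩,
⟨1, [⟨0, 0, [(65, 2)]⟩, ⟨6, 4, []⟩], [3, 1, 1], 1, [(67, 1), (69, 1)]⟩,
⟨1, [⟨32, 4, []⟩, ⟨0, 0, [(12, 1), (24, 1)]⟩], [3, 2, 2], 1, [(44, 1), (56, 1)]⟩,
⟨1, [⟨12, 5, []⟩, ⟨66, 5, []⟩, ⟨32, 3, []⟩], [4, 4], 1, [(38, 1), (42, 1), (100, 1), (104, 1)]⟩,
⟨1, [⟨1, 2, []⟩, ⟨4, 2, []⟩, ⟨0, 0, [(34, 2)]⟩, ⟨8, 2, []⟩], [3, 3, 3, 12, 12, 12], 2, [(5, 1), (42, 1), (47, 2)]⟩,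
⟨1, [⟨17, 4, []⟩, ⟨0, 0, [(36, 2)]⟩], [3, 2, 2], 1, [(37, 1), (52, 1)]⟩,
⟨1, [⟨8, 2, []⟩, ⟨16, 2, []⟩, ⟨0, 0, [(34, 2)]⟩, ⟨4, 2, []⟩], [3, 3, 3, 12, 12, 12], 2, [(24, 1), (38, 1), (62, 2)]⟩,
⟨1, [⟨33, 4, []⟩, ⟨0, 0, [(18, 2)]⟩], [3, 2, 2], 1, [(19, 1), (50, 1)]⟩,
⟨0, [⟨32, 2, [(5, 1)]⟩, ⟨64, 3, []⟩], [3, 3], 1, [(69, 1), (96, 1)]⟩,
⟨1, [⟨10, 4, []⟩, ⟨4, 4, []⟩, ⟨32, 3, [(3, 1)]⟩], [7], 1, [(7, 1), (38, 1), (44, 1)]⟩,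
⟨1, [⟨2, 2, []⟩, ⟨65, 4, []⟩], [3, 1, 1], 1, [(3, 1), (66, 1)]⟩,
⟨0, [⟨20, 3, []⟩, ⟨41, 3, []⟩], [3, 3], 1, [(5, 1), (12, 1), (17, 1), (24, 1), (36, 1), (48, 1)]⟩,
⟨0, [⟨3, 3, []⟩, ⟨20, 3, []⟩], [3, 3], 1, [(5, 1), (6, 1), (17, 1), (18, 1)]⟩,
⟨1, [⟨4, 1, [(40, 1)]⟩, ⟨64, 4, []⟩], [3, 1, 1], 1, [(68, 1), (104, 1)]⟩,
⟨1, [⟨1, 2, []⟩, ⟨2, 2, []⟩, ⟨0, 0, [(48, 2)]⟩, ⟨8, 2, []⟩], [3, 3, 3, 12, 12, 12], 2, [(3, 1), (56, 1), (59, 2)]⟩,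
⟨1, [⟨34, 4, []⟩, ⟨0, 0, [(68, 2)]⟩], [3, 2, 2], 1, [(70, 1), (100, 1)]⟩,
⟨1, [⟨96, 4, []⟩, ⟨0, 0, [(20, 2)]⟩], [3, 2, 2], 1, [(52, 1), (84, 1)]⟩,
⟨0, [⟨48, 3, []⟩, ⟨73, 3, []⟩], [3, 3], 1, [(17, 1), (24, 1), (33, 1), (40, 1), (80, 1), (96, 1)]⟩,
⟨1, [⟨0, 0, [(40, 2)]⟩, ⟨68, 4, []⟩], [3, 1, 1], 1, [(44, 1), (104, 1)]⟩,
⟨1, [⟨1, 2, []⟩, ⟨4, 4, []⟩, ⟨8, 2, []⟩, ⟨32, 4, []⟩, ⟨64, 5, []⟩], [3, 1, 1, 12, 4, 4], 2, [(69, 1), (104, 1), (109, 2)]⟩,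
⟨0, [⟨96, 3, []⟩, ⟨17, 3, []⟩], [3, 3], 1, [(33, 1), (48, 1), (65, 1), (80, 1)]⟩,
⟨0, [⟨3, 4, []⟩, ⟨16, 2, []⟩, ⟨0, 0, [(72, 2)]⟩, ⟨32, 2, []⟩], [5, 10, 10, 10, 4, 4], 2, [(48, 1), (73, 1), (74, 1), (121, 2), (122, 2)]⟩,
⟨1, [⟨65, 5, []⟩, ⟨4, 3, []⟩, ⟨34, 5, []⟩], [2, 2], 1, [(7, 1), (37, 1), (70, 1), (100, 1)]⟩,
⟨1, [⟨16, 2, []⟩, ⟨32, 2, []⟩, ⟨3, 3, []⟩, ⟨4, 3, []⟩, ⟨64, 3, []⟩], [3, 3, 3, 28, 28], 2, [(48, 1), (69, 1), (70, 1), (117, 2), (118, 2)]⟩,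
⟨1, [⟨0, 0, [(24, 2)]⟩, ⟨64, 4, []⟩], [3, 1, 1], 1, [(88, 1)]⟩,
⟨0, [⟨1, 3, []⟩, ⟨74, 3, []⟩], [3, 3], 1, [(3, 1), (9, 1), (65, 1)]⟩,
⟨0, [⟨19, 3, []⟩, ⟨40, 3, []⟩], [3, 3], 1, [(9, 1), (10, 1), (24, 1), (33, 1), (34, 1), (48, 1)]⟩,
⟨1, [⟨1, 2, []⟩, ⟨2, 2, []⟩, ⟨0, 0, [(40, 2)]⟩, ⟨16, 2, []⟩], [3, 3, 3, 12, 12, 12], 2, [(3, 1), (56, 1), (59, 2)]⟩,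
⟨1, [⟨16, 3, []⟩, ⟨32, 3, []⟩, ⟨3, 4, []⟩, ⟨4, 2, []⟩, ⟨64, 3, []⟩], [3, 3, 12, 24, 24], 2, [(49, 1), (50, 1), (69, 1), (70, 1), (112, 1), (117, 2), (118, 2)]⟩]

theorem base_ok : base.all (fun q => q.ok 7 2 [7, 56] big4 big4 [(0, 1, 0, 0), (0, 2, 0, 1), (0, 4, 0, 3), (0, 5, 0, 4), (0, 3, 0, 0)]) = true := by
  decide +kernel

theorem gb_ok : gb.all (fun c => c.ok 7 2 bl) = true := by decide +kernel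

theorem gads_ok : gads.all (fun g => g.okV 7 2 [4, 2]) = true := by decide +kernel

theorem cmp_ok : cmpR names cnf (clsu 2 base ++ (gb.map (Gb.cl bl) ++ gads.map Gt.cl)) = true := by
  decide +kernel

end DN01

theorem instn_01 : instNS 1 2 [4, 2] DN01.bl [(0, 1, 0, 0), (0, 2, 0, 1), (0, 4, 0, 3), (0, 5, 0, 4), (0, 3, 0, 0)] DN01.base DN01.gb DN01.gads DN01.names DN01.cnf DN01.db DN01.prf = true :=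
  instNS_of DN01.base_ok DN01.gb_ok DN01.gads_ok (by decide +kernel) DN01.okc DN01.cmp_ok DN01.chk_ok

/-- there is no configuration of this instance. -/
theorem noN_01 {V : Type v} [DecidableEq V] {ι : Type u} [Fintype ι] {B : ι → Finset V}
    {Q : Finset V} {x : ℕ → V} {C : ℕ → Finset V} (h : CfN B Q 1 2 x C [4, 2] DN01.bl) : False :=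
  h.absurd_srt (s := 0) (by decide) rfl instn_01

end Pool.Agent.Hyp6
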