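import Pool.Agent.Hyp6.CfBO
import Pool.Agent.Hyp6.InsN.M02

/-!
# HYP6: instance with bounds 2: n = 1, r = 2, values [6, 0], inner blocks []

829 base clauses, 52 given clauses, 408 gadgets, 930 learned clauses.
-/

set_option autoImplicit false
set_option maxRecDepth 100000

namespace Pool.Agent.Hyp6

open Rup

universe u v

namespace DN02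

noncomputable def base : List Ru := [
.rs (.part [1, 102] [0, 0] [24] []),
.rs (.l2 0 6 66 1 2 1),
.rs (.join 1 2 5 3 2 1 [(1, 0)]),
.rs (.join 1 8 4 4 1 3 [(3, 0)]),
.rs (.ab2 0 3),
.rs (.part [16, 111] [0, 1] [] []),
.rs (.join 1 24 5 3 2 1 [(3, 0), (4, 0)]),
.rs (.deg 6 [0, 4]),
.rs (.lipl 1 44 110 0 66),
.rs (.join 0 2 6 3 0 3 [(1, 0)]),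
.rs (.lipl 0 9 27 0 18),
.rs (.part [29, 98] [1, 0] [] []),
.rs (.lipl 0 33 99 0 66),
.rs (.join 0 2 6 3 2 2 [(1, 1)]),
.rs (.ordE 0 2 2),
.rs (.join 1 4 6 4 4 3 [(2, 3)]),
.rs (.join 1 1 5 3 1 3 [(0, 1)]),
.rs (.l2 1 18 34 1 1 1),
.rs (.join 0 10 5 4 3 1 [(1, 0), (3, 0)]),
.rs (.lipl 1 54 126 1 72),
.rs (.ordE 1 16 3),
.rs (.part [72, 48] [0, 0] [7] []),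
.rs (.l2 0 17 48 4 1 1),
.rs (.le 1 72 8 3 1),
.rs (.join 1 16 5 3 2 2 [(4, 1)]),
.rs (.lipl 1 50 118 0 68),
.rs (.le 0 80 16 4 2),
.rs (.lipl 1 41 121 1 80),
.rs (.join 1 3 4 3 2 1 [(0, 0), (1, 0)]),
.rs (.join 1 4 3 3 4 0 [(2, 1)]),
.rs (.deg 6 [1, 3]),
.rs (.lipl 0 9 75 1 66),
.rs (.part [4, 83] [0, 0] [40] []),
.rs (.join 1 8 4 3 1 2 [(3, 0)]),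
.rs (.part [45, 82] [1, 0] [] []),
.degU 1 [(0, 2), (1, 3)],
.rs (.join 0 1 3 4 4 2 [(0, 2)]),
.rs (.deg 5 [2, 1]),
.rs (.lipl 0 20 29 1 9),
.rs (.l2 0 9 40 3 1 1),
.degU 0 [(0, 5)],
.rs (.join 0 3 5 3 2 1 [(0, 0), (1, 0)]),
.rs (.l2 0 48 96 5 1 2),
.rs (.part [2, 69] [0, 0] [56] []),
.rs (.join 1 12 4 4 3 2 [(2, 0), (3, 1)]),
.rs (.deg 3 [2, 1]),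
.rs (.join 0 1 3 4 4 3 [(0, 3)]),
.rs (.join 0 2 2 2 2 2 [(1, 2)]),
.rs (.join 0 1 4 5 3 2 [(0, 0)]),
.rs (.lipl 0 18 83 1 65),
.rs (.lipl 1 52 124 1 72),
.rs (.join 1 2 5 4 2 3 [(1, 1)]),
.rs (.join 1 8 6 3 2 3 [(3, 2)]),
.rs (.lipl 1 14 47 1 33),
.rs (.l2 1 18 24 4 1 1),
.rs (.l2 0 3 10 1 1 1),
.rs (.join 1 8 6 4 2 2 [(3, 0)]),
.rs (.join 0 9 6 4 4 0 [(0, 0), (3, 0)]),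
.rs (.ab 0 0),
.rs (.join 0 1 1 4 3 2 [(0, 1)]),
.rs (.l2 0 3 5 0 1 2),
.rs (.part [40, 87] [0, 1] [] []),
.rs (.lipl 1 98 110 0 12),
.rs (.l2 0 9 24 3 1 1),
.rs (.join 1 8 4 3 0 3 [(3, 0)]),
.rs (.part [64, 63] [0, 1] [] []),
.rs (.join 0 9 5 3 2 1 [(0, 0), (3, 0)]),
.rs (.part [19, 44] [0, 0] [64] []),
.rs (.ab2 0 40),
.rs (.le 0 66 2 1 3),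
.rs (.un 1 6),
.rs (.l2 1 18 20 4 1 2),
.rs (.part [73, 48] [0, 0] [6] []),
.rs (.ordE 0 2 3),
.rs (.part [2, 77] [0, 0] [48] []),
.rs (.l2 1 24 72 3 1 1),
.rs (.lipl 0 66 75 0 9),
.rs (.join 0 17 6 5 3 2 [(0, 0), (4, 0)]),
.rs (.join 0 1 1 4 4 0 [(0, 0)]),
.rs (.srt 0 4 0 3 3),
.rs (.ab2 0 65),
.rs (.join 0 2 5 1 1 0 [(1, 0)]),
.rs (.deg 4 [3, 0]),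
.rs (.join 1 2 6 4 2 2 [(1, 0)]),
.rs (.join 1 8 6 3 1 2 [(3, 0)]),
.rs (.l2 1 5 20 2 1 1),
.rs (.join 1 2 6 4 2 3 [(1, 1)]),
.rs (.part [24, 96] [0, 0] [7] []),
.rs (.part [18, 109] [0, 1] [] []),
.rs (.part [4, 123] [0, 1] [] []),
.rs (.lipl 1 38 103 1 65),
.rs (.lipl 0 9 89 0 80),
.rs (.mono 0 33 97 1),
.rs (.le 0 66 2 1 2),
.rs (.join 0 4 6 5 2 3 [(2, 0)]),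
.degU 4 [(0, 1), (1, 4)],
.rs (.join 0 1 3 4 2 2 [(0, 0)]),
.rs (.join 1 4 3 3 2 1 [(2, 0)]),
.rs (.l2 0 3 17 0 1 1),
.rs (.join 0 8 4 3 2 2 [(3, 1)]),
.rs (.part [99, 28] [1, 0] [] []),
.rs (.join 0 2 2 3 2 1 [(1, 0)]),
.rs (.l2 0 3 10 1 2 1),
.rs (.mono 0 24 26 1),
.rs (.part [1, 86] [0, 0] [40] []),
.rs (.part [68, 11] [0, 0] [48] []),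
.rs (.le 0 3 2 1 1),
.rs (.l2 0 6 10 1 1 1),
.rs (.join 1 8 6 3 2 1 [(3, 0)]),
.rs (.l2 0 3 9 0 2 3),
.rs (.part [3, 68] [0, 0] [56] []),
.rs (.join 0 1 4 4 2 2 [(0, 0)]),
.rs (.part [27, 100] [1, 0] [] []),
.rs (.part [19, 68] [0, 0] [40] []),
.rs (.ab2 0 68),
.rs (.join 0 24 6 4 4 0 [(3, 0), (4, 0)]),
.rs (.lipl 1 50 118 1 68),
.rs (.join 1 8 5 4 2 3 [(3, 1)]),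
.rs (.mono 1 5 21 1),
.rs (.ab2 0 9),
.rs (.l2 1 80 96 6 1 2),
.rs (.join 1 2 4 4 3 1 [(1, 0)]),
.rs (.le 0 6 2 1 3),
.rs (.l2 0 48 80 4 1 2),
.rs (.join 1 2 4 4 1 3 [(1, 0)]),
.rs (.join 0 1 2 3 2 2 [(0, 1)]),
.rs (.deg 1 [2, 1]),
.rs (.join 0 16 5 2 1 1 [(4, 0)]),
.rs (.part [79, 48] [1, 0] [] []),
.rs (.lipl 0 17 29 0 12),
.rs (.part [32, 95] [0, 1] [] []),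
.rs (.srt 0 2 0 1 4),
.rs (.join 0 4 4 4 2 2 [(2, 0)]),
.rs (.l2 1 48 96 5 1 3),
.rs (.join 0 8 4 3 2 1 [(3, 0)]),
.rs (.part [34, 93] [0, 1] [] []),
.rs (.join 0 1 4 3 2 1 [(0, 0)]),
.rs (.l2 0 34 40 5 1 1),
.rs (.join 1 1 2 3 2 2 [(0, 1)]),
.rs (.le 1 17 1 0 1),
.rs (.join 0 16 6 5 2 3 [(4, 0)]),
.rs (.join 1 2 3 3 2 1 [(1, 0)]),
.rs (.srt 0 5 0 4 2),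
.rs (.l2 0 18 24 4 1 1),
.rs (.l2 1 9 12 3 1 1),
.rs (.join 1 4 3 4 2 2 [(2, 0)]),
.rs (.join 1 10 4 3 2 1 [(1, 0), (3, 0)]),
.rs (.join 0 6 6 4 2 2 [(1, 0), (2, 0)]),
.rs (.join 0 1 3 4 4 4 [(0, 4)]),
.rs (.deg 1 [3, 0]),
.rs (.le 1 12 8 3 1),
.rs (.ab2 0 48),
.rs (.ordE 0 16 2),
.rs (.join 1 4 5 3 2 2 [(2, 1)]),
.rs (.deg 3 [1, 2]),
.rs (.lipl 1 52 118 1 66),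
.rs (.part [9, 118] [0, 1] [] []),
.rs (.mono 1 6 22 1),
.rs (.join 0 2 3 3 3 2 [(1, 2)]),
.rs (.le 1 33 1 0 1),
.rs (.join 0 32 6 4 1 3 [(5, 0)]),
.rs (.l2 0 3 18 1 1 1),
.rs (.join 1 1 6 3 2 3 [(0, 2)]),
.rs (.l2 0 17 24 4 1 1),
.rs (.mono 1 9 13 2),
.rs (.join 1 2 2 3 2 2 [(1, 1)]),
.rs (.join 1 8 5 4 1 3 [(3, 0)]),
.rs (.deg 1 [0, 3]),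
.rs (.ordE 0 64 3),
.rs (.join 0 6 4 5 4 2 [(1, 0), (2, 1)]),
.rs (.lipl 0 33 51 1 18),
.rs (.join 1 8 6 3 1 3 [(3, 1)]),
.rs (.lipl 0 17 27 0 10),
.rs (.join 0 2 5 3 2 1 [(1, 0)]),
.rs (.part [6, 65] [0, 0] [56] []),
.rs (.l2 0 9 10 3 2 1),
.rs (.join 1 4 4 4 3 1 [(2, 0)]),
.rs (.lipl 0 12 45 1 33),
.rs (.l2 1 3 5 0 1 1),
.rs (.join 0 2 6 2 1 2 [(1, 1)]),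
.rs (.lipl 1 28 93 1 65),
.rs (.le 0 17 16 4 1),
.rs (.lipl 1 54 63 0 9),
.rs (.join 1 2 5 3 1 2 [(1, 0)]),
.rs (.join 1 4 5 4 3 3 [(2, 2)]),
.rs (.join 0 2 6 3 2 3 [(1, 2)]),
.rs (.mono 1 13 45 1),
.rs (.join 1 2 3 2 1 1 [(1, 0)]),
.rs (.join 1 16 5 4 2 3 [(4, 1)]),
.rs (.le 1 20 16 4 4),
.rs (.join 1 1 2 3 1 2 [(0, 0)]),
.rs (.mono 1 13 45 2),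
.rs (.join 0 3 4 5 4 1 [(0, 0), (1, 0)]),
.rs (.ordE 1 64 2),
.rs (.part [8, 114] [0, 0] [5] []),
.rs (.join 0 1 1 3 2 1 [(0, 0)]),
.rs (.join 1 2 3 4 2 2 [(1, 0)]),
.rs (.part [6, 97] [0, 0] [24] []),
.rs (.l2 1 9 24 3 1 1),
.rs (.join 0 1 3 3 2 2 [(0, 1)]),
.rs (.mono 0 32 40 1),
.rs (.l2 1 80 96 6 1 1),
.rs (.join 0 3 5 4 3 1 [(0, 0), (1, 0)]),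
.rs (.lipl 0 9 29 1 20),
.rs (.ordE 0 64 1),
.rs (.part [68, 3] [0, 0] [56] []),
.rs (.part [66, 21] [0, 0] [40] []),
.rs (.part [48, 73] [0, 0] [6] []),
.degU 6 [(0, 4), (1, 2)],
.rs (.part [30, 97] [1, 0] [] []),
.rs (.lipl 1 49 61 1 12),
.rs (.lipl 0 80 89 0 9),
.rs (.lipl 0 10 43 0 33),
.rs (.ab 0 2),
.rs (.join 1 1 5 4 2 4 [(0, 2)]),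
.rs (.join 1 8 5 4 2 2 [(3, 0)]),
.rs (.lipl 0 34 43 1 9),
.rs (.part [77, 50] [1, 0] [] []),
.rs (.join 1 16 6 4 2 3 [(4, 1)]),
.rs (.step 1 3 1 [1] [0]),
.rs (.join 0 1 6 3 3 0 [(0, 0)]),
.rs (.join 0 2 6 4 1 3 [(1, 0)]),
.rs (.join 1 32 6 4 3 3 [(5, 2)]),
.rs (.l2 1 6 68 2 1 3),
.rs (.join 0 3 2 4 3 1 [(0, 0), (1, 0)]),
.rs (.lipl 0 17 29 1 12),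
.rs (.join 0 6 4 5 4 2 [(1, 1), (2, 0)]),
.rs (.part [3, 124] [0, 1] [] []),
.rs (.join 1 1 6 3 1 3 [(0, 1)]),
.rs (.join 0 16 5 3 2 1 [(4, 0)]),
.rs (.join 0 2 3 4 2 2 [(1, 0)]),
.rs (.part [42, 80] [0, 0] [5] []),
.rs (.le 0 9 8 3 4),
.rs (.ordE 0 32 1),
.rs (.join 0 6 3 5 4 2 [(1, 0), (2, 1)]),
.rs (.join 0 2 3 4 3 2 [(1, 1)]),
.rs (.join 0 2 4 3 2 2 [(1, 1)]),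
.rs (.join 0 16 6 3 2 2 [(4, 1)]),
.rs (.join 1 9 4 3 2 1 [(0, 0), (3, 0)]),
.rs (.un 1 3),
.rs (.srt 0 5 0 4 3),
.rs (.part [32, 92] [0, 0] [3] []),
.rs (.part [2, 85] [0, 0] [40] []),
.rs (.join 1 4 4 4 2 2 [(2, 0)]),
.rs (.part [88, 34] [0, 0] [5] []),
.rs (.mono 0 64 66 1),
.rs (.join 0 16 6 3 2 1 [(4, 0)]),
.rs (.l2 0 17 24 4 2 1),
.rs (.join 0 1 1 5 4 1 [(0, 0)]),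
.rs (.mono 1 9 13 1),
.rs (.l2 0 17 80 4 1 2),
.rs (.mono 0 2 66 1),
.rs (.join 0 3 4 4 3 1 [(0, 0), (1, 0)]),
.rs (.join 1 4 6 4 3 2 [(2, 1)]),
.rs (.mono 0 16 24 1),
.rs (.join 1 4 4 3 1 2 [(2, 0)]),
.rs (.part [8, 116] [0, 0] [3] []),
.rs (.join 1 4 6 4 2 2 [(2, 0)]),
.rs (.join 0 2 3 3 1 2 [(1, 0)]),
.rs (.l2 0 9 10 3 1 1),
.rs (.join 0 6 3 5 4 2 [(1, 1), (2, 0)]),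
.rs (.part [21, 66] [0, 0] [40] []),
.rs (.join 0 34 6 4 4 0 [(1, 0), (5, 0)]),
.rs (.join 0 17 6 5 3 4 [(0, 2), (4, 0)]),
.rs (.join 1 1 1 2 0 2 [(0, 0)]),
.rs (.join 0 6 5 5 4 2 [(1, 0), (2, 1)]),
.rs (.join 1 2 5 4 3 2 [(1, 1)]),
.rs (.join 1 2 5 4 1 3 [(1, 0)]),
.rs (.join 0 8 5 4 2 2 [(3, 0)]),
.rs (.lipl 1 84 118 0 34),
.rs (.join 0 2 2 4 2 2 [(1, 0)]),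
.rs (.le 1 72 8 3 2),
.rs (.le 0 33 32 5 1),
.rs (.join 1 1 1 3 1 2 [(0, 0)]),
.rs (.part [3, 76] [0, 0] [48] []),
.rs (.part [50, 76] [0, 0] [1] []),
.rs (.l2 1 68 80 6 1 1),
.rs (.lipl 0 10 27 1 17),
.rs (.join 1 4 5 3 3 2 [(2, 2)]),
.rs (.l2 1 65 72 6 1 1),
.rs (.join 0 5 5 5 5 1 [(0, 1), (2, 0)]),
.rs (.deg 6 [3, 1]),
.rs (.lipl 1 30 95 1 65),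
.rs (.ab 0 1),
.rs (.part [65, 62] [0, 1] [] []),
.rs (.join 0 1 3 2 1 1 [(0, 0)]),
.rs (.ordE 1 4 2),
.rs (.ab2 0 80),
.rs (.join 1 8 6 4 3 1 [(3, 0)]),
.rs (.part [64, 7] [0, 0] [56] []),
.rs (.lipl 0 33 53 1 20),
.rs (.l2 1 12 40 3 1 1),
.rs (.join 1 1 4 3 0 3 [(0, 0)]),
.rs (.lipl 1 97 109 1 12),
.rs (.lipl 0 34 43 0 9),
.rs (.lipl 1 98 110 1 12),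
.rs (.mono 1 3 35 1),
.rs (.lipl 0 5 77 1 72),
.rs (.le 1 12 8 3 2),
.rs (.part [9, 54] [0, 0] [64] []),
.rs (.join 0 1 4 4 3 1 [(0, 0)]),
.rs (.lipl 0 10 75 1 65),
.rs (.l2 1 17 20 4 1 1),
.rs (.part [48, 72] [0, 0] [7] []),
.rs (.join 0 2 5 3 2 2 [(1, 1)]),
.rs (.join 0 8 4 4 2 2 [(3, 0)]),
.rs (.join 1 32 6 4 2 3 [(5, 1)]),
.rs (.join 0 1 3 4 3 2 [(0, 1)]),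
.rs (.lipl 1 51 63 1 12),
.rs (.ab2 0 66),
.rs (.ab2 0 5),
.rs (.join 1 2 5 4 2 2 [(1, 0)]),
.rs (.join 0 1 2 5 4 1 [(0, 0)]),
.rs (.l2 0 6 34 1 2 1),
.rs (.join 1 1 5 3 0 3 [(0, 0)]),
.rs (.join 0 16 6 5 3 2 [(4, 0)]),
.rs (.ab 0 6),
.rs (.join 1 4 3 3 3 1 [(2, 1)]),
.rs (.ab2 1 68),
.rs (.ab2 0 18),
.rs (.mono 1 14 46 1),
.rs (.part [8, 119] [0, 1] [] []),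
.rs (.join 1 4 4 3 2 1 [(2, 0)]),
.rs (.l2 0 10 24 3 2 1),
.rs (.join 0 1 4 3 3 2 [(0, 2)]),
.rs (.l2 1 18 20 4 1 1),
.rs (.part [8, 112] [0, 0] [7] []),
.rs (.l2 0 24 48 4 1 2),
.rs (.deg 6 [4, 0]),
.rs (.l2 1 68 72 6 2 1),
.rs (.deg 1 [1, 2]),
.rs (.part [20, 107] [0, 1] [] []),
.rs (.join 0 24 5 4 3 1 [(3, 0), (4, 0)]),
.rs (.le 1 33 1 0 2),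
.rs (.join 0 16 5 5 3 2 [(4, 0)]),
.rs (.join 0 32 6 3 2 2 [(5, 1)]),
.rs (.join 0 3 5 5 5 0 [(0, 0), (1, 0)]),
.rs (.part [80, 47] [0, 1] [] []),
.rs (.part [80, 44] [0, 0] [3] []),
.rs (.l2 1 34 48 5 2 1),
.rs (.mono 1 45 109 2),
.rs (.join 1 2 2 4 1 3 [(1, 0)]),
.rs (.join 0 16 5 3 2 2 [(4, 1)]),
.rs (.join 0 34 6 4 1 3 [(1, 0), (5, 0)]),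
.rs (.un 0 1),
.degU 0 [(0, 4), (1, 1)],
.rs (.deg 4 [1, 2]),
.rs (.lipl 0 17 51 0 34),
.rs (.l2 1 72 80 6 1 1),
.rs (.un 1 0),
.rs (.le 1 65 1 0 1),
.rs (.hall [1] [0, 1, 2]),
.rs (.lipl 1 74 110 0 36),
.rs (.part [93, 34] [1, 0] [] []),
.rs (.part [16, 106] [0, 0] [5] []),
.rs (.mono 1 8 9 1),
.rs (.le 1 24 8 3 1),
.rs (.l2 0 33 48 5 1 1),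
.rs (.part [96, 26] [0, 0] [5] []),
.rs (.l2 0 3 6 1 1 2),
.rs (.join 1 4 3 4 3 1 [(2, 0)]),
.rs (.part [90, 37] [1, 0] [] []),
.rs (.deg 4 [0, 3]),
.rs (.join 0 48 6 4 4 0 [(4, 0), (5, 0)]),
.rs (.join 1 32 6 4 3 2 [(5, 1)]),
.rs (.part [0, 120] [0, 0] [7] []),
.rs (.part [7, 64] [0, 0] [56] []),
.rs (.join 0 32 6 3 1 2 [(5, 0)]),
.rs (.join 0 8 5 5 3 2 [(3, 0)]),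
.rs (.join 1 1 6 3 2 1 [(0, 0)]),
.rs (.lipl 0 65 75 0 10),
.rs (.lipl 0 68 77 0 9),
.rs (.join 0 6 6 4 4 0 [(1, 0), (2, 0)]),
.rs (.part [96, 28] [0, 0] [3] []),
.rs (.lipl 1 74 110 1 36),
.rs (.deg 4 [2, 1]),
.rs (.part [65, 6] [0, 0] [56] []),
.rs (.ab2 0 33),
.rs (.part [5, 66] [0, 0] [56] []),
.rs (.deg 0 [3, 0]),
.rs (.join 1 4 5 4 2 3 [(2, 1)]),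
.rs (.join 0 1 4 4 3 2 [(0, 1)]),
.rs (.join 1 1 4 3 2 2 [(0, 1)]),
.rs (.part [83, 44] [1, 0] [] []),
.rs (.join 1 1 5 4 1 3 [(0, 0)]),
.rs (.ordE 0 8 3),
.rs (.ordE 1 4 3),
.rs (.l2 1 34 40 5 1 1),
.rs (.part [3, 84] [0, 0] [40] []),
.rs (.part [28, 96] [0, 0] [3] []),
.rs (.part [33, 94] [0, 1] [] []),
.rs (.lipl 0 9 43 1 34),
.rs (.part [48, 76] [0, 0] [3] []),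
.rs (.join 1 4 4 4 3 2 [(2, 1)]),
.rs (.lipl 1 38 118 1 80),
.degU 3 [(0, 3), (1, 2)],
.rs (.srt 0 2 0 1 3),
.rs (.deg 2 [0, 3]),
.rs (.ab 0 5),
.rs (.lipl 0 2 74 1 72),
.rs (.join 1 4 4 4 4 3 [(2, 3)]),
.rs (.le 0 17 16 4 2),
.rs (.le 1 65 1 0 3),
.rs (.part [31, 96] [1, 0] [] []),
.rs (.join 1 16 6 3 2 1 [(4, 0)]),
.rs (.lipl 1 52 61 0 9),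
.rs (.mono 0 32 33 1),
.rs (.join 0 1 5 5 3 2 [(0, 0)]),
.rs (.l2 1 68 96 6 1 1),
.rs (.ordE 0 64 2),
.rs (.ordE 1 1 1),
.rs (.l2 1 10 18 1 1 2),
.rs (.join 0 3 2 4 3 2 [(0, 1), (1, 0)]),
.rs (.srt 0 3 0 0 3),
.rs (.part [42, 21] [0, 0] [64] []),
.rs (.join 1 8 4 4 2 3 [(3, 1)]),
.rs (.join 0 8 4 3 1 2 [(3, 0)]),
.rs (.join 0 1 3 5 3 2 [(0, 0)]),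
.rs (.mono 1 21 53 1),
.rs (.join 0 32 6 5 2 3 [(5, 0)]),
.rs (.join 1 1 6 3 1 2 [(0, 0)]),
.rs (.join 1 2 5 4 2 4 [(1, 2)]),
.rs (.ab2 0 10),
.rs (.l2 1 9 65 0 2 1),
.rs (.l2 1 18 20 4 2 1),
.rs (.part [30, 96] [0, 0] [1] []),
.rs (.part [35, 28] [0, 0] [64] []),
.rs (.lipl 1 100 118 1 18),
.rs (.srt 0 1 0 0 4),
.rs (.part [24, 100] [0, 0] [3] []),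
.rs (.lipl 0 17 83 0 66),
.rs (.l2 0 10 18 1 1 1),
.rs (.join 0 6 5 5 4 2 [(1, 1), (2, 0)]),
.rs (.srt 0 3 0 0 4),
.rs (.join 1 8 5 3 2 2 [(3, 1)]),
.rs (.lipl 0 10 27 0 17),
.rs (.join 1 1 5 3 1 2 [(0, 0)]),
.rs (.join 0 9 5 4 3 1 [(0, 0), (3, 0)]),
.rs (.le 0 9 8 3 3),
.rs (.part [43, 84] [1, 0] [] []),
.rs (.lipl 0 12 46 1 34),
.rs (.part [66, 61] [0, 1] [] []),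
.rs (.join 0 20 5 5 3 2 [(2, 0), (4, 0)]),
.rs (.le 1 34 2 1 3),
.rs (.l2 1 10 12 3 1 1),
.degU 3 [(0, 2), (1, 3)],
.rs (.join 0 2 6 4 2 2 [(1, 0)]),
.rs (.join 1 4 3 3 3 2 [(2, 2)]),
.rs (.part [51, 76] [1, 0] [] []),
.rs (.ab2 1 40),
.rs (.deg 5 [0, 3]),
.rs (.join 1 4 4 3 3 2 [(2, 2)]),
.rs (.ab2 0 6),
.rs (.srt 0 5 0 4 4),
.rs (.join 0 17 5 4 3 1 [(0, 0), (4, 0)]),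
.rs (.join 1 4 5 4 2 2 [(2, 0)]),
.rs (.join 0 4 6 4 1 3 [(2, 0)]),
.rs (.part [68, 35] [0, 0] [24] []),
.rs (.mono 1 1 3 1),
.rs (.le 1 72 8 3 3),
.rs (.mono 1 8 12 1),
.rs (.srt 0 5 0 4 1),
.rs (.part [1, 70] [0, 0] [56] []),
.rs (.l2 1 3 66 1 1 1),
.rs (.join 1 1 1 2 1 1 [(0, 0)]),
.rs (.join 1 5 4 4 3 2 [(0, 0), (2, 1)]),
.rs (.join 1 5 3 3 2 1 [(0, 0), (2, 0)]),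
.rs (.mono 1 10 26 1),
.rs (.l2 0 9 24 3 1 2),
.rs (.lipl 0 34 51 0 17),
.rs (.mono 1 8 10 1),
.rs (.join 1 16 6 3 2 2 [(4, 1)]),
.rs (.join 0 2 2 3 2 2 [(1, 1)]),
.rs (.join 1 4 6 3 2 1 [(2, 0)]),
.rs (.join 1 4 5 3 1 2 [(2, 0)]),
.rs (.part [80, 40] [0, 0] [7] []),
.rs (.part [3, 100] [0, 0] [24] []),
.rs (.part [6, 121] [0, 1] [] []),
.rs (.l2 0 24 40 3 1 1),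
.rs (.le 0 66 64 6 2),
.rs (.part [24, 103] [0, 1] [] []),
.rs (.part [113, 14] [1, 0] [] []),
.rs (.part [26, 37] [0, 0] [64] []),
.rs (.part [78, 49] [1, 0] [] []),
.rs (.join 1 4 6 3 2 2 [(2, 1)]),
.rs (.lipl 1 27 63 1 36),
.rs (.join 0 1 5 4 4 2 [(0, 2)]),
.rs (.le 0 33 32 5 3),
.rs (.un 0 5),
.rs (.part [109, 18] [1, 0] [] []),
.rs (.join 0 1 4 3 3 1 [(0, 1)]),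
.rs (.join 1 32 6 3 3 1 [(5, 1)]),
.rs (.lipl 1 82 118 0 36),
.rs (.l2 1 65 72 6 1 2),
.rs (.join 0 1 6 3 2 1 [(0, 0)]),
.rs (.join 1 1 5 3 2 1 [(0, 0)]),
.rs (.lipl 1 82 94 1 12),
.rs (.ordE 0 16 1),
.rs (.join 1 2 6 4 3 1 [(1, 0)]),
.rs (.part [106, 21] [1, 0] [] []),
.rs (.le 1 68 64 6 4),
.rs (.part [48, 79] [0, 1] [] []),
.rs (.part [50, 72] [0, 0] [5] []),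
.rs (.join 0 10 5 5 5 0 [(1, 0), (3, 0)]),
.rs (.join 0 8 4 2 1 1 [(3, 0)]),
.rs (.lipl 1 74 107 0 33),
.rs (.le 1 40 8 3 1),
.rs (.lipl 0 6 78 1 72),
.degU 3 [(0, 4), (1, 1)],
.rs (.join 1 1 1 3 2 2 [(0, 1)]),
.rs (.lipl 1 30 63 1 33),
.rs (.join 1 10 4 4 3 2 [(1, 1), (3, 0)]),
.rs (.join 0 40 6 4 4 0 [(3, 0), (5, 0)]),
.rs (.join 1 8 6 2 1 1 [(3, 0)]),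
.rs (.join 1 2 6 3 2 1 [(1, 0)]),
.rs (.lipl 0 10 30 1 20),
.rs (.lipl 0 33 45 1 12),
.rs (.le 1 9 8 3 1),
.rs (.join 1 32 6 4 3 1 [(5, 0)]),
.rs (.ab 0 3),
.rs (.un 0 6),
.rs (.lipl 0 17 27 1 10),
.rs (.join 0 48 6 5 3 2 [(4, 0), (5, 0)]),
.rs (.part [56, 64] [0, 0] [7] []),
.rs (.lipl 0 10 43 1 33),
.rs (.srt 0 3 0 0 1),
.rs (.ab2 1 96),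
.rs (.deg 2 [1, 2]),
.rs (.join 1 2 3 4 3 1 [(1, 0)]),
.rs (.part [74, 53] [1, 0] [] []),
.rs (.join 1 4 4 3 2 2 [(2, 1)]),
.rs (.join 0 3 4 4 3 2 [(0, 1), (1, 0)]),
.rs (.part [75, 52] [1, 0] [] []),
.rs (.join 0 2 3 2 1 1 [(1, 0)]),
.rs (.deg 0 [2, 1]),
.rs (.part [17, 110] [0, 1] [] []),
.rs (.ab 0 4),
.rs (.lipl 1 81 117 1 36),
.rs (.l2 1 18 80 4 1 1),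
.rs (.lipl 0 17 113 1 96),
.rs (.join 1 8 4 3 2 2 [(3, 1)]),
.degU 0 [(0, 2), (1, 3)],
.rs (.part [64, 56] [0, 0] [7] []),
.rs (.lipl 1 82 94 0 12),
.rs (.join 1 1 2 4 1 3 [(0, 0)]),
.rs (.part [96, 24] [0, 0] [7] []),
.rs (.l2 1 10 24 3 1 1),
.rs (.join 0 32 6 4 2 2 [(5, 0)]),
.rs (.l2 1 18 24 4 2 1),
.rs (.join 1 1 6 3 0 3 [(0, 0)]),
.rs (.join 1 4 6 4 1 3 [(2, 0)]),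
.rs (.lipl 0 3 75 1 72),
.rs (.part [1, 78] [0, 0] [48] []),
.rs (.l2 0 33 36 5 1 1),
.rs (.join 0 4 6 3 0 3 [(2, 0)]),
.rs (.l2 1 20 80 4 1 1),
.rs (.join 0 2 2 3 1 2 [(1, 0)]),
.rs (.mono 1 12 28 1),
.rs (.lipl 0 17 53 1 36),
.rs (.part [40, 80] [0, 0] [7] []),
.rs (.join 0 1 1 4 3 1 [(0, 0)]),
.rs (.join 1 2 3 3 2 2 [(1, 1)]),
.rs (.join 0 2 5 4 2 2 [(1, 0)]),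
.rs (.part [72, 50] [0, 0] [5] []),
.rs (.join 1 16 6 4 2 2 [(4, 0)]),
.rs (.join 0 24 5 3 2 1 [(3, 0), (4, 0)]),
.rs (.step 0 1 88 [24, 72, 80, 88] []),
.rs (.lipl 1 22 118 0 96),
.rs (.join 1 1 1 3 0 3 [(0, 0)]),
.rs (.part [67, 4] [0, 0] [56] []),
.rs (.l2 1 18 34 1 2 1),
.rs (.l2 0 3 34 1 1 1),
.rs (.l2 0 17 80 4 2 1),
.rs (.join 0 1 6 4 4 0 [(0, 0)]),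
.rs (.join 1 1 3 3 2 2 [(0, 1)]),
.rs (.join 1 2 3 3 1 2 [(1, 0)]),
.rs (.lipl 0 18 51 1 33),
.rs (.join 0 2 2 2 1 1 [(1, 0)]),
.rs (.l2 1 18 34 1 1 2),
.rs (.lipl 1 44 109 1 65),
.rs (.join 1 2 4 3 2 1 [(1, 0)]),
.rs (.lipl 1 14 79 1 65),
.rs (.ab2 0 96),
.rs (.l2 0 66 96 6 2 1),
.rs (.join 1 8 5 3 1 2 [(3, 0)]),
.rs (.join 0 1 1 5 3 2 [(0, 0)]),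
.rs (.join 0 10 4 5 4 2 [(1, 1), (3, 0)]),
.rs (.join 0 1 1 3 3 0 [(0, 0)]),
.rs (.l2 0 17 18 4 1 2),
.rs (.le 1 65 1 0 2),
.rs (.lipl 1 100 109 0 9),
.rs (.join 0 4 3 5 2 3 [(2, 0)]),
.rs (.part [13, 50] [0, 0] [64] []),
.rs (.part [41, 22] [0, 0] [64] []),
.rs (.join 0 1 3 4 3 3 [(0, 2)]),
.rs (.lipl 0 33 105 1 72),
.rs (.join 1 4 4 4 3 3 [(2, 2)]),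
.rs (.part [48, 74] [0, 0] [5] []),
.rs (.l2 0 3 33 0 1 1),
.rs (.join 0 6 3 5 3 2 [(1, 0), (2, 0)]),
.rs (.join 1 32 6 4 2 2 [(5, 0)]),
.rs (.lipl 1 22 87 1 65),
.rs (.join 0 1 5 4 2 2 [(0, 0)]),
.rs (.lipl 1 52 118 0 66),
.rs (.part [61, 66] [1, 0] [] []),
.rs (.part [11, 52] [0, 0] [64] []),
.rs (.join 1 4 4 4 2 3 [(2, 1)]),
.rs (.part [32, 88] [0, 0] [7] []),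
.rs (.lipl 1 22 118 1 96),
.rs (.part [10, 117] [0, 1] [] []),
.rs (.join 1 4 6 3 1 2 [(2, 0)]),
.rs (.join 0 3 3 4 3 2 [(0, 1), (1, 0)]),
.rs (.join 1 2 6 3 2 2 [(1, 1)]),
.rs (.l2 1 17 65 0 2 1),
.rs (.part [24, 98] [0, 0] [5] []),
.rs (.part [4, 67] [0, 0] [56] []),
.rs (.l2 1 10 34 1 2 1),
.rs (.join 0 4 5 3 2 1 [(2, 0)]),
.rs (.lipl 0 20 29 0 9),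
.rs (.le 0 10 8 3 3),
.rs (.mono 0 32 96 1),
.rs (.lipl 0 33 43 1 10),
.rs (.join 1 4 3 3 2 2 [(2, 1)]),
.rs (.join 1 2 5 3 2 2 [(1, 1)]),
.degU 1 [(0, 4), (1, 1)],
.rs (.join 0 8 4 4 3 1 [(3, 0)]),
.rs (.l2 0 33 40 5 1 1),
.rs (.mono 1 10 14 1),
.degU 5 [(0, 2), (1, 3)],
.rs (.join 0 1 1 3 2 2 [(0, 1)]),
.rs (.lipl 0 18 27 1 9),
.rs (.lipl 0 33 45 0 12),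
.rs (.join 1 1 3 2 1 1 [(0, 0)]),
.rs (.lipl 1 84 118 1 34),
.rs (.l2 0 3 9 0 1 3),
.rs (.lipl 0 33 51 0 18),
.rs (.join 0 4 4 3 1 2 [(2, 0)]),
.rs (.lipl 1 38 118 0 80),
.rs (.mono 1 3 7 1),
.rs (.join 1 8 6 3 0 3 [(3, 0)]),
.rs (.join 0 2 3 3 2 2 [(1, 1)]),
.rs (.lipl 0 17 51 1 34),
.rs (.lipl 1 82 118 1 36),
.rs (.hall [0] [3, 4, 5]),
.rs (.srt 0 2 0 1 2),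
.rs (.join 0 16 6 4 2 2 [(4, 0)]),
.rs (.lipl 1 98 118 1 20),
.degU 1 [(0, 3), (1, 2)],
.rs (.join 1 1 6 4 2 2 [(0, 0)]),
.rs (.l2 0 40 48 5 1 1),
.rs (.part [32, 90] [0, 0] [5] []),
.rs (.l2 1 12 24 3 1 1),
.rs (.lip 1 37 61 56),
.rs (.l2 0 48 80 4 2 1),
.rs (.lipl 1 46 111 1 65),
.rs (.join 0 8 6 3 2 1 [(3, 0)]),
.rs (.join 1 16 6 4 3 2 [(4, 1)]),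
.rs (.part [91, 36] [1, 0] [] []),
.rs (.join 0 3 3 5 3 2 [(0, 0), (1, 0)]),
.rs (.srt 0 2 0 1 1),
.rs (.l2 0 34 40 5 2 1),
.rs (.join 0 4 3 4 2 2 [(2, 0)]),
.rs (.ordE 0 2 1),
.rs (.deg 0 [1, 2]),
.rs (.l2 1 34 48 5 1 1),
.rs (.join 0 2 6 3 1 2 [(1, 0)]),
.rs (.l2 1 40 96 5 1 2),
.rs (.part [37, 66] [0, 0] [24] []),
.rs (.join 1 1 1 4 2 2 [(0, 0)]),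
.rs (.part [66, 13] [0, 0] [48] []),
.rs (.deg 5 [3, 0]),
.rs (.join 0 2 6 3 2 1 [(1, 0)]),
.rs (.l2 0 6 18 1 1 1),
.rs (.join 1 2 4 4 2 2 [(1, 0)]),
.rs (.un 0 4),
.rs (.ab 1 2),
.rs (.join 1 16 6 4 3 1 [(4, 0)]),
.rs (.ab2 1 5),
.rs (.part [107, 20] [1, 0] [] []),
.rs (.join 0 16 6 4 1 3 [(4, 0)]),
.rs (.lipl 0 96 105 0 9),
.rs (.join 1 4 3 4 3 2 [(2, 1)]),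
.rs (.lipl 1 74 94 0 20),
.rs (.part [16, 104] [0, 0] [7] []),
.rs (.le 1 33 1 0 3),
.rs (.part [46, 81] [1, 0] [] []),
.rs (.lipl 1 100 110 0 10),
.rs (.join 1 4 6 4 3 1 [(2, 0)]),
.rs (.l2 1 17 33 0 1 1),
.rs (.l2 1 20 68 2 1 1),
.rs (.part [66, 5] [0, 0] [56] []),
.rs (.join 1 8 4 2 1 1 [(3, 0)]),
.rs (.join 0 1 1 2 1 1 [(0, 0)]),
.rs (.part [0, 71] [0, 0] [56] []),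
.rs (.le 0 80 16 4 1),
.rs (.le 0 17 16 4 3),
.rs (.srt 0 4 0 3 2),
.rs (.join 1 4 6 4 2 3 [(2, 1)]),
.rs (.lipl 0 33 43 0 10),
.rs (.join 0 1 2 4 2 2 [(0, 0)]),
.rs (.part [14, 49] [0, 0] [64] []),
.rs (.part [65, 38] [0, 0] [24] []),
.rs (.join 0 10 4 3 2 1 [(1, 0), (3, 0)]),
.rs (.join 1 4 3 3 3 0 [(2, 0)]),
.rs (.join 0 1 4 4 4 2 [(0, 2)]),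
.rs (.part [2, 125] [0, 1] [] []),
.rs (.part [25, 38] [0, 0] [64] []),
.rs (.lipl 1 44 61 0 17),
.rs (.l2 1 10 72 3 1 1),
.rs (.join 0 2 3 5 2 3 [(1, 0)]),
.rs (.srt 0 1 0 0 2),
.rs (.part [121, 6] [1, 0] [] []),
.rs (.join 1 16 5 4 1 3 [(4, 0)]),
.rs (.join 1 8 6 3 2 2 [(3, 1)]),
.rs (.srt 0 1 0 0 3),
.rs (.part [66, 37] [0, 0] [24] []),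
.rs (.lipl 0 9 75 0 66),
.rs (.mono 1 1 5 1),
.rs (.join 0 16 5 3 1 2 [(4, 0)]),
.rs (.part [44, 80] [0, 0] [3] []),
.rs (.ab2 1 80),
.rs (.l2 1 12 68 2 1 1),
.rs (.l2 0 9 17 0 2 1),
.rs (.deg 2 [2, 1]),
.rs (.ab2 0 17),
.degU 4 [(0, 3), (1, 2)],
.rs (.part [52, 72] [0, 0] [3] []),
.rs (.join 0 9 4 3 2 1 [(0, 0), (3, 0)]),
.rs (.l2 0 6 68 2 2 1),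
.rs (.mono 1 64 68 1),
.rs (.join 1 32 6 3 2 2 [(5, 1)]),
.rs (.le 0 34 32 5 1),
.rs (.part [6, 73] [0, 0] [48] []),
.rs (.join 0 8 4 5 3 2 [(3, 0)]),
.rs (.part [2, 101] [0, 0] [24] []),
.rs (.le 1 20 16 4 3),
.rs (.l2 1 3 33 0 1 1),
.rs (.part [89, 38] [1, 0] [] []),
.degU 0 [(0, 3), (1, 2)],
.degU 4 [(0, 2), (1, 3)],
.rs (.part [6, 81] [0, 0] [40] []),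
.rs (.lipl 1 98 118 0 20),
.rs (.l2 1 12 24 3 1 2),
.rs (.deg 6 [2, 2]),
.rs (.join 0 16 6 2 1 2 [(4, 1)]),
.rs (.lipl 0 18 27 0 9),
.rs (.part [1, 126] [0, 1] [] []),
.rs (.join 1 2 6 2 1 1 [(1, 0)]),
.rs (.l2 1 12 72 3 2 1),
.rs (.part [53, 74] [1, 0] [] []),
.rs (.join 0 2 4 4 2 2 [(1, 0)]),
.rs (.lipl 0 17 89 1 72),
.rs (.part [5, 98] [0, 0] [24] []),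
.rs (.part [52, 74] [0, 0] [1] []),
.rs (.join 0 1 3 3 2 1 [(0, 0)]),
.rs (.join 1 1 3 3 1 2 [(0, 0)]),
.rs (.join 0 6 6 5 2 3 [(1, 0), (2, 0)]),
.rs (.lipl 1 11 79 1 68),
.rs (.join 0 32 6 3 2 1 [(5, 0)]),
.rs (.le 1 36 32 5 3),
.rs (.lipl 0 9 43 0 34),
.rs (.ordE 0 8 2),
.rs (.join 0 1 1 4 2 2 [(0, 0)]),
.rs (.join 0 3 3 3 2 1 [(0, 0), (1, 0)]),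
.rs (.l2 0 9 24 3 3 1),
.rs (.l2 0 9 24 3 2 1),
.rs (.join 0 16 5 4 2 2 [(4, 0)]),
.rs (.l2 1 3 34 1 1 2),
.rs (.l2 1 3 17 0 1 1),
.rs (.join 1 1 1 4 1 3 [(0, 0)]),
.rs (.part [40, 84] [0, 0] [3] []),
.rs (.le 0 33 32 5 2),
.rs (.le 1 3 1 0 1),
.rs (.join 1 4 6 4 3 3 [(2, 2)]),
.rs (.l2 1 12 24 3 2 1),
.rs (.lipl 0 72 89 0 17),
.rs (.part [16, 105] [0, 0] [6] []),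
.rs (.join 0 10 4 4 3 1 [(1, 0), (3, 0)]),
.rs (.join 0 8 6 4 2 2 [(3, 0)]),
.rs (.join 1 1 1 2 1 2 [(0, 1)]),
.rs (.part [32, 89] [0, 0] [6] []),
.rs (.srt 0 4 0 3 4),
.rs (.lipl 0 9 27 1 18),
.rs (.join 1 8 5 3 0 3 [(3, 0)]),
.rs (.le 1 12 8 3 3),
.rs (.srt 0 4 0 3 1),
.rs (.deg 5 [1, 2]),
.rs (.join 0 17 6 5 4 2 [(0, 0), (4, 1)]),
.rs (.join 0 2 6 5 2 3 [(1, 0)]),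
.rs (.join 1 2 4 3 1 2 [(1, 0)]),
.rs (.l2 0 6 66 1 1 2),
.rs (.join 1 32 6 3 2 1 [(5, 0)]),
.rs (.join 0 48 6 5 2 3 [(4, 0), (5, 0)]),
.rs (.l2 0 9 10 3 1 2),
.rs (.lipl 1 54 63 1 9),
.rs (.lipl 1 100 118 0 18),
.rs (.join 0 10 6 4 4 1 [(1, 1), (3, 0)]),
.rs (.join 1 4 3 3 1 2 [(2, 0)]),
.rs (.ab2 0 72),
.rs (.part [105, 22] [1, 0] [] []),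
.rs (.part [80, 42] [0, 0] [5] []),
.rs (.join 1 8 6 4 1 3 [(3, 0)]),
.rs (.join 1 1 4 3 1 2 [(0, 0)]),
.rs (.l2 0 10 24 3 1 1),
.rs (.l2 1 24 80 4 1 1),
.rs (.deg 3 [3, 0]),
.rs (.join 1 2 2 4 2 2 [(1, 0)]),
.rs (.lipl 0 18 51 0 33),
.rs (.join 1 2 4 3 2 2 [(1, 1)]),
.rs (.join 0 1 5 4 3 1 [(0, 0)]),
.rs (.join 0 10 4 4 3 2 [(1, 0), (3, 1)]),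
.rs (.join 0 1 4 3 3 0 [(0, 0)]),
.rs (.mono 1 12 44 1),
.rs (.step 1 0 60 [28, 44, 52, 56] []),
.rs (.l2 1 18 80 4 2 1),
.rs (.join 0 1 5 5 4 1 [(0, 0)]),
.rs (.join 1 16 5 4 2 2 [(4, 0)]),
.rs (.join 1 1 2 2 1 1 [(0, 0)]),
.rs (.join 1 8 4 4 2 2 [(3, 0)]),
.rs (.ab2 0 24),
.rs (.srt 0 3 0 0 2),
.rs (.part [4, 75] [0, 0] [48] []),
.rs (.part [72, 52] [0, 0] [3] []),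
.rs (.join 0 2 3 5 1 4 [(1, 0)]),
.rs (.l2 0 18 48 4 1 1),
.rs (.join 0 16 6 3 1 2 [(4, 0)]),
.rs (.ordE 1 32 2),
.rs (.deg 2 [3, 0]),
.rs (.join 1 16 6 3 1 2 [(4, 0)])]

/-- the bounds. -/
def bl : List Bnd := [⟨false, [(0, 0), (0, 1), (0, 2), (0, 3), (0, 4), (0, 5), (0, 6)], 14⟩]

noncomputable def gb : List Gb := [
⟨0, [3, 3, 0, 3, 2, 0, 4]⟩,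
⟨0, [3, 4, 0, 2, 1, 1, 4]⟩,
⟨0, [4, 1, 0, 4, 3, 0, 3]⟩,
⟨0, [3, 3, 3, 3, 1, 0, 2]⟩,
⟨0, [2, 2, 1, 2, 2, 2, 4]⟩,
⟨0, [3, 2, 2, 3, 1, 0, 4]⟩,
⟨0, [4, 3, 2, 1, 0, 0, 5]⟩,
⟨0, [3, 2, 1, 3, 3, 0, 3]⟩,
⟨0, [4, 0, 0, 4, 3, 2, 2]⟩,
⟨0, [4, 2, 2, 3, 2, 1, 1]⟩,
⟨0, [3, 2, 0, 4, 3, 3, 0]⟩,
⟨0, [3, 1, 1, 3, 3, 0, 4]⟩,
⟨0, [4, 2, 2, 3, 2, 2, 0]⟩,
⟨0, [4, 3, 2, 3, 3, 0, 0]⟩,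
⟨0, [3, 2, 2, 3, 3, 0, 2]⟩,
⟨0, [3, 4, 0, 1, 1, 1, 5]⟩,
⟨0, [4, 2, 0, 3, 2, 2, 2]⟩,
⟨0, [3, 3, 3, 3, 3, 0, 0]⟩,
⟨0, [3, 3, 3, 3, 1, 2, 0]⟩,
⟨0, [3, 3, 0, 3, 3, 3, 0]⟩,
⟨0, [3, 3, 2, 3, 0, 0, 4]⟩,
⟨0, [4, 3, 3, 3, 2, 0, 0]⟩,
⟨0, [4, 4, 0, 3, 0, 0, 4]⟩,
⟨0, [3, 3, 0, 2, 2, 1, 4]⟩,
⟨0, [3, 0, 0, 3, 3, 2, 4]⟩,
⟨0, [3, 1, 0, 3, 2, 2, 4]⟩,
⟨0, [3, 3, 0, 3, 1, 1, 4]⟩,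
⟨0, [3, 0, 1, 3, 3, 3, 2]⟩,
⟨0, [3, 0, 0, 3, 3, 3, 3]⟩,
⟨0, [4, 3, 2, 4, 0, 0, 2]⟩,
⟨0, [3, 2, 2, 3, 3, 2, 0]⟩,
⟨0, [3, 3, 2, 3, 2, 2, 0]⟩,
⟨0, [3, 2, 2, 3, 1, 1, 3]⟩,
⟨0, [3, 3, 0, 2, 2, 0, 5]⟩,
⟨0, [4, 3, 0, 4, 1, 0, 3]⟩,
⟨0, [3, 3, 0, 3, 2, 2, 2]⟩,
⟨0, [3, 3, 3, 2, 0, 0, 4]⟩,
⟨0, [3, 3, 1, 1, 1, 1, 5]⟩,
⟨0, [3, 2, 0, 3, 3, 0, 4]⟩,
⟨0, [4, 3, 0, 3, 3, 2, 0]⟩,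
⟨0, [3, 3, 1, 3, 3, 0, 2]⟩,
⟨0, [3, 3, 3, 3, 0, 0, 3]⟩,
⟨0, [3, 3, 0, 3, 3, 1, 2]⟩,
⟨0, [4, 3, 0, 2, 1, 1, 4]⟩,
⟨0, [3, 3, 2, 2, 1, 1, 3]⟩,
⟨0, [3, 3, 0, 2, 1, 1, 5]⟩,
⟨0, [3, 1, 1, 3, 2, 2, 3]⟩,
⟨0, [4, 3, 0, 2, 2, 0, 4]⟩,
⟨0, [3, 2, 0, 3, 3, 2, 2]⟩,
⟨0, [3, 3, 2, 3, 2, 0, 2]⟩,
⟨0, [3, 3, 3, 2, 1, 0, 3]⟩,
⟨0, [4, 3, 0, 3, 1, 0, 4]⟩]

noncomputable def gads : List Gt := [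
⟨0, [⟨1, 3, []⟩, ⟨24, 5, []⟩], [1, 1], 1, [(9, 1), (17, 1)]⟩,
⟨1, [⟨66, 3, []⟩, ⟨20, 3, []⟩, ⟨32, 4, []⟩], [7, 3], 1, [(38, 1), (50, 1), (100, 1), (112, 1)]⟩,
⟨1, [⟨0, 0, [(17, 2)]⟩, ⟨0, 0, [(10, 2)]⟩], [3, 3, 3], 1, [(27, 1)]⟩,
⟨0, [⟨1, 4, []⟩, ⟨2, 2, []⟩, ⟨48, 4, []⟩, ⟨8, 2, []⟩], [3, 2, 2, 12, 8, 8], 2, [(3, 1), (24, 1), (27, 2), (40, 1), (43, 2)]⟩,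
⟨0, [⟨24, 3, []⟩, ⟨96, 3, []⟩, ⟨1, 2, []⟩, ⟨2, 2, []⟩], [3, 3, 12, 12, 12], 2, [(3, 1), (40, 1), (43, 2), (48, 1), (51, 2), (72, 1), (75, 2), (80, 1), (83, 2)]⟩,
⟨1, [⟨24, 3, []⟩, ⟨32, 3, []⟩, ⟨64, 4, []⟩], [7, 3], 1, [(104, 1), (112, 1)]⟩,
⟨1, [⟨4, 3, []⟩, ⟨34, 4, []⟩, ⟨64, 3, []⟩], [7, 5], 1, [(70, 1), (100, 1)]⟩,
⟨1, [⟨8, 2, []⟩, ⟨32, 2, []⟩, ⟨0, 0, [(3, 2)]⟩, ⟨4, 4, []⟩, ⟨64, 5, []⟩], [3, 3, 3, 12, 4, 4], 2, [(71, 1), (104, 1), (111, 2)]⟩,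
⟨0, [⟨33, 4, []⟩, ⟨88, 4, []⟩], [3], 1, [(9, 1), (17, 1), (40, 1), (48, 1), (65, 1), (96, 1)]⟩,
⟨0, [⟨3, 4, []⟩, ⟨68, 4, []⟩], [3], 1, [(5, 1), (6, 1), (65, 1), (66, 1)]⟩,
⟨1, [⟨10, 4, []⟩, ⟨16, 3, []⟩, ⟨32, 3, []⟩], [7, 6], 1, [(50, 1), (56, 1)]⟩,
⟨1, [⟨17, 3, []⟩, ⟨4, 3, []⟩, ⟨32, 4, []⟩], [7, 3], 1, [(37, 1), (52, 1)]⟩,
⟨1, [⟨0, 0, [(20, 2)]⟩, ⟨64, 2, []⟩], [3, 3, 3], 1, [(84, 1)]⟩,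
⟨0, [⟨56, 4, []⟩, ⟨64, 4, []⟩], [3], 1, [(72, 1), (80, 1), (96, 1)]⟩,
⟨1, [⟨72, 3, []⟩, ⟨16, 3, []⟩, ⟨32, 4, []⟩], [7, 3], 1, [(56, 1), (112, 1)]⟩,
⟨0, [⟨8, 3, []⟩, ⟨81, 5, []⟩], [1, 1], 1, [(9, 1), (24, 1), (72, 1)]⟩,
⟨1, [⟨6, 4, []⟩, ⟨0, 0, [(17, 2)]⟩, ⟨8, 2, []⟩, ⟨32, 2, []⟩, ⟨64, 5, []⟩], [3, 2, 2, 12, 12, 12], 2, [(83, 1), (85, 1), (104, 1), (123, 2), (125, 2)]⟩,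
⟨0, [⟨1, 3, []⟩, ⟨2, 3, []⟩, ⟨8, 2, []⟩, ⟨32, 2, []⟩], [3, 3, 12, 12, 12], 2, [(3, 1), (40, 1), (43, 2)]⟩,
⟨1, [⟨0, 0, [(72, 2)]⟩, ⟨16, 2, []⟩], [3, 3, 3], 1, [(88, 1)]⟩,
⟨1, [⟨4, 3, []⟩, ⟨32, 3, []⟩, ⟨64, 4, []⟩], [7, 3], 1, [(100, 1)]⟩,
⟨0, [⟨8, 3, []⟩, ⟨34, 4, []⟩, ⟨1, 3, []⟩, ⟨4, 2, []⟩, ⟨64, 2, []⟩], [11, 17, 28, 28], 2, [(7, 1), (10, 1), (37, 1), (40, 1), (65, 1), (79, 2), (109, 2)]⟩,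
⟨0, [⟨9, 5, []⟩, ⟨96, 3, []⟩], [2, 2], 1, [(33, 1), (40, 1), (65, 1), (72, 1)]⟩,
⟨1, [⟨4, 3, []⟩, ⟨96, 4, []⟩, ⟨16, 3, []⟩], [7, 5], 1, [(52, 1), (84, 1)]⟩,
⟨1, [⟨0, 0, [(12, 2)]⟩, ⟨2, 2, []⟩], [3, 3, 3], 1, [(14, 1)]⟩,
⟨0, [⟨52, 5, []⟩, ⟨8, 3, []⟩], [2, 2], 1, [(12, 1), (24, 1), (40, 1)]⟩,
⟨1, [⟨0, 0, [(12, 2)]⟩, ⟨32, 2, []⟩], [3, 3, 3], 1, [(44, 1)]⟩,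
⟨1, [⟨33, 3, []⟩, ⟨20, 4, []⟩, ⟨64, 3, []⟩], [7, 5], 1, [(69, 1), (81, 1), (100, 1), (112, 1)]⟩,
⟨0, [⟨17, 5, []⟩, ⟨96, 3, []⟩], [2, 2], 1, [(33, 1), (48, 1), (65, 1), (80, 1)]⟩,
⟨1, [⟨2, 2, []⟩, ⟨64, 2, []⟩], [3, 3, 3], 1, [(66, 1)]⟩,
⟨0, [⟨1, 3, []⟩, ⟨64, 5, []⟩], [1, 1], 1, [(65, 1)]⟩,
⟨1, [⟨0, 0, [(34, 2)]⟩, ⟨0, 0, [(20, 2)]⟩], [3, 3, 3], 1, [(54, 1)]⟩,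
⟨0, [⟨19, 4, []⟩, ⟨64, 4, []⟩], [3], 1, [(65, 1), (66, 1), (80, 1)]⟩,
⟨1, [⟨48, 3, []⟩, ⟨12, 3, []⟩, ⟨64, 4, []⟩], [7, 3], 1, [(84, 1), (88, 1), (100, 1), (104, 1)]⟩,
⟨0, [⟨1, 3, []⟩, ⟨6, 3, []⟩, ⟨8, 2, []⟩, ⟨0, 0, [(20, 2)]⟩], [3, 3, 12, 12, 12], 2, [(3, 1), (5, 1), (28, 1), (29, 2)]⟩,
⟨1, [⟨20, 3, []⟩, ⟨32, 3, []⟩, ⟨64, 4, []⟩], [7, 3], 1, [(100, 1), (112, 1)]⟩,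
⟨1, [⟨17, 3, []⟩, ⟨72, 3, []⟩, ⟨32, 4, []⟩], [7, 3], 1, [(41, 1), (56, 1), (97, 1), (112, 1)]⟩,
⟨0, [⟨10, 4, []⟩, ⟨65, 4, []⟩], [3], 1, [(3, 1), (9, 1), (66, 1), (72, 1)]⟩,
⟨1, [⟨3, 3, []⟩, ⟨20, 3, []⟩, ⟨64, 4, []⟩], [7, 3], 1, [(69, 1), (70, 1), (81, 1), (82, 1)]⟩,
⟨0, [⟨9, 5, []⟩, ⟨64, 3, []⟩], [2, 2], 1, [(65, 1), (72, 1)]⟩,
⟨1, [⟨2, 2, []⟩, ⟨4, 2, []⟩], [3, 3, 3], 1, [(6, 1)]⟩,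
⟨1, [⟨0, 0, [(3, 2)]⟩, ⟨4, 2, []⟩], [3, 3, 3], 1, [(7, 1)]⟩,
⟨1, [⟨24, 4, []⟩, ⟨32, 3, []⟩, ⟨64, 3, []⟩], [7, 6], 1, [(104, 1), (112, 1)]⟩,
⟨1, [⟨4, 3, []⟩, ⟨10, 4, []⟩, ⟨64, 3, []⟩], [7, 5], 1, [(70, 1), (76, 1)]⟩,
⟨1, [⟨40, 3, []⟩, ⟨16, 2, [(5, 1)]⟩, ⟨64, 4, []⟩], [7, 3], 1, [(77, 1), (88, 1), (101, 1), (112, 1)]⟩,
⟨0, [⟨68, 5, []⟩, ⟨1, 3, []⟩], [2, 2], 1, [(5, 1), (65, 1)]⟩,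
⟨1, [⟨8, 2, []⟩, ⟨32, 2, []⟩], [3, 3, 3], 1, [(40, 1)]⟩,
⟨1, [⟨16, 2, []⟩, ⟨32, 2, []⟩], [3, 3, 3], 1, [(48, 1)]⟩,
⟨1, [⟨3, 3, []⟩, ⟨4, 2, [(40, 1)]⟩, ⟨64, 4, []⟩], [7, 3], 1, [(69, 1), (70, 1), (105, 1), (106, 1)]⟩,
⟨1, [⟨40, 3, []⟩, ⟨2, 3, []⟩, ⟨4, 4, []⟩], [7, 3], 1, [(14, 1), (38, 1)]⟩,
⟨1, [⟨8, 2, []⟩, ⟨16, 2, []⟩, ⟨2, 2, []⟩, ⟨4, 4, []⟩, ⟨64, 5, []⟩], [3, 3, 3, 12, 4, 4], 2, [(70, 1), (88, 1), (94, 2)]⟩,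
⟨1, [⟨10, 3, []⟩, ⟨32, 4, []⟩, ⟨4, 2, [(24, 1)]⟩], [7, 5], 1, [(38, 1), (44, 1), (56, 1)]⟩,
⟨1, [⟨24, 3, []⟩, ⟨32, 2, [(5, 1)]⟩, ⟨64, 4, []⟩], [7, 3], 1, [(77, 1), (85, 1), (104, 1), (112, 1)]⟩,
⟨1, [⟨48, 3, []⟩, ⟨8, 2, [(20, 1)]⟩, ⟨64, 4, []⟩], [7, 3], 1, [(84, 1), (88, 1), (104, 1)]⟩,
⟨1, [⟨33, 3, []⟩, ⟨4, 4, []⟩, ⟨16, 2, [(3, 1)]⟩], [7, 5], 1, [(7, 1), (21, 1), (52, 1)]⟩,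
⟨1, [⟨65, 3, []⟩, ⟨34, 4, []⟩, ⟨4, 3, []⟩], [7, 5], 1, [(7, 1), (37, 1), (70, 1), (100, 1)]⟩,
⟨1, [⟨4, 2, []⟩, ⟨16, 2, []⟩], [3, 3, 3], 1, [(20, 1)]⟩,
⟨0, [⟨1, 3, []⟩, ⟨6, 3, []⟩, ⟨16, 2, []⟩, ⟨0, 0, [(34, 2)]⟩], [3, 3, 12, 12, 12], 2, [(3, 1), (5, 1), (50, 1), (51, 2)]⟩,
⟨1, [⟨2, 1, []⟩, ⟨4, 3, []⟩, ⟨8, 3, []⟩, ⟨16, 3, []⟩, ⟨32, 3, []⟩], [3, 3, 1, 1, 28, 28], 2, [(6, 1), (56, 1), (62, 2)]⟩,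
⟨1, [⟨0, 0, [(5, 2)]⟩, ⟨64, 2, []⟩], [3, 3, 3], 1, [(69, 1)]⟩,
⟨0, [⟨26, 5, []⟩, ⟨65, 3, []⟩], [2, 2], 1, [(3, 1), (9, 1), (17, 1), (66, 1), (72, 1), (80, 1)]⟩,
⟨0, [⟨9, 4, []⟩, ⟨80, 4, []⟩], [3], 1, [(17, 1), (24, 1), (65, 1), (72, 1)]⟩,
⟨0, [⟨35, 3, []⟩, ⟨64, 5, []⟩], [1, 1], 1, [(65, 1), (66, 1), (96, 1)]⟩,
⟨0, [⟨1, 4, []⟩, ⟨34, 3, []⟩, ⟨4, 2, []⟩, ⟨8, 3, []⟩, ⟨16, 2, []⟩], [7, 26, 28, 20], 2, [(3, 1), (5, 1), (24, 1), (31, 2), (33, 1), (61, 2)]⟩,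
⟨1, [⟨33, 3, []⟩, ⟨18, 4, []⟩, ⟨64, 3, []⟩], [7, 5], 1, [(67, 1), (81, 1), (98, 1), (112, 1)]⟩,
⟨1, [⟨32, 3, []⟩, ⟨10, 4, []⟩, ⟨64, 3, []⟩], [7, 5], 1, [(98, 1), (104, 1)]⟩,
⟨0, [⟨14, 5, []⟩, ⟨1, 3, []⟩], [2, 2], 1, [(3, 1), (5, 1), (9, 1)]⟩,
⟨0, [⟨34, 4, []⟩, ⟨73, 4, []⟩], [3], 1, [(3, 1), (10, 1), (33, 1), (40, 1), (66, 1), (96, 1)]⟩,
⟨1, [⟨12, 3, []⟩, ⟨80, 3, []⟩, ⟨32, 4, []⟩], [7, 3], 1, [(52, 1), (56, 1), (100, 1), (104, 1)]⟩,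
⟨1, [⟨18, 3, []⟩, ⟨12, 3, []⟩, ⟨64, 4, []⟩], [7, 3], 1, [(70, 1), (74, 1), (84, 1), (88, 1)]⟩,
⟨1, [⟨66, 2, []⟩, ⟨4, 2, []⟩], [3, 3, 3], 1, [(6, 1), (68, 1)]⟩,
⟨0, [⟨16, 2, []⟩, ⟨32, 2, []⟩, ⟨1, 3, []⟩, ⟨66, 3, []⟩], [3, 3, 3, 12, 12], 2, [(3, 1), (48, 1), (51, 2), (65, 1), (113, 2)]⟩,
⟨1, [⟨18, 3, []⟩, ⟨33, 4, []⟩, ⟨4, 3, []⟩], [7, 5], 1, [(7, 1), (21, 1), (38, 1), (52, 1)]⟩,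
⟨1, [⟨20, 3, []⟩, ⟨32, 4, []⟩, ⟨64, 3, []⟩], [7, 5], 1, [(100, 1), (112, 1)]⟩,
⟨1, [⟨1, 2, []⟩, ⟨2, 4, []⟩, ⟨4, 4, []⟩, ⟨8, 2, []⟩, ⟨16, 4, []⟩, ⟨32, 4, []⟩], [7, 9, 9, 56], 2, [(7, 1), (54, 1), (56, 1), (63, 2)]⟩,
⟨1, [⟨36, 4, []⟩, ⟨3, 3, []⟩, ⟨64, 3, []⟩], [7, 6], 1, [(69, 1), (70, 1), (97, 1), (98, 1)]⟩,
⟨0, [⟨66, 5, []⟩, ⟨1, 3, []⟩], [2, 2], 1, [(3, 1), (65, 1)]⟩,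
⟨0, [⟨41, 3, []⟩, ⟨64, 5, []⟩], [1, 1], 1, [(65, 1), (72, 1), (96, 1)]⟩,
⟨1, [⟨1, 2, []⟩, ⟨2, 2, []⟩], [3, 3, 3], 1, [(3, 1)]⟩,
⟨1, [⟨18, 3, []⟩, ⟨32, 3, []⟩, ⟨64, 4, []⟩], [7, 3], 1, [(98, 1), (112, 1)]⟩,
⟨1, [⟨40, 3, []⟩, ⟨18, 3, []⟩, ⟨64, 4, []⟩], [7, 3], 1, [(74, 1), (88, 1), (98, 1), (112, 1)]⟩,
⟨1, [⟨2, 2, []⟩, ⟨16, 2, []⟩], [3, 3, 3], 1, [(18, 1)]⟩,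
⟨1, [⟨1, 2, []⟩, ⟨64, 2, []⟩], [3, 3, 3], 1, [(65, 1)]⟩,
⟨0, [⟨42, 4, []⟩, ⟨80, 4, []⟩], [3], 1, [(18, 1), (24, 1), (48, 1), (66, 1), (72, 1), (96, 1)]⟩,
⟨1, [⟨72, 3, []⟩, ⟨4, 3, []⟩, ⟨2, 4, []⟩], [7, 3], 1, [(14, 1), (70, 1)]⟩,
⟨0, [⟨10, 5, []⟩, ⟨1, 3, []⟩], [2, 2], 1, [(3, 1), (9, 1)]⟩,
⟨0, [⟨8, 3, []⟩, ⟨16, 3, []⟩, ⟨1, 2, []⟩, ⟨64, 2, []⟩], [3, 3, 12, 12, 12], 2, [(24, 1), (65, 1), (89, 2)]⟩,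
⟨1, [⟨3, 2, []⟩, ⟨4, 2, []⟩, ⟨0, 0, [(24, 2)]⟩, ⟨32, 4, []⟩, ⟨64, 5, []⟩], [3, 3, 3, 12, 4, 4], 2, [(69, 1), (70, 1), (120, 1), (125, 2), (126, 2)]⟩,
⟨0, [⟨37, 5, []⟩, ⟨64, 3, []⟩], [2, 2], 1, [(65, 1), (68, 1), (96, 1)]⟩,
⟨0, [⟨74, 4, []⟩, ⟨48, 4, []⟩], [3], 1, [(18, 1), (24, 1), (34, 1), (40, 1), (80, 1), (96, 1)]⟩,
⟨1, [⟨66, 3, []⟩, ⟨20, 4, []⟩, ⟨32, 3, []⟩], [7, 5], 1, [(38, 1), (50, 1), (100, 1), (112, 1)]⟩,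
⟨1, [⟨0, 0, [(24, 1)]⟩, ⟨32, 3, []⟩, ⟨3, 3, []⟩, ⟨4, 3, []⟩, ⟨64, 3, []⟩], [3, 3, 1, 1, 28, 28], 2, [(56, 1), (69, 1), (70, 1), (125, 2), (126, 2)]⟩,
⟨0, [⟨8, 3, []⟩, ⟨3, 5, []⟩], [1, 1], 1, [(9, 1), (10, 1)]⟩,
⟨1, [⟨3, 4, []⟩, ⟨4, 3, []⟩, ⟨64, 3, []⟩], [7, 6], 1, [(69, 1), (70, 1)]⟩,
⟨0, [⟨8, 4, []⟩, ⟨16, 2, []⟩, ⟨1, 4, []⟩, ⟨66, 2, []⟩], [3, 2, 2, 12, 8, 8], 2, [(3, 1), (24, 1), (27, 2), (65, 1), (89, 2)]⟩,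
⟨1, [⟨12, 3, []⟩, ⟨18, 4, []⟩, ⟨64, 3, []⟩], [7, 5], 1, [(70, 1), (74, 1), (84, 1), (88, 1)]⟩,
⟨1, [⟨40, 4, []⟩, ⟨0, 0, [(18, 2)]⟩, ⟨1, 2, []⟩, ⟨4, 2, []⟩, ⟨64, 5, []⟩], [3, 2, 2, 12, 12, 12], 2, [(69, 1), (90, 1), (95, 2), (114, 1), (119, 2)]⟩,
⟨1, [⟨17, 3, []⟩, ⟨36, 4, []⟩, ⟨64, 3, []⟩], [7, 5], 1, [(69, 1), (84, 1), (97, 1), (112, 1)]⟩,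
⟨1, [⟨0, 0, [(48, 2)]⟩, ⟨64, 2, []⟩], [3, 3, 3], 1, [(112, 1)]⟩,
⟨0, [⟨1, 3, []⟩, ⟨6, 3, []⟩, ⟨32, 2, []⟩, ⟨0, 0, [(18, 2)]⟩], [3, 3, 12, 12, 12], 2, [(3, 1), (5, 1), (50, 1), (51, 2)]⟩,
⟨1, [⟨5, 3, []⟩, ⟨34, 3, []⟩, ⟨64, 4, []⟩], [7, 3], 1, [(67, 1), (70, 1), (97, 1), (100, 1)]⟩,
⟨0, [⟨98, 4, []⟩, ⟨24, 4, []⟩], [3], 1, [(10, 1), (18, 1), (40, 1), (48, 1), (72, 1), (80, 1)]⟩,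
⟨1, [⟨18, 4, []⟩, ⟨4, 3, []⟩, ⟨32, 3, []⟩], [7, 6], 1, [(38, 1), (52, 1)]⟩,
⟨1, [⟨4, 3, []⟩, ⟨80, 4, []⟩, ⟨32, 3, []⟩], [7, 5], 1, [(52, 1), (100, 1)]⟩,
⟨1, [⟨40, 3, []⟩, ⟨20, 3, []⟩, ⟨64, 4, []⟩], [7, 3], 1, [(76, 1), (88, 1), (100, 1), (112, 1)]⟩,
⟨0, [⟨8, 3, []⟩, ⟨20, 4, []⟩, ⟨1, 3, []⟩, ⟨2, 2, []⟩, ⟨64, 2, []⟩], [11, 17, 28, 28], 2, [(7, 1), (12, 1), (19, 1), (24, 1), (65, 1), (79, 2), (91, 2)]⟩,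
⟨0, [⟨1, 3, []⟩, ⟨2, 3, []⟩, ⟨8, 2, []⟩, ⟨16, 2, []⟩], [3, 3, 12, 12, 12], 2, [(3, 1), (24, 1), (27, 2)]⟩,
⟨1, [⟨34, 3, []⟩, ⟨4, 4, []⟩, ⟨16, 2, [(3, 1)]⟩], [7, 5], 1, [(7, 1), (22, 1), (52, 1)]⟩,
⟨0, [⟨10, 4, []⟩, ⟨64, 4, []⟩], [3], 1, [(66, 1), (72, 1)]⟩,
⟨0, [⟨17, 4, []⟩, ⟨10, 4, []⟩], [3], 1, [(3, 1), (9, 1), (18, 1), (24, 1)]⟩,
⟨1, [⟨33, 3, []⟩, ⟨4, 3, []⟩, ⟨64, 4, []⟩], [7, 3], 1, [(69, 1), (100, 1)]⟩,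
⟨1, [⟨0, 0, [(18, 2)]⟩, ⟨0, 0, [(12, 2)]⟩], [3, 3, 3], 1, [(30, 1)]⟩,
⟨1, [⟨1, 1, [(40, 1)]⟩, ⟨64, 2, []⟩], [3, 3, 3], 1, [(65, 1), (104, 1)]⟩,
⟨1, [⟨4, 2, []⟩, ⟨3, 2, []⟩], [3, 3, 3], 1, [(5, 1), (6, 1)]⟩,
⟨0, [⟨8, 2, []⟩, ⟨5, 3, []⟩, ⟨2, 2, []⟩, ⟨64, 4, []⟩], [3, 5, 5, 6, 8], 2, [(11, 1), (14, 1), (65, 1), (66, 1), (68, 1), (72, 1), (75, 2), (78, 2)]⟩,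
⟨1, [⟨3, 4, []⟩, ⟨0, 0, [(36, 2)]⟩, ⟨8, 2, []⟩, ⟨16, 2, []⟩, ⟨64, 5, []⟩], [3, 2, 2, 12, 12, 12], 2, [(88, 1), (101, 1), (102, 1), (125, 2), (126, 2)]⟩,
⟨1, [⟨34, 3, []⟩, ⟨4, 4, []⟩, ⟨64, 3, []⟩], [7, 5], 1, [(70, 1), (100, 1)]⟩,
⟨0, [⟨3, 4, []⟩, ⟨64, 4, []⟩], [3], 1, [(65, 1), (66, 1)]⟩,
⟨0, [⟨1, 3, []⟩, ⟨6, 3, []⟩, ⟨8, 2, []⟩, ⟨0, 0, [(36, 2)]⟩], [3, 3, 12, 12, 12], 2, [(3, 1), (5, 1), (44, 1), (45, 2)]⟩,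
⟨0, [⟨8, 4, []⟩, ⟨48, 2, []⟩, ⟨1, 4, []⟩, ⟨2, 2, []⟩], [3, 2, 2, 12, 8, 8], 2, [(3, 1), (24, 1), (27, 2), (40, 1), (43, 2)]⟩,
⟨1, [⟨2, 2, []⟩, ⟨4, 2, []⟩, ⟨16, 2, []⟩, ⟨32, 4, []⟩, ⟨64, 5, []⟩], [3, 3, 3, 12, 4, 4], 2, [(70, 1), (112, 1), (118, 2)]⟩,
⟨0, [⟨1, 4, []⟩, ⟨2, 2, []⟩, ⟨8, 4, []⟩, ⟨80, 2, []⟩], [3, 2, 2, 12, 8, 8], 2, [(3, 1), (24, 1), (27, 2), (72, 1), (75, 2)]⟩,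
⟨0, [⟨1, 3, []⟩, ⟨10, 3, []⟩, ⟨0, 0, [(18, 2)]⟩, ⟨0, 0, [(12, 2)]⟩], [3, 3, 12, 12, 12], 2, [(3, 1), (9, 1), (30, 1), (31, 2)]⟩,
⟨0, [⟨5, 4, []⟩, ⟨2, 2, []⟩, ⟨48, 4, []⟩, ⟨8, 2, []⟩], [3, 2, 2, 12, 8, 8], 2, [(3, 1), (6, 1), (24, 1), (27, 2), (30, 2), (40, 1), (43, 2), (46, 2)]⟩,
⟨1, [⟨2, 2, []⟩, ⟨32, 2, []⟩], [3, 3, 3], 1, [(34, 1)]⟩,
⟨1, [⟨0, 0, [(68, 2)]⟩, ⟨10, 2, []⟩], [3, 3, 3], 1, [(70, 1), (76, 1)]⟩,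
⟨0, [⟨56, 3, []⟩, ⟨64, 5, []⟩], [1, 1], 1, [(72, 1), (80, 1), (96, 1)]⟩,
⟨0, [⟨24, 3, []⟩, ⟨1, 2, []⟩, ⟨2, 2, []⟩, ⟨64, 3, []⟩], [9, 9, 6, 6, 6], 2, [(3, 1), (72, 1), (75, 2), (80, 1), (83, 2)]⟩,
⟨1, [⟨34, 3, []⟩, ⟨12, 3, []⟩, ⟨64, 4, []⟩], [7, 3], 1, [(70, 1), (74, 1), (100, 1), (104, 1)]⟩,
⟨1, [⟨0, 0, [(20, 2)]⟩, ⟨32, 2, []⟩], [3, 3, 3], 1, [(52, 1)]⟩,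
⟨0, [⟨35, 5, []⟩, ⟨64, 3, []⟩], [2, 2], 1, [(65, 1), (66, 1), (96, 1)]⟩,
⟨0, [⟨48, 3, []⟩, ⟨8, 3, []⟩, ⟨1, 2, []⟩, ⟨4, 2, []⟩], [3, 3, 12, 12, 12], 2, [(5, 1), (24, 1), (29, 2), (40, 1), (45, 2)]⟩,
⟨0, [⟨8, 2, []⟩, ⟨16, 2, []⟩, ⟨1, 3, []⟩, ⟨68, 3, []⟩], [3, 3, 3, 12, 12], 2, [(5, 1), (24, 1), (29, 2), (65, 1), (89, 2)]⟩,
⟨0, [⟨1, 3, []⟩, ⟨70, 5, []⟩], [1, 1], 1, [(3, 1), (5, 1), (65, 1)]⟩,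
⟨0, [⟨40, 4, []⟩, ⟨64, 4, []⟩], [3], 1, [(72, 1), (96, 1)]⟩,
⟨0, [⟨33, 4, []⟩, ⟨66, 4, []⟩], [3], 1, [(3, 1), (34, 1), (65, 1), (96, 1)]⟩,
⟨0, [⟨42, 4, []⟩, ⟨64, 4, []⟩], [3], 1, [(66, 1), (72, 1), (96, 1)]⟩,
⟨0, [⟨10, 4, []⟩, ⟨80, 4, []⟩], [3], 1, [(18, 1), (24, 1), (66, 1), (72, 1)]⟩,
⟨1, [⟨9, 3, []⟩, ⟨36, 4, []⟩, ⟨64, 3, []⟩], [7, 5], 1, [(69, 1), (76, 1), (97, 1), (104, 1)]⟩,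
⟨0, [⟨6, 4, []⟩, ⟨1, 2, []⟩, ⟨24, 4, []⟩, ⟨32, 2, []⟩], [3, 2, 2, 12, 8, 8], 2, [(3, 1), (5, 1), (40, 1), (43, 2), (45, 2), (48, 1), (51, 2), (53, 2)]⟩,
⟨1, [⟨17, 3, []⟩, ⟨40, 4, []⟩, ⟨64, 3, []⟩], [7, 5], 1, [(73, 1), (88, 1), (97, 1), (112, 1)]⟩,
⟨0, [⟨17, 4, []⟩, ⟨64, 4, []⟩], [3], 1, [(65, 1), (80, 1)]⟩,
⟨1, [⟨10, 3, []⟩, ⟨4, 3, []⟩, ⟨64, 4, []⟩], [7, 3], 1, [(70, 1), (76, 1)]⟩,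
⟨1, [⟨0, 0, [(24, 2)]⟩, ⟨32, 2, []⟩], [3, 3, 3], 1, [(56, 1)]⟩,
⟨1, [⟨68, 3, []⟩, ⟨32, 3, []⟩, ⟨16, 4, []⟩], [7, 3], 1, [(52, 1), (112, 1)]⟩,
⟨0, [⟨1, 3, []⟩, ⟨6, 3, []⟩, ⟨32, 2, []⟩, ⟨0, 0, [(10, 2)]⟩], [3, 3, 12, 12, 12], 2, [(3, 1), (5, 1), (42, 1), (43, 2)]⟩,
⟨0, [⟨6, 3, []⟩, ⟨1, 3, []⟩, ⟨8, 2, []⟩, ⟨32, 2, []⟩], [3, 3, 12, 12, 12], 2, [(3, 1), (5, 1), (40, 1), (43, 2), (45, 2)]⟩,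
⟨1, [⟨34, 4, []⟩, ⟨4, 3, []⟩, ⟨16, 3, []⟩], [7, 6], 1, [(22, 1), (52, 1)]⟩,
⟨0, [⟨6, 3, []⟩, ⟨1, 3, []⟩, ⟨8, 2, []⟩, ⟨16, 2, []⟩], [3, 3, 12, 12, 12], 2, [(3, 1), (5, 1), (24, 1), (27, 2), (29, 2)]⟩,
⟨0, [⟨1, 4, []⟩, ⟨2, 2, []⟩, ⟨8, 4, []⟩, ⟨16, 2, []⟩], [3, 2, 2, 12, 8, 8], 2, [(3, 1), (24, 1), (27, 2)]⟩,
⟨1, [⟨8, 2, []⟩, ⟨16, 4, []⟩, ⟨32, 4, []⟩, ⟨65, 4, []⟩, ⟨2, 2, []⟩, ⟨4, 4, []⟩], [7, 17, 17, 56], 2, [(7, 1), (53, 1), (56, 1), (63, 2), (70, 1), (116, 1), (126, 2)]⟩,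
⟨1, [⟨3, 3, []⟩, ⟨4, 4, []⟩, ⟨64, 3, []⟩], [7, 5], 1, [(69, 1), (70, 1)]⟩,
⟨0, [⟨80, 5, []⟩, ⟨8, 3, []⟩], [2, 2], 1, [(24, 1), (72, 1)]⟩,
⟨1, [⟨5, 3, []⟩, ⟨16, 3, []⟩, ⟨32, 4, []⟩], [7, 3], 1, [(49, 1), (52, 1)]⟩,
⟨1, [⟨0, 0, [(72, 2)]⟩, ⟨32, 2, []⟩], [3, 3, 3], 1, [(104, 1)]⟩,
⟨1, [⟨3, 3, []⟩, ⟨80, 3, []⟩, ⟨32, 4, []⟩], [7, 3], 1, [(49, 1), (50, 1), (97, 1), (98, 1)]⟩,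
⟨1, [⟨8, 1, [(6, 1)]⟩, ⟨64, 2, []⟩], [3, 3, 3], 1, [(70, 1), (72, 1)]⟩,
⟨1, [⟨64, 2, []⟩, ⟨0, 0, [(20, 1), (48, 1)]⟩], [3, 3, 3], 1, [(84, 1), (112, 1)]⟩,
⟨1, [⟨56, 3, []⟩, ⟨4, 3, []⟩, ⟨64, 4, []⟩], [7, 3], 1, [(76, 1), (84, 1), (100, 1)]⟩,
⟨1, [⟨5, 3, []⟩, ⟨10, 3, []⟩, ⟨64, 4, []⟩], [7, 3], 1, [(67, 1), (70, 1), (73, 1), (76, 1)]⟩,
⟨1, [⟨68, 4, []⟩, ⟨24, 3, []⟩, ⟨32, 3, []⟩], [7, 6], 1, [(44, 1), (52, 1), (104, 1), (112, 1)]⟩,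
⟨0, [⟨49, 4, []⟩, ⟨66, 4, []⟩], [3], 1, [(3, 1), (18, 1), (34, 1), (65, 1), (80, 1), (96, 1)]⟩,
⟨0, [⟨9, 5, []⟩, ⟨66, 3, []⟩], [2, 2], 1, [(3, 1), (10, 1), (65, 1), (72, 1)]⟩,
⟨1, [⟨72, 3, []⟩, ⟨20, 4, []⟩, ⟨32, 3, []⟩], [7, 5], 1, [(44, 1), (56, 1), (100, 1), (112, 1)]⟩,
⟨0, [⟨7, 4, []⟩, ⟨64, 4, []⟩], [3], 1, [(65, 1), (66, 1), (68, 1)]⟩,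
⟨1, [⟨12, 3, []⟩, ⟨34, 4, []⟩, ⟨64, 3, []⟩], [7, 5], 1, [(70, 1), (74, 1), (100, 1), (104, 1)]⟩,
⟨0, [⟨12, 4, []⟩, ⟨80, 4, []⟩], [3], 1, [(20, 1), (24, 1), (68, 1), (72, 1)]⟩,
⟨1, [⟨10, 3, []⟩, ⟨4, 4, []⟩, ⟨64, 3, []⟩], [7, 5], 1, [(70, 1), (76, 1)]⟩,
⟨1, [⟨0, 0, [(17, 2)]⟩, ⟨32, 2, []⟩], [3, 3, 3], 1, [(49, 1)]⟩,
⟨1, [⟨2, 3, []⟩, ⟨4, 3, []⟩, ⟨80, 4, []⟩], [7, 3], 1, [(22, 1), (70, 1)]⟩,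
⟨1, [⟨0, 0, [(36, 2)]⟩, ⟨16, 2, []⟩], [3, 3, 3], 1, [(52, 1)]⟩,
⟨0, [⟨1, 3, []⟩, ⟨34, 4, []⟩, ⟨8, 3, []⟩, ⟨16, 2, []⟩, ⟨64, 2, []⟩], [11, 17, 28, 28], 2, [(3, 1), (26, 1), (33, 1), (56, 1), (72, 1), (91, 2), (121, 2)]⟩,
⟨1, [⟨17, 3, []⟩, ⟨36, 3, []⟩, ⟨64, 4, []⟩], [7, 3], 1, [(69, 1), (84, 1), (97, 1), (112, 1)]⟩,
⟨1, [⟨10, 3, []⟩, ⟨36, 3, []⟩, ⟨64, 4, []⟩], [7, 3], 1, [(70, 1), (76, 1), (98, 1), (104, 1)]⟩,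
⟨1, [⟨0, 0, [(96, 2)]⟩, ⟨16, 2, []⟩], [3, 3, 3], 1, [(112, 1)]⟩,
⟨0, [⟨48, 3, []⟩, ⟨8, 3, []⟩, ⟨1, 2, []⟩, ⟨2, 2, []⟩], [3, 3, 12, 12, 12], 2, [(3, 1), (24, 1), (27, 2), (40, 1), (43, 2)]⟩,
⟨1, [⟨18, 3, []⟩, ⟨4, 3, []⟩, ⟨64, 4, []⟩], [7, 3], 1, [(70, 1), (84, 1)]⟩,
⟨1, [⟨9, 3, []⟩, ⟨4, 3, []⟩, ⟨32, 4, []⟩], [7, 3], 1, [(37, 1), (44, 1)]⟩,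
⟨0, [⟨19, 5, []⟩, ⟨64, 3, []⟩], [2, 2], 1, [(65, 1), (66, 1), (80, 1)]⟩,
⟨0, [⟨9, 4, []⟩, ⟨112, 4, []⟩], [3], 1, [(17, 1), (24, 1), (33, 1), (40, 1), (65, 1), (72, 1)]⟩,
⟨0, [⟨33, 5, []⟩, ⟨64, 3, []⟩], [2, 2], 1, [(65, 1), (96, 1)]⟩,
⟨0, [⟨1, 3, []⟩, ⟨2, 3, []⟩, ⟨16, 2, []⟩, ⟨64, 2, []⟩], [3, 3, 12, 12, 12], 2, [(3, 1), (80, 1), (83, 2)]⟩,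
⟨0, [⟨0, 0, [(65, 3)]⟩, ⟨42, 5, []⟩], [1, 1], 1, [(67, 1), (73, 1), (97, 1)]⟩,
⟨1, [⟨34, 3, []⟩, ⟨20, 4, []⟩, ⟨64, 3, []⟩], [7, 5], 1, [(70, 1), (82, 1), (100, 1), (112, 1)]⟩,
⟨0, [⟨1, 4, []⟩, ⟨70, 4, []⟩], [3], 1, [(3, 1), (5, 1), (65, 1)]⟩,
⟨1, [⟨0, 0, [(6, 2)]⟩, ⟨64, 2, []⟩], [3, 3, 3], 1, [(70, 1)]⟩,
⟨1, [⟨32, 3, []⟩, ⟨20, 4, []⟩, ⟨64, 3, []⟩], [7, 5], 1, [(100, 1), (112, 1)]⟩,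
⟨0, [⟨1, 3, []⟩, ⟨40, 5, []⟩], [1, 1], 1, [(9, 1), (33, 1)]⟩,
⟨1, [⟨0, 0, [(34, 2)]⟩, ⟨16, 2, []⟩], [3, 3, 3], 1, [(50, 1)]⟩,
⟨0, [⟨12, 5, []⟩, ⟨1, 3, []⟩], [2, 2], 1, [(5, 1), (9, 1)]⟩,
⟨0, [⟨33, 4, []⟩, ⟨80, 4, []⟩], [3], 1, [(17, 1), (48, 1), (65, 1), (96, 1)]⟩,
⟨0, [⟨18, 3, []⟩, ⟨1, 2, []⟩, ⟨8, 2, []⟩, ⟨64, 4, []⟩], [3, 5, 6, 6, 8], 2, [(11, 1), (25, 1), (65, 1), (66, 1), (72, 1), (75, 2), (80, 1), (89, 2)]⟩,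
⟨1, [⟨0, 0, [(6, 2)]⟩, ⟨1, 2, []⟩], [3, 3, 3], 1, [(7, 1)]⟩,
⟨1, [⟨0, 0, [(24, 2)]⟩, ⟨64, 2, []⟩], [3, 3, 3], 1, [(88, 1)]⟩,
⟨1, [⟨80, 3, []⟩, ⟨34, 4, []⟩, ⟨4, 3, []⟩], [7, 5], 1, [(22, 1), (52, 1), (70, 1), (100, 1)]⟩,
⟨0, [⟨9, 3, []⟩, ⟨2, 2, []⟩, ⟨32, 2, []⟩, ⟨64, 4, []⟩], [3, 5, 6, 6, 8], 2, [(35, 1), (42, 1), (65, 1), (66, 1), (72, 1), (96, 1), (99, 2), (106, 2)]⟩,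
⟨0, [⟨3, 3, []⟩, ⟨8, 2, []⟩, ⟨16, 2, []⟩, ⟨64, 3, []⟩], [9, 9, 6, 6, 6], 2, [(24, 1), (65, 1), (66, 1), (89, 2), (90, 2)]⟩,
⟨1, [⟨65, 4, []⟩, ⟨2, 3, []⟩, ⟨4, 3, []⟩], [7, 6], 1, [(7, 1), (70, 1)]⟩,
⟨1, [⟨96, 3, []⟩, ⟨4, 3, []⟩, ⟨2, 4, []⟩], [7, 3], 1, [(38, 1), (70, 1)]⟩,
⟨1, [⟨24, 3, []⟩, ⟨34, 3, []⟩, ⟨64, 4, []⟩], [7, 3], 1, [(74, 1), (82, 1), (104, 1), (112, 1)]⟩,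
⟨0, [⟨11, 3, []⟩, ⟨64, 5, []⟩], [1, 1], 1, [(65, 1), (66, 1), (72, 1)]⟩,
⟨0, [⟨8, 3, []⟩, ⟨16, 3, []⟩, ⟨1, 2, []⟩, ⟨2, 2, []⟩], [3, 3, 12, 12, 12], 2, [(3, 1), (24, 1), (27, 2)]⟩,
⟨1, [⟨20, 4, []⟩, ⟨40, 3, []⟩, ⟨64, 3, []⟩], [7, 6], 1, [(76, 1), (88, 1), (100, 1), (112, 1)]⟩,
⟨0, [⟨1, 3, []⟩, ⟨6, 3, []⟩, ⟨32, 2, []⟩, ⟨0, 0, [(12, 2)]⟩], [3, 3, 12, 12, 12], 2, [(3, 1), (5, 1), (44, 1), (45, 2)]⟩,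
⟨1, [⟨96, 4, []⟩, ⟨3, 3, []⟩, ⟨4, 3, []⟩], [7, 6], 1, [(37, 1), (38, 1), (69, 1), (70, 1)]⟩,
⟨1, [⟨80, 3, []⟩, ⟨12, 4, []⟩, ⟨32, 3, []⟩], [7, 5], 1, [(52, 1), (56, 1), (100, 1), (104, 1)]⟩,
⟨1, [⟨32, 3, []⟩, ⟨12, 4, []⟩, ⟨64, 3, []⟩], [7, 5], 1, [(100, 1), (104, 1)]⟩,
⟨0, [⟨26, 4, []⟩, ⟨64, 4, []⟩], [3], 1, [(66, 1), (72, 1), (80, 1)]⟩,
⟨1, [⟨96, 3, []⟩, ⟨2, 3, []⟩, ⟨4, 4, []⟩], [7, 3], 1, [(38, 1), (70, 1)]⟩,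
⟨1, [⟨12, 4, []⟩, ⟨2, 3, []⟩, ⟨32, 3, []⟩], [7, 6], 1, [(38, 1), (42, 1)]⟩,
⟨0, [⟨17, 5, []⟩, ⟨8, 3, []⟩], [2, 2], 1, [(9, 1), (24, 1)]⟩,
⟨1, [⟨12, 3, []⟩, ⟨32, 3, []⟩, ⟨16, 4, []⟩], [7, 3], 1, [(52, 1), (56, 1)]⟩,
⟨1, [⟨6, 3, []⟩, ⟨17, 3, []⟩, ⟨64, 4, []⟩], [7, 3], 1, [(67, 1), (69, 1), (82, 1), (84, 1)]⟩,
⟨1, [⟨12, 4, []⟩, ⟨16, 3, []⟩, ⟨32, 3, []⟩], [7, 6], 1, [(52, 1), (56, 1)]⟩,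
⟨1, [⟨2, 3, []⟩, ⟨0, 0, [(20, 3)]⟩, ⟨40, 4, []⟩], [7, 3], 1, [(30, 1), (54, 1)]⟩,
⟨1, [⟨18, 3, []⟩, ⟨4, 4, []⟩, ⟨64, 3, []⟩], [7, 5], 1, [(70, 1), (84, 1)]⟩,
⟨0, [⟨1, 2, []⟩, ⟨48, 3, []⟩, ⟨8, 2, []⟩, ⟨64, 4, []⟩], [3, 5, 5, 6, 8], 2, [(25, 1), (41, 1), (65, 1), (72, 1), (80, 1), (89, 2), (96, 1), (105, 2)]⟩,
⟨1, [⟨19, 3, []⟩, ⟨4, 3, []⟩, ⟨64, 4, []⟩], [7, 3], 1, [(69, 1), (70, 1), (84, 1)]⟩,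
⟨0, [⟨10, 3, []⟩, ⟨64, 5, []⟩], [1, 1], 1, [(66, 1), (72, 1)]⟩,
⟨1, [⟨20, 3, []⟩, ⟨34, 4, []⟩, ⟨64, 3, []⟩], [7, 5], 1, [(70, 1), (82, 1), (100, 1), (112, 1)]⟩,
⟨1, [⟨33, 3, []⟩, ⟨66, 3, []⟩, ⟨4, 4, []⟩], [7, 3], 1, [(7, 1), (38, 1), (69, 1), (100, 1)]⟩,
⟨1, [⟨26, 4, []⟩, ⟨36, 3, []⟩, ⟨64, 3, []⟩], [7, 6], 1, [(70, 1), (76, 1), (84, 1), (98, 1), (104, 1), (112, 1)]⟩,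
⟨1, [⟨10, 3, []⟩, ⟨36, 4, []⟩, ⟨64, 3, []⟩], [7, 5], 1, [(70, 1), (76, 1), (98, 1), (104, 1)]⟩,
⟨1, [⟨0, 0, [(66, 2)]⟩, ⟨4, 2, []⟩], [3, 3, 3], 1, [(70, 1)]⟩,
⟨0, [⟨6, 4, []⟩, ⟨1, 2, []⟩, ⟨40, 4, []⟩, ⟨16, 2, []⟩], [3, 2, 2, 12, 8, 8], 2, [(3, 1), (5, 1), (24, 1), (27, 2), (29, 2), (48, 1), (51, 2), (53, 2)]⟩,
⟨1, [⟨24, 3, []⟩, ⟨32, 4, []⟩, ⟨64, 3, []⟩], [7, 5], 1, [(104, 1), (112, 1)]⟩,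
⟨0, [⟨5, 4, []⟩, ⟨66, 4, []⟩], [3], 1, [(3, 1), (6, 1), (65, 1), (68, 1)]⟩,
⟨0, [⟨1, 2, []⟩, ⟨2, 2, []⟩, ⟨8, 3, []⟩, ⟨80, 3, []⟩], [3, 3, 3, 12, 12], 2, [(3, 1), (24, 1), (27, 2), (72, 1), (75, 2)]⟩,
⟨1, [⟨0, 0, [(80, 2)]⟩, ⟨32, 2, []⟩], [3, 3, 3], 1, [(112, 1)]⟩,
⟨1, [⟨0, 0, [(18, 2)]⟩, ⟨0, 0, [(36, 2)]⟩], [3, 3, 3], 1, [(54, 1)]⟩,
⟨1, [⟨8, 2, []⟩, ⟨64, 2, []⟩], [3, 3, 3], 1, [(72, 1)]⟩,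
⟨1, [⟨9, 2, []⟩, ⟨64, 2, []⟩], [3, 3, 3], 1, [(65, 1), (72, 1)]⟩,
⟨1, [⟨2, 4, []⟩, ⟨4, 4, []⟩, ⟨16, 3, []⟩, ⟨32, 3, []⟩, ⟨64, 2, []⟩], [3, 12, 12, 16, 16, 16], 2, [(54, 1), (70, 1), (112, 1), (118, 2)]⟩,
⟨0, [⟨33, 5, []⟩, ⟨8, 3, []⟩], [2, 2], 1, [(9, 1), (40, 1)]⟩,
⟨1, [⟨72, 3, []⟩, ⟨32, 3, []⟩, ⟨16, 4, []⟩], [7, 3], 1, [(56, 1), (112, 1)]⟩,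
⟨0, [⟨25, 3, []⟩, ⟨64, 5, []⟩], [1, 1], 1, [(65, 1), (72, 1), (80, 1)]⟩,
⟨0, [⟨1, 4, []⟩, ⟨2, 2, []⟩, ⟨40, 4, []⟩, ⟨16, 2, []⟩], [3, 2, 2, 12, 8, 8], 2, [(3, 1), (24, 1), (27, 2), (48, 1), (51, 2)]⟩,
⟨1, [⟨3, 3, []⟩, ⟨4, 3, []⟩, ⟨64, 4, []⟩], [7, 3], 1, [(69, 1), (70, 1)]⟩,
⟨1, [⟨0, 0, [(20, 2)]⟩, ⟨2, 2, []⟩], [3, 3, 3], 1, [(22, 1)]⟩,
⟨1, [⟨6, 3, []⟩, ⟨9, 3, []⟩, ⟨64, 4, []⟩], [7, 3], 1, [(67, 1), (69, 1), (74, 1), (76, 1)]⟩,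
⟨0, [⟨8, 3, []⟩, ⟨18, 4, []⟩, ⟨1, 3, []⟩, ⟨4, 2, []⟩, ⟨64, 2, []⟩], [11, 17, 28, 28], 2, [(7, 1), (10, 1), (21, 1), (24, 1), (65, 1), (79, 2), (93, 2)]⟩,
⟨1, [⟨12, 3, []⟩, ⟨2, 3, []⟩, ⟨32, 4, []⟩], [7, 3], 1, [(38, 1), (42, 1)]⟩,
⟨1, [⟨1, 1, [(24, 1)]⟩, ⟨64, 2, []⟩], [3, 3, 3], 1, [(65, 1), (88, 1)]⟩,
⟨1, [⟨0, 0, [(18, 2)]⟩, ⟨4, 2, []⟩], [3, 3, 3], 1, [(22, 1)]⟩,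
⟨1, [⟨6, 3, []⟩, ⟨80, 3, []⟩, ⟨32, 4, []⟩], [7, 3], 1, [(50, 1), (52, 1), (98, 1), (100, 1)]⟩,
⟨1, [⟨5, 3, []⟩, ⟨80, 3, []⟩, ⟨32, 4, []⟩], [7, 3], 1, [(49, 1), (52, 1), (97, 1), (100, 1)]⟩,
⟨0, [⟨1, 3, []⟩, ⟨2, 3, []⟩, ⟨16, 2, []⟩, ⟨32, 2, []⟩], [3, 3, 12, 12, 12], 2, [(3, 1), (48, 1), (51, 2)]⟩,
⟨1, [⟨33, 4, []⟩, ⟨6, 3, []⟩, ⟨64, 3, []⟩], [7, 6], 1, [(67, 1), (69, 1), (98, 1), (100, 1)]⟩,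
⟨0, [⟨1, 3, []⟩, ⟨6, 3, []⟩, ⟨16, 2, []⟩, ⟨0, 0, [(36, 2)]⟩], [3, 3, 12, 12, 12], 2, [(3, 1), (5, 1), (52, 1), (53, 2)]⟩,
⟨1, [⟨13, 3, []⟩, ⟨32, 3, []⟩, ⟨64, 4, []⟩], [7, 3], 1, [(97, 1), (100, 1), (104, 1)]⟩,
⟨1, [⟨2, 3, []⟩, ⟨4, 3, []⟩, ⟨96, 4, []⟩], [7, 3], 1, [(38, 1), (70, 1)]⟩,
⟨1, [⟨10, 3, []⟩, ⟨4, 4, []⟩, ⟨32, 2, [(3, 1)]⟩], [7, 5], 1, [(7, 1), (38, 1), (44, 1)]⟩,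
⟨1, [⟨0, 0, [(68, 2)]⟩, ⟨2, 2, []⟩], [3, 3, 3], 1, [(70, 1)]⟩,
⟨0, [⟨26, 3, []⟩, ⟨64, 5, []⟩], [1, 1], 1, [(66, 1), (72, 1), (80, 1)]⟩,
⟨0, [⟨8, 4, []⟩, ⟨16, 4, []⟩], [3], 1, [(24, 1)]⟩,
⟨0, [⟨6, 3, []⟩, ⟨1, 3, []⟩, ⟨16, 2, []⟩, ⟨32, 2, []⟩], [3, 3, 12, 12, 12], 2, [(3, 1), (5, 1), (48, 1), (51, 2), (53, 2)]⟩,
⟨0, [⟨33, 5, []⟩, ⟨72, 3, []⟩], [2, 2], 1, [(9, 1), (40, 1), (65, 1), (96, 1)]⟩,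
⟨0, [⟨96, 5, []⟩, ⟨8, 3, []⟩], [2, 2], 1, [(40, 1), (72, 1)]⟩,
⟨0, [⟨8, 2, []⟩, ⟨6, 3, []⟩, ⟨1, 2, []⟩, ⟨64, 4, []⟩], [3, 5, 5, 6, 8], 2, [(11, 1), (13, 1), (65, 1), (66, 1), (68, 1), (72, 1), (75, 2), (77, 2)]⟩,
⟨1, [⟨72, 4, []⟩, ⟨16, 3, []⟩, ⟨32, 3, []⟩], [7, 6], 1, [(56, 1), (112, 1)]⟩,
⟨1, [⟨66, 3, []⟩, ⟨32, 3, []⟩, ⟨16, 4, []⟩], [7, 3], 1, [(50, 1), (112, 1)]⟩,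
⟨1, [⟨1, 2, []⟩, ⟨2, 4, []⟩, ⟨4, 4, []⟩, ⟨72, 4, []⟩, ⟨16, 2, []⟩, ⟨32, 4, []⟩], [7, 17, 17, 56], 2, [(7, 1), (46, 1), (56, 1), (63, 2), (102, 1), (112, 1), (119, 2)]⟩,
⟨1, [⟨3, 3, []⟩, ⟨4, 3, []⟩, ⟨24, 3, []⟩, ⟨32, 3, []⟩, ⟨64, 3, []⟩], [3, 3, 12, 12, 16, 16], 2, [(45, 1), (46, 1), (53, 1), (54, 1), (69, 1), (70, 1), (104, 1), (109, 2), (110, 2), (112, 1), (117, 2), (118, 2)]⟩,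
⟨1, [⟨8, 1, [(5, 1)]⟩, ⟨64, 2, []⟩], [3, 3, 3], 1, [(69, 1), (72, 1)]⟩,
⟨1, [⟨24, 3, []⟩, ⟨32, 2, [(12, 1)]⟩, ⟨64, 4, []⟩], [7, 3], 1, [(76, 1), (104, 1), (112, 1)]⟩,
⟨1, [⟨0, 0, [(5, 2)]⟩, ⟨2, 2, []⟩], [3, 3, 3], 1, [(7, 1)]⟩,
⟨1, [⟨0, 0, [(3, 2)]⟩, ⟨64, 2, []⟩], [3, 3, 3], 1, [(67, 1)]⟩,
⟨0, [⟨11, 5, []⟩, ⟨64, 3, []⟩], [2, 2], 1, [(65, 1), (66, 1), (72, 1)]⟩,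
⟨1, [⟨1, 2, []⟩, ⟨2, 4, []⟩, ⟨4, 4, []⟩, ⟨80, 4, []⟩, ⟨8, 2, []⟩, ⟨32, 4, []⟩], [7, 17, 17, 56], 2, [(7, 1), (54, 1), (56, 1), (63, 2), (102, 1), (104, 1), (111, 2)]⟩,
⟨1, [⟨2, 3, []⟩, ⟨12, 4, []⟩, ⟨64, 3, []⟩], [7, 5], 1, [(70, 1), (74, 1)]⟩,
⟨1, [⟨0, 0, [(18, 2)]⟩, ⟨64, 2, []⟩], [3, 3, 3], 1, [(82, 1)]⟩,
⟨1, [⟨10, 3, []⟩, ⟨20, 3, []⟩, ⟨64, 4, []⟩], [7, 3], 1, [(70, 1), (76, 1), (82, 1), (88, 1)]⟩,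
⟨1, [⟨18, 3, []⟩, ⟨65, 3, []⟩, ⟨4, 4, []⟩], [7, 3], 1, [(7, 1), (21, 1), (70, 1), (84, 1)]⟩,
⟨0, [⟨48, 5, []⟩, ⟨8, 3, []⟩], [2, 2], 1, [(24, 1), (40, 1)]⟩,
⟨1, [⟨0, 0, [(18, 2)]⟩, ⟨32, 2, []⟩], [3, 3, 3], 1, [(50, 1)]⟩,
⟨1, [⟨21, 4, []⟩, ⟨10, 3, []⟩, ⟨64, 3, []⟩], [7, 6], 1, [(67, 1), (70, 1), (73, 1), (76, 1), (82, 1), (88, 1)]⟩,
⟨0, [⟨2, 3, []⟩, ⟨4, 3, []⟩, ⟨8, 2, []⟩, ⟨16, 2, []⟩], [3, 3, 12, 12, 12], 2, [(6, 1), (24, 1), (30, 2)]⟩,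
⟨0, [⟨35, 4, []⟩, ⟨64, 4, []⟩], [3], 1, [(65, 1), (66, 1), (96, 1)]⟩,
⟨1, [⟨8, 3, []⟩, ⟨16, 3, []⟩, ⟨32, 4, []⟩], [7, 3], 1, [(56, 1)]⟩,
⟨1, [⟨4, 2, []⟩, ⟨32, 2, []⟩], [3, 3, 3], 1, [(36, 1)]⟩,
⟨1, [⟨65, 3, []⟩, ⟨16, 3, []⟩, ⟨32, 4, []⟩], [7, 3], 1, [(49, 1), (112, 1)]⟩,
⟨1, [⟨18, 3, []⟩, ⟨36, 4, []⟩, ⟨64, 3, []⟩], [7, 5], 1, [(70, 1), (84, 1), (98, 1), (112, 1)]⟩,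
⟨1, [⟨16, 4, []⟩, ⟨32, 4, []⟩, ⟨2, 3, []⟩, ⟨4, 3, []⟩, ⟨64, 2, []⟩], [3, 12, 12, 16, 16, 16], 2, [(54, 1), (70, 1), (112, 1), (118, 2)]⟩,
⟨1, [⟨24, 3, []⟩, ⟨36, 3, []⟩, ⟨64, 4, []⟩], [7, 3], 1, [(76, 1), (84, 1), (104, 1), (112, 1)]⟩,
⟨1, [⟨4, 2, []⟩, ⟨64, 2, []⟩], [3, 3, 3], 1, [(68, 1)]⟩,
⟨0, [⟨17, 4, []⟩, ⟨70, 4, []⟩], [3], 1, [(3, 1), (5, 1), (18, 1), (20, 1), (65, 1), (80, 1)]⟩,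
⟨1, [⟨2, 3, []⟩, ⟨4, 3, []⟩, ⟨64, 4, []⟩], [7, 3], 1, [(70, 1)]⟩,
⟨1, [⟨72, 2, []⟩, ⟨32, 2, []⟩], [3, 3, 3], 1, [(40, 1), (96, 1)]⟩,
⟨0, [⟨10, 5, []⟩, ⟨36, 3, []⟩], [2, 2], 1, [(6, 1), (12, 1), (34, 1), (40, 1)]⟩,
⟨1, [⟨16, 2, []⟩, ⟨32, 2, []⟩, ⟨2, 2, []⟩, ⟨4, 4, []⟩, ⟨64, 5, []⟩], [3, 3, 3, 12, 4, 4], 2, [(70, 1), (112, 1), (118, 2)]⟩,
⟨1, [⟨12, 3, []⟩, ⟨32, 3, []⟩, ⟨64, 4, []⟩], [7, 3], 1, [(100, 1), (104, 1)]⟩,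
⟨1, [⟨2, 4, []⟩, ⟨4, 4, []⟩, ⟨16, 4, []⟩, ⟨32, 4, []⟩, ⟨64, 1, []⟩], [3, 12, 16, 16, 16, 16], 2, [(54, 1), (70, 1), (112, 1), (118, 2)]⟩,
⟨1, [⟨18, 3, []⟩, ⟨36, 3, []⟩, ⟨64, 4, []⟩], [7, 3], 1, [(70, 1), (84, 1), (98, 1), (112, 1)]⟩,
⟨1, [⟨0, 0, [(3, 1)]⟩, ⟨4, 3, []⟩, ⟨24, 3, []⟩, ⟨32, 3, []⟩, ⟨64, 3, []⟩], [3, 3, 1, 1, 28, 28], 2, [(7, 1), (104, 1), (111, 2), (112, 1), (119, 2)]⟩,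
⟨1, [⟨5, 3, []⟩, ⟨18, 3, []⟩, ⟨64, 4, []⟩], [7, 3], 1, [(67, 1), (70, 1), (81, 1), (84, 1)]⟩,
⟨0, [⟨1, 2, []⟩, ⟨4, 2, []⟩, ⟨8, 3, []⟩, ⟨96, 3, []⟩], [3, 3, 3, 12, 12], 2, [(5, 1), (40, 1), (45, 2), (72, 1), (77, 2)]⟩,
⟨1, [⟨1, 3, []⟩, ⟨2, 3, []⟩, ⟨4, 4, []⟩], [7, 3], 1, [(7, 1)]⟩,
⟨1, [⟨0, 0, [(10, 2)]⟩, ⟨0, 0, [(20, 2)]⟩], [3, 3, 3], 1, [(30, 1)]⟩,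
⟨0, [⟨6, 4, []⟩, ⟨1, 2, []⟩, ⟨48, 4, []⟩, ⟨8, 2, []⟩], [3, 2, 2, 12, 8, 8], 2, [(3, 1), (5, 1), (24, 1), (27, 2), (29, 2), (40, 1), (43, 2), (45, 2)]⟩,
⟨1, [⟨25, 3, []⟩, ⟨32, 3, []⟩, ⟨64, 4, []⟩], [7, 3], 1, [(97, 1), (104, 1), (112, 1)]⟩,
⟨1, [⟨26, 3, []⟩, ⟨32, 3, []⟩, ⟨4, 4, []⟩], [7, 3], 1, [(38, 1), (44, 1), (52, 1)]⟩,
⟨1, [⟨33, 3, []⟩, ⟨6, 4, []⟩, ⟨64, 3, []⟩], [7, 5], 1, [(67, 1), (69, 1), (98, 1), (100, 1)]⟩,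
⟨0, [⟨1, 3, []⟩, ⟨6, 3, []⟩, ⟨16, 2, []⟩, ⟨0, 0, [(10, 2)]⟩], [3, 3, 12, 12, 12], 2, [(3, 1), (5, 1), (26, 1), (27, 2)]⟩,
⟨0, [⟨9, 3, []⟩, ⟨2, 2, []⟩, ⟨16, 2, []⟩, ⟨64, 4, []⟩], [3, 5, 6, 6, 8], 2, [(19, 1), (26, 1), (65, 1), (66, 1), (72, 1), (80, 1), (83, 2), (90, 2)]⟩,
⟨0, [⟨1, 4, []⟩, ⟨2, 2, []⟩, ⟨24, 4, []⟩, ⟨32, 2, []⟩], [3, 2, 2, 12, 8, 8], 2, [(3, 1), (40, 1), (43, 2), (48, 1), (51, 2)]⟩,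
⟨1, [⟨20, 3, []⟩, ⟨72, 3, []⟩, ⟨32, 4, []⟩], [7, 3], 1, [(44, 1), (56, 1), (100, 1), (112, 1)]⟩,
⟨1, [⟨8, 2, []⟩, ⟨32, 2, []⟩, ⟨2, 2, []⟩, ⟨4, 4, []⟩, ⟨64, 5, []⟩], [3, 3, 3, 12, 4, 4], 2, [(70, 1), (104, 1), (110, 2)]⟩,
⟨0, [⟨1, 3, []⟩, ⟨6, 3, []⟩, ⟨8, 2, []⟩, ⟨0, 0, [(34, 2)]⟩], [3, 3, 12, 12, 12], 2, [(3, 1), (5, 1), (42, 1), (43, 2)]⟩,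
⟨1, [⟨32, 2, []⟩, ⟨64, 2, []⟩], [3, 3, 3], 1, [(96, 1)]⟩,
⟨1, [⟨40, 3, []⟩, ⟨17, 3, []⟩, ⟨6, 4, []⟩], [7, 3], 1, [(11, 1), (13, 1), (26, 1), (28, 1), (35, 1), (37, 1), (50, 1), (52, 1)]⟩,
⟨1, [⟨48, 3, []⟩, ⟨9, 3, []⟩, ⟨64, 4, []⟩], [7, 3], 1, [(81, 1), (88, 1), (97, 1), (104, 1)]⟩,
⟨1, [⟨24, 3, []⟩, ⟨32, 2, [(6, 1)]⟩, ⟨64, 4, []⟩], [7, 3], 1, [(78, 1), (86, 1), (104, 1), (112, 1)]⟩,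
⟨0, [⟨8, 3, []⟩, ⟨16, 3, []⟩, ⟨2, 2, []⟩, ⟨4, 2, []⟩], [3, 3, 12, 12, 12], 2, [(6, 1), (24, 1), (30, 2)]⟩,
⟨0, [⟨17, 4, []⟩, ⟨104, 4, []⟩], [3], 1, [(9, 1), (24, 1), (33, 1), (48, 1), (65, 1), (80, 1)]⟩,
⟨1, [⟨34, 3, []⟩, ⟨4, 3, []⟩, ⟨64, 4, []⟩], [7, 3], 1, [(70, 1), (100, 1)]⟩,
⟨1, [⟨0, 0, [(40, 2)]⟩, ⟨16, 2, []⟩], [3, 3, 3], 1, [(56, 1)]⟩,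
⟨0, [⟨17, 4, []⟩, ⟨12, 4, []⟩], [3], 1, [(5, 1), (9, 1), (20, 1), (24, 1)]⟩,
⟨1, [⟨28, 4, []⟩, ⟨32, 3, []⟩, ⟨64, 3, []⟩], [7, 6], 1, [(100, 1), (104, 1), (112, 1)]⟩,
⟨1, [⟨24, 3, []⟩, ⟨32, 2, [(3, 1)]⟩, ⟨64, 4, []⟩], [7, 3], 1, [(75, 1), (83, 1), (104, 1), (112, 1)]⟩,
⟨1, [⟨2, 2, []⟩, ⟨4, 4, []⟩, ⟨16, 2, []⟩, ⟨32, 4, []⟩, ⟨64, 3, []⟩], [3, 17, 17, 12, 4, 4], 2, [(52, 1), (70, 1), (112, 1), (118, 2)]⟩,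
⟨1, [⟨80, 3, []⟩, ⟨10, 3, []⟩, ⟨4, 4, []⟩], [7, 3], 1, [(22, 1), (28, 1), (70, 1), (76, 1)]⟩,
⟨0, [⟨16, 3, []⟩, ⟨32, 3, []⟩, ⟨1, 2, []⟩, ⟨2, 2, []⟩], [3, 3, 12, 12, 12], 2, [(3, 1), (48, 1), (51, 2)]⟩,
⟨1, [⟨10, 3, []⟩, ⟨5, 4, []⟩, ⟨64, 3, []⟩], [7, 5], 1, [(67, 1), (70, 1), (73, 1), (76, 1)]⟩,
⟨1, [⟨32, 3, []⟩, ⟨66, 4, []⟩, ⟨4, 3, []⟩], [7, 5], 1, [(38, 1), (100, 1)]⟩,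
⟨0, [⟨8, 2, []⟩, ⟨32, 2, []⟩, ⟨1, 3, []⟩, ⟨66, 3, []⟩], [3, 3, 3, 12, 12], 2, [(3, 1), (40, 1), (43, 2), (65, 1), (105, 2)]⟩,
⟨1, [⟨96, 3, []⟩, ⟨10, 3, []⟩, ⟨4, 4, []⟩], [7, 3], 1, [(38, 1), (44, 1), (70, 1), (76, 1)]⟩,
⟨1, [⟨66, 3, []⟩, ⟨33, 4, []⟩, ⟨4, 3, []⟩], [7, 5], 1, [(7, 1), (38, 1), (69, 1), (100, 1)]⟩,
⟨1, [⟨12, 3, []⟩, ⟨16, 3, []⟩, ⟨32, 4, []⟩], [7, 3], 1, [(52, 1), (56, 1)]⟩,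
⟨0, [⟨11, 4, []⟩, ⟨64, 4, []⟩], [3], 1, [(65, 1), (66, 1), (72, 1)]⟩,
⟨1, [⟨1, 2, []⟩, ⟨4, 2, []⟩], [3, 3, 3], 1, [(5, 1)]⟩,
⟨1, [⟨12, 4, []⟩, ⟨48, 3, []⟩, ⟨64, 3, []⟩], [7, 6], 1, [(84, 1), (88, 1), (100, 1), (104, 1)]⟩,
⟨1, [⟨0, 0, [(17, 2)]⟩, ⟨0, 0, [(34, 2)]⟩], [3, 3, 3], 1, [(51, 1)]⟩,
⟨0, [⟨1, 4, []⟩, ⟨2, 4, []⟩], [3], 1, [(3, 1)]⟩,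
⟨0, [⟨24, 4, []⟩, ⟨96, 4, []⟩], [3], 1, [(40, 1), (48, 1), (72, 1), (80, 1)]⟩,
⟨0, [⟨10, 5, []⟩, ⟨80, 3, []⟩], [2, 2], 1, [(18, 1), (24, 1), (66, 1), (72, 1)]⟩,
⟨0, [⟨17, 5, []⟩, ⟨64, 3, []⟩], [2, 2], 1, [(65, 1), (80, 1)]⟩,
⟨0, [⟨1, 2, []⟩, ⟨2, 2, []⟩, ⟨8, 3, []⟩, ⟨96, 3, []⟩], [3, 3, 3, 12, 12], 2, [(3, 1), (40, 1), (43, 2), (72, 1), (75, 2)]⟩,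
⟨1, [⟨12, 3, []⟩, ⟨48, 4, []⟩, ⟨64, 3, []⟩], [7, 5], 1, [(84, 1), (88, 1), (100, 1), (104, 1)]⟩,
⟨1, [⟨2, 3, []⟩, ⟨4, 3, []⟩, ⟨48, 4, []⟩], [7, 3], 1, [(22, 1), (38, 1)]⟩,
⟨1, [⟨0, 0, [(36, 2)]⟩, ⟨64, 2, []⟩], [3, 3, 3], 1, [(100, 1)]⟩,
⟨1, [⟨10, 4, []⟩, ⟨4, 3, []⟩, ⟨32, 3, []⟩], [7, 6], 1, [(38, 1), (44, 1)]⟩,
⟨1, [⟨68, 3, []⟩, ⟨16, 3, []⟩, ⟨32, 4, []⟩], [7, 3], 1, [(52, 1), (112, 1)]⟩,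
⟨1, [⟨4, 4, []⟩, ⟨2, 3, []⟩, ⟨16, 3, []⟩, ⟨32, 4, []⟩, ⟨64, 2, []⟩], [3, 6, 12, 16, 16, 16], 2, [(54, 1), (70, 1), (100, 1), (112, 1), (118, 2)]⟩,
⟨0, [⟨1, 3, []⟩, ⟨6, 3, []⟩, ⟨32, 2, []⟩, ⟨0, 0, [(20, 2)]⟩], [3, 3, 12, 12, 12], 2, [(3, 1), (5, 1), (52, 1), (53, 2)]⟩,
⟨1, [⟨0, 0, [(48, 2)]⟩, ⟨8, 2, []⟩], [3, 3, 3], 1, [(56, 1)]⟩,
⟨1, [⟨16, 3, []⟩, ⟨32, 3, []⟩, ⟨68, 4, []⟩], [7, 3], 1, [(52, 1), (112, 1)]⟩,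
⟨1, [⟨5, 4, []⟩, ⟨2, 3, []⟩, ⟨64, 3, []⟩], [7, 6], 1, [(67, 1), (70, 1)]⟩,
⟨0, [⟨22, 5, []⟩, ⟨1, 3, []⟩], [2, 2], 1, [(3, 1), (5, 1), (17, 1)]⟩,
⟨1, [⟨96, 3, []⟩, ⟨18, 3, []⟩, ⟨4, 4, []⟩], [7, 3], 1, [(38, 1), (52, 1), (70, 1), (84, 1)]⟩,
⟨1, [⟨2, 2, []⟩, ⟨4, 3, []⟩, ⟨16, 2, []⟩, ⟨32, 4, []⟩, ⟨64, 4, []⟩], [3, 3, 17, 12, 4, 4], 2, [(52, 1), (70, 1), (112, 1), (118, 2)]⟩,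
⟨1, [⟨80, 3, []⟩, ⟨2, 3, []⟩, ⟨4, 4, []⟩], [7, 3], 1, [(22, 1), (70, 1)]⟩,
⟨1, [⟨18, 3, []⟩, ⟨32, 4, []⟩, ⟨64, 3, []⟩], [7, 5], 1, [(98, 1), (112, 1)]⟩,
⟨1, [⟨48, 3, []⟩, ⟨10, 3, []⟩, ⟨64, 4, []⟩], [7, 3], 1, [(82, 1), (88, 1), (98, 1), (104, 1)]⟩,
⟨0, [⟨8, 2, []⟩, ⟨3, 3, []⟩, ⟨4, 2, []⟩, ⟨64, 4, []⟩], [3, 5, 5, 6, 8], 2, [(13, 1), (14, 1), (65, 1), (66, 1), (68, 1), (72, 1), (77, 2), (78, 2)]⟩,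
⟨0, [⟨9, 3, []⟩, ⟨64, 5, []⟩], [1, 1], 1, [(65, 1), (72, 1)]⟩,
⟨1, [⟨80, 4, []⟩, ⟨8, 3, []⟩, ⟨32, 3, []⟩], [7, 6], 1, [(56, 1), (104, 1)]⟩,
⟨1, [⟨8, 2, []⟩, ⟨16, 2, []⟩], [3, 3, 3], 1, [(24, 1)]⟩,
⟨1, [⟨18, 3, []⟩, ⟨32, 4, []⟩, ⟨4, 2, [(24, 1)]⟩], [7, 5], 1, [(38, 1), (52, 1), (56, 1)]⟩,
⟨1, [⟨16, 2, []⟩, ⟨64, 2, []⟩], [3, 3, 3], 1, [(80, 1)]⟩,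
⟨0, [⟨18, 4, []⟩, ⟨65, 4, []⟩], [3], 1, [(3, 1), (17, 1), (66, 1), (80, 1)]⟩,
⟨1, [⟨0, 0, [(24, 1)]⟩, ⟨2, 2, []⟩, ⟨4, 2, []⟩, ⟨64, 5, []⟩], [1, 1, 1, 1, 6, 6, 6], 2, [(70, 1), (88, 1), (94, 2)]⟩,
⟨0, [⟨9, 4, []⟩, ⟨64, 4, []⟩], [3], 1, [(65, 1), (72, 1)]⟩,
⟨1, [⟨6, 3, []⟩, ⟨33, 3, []⟩, ⟨64, 4, []⟩], [7, 3], 1, [(67, 1), (69, 1), (98, 1), (100, 1)]⟩,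
⟨1, [⟨5, 3, []⟩, ⟨2, 2, [(9, 1)]⟩, ⟨64, 4, []⟩], [7, 3], 1, [(67, 1), (70, 1), (73, 1)]⟩,
⟨1, [⟨4, 1, [(24, 1)]⟩, ⟨64, 2, []⟩], [3, 3, 3], 1, [(68, 1), (88, 1)]⟩,
⟨1, [⟨32, 3, []⟩, ⟨18, 4, []⟩, ⟨64, 3, []⟩], [7, 5], 1, [(98, 1), (112, 1)]⟩,
⟨0, [⟨8, 2, []⟩, ⟨16, 2, []⟩, ⟨1, 3, []⟩, ⟨66, 3, []⟩], [3, 3, 3, 12, 12], 2, [(3, 1), (24, 1), (27, 2), (65, 1), (89, 2)]⟩,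
⟨1, [⟨2, 3, []⟩, ⟨0, 0, [(36, 3)]⟩, ⟨24, 4, []⟩], [7, 3], 1, [(46, 1), (54, 1)]⟩,
⟨1, [⟨24, 3, []⟩, ⟨32, 2, [(10, 1)]⟩, ⟨64, 4, []⟩], [7, 3], 1, [(74, 1), (104, 1), (112, 1)]⟩,
⟨0, [⟨9, 5, []⟩, ⟨80, 3, []⟩], [2, 2], 1, [(17, 1), (24, 1), (65, 1), (72, 1)]⟩,
⟨0, [⟨8, 3, []⟩, ⟨112, 5, []⟩], [1, 1], 1, [(24, 1), (40, 1), (72, 1)]⟩,
⟨0, [⟨17, 3, []⟩, ⟨64, 5, []⟩], [1, 1], 1, [(65, 1), (80, 1)]⟩,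
⟨0, [⟨1, 3, []⟩, ⟨20, 4, []⟩, ⟨8, 3, []⟩, ⟨32, 2, []⟩, ⟨64, 2, []⟩], [11, 17, 28, 28], 2, [(5, 1), (17, 1), (44, 1), (56, 1), (72, 1), (109, 2), (121, 2)]⟩,
⟨1, [⟨33, 3, []⟩, ⟨2, 3, []⟩, ⟨4, 4, []⟩], [7, 3], 1, [(7, 1), (38, 1)]⟩,
⟨1, [⟨18, 4, []⟩, ⟨40, 3, []⟩, ⟨64, 3, []⟩], [7, 6], 1, [(74, 1), (88, 1), (98, 1), (112, 1)]⟩,
⟨1, [⟨68, 3, []⟩, ⟨18, 3, []⟩, ⟨32, 4, []⟩], [7, 3], 1, [(38, 1), (52, 1), (98, 1), (112, 1)]⟩,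
⟨0, [⟨17, 5, []⟩, ⟨72, 3, []⟩], [2, 2], 1, [(9, 1), (24, 1), (65, 1), (80, 1)]⟩,
⟨0, [⟨14, 5, []⟩, ⟨65, 3, []⟩], [2, 2], 1, [(3, 1), (5, 1), (9, 1), (66, 1), (68, 1), (72, 1)]⟩,
⟨0, [⟨1, 3, []⟩, ⟨2, 3, []⟩, ⟨8, 2, []⟩, ⟨64, 2, []⟩], [3, 3, 12, 12, 12], 2, [(3, 1), (72, 1), (75, 2)]⟩,
⟨1, [⟨33, 3, []⟩, ⟨4, 3, []⟩, ⟨2, 4, []⟩], [7, 3], 1, [(7, 1), (38, 1)]⟩,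
⟨1, [⟨16, 3, []⟩, ⟨32, 3, []⟩, ⟨66, 4, []⟩], [7, 3], 1, [(50, 1), (112, 1)]⟩,
⟨1, [⟨0, 0, [(36, 2)]⟩, ⟨2, 2, []⟩], [3, 3, 3], 1, [(38, 1)]⟩,
⟨1, [⟨48, 3, []⟩, ⟨66, 3, []⟩, ⟨4, 4, []⟩], [7, 3], 1, [(22, 1), (38, 1), (84, 1), (100, 1)]⟩,
⟨0, [⟨34, 3, []⟩, ⟨1, 2, []⟩, ⟨8, 2, []⟩, ⟨64, 4, []⟩], [3, 5, 6, 6, 8], 2, [(11, 1), (41, 1), (65, 1), (66, 1), (72, 1), (75, 2), (96, 1), (105, 2)]⟩,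
⟨0, [⟨24, 4, []⟩, ⟨64, 4, []⟩], [3], 1, [(72, 1), (80, 1)]⟩,
⟨1, [⟨5, 3, []⟩, ⟨2, 2, [(24, 1)]⟩, ⟨64, 4, []⟩], [7, 3], 1, [(67, 1), (70, 1), (89, 1), (92, 1)]⟩,
⟨0, [⟨1, 3, []⟩, ⟨18, 4, []⟩, ⟨8, 3, []⟩, ⟨32, 2, []⟩, ⟨64, 2, []⟩], [11, 17, 28, 28], 2, [(3, 1), (17, 1), (42, 1), (56, 1), (72, 1), (107, 2), (121, 2)]⟩,
⟨1, [⟨65, 3, []⟩, ⟨4, 3, []⟩, ⟨2, 4, []⟩], [7, 3], 1, [(7, 1), (70, 1)]⟩,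
⟨1, [⟨4, 3, []⟩, ⟨18, 4, []⟩, ⟨64, 3, []⟩], [7, 5], 1, [(70, 1), (84, 1)]⟩,
⟨0, [⟨8, 3, []⟩, ⟨32, 3, []⟩, ⟨1, 2, []⟩, ⟨2, 2, []⟩], [3, 3, 12, 12, 12], 2, [(3, 1), (40, 1), (43, 2)]⟩,
⟨1, [⟨40, 4, []⟩, ⟨0, 0, [(20, 2)]⟩, ⟨1, 2, []⟩, ⟨2, 2, []⟩, ⟨64, 5, []⟩], [3, 2, 2, 12, 12, 12], 2, [(67, 1), (92, 1), (95, 2), (116, 1), (119, 2)]⟩,
⟨1, [⟨72, 3, []⟩, ⟨36, 4, []⟩, ⟨16, 3, []⟩], [7, 5], 1, [(28, 1), (56, 1), (84, 1), (112, 1)]⟩,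
⟨1, [⟨0, 0, [(34, 2)]⟩, ⟨4, 2, []⟩], [3, 3, 3], 1, [(38, 1)]⟩,
⟨0, [⟨41, 4, []⟩, ⟨64, 4, []⟩], [3], 1, [(65, 1), (72, 1), (96, 1)]⟩,
⟨0, [⟨1, 3, []⟩, ⟨2, 3, []⟩, ⟨8, 2, []⟩, ⟨64, 5, []⟩], [3, 3, 4, 4, 4], 2, [(67, 1), (72, 1), (75, 2)]⟩,
⟨1, [⟨65, 3, []⟩, ⟨2, 3, []⟩, ⟨4, 4, []⟩], [7, 3], 1, [(7, 1), (70, 1)]⟩,
⟨0, [⟨1, 3, []⟩, ⟨6, 3, []⟩, ⟨8, 2, []⟩, ⟨0, 0, [(18, 2)]⟩], [3, 3, 12, 12, 12], 2, [(3, 1), (5, 1), (26, 1), (27, 2)]⟩,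
⟨1, [⟨16, 3, []⟩, ⟨32, 3, []⟩, ⟨64, 4, []⟩], [7, 3], 1, [(112, 1)]⟩,
⟨0, [⟨49, 4, []⟩, ⟨64, 4, []⟩], [3], 1, [(65, 1), (80, 1), (96, 1)]⟩,
⟨1, [⟨0, 0, [(34, 2)]⟩, ⟨64, 2, []⟩], [3, 3, 3], 1, [(98, 1)]⟩,
⟨1, [⟨20, 4, []⟩, ⟨2, 3, []⟩, ⟨32, 3, []⟩], [7, 6], 1, [(38, 1), (50, 1)]⟩,
⟨0, [⟨17, 4, []⟩, ⟨72, 4, []⟩], [3], 1, [(9, 1), (24, 1), (65, 1), (80, 1)]⟩,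
⟨1, [⟨0, 0, [(40, 2)]⟩, ⟨64, 2, []⟩], [3, 3, 3], 1, [(104, 1)]⟩,
⟨1, [⟨0, 0, [(68, 2)]⟩, ⟨32, 2, []⟩], [3, 3, 3], 1, [(100, 1)]⟩,
⟨1, [⟨32, 2, []⟩, ⟨24, 2, []⟩], [3, 3, 3], 1, [(40, 1), (48, 1)]⟩,
⟨1, [⟨64, 2, []⟩, ⟨0, 0, [(6, 1), (34, 1)]⟩], [3, 3, 3], 1, [(70, 1), (98, 1)]⟩,
⟨0, [⟨38, 5, []⟩, ⟨1, 3, []⟩], [2, 2], 1, [(3, 1), (5, 1), (33, 1)]⟩,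
⟨0, [⟨34, 4, []⟩, ⟨65, 4, []⟩], [3], 1, [(3, 1), (33, 1), (66, 1), (96, 1)]⟩,
⟨1, [⟨0, 0, [(12, 2)]⟩, ⟨16, 2, []⟩], [3, 3, 3], 1, [(28, 1)]⟩]

theorem base_ok : base.all (fun q => q.ok 7 2 [7, 56] big4 big4 [(0, 1, 0, 0), (0, 2, 0, 1), (0, 4, 0, 3), (0, 5, 0, 4), (0, 3, 0, 0)]) = true := by
  decide +kernel

theorem gb_ok : gb.all (fun c => c.ok 7 2 bl) = true := by decide +kernel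

theorem gads_ok : gads.all (fun g => g.okV 7 2 [6, 0]) = true := by decide +kernel

theorem cmp_ok : cmpR names cnf (clsu 2 base ++ (gb.map (Gb.cl bl) ++ gads.map Gt.cl)) = true := by
  decide +kernel

end DN02

theorem instn_02 : instNS 1 2 [6, 0] DN02.bl [(0, 1, 0, 0), (0, 2, 0, 1), (0, 4, 0, 3), (0, 5, 0, 4), (0, 3, 0, 0)] DN02.base DN02.gb DN02.gads DN02.names DN02.cnf DN02.db DN02.prf = true :=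
  instNS_of DN02.base_ok DN02.gb_ok DN02.gads_ok (by decide +kernel) DN02.okc DN02.cmp_ok DN02.chk_ok

/-- there is no configuration of this instance. -/
theorem noN_02 {V : Type v} [DecidableEq V] {ι : Type u} [Fintype ι] {B : ι → Finset V}
    {Q : Finset V} {x : ℕ → V} {C : ℕ → Finset V} (h : CfN B Q 1 2 x C [6, 0] DN02.bl) : False :=
  h.absurd_srt (s := 0) (by decide) rfl instn_02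

end Pool.Agent.Hyp6
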