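import Pool.Agent.Hyp6.CfBO
import Pool.Agent.Hyp6.InsN.M03

/-!
# HYP6: instance with bounds 3: n = 2, r = 3, values [0, 0, 2], inner blocks []

1704 base clauses, 106 given clauses, 612 gadgets, 3368 learned clauses.
-/

set_option autoImplicit false
set_option maxRecDepth 100000

namespace Pool.Agent.Hyp6

open Rup

universe u v

namespace DN03

noncomputable def base : List Ru := [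
.rs (.lip 0 24 29 7),
.rs (.join 0 1 4 2 2 1 [(0, 1)]),
.rs (.lipl 2 146 182 2 36),
.rs (.le 2 20 16 4 1),
.rs (.mono 1 1 33 1),
.rs (.join 1 4 5 2 2 3 [(2, 3)]),
.rs (.part [2, 192, 5] [0, 0, 0] [56] []),
.rs (.part [67, 12, 176] [1, 0, 0] [] []),
.rs (.part [32, 72, 151] [0, 0, 1] [] []),
.rs (.mono 0 4 20 1),
.rs (.l2 0 132 136 7 1 1),
.rs (.mono 1 128 136 1),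
.rs (.lip 1 68 196 128),
.rs (.join 2 2 2 4 2 2 [(1, 0)]),
.rs (.join 1 4 7 2 3 0 [(2, 1)]),
.rs (.part [9, 128, 118] [0, 0, 1] [] []),
.rs (.srt 0 2 0 1 2),
.rs (.part [160, 64, 24] [0, 0, 0] [7] []),
.rs (.join 2 2 4 4 2 4 [(1, 2)]),
.rs (.mono 1 16 24 1),
.rs (.part [56, 64, 135] [1, 0, 0] [] []),
.rs (.part [9, 112, 134] [0, 1, 0] [] []),
.rs (.l2 1 5 65 0 1 1),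
.rs (.part [9, 86, 160] [0, 1, 0] [] []),
.rs (.lip 1 80 87 7),
.rs (.lip 2 192 199 7),
.rs (.join 2 4 4 4 3 3 [(2, 2)]),
.rs (.lipl 1 34 102 1 68),
.rs (.le 1 3 1 0 1),
.rs (.le 1 24 16 4 2),
.rs (.part [121, 6, 128] [1, 0, 0] [] []),
.rs (.mono 1 64 68 1),
.rs (.part [2, 1, 252] [0, 0, 1] [] []),
.rs (.join 2 2 6 2 1 2 [(1, 1)]),
.rs (.part [96, 16, 143] [0, 0, 1] [] []),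
.rs (.lip 2 68 124 56),
.rs (.join 0 1 3 2 2 2 [(0, 2)]),
.rs (.join 2 32 6 4 4 0 [(5, 0)]),
.rs (.join 1 2 6 2 1 1 [(1, 0)]),
.rs (.l2 2 34 40 5 2 2),
.rs (.lipl 2 136 154 2 18),
.rs (.l2 2 48 96 5 1 1),
.rs (.lipl 2 196 214 2 18),
.rs (.part [129, 104, 22] [0, 1, 0] [] []),
.rs (.lipl 0 65 75 0 10),
.rs (.lip 0 3 51 56),
.rs (.l2 1 17 33 0 1 1),
.rs (.part [33, 74, 148] [0, 1, 0] [] []),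
.rs (.part [27, 32, 196] [1, 0, 0] [] []),
.rs (.l2 2 3 34 1 1 3),
.rs (.l2 1 66 192 6 1 1),
.rs (.ab2 0 40),
.rs (.ab 1 7),
.rs (.ab2 2 3),
.rs (.join 0 2 6 2 1 1 [(1, 0)]),
.rs (.l2 2 20 24 4 3 1),
.rs (.l2 2 24 48 4 1 1),
.rs (.ab2 0 130),
.rs (.part [65, 4, 186] [0, 0, 1] [] []),
.rs (.le 2 18 16 4 4),
.rs (.mono 1 64 65 1),
.rs (.part [129, 76, 50] [0, 1, 0] [] []),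
.rs (.ordE 2 16 2),
.rs (.mono 1 32 160 1),
.rs (.deg 4 [0, 1, 2]),
.rs (.part [136, 32, 87] [0, 0, 1] [] []),
.rs (.part [3, 192, 4] [0, 0, 0] [56] []),
.rs (.lip 1 144 150 7),
.rs (.lipl 2 140 174 2 34),
.rs (.part [1, 124, 130] [0, 1, 0] [] []),
.rs (.part [24, 103, 128] [0, 1, 0] [] []),
.rs (.deg 1 [1, 0, 2]),
.rs (.lipl 2 193 213 2 20),
.rs (.srt 0 5 0 4 1),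
.rs (.lipl 0 9 77 2 68),
.rs (.part [1, 192, 6] [0, 0, 0] [56] []),
.rs (.mono 0 32 96 1),
.degU 0 [(0, 3), (1, 2)],
.rs (.lip 1 64 112 56),
.rs (.lip 1 144 151 7),
.rs (.ab2 0 192),
.rs (.part [16, 40, 192] [0, 0, 0] [7] []),
.rs (.part [9, 144, 38] [0, 0, 0] [64] []),
.rs (.part [136, 81, 38] [0, 1, 0] [] []),
.rs (.ordE 2 64 3),
.rs (.join 2 4 4 4 4 4 [(2, 4)]),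
.rs (.part [96, 128, 24] [0, 0, 0] [7] []),
.rs (.lipl 1 36 116 1 80),
.rs (.join 2 4 6 2 1 2 [(2, 1)]),
.rs (.lipl 2 162 171 0 9),
.rs (.join 1 1 2 2 1 1 [(0, 0)]),
.rs (.part [18, 36, 201] [0, 0, 1] [] []),
.rs (.join 0 1 3 2 2 1 [(0, 1)]),
.rs (.join 2 2 5 4 2 2 [(1, 0)]),
.rs (.join 2 1 5 4 1 3 [(0, 0)]),
.rs (.lipl 1 33 45 1 12),
.rs (.lipl 2 145 181 2 36),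
.rs (.join 0 8 6 2 1 1 [(3, 0)]),
.rs (.ordE 2 2 1),
.rs (.join 2 4 4 4 3 1 [(2, 0)]),
.rs (.l2 2 6 36 2 2 2),
.rs (.join 2 2 5 4 3 4 [(1, 3)]),
.rs (.l2 2 18 66 1 1 1),
.rs (.lipl 1 80 114 2 34),
.rs (.join 2 16 7 5 3 4 [(4, 2)]),
.rs (.l2 2 6 34 1 1 2),
.rs (.mono 1 8 9 1),
.rs (.l2 1 9 24 3 1 1),
.rs (.part [8, 16, 231] [0, 0, 1] [] []),
.rs (.l2 2 3 33 0 1 1),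
.rs (.part [80, 1, 174] [0, 0, 1] [] []),
.rs (.le 1 34 2 1 2),
.rs (.part [8, 36, 211] [0, 0, 1] [] []),
.rs (.join 1 8 4 2 0 2 [(3, 0)]),
.rs (.srt 0 3 0 0 1),
.rs (.deg 3 [0, 0, 3]),
.rs (.le 0 65 64 6 1),
.rs (.le 2 80 16 4 3),
.rs (.join 2 4 5 5 2 3 [(2, 0)]),
.rs (.part [64, 4, 131] [0, 0, 0] [56] []),
.rs (.part [64, 8, 176] [0, 0, 0] [7] []),
.rs (.l2 2 6 36 2 1 1),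
.rs (.le 1 36 32 5 2),
.rs (.part [9, 20, 226] [0, 0, 1] [] []),
.rs (.l2 1 40 96 5 1 1),
.rs (.join 0 8 5 2 2 0 [(3, 0)]),
.rs (.part [10, 144, 37] [0, 0, 0] [64] []),
.rs (.lipl 1 64 82 1 18),
.rs (.le 1 3 2 1 1),
.rs (.part [192, 32, 24] [0, 0, 0] [7] []),
.rs (.part [1, 130, 68] [0, 0, 0] [56] []),
.rs (.part [128, 2, 69] [0, 0, 0] [56] []),
.rs (.lipl 1 80 116 2 36),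
.rs (.join 2 2 2 5 3 2 [(1, 0)]),
.rs (.l2 1 129 136 7 1 1),
.rs (.ab2 1 129),
.rs (.join 1 2 2 2 2 0 [(1, 0)]),
.rs (.lip 1 66 82 16),
.rs (.ab2 0 12),
.rs (.lipl 1 64 74 0 10),
.rs (.part [64, 33, 158] [0, 0, 1] [] []),
.rs (.ordE 2 4 2),
.rs (.lipl 1 33 43 1 10),
.rs (.l2 2 3 18 1 2 1),
.rs (.part [132, 2, 121] [0, 0, 1] [] []),
.rs (.l2 0 136 160 7 1 1),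
.rs (.l2 2 6 34 1 2 2),
.rs (.join 2 1 1 4 2 3 [(0, 1)]),
.rs (.part [88, 160, 7] [1, 0, 0] [] []),
.rs (.lip 0 72 75 7),
.rs (.join 1 4 5 2 2 4 [(2, 4)]),
.rs (.le 1 132 128 7 2),
.rs (.lipl 0 64 73 1 9),
.rs (.lip 2 51 179 128),
.rs (.part [17, 46, 192] [0, 1, 0] [] []),
.rs (.srt 0 3 0 0 2),
.rs (.lipl 1 192 212 1 20),
.rs (.lip 2 160 163 7),
.rs (.part [9, 4, 242] [0, 0, 1] [] []),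
.rs (.join 1 32 6 2 1 1 [(5, 0)]),
.rs (.join 2 1 2 4 1 3 [(0, 0)]),
.rs (.part [2, 129, 68] [0, 0, 0] [56] []),
.rs (.join 1 1 2 2 0 2 [(0, 0)]),
.degU 1 [(0, 2), (1, 1), (2, 2)],
.rs (.part [9, 162, 84] [0, 1, 0] [] []),
.rs (.part [3, 128, 68] [0, 0, 0] [56] []),
.degU 0 [(0, 1), (2, 4)],
.rs (.part [3, 4, 248] [0, 0, 1] [] []),
.rs (.le 1 6 2 1 2),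
.rs (.lipl 2 194 230 2 36),
.rs (.part [64, 144, 47] [0, 0, 1] [] []),
.rs (.join 1 1 4 2 1 1 [(0, 0)]),
.rs (.join 0 32 6 2 1 1 [(5, 0)]),
.rs (.lipl 2 160 226 1 66),
.rs (.part [130, 1, 124] [0, 0, 1] [] []),
.rs (.l2 0 9 40 3 1 1),
.rs (.le 1 34 2 1 1),
.rs (.lipl 0 8 73 1 65),
.rs (.l2 0 17 18 4 1 1),
.rs (.l2 1 34 130 1 1 1),
.rs (.part [17, 10, 228] [0, 0, 1] [] []),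
.rs (.lipl 1 68 102 1 34),
.rs (.lipl 2 138 158 2 20),
.rs (.join 2 2 5 4 3 3 [(1, 2)]),
.degU 1 [(2, 5)],
.rs (.part [17, 136, 38] [0, 0, 0] [64] []),
.rs (.le 1 18 2 1 1),
.rs (.lipl 1 12 46 2 34),
.rs (.lip 1 64 67 7),
.rs (.ordE 0 128 2),
.rs (.mono 2 160 162 1),
.rs (.lip 2 48 55 7),
.rs (.part [20, 97, 138] [0, 1, 0] [] []),
.rs (.part [80, 128, 40] [0, 0, 0] [7] []),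
.rs (.l2 1 6 34 1 1 1),
.rs (.part [64, 55, 136] [0, 1, 0] [] []),
.rs (.lipl 1 48 116 2 68),
.rs (.l2 0 6 10 1 1 1),
.rs (.join 0 2 5 2 2 0 [(1, 0)]),
.rs (.l2 1 6 12 2 1 1),
.rs (.ab 0 5),
.rs (.lipl 2 52 62 2 10),
.rs (.join 1 8 4 2 2 0 [(3, 0)]),
.rs (.join 2 4 5 2 1 1 [(2, 0)]),
.rs (.part [33, 64, 158] [0, 0, 1] [] []),
.rs (.mono 0 64 65 1),
.rs (.l2 0 6 20 2 1 1),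
.rs (.lipl 0 8 73 2 65),
.rs (.lipl 0 129 139 0 10),
.rs (.lip 2 54 182 128),
.rs (.lip 1 130 178 56),
.rs (.le 1 10 8 3 1),
.rs (.lip 0 64 69 7),
.rs (.part [129, 100, 26] [0, 1, 0] [] []),
.rs (.part [130, 84, 41] [0, 1, 0] [] []),
.degU 5 [(2, 5)],
.rs (.part [65, 20, 170] [0, 0, 1] [] []),
.rs (.lip 0 0 56 56),
.rs (.un 0 1),
.rs (.ordE 2 16 1),
.rs (.join 2 4 6 4 4 0 [(2, 0)]),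
.rs (.join 0 1 7 2 2 0 [(0, 0)]),
.rs (.l2 1 80 192 6 1 1),
.rs (.join 2 2 3 2 1 1 [(1, 0)]),
.rs (.l2 2 10 18 1 2 2),
.rs (.part [9, 228, 18] [0, 1, 0] [] []),
.rs (.part [16, 136, 96] [0, 0, 0] [7] []),
.rs (.lipl 0 9 75 1 66),
.rs (.join 1 1 1 2 2 0 [(0, 0)]),
.rs (.deg 0 [0, 0, 3]),
.rs (.part [64, 20, 171] [0, 0, 1] [] []),
.rs (.join 2 4 4 4 2 3 [(2, 1)]),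
.rs (.part [10, 84, 161] [0, 1, 0] [] []),
.rs (.mono 0 64 68 1),
.rs (.join 2 1 3 2 1 1 [(0, 0)]),
.rs (.part [1, 64, 190] [0, 0, 1] [] []),
.rs (.join 1 1 5 2 1 1 [(0, 0)]),
.rs (.deg 2 [1, 2, 0]),
.rs (.lipl 2 144 154 2 10),
.rs (.ordE 2 32 2),
.rs (.join 2 16 5 4 2 3 [(4, 1)]),
.rs (.l2 2 5 20 2 2 3),
.rs (.lipl 2 164 174 2 10),
.rs (.lipl 2 33 225 1 192),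
.rs (.lipl 2 192 202 2 10),
.rs (.join 0 1 7 2 3 0 [(0, 1)]),
.rs (.join 2 4 4 4 4 2 [(2, 2)]),
.rs (.srt 0 1 0 0 4),
.rs (.part [8, 99, 148] [0, 1, 0] [] []),
.rs (.join 0 2 3 2 1 1 [(1, 0)]),
.rs (.l2 2 3 66 1 2 3),
.rs (.part [8, 32, 215] [0, 0, 1] [] []),
.rs (.le 1 192 128 7 1),
.rs (.l2 1 36 68 2 1 1),
.rs (.mono 1 16 20 1),
.rs (.join 2 1 3 4 2 2 [(0, 0)]),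
.rs (.lipl 2 146 214 2 68),
.rs (.part [1, 10, 244] [0, 0, 1] [] []),
.rs (.deg 4 [0, 0, 3]),
.rs (.le 1 18 2 1 2),
.rs (.lip 2 66 122 56),
.rs (.join 2 8 5 4 1 3 [(3, 0)]),
.rs (.mono 2 160 164 1),
.rs (.join 2 2 4 2 1 1 [(1, 0)]),
.rs (.le 2 65 1 0 2),
.rs (.join 1 2 7 2 3 0 [(1, 1)]),
.rs (.le 2 66 2 1 3),
.rs (.join 1 4 3 2 0 2 [(2, 0)]),
.rs (.deg 2 [1, 1, 1]),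
.rs (.part [66, 52, 137] [0, 1, 0] [] []),
.rs (.join 2 2 6 4 3 4 [(1, 3)]),
.rs (.l2 2 5 9 0 1 1),
.rs (.part [79, 48, 128] [1, 0, 0] [] []),
.rs (.hall [1] [3, 4, 5, 6]),
.rs (.l2 0 10 66 1 1 1),
.rs (.le 1 160 128 7 1),
.rs (.lipl 2 145 179 2 34),
.rs (.deg 6 [0, 2, 2]),
.rs (.un 1 3),
.rs (.le 0 72 64 6 1),
.rs (.ab2 0 6),
.rs (.l2 1 10 34 1 1 1),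
.rs (.srt 0 5 0 4 2),
.rs (.deg 1 [1, 1, 1]),
.rs (.l2 2 3 18 1 2 2),
.rs (.part [75, 20, 160] [1, 0, 0] [] []),
.rs (.join 2 4 3 4 1 3 [(2, 0)]),
.rs (.part [10, 129, 52] [0, 0, 0] [64] []),
.rs (.ordE 0 32 1),
.rs (.l2 1 3 130 1 1 1),
.rs (.l2 0 6 130 1 1 1),
.rs (.part [10, 97, 148] [0, 1, 0] [] []),
.rs (.lip 0 64 104 56),
.rs (.part [132, 104, 19] [0, 1, 0] [] []),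
.rs (.l2 2 20 36 2 1 3),
.rs (.le 2 20 4 2 4),
.rs (.join 2 2 4 5 2 4 [(1, 1)]),
.rs (.part [67, 132, 56] [1, 0, 0] [] []),
.rs (.mono 1 32 36 1),
.rs (.join 1 4 3 2 2 0 [(2, 0)]),
.rs (.l2 2 9 33 0 1 1),
.rs (.join 0 1 1 2 1 1 [(0, 0)]),
.degU 1 [(0, 1), (1, 1), (2, 3)],
.degU 4 [(1, 1), (2, 4)],
.rs (.join 2 1 6 4 3 1 [(0, 0)]),
.rs (.mono 0 2 10 1),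
.rs (.part [65, 2, 188] [0, 0, 1] [] []),
.rs (.part [64, 136, 55] [0, 0, 1] [] []),
.rs (.ab 0 4),
.rs (.part [12, 81, 162] [0, 1, 0] [] []),
.rs (.part [77, 34, 144] [1, 0, 0] [] []),
.rs (.ab 1 3),
.rs (.deg 4 [2, 1, 0]),
.rs (.join 1 4 4 2 2 2 [(2, 2)]),
.rs (.l2 1 5 20 2 1 1),
.rs (.lip 2 134 190 56),
.rs (.mono 1 8 10 1),
.rs (.lipl 2 161 171 2 10),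
.rs (.l2 2 3 18 1 1 2),
.rs (.part [64, 132, 59] [0, 0, 1] [] []),
.rs (.mono 1 16 144 1),
.rs (.part [129, 2, 124] [0, 0, 1] [] []),
.rs (.deg 1 [3, 0, 0]),
.rs (.part [69, 34, 152] [1, 0, 0] [] []),
.rs (.lip 2 176 179 7),
.rs (.join 2 1 5 4 2 3 [(0, 1)]),
.rs (.le 2 65 1 0 1),
.rs (.lip 1 130 186 56),
.rs (.lip 1 160 164 4),
.rs (.lipl 1 36 54 1 18),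
.rs (.part [2, 65, 188] [0, 0, 1] [] []),
.rs (.part [64, 32, 152] [0, 0, 0] [7] []),
.rs (.l2 0 3 17 0 1 1),
.rs (.lip 0 128 192 64),
.rs (.lipl 2 160 170 2 10),
.rs (.part [121, 4, 130] [1, 0, 0] [] []),
.rs (.part [64, 167, 24] [0, 1, 0] [] []),
.rs (.part [64, 151, 40] [0, 1, 0] [] []),
.rs (.ab2 1 6),
.rs (.l2 2 12 20 2 2 2),
.rs (.join 0 4 6 2 0 2 [(2, 0)]),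
.rs (.join 0 8 5 2 1 1 [(3, 0)]),
.rs (.part [65, 8, 182] [0, 0, 1] [] []),
.rs (.mono 1 8 24 1),
.rs (.join 2 8 7 5 3 4 [(3, 2)]),
.rs (.lipl 2 176 185 0 9),
.rs (.lipl 0 64 193 1 129),
.rs (.lipl 0 128 193 1 65),
.rs (.part [64, 1, 134] [0, 0, 0] [56] []),
.rs (.part [68, 128, 3] [0, 0, 0] [56] []),
.rs (.lipl 0 9 27 2 18),
.rs (.ab 2 7),
.rs (.part [6, 104, 145] [0, 1, 0] [] []),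
.rs (.join 0 1 4 2 1 1 [(0, 0)]),
.rs (.join 2 1 6 2 1 2 [(0, 1)]),
.rs (.le 0 18 16 4 1),
.rs (.le 0 34 32 5 1),
.rs (.le 1 5 4 2 1),
.rs (.part [48, 8, 199] [0, 0, 1] [] []),
.rs (.part [144, 64, 40] [0, 0, 0] [7] []),
.rs (.join 1 16 5 2 2 0 [(4, 0)]),
.rs (.part [192, 16, 40] [0, 0, 0] [7] []),
.rs (.lipl 2 52 62 1 10),
.rs (.l2 1 20 36 2 1 1),
.rs (.mono 2 192 224 1),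
.rs (.part [10, 81, 164] [0, 1, 0] [] []),
.rs (.le 1 24 8 3 1),
.rs (.mono 2 132 148 1),
.rs (.join 0 32 7 2 1 1 [(5, 0)]),
.rs (.part [9, 116, 130] [0, 1, 0] [] []),
.rs (.le 0 9 8 3 2),
.rs (.part [1, 122, 132] [0, 1, 0] [] []),
.rs (.join 1 1 1 2 1 1 [(0, 0)]),
.rs (.part [87, 40, 128] [1, 0, 0] [] []),
.rs (.lip 2 152 159 7),
.rs (.join 2 2 2 5 3 3 [(1, 1)]),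
.rs (.part [64, 170, 21] [0, 1, 0] [] []),
.rs (.join 2 8 7 5 1 4 [(3, 0)]),
.rs (.le 0 12 4 2 1),
.rs (.part [128, 68, 59] [0, 0, 1] [] []),
.rs (.l2 1 68 80 6 1 1),
.rs (.lip 1 160 166 7),
.rs (.join 0 1 5 2 2 0 [(0, 0)]),
.rs (.le 1 9 1 0 1),
.rs (.part [64, 6, 185] [0, 0, 1] [] []),
.rs (.lipl 2 48 114 1 66),
.rs (.lipl 2 25 59 1 34),
.rs (.join 0 4 4 2 1 1 [(2, 0)]),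
.rs (.lip 2 24 31 7),
.rs (.srt 0 4 0 3 1),
.rs (.le 1 6 4 2 2),
.rs (.lipl 2 192 226 2 34),
.rs (.lipl 1 34 54 2 20),
.rs (.le 0 68 4 2 1),
.rs (.mono 0 16 80 1),
.rs (.part [18, 9, 228] [0, 0, 1] [] []),
.rs (.part [9, 160, 22] [0, 0, 0] [64] []),
.rs (.l2 2 5 68 2 2 2),
.rs (.part [3, 64, 132] [0, 0, 0] [56] []),
.rs (.join 0 2 2 2 1 1 [(1, 0)]),
.rs (.ordE 0 64 2),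
.rs (.l2 2 6 20 2 2 3),
.rs (.part [2, 64, 189] [0, 0, 1] [] []),
.rs (.l2 0 3 129 0 1 1),
.rs (.ab2 0 20),
.rs (.l2 0 6 66 1 1 1),
.rs (.join 2 2 5 4 4 4 [(1, 4)]),
.rs (.l2 1 65 96 6 1 1),
.rs (.le 1 36 32 5 4),
.rs (.un 0 7),
.rs (.lipl 1 20 86 2 66),
.rs (.lip 1 160 162 2),
.rs (.mono 0 64 192 1),
.rs (.l2 1 6 18 1 1 1),
.rs (.le 2 34 2 1 3),
.rs (.mono 2 64 65 1),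
.rs (.join 1 4 4 2 1 1 [(2, 0)]),
.rs (.join 2 4 5 4 4 4 [(2, 4)]),
.rs (.l2 2 20 36 2 2 2),
.rs (.join 2 1 4 4 3 3 [(0, 2)]),
.rs (.part [9, 100, 146] [0, 1, 0] [] []),
.rs (.ordE 1 4 1),
.rs (.deg 4 [1, 1, 1]),
.rs (.mono 0 2 130 1),
.rs (.hall [0] [4, 5, 6, 7]),
.rs (.l2 2 3 34 1 2 2),
.rs (.join 2 4 5 4 1 3 [(2, 0)]),
.rs (.lipl 2 194 214 2 20),
.rs (.join 2 8 5 5 3 2 [(3, 0)]),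
.rs (.lip 2 136 143 7),
.rs (.lipl 2 164 181 2 17),
.rs (.part [2, 68, 185] [0, 0, 1] [] []),
.rs (.lip 1 64 88 56),
.rs (.lipl 2 52 62 0 10),
.rs (.part [193, 36, 26] [1, 0, 0] [] []),
.rs (.mono 1 8 136 1),
.rs (.lipl 1 36 102 1 66),
.rs (.mono 1 64 192 1),
.rs (.join 1 2 4 2 1 1 [(1, 0)]),
.rs (.part [8, 65, 182] [0, 0, 1] [] []),
.rs (.join 2 8 5 5 3 3 [(3, 1)]),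
.rs (.part [136, 98, 21] [0, 1, 0] [] []),
.rs (.part [33, 82, 140] [0, 1, 0] [] []),
.rs (.le 2 20 16 4 3),
.rs (.lipl 2 192 225 2 33),
.rs (.join 2 1 6 4 3 3 [(0, 2)]),
.rs (.lipl 2 161 181 2 20),
.rs (.join 2 1 6 4 2 3 [(0, 1)]),
.rs (.l2 2 5 36 2 1 3),
.rs (.l2 0 129 136 7 1 1),
.rs (.part [5, 122, 128] [0, 1, 0] [] []),
.rs (.lip 2 45 173 128),
.rs (.ab 0 6),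
.rs (.lipl 1 64 74 1 10),
.rs (.lipl 1 2 74 0 72),
.rs (.le 0 9 8 3 1),
.rs (.part [18, 73, 164] [0, 1, 0] [] []),
.rs (.part [6, 57, 192] [0, 1, 0] [] []),
.rs (.l2 2 6 18 1 2 2),
.rs (.ab 0 1),
.rs (.lipl 1 48 114 2 66),
.rs (.l2 0 9 129 0 1 1),
.rs (.join 1 4 5 2 2 2 [(2, 2)]),
.rs (.part [16, 8, 231] [0, 0, 1] [] []),
.rs (.join 1 4 4 2 2 0 [(2, 0)]),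
.rs (.part [1, 20, 234] [0, 0, 1] [] []),
.rs (.mono 1 16 48 1),
.rs (.lipl 2 22 55 0 33),
.rs (.part [24, 39, 192] [0, 1, 0] [] []),
.rs (.lipl 1 64 100 1 36),
.rs (.l2 2 36 40 5 3 2),
.rs (.l2 2 12 36 2 2 2),
.rs (.part [65, 12, 178] [0, 0, 1] [] []),
.rs (.mono 0 128 130 1),
.rs (.part [129, 64, 6] [0, 0, 0] [56] []),
.rs (.join 1 16 7 2 2 0 [(4, 0)]),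
.rs (.part [8, 144, 96] [0, 0, 0] [7] []),
.rs (.deg 6 [3, 0, 1]),
.rs (.l2 2 5 12 2 2 2),
.rs (.part [72, 16, 167] [0, 0, 1] [] []),
.rs (.srt 0 2 0 1 1),
.rs (.mono 0 32 33 1),
.rs (.ab2 1 17),
.rs (.join 2 4 6 4 3 1 [(2, 0)]),
.rs (.l2 0 6 36 2 1 1),
.rs (.part [27, 96, 132] [1, 0, 0] [] []),
.rs (.le 1 96 32 5 1),
.rs (.part [65, 16, 174] [0, 0, 1] [] []),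
.rs (.part [136, 84, 35] [0, 1, 0] [] []),
.rs (.l2 2 10 18 1 2 1),
.rs (.join 0 1 3 2 2 0 [(0, 0)]),
.rs (.mono 1 4 20 1),
.rs (.join 2 4 6 2 1 1 [(2, 0)]),
.rs (.part [36, 64, 155] [0, 0, 1] [] []),
.rs (.lip 2 224 230 7),
.rs (.ab2 2 130),
.rs (.lipl 2 160 178 1 18),
.rs (.mono 1 2 130 1),
.rs (.lipl 1 64 98 1 34),
.rs (.mono 1 2 34 1),
.degU 0 [(0, 4), (1, 1)],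
.rs (.part [1, 6, 192] [0, 0, 0] [56] []),
.rs (.part [76, 17, 162] [1, 0, 0] [] []),
.rs (.part [80, 8, 167] [0, 0, 1] [] []),
.rs (.l2 1 40 160 5 1 1),
.rs (.part [128, 120, 7] [0, 1, 0] [] []),
.rs (.l2 2 66 68 6 1 1),
.rs (.part [192, 18, 45] [1, 0, 0] [] []),
.rs (.join 2 2 3 4 3 3 [(1, 2)]),
.rs (.mono 1 128 129 1),
.rs (.part [129, 64, 62] [0, 0, 1] [] []),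
.rs (.join 2 16 5 4 3 2 [(4, 1)]),
.rs (.join 0 32 6 2 0 2 [(5, 0)]),
.rs (.part [71, 40, 144] [1, 0, 0] [] []),
.rs (.un 0 0),
.rs (.join 2 8 4 4 3 3 [(3, 2)]),
.rs (.ab2 0 5),
.rs (.ab2 0 24),
.rs (.le 0 33 32 5 2),
.rs (.join 2 32 6 2 0 2 [(5, 0)]),
.rs (.lip 1 144 146 2),
.rs (.join 2 32 6 2 1 1 [(5, 0)]),
.rs (.part [64, 150, 41] [0, 1, 0] [] []),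
.rs (.l2 2 10 34 1 2 1),
.rs (.lipl 0 10 27 2 17),
.rs (.part [129, 82, 44] [0, 1, 0] [] []),
.rs (.part [129, 84, 42] [0, 1, 0] [] []),
.rs (.deg 5 [1, 0, 2]),
.rs (.ab 0 7),
.rs (.part [9, 102, 144] [0, 1, 0] [] []),
.rs (.ab2 1 136),
.rs (.join 2 1 2 4 3 3 [(0, 2)]),
.rs (.lipl 1 192 226 1 34),
.rs (.l2 1 3 65 0 1 1),
.rs (.part [17, 64, 174] [0, 0, 1] [] []),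
.rs (.join 1 16 6 2 2 0 [(4, 0)]),
.rs (.join 2 2 6 4 2 3 [(1, 1)]),
.rs (.ab2 0 144),
.rs (.lip 0 3 43 56),
.rs (.part [66, 8, 181] [0, 0, 1] [] []),
.rs (.lipl 1 64 97 1 33),
.rs (.part [40, 64, 144] [0, 0, 0] [7] []),
.rs (.part [20, 64, 171] [0, 0, 1] [] []),
.rs (.join 1 2 6 2 2 0 [(1, 0)]),
.rs (.l2 2 6 20 2 2 2),
.rs (.lip 2 3 59 56),
.rs (.part [8, 34, 213] [0, 0, 1] [] []),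
.rs (.join 1 1 7 2 1 1 [(0, 0)]),
.rs (.lipl 2 22 182 0 160),
.rs (.mono 1 128 160 1),
.rs (.part [129, 4, 122] [0, 0, 1] [] []),
.rs (.l2 1 3 34 1 1 1),
.rs (.mono 0 4 68 1),
.rs (.deg 6 [4, 0, 0]),
.rs (.join 2 4 5 4 2 2 [(2, 0)]),
.rs (.mono 0 2 66 1),
.rs (.l2 2 17 65 0 2 2),
.rs (.le 1 20 4 2 1),
.rs (.lip 2 112 118 7),
.rs (.mono 0 16 144 1),
.rs (.part [4, 192, 3] [0, 0, 0] [56] []),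
.rs (.lipl 2 224 244 2 20),
.rs (.join 0 4 3 2 0 2 [(2, 0)]),
.rs (.lipl 2 145 157 2 12),
.rs (.le 2 96 32 5 2),
.rs (.lipl 2 138 171 2 33),
.rs (.join 1 4 4 2 2 1 [(2, 1)]),
.rs (.part [29, 96, 130] [1, 0, 0] [] []),
.rs (.lipl 1 34 54 1 20),
.rs (.ab2 1 24),
.rs (.part [3, 32, 220] [0, 0, 1] [] []),
.rs (.part [8, 48, 192] [0, 0, 0] [7] []),
.rs (.lip 2 133 189 56),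
.rs (.join 2 16 5 5 3 2 [(4, 0)]),
.rs (.deg 6 [0, 3, 1]),
.rs (.deg 5 [0, 3, 0]),
.rs (.join 1 8 6 2 2 0 [(3, 0)]),
.rs (.ordE 0 2 1),
.rs (.part [64, 16, 168] [0, 0, 0] [7] []),
.rs (.part [17, 12, 226] [0, 0, 1] [] []),
.rs (.l2 0 130 144 7 1 1),
.rs (.lip 2 196 252 56),
.rs (.join 2 2 4 4 2 2 [(1, 0)]),
.rs (.lipl 1 12 45 1 33),
.rs (.lipl 1 20 86 1 66),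
.rs (.part [5, 2, 248] [0, 0, 1] [] []),
.rs (.ab 2 6),
.rs (.deg 0 [3, 0, 0]),
.rs (.le 1 5 1 0 1),
.rs (.lipl 0 130 139 1 9),
.rs (.part [128, 16, 104] [0, 0, 0] [7] []),
.rs (.join 2 4 4 4 3 2 [(2, 1)]),
.rs (.lipl 0 8 74 2 66),
.rs (.part [4, 3, 192] [0, 0, 0] [56] []),
.rs (.join 2 1 2 4 2 3 [(0, 1)]),
.rs (.ordE 0 16 3),
.rs (.mono 0 64 80 1),
.rs (.deg 0 [1, 0, 2]),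
.rs (.ab2 2 5),
.rs (.part [9, 130, 52] [0, 0, 0] [64] []),
.rs (.ab2 0 72),
.rs (.lipl 2 138 155 2 17),
.rs (.lipl 1 10 27 1 17),
.rs (.join 0 1 6 2 2 0 [(0, 0)]),
.rs (.mono 1 32 96 1),
.rs (.join 2 4 6 4 2 3 [(2, 1)]),
.rs (.join 2 1 2 5 3 3 [(0, 1)]),
.rs (.part [64, 160, 31] [0, 0, 1] [] []),
.rs (.le 1 20 16 4 1),
.rs (.l2 0 66 130 1 1 1),
.rs (.l2 2 65 66 6 2 2),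
.rs (.join 0 16 6 2 1 1 [(4, 0)]),
.rs (.un 2 6),
.rs (.mono 0 8 136 1),
.rs (.join 1 64 7 2 2 0 [(6, 0)]),
.rs (.l2 1 130 160 7 1 1),
.rs (.join 1 4 7 2 1 1 [(2, 0)]),
.rs (.lip 2 144 151 7),
.rs (.deg 3 [0, 2, 1]),
.rs (.srt 0 1 0 0 1),
.rs (.part [2, 5, 192] [0, 0, 0] [56] []),
.rs (.lipl 1 64 84 1 20),
.rs (.le 0 65 64 6 2),
.rs (.le 0 33 32 5 1),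
.rs (.lip 1 160 167 7),
.rs (.l2 2 6 66 1 1 1),
.rs (.l2 0 5 9 0 1 1),
.rs (.le 1 80 64 6 1),
.rs (.l2 1 10 18 1 1 1),
.rs (.mono 0 128 132 1),
.rs (.ab2 0 132),
.rs (.lip 2 176 183 7),
.rs (.le 2 36 32 5 4),
.rs (.part [129, 112, 14] [0, 1, 0] [] []),
.rs (.part [9, 132, 50] [0, 0, 0] [64] []),
.rs (.join 1 2 5 2 2 0 [(1, 0)]),
.rs (.un 1 2),
.rs (.lip 1 130 146 16),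
.degU 4 [(0, 1), (1, 1), (2, 3)],
.rs (.join 2 16 5 2 1 1 [(4, 0)]),
.rs (.lipl 2 208 242 2 34),
.rs (.part [68, 1, 186] [0, 0, 1] [] []),
.rs (.part [4, 64, 187] [0, 0, 1] [] []),
.rs (.join 1 4 4 2 1 2 [(2, 1)]),
.rs (.srt 0 4 0 3 3),
.rs (.l2 1 66 80 6 1 1),
.rs (.lip 1 132 188 56),
.rs (.lip 1 132 148 16),
.rs (.l2 2 3 34 1 3 2),
.rs (.lipl 0 64 76 1 12),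
.rs (.mono 1 64 72 1),
.degU 4 [(1, 3), (2, 2)],
.rs (.un 1 0),
.rs (.lipl 1 64 81 1 17),
.rs (.join 1 1 4 2 0 2 [(0, 0)]),
.rs (.hall [1] [0, 1, 2, 7]),
.rs (.l2 1 5 132 2 1 1),
.rs (.l2 2 3 10 1 1 3),
.rs (.lip 2 43 171 128),
.rs (.part [16, 103, 136] [0, 1, 0] [] []),
.rs (.join 2 1 4 4 2 2 [(0, 0)]),
.rs (.join 1 16 6 2 1 1 [(4, 0)]),
.rs (.lipl 1 132 212 2 80),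
.rs (.lip 2 193 249 56),
.rs (.part [53, 72, 130] [1, 0, 0] [] []),
.rs (.part [129, 12, 114] [0, 0, 1] [] []),
.rs (.lip 1 65 121 56),
.rs (.part [10, 20, 225] [0, 0, 1] [] []),
.rs (.lipl 2 162 179 2 17),
.rs (.ab2 0 48),
.rs (.join 2 2 3 5 2 3 [(1, 0)]),
.rs (.lipl 2 196 230 2 34),
.rs (.deg 6 [2, 2, 0]),
.rs (.join 1 1 5 2 2 0 [(0, 0)]),
.rs (.le 1 65 1 0 2),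
.rs (.lipl 2 140 157 2 17),
.rs (.part [73, 18, 164] [1, 0, 0] [] []),
.rs (.join 2 16 6 4 1 3 [(4, 0)]),
.rs (.lip 0 72 79 7),
.rs (.lip 1 130 154 56),
.rs (.join 1 1 6 2 1 1 [(0, 0)]),
.rs (.srt 0 3 0 0 3),
.rs (.join 0 4 3 2 1 1 [(2, 0)]),
.rs (.join 1 4 5 2 1 1 [(2, 0)]),
.rs (.join 2 2 5 4 4 1 [(1, 1)]),
.rs (.lip 2 130 186 56),
.rs (.lip 1 6 62 56),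
.rs (.lipl 2 192 212 2 20),
.rs (.join 2 2 4 5 2 3 [(1, 0)]),
.rs (.deg 4 [0, 2, 1]),
.rs (.l2 2 3 18 1 3 2),
.rs (.l2 0 132 160 7 1 1),
.rs (.join 0 1 5 2 3 0 [(0, 1)]),
.rs (.join 2 2 4 4 2 3 [(1, 1)]),
.rs (.part [8, 80, 167] [0, 0, 1] [] []),
.rs (.join 2 2 4 4 4 3 [(1, 3)]),
.rs (.lip 0 128 135 7),
.rs (.lipl 1 20 86 0 66),
.rs (.lipl 1 16 84 2 68),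
.rs (.deg 3 [0, 1, 2]),
.rs (.part [185, 6, 64] [1, 0, 0] [] []),
.rs (.le 1 6 2 1 1),
.rs (.part [65, 28, 162] [0, 1, 0] [] []),
.rs (.lipl 2 161 173 2 12),
.rs (.join 2 1 6 4 2 4 [(0, 2)]),
.rs (.part [192, 2, 5] [0, 0, 0] [56] []),
.rs (.lipl 2 19 211 1 192),
.rs (.mono 0 4 5 1),
.rs (.lip 1 4 44 56),
.rs (.join 2 8 4 2 1 1 [(3, 0)]),
.rs (.join 0 4 5 2 1 1 [(2, 0)]),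
.rs (.part [64, 45, 146] [0, 1, 0] [] []),
.rs (.mono 1 8 12 1),
.rs (.ab2 0 96),
.rs (.join 2 1 1 2 1 1 [(0, 0)]),
.rs (.deg 7 [1, 0, 3]),
.rs (.mono 1 4 68 1),
.rs (.deg 6 [1, 2, 1]),
.rs (.deg 4 [1, 2, 0]),
.rs (.part [43, 4, 208] [1, 0, 0] [] []),
.rs (.deg 6 [1, 1, 2]),
.rs (.part [64, 9, 182] [0, 0, 1] [] []),
.rs (.lip 2 131 187 56),
.rs (.part [122, 4, 129] [1, 0, 0] [] []),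
.rs (.lipl 2 41 59 1 18),
.rs (.srt 0 4 0 3 2),
.rs (.part [6, 64, 129] [0, 0, 0] [56] []),
.rs (.deg 2 [0, 3, 0]),
.rs (.join 1 4 3 2 1 1 [(2, 0)]),
.rs (.join 1 1 6 2 2 0 [(0, 0)]),
.rs (.ordE 1 1 1),
.rs (.join 2 2 6 4 4 0 [(1, 0)]),
.rs (.ab2 0 65),
.rs (.le 1 24 16 4 1),
.rs (.deg 6 [2, 0, 2]),
.rs (.part [135, 24, 96] [1, 0, 0] [] []),
.rs (.l2 0 3 9 0 1 1),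
.rs (.part [74, 33, 148] [1, 0, 0] [] []),
.rs (.deg 5 [0, 1, 2]),
.rs (.part [16, 72, 167] [0, 0, 1] [] []),
.rs (.lip 1 130 170 56),
.rs (.le 0 66 2 1 1),
.rs (.part [64, 17, 174] [0, 0, 1] [] []),
.rs (.deg 1 [0, 0, 3]),
.rs (.join 2 2 5 5 3 2 [(1, 0)]),
.rs (.ordE 0 128 3),
.rs (.l2 1 18 130 1 1 1),
.rs (.join 1 1 5 2 0 2 [(0, 0)]),
.rs (.part [128, 65, 62] [0, 0, 1] [] []),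
.rs (.mono 0 128 144 1),
.rs (.le 0 9 8 3 4),
.rs (.part [9, 18, 228] [0, 0, 1] [] []),
.rs (.l2 2 68 80 6 1 1),
.rs (.join 2 1 5 4 3 3 [(0, 2)]),
.rs (.le 2 18 2 1 3),
.rs (.part [43, 20, 192] [1, 0, 0] [] []),
.rs (.join 2 2 3 4 3 1 [(1, 0)]),
.rs (.mono 1 4 5 1),
.rs (.part [32, 16, 207] [0, 0, 1] [] []),
.rs (.join 2 8 4 5 2 3 [(3, 0)]),
.rs (.part [129, 98, 28] [0, 1, 0] [] []),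
.rs (.mono 0 128 136 1),
.rs (.lipl 2 22 214 0 192),
.rs (.lip 0 3 27 56),
.rs (.part [64, 186, 5] [0, 1, 0] [] []),
.rs (.join 2 1 6 4 1 3 [(0, 0)]),
.rs (.part [1, 34, 220] [0, 0, 1] [] []),
.rs (.part [32, 8, 215] [0, 0, 1] [] []),
.rs (.lip 1 64 70 7),
.rs (.ab2 1 34),
.rs (.join 1 4 6 2 0 2 [(2, 0)]),
.rs (.part [69, 10, 176] [1, 0, 0] [] []),
.rs (.join 2 4 4 4 4 0 [(2, 0)]),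
.rs (.lipl 1 64 98 2 34),
.rs (.ab2 0 9),
.rs (.join 2 16 6 4 2 4 [(4, 2)]),
.rs (.lip 2 160 167 7),
.rs (.part [66, 32, 157] [0, 0, 1] [] []),
.rs (.lipl 0 64 73 0 9),
.rs (.join 1 2 5 2 0 2 [(1, 0)]),
.rs (.l2 2 5 36 2 1 2),
.rs (.l2 1 20 132 2 1 1),
.rs (.part [16, 96, 143] [0, 0, 1] [] []),
.rs (.part [16, 160, 72] [0, 0, 0] [7] []),
.rs (.part [132, 1, 122] [0, 0, 1] [] []),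
.rs (.ab2 2 40),
.rs (.lip 0 64 120 56),
.rs (.part [65, 32, 158] [0, 0, 1] [] []),
.rs (.ordE 0 16 2),
.rs (.ab2 1 33),
.rs (.lipl 2 20 212 1 192),
.rs (.lipl 2 193 229 2 36),
.rs (.le 2 34 32 5 1),
.rs (.part [71, 24, 160] [1, 0, 0] [] []),
.rs (.part [4, 65, 186] [0, 0, 1] [] []),
.rs (.part [64, 10, 181] [0, 0, 1] [] []),
.rs (.join 1 4 4 2 0 2 [(2, 0)]),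
.rs (.le 1 132 128 7 1),
.rs (.hall [1] [3, 5, 6, 7]),
.rs (.hall [1] [3, 4, 6, 7]),
.rs (.part [129, 6, 120] [0, 0, 1] [] []),
.rs (.part [12, 82, 161] [0, 1, 0] [] []),
.rs (.ab2 1 3),
.rs (.ab 1 1),
.rs (.part [144, 76, 35] [0, 1, 0] [] []),
.rs (.join 2 2 3 4 2 2 [(1, 0)]),
.rs (.join 1 8 4 2 2 1 [(3, 1)]),
.rs (.l2 0 144 160 7 1 1),
.rs (.mono 2 192 194 1),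
.rs (.join 1 4 7 2 2 0 [(2, 0)]),
.rs (.lip 0 64 67 7),
.rs (.join 1 2 2 2 2 2 [(1, 2)]),
.rs (.part [65, 128, 6] [0, 0, 0] [56] []),
.rs (.join 2 2 4 4 1 3 [(1, 0)]),
.rs (.deg 5 [2, 1, 0]),
.rs (.mono 0 64 96 1),
.rs (.part [130, 4, 121] [0, 0, 1] [] []),
.rs (.join 1 8 7 2 1 1 [(3, 0)]),
.rs (.lipl 0 64 193 0 129),
.rs (.ordE 1 32 1),
.rs (.part [104, 144, 7] [1, 0, 0] [] []),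
.rs (.part [1, 18, 236] [0, 0, 1] [] []),
.rs (.join 2 1 6 4 0 4 [(0, 0)]),
.rs (.le 1 3 1 0 2),
.rs (.l2 2 20 48 4 3 1),
.rs (.lip 1 48 55 7),
.rs (.part [8, 160, 80] [0, 0, 0] [7] []),
.rs (.mono 0 32 40 1),
.rs (.part [66, 44, 145] [0, 1, 0] [] []),
.rs (.join 1 1 1 2 0 2 [(0, 0)]),
.rs (.part [9, 148, 98] [0, 1, 0] [] []),
.rs (.mono 1 2 18 1),
.rs (.deg 7 [1, 1, 2]),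
.rs (.part [192, 36, 27] [1, 0, 0] [] []),
.rs (.le 1 12 8 3 1),
.rs (.lip 1 1 57 56),
.rs (.join 1 32 6 2 0 2 [(5, 0)]),
.rs (.lip 0 129 185 56),
.rs (.join 2 1 6 4 3 4 [(0, 3)]),
.rs (.deg 1 [0, 2, 1]),
.rs (.join 0 1 3 2 1 1 [(0, 0)]),
.rs (.part [128, 32, 88] [0, 0, 0] [7] []),
.rs (.lip 2 65 121 56),
.rs (.join 2 2 6 4 2 4 [(1, 2)]),
.rs (.lipl 2 164 230 0 66),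
.rs (.part [79, 32, 144] [1, 0, 0] [] []),
.rs (.join 1 2 2 2 1 2 [(1, 1)]),
.rs (.deg 0 [1, 2, 0]),
.rs (.mono 1 1 5 1),
.rs (.lip 2 164 228 64),
.rs (.join 2 4 3 4 3 1 [(2, 0)]),
.rs (.part [9, 146, 100] [0, 1, 0] [] []),
.rs (.lipl 2 164 230 2 66),
.rs (.l2 2 3 5 0 1 1),
.degU 5 [(0, 1), (1, 1), (2, 3)],
.rs (.ab2 0 129),
.rs (.mono 1 1 3 1),
.rs (.lip 1 68 124 56),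
.rs (.part [73, 20, 162] [1, 0, 0] [] []),
.rs (.deg 3 [2, 1, 0]),
.rs (.l2 0 129 130 7 1 1),
.rs (.join 2 2 5 4 3 1 [(1, 0)]),
.rs (.lip 1 96 102 7),
.rs (.part [64, 180, 11] [0, 1, 0] [] []),
.rs (.part [24, 64, 160] [0, 0, 0] [7] []),
.rs (.join 2 4 5 4 3 2 [(2, 1)]),
.rs (.lip 0 64 88 56),
.rs (.join 2 1 1 5 3 2 [(0, 0)]),
.rs (.ab2 1 96),
.rs (.join 1 2 4 2 0 2 [(1, 0)]),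
.rs (.join 1 32 6 2 2 0 [(5, 0)]),
.rs (.l2 1 129 144 7 1 1),
.rs (.join 2 4 4 5 3 2 [(2, 0)]),
.rs (.part [0, 96, 159] [0, 0, 1] [] []),
.rs (.join 2 4 4 4 2 2 [(2, 0)]),
.rs (.l2 0 130 132 7 1 1),
.rs (.join 2 2 3 4 1 3 [(1, 0)]),
.rs (.join 1 4 5 2 2 1 [(2, 1)]),
.rs (.ordE 1 8 1),
.rs (.lip 1 66 122 56),
.rs (.part [64, 129, 62] [0, 0, 1] [] []),
.rs (.le 0 129 128 7 2),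
.rs (.join 2 4 7 5 1 4 [(2, 0)]),
.rs (.l2 2 3 6 1 1 1),
.rs (.lipl 2 162 182 2 20),
.rs (.ab2 1 160),
.rs (.join 2 2 4 4 3 2 [(1, 1)]),
.degU 0 [(0, 3), (2, 2)],
.rs (.mono 1 16 80 1),
.rs (.ab2 1 20),
.rs (.lipl 1 18 150 1 132),
.rs (.mono 1 32 33 1),
.rs (.part [193, 10, 52] [1, 0, 0] [] []),
.rs (.part [192, 8, 48] [0, 0, 0] [7] []),
.rs (.lipl 1 160 240 2 80),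
.rs (.join 2 8 5 4 2 3 [(3, 1)]),
.rs (.part [144, 8, 103] [0, 0, 1] [] []),
.rs (.le 2 68 4 2 1),
.rs (.deg 5 [0, 0, 3]),
.rs (.join 0 1 3 2 2 3 [(0, 3)]),
.rs (.l2 2 12 20 2 2 1),
.rs (.lipl 2 138 174 2 36),
.rs (.le 1 130 128 7 2),
.rs (.part [73, 34, 148] [1, 0, 0] [] []),
.rs (.join 1 32 7 2 1 1 [(5, 0)]),
.rs (.ab 1 0),
.rs (.deg 7 [0, 0, 4]),
.rs (.ab 1 6),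
.rs (.mono 0 4 6 1),
.rs (.join 1 2 4 2 1 2 [(1, 1)]),
.rs (.part [75, 48, 132] [1, 0, 0] [] []),
.rs (.part [128, 8, 112] [0, 0, 0] [7] []),
.rs (.part [8, 17, 230] [0, 0, 1] [] []),
.rs (.part [192, 1, 6] [0, 0, 0] [56] []),
.rs (.join 2 1 6 4 1 4 [(0, 1)]),
.rs (.join 0 1 2 2 2 0 [(0, 0)]),
.rs (.le 1 72 64 6 1),
.rs (.part [9, 240, 6] [0, 1, 0] [] []),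
.rs (.lipl 1 64 73 1 9),
.rs (.part [66, 1, 188] [0, 0, 1] [] []),
.rs (.part [40, 16, 199] [0, 0, 1] [] []),
.rs (.join 2 1 4 4 3 2 [(0, 1)]),
.rs (.part [9, 84, 162] [0, 1, 0] [] []),
.rs (.ab2 1 18),
.rs (.deg 6 [1, 3, 0]),
.rs (.l2 1 6 10 1 1 1),
.rs (.deg 1 [2, 0, 1]),
.rs (.hall [1] [1, 2, 6, 7]),
.rs (.part [32, 24, 192] [0, 0, 0] [7] []),
.rs (.ab2 1 132),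
.rs (.un 0 5),
.degU 6 [(0, 1), (1, 1), (2, 4)],
.rs (.mono 0 2 3 1),
.rs (.join 1 1 7 2 2 0 [(0, 0)]),
.rs (.part [72, 4, 179] [0, 0, 1] [] []),
.rs (.join 0 1 1 2 2 0 [(0, 0)]),
.rs (.part [184, 64, 7] [1, 0, 0] [] []),
.rs (.mono 0 4 132 1),
.rs (.ab 1 5),
.rs (.part [192, 4, 3] [0, 0, 0] [56] []),
.rs (.part [27, 36, 192] [1, 0, 0] [] []),
.rs (.join 2 4 5 4 3 3 [(2, 2)]),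
.rs (.join 2 4 3 4 2 3 [(2, 1)]),
.rs (.ab 0 3),
.rs (.join 1 1 6 2 1 2 [(0, 1)]),
.rs (.lipl 0 17 27 0 10),
.rs (.lipl 2 192 201 2 9),
.rs (.lipl 2 164 174 0 10),
.rs (.le 2 34 32 5 4),
.degU 1 [(1, 2), (2, 3)],
.rs (.ab2 0 136),
.rs (.lipl 2 160 228 1 68),
.rs (.part [9, 82, 164] [0, 1, 0] [] []),
.rs (.part [64, 188, 3] [0, 1, 0] [] []),
.rs (.lipl 1 80 114 1 34),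
.rs (.part [65, 52, 138] [0, 1, 0] [] []),
.rs (.join 2 1 1 4 3 2 [(0, 1)]),
.rs (.part [193, 12, 50] [1, 0, 0] [] []),
.rs (.l2 1 130 132 7 1 1),
.rs (.join 1 4 6 2 2 0 [(2, 0)]),
.rs (.l2 1 144 160 7 1 1),
.rs (.srt 0 3 0 0 4),
.rs (.join 2 2 5 4 4 2 [(1, 2)]),
.rs (.join 2 2 3 4 3 2 [(1, 1)]),
.rs (.le 1 3 2 1 3),
.rs (.join 1 1 1 2 1 2 [(0, 1)]),
.degU 1 [(1, 1), (2, 4)],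
.rs (.le 2 20 16 4 2),
.rs (.mono 0 64 66 1),
.rs (.part [9, 114, 132] [0, 1, 0] [] []),
.rs (.join 0 64 7 2 1 1 [(6, 0)]),
.rs (.part [29, 2, 224] [1, 0, 0] [] []),
.rs (.deg 6 [0, 1, 3]),
.rs (.lipl 2 148 158 2 10),
.rs (.part [1, 132, 66] [0, 0, 0] [56] []),
.rs (.part [160, 74, 21] [0, 1, 0] [] []),
.rs (.l2 0 136 144 7 1 1),
.rs (.part [128, 80, 47] [0, 0, 1] [] []),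
.rs (.part [1, 72, 182] [0, 0, 1] [] []),
.rs (.lipl 1 96 116 1 20),
.rs (.l2 1 68 96 6 1 1),
.rs (.ab2 0 10),
.rs (.l2 1 10 66 1 1 1),
.rs (.join 2 4 3 5 2 3 [(2, 0)]),
.rs (.join 0 1 3 2 2 4 [(0, 4)]),
.rs (.join 2 2 5 4 2 4 [(1, 2)]),
.rs (.l2 0 9 17 0 1 1),
.rs (.part [64, 2, 133] [0, 0, 0] [56] []),
.rs (.join 0 1 6 2 1 1 [(0, 0)]),
.rs (.join 1 1 3 2 1 1 [(0, 0)]),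
.rs (.l2 1 66 72 6 1 1),
.rs (.mono 1 16 17 1),
.rs (.join 2 4 5 5 3 2 [(2, 0)]),
.rs (.join 0 1 5 2 1 1 [(0, 0)]),
.rs (.l2 2 12 24 3 2 1),
.rs (.l2 2 3 10 1 1 2),
.rs (.part [8, 33, 214] [0, 0, 1] [] []),
.rs (.join 1 4 5 2 2 0 [(2, 0)]),
.rs (.deg 5 [1, 1, 1]),
.rs (.le 1 10 2 1 1),
.rs (.join 0 1 6 2 1 2 [(0, 1)]),
.rs (.l2 1 132 160 7 1 1),
.rs (.part [64, 12, 179] [0, 0, 1] [] []),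
.rs (.part [136, 100, 19] [0, 1, 0] [] []),
.rs (.part [12, 97, 146] [0, 1, 0] [] []),
.rs (.join 2 2 6 4 1 3 [(1, 0)]),
.rs (.part [64, 36, 155] [0, 0, 1] [] []),
.rs (.join 1 2 6 2 0 2 [(1, 0)]),
.rs (.lipl 1 36 45 0 9),
.rs (.part [17, 76, 162] [0, 1, 0] [] []),
.rs (.join 1 8 5 2 1 1 [(3, 0)]),
.rs (.join 0 8 4 2 1 1 [(3, 0)]),
.degU 5 [(1, 2), (2, 3)],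
.rs (.ab2 1 66),
.rs (.mono 1 4 6 1),
.rs (.l2 0 6 18 1 1 1),
.degU 3 [(0, 1), (2, 4)],
.rs (.join 2 8 4 5 3 3 [(3, 1)]),
.rs (.part [136, 97, 22] [0, 1, 0] [] []),
.rs (.part [192, 45, 18] [0, 1, 0] [] []),
.rs (.part [32, 64, 159] [0, 0, 1] [] []),
.rs (.ab2 2 66),
.rs (.un 0 4),
.rs (.ab 0 2),
.rs (.part [87, 32, 136] [1, 0, 0] [] []),
.rs (.part [132, 88, 35] [0, 1, 0] [] []),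
.rs (.lipl 0 9 77 0 68),
.rs (.join 0 8 7 2 1 1 [(3, 0)]),
.rs (.le 1 17 1 0 1),
.rs (.ordE 0 1 3),
.rs (.part [4, 2, 249] [0, 0, 1] [] []),
.rs (.part [136, 70, 49] [0, 1, 0] [] []),
.rs (.part [68, 2, 185] [0, 0, 1] [] []),
.rs (.le 0 72 8 3 1),
.rs (.ab2 0 3),
.rs (.ab2 2 96),
.rs (.join 0 2 7 2 2 0 [(1, 0)]),
.rs (.part [40, 23, 192] [0, 1, 0] [] []),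
.rs (.lip 0 65 121 56),
.rs (.le 0 3 2 1 1),
.rs (.le 1 33 32 5 1),
.rs (.join 2 2 7 5 1 4 [(1, 0)]),
.rs (.l2 1 5 9 0 1 1),
.rs (.part [18, 97, 140] [0, 1, 0] [] []),
.rs (.lipl 1 20 116 2 96),
.rs (.deg 3 [0, 3, 0]),
.rs (.l2 0 66 192 6 1 1),
.rs (.part [27, 68, 160] [1, 0, 0] [] []),
.rs (.join 0 8 6 2 0 2 [(3, 0)]),
.rs (.ab2 2 48),
.rs (.lipl 2 160 178 2 18),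
.rs (.part [17, 132, 42] [0, 0, 0] [64] []),
.rs (.part [1, 4, 250] [0, 0, 1] [] []),
.rs (.lip 0 48 53 7),
.rs (.l2 0 66 80 6 1 1),
.rs (.mono 1 4 12 1),
.rs (.join 1 1 6 2 2 1 [(0, 1)]),
.rs (.l2 2 66 80 6 1 1),
.rs (.join 1 2 5 2 2 1 [(1, 1)]),
.rs (.l2 2 3 33 0 1 3),
.rs (.lip 1 64 120 56),
.rs (.lipl 1 48 114 0 66),
.rs (.join 1 2 2 2 0 2 [(1, 0)]),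
.rs (.lipl 2 148 181 2 33),
.rs (.part [192, 20, 43] [1, 0, 0] [] []),
.rs (.hall [1] [0, 1, 2, 6]),
.rs (.lipl 1 18 86 1 68),
.rs (.part [9, 54, 192] [0, 1, 0] [] []),
.rs (.lipl 2 224 242 2 18),
.rs (.lip 1 96 101 7),
.rs (.part [1, 36, 218] [0, 0, 1] [] []),
.rs (.part [64, 27, 164] [0, 1, 0] [] []),
.rs (.part [65, 36, 154] [0, 0, 1] [] []),
.rs (.join 1 16 7 2 1 1 [(4, 0)]),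
.rs (.mono 1 1 65 1),
.rs (.part [3, 124, 128] [0, 1, 0] [] []),
.rs (.lipl 2 164 174 1 10),
.rs (.ordE 1 64 1),
.rs (.l2 1 34 48 5 1 1),
.rs (.part [1, 12, 242] [0, 0, 1] [] []),
.rs (.l2 2 3 65 0 3 1),
.rs (.part [128, 3, 124] [0, 0, 1] [] []),
.rs (.l2 1 5 36 2 1 1),
.rs (.lip 0 80 87 7),
.rs (.lipl 1 34 114 1 80),
.rs (.l2 2 18 66 1 2 3),
.rs (.part [128, 72, 55] [0, 0, 1] [] []),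
.rs (.le 0 96 32 5 1),
.rs (.join 2 2 3 4 2 3 [(1, 1)]),
.rs (.l2 1 3 10 1 1 1),
.rs (.join 1 64 7 2 1 1 [(6, 0)]),
.rs (.part [18, 129, 44] [0, 0, 0] [64] []),
.rs (.l2 2 34 36 5 2 2),
.rs (.join 2 4 4 4 4 1 [(2, 1)]),
.rs (.lipl 1 20 116 1 96),
.rs (.deg 0 [2, 0, 1]),
.rs (.join 1 2 3 2 1 1 [(1, 0)]),
.rs (.part [136, 69, 50] [0, 1, 0] [] []),
.rs (.le 2 34 32 5 3),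
.rs (.join 2 2 5 4 2 3 [(1, 1)]),
.rs (.lipl 1 96 114 1 18),
.rs (.join 2 2 2 4 2 3 [(1, 1)]),
.rs (.l2 0 130 136 7 1 1),
.rs (.le 1 96 64 6 1),
.rs (.le 2 20 16 4 4),
.rs (.part [160, 67, 28] [0, 1, 0] [] []),
.rs (.le 1 20 16 4 3),
.rs (.part [64, 130, 61] [0, 0, 1] [] []),
.rs (.join 2 32 6 4 1 3 [(5, 0)]),
.rs (.le 1 136 128 7 1),
.rs (.un 1 5),
.rs (.le 0 5 4 2 1),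
.rs (.part [8, 102, 145] [0, 1, 0] [] []),
.rs (.lip 0 129 193 64),
.rs (.l2 2 65 96 6 2 2),
.rs (.l2 1 136 144 7 1 1),
.rs (.l2 0 9 24 3 1 1),
.rs (.ab2 1 9),
.rs (.lip 1 68 84 16),
.rs (.part [136, 16, 103] [0, 0, 1] [] []),
.rs (.lip 2 129 185 56),
.rs (.join 2 4 4 4 1 3 [(2, 0)]),
.rs (.join 2 1 5 4 2 2 [(0, 0)]),
.rs (.part [6, 128, 65] [0, 0, 0] [56] []),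
.rs (.lip 1 66 194 128),
.rs (.l2 2 20 36 2 2 1),
.rs (.join 1 2 4 2 2 0 [(1, 0)]),
.rs (.lipl 0 66 75 0 9),
.rs (.le 2 34 32 5 2),
.rs (.part [128, 96, 31] [0, 0, 1] [] []),
.rs (.lip 2 132 188 56),
.rs (.mono 0 32 34 1),
.rs (.join 0 8 7 2 2 0 [(3, 0)]),
.rs (.lip 2 53 181 128),
.rs (.deg 1 [2, 1, 0]),
.rs (.le 0 129 128 7 1),
.rs (.l2 1 3 66 1 1 1),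
.rs (.ab2 1 192),
.rs (.lipl 2 137 171 2 34),
.rs (.l2 0 132 144 7 1 1),
.rs (.part [66, 16, 173] [0, 0, 1] [] []),
.rs (.part [132, 112, 11] [0, 1, 0] [] []),
.rs (.part [17, 130, 44] [0, 0, 0] [64] []),
.rs (.l2 1 12 36 2 1 1),
.rs (.deg 6 [0, 0, 4]),
.rs (.l2 2 10 66 1 1 1),
.rs (.mono 1 128 192 1),
.rs (.part [66, 128, 5] [0, 0, 0] [56] []),
.rs (.lipl 1 64 82 2 18),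
.rs (.lip 2 208 215 7),
.rs (.part [79, 16, 160] [1, 0, 0] [] []),
.rs (.mono 1 64 80 1),
.rs (.part [18, 12, 225] [0, 0, 1] [] []),
.rs (.mono 0 64 72 1),
.rs (.un 0 6),
.rs (.join 1 2 5 2 1 1 [(1, 0)]),
.rs (.join 2 16 5 5 2 3 [(4, 0)]),
.rs (.deg 3 [1, 1, 1]),
.rs (.lip 0 65 193 128),
.rs (.ab2 1 48),
.rs (.part [33, 76, 146] [0, 1, 0] [] []),
.rs (.le 1 36 4 2 1),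
.rs (.l2 2 33 65 0 2 2),
.rs (.lip 2 46 174 128),
.degU 2 [(1, 1), (2, 4)],
.rs (.deg 3 [1, 0, 2]),
.rs (.deg 4 [3, 0, 0]),
.rs (.lip 2 194 250 56),
.rs (.le 1 129 128 7 1),
.rs (.ab2 0 33),
.rs (.lipl 2 200 234 2 34),
.rs (.ab2 0 17),
.rs (.join 0 1 2 2 1 1 [(0, 0)]),
.rs (.mono 0 32 36 1),
.rs (.lipl 2 192 204 2 12),
.rs (.part [132, 64, 59] [0, 0, 1] [] []),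
.rs (.lipl 0 17 27 2 10),
.rs (.part [66, 4, 185] [0, 0, 1] [] []),
.rs (.lip 1 2 58 56),
.rs (.lipl 1 96 116 2 20),
.rs (.lip 1 4 52 56),
.rs (.l2 0 129 144 7 1 1),
.rs (.l2 2 20 24 4 1 2),
.rs (.deg 1 [0, 1, 2]),
.rs (.join 0 1 7 2 1 1 [(0, 0)]),
.rs (.lipl 2 208 244 2 36),
.rs (.l2 0 130 160 7 1 1),
.rs (.part [33, 194, 28] [0, 1, 0] [] []),
.rs (.le 1 34 32 5 2),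
.rs (.join 1 2 2 2 2 1 [(1, 1)]),
.rs (.part [40, 87, 128] [0, 1, 0] [] []),
.rs (.lip 1 96 100 4),
.rs (.join 2 4 6 4 1 3 [(2, 0)]),
.rs (.join 1 1 3 2 0 2 [(0, 0)]),
.rs (.le 1 34 32 5 1),
.rs (.join 2 2 5 4 4 3 [(1, 3)]),
.rs (.lip 1 4 28 56),
.rs (.deg 2 [0, 2, 1]),
.rs (.l2 1 68 132 2 1 1),
.rs (.part [1, 2, 252] [0, 0, 1] [] []),
.rs (.mono 1 1 129 1),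
.rs (.l2 2 5 33 0 2 2),
.rs (.un 1 4),
.rs (.lip 2 29 157 128),
.rs (.join 1 4 5 2 0 2 [(2, 0)]),
.rs (.l2 2 9 40 3 1 1),
.rs (.part [64, 6, 145] [0, 0, 0] [40] []),
.rs (.lipl 2 52 118 2 66),
.degU 4 [(1, 2), (2, 3)],
.rs (.l2 2 3 33 0 1 2),
.rs (.le 1 20 4 2 2),
.rs (.part [9, 210, 36] [0, 1, 0] [] []),
.rs (.part [5, 64, 130] [0, 0, 0] [56] []),
.rs (.join 2 1 4 4 2 3 [(0, 1)]),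
.rs (.hall [1] [4, 5, 6, 7]),
.rs (.part [17, 100, 138] [0, 1, 0] [] []),
.rs (.part [18, 136, 37] [0, 0, 0] [64] []),
.rs (.join 2 2 5 4 4 0 [(1, 0)]),
.rs (.part [193, 20, 42] [1, 0, 0] [] []),
.rs (.l2 1 36 132 2 1 1),
.rs (.join 2 1 1 5 2 3 [(0, 0)]),
.rs (.join 1 2 4 2 2 2 [(1, 2)]),
.rs (.part [64, 18, 173] [0, 0, 1] [] []),
.rs (.join 0 1 4 2 2 0 [(0, 0)]),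
.rs (.l2 1 12 132 2 1 1),
.rs (.join 2 2 4 5 3 2 [(1, 0)]),
.rs (.un 1 7),
.rs (.part [5, 58, 192] [0, 1, 0] [] []),
.rs (.lipl 2 162 174 2 12),
.rs (.l2 1 96 192 6 1 1),
.rs (.part [64, 178, 13] [0, 1, 0] [] []),
.rs (.join 1 8 4 2 1 1 [(3, 0)]),
.rs (.le 1 66 2 1 2),
.rs (.mono 0 16 18 1),
.rs (.lipl 2 146 242 2 96),
.rs (.join 2 1 2 4 2 2 [(0, 0)]),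
.rs (.part [64, 166, 25] [0, 1, 0] [] []),
.rs (.lip 0 64 192 128),
.rs (.part [128, 24, 103] [0, 0, 1] [] []),
.rs (.join 1 1 6 2 0 2 [(0, 0)]),
.rs (.deg 4 [1, 0, 2]),
.rs (.lip 1 96 103 7),
.rs (.lipl 1 64 81 2 17),
.rs (.mono 2 192 196 1),
.rs (.join 2 1 1 4 3 3 [(0, 2)]),
.rs (.join 2 4 5 4 4 3 [(2, 3)]),
.rs (.le 1 18 16 4 3),
.rs (.join 1 8 5 2 0 2 [(3, 0)]),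
.rs (.lipl 2 50 182 1 132),
.rs (.un 1 6),
.rs (.join 1 8 6 2 1 1 [(3, 0)]),
.rs (.mono 1 1 17 1),
.rs (.mono 1 16 18 1),
.rs (.part [18, 64, 173] [0, 0, 1] [] []),
.rs (.l2 2 10 34 1 2 2),
.rs (.mono 0 4 12 1),
.rs (.le 1 65 64 6 2),
.rs (.l2 2 34 66 1 2 2),
.rs (.lipl 1 36 102 0 66),
.rs (.ab2 1 12),
.rs (.part [9, 64, 182] [0, 0, 1] [] []),
.rs (.lipl 2 200 220 2 20),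
.degU 0 [(0, 1), (1, 1), (2, 3)],
.rs (.le 1 48 16 4 1),
.rs (.lipl 2 164 244 2 80),
.rs (.hall [1] [0, 1, 6, 7]),
.rs (.l2 2 5 20 2 2 2),
.rs (.part [8, 18, 229] [0, 0, 1] [] []),
.rs (.part [34, 64, 157] [0, 0, 1] [] []),
.rs (.join 0 2 4 2 1 1 [(1, 0)]),
.rs (.part [18, 33, 204] [0, 0, 1] [] []),
.rs (.le 0 17 16 4 1),
.rs (.part [17, 102, 136] [0, 1, 0] [] []),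
.rs (.part [69, 130, 56] [1, 0, 0] [] []),
.rs (.lip 1 96 99 7),
.rs (.part [193, 18, 44] [1, 0, 0] [] []),
.rs (.part [129, 88, 38] [0, 1, 0] [] []),
.rs (.part [121, 2, 132] [1, 0, 0] [] []),
.rs (.lip 2 200 207 7),
.rs (.join 2 16 5 5 3 3 [(4, 1)]),
.rs (.part [136, 64, 55] [0, 0, 1] [] []),
.rs (.part [139, 20, 96] [1, 0, 0] [] []),
.rs (.lipl 1 18 210 1 192),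
.rs (.mono 0 128 192 1),
.rs (.deg 3 [3, 0, 0]),
.rs (.lipl 1 20 212 0 192),
.rs (.part [9, 98, 148] [0, 1, 0] [] []),
.rs (.mono 1 32 34 1),
.rs (.part [130, 100, 25] [0, 1, 0] [] []),
.rs (.join 2 1 5 4 3 1 [(0, 0)]),
.rs (.lip 2 96 103 7),
.rs (.part [8, 96, 151] [0, 0, 1] [] []),
.rs (.deg 6 [3, 1, 0]),
.rs (.lip 1 32 39 7),
.rs (.l2 2 3 34 1 2 3),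
.rs (.lip 2 5 61 56),
.rs (.ab2 1 72),
.rs (.part [9, 150, 96] [0, 1, 0] [] []),
.rs (.l2 2 3 9 0 1 1),
.rs (.part [120, 6, 129] [1, 0, 0] [] []),
.rs (.part [64, 149, 42] [0, 1, 0] [] []),
.rs (.ab 1 4),
.rs (.join 2 1 4 5 3 2 [(0, 0)]),
.rs (.mono 0 32 160 1),
.rs (.lipl 2 192 228 2 36),
.rs (.part [6, 88, 161] [0, 1, 0] [] []),
.rs (.ordE 0 8 1),
.rs (.ab 1 2),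
.rs (.join 2 8 5 4 3 2 [(3, 1)]),
.rs (.join 2 1 2 4 3 2 [(0, 1)]),
.rs (.part [4, 1, 250] [0, 0, 1] [] []),
.rs (.part [64, 5, 186] [0, 0, 1] [] []),
.rs (.lipl 2 145 155 2 10),
.rs (.lipl 1 66 102 2 36),
.rs (.l2 1 6 130 1 1 1),
.rs (.le 0 40 32 5 1),
.rs (.ordE 0 1 2),
.rs (.part [2, 72, 181] [0, 0, 1] [] []),
.rs (.part [184, 5, 66] [1, 0, 0] [] []),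
.rs (.part [17, 194, 44] [0, 1, 0] [] []),
.rs (.join 1 32 7 2 2 0 [(5, 0)]),
.rs (.part [128, 66, 61] [0, 0, 1] [] []),
.rs (.l2 2 66 96 6 1 1),
.rs (.part [139, 64, 52] [1, 0, 0] [] []),
.rs (.le 2 66 2 1 2),
.rs (.l2 2 3 34 1 1 2),
.rs (.lipl 1 18 210 0 192),
.rs (.part [8, 192, 48] [0, 0, 0] [7] []),
.rs (.join 2 2 5 5 2 3 [(1, 0)]),
.rs (.l2 1 18 24 4 1 1),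
.rs (.le 2 65 1 0 3),
.degU 2 [(2, 5)],
.rs (.lipl 2 140 158 2 18),
.rs (.lipl 1 18 54 2 36),
.rs (.ab2 1 68),
.rs (.part [17, 36, 202] [0, 0, 1] [] []),
.rs (.hall [0] [3, 4, 5, 6]),
.rs (.deg 6 [0, 4, 0]),
.rs (.part [120, 5, 130] [1, 0, 0] [] []),
.rs (.deg 3 [2, 0, 1]),
.rs (.part [71, 48, 136] [1, 0, 0] [] []),
.rs (.lip 1 16 23 7),
.rs (.part [72, 2, 181] [0, 0, 1] [] []),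
.rs (.lipl 2 148 182 2 34),
.rs (.deg 0 [2, 1, 0]),
.rs (.mono 0 8 72 1),
.rs (.le 2 18 2 1 4),
.rs (.le 1 36 32 5 3),
.rs (.ordE 1 64 2),
.rs (.mono 1 32 48 1),
.rs (.deg 7 [0, 1, 3]),
.rs (.l2 1 132 144 7 1 1),
.rs (.join 0 8 6 2 2 0 [(3, 0)]),
.rs (.l2 2 3 66 1 1 1),
.rs (.join 2 2 5 4 1 3 [(1, 0)]),
.rs (.part [64, 40, 151] [0, 0, 1] [] []),
.rs (.lipl 1 96 114 2 18),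
.rs (.deg 6 [1, 0, 3]),
.rs (.lipl 1 32 98 2 66),
.rs (.lipl 0 17 29 2 12),
.rs (.part [2, 132, 65] [0, 0, 0] [56] []),
.rs (.part [17, 74, 164] [0, 1, 0] [] []),
.rs (.lip 2 70 118 56),
.rs (.le 1 20 16 4 2),
.rs (.l2 1 9 17 0 1 1),
.rs (.part [64, 24, 167] [0, 0, 1] [] []),
.rs (.deg 0 [1, 1, 1]),
.rs (.le 0 3 2 1 2),
.rs (.part [65, 44, 146] [0, 1, 0] [] []),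
.rs (.le 2 34 2 1 4),
.rs (.lipl 0 33 43 0 10),
.rs (.le 0 9 8 3 3),
.degU 5 [(1, 1), (2, 4)],
.rs (.join 1 1 1 2 2 2 [(0, 2)]),
.rs (.join 1 16 5 2 0 2 [(4, 0)]),
.rs (.join 2 1 1 5 3 3 [(0, 1)]),
.degU 0 [(0, 2), (2, 3)],
.rs (.part [9, 212, 34] [0, 1, 0] [] []),
.rs (.lipl 0 9 77 1 68),
.rs (.ordE 2 32 1),
.rs (.part [64, 43, 148] [0, 1, 0] [] []),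
.rs (.join 1 2 2 2 1 1 [(1, 0)]),
.rs (.ordE 1 2 1),
.rs (.part [160, 8, 87] [0, 0, 1] [] []),
.rs (.l2 1 130 136 7 1 1),
.rs (.part [8, 87, 160] [0, 1, 0] [] []),
.rs (.part [8, 64, 183] [0, 0, 1] [] []),
.rs (.un 1 1),
.rs (.part [193, 34, 28] [1, 0, 0] [] []),
.rs (.deg 0 [0, 1, 2]),
.rs (.deg 1 [1, 2, 0]),
.rs (.lipl 2 161 179 2 18),
.rs (.lipl 1 34 166 1 132),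
.rs (.part [29, 34, 192] [1, 0, 0] [] []),
.rs (.part [3, 60, 192] [0, 1, 0] [] []),
.rs (.join 1 2 3 2 0 2 [(1, 0)]),
.rs (.part [135, 64, 56] [1, 0, 0] [] []),
.rs (.lipl 2 52 182 0 130),
.rs (.part [27, 4, 224] [1, 0, 0] [] []),
.rs (.lip 2 40 47 7),
.rs (.l2 1 5 12 2 1 1),
.rs (.ab2 1 40),
.rs (.join 2 1 7 5 3 4 [(0, 2)]),
.rs (.lipl 2 164 182 0 18),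
.rs (.join 2 64 7 5 3 4 [(6, 2)]),
.rs (.join 1 2 7 2 1 1 [(1, 0)]),
.rs (.part [2, 124, 129] [0, 1, 0] [] []),
.rs (.part [10, 160, 21] [0, 0, 0] [64] []),
.rs (.join 0 1 6 2 2 1 [(0, 1)]),
.rs (.join 1 1 2 2 2 0 [(0, 0)]),
.rs (.srt 0 2 0 1 3),
.rs (.mono 1 2 6 1),
.rs (.deg 2 [0, 0, 3]),
.rs (.l2 1 6 20 2 1 1),
.rs (.lip 1 132 164 32),
.rs (.part [129, 102, 24] [0, 1, 0] [] []),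
.rs (.join 2 4 5 4 3 4 [(2, 3)]),
.rs (.l2 1 12 20 2 1 1),
.rs (.part [73, 36, 146] [1, 0, 0] [] []),
.rs (.ab2 2 132),
.rs (.part [16, 64, 175] [0, 0, 1] [] []),
.rs (.mono 2 64 72 1),
.rs (.l2 1 5 68 2 1 1),
.rs (.part [160, 82, 13] [0, 1, 0] [] []),
.rs (.le 0 192 128 7 1),
.rs (.part [17, 98, 140] [0, 1, 0] [] []),
.rs (.mono 1 128 130 1),
.rs (.join 0 4 7 2 1 1 [(2, 0)]),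
.rs (.lip 2 6 62 56),
.rs (.join 1 2 4 2 0 3 [(1, 1)]),
.rs (.le 1 36 4 2 2),
.rs (.ab2 1 130),
.rs (.lipl 1 132 198 2 66),
.rs (.deg 2 [2, 0, 1]),
.rs (.part [16, 32, 207] [0, 0, 1] [] []),
.rs (.join 2 4 3 4 3 2 [(2, 1)]),
.rs (.le 1 68 4 2 1),
.rs (.deg 2 [0, 1, 2]),
.rs (.part [2, 4, 249] [0, 0, 1] [] []),
.rs (.l2 1 68 72 6 1 1),
.rs (.part [73, 48, 134] [1, 0, 0] [] []),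
.rs (.part [9, 16, 230] [0, 0, 1] [] []),
.rs (.l2 0 129 160 7 1 1),
.rs (.l2 0 10 130 1 1 1),
.rs (.part [48, 67, 140] [0, 1, 0] [] []),
.rs (.part [17, 196, 42] [0, 1, 0] [] []),
.rs (.part [72, 32, 151] [0, 0, 1] [] []),
.rs (.lipl 2 136 170 2 34),
.rs (.lipl 1 18 114 2 96),
.rs (.lipl 2 148 214 2 66),
.rs (.ab2 0 160),
.rs (.lipl 2 144 178 2 34),
.rs (.deg 2 [1, 0, 2]),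
.rs (.ab2 2 136),
.rs (.un 0 2),
.rs (.mono 1 1 9 1),
.rs (.ordE 1 16 1),
.rs (.l2 2 36 68 2 1 1),
.rs (.le 0 17 16 4 2),
.rs (.lip 2 224 231 7),
.rs (.lipl 1 20 54 2 34),
.rs (.lipl 1 18 114 1 96),
.rs (.l2 0 6 132 2 1 1),
.rs (.hall [0] [3, 4, 5, 7]),
.rs (.join 1 2 7 2 2 0 [(1, 0)]),
.rs (.join 2 2 4 4 3 4 [(1, 3)]),
.rs (.join 2 16 6 4 4 0 [(4, 0)]),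
.rs (.join 2 4 4 4 4 3 [(2, 3)]),
.rs (.join 2 4 3 4 2 2 [(2, 0)]),
.rs (.l2 1 130 144 7 1 1),
.rs (.deg 5 [2, 0, 1]),
.rs (.part [144, 73, 38] [0, 1, 0] [] []),
.rs (.part [10, 33, 212] [0, 0, 1] [] []),
.rs (.join 1 16 5 2 1 1 [(4, 0)]),
.rs (.mono 1 8 40 1),
.rs (.lipl 2 146 182 1 36),
.rs (.part [80, 32, 143] [0, 0, 1] [] []),
.rs (.join 1 16 6 2 0 2 [(4, 0)]),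
.rs (.join 2 4 4 2 1 1 [(2, 0)]),
.rs (.le 1 12 4 2 1),
.rs (.lipl 1 10 43 1 33),
.rs (.lipl 2 140 173 2 33),
.rs (.join 0 16 5 2 1 1 [(4, 0)]),
.rs (.le 2 80 16 4 4),
.rs (.l2 1 65 72 6 1 1),
.rs (.part [64, 62, 129] [0, 1, 0] [] []),
.rs (.l2 1 3 18 1 1 1),
.rs (.ab2 1 5),
.rs (.part [29, 66, 160] [1, 0, 0] [] []),
.rs (.le 1 6 4 2 1),
.rs (.lipl 1 36 54 2 18),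
.rs (.l2 2 9 17 0 1 2),
.rs (.l2 1 66 96 6 1 1),
.rs (.lipl 0 9 75 0 66),
.rs (.part [43, 144, 68] [1, 0, 0] [] []),
.rs (.part [51, 4, 200] [1, 0, 0] [] []),
.rs (.join 2 1 3 4 1 3 [(0, 0)]),
.rs (.l2 2 9 12 3 1 2),
.rs (.part [24, 128, 96] [0, 0, 0] [7] []),
.rs (.part [33, 84, 138] [0, 1, 0] [] []),
.rs (.part [9, 198, 48] [0, 1, 0] [] []),
.rs (.lipl 2 148 182 1 34),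
.rs (.part [9, 226, 20] [0, 1, 0] [] []),
.rs (.part [72, 20, 163] [0, 0, 1] [] []),
.rs (.le 1 65 1 0 1),
.rs (.part [130, 64, 5] [0, 0, 0] [56] []),
.rs (.lip 0 128 184 56),
.rs (.lip 0 64 71 7),
.rs (.deg 7 [3, 1, 0]),
.rs (.l2 1 24 80 4 1 1),
.rs (.part [12, 98, 145] [0, 1, 0] [] []),
.rs (.join 2 1 2 2 1 1 [(0, 0)]),
.rs (.join 0 2 4 2 2 0 [(1, 0)]),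
.rs (.ab2 0 68),
.degU 4 [(0, 1), (2, 4)],
.rs (.le 2 36 4 2 4),
.rs (.join 2 2 2 2 1 1 [(1, 0)]),
.rs (.ordE 0 64 1),
.rs (.join 2 8 4 4 2 3 [(3, 1)]),
.rs (.join 1 8 7 2 2 0 [(3, 0)]),
.rs (.part [9, 2, 244] [0, 0, 1] [] []),
.rs (.lipl 2 20 212 0 192),
.rs (.part [120, 3, 132] [1, 0, 0] [] []),
.rs (.mono 1 32 40 1),
.rs (.lipl 1 6 86 2 80),
.rs (.l2 2 10 136 3 1 3),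
.rs (.part [75, 132, 48] [1, 0, 0] [] []),
.rs (.le 1 18 16 4 1),
.rs (.ab2 1 65),
.degU 2 [(0, 1), (1, 1), (2, 3)],
.rs (.join 2 2 4 4 3 1 [(1, 0)]),
.rs (.le 1 10 2 1 2),
.rs (.part [132, 64, 3] [0, 0, 0] [56] []),
.rs (.lipl 2 193 211 2 18),
.rs (.join 2 2 6 4 3 3 [(1, 2)]),
.rs (.ordE 1 1 2),
.rs (.hall [0] [1, 2, 6, 7]),
.rs (.ab2 1 36),
.rs (.le 1 65 64 6 1),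
.rs (.l2 2 5 20 2 2 1),
.rs (.l2 2 18 34 1 2 1),
.rs (.part [33, 196, 26] [0, 1, 0] [] []),
.rs (.lipl 1 20 212 1 192),
.rs (.lip 2 168 175 7),
.rs (.mono 1 2 10 1),
.rs (.part [128, 4, 67] [0, 0, 0] [56] []),
.rs (.lipl 2 18 210 0 192),
.rs (.mono 0 8 9 1),
.rs (.join 2 4 6 2 0 2 [(2, 0)]),
.rs (.part [136, 64, 48] [0, 0, 0] [7] []),
.rs (.le 2 96 32 5 1),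
.rs (.part [72, 128, 48] [0, 0, 0] [7] []),
.rs (.lip 2 30 158 128),
.rs (.ordE 0 1 1),
.rs (.part [130, 81, 44] [0, 1, 0] [] []),
.rs (.part [10, 17, 228] [0, 0, 1] [] []),
.rs (.join 0 2 7 2 1 1 [(1, 0)]),
.rs (.le 1 144 128 7 1),
.rs (.ordE 2 2 2),
.rs (.deg 2 [2, 1, 0]),
.rs (.join 1 2 5 2 1 2 [(1, 1)]),
.rs (.lipl 1 192 210 1 18),
.rs (.part [12, 64, 179] [0, 0, 1] [] []),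
.rs (.lipl 1 68 86 0 18),
.rs (.l2 0 18 48 4 1 1),
.rs (.part [64, 3, 188] [0, 0, 1] [] []),
.rs (.lipl 2 146 179 2 33),
.rs (.srt 0 1 0 0 3),
.rs (.ab2 0 36),
.rs (.part [9, 166, 80] [0, 1, 0] [] []),
.rs (.mono 0 8 10 1),
.rs (.lipl 1 64 76 1 12),
.rs (.lip 0 66 122 56),
.rs (.part [16, 101, 138] [0, 1, 0] [] []),
.rs (.hall [1] [0, 2, 6, 7]),
.rs (.lip 1 132 180 56),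
.rs (.deg 5 [1, 2, 0]),
.rs (.le 2 66 2 1 4),
.rs (.ab2 0 66),
.rs (.join 2 4 5 4 3 1 [(2, 0)]),
.rs (.mono 1 128 132 1),
.rs (.part [75, 36, 144] [1, 0, 0] [] []),
.rs (.join 0 16 7 2 1 1 [(4, 0)]),
.rs (.le 2 68 4 2 2),
.rs (.srt 0 1 0 0 2),
.rs (.mono 1 4 36 1),
.rs (.join 1 2 3 2 2 0 [(1, 0)]),
.rs (.mono 1 4 132 1),
.rs (.part [1, 66, 188] [0, 0, 1] [] []),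
.rs (.lipl 1 192 228 1 36),
.rs (.mono 1 64 66 1),
.rs (.l2 1 65 80 6 1 1),
.rs (.deg 4 [2, 0, 1]),
.rs (.mono 1 128 144 1),
.rs (.join 2 1 1 4 2 2 [(0, 0)]),
.rs (.part [6, 1, 248] [0, 0, 1] [] []),
.rs (.lipl 0 9 43 2 34),
.rs (.join 2 2 4 4 4 4 [(1, 4)]),
.rs (.ab2 2 68),
.rs (.part [6, 121, 128] [0, 1, 0] [] []),
.rs (.join 0 1 1 2 2 1 [(0, 1)]),
.rs (.join 2 2 5 4 3 2 [(1, 1)]),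
.rs (.le 1 36 32 5 1),
.rs (.l2 0 12 68 2 1 1),
.rs (.part [10, 100, 145] [0, 1, 0] [] []),
.rs (.mono 2 64 192 1),
.rs (.lipl 2 200 236 2 36),
.rs (.part [9, 164, 82] [0, 1, 0] [] []),
.rs (.l2 2 18 34 1 2 3),
.rs (.join 2 8 4 4 3 2 [(3, 1)]),
.rs (.le 1 33 1 0 1),
.rs (.lipl 2 44 62 2 18),
.rs (.lipl 2 28 61 1 33),
.rs (.join 2 32 6 2 1 2 [(5, 1)]),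
.rs (.join 2 1 1 4 1 3 [(0, 0)]),
.rs (.part [136, 82, 37] [0, 1, 0] [] []),
.rs (.lipl 2 164 182 2 18),
.rs (.join 2 1 4 5 2 4 [(0, 1)]),
.rs (.un 0 3),
.rs (.le 1 130 128 7 1),
.rs (.l2 2 20 36 2 3 2),
.rs (.le 1 80 16 4 1),
.rs (.lip 1 4 60 56),
.rs (.part [24, 32, 199] [0, 0, 1] [] []),
.rs (.deg 5 [0, 2, 1]),
.rs (.join 0 4 6 2 1 1 [(2, 0)]),
.rs (.ab2 0 80),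
.rs (.part [10, 64, 181] [0, 0, 1] [] []),
.rs (.part [64, 154, 37] [0, 1, 0] [] []),
.rs (.mono 1 2 3 1),
.rs (.lipl 2 164 182 1 18),
.rs (.hall [1] [3, 4, 5, 7]),
.rs (.le 1 6 4 2 3),
.degU 3 [(0, 1), (1, 1), (2, 3)],
.rs (.join 2 4 7 5 3 4 [(2, 2)]),
.rs (.ab 0 0),
.rs (.l2 2 3 65 0 1 3),
.rs (.l2 2 6 20 2 1 2),
.rs (.lipl 2 146 158 2 12),
.rs (.part [8, 103, 144] [0, 1, 0] [] []),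
.rs (.lip 2 64 120 56),
.rs (.join 2 32 6 4 2 3 [(5, 1)]),
.rs (.lipl 0 9 29 2 20),
.rs (.join 2 4 4 5 2 3 [(2, 0)]),
.rs (.join 2 1 6 2 0 2 [(0, 0)]),
.rs (.lip 1 64 69 7),
.rs (.part [48, 64, 136] [0, 0, 0] [7] []),
.rs (.join 2 16 6 4 3 1 [(4, 0)]),
.rs (.part [122, 5, 128] [1, 0, 0] [] []),
.rs (.mono 1 8 72 1),
.rs (.join 1 4 6 2 1 1 [(2, 0)]),
.rs (.l2 1 129 160 7 1 1),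
.rs (.lip 1 64 104 56),
.rs (.mono 1 2 66 1),
.rs (.part [1, 68, 186] [0, 0, 1] [] []),
.rs (.ab2 1 10),
.rs (.lip 2 192 248 56),
.rs (.srt 0 4 0 3 4),
.rs (.lip 2 80 87 7),
.rs (.join 2 2 6 2 1 1 [(1, 0)]),
.degU 6 [(1, 2), (2, 4)],
.rs (.le 2 65 1 0 4),
.rs (.l2 1 18 66 1 1 1),
.rs (.part [130, 64, 61] [0, 0, 1] [] []),
.rs (.l2 2 18 34 1 2 2),
.rs (.l2 2 34 48 5 2 2),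
.rs (.lipl 1 20 54 1 34),
.rs (.join 2 4 4 4 3 4 [(2, 3)]),
.rs (.join 1 2 3 2 1 2 [(1, 1)]),
.rs (.part [96, 8, 151] [0, 0, 1] [] []),
.rs (.ab 2 2),
.rs (.part [64, 34, 157] [0, 0, 1] [] []),
.rs (.join 2 32 6 4 3 1 [(5, 0)]),
.rs (.part [76, 144, 35] [1, 0, 0] [] []),
.rs (.l2 1 9 33 0 1 1),
.rs (.ordE 0 2 2),
.degU 1 [(0, 1), (2, 4)],
.rs (.join 2 16 6 4 3 4 [(4, 3)]),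
.rs (.mono 1 64 96 1),
.rs (.lip 0 9 73 64),
.rs (.srt 0 5 0 4 3),
.rs (.ab2 1 144),
.rs (.part [72, 1, 182] [0, 0, 1] [] []),
.rs (.deg 6 [2, 1, 1]),
.rs (.part [4, 66, 185] [0, 0, 1] [] []),
.rs (.join 1 4 5 2 1 2 [(2, 1)]),
.rs (.join 0 2 6 2 0 2 [(1, 0)]),
.rs (.join 2 2 6 4 3 1 [(1, 0)]),
.rs (.join 2 2 5 5 2 4 [(1, 1)]),
.rs (.join 2 2 2 4 3 2 [(1, 1)]),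
.rs (.lipl 1 36 228 1 192),
.rs (.part [9, 34, 212] [0, 0, 1] [] []),
.rs (.part [9, 32, 214] [0, 0, 1] [] []),
.rs (.le 0 65 1 0 2),
.rs (.l2 0 10 18 1 1 1),
.rs (.l2 1 9 40 3 1 1),
.rs (.join 2 4 5 4 2 3 [(2, 1)]),
.rs (.ab2 1 80),
.rs (.join 2 1 4 4 1 3 [(0, 0)]),
.rs (.part [9, 36, 210] [0, 0, 1] [] []),
.rs (.l2 2 20 68 2 1 1),
.rs (.lip 1 144 149 7),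
.rs (.join 1 2 6 2 1 2 [(1, 1)]),
.rs (.part [9, 70, 176] [0, 1, 0] [] [])]

/-- the bounds. -/
def bl : List Bnd := [⟨false, [(0, 0), (0, 1), (0, 2), (0, 3), (0, 4), (0, 5), (0, 6), (0, 7)], 9⟩, ⟨false, [(1, 0), (1, 1), (1, 2), (1, 3), (1, 4), (1, 5), (1, 6), (1, 7)], 9⟩, ⟨false, [(0, 7), (1, 7)], 1⟩, ⟨true, [(0, 0), (0, 1), (0, 2), (0, 3), (0, 4), (0, 5), (1, 0), (1, 1), (1, 2), (1, 3), (1, 4), (1, 5)], 6⟩]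

noncomputable def gb : List Gb := [
⟨1, [1, 3, 1, 1, 1, 1, 1, 1]⟩,
⟨1, [1, 3, 1, 1, 3, 1, 0, 0]⟩,
⟨0, [4, 0, 0, 3, 3, 0, 0, 0]⟩,
⟨1, [1, 1, 0, 2, 3, 3, 0, 0]⟩,
⟨1, [2, 3, 3, 0, 1, 1, 0, 0]⟩,
⟨0, [3, 3, 3, 1, 0, 0, 0, 0]⟩,
⟨1, [0, 3, 3, 0, 0, 1, 3, 0]⟩,
⟨1, [0, 2, 4, 0, 0, 0, 4, 0]⟩,
⟨1, [3, 3, 2, 0, 0, 1, 0, 1]⟩,
⟨1, [1, 1, 3, 1, 1, 1, 1, 1]⟩,
⟨1, [1, 0, 0, 2, 3, 3, 1, 0]⟩,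
⟨2, [1, 1]⟩,
⟨1, [2, 3, 3, 0, 0, 2, 0, 0]⟩,
⟨1, [0, 2, 2, 0, 1, 0, 5, 0]⟩,
⟨1, [1, 0, 0, 2, 2, 2, 3, 0]⟩,
⟨0, [3, 2, 0, 1, 0, 0, 4, 0]⟩,
⟨0, [3, 2, 1, 1, 0, 0, 3, 0]⟩,
⟨1, [0, 0, 0, 1, 2, 2, 4, 1]⟩,
⟨0, [2, 2, 2, 1, 0, 0, 3, 0]⟩,
⟨1, [0, 2, 4, 0, 1, 0, 3, 0]⟩,
⟨0, [2, 1, 0, 2, 2, 2, 1, 0]⟩,
⟨2, [0, 2]⟩,
⟨1, [1, 1, 3, 1, 3, 1, 0, 0]⟩,
⟨0, [3, 3, 0, 0, 0, 0, 3, 1]⟩,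
⟨3, [1, 0, 0, 1, 0, 0, 1, 0, 1, 0, 1, 0]⟩,
⟨1, [1, 3, 1, 1, 1, 3, 0, 0]⟩,
⟨1, [2, 3, 3, 0, 0, 1, 1, 0]⟩,
⟨1, [2, 3, 3, 0, 1, 0, 1, 0]⟩,
⟨0, [3, 1, 0, 4, 1, 1, 0, 0]⟩,
⟨1, [0, 0, 1, 2, 2, 2, 3, 0]⟩,
⟨0, [2, 2, 0, 1, 0, 0, 5, 0]⟩,
⟨1, [0, 1, 0, 0, 2, 2, 5, 0]⟩,
⟨1, [0, 1, 0, 0, 3, 3, 3, 0]⟩,
⟨3, [1, 0, 0, 1, 0, 0, 0, 1, 0, 1, 0, 1]⟩,
⟨1, [0, 1, 0, 2, 3, 3, 1, 0]⟩,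
⟨1, [1, 1, 1, 1, 1, 3, 1, 1]⟩,
⟨0, [2, 1, 1, 2, 2, 1, 1, 0]⟩,
⟨0, [4, 1, 1, 2, 1, 0, 0, 1]⟩,
⟨1, [0, 1, 4, 4, 0, 1, 0, 0]⟩,
⟨0, [2, 1, 1, 2, 2, 0, 2, 0]⟩,
⟨0, [3, 1, 1, 1, 1, 1, 1, 1]⟩,
⟨1, [1, 2, 2, 0, 0, 0, 4, 1]⟩,
⟨1, [0, 2, 3, 1, 0, 0, 4, 0]⟩,
⟨1, [1, 0, 0, 0, 3, 2, 4, 0]⟩,
⟨1, [2, 2, 2, 0, 1, 0, 3, 0]⟩,
⟨1, [0, 3, 3, 0, 1, 0, 3, 0]⟩,
⟨0, [2, 1, 0, 2, 2, 0, 3, 0]⟩,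
⟨1, [1, 1, 3, 3, 1, 1, 0, 0]⟩,
⟨1, [0, 2, 2, 0, 0, 1, 5, 0]⟩,
⟨1, [0, 1, 4, 0, 1, 4, 0, 0]⟩,
⟨1, [2, 3, 3, 1, 1, 0, 0, 0]⟩,
⟨3, [1, 0, 0, 1, 0, 0, 1, 1, 0, 0, 0, 1]⟩,
⟨0, [2, 2, 0, 1, 1, 1, 3, 0]⟩,
⟨1, [0, 1, 0, 0, 2, 3, 4, 0]⟩,
⟨1, [1, 0, 1, 2, 3, 3, 0, 0]⟩,
⟨1, [0, 2, 2, 0, 0, 2, 4, 0]⟩,
⟨0, [1, 0, 0, 3, 3, 3, 0, 0]⟩,
⟨3, [1, 0, 0, 1, 0, 0, 0, 0, 1, 1, 0, 1]⟩,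
⟨1, [0, 3, 3, 1, 0, 0, 3, 0]⟩,
⟨1, [0, 0, 1, 0, 2, 2, 5, 0]⟩,
⟨1, [0, 3, 2, 0, 0, 1, 4, 0]⟩,
⟨1, [0, 2, 4, 0, 0, 1, 3, 0]⟩,
⟨1, [0, 0, 1, 0, 3, 2, 4, 0]⟩,
⟨1, [2, 3, 3, 1, 0, 1, 0, 0]⟩,
⟨1, [0, 1, 2, 1, 3, 1, 2, 0]⟩,
⟨3, [1, 0, 0, 1, 0, 0, 0, 1, 0, 1, 1, 0]⟩,
⟨1, [0, 1, 1, 0, 2, 2, 4, 0]⟩,
⟨1, [0, 1, 0, 0, 3, 2, 4, 0]⟩,
⟨0, [2, 1, 1, 2, 2, 2, 0, 0]⟩,
⟨1, [0, 1, 0, 2, 2, 2, 3, 0]⟩,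
⟨0, [3, 2, 0, 1, 1, 1, 2, 0]⟩,
⟨1, [1, 2, 2, 0, 0, 1, 4, 0]⟩,
⟨1, [1, 3, 2, 0, 1, 0, 3, 0]⟩,
⟨0, [3, 1, 0, 3, 3, 0, 0, 0]⟩,
⟨1, [0, 1, 0, 2, 3, 3, 0, 1]⟩,
⟨3, [1, 0, 0, 1, 0, 0, 1, 0, 1, 0, 0, 1]⟩,
⟨1, [0, 3, 3, 0, 0, 0, 3, 1]⟩,
⟨0, [3, 1, 1, 4, 1, 0, 0, 0]⟩,
⟨0, [2, 2, 2, 1, 1, 0, 2, 0]⟩,
⟨1, [0, 0, 1, 2, 3, 3, 1, 0]⟩,
⟨1, [2, 2, 2, 0, 0, 1, 3, 0]⟩,
⟨1, [1, 0, 0, 0, 3, 3, 3, 0]⟩,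
⟨0, [4, 3, 2, 1, 0, 0, 0, 0]⟩,
⟨1, [2, 2, 2, 1, 0, 0, 3, 0]⟩,
⟨1, [0, 0, 1, 0, 2, 3, 4, 0]⟩,
⟨0, [4, 2, 0, 0, 0, 0, 4, 0]⟩,
⟨1, [0, 1, 1, 2, 3, 3, 0, 0]⟩,
⟨1, [1, 1, 3, 1, 1, 3, 0, 0]⟩,
⟨1, [1, 1, 1, 1, 3, 1, 1, 1]⟩,
⟨1, [0, 2, 3, 0, 1, 0, 4, 0]⟩,
⟨1, [0, 3, 2, 0, 1, 0, 4, 0]⟩,
⟨1, [0, 2, 2, 0, 3, 1, 2, 0]⟩,
⟨2, [2, 0]⟩,
⟨0, [2, 2, 2, 0, 0, 0, 3, 1]⟩,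
⟨1, [2, 3, 3, 1, 0, 0, 1, 0]⟩,
⟨0, [2, 2, 1, 0, 0, 0, 4, 1]⟩,
⟨1, [1, 0, 0, 1, 2, 2, 4, 0]⟩,
⟨1, [2, 3, 3, 0, 1, 0, 0, 1]⟩,
⟨1, [0, 0, 1, 2, 3, 3, 0, 1]⟩,
⟨0, [4, 1, 0, 3, 1, 1, 0, 0]⟩,
⟨1, [0, 2, 3, 0, 0, 1, 4, 0]⟩,
⟨3, [1, 0, 0, 1, 0, 0, 0, 0, 1, 1, 1, 0]⟩,
⟨1, [0, 3, 2, 1, 0, 0, 4, 0]⟩,
⟨1, [0, 0, 0, 0, 3, 3, 3, 1]⟩,
⟨1, [0, 1, 2, 0, 2, 3, 2, 0]⟩,
⟨0, [3, 3, 0, 1, 0, 0, 3, 0]⟩]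

noncomputable def gads : List Gt := [
⟨2, [⟨2, 3, []⟩, ⟨20, 5, []⟩, ⟨128, 5, []⟩], [1, 1], 1, [(134, 1), (146, 1)]⟩,
⟨1, [⟨132, 2, []⟩, ⟨24, 2, []⟩], [3, 3, 3], 1, [(12, 1), (20, 1), (136, 1), (144, 1)]⟩,
⟨2, [⟨3, 4, []⟩, ⟨64, 4, []⟩, ⟨128, 4, []⟩], [7], 1, [(193, 1), (194, 1)]⟩,
⟨1, [⟨34, 2, []⟩, ⟨80, 2, []⟩], [3, 3, 3], 1, [(18, 1), (48, 1), (66, 1), (96, 1)]⟩,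
⟨1, [⟨18, 2, []⟩, ⟨96, 2, []⟩], [3, 3, 3], 1, [(34, 1), (48, 1), (66, 1), (80, 1)]⟩,
⟨1, [⟨65, 2, []⟩, ⟨136, 2, []⟩], [3, 3, 3], 1, [(9, 1), (72, 1), (129, 1), (192, 1)]⟩,
⟨2, [⟨1, 3, []⟩, ⟨6, 5, []⟩, ⟨192, 5, []⟩], [1, 1], 1, [(67, 1), (69, 1), (131, 1), (133, 1)]⟩,
⟨0, [⟨33, 2, []⟩, ⟨192, 2, []⟩], [3, 3, 3], 1, [(65, 1), (96, 1), (129, 1), (160, 1)]⟩,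
⟨2, [⟨34, 4, []⟩, ⟨4, 4, []⟩, ⟨128, 4, []⟩], [7], 1, [(134, 1), (164, 1)]⟩,
⟨1, [⟨6, 2, []⟩, ⟨1, 2, []⟩], [3, 3, 3], 1, [(3, 1), (5, 1)]⟩,
⟨2, [⟨2, 3, []⟩, ⟨4, 3, []⟩, ⟨8, 3, []⟩, ⟨16, 3, []⟩, ⟨128, 4, []⟩], [3, 3, 12, 12, 16], 2, [(30, 1), (134, 1), (152, 1), (158, 2)]⟩,
⟨1, [⟨18, 2, []⟩, ⟨1, 2, []⟩], [3, 3, 3], 1, [(3, 1), (17, 1)]⟩,
⟨1, [⟨12, 2, []⟩, ⟨32, 2, []⟩], [3, 3, 3], 1, [(36, 1), (40, 1)]⟩,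
⟨1, [⟨33, 2, []⟩, ⟨72, 2, []⟩], [3, 3, 3], 1, [(9, 1), (40, 1), (65, 1), (96, 1)]⟩,
⟨2, [⟨68, 2, []⟩, ⟨128, 4, []⟩], [3, 1, 1], 1, [(132, 1), (192, 1)]⟩,
⟨0, [⟨12, 2, []⟩, ⟨129, 2, []⟩], [3, 3, 3], 1, [(5, 1), (9, 1), (132, 1), (136, 1)]⟩,
⟨1, [⟨18, 2, []⟩, ⟨68, 2, []⟩], [3, 3, 3], 1, [(6, 1), (20, 1), (66, 1), (80, 1)]⟩,
⟨0, [⟨5, 2, []⟩, ⟨192, 2, []⟩], [3, 3, 3], 1, [(65, 1), (68, 1), (129, 1), (132, 1)]⟩,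
⟨1, [⟨10, 2, []⟩, ⟨20, 2, []⟩], [3, 3, 3], 1, [(6, 1), (12, 1), (18, 1), (24, 1)]⟩,
⟨1, [⟨2, 3, []⟩, ⟨64, 3, []⟩], [3, 3], 1, [(66, 1)]⟩,
⟨1, [⟨9, 2, []⟩, ⟨130, 2, []⟩], [3, 3, 3], 1, [(3, 1), (10, 1), (129, 1), (136, 1)]⟩,
⟨2, [⟨1, 3, []⟩, ⟨2, 3, []⟩, ⟨16, 3, []⟩, ⟨32, 3, []⟩, ⟨128, 4, []⟩], [3, 3, 12, 12, 16], 2, [(51, 1), (131, 1), (176, 1), (179, 2)]⟩,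
⟨1, [⟨48, 2, []⟩, ⟨64, 2, []⟩], [3, 3, 3], 1, [(80, 1), (96, 1)]⟩,
⟨1, [⟨96, 2, []⟩, ⟨24, 2, []⟩], [3, 3, 3], 1, [(40, 1), (48, 1), (72, 1), (80, 1)]⟩,
⟨2, [⟨8, 3, []⟩, ⟨64, 3, []⟩], [3, 3], 1, [(72, 1)]⟩,
⟨1, [⟨8, 2, []⟩, ⟨32, 2, []⟩], [3, 3, 3], 1, [(40, 1)]⟩,
⟨2, [⟨32, 3, []⟩, ⟨16, 2, []⟩, ⟨1, 3, []⟩, ⟨4, 3, []⟩, ⟨128, 4, []⟩], [3, 3, 18, 12, 12], 2, [(37, 1), (133, 1), (176, 1), (181, 2)]⟩,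
⟨1, [⟨48, 2, []⟩, ⟨192, 2, []⟩], [3, 3, 3], 1, [(80, 1), (96, 1), (144, 1), (160, 1)]⟩,
⟨2, [⟨18, 4, []⟩, ⟨68, 4, []⟩, ⟨128, 4, []⟩], [7], 1, [(134, 1), (148, 1), (194, 1), (208, 1)]⟩,
⟨1, [⟨3, 2, []⟩, ⟨48, 2, []⟩], [3, 3, 3], 1, [(17, 1), (18, 1), (33, 1), (34, 1)]⟩,
⟨1, [⟨68, 2, []⟩, ⟨130, 2, []⟩], [3, 3, 3], 1, [(6, 1), (66, 1), (132, 1), (192, 1)]⟩,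
⟨2, [⟨4, 3, []⟩, ⟨2, 2, []⟩, ⟨16, 3, []⟩, ⟨32, 3, []⟩, ⟨128, 4, []⟩], [3, 3, 6, 12, 24], 2, [(22, 1), (134, 1), (164, 1), (176, 1), (182, 2)]⟩,
⟨2, [⟨17, 4, []⟩, ⟨12, 4, []⟩, ⟨128, 4, []⟩], [7], 1, [(133, 1), (137, 1), (148, 1), (152, 1)]⟩,
⟨0, [⟨40, 2, []⟩, ⟨64, 2, []⟩], [3, 3, 3], 1, [(72, 1), (96, 1)]⟩,
⟨0, [⟨136, 2, []⟩, ⟨48, 2, []⟩], [3, 3, 3], 1, [(24, 1), (40, 1), (144, 1), (160, 1)]⟩,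
⟨1, [⟨96, 2, []⟩, ⟨144, 2, []⟩], [3, 3, 3], 1, [(48, 1), (80, 1), (160, 1), (192, 1)]⟩,
⟨1, [⟨36, 2, []⟩, ⟨80, 2, []⟩], [3, 3, 3], 1, [(20, 1), (48, 1), (68, 1), (96, 1)]⟩,
⟨2, [⟨33, 4, []⟩, ⟨10, 4, []⟩, ⟨128, 4, []⟩], [7], 1, [(131, 1), (137, 1), (162, 1), (168, 1)]⟩,
⟨2, [⟨24, 4, []⟩, ⟨32, 4, []⟩, ⟨128, 4, []⟩], [7], 1, [(168, 1), (176, 1)]⟩,
⟨0, [⟨144, 2, []⟩, ⟨40, 2, []⟩], [3, 3, 3], 1, [(24, 1), (48, 1), (136, 1), (160, 1)]⟩,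
⟨0, [⟨3, 2, []⟩, ⟨192, 2, []⟩], [3, 3, 3], 1, [(65, 1), (66, 1), (129, 1), (130, 1)]⟩,
⟨0, [⟨3, 2, []⟩, ⟨40, 2, []⟩], [3, 3, 3], 1, [(9, 1), (10, 1), (33, 1), (34, 1)]⟩,
⟨1, [⟨129, 2, []⟩, ⟨48, 2, []⟩], [3, 3, 3], 1, [(17, 1), (33, 1), (144, 1), (160, 1)]⟩,
⟨0, [⟨136, 2, []⟩, ⟨5, 2, []⟩], [3, 3, 3], 1, [(9, 1), (12, 1), (129, 1), (132, 1)]⟩,
⟨2, [⟨48, 5, []⟩, ⟨8, 3, []⟩, ⟨128, 5, []⟩], [2, 2], 1, [(152, 1), (168, 1)]⟩,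
⟨2, [⟨65, 4, []⟩, ⟨2, 4, []⟩, ⟨128, 4, []⟩], [7], 1, [(131, 1), (194, 1)]⟩,
⟨0, [⟨17, 2, []⟩, ⟨12, 2, []⟩], [3, 3, 3], 1, [(5, 1), (9, 1), (20, 1), (24, 1)]⟩,
⟨2, [⟨3, 4, []⟩, ⟨48, 4, []⟩, ⟨128, 4, []⟩], [7], 1, [(145, 1), (146, 1), (161, 1), (162, 1)]⟩,
⟨2, [⟨33, 4, []⟩, ⟨64, 4, []⟩, ⟨128, 4, []⟩], [7], 1, [(193, 1), (224, 1)]⟩,
⟨2, [⟨2, 3, []⟩, ⟨12, 5, []⟩, ⟨128, 5, []⟩], [1, 1], 1, [(134, 1), (138, 1)]⟩,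
⟨1, [⟨20, 2, []⟩, ⟨2, 2, []⟩], [3, 3, 3], 1, [(6, 1), (18, 1)]⟩,
⟨2, [⟨4, 4, []⟩, ⟨10, 4, []⟩, ⟨16, 4, []⟩], [7], 1, [(22, 1), (28, 1)]⟩,
⟨1, [⟨9, 2, []⟩, ⟨2, 2, []⟩], [3, 3, 3], 1, [(3, 1), (10, 1)]⟩,
⟨1, [⟨24, 2, []⟩, ⟨64, 2, []⟩], [3, 3, 3], 1, [(72, 1), (80, 1)]⟩,
⟨2, [⟨32, 3, []⟩, ⟨16, 2, []⟩, ⟨2, 3, []⟩, ⟨4, 3, []⟩, ⟨128, 4, []⟩], [3, 3, 18, 12, 12], 2, [(38, 1), (134, 1), (176, 1), (182, 2)]⟩,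
⟨1, [⟨12, 2, []⟩, ⟨129, 2, []⟩], [3, 3, 3], 1, [(5, 1), (9, 1), (132, 1), (136, 1)]⟩,
⟨2, [⟨1, 2, []⟩, ⟨64, 4, []⟩], [3, 1, 1], 1, [(65, 1)]⟩,
⟨0, [⟨9, 2, []⟩, ⟨160, 2, []⟩], [3, 3, 3], 1, [(33, 1), (40, 1), (129, 1), (136, 1)]⟩,
⟨1, [⟨68, 2, []⟩, ⟨144, 2, []⟩], [3, 3, 3], 1, [(20, 1), (80, 1), (132, 1), (192, 1)]⟩,
⟨1, [⟨9, 2, []⟩, ⟨160, 2, []⟩], [3, 3, 3], 1, [(33, 1), (40, 1), (129, 1), (136, 1)]⟩,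
⟨1, [⟨34, 2, []⟩, ⟨16, 2, []⟩], [3, 3, 3], 1, [(18, 1), (48, 1)]⟩,
⟨2, [⟨1, 2, []⟩, ⟨128, 4, []⟩], [3, 1, 1], 1, [(129, 1)]⟩,
⟨2, [⟨4, 4, []⟩, ⟨9, 4, []⟩, ⟨16, 4, []⟩], [7], 1, [(21, 1), (28, 1)]⟩,
⟨2, [⟨17, 4, []⟩, ⟨32, 4, []⟩, ⟨128, 4, []⟩], [7], 1, [(161, 1), (176, 1)]⟩,
⟨2, [⟨5, 4, []⟩, ⟨48, 4, []⟩, ⟨128, 4, []⟩], [7], 1, [(145, 1), (148, 1), (161, 1), (164, 1)]⟩,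
⟨2, [⟨16, 4, []⟩, ⟨66, 4, []⟩, ⟨4, 4, []⟩], [7], 1, [(22, 1), (84, 1)]⟩,
⟨2, [⟨34, 5, []⟩, ⟨144, 5, []⟩, ⟨8, 3, []⟩], [4, 4], 1, [(26, 1), (56, 1), (138, 1), (168, 1)]⟩,
⟨1, [⟨17, 2, []⟩, ⟨96, 2, []⟩], [3, 3, 3], 1, [(33, 1), (48, 1), (65, 1), (80, 1)]⟩,
⟨2, [⟨0, 0, [(48, 2)]⟩, ⟨128, 4, []⟩], [3, 1, 1], 1, [(176, 1)]⟩,
⟨1, [⟨34, 2, []⟩, ⟨4, 2, []⟩], [3, 3, 3], 1, [(6, 1), (36, 1)]⟩,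
⟨0, [⟨66, 2, []⟩, ⟨129, 2, []⟩], [3, 3, 3], 1, [(3, 1), (65, 1), (130, 1), (192, 1)]⟩,
⟨1, [⟨2, 2, []⟩, ⟨8, 2, []⟩], [3, 3, 3], 1, [(10, 1)]⟩,
⟨2, [⟨68, 4, []⟩, ⟨2, 4, []⟩, ⟨128, 4, []⟩], [7], 1, [(134, 1), (194, 1)]⟩,
⟨2, [⟨4, 3, []⟩, ⟨16, 3, []⟩], [3, 3], 1, [(20, 1)]⟩,
⟨2, [⟨20, 4, []⟩, ⟨32, 4, []⟩, ⟨128, 4, []⟩], [7], 1, [(164, 1), (176, 1)]⟩,
⟨2, [⟨5, 4, []⟩, ⟨32, 4, []⟩, ⟨128, 4, []⟩], [7], 1, [(161, 1), (164, 1)]⟩,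
⟨2, [⟨10, 5, []⟩, ⟨4, 3, []⟩, ⟨144, 5, []⟩], [2, 2], 1, [(22, 1), (28, 1), (134, 1), (140, 1)]⟩,
⟨2, [⟨16, 3, []⟩, ⟨32, 2, []⟩, ⟨1, 3, []⟩, ⟨2, 3, []⟩, ⟨128, 4, []⟩], [3, 3, 18, 12, 12], 2, [(19, 1), (131, 1), (176, 1), (179, 2)]⟩,
⟨2, [⟨20, 5, []⟩, ⟨2, 3, []⟩, ⟨136, 5, []⟩], [2, 2], 1, [(14, 1), (26, 1), (134, 1), (146, 1)]⟩,
⟨1, [⟨72, 2, []⟩, ⟨129, 2, []⟩], [3, 3, 3], 1, [(9, 1), (65, 1), (136, 1), (192, 1)]⟩,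
⟨2, [⟨5, 5, []⟩, ⟨32, 3, []⟩, ⟨128, 5, []⟩], [2, 2], 1, [(161, 1), (164, 1)]⟩,
⟨1, [⟨36, 2, []⟩, ⟨192, 2, []⟩], [3, 3, 3], 1, [(68, 1), (96, 1), (132, 1), (160, 1)]⟩,
⟨2, [⟨4, 3, []⟩, ⟨128, 3, []⟩], [3, 3], 1, [(132, 1)]⟩,
⟨1, [⟨33, 2, []⟩, ⟨20, 2, []⟩], [3, 3, 3], 1, [(5, 1), (17, 1), (36, 1), (48, 1)]⟩,
⟨2, [⟨9, 4, []⟩, ⟨16, 4, []⟩, ⟨128, 4, []⟩], [7], 1, [(145, 1), (152, 1)]⟩,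
⟨2, [⟨0, 0, [(10, 3)]⟩, ⟨128, 3, []⟩], [3, 3], 1, [(138, 1)]⟩,
⟨2, [⟨20, 4, []⟩, ⟨96, 4, []⟩, ⟨128, 4, []⟩], [7], 1, [(164, 1), (176, 1), (196, 1), (208, 1)]⟩,
⟨2, [⟨20, 5, []⟩, ⟨129, 5, []⟩, ⟨2, 3, []⟩], [4, 4], 1, [(7, 1), (19, 1), (134, 1), (146, 1)]⟩,
⟨2, [⟨20, 4, []⟩, ⟨66, 4, []⟩, ⟨128, 4, []⟩], [7], 1, [(134, 1), (146, 1), (196, 1), (208, 1)]⟩,
⟨0, [⟨36, 2, []⟩, ⟨144, 2, []⟩], [3, 3, 3], 1, [(20, 1), (48, 1), (132, 1), (160, 1)]⟩,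
⟨2, [⟨0, 0, [(5, 2)]⟩, ⟨2, 4, []⟩], [3, 1, 1], 1, [(7, 1)]⟩,
⟨0, [⟨160, 2, []⟩, ⟨3, 2, []⟩], [3, 3, 3], 1, [(33, 1), (34, 1), (129, 1), (130, 1)]⟩,
⟨2, [⟨0, 0, [(24, 2)]⟩, ⟨128, 4, []⟩], [3, 1, 1], 1, [(152, 1)]⟩,
⟨0, [⟨1, 2, []⟩, ⟨2, 2, []⟩], [3, 3, 3], 1, [(3, 1)]⟩,
⟨2, [⟨16, 3, []⟩, ⟨0, 0, [(136, 3)]⟩], [3, 3], 1, [(152, 1)]⟩,
⟨2, [⟨1, 3, []⟩, ⟨32, 3, []⟩], [3, 3], 1, [(33, 1)]⟩,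
⟨0, [⟨10, 2, []⟩, ⟨160, 2, []⟩], [3, 3, 3], 1, [(34, 1), (40, 1), (130, 1), (136, 1)]⟩,
⟨1, [⟨66, 2, []⟩, ⟨136, 2, []⟩], [3, 3, 3], 1, [(10, 1), (72, 1), (130, 1), (192, 1)]⟩,
⟨2, [⟨16, 2, []⟩, ⟨32, 2, []⟩, ⟨1, 3, []⟩, ⟨2, 3, []⟩, ⟨128, 5, []⟩], [3, 3, 3, 12, 12], 2, [(131, 1), (176, 1), (179, 2)]⟩,
⟨2, [⟨32, 3, []⟩, ⟨0, 0, [(144, 3)]⟩], [3, 3], 1, [(176, 1)]⟩,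
⟨2, [⟨4, 3, []⟩, ⟨1, 2, []⟩, ⟨16, 3, []⟩, ⟨32, 3, []⟩, ⟨128, 4, []⟩], [3, 3, 18, 12, 12], 2, [(52, 1), (133, 1), (176, 1), (181, 2)]⟩,
⟨2, [⟨16, 3, []⟩, ⟨8, 2, []⟩, ⟨2, 3, []⟩, ⟨4, 3, []⟩, ⟨128, 4, []⟩], [3, 3, 18, 12, 12], 2, [(22, 1), (134, 1), (152, 1), (158, 2)]⟩,
⟨2, [⟨68, 4, []⟩, ⟨1, 2, []⟩], [3, 2, 2], 1, [(5, 1), (65, 1)]⟩,
⟨2, [⟨3, 5, []⟩, ⟨32, 3, []⟩, ⟨128, 5, []⟩], [2, 2], 1, [(161, 1), (162, 1)]⟩,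
⟨2, [⟨18, 4, []⟩, ⟨12, 4, []⟩, ⟨128, 4, []⟩], [7], 1, [(134, 1), (138, 1), (148, 1), (152, 1)]⟩,
⟨2, [⟨2, 3, []⟩, ⟨4, 2, []⟩, ⟨8, 3, []⟩, ⟨32, 3, []⟩, ⟨128, 4, []⟩], [3, 3, 18, 12, 12], 2, [(42, 1), (134, 1), (168, 1), (174, 2)]⟩,
⟨1, [⟨18, 2, []⟩, ⟨4, 2, []⟩], [3, 3, 3], 1, [(6, 1), (20, 1)]⟩,
⟨1, [⟨66, 2, []⟩, ⟨132, 2, []⟩], [3, 3, 3], 1, [(6, 1), (68, 1), (130, 1), (192, 1)]⟩,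
⟨1, [⟨24, 2, []⟩, ⟨2, 2, []⟩], [3, 3, 3], 1, [(10, 1), (18, 1)]⟩,
⟨2, [⟨33, 4, []⟩, ⟨4, 4, []⟩, ⟨128, 4, []⟩], [7], 1, [(133, 1), (164, 1)]⟩,
⟨1, [⟨36, 2, []⟩, ⟨16, 2, []⟩], [3, 3, 3], 1, [(20, 1), (48, 1)]⟩,
⟨0, [⟨9, 2, []⟩, ⟨66, 2, []⟩], [3, 3, 3], 1, [(3, 1), (10, 1), (65, 1), (72, 1)]⟩,
⟨2, [⟨16, 2, []⟩, ⟨32, 2, []⟩, ⟨1, 3, []⟩, ⟨4, 3, []⟩, ⟨128, 5, []⟩], [3, 3, 3, 12, 12], 2, [(133, 1), (176, 1), (181, 2)]⟩,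
⟨2, [⟨18, 4, []⟩, ⟨4, 4, []⟩, ⟨128, 4, []⟩], [7], 1, [(134, 1), (148, 1)]⟩,
⟨2, [⟨65, 4, []⟩, ⟨4, 4, []⟩, ⟨128, 4, []⟩], [7], 1, [(133, 1), (196, 1)]⟩,
⟨2, [⟨36, 4, []⟩, ⟨2, 4, []⟩, ⟨128, 4, []⟩], [7], 1, [(134, 1), (162, 1)]⟩,
⟨1, [⟨80, 2, []⟩, ⟨3, 2, []⟩], [3, 3, 3], 1, [(17, 1), (18, 1), (65, 1), (66, 1)]⟩,
⟨2, [⟨8, 3, []⟩, ⟨16, 3, []⟩], [3, 3], 1, [(24, 1)]⟩,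
⟨1, [⟨130, 2, []⟩, ⟨48, 2, []⟩], [3, 3, 3], 1, [(18, 1), (34, 1), (144, 1), (160, 1)]⟩,
⟨0, [⟨3, 2, []⟩, ⟨24, 2, []⟩], [3, 3, 3], 1, [(9, 1), (10, 1), (17, 1), (18, 1)]⟩,
⟨1, [⟨10, 2, []⟩, ⟨144, 2, []⟩], [3, 3, 3], 1, [(18, 1), (24, 1), (130, 1), (136, 1)]⟩,
⟨2, [⟨2, 3, []⟩, ⟨16, 3, []⟩], [3, 3], 1, [(18, 1)]⟩,
⟨2, [⟨2, 3, []⟩, ⟨4, 2, []⟩, ⟨16, 3, []⟩, ⟨32, 3, []⟩, ⟨128, 4, []⟩], [3, 3, 6, 12, 24], 2, [(22, 1), (134, 1), (162, 1), (176, 1), (182, 2)]⟩,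
⟨0, [⟨34, 2, []⟩, ⟨64, 2, []⟩], [3, 3, 3], 1, [(66, 1), (96, 1)]⟩,
⟨2, [⟨9, 4, []⟩, ⟨64, 4, []⟩, ⟨128, 4, []⟩], [7], 1, [(193, 1), (200, 1)]⟩,
⟨0, [⟨96, 2, []⟩, ⟨129, 2, []⟩], [3, 3, 3], 1, [(33, 1), (65, 1), (160, 1), (192, 1)]⟩,
⟨2, [⟨2, 2, []⟩, ⟨64, 4, []⟩], [3, 1, 1], 1, [(66, 1)]⟩,
⟨0, [⟨96, 2, []⟩, ⟨24, 2, []⟩], [3, 3, 3], 1, [(40, 1), (48, 1), (72, 1), (80, 1)]⟩,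
⟨2, [⟨65, 2, []⟩, ⟨128, 4, []⟩], [3, 1, 1], 1, [(129, 1), (192, 1)]⟩,
⟨2, [⟨1, 4, []⟩, ⟨2, 4, []⟩, ⟨128, 4, []⟩], [7], 1, [(131, 1)]⟩,
⟨1, [⟨4, 2, []⟩, ⟨64, 4, []⟩], [3, 1, 1], 1, [(68, 1)]⟩,
⟨2, [⟨4, 2, []⟩, ⟨128, 4, []⟩], [3, 1, 1], 1, [(132, 1)]⟩,
⟨2, [⟨8, 2, []⟩, ⟨16, 2, []⟩, ⟨4, 3, []⟩, ⟨64, 4, []⟩, ⟨128, 4, []⟩], [3, 3, 3, 12, 20], 2, [(88, 1), (152, 1), (196, 1), (220, 2)]⟩,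
⟨1, [⟨17, 2, []⟩, ⟨4, 2, []⟩], [3, 3, 3], 1, [(5, 1), (20, 1)]⟩,
⟨0, [⟨132, 2, []⟩, ⟨24, 2, []⟩], [3, 3, 3], 1, [(12, 1), (20, 1), (136, 1), (144, 1)]⟩,
⟨1, [⟨4, 3, []⟩, ⟨64, 3, []⟩], [3, 3], 1, [(68, 1)]⟩,
⟨2, [⟨12, 4, []⟩, ⟨2, 4, []⟩, ⟨128, 4, []⟩], [7], 1, [(134, 1), (138, 1)]⟩,
⟨2, [⟨3, 5, []⟩, ⟨4, 3, []⟩, ⟨128, 5, []⟩], [2, 2], 1, [(133, 1), (134, 1)]⟩,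
⟨2, [⟨64, 3, []⟩, ⟨128, 3, []⟩], [3, 3], 1, [(192, 1)]⟩,
⟨1, [⟨10, 2, []⟩, ⟨68, 2, []⟩], [3, 3, 3], 1, [(6, 1), (12, 1), (66, 1), (72, 1)]⟩,
⟨1, [⟨36, 2, []⟩, ⟨144, 2, []⟩], [3, 3, 3], 1, [(20, 1), (48, 1), (132, 1), (160, 1)]⟩,
⟨1, [⟨20, 2, []⟩, ⟨160, 2, []⟩], [3, 3, 3], 1, [(36, 1), (48, 1), (132, 1), (144, 1)]⟩,
⟨2, [⟨8, 3, []⟩, ⟨34, 5, []⟩, ⟨128, 5, []⟩], [1, 1], 1, [(138, 1), (168, 1)]⟩,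
⟨1, [⟨2, 2, []⟩, ⟨16, 2, []⟩], [3, 3, 3], 1, [(18, 1)]⟩,
⟨0, [⟨65, 2, []⟩, ⟨144, 2, []⟩], [3, 3, 3], 1, [(17, 1), (80, 1), (129, 1), (192, 1)]⟩,
⟨2, [⟨2, 4, []⟩, ⟨32, 4, []⟩, ⟨128, 4, []⟩], [7], 1, [(162, 1)]⟩,
⟨2, [⟨0, 0, [(5, 2)]⟩, ⟨128, 4, []⟩], [3, 1, 1], 1, [(133, 1)]⟩,
⟨0, [⟨72, 2, []⟩, ⟨129, 2, []⟩], [3, 3, 3], 1, [(9, 1), (65, 1), (136, 1), (192, 1)]⟩,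
⟨2, [⟨34, 4, []⟩, ⟨12, 4, []⟩, ⟨128, 4, []⟩], [7], 1, [(134, 1), (138, 1), (164, 1), (168, 1)]⟩,
⟨1, [⟨80, 2, []⟩, ⟨40, 2, []⟩], [3, 3, 3], 1, [(24, 1), (48, 1), (72, 1), (96, 1)]⟩,
⟨0, [⟨33, 2, []⟩, ⟨136, 2, []⟩], [3, 3, 3], 1, [(9, 1), (40, 1), (129, 1), (160, 1)]⟩,
⟨0, [⟨12, 2, []⟩, ⟨130, 2, []⟩], [3, 3, 3], 1, [(6, 1), (10, 1), (132, 1), (136, 1)]⟩,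
⟨0, [⟨10, 2, []⟩, ⟨1, 2, []⟩], [3, 3, 3], 1, [(3, 1), (9, 1)]⟩,
⟨2, [⟨9, 2, []⟩, ⟨128, 4, []⟩], [3, 1, 1], 1, [(129, 1), (136, 1)]⟩,
⟨2, [⟨16, 3, []⟩, ⟨8, 2, []⟩, ⟨1, 3, []⟩, ⟨2, 3, []⟩, ⟨128, 4, []⟩], [3, 3, 6, 12, 24], 2, [(25, 1), (131, 1), (146, 1), (152, 1), (155, 2)]⟩,
⟨1, [⟨66, 2, []⟩, ⟨129, 2, []⟩], [3, 3, 3], 1, [(3, 1), (65, 1), (130, 1), (192, 1)]⟩,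
⟨0, [⟨6, 2, []⟩, ⟨1, 2, []⟩], [3, 3, 3], 1, [(3, 1), (5, 1)]⟩,
⟨1, [⟨24, 2, []⟩, ⟨192, 2, []⟩], [3, 3, 3], 1, [(72, 1), (80, 1), (136, 1), (144, 1)]⟩,
⟨2, [⟨36, 4, []⟩, ⟨64, 4, []⟩, ⟨128, 4, []⟩], [7], 1, [(196, 1), (224, 1)]⟩,
⟨0, [⟨5, 2, []⟩, ⟨64, 2, []⟩], [3, 3, 3], 1, [(65, 1), (68, 1)]⟩,
⟨0, [⟨2, 2, []⟩, ⟨4, 2, []⟩], [3, 3, 3], 1, [(6, 1)]⟩,
⟨0, [⟨1, 2, []⟩, ⟨16, 2, []⟩], [3, 3, 3], 1, [(17, 1)]⟩,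
⟨2, [⟨24, 2, []⟩, ⟨128, 4, []⟩], [3, 1, 1], 1, [(136, 1), (144, 1)]⟩,
⟨1, [⟨96, 2, []⟩, ⟨132, 2, []⟩], [3, 3, 3], 1, [(36, 1), (68, 1), (160, 1), (192, 1)]⟩,
⟨2, [⟨48, 4, []⟩, ⟨4, 4, []⟩, ⟨128, 4, []⟩], [7], 1, [(148, 1), (164, 1)]⟩,
⟨2, [⟨4, 3, []⟩, ⟨34, 5, []⟩, ⟨128, 5, []⟩], [1, 1], 1, [(134, 1), (164, 1)]⟩,
⟨1, [⟨18, 2, []⟩, ⟨72, 2, []⟩], [3, 3, 3], 1, [(10, 1), (24, 1), (66, 1), (80, 1)]⟩,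
⟨1, [⟨33, 2, []⟩, ⟨132, 2, []⟩], [3, 3, 3], 1, [(5, 1), (36, 1), (129, 1), (160, 1)]⟩,
⟨2, [⟨32, 3, []⟩, ⟨8, 2, []⟩, ⟨1, 3, []⟩, ⟨2, 3, []⟩, ⟨128, 4, []⟩], [3, 3, 18, 12, 12], 2, [(35, 1), (131, 1), (168, 1), (171, 2)]⟩,
⟨2, [⟨2, 4, []⟩, ⟨4, 4, []⟩, ⟨128, 4, []⟩], [7], 1, [(134, 1)]⟩,
⟨2, [⟨32, 3, []⟩, ⟨8, 2, []⟩, ⟨1, 3, []⟩, ⟨2, 3, []⟩, ⟨128, 4, []⟩], [3, 3, 6, 12, 24], 2, [(41, 1), (131, 1), (162, 1), (168, 1), (171, 2)]⟩,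
⟨1, [⟨40, 2, []⟩, ⟨2, 2, []⟩], [3, 3, 3], 1, [(10, 1), (34, 1)]⟩,
⟨1, [⟨17, 2, []⟩, ⟨64, 2, []⟩], [3, 3, 3], 1, [(65, 1), (80, 1)]⟩,
⟨2, [⟨66, 2, []⟩, ⟨128, 4, []⟩], [3, 1, 1], 1, [(130, 1), (192, 1)]⟩,
⟨2, [⟨36, 2, []⟩, ⟨128, 4, []⟩], [3, 1, 1], 1, [(132, 1), (160, 1)]⟩,
⟨2, [⟨2, 3, []⟩, ⟨1, 2, []⟩, ⟨8, 3, []⟩, ⟨16, 3, []⟩, ⟨128, 4, []⟩], [3, 3, 6, 12, 24], 2, [(11, 1), (131, 1), (146, 1), (152, 1), (155, 2)]⟩,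
⟨1, [⟨12, 2, []⟩, ⟨66, 2, []⟩], [3, 3, 3], 1, [(6, 1), (10, 1), (68, 1), (72, 1)]⟩,
⟨1, [⟨34, 2, []⟩, ⟨72, 2, []⟩], [3, 3, 3], 1, [(10, 1), (40, 1), (66, 1), (96, 1)]⟩,
⟨2, [⟨5, 5, []⟩, ⟨64, 3, []⟩, ⟨128, 5, []⟩], [2, 2], 1, [(193, 1), (196, 1)]⟩,
⟨2, [⟨33, 4, []⟩, ⟨20, 4, []⟩, ⟨128, 4, []⟩], [7], 1, [(133, 1), (145, 1), (164, 1), (176, 1)]⟩,
⟨2, [⟨5, 4, []⟩, ⟨16, 4, []⟩, ⟨128, 4, []⟩], [7], 1, [(145, 1), (148, 1)]⟩,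
⟨0, [⟨2, 2, []⟩, ⟨8, 2, []⟩], [3, 3, 3], 1, [(10, 1)]⟩,
⟨2, [⟨18, 5, []⟩, ⟨8, 3, []⟩, ⟨5, 5, []⟩], [2, 2], 1, [(11, 1), (14, 1), (25, 1), (28, 1)]⟩,
⟨2, [⟨1, 3, []⟩, ⟨4, 3, []⟩, ⟨16, 3, []⟩, ⟨32, 3, []⟩, ⟨128, 4, []⟩], [3, 3, 12, 12, 16], 2, [(53, 1), (133, 1), (176, 1), (181, 2)]⟩,
⟨2, [⟨2, 3, []⟩, ⟨0, 0, [(192, 3)]⟩], [3, 3], 1, [(194, 1)]⟩,
⟨2, [⟨1, 2, []⟩, ⟨2, 2, []⟩, ⟨8, 3, []⟩, ⟨32, 3, []⟩, ⟨128, 5, []⟩], [3, 3, 3, 12, 12], 2, [(131, 1), (168, 1), (171, 2)]⟩,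
⟨1, [⟨80, 2, []⟩, ⟨160, 2, []⟩], [3, 3, 3], 1, [(48, 1), (96, 1), (144, 1), (192, 1)]⟩,
⟨2, [⟨3, 4, []⟩, ⟨32, 4, []⟩, ⟨128, 4, []⟩], [7], 1, [(161, 1), (162, 1)]⟩,
⟨2, [⟨34, 5, []⟩, ⟨16, 3, []⟩, ⟨129, 5, []⟩], [2, 2], 1, [(19, 1), (49, 1), (146, 1), (176, 1)]⟩,
⟨2, [⟨0, 0, [(17, 3)]⟩, ⟨2, 3, []⟩], [3, 3], 1, [(19, 1)]⟩,
⟨2, [⟨36, 4, []⟩, ⟨66, 4, []⟩, ⟨128, 4, []⟩], [7], 1, [(134, 1), (162, 1), (196, 1), (224, 1)]⟩,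
⟨1, [⟨1, 2, []⟩, ⟨2, 2, []⟩], [3, 3, 3], 1, [(3, 1)]⟩,
⟨1, [⟨4, 2, []⟩, ⟨16, 2, []⟩], [3, 3, 3], 1, [(20, 1)]⟩,
⟨2, [⟨36, 5, []⟩, ⟨64, 3, []⟩, ⟨128, 5, []⟩], [2, 2], 1, [(196, 1), (224, 1)]⟩,
⟨2, [⟨1, 3, []⟩, ⟨2, 3, []⟩, ⟨8, 3, []⟩, ⟨32, 3, []⟩, ⟨128, 4, []⟩], [3, 3, 12, 12, 16], 2, [(43, 1), (131, 1), (168, 1), (171, 2)]⟩,
⟨0, [⟨18, 2, []⟩, ⟨64, 2, []⟩], [3, 3, 3], 1, [(66, 1), (80, 1)]⟩,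
⟨2, [⟨0, 0, [(40, 2)]⟩, ⟨16, 4, []⟩], [3, 1, 1], 1, [(56, 1)]⟩,
⟨2, [⟨18, 5, []⟩, ⟨4, 3, []⟩, ⟨40, 5, []⟩], [2, 2], 1, [(14, 1), (28, 1), (38, 1), (52, 1)]⟩,
⟨1, [⟨3, 2, []⟩, ⟨40, 2, []⟩], [3, 3, 3], 1, [(9, 1), (10, 1), (33, 1), (34, 1)]⟩,
⟨1, [⟨4, 2, []⟩, ⟨32, 2, []⟩], [3, 3, 3], 1, [(36, 1)]⟩,
⟨2, [⟨2, 2, []⟩, ⟨4, 2, []⟩, ⟨16, 3, []⟩, ⟨32, 3, []⟩, ⟨128, 5, []⟩], [3, 3, 3, 12, 12], 2, [(134, 1), (176, 1), (182, 2)]⟩,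
⟨0, [⟨68, 2, []⟩, ⟨3, 2, []⟩], [3, 3, 3], 1, [(5, 1), (6, 1), (65, 1), (66, 1)]⟩,
⟨2, [⟨17, 4, []⟩, ⟨34, 4, []⟩, ⟨128, 4, []⟩], [7], 1, [(131, 1), (146, 1), (161, 1), (176, 1)]⟩,
⟨0, [⟨9, 2, []⟩, ⟨132, 2, []⟩], [3, 3, 3], 1, [(5, 1), (12, 1), (129, 1), (136, 1)]⟩,
⟨1, [⟨65, 2, []⟩, ⟨48, 2, []⟩], [3, 3, 3], 1, [(17, 1), (33, 1), (80, 1), (96, 1)]⟩,
⟨1, [⟨66, 2, []⟩, ⟨160, 2, []⟩], [3, 3, 3], 1, [(34, 1), (96, 1), (130, 1), (192, 1)]⟩,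
⟨2, [⟨4, 3, []⟩, ⟨64, 5, []⟩, ⟨128, 5, []⟩], [1, 1], 1, [(196, 1)]⟩,
⟨1, [⟨40, 2, []⟩, ⟨64, 2, []⟩], [3, 3, 3], 1, [(72, 1), (96, 1)]⟩,
⟨0, [⟨68, 2, []⟩, ⟨130, 2, []⟩], [3, 3, 3], 1, [(6, 1), (66, 1), (132, 1), (192, 1)]⟩,
⟨1, [⟨65, 2, []⟩, ⟨132, 2, []⟩], [3, 3, 3], 1, [(5, 1), (68, 1), (129, 1), (192, 1)]⟩,
⟨2, [⟨0, 0, [(6, 2)]⟩, ⟨128, 4, []⟩], [3, 1, 1], 1, [(134, 1)]⟩,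
⟨1, [⟨34, 2, []⟩, ⟨64, 2, []⟩], [3, 3, 3], 1, [(66, 1), (96, 1)]⟩,
⟨1, [⟨68, 2, []⟩, ⟨3, 2, []⟩], [3, 3, 3], 1, [(5, 1), (6, 1), (65, 1), (66, 1)]⟩,
⟨1, [⟨9, 2, []⟩, ⟨16, 2, []⟩], [3, 3, 3], 1, [(17, 1), (24, 1)]⟩,
⟨2, [⟨6, 5, []⟩, ⟨32, 3, []⟩, ⟨128, 5, []⟩], [2, 2], 1, [(162, 1), (164, 1)]⟩,
⟨1, [⟨16, 2, []⟩, ⟨64, 4, []⟩], [3, 1, 1], 1, [(80, 1)]⟩,
⟨0, [⟨130, 2, []⟩, ⟨5, 2, []⟩], [3, 3, 3], 1, [(3, 1), (6, 1), (129, 1), (132, 1)]⟩,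
⟨2, [⟨2, 2, []⟩, ⟨4, 2, []⟩, ⟨32, 3, []⟩, ⟨64, 4, []⟩, ⟨128, 4, []⟩], [3, 3, 3, 12, 20], 2, [(70, 1), (134, 1), (224, 1), (230, 2)]⟩,
⟨2, [⟨20, 4, []⟩, ⟨64, 4, []⟩, ⟨128, 4, []⟩], [7], 1, [(196, 1), (208, 1)]⟩,
⟨0, [⟨12, 2, []⟩, ⟨64, 2, []⟩], [3, 3, 3], 1, [(68, 1), (72, 1)]⟩,
⟨0, [⟨18, 2, []⟩, ⟨1, 2, []⟩], [3, 3, 3], 1, [(3, 1), (17, 1)]⟩,
⟨0, [⟨36, 2, []⟩, ⟨130, 2, []⟩], [3, 3, 3], 1, [(6, 1), (34, 1), (132, 1), (160, 1)]⟩,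
⟨0, [⟨33, 2, []⟩, ⟨72, 2, []⟩], [3, 3, 3], 1, [(9, 1), (40, 1), (65, 1), (96, 1)]⟩,
⟨2, [⟨34, 5, []⟩, ⟨4, 3, []⟩, ⟨24, 5, []⟩], [2, 2], 1, [(14, 1), (22, 1), (44, 1), (52, 1)]⟩,
⟨1, [⟨80, 2, []⟩, ⟨6, 2, []⟩], [3, 3, 3], 1, [(18, 1), (20, 1), (66, 1), (68, 1)]⟩,
⟨1, [⟨10, 2, []⟩, ⟨160, 2, []⟩], [3, 3, 3], 1, [(34, 1), (40, 1), (130, 1), (136, 1)]⟩,
⟨0, [⟨160, 2, []⟩, ⟨24, 2, []⟩], [3, 3, 3], 1, [(40, 1), (48, 1), (136, 1), (144, 1)]⟩,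
⟨2, [⟨32, 3, []⟩, ⟨16, 2, []⟩, ⟨2, 3, []⟩, ⟨4, 3, []⟩, ⟨128, 4, []⟩], [3, 3, 6, 12, 24], 2, [(50, 1), (134, 1), (164, 1), (176, 1), (182, 2)]⟩,
⟨2, [⟨34, 4, []⟩, ⟨16, 4, []⟩, ⟨128, 4, []⟩], [7], 1, [(146, 1), (176, 1)]⟩,
⟨2, [⟨12, 4, []⟩, ⟨16, 4, []⟩, ⟨128, 4, []⟩], [7], 1, [(148, 1), (152, 1)]⟩,
⟨0, [⟨33, 2, []⟩, ⟨64, 2, []⟩], [3, 3, 3], 1, [(65, 1), (96, 1)]⟩,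
⟨2, [⟨2, 2, []⟩, ⟨4, 2, []⟩, ⟨8, 3, []⟩, ⟨32, 3, []⟩, ⟨128, 5, []⟩], [3, 3, 3, 12, 12], 2, [(134, 1), (168, 1), (174, 2)]⟩,
⟨1, [⟨20, 2, []⟩, ⟨72, 2, []⟩], [3, 3, 3], 1, [(12, 1), (24, 1), (68, 1), (80, 1)]⟩,
⟨1, [⟨36, 2, []⟩, ⟨72, 2, []⟩], [3, 3, 3], 1, [(12, 1), (40, 1), (68, 1), (96, 1)]⟩,
⟨1, [⟨17, 2, []⟩, ⟨130, 2, []⟩], [3, 3, 3], 1, [(3, 1), (18, 1), (129, 1), (144, 1)]⟩,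
⟨0, [⟨17, 2, []⟩, ⟨64, 2, []⟩], [3, 3, 3], 1, [(65, 1), (80, 1)]⟩,
⟨1, [⟨24, 2, []⟩, ⟨32, 2, []⟩], [3, 3, 3], 1, [(40, 1), (48, 1)]⟩,
⟨0, [⟨80, 2, []⟩, ⟨136, 2, []⟩], [3, 3, 3], 1, [(24, 1), (72, 1), (144, 1), (192, 1)]⟩,
⟨1, [⟨10, 2, []⟩, ⟨4, 2, []⟩], [3, 3, 3], 1, [(6, 1), (12, 1)]⟩,
⟨2, [⟨4, 3, []⟩, ⟨1, 2, []⟩, ⟨8, 3, []⟩, ⟨32, 3, []⟩, ⟨128, 4, []⟩], [3, 3, 6, 12, 24], 2, [(13, 1), (133, 1), (164, 1), (168, 1), (173, 2)]⟩,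
⟨2, [⟨9, 4, []⟩, ⟨18, 4, []⟩, ⟨128, 4, []⟩], [7], 1, [(131, 1), (138, 1), (145, 1), (152, 1)]⟩,
⟨2, [⟨40, 4, []⟩, ⟨2, 4, []⟩, ⟨128, 4, []⟩], [7], 1, [(138, 1), (162, 1)]⟩,
⟨0, [⟨17, 2, []⟩, ⟨136, 2, []⟩], [3, 3, 3], 1, [(9, 1), (24, 1), (129, 1), (144, 1)]⟩,
⟨2, [⟨1, 2, []⟩, ⟨4, 2, []⟩, ⟨8, 3, []⟩, ⟨32, 3, []⟩, ⟨128, 5, []⟩], [3, 3, 3, 12, 12], 2, [(133, 1), (168, 1), (173, 2)]⟩,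
⟨0, [⟨65, 2, []⟩, ⟨160, 2, []⟩], [3, 3, 3], 1, [(33, 1), (96, 1), (129, 1), (192, 1)]⟩,
⟨1, [⟨5, 2, []⟩, ⟨40, 2, []⟩], [3, 3, 3], 1, [(9, 1), (12, 1), (33, 1), (36, 1)]⟩,
⟨0, [⟨10, 2, []⟩, ⟨20, 2, []⟩], [3, 3, 3], 1, [(6, 1), (12, 1), (18, 1), (24, 1)]⟩,
⟨1, [⟨5, 2, []⟩, ⟨32, 2, []⟩], [3, 3, 3], 1, [(33, 1), (36, 1)]⟩,
⟨1, [⟨96, 2, []⟩, ⟨6, 2, []⟩], [3, 3, 3], 1, [(34, 1), (36, 1), (66, 1), (68, 1)]⟩,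
⟨1, [⟨33, 2, []⟩, ⟨8, 2, []⟩], [3, 3, 3], 1, [(9, 1), (40, 1)]⟩,
⟨2, [⟨20, 5, []⟩, ⟨64, 3, []⟩, ⟨128, 5, []⟩], [2, 2], 1, [(196, 1), (208, 1)]⟩,
⟨1, [⟨3, 2, []⟩, ⟨8, 2, []⟩], [3, 3, 3], 1, [(9, 1), (10, 1)]⟩,
⟨1, [⟨10, 2, []⟩, ⟨65, 2, []⟩], [3, 3, 3], 1, [(3, 1), (9, 1), (66, 1), (72, 1)]⟩,
⟨1, [⟨16, 3, []⟩, ⟨64, 3, []⟩], [3, 3], 1, [(80, 1)]⟩,
⟨2, [⟨2, 3, []⟩, ⟨0, 0, [(129, 3)]⟩], [3, 3], 1, [(131, 1)]⟩,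
⟨0, [⟨9, 2, []⟩, ⟨130, 2, []⟩], [3, 3, 3], 1, [(3, 1), (10, 1), (129, 1), (136, 1)]⟩,
⟨2, [⟨40, 4, []⟩, ⟨4, 4, []⟩, ⟨128, 4, []⟩], [7], 1, [(140, 1), (164, 1)]⟩,
⟨2, [⟨6, 4, []⟩, ⟨64, 4, []⟩, ⟨128, 4, []⟩], [7], 1, [(194, 1), (196, 1)]⟩,
⟨2, [⟨6, 5, []⟩, ⟨8, 3, []⟩, ⟨128, 5, []⟩], [2, 2], 1, [(138, 1), (140, 1)]⟩,
⟨0, [⟨72, 2, []⟩, ⟨5, 2, []⟩], [3, 3, 3], 1, [(9, 1), (12, 1), (65, 1), (68, 1)]⟩,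
⟨2, [⟨96, 4, []⟩, ⟨8, 2, []⟩], [3, 2, 2], 1, [(40, 1), (72, 1)]⟩,
⟨2, [⟨10, 4, []⟩, ⟨32, 4, []⟩, ⟨128, 4, []⟩], [7], 1, [(162, 1), (168, 1)]⟩,
⟨1, [⟨5, 2, []⟩, ⟨24, 2, []⟩], [3, 3, 3], 1, [(9, 1), (12, 1), (17, 1), (20, 1)]⟩,
⟨2, [⟨6, 4, []⟩, ⟨40, 4, []⟩, ⟨128, 4, []⟩], [7], 1, [(138, 1), (140, 1), (162, 1), (164, 1)]⟩,
⟨0, [⟨18, 2, []⟩, ⟨8, 2, []⟩], [3, 3, 3], 1, [(10, 1), (24, 1)]⟩,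
⟨2, [⟨4, 4, []⟩, ⟨16, 4, []⟩, ⟨128, 4, []⟩], [7], 1, [(148, 1)]⟩,
⟨2, [⟨12, 4, []⟩, ⟨64, 4, []⟩, ⟨128, 4, []⟩], [7], 1, [(196, 1), (200, 1)]⟩,
⟨2, [⟨16, 2, []⟩, ⟨32, 2, []⟩, ⟨2, 3, []⟩, ⟨4, 3, []⟩, ⟨128, 5, []⟩], [3, 3, 3, 12, 12], 2, [(134, 1), (176, 1), (182, 2)]⟩,
⟨2, [⟨8, 2, []⟩, ⟨128, 4, []⟩], [3, 1, 1], 1, [(136, 1)]⟩,
⟨1, [⟨32, 2, []⟩, ⟨64, 4, []⟩], [3, 1, 1], 1, [(96, 1)]⟩,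
⟨0, [⟨8, 2, []⟩, ⟨32, 2, []⟩], [3, 3, 3], 1, [(40, 1)]⟩,
⟨1, [⟨4, 2, []⟩, ⟨8, 2, []⟩], [3, 3, 3], 1, [(12, 1)]⟩,
⟨2, [⟨2, 3, []⟩, ⟨1, 2, []⟩, ⟨16, 3, []⟩, ⟨32, 3, []⟩, ⟨128, 4, []⟩], [3, 3, 18, 12, 12], 2, [(50, 1), (131, 1), (176, 1), (179, 2)]⟩,
⟨2, [⟨8, 3, []⟩, ⟨0, 0, [(144, 3)]⟩], [3, 3], 1, [(152, 1)]⟩,
⟨2, [⟨16, 3, []⟩, ⟨32, 2, []⟩, ⟨2, 3, []⟩, ⟨4, 3, []⟩, ⟨128, 4, []⟩], [3, 3, 18, 12, 12], 2, [(22, 1), (134, 1), (176, 1), (182, 2)]⟩,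
⟨1, [⟨48, 2, []⟩, ⟨2, 2, []⟩], [3, 3, 3], 1, [(18, 1), (34, 1)]⟩,
⟨1, [⟨12, 2, []⟩, ⟨80, 2, []⟩], [3, 3, 3], 1, [(20, 1), (24, 1), (68, 1), (72, 1)]⟩,
⟨0, [⟨3, 2, []⟩, ⟨64, 2, []⟩], [3, 3, 3], 1, [(65, 1), (66, 1)]⟩,
⟨1, [⟨5, 2, []⟩, ⟨64, 2, []⟩], [3, 3, 3], 1, [(65, 1), (68, 1)]⟩,
⟨2, [⟨8, 3, []⟩, ⟨32, 3, []⟩], [3, 3], 1, [(40, 1)]⟩,
⟨1, [⟨136, 2, []⟩, ⟨6, 2, []⟩], [3, 3, 3], 1, [(10, 1), (12, 1), (130, 1), (132, 1)]⟩,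
⟨1, [⟨96, 2, []⟩, ⟨130, 2, []⟩], [3, 3, 3], 1, [(34, 1), (66, 1), (160, 1), (192, 1)]⟩,
⟨2, [⟨10, 4, []⟩, ⟨20, 4, []⟩, ⟨128, 4, []⟩], [7], 1, [(134, 1), (140, 1), (146, 1), (152, 1)]⟩,
⟨0, [⟨65, 2, []⟩, ⟨6, 2, []⟩], [3, 3, 3], 1, [(3, 1), (5, 1), (66, 1), (68, 1)]⟩,
⟨2, [⟨33, 4, []⟩, ⟨16, 4, []⟩, ⟨128, 4, []⟩], [7], 1, [(145, 1), (176, 1)]⟩,
⟨2, [⟨2, 4, []⟩, ⟨16, 4, []⟩, ⟨128, 4, []⟩], [7], 1, [(146, 1)]⟩,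
⟨2, [⟨4, 3, []⟩, ⟨1, 2, []⟩, ⟨8, 3, []⟩, ⟨16, 3, []⟩, ⟨128, 4, []⟩], [3, 3, 18, 12, 12], 2, [(28, 1), (133, 1), (152, 1), (157, 2)]⟩,
⟨1, [⟨36, 2, []⟩, ⟨65, 2, []⟩], [3, 3, 3], 1, [(5, 1), (33, 1), (68, 1), (96, 1)]⟩,
⟨2, [⟨1, 3, []⟩, ⟨2, 3, []⟩, ⟨8, 3, []⟩, ⟨16, 3, []⟩, ⟨128, 4, []⟩], [3, 3, 12, 12, 16], 2, [(27, 1), (131, 1), (152, 1), (155, 2)]⟩,
⟨2, [⟨0, 0, [(40, 2)]⟩, ⟨128, 4, []⟩], [3, 1, 1], 1, [(168, 1)]⟩,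
⟨1, [⟨5, 2, []⟩, ⟨16, 2, []⟩], [3, 3, 3], 1, [(17, 1), (20, 1)]⟩,
⟨2, [⟨8, 2, []⟩, ⟨32, 2, []⟩, ⟨1, 3, []⟩, ⟨2, 3, []⟩, ⟨128, 5, []⟩], [3, 3, 3, 12, 12], 2, [(131, 1), (168, 1), (171, 2)]⟩,
⟨0, [⟨33, 2, []⟩, ⟨130, 2, []⟩], [3, 3, 3], 1, [(3, 1), (34, 1), (129, 1), (160, 1)]⟩,
⟨2, [⟨130, 5, []⟩, ⟨48, 5, []⟩, ⟨8, 3, []⟩], [4, 4], 1, [(26, 1), (42, 1), (152, 1), (168, 1)]⟩,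
⟨2, [⟨24, 4, []⟩, ⟨4, 4, []⟩, ⟨128, 4, []⟩], [7], 1, [(140, 1), (148, 1)]⟩,
⟨2, [⟨20, 2, []⟩, ⟨128, 4, []⟩], [3, 1, 1], 1, [(132, 1), (144, 1)]⟩,
⟨2, [⟨4, 4, []⟩, ⟨10, 4, []⟩, ⟨32, 4, []⟩], [7], 1, [(38, 1), (44, 1)]⟩,
⟨2, [⟨2, 4, []⟩, ⟨9, 4, []⟩, ⟨32, 4, []⟩], [7], 1, [(35, 1), (42, 1)]⟩,
⟨1, [⟨17, 2, []⟩, ⟨2, 2, []⟩], [3, 3, 3], 1, [(3, 1), (18, 1)]⟩,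
⟨0, [⟨48, 2, []⟩, ⟨8, 2, []⟩], [3, 3, 3], 1, [(24, 1), (40, 1)]⟩,
⟨1, [⟨1, 2, []⟩, ⟨8, 2, []⟩], [3, 3, 3], 1, [(9, 1)]⟩,
⟨1, [⟨10, 2, []⟩, ⟨64, 2, []⟩], [3, 3, 3], 1, [(66, 1), (72, 1)]⟩,
⟨2, [⟨6, 5, []⟩, ⟨1, 3, []⟩, ⟨128, 5, []⟩], [2, 2], 1, [(131, 1), (133, 1)]⟩,
⟨2, [⟨16, 3, []⟩, ⟨32, 2, []⟩, ⟨1, 3, []⟩, ⟨4, 3, []⟩, ⟨128, 4, []⟩], [3, 3, 18, 12, 12], 2, [(21, 1), (133, 1), (176, 1), (181, 2)]⟩,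
⟨1, [⟨66, 2, []⟩, ⟨144, 2, []⟩], [3, 3, 3], 1, [(18, 1), (80, 1), (130, 1), (192, 1)]⟩,
⟨1, [⟨12, 2, []⟩, ⟨16, 2, []⟩], [3, 3, 3], 1, [(20, 1), (24, 1)]⟩,
⟨2, [⟨2, 3, []⟩, ⟨64, 3, []⟩], [3, 3], 1, [(66, 1)]⟩,
⟨0, [⟨9, 2, []⟩, ⟨144, 2, []⟩], [3, 3, 3], 1, [(17, 1), (24, 1), (129, 1), (136, 1)]⟩,
⟨2, [⟨16, 3, []⟩, ⟨32, 2, []⟩, ⟨2, 3, []⟩, ⟨4, 3, []⟩, ⟨128, 4, []⟩], [3, 3, 6, 12, 24], 2, [(50, 1), (134, 1), (148, 1), (176, 1), (182, 2)]⟩,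
⟨2, [⟨2, 3, []⟩, ⟨1, 2, []⟩, ⟨8, 3, []⟩, ⟨32, 3, []⟩, ⟨128, 4, []⟩], [3, 3, 6, 12, 24], 2, [(11, 1), (131, 1), (162, 1), (168, 1), (171, 2)]⟩,
⟨1, [⟨34, 2, []⟩, ⟨68, 2, []⟩], [3, 3, 3], 1, [(6, 1), (36, 1), (66, 1), (96, 1)]⟩,
⟨2, [⟨1, 2, []⟩, ⟨4, 2, []⟩, ⟨8, 3, []⟩, ⟨16, 3, []⟩, ⟨128, 5, []⟩], [3, 3, 3, 12, 12], 2, [(133, 1), (152, 1), (157, 2)]⟩,
⟨1, [⟨72, 2, []⟩, ⟨144, 2, []⟩], [3, 3, 3], 1, [(24, 1), (80, 1), (136, 1), (192, 1)]⟩,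
⟨1, [⟨10, 2, []⟩, ⟨80, 2, []⟩], [3, 3, 3], 1, [(18, 1), (24, 1), (66, 1), (72, 1)]⟩,
⟨2, [⟨1, 2, []⟩, ⟨2, 2, []⟩, ⟨16, 3, []⟩, ⟨32, 3, []⟩, ⟨128, 5, []⟩], [3, 3, 3, 12, 12], 2, [(131, 1), (176, 1), (179, 2)]⟩,
⟨2, [⟨18, 4, []⟩, ⟨32, 4, []⟩, ⟨128, 4, []⟩], [7], 1, [(162, 1), (176, 1)]⟩,
⟨2, [⟨16, 2, []⟩, ⟨128, 4, []⟩], [3, 1, 1], 1, [(144, 1)]⟩,
⟨1, [⟨5, 2, []⟩, ⟨48, 2, []⟩], [3, 3, 3], 1, [(17, 1), (20, 1), (33, 1), (36, 1)]⟩,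
⟨2, [⟨33, 4, []⟩, ⟨2, 4, []⟩, ⟨128, 4, []⟩], [7], 1, [(131, 1), (162, 1)]⟩,
⟨0, [⟨10, 2, []⟩, ⟨129, 2, []⟩], [3, 3, 3], 1, [(3, 1), (9, 1), (130, 1), (136, 1)]⟩,
⟨0, [⟨129, 2, []⟩, ⟨6, 2, []⟩], [3, 3, 3], 1, [(3, 1), (5, 1), (130, 1), (132, 1)]⟩,
⟨1, [⟨68, 2, []⟩, ⟨136, 2, []⟩], [3, 3, 3], 1, [(12, 1), (72, 1), (132, 1), (192, 1)]⟩,
⟨1, [⟨68, 2, []⟩, ⟨129, 2, []⟩], [3, 3, 3], 1, [(5, 1), (65, 1), (132, 1), (192, 1)]⟩,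
⟨0, [⟨40, 2, []⟩, ⟨1, 2, []⟩], [3, 3, 3], 1, [(9, 1), (33, 1)]⟩,
⟨2, [⟨48, 4, []⟩, ⟨2, 4, []⟩, ⟨128, 4, []⟩], [7], 1, [(146, 1), (162, 1)]⟩,
⟨2, [⟨136, 5, []⟩, ⟨3, 5, []⟩, ⟨4, 3, []⟩], [4, 4], 1, [(13, 1), (14, 1), (133, 1), (134, 1)]⟩,
⟨2, [⟨132, 5, []⟩, ⟨40, 5, []⟩, ⟨16, 3, []⟩], [4, 4], 1, [(28, 1), (52, 1), (152, 1), (176, 1)]⟩,
⟨1, [⟨8, 2, []⟩, ⟨16, 2, []⟩], [3, 3, 3], 1, [(24, 1)]⟩,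
⟨0, [⟨33, 2, []⟩, ⟨144, 2, []⟩], [3, 3, 3], 1, [(17, 1), (48, 1), (129, 1), (160, 1)]⟩,
⟨1, [⟨80, 2, []⟩, ⟨130, 2, []⟩], [3, 3, 3], 1, [(18, 1), (66, 1), (144, 1), (192, 1)]⟩,
⟨2, [⟨10, 2, []⟩, ⟨128, 4, []⟩], [3, 1, 1], 1, [(130, 1), (136, 1)]⟩,
⟨1, [⟨129, 2, []⟩, ⟨6, 2, []⟩], [3, 3, 3], 1, [(3, 1), (5, 1), (130, 1), (132, 1)]⟩,
⟨1, [⟨2, 2, []⟩, ⟨4, 2, []⟩], [3, 3, 3], 1, [(6, 1)]⟩,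
⟨1, [⟨5, 2, []⟩, ⟨192, 2, []⟩], [3, 3, 3], 1, [(65, 1), (68, 1), (129, 1), (132, 1)]⟩,
⟨0, [⟨72, 2, []⟩, ⟨3, 2, []⟩], [3, 3, 3], 1, [(9, 1), (10, 1), (65, 1), (66, 1)]⟩,
⟨2, [⟨10, 4, []⟩, ⟨64, 4, []⟩, ⟨128, 4, []⟩], [7], 1, [(194, 1), (200, 1)]⟩,
⟨2, [⟨2, 3, []⟩, ⟨128, 3, []⟩], [3, 3], 1, [(130, 1)]⟩,
⟨2, [⟨16, 3, []⟩, ⟨8, 2, []⟩, ⟨1, 3, []⟩, ⟨4, 3, []⟩, ⟨128, 4, []⟩], [3, 3, 18, 12, 12], 2, [(21, 1), (133, 1), (152, 1), (157, 2)]⟩,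
⟨1, [⟨65, 2, []⟩, ⟨130, 2, []⟩], [3, 3, 3], 1, [(3, 1), (66, 1), (129, 1), (192, 1)]⟩,
⟨2, [⟨66, 4, []⟩, ⟨4, 4, []⟩, ⟨128, 4, []⟩], [7], 1, [(134, 1), (196, 1)]⟩,
⟨2, [⟨2, 3, []⟩, ⟨4, 3, []⟩], [3, 3], 1, [(6, 1)]⟩,
⟨1, [⟨34, 2, []⟩, ⟨1, 2, []⟩], [3, 3, 3], 1, [(3, 1), (33, 1)]⟩,
⟨2, [⟨6, 4, []⟩, ⟨32, 4, []⟩, ⟨128, 4, []⟩], [7], 1, [(162, 1), (164, 1)]⟩,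
⟨1, [⟨17, 2, []⟩, ⟨8, 2, []⟩], [3, 3, 3], 1, [(9, 1), (24, 1)]⟩,
⟨2, [⟨32, 2, []⟩, ⟨128, 4, []⟩], [3, 1, 1], 1, [(160, 1)]⟩,
⟨1, [⟨96, 2, []⟩, ⟨136, 2, []⟩], [3, 3, 3], 1, [(40, 1), (72, 1), (160, 1), (192, 1)]⟩,
⟨2, [⟨8, 2, []⟩, ⟨32, 2, []⟩, ⟨1, 3, []⟩, ⟨4, 3, []⟩, ⟨128, 5, []⟩], [3, 3, 3, 12, 12], 2, [(133, 1), (168, 1), (173, 2)]⟩,
⟨2, [⟨32, 3, []⟩, ⟨64, 3, []⟩], [3, 3], 1, [(96, 1)]⟩,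
⟨1, [⟨20, 2, []⟩, ⟨192, 2, []⟩], [3, 3, 3], 1, [(68, 1), (80, 1), (132, 1), (144, 1)]⟩,
⟨2, [⟨2, 4, []⟩, ⟨96, 4, []⟩, ⟨16, 4, []⟩], [7], 1, [(50, 1), (82, 1)]⟩,
⟨1, [⟨12, 2, []⟩, ⟨192, 2, []⟩], [3, 3, 3], 1, [(68, 1), (72, 1), (132, 1), (136, 1)]⟩,
⟨2, [⟨40, 4, []⟩, ⟨64, 4, []⟩, ⟨128, 4, []⟩], [7], 1, [(200, 1), (224, 1)]⟩,
⟨2, [⟨80, 4, []⟩, ⟨32, 4, []⟩, ⟨128, 4, []⟩], [7], 1, [(176, 1), (224, 1)]⟩,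
⟨0, [⟨20, 2, []⟩, ⟨8, 2, []⟩], [3, 3, 3], 1, [(12, 1), (24, 1)]⟩,
⟨1, [⟨3, 2, []⟩, ⟨24, 2, []⟩], [3, 3, 3], 1, [(9, 1), (10, 1), (17, 1), (18, 1)]⟩,
⟨1, [⟨33, 2, []⟩, ⟨64, 2, []⟩], [3, 3, 3], 1, [(65, 1), (96, 1)]⟩,
⟨2, [⟨17, 4, []⟩, ⟨4, 4, []⟩, ⟨128, 4, []⟩], [7], 1, [(133, 1), (148, 1)]⟩,
⟨1, [⟨66, 2, []⟩, ⟨5, 2, []⟩], [3, 3, 3], 1, [(3, 1), (6, 1), (65, 1), (68, 1)]⟩,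
⟨1, [⟨144, 2, []⟩, ⟨6, 2, []⟩], [3, 3, 3], 1, [(18, 1), (20, 1), (130, 1), (132, 1)]⟩,
⟨1, [⟨34, 2, []⟩, ⟨132, 2, []⟩], [3, 3, 3], 1, [(6, 1), (36, 1), (130, 1), (160, 1)]⟩,
⟨2, [⟨4, 3, []⟩, ⟨2, 2, []⟩, ⟨8, 3, []⟩, ⟨32, 3, []⟩, ⟨128, 4, []⟩], [3, 3, 18, 12, 12], 2, [(44, 1), (134, 1), (168, 1), (174, 2)]⟩,
⟨2, [⟨3, 5, []⟩, ⟨64, 3, []⟩, ⟨128, 5, []⟩], [2, 2], 1, [(193, 1), (194, 1)]⟩,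
⟨2, [⟨66, 4, []⟩, ⟨1, 2, []⟩], [3, 2, 2], 1, [(3, 1), (65, 1)]⟩,
⟨2, [⟨1, 3, []⟩, ⟨0, 0, [(132, 3)]⟩], [3, 3], 1, [(133, 1)]⟩,
⟨2, [⟨33, 4, []⟩, ⟨12, 4, []⟩, ⟨128, 4, []⟩], [7], 1, [(133, 1), (137, 1), (164, 1), (168, 1)]⟩,
⟨2, [⟨8, 2, []⟩, ⟨16, 2, []⟩, ⟨1, 3, []⟩, ⟨4, 3, []⟩, ⟨128, 5, []⟩], [3, 3, 3, 12, 12], 2, [(133, 1), (152, 1), (157, 2)]⟩,
⟨2, [⟨17, 4, []⟩, ⟨36, 4, []⟩, ⟨128, 4, []⟩], [7], 1, [(133, 1), (148, 1), (161, 1), (176, 1)]⟩,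
⟨1, [⟨160, 2, []⟩, ⟨24, 2, []⟩], [3, 3, 3], 1, [(40, 1), (48, 1), (136, 1), (144, 1)]⟩,
⟨2, [⟨8, 2, []⟩, ⟨32, 2, []⟩, ⟨2, 3, []⟩, ⟨64, 4, []⟩, ⟨128, 4, []⟩], [3, 3, 3, 12, 20], 2, [(104, 1), (168, 1), (194, 1), (234, 2)]⟩,
⟨2, [⟨1, 4, []⟩, ⟨4, 4, []⟩, ⟨128, 4, []⟩], [7], 1, [(133, 1)]⟩,
⟨1, [⟨160, 2, []⟩, ⟨6, 2, []⟩], [3, 3, 3], 1, [(34, 1), (36, 1), (130, 1), (132, 1)]⟩,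
⟨2, [⟨18, 4, []⟩, ⟨8, 4, []⟩, ⟨128, 4, []⟩], [7], 1, [(138, 1), (152, 1)]⟩,
⟨2, [⟨2, 2, []⟩, ⟨4, 2, []⟩, ⟨16, 3, []⟩, ⟨64, 4, []⟩, ⟨128, 4, []⟩], [3, 3, 3, 12, 20], 2, [(70, 1), (134, 1), (208, 1), (214, 2)]⟩,
⟨1, [⟨20, 2, []⟩, ⟨96, 2, []⟩], [3, 3, 3], 1, [(36, 1), (48, 1), (68, 1), (80, 1)]⟩,
⟨2, [⟨0, 0, [(34, 2)]⟩, ⟨5, 4, []⟩], [3, 1, 1], 1, [(35, 1), (38, 1)]⟩,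
⟨1, [⟨33, 2, []⟩, ⟨192, 2, []⟩], [3, 3, 3], 1, [(65, 1), (96, 1), (129, 1), (160, 1)]⟩,
⟨2, [⟨18, 5, []⟩, ⟨64, 3, []⟩, ⟨128, 5, []⟩], [2, 2], 1, [(194, 1), (208, 1)]⟩,
⟨2, [⟨20, 4, []⟩, ⟨2, 4, []⟩, ⟨128, 4, []⟩], [7], 1, [(134, 1), (146, 1)]⟩,
⟨2, [⟨34, 5, []⟩, ⟨8, 3, []⟩, ⟨5, 5, []⟩], [2, 2], 1, [(11, 1), (14, 1), (41, 1), (44, 1)]⟩,
⟨0, [⟨65, 2, []⟩, ⟨130, 2, []⟩], [3, 3, 3], 1, [(3, 1), (66, 1), (129, 1), (192, 1)]⟩,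
⟨1, [⟨2, 2, []⟩, ⟨64, 4, []⟩], [3, 1, 1], 1, [(66, 1)]⟩,
⟨2, [⟨34, 4, []⟩, ⟨64, 4, []⟩, ⟨128, 4, []⟩], [7], 1, [(194, 1), (224, 1)]⟩,
⟨1, [⟨1, 2, []⟩, ⟨32, 2, []⟩], [3, 3, 3], 1, [(33, 1)]⟩,
⟨2, [⟨10, 4, []⟩, ⟨16, 4, []⟩, ⟨128, 4, []⟩], [7], 1, [(146, 1), (152, 1)]⟩,
⟨2, [⟨16, 4, []⟩, ⟨68, 4, []⟩, ⟨2, 4, []⟩], [7], 1, [(22, 1), (82, 1)]⟩,
⟨1, [⟨18, 2, []⟩, ⟨64, 2, []⟩], [3, 3, 3], 1, [(66, 1), (80, 1)]⟩,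
⟨1, [⟨40, 2, []⟩, ⟨16, 2, []⟩], [3, 3, 3], 1, [(24, 1), (48, 1)]⟩,
⟨2, [⟨16, 2, []⟩, ⟨32, 2, []⟩, ⟨4, 3, []⟩, ⟨64, 4, []⟩, ⟨128, 4, []⟩], [3, 3, 3, 12, 20], 2, [(112, 1), (176, 1), (196, 1), (244, 2)]⟩,
⟨2, [⟨80, 4, []⟩, ⟨8, 2, []⟩], [3, 2, 2], 1, [(24, 1), (72, 1)]⟩,
⟨2, [⟨16, 3, []⟩, ⟨8, 2, []⟩, ⟨1, 3, []⟩, ⟨2, 3, []⟩, ⟨128, 4, []⟩], [3, 3, 18, 12, 12], 2, [(19, 1), (131, 1), (152, 1), (155, 2)]⟩,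
⟨0, [⟨12, 2, []⟩, ⟨144, 2, []⟩], [3, 3, 3], 1, [(20, 1), (24, 1), (132, 1), (136, 1)]⟩,
⟨2, [⟨32, 3, []⟩, ⟨8, 2, []⟩, ⟨2, 3, []⟩, ⟨4, 3, []⟩, ⟨128, 4, []⟩], [3, 3, 18, 12, 12], 2, [(38, 1), (134, 1), (168, 1), (174, 2)]⟩,
⟨2, [⟨34, 4, []⟩, ⟨8, 4, []⟩, ⟨128, 4, []⟩], [7], 1, [(138, 1), (168, 1)]⟩,
⟨2, [⟨16, 2, []⟩, ⟨32, 2, []⟩, ⟨2, 3, []⟩, ⟨64, 4, []⟩, ⟨128, 4, []⟩], [3, 3, 3, 12, 20], 2, [(112, 1), (176, 1), (194, 1), (242, 2)]⟩,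
⟨0, [⟨3, 2, []⟩, ⟨48, 2, []⟩], [3, 3, 3], 1, [(17, 1), (18, 1), (33, 1), (34, 1)]⟩,
⟨1, [⟨34, 2, []⟩, ⟨192, 2, []⟩], [3, 3, 3], 1, [(66, 1), (96, 1), (130, 1), (160, 1)]⟩,
⟨2, [⟨8, 3, []⟩, ⟨36, 5, []⟩, ⟨128, 5, []⟩], [1, 1], 1, [(140, 1), (168, 1)]⟩,
⟨2, [⟨1, 3, []⟩, ⟨4, 2, []⟩, ⟨8, 3, []⟩, ⟨16, 3, []⟩, ⟨128, 4, []⟩], [3, 3, 18, 12, 12], 2, [(25, 1), (133, 1), (152, 1), (157, 2)]⟩,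
⟨2, [⟨32, 3, []⟩, ⟨8, 2, []⟩, ⟨1, 3, []⟩, ⟨4, 3, []⟩, ⟨128, 4, []⟩], [3, 3, 18, 12, 12], 2, [(37, 1), (133, 1), (168, 1), (173, 2)]⟩,
⟨2, [⟨0, 0, [(18, 2)]⟩, ⟨5, 4, []⟩], [3, 1, 1], 1, [(19, 1), (22, 1)]⟩,
⟨1, [⟨65, 2, []⟩, ⟨160, 2, []⟩], [3, 3, 3], 1, [(33, 1), (96, 1), (129, 1), (192, 1)]⟩,
⟨1, [⟨80, 2, []⟩, ⟨132, 2, []⟩], [3, 3, 3], 1, [(20, 1), (68, 1), (144, 1), (192, 1)]⟩,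
⟨2, [⟨1, 2, []⟩, ⟨2, 2, []⟩, ⟨8, 3, []⟩, ⟨16, 3, []⟩, ⟨128, 5, []⟩], [3, 3, 3, 12, 12], 2, [(131, 1), (152, 1), (155, 2)]⟩,
⟨2, [⟨0, 0, [(3, 2)]⟩, ⟨128, 4, []⟩], [3, 1, 1], 1, [(131, 1)]⟩,
⟨2, [⟨4, 4, []⟩, ⟨80, 4, []⟩, ⟨32, 4, []⟩], [7], 1, [(52, 1), (100, 1)]⟩,
⟨2, [⟨2, 3, []⟩, ⟨4, 2, []⟩, ⟨8, 3, []⟩, ⟨16, 3, []⟩, ⟨128, 4, []⟩], [3, 3, 18, 12, 12], 2, [(26, 1), (134, 1), (152, 1), (158, 2)]⟩,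
⟨1, [⟨72, 2, []⟩, ⟨6, 2, []⟩], [3, 3, 3], 1, [(10, 1), (12, 1), (66, 1), (68, 1)]⟩,
⟨2, [⟨24, 4, []⟩, ⟨64, 4, []⟩, ⟨128, 4, []⟩], [7], 1, [(200, 1), (208, 1)]⟩,
⟨1, [⟨3, 2, []⟩, ⟨192, 2, []⟩], [3, 3, 3], 1, [(65, 1), (66, 1), (129, 1), (130, 1)]⟩,
⟨1, [⟨132, 2, []⟩, ⟨3, 2, []⟩], [3, 3, 3], 1, [(5, 1), (6, 1), (129, 1), (130, 1)]⟩,
⟨0, [⟨68, 2, []⟩, ⟨129, 2, []⟩], [3, 3, 3], 1, [(5, 1), (65, 1), (132, 1), (192, 1)]⟩,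
⟨0, [⟨8, 2, []⟩, ⟨16, 2, []⟩], [3, 3, 3], 1, [(24, 1)]⟩,
⟨1, [⟨5, 2, []⟩, ⟨8, 2, []⟩], [3, 3, 3], 1, [(9, 1), (12, 1)]⟩,
⟨2, [⟨6, 5, []⟩, ⟨16, 3, []⟩, ⟨128, 5, []⟩], [2, 2], 1, [(146, 1), (148, 1)]⟩,
⟨1, [⟨65, 2, []⟩, ⟨144, 2, []⟩], [3, 3, 3], 1, [(17, 1), (80, 1), (129, 1), (192, 1)]⟩,
⟨1, [⟨18, 2, []⟩, ⟨65, 2, []⟩], [3, 3, 3], 1, [(3, 1), (17, 1), (66, 1), (80, 1)]⟩,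
⟨0, [⟨6, 2, []⟩, ⟨24, 2, []⟩], [3, 3, 3], 1, [(10, 1), (12, 1), (18, 1), (20, 1)]⟩,
⟨1, [⟨20, 2, []⟩, ⟨8, 2, []⟩], [3, 3, 3], 1, [(12, 1), (24, 1)]⟩,
⟨2, [⟨2, 4, []⟩, ⟨12, 4, []⟩, ⟨32, 4, []⟩], [7], 1, [(38, 1), (42, 1)]⟩,
⟨2, [⟨6, 4, []⟩, ⟨24, 4, []⟩, ⟨128, 4, []⟩], [7], 1, [(138, 1), (140, 1), (146, 1), (148, 1)]⟩,
⟨2, [⟨2, 2, []⟩, ⟨128, 4, []⟩], [3, 1, 1], 1, [(130, 1)]⟩,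
⟨1, [⟨9, 2, []⟩, ⟨32, 2, []⟩], [3, 3, 3], 1, [(33, 1), (40, 1)]⟩,
⟨2, [⟨16, 3, []⟩, ⟨64, 3, []⟩], [3, 3], 1, [(80, 1)]⟩,
⟨2, [⟨8, 2, []⟩, ⟨16, 2, []⟩, ⟨2, 3, []⟩, ⟨4, 3, []⟩, ⟨128, 5, []⟩], [3, 3, 3, 12, 12], 2, [(134, 1), (152, 1), (158, 2)]⟩,
⟨0, [⟨66, 2, []⟩, ⟨5, 2, []⟩], [3, 3, 3], 1, [(3, 1), (6, 1), (65, 1), (68, 1)]⟩,
⟨0, [⟨65, 2, []⟩, ⟨132, 2, []⟩], [3, 3, 3], 1, [(5, 1), (68, 1), (129, 1), (192, 1)]⟩,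
⟨1, [⟨130, 2, []⟩, ⟨5, 2, []⟩], [3, 3, 3], 1, [(3, 1), (6, 1), (129, 1), (132, 1)]⟩,
⟨1, [⟨6, 2, []⟩, ⟨64, 2, []⟩], [3, 3, 3], 1, [(66, 1), (68, 1)]⟩,
⟨1, [⟨17, 2, []⟩, ⟨192, 2, []⟩], [3, 3, 3], 1, [(65, 1), (80, 1), (129, 1), (144, 1)]⟩,
⟨0, [⟨24, 2, []⟩, ⟨64, 2, []⟩], [3, 3, 3], 1, [(72, 1), (80, 1)]⟩,
⟨2, [⟨4, 3, []⟩, ⟨18, 5, []⟩, ⟨128, 5, []⟩], [1, 1], 1, [(134, 1), (148, 1)]⟩,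
⟨1, [⟨33, 2, []⟩, ⟨2, 2, []⟩], [3, 3, 3], 1, [(3, 1), (34, 1)]⟩,
⟨2, [⟨1, 3, []⟩, ⟨128, 3, []⟩], [3, 3], 1, [(129, 1)]⟩,
⟨2, [⟨3, 2, []⟩, ⟨128, 4, []⟩], [3, 1, 1], 1, [(129, 1), (130, 1)]⟩,
⟨1, [⟨18, 2, []⟩, ⟨192, 2, []⟩], [3, 3, 3], 1, [(66, 1), (80, 1), (130, 1), (144, 1)]⟩,
⟨1, [⟨36, 2, []⟩, ⟨130, 2, []⟩], [3, 3, 3], 1, [(6, 1), (34, 1), (132, 1), (160, 1)]⟩,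
⟨1, [⟨80, 2, []⟩, ⟨136, 2, []⟩], [3, 3, 3], 1, [(24, 1), (72, 1), (144, 1), (192, 1)]⟩,
⟨1, [⟨65, 2, []⟩, ⟨6, 2, []⟩], [3, 3, 3], 1, [(3, 1), (5, 1), (66, 1), (68, 1)]⟩,
⟨1, [⟨6, 2, []⟩, ⟨32, 2, []⟩], [3, 3, 3], 1, [(34, 1), (36, 1)]⟩,
⟨1, [⟨96, 2, []⟩, ⟨5, 2, []⟩], [3, 3, 3], 1, [(33, 1), (36, 1), (65, 1), (68, 1)]⟩,
⟨2, [⟨10, 4, []⟩, ⟨80, 4, []⟩, ⟨128, 4, []⟩], [7], 1, [(146, 1), (152, 1), (194, 1), (200, 1)]⟩,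
⟨1, [⟨80, 2, []⟩, ⟨129, 2, []⟩], [3, 3, 3], 1, [(17, 1), (65, 1), (144, 1), (192, 1)]⟩,
⟨2, [⟨3, 4, []⟩, ⟨4, 4, []⟩, ⟨128, 4, []⟩], [7], 1, [(133, 1), (134, 1)]⟩,
⟨2, [⟨32, 3, []⟩, ⟨8, 2, []⟩, ⟨1, 3, []⟩, ⟨4, 3, []⟩, ⟨128, 4, []⟩], [3, 3, 6, 12, 24], 2, [(41, 1), (133, 1), (164, 1), (168, 1), (173, 2)]⟩,
⟨2, [⟨2, 3, []⟩, ⟨32, 3, []⟩], [3, 3], 1, [(34, 1)]⟩,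
⟨1, [⟨40, 2, []⟩, ⟨1, 2, []⟩], [3, 3, 3], 1, [(9, 1), (33, 1)]⟩,
⟨2, [⟨40, 4, []⟩, ⟨16, 4, []⟩, ⟨128, 4, []⟩], [7], 1, [(152, 1), (176, 1)]⟩,
⟨1, [⟨6, 2, []⟩, ⟨16, 2, []⟩], [3, 3, 3], 1, [(18, 1), (20, 1)]⟩,
⟨0, [⟨12, 2, []⟩, ⟨1, 2, []⟩], [3, 3, 3], 1, [(5, 1), (9, 1)]⟩,
⟨0, [⟨1, 2, []⟩, ⟨64, 4, []⟩], [3, 1, 1], 1, [(65, 1)]⟩,
⟨2, [⟨32, 3, []⟩, ⟨128, 3, []⟩], [3, 3], 1, [(160, 1)]⟩,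
⟨1, [⟨16, 2, []⟩, ⟨32, 2, []⟩], [3, 3, 3], 1, [(48, 1)]⟩,
⟨0, [⟨24, 2, []⟩, ⟨192, 2, []⟩], [3, 3, 3], 1, [(72, 1), (80, 1), (136, 1), (144, 1)]⟩,
⟨1, [⟨36, 2, []⟩, ⟨2, 2, []⟩], [3, 3, 3], 1, [(6, 1), (34, 1)]⟩,
⟨1, [⟨40, 2, []⟩, ⟨4, 2, []⟩], [3, 3, 3], 1, [(12, 1), (36, 1)]⟩,
⟨0, [⟨65, 2, []⟩, ⟨136, 2, []⟩], [3, 3, 3], 1, [(9, 1), (72, 1), (129, 1), (192, 1)]⟩,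
⟨0, [⟨1, 2, []⟩, ⟨8, 2, []⟩], [3, 3, 3], 1, [(9, 1)]⟩,
⟨1, [⟨72, 2, []⟩, ⟨130, 2, []⟩], [3, 3, 3], 1, [(10, 1), (66, 1), (136, 1), (192, 1)]⟩,
⟨2, [⟨1, 3, []⟩, ⟨4, 2, []⟩, ⟨8, 3, []⟩, ⟨32, 3, []⟩, ⟨128, 4, []⟩], [3, 3, 18, 12, 12], 2, [(41, 1), (133, 1), (168, 1), (173, 2)]⟩,
⟨1, [⟨24, 2, []⟩, ⟨4, 2, []⟩], [3, 3, 3], 1, [(12, 1), (20, 1)]⟩,
⟨1, [⟨1, 2, []⟩, ⟨16, 2, []⟩], [3, 3, 3], 1, [(17, 1)]⟩,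
⟨2, [⟨5, 4, []⟩, ⟨64, 4, []⟩, ⟨128, 4, []⟩], [7], 1, [(193, 1), (196, 1)]⟩,
⟨2, [⟨16, 4, []⟩, ⟨32, 4, []⟩, ⟨128, 4, []⟩], [7], 1, [(176, 1)]⟩,
⟨2, [⟨18, 2, []⟩, ⟨128, 4, []⟩], [3, 1, 1], 1, [(130, 1), (144, 1)]⟩,
⟨2, [⟨6, 4, []⟩, ⟨16, 4, []⟩, ⟨128, 4, []⟩], [7], 1, [(146, 1), (148, 1)]⟩,
⟨2, [⟨1, 3, []⟩, ⟨4, 3, []⟩, ⟨8, 3, []⟩, ⟨32, 3, []⟩, ⟨128, 4, []⟩], [3, 3, 12, 12, 16], 2, [(45, 1), (133, 1), (168, 1), (173, 2)]⟩,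
⟨0, [⟨132, 2, []⟩, ⟨3, 2, []⟩], [3, 3, 3], 1, [(5, 1), (6, 1), (129, 1), (130, 1)]⟩,
⟨0, [⟨6, 2, []⟩, ⟨64, 2, []⟩], [3, 3, 3], 1, [(66, 1), (68, 1)]⟩,
⟨0, [⟨18, 2, []⟩, ⟨12, 2, []⟩], [3, 3, 3], 1, [(6, 1), (10, 1), (20, 1), (24, 1)]⟩,
⟨1, [⟨20, 2, []⟩, ⟨64, 2, []⟩], [3, 3, 3], 1, [(68, 1), (80, 1)]⟩,
⟨0, [⟨5, 2, []⟩, ⟨40, 2, []⟩], [3, 3, 3], 1, [(9, 1), (12, 1), (33, 1), (36, 1)]⟩,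
⟨0, [⟨20, 2, []⟩, ⟨129, 2, []⟩], [3, 3, 3], 1, [(5, 1), (17, 1), (132, 1), (144, 1)]⟩,
⟨1, [⟨48, 2, []⟩, ⟨4, 2, []⟩], [3, 3, 3], 1, [(20, 1), (36, 1)]⟩,
⟨2, [⟨16, 2, []⟩, ⟨32, 2, []⟩, ⟨0, 0, [(5, 3)]⟩, ⟨2, 3, []⟩, ⟨128, 5, []⟩], [3, 3, 3, 12, 12], 2, [(135, 1), (176, 1), (183, 2)]⟩,
⟨2, [⟨16, 3, []⟩, ⟨128, 3, []⟩], [3, 3], 1, [(144, 1)]⟩,
⟨2, [⟨48, 4, []⟩, ⟨64, 4, []⟩, ⟨128, 4, []⟩], [7], 1, [(208, 1), (224, 1)]⟩,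
⟨0, [⟨16, 2, []⟩, ⟨32, 2, []⟩], [3, 3, 3], 1, [(48, 1)]⟩,
⟨2, [⟨2, 3, []⟩, ⟨4, 3, []⟩, ⟨16, 3, []⟩, ⟨32, 3, []⟩, ⟨128, 4, []⟩], [3, 3, 12, 12, 16], 2, [(54, 1), (134, 1), (176, 1), (182, 2)]⟩,
⟨0, [⟨72, 2, []⟩, ⟨144, 2, []⟩], [3, 3, 3], 1, [(24, 1), (80, 1), (136, 1), (192, 1)]⟩,
⟨0, [⟨2, 2, []⟩, ⟨64, 4, []⟩], [3, 1, 1], 1, [(66, 1)]⟩,
⟨1, [⟨3, 2, []⟩, ⟨4, 2, []⟩], [3, 3, 3], 1, [(5, 1), (6, 1)]⟩,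
⟨0, [⟨72, 2, []⟩, ⟨130, 2, []⟩], [3, 3, 3], 1, [(10, 1), (66, 1), (136, 1), (192, 1)]⟩,
⟨1, [⟨5, 2, []⟩, ⟨2, 2, []⟩], [3, 3, 3], 1, [(3, 1), (6, 1)]⟩,
⟨0, [⟨36, 2, []⟩, ⟨1, 2, []⟩], [3, 3, 3], 1, [(5, 1), (33, 1)]⟩,
⟨2, [⟨8, 4, []⟩, ⟨32, 4, []⟩, ⟨128, 4, []⟩], [7], 1, [(168, 1)]⟩,
⟨2, [⟨18, 4, []⟩, ⟨65, 4, []⟩, ⟨128, 4, []⟩], [7], 1, [(131, 1), (145, 1), (194, 1), (208, 1)]⟩,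
⟨1, [⟨33, 2, []⟩, ⟨136, 2, []⟩], [3, 3, 3], 1, [(9, 1), (40, 1), (129, 1), (160, 1)]⟩,
⟨2, [⟨4, 4, []⟩, ⟨32, 4, []⟩, ⟨128, 4, []⟩], [7], 1, [(164, 1)]⟩,
⟨2, [⟨1, 2, []⟩, ⟨4, 2, []⟩, ⟨16, 3, []⟩, ⟨32, 3, []⟩, ⟨128, 5, []⟩], [3, 3, 3, 12, 12], 2, [(133, 1), (176, 1), (181, 2)]⟩,
⟨2, [⟨8, 2, []⟩, ⟨32, 2, []⟩, ⟨4, 3, []⟩, ⟨64, 4, []⟩, ⟨128, 4, []⟩], [3, 3, 3, 12, 20], 2, [(104, 1), (168, 1), (196, 1), (236, 2)]⟩,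
⟨1, [⟨68, 2, []⟩, ⟨160, 2, []⟩], [3, 3, 3], 1, [(36, 1), (96, 1), (132, 1), (192, 1)]⟩,
⟨2, [⟨16, 3, []⟩, ⟨36, 5, []⟩, ⟨128, 5, []⟩], [1, 1], 1, [(148, 1), (176, 1)]⟩,
⟨1, [⟨36, 2, []⟩, ⟨129, 2, []⟩], [3, 3, 3], 1, [(5, 1), (33, 1), (132, 1), (160, 1)]⟩,
⟨1, [⟨12, 2, []⟩, ⟨96, 2, []⟩], [3, 3, 3], 1, [(36, 1), (40, 1), (68, 1), (72, 1)]⟩,
⟨2, [⟨12, 4, []⟩, ⟨32, 4, []⟩, ⟨128, 4, []⟩], [7], 1, [(164, 1), (168, 1)]⟩,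
⟨1, [⟨10, 2, []⟩, ⟨32, 2, []⟩], [3, 3, 3], 1, [(34, 1), (40, 1)]⟩,
⟨2, [⟨16, 2, []⟩, ⟨64, 4, []⟩], [3, 1, 1], 1, [(80, 1)]⟩,
⟨2, [⟨0, 0, [(24, 2)]⟩, ⟨32, 4, []⟩], [3, 1, 1], 1, [(56, 1)]⟩,
⟨2, [⟨32, 2, []⟩, ⟨64, 4, []⟩], [3, 1, 1], 1, [(96, 1)]⟩,
⟨1, [⟨36, 2, []⟩, ⟨66, 2, []⟩], [3, 3, 3], 1, [(6, 1), (34, 1), (68, 1), (96, 1)]⟩,
⟨2, [⟨16, 3, []⟩, ⟨32, 3, []⟩], [3, 3], 1, [(48, 1)]⟩,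
⟨2, [⟨1, 3, []⟩, ⟨2, 3, []⟩], [3, 3], 1, [(3, 1)]⟩,
⟨2, [⟨4, 3, []⟩, ⟨1, 2, []⟩, ⟨8, 3, []⟩, ⟨32, 3, []⟩, ⟨128, 4, []⟩], [3, 3, 18, 12, 12], 2, [(44, 1), (133, 1), (168, 1), (173, 2)]⟩,
⟨2, [⟨5, 4, []⟩, ⟨2, 4, []⟩, ⟨128, 4, []⟩], [7], 1, [(131, 1), (134, 1)]⟩,
⟨2, [⟨10, 5, []⟩, ⟨32, 3, []⟩, ⟨5, 5, []⟩], [2, 2], 1, [(35, 1), (38, 1), (41, 1), (44, 1)]⟩,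
⟨2, [⟨32, 4, []⟩, ⟨66, 4, []⟩, ⟨4, 4, []⟩], [7], 1, [(38, 1), (100, 1)]⟩,
⟨2, [⟨1, 3, []⟩, ⟨4, 3, []⟩, ⟨8, 3, []⟩, ⟨16, 3, []⟩, ⟨128, 4, []⟩], [3, 3, 12, 12, 16], 2, [(29, 1), (133, 1), (152, 1), (157, 2)]⟩,
⟨2, [⟨24, 5, []⟩, ⟨32, 3, []⟩, ⟨128, 5, []⟩], [2, 2], 1, [(168, 1), (176, 1)]⟩,
⟨2, [⟨4, 2, []⟩, ⟨64, 4, []⟩], [3, 1, 1], 1, [(68, 1)]⟩,
⟨2, [⟨8, 2, []⟩, ⟨16, 2, []⟩, ⟨1, 3, []⟩, ⟨2, 3, []⟩, ⟨128, 5, []⟩], [3, 3, 3, 12, 12], 2, [(131, 1), (152, 1), (155, 2)]⟩,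
⟨2, [⟨4, 3, []⟩, ⟨1, 2, []⟩, ⟨8, 3, []⟩, ⟨16, 3, []⟩, ⟨128, 4, []⟩], [3, 3, 6, 12, 24], 2, [(13, 1), (133, 1), (148, 1), (152, 1), (157, 2)]⟩,
⟨0, [⟨12, 2, []⟩, ⟨80, 2, []⟩], [3, 3, 3], 1, [(20, 1), (24, 1), (68, 1), (72, 1)]⟩,
⟨0, [⟨9, 2, []⟩, ⟨20, 2, []⟩], [3, 3, 3], 1, [(5, 1), (12, 1), (17, 1), (24, 1)]⟩,
⟨0, [⟨33, 2, []⟩, ⟨66, 2, []⟩], [3, 3, 3], 1, [(3, 1), (34, 1), (65, 1), (96, 1)]⟩,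
⟨1, [⟨2, 2, []⟩, ⟨32, 2, []⟩], [3, 3, 3], 1, [(34, 1)]⟩,
⟨0, [⟨17, 2, []⟩, ⟨66, 2, []⟩], [3, 3, 3], 1, [(3, 1), (18, 1), (65, 1), (80, 1)]⟩,
⟨1, [⟨33, 2, []⟩, ⟨130, 2, []⟩], [3, 3, 3], 1, [(3, 1), (34, 1), (129, 1), (160, 1)]⟩,
⟨0, [⟨18, 2, []⟩, ⟨136, 2, []⟩], [3, 3, 3], 1, [(10, 1), (24, 1), (130, 1), (144, 1)]⟩,
⟨2, [⟨2, 3, []⟩, ⟨1, 2, []⟩, ⟨8, 3, []⟩, ⟨16, 3, []⟩, ⟨128, 4, []⟩], [3, 3, 18, 12, 12], 2, [(26, 1), (131, 1), (152, 1), (155, 2)]⟩,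
⟨0, [⟨72, 2, []⟩, ⟨48, 2, []⟩], [3, 3, 3], 1, [(24, 1), (40, 1), (80, 1), (96, 1)]⟩,
⟨1, [⟨9, 2, []⟩, ⟨64, 2, []⟩], [3, 3, 3], 1, [(65, 1), (72, 1)]⟩,
⟨0, [⟨10, 2, []⟩, ⟨65, 2, []⟩], [3, 3, 3], 1, [(3, 1), (9, 1), (66, 1), (72, 1)]⟩,
⟨1, [⟨9, 2, []⟩, ⟨4, 2, []⟩], [3, 3, 3], 1, [(5, 1), (12, 1)]⟩,
⟨0, [⟨10, 2, []⟩, ⟨64, 2, []⟩], [3, 3, 3], 1, [(66, 1), (72, 1)]⟩,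
⟨1, [⟨6, 2, []⟩, ⟨8, 2, []⟩], [3, 3, 3], 1, [(10, 1), (12, 1)]⟩,
⟨2, [⟨2, 4, []⟩, ⟨80, 4, []⟩, ⟨32, 4, []⟩], [7], 1, [(50, 1), (98, 1)]⟩,
⟨2, [⟨8, 2, []⟩, ⟨32, 2, []⟩, ⟨2, 3, []⟩, ⟨4, 3, []⟩, ⟨128, 5, []⟩], [3, 3, 3, 12, 12], 2, [(134, 1), (168, 1), (174, 2)]⟩,
⟨2, [⟨5, 2, []⟩, ⟨128, 4, []⟩], [3, 1, 1], 1, [(129, 1), (132, 1)]⟩,
⟨2, [⟨8, 2, []⟩, ⟨16, 2, []⟩, ⟨2, 3, []⟩, ⟨64, 4, []⟩, ⟨128, 4, []⟩], [3, 3, 3, 12, 20], 2, [(88, 1), (152, 1), (194, 1), (218, 2)]⟩,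
⟨2, [⟨1, 3, []⟩, ⟨4, 3, []⟩], [3, 3], 1, [(5, 1)]⟩,
⟨2, [⟨3, 4, []⟩, ⟨16, 4, []⟩, ⟨128, 4, []⟩], [7], 1, [(145, 1), (146, 1)]⟩,
⟨2, [⟨48, 2, []⟩, ⟨128, 4, []⟩], [3, 1, 1], 1, [(144, 1), (160, 1)]⟩,
⟨0, [⟨130, 2, []⟩, ⟨24, 2, []⟩], [3, 3, 3], 1, [(10, 1), (18, 1), (136, 1), (144, 1)]⟩,
⟨0, [⟨129, 2, []⟩, ⟨24, 2, []⟩], [3, 3, 3], 1, [(9, 1), (17, 1), (136, 1), (144, 1)]⟩,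
⟨2, [⟨0, 0, [(3, 2)]⟩, ⟨4, 4, []⟩], [3, 1, 1], 1, [(7, 1)]⟩,
⟨2, [⟨32, 3, []⟩, ⟨16, 2, []⟩, ⟨1, 3, []⟩, ⟨2, 3, []⟩, ⟨128, 4, []⟩], [3, 3, 18, 12, 12], 2, [(35, 1), (131, 1), (176, 1), (179, 2)]⟩,
⟨0, [⟨9, 2, []⟩, ⟨64, 2, []⟩], [3, 3, 3], 1, [(65, 1), (72, 1)]⟩,
⟨2, [⟨6, 5, []⟩, ⟨64, 3, []⟩, ⟨128, 5, []⟩], [2, 2], 1, [(194, 1), (196, 1)]⟩,
⟨2, [⟨17, 4, []⟩, ⟨2, 4, []⟩, ⟨128, 4, []⟩], [7], 1, [(131, 1), (146, 1)]⟩,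
⟨2, [⟨4, 3, []⟩, ⟨10, 5, []⟩, ⟨128, 5, []⟩], [1, 1], 1, [(134, 1), (140, 1)]⟩,
⟨0, [⟨65, 2, []⟩, ⟨24, 2, []⟩], [3, 3, 3], 1, [(9, 1), (17, 1), (72, 1), (80, 1)]⟩,
⟨2, [⟨16, 3, []⟩, ⟨8, 2, []⟩, ⟨1, 3, []⟩, ⟨4, 3, []⟩, ⟨128, 4, []⟩], [3, 3, 6, 12, 24], 2, [(25, 1), (133, 1), (148, 1), (152, 1), (157, 2)]⟩,
⟨2, [⟨10, 4, []⟩, ⟨4, 4, []⟩, ⟨128, 4, []⟩], [7], 1, [(134, 1), (140, 1)]⟩,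
⟨1, [⟨144, 2, []⟩, ⟨40, 2, []⟩], [3, 3, 3], 1, [(24, 1), (48, 1), (136, 1), (160, 1)]⟩,
⟨1, [⟨12, 2, []⟩, ⟨144, 2, []⟩], [3, 3, 3], 1, [(20, 1), (24, 1), (132, 1), (136, 1)]⟩,
⟨0, [⟨33, 2, []⟩, ⟨68, 2, []⟩], [3, 3, 3], 1, [(5, 1), (36, 1), (65, 1), (96, 1)]⟩,
⟨2, [⟨24, 4, []⟩, ⟨2, 4, []⟩, ⟨128, 4, []⟩], [7], 1, [(138, 1), (146, 1)]⟩,
⟨1, [⟨34, 2, []⟩, ⟨144, 2, []⟩], [3, 3, 3], 1, [(18, 1), (48, 1), (130, 1), (160, 1)]⟩,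
⟨1, [⟨3, 2, []⟩, ⟨16, 2, []⟩], [3, 3, 3], 1, [(17, 1), (18, 1)]⟩,
⟨0, [⟨80, 2, []⟩, ⟨129, 2, []⟩], [3, 3, 3], 1, [(17, 1), (65, 1), (144, 1), (192, 1)]⟩,
⟨2, [⟨2, 3, []⟩, ⟨1, 2, []⟩, ⟨8, 3, []⟩, ⟨32, 3, []⟩, ⟨128, 4, []⟩], [3, 3, 18, 12, 12], 2, [(42, 1), (131, 1), (168, 1), (171, 2)]⟩,
⟨2, [⟨4, 3, []⟩, ⟨64, 3, []⟩], [3, 3], 1, [(68, 1)]⟩,
⟨2, [⟨8, 4, []⟩, ⟨16, 4, []⟩, ⟨128, 4, []⟩], [7], 1, [(152, 1)]⟩,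
⟨2, [⟨2, 3, []⟩, ⟨0, 0, [(24, 3)]⟩], [3, 3], 1, [(26, 1)]⟩,
⟨1, [⟨20, 2, []⟩, ⟨66, 2, []⟩], [3, 3, 3], 1, [(6, 1), (18, 1), (68, 1), (80, 1)]⟩,
⟨2, [⟨1, 3, []⟩, ⟨64, 3, []⟩], [3, 3], 1, [(65, 1)]⟩,
⟨1, [⟨136, 2, []⟩, ⟨5, 2, []⟩], [3, 3, 3], 1, [(9, 1), (12, 1), (129, 1), (132, 1)]⟩,
⟨2, [⟨6, 2, []⟩, ⟨128, 4, []⟩], [3, 1, 1], 1, [(130, 1), (132, 1)]⟩,
⟨2, [⟨17, 4, []⟩, ⟨64, 4, []⟩, ⟨128, 4, []⟩], [7], 1, [(193, 1), (208, 1)]⟩,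
⟨2, [⟨18, 5, []⟩, ⟨4, 3, []⟩, ⟨136, 5, []⟩], [2, 2], 1, [(14, 1), (28, 1), (134, 1), (148, 1)]⟩,
⟨1, [⟨24, 2, []⟩, ⟨1, 2, []⟩], [3, 3, 3], 1, [(9, 1), (17, 1)]⟩,
⟨0, [⟨80, 2, []⟩, ⟨5, 2, []⟩], [3, 3, 3], 1, [(17, 1), (20, 1), (65, 1), (68, 1)]⟩,
⟨2, [⟨8, 3, []⟩, ⟨128, 3, []⟩], [3, 3], 1, [(136, 1)]⟩,
⟨0, [⟨24, 2, []⟩, ⟨1, 2, []⟩], [3, 3, 3], 1, [(9, 1), (17, 1)]⟩,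
⟨2, [⟨48, 5, []⟩, ⟨64, 3, []⟩, ⟨128, 5, []⟩], [2, 2], 1, [(208, 1), (224, 1)]⟩,
⟨2, [⟨10, 4, []⟩, ⟨36, 4, []⟩, ⟨128, 4, []⟩], [7], 1, [(134, 1), (140, 1), (162, 1), (168, 1)]⟩,
⟨0, [⟨17, 2, []⟩, ⟨160, 2, []⟩], [3, 3, 3], 1, [(33, 1), (48, 1), (129, 1), (144, 1)]⟩,
⟨0, [⟨1, 2, []⟩, ⟨4, 2, []⟩], [3, 3, 3], 1, [(5, 1)]⟩,
⟨2, [⟨36, 4, []⟩, ⟨80, 4, []⟩, ⟨128, 4, []⟩], [7], 1, [(148, 1), (176, 1), (196, 1), (224, 1)]⟩,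
⟨1, [⟨17, 2, []⟩, ⟨132, 2, []⟩], [3, 3, 3], 1, [(5, 1), (20, 1), (129, 1), (144, 1)]⟩,
⟨0, [⟨17, 2, []⟩, ⟨130, 2, []⟩], [3, 3, 3], 1, [(3, 1), (18, 1), (129, 1), (144, 1)]⟩,
⟨2, [⟨2, 3, []⟩, ⟨4, 3, []⟩, ⟨8, 3, []⟩, ⟨32, 3, []⟩, ⟨128, 4, []⟩], [3, 3, 12, 12, 16], 2, [(46, 1), (134, 1), (168, 1), (174, 2)]⟩,
⟨2, [⟨16, 3, []⟩, ⟨34, 5, []⟩, ⟨128, 5, []⟩], [1, 1], 1, [(146, 1), (176, 1)]⟩,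
⟨2, [⟨2, 3, []⟩, ⟨17, 5, []⟩, ⟨128, 5, []⟩], [1, 1], 1, [(131, 1), (146, 1)]⟩,
⟨1, [⟨17, 2, []⟩, ⟨136, 2, []⟩], [3, 3, 3], 1, [(9, 1), (24, 1), (129, 1), (144, 1)]⟩,
⟨2, [⟨4, 3, []⟩, ⟨2, 2, []⟩, ⟨8, 3, []⟩, ⟨16, 3, []⟩, ⟨128, 4, []⟩], [3, 3, 18, 12, 12], 2, [(28, 1), (134, 1), (152, 1), (158, 2)]⟩,
⟨0, [⟨136, 2, []⟩, ⟨6, 2, []⟩], [3, 3, 3], 1, [(10, 1), (12, 1), (130, 1), (132, 1)]⟩,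
⟨1, [⟨96, 2, []⟩, ⟨129, 2, []⟩], [3, 3, 3], 1, [(33, 1), (65, 1), (160, 1), (192, 1)]⟩,
⟨2, [⟨2, 3, []⟩, ⟨4, 2, []⟩, ⟨16, 3, []⟩, ⟨32, 3, []⟩, ⟨128, 4, []⟩], [3, 3, 18, 12, 12], 2, [(50, 1), (134, 1), (176, 1), (182, 2)]⟩,
⟨2, [⟨96, 2, []⟩, ⟨128, 4, []⟩], [3, 1, 1], 1, [(160, 1), (192, 1)]⟩,
⟨1, [⟨3, 2, []⟩, ⟨64, 2, []⟩], [3, 3, 3], 1, [(65, 1), (66, 1)]⟩,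
⟨2, [⟨6, 4, []⟩, ⟨48, 4, []⟩, ⟨128, 4, []⟩], [7], 1, [(146, 1), (148, 1), (162, 1), (164, 1)]⟩,
⟨2, [⟨18, 4, []⟩, ⟨96, 4, []⟩, ⟨128, 4, []⟩], [7], 1, [(162, 1), (176, 1), (194, 1), (208, 1)]⟩,
⟨0, [⟨136, 2, []⟩, ⟨3, 2, []⟩], [3, 3, 3], 1, [(9, 1), (10, 1), (129, 1), (130, 1)]⟩,
⟨1, [⟨36, 2, []⟩, ⟨64, 2, []⟩], [3, 3, 3], 1, [(68, 1), (96, 1)]⟩,
⟨0, [⟨17, 2, []⟩, ⟨72, 2, []⟩], [3, 3, 3], 1, [(9, 1), (24, 1), (65, 1), (80, 1)]⟩,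
⟨1, [⟨6, 2, []⟩, ⟨48, 2, []⟩], [3, 3, 3], 1, [(18, 1), (20, 1), (34, 1), (36, 1)]⟩,
⟨2, [⟨18, 4, []⟩, ⟨64, 4, []⟩, ⟨128, 4, []⟩], [7], 1, [(194, 1), (208, 1)]⟩,
⟨1, [⟨48, 2, []⟩, ⟨8, 2, []⟩], [3, 3, 3], 1, [(24, 1), (40, 1)]⟩,
⟨1, [⟨12, 2, []⟩, ⟨64, 2, []⟩], [3, 3, 3], 1, [(68, 1), (72, 1)]⟩,
⟨2, [⟨4, 3, []⟩, ⟨2, 2, []⟩, ⟨16, 3, []⟩, ⟨32, 3, []⟩, ⟨128, 4, []⟩], [3, 3, 18, 12, 12], 2, [(52, 1), (134, 1), (176, 1), (182, 2)]⟩,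
⟨0, [⟨20, 2, []⟩, ⟨1, 2, []⟩], [3, 3, 3], 1, [(5, 1), (17, 1)]⟩,
⟨2, [⟨34, 5, []⟩, ⟨64, 3, []⟩, ⟨128, 5, []⟩], [2, 2], 1, [(194, 1), (224, 1)]⟩,
⟨2, [⟨36, 4, []⟩, ⟨16, 4, []⟩, ⟨128, 4, []⟩], [7], 1, [(148, 1), (176, 1)]⟩,
⟨1, [⟨1, 2, []⟩, ⟨4, 2, []⟩], [3, 3, 3], 1, [(5, 1)]⟩,
⟨1, [⟨72, 2, []⟩, ⟨48, 2, []⟩], [3, 3, 3], 1, [(24, 1), (40, 1), (80, 1), (96, 1)]⟩,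
⟨1, [⟨36, 2, []⟩, ⟨1, 2, []⟩], [3, 3, 3], 1, [(5, 1), (33, 1)]⟩,
⟨1, [⟨12, 2, []⟩, ⟨160, 2, []⟩], [3, 3, 3], 1, [(36, 1), (40, 1), (132, 1), (136, 1)]⟩,
⟨1, [⟨6, 2, []⟩, ⟨40, 2, []⟩], [3, 3, 3], 1, [(10, 1), (12, 1), (34, 1), (36, 1)]⟩,
⟨2, [⟨18, 4, []⟩, ⟨36, 4, []⟩, ⟨128, 4, []⟩], [7], 1, [(134, 1), (148, 1), (162, 1), (176, 1)]⟩,
⟨0, [⟨5, 2, []⟩, ⟨24, 2, []⟩], [3, 3, 3], 1, [(9, 1), (12, 1), (17, 1), (20, 1)]⟩,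
⟨2, [⟨144, 5, []⟩, ⟨3, 5, []⟩, ⟨4, 3, []⟩], [4, 4], 1, [(21, 1), (22, 1), (133, 1), (134, 1)]⟩,
⟨0, [⟨9, 2, []⟩, ⟨192, 2, []⟩], [3, 3, 3], 1, [(65, 1), (72, 1), (129, 1), (136, 1)]⟩,
⟨2, [⟨17, 5, []⟩, ⟨4, 3, []⟩, ⟨40, 5, []⟩], [2, 2], 1, [(13, 1), (28, 1), (37, 1), (52, 1)]⟩,
⟨1, [⟨32, 3, []⟩, ⟨64, 3, []⟩], [3, 3], 1, [(96, 1)]⟩,
⟨2, [⟨132, 5, []⟩, ⟨48, 5, []⟩, ⟨8, 3, []⟩], [4, 4], 1, [(28, 1), (44, 1), (152, 1), (168, 1)]⟩,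
⟨1, [⟨6, 2, []⟩, ⟨192, 2, []⟩], [3, 3, 3], 1, [(66, 1), (68, 1), (130, 1), (132, 1)]⟩,
⟨1, [⟨6, 2, []⟩, ⟨24, 2, []⟩], [3, 3, 3], 1, [(10, 1), (12, 1), (18, 1), (20, 1)]⟩,
⟨1, [⟨136, 2, []⟩, ⟨3, 2, []⟩], [3, 3, 3], 1, [(9, 1), (10, 1), (129, 1), (130, 1)]⟩,
⟨2, [⟨4, 3, []⟩, ⟨32, 3, []⟩], [3, 3], 1, [(36, 1)]⟩,
⟨1, [⟨3, 2, []⟩, ⟨32, 2, []⟩], [3, 3, 3], 1, [(33, 1), (34, 1)]⟩,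
⟨1, [⟨129, 2, []⟩, ⟨40, 2, []⟩], [3, 3, 3], 1, [(9, 1), (33, 1), (136, 1), (160, 1)]⟩]

theorem base_ok : base.all (fun q => q.ok 8 3 [7, 56] big4 big4 [(0, 1, 0, 0), (0, 2, 0, 1), (0, 4, 0, 3), (0, 5, 0, 4), (0, 3, 0, 0)]) = true := by
  decide +kernel

theorem gb_ok : gb.all (fun c => c.ok 8 3 bl) = true := by decide +kernel

theorem gads_ok : gads.all (fun g => g.okV 8 3 [0, 0, 2]) = true := by decide +kernel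

theorem cmp_ok : cmpR names cnf (clsu 3 base ++ (gb.map (Gb.cl bl) ++ gads.map Gt.cl)) = true := by
  decide +kernel

end DN03

theorem instn_03 : instNS 2 3 [0, 0, 2] DN03.bl [(0, 1, 0, 0), (0, 2, 0, 1), (0, 4, 0, 3), (0, 5, 0, 4), (0, 3, 0, 0)] DN03.base DN03.gb DN03.gads DN03.names DN03.cnf DN03.db DN03.prf = true :=
  instNS_of DN03.base_ok DN03.gb_ok DN03.gads_ok (by decide +kernel) DN03.okc DN03.cmp_ok DN03.chk_ok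

/-- there is no configuration of this instance. -/
theorem noN_03 {V : Type v} [DecidableEq V] {ι : Type u} [Fintype ι] {B : ι → Finset V}
    {Q : Finset V} {x : ℕ → V} {C : ℕ → Finset V} (h : CfN B Q 2 3 x C [0, 0, 2] DN03.bl) : False :=
  h.absurd_srt (s := 0) (by decide) rfl instn_03

end Pool.Agent.Hyp6
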