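import Pool.Agent.Hyp6.CfBO
import Pool.Agent.Hyp6.InsN.M04

/-!
# HYP6: instance with bounds 4: n = 2, r = 3, values [0, 0, 2], inner blocks []

3791 base clauses, 1996 given clauses, 1347 gadgets, 15246 learned clauses.
-/

set_option autoImplicit false
set_option maxRecDepth 100000

namespace Pool.Agent.Hyp6

open Rup

universe u v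

namespace DN04

noncomputable def base : List Ru := [
.rs (.ordE 0 128 2),
.rs (.un 1 0),
.rs (.lip 1 64 69 7),
.rs (.join 2 8 6 5 2 3 [(3, 0)]),
.rs (.part [64, 6, 161] [0, 0, 0] [24] []),
.rs (.join 2 32 6 4 3 1 [(5, 0)]),
.rs (.srt 0 4 0 3 3),
.rs (.l2 0 72 96 6 1 1),
.rs (.mono 2 128 136 1),
.rs (.join 2 1 6 4 3 3 [(0, 2)]),
.rs (.part [197, 32, 26] [1, 0, 0] [] []),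
.rs (.le 2 48 16 4 3),
.rs (.join 2 16 6 4 2 4 [(4, 2)]),
.rs (.ab 1 5),
.rs (.lip 0 144 151 7),
.rs (.part [8, 66, 181] [0, 0, 1] [] []),
.rs (.ab2 1 20),
.rs (.ordE 2 2 1),
.rs (.mono 2 80 82 1),
.rs (.mono 2 130 146 1),
.rs (.l2 2 3 66 1 1 2),
.rs (.part [64, 11, 180] [0, 1, 0] [] []),
.rs (.l2 0 129 136 7 1 1),
.rs (.l2 2 18 144 4 1 2),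
.rs (.le 1 65 64 6 1),
.rs (.lipl 2 6 166 1 160),
.rs (.hall [1] [0, 1, 2, 6]),
.rs (.le 0 130 128 7 2),
.rs (.mono 2 1 33 1),
.rs (.part [41, 132, 82] [1, 0, 0] [] []),
.rs (.lipl 2 36 54 2 18),
.rs (.part [124, 3, 128] [1, 0, 0] [] []),
.rs (.l2 1 130 136 7 1 1),
.rs (.lipl 0 9 75 1 66),
.rs (.deg 5 [2, 0, 1]),
.rs (.l2 0 130 192 7 1 1),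
.rs (.part [3, 96, 156] [0, 0, 1] [] []),
.rs (.l2 1 9 40 3 1 1),
.rs (.l2 1 48 96 5 1 1),
.rs (.lipl 0 17 29 2 12),
.rs (.part [13, 96, 146] [1, 0, 0] [] []),
.rs (.l2 1 3 9 0 1 1),
.rs (.le 2 18 2 1 4),
.rs (.part [39, 192, 24] [1, 0, 0] [] []),
.rs (.join 0 2 6 2 0 3 [(1, 1)]),
.rs (.join 2 2 4 4 4 1 [(1, 1)]),
.rs (.hall [1] [4, 5, 6, 7]),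
.rs (.join 1 16 5 2 0 2 [(4, 0)]),
.rs (.join 0 2 5 2 2 0 [(1, 0)]),
.rs (.part [72, 144, 39] [0, 0, 1] [] []),
.rs (.join 1 8 5 2 1 1 [(3, 0)]),
.rs (.part [188, 65, 2] [1, 0, 0] [] []),
.rs (.l2 1 9 129 0 1 1),
.rs (.part [2, 60, 193] [0, 1, 0] [] []),
.rs (.join 2 2 6 4 3 1 [(1, 0)]),
.rs (.le 1 20 4 2 1),
.rs (.l2 1 36 48 5 1 1),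
.rs (.hall [0] [4, 5, 6, 7]),
.rs (.part [6, 185, 64] [0, 1, 0] [] []),
.rs (.l2 0 9 12 3 1 1),
.degU 2 [(0, 2), (1, 1), (2, 2)],
.rs (.join 1 32 7 2 2 1 [(5, 1)]),
.rs (.le 2 20 16 4 4),
.rs (.join 2 2 5 3 2 3 [(1, 2)]),
.rs (.le 1 144 128 7 3),
.rs (.join 1 16 6 2 1 1 [(4, 0)]),
.rs (.join 2 2 2 3 1 2 [(1, 0)]),
.rs (.deg 1 [0, 3, 0]),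
.rs (.mono 0 4 36 1),
.rs (.part [136, 66, 53] [0, 0, 1] [] []),
.rs (.l2 2 130 136 7 2 1),
.rs (.join 2 2 4 3 1 2 [(1, 0)]),
.rs (.lipl 1 17 27 1 10),
.rs (.l2 2 12 24 3 1 1),
.rs (.lipl 2 192 226 2 34),
.rs (.part [64, 136, 48] [0, 0, 0] [7] []),
.rs (.join 2 32 7 3 3 0 [(5, 0)]),
.rs (.lip 2 176 183 7),
.rs (.l2 1 3 65 0 1 1),
.rs (.lipl 0 9 169 1 160),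
.rs (.join 1 8 4 2 1 1 [(3, 0)]),
.degU 1 [(0, 2), (1, 3)],
.rs (.join 2 2 7 4 4 0 [(1, 0)]),
.rs (.part [77, 130, 48] [1, 0, 0] [] []),
.rs (.l2 0 12 20 2 1 1),
.rs (.le 0 132 4 2 1),
.rs (.lipl 2 20 92 2 72),
.rs (.join 1 8 5 2 0 2 [(3, 0)]),
.rs (.part [128, 32, 95] [0, 0, 1] [] []),
.rs (.l2 2 12 20 2 2 2),
.rs (.part [128, 33, 94] [0, 0, 1] [] []),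
.rs (.ab 0 3),
.rs (.ordE 0 128 4),
.rs (.l2 2 33 160 5 1 2),
.rs (.ordL 2 130 1),
.rs (.lipl 2 138 171 2 33),
.rs (.join 2 32 7 2 0 2 [(5, 0)]),
.rs (.ab2 1 66),
.rs (.le 1 160 32 5 1),
.rs (.le 1 12 8 3 2),
.rs (.mono 2 128 130 1),
.rs (.join 2 4 3 4 3 4 [(2, 3)]),
.rs (.lipl 2 38 174 1 136),
.rs (.lip 1 80 87 7),
.rs (.join 2 8 6 4 1 3 [(3, 0)]),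
.rs (.lipl 0 33 43 0 10),
.rs (.lipl 2 14 158 1 144),
.rs (.join 0 8 6 2 2 0 [(3, 0)]),
.rs (.part [104, 130, 21] [1, 0, 0] [] []),
.rs (.ab 1 2),
.rs (.l2 1 68 80 6 1 1),
.rs (.join 2 64 7 4 4 0 [(6, 0)]),
.rs (.l2 1 48 144 4 1 1),
.rs (.mono 1 16 48 1),
.rs (.part [40, 144, 64] [0, 0, 0] [7] []),
.rs (.mono 2 8 72 1),
.rs (.part [66, 152, 37] [0, 1, 0] [] []),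
.rs (.join 2 32 7 4 3 1 [(5, 0)]),
.rs (.part [80, 39, 136] [0, 1, 0] [] []),
.rs (.part [48, 143, 64] [0, 1, 0] [] []),
.rs (.part [130, 65, 4] [0, 0, 0] [56] []),
.rs (.join 2 8 4 5 3 3 [(3, 1)]),
.rs (.part [130, 68, 1] [0, 0, 0] [56] []),
.rs (.join 2 2 5 5 2 3 [(1, 0)]),
.rs (.join 1 2 6 2 0 3 [(1, 1)]),
.rs (.join 1 8 4 2 2 1 [(3, 1)]),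
.rs (.lipl 1 34 166 1 132),
.rs (.lip 1 40 43 7),
.rs (.lipl 2 66 198 2 132),
.rs (.l2 0 40 136 3 1 1),
.rs (.mono 1 4 6 1),
.rs (.l2 0 6 12 2 1 1),
.rs (.part [129, 72, 54] [0, 0, 1] [] []),
.rs (.mono 2 65 73 1),
.rs (.mono 2 130 162 1),
.rs (.part [66, 132, 57] [0, 0, 1] [] []),
.rs (.join 2 8 4 4 1 3 [(3, 0)]),
.rs (.join 1 1 1 2 2 1 [(0, 1)]),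
.rs (.part [192, 3, 4] [0, 0, 0] [56] []),
.rs (.le 1 72 64 6 3),
.rs (.join 2 8 6 4 2 3 [(3, 1)]),
.rs (.part [65, 18, 172] [0, 0, 1] [] []),
.rs (.part [43, 16, 196] [1, 0, 0] [] []),
.rs (.part [57, 66, 132] [1, 0, 0] [] []),
.rs (.join 0 8 6 2 1 1 [(3, 0)]),
.degU 7 [(0, 2), (1, 1), (2, 3)],
.rs (.l2 1 18 34 1 1 1),
.rs (.lip 1 136 143 7),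
.rs (.join 2 1 5 4 2 2 [(0, 0)]),
.rs (.part [58, 192, 5] [1, 0, 0] [] []),
.rs (.lipl 2 12 46 1 34),
.rs (.lip 2 6 54 56),
.rs (.lipl 1 20 116 1 96),
.rs (.l2 2 10 18 1 2 2),
.rs (.lipl 1 24 92 2 68),
.rs (.join 2 1 6 2 1 1 [(0, 0)]),
.rs (.lipl 1 20 212 0 192),
.rs (.part [80, 47, 128] [0, 1, 0] [] []),
.rs (.join 2 1 4 5 2 3 [(0, 0)]),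
.rs (.lipl 1 192 212 1 20),
.rs (.join 1 12 4 2 1 1 [(2, 0), (3, 0)]),
.rs (.part [186, 1, 68] [1, 0, 0] [] []),
.rs (.deg 1 [1, 2, 0]),
.rs (.mono 2 2 10 1),
.rs (.lipl 2 18 30 0 12),
.rs (.lipl 2 164 244 2 80),
.rs (.join 2 1 7 4 2 3 [(0, 1)]),
.rs (.ab2 0 24),
.rs (.join 2 8 7 5 2 3 [(3, 0)]),
.rs (.l2 0 3 9 0 1 1),
.rs (.join 1 4 4 2 1 2 [(2, 1)]),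
.rs (.part [40, 16, 192] [0, 0, 0] [7] []),
.rs (.part [9, 20, 226] [0, 0, 1] [] []),
.rs (.join 2 8 5 4 2 2 [(3, 0)]),
.rs (.lip 0 4 60 56),
.rs (.join 2 2 5 4 3 2 [(1, 1)]),
.rs (.lipl 1 80 89 0 9),
.rs (.lipl 1 144 178 1 34),
.rs (.join 2 32 7 2 0 3 [(5, 1)]),
.rs (.lipl 0 10 27 2 17),
.rs (.le 1 129 1 0 4),
.rs (.part [128, 22, 105] [0, 1, 0] [] []),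
.rs (.lipl 2 44 174 2 130),
.rs (.part [16, 72, 167] [0, 0, 1] [] []),
.rs (.join 2 2 6 5 2 3 [(1, 0)]),
.rs (.part [65, 30, 160] [0, 1, 0] [] []),
.rs (.part [40, 16, 199] [0, 0, 1] [] []),
.rs (.le 0 72 8 3 1),
.rs (.ab2 1 36),
.rs (.join 0 4 7 2 1 1 [(2, 0)]),
.rs (.le 1 3 1 0 2),
.rs (.part [80, 36, 139] [0, 0, 1] [] []),
.rs (.mono 0 29 61 2),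
.rs (.join 2 2 3 4 0 4 [(1, 0)]),
.rs (.part [66, 129, 4] [0, 0, 0] [56] []),
.rs (.part [72, 167, 16] [0, 1, 0] [] []),
.rs (.join 2 1 5 4 1 3 [(0, 0)]),
.rs (.l2 2 10 24 3 2 1),
.rs (.le 0 192 128 7 2),
.rs (.part [64, 40, 145] [0, 0, 0] [6] []),
.rs (.lipl 2 74 107 2 33),
.rs (.l2 1 17 65 0 1 1),
.rs (.le 0 20 4 2 1),
.rs (.ab2 1 144),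
.rs (.lip 2 104 111 7),
.rs (.part [72, 37, 146] [0, 1, 0] [] []),
.rs (.deg 7 [3, 0, 1]),
.rs (.join 1 2 7 2 2 1 [(1, 1)]),
.rs (.le 0 33 32 5 1),
.rs (.join 0 4 4 2 1 1 [(2, 0)]),
.rs (.part [65, 8, 182] [0, 0, 1] [] []),
.rs (.part [128, 3, 68] [0, 0, 0] [56] []),
.rs (.l2 1 18 20 4 1 1),
.rs (.l2 2 68 192 6 1 1),
.rs (.part [24, 32, 192] [0, 0, 0] [7] []),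
.rs (.mono 2 16 18 1),
.rs (.lipl 2 100 117 2 17),
.rs (.lipl 2 6 198 0 192),
.rs (.lipl 0 192 209 2 17),
.rs (.part [9, 66, 180] [0, 0, 1] [] []),
.rs (.lipl 1 12 77 1 65),
.rs (.le 2 12 8 3 3),
.rs (.lipl 2 28 158 1 130),
.rs (.l2 0 10 136 3 1 1),
.rs (.le 2 18 16 4 2),
.rs (.mono 2 9 25 1),
.rs (.l2 2 65 68 6 1 2),
.rs (.join 2 1 1 3 2 2 [(0, 1)]),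
.rs (.lip 0 3 43 56),
.rs (.part [6, 129, 64] [0, 0, 0] [56] []),
.rs (.join 0 1 6 2 2 1 [(0, 1)]),
.rs (.part [64, 48, 138] [0, 0, 0] [5] []),
.rs (.join 2 2 3 4 3 2 [(1, 1)]),
.degU 5 [(1, 1), (2, 4)],
.rs (.join 2 1 4 4 2 3 [(0, 1)]),
.rs (.lipl 0 129 147 0 18),
.rs (.join 2 1 4 4 3 1 [(0, 0)]),
.rs (.part [75, 48, 132] [1, 0, 0] [] []),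
.rs (.join 0 4 3 2 1 1 [(2, 0)]),
.rs (.part [130, 88, 37] [0, 1, 0] [] []),
.rs (.ordE 0 2 1),
.rs (.join 0 32 7 2 1 2 [(5, 1)]),
.rs (.lipl 2 68 86 2 18),
.rs (.le 1 66 2 1 1),
.rs (.part [129, 32, 94] [0, 0, 1] [] []),
.degU 0 [(0, 3), (2, 2)],
.rs (.part [72, 7, 176] [0, 1, 0] [] []),
.rs (.lip 0 72 77 7),
.rs (.part [24, 64, 167] [0, 0, 1] [] []),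
.rs (.lipl 2 34 178 2 144),
.rs (.part [89, 6, 160] [1, 0, 0] [] []),
.rs (.join 1 32 7 2 1 2 [(5, 1)]),
.rs (.lipl 0 8 137 2 129),
.rs (.lip 0 65 89 56),
.rs (.part [48, 8, 192] [0, 0, 0] [7] []),
.rs (.lipl 2 138 174 1 36),
.rs (.join 2 8 4 2 1 1 [(3, 0)]),
.rs (.part [197, 34, 24] [1, 0, 0] [] []),
.rs (.le 2 66 2 1 2),
.rs (.l2 2 10 34 1 1 2),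
.rs (.deg 3 [0, 1, 2]),
.rs (.part [60, 192, 3] [1, 0, 0] [] []),
.rs (.lip 1 8 13 7),
.rs (.part [27, 192, 36] [1, 0, 0] [] []),
.rs (.lip 1 96 99 7),
.rs (.l2 2 18 130 1 1 2),
.rs (.le 1 48 32 5 2),
.rs (.part [129, 62, 64] [0, 1, 0] [] []),
.degU 5 [(2, 5)],
.rs (.join 2 4 5 4 3 1 [(2, 0)]),
.rs (.l2 2 17 144 4 1 3),
.rs (.lip 2 38 166 128),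
.rs (.join 0 16 5 2 1 1 [(4, 0)]),
.rs (.hall [2] [0, 2, 6, 7]),
.rs (.le 2 144 16 4 2),
.rs (.part [1, 58, 196] [0, 1, 0] [] []),
.rs (.part [10, 113, 132] [0, 1, 0] [] []),
.rs (.l2 2 130 132 7 1 2),
.rs (.l2 0 3 18 1 1 1),
.rs (.lipl 2 22 214 0 192),
.degU 7 [(0, 1), (1, 1), (2, 4)],
.rs (.lip 1 24 31 7),
.rs (.lipl 2 18 90 2 72),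
.rs (.part [66, 141, 48] [0, 1, 0] [] []),
.rs (.mono 2 32 48 1),
.rs (.le 2 18 16 4 4),
.rs (.lip 1 32 35 7),
.rs (.part [201, 36, 18] [1, 0, 0] [] []),
.rs (.join 1 1 6 2 0 3 [(0, 1)]),
.degU 6 [(1, 3), (2, 3)],
.rs (.part [128, 3, 124] [0, 0, 1] [] []),
.rs (.lipl 2 74 91 2 17),
.rs (.lip 1 130 194 64),
.rs (.un 2 1),
.rs (.lipl 2 164 182 1 18),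
.rs (.le 2 132 4 2 3),
.rs (.lipl 0 1 137 2 136),
.rs (.part [129, 90, 36] [0, 1, 0] [] []),
.rs (.lip 0 40 47 7),
.rs (.l2 1 24 80 4 1 1),
.rs (.part [199, 48, 8] [1, 0, 0] [] []),
.rs (.l2 1 136 192 7 1 1),
.rs (.l2 1 18 130 1 1 1),
.rs (.lipl 0 128 193 1 65),
.rs (.join 0 4 5 2 1 1 [(2, 0)]),
.rs (.part [25, 132, 98] [1, 0, 0] [] []),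
.rs (.ab2 1 48),
.rs (.l2 2 80 192 6 1 2),
.rs (.l2 0 6 18 1 1 1),
.rs (.lipl 1 130 210 2 80),
.rs (.ab2 0 136),
.rs (.lipl 0 9 141 0 132),
.rs (.l2 2 34 36 5 2 1),
.rs (.lip 0 130 186 56),
.rs (.mono 1 8 12 1),
.degU 6 [(0, 2), (2, 4)],
.rs (.part [41, 68, 146] [1, 0, 0] [] []),
.rs (.deg 3 [1, 2, 0]),
.rs (.part [209, 12, 34] [1, 0, 0] [] []),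
.rs (.part [9, 226, 20] [0, 1, 0] [] []),
.rs (.le 0 129 128 7 2),
.rs (.join 1 4 3 1 1 0 [(2, 0)]),
.rs (.part [39, 64, 152] [1, 0, 0] [] []),
.rs (.join 2 1 6 4 1 3 [(0, 0)]),
.rs (.part [66, 128, 61] [0, 0, 1] [] []),
.rs (.l2 2 129 130 7 1 2),
.rs (.lipl 0 65 195 2 130),
.rs (.lipl 0 65 197 0 132),
.rs (.mono 1 8 72 1),
.rs (.lipl 1 160 172 1 12),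
.rs (.un 2 4),
.rs (.lipl 2 80 210 1 130),
.rs (.mono 2 33 41 1),
.rs (.ordE 0 64 2),
.rs (.lipl 1 34 114 1 80),
.rs (.part [128, 48, 74] [0, 0, 0] [5] []),
.rs (.le 2 24 8 3 3),
.rs (.join 2 16 7 2 1 1 [(4, 0)]),
.rs (.part [136, 23, 96] [0, 1, 0] [] []),
.rs (.ab2 0 40),
.rs (.join 1 1 3 2 0 3 [(0, 1)]),
.rs (.ordE 1 128 2),
.rs (.part [128, 3, 84] [0, 0, 0] [40] []),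
.rs (.ordE 0 2 2),
.rs (.join 2 1 2 3 2 2 [(0, 1)]),
.rs (.mono 0 128 132 1),
.rs (.lipl 1 33 113 1 80),
.rs (.l2 2 129 130 7 1 1),
.rs (.l2 2 144 160 7 1 2),
.rs (.lipl 1 192 210 2 18),
.rs (.join 2 4 7 2 2 2 [(2, 2)]),
.rs (.join 2 2 3 4 4 0 [(1, 0)]),
.rs (.lip 0 9 73 64),
.rs (.join 2 1 4 4 3 4 [(0, 3)]),
.rs (.part [132, 65, 2] [0, 0, 0] [56] []),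
.rs (.l2 1 3 6 1 1 1),
.rs (.l2 2 12 132 2 2 1),
.rs (.le 1 9 1 0 1),
.rs (.mono 2 48 56 1),
.rs (.join 1 1 5 2 0 2 [(0, 0)]),
.rs (.part [16, 65, 174] [0, 0, 1] [] []),
.rs (.lipl 1 68 198 1 130),
.rs (.join 2 40 7 5 5 0 [(3, 0), (5, 0)]),
.rs (.part [27, 32, 196] [1, 0, 0] [] []),
.rs (.lipl 2 176 185 0 9),
.rs (.part [128, 6, 121] [0, 0, 1] [] []),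
.rs (.l2 1 132 192 7 1 1),
.rs (.join 1 16 6 2 2 0 [(4, 0)]),
.rs (.mono 1 16 17 1),
.rs (.ab2 0 66),
.rs (.join 2 1 1 2 2 0 [(0, 0)]),
.rs (.l2 2 6 68 2 2 1),
.rs (.part [29, 128, 98] [1, 0, 0] [] []),
.rs (.part [40, 128, 87] [0, 0, 1] [] []),
.rs (.join 1 4 7 2 2 0 [(2, 0)]),
.rs (.part [8, 129, 118] [0, 0, 1] [] []),
.rs (.join 1 6 3 2 1 1 [(1, 0), (2, 0)]),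
.rs (.ab2 0 132),
.rs (.ordE 0 16 3),
.rs (.l2 2 6 130 1 1 2),
.rs (.lip 1 132 196 64),
.rs (.le 1 18 16 4 1),
.rs (.l2 1 6 132 2 1 1),
.rs (.le 2 65 64 6 2),
.rs (.join 2 32 6 4 1 3 [(5, 0)]),
.rs (.ordE 0 16 2),
.rs (.lip 1 3 59 56),
.rs (.ordE 1 128 1),
.rs (.ab2 0 48),
.rs (.join 1 40 7 2 1 1 [(3, 0), (5, 0)]),
.rs (.part [144, 64, 47] [0, 0, 1] [] []),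
.rs (.join 1 4 3 2 1 2 [(2, 1)]),
.rs (.le 1 40 32 5 1),
.rs (.join 2 16 5 3 2 1 [(4, 0)]),
.rs (.part [80, 131, 44] [0, 1, 0] [] []),
.rs (.join 1 4 6 2 0 3 [(2, 1)]),
.rs (.le 2 3 2 1 3),
.rs (.join 0 32 7 2 1 1 [(5, 0)]),
.rs (.l2 2 12 68 2 2 1),
.rs (.l2 0 66 96 6 1 1),
.rs (.join 1 4 4 2 2 0 [(2, 0)]),
.rs (.join 2 32 6 2 0 2 [(5, 0)]),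
.rs (.le 1 132 128 7 2),
.rs (.join 0 32 6 2 0 2 [(5, 0)]),
.rs (.join 0 8 5 1 1 0 [(3, 0)]),
.rs (.part [64, 24, 160] [0, 0, 0] [7] []),
.rs (.lip 1 48 51 7),
.rs (.lip 0 40 43 7),
.rs (.part [17, 136, 102] [0, 0, 1] [] []),
.rs (.part [45, 144, 66] [1, 0, 0] [] []),
.rs (.join 0 1 4 2 3 0 [(0, 1)]),
.rs (.part [144, 1, 110] [0, 0, 1] [] []),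
.rs (.mono 0 4 20 1),
.rs (.join 2 32 6 4 3 3 [(5, 2)]),
.rs (.lipl 2 100 109 2 9),
.rs (.part [8, 23, 224] [0, 1, 0] [] []),
.rs (.join 0 32 6 2 0 3 [(5, 1)]),
.rs (.join 2 1 2 5 2 3 [(0, 0)]),
.rs (.part [129, 50, 76] [0, 1, 0] [] []),
.rs (.join 2 2 6 3 1 2 [(1, 0)]),
.rs (.part [192, 24, 32] [0, 0, 0] [7] []),
.rs (.lipl 1 34 178 2 144),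
.rs (.join 2 8 5 4 1 3 [(3, 0)]),
.rs (.deg 6 [3, 0, 1]),
.rs (.lipl 2 49 115 2 66),
.rs (.join 2 2 6 2 2 1 [(1, 1)]),
.rs (.l2 2 17 20 4 1 3),
.rs (.join 1 24 7 2 2 0 [(3, 0), (4, 0)]),
.degU 4 [(1, 5)],
.rs (.l2 2 34 36 5 1 2),
.rs (.hall [1] [3, 4, 5, 7]),
.rs (.join 2 4 4 4 3 1 [(2, 0)]),
.rs (.part [73, 20, 162] [1, 0, 0] [] []),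
.rs (.srt 0 4 0 3 2),
.rs (.lipl 2 100 236 0 136),
.rs (.lipl 2 48 240 0 192),
.rs (.part [68, 1, 186] [0, 0, 1] [] []),
.rs (.lipl 2 10 46 1 36),
.rs (.join 2 2 7 2 2 0 [(1, 0)]),
.rs (.lipl 2 148 181 2 33),
.rs (.join 1 2 3 2 1 2 [(1, 1)]),
.rs (.lipl 2 98 118 2 20),
.rs (.lipl 0 129 201 2 72),
.rs (.mono 2 8 24 1),
.rs (.join 0 1 1 1 1 0 [(0, 0)]),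
.rs (.le 0 9 8 3 2),
.rs (.part [192, 1, 62] [0, 0, 1] [] []),
.rs (.lipl 1 136 154 1 18),
.rs (.join 2 4 4 2 2 0 [(2, 0)]),
.rs (.lipl 0 129 195 0 66),
.rs (.ordL 2 80 1),
.rs (.lipl 2 52 181 0 129),
.rs (.lipl 1 24 216 2 192),
.rs (.lipl 2 76 94 1 18),
.rs (.part [6, 65, 56] [0, 0, 0] [128] []),
.rs (.lipl 2 21 181 1 160),
.rs (.l2 2 20 144 4 2 1),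
.rs (.l2 0 18 48 4 1 1),
.rs (.lipl 2 98 118 1 20),
.rs (.ordE 1 1 1),
.rs (.lipl 1 34 54 2 20),
.rs (.part [120, 128, 7] [1, 0, 0] [] []),
.rs (.join 0 2 3 2 0 2 [(1, 0)]),
.rs (.part [128, 48, 73] [0, 0, 0] [6] []),
.rs (.l2 2 66 68 6 1 1),
.rs (.part [75, 160, 20] [1, 0, 0] [] []),
.rs (.join 2 8 7 4 4 0 [(3, 0)]),
.rs (.join 2 1 5 3 2 1 [(0, 0)]),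
.rs (.un 0 0),
.rs (.join 2 1 2 4 2 2 [(0, 0)]),
.rs (.part [135, 64, 56] [1, 0, 0] [] []),
.rs (.join 2 1 1 4 2 3 [(0, 1)]),
.rs (.join 2 8 5 4 3 2 [(3, 1)]),
.rs (.part [112, 132, 11] [1, 0, 0] [] []),
.rs (.join 0 4 7 2 0 3 [(2, 1)]),
.rs (.part [40, 87, 128] [0, 1, 0] [] []),
.rs (.part [64, 48, 143] [0, 0, 1] [] []),
.rs (.join 1 1 4 2 3 0 [(0, 1)]),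
.rs (.part [136, 4, 115] [0, 0, 1] [] []),
.rs (.lipl 0 160 169 0 9),
.rs (.join 2 1 3 2 1 1 [(0, 0)]),
.rs (.srt 0 2 0 1 2),
.rs (.join 2 1 3 4 3 1 [(0, 0)]),
.rs (.join 2 4 7 2 1 1 [(2, 0)]),
.rs (.part [80, 128, 47] [0, 0, 1] [] []),
.rs (.l2 1 12 24 3 1 1),
.rs (.part [141, 96, 18] [1, 0, 0] [] []),
.rs (.join 2 16 6 3 1 2 [(4, 0)]),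
.rs (.part [9, 16, 230] [0, 0, 1] [] []),
.rs (.join 2 8 5 3 1 2 [(3, 0)]),
.rs (.lip 0 128 152 56),
.rs (.l2 2 10 66 1 2 2),
.rs (.part [8, 48, 194] [0, 0, 0] [5] []),
.rs (.join 2 16 6 4 4 0 [(4, 0)]),
.rs (.lip 2 88 94 7),
.rs (.lipl 2 52 244 0 192),
.degU 4 [(0, 2), (2, 3)],
.rs (.lipl 2 96 226 1 130),
.rs (.join 2 4 7 4 1 3 [(2, 0)]),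
.rs (.deg 5 [1, 0, 2]),
.rs (.le 1 192 64 6 3),
.rs (.join 1 5 5 2 1 1 [(0, 0), (2, 0)]),
.rs (.join 2 4 4 5 1 4 [(2, 0)]),
.rs (.lipl 2 14 174 1 160),
.rs (.join 2 2 3 4 4 3 [(1, 3)]),
.rs (.part [24, 101, 130] [0, 1, 0] [] []),
.rs (.join 0 8 4 2 2 0 [(3, 0)]),
.rs (.part [25, 64, 166] [1, 0, 0] [] []),
.rs (.lipl 0 65 201 0 136),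
.rs (.part [65, 168, 22] [0, 1, 0] [] []),
.rs (.join 2 4 5 3 2 1 [(2, 0)]),
.rs (.srt 0 5 0 4 1),
.rs (.part [89, 4, 162] [1, 0, 0] [] []),
.rs (.lip 1 4 28 56),
.rs (.le 1 130 128 7 1),
.rs (.part [13, 128, 114] [1, 0, 0] [] []),
.rs (.lipl 2 132 150 2 18),
.rs (.lipl 0 72 89 0 17),
.rs (.lipl 2 36 166 1 130),
.rs (.lipl 2 146 155 0 9),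
.rs (.part [130, 96, 29] [0, 0, 1] [] []),
.rs (.part [8, 68, 179] [0, 0, 1] [] []),
.rs (.part [3, 4, 192] [0, 0, 0] [56] []),
.rs (.lipl 2 76 109 2 33),
.rs (.join 1 1 6 2 2 1 [(0, 1)]),
.rs (.join 0 16 6 2 0 2 [(4, 0)]),
.rs (.l2 0 130 136 7 1 1),
.rs (.lipl 2 96 106 0 10),
.rs (.srt 0 5 0 4 3),
.rs (.lip 1 64 88 56),
.rs (.part [66, 16, 173] [0, 0, 1] [] []),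
.rs (.lipl 2 37 173 1 136),
.rs (.part [15, 160, 80] [1, 0, 0] [] []),
.rs (.part [64, 3, 148] [0, 0, 0] [40] []),
.rs (.part [64, 48, 136] [0, 0, 0] [7] []),
.rs (.join 2 2 5 4 4 0 [(1, 0)]),
.rs (.part [29, 34, 192] [1, 0, 0] [] []),
.rs (.lipl 1 18 114 2 96),
.rs (.le 1 34 2 1 3),
.rs (.lip 1 128 176 56),
.rs (.lipl 2 11 91 1 80),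
.rs (.part [131, 72, 52] [1, 0, 0] [] []),
.rs (.le 1 72 8 3 2),
.rs (.l2 0 17 18 4 1 1),
.rs (.part [48, 72, 128] [0, 0, 0] [7] []),
.rs (.ab 1 0),
.rs (.part [195, 8, 52] [1, 0, 0] [] []),
.rs (.lip 0 64 112 56),
.rs (.deg 7 [4, 0, 0]),
.rs (.lip 0 64 88 56),
.rs (.join 2 2 4 3 2 2 [(1, 1)]),
.rs (.join 0 1 5 2 1 1 [(0, 0)]),
.rs (.join 2 2 7 4 1 3 [(1, 0)]),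
.rs (.ab2 2 40),
.rs (.le 2 132 4 2 2),
.rs (.le 1 24 16 4 1),
.rs (.join 1 2 2 1 1 0 [(1, 0)]),
.rs (.lip 2 70 126 56),
.rs (.lipl 2 24 153 0 129),
.rs (.part [32, 144, 79] [0, 0, 1] [] []),
.degU 1 [(1, 2), (2, 3)],
.rs (.l2 0 80 144 4 1 1),
.rs (.ab2 0 80),
.rs (.lipl 0 136 201 0 65),
.rs (.l2 2 130 136 7 1 2),
.rs (.lipl 1 6 86 2 80),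
.rs (.ordE 2 16 1),
.rs (.lipl 0 3 75 1 72),
.rs (.deg 6 [2, 1, 1]),
.rs (.lipl 0 9 153 1 144),
.rs (.join 2 16 6 4 3 2 [(4, 1)]),
.rs (.l2 0 10 66 1 1 1),
.rs (.join 2 2 4 5 4 1 [(1, 0)]),
.rs (.part [2, 17, 236] [0, 0, 1] [] []),
.rs (.l2 2 10 18 1 1 3),
.rs (.lipl 2 132 166 1 34),
.rs (.join 1 16 7 2 1 1 [(4, 0)]),
.rs (.le 0 33 32 5 2),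
.rs (.l2 0 20 24 4 1 1),
.rs (.part [73, 36, 146] [1, 0, 0] [] []),
.rs (.join 2 8 7 2 0 2 [(3, 0)]),
.rs (.part [131, 36, 88] [1, 0, 0] [] []),
.rs (.part [128, 48, 72] [0, 0, 0] [7] []),
.rs (.part [136, 1, 118] [0, 0, 1] [] []),
.rs (.join 2 4 6 5 4 3 [(2, 2)]),
.rs (.le 2 144 128 7 1),
.rs (.deg 6 [0, 1, 3]),
.rs (.l2 0 65 80 6 1 1),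
.rs (.lipl 1 136 216 2 80),
.rs (.part [80, 133, 42] [0, 1, 0] [] []),
.rs (.part [192, 40, 20] [0, 0, 0] [3] []),
.rs (.le 1 130 128 7 2),
.rs (.part [75, 16, 164] [1, 0, 0] [] []),
.rs (.lip 2 131 187 56),
.rs (.l2 1 34 48 5 1 1),
.rs (.l2 2 130 144 7 2 1),
.degU 6 [(0, 2), (1, 4)],
.rs (.l2 1 20 132 2 1 1),
.rs (.lipl 2 98 110 2 12),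
.rs (.join 1 32 7 2 2 0 [(5, 0)]),
.rs (.part [120, 3, 132] [1, 0, 0] [] []),
.rs (.mono 2 64 68 1),
.rs (.join 1 2 5 2 0 3 [(1, 1)]),
.rs (.lipl 0 80 113 0 33),
.rs (.part [64, 6, 145] [0, 0, 0] [40] []),
.rs (.ab2 0 34),
.rs (.ab2 1 18),
.degU 3 [(0, 1), (1, 2), (2, 2)],
.degU 2 [(1, 2), (2, 3)],
.rs (.join 2 16 7 2 2 0 [(4, 0)]),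
.rs (.lipl 0 3 195 1 192),
.rs (.le 1 48 16 4 2),
.rs (.part [128, 40, 80] [0, 0, 0] [7] []),
.rs (.lipl 2 24 90 1 66),
.rs (.part [144, 40, 64] [0, 0, 0] [7] []),
.rs (.lipl 2 84 118 1 34),
.rs (.part [59, 68, 128] [1, 0, 0] [] []),
.rs (.l2 1 129 144 7 1 1),
.rs (.ab2 2 136),
.rs (.join 2 4 4 4 1 3 [(2, 0)]),
.rs (.deg 6 [0, 2, 2]),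
.rs (.join 1 32 7 2 3 0 [(5, 1)]),
.rs (.lipl 2 20 156 2 136),
.rs (.l2 2 20 24 4 1 1),
.rs (.l2 0 17 33 0 1 1),
.rs (.mono 2 136 152 1),
.rs (.part [72, 160, 16] [0, 0, 0] [7] []),
.rs (.join 1 8 6 2 1 1 [(3, 0)]),
.rs (.lipl 2 20 30 2 10),
.rs (.mono 2 64 72 1),
.rs (.join 1 2 7 2 2 2 [(1, 2)]),
.rs (.join 0 8 7 2 2 0 [(3, 0)]),
.rs (.part [57, 130, 68] [1, 0, 0] [] []),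
.rs (.l2 0 129 132 7 1 1),
.rs (.lipl 1 130 147 0 17),
.rs (.l2 2 18 48 4 1 1),
.rs (.lipl 1 20 92 2 72),
.rs (.ab2 2 20),
.rs (.le 1 3 2 1 2),
.rs (.join 2 1 4 4 1 3 [(0, 0)]),
.rs (.part [70, 136, 49] [1, 0, 0] [] []),
.rs (.join 2 4 5 2 1 1 [(2, 0)]),
.rs (.join 2 4 5 4 2 3 [(2, 1)]),
.rs (.join 0 8 7 2 0 2 [(3, 0)]),
.rs (.part [9, 150, 96] [0, 1, 0] [] []),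
.rs (.part [65, 140, 50] [0, 1, 0] [] []),
.rs (.le 2 68 64 6 3),
.rs (.part [184, 65, 6] [1, 0, 0] [] []),
.rs (.part [39, 72, 144] [1, 0, 0] [] []),
.rs (.lipl 1 132 166 1 34),
.rs (.mono 2 1 3 1),
.rs (.part [32, 199, 24] [0, 1, 0] [] []),
.rs (.join 2 8 4 2 0 2 [(3, 0)]),
.rs (.part [66, 132, 1] [0, 0, 0] [56] []),
.rs (.l2 2 5 9 0 1 1),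
.rs (.join 2 2 5 5 1 4 [(1, 0)]),
.rs (.lipl 2 11 107 1 96),
.rs (.lipl 2 34 46 2 12),
.rs (.lipl 2 13 173 1 160),
.rs (.le 2 48 16 4 2),
.rs (.part [27, 96, 132] [1, 0, 0] [] []),
.rs (.mono 2 16 144 1),
.rs (.join 2 1 1 4 1 3 [(0, 0)]),
.rs (.le 1 130 2 1 3),
.rs (.part [10, 128, 117] [0, 0, 1] [] []),
.rs (.lipl 2 52 182 2 130),
.rs (.join 0 16 7 2 0 3 [(4, 1)]),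
.rs (.part [65, 142, 48] [0, 1, 0] [] []),
.rs (.join 2 32 7 2 2 0 [(5, 0)]),
.rs (.lip 2 40 47 7),
.rs (.part [45, 16, 194] [1, 0, 0] [] []),
.rs (.l2 2 65 192 6 1 2),
.rs (.l2 1 130 160 7 1 1),
.rs (.part [209, 34, 12] [1, 0, 0] [] []),
.rs (.join 2 1 2 4 2 3 [(0, 1)]),
.rs (.part [128, 6, 65] [0, 0, 0] [56] []),
.rs (.mono 2 64 192 1),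
.rs (.join 2 1 5 4 2 3 [(0, 1)]),
.rs (.l2 2 5 20 2 1 1),
.rs (.lipl 1 66 226 2 160),
.rs (.le 1 33 1 0 1),
.rs (.join 2 1 2 2 2 0 [(0, 0)]),
.rs (.ab 0 7),
.rs (.l2 2 68 192 6 1 2),
.rs (.le 0 192 128 7 1),
.rs (.lipl 1 10 46 2 36),
.rs (.part [201, 18, 36] [1, 0, 0] [] []),
.rs (.part [85, 136, 34] [1, 0, 0] [] []),
.rs (.join 0 1 4 2 2 1 [(0, 1)]),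
.rs (.le 1 129 1 0 2),
.rs (.lip 0 8 11 7),
.rs (.mono 2 8 12 1),
.rs (.lipl 0 8 73 2 65),
.rs (.l2 2 130 132 7 2 1),
.rs (.join 1 2 2 1 0 1 [(1, 0)]),
.rs (.part [8, 192, 48] [0, 0, 0] [7] []),
.rs (.l2 2 72 80 6 1 2),
.rs (.mono 2 1 5 1),
.rs (.mono 0 8 136 1),
.rs (.l2 0 65 66 6 1 1),
.rs (.l2 1 10 34 1 1 1),
.rs (.l2 2 136 192 7 2 1),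
.rs (.join 2 32 6 3 2 2 [(5, 1)]),
.rs (.le 1 10 8 3 1),
.rs (.join 1 1 6 2 1 2 [(0, 1)]),
.rs (.part [15, 192, 48] [1, 0, 0] [] []),
.rs (.part [80, 34, 141] [0, 0, 1] [] []),
.rs (.le 2 12 4 2 1),
.rs (.join 2 2 6 3 3 0 [(1, 0)]),
.rs (.join 2 1 6 2 2 0 [(0, 0)]),
.rs (.part [121, 4, 130] [1, 0, 0] [] []),
.rs (.join 2 1 1 2 1 1 [(0, 0)]),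
.rs (.lipl 0 33 43 2 10),
.rs (.lipl 1 12 156 2 144),
.rs (.part [24, 99, 132] [0, 1, 0] [] []),
.rs (.lipl 2 144 240 2 96),
.rs (.lip 1 12 140 128),
.rs (.join 0 2 7 2 2 0 [(1, 0)]),
.rs (.l2 1 20 80 4 1 1),
.rs (.un 1 2),
.rs (.join 2 16 6 4 3 3 [(4, 2)]),
.rs (.l2 1 3 33 0 1 1),
.rs (.le 0 130 2 1 2),
.rs (.lip 1 1 57 56),
.rs (.l2 0 17 48 4 1 1),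
.rs (.l2 2 24 80 4 2 1),
.rs (.lip 0 136 139 7),
.rs (.hall [2] [0, 1, 6, 7]),
.rs (.lipl 2 96 106 2 10),
.rs (.part [64, 48, 140] [0, 0, 0] [3] []),
.rs (.mono 1 4 5 1),
.rs (.l2 2 24 80 4 1 2),
.rs (.join 1 1 3 2 1 1 [(0, 0)]),
.rs (.join 2 16 5 4 3 1 [(4, 0)]),
.rs (.lip 2 32 39 7),
.rs (.part [8, 132, 115] [0, 0, 1] [] []),
.rs (.lip 0 48 54 7),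
.rs (.join 0 1 5 2 2 1 [(0, 1)]),
.rs (.join 2 8 6 4 4 0 [(3, 0)]),
.rs (.ab2 0 192),
.rs (.part [192, 5, 2] [0, 0, 0] [56] []),
.rs (.mono 2 128 132 1),
.rs (.lip 1 5 61 56),
.rs (.part [2, 136, 117] [0, 0, 1] [] []),
.rs (.join 2 4 4 4 2 3 [(2, 1)]),
.rs (.lipl 1 18 154 2 136),
.rs (.join 1 64 7 2 1 2 [(6, 1)]),
.rs (.join 0 64 7 2 2 0 [(6, 0)]),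
.rs (.join 1 12 5 2 1 1 [(2, 0), (3, 0)]),
.rs (.part [1, 80, 174] [0, 0, 1] [] []),
.rs (.join 2 1 2 3 1 2 [(0, 0)]),
.rs (.join 2 1 3 4 2 2 [(0, 0)]),
.rs (.join 1 1 2 1 1 0 [(0, 0)]),
.rs (.l2 1 24 136 3 1 1),
.rs (.lip 0 136 141 7),
.rs (.part [43, 64, 148] [1, 0, 0] [] []),
.rs (.l2 1 65 192 6 1 1),
.rs (.part [129, 66, 4] [0, 0, 0] [56] []),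
.rs (.part [197, 10, 48] [1, 0, 0] [] []),
.rs (.deg 6 [2, 0, 2]),
.rs (.lipl 2 192 228 2 36),
.rs (.lip 0 48 51 7),
.rs (.part [128, 18, 109] [0, 0, 1] [] []),
.rs (.part [6, 65, 128] [0, 0, 0] [56] []),
.rs (.part [128, 27, 100] [0, 1, 0] [] []),
.rs (.part [129, 46, 80] [0, 1, 0] [] []),
.rs (.mono 2 8 40 1),
.rs (.part [71, 48, 136] [1, 0, 0] [] []),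
.rs (.le 1 192 64 6 1),
.rs (.mono 2 130 138 1),
.rs (.part [72, 128, 55] [0, 0, 1] [] []),
.rs (.join 2 16 6 4 3 1 [(4, 0)]),
.rs (.part [136, 2, 117] [0, 0, 1] [] []),
.rs (.mono 0 8 9 1),
.rs (.lipl 0 65 195 0 130),
.rs (.join 2 4 7 2 0 3 [(2, 1)]),
.rs (.part [128, 24, 97] [0, 0, 0] [6] []),
.rs (.lipl 0 72 105 0 33),
.rs (.hall [2] [1, 2, 6, 7]),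
.rs (.l2 2 18 20 4 2 2),
.degU 7 [(1, 2), (2, 4)],
.rs (.part [23, 192, 40] [1, 0, 0] [] []),
.rs (.le 2 12 8 3 2),
.rs (.part [113, 130, 12] [1, 0, 0] [] []),
.rs (.lipl 1 64 200 1 136),
.rs (.mono 2 10 42 1),
.rs (.lip 0 72 75 7),
.rs (.le 0 68 4 2 2),
.rs (.part [72, 23, 160] [0, 1, 0] [] []),
.rs (.l2 1 129 130 7 1 1),
.rs (.part [65, 170, 20] [0, 1, 0] [] []),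
.rs (.lip 2 1 57 56),
.rs (.l2 0 10 18 1 1 1),
.rs (.mono 0 16 24 1),
.rs (.le 0 80 16 4 2),
.rs (.part [96, 128, 31] [0, 0, 1] [] []),
.rs (.l2 2 9 10 3 1 1),
.rs (.part [128, 65, 62] [0, 0, 1] [] []),
.rs (.join 1 1 1 2 2 0 [(0, 0)]),
.rs (.join 2 4 7 5 2 3 [(2, 0)]),
.rs (.ab2 2 68),
.rs (.lipl 2 161 171 2 10),
.rs (.part [64, 160, 24] [0, 0, 0] [7] []),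
.rs (.mono 1 128 144 1),
.rs (.join 2 4 5 4 2 2 [(2, 0)]),
.rs (.join 2 1 7 4 2 2 [(0, 0)]),
.rs (.deg 5 [2, 1, 0]),
.rs (.join 2 32 7 3 1 2 [(5, 0)]),
.rs (.l2 1 17 80 4 1 1),
.rs (.join 2 8 7 4 3 3 [(3, 2)]),
.rs (.join 2 4 3 4 3 1 [(2, 0)]),
.rs (.l2 0 6 20 2 1 1),
.rs (.l2 2 160 192 7 1 1),
.degU 4 [(0, 1), (2, 4)],
.rs (.l2 2 144 160 7 2 1),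
.rs (.part [137, 48, 70] [1, 0, 0] [] []),
.rs (.part [129, 12, 114] [0, 0, 1] [] []),
.degU 0 [(0, 2), (1, 3)],
.rs (.deg 4 [1, 0, 2]),
.rs (.lipl 2 138 155 2 17),
.rs (.part [169, 6, 80] [1, 0, 0] [] []),
.rs (.join 2 16 5 2 1 2 [(4, 1)]),
.rs (.join 2 8 4 2 2 2 [(3, 2)]),
.rs (.hall [2] [0, 1, 2, 6]),
.rs (.l2 2 5 132 2 2 1),
.rs (.part [64, 6, 185] [0, 0, 1] [] []),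
.rs (.l2 2 66 80 6 2 2),
.rs (.join 2 2 5 5 4 1 [(1, 0)]),
.rs (.mono 0 16 80 1),
.rs (.le 1 144 128 7 1),
.rs (.lipl 2 28 157 0 129),
.rs (.le 1 48 32 5 1),
.rs (.part [64, 129, 6] [0, 0, 0] [56] []),
.rs (.join 1 2 4 2 2 1 [(1, 1)]),
.rs (.ordE 0 1 3),
.rs (.mono 1 64 68 1),
.rs (.lipl 2 18 90 1 72),
.rs (.le 1 36 4 2 4),
.rs (.mono 1 32 40 1),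
.rs (.join 1 2 2 2 1 2 [(1, 1)]),
.rs (.join 2 2 2 2 0 2 [(1, 0)]),
.rs (.deg 6 [1, 0, 3]),
.rs (.lipl 2 19 155 1 136),
.rs (.l2 2 10 34 1 1 1),
.rs (.part [129, 80, 46] [0, 0, 1] [] []),
.rs (.join 2 16 7 4 3 3 [(4, 2)]),
.rs (.un 1 6),
.rs (.join 0 1 3 2 3 0 [(0, 1)]),
.rs (.ordE 1 8 3),
.rs (.l2 1 5 9 0 1 1),
.rs (.l2 1 40 48 5 1 1),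
.rs (.lip 2 104 110 7),
.rs (.l2 0 68 80 6 1 1),
.rs (.l2 2 3 130 1 1 1),
.rs (.join 2 16 7 4 2 2 [(4, 0)]),
.rs (.lip 1 0 56 56),
.rs (.l2 1 80 144 4 1 1),
.rs (.mono 1 32 34 1),
.rs (.part [139, 80, 36] [1, 0, 0] [] []),
.rs (.le 1 80 64 6 2),
.rs (.part [8, 130, 117] [0, 0, 1] [] []),
.rs (.join 2 1 6 2 2 2 [(0, 2)]),
.rs (.ab2 0 3),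
.rs (.part [64, 24, 161] [0, 0, 0] [6] []),
.rs (.join 1 2 6 2 0 2 [(1, 0)]),
.rs (.lip 0 64 69 7),
.rs (.join 2 4 6 2 2 2 [(2, 2)]),
.rs (.lip 0 40 45 7),
.rs (.part [17, 194, 44] [0, 1, 0] [] []),
.rs (.part [121, 6, 128] [1, 0, 0] [] []),
.rs (.part [130, 1, 124] [0, 0, 1] [] []),
.rs (.part [144, 72, 39] [0, 0, 1] [] []),
.rs (.lipl 2 20 150 2 130),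
.rs (.part [129, 26, 100] [0, 1, 0] [] []),
.rs (.part [57, 132, 66] [1, 0, 0] [] []),
.rs (.l2 1 130 192 7 1 1),
.rs (.l2 1 68 192 6 1 1),
.rs (.mono 0 13 15 2),
.degU 5 [(1, 3), (2, 2)],
.rs (.lipl 0 64 193 1 129),
.rs (.part [68, 3, 128] [0, 0, 0] [56] []),
.rs (.part [130, 89, 36] [0, 1, 0] [] []),
.rs (.part [138, 17, 100] [1, 0, 0] [] []),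
.rs (.lipl 2 10 170 2 160),
.rs (.part [8, 96, 151] [0, 0, 1] [] []),
.rs (.ab2 2 48),
.rs (.join 1 2 2 2 2 0 [(1, 0)]),
.rs (.ordE 0 1 2),
.rs (.part [5, 128, 122] [0, 0, 1] [] []),
.rs (.part [41, 66, 148] [1, 0, 0] [] []),
.rs (.part [92, 160, 3] [1, 0, 0] [] []),
.rs (.part [68, 185, 2] [0, 1, 0] [] []),
.rs (.join 1 4 7 2 0 2 [(2, 0)]),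
.rs (.part [72, 39, 144] [0, 1, 0] [] []),
.rs (.join 2 1 2 2 2 2 [(0, 2)]),
.rs (.part [17, 34, 204] [0, 0, 1] [] []),
.rs (.lipl 0 9 105 1 96),
.rs (.lipl 2 20 212 1 192),
.rs (.join 2 2 3 4 2 3 [(1, 1)]),
.rs (.part [24, 128, 103] [0, 0, 1] [] []),
.rs (.part [185, 68, 2] [1, 0, 0] [] []),
.rs (.part [184, 64, 7] [1, 0, 0] [] []),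
.rs (.le 1 65 1 0 1),
.rs (.ordE 2 128 2),
.rs (.le 2 12 4 2 4),
.rs (.l2 0 24 48 4 1 1),
.rs (.lipl 2 81 93 2 12),
.rs (.lip 1 8 14 7),
.rs (.part [128, 99, 28] [0, 1, 0] [] []),
.rs (.le 1 6 4 2 1),
.rs (.l2 1 6 68 2 1 1),
.rs (.hall [1] [0, 2, 6, 7]),
.rs (.lip 2 6 46 56),
.rs (.lipl 1 10 30 2 20),
.rs (.join 2 1 4 4 2 4 [(0, 2)]),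
.rs (.lipl 2 162 174 1 12),
.rs (.l2 1 40 136 3 1 1),
.rs (.deg 5 [0, 1, 2]),
.rs (.l2 2 12 40 3 2 1),
.rs (.lip 2 208 214 7),
.rs (.ab2 1 72),
.degU 2 [(1, 4), (2, 1)],
.rs (.le 2 66 2 1 3),
.rs (.part [9, 80, 166] [0, 0, 1] [] []),
.rs (.lipl 2 36 54 0 18),
.rs (.mono 2 32 96 1),
.rs (.part [58, 5, 192] [1, 0, 0] [] []),
.rs (.part [193, 34, 28] [1, 0, 0] [] []),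
.rs (.join 2 4 6 3 3 0 [(2, 0)]),
.rs (.l2 0 66 130 1 1 1),
.rs (.lipl 0 9 43 2 34),
.rs (.join 2 1 7 2 2 0 [(0, 0)]),
.rs (.part [8, 33, 214] [0, 0, 1] [] []),
.rs (.le 2 144 16 4 3),
.rs (.lipl 1 20 54 2 34),
.rs (.part [11, 160, 84] [1, 0, 0] [] []),
.rs (.part [17, 192, 46] [0, 0, 1] [] []),
.rs (.lipl 0 65 197 1 132),
.rs (.part [64, 10, 181] [0, 0, 1] [] []),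
.rs (.lipl 1 40 106 2 66),
.rs (.lipl 0 130 139 0 9),
.rs (.join 0 16 7 2 0 2 [(4, 0)]),
.rs (.part [1, 192, 6] [0, 0, 0] [56] []),
.rs (.join 2 2 6 4 2 3 [(1, 1)]),
.rs (.le 0 136 128 7 2),
.rs (.join 1 32 6 2 0 2 [(5, 0)]),
.rs (.mono 2 2 18 1),
.rs (.part [64, 33, 158] [0, 0, 1] [] []),
.rs (.part [225, 6, 24] [1, 0, 0] [] []),
.rs (.part [9, 164, 82] [0, 1, 0] [] []),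
.rs (.part [1, 62, 192] [0, 1, 0] [] []),
.rs (.l2 1 24 72 3 1 1),
.degU 3 [(0, 5)],
.rs (.part [121, 130, 4] [1, 0, 0] [] []),
.rs (.l2 0 9 10 3 1 1),
.degU 3 [(0, 1), (1, 4)],
.rs (.join 1 16 5 2 2 0 [(4, 0)]),
.rs (.lipl 0 9 141 1 132),
.rs (.join 1 1 5 2 1 1 [(0, 0)]),
.rs (.part [6, 105, 144] [0, 1, 0] [] []),
.rs (.join 2 2 7 2 0 3 [(1, 1)]),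
.rs (.join 1 16 7 2 0 2 [(4, 0)]),
.rs (.join 2 2 5 3 2 2 [(1, 1)]),
.rs (.lip 1 16 19 7),
.rs (.part [65, 28, 162] [0, 1, 0] [] []),
.rs (.join 0 1 2 2 2 0 [(0, 0)]),
.rs (.join 2 2 7 4 3 3 [(1, 2)]),
.rs (.part [17, 196, 42] [0, 1, 0] [] []),
.rs (.join 2 2 7 3 1 2 [(1, 0)]),
.rs (.le 0 144 16 4 1),
.rs (.mono 0 64 96 1),
.rs (.lipl 2 38 182 2 144),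
.rs (.part [137, 18, 100] [1, 0, 0] [] []),
.rs (.le 2 129 1 0 2),
.rs (.ordE 1 32 3),
.rs (.part [128, 20, 107] [0, 0, 1] [] []),
.rs (.l2 0 6 34 1 1 1),
.rs (.l2 2 34 36 5 2 2),
.rs (.mono 1 32 33 1),
.rs (.mono 2 192 208 1),
.rs (.lipl 2 12 142 2 130),
.rs (.mono 1 128 136 1),
.rs (.join 0 1 3 2 2 0 [(0, 0)]),
.rs (.deg 7 [0, 4, 0]),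
.rs (.srt 0 4 0 3 1),
.rs (.join 2 2 4 4 1 3 [(1, 0)]),
.rs (.join 1 4 7 2 2 1 [(2, 1)]),
.rs (.le 1 136 8 3 3),
.rs (.lip 1 40 47 7),
.rs (.join 2 16 7 3 2 2 [(4, 1)]),
.rs (.un 0 6),
.rs (.join 1 64 7 2 1 1 [(6, 0)]),
.rs (.part [68, 130, 1] [0, 0, 0] [56] []),
.rs (.join 1 3 5 2 1 1 [(0, 0), (1, 0)]),
.rs (.le 1 9 8 3 2),
.degU 7 [(0, 2), (2, 4)],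
.rs (.lipl 0 9 29 2 20),
.rs (.lipl 1 40 170 2 130),
.rs (.part [17, 98, 140] [0, 1, 0] [] []),
.rs (.join 2 1 1 3 1 2 [(0, 0)]),
.rs (.lip 2 72 79 7),
.rs (.lipl 0 129 209 2 80),
.rs (.deg 4 [0, 3, 0]),
.rs (.ab2 2 5),
.rs (.mono 0 128 136 1),
.rs (.join 1 2 5 2 1 1 [(1, 0)]),
.rs (.join 1 2 6 2 1 2 [(1, 1)]),
.rs (.l2 1 33 36 5 1 1),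
.rs (.l2 1 144 192 7 1 1),
.rs (.part [65, 128, 62] [0, 0, 1] [] []),
.rs (.part [144, 66, 45] [0, 0, 1] [] []),
.rs (.l2 2 6 18 1 1 1),
.rs (.l2 2 6 10 1 1 1),
.rs (.part [139, 36, 80] [1, 0, 0] [] []),
.rs (.l2 1 66 72 6 1 1),
.rs (.part [10, 1, 244] [0, 0, 1] [] []),
.rs (.lipl 2 18 51 0 33),
.rs (.hall [0] [0, 1, 2, 7]),
.rs (.lip 0 128 131 7),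
.rs (.join 2 4 6 4 4 0 [(2, 0)]),
.rs (.lipl 1 36 228 2 192),
.rs (.le 1 80 16 4 4),
.rs (.le 2 129 128 7 3),
.rs (.lipl 1 18 114 1 96),
.rs (.join 2 4 5 5 3 2 [(2, 0)]),
.rs (.part [201, 20, 34] [1, 0, 0] [] []),
.rs (.lipl 2 145 157 2 12),
.rs (.join 1 1 4 2 1 1 [(0, 0)]),
.rs (.mono 2 4 132 1),
.rs (.join 2 4 4 4 2 2 [(2, 0)]),
.rs (.lipl 2 56 185 0 129),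
.rs (.l2 2 136 144 7 1 2),
.rs (.part [60, 129, 66] [1, 0, 0] [] []),
.rs (.part [80, 2, 173] [0, 0, 1] [] []),
.rs (.lipl 0 65 195 1 130),
.rs (.un 2 0),
.rs (.part [23, 128, 104] [1, 0, 0] [] []),
.rs (.mono 2 128 129 1),
.rs (.join 0 64 7 2 3 0 [(6, 1)]),
.rs (.le 0 66 2 1 1),
.rs (.join 2 4 5 4 4 3 [(2, 3)]),
.rs (.l2 2 20 36 2 1 1),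
.rs (.lipl 2 50 62 2 12),
.rs (.lipl 1 34 102 1 68),
.rs (.le 1 20 4 2 4),
.rs (.part [128, 3, 76] [0, 0, 0] [48] []),
.rs (.lipl 2 20 53 2 33),
.rs (.lipl 1 68 86 1 18),
.rs (.l2 2 68 96 6 2 1),
.rs (.part [33, 198, 24] [0, 1, 0] [] []),
.rs (.mono 2 65 97 1),
.rs (.deg 0 [0, 1, 2]),
.rs (.lipl 2 14 94 1 80),
.rs (.join 1 1 1 2 2 2 [(0, 2)]),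
.rs (.part [59, 64, 132] [1, 0, 0] [] []),
.rs (.join 1 4 5 2 0 2 [(2, 0)]),
.rs (.part [17, 12, 226] [0, 0, 1] [] []),
.rs (.mono 0 4 6 1),
.rs (.l2 2 66 96 6 2 1),
.rs (.l2 2 160 192 7 2 1),
.rs (.join 2 4 3 3 2 2 [(2, 1)]),
.rs (.l2 1 17 48 4 1 1),
.rs (.l2 1 36 68 2 1 1),
.rs (.part [139, 16, 100] [1, 0, 0] [] []),
.rs (.l2 0 6 10 1 1 1),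
.rs (.lipl 2 26 155 0 129),
.rs (.part [5, 2, 248] [0, 0, 1] [] []),
.rs (.part [96, 15, 144] [0, 1, 0] [] []),
.rs (.lipl 0 17 27 1 10),
.rs (.mono 0 2 130 1),
.rs (.join 2 16 5 4 3 3 [(4, 2)]),
.rs (.join 2 32 7 2 2 2 [(5, 2)]),
.rs (.join 2 32 6 4 4 0 [(5, 0)]),
.rs (.join 2 16 6 2 2 2 [(4, 2)]),
.rs (.lip 0 192 197 7),
.rs (.le 2 144 128 7 2),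
.rs (.lipl 2 52 181 1 129),
.rs (.ordE 0 128 3),
.rs (.part [232, 6, 17] [1, 0, 0] [] []),
.rs (.part [128, 38, 89] [0, 1, 0] [] []),
.rs (.lip 1 16 23 7),
.rs (.join 0 1 2 1 1 0 [(0, 0)]),
.rs (.le 1 20 16 4 2),
.rs (.part [65, 136, 54] [0, 0, 1] [] []),
.rs (.lipl 1 12 46 2 34),
.rs (.lipl 2 22 158 1 136),
.degU 6 [(1, 2), (2, 4)],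
.rs (.l2 1 36 40 5 1 1),
.rs (.l2 1 6 12 2 1 1),
.rs (.part [129, 2, 124] [0, 0, 1] [] []),
.rs (.l2 2 40 96 5 2 1),
.rs (.l2 2 40 72 3 1 1),
.rs (.part [1, 12, 242] [0, 0, 1] [] []),
.rs (.join 2 1 6 3 2 2 [(0, 1)]),
.rs (.lipl 2 162 182 1 20),
.rs (.l2 1 12 40 3 1 1),
.rs (.part [3, 92, 160] [0, 1, 0] [] []),
.rs (.join 2 2 3 2 1 1 [(1, 0)]),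
.rs (.join 1 1 7 2 1 2 [(0, 1)]),
.rs (.join 1 20 5 2 1 1 [(2, 0), (4, 0)]),
.rs (.join 2 1 7 3 2 2 [(0, 1)]),
.rs (.part [65, 132, 2] [0, 0, 0] [56] []),
.rs (.lipl 2 25 155 2 130),
.rs (.part [106, 144, 5] [1, 0, 0] [] []),
.rs (.lipl 2 12 46 2 34),
.rs (.join 2 2 3 4 1 3 [(1, 0)]),
.rs (.l2 1 66 80 6 1 1),
.rs (.lip 2 196 252 56),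
.rs (.join 1 10 5 2 1 1 [(1, 0), (3, 0)]),
.degU 0 [(0, 3), (1, 2)],
.degU 0 [(0, 5)],
.rs (.part [199, 24, 32] [1, 0, 0] [] []),
.rs (.ab2 2 65),
.rs (.deg 4 [0, 2, 1]),
.rs (.lipl 2 148 182 0 34),
.rs (.part [153, 68, 34] [1, 0, 0] [] []),
.rs (.join 2 2 7 4 2 2 [(1, 0)]),
.rs (.join 2 8 5 2 0 2 [(3, 0)]),
.rs (.part [180, 72, 3] [1, 0, 0] [] []),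
.rs (.join 0 4 4 2 0 2 [(2, 0)]),
.rs (.part [9, 4, 242] [0, 0, 1] [] []),
.rs (.ab 2 1),
.rs (.part [64, 160, 22] [0, 0, 0] [] [(0, 9)]),
.rs (.part [129, 44, 82] [0, 1, 0] [] []),
.rs (.l2 2 17 129 0 2 1),
.rs (.join 2 1 5 3 2 2 [(0, 1)]),
.rs (.part [1, 72, 182] [0, 0, 1] [] []),
.rs (.lipl 1 12 30 2 18),
.rs (.lipl 1 36 102 0 66),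
.rs (.lipl 2 56 121 0 65),
.rs (.hall [1] [3, 5, 6, 7]),
.rs (.part [89, 130, 36] [1, 0, 0] [] []),
.rs (.join 2 4 5 5 2 3 [(2, 0)]),
.rs (.part [64, 47, 144] [0, 1, 0] [] []),
.rs (.lip 2 8 15 7),
.rs (.part [122, 5, 128] [1, 0, 0] [] []),
.rs (.lipl 0 9 139 2 130),
.rs (.lipl 2 26 94 1 68),
.rs (.join 1 2 5 2 2 1 [(1, 1)]),
.rs (.lipl 0 192 225 0 33),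
.rs (.lip 0 192 248 56),
.rs (.part [105, 6, 144] [1, 0, 0] [] []),
.rs (.le 1 33 1 0 2),
.rs (.part [43, 20, 192] [1, 0, 0] [] []),
.rs (.l2 0 24 72 3 1 1),
.rs (.le 1 10 8 3 2),
.rs (.part [24, 167, 64] [0, 1, 0] [] []),
.rs (.lipl 0 129 163 1 34),
.rs (.part [64, 40, 146] [0, 0, 0] [5] []),
.degU 3 [(0, 1), (2, 4)],
.rs (.lipl 1 64 84 1 20),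
.rs (.part [129, 28, 98] [0, 1, 0] [] []),
.rs (.part [129, 114, 12] [0, 1, 0] [] []),
.rs (.l2 2 6 10 1 2 2),
.rs (.lipl 1 10 90 2 80),
.rs (.le 1 72 64 6 2),
.rs (.part [129, 34, 92] [0, 0, 1] [] []),
.rs (.lipl 2 10 142 2 132),
.rs (.le 1 10 2 1 2),
.rs (.l2 1 12 20 2 1 1),
.rs (.l2 1 24 144 4 1 1),
.rs (.join 2 4 4 3 2 1 [(2, 0)]),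
.rs (.lipl 2 6 150 0 144),
.rs (.l2 0 65 96 6 1 1),
.rs (.lipl 2 20 53 0 33),
.rs (.ab 0 5),
.rs (.le 1 129 128 7 1),
.rs (.lipl 0 136 153 0 17),
.rs (.lip 0 6 30 56),
.rs (.join 2 8 5 3 2 2 [(3, 1)]),
.rs (.part [77, 48, 130] [1, 0, 0] [] []),
.rs (.l2 0 33 65 0 1 1),
.rs (.join 1 16 6 2 0 2 [(4, 0)]),
.rs (.mono 0 197 199 2),
.rs (.l2 1 6 36 2 1 1),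
.rs (.part [17, 46, 192] [0, 1, 0] [] []),
.rs (.join 2 4 7 4 2 2 [(2, 0)]),
.rs (.le 1 34 32 5 1),
.rs (.l2 1 6 34 1 1 1),
.rs (.join 1 6 6 2 1 1 [(1, 0), (2, 0)]),
.rs (.lipl 0 80 89 0 9),
.rs (.mono 1 2 130 1),
.rs (.lipl 2 196 230 2 34),
.rs (.part [134, 80, 41] [1, 0, 0] [] []),
.rs (.part [54, 64, 137] [1, 0, 0] [] []),
.rs (.lipl 2 82 118 2 36),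
.rs (.join 2 4 5 4 4 1 [(2, 1)]),
.rs (.join 1 64 7 2 0 2 [(6, 0)]),
.rs (.l2 2 80 96 6 1 2),
.rs (.ordE 2 4 1),
.rs (.lipl 1 36 228 1 192),
.rs (.lip 1 0 7 7),
.rs (.l2 0 18 130 1 1 1),
.rs (.ab2 0 160),
.rs (.part [195, 48, 12] [1, 0, 0] [] []),
.rs (.deg 7 [1, 1, 2]),
.rs (.join 2 32 6 2 2 2 [(5, 2)]),
.rs (.lip 1 132 188 56),
.rs (.un 1 1),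
.rs (.le 2 34 32 5 1),
.rs (.lipl 2 161 173 2 12),
.rs (.lipl 1 34 178 1 144),
.rs (.l2 1 18 24 4 1 1),
.rs (.join 1 8 5 1 1 0 [(3, 0)]),
.rs (.lipl 2 20 29 1 9),
.rs (.join 2 2 5 4 4 3 [(1, 3)]),
.rs (.join 2 16 7 4 1 3 [(4, 0)]),
.rs (.lipl 2 20 30 1 10),
.rs (.join 2 4 6 3 2 1 [(2, 0)]),
.rs (.l2 1 5 68 2 1 1),
.rs (.l2 1 80 192 6 1 1),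
.rs (.le 0 36 32 5 1),
.rs (.join 1 32 6 2 1 2 [(5, 1)]),
.rs (.join 1 64 7 2 2 0 [(6, 0)]),
.rs (.part [144, 96, 15] [0, 0, 1] [] []),
.rs (.le 2 17 1 0 4),
.rs (.join 1 8 5 2 2 1 [(3, 1)]),
.rs (.l2 1 132 160 7 1 1),
.rs (.join 1 32 7 2 1 1 [(5, 0)]),
.rs (.ab2 2 160),
.rs (.part [64, 16, 175] [0, 0, 1] [] []),
.rs (.part [24, 192, 32] [0, 0, 0] [7] []),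
.rs (.le 0 66 2 1 2),
.rs (.le 0 65 64 6 1),
.rs (.deg 0 [1, 0, 2]),
.rs (.l2 1 136 160 7 1 1),
.rs (.mono 2 64 96 1),
.rs (.join 1 2 5 2 1 2 [(1, 1)]),
.rs (.join 2 8 4 4 2 2 [(3, 0)]),
.rs (.join 2 8 7 3 3 0 [(3, 0)]),
.rs (.join 2 32 7 2 1 1 [(5, 0)]),
.rs (.part [1, 130, 124] [0, 0, 1] [] []),
.rs (.l2 2 12 72 3 2 1),
.rs (.mono 1 128 160 1),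
.rs (.l2 0 12 72 3 1 1),
.rs (.le 2 96 64 6 2),
.rs (.part [80, 8, 167] [0, 0, 1] [] []),
.rs (.un 2 3),
.rs (.deg 1 [2, 0, 1]),
.rs (.deg 6 [1, 2, 1]),
.rs (.l2 2 66 80 6 1 2),
.rs (.l2 2 80 96 6 1 1),
.rs (.lipl 2 36 108 2 72),
.rs (.part [3, 180, 72] [0, 1, 0] [] []),
.rs (.part [55, 64, 136] [1, 0, 0] [] []),
.rs (.lip 0 66 90 56),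
.rs (.le 1 24 8 3 2),
.rs (.lipl 2 36 53 2 17),
.rs (.join 0 8 6 2 1 2 [(3, 1)]),
.rs (.lipl 0 1 193 1 192),
.rs (.part [225, 10, 20] [1, 0, 0] [] []),
.rs (.l2 2 144 192 7 2 1),
.rs (.lipl 2 146 179 2 33),
.rs (.mono 2 4 12 1),
.rs (.lip 1 66 122 56),
.rs (.join 0 1 4 2 2 0 [(0, 0)]),
.rs (.part [128, 68, 50] [0, 0, 0] [] [(0, 9)]),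
.rs (.part [105, 18, 132] [1, 0, 0] [] []),
.rs (.le 1 136 128 7 3),
.rs (.mono 0 128 144 1),
.rs (.part [5, 122, 128] [0, 1, 0] [] []),
.rs (.l2 0 5 9 0 1 1),
.rs (.le 1 136 8 3 1),
.rs (.ordE 2 32 2),
.rs (.lipl 2 19 179 1 160),
.rs (.join 2 1 6 4 3 1 [(0, 0)]),
.rs (.ab2 2 34),
.rs (.join 2 2 5 4 3 3 [(1, 2)]),
.rs (.part [72, 129, 54] [0, 0, 1] [] []),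
.rs (.join 2 1 4 4 0 4 [(0, 0)]),
.rs (.le 2 20 16 4 1),
.rs (.l2 1 9 33 0 1 1),
.rs (.srt 0 4 0 3 4),
.rs (.lipl 2 84 214 2 130),
.rs (.join 1 32 6 2 2 2 [(5, 2)]),
.rs (.join 1 8 6 2 1 2 [(3, 1)]),
.rs (.part [65, 180, 10] [0, 1, 0] [] []),
.rs (.lipl 2 18 154 2 136),
.rs (.lipl 2 52 182 0 130),
.rs (.part [122, 1, 132] [1, 0, 0] [] []),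
.rs (.l2 2 136 160 7 1 1),
.rs (.lipl 1 24 90 2 66),
.rs (.part [129, 52, 74] [0, 1, 0] [] []),
.rs (.lip 1 8 15 7),
.rs (.join 2 2 5 4 2 2 [(1, 0)]),
.rs (.l2 1 9 12 3 1 1),
.rs (.part [144, 72, 32] [0, 0, 0] [7] []),
.rs (.lipl 2 98 107 2 9),
.rs (.lipl 0 66 195 0 129),
.rs (.join 2 8 4 4 3 1 [(3, 0)]),
.rs (.lipl 2 20 30 0 10),
.rs (.le 1 65 64 6 2),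
.rs (.part [199, 40, 16] [1, 0, 0] [] []),
.rs (.join 0 2 4 2 1 1 [(1, 0)]),
.rs (.lipl 1 68 198 0 130),
.rs (.lipl 2 34 54 2 20),
.rs (.l2 0 5 17 0 1 1),
.degU 3 [(1, 1), (2, 4)],
.rs (.part [58, 64, 133] [1, 0, 0] [] []),
.rs (.part [96, 23, 136] [0, 1, 0] [] []),
.rs (.join 2 4 4 4 3 2 [(2, 1)]),
.rs (.part [29, 32, 194] [1, 0, 0] [] []),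
.rs (.lipl 2 224 244 2 20),
.rs (.lipl 2 200 220 2 20),
.rs (.deg 2 [1, 1, 1]),
.rs (.join 2 2 4 5 2 3 [(1, 0)]),
.rs (.lip 0 129 153 56),
.rs (.part [65, 32, 158] [0, 0, 1] [] []),
.rs (.ordE 0 64 1),
.rs (.join 1 4 3 2 0 2 [(2, 0)]),
.rs (.join 0 4 5 2 2 0 [(2, 0)]),
.rs (.part [9, 102, 144] [0, 1, 0] [] []),
.rs (.part [129, 56, 70] [0, 1, 0] [] []),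
.rs (.l2 2 65 66 6 2 1),
.rs (.join 0 2 6 2 0 2 [(1, 0)]),
.rs (.part [134, 96, 25] [1, 0, 0] [] []),
.rs (.deg 3 [1, 1, 1]),
.rs (.mono 1 16 24 1),
.rs (.lipl 2 164 182 2 18),
.rs (.join 2 32 6 2 2 1 [(5, 1)]),
.rs (.join 0 1 7 2 2 1 [(0, 1)]),
.rs (.deg 6 [0, 3, 1]),
.rs (.part [16, 128, 111] [0, 0, 1] [] []),
.rs (.part [9, 210, 36] [0, 1, 0] [] []),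
.rs (.join 1 8 4 2 3 0 [(3, 1)]),
.rs (.part [64, 3, 132] [0, 0, 0] [56] []),
.rs (.part [136, 7, 112] [0, 1, 0] [] []),
.rs (.lipl 0 65 85 1 20),
.degU 1 [(1, 1), (2, 4)],
.rs (.join 1 2 2 2 0 2 [(1, 0)]),
.rs (.mono 2 9 13 1),
.rs (.ab2 2 10),
.rs (.join 1 4 3 1 0 1 [(2, 0)]),
.rs (.lipl 2 41 173 2 132),
.rs (.lipl 2 21 93 1 72),
.rs (.mono 2 32 34 1),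
.rs (.lipl 2 18 54 1 36),
.rs (.lipl 2 160 228 1 68),
.rs (.mono 1 32 48 1),
.rs (.part [61, 128, 66] [1, 0, 0] [] []),
.rs (.join 2 64 7 5 1 4 [(6, 0)]),
.rs (.lipl 2 20 180 2 160),
.rs (.join 1 4 5 2 1 1 [(2, 0)]),
.rs (.part [64, 40, 144] [0, 0, 0] [7] []),
.rs (.part [195, 20, 40] [1, 0, 0] [] []),
.rs (.join 2 1 7 2 2 1 [(0, 1)]),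
.rs (.join 2 2 7 4 3 2 [(1, 1)]),
.rs (.le 2 65 1 0 4),
.rs (.lipl 0 129 197 2 68),
.rs (.join 2 2 2 4 3 2 [(1, 1)]),
.rs (.l2 2 18 66 1 1 2),
.rs (.join 1 6 3 2 2 0 [(1, 0), (2, 0)]),
.rs (.part [65, 144, 46] [0, 0, 1] [] []),
.rs (.mono 1 1 3 1),
.rs (.l2 2 66 80 6 2 1),
.rs (.mono 2 68 76 1),
.rs (.l2 1 33 129 0 1 1),
.rs (.l2 0 80 96 6 1 1),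
.rs (.deg 2 [2, 1, 0]),
.rs (.l2 2 3 18 1 1 2),
.rs (.part [147, 72, 36] [1, 0, 0] [] []),
.rs (.lip 2 192 248 56),
.rs (.join 2 8 6 3 1 2 [(3, 0)]),
.rs (.mono 2 160 176 1),
.rs (.mono 0 64 66 1),
.rs (.mono 2 2 6 1),
.rs (.part [29, 2, 224] [1, 0, 0] [] []),
.rs (.lipl 2 6 15 0 9),
.rs (.l2 2 17 20 4 2 2),
.rs (.join 2 2 3 5 3 2 [(1, 0)]),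
.rs (.part [129, 6, 64] [0, 0, 0] [56] []),
.rs (.mono 2 33 37 1),
.rs (.join 2 4 7 3 1 2 [(2, 0)]),
.rs (.part [186, 68, 1] [1, 0, 0] [] []),
.rs (.l2 2 65 129 0 1 1),
.rs (.join 2 1 1 2 1 2 [(0, 1)]),
.rs (.un 0 5),
.rs (.join 1 1 4 1 1 0 [(0, 0)]),
.rs (.lipl 2 22 118 1 96),
.rs (.ab2 2 9),
.degU 6 [(0, 2), (1, 1), (2, 3)],
.rs (.hall [1] [3, 4, 5, 6]),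
.rs (.join 2 4 3 4 4 0 [(2, 0)]),
.rs (.part [48, 192, 8] [0, 0, 0] [7] []),
.rs (.lip 1 96 103 7),
.rs (.part [89, 132, 34] [1, 0, 0] [] []),
.rs (.lipl 1 130 139 0 9),
.rs (.join 1 1 5 2 0 3 [(0, 1)]),
.rs (.part [64, 24, 164] [0, 0, 0] [3] []),
.rs (.part [1, 136, 118] [0, 0, 1] [] []),
.rs (.le 2 80 16 4 3),
.rs (.part [64, 34, 157] [0, 0, 1] [] []),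
.rs (.mono 1 8 24 1),
.rs (.part [3, 188, 64] [0, 1, 0] [] []),
.rs (.part [13, 144, 98] [1, 0, 0] [] []),
.rs (.l2 1 6 18 1 1 1),
.rs (.join 2 4 3 4 3 2 [(2, 1)]),
.rs (.join 1 1 6 2 1 1 [(0, 0)]),
.rs (.lipl 2 146 182 1 36),
.rs (.join 2 8 5 4 3 1 [(3, 0)]),
.rs (.lipl 2 34 106 2 72),
.rs (.ordE 0 4 1),
.rs (.le 0 40 32 5 1),
.rs (.join 2 2 4 4 2 2 [(1, 0)]),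
.rs (.part [75, 20, 160] [1, 0, 0] [] []),
.rs (.lip 2 160 167 7),
.rs (.hall [0] [3, 4, 5, 7]),
.rs (.le 2 132 128 7 3),
.rs (.join 0 2 5 2 1 1 [(1, 0)]),
.rs (.part [69, 136, 50] [1, 0, 0] [] []),
.rs (.part [62, 1, 192] [1, 0, 0] [] []),
.rs (.part [9, 162, 84] [0, 1, 0] [] []),
.rs (.le 2 129 128 7 2),
.rs (.part [17, 128, 110] [0, 0, 1] [] []),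
.rs (.part [9, 2, 244] [0, 0, 1] [] []),
.rs (.lip 0 132 180 56),
.rs (.part [65, 52, 138] [0, 1, 0] [] []),
.rs (.join 1 32 7 2 0 2 [(5, 0)]),
.rs (.l2 2 72 96 6 1 2),
.rs (.part [68, 128, 59] [0, 0, 1] [] []),
.rs (.le 0 72 8 3 2),
.rs (.lipl 0 128 208 1 80),
.rs (.join 0 1 7 2 1 1 [(0, 0)]),
.rs (.deg 1 [0, 0, 3]),
.rs (.part [16, 40, 199] [0, 0, 1] [] []),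
.rs (.lip 1 2 26 56),
.rs (.part [3, 132, 64] [0, 0, 0] [56] []),
.rs (.join 2 1 7 3 1 2 [(0, 0)]),
.rs (.part [62, 65, 128] [1, 0, 0] [] []),
.rs (.lip 2 134 190 56),
.rs (.join 2 2 4 4 3 1 [(1, 0)]),
.rs (.lip 0 16 23 7),
.rs (.part [195, 36, 24] [1, 0, 0] [] []),
.rs (.lipl 1 132 198 1 66),
.rs (.lipl 2 18 30 2 12),
.rs (.part [77, 160, 18] [1, 0, 0] [] []),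
.rs (.part [216, 33, 6] [1, 0, 0] [] []),
.rs (.lipl 2 38 118 2 80),
.rs (.ab2 2 144),
.rs (.part [65, 4, 186] [0, 0, 1] [] []),
.rs (.lipl 2 12 30 0 18),
.rs (.mono 2 64 65 1),
.rs (.join 0 32 7 2 0 3 [(5, 1)]),
.rs (.l2 2 130 144 7 1 2),
.rs (.part [197, 18, 40] [1, 0, 0] [] []),
.rs (.l2 2 12 40 3 1 1),
.rs (.part [30, 128, 97] [1, 0, 0] [] []),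
.rs (.ordE 1 2 2),
.rs (.part [60, 128, 67] [1, 0, 0] [] []),
.rs (.lipl 1 34 226 2 192),
.rs (.join 2 1 4 3 2 2 [(0, 1)]),
.rs (.part [9, 34, 212] [0, 0, 1] [] []),
.rs (.join 0 1 6 2 1 1 [(0, 0)]),
.rs (.join 0 24 7 2 1 1 [(3, 0), (4, 0)]),
.rs (.join 1 4 4 2 2 3 [(2, 3)]),
.rs (.le 1 36 32 5 2),
.rs (.part [113, 136, 6] [1, 0, 0] [] []),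
.rs (.le 1 68 64 6 1),
.rs (.part [72, 16, 167] [0, 0, 1] [] []),
.rs (.join 2 4 7 3 2 1 [(2, 0)]),
.rs (.part [128, 80, 40] [0, 0, 0] [7] []),
.rs (.join 1 48 6 2 1 1 [(4, 0), (5, 0)]),
.rs (.part [69, 144, 42] [1, 0, 0] [] []),
.rs (.part [33, 30, 192] [0, 1, 0] [] []),
.rs (.l2 0 9 17 0 1 1),
.rs (.part [65, 156, 34] [0, 1, 0] [] []),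
.rs (.lipl 2 28 158 2 130),
.rs (.part [68, 57, 130] [0, 1, 0] [] []),
.rs (.lipl 0 9 141 2 132),
.rs (.lipl 0 9 75 0 66),
.rs (.part [40, 199, 16] [0, 1, 0] [] []),
.rs (.hall [0, 1] [0, 1, 2]),
.rs (.l2 2 10 18 1 1 1),
.rs (.part [128, 72, 48] [0, 0, 0] [7] []),
.rs (.lipl 2 146 158 1 12),
.rs (.lipl 2 50 62 1 12),
.rs (.join 1 4 6 2 2 1 [(2, 1)]),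
.rs (.le 1 144 16 4 1),
.rs (.part [130, 57, 68] [0, 1, 0] [] []),
.rs (.join 1 2 3 2 0 2 [(1, 0)]),
.rs (.ab 2 7),
.degU 1 [(0, 1), (1, 2), (2, 2)],
.rs (.part [27, 36, 192] [1, 0, 0] [] []),
.rs (.mono 0 8 72 1),
.rs (.join 2 2 2 4 1 3 [(1, 0)]),
.rs (.join 1 16 7 2 2 2 [(4, 2)]),
.rs (.part [128, 40, 84] [0, 0, 0] [3] []),
.rs (.le 2 96 32 5 2),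
.rs (.part [160, 31, 64] [0, 1, 0] [] []),
.rs (.part [139, 48, 68] [1, 0, 0] [] []),
.rs (.part [39, 144, 72] [1, 0, 0] [] []),
.rs (.join 2 2 6 2 2 0 [(1, 0)]),
.rs (.part [8, 160, 87] [0, 0, 1] [] []),
.rs (.mono 0 128 130 1),
.rs (.join 0 64 7 2 1 2 [(6, 1)]),
.rs (.lipl 1 12 108 2 96),
.rs (.lipl 2 34 178 1 144),
.rs (.part [64, 17, 174] [0, 0, 1] [] []),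
.rs (.l2 2 10 34 1 2 2),
.rs (.join 2 16 5 2 2 1 [(4, 1)]),
.degU 4 [(1, 2), (2, 3)],
.rs (.part [3, 216, 36] [0, 1, 0] [] []),
.rs (.lipl 2 28 62 1 34),
.rs (.lipl 0 1 73 1 72),
.rs (.join 1 1 5 2 1 2 [(0, 1)]),
.rs (.join 2 2 5 4 4 1 [(1, 1)]),
.rs (.l2 0 9 129 0 1 1),
.rs (.l2 1 3 18 1 1 1),
.rs (.mono 0 128 160 1),
.rs (.part [195, 24, 36] [1, 0, 0] [] []),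
.rs (.lip 2 152 158 7),
.rs (.lip 2 144 151 7),
.rs (.deg 3 [0, 3, 0]),
.rs (.le 0 129 128 7 1),
.rs (.part [141, 80, 34] [1, 0, 0] [] []),
.rs (.join 2 32 7 4 2 3 [(5, 1)]),
.rs (.part [128, 24, 96] [0, 0, 0] [7] []),
.rs (.join 1 1 6 2 3 2 [(0, 3)]),
.rs (.part [32, 23, 200] [0, 1, 0] [] []),
.rs (.mono 1 128 130 1),
.rs (.lipl 1 36 116 1 80),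
.rs (.part [147, 36, 72] [1, 0, 0] [] []),
.rs (.ab2 0 65),
.rs (.join 0 4 6 2 1 2 [(2, 1)]),
.rs (.part [128, 12, 115] [0, 0, 1] [] []),
.rs (.part [1, 60, 194] [0, 1, 0] [] []),
.rs (.ab2 2 192),
.rs (.join 2 8 5 2 1 2 [(3, 1)]),
.rs (.le 1 160 128 7 1),
.rs (.part [65, 48, 142] [0, 0, 1] [] []),
.rs (.part [12, 193, 50] [0, 1, 0] [] []),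
.rs (.le 1 40 32 5 2),
.rs (.lip 2 6 62 56),
.rs (.part [80, 15, 160] [0, 1, 0] [] []),
.rs (.join 0 8 5 2 1 1 [(3, 0)]),
.rs (.join 1 6 4 2 1 1 [(1, 0), (2, 0)]),
.rs (.ab2 2 80),
.rs (.part [129, 20, 106] [0, 0, 1] [] []),
.rs (.part [202, 33, 20] [1, 0, 0] [] []),
.rs (.l2 2 24 144 4 1 2),
.rs (.join 1 2 4 1 1 0 [(1, 0)]),
.rs (.mono 2 8 9 1),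
.rs (.join 2 1 5 4 3 1 [(0, 0)]),
.rs (.join 2 2 7 4 2 3 [(1, 1)]),
.rs (.ordE 2 128 3),
.rs (.lipl 0 192 202 0 10),
.rs (.l2 1 136 144 7 1 1),
.rs (.l2 0 130 144 7 1 1),
.rs (.join 2 64 7 3 1 2 [(6, 0)]),
.rs (.join 1 4 5 2 1 2 [(2, 1)]),
.rs (.join 0 32 7 2 0 2 [(5, 0)]),
.rs (.l2 1 3 10 1 1 1),
.rs (.join 2 2 4 2 2 0 [(1, 0)]),
.rs (.l2 1 10 12 3 1 1),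
.rs (.ordE 1 4 1),
.degU 0 [(0, 1), (2, 4)],
.rs (.join 2 4 5 3 2 2 [(2, 1)]),
.rs (.l2 2 24 72 3 1 2),
.rs (.deg 7 [2, 1, 1]),
.rs (.join 2 4 6 4 3 1 [(2, 0)]),
.rs (.lipl 1 20 212 2 192),
.rs (.part [2, 192, 5] [0, 0, 0] [56] []),
.rs (.lipl 2 140 173 2 33),
.rs (.part [1, 96, 158] [0, 0, 1] [] []),
.rs (.part [130, 104, 21] [0, 1, 0] [] []),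
.rs (.part [120, 130, 5] [1, 0, 0] [] []),
.rs (.join 0 1 6 2 3 0 [(0, 1)]),
.rs (.srt 0 1 0 0 3),
.rs (.lipl 0 65 201 2 136),
.rs (.part [128, 16, 111] [0, 0, 1] [] []),
.rs (.l2 1 132 136 7 1 1),
.rs (.mono 2 192 196 1),
.rs (.l2 2 33 36 5 2 1),
.rs (.join 0 1 5 2 2 0 [(0, 0)]),
.rs (.l2 2 10 40 3 1 1),
.rs (.l2 2 130 160 7 1 2),
.rs (.part [141, 66, 48] [1, 0, 0] [] []),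
.rs (.part [5, 130, 64] [0, 0, 0] [56] []),
.rs (.lipl 0 65 99 1 34),
.rs (.l2 1 9 17 0 1 1),
.rs (.join 2 4 7 2 3 3 [(2, 4)]),
.rs (.l2 0 130 160 7 1 1),
.rs (.join 2 16 5 5 3 3 [(4, 1)]),
.rs (.part [65, 176, 14] [0, 1, 0] [] []),
.rs (.un 2 5),
.rs (.part [45, 128, 82] [1, 0, 0] [] []),
.rs (.join 1 1 6 2 0 2 [(0, 0)]),
.rs (.lipl 2 24 154 1 130),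
.rs (.lipl 0 9 153 2 144),
.rs (.part [43, 80, 132] [1, 0, 0] [] []),
.rs (.join 1 8 6 2 2 0 [(3, 0)]),
.rs (.join 2 8 5 4 2 3 [(3, 1)]),
.rs (.l2 2 24 136 3 1 1),
.rs (.part [77, 18, 160] [1, 0, 0] [] []),
.rs (.le 1 144 128 7 2),
.rs (.mono 0 4 12 1),
.rs (.part [128, 34, 93] [0, 0, 1] [] []),
.rs (.ab2 2 24),
.rs (.mono 2 64 80 1),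
.rs (.part [129, 8, 118] [0, 0, 1] [] []),
.rs (.join 2 4 4 3 1 2 [(2, 0)]),
.rs (.lipl 1 144 154 2 10),
.rs (.join 1 48 7 2 1 1 [(4, 0), (5, 0)]),
.rs (.mono 2 33 35 1),
.rs (.le 1 72 64 6 1),
.rs (.join 0 16 7 2 1 1 [(4, 0)]),
.degU 2 [(0, 1), (1, 1), (2, 3)],
.rs (.join 1 4 4 2 0 3 [(2, 1)]),
.rs (.mono 1 64 80 1),
.rs (.join 2 16 7 4 3 1 [(4, 0)]),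
.rs (.join 2 1 3 3 1 2 [(0, 0)]),
.rs (.part [39, 128, 88] [1, 0, 0] [] []),
.rs (.part [15, 128, 112] [1, 0, 0] [] []),
.rs (.mono 1 1 33 1),
.rs (.part [3, 160, 92] [0, 0, 1] [] []),
.rs (.part [8, 55, 192] [0, 1, 0] [] []),
.rs (.part [9, 6, 240] [0, 0, 1] [] []),
.rs (.ordE 1 8 1),
.rs (.lip 0 24 29 7),
.rs (.l2 2 132 136 7 2 1),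
.rs (.part [160, 23, 72] [0, 1, 0] [] []),
.rs (.deg 3 [0, 2, 1]),
.rs (.join 2 4 3 4 0 4 [(2, 0)]),
.rs (.join 2 16 7 2 2 1 [(4, 1)]),
.rs (.join 2 1 4 4 3 2 [(0, 1)]),
.rs (.l2 1 80 96 6 1 1),
.rs (.l2 2 6 20 2 1 1),
.rs (.join 1 2 6 2 3 0 [(1, 1)]),
.rs (.le 2 65 64 6 3),
.rs (.l2 0 10 130 1 1 1),
.rs (.lipl 1 64 193 1 129),
.rs (.join 2 1 5 4 1 4 [(0, 1)]),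
.rs (.lipl 0 65 209 1 144),
.rs (.lip 2 168 175 7),
.rs (.lipl 2 21 157 1 136),
.rs (.lip 2 48 55 7),
.rs (.part [43, 144, 68] [1, 0, 0] [] []),
.rs (.part [33, 10, 148] [0, 0, 0] [64] []),
.rs (.lipl 2 10 90 2 80),
.rs (.lipl 1 40 232 2 192),
.rs (.lipl 2 84 118 2 34),
.rs (.lip 1 72 79 7),
.rs (.le 0 72 64 6 2),
.rs (.le 1 96 64 6 1),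
.rs (.mono 1 8 136 1),
.rs (.ordE 2 8 2),
.rs (.lipl 1 40 172 2 132),
.rs (.join 2 4 7 2 2 0 [(2, 0)]),
.rs (.lipl 0 72 89 1 17),
.rs (.part [66, 1, 188] [0, 0, 1] [] []),
.rs (.mono 0 89 121 2),
.rs (.lipl 2 69 103 2 34),
.rs (.deg 3 [1, 0, 2]),
.rs (.join 2 2 5 4 3 4 [(1, 3)]),
.rs (.part [9, 240, 6] [0, 1, 0] [] []),
.rs (.lipl 2 41 171 2 130),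
.rs (.part [71, 24, 160] [1, 0, 0] [] []),
.rs (.le 1 20 4 2 2),
.rs (.lipl 2 84 117 2 33),
.rs (.le 1 129 1 0 1),
.rs (.l2 1 129 160 7 1 1),
.rs (.lipl 1 66 210 1 144),
.rs (.le 1 136 8 3 2),
.rs (.deg 7 [0, 0, 4]),
.degU 3 [(0, 4), (1, 1)],
.rs (.mono 0 113 121 2),
.rs (.part [33, 128, 94] [0, 0, 1] [] []),
.rs (.join 1 8 6 2 3 0 [(3, 1)]),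
.rs (.part [192, 32, 31] [0, 0, 1] [] []),
.rs (.le 2 96 32 5 3),
.rs (.mono 2 16 80 1),
.rs (.part [130, 16, 109] [0, 0, 1] [] []),
.rs (.part [193, 36, 26] [1, 0, 0] [] []),
.rs (.join 1 8 4 1 0 1 [(3, 0)]),
.rs (.join 1 4 5 2 4 2 [(2, 4)]),
.rs (.join 2 1 6 3 2 1 [(0, 0)]),
.rs (.join 2 4 4 4 3 4 [(2, 3)]),
.rs (.part [160, 15, 80] [0, 1, 0] [] []),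
.rs (.lipl 0 65 201 1 136),
.rs (.le 2 130 2 1 2),
.rs (.lipl 1 18 54 2 36),
.rs (.lipl 2 164 182 0 18),
.rs (.l2 2 17 48 4 1 3),
.rs (.part [9, 114, 132] [0, 1, 0] [] []),
.rs (.lipl 2 98 115 2 17),
.rs (.join 2 1 6 2 0 3 [(0, 1)]),
.rs (.join 0 2 6 2 1 1 [(1, 0)]),
.rs (.le 2 10 8 3 2),
.rs (.lipl 1 68 102 1 34),
.rs (.lipl 0 17 153 0 136),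
.rs (.l2 2 129 192 7 1 2),
.rs (.lipl 2 100 110 2 10),
.rs (.join 1 1 4 2 1 2 [(0, 1)]),
.rs (.join 2 16 6 4 1 3 [(4, 0)]),
.rs (.ab 2 2),
.rs (.join 2 16 5 4 1 3 [(4, 0)]),
.rs (.lipl 1 132 141 0 9),
.rs (.part [169, 80, 6] [1, 0, 0] [] []),
.rs (.le 1 160 32 5 2),
.rs (.join 2 16 5 2 0 2 [(4, 0)]),
.rs (.lipl 2 52 117 1 65),
.rs (.ordE 1 128 4),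
.rs (.lip 2 80 87 7),
.rs (.join 0 4 6 2 0 3 [(2, 1)]),
.rs (.l2 0 40 48 5 1 1),
.rs (.srt 0 2 0 1 3),
.rs (.l2 2 65 129 0 1 2),
.rs (.un 0 2),
.rs (.l2 2 20 68 2 1 3),
.rs (.deg 5 [1, 2, 0]),
.rs (.lipl 1 10 154 2 144),
.rs (.join 2 2 2 4 3 3 [(1, 2)]),
.rs (.part [9, 18, 228] [0, 0, 1] [] []),
.rs (.part [120, 132, 3] [1, 0, 0] [] []),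
.rs (.l2 1 6 20 2 1 1),
.rs (.ordE 1 16 3),
.rs (.mono 2 192 200 1),
.rs (.part [4, 192, 3] [0, 0, 0] [56] []),
.rs (.lipl 2 36 102 1 66),
.rs (.part [32, 85, 138] [0, 1, 0] [] []),
.rs (.mono 0 2 3 1),
.rs (.part [195, 40, 20] [1, 0, 0] [] []),
.rs (.mono 1 32 160 1),
.rs (.part [9, 86, 160] [0, 1, 0] [] []),
.rs (.l2 1 36 96 5 1 1),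
.rs (.part [130, 64, 61] [0, 0, 1] [] []),
.rs (.mono 2 192 194 1),
.rs (.lipl 1 36 228 0 192),
.rs (.lip 2 56 63 7),
.rs (.part [72, 2, 181] [0, 0, 1] [] []),
.rs (.join 1 4 3 2 0 3 [(2, 1)]),
.rs (.part [10, 193, 52] [0, 1, 0] [] []),
.rs (.part [80, 136, 32] [0, 0, 0] [7] []),
.rs (.join 1 1 3 2 3 0 [(0, 1)]),
.rs (.l2 1 129 132 7 1 1),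
.rs (.l2 0 65 68 6 1 1),
.rs (.join 0 4 6 2 2 0 [(2, 0)]),
.rs (.join 2 2 2 3 2 1 [(1, 0)]),
.rs (.join 1 8 6 2 2 1 [(3, 1)]),
.rs (.ab2 2 3),
.rs (.le 1 36 32 5 1),
.rs (.deg 1 [2, 1, 0]),
.rs (.part [29, 66, 160] [1, 0, 0] [] []),
.rs (.l2 0 66 68 6 1 1),
.rs (.part [16, 15, 224] [0, 1, 0] [] []),
.rs (.l2 1 72 80 6 1 1),
.rs (.part [1, 20, 234] [0, 0, 1] [] []),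
.rs (.join 1 4 5 2 2 2 [(2, 2)]),
.rs (.part [65, 178, 12] [0, 1, 0] [] []),
.rs (.mono 0 2 34 1),
.rs (.hall [0, 1] [4, 5, 6]),
.rs (.join 2 1 7 5 2 3 [(0, 0)]),
.rs (.l2 2 33 36 5 1 1),
.rs (.lipl 2 146 158 2 12),
.rs (.l2 0 130 132 7 1 1),
.rs (.l2 0 17 129 0 1 1),
.rs (.lip 2 96 103 7),
.rs (.lipl 2 148 182 2 34),
.rs (.l2 0 10 24 3 1 1),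
.rs (.ordE 2 8 1),
.rs (.le 0 136 8 3 2),
.rs (.join 1 2 7 2 1 1 [(1, 0)]),
.rs (.part [62, 128, 65] [1, 0, 0] [] []),
.rs (.lipl 2 130 166 2 36),
.rs (.join 1 8 6 2 2 2 [(3, 2)]),
.rs (.l2 2 6 36 2 1 1),
.rs (.part [64, 5, 130] [0, 0, 0] [56] []),
.rs (.le 2 20 16 4 2),
.rs (.l2 2 10 18 1 1 2),
.rs (.join 2 2 4 4 0 4 [(1, 0)]),
.rs (.part [120, 5, 130] [1, 0, 0] [] []),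
.rs (.part [1, 34, 220] [0, 0, 1] [] []),
.rs (.part [66, 57, 132] [0, 1, 0] [] []),
.rs (.mono 0 32 36 1),
.rs (.join 1 1 5 2 3 0 [(0, 1)]),
.rs (.part [128, 24, 98] [0, 0, 0] [5] []),
.rs (.le 2 80 16 4 2),
.rs (.join 2 2 7 2 0 2 [(1, 0)]),
.rs (.l2 2 12 36 2 1 2),
.rs (.join 2 4 6 5 2 3 [(2, 0)]),
.rs (.lipl 2 18 150 2 132),
.rs (.join 2 4 6 2 0 2 [(2, 0)]),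
.rs (.le 2 33 1 0 1),
.rs (.lip 0 2 58 56),
.rs (.join 1 1 7 2 2 0 [(0, 0)]),
.rs (.le 0 160 32 5 2),
.rs (.join 1 18 5 2 1 1 [(1, 0), (4, 0)]),
.rs (.le 0 96 32 5 2),
.rs (.part [65, 2, 188] [0, 0, 1] [] []),
.rs (.mono 1 44 60 2),
.rs (.lipl 0 17 27 0 10),
.rs (.part [8, 48, 192] [0, 0, 0] [7] []),
.rs (.part [72, 147, 36] [0, 1, 0] [] []),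
.rs (.le 1 66 64 6 1),
.rs (.un 1 7),
.rs (.part [184, 66, 5] [1, 0, 0] [] []),
.rs (.part [9, 160, 86] [0, 0, 1] [] []),
.rs (.lipl 2 96 114 2 18),
.rs (.mono 2 4 6 1),
.rs (.un 1 5),
.rs (.l2 2 66 68 6 2 1),
.rs (.lipl 1 10 142 1 132),
.rs (.mono 2 12 28 1),
.rs (.join 2 4 6 2 1 1 [(2, 0)]),
.rs (.join 2 8 7 4 1 3 [(3, 0)]),
.rs (.join 2 2 6 5 4 3 [(1, 2)]),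
.degU 7 [(0, 1), (1, 2), (2, 3)],
.rs (.part [121, 2, 132] [1, 0, 0] [] []),
.rs (.lipl 2 20 86 2 66),
.rs (.join 1 32 7 2 0 3 [(5, 1)]),
.rs (.l2 2 34 130 1 2 2),
.rs (.part [99, 136, 20] [1, 0, 0] [] []),
.rs (.lipl 2 148 182 1 34),
.rs (.l2 2 48 80 4 1 2),
.rs (.le 2 65 1 0 2),
.rs (.l2 2 48 80 4 2 1),
.rs (.lipl 2 18 86 2 68),
.rs (.l2 1 10 24 3 1 1),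
.rs (.deg 4 [2, 1, 0]),
.rs (.l2 2 5 129 0 1 1),
.rs (.mono 1 1 65 1),
.rs (.join 1 32 6 2 2 1 [(5, 1)]),
.rs (.ordE 1 1 2),
.rs (.part [40, 80, 128] [0, 0, 0] [7] []),
.degU 4 [(0, 1), (1, 2), (2, 2)],
.rs (.part [39, 80, 136] [1, 0, 0] [] []),
.rs (.part [75, 36, 144] [1, 0, 0] [] []),
.rs (.l2 0 48 144 4 1 1),
.rs (.deg 5 [3, 0, 0]),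
.rs (.part [17, 8, 230] [0, 0, 1] [] []),
.rs (.part [133, 96, 26] [1, 0, 0] [] []),
.rs (.ordE 2 2 2),
.rs (.l2 1 66 192 6 1 1),
.rs (.join 2 2 7 5 2 3 [(1, 0)]),
.rs (.lipl 2 97 107 2 10),
.rs (.mono 2 16 24 1),
.rs (.lipl 1 66 198 1 132),
.rs (.part [128, 24, 103] [0, 0, 1] [] []),
.rs (.l2 2 65 66 6 1 2),
.degU 0 [(0, 4), (2, 1)],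
.rs (.join 2 4 4 4 4 0 [(2, 0)]),
.rs (.lipl 1 36 46 2 10),
.rs (.l2 1 12 68 2 1 1),
.rs (.lipl 1 144 216 2 72),
.rs (.join 2 4 6 3 2 2 [(2, 1)]),
.rs (.part [128, 65, 6] [0, 0, 0] [56] []),
.rs (.part [64, 38, 153] [0, 1, 0] [] []),
.rs (.mono 0 1 65 1),
.rs (.deg 4 [1, 2, 0]),
.rs (.lip 1 2 58 56),
.rs (.lipl 0 9 75 2 66),
.rs (.join 1 2 5 2 4 2 [(1, 4)]),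
.rs (.join 2 1 7 4 1 3 [(0, 0)]),
.rs (.l2 2 144 192 7 1 2),
.rs (.join 1 32 6 2 0 3 [(5, 1)]),
.rs (.join 2 16 5 2 2 2 [(4, 2)]),
.rs (.join 2 8 7 4 3 1 [(3, 0)]),
.rs (.mono 2 132 148 1),
.rs (.part [105, 130, 20] [1, 0, 0] [] []),
.rs (.le 1 9 1 0 2),
.rs (.lipl 1 20 180 1 160),
.rs (.lipl 2 164 181 2 17),
.rs (.lipl 2 74 110 1 36),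
.rs (.join 1 10 4 2 1 1 [(1, 0), (3, 0)]),
.rs (.join 2 1 1 2 2 2 [(0, 2)]),
.rs (.part [225, 12, 18] [1, 0, 0] [] []),
.rs (.part [80, 136, 39] [0, 0, 1] [] []),
.rs (.l2 2 20 80 4 2 1),
.rs (.part [133, 80, 42] [1, 0, 0] [] []),
.rs (.lipl 0 3 195 2 192),
.degU 3 [(0, 2), (1, 1), (2, 2)],
.rs (.lipl 2 37 109 1 72),
.rs (.join 1 1 5 2 2 1 [(0, 1)]),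
.rs (.le 1 48 16 4 1),
.rs (.le 2 36 4 2 4),
.rs (.part [139, 96, 20] [1, 0, 0] [] []),
.rs (.part [129, 18, 108] [0, 0, 1] [] []),
.rs (.join 2 4 5 4 3 2 [(2, 1)]),
.rs (.part [128, 10, 117] [0, 0, 1] [] []),
.rs (.le 2 96 64 6 3),
.rs (.lipl 2 100 118 0 18),
.rs (.join 2 1 7 2 0 2 [(0, 0)]),
.rs (.ordE 1 64 1),
.rs (.lip 0 24 31 7),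
.rs (.mono 0 64 65 1),
.rs (.le 0 9 8 3 1),
.rs (.join 2 4 7 2 2 1 [(2, 1)]),
.rs (.part [17, 10, 164] [0, 0, 0] [64] []),
.rs (.join 1 6 5 2 1 1 [(1, 0), (2, 0)]),
.rs (.join 2 64 7 4 3 1 [(6, 0)]),
.rs (.ab 2 5),
.rs (.lipl 0 9 153 0 144),
.rs (.lipl 2 80 240 2 160),
.rs (.lipl 2 160 170 2 10),
.rs (.l2 2 17 20 4 2 1),
.rs (.lipl 2 97 109 2 12),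
.rs (.join 1 1 1 1 0 1 [(0, 0)]),
.rs (.lipl 2 14 110 1 96),
.rs (.part [4, 3, 192] [0, 0, 0] [56] []),
.rs (.join 2 4 7 4 3 2 [(2, 1)]),
.rs (.lipl 2 164 174 0 10),
.rs (.l2 2 40 96 5 1 2),
.rs (.join 1 8 7 2 1 2 [(3, 1)]),
.rs (.lip 1 64 104 56),
.rs (.mono 0 4 132 1),
.rs (.lipl 2 74 94 1 20),
.rs (.part [43, 68, 144] [1, 0, 0] [] []),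
.rs (.join 1 2 7 2 3 3 [(1, 4)]),
.rs (.part [160, 64, 31] [0, 0, 1] [] []),
.rs (.ab2 0 10),
.rs (.l2 2 136 144 7 2 1),
.rs (.mono 1 16 18 1),
.rs (.le 2 129 128 7 1),
.rs (.part [17, 200, 38] [0, 1, 0] [] []),
.rs (.part [3, 144, 108] [0, 0, 1] [] []),
.rs (.mono 1 8 9 1),
.rs (.mono 1 2 6 1),
.rs (.join 2 4 5 4 3 3 [(2, 2)]),
.rs (.part [113, 6, 136] [1, 0, 0] [] []),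
.rs (.join 2 8 6 2 0 3 [(3, 1)]),
.rs (.mono 2 80 81 1),
.rs (.join 0 2 3 2 1 1 [(1, 0)]),
.rs (.part [68, 130, 57] [0, 0, 1] [] []),
.rs (.deg 5 [0, 0, 3]),
.rs (.le 1 80 64 6 1),
.rs (.lipl 2 14 143 2 129),
.rs (.join 2 1 1 4 2 2 [(0, 0)]),
.rs (.lipl 0 17 89 0 72),
.rs (.lip 2 67 123 56),
.rs (.l2 2 72 80 6 2 1),
.rs (.join 1 16 5 2 1 1 [(4, 0)]),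
.rs (.join 0 4 6 2 1 1 [(2, 0)]),
.rs (.l2 2 3 33 0 1 1),
.rs (.part [43, 4, 208] [1, 0, 0] [] []),
.rs (.lipl 2 38 118 0 80),
.rs (.join 1 16 6 2 2 2 [(4, 2)]),
.rs (.le 1 192 128 7 1),
.rs (.ab2 0 130),
.rs (.part [65, 50, 140] [0, 1, 0] [] []),
.rs (.part [184, 6, 65] [1, 0, 0] [] []),
.rs (.mono 0 64 192 1),
.rs (.mono 1 128 192 1),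
.rs (.part [3, 232, 20] [0, 1, 0] [] []),
.rs (.lipl 0 144 153 0 9),
.rs (.part [68, 186, 1] [0, 1, 0] [] []),
.rs (.mono 1 1 17 1),
.rs (.part [136, 80, 32] [0, 0, 0] [7] []),
.rs (.le 1 80 16 4 2),
.rs (.part [9, 128, 118] [0, 0, 1] [] []),
.rs (.l2 0 6 68 2 1 1),
.rs (.part [199, 8, 48] [1, 0, 0] [] []),
.rs (.l2 0 3 33 0 1 1),
.rs (.lipl 2 44 173 0 129),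
.rs (.join 1 8 5 1 0 1 [(3, 0)]),
.rs (.part [32, 24, 192] [0, 0, 0] [7] []),
.rs (.l2 2 12 136 3 2 1),
.rs (.le 0 72 64 6 1),
.rs (.lipl 1 36 116 2 80),
.rs (.part [15, 96, 144] [1, 0, 0] [] []),
.rs (.l2 0 144 192 7 1 1),
.rs (.l2 0 3 5 0 1 1),
.rs (.part [160, 72, 16] [0, 0, 0] [7] []),
.rs (.part [27, 128, 100] [1, 0, 0] [] []),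
.rs (.le 0 65 64 6 2),
.rs (.l2 2 132 144 7 2 1),
.rs (.lipl 0 9 45 2 36),
.rs (.join 1 16 6 2 3 2 [(4, 3)]),
.rs (.le 1 129 128 7 3),
.rs (.mono 1 64 66 1),
.rs (.mono 2 192 224 1),
.rs (.l2 0 9 40 3 1 1),
.rs (.l2 2 129 130 7 2 1),
.rs (.mono 1 128 132 1),
.rs (.part [128, 1, 126] [0, 0, 1] [] []),
.rs (.l2 2 18 20 4 1 2),
.rs (.part [130, 8, 117] [0, 0, 1] [] []),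
.rs (.l2 0 33 34 5 1 1),
.rs (.l2 1 68 72 6 1 1),
.rs (.part [185, 4, 66] [1, 0, 0] [] []),
.rs (.part [65, 46, 144] [0, 1, 0] [] []),
.rs (.part [2, 9, 244] [0, 0, 1] [] []),
.rs (.join 2 4 3 3 1 2 [(2, 0)]),
.rs (.part [64, 167, 24] [0, 1, 0] [] []),
.rs (.l2 1 20 24 4 1 1),
.rs (.lipl 2 50 182 1 132),
.rs (.lipl 0 3 139 2 136),
.rs (.l2 0 65 72 6 1 1),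
.rs (.l2 1 34 40 5 1 1),
.rs (.mono 2 144 146 1),
.rs (.part [65, 160, 30] [0, 0, 1] [] []),
.rs (.lipl 1 18 150 1 132),
.rs (.ab2 1 192),
.rs (.join 2 16 6 2 1 1 [(4, 0)]),
.rs (.l2 2 10 130 1 2 1),
.rs (.deg 6 [1, 1, 2]),
.rs (.lipl 1 80 210 2 130),
.rs (.part [72, 132, 51] [0, 0, 1] [] []),
.rs (.part [128, 4, 123] [0, 0, 1] [] []),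
.rs (.join 1 2 5 2 2 0 [(1, 0)]),
.rs (.part [144, 15, 96] [0, 1, 0] [] []),
.rs (.join 2 2 3 3 2 2 [(1, 1)]),
.rs (.l2 1 33 48 5 1 1),
.rs (.ab2 1 10),
.rs (.mono 1 32 96 1),
.rs (.l2 1 9 24 3 1 1),
.rs (.l2 1 40 96 5 1 1),
.rs (.lipl 0 8 138 2 130),
.rs (.l2 1 3 17 0 1 1),
.rs (.l2 1 65 129 0 1 1),
.rs (.part [64, 43, 148] [0, 1, 0] [] []),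
.rs (.l2 2 34 48 5 2 1),
.rs (.part [192, 8, 55] [0, 0, 1] [] []),
.rs (.join 1 2 4 2 1 2 [(1, 1)]),
.rs (.ab2 2 72),
.rs (.l2 1 160 192 7 1 1),
.rs (.lipl 2 72 108 2 36),
.rs (.join 0 32 6 2 1 2 [(5, 1)]),
.rs (.le 0 68 4 2 1),
.rs (.part [17, 76, 162] [0, 1, 0] [] []),
.rs (.lipl 2 134 143 0 9),
.degU 0 [(0, 2), (1, 1), (2, 2)],
.rs (.part [192, 48, 15] [0, 0, 1] [] []),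
.rs (.part [202, 20, 33] [1, 0, 0] [] []),
.degU 0 [(0, 3), (1, 1), (2, 1)],
.rs (.join 1 1 4 2 0 2 [(0, 0)]),
.rs (.part [192, 16, 47] [0, 0, 1] [] []),
.rs (.deg 4 [1, 1, 1]),
.rs (.mono 2 3 19 1),
.rs (.part [128, 9, 118] [0, 0, 1] [] []),
.rs (.part [9, 212, 34] [0, 1, 0] [] []),
.rs (.part [67, 144, 44] [1, 0, 0] [] []),
.rs (.join 2 8 5 2 2 0 [(3, 0)]),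
.degU 2 [(0, 1), (2, 4)],
.rs (.l2 2 33 65 0 2 1),
.rs (.l2 2 130 192 7 1 1),
.rs (.join 0 2 7 2 2 1 [(1, 1)]),
.rs (.join 0 1 7 2 2 0 [(0, 0)]),
.rs (.join 2 64 7 4 2 2 [(6, 0)]),
.rs (.part [135, 40, 80] [1, 0, 0] [] []),
.rs (.deg 2 [0, 1, 2]),
.rs (.ordL 2 66 1),
.rs (.part [195, 16, 44] [1, 0, 0] [] []),
.rs (.join 2 8 5 5 3 3 [(3, 1)]),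
.rs (.join 0 3 3 2 1 1 [(0, 0), (1, 0)]),
.rs (.mono 1 16 20 1),
.rs (.l2 2 18 80 4 1 3),
.rs (.l2 2 96 160 5 2 1),
.rs (.part [129, 48, 78] [0, 0, 1] [] []),
.rs (.part [15, 64, 176] [1, 0, 0] [] []),
.rs (.join 1 8 7 2 2 1 [(3, 1)]),
.rs (.part [169, 66, 20] [1, 0, 0] [] []),
.rs (.mono 0 128 192 1),
.rs (.join 2 16 7 3 0 3 [(4, 0)]),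
.rs (.part [31, 64, 160] [1, 0, 0] [] []),
.rs (.ordE 2 1 1),
.rs (.l2 2 34 48 5 1 1),
.rs (.part [1, 6, 224] [0, 0, 0] [24] []),
.rs (.join 1 16 5 2 1 2 [(4, 1)]),
.rs (.ab2 2 36),
.rs (.l2 0 68 72 6 1 1),
.rs (.part [8, 36, 211] [0, 0, 1] [] []),
.rs (.lipl 1 12 92 2 80),
.rs (.lipl 0 132 141 0 9),
.rs (.join 2 16 6 4 2 3 [(4, 1)]),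
.rs (.join 2 16 5 4 3 2 [(4, 1)]),
.rs (.l2 0 17 144 4 1 1),
.rs (.part [20, 193, 42] [0, 1, 0] [] []),
.rs (.part [80, 160, 8] [0, 0, 0] [7] []),
.rs (.part [192, 40, 16] [0, 0, 0] [7] []),
.rs (.lip 2 5 61 56),
.rs (.lipl 2 44 109 0 65),
.rs (.join 1 64 7 2 2 1 [(6, 1)]),
.rs (.part [9, 228, 18] [0, 1, 0] [] []),
.rs (.ab2 1 65),
.rs (.join 0 8 7 2 2 1 [(3, 1)]),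
.rs (.hall [0] [3, 4, 5, 6]),
.rs (.lipl 2 11 171 1 160),
.rs (.join 2 2 6 3 2 2 [(1, 1)]),
.rs (.part [201, 34, 20] [1, 0, 0] [] []),
.rs (.part [136, 80, 39] [0, 0, 1] [] []),
.rs (.lipl 2 20 54 1 34),
.rs (.join 1 16 6 2 0 3 [(4, 1)]),
.rs (.le 2 24 16 4 3),
.rs (.part [128, 8, 119] [0, 0, 1] [] []),
.rs (.ordE 1 64 2),
.rs (.join 1 2 5 2 3 0 [(1, 1)]),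
.degU 7 [(0, 3), (2, 3)],
.rs (.deg 3 [0, 0, 3]),
.rs (.part [129, 36, 90] [0, 0, 1] [] []),
.rs (.part [128, 68, 3] [0, 0, 0] [56] []),
.rs (.join 2 2 2 3 2 2 [(1, 1)]),
.rs (.join 2 4 5 4 4 0 [(2, 0)]),
.rs (.join 2 32 7 3 2 1 [(5, 0)]),
.rs (.lipl 2 36 172 2 136),
.rs (.l2 1 66 68 6 1 1),
.rs (.l2 1 3 66 1 1 1),
.rs (.join 0 4 3 2 0 2 [(2, 0)]),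
.rs (.part [15, 144, 96] [1, 0, 0] [] []),
.rs (.join 2 2 4 4 4 0 [(1, 0)]),
.rs (.join 1 4 4 1 0 1 [(2, 0)]),
.rs (.le 1 96 32 5 3),
.rs (.lipl 1 33 43 1 10),
.rs (.part [65, 40, 150] [0, 0, 1] [] []),
.rs (.ab2 1 3),
.rs (.le 2 72 8 3 2),
.rs (.lipl 2 100 118 2 18),
.rs (.part [65, 172, 18] [0, 1, 0] [] []),
.rs (.lipl 2 50 118 1 68),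
.rs (.lipl 2 48 57 0 9),
.rs (.lipl 1 36 101 2 65),
.rs (.lipl 2 21 117 1 96),
.rs (.lipl 2 49 117 2 68),
.rs (.join 0 5 3 2 1 1 [(0, 0), (2, 0)]),
.rs (.l2 1 9 10 3 1 1),
.rs (.part [136, 64, 55] [0, 0, 1] [] []),
.rs (.part [128, 66, 5] [0, 0, 0] [56] []),
.degU 3 [(0, 4), (2, 1)],
.rs (.lip 0 68 92 56),
.rs (.lip 2 24 31 7),
.rs (.part [65, 44, 146] [0, 1, 0] [] []),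
.rs (.lipl 1 36 166 0 130),
.rs (.le 0 17 16 4 2),
.degU 4 [(1, 4), (2, 1)],
.rs (.part [27, 160, 68] [1, 0, 0] [] []),
.rs (.l2 1 18 48 4 1 1),
.rs (.part [65, 36, 154] [0, 0, 1] [] []),
.rs (.le 1 34 2 1 1),
.rs (.join 2 1 5 5 2 3 [(0, 0)]),
.rs (.part [89, 2, 164] [1, 0, 0] [] []),
.rs (.l2 2 17 48 4 1 1),
.rs (.lipl 2 40 106 1 66),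
.rs (.ab 2 3),
.rs (.mono 1 64 72 1),
.rs (.part [88, 132, 35] [1, 0, 0] [] []),
.rs (.join 1 8 7 2 3 0 [(3, 1)]),
.degU 3 [(1, 3), (2, 2)],
.rs (.join 1 8 7 2 2 2 [(3, 2)]),
.rs (.lipl 1 34 114 2 80),
.rs (.le 2 132 128 7 2),
.rs (.part [153, 36, 66] [1, 0, 0] [] []),
.rs (.part [58, 65, 132] [1, 0, 0] [] []),
.rs (.lipl 0 144 209 2 65),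
.rs (.lipl 2 34 166 2 132),
.degU 3 [(0, 1), (1, 1), (2, 3)],
.rs (.part [128, 13, 114] [0, 1, 0] [] []),
.rs (.lipl 0 136 169 0 33),
.rs (.lipl 2 36 53 0 17),
.rs (.lipl 0 65 75 2 10),
.rs (.lipl 0 9 29 1 20),
.rs (.l2 0 72 80 6 1 1),
.rs (.deg 5 [0, 2, 1]),
.rs (.part [151, 8, 96] [1, 0, 0] [] []),
.rs (.part [1, 160, 94] [0, 0, 1] [] []),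
.rs (.lipl 2 96 240 2 144),
.rs (.l2 2 18 130 1 2 1),
.rs (.ordE 2 64 3),
.rs (.join 2 2 2 2 2 2 [(1, 2)]),
.rs (.le 2 6 4 2 3),
.rs (.part [129, 58, 68] [0, 1, 0] [] []),
.rs (.le 0 36 4 2 1),
.rs (.ordE 2 4 2),
.rs (.l2 2 18 34 1 1 1),
.rs (.part [192, 55, 8] [0, 1, 0] [] []),
.rs (.join 2 8 6 4 2 2 [(3, 0)]),
.rs (.part [1, 36, 218] [0, 0, 1] [] []),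
.rs (.part [197, 24, 34] [1, 0, 0] [] []),
.rs (.join 1 4 7 2 1 2 [(2, 1)]),
.rs (.join 1 1 5 2 2 0 [(0, 0)]),
.rs (.join 1 2 2 1 1 1 [(1, 1)]),
.rs (.l2 2 12 20 2 2 1),
.rs (.le 1 9 8 3 1),
.rs (.ordE 0 2 3),
.rs (.join 2 2 2 2 2 1 [(1, 1)]),
.rs (.part [24, 192, 39] [0, 0, 1] [] []),
.rs (.lipl 2 164 173 2 9),
.rs (.lip 2 224 231 7),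
.rs (.le 0 68 64 6 1),
.rs (.deg 1 [1, 1, 1]),
.rs (.part [66, 5, 128] [0, 0, 0] [56] []),
.rs (.ab2 0 12),
.degU 1 [(0, 1), (2, 4)],
.rs (.part [10, 196, 49] [0, 1, 0] [] []),
.rs (.part [132, 3, 64] [0, 0, 0] [56] []),
.rs (.part [73, 34, 148] [1, 0, 0] [] []),
.rs (.l2 2 9 40 3 1 1),
.rs (.join 1 1 2 1 0 1 [(0, 0)]),
.rs (.lipl 1 32 162 0 130),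
.rs (.join 2 16 6 2 0 3 [(4, 1)]),
.rs (.lipl 2 68 198 0 130),
.rs (.lipl 2 36 46 0 10),
.rs (.join 2 2 3 3 3 2 [(1, 2)]),
.rs (.lip 1 8 11 7),
.rs (.lip 1 160 167 7),
.rs (.join 2 8 4 3 1 2 [(3, 0)]),
.rs (.part [154, 96, 5] [1, 0, 0] [] []),
.rs (.l2 0 33 129 0 1 1),
.rs (.part [137, 96, 22] [1, 0, 0] [] []),
.rs (.lipl 2 140 174 1 34),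
.rs (.lip 1 192 248 56),
.rs (.l2 2 6 12 2 1 1),
.rs (.join 2 4 3 4 4 1 [(2, 1)]),
.rs (.part [132, 1, 122] [0, 0, 1] [] []),
.rs (.mono 0 16 17 1),
.rs (.mono 2 160 164 1),
.rs (.lip 1 16 22 7),
.rs (.lipl 2 12 30 1 18),
.rs (.lipl 0 136 216 1 80),
.rs (.lipl 0 192 201 2 9),
.rs (.lipl 2 148 157 2 9),
.rs (.join 1 2 7 2 2 0 [(1, 0)]),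
.rs (.le 1 34 2 1 2),
.rs (.un 0 3),
.rs (.join 0 2 6 2 1 2 [(1, 1)]),
.rs (.l2 2 48 144 4 1 1),
.rs (.join 1 2 3 2 2 0 [(1, 0)]),
.rs (.join 2 1 2 2 1 1 [(0, 0)]),
.rs (.lipl 2 68 212 0 144),
.rs (.l2 2 18 80 4 2 2),
.rs (.join 1 16 5 1 1 0 [(4, 0)]),
.rs (.join 1 64 7 2 3 2 [(6, 3)]),
.rs (.le 1 36 4 2 3),
.rs (.join 0 2 7 2 1 1 [(1, 0)]),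
.rs (.le 1 17 16 4 2),
.rs (.lipl 1 128 193 1 65),
.rs (.lipl 2 192 202 2 10),
.rs (.lipl 2 80 90 2 10),
.rs (.srt 0 3 0 0 2),
.rs (.l2 0 6 36 2 1 1),
.rs (.part [17, 10, 100] [0, 0, 0] [128] []),
.rs (.le 2 66 64 6 3),
.rs (.part [60, 66, 129] [1, 0, 0] [] []),
.rs (.lipl 2 18 154 0 136),
.degU 1 [(0, 1), (1, 1), (2, 3)],
.rs (.l2 0 136 192 7 1 1),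
.rs (.mono 0 216 248 2),
.rs (.mono 2 160 168 1),
.rs (.join 1 2 5 2 0 2 [(1, 0)]),
.rs (.part [193, 12, 50] [1, 0, 0] [] []),
.rs (.part [27, 64, 164] [1, 0, 0] [] []),
.rs (.le 2 48 32 5 3),
.rs (.join 2 64 7 3 2 1 [(6, 0)]),
.rs (.part [129, 68, 34] [0, 0, 0] [24] []),
.rs (.part [68, 58, 129] [0, 1, 0] [] []),
.rs (.part [232, 17, 6] [1, 0, 0] [] []),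
.rs (.part [65, 152, 38] [0, 1, 0] [] []),
.rs (.lip 0 128 176 56),
.rs (.mono 1 64 65 1),
.rs (.lipl 2 52 62 2 10),
.rs (.lipl 2 208 244 2 36),
.rs (.lip 0 128 135 7),
.rs (.le 1 6 2 1 1),
.rs (.part [48, 8, 199] [0, 0, 1] [] []),
.rs (.lipl 0 9 201 1 192),
.rs (.l2 2 66 72 6 2 1),
.rs (.part [65, 54, 136] [0, 1, 0] [] []),
.rs (.part [30, 64, 161] [1, 0, 0] [] []),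
.rs (.deg 4 [2, 0, 1]),
.rs (.le 1 136 128 7 1),
.rs (.l2 0 10 12 3 1 1),
.rs (.part [128, 11, 116] [0, 1, 0] [] []),
.rs (.join 2 8 7 2 0 3 [(3, 1)]),
.rs (.join 1 64 7 2 0 3 [(6, 1)]),
.rs (.join 2 8 6 3 2 1 [(3, 0)]),
.rs (.lipl 2 132 198 0 66),
.rs (.part [133, 18, 104] [1, 0, 0] [] []),
.rs (.le 1 36 4 2 2),
.rs (.l2 0 66 80 6 1 1),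
.rs (.ab 1 7),
.rs (.part [248, 6, 1] [1, 0, 0] [] []),
.rs (.l2 1 17 18 4 1 1),
.rs (.part [16, 192, 40] [0, 0, 0] [7] []),
.rs (.part [199, 16, 40] [1, 0, 0] [] []),
.rs (.lipl 2 34 170 2 136),
.rs (.part [9, 194, 52] [0, 1, 0] [] []),
.rs (.mono 0 32 160 1),
.rs (.join 2 4 4 5 4 1 [(2, 0)]),
.rs (.lipl 2 6 78 0 72),
.rs (.l2 1 5 17 0 1 1),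
.rs (.lipl 0 9 169 2 160),
.rs (.ordE 1 2 1),
.rs (.part [64, 48, 137] [0, 0, 0] [6] []),
.rs (.part [132, 122, 1] [0, 1, 0] [] []),
.degU 0 [(1, 5)],
.rs (.part [3, 68, 128] [0, 0, 0] [56] []),
.rs (.hall [1] [0, 1, 2, 7]),
.rs (.part [9, 180, 66] [0, 1, 0] [] []),
.rs (.lip 2 132 188 56),
.rs (.join 0 16 7 2 1 2 [(4, 1)]),
.rs (.join 2 16 5 2 2 0 [(4, 0)]),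
.rs (.l2 1 96 192 6 1 1),
.rs (.part [75, 144, 36] [1, 0, 0] [] []),
.rs (.lipl 2 35 179 1 144),
.rs (.join 2 2 4 5 1 4 [(1, 0)]),
.rs (.join 1 1 2 2 2 1 [(0, 1)]),
.rs (.join 2 1 6 3 1 2 [(0, 0)]),
.rs (.ab2 0 33),
.rs (.part [66, 8, 181] [0, 0, 1] [] []),
.rs (.part [10, 64, 181] [0, 0, 1] [] []),
.rs (.lip 2 152 159 7),
.rs (.part [64, 26, 165] [0, 1, 0] [] []),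
.rs (.join 0 16 6 2 2 0 [(4, 0)]),
.rs (.deg 7 [0, 3, 1]),
.rs (.mono 0 16 144 1),
.rs (.lipl 2 100 244 2 144),
.rs (.part [1, 6, 192] [0, 0, 0] [56] []),
.rs (.part [89, 36, 130] [1, 0, 0] [] []),
.rs (.part [201, 48, 6] [1, 0, 0] [] []),
.rs (.join 2 2 5 2 1 1 [(1, 0)]),
.rs (.lipl 1 20 116 2 96),
.rs (.part [143, 96, 16] [1, 0, 0] [] []),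
.rs (.deg 2 [0, 2, 1]),
.rs (.ordE 1 4 3),
.rs (.part [136, 65, 54] [0, 0, 1] [] []),
.rs (.mono 1 1 5 1),
.rs (.deg 2 [0, 3, 0]),
.rs (.part [9, 84, 162] [0, 1, 0] [] []),
.rs (.hall [1] [1, 2, 6, 7]),
.rs (.part [64, 6, 137] [0, 0, 0] [48] []),
.degU 1 [(0, 2), (1, 1), (2, 2)],
.rs (.deg 7 [3, 1, 0]),
.rs (.l2 2 10 34 1 2 1),
.rs (.ordE 1 128 3),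
.rs (.part [8, 39, 208] [0, 1, 0] [] []),
.rs (.join 1 2 7 2 0 3 [(1, 1)]),
.rs (.lipl 0 5 141 2 136),
.rs (.lip 0 64 70 7),
.rs (.lip 0 3 27 56),
.rs (.part [64, 144, 40] [0, 0, 0] [7] []),
.rs (.lipl 0 66 75 0 9),
.rs (.join 2 32 6 2 0 3 [(5, 1)]),
.rs (.lip 0 65 121 56),
.rs (.lipl 2 144 154 0 10),
.rs (.lipl 2 10 30 1 20),
.rs (.join 1 40 6 2 1 1 [(3, 0), (5, 0)]),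
.rs (.le 1 36 4 2 1),
.rs (.lipl 2 35 107 1 72),
.rs (.lipl 2 52 118 0 66),
.rs (.join 1 4 4 2 0 2 [(2, 0)]),
.rs (.join 2 2 6 3 2 1 [(1, 0)]),
.rs (.le 1 34 32 5 2),
.rs (.join 2 2 6 4 3 3 [(1, 2)]),
.rs (.l2 1 12 36 2 1 1),
.rs (.part [73, 48, 134] [1, 0, 0] [] []),
.rs (.join 1 2 4 2 2 0 [(1, 0)]),
.rs (.le 1 17 1 0 1),
.rs (.lip 0 130 154 56),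
.rs (.part [185, 2, 68] [1, 0, 0] [] []),
.rs (.lip 1 130 186 56),
.rs (.part [197, 48, 10] [1, 0, 0] [] []),
.rs (.part [55, 72, 128] [1, 0, 0] [] []),
.rs (.part [69, 160, 26] [1, 0, 0] [] []),
.rs (.part [58, 68, 129] [1, 0, 0] [] []),
.rs (.part [165, 72, 18] [1, 0, 0] [] []),
.rs (.l2 1 34 66 1 1 1),
.rs (.part [65, 130, 36] [0, 0, 0] [24] []),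
.rs (.join 2 4 6 2 2 0 [(2, 0)]),
.rs (.join 1 16 7 2 1 2 [(4, 1)]),
.rs (.part [17, 102, 136] [0, 1, 0] [] []),
.rs (.part [39, 136, 80] [1, 0, 0] [] []),
.rs (.lipl 0 9 105 0 96),
.rs (.l2 1 72 192 6 1 1),
.rs (.part [17, 12, 98] [0, 0, 0] [128] []),
.rs (.deg 4 [0, 0, 3]),
.rs (.lipl 0 3 75 2 72),
.rs (.join 2 1 3 3 2 2 [(0, 1)]),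
.rs (.part [129, 16, 110] [0, 0, 1] [] []),
.rs (.le 1 20 16 4 1),
.rs (.part [3, 192, 4] [0, 0, 0] [56] []),
.rs (.lipl 2 82 118 1 36),
.rs (.srt 0 5 0 4 2),
.rs (.part [128, 5, 74] [0, 0, 0] [48] []),
.rs (.l2 0 80 192 6 1 1),
.rs (.le 1 68 4 2 1),
.rs (.lip 0 64 71 7),
.rs (.join 2 8 7 3 2 2 [(3, 1)]),
.rs (.lip 0 32 39 7),
.rs (.l2 2 72 136 3 1 2),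
.rs (.join 2 1 2 3 2 1 [(0, 0)]),
.rs (.part [27, 132, 96] [1, 0, 0] [] []),
.rs (.part [32, 24, 199] [0, 0, 1] [] []),
.rs (.part [3, 72, 180] [0, 0, 1] [] []),
.rs (.lipl 1 192 210 1 18),
.rs (.join 2 8 7 3 2 1 [(3, 0)]),
.rs (.l2 2 3 66 1 1 1),
.rs (.join 1 5 6 2 1 1 [(0, 0), (2, 0)]),
.rs (.l2 2 68 192 6 2 2),
.rs (.le 2 34 32 5 4),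
.rs (.lipl 1 12 142 1 130),
.rs (.part [11, 144, 100] [1, 0, 0] [] []),
.rs (.join 1 16 6 2 1 2 [(4, 1)]),
.rs (.lip 1 34 98 64),
.rs (.le 1 17 1 0 2),
.rs (.part [41, 128, 86] [1, 0, 0] [] []),
.rs (.l2 1 18 66 1 1 1),
.rs (.l2 0 3 129 0 1 1),
.rs (.le 0 192 64 6 2),
.rs (.part [144, 39, 72] [0, 1, 0] [] []),
.rs (.le 0 192 64 6 1),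
.rs (.l2 2 33 34 5 2 3),
.rs (.join 1 16 7 2 2 0 [(4, 0)]),
.rs (.part [2, 65, 188] [0, 0, 1] [] []),
.rs (.l2 1 20 144 4 1 1),
.rs (.join 2 1 7 2 2 2 [(0, 2)]),
.rs (.un 2 7),
.rs (.part [130, 77, 48] [0, 1, 0] [] []),
.rs (.lipl 1 6 150 2 144),
.rs (.lipl 2 146 182 2 36),
.rs (.ab 1 1),
.rs (.lipl 2 88 124 2 36),
.rs (.join 2 16 6 2 2 0 [(4, 0)]),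
.rs (.le 0 160 32 5 1),
.rs (.part [51, 64, 140] [1, 0, 0] [] []),
.rs (.part [5, 2, 192] [0, 0, 0] [56] []),
.rs (.part [131, 80, 44] [1, 0, 0] [] []),
.rs (.le 1 6 4 2 2),
.rs (.join 2 32 6 2 1 1 [(5, 0)]),
.rs (.part [104, 132, 19] [1, 0, 0] [] []),
.rs (.l2 2 66 192 6 2 1),
.rs (.part [128, 114, 13] [0, 1, 0] [] []),
.rs (.part [3, 60, 192] [0, 1, 0] [] []),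
.rs (.join 2 8 5 2 1 1 [(3, 0)]),
.rs (.part [2, 57, 196] [0, 1, 0] [] []),
.rs (.part [129, 112, 14] [0, 1, 0] [] []),
.rs (.deg 1 [1, 0, 2]),
.rs (.part [129, 102, 24] [0, 1, 0] [] []),
.rs (.lipl 0 129 209 1 80),
.rs (.join 1 2 2 2 2 1 [(1, 1)]),
.rs (.l2 1 36 160 5 1 1),
.rs (.mono 2 72 88 1),
.rs (.lipl 2 148 157 0 9),
.rs (.part [9, 54, 192] [0, 1, 0] [] []),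
.rs (.lipl 0 129 225 2 96),
.rs (.mono 0 8 10 1),
.rs (.lipl 2 98 110 1 12),
.rs (.join 2 1 5 4 0 4 [(0, 0)]),
.rs (.part [62, 64, 129] [1, 0, 0] [] []),
.rs (.join 2 2 7 4 3 1 [(1, 0)]),
.rs (.deg 1 [0, 1, 2]),
.rs (.part [129, 42, 84] [0, 1, 0] [] []),
.rs (.lipl 0 65 225 2 160),
.rs (.le 2 130 2 1 3),
.rs (.lip 2 133 189 56),
.rs (.lipl 0 18 27 2 9),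
.rs (.part [64, 4, 187] [0, 0, 1] [] []),
.rs (.part [72, 1, 182] [0, 0, 1] [] []),
.rs (.join 2 2 6 4 3 2 [(1, 1)]),
.rs (.part [192, 0, 63] [0, 0, 1] [] []),
.rs (.l2 1 9 65 0 1 1),
.rs (.join 1 1 1 1 1 0 [(0, 0)]),
.rs (.join 0 8 6 2 2 1 [(3, 1)]),
.rs (.lip 0 1 57 56),
.rs (.part [16, 96, 143] [0, 0, 1] [] []),
.rs (.part [129, 6, 112] [0, 0, 0] [8] []),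
.rs (.lipl 1 12 78 1 66),
.rs (.join 2 16 7 4 2 3 [(4, 1)]),
.rs (.join 1 8 7 2 0 3 [(3, 1)]),
.rs (.lipl 1 96 240 1 144),
.degU 5 [(1, 4), (2, 1)],
.rs (.part [129, 40, 86] [0, 0, 1] [] []),
.rs (.part [96, 136, 16] [0, 0, 0] [7] []),
.rs (.l2 1 5 36 2 1 1),
.rs (.lipl 2 42 62 1 20),
.rs (.lipl 2 10 46 2 36),
.rs (.lip 1 5 45 56),
.rs (.l2 1 34 36 5 1 1),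
.rs (.lipl 0 129 165 1 36),
.degU 0 [(0, 4), (1, 1)],
.rs (.join 2 16 7 4 4 0 [(4, 0)]),
.rs (.mono 0 32 40 1),
.rs (.lipl 0 129 201 0 72),
.rs (.part [32, 136, 87] [0, 0, 1] [] []),
.rs (.l2 2 33 34 5 2 1),
.rs (.part [152, 36, 67] [1, 0, 0] [] []),
.rs (.part [129, 116, 10] [0, 1, 0] [] []),
.rs (.part [6, 1, 192] [0, 0, 0] [56] []),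
.rs (.hall [1] [0, 1, 6, 7]),
.rs (.l2 1 33 160 5 1 1),
.rs (.part [64, 22, 169] [0, 1, 0] [] []),
.rs (.lipl 2 145 155 2 10),
.rs (.part [128, 5, 66] [0, 0, 0] [56] []),
.rs (.part [9, 166, 80] [0, 1, 0] [] []),
.rs (.lipl 0 192 202 2 10),
.rs (.join 2 2 7 3 2 2 [(1, 1)]),
.rs (.join 2 4 3 4 4 3 [(2, 3)]),
.rs (.l2 2 34 66 1 2 1),
.degU 5 [(1, 5)],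
.rs (.le 2 130 128 7 1),
.rs (.lipl 1 33 99 2 66),
.rs (.part [143, 32, 80] [1, 0, 0] [] []),
.rs (.lipl 0 65 77 0 12),
.rs (.lipl 2 80 89 0 9),
.rs (.lip 0 64 120 56),
.rs (.join 2 16 6 3 2 1 [(4, 0)]),
.rs (.part [71, 136, 48] [1, 0, 0] [] []),
.rs (.lipl 2 49 121 2 72),
.rs (.le 0 96 32 5 1),
.rs (.part [24, 96, 128] [0, 0, 0] [7] []),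
.rs (.lipl 1 34 46 0 12),
.rs (.lip 2 136 143 7),
.rs (.l2 2 6 130 1 1 1),
.rs (.part [129, 88, 38] [0, 1, 0] [] []),
.rs (.lipl 0 17 27 2 10),
.rs (.part [153, 6, 96] [1, 0, 0] [] []),
.rs (.lipl 2 76 110 1 34),
.rs (.join 2 1 5 4 3 2 [(0, 1)]),
.rs (.part [8, 48, 196] [0, 0, 0] [3] []),
.rs (.join 1 2 7 2 0 2 [(1, 0)]),
.rs (.part [144, 69, 42] [0, 1, 0] [] []),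
.rs (.l2 2 144 160 7 1 1),
.rs (.part [144, 8, 103] [0, 0, 1] [] []),
.rs (.part [128, 5, 98] [0, 0, 0] [24] []),
.rs (.part [24, 160, 64] [0, 0, 0] [7] []),
.rs (.lipl 2 18 114 2 96),
.rs (.mono 0 16 18 1),
.rs (.lipl 2 34 46 1 12),
.rs (.join 2 4 6 4 2 2 [(2, 0)]),
.rs (.join 1 8 4 2 2 0 [(3, 0)]),
.rs (.lip 0 8 15 7),
.degU 2 [(1, 3), (2, 2)],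
.rs (.l2 2 136 160 7 2 1),
.rs (.part [129, 78, 48] [0, 1, 0] [] []),
.degU 3 [(0, 3), (2, 2)],
.rs (.part [64, 132, 50] [0, 0, 0] [] [(0, 9)]),
.rs (.part [128, 45, 82] [0, 1, 0] [] []),
.degU 0 [(0, 1), (1, 3), (2, 1)],
.rs (.join 2 32 6 2 3 3 [(5, 4)]),
.rs (.deg 6 [4, 0, 0]),
.rs (.join 1 1 6 2 3 0 [(0, 1)]),
.rs (.un 0 1),
.rs (.le 2 17 1 0 1),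
.rs (.join 2 4 7 3 2 2 [(2, 1)]),
.rs (.l2 0 18 24 4 1 1),
.rs (.part [80, 40, 128] [0, 0, 0] [7] []),
.rs (.l2 2 20 144 4 2 2),
.rs (.l2 2 18 34 1 1 2),
.rs (.lip 0 24 27 7),
.rs (.le 0 9 8 3 3),
.rs (.l2 0 9 24 3 1 1),
.rs (.l2 0 12 24 3 1 1),
.rs (.l2 2 72 96 6 1 3),
.rs (.part [169, 18, 68] [1, 0, 0] [] []),
.rs (.lip 2 134 158 56),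
.rs (.l2 1 12 132 2 1 1),
.rs (.lip 1 66 194 128),
.rs (.join 2 1 2 2 0 2 [(0, 0)]),
.rs (.lipl 2 26 62 1 36),
.rs (.l2 2 24 144 4 2 1),
.rs (.le 1 10 2 1 1),
.rs (.part [32, 72, 151] [0, 0, 1] [] []),
.rs (.l2 1 40 72 3 1 1),
.rs (.mono 1 32 36 1),
.rs (.part [8, 17, 230] [0, 0, 1] [] []),
.rs (.part [137, 36, 82] [1, 0, 0] [] []),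
.rs (.lip 1 48 55 7),
.rs (.part [129, 86, 40] [0, 1, 0] [] []),
.rs (.join 0 1 7 2 3 0 [(0, 1)]),
.rs (.lip 0 129 169 56),
.rs (.le 2 36 32 5 2),
.rs (.part [17, 198, 40] [0, 1, 0] [] []),
.rs (.l2 1 6 66 1 1 1),
.rs (.deg 6 [2, 2, 0]),
.rs (.mono 1 4 132 1),
.rs (.join 0 1 1 2 2 0 [(0, 0)]),
.rs (.ab 2 4),
.rs (.lipl 2 160 170 0 10),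
.rs (.lipl 1 48 178 2 130),
.rs (.join 2 2 6 3 0 3 [(1, 0)]),
.rs (.deg 3 [2, 0, 1]),
.rs (.part [132, 66, 57] [0, 0, 1] [] []),
.rs (.ab2 0 5),
.rs (.part [32, 192, 24] [0, 0, 0] [7] []),
.rs (.part [80, 167, 8] [0, 1, 0] [] []),
.rs (.join 1 2 4 2 0 2 [(1, 0)]),
.rs (.lip 2 69 125 56),
.rs (.join 1 2 5 2 2 2 [(1, 2)]),
.rs (.mono 2 80 208 1),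
.rs (.l2 2 6 66 1 1 2),
.rs (.mono 0 105 121 2),
.rs (.join 1 2 3 1 1 0 [(1, 0)]),
.rs (.le 1 34 2 1 4),
.rs (.part [72, 144, 32] [0, 0, 0] [7] []),
.rs (.le 1 192 128 7 4),
.rs (.mono 2 4 36 1),
.rs (.join 0 8 5 2 2 0 [(3, 0)]),
.rs (.deg 0 [2, 1, 0]),
.rs (.part [130, 60, 65] [0, 1, 0] [] []),
.degU 3 [(1, 5)],
.rs (.part [9, 32, 214] [0, 0, 1] [] []),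
.rs (.join 2 4 5 4 3 4 [(2, 3)]),
.rs (.part [130, 32, 93] [0, 0, 1] [] []),
.rs (.join 0 64 7 2 1 1 [(6, 0)]),
.rs (.part [192, 4, 59] [0, 0, 1] [] []),
.rs (.lipl 2 82 94 1 12),
.rs (.deg 1 [0, 2, 1]),
.rs (.join 1 2 7 2 1 2 [(1, 1)]),
.rs (.join 1 4 5 2 2 1 [(2, 1)]),
.rs (.lipl 0 129 141 2 12),
.rs (.mono 0 4 68 1),
.rs (.part [2, 129, 124] [0, 0, 1] [] []),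
.rs (.lipl 1 10 106 2 96),
.rs (.part [112, 130, 13] [1, 0, 0] [] []),
.degU 4 [(1, 1), (2, 4)],
.rs (.join 1 16 6 2 2 1 [(4, 1)]),
.rs (.lipl 1 10 170 2 160),
.rs (.le 2 12 8 3 4),
.rs (.part [64, 40, 148] [0, 0, 0] [3] []),
.rs (.deg 7 [1, 0, 3]),
.rs (.l2 1 33 40 5 1 1),
.rs (.lip 0 3 59 56),
.rs (.part [64, 12, 179] [0, 0, 1] [] []),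
.rs (.ab 0 0),
.rs (.deg 2 [3, 0, 0]),
.rs (.part [17, 64, 174] [0, 0, 1] [] []),
.rs (.lipl 2 36 46 2 10),
.rs (.part [41, 64, 150] [1, 0, 0] [] []),
.rs (.le 2 36 32 5 4),
.rs (.join 1 8 7 2 1 1 [(3, 0)]),
.rs (.join 2 2 4 3 2 1 [(1, 0)]),
.rs (.lipl 2 22 182 2 160),
.rs (.part [186, 65, 4] [1, 0, 0] [] []),
.rs (.part [96, 144, 8] [0, 0, 0] [7] []),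
.rs (.part [16, 129, 110] [0, 0, 1] [] []),
.rs (.lipl 2 42 174 1 132),
.rs (.part [45, 18, 192] [1, 0, 0] [] []),
.rs (.part [23, 72, 160] [1, 0, 0] [] []),
.rs (.part [209, 10, 36] [1, 0, 0] [] []),
.rs (.ordE 1 8 2),
.rs (.mono 0 2 66 1),
.rs (.lipl 2 80 90 0 10),
.rs (.lip 0 192 232 56),
.rs (.ordE 1 16 1),
.rs (.lipl 1 18 178 2 160),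
.rs (.part [23, 96, 136] [1, 0, 0] [] []),
.rs (.l2 1 129 192 7 1 1),
.rs (.l2 2 5 68 2 2 1),
.rs (.part [34, 193, 28] [0, 1, 0] [] []),
.rs (.part [160, 87, 8] [0, 1, 0] [] []),
.rs (.mono 2 96 100 1),
.rs (.ordE 1 64 4),
.rs (.join 2 8 6 3 2 2 [(3, 1)]),
.rs (.l2 2 9 17 0 1 1),
.rs (.join 2 4 3 4 1 3 [(2, 0)]),
.rs (.l2 1 68 132 2 1 1),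
.rs (.join 1 1 3 2 2 0 [(0, 0)]),
.rs (.l2 1 20 68 2 1 1),
.rs (.l2 0 72 192 6 1 1),
.rs (.ordE 0 64 3),
.rs (.ab2 0 72),
.rs (.part [66, 32, 157] [0, 0, 1] [] []),
.rs (.lipl 2 162 171 2 9),
.rs (.lip 0 66 122 56),
.rs (.le 1 132 128 7 1),
.rs (.join 2 1 1 2 0 2 [(0, 0)]),
.rs (.mono 2 16 20 1),
.rs (.part [129, 60, 66] [0, 1, 0] [] []),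
.rs (.l2 0 10 34 1 1 1),
.rs (.part [70, 144, 41] [1, 0, 0] [] []),
.rs (.part [120, 129, 6] [1, 0, 0] [] []),
.rs (.join 1 4 6 2 1 2 [(2, 1)]),
.rs (.join 1 1 7 2 2 3 [(0, 3)]),
.rs (.l2 0 9 136 3 1 1),
.rs (.part [195, 32, 28] [1, 0, 0] [] []),
.rs (.join 2 1 3 4 1 3 [(0, 0)]),
.rs (.ab2 1 17),
.rs (.l2 0 132 192 7 1 1),
.rs (.join 2 16 6 3 3 0 [(4, 0)]),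
.rs (.join 2 8 4 2 1 2 [(3, 1)]),
.rs (.part [135, 80, 40] [1, 0, 0] [] []),
.rs (.ordE 1 32 1),
.rs (.mono 2 128 144 1),
.rs (.lipl 2 200 236 2 36),
.rs (.ab2 1 132),
.rs (.l2 2 33 48 5 2 2),
.rs (.ab2 1 40),
.rs (.le 1 192 128 7 2),
.rs (.ordE 2 128 4),
.rs (.lipl 0 96 105 0 9),
.rs (.part [184, 5, 66] [1, 0, 0] [] []),
.rs (.ab2 2 96),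
.rs (.part [120, 6, 129] [1, 0, 0] [] []),
.rs (.join 1 4 6 2 2 0 [(2, 0)]),
.rs (.part [128, 96, 22] [0, 0, 0] [] [(0, 9)]),
.rs (.lipl 2 194 230 2 36),
.rs (.l2 1 130 132 7 1 1),
.rs (.part [89, 160, 6] [1, 0, 0] [] []),
.rs (.join 1 1 1 2 0 2 [(0, 0)]),
.degU 4 [(0, 1), (1, 1), (2, 3)],
.rs (.part [72, 131, 52] [0, 1, 0] [] []),
.rs (.part [17, 12, 162] [0, 0, 0] [64] []),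
.rs (.join 1 5 7 2 1 1 [(0, 0), (2, 0)]),
.rs (.l2 1 5 132 2 1 1),
.rs (.part [128, 40, 82] [0, 0, 0] [5] []),
.rs (.lipl 1 34 46 2 12),
.rs (.join 2 16 5 3 1 2 [(4, 0)]),
.rs (.join 1 16 7 2 0 3 [(4, 1)]),
.rs (.join 2 1 5 2 1 1 [(0, 0)]),
.rs (.le 1 68 4 2 2),
.rs (.join 2 1 3 4 0 4 [(0, 0)]),
.rs (.l2 2 66 130 1 1 2),
.rs (.le 1 96 64 6 2),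
.rs (.join 1 64 7 2 3 0 [(6, 1)]),
.rs (.mono 2 64 66 1),
.rs (.join 1 1 7 2 0 2 [(0, 0)]),
.rs (.join 0 1 2 2 1 1 [(0, 0)]),
.rs (.l2 1 3 34 1 1 1),
.rs (.part [5, 248, 2] [0, 1, 0] [] []),
.degU 1 [(1, 4), (2, 1)],
.rs (.lipl 2 36 54 1 18),
.rs (.le 0 132 4 2 2),
.rs (.join 1 1 1 2 1 1 [(0, 0)]),
.rs (.deg 0 [1, 1, 1]),
.rs (.lipl 0 9 139 0 130),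
.rs (.join 1 2 5 2 3 2 [(1, 3)]),
.rs (.lipl 0 17 89 1 72),
.rs (.part [144, 67, 44] [0, 1, 0] [] []),
.rs (.part [64, 27, 164] [0, 1, 0] [] []),
.rs (.l2 0 136 144 7 1 1),
.rs (.join 2 16 6 3 2 2 [(4, 1)]),
.rs (.l2 2 3 34 1 1 2),
.rs (.l2 1 130 144 7 1 1),
.rs (.part [209, 36, 10] [1, 0, 0] [] []),
.rs (.join 2 1 7 4 3 1 [(0, 0)]),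
.rs (.lipl 1 24 154 2 130),
.rs (.part [136, 55, 64] [0, 1, 0] [] []),
.rs (.join 2 32 7 4 1 3 [(5, 0)]),
.rs (.le 1 132 4 2 2),
.rs (.join 0 64 7 2 0 2 [(6, 0)]),
.degU 7 [(1, 3), (2, 3)],
.rs (.join 2 2 7 3 2 1 [(1, 0)]),
.rs (.l2 0 96 192 6 1 1),
.rs (.lipl 2 192 212 2 20),
.degU 5 [(0, 1), (1, 2), (2, 2)],
.rs (.lipl 0 72 201 2 129),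
.rs (.l2 1 34 160 5 1 1),
.rs (.le 1 40 8 3 1),
.rs (.lip 2 192 199 7),
.rs (.part [47, 144, 64] [1, 0, 0] [] []),
.rs (.part [64, 130, 52] [0, 0, 0] [] [(0, 9)]),
.rs (.join 2 8 7 3 1 2 [(3, 0)]),
.rs (.part [128, 36, 91] [0, 0, 1] [] []),
.degU 3 [(1, 2), (2, 3)],
.rs (.deg 2 [1, 0, 2]),
.rs (.ordE 1 64 3),
.rs (.join 2 8 4 4 2 3 [(3, 1)]),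
.rs (.part [65, 26, 164] [0, 1, 0] [] []),
.rs (.part [9, 144, 102] [0, 0, 1] [] []),
.rs (.l2 2 34 160 5 1 2),
.rs (.l2 2 65 66 6 1 3),
.rs (.l2 1 144 160 7 1 1),
.rs (.join 0 24 6 2 1 1 [(3, 0), (4, 0)]),
.rs (.lip 1 128 152 56),
.rs (.join 1 16 7 2 2 1 [(4, 1)]),
.rs (.join 1 8 4 2 0 2 [(3, 0)]),
.rs (.lipl 0 65 75 0 10),
.rs (.part [129, 108, 18] [0, 1, 0] [] []),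
.rs (.lipl 1 48 180 2 132),
.rs (.join 2 8 4 2 2 0 [(3, 0)]),
.rs (.lip 0 64 104 56),
.rs (.lipl 0 9 89 0 80),
.rs (.l2 2 10 12 3 1 2),
.degU 1 [(0, 2), (2, 3)],
.rs (.join 2 4 4 4 3 3 [(2, 2)]),
.rs (.deg 6 [0, 4, 0]),
.rs (.part [129, 96, 30] [0, 0, 1] [] []),
.rs (.lipl 2 130 150 1 20),
.rs (.lip 0 128 168 56),
.rs (.l2 2 12 36 2 2 2),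
.rs (.join 2 64 7 4 2 3 [(6, 1)]),
.rs (.join 2 1 2 2 1 2 [(0, 1)]),
.rs (.l2 1 3 130 1 1 1),
.rs (.join 2 32 7 4 3 3 [(5, 2)]),
.rs (.part [141, 34, 80] [1, 0, 0] [] []),
.rs (.lip 0 1 41 56),
.rs (.mono 1 64 192 1),
.rs (.ab2 2 132),
.rs (.join 0 2 7 2 0 2 [(1, 0)]),
.rs (.le 1 65 1 0 3),
.rs (.mono 1 4 20 1),
.rs (.l2 2 33 129 0 1 2),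
.rs (.part [29, 130, 96] [1, 0, 0] [] []),
.rs (.lipl 2 10 30 2 20),
.rs (.join 2 1 7 2 0 3 [(0, 1)]),
.rs (.l2 1 10 40 3 1 1),
.rs (.part [59, 128, 68] [1, 0, 0] [] []),
.rs (.l2 2 18 34 1 2 2),
.rs (.join 2 1 6 4 2 3 [(0, 1)]),
.rs (.l2 2 20 36 2 2 2),
.rs (.mono 2 16 48 1),
.rs (.lipl 2 42 110 1 68),
.rs (.part [2, 5, 192] [0, 0, 0] [56] []),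
.rs (.srt 0 3 0 0 3),
.rs (.l2 2 130 144 7 1 1),
.rs (.ab2 1 24),
.rs (.mono 1 4 36 1),
.rs (.part [202, 36, 17] [1, 0, 0] [] []),
.rs (.ordE 0 4 3),
.rs (.part [51, 128, 76] [1, 0, 0] [] []),
.rs (.l2 0 12 132 2 1 1),
.rs (.join 1 8 7 2 0 2 [(3, 0)]),
.rs (.mono 0 4 5 1),
.rs (.lipl 2 49 181 2 132),
.rs (.lipl 0 5 77 2 72),
.rs (.part [4, 58, 193] [0, 1, 0] [] []),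
.rs (.join 1 1 3 1 0 1 [(0, 0)]),
.rs (.part [160, 24, 64] [0, 0, 0] [7] []),
.rs (.part [208, 12, 35] [1, 0, 0] [] []),
.rs (.lipl 2 162 174 2 12),
.rs (.deg 2 [0, 0, 3]),
.rs (.lipl 0 9 27 2 18),
.rs (.ordL 1 144 1),
.rs (.part [168, 68, 19] [1, 0, 0] [] []),
.rs (.mono 0 64 72 1),
.rs (.part [89, 34, 132] [1, 0, 0] [] []),
.rs (.part [134, 72, 49] [1, 0, 0] [] []),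
.rs (.l2 1 129 136 7 1 1),
.rs (.lipl 1 18 178 1 160),
.rs (.mono 2 144 152 1),
.rs (.join 2 1 6 2 2 1 [(0, 1)]),
.rs (.join 1 4 6 2 1 1 [(2, 0)]),
.rs (.join 2 4 3 3 3 2 [(2, 2)]),
.rs (.part [57, 64, 134] [1, 0, 0] [] []),
.rs (.part [34, 1, 220] [0, 0, 1] [] []),
.rs (.join 1 1 7 2 3 0 [(0, 1)]),
.rs (.part [192, 2, 61] [0, 0, 1] [] []),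
.rs (.lip 1 65 105 56),
.rs (.lip 0 66 106 56),
.rs (.join 2 1 1 3 2 1 [(0, 0)]),
.rs (.join 2 4 7 4 4 0 [(2, 0)]),
.rs (.lipl 2 38 110 1 72),
.rs (.join 1 8 4 1 1 0 [(3, 0)]),
.rs (.lip 2 196 236 56),
.rs (.ab2 0 9),
.rs (.l2 1 65 66 6 1 1),
.rs (.lip 1 6 62 56),
.rs (.lip 1 129 185 56),
.rs (.join 2 64 7 5 4 1 [(6, 0)]),
.rs (.lipl 0 136 201 2 65),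
.rs (.ab 0 6),
.rs (.lipl 2 76 93 2 17),
.rs (.lipl 2 12 29 2 17),
.rs (.lipl 2 140 157 2 17),
.rs (.part [201, 4, 50] [1, 0, 0] [] []),
.rs (.part [55, 128, 72] [1, 0, 0] [] []),
.rs (.le 1 68 64 6 2),
.rs (.join 2 16 7 3 2 1 [(4, 0)]),
.rs (.part [48, 136, 64] [0, 0, 0] [7] []),
.rs (.join 2 4 5 3 1 2 [(2, 0)]),
.rs (.part [66, 60, 129] [0, 1, 0] [] []),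
.rs (.part [57, 68, 130] [1, 0, 0] [] []),
.rs (.join 2 2 7 2 1 1 [(1, 0)]),
.rs (.part [128, 96, 24] [0, 0, 0] [7] []),
.rs (.lip 1 32 38 7),
.rs (.part [196, 33, 26] [1, 0, 0] [] []),
.rs (.mono 2 32 33 1),
.rs (.part [128, 48, 76] [0, 0, 0] [3] []),
.rs (.part [65, 42, 148] [0, 1, 0] [] []),
.rs (.l2 1 66 130 1 1 1),
.rs (.lipl 2 132 141 0 9),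
.rs (.le 2 5 4 2 3),
.rs (.l2 0 160 192 7 1 1),
.rs (.ordE 0 8 1),
.rs (.part [6, 248, 1] [0, 1, 0] [] []),
.rs (.part [64, 20, 171] [0, 0, 1] [] []),
.rs (.join 2 8 4 3 2 1 [(3, 0)]),
.rs (.part [65, 150, 40] [0, 1, 0] [] []),
.rs (.mono 0 128 129 1),
.rs (.lipl 2 50 115 0 65),
.rs (.mono 1 4 12 1),
.rs (.deg 5 [0, 3, 0]),
.rs (.mono 0 32 33 1),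
.rs (.part [8, 18, 229] [0, 0, 1] [] []),
.rs (.lipl 2 130 139 0 9),
.rs (.ab2 1 5),
.rs (.part [73, 18, 164] [1, 0, 0] [] []),
.rs (.part [60, 130, 65] [1, 0, 0] [] []),
.rs (.deg 6 [1, 3, 0]),
.rs (.part [61, 130, 64] [1, 0, 0] [] []),
.rs (.join 2 32 6 3 2 1 [(5, 0)]),
.rs (.join 1 1 3 2 0 2 [(0, 0)]),
.rs (.join 0 4 7 2 1 2 [(2, 1)]),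
.rs (.lip 0 128 184 56),
.rs (.part [248, 2, 5] [1, 0, 0] [] []),
.rs (.lip 0 65 105 56),
.rs (.part [132, 66, 1] [0, 0, 0] [56] []),
.rs (.le 2 34 2 1 4),
.rs (.part [9, 68, 178] [0, 0, 1] [] []),
.rs (.lipl 2 20 116 2 96),
.rs (.part [135, 72, 48] [1, 0, 0] [] []),
.rs (.lipl 2 34 46 0 12),
.rs (.lipl 0 9 169 0 160),
.rs (.part [58, 128, 69] [1, 0, 0] [] []),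
.rs (.lipl 2 34 102 2 68),
.rs (.join 2 8 6 2 0 2 [(3, 0)]),
.rs (.join 1 3 4 2 1 1 [(0, 0), (1, 0)]),
.rs (.part [16, 40, 192] [0, 0, 0] [7] []),
.rs (.join 2 1 1 5 2 3 [(0, 0)]),
.rs (.srt 0 1 0 0 4),
.rs (.lip 0 128 133 7),
.rs (.le 1 80 16 4 3),
.rs (.part [77, 34, 144] [1, 0, 0] [] []),
.rs (.lip 1 2 50 56),
.rs (.lipl 2 22 182 1 160),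
.rs (.part [128, 2, 125] [0, 0, 1] [] []),
.rs (.l2 0 10 72 3 1 1),
.rs (.le 2 6 2 1 3),
.rs (.lipl 0 192 209 0 17),
.rs (.lipl 2 52 62 1 10),
.rs (.le 1 6 2 1 2),
.rs (.le 2 17 1 0 3),
.rs (.join 2 32 6 3 1 2 [(5, 0)]),
.rs (.join 2 4 7 4 3 3 [(2, 2)]),
.rs (.join 0 8 4 2 1 1 [(3, 0)]),
.rs (.deg 6 [3, 1, 0]),
.rs (.join 1 2 6 2 2 0 [(1, 0)]),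
.rs (.mono 0 64 80 1),
.rs (.lipl 2 34 54 1 20),
.rs (.ab2 2 130),
.rs (.ab2 1 130),
.rs (.lipl 0 129 195 1 66),
.rs (.part [9, 192, 54] [0, 0, 1] [] []),
.rs (.part [129, 64, 62] [0, 0, 1] [] []),
.rs (.part [137, 20, 98] [1, 0, 0] [] []),
.rs (.part [132, 58, 65] [0, 1, 0] [] []),
.rs (.l2 1 96 160 5 1 1),
.rs (.part [64, 14, 177] [0, 1, 0] [] []),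
.rs (.lipl 0 64 196 1 132),
.rs (.join 2 4 3 5 3 2 [(2, 0)]),
.rs (.ordE 1 32 2),
.rs (.part [64, 24, 167] [0, 0, 1] [] []),
.rs (.part [136, 68, 51] [0, 0, 1] [] []),
.rs (.lipl 0 130 195 0 65),
.rs (.join 1 16 5 2 2 1 [(4, 1)]),
.rs (.lipl 0 130 195 1 65),
.rs (.join 2 64 7 3 2 2 [(6, 1)]),
.rs (.l2 2 34 66 1 2 2),
.rs (.part [40, 192, 16] [0, 0, 0] [7] []),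
.rs (.lipl 0 33 45 2 12),
.rs (.part [58, 129, 68] [1, 0, 0] [] []),
.rs (.part [144, 96, 8] [0, 0, 0] [7] []),
.rs (.part [192, 59, 4] [0, 1, 0] [] []),
.rs (.part [128, 66, 52] [0, 0, 0] [] [(0, 9)]),
.rs (.l2 2 136 192 7 1 2),
.rs (.join 0 8 7 2 1 1 [(3, 0)]),
.rs (.ordE 0 32 1),
.rs (.lipl 0 9 77 2 68),
.rs (.lipl 0 9 27 0 18),
.rs (.l2 1 3 129 0 1 1),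
.rs (.l2 2 34 36 5 1 1),
.rs (.join 1 64 7 2 2 2 [(6, 2)]),
.degU 3 [(1, 4), (2, 1)],
.rs (.join 1 16 5 1 0 1 [(4, 0)]),
.rs (.lipl 2 52 182 1 130),
.rs (.lipl 0 130 147 0 17),
.rs (.deg 1 [3, 0, 0]),
.rs (.part [65, 154, 36] [0, 1, 0] [] []),
.rs (.join 2 2 3 4 4 1 [(1, 1)]),
.rs (.join 1 32 6 2 1 1 [(5, 0)]),
.rs (.l2 2 48 160 5 1 2),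
.rs (.part [64, 129, 62] [0, 0, 1] [] []),
.rs (.lipl 1 18 210 0 192),
.rs (.mono 2 18 50 1),
.rs (.join 2 16 6 4 2 2 [(4, 0)]),
.rs (.part [64, 6, 129] [0, 0, 0] [56] []),
.rs (.part [57, 128, 70] [1, 0, 0] [] []),
.rs (.lip 0 192 195 7),
.rs (.lipl 2 13 93 1 80),
.rs (.lipl 2 82 91 2 9),
.rs (.join 1 1 7 2 2 1 [(0, 1)]),
.rs (.part [169, 20, 66] [1, 0, 0] [] []),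
.rs (.mono 2 128 192 1),
.rs (.l2 2 136 160 7 1 3),
.rs (.lip 1 64 67 7),
.rs (.lipl 1 20 212 1 192),
.rs (.ab2 1 136),
.rs (.join 1 1 2 2 2 0 [(0, 0)]),
.rs (.un 1 4),
.rs (.part [8, 80, 167] [0, 0, 1] [] []),
.rs (.l2 2 48 144 4 1 2),
.rs (.join 2 2 6 2 1 1 [(1, 0)]),
.rs (.lipl 2 19 115 1 96),
.rs (.deg 0 [2, 0, 1]),
.rs (.part [2, 1, 252] [0, 0, 1] [] []),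
.rs (.lipl 2 25 93 2 68),
.rs (.le 1 66 2 1 3),
.rs (.join 2 2 4 4 3 3 [(1, 2)]),
.rs (.lipl 2 14 79 2 65),
.rs (.part [128, 43, 84] [0, 1, 0] [] []),
.rs (.mono 2 32 36 1),
.rs (.join 2 8 7 4 2 2 [(3, 0)]),
.rs (.ab2 0 96),
.rs (.join 2 4 4 3 2 2 [(2, 1)]),
.rs (.join 0 4 5 2 0 2 [(2, 0)]),
.rs (.join 1 4 4 2 1 1 [(2, 0)]),
.rs (.l2 2 18 20 4 1 1),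
.rs (.l2 1 66 96 6 1 1),
.rs (.part [77, 144, 34] [1, 0, 0] [] []),
.rs (.join 2 2 5 4 3 1 [(1, 0)]),
.rs (.part [1, 144, 110] [0, 0, 1] [] []),
.rs (.l2 2 136 160 7 1 2),
.rs (.lipl 2 37 181 1 144),
.rs (.join 2 4 4 2 1 1 [(2, 0)]),
.rs (.part [64, 144, 38] [0, 0, 0] [] [(0, 9)]),
.rs (.le 1 136 128 7 2),
.rs (.join 2 2 7 5 4 3 [(1, 2)]),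
.rs (.le 2 160 32 5 2),
.rs (.le 2 65 1 0 3),
.rs (.le 2 18 16 4 3),
.rs (.le 1 72 8 3 1),
.rs (.lipl 2 200 234 2 34),
.rs (.l2 2 20 80 4 1 2),
.rs (.part [64, 32, 159] [0, 0, 1] [] []),
.rs (.l2 2 12 36 2 1 3),
.rs (.srt 0 1 0 0 1),
.rs (.l2 2 3 130 1 2 1),
.rs (.part [128, 48, 79] [0, 0, 1] [] []),
.rs (.lipl 2 140 158 1 18),
.rs (.join 1 1 6 2 2 0 [(0, 0)]),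
.rs (.lip 1 32 37 7),
.rs (.part [197, 40, 18] [1, 0, 0] [] []),
.rs (.join 2 2 6 5 4 2 [(1, 1)]),
.rs (.mono 0 32 48 1),
.rs (.deg 2 [1, 2, 0]),
.rs (.join 2 2 4 4 2 3 [(1, 1)]),
.rs (.mono 1 2 10 1),
.rs (.join 2 2 3 4 2 2 [(1, 0)]),
.rs (.le 1 12 4 2 2),
.rs (.part [96, 24, 128] [0, 0, 0] [7] []),
.rs (.l2 1 33 65 0 1 1),
.rs (.lip 2 68 124 56),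
.rs (.join 2 32 7 3 2 2 [(5, 1)]),
.rs (.join 2 2 5 3 2 1 [(1, 0)]),
.rs (.ab 0 4),
.rs (.part [64, 36, 155] [0, 0, 1] [] []),
.rs (.join 1 2 4 2 3 0 [(1, 1)]),
.rs (.lipl 0 130 202 2 72),
.rs (.part [1, 6, 200] [0, 0, 0] [48] []),
.rs (.l2 1 5 20 2 1 1),
.rs (.join 0 2 2 2 1 1 [(1, 0)]),
.rs (.part [16, 136, 103] [0, 0, 1] [] []),
.rs (.le 1 33 32 5 2),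
.rs (.le 1 12 4 2 1),
.rs (.part [17, 4, 234] [0, 0, 1] [] []),
.rs (.le 1 24 16 4 2),
.rs (.part [32, 80, 143] [0, 0, 1] [] []),
.rs (.join 2 32 6 4 2 2 [(5, 0)]),
.rs (.part [64, 3, 140] [0, 0, 0] [48] []),
.rs (.join 2 2 5 4 0 4 [(1, 0)]),
.rs (.lipl 0 9 105 2 96),
.rs (.join 2 16 5 4 2 3 [(4, 1)]),
.rs (.l2 2 17 80 4 1 2),
.rs (.l2 1 65 68 6 1 1),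
.rs (.l2 2 20 36 2 1 3),
.rs (.part [193, 18, 44] [1, 0, 0] [] []),
.rs (.join 2 1 6 5 2 3 [(0, 0)]),
.rs (.join 2 4 6 3 1 2 [(2, 0)]),
.rs (.lip 2 70 94 56),
.rs (.join 2 4 6 4 1 3 [(2, 0)]),
.rs (.join 1 2 6 2 2 2 [(1, 2)]),
.rs (.part [136, 39, 80] [0, 1, 0] [] []),
.rs (.ab2 1 33),
.rs (.l2 1 5 6 2 1 1),
.rs (.part [153, 96, 6] [1, 0, 0] [] []),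
.rs (.join 2 1 7 2 3 3 [(0, 4)]),
.rs (.join 2 1 4 3 2 1 [(0, 0)]),
.rs (.part [128, 35, 92] [0, 1, 0] [] []),
.rs (.join 2 2 7 2 2 2 [(1, 2)]),
.rs (.lipl 0 9 139 1 130),
.rs (.l2 1 10 18 1 1 1),
.rs (.part [129, 92, 34] [0, 1, 0] [] []),
.rs (.ordE 2 32 1),
.rs (.lipl 2 44 110 2 66),
.rs (.part [105, 20, 130] [1, 0, 0] [] []),
.rs (.ab2 2 66),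
.rs (.lipl 2 34 166 1 132),
.rs (.part [160, 79, 16] [0, 1, 0] [] []),
.rs (.join 0 2 7 2 1 2 [(1, 1)]),
.rs (.lipl 2 82 115 2 33),
.rs (.lip 1 68 196 128),
.rs (.lipl 0 129 139 1 10),
.rs (.part [20, 194, 41] [0, 1, 0] [] []),
.rs (.le 2 66 64 6 2),
.rs (.part [193, 10, 52] [1, 0, 0] [] []),
.rs (.lipl 2 35 171 1 136),
.rs (.deg 2 [2, 0, 1]),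
.rs (.l2 2 40 136 3 1 1),
.rs (.lipl 2 36 46 1 10),
.rs (.mono 1 2 66 1),
.rs (.part [66, 188, 1] [0, 1, 0] [] []),
.rs (.lip 0 9 137 128),
.rs (.part [9, 196, 50] [0, 1, 0] [] []),
.rs (.join 1 2 4 2 1 1 [(1, 0)]),
.rs (.part [60, 65, 130] [1, 0, 0] [] []),
.rs (.lipl 2 33 45 2 12),
.rs (.mono 0 11 15 2),
.rs (.le 0 12 4 2 1),
.rs (.ordE 1 16 2),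
.rs (.join 2 2 4 2 1 1 [(1, 0)]),
.rs (.deg 7 [2, 0, 2]),
.rs (.lip 0 128 134 7),
.rs (.join 2 64 7 4 1 3 [(6, 0)]),
.rs (.part [9, 116, 130] [0, 1, 0] [] []),
.rs (.ab2 1 68),
.rs (.l2 2 18 34 1 2 1),
.rs (.join 2 32 7 4 2 2 [(5, 0)]),
.rs (.l2 0 34 48 5 1 1),
.rs (.lipl 0 129 147 1 18),
.rs (.part [16, 39, 200] [0, 1, 0] [] []),
.rs (.l2 2 5 12 2 1 1),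
.rs (.ordE 0 16 1),
.rs (.lipl 2 70 79 2 9),
.rs (.part [128, 14, 113] [0, 1, 0] [] []),
.rs (.join 2 4 4 5 3 2 [(2, 0)]),
.rs (.l2 2 6 68 2 1 1),
.rs (.part [8, 65, 182] [0, 0, 1] [] []),
.rs (.join 1 4 3 2 2 0 [(2, 0)]),
.degU 2 [(1, 1), (2, 4)],
.rs (.l2 2 10 72 3 1 2),
.rs (.lip 2 66 122 56),
.rs (.mono 0 2 10 1),
.rs (.part [33, 20, 202] [0, 0, 1] [] []),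
.rs (.le 1 18 2 1 2),
.rs (.ordE 0 8 3),
.rs (.join 1 1 3 1 1 0 [(0, 0)]),
.rs (.lipl 1 80 216 2 136),
.rs (.l2 1 20 36 2 1 1),
.rs (.lipl 2 134 167 2 33),
.rs (.ab2 1 80),
.rs (.lipl 2 12 78 2 66),
.rs (.join 2 2 2 4 2 3 [(1, 1)]),
.rs (.part [137, 6, 112] [1, 0, 0] [] []),
.rs (.le 1 66 2 1 2),
.rs (.join 2 4 3 3 2 1 [(2, 0)]),
.rs (.mono 0 153 185 2),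
.rs (.part [176, 68, 11] [1, 0, 0] [] []),
.rs (.lipl 0 132 197 0 65),
.rs (.lipl 2 100 118 1 18),
.rs (.l2 2 17 18 4 1 1),
.rs (.part [139, 20, 96] [1, 0, 0] [] []),
.degU 7 [(0, 2), (1, 4)],
.rs (.lipl 1 18 210 1 192),
.rs (.mono 2 68 100 1),
.rs (.le 0 5 4 2 1),
.rs (.lip 0 68 124 56),
.rs (.lipl 1 36 54 2 18),
.rs (.deg 5 [1, 1, 1]),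
.rs (.lip 0 129 185 56),
.rs (.join 0 4 7 2 0 2 [(2, 0)]),
.rs (.part [64, 130, 5] [0, 0, 0] [56] []),
.rs (.join 2 1 1 2 2 1 [(0, 1)]),
.rs (.part [40, 64, 151] [0, 0, 1] [] []),
.rs (.le 2 20 4 2 4),
.rs (.join 1 2 3 1 0 1 [(1, 0)]),
.rs (.part [193, 20, 42] [1, 0, 0] [] []),
.rs (.le 1 65 1 0 4),
.rs (.mono 2 160 162 1),
.rs (.part [29, 160, 66] [1, 0, 0] [] []),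
.degU 0 [(0, 1), (1, 2), (2, 2)],
.rs (.l2 2 80 192 6 1 1),
.rs (.un 0 7),
.rs (.join 2 2 3 3 1 2 [(1, 0)]),
.rs (.lipl 2 162 171 0 9),
.rs (.join 0 40 6 2 1 1 [(3, 0), (5, 0)]),
.rs (.lipl 2 84 118 0 34),
.rs (.lipl 2 28 93 0 65),
.rs (.l2 2 3 10 1 1 1),
.rs (.le 1 192 64 6 4),
.rs (.part [122, 129, 4] [1, 0, 0] [] []),
.rs (.le 1 5 4 2 2),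
.rs (.join 1 2 2 2 1 1 [(1, 0)]),
.rs (.join 1 4 7 2 1 1 [(2, 0)]),
.rs (.part [65, 166, 24] [0, 1, 0] [] []),
.rs (.l2 2 18 66 1 2 1),
.rs (.join 2 1 7 4 3 3 [(0, 2)]),
.rs (.l2 1 17 20 4 1 1),
.rs (.l2 1 5 65 0 1 1),
.rs (.mono 2 40 41 1),
.rs (.le 2 24 8 3 2),
.rs (.join 2 64 7 3 0 3 [(6, 0)]),
.rs (.part [60, 64, 131] [1, 0, 0] [] []),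
.rs (.join 1 9 4 2 1 1 [(0, 0), (3, 0)]),
.rs (.part [65, 58, 132] [0, 1, 0] [] []),
.rs (.lipl 0 9 77 1 68),
.rs (.ab 1 4),
.rs (.part [153, 66, 36] [1, 0, 0] [] []),
.rs (.part [130, 61, 64] [0, 1, 0] [] []),
.rs (.le 1 192 64 6 2),
.rs (.mono 2 32 160 1),
.rs (.l2 1 36 132 2 1 1),
.degU 2 [(1, 5)],
.rs (.lipl 0 68 77 0 9),
.degU 6 [(0, 1), (1, 2), (2, 3)],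
.rs (.le 1 5 1 0 1),
.rs (.part [33, 10, 84] [0, 0, 0] [128] []),
.rs (.mono 1 64 96 1),
.rs (.lip 2 130 186 56),
.degU 5 [(0, 1), (1, 1), (2, 3)],
.degU 0 [(0, 1), (1, 1), (2, 3)],
.rs (.join 1 2 3 2 3 0 [(1, 1)]),
.rs (.ab 1 6),
.rs (.le 2 33 1 0 2),
.rs (.l2 1 6 10 1 1 1),
.rs (.part [10, 33, 212] [0, 0, 1] [] []),
.rs (.part [105, 144, 6] [1, 0, 0] [] []),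
.rs (.join 1 6 7 2 1 1 [(1, 0), (2, 0)]),
.rs (.part [12, 194, 49] [0, 1, 0] [] []),
.rs (.lipl 2 20 92 1 72),
.rs (.ab 2 6),
.rs (.part [6, 192, 1] [0, 0, 0] [56] []),
.rs (.le 1 65 1 0 2),
.rs (.lipl 2 96 114 1 18),
.rs (.lipl 0 9 77 0 68),
.rs (.part [4, 57, 194] [0, 1, 0] [] []),
.rs (.ab2 2 6),
.rs (.l2 1 48 160 5 1 1),
.rs (.join 2 4 6 4 3 3 [(2, 2)]),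
.rs (.lipl 1 160 180 1 20),
.rs (.lipl 1 20 180 2 160),
.rs (.join 2 4 3 2 1 1 [(2, 0)]),
.rs (.mono 1 16 144 1),
.rs (.part [64, 132, 3] [0, 0, 0] [56] []),
.rs (.lip 1 128 131 7),
.rs (.lipl 2 160 226 1 66),
.rs (.lipl 0 9 89 2 80),
.rs (.lipl 2 132 198 2 66),
.rs (.ab2 0 144),
.rs (.un 2 2),
.rs (.le 2 10 8 3 3),
.rs (.l2 0 9 33 0 1 1),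
.rs (.part [66, 36, 153] [0, 0, 1] [] []),
.rs (.hall [0, 1] [3, 4, 5]),
.rs (.l2 1 10 130 1 1 1),
.rs (.part [60, 3, 192] [1, 0, 0] [] []),
.rs (.join 0 2 7 2 0 3 [(1, 1)]),
.rs (.join 0 1 3 2 2 2 [(0, 2)]),
.rs (.l2 2 68 132 2 2 1),
.rs (.join 2 2 4 5 3 3 [(1, 1)]),
.rs (.ab 1 3),
.rs (.mono 0 64 68 1),
.rs (.part [47, 64, 144] [1, 0, 0] [] []),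
.rs (.deg 7 [1, 2, 1]),
.rs (.ab2 1 96),
.rs (.le 1 66 64 6 2),
.rs (.join 2 4 4 4 4 1 [(2, 1)]),
.rs (.l2 2 72 96 6 2 1),
.rs (.ab2 0 17),
.rs (.join 2 4 6 3 0 3 [(2, 0)]),
.rs (.join 0 1 1 2 1 1 [(0, 0)]),
.rs (.lipl 0 1 137 1 136),
.rs (.join 1 8 5 2 2 0 [(3, 0)]),
.degU 4 [(1, 3), (2, 2)],
.rs (.l2 2 12 24 3 2 1),
.rs (.part [11, 128, 116] [1, 0, 0] [] []),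
.rs (.lipl 2 160 240 2 80),
.rs (.part [185, 66, 4] [1, 0, 0] [] []),
.rs (.le 0 10 8 3 1),
.rs (.un 2 6),
.rs (.part [64, 1, 190] [0, 0, 1] [] []),
.rs (.lipl 1 36 166 1 130),
.rs (.part [5, 64, 186] [0, 0, 1] [] []),
.rs (.lipl 1 36 180 2 144),
.rs (.part [3, 64, 188] [0, 0, 1] [] []),
.rs (.join 2 16 7 2 0 3 [(4, 1)]),
.rs (.l2 0 6 130 1 1 1),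
.rs (.part [135, 48, 72] [1, 0, 0] [] []),
.rs (.l2 2 66 68 6 1 2),
.rs (.l2 0 12 136 3 1 1),
.rs (.lipl 1 96 228 2 132),
.rs (.l2 0 129 130 7 1 1),
.rs (.lipl 2 38 182 0 144),
.rs (.le 2 34 2 1 3),
.rs (.lipl 0 65 197 2 132),
.rs (.lipl 1 4 76 0 72),
.rs (.lip 0 5 61 56),
.rs (.ab2 1 9),
.rs (.part [129, 4, 122] [0, 0, 1] [] []),
.rs (.part [248, 4, 3] [1, 0, 0] [] []),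
.rs (.l2 1 24 48 4 1 1),
.rs (.part [72, 48, 128] [0, 0, 0] [7] []),
.rs (.join 2 1 4 2 1 1 [(0, 0)]),
.rs (.lipl 2 12 30 2 18),
.rs (.lipl 2 28 94 1 66),
.rs (.mono 1 85 87 2),
.rs (.join 2 2 2 4 2 2 [(1, 0)]),
.rs (.part [71, 128, 56] [1, 0, 0] [] []),
.rs (.mono 1 128 129 1),
.rs (.part [80, 1, 174] [0, 0, 1] [] []),
.rs (.part [129, 104, 22] [0, 1, 0] [] []),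
.rs (.lipl 0 68 197 0 129),
.rs (.lipl 2 41 107 2 66),
.rs (.lip 1 192 199 7),
.rs (.lipl 2 6 86 0 80),
.rs (.part [65, 56, 134] [0, 1, 0] [] []),
.rs (.l2 2 48 144 4 2 1),
.rs (.join 1 24 7 2 1 1 [(3, 0), (4, 0)]),
.rs (.lipl 0 192 225 2 33),
.rs (.part [130, 36, 89] [0, 0, 1] [] []),
.rs (.l2 2 130 132 7 1 1),
.rs (.join 2 1 7 3 2 1 [(0, 0)]),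
.rs (.l2 2 10 24 3 1 1),
.rs (.lipl 1 33 113 0 80),
.rs (.join 0 32 6 2 1 1 [(5, 0)]),
.rs (.join 1 2 6 2 1 1 [(1, 0)]),
.rs (.part [15, 80, 160] [1, 0, 0] [] []),
.rs (.part [135, 24, 96] [1, 0, 0] [] []),
.rs (.join 1 4 4 2 2 1 [(2, 1)]),
.rs (.lipl 2 11 155 1 144),
.rs (.join 2 2 6 2 0 3 [(1, 1)]),
.rs (.join 1 2 6 2 2 1 [(1, 1)]),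
.rs (.part [199, 32, 24] [1, 0, 0] [] []),
.rs (.l2 2 18 130 1 2 2),
.rs (.lipl 2 13 157 1 144),
.rs (.lipl 2 44 110 1 66),
.rs (.deg 7 [0, 1, 3]),
.rs (.part [17, 142, 96] [0, 1, 0] [] []),
.rs (.le 2 129 1 0 3),
.rs (.join 2 8 5 2 2 1 [(3, 1)]),
.rs (.part [141, 18, 96] [1, 0, 0] [] []),
.rs (.l2 1 6 130 1 1 1),
.rs (.join 0 16 6 2 1 2 [(4, 1)]),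
.rs (.deg 4 [0, 1, 2]),
.rs (.le 2 136 8 3 2),
.rs (.le 0 136 128 7 1),
.rs (.ab2 1 160),
.rs (.l2 0 132 136 7 1 1),
.rs (.deg 7 [0, 2, 2]),
.rs (.mono 2 1 9 1),
.rs (.part [1, 18, 236] [0, 0, 1] [] []),
.rs (.le 1 18 16 4 2),
.rs (.part [23, 160, 72] [1, 0, 0] [] []),
.rs (.join 1 2 3 2 1 1 [(1, 0)]),
.rs (.part [132, 57, 66] [0, 1, 0] [] []),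
.rs (.l2 1 33 34 5 1 1),
.rs (.part [23, 136, 96] [1, 0, 0] [] []),
.rs (.join 1 4 5 2 3 2 [(2, 3)]),
.rs (.lipl 0 129 197 0 68),
.rs (.part [9, 18, 100] [0, 0, 0] [128] []),
.rs (.join 1 1 1 2 1 2 [(0, 1)]),
.rs (.mono 2 3 11 1),
.rs (.deg 3 [3, 0, 0]),
.rs (.ab 2 0),
.rs (.part [13, 160, 82] [1, 0, 0] [] []),
.rs (.lip 1 32 39 7),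
.rs (.join 2 4 3 4 2 3 [(2, 1)]),
.rs (.part [66, 168, 21] [0, 1, 0] [] []),
.rs (.mono 2 128 160 1),
.rs (.part [153, 34, 68] [1, 0, 0] [] []),
.rs (.part [6, 129, 56] [0, 0, 0] [64] []),
.rs (.join 2 2 4 4 3 4 [(1, 3)]),
.rs (.l2 2 17 65 0 2 2),
.rs (.join 2 1 4 4 1 4 [(0, 1)]),
.rs (.join 1 2 4 1 0 1 [(1, 0)]),
.rs (.join 1 8 4 2 1 2 [(3, 1)]),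
.rs (.mono 2 8 10 1),
.rs (.part [72, 133, 50] [0, 1, 0] [] []),
.rs (.ab2 2 129),
.rs (.join 1 4 3 2 1 1 [(2, 0)]),
.rs (.part [121, 132, 2] [1, 0, 0] [] []),
.rs (.lip 0 65 113 56),
.rs (.part [90, 160, 5] [1, 0, 0] [] []),
.rs (.part [129, 24, 96] [0, 0, 0] [6] []),
.rs (.part [65, 6, 128] [0, 0, 0] [56] []),
.rs (.join 2 4 6 2 3 0 [(2, 1)]),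
.rs (.l2 0 144 160 7 1 1),
.rs (.l2 2 36 40 5 1 1),
.rs (.l2 2 5 17 0 1 1),
.rs (.le 0 34 32 5 1),
.rs (.l2 1 40 160 5 1 1),
.rs (.part [64, 19, 172] [0, 1, 0] [] []),
.rs (.part [18, 196, 41] [0, 1, 0] [] []),
.rs (.join 2 2 2 2 1 2 [(1, 1)]),
.rs (.lipl 2 18 30 1 12),
.rs (.srt 0 3 0 0 4),
.rs (.le 1 132 4 2 1),
.rs (.l2 1 20 48 4 1 1),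
.rs (.l2 0 66 192 6 1 1),
.rs (.le 1 129 128 7 2),
.rs (.part [80, 141, 34] [0, 1, 0] [] []),
.rs (.lipl 2 42 107 0 65),
.rs (.part [65, 12, 178] [0, 0, 1] [] []),
.rs (.part [192, 48, 8] [0, 0, 0] [7] []),
.rs (.part [65, 130, 4] [0, 0, 0] [56] []),
.rs (.part [3, 248, 4] [0, 1, 0] [] []),
.rs (.join 1 3 7 2 1 1 [(0, 0), (1, 0)]),
.rs (.join 0 1 5 2 3 0 [(0, 1)]),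
.rs (.part [45, 66, 144] [1, 0, 0] [] []),
.rs (.lip 2 112 119 7),
.rs (.lipl 0 9 201 2 192),
.rs (.ordE 1 4 2),
.rs (.deg 6 [0, 0, 4]),
.rs (.ab2 1 12),
.rs (.part [65, 10, 180] [0, 0, 1] [] []),
.rs (.lip 0 10 74 64),
.rs (.lipl 2 19 91 1 72),
.rs (.lipl 0 129 195 2 66),
.rs (.join 2 2 6 4 4 0 [(1, 0)]),
.rs (.l2 2 65 66 6 1 1),
.degU 6 [(0, 1), (1, 1), (2, 4)],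
.rs (.join 2 8 5 3 2 1 [(3, 0)]),
.rs (.lip 1 64 112 56),
.rs (.mono 0 32 96 1),
.rs (.part [130, 68, 57] [0, 0, 1] [] []),
.rs (.part [16, 160, 79] [0, 0, 1] [] []),
.rs (.lipl 2 25 157 2 132),
.rs (.part [9, 96, 150] [0, 0, 1] [] []),
.rs (.part [163, 72, 20] [1, 0, 0] [] []),
.rs (.part [31, 128, 96] [1, 0, 0] [] []),
.degU 5 [(1, 2), (2, 3)],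
.rs (.l2 2 10 12 3 2 1),
.rs (.lip 0 64 67 7),
.rs (.part [141, 48, 66] [1, 0, 0] [] []),
.rs (.ordL 2 65 1),
.rs (.join 0 2 3 2 2 0 [(1, 0)]),
.rs (.l2 2 129 130 7 1 3),
.rs (.lipl 0 66 195 1 129),
.rs (.ordE 2 1 2),
.rs (.lipl 2 38 182 1 144),
.rs (.part [136, 48, 64] [0, 0, 0] [7] []),
.rs (.l2 2 130 192 7 1 2),
.rs (.l2 0 9 65 0 1 1),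
.rs (.lip 0 192 199 7),
.rs (.ordE 2 64 2),
.rs (.join 1 4 5 2 2 0 [(2, 0)]),
.rs (.part [192, 6, 1] [0, 0, 0] [56] []),
.rs (.l2 2 80 96 6 2 1),
.rs (.srt 0 2 0 1 1),
.rs (.ordE 2 128 1),
.rs (.mono 2 6 22 1),
.rs (.part [64, 9, 182] [0, 0, 1] [] []),
.rs (.l2 0 5 129 0 1 1),
.rs (.join 1 1 2 2 0 2 [(0, 0)]),
.rs (.join 2 1 2 4 3 1 [(0, 0)]),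
.rs (.lipl 2 130 198 2 68),
.rs (.join 2 2 6 4 2 2 [(1, 0)]),
.rs (.join 2 4 4 4 4 3 [(2, 3)]),
.rs (.deg 0 [0, 3, 0]),
.rs (.ab 0 2),
.rs (.ab2 0 6),
.rs (.join 2 8 4 4 3 2 [(3, 1)]),
.rs (.mono 0 8 12 1),
.rs (.join 1 5 4 2 1 1 [(0, 0), (2, 0)]),
.rs (.l2 2 33 96 5 2 1),
.rs (.join 2 16 7 2 2 2 [(4, 2)]),
.rs (.l2 1 72 96 6 1 1),
.rs (.join 1 4 6 2 0 2 [(2, 0)]),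
.rs (.part [48, 199, 8] [0, 1, 0] [] []),
.rs (.join 2 2 5 5 3 2 [(1, 0)]),
.rs (.join 2 1 6 2 0 2 [(0, 0)]),
.rs (.lipl 1 144 156 1 12),
.rs (.l2 2 17 24 4 1 1),
.rs (.join 2 2 4 4 4 3 [(1, 3)]),
.rs (.deg 0 [1, 2, 0]),
.rs (.join 1 4 5 2 0 3 [(2, 1)]),
.rs (.srt 0 3 0 0 1),
.rs (.join 2 4 3 4 2 2 [(2, 0)]),
.rs (.mono 1 2 18 1),
.rs (.ab2 2 18),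
.rs (.join 2 4 4 5 2 3 [(2, 0)]),
.rs (.l2 0 6 66 1 1 1),
.rs (.lipl 1 130 198 1 68),
.rs (.ordE 0 128 1),
.rs (.join 2 2 3 3 2 1 [(1, 0)]),
.rs (.part [9, 132, 114] [0, 0, 1] [] []),
.rs (.mono 2 136 200 1),
.rs (.part [11, 80, 164] [1, 0, 0] [] []),
.rs (.part [129, 106, 20] [0, 1, 0] [] []),
.rs (.l2 0 5 65 0 1 1),
.rs (.join 2 2 3 4 3 1 [(1, 0)]),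
.rs (.part [169, 68, 18] [1, 0, 0] [] []),
.rs (.join 1 4 3 2 2 1 [(2, 1)]),
.rs (.part [64, 51, 140] [0, 1, 0] [] []),
.rs (.lipl 2 44 174 1 130),
.rs (.lipl 2 22 94 1 72),
.rs (.join 1 8 7 2 2 0 [(3, 0)]),
.rs (.part [16, 8, 231] [0, 0, 1] [] []),
.rs (.l2 2 40 136 3 1 2),
.rs (.lipl 1 20 150 0 130),
.rs (.part [58, 132, 65] [1, 0, 0] [] []),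
.rs (.le 2 68 64 6 2),
.rs (.l2 2 20 48 4 1 1),
.degU 1 [(1, 5)],
.rs (.l2 1 10 66 1 1 1),
.rs (.un 1 3),
.rs (.join 2 2 4 5 3 2 [(1, 0)]),
.rs (.lipl 2 162 179 2 17),
.rs (.part [9, 64, 182] [0, 0, 1] [] []),
.rs (.hall [0] [1, 2, 6, 7]),
.degU 0 [(0, 2), (2, 3)],
.rs (.part [65, 20, 170] [0, 0, 1] [] []),
.rs (.lipl 2 38 118 1 80),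
.rs (.lipl 2 160 172 2 12),
.rs (.join 2 16 5 3 2 2 [(4, 1)]),
.rs (.part [3, 128, 124] [0, 0, 1] [] []),
.rs (.l2 1 5 12 2 1 1),
.rs (.join 0 1 3 2 1 1 [(0, 0)]),
.rs (.part [129, 68, 2] [0, 0, 0] [56] []),
.rs (.part [61, 64, 130] [1, 0, 0] [] []),
.rs (.ab2 1 34),
.rs (.join 2 1 1 4 3 2 [(0, 1)]),
.rs (.lipl 1 34 54 1 20),
.rs (.ordE 0 32 3),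
.rs (.le 1 80 64 6 4),
.rs (.part [27, 68, 160] [1, 0, 0] [] []),
.rs (.join 2 2 6 4 1 3 [(1, 0)]),
.rs (.mono 2 72 104 1),
.rs (.join 0 8 6 2 0 2 [(3, 0)]),
.rs (.l2 2 10 12 3 2 2),
.rs (.join 1 2 3 2 2 1 [(1, 1)]),
.rs (.part [65, 60, 130] [0, 1, 0] [] []),
.rs (.ordE 0 64 4),
.rs (.join 2 2 5 3 1 2 [(1, 0)]),
.rs (.part [57, 192, 6] [1, 0, 0] [] []),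
.rs (.ab2 1 6),
.degU 0 [(0, 1), (1, 4)],
.rs (.join 0 16 6 2 1 1 [(4, 0)]),
.rs (.part [132, 64, 59] [0, 0, 1] [] []),
.rs (.lipl 1 160 228 2 68),
.rs (.lipl 2 42 171 0 129),
.rs (.part [1, 10, 244] [0, 0, 1] [] []),
.rs (.mono 1 1 129 1),
.rs (.deg 4 [3, 0, 0]),
.rs (.lip 1 4 52 56),
.rs (.lipl 2 81 91 2 10),
.rs (.part [130, 5, 64] [0, 0, 0] [56] []),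
.rs (.le 0 80 64 6 1),
.rs (.le 2 6 4 2 2),
.rs (.deg 0 [0, 0, 3]),
.rs (.join 0 1 3 2 2 1 [(0, 1)]),
.rs (.part [152, 68, 35] [1, 0, 0] [] []),
.rs (.part [9, 48, 198] [0, 0, 1] [] []),
.rs (.join 2 4 7 5 4 3 [(2, 2)]),
.rs (.lipl 1 32 98 2 66),
.rs (.le 1 80 16 4 1),
.rs (.part [25, 130, 100] [1, 0, 0] [] []),
.rs (.part [248, 1, 6] [1, 0, 0] [] []),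
.rs (.lipl 2 84 93 2 9),
.rs (.lip 0 1 25 56),
.rs (.part [5, 66, 128] [0, 0, 0] [56] []),
.rs (.part [3, 156, 96] [0, 1, 0] [] []),
.rs (.part [105, 132, 18] [1, 0, 0] [] []),
.rs (.mono 2 8 136 1),
.rs (.lipl 1 36 180 1 144),
.rs (.join 2 1 6 4 2 2 [(0, 0)]),
.rs (.mono 2 65 81 1),
.rs (.lip 1 128 168 56),
.rs (.part [195, 12, 48] [1, 0, 0] [] []),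
.rs (.ab2 1 129),
.rs (.mono 0 169 185 2),
.rs (.part [64, 2, 189] [0, 0, 1] [] []),
.rs (.l2 1 18 144 4 1 1),
.rs (.part [88, 36, 131] [1, 0, 0] [] []),
.rs (.join 2 1 4 4 2 2 [(0, 0)]),
.rs (.lip 0 132 188 56),
.rs (.part [70, 160, 25] [1, 0, 0] [] []),
.rs (.ordE 0 1 1),
.rs (.lipl 2 41 109 2 68),
.rs (.le 0 17 16 4 1),
.rs (.join 2 32 6 3 3 0 [(5, 0)]),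
.rs (.le 1 160 128 7 2),
.rs (.l2 2 129 130 7 2 2),
.rs (.lipl 0 9 201 0 192),
.rs (.le 1 130 2 1 2),
.rs (.l2 2 96 192 6 1 2),
.rs (.lipl 2 10 78 2 68),
.rs (.le 1 3 1 0 1),
.rs (.join 2 4 7 4 3 1 [(2, 0)]),
.rs (.mono 2 36 52 1),
.rs (.lipl 0 129 139 0 10),
.rs (.lip 2 88 95 7),
.rs (.lipl 1 48 57 0 9),
.rs (.join 1 32 6 2 2 0 [(5, 0)]),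
.rs (.join 2 4 5 5 4 1 [(2, 0)]),
.rs (.join 1 1 2 2 1 1 [(0, 0)]),
.rs (.hall [1] [3, 4, 6, 7]),
.rs (.part [80, 139, 36] [0, 1, 0] [] []),
.rs (.lip 0 129 193 64),
.rs (.deg 7 [1, 3, 0]),
.rs (.lipl 2 200 218 2 18),
.rs (.lip 1 132 156 56),
.rs (.le 1 96 32 5 1),
.rs (.part [64, 3, 164] [0, 0, 0] [24] []),
.degU 6 [(0, 3), (2, 3)],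
.rs (.lip 0 5 45 56),
.rs (.part [128, 17, 110] [0, 0, 1] [] []),
.rs (.join 2 16 5 2 1 1 [(4, 0)]),
.rs (.part [17, 36, 202] [0, 0, 1] [] []),
.rs (.l2 0 6 132 2 1 1),
.rs (.part [74, 33, 148] [1, 0, 0] [] []),
.rs (.part [160, 80, 8] [0, 0, 0] [7] []),
.rs (.l2 2 24 72 3 1 1),
.rs (.part [139, 68, 48] [1, 0, 0] [] []),
.rs (.part [9, 198, 48] [0, 1, 0] [] []),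
.rs (.join 0 1 4 2 1 1 [(0, 0)]),
.rs (.l2 2 34 130 1 2 1),
.rs (.lip 0 136 143 7),
.rs (.part [1, 66, 188] [0, 0, 1] [] []),
.rs (.join 2 2 2 2 1 1 [(1, 0)]),
.rs (.mono 1 4 68 1),
.rs (.lipl 2 25 91 2 66),
.rs (.l2 1 17 24 4 1 1),
.rs (.join 0 8 4 1 1 0 [(3, 0)]),
.rs (.mono 1 2 34 1),
.rs (.part [3, 116, 136] [0, 1, 0] [] []),
.rs (.lipl 2 162 182 2 20),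
.rs (.mono 1 8 40 1),
.rs (.part [144, 47, 64] [0, 1, 0] [] []),
.rs (.l2 1 65 80 6 1 1),
.rs (.ordE 2 16 2),
.rs (.l2 2 48 80 4 1 1),
.degU 1 [(1, 3), (2, 2)],
.rs (.ab2 0 129),
.rs (.join 2 2 6 2 2 2 [(1, 2)]),
.rs (.l2 1 68 96 6 1 1),
.rs (.lipl 1 24 156 2 132),
.rs (.part [133, 72, 50] [1, 0, 0] [] []),
.rs (.join 2 2 5 4 1 3 [(1, 0)]),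
.rs (.l2 2 9 136 3 1 3),
.rs (.ordE 0 8 2),
.rs (.mono 2 96 224 1),
.rs (.part [143, 16, 96] [1, 0, 0] [] []),
.rs (.ab 0 1),
.rs (.lipl 2 40 170 1 130),
.rs (.ab2 2 12),
.rs (.part [9, 98, 148] [0, 1, 0] [] []),
.rs (.lipl 2 164 174 2 10),
.rs (.mono 2 6 38 1),
.rs (.lipl 1 18 86 1 68),
.rs (.join 0 64 7 2 2 1 [(6, 1)]),
.rs (.part [24, 103, 128] [0, 1, 0] [] []),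
.rs (.join 2 8 7 2 1 1 [(3, 0)]),
.rs (.join 1 4 7 2 0 3 [(2, 1)]),
.rs (.lipl 0 65 209 2 144),
.rs (.lipl 1 20 150 1 130),
.rs (.l2 1 132 144 7 1 1),
.rs (.l2 2 3 130 1 1 2),
.rs (.join 2 4 3 4 4 2 [(2, 2)]),
.rs (.le 1 96 32 5 2),
.rs (.part [184, 68, 3] [1, 0, 0] [] []),
.rs (.le 2 17 1 0 2),
.rs (.lip 0 48 55 7),
.rs (.ab2 0 68),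
.rs (.le 1 130 2 1 1),
.rs (.part [64, 18, 173] [0, 0, 1] [] []),
.rs (.join 2 32 7 2 1 2 [(5, 1)]),
.rs (.lipl 2 146 155 2 9),
.rs (.part [25, 68, 162] [1, 0, 0] [] []),
.rs (.join 2 1 6 2 3 2 [(0, 3)]),
.rs (.part [75, 132, 48] [1, 0, 0] [] []),
.rs (.join 1 1 7 2 2 2 [(0, 2)]),
.rs (.join 1 24 6 2 1 1 [(3, 0), (4, 0)]),
.rs (.mono 2 32 40 1),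
.rs (.part [137, 34, 84] [1, 0, 0] [] []),
.rs (.join 1 1 7 2 1 1 [(0, 0)]),
.rs (.lipl 2 49 185 2 136),
.rs (.join 1 2 3 2 0 3 [(1, 1)]),
.rs (.lipl 2 138 158 1 20),
.rs (.join 0 4 6 2 0 2 [(2, 0)]),
.rs (.hall [2] [0, 1, 2, 7]),
.rs (.part [75, 32, 148] [1, 0, 0] [] []),
.rs (.l2 0 18 66 1 1 1),
.rs (.part [29, 64, 162] [1, 0, 0] [] []),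
.rs (.part [136, 16, 103] [0, 0, 1] [] []),
.rs (.le 1 24 8 3 1),
.rs (.mono 2 1 65 1),
.rs (.lip 0 3 51 56),
.rs (.part [128, 54, 73] [0, 1, 0] [] []),
.rs (.l2 1 65 96 6 1 1),
.rs (.lipl 1 144 210 2 66),
.rs (.lipl 1 80 116 1 36),
.rs (.l2 2 129 132 7 1 2),
.rs (.join 1 8 6 2 0 2 [(3, 0)]),
.rs (.join 0 1 6 2 2 0 [(0, 0)]),
.rs (.join 2 32 6 2 2 0 [(5, 0)]),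
.rs (.lipl 0 9 89 1 80),
.rs (.lipl 2 34 114 2 80),
.rs (.l2 2 10 12 3 1 1),
.rs (.join 2 1 7 2 1 1 [(0, 0)]),
.rs (.part [43, 128, 84] [1, 0, 0] [] []),
.rs (.join 2 2 4 4 4 2 [(1, 2)]),
.rs (.le 1 3 2 1 3),
.rs (.part [64, 8, 183] [0, 0, 1] [] []),
.rs (.part [17, 10, 228] [0, 0, 1] [] []),
.rs (.part [32, 15, 208] [0, 1, 0] [] []),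
.rs (.le 1 12 8 3 1),
.rs (.lipl 1 132 198 0 66),
.rs (.lipl 2 52 118 2 66),
.rs (.mono 2 5 21 1),
.rs (.lipl 0 1 73 2 72),
.rs (.lipl 2 192 204 2 12),
.rs (.part [136, 96, 16] [0, 0, 0] [7] []),
.rs (.l2 2 20 36 2 2 1),
.rs (.lip 0 8 13 7),
.rs (.lip 1 2 42 56),
.rs (.lipl 2 49 179 2 130),
.rs (.part [3, 136, 116] [0, 0, 1] [] []),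
.rs (.lipl 2 37 117 1 80),
.rs (.lip 1 4 60 56),
.rs (.join 2 4 5 5 1 4 [(2, 0)]),
.rs (.part [13, 80, 162] [1, 0, 0] [] []),
.rs (.deg 0 [0, 2, 1]),
.rs (.join 1 4 4 2 3 0 [(2, 1)]),
.rs (.lip 0 6 62 56),
.rs (.lipl 1 12 142 0 130),
.rs (.mono 1 1 9 1),
.rs (.part [2, 72, 181] [0, 0, 1] [] []),
.rs (.join 2 1 2 4 1 3 [(0, 0)]),
.rs (.part [9, 36, 210] [0, 0, 1] [] []),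
.rs (.l2 2 33 36 5 2 2),
.rs (.join 0 8 7 2 1 2 [(3, 1)]),
.rs (.join 2 2 2 2 2 0 [(1, 0)]),
.rs (.le 2 10 8 3 4),
.rs (.l2 2 18 24 4 1 1),
.rs (.lipl 2 26 91 0 65),
.degU 3 [(0, 3), (1, 1), (2, 1)],
.rs (.part [11, 96, 148] [1, 0, 0] [] []),
.rs (.lipl 0 6 39 1 33),
.rs (.ordE 2 64 1),
.rs (.deg 3 [2, 1, 0]),
.rs (.join 2 16 7 3 1 2 [(4, 0)]),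
.rs (.part [24, 39, 192] [0, 1, 0] [] []),
.rs (.lipl 1 10 78 1 68),
.rs (.le 0 144 16 4 2),
.rs (.part [72, 55, 128] [0, 1, 0] [] []),
.rs (.le 1 130 128 7 3),
.rs (.join 2 4 5 4 1 3 [(2, 0)]),
.rs (.mono 1 2 3 1),
.rs (.le 1 144 16 4 2),
.rs (.le 2 34 32 5 2),
.rs (.part [96, 31, 128] [0, 1, 0] [] []),
.rs (.l2 0 66 72 6 1 1),
.rs (.lipl 2 70 79 0 9),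
.rs (.l2 0 68 132 2 1 1),
.rs (.le 1 18 2 1 1),
.rs (.join 2 2 5 4 2 3 [(1, 1)]),
.rs (.lip 0 65 193 128),
.rs (.part [65, 34, 156] [0, 0, 1] [] []),
.rs (.lipl 1 36 102 1 66),
.rs (.mono 2 1 129 1),
.rs (.lipl 2 20 54 2 34),
.rs (.join 2 2 2 4 3 1 [(1, 0)]),
.rs (.l2 2 18 20 4 2 1),
.rs (.l2 0 132 144 7 1 1),
.rs (.l2 1 34 130 1 1 1),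
.rs (.part [135, 96, 24] [1, 0, 0] [] []),
.rs (.lipl 0 192 201 0 9),
.rs (.deg 7 [2, 2, 0]),
.rs (.join 2 8 4 3 2 2 [(3, 1)]),
.rs (.join 2 32 7 4 4 0 [(5, 0)]),
.rs (.lipl 0 129 197 1 68),
.rs (.l2 1 48 80 4 1 1),
.rs (.lipl 2 192 210 2 18),
.rs (.join 2 16 5 4 2 2 [(4, 0)]),
.rs (.mono 1 8 10 1),
.rs (.join 2 4 5 4 0 4 [(2, 0)]),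
.rs (.mono 2 18 19 1),
.rs (.part [17, 2, 236] [0, 0, 1] [] []),
.rs (.part [5, 192, 2] [0, 0, 0] [56] []),
.rs (.mono 0 32 34 1),
.rs (.l2 2 132 160 7 2 1),
.rs (.lip 2 3 59 56),
.rs (.le 0 80 16 4 1),
.rs (.lipl 0 136 232 2 96),
.rs (.l2 1 65 72 6 1 1),
.rs (.join 2 8 6 2 1 1 [(3, 0)]),
.rs (.join 1 17 5 2 1 1 [(0, 0), (4, 0)]),
.rs (.lip 1 36 164 128),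
.rs (.ordE 1 2 3),
.rs (.mono 0 16 20 1),
.rs (.l2 1 34 96 5 1 1),
.rs (.lipl 2 36 180 2 144),
.rs (.lip 1 128 133 7),
.rs (.lipl 0 129 141 1 12),
.rs (.l2 1 5 33 0 1 1),
.rs (.l2 2 17 144 4 2 1),
.rs (.part [33, 64, 158] [0, 0, 1] [] []),
.rs (.part [201, 6, 48] [1, 0, 0] [] []),
.rs (.l2 2 3 6 1 1 1),
.rs (.join 0 8 6 2 3 0 [(3, 1)]),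
.rs (.part [67, 160, 28] [1, 0, 0] [] []),
.rs (.un 0 4),
.rs (.part [23, 64, 168] [1, 0, 0] [] []),
.rs (.part [9, 178, 68] [0, 1, 0] [] []),
.rs (.mono 1 16 80 1),
.rs (.part [18, 193, 44] [0, 1, 0] [] []),
.rs (.deg 0 [3, 0, 0]),
.rs (.lipl 0 9 27 1 18),
.rs (.join 1 1 6 2 2 2 [(0, 2)]),
.rs (.join 1 1 4 2 2 0 [(0, 0)]),
.rs (.join 2 2 4 4 3 2 [(1, 1)]),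
.rs (.part [65, 16, 174] [0, 0, 1] [] []),
.rs (.srt 0 1 0 0 2),
.rs (.join 0 1 3 2 3 3 [(0, 4)])]

/-- the bounds. -/
def bl : List Bnd := [⟨false, [(0, 0), (0, 1), (0, 2), (0, 3), (0, 4), (0, 5), (0, 6), (0, 7)], 9⟩, ⟨false, [(1, 0), (1, 1), (1, 2), (1, 3), (1, 4), (1, 5), (1, 6), (1, 7)], 9⟩, ⟨true, [(0, 0), (0, 1), (0, 2), (0, 3), (0, 4), (0, 5), (1, 0), (1, 1), (1, 2), (1, 3), (1, 4), (1, 5)], 10⟩]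

noncomputable def gb : List Gb := [
⟨1, [0, 0, 1, 2, 1, 1, 4, 1]⟩,
⟨1, [0, 1, 4, 3, 1, 1, 0, 0]⟩,
⟨1, [4, 4, 2, 0, 0, 0, 0, 0]⟩,
⟨2, [0, 0, 0, 0, 0, 0, 1, 3, 1, 1, 0, 3]⟩,
⟨1, [0, 2, 3, 0, 1, 0, 1, 3]⟩,
⟨1, [0, 3, 0, 2, 2, 2, 0, 1]⟩,
⟨1, [1, 4, 1, 1, 2, 1, 0, 0]⟩,
⟨1, [4, 2, 1, 1, 0, 0, 0, 2]⟩,
⟨1, [0, 1, 0, 2, 0, 2, 4, 1]⟩,
⟨1, [1, 0, 0, 2, 3, 3, 1, 0]⟩,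
⟨2, [1, 0, 0, 0, 0, 0, 0, 2, 0, 2, 2, 2]⟩,
⟨2, [1, 0, 0, 0, 0, 0, 0, 0, 1, 3, 2, 2]⟩,
⟨1, [3, 0, 1, 1, 4, 1, 0, 0]⟩,
⟨1, [1, 0, 0, 3, 3, 0, 3, 0]⟩,
⟨1, [0, 0, 2, 3, 2, 2, 0, 1]⟩,
⟨0, [1, 1, 0, 1, 1, 0, 2, 4]⟩,
⟨2, [0, 0, 0, 0, 0, 0, 0, 4, 0, 1, 0, 4]⟩,
⟨1, [0, 1, 4, 1, 4, 0, 0, 0]⟩,
⟨2, [2, 2, 2, 2, 0, 0, 0, 0, 0, 1, 0, 0]⟩,
⟨2, [1, 0, 0, 0, 0, 0, 1, 1, 1, 1, 4, 0]⟩,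
⟨0, [2, 2, 2, 1, 1, 1, 1, 0]⟩,
⟨1, [0, 0, 1, 2, 3, 2, 1, 1]⟩,
⟨1, [0, 1, 1, 1, 0, 2, 0, 5]⟩,
⟨1, [0, 1, 1, 2, 1, 2, 3, 0]⟩,
⟨1, [0, 0, 0, 1, 3, 2, 1, 3]⟩,
⟨0, [2, 3, 0, 1, 0, 0, 0, 4]⟩,
⟨1, [2, 1, 2, 1, 0, 0, 4, 0]⟩,
⟨2, [1, 1, 1, 1, 1, 1, 1, 0, 0, 1, 0, 1]⟩,
⟨1, [0, 1, 0, 4, 2, 2, 0, 1]⟩,
⟨1, [0, 0, 1, 0, 2, 2, 4, 1]⟩,
⟨1, [0, 0, 2, 2, 3, 2, 0, 1]⟩,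
⟨2, [1, 0, 0, 1, 0, 0, 1, 0, 1, 1, 2, 2]⟩,
⟨1, [1, 2, 2, 1, 0, 1, 0, 3]⟩,
⟨0, [4, 0, 0, 4, 1, 0, 0, 1]⟩,
⟨1, [0, 3, 2, 1, 0, 0, 0, 4]⟩,
⟨1, [4, 1, 0, 3, 1, 1, 0, 0]⟩,
⟨1, [1, 0, 1, 1, 2, 1, 3, 1]⟩,
⟨2, [2, 1, 1, 1, 1, 1, 0, 1, 0, 0, 1, 0]⟩,
⟨2, [1, 0, 0, 0, 0, 0, 0, 1, 0, 2, 3, 2]⟩,
⟨1, [4, 0, 1, 1, 4, 0, 0, 0]⟩,
⟨1, [3, 0, 1, 4, 1, 1, 0, 0]⟩,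
⟨0, [2, 2, 0, 1, 0, 0, 1, 4]⟩,
⟨2, [0, 0, 0, 0, 0, 0, 1, 4, 0, 0, 0, 4]⟩,
⟨1, [1, 2, 2, 0, 1, 0, 2, 2]⟩,
⟨2, [1, 1, 1, 1, 1, 0, 1, 0, 1, 0, 1, 1]⟩,
⟨1, [0, 4, 1, 0, 0, 1, 2, 2]⟩,
⟨1, [0, 1, 0, 3, 3, 1, 0, 2]⟩,
⟨2, [0, 0, 0, 0, 0, 0, 0, 1, 3, 0, 4, 1]⟩,
⟨0, [1, 0, 0, 3, 3, 0, 0, 3]⟩,
⟨1, [1, 0, 1, 1, 1, 2, 1, 3]⟩,
⟨1, [0, 0, 0, 2, 0, 2, 1, 5]⟩,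
⟨2, [1, 0, 0, 0, 0, 0, 1, 3, 3, 1, 0, 0]⟩,
⟨1, [0, 1, 4, 4, 0, 0, 1, 0]⟩,
⟨1, [3, 0, 3, 0, 0, 1, 0, 3]⟩,
⟨1, [0, 0, 1, 2, 2, 1, 0, 4]⟩,
⟨1, [2, 3, 3, 2, 0, 0, 0, 0]⟩,
⟨1, [0, 3, 3, 0, 0, 0, 3, 1]⟩,
⟨0, [2, 2, 0, 1, 0, 0, 4, 1]⟩,
⟨1, [3, 0, 1, 1, 1, 4, 0, 0]⟩,
⟨1, [2, 3, 3, 1, 0, 0, 0, 1]⟩,
⟨1, [0, 1, 0, 1, 2, 1, 1, 4]⟩,
⟨2, [1, 0, 1, 1, 1, 1, 0, 1, 0, 3, 0, 0]⟩,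
⟨2, [1, 1, 1, 1, 1, 1, 1, 0, 0, 1, 1, 0]⟩,
⟨1, [0, 1, 1, 3, 2, 2, 0, 1]⟩,
⟨1, [0, 1, 1, 0, 1, 2, 0, 5]⟩,
⟨0, [3, 3, 1, 0, 0, 0, 2, 1]⟩,
⟨1, [0, 2, 0, 0, 2, 0, 3, 3]⟩,
⟨1, [0, 1, 1, 1, 2, 2, 3, 0]⟩,
⟨2, [0, 0, 0, 0, 0, 0, 4, 1, 2, 0, 1, 1]⟩,
⟨1, [0, 0, 1, 2, 1, 2, 2, 2]⟩,
⟨1, [0, 0, 3, 1, 1, 4, 0, 1]⟩,
⟨2, [1, 1, 0, 1, 1, 0, 1, 1, 1, 1, 0, 1]⟩,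
⟨2, [0, 0, 0, 0, 0, 0, 3, 0, 1, 1, 4, 0]⟩,
⟨1, [0, 0, 0, 4, 2, 2, 1, 1]⟩,
⟨1, [1, 2, 4, 0, 0, 1, 0, 2]⟩,
⟨1, [0, 1, 2, 0, 1, 1, 0, 5]⟩,
⟨1, [0, 2, 1, 0, 0, 2, 2, 3]⟩,
⟨0, [4, 1, 1, 1, 1, 1, 1, 0]⟩,
⟨2, [1, 0, 0, 1, 0, 0, 1, 0, 0, 1, 3, 2]⟩,
⟨1, [0, 1, 0, 2, 1, 0, 1, 5]⟩,
⟨2, [1, 1, 0, 1, 1, 0, 1, 1, 1, 0, 1, 1]⟩,
⟨2, [4, 0, 0, 1, 1, 1, 0, 1, 0, 0, 1, 0]⟩,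
⟨2, [1, 0, 0, 0, 0, 0, 1, 4, 2, 0, 1, 0]⟩,
⟨1, [0, 1, 0, 0, 2, 4, 0, 3]⟩,
⟨0, [2, 2, 2, 0, 0, 0, 2, 2]⟩,
⟨1, [0, 0, 0, 0, 3, 2, 1, 4]⟩,
⟨1, [1, 1, 3, 1, 0, 4, 0, 0]⟩,
⟨1, [0, 2, 2, 0, 1, 0, 5, 0]⟩,
⟨2, [1, 1, 1, 1, 0, 1, 1, 0, 1, 1, 1, 0]⟩,
⟨1, [0, 1, 0, 1, 3, 3, 0, 2]⟩,
⟨1, [1, 0, 2, 2, 2, 2, 0, 1]⟩,
⟨0, [2, 0, 0, 1, 1, 1, 3, 2]⟩,
⟨1, [0, 1, 2, 0, 1, 1, 2, 3]⟩,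
⟨2, [0, 0, 0, 0, 0, 0, 1, 4, 0, 3, 0, 1]⟩,
⟨1, [3, 2, 1, 0, 1, 0, 0, 3]⟩,
⟨1, [2, 0, 1, 1, 1, 1, 1, 3]⟩,
⟨2, [0, 0, 0, 0, 0, 0, 0, 0, 4, 4, 0, 1]⟩,
⟨0, [2, 2, 2, 2, 0, 0, 1, 1]⟩,
⟨1, [0, 0, 1, 1, 0, 2, 3, 3]⟩,
⟨1, [0, 0, 1, 0, 2, 4, 0, 3]⟩,
⟨1, [3, 0, 2, 0, 0, 1, 1, 3]⟩,
⟨1, [2, 3, 3, 0, 0, 1, 1, 0]⟩,
⟨1, [1, 1, 2, 3, 0, 0, 1, 2]⟩,
⟨1, [0, 0, 0, 4, 4, 2, 0, 0]⟩,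
⟨2, [1, 0, 0, 0, 0, 0, 3, 0, 0, 3, 1, 1]⟩,
⟨1, [1, 3, 3, 0, 1, 1, 0, 1]⟩,
⟨1, [1, 1, 0, 1, 0, 0, 3, 4]⟩,
⟨1, [0, 0, 2, 1, 3, 1, 1, 2]⟩,
⟨1, [0, 0, 0, 1, 2, 2, 1, 4]⟩,
⟨1, [2, 3, 2, 0, 1, 1, 0, 1]⟩,
⟨1, [2, 1, 4, 0, 1, 0, 2, 0]⟩,
⟨2, [0, 0, 0, 0, 0, 0, 0, 1, 4, 3, 0, 1]⟩,
⟨1, [0, 3, 1, 1, 2, 2, 1, 0]⟩,
⟨0, [3, 3, 1, 1, 1, 0, 0, 1]⟩,
⟨1, [0, 0, 1, 4, 2, 1, 0, 2]⟩,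
⟨1, [4, 0, 1, 4, 0, 1, 0, 0]⟩,
⟨1, [0, 2, 3, 0, 1, 0, 0, 4]⟩,
⟨1, [1, 1, 0, 3, 2, 2, 1, 0]⟩,
⟨1, [2, 2, 1, 0, 0, 0, 4, 1]⟩,
⟨2, [1, 0, 0, 0, 0, 0, 0, 0, 2, 2, 2, 2]⟩,
⟨1, [2, 0, 4, 1, 0, 0, 0, 3]⟩,
⟨1, [2, 1, 1, 0, 0, 0, 2, 4]⟩,
⟨2, [0, 0, 0, 0, 0, 0, 4, 1, 1, 0, 1, 2]⟩,
⟨1, [3, 3, 2, 1, 0, 0, 1, 0]⟩,
⟨2, [0, 0, 0, 0, 0, 0, 0, 4, 1, 1, 0, 3]⟩,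
⟨2, [1, 0, 0, 1, 0, 0, 1, 4, 1, 0, 0, 1]⟩,
⟨2, [0, 0, 0, 0, 0, 0, 1, 3, 0, 3, 1, 1]⟩,
⟨2, [1, 0, 0, 0, 0, 0, 3, 2, 2, 1, 0, 0]⟩,
⟨2, [1, 0, 0, 1, 0, 0, 1, 1, 1, 3, 0, 1]⟩,
⟨2, [0, 0, 0, 0, 0, 0, 0, 1, 4, 1, 0, 3]⟩,
⟨0, [4, 3, 0, 0, 0, 0, 1, 2]⟩,
⟨2, [0, 0, 0, 0, 0, 0, 3, 1, 1, 3, 0, 1]⟩,
⟨2, [0, 0, 0, 0, 0, 0, 0, 3, 1, 1, 3, 1]⟩,
⟨1, [0, 0, 1, 2, 2, 4, 0, 1]⟩,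
⟨1, [2, 3, 2, 0, 0, 0, 3, 0]⟩,
⟨2, [1, 0, 0, 1, 0, 0, 0, 1, 4, 0, 1, 1]⟩,
⟨0, [4, 1, 1, 3, 0, 1, 0, 0]⟩,
⟨2, [1, 1, 0, 1, 1, 1, 0, 0, 1, 1, 1, 1]⟩,
⟨1, [0, 0, 1, 2, 2, 3, 1, 1]⟩,
⟨1, [1, 2, 2, 0, 2, 0, 2, 1]⟩,
⟨1, [2, 3, 1, 0, 1, 0, 0, 3]⟩,
⟨1, [0, 1, 1, 1, 2, 0, 2, 3]⟩,
⟨1, [1, 1, 3, 1, 0, 0, 4, 0]⟩,
⟨2, [1, 0, 1, 0, 0, 0, 0, 3, 2, 1, 1, 0]⟩,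
⟨2, [0, 0, 0, 0, 0, 0, 1, 3, 0, 4, 1, 0]⟩,
⟨1, [2, 2, 3, 0, 2, 0, 0, 1]⟩,
⟨1, [0, 1, 0, 3, 0, 3, 0, 3]⟩,
⟨1, [0, 3, 3, 1, 0, 0, 0, 3]⟩,
⟨1, [3, 1, 1, 1, 2, 1, 1, 0]⟩,
⟨0, [4, 3, 0, 1, 0, 0, 0, 2]⟩,
⟨1, [3, 0, 0, 2, 2, 2, 1, 0]⟩,
⟨2, [1, 0, 0, 0, 0, 0, 0, 3, 1, 4, 0, 0]⟩,
⟨1, [1, 3, 3, 0, 1, 1, 1, 0]⟩,
⟨0, [3, 2, 0, 0, 0, 0, 1, 4]⟩,
⟨1, [2, 2, 1, 0, 0, 0, 1, 4]⟩,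
⟨1, [1, 0, 0, 3, 3, 2, 1, 0]⟩,
⟨1, [4, 1, 1, 1, 3, 0, 0, 0]⟩,
⟨2, [0, 0, 0, 0, 0, 0, 0, 2, 1, 4, 1, 1]⟩,
⟨0, [4, 2, 0, 1, 0, 0, 3, 0]⟩,
⟨1, [0, 0, 2, 0, 1, 1, 3, 3]⟩,
⟨2, [0, 0, 0, 0, 0, 0, 0, 4, 0, 0, 1, 4]⟩,
⟨1, [2, 0, 3, 0, 0, 1, 0, 4]⟩,
⟨1, [1, 0, 1, 0, 0, 1, 3, 4]⟩,
⟨1, [0, 0, 1, 1, 1, 4, 3, 0]⟩,
⟨1, [0, 1, 3, 1, 1, 4, 0, 0]⟩,
⟨0, [2, 1, 0, 1, 1, 1, 4, 0]⟩,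
⟨2, [0, 0, 0, 0, 0, 0, 3, 0, 1, 0, 1, 4]⟩,
⟨1, [0, 0, 3, 2, 2, 2, 1, 0]⟩,
⟨1, [0, 0, 2, 1, 0, 1, 4, 2]⟩,
⟨1, [1, 0, 1, 2, 2, 3, 1, 0]⟩,
⟨1, [1, 0, 0, 0, 4, 2, 3, 0]⟩,
⟨1, [2, 4, 2, 0, 0, 1, 0, 1]⟩,
⟨1, [1, 1, 4, 0, 1, 0, 0, 3]⟩,
⟨0, [1, 1, 0, 1, 0, 0, 5, 2]⟩,
⟨1, [1, 2, 2, 1, 0, 1, 3, 0]⟩,
⟨1, [0, 1, 0, 0, 3, 3, 0, 3]⟩,
⟨2, [0, 0, 0, 0, 0, 0, 1, 0, 2, 1, 1, 4]⟩,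
⟨2, [1, 1, 0, 1, 1, 0, 0, 1, 1, 1, 1, 1]⟩,
⟨1, [2, 1, 3, 0, 1, 0, 0, 3]⟩,
⟨1, [0, 2, 1, 1, 0, 0, 4, 2]⟩,
⟨2, [0, 0, 0, 0, 0, 0, 0, 1, 2, 1, 1, 4]⟩,
⟨1, [1, 3, 3, 0, 0, 1, 2, 0]⟩,
⟨1, [1, 1, 0, 1, 2, 1, 1, 3]⟩,
⟨1, [4, 2, 2, 1, 0, 0, 0, 1]⟩,
⟨2, [0, 0, 0, 0, 0, 0, 3, 0, 1, 1, 3, 1]⟩,
⟨2, [0, 0, 0, 0, 0, 0, 3, 1, 0, 1, 0, 4]⟩,
⟨0, [2, 1, 1, 1, 1, 0, 0, 4]⟩,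
⟨1, [1, 1, 1, 1, 1, 1, 2, 2]⟩,
⟨2, [4, 0, 0, 1, 1, 1, 0, 0, 1, 1, 0, 0]⟩,
⟨1, [0, 1, 0, 0, 2, 1, 3, 3]⟩,
⟨1, [0, 0, 1, 0, 1, 2, 4, 2]⟩,
⟨2, [1, 0, 1, 1, 1, 1, 1, 1, 0, 1, 1, 0]⟩,
⟨1, [0, 2, 0, 1, 1, 2, 4, 0]⟩,
⟨2, [1, 0, 0, 0, 1, 0, 0, 4, 1, 1, 0, 1]⟩,
⟨2, [0, 0, 0, 0, 0, 0, 0, 1, 3, 4, 1, 0]⟩,
⟨1, [0, 1, 0, 2, 2, 0, 1, 4]⟩,
⟨2, [0, 0, 0, 0, 0, 0, 4, 4, 0, 0, 1, 0]⟩,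
⟨2, [0, 0, 0, 0, 0, 0, 4, 1, 0, 0, 4, 0]⟩,
⟨0, [2, 1, 1, 2, 1, 0, 0, 3]⟩,
⟨1, [0, 0, 1, 0, 3, 3, 1, 2]⟩,
⟨1, [1, 0, 3, 1, 4, 1, 0, 0]⟩,
⟨1, [0, 1, 2, 0, 0, 1, 2, 4]⟩,
⟨1, [0, 1, 0, 2, 3, 3, 0, 1]⟩,
⟨1, [1, 1, 0, 2, 3, 2, 1, 0]⟩,
⟨2, [0, 0, 0, 0, 0, 0, 0, 4, 0, 0, 4, 1]⟩,
⟨1, [0, 0, 1, 1, 2, 1, 1, 4]⟩,
⟨2, [0, 0, 0, 0, 0, 0, 3, 1, 0, 1, 3, 1]⟩,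
⟨1, [0, 1, 0, 3, 1, 3, 0, 2]⟩,
⟨1, [0, 1, 0, 0, 2, 3, 1, 3]⟩,
⟨2, [2, 2, 2, 1, 1, 0, 0, 0, 0, 0, 0, 1]⟩,
⟨2, [1, 0, 0, 1, 0, 0, 3, 3, 0, 0, 0, 1]⟩,
⟨1, [2, 0, 0, 2, 3, 3, 0, 0]⟩,
⟨2, [0, 0, 0, 0, 0, 0, 1, 4, 1, 0, 2, 1]⟩,
⟨1, [3, 1, 1, 1, 2, 1, 0, 1]⟩,
⟨1, [0, 1, 0, 3, 2, 1, 0, 3]⟩,
⟨2, [3, 2, 2, 1, 0, 0, 0, 0, 1, 0, 0, 0]⟩,
⟨2, [1, 0, 0, 0, 0, 0, 0, 0, 1, 1, 4, 2]⟩,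
⟨1, [0, 2, 1, 0, 3, 2, 1, 1]⟩,
⟨2, [0, 0, 0, 0, 0, 0, 1, 1, 2, 1, 0, 4]⟩,
⟨0, [1, 1, 0, 1, 0, 0, 2, 5]⟩,
⟨1, [0, 0, 1, 0, 3, 3, 2, 1]⟩,
⟨1, [0, 1, 0, 3, 1, 1, 0, 4]⟩,
⟨2, [0, 0, 0, 0, 0, 0, 1, 1, 4, 1, 0, 2]⟩,
⟨2, [2, 2, 2, 2, 0, 0, 1, 0, 0, 0, 0, 0]⟩,
⟨2, [1, 1, 0, 0, 0, 0, 3, 0, 0, 3, 0, 1]⟩,
⟨0, [2, 0, 0, 0, 0, 0, 4, 4]⟩,
⟨1, [0, 3, 1, 3, 1, 1, 0, 1]⟩,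
⟨1, [0, 1, 2, 1, 1, 1, 3, 1]⟩,
⟨2, [1, 1, 1, 1, 1, 0, 1, 1, 0, 0, 1, 1]⟩,
⟨0, [2, 1, 1, 2, 2, 2, 0, 0]⟩,
⟨1, [1, 2, 2, 3, 1, 0, 1, 0]⟩,
⟨1, [1, 0, 2, 1, 1, 4, 1, 0]⟩,
⟨2, [1, 0, 0, 0, 0, 0, 0, 3, 1, 0, 4, 0]⟩,
⟨1, [0, 2, 0, 0, 1, 1, 4, 2]⟩,
⟨2, [1, 0, 0, 0, 0, 0, 2, 3, 2, 0, 0, 1]⟩,
⟨1, [1, 0, 1, 3, 2, 2, 1, 0]⟩,
⟨0, [1, 1, 0, 1, 0, 0, 4, 3]⟩,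
⟨1, [0, 1, 0, 3, 3, 0, 0, 3]⟩,
⟨2, [0, 0, 0, 0, 0, 0, 4, 0, 0, 1, 0, 4]⟩,
⟨2, [1, 1, 0, 0, 0, 0, 1, 1, 1, 2, 1, 1]⟩,
⟨1, [0, 1, 3, 0, 1, 1, 3, 1]⟩,
⟨1, [1, 4, 3, 1, 0, 0, 0, 1]⟩,
⟨2, [3, 2, 2, 0, 0, 0, 0, 0, 1, 0, 0, 1]⟩,
⟨2, [1, 0, 0, 0, 0, 0, 3, 1, 0, 0, 4, 0]⟩,
⟨2, [1, 0, 0, 0, 0, 0, 0, 1, 0, 4, 1, 2]⟩,
⟨1, [0, 0, 1, 1, 2, 2, 2, 2]⟩,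
⟨1, [2, 1, 2, 0, 0, 1, 2, 2]⟩,
⟨2, [2, 2, 0, 1, 1, 0, 0, 1, 1, 0, 1, 0]⟩,
⟨1, [0, 0, 1, 0, 2, 0, 3, 4]⟩,
⟨1, [0, 1, 0, 0, 2, 2, 1, 4]⟩,
⟨1, [2, 3, 1, 1, 0, 0, 0, 3]⟩,
⟨2, [3, 1, 1, 1, 0, 0, 1, 0, 0, 1, 0, 1]⟩,
⟨1, [0, 0, 2, 1, 2, 1, 0, 4]⟩,
⟨1, [0, 1, 2, 0, 1, 0, 5, 1]⟩,
⟨2, [1, 0, 0, 0, 0, 0, 0, 1, 0, 2, 4, 1]⟩,
⟨1, [0, 3, 4, 0, 1, 0, 2, 0]⟩,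
⟨1, [1, 0, 0, 0, 3, 3, 3, 0]⟩,
⟨2, [0, 0, 0, 0, 0, 0, 4, 0, 0, 4, 0, 1]⟩,
⟨0, [4, 2, 1, 1, 0, 0, 0, 2]⟩,
⟨1, [1, 0, 0, 3, 1, 2, 3, 0]⟩,
⟨1, [1, 4, 0, 0, 1, 4, 0, 0]⟩,
⟨1, [0, 0, 1, 2, 0, 3, 4, 0]⟩,
⟨1, [0, 0, 1, 3, 2, 2, 1, 1]⟩,
⟨2, [0, 0, 0, 0, 0, 0, 1, 0, 3, 3, 1, 1]⟩,
⟨1, [2, 2, 1, 0, 1, 0, 2, 2]⟩,
⟨1, [0, 1, 0, 1, 2, 2, 2, 2]⟩,
⟨1, [0, 0, 2, 1, 1, 1, 2, 3]⟩,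
⟨0, [3, 2, 0, 1, 1, 0, 3, 0]⟩,
⟨2, [0, 0, 0, 0, 0, 0, 3, 0, 1, 4, 0, 1]⟩,
⟨0, [4, 1, 0, 4, 1, 0, 0, 0]⟩,
⟨1, [1, 1, 0, 2, 2, 3, 1, 0]⟩,
⟨1, [0, 1, 3, 1, 4, 1, 0, 0]⟩,
⟨1, [4, 1, 1, 3, 0, 1, 0, 0]⟩,
⟨2, [1, 1, 1, 1, 1, 1, 1, 1, 0, 0, 0, 1]⟩,
⟨0, [3, 0, 0, 3, 0, 0, 4, 0]⟩,
⟨0, [1, 1, 1, 1, 1, 0, 1, 4]⟩,
⟨1, [0, 2, 0, 2, 2, 3, 0, 1]⟩,
⟨2, [1, 0, 0, 0, 0, 0, 1, 0, 0, 3, 3, 1]⟩,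
⟨1, [3, 3, 1, 0, 0, 0, 2, 1]⟩,
⟨1, [0, 2, 3, 1, 0, 0, 0, 4]⟩,
⟨2, [0, 0, 0, 0, 0, 0, 0, 3, 1, 1, 1, 3]⟩,
⟨2, [1, 1, 1, 1, 1, 0, 0, 0, 1, 1, 1, 1]⟩,
⟨1, [1, 2, 0, 0, 1, 0, 2, 4]⟩,
⟨2, [4, 1, 1, 2, 0, 0, 0, 1, 0, 0, 0, 0]⟩,
⟨1, [1, 4, 0, 1, 3, 1, 0, 0]⟩,
⟨2, [0, 0, 0, 0, 0, 0, 4, 1, 1, 1, 2, 0]⟩,
⟨1, [4, 1, 0, 1, 1, 3, 0, 0]⟩,
⟨2, [1, 1, 1, 1, 1, 1, 0, 0, 1, 1, 0, 1]⟩,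
⟨1, [1, 2, 2, 0, 1, 3, 0, 1]⟩,
⟨1, [3, 0, 0, 0, 1, 2, 2, 2]⟩,
⟨2, [0, 0, 0, 0, 0, 0, 1, 0, 2, 4, 1, 1]⟩,
⟨1, [0, 0, 3, 0, 1, 2, 2, 2]⟩,
⟨1, [0, 1, 0, 1, 2, 0, 2, 4]⟩,
⟨1, [3, 0, 0, 1, 2, 1, 2, 1]⟩,
⟨1, [1, 0, 0, 0, 3, 2, 0, 4]⟩,
⟨2, [0, 0, 0, 0, 0, 0, 1, 3, 0, 0, 4, 1]⟩,
⟨1, [2, 2, 2, 1, 0, 2, 0, 1]⟩,
⟨1, [3, 2, 2, 0, 0, 2, 1, 0]⟩,
⟨1, [1, 0, 4, 1, 3, 1, 0, 0]⟩,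
⟨1, [2, 1, 1, 0, 0, 1, 4, 1]⟩,
⟨1, [0, 0, 1, 1, 0, 1, 5, 2]⟩,
⟨1, [0, 3, 2, 0, 1, 0, 4, 0]⟩,
⟨1, [1, 4, 1, 0, 1, 0, 3, 0]⟩,
⟨1, [0, 1, 2, 0, 1, 0, 4, 2]⟩,
⟨1, [2, 0, 4, 0, 0, 1, 0, 3]⟩,
⟨1, [0, 0, 1, 1, 3, 3, 2, 0]⟩,
⟨2, [1, 0, 0, 0, 0, 0, 1, 4, 2, 1, 0, 0]⟩,
⟨1, [0, 0, 1, 1, 1, 3, 0, 4]⟩,
⟨1, [4, 1, 1, 1, 0, 3, 0, 0]⟩,
⟨1, [1, 0, 4, 4, 1, 0, 0, 0]⟩,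
⟨1, [0, 3, 1, 0, 2, 2, 0, 2]⟩,
⟨1, [0, 0, 1, 2, 2, 1, 2, 2]⟩,
⟨1, [3, 2, 1, 1, 0, 0, 0, 3]⟩,
⟨1, [2, 3, 1, 0, 0, 0, 1, 3]⟩,
⟨1, [0, 0, 0, 2, 3, 3, 1, 1]⟩,
⟨1, [2, 4, 0, 1, 0, 0, 3, 0]⟩,
⟨1, [0, 1, 0, 1, 0, 1, 2, 5]⟩,
⟨0, [3, 3, 1, 1, 1, 0, 1, 0]⟩,
⟨1, [0, 0, 1, 0, 1, 4, 1, 3]⟩,
⟨1, [2, 1, 2, 1, 1, 0, 3, 0]⟩,
⟨1, [0, 1, 0, 1, 1, 2, 3, 2]⟩,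
⟨2, [1, 1, 0, 1, 0, 0, 0, 2, 0, 3, 0, 1]⟩,
⟨1, [0, 1, 1, 2, 3, 2, 1, 0]⟩,
⟨1, [0, 1, 0, 2, 1, 4, 2, 0]⟩,
⟨1, [2, 0, 3, 0, 0, 1, 4, 0]⟩,
⟨2, [0, 0, 0, 0, 0, 0, 2, 3, 2, 1, 0, 1]⟩,
⟨1, [1, 0, 0, 3, 3, 2, 0, 1]⟩,
⟨1, [1, 3, 0, 4, 1, 1, 0, 0]⟩,
⟨1, [0, 3, 1, 0, 1, 4, 0, 1]⟩,
⟨2, [0, 0, 0, 0, 0, 0, 0, 3, 1, 4, 0, 1]⟩,
⟨1, [0, 1, 0, 2, 1, 2, 4, 0]⟩,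
⟨2, [4, 0, 0, 3, 0, 0, 0, 0, 0, 2, 0, 0]⟩,
⟨1, [0, 4, 2, 0, 1, 0, 0, 3]⟩,
⟨0, [4, 1, 0, 1, 1, 0, 1, 2]⟩,
⟨1, [0, 3, 2, 0, 1, 0, 1, 3]⟩,
⟨1, [4, 2, 2, 0, 1, 0, 0, 1]⟩,
⟨2, [2, 1, 1, 1, 1, 1, 0, 0, 1, 1, 0, 0]⟩,
⟨1, [0, 2, 1, 1, 4, 1, 1, 0]⟩,
⟨1, [0, 1, 1, 0, 2, 2, 0, 4]⟩,
⟨1, [4, 2, 4, 0, 0, 0, 0, 0]⟩,
⟨2, [3, 2, 2, 1, 0, 0, 0, 1, 0, 0, 0, 0]⟩,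
⟨2, [0, 0, 0, 0, 0, 0, 1, 3, 1, 3, 1, 0]⟩,
⟨1, [1, 0, 4, 0, 4, 1, 0, 0]⟩,
⟨1, [0, 2, 4, 1, 0, 0, 0, 3]⟩,
⟨1, [2, 1, 2, 0, 0, 1, 4, 0]⟩,
⟨0, [1, 1, 0, 2, 2, 0, 4, 0]⟩,
⟨0, [4, 2, 1, 1, 0, 0, 2, 0]⟩,
⟨2, [3, 3, 1, 1, 0, 0, 0, 0, 1, 0, 0, 0]⟩,
⟨1, [2, 2, 0, 1, 0, 1, 0, 4]⟩,
⟨1, [0, 3, 1, 1, 3, 1, 1, 0]⟩,
⟨2, [1, 0, 0, 1, 0, 0, 1, 2, 2, 0, 1, 1]⟩,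
⟨2, [0, 0, 0, 0, 0, 0, 1, 0, 4, 3, 1, 0]⟩,
⟨1, [0, 0, 1, 2, 0, 2, 4, 1]⟩,
⟨1, [0, 3, 3, 0, 1, 0, 0, 3]⟩,
⟨2, [0, 0, 0, 0, 0, 0, 2, 2, 3, 1, 1, 0]⟩,
⟨1, [0, 0, 2, 2, 2, 3, 0, 1]⟩,
⟨1, [0, 0, 2, 0, 2, 1, 2, 3]⟩,
⟨1, [0, 1, 0, 1, 4, 1, 3, 0]⟩,
⟨1, [1, 0, 0, 1, 3, 3, 2, 0]⟩,
⟨0, [2, 1, 0, 1, 1, 1, 2, 2]⟩,
⟨1, [0, 0, 3, 1, 1, 2, 1, 2]⟩,
⟨1, [0, 1, 0, 2, 2, 4, 0, 1]⟩,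
⟨0, [2, 0, 0, 2, 1, 0, 2, 3]⟩,
⟨2, [0, 0, 0, 0, 0, 0, 1, 4, 1, 1, 0, 2]⟩,
⟨1, [3, 1, 3, 1, 0, 0, 2, 0]⟩,
⟨2, [1, 0, 0, 0, 0, 0, 0, 1, 3, 0, 0, 4]⟩,
⟨1, [1, 0, 0, 4, 2, 2, 0, 1]⟩,
⟨0, [1, 0, 0, 1, 1, 0, 3, 4]⟩,
⟨1, [3, 1, 0, 0, 0, 0, 2, 4]⟩,
⟨2, [3, 2, 1, 1, 0, 0, 0, 0, 1, 0, 0, 1]⟩,
⟨2, [1, 0, 0, 0, 0, 0, 1, 1, 1, 4, 0, 1]⟩,
⟨0, [3, 3, 1, 1, 0, 0, 1, 1]⟩,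
⟨1, [1, 3, 1, 1, 0, 4, 0, 0]⟩,
⟨2, [1, 0, 0, 0, 0, 0, 2, 0, 0, 2, 2, 2]⟩,
⟨1, [0, 1, 1, 2, 0, 2, 4, 0]⟩,
⟨2, [1, 0, 0, 0, 0, 0, 3, 1, 0, 4, 0, 0]⟩,
⟨1, [0, 3, 1, 4, 1, 1, 0, 0]⟩,
⟨2, [1, 1, 1, 1, 1, 1, 1, 0, 1, 1, 0, 0]⟩,
⟨2, [0, 0, 0, 0, 0, 0, 2, 4, 1, 1, 1, 0]⟩,
⟨2, [4, 1, 1, 1, 0, 0, 0, 1, 0, 0, 1, 0]⟩,
⟨1, [1, 3, 1, 1, 0, 0, 0, 4]⟩,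
⟨2, [1, 0, 1, 0, 0, 0, 2, 3, 0, 1, 0, 1]⟩,
⟨2, [0, 0, 0, 0, 0, 0, 2, 1, 0, 1, 1, 4]⟩,
⟨1, [0, 2, 0, 1, 1, 0, 3, 3]⟩,
⟨1, [0, 1, 0, 1, 2, 4, 2, 0]⟩,
⟨1, [0, 1, 4, 1, 1, 2, 0, 1]⟩,
⟨1, [0, 0, 3, 0, 0, 1, 4, 2]⟩,
⟨2, [1, 0, 0, 0, 0, 0, 2, 2, 3, 0, 0, 1]⟩,
⟨0, [3, 1, 0, 2, 2, 1, 0, 1]⟩,
⟨1, [0, 0, 2, 0, 1, 1, 4, 2]⟩,
⟨0, [3, 1, 0, 2, 2, 1, 1, 0]⟩,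
⟨1, [1, 1, 3, 1, 4, 0, 0, 0]⟩,
⟨2, [4, 1, 0, 1, 1, 0, 0, 0, 1, 0, 0, 1]⟩,
⟨1, [0, 1, 1, 2, 2, 3, 1, 0]⟩,
⟨1, [0, 1, 2, 0, 0, 1, 1, 5]⟩,
⟨1, [0, 4, 1, 0, 0, 4, 1, 0]⟩,
⟨2, [0, 0, 0, 0, 0, 0, 4, 0, 1, 1, 0, 3]⟩,
⟨1, [2, 2, 4, 0, 0, 1, 0, 1]⟩,
⟨1, [1, 1, 3, 0, 4, 1, 0, 0]⟩,
⟨1, [1, 4, 1, 1, 0, 3, 0, 0]⟩,
⟨1, [1, 0, 0, 1, 2, 3, 3, 0]⟩,
⟨0, [1, 0, 0, 3, 3, 3, 0, 0]⟩,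
⟨1, [0, 1, 3, 0, 0, 1, 1, 4]⟩,
⟨2, [0, 0, 0, 0, 0, 0, 1, 0, 3, 4, 0, 1]⟩,
⟨1, [1, 1, 1, 2, 2, 1, 1, 1]⟩,
⟨1, [1, 3, 3, 0, 1, 0, 2, 0]⟩,
⟨1, [0, 1, 0, 0, 3, 2, 1, 3]⟩,
⟨2, [1, 1, 1, 1, 1, 0, 1, 0, 0, 1, 1, 1]⟩,
⟨0, [2, 2, 1, 1, 1, 1, 0, 2]⟩,
⟨1, [4, 1, 0, 1, 4, 0, 0, 0]⟩,
⟨1, [0, 0, 1, 2, 3, 3, 0, 1]⟩,
⟨2, [0, 0, 0, 0, 0, 0, 1, 0, 4, 1, 1, 2]⟩,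
⟨1, [2, 3, 2, 2, 0, 0, 1, 0]⟩,
⟨1, [0, 1, 4, 4, 0, 1, 0, 0]⟩,
⟨2, [0, 0, 0, 0, 0, 0, 3, 1, 0, 3, 1, 1]⟩,
⟨1, [3, 2, 3, 0, 1, 0, 0, 1]⟩,
⟨1, [1, 2, 1, 0, 1, 1, 1, 3]⟩,
⟨1, [3, 1, 1, 4, 1, 0, 0, 0]⟩,
⟨2, [0, 0, 0, 0, 0, 0, 3, 1, 1, 3, 1, 0]⟩,
⟨2, [0, 0, 0, 0, 0, 0, 1, 0, 4, 0, 3, 1]⟩,
⟨1, [0, 1, 0, 0, 0, 2, 3, 4]⟩,
⟨1, [0, 0, 2, 0, 1, 2, 2, 3]⟩,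
⟨1, [0, 0, 0, 3, 3, 2, 1, 1]⟩,
⟨1, [0, 0, 2, 3, 2, 2, 1, 0]⟩,
⟨1, [0, 1, 1, 1, 1, 1, 4, 1]⟩,
⟨0, [4, 0, 0, 4, 0, 0, 1, 1]⟩,
⟨1, [3, 1, 3, 1, 0, 0, 0, 2]⟩,
⟨2, [1, 0, 0, 0, 0, 0, 1, 1, 1, 1, 0, 4]⟩,
⟨2, [1, 0, 0, 1, 0, 0, 1, 0, 0, 1, 2, 3]⟩,
⟨1, [2, 3, 0, 0, 1, 0, 0, 4]⟩,
⟨1, [2, 3, 1, 0, 0, 1, 0, 3]⟩,
⟨2, [4, 0, 0, 4, 0, 0, 0, 0, 0, 0, 1, 0]⟩,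
⟨1, [3, 1, 3, 0, 0, 1, 2, 0]⟩,
⟨2, [1, 0, 0, 0, 0, 1, 1, 4, 1, 0, 1, 0]⟩,
⟨1, [2, 2, 1, 1, 1, 0, 3, 0]⟩,
⟨1, [3, 0, 1, 0, 2, 2, 2, 0]⟩,
⟨2, [0, 0, 0, 0, 0, 0, 3, 0, 1, 0, 4, 1]⟩,
⟨1, [1, 1, 3, 1, 1, 2, 1, 0]⟩,
⟨1, [0, 0, 0, 2, 4, 4, 0, 0]⟩,
⟨2, [0, 0, 0, 0, 0, 0, 4, 0, 0, 4, 1, 0]⟩,
⟨2, [1, 0, 0, 0, 0, 0, 2, 2, 3, 0, 1, 0]⟩,
⟨1, [0, 0, 1, 0, 3, 2, 0, 4]⟩,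
⟨1, [2, 0, 1, 2, 2, 2, 1, 0]⟩,
⟨2, [0, 0, 0, 0, 0, 0, 4, 0, 1, 0, 4, 0]⟩,
⟨1, [0, 3, 2, 0, 0, 1, 3, 1]⟩,
⟨0, [3, 3, 0, 1, 1, 0, 0, 2]⟩,
⟨0, [2, 1, 1, 1, 1, 1, 3, 0]⟩,
⟨1, [0, 0, 2, 2, 0, 1, 2, 3]⟩,
⟨1, [1, 2, 2, 1, 3, 0, 0, 1]⟩,
⟨2, [1, 0, 0, 0, 0, 0, 1, 0, 3, 0, 4, 0]⟩,
⟨1, [0, 1, 0, 0, 2, 0, 4, 3]⟩,
⟨1, [0, 0, 2, 3, 2, 3, 0, 0]⟩,
⟨1, [0, 1, 4, 0, 0, 4, 0, 1]⟩,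
⟨0, [3, 0, 0, 3, 0, 0, 0, 4]⟩,
⟨1, [1, 2, 2, 1, 0, 3, 0, 1]⟩,
⟨1, [2, 0, 0, 1, 2, 2, 2, 1]⟩,
⟨1, [0, 1, 1, 0, 1, 2, 5, 0]⟩,
⟨1, [1, 1, 2, 1, 2, 1, 1, 1]⟩,
⟨0, [4, 0, 0, 2, 1, 1, 1, 1]⟩,
⟨0, [1, 2, 2, 1, 1, 1, 2, 0]⟩,
⟨2, [1, 0, 0, 1, 0, 0, 1, 3, 3, 0, 0, 0]⟩,
⟨2, [1, 0, 0, 0, 0, 0, 1, 2, 4, 0, 1, 0]⟩,
⟨1, [0, 3, 0, 0, 1, 2, 2, 2]⟩,
⟨2, [0, 0, 0, 0, 0, 0, 1, 3, 0, 0, 1, 4]⟩,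
⟨1, [0, 4, 2, 0, 0, 0, 3, 1]⟩,
⟨2, [1, 1, 1, 1, 0, 1, 1, 0, 0, 1, 1, 1]⟩,
⟨2, [3, 2, 2, 0, 0, 0, 0, 1, 0, 0, 0, 1]⟩,
⟨1, [0, 3, 1, 2, 0, 2, 0, 2]⟩,
⟨1, [0, 1, 1, 0, 2, 1, 1, 4]⟩,
⟨2, [4, 0, 0, 1, 1, 1, 0, 1, 0, 1, 0, 0]⟩,
⟨1, [0, 0, 0, 0, 2, 3, 1, 4]⟩,
⟨2, [1, 0, 0, 0, 0, 0, 3, 0, 1, 4, 0, 0]⟩,
⟨0, [4, 2, 0, 1, 0, 0, 0, 3]⟩,
⟨1, [1, 1, 0, 0, 0, 1, 3, 4]⟩,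
⟨1, [0, 0, 1, 0, 0, 3, 3, 3]⟩,
⟨2, [3, 1, 0, 1, 1, 0, 1, 1, 0, 0, 0, 1]⟩,
⟨1, [3, 0, 3, 0, 1, 0, 0, 3]⟩,
⟨1, [3, 3, 0, 0, 1, 0, 0, 3]⟩,
⟨2, [1, 0, 0, 0, 0, 0, 1, 1, 1, 0, 1, 4]⟩,
⟨0, [1, 1, 1, 1, 1, 1, 2, 2]⟩,
⟨1, [0, 1, 3, 0, 0, 3, 2, 1]⟩,
⟨2, [4, 1, 1, 0, 0, 1, 0, 0, 1, 0, 1, 0]⟩,
⟨1, [0, 1, 0, 3, 0, 2, 0, 4]⟩,
⟨0, [2, 1, 1, 0, 0, 0, 2, 4]⟩,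
⟨1, [1, 4, 2, 0, 0, 1, 2, 0]⟩,
⟨1, [1, 4, 1, 0, 1, 2, 1, 0]⟩,
⟨1, [0, 1, 2, 1, 4, 1, 0, 1]⟩,
⟨2, [1, 1, 0, 1, 1, 1, 1, 1, 1, 0, 1, 0]⟩,
⟨1, [1, 4, 0, 0, 4, 1, 0, 0]⟩,
⟨1, [2, 3, 1, 0, 1, 0, 3, 0]⟩,
⟨2, [2, 1, 1, 1, 1, 1, 0, 0, 1, 0, 0, 1]⟩,
⟨1, [0, 0, 1, 1, 1, 2, 3, 2]⟩,
⟨0, [2, 1, 1, 2, 2, 1, 1, 0]⟩,
⟨1, [3, 2, 3, 0, 0, 1, 1, 0]⟩,
⟨1, [0, 2, 1, 3, 0, 0, 2, 2]⟩,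
⟨1, [0, 1, 0, 2, 0, 3, 4, 0]⟩,
⟨1, [0, 0, 1, 2, 3, 1, 0, 3]⟩,
⟨1, [0, 0, 1, 3, 1, 2, 0, 3]⟩,
⟨0, [1, 1, 1, 1, 1, 0, 4, 1]⟩,
⟨1, [3, 3, 2, 0, 0, 1, 0, 1]⟩,
⟨1, [1, 0, 4, 0, 4, 0, 0, 1]⟩,
⟨0, [2, 2, 0, 1, 1, 0, 0, 4]⟩,
⟨1, [4, 0, 1, 1, 0, 4, 0, 0]⟩,
⟨1, [3, 0, 0, 2, 2, 2, 0, 1]⟩,
⟨1, [0, 1, 0, 0, 3, 1, 2, 3]⟩,
⟨1, [0, 0, 0, 2, 3, 1, 1, 3]⟩,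
⟨2, [1, 0, 0, 1, 1, 0, 0, 0, 0, 1, 4, 1]⟩,
⟨2, [1, 1, 0, 0, 0, 0, 1, 1, 1, 1, 1, 2]⟩,
⟨2, [0, 0, 0, 0, 0, 0, 0, 1, 3, 1, 0, 4]⟩,
⟨1, [0, 2, 2, 1, 1, 0, 4, 0]⟩,
⟨2, [1, 0, 0, 0, 0, 1, 1, 4, 1, 0, 0, 1]⟩,
⟨0, [2, 0, 0, 1, 1, 1, 2, 3]⟩,
⟨1, [1, 2, 2, 0, 3, 1, 1, 0]⟩,
⟨1, [0, 0, 0, 2, 1, 3, 1, 3]⟩,
⟨1, [0, 0, 1, 0, 1, 4, 2, 2]⟩,
⟨1, [0, 0, 1, 0, 2, 1, 3, 3]⟩,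
⟨1, [2, 4, 1, 1, 0, 0, 0, 2]⟩,
⟨1, [3, 2, 2, 3, 0, 0, 0, 0]⟩,
⟨1, [1, 1, 1, 1, 1, 1, 0, 4]⟩,
⟨2, [1, 0, 0, 0, 0, 0, 0, 0, 4, 4, 0, 0]⟩,
⟨1, [1, 0, 0, 0, 3, 2, 4, 0]⟩,
⟨1, [0, 0, 1, 3, 1, 3, 0, 2]⟩,
⟨1, [0, 1, 0, 1, 1, 1, 1, 5]⟩,
⟨1, [1, 3, 3, 0, 0, 0, 1, 2]⟩,
⟨1, [0, 1, 1, 1, 0, 1, 2, 4]⟩,
⟨1, [0, 1, 2, 0, 3, 2, 1, 1]⟩,
⟨1, [0, 1, 2, 2, 2, 2, 1, 0]⟩,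
⟨2, [1, 0, 0, 1, 0, 0, 1, 1, 4, 1, 0, 0]⟩,
⟨1, [0, 0, 0, 0, 2, 3, 4, 1]⟩,
⟨2, [0, 0, 0, 0, 0, 0, 0, 4, 0, 1, 4, 0]⟩,
⟨1, [0, 1, 2, 0, 1, 1, 3, 2]⟩,
⟨1, [1, 0, 4, 3, 1, 1, 0, 0]⟩,
⟨2, [0, 0, 0, 0, 0, 0, 1, 0, 3, 0, 1, 4]⟩,
⟨1, [0, 0, 1, 1, 3, 2, 0, 3]⟩,
⟨1, [1, 2, 2, 3, 0, 1, 1, 0]⟩,
⟨1, [2, 1, 1, 1, 1, 2, 1, 1]⟩,
⟨1, [2, 2, 1, 0, 1, 0, 0, 4]⟩,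
⟨2, [2, 2, 1, 1, 0, 0, 2, 0, 0, 1, 0, 0]⟩,
⟨2, [0, 0, 0, 0, 0, 0, 0, 3, 1, 0, 1, 4]⟩,
⟨1, [1, 0, 0, 2, 3, 3, 0, 1]⟩,
⟨1, [0, 1, 0, 0, 2, 2, 4, 1]⟩,
⟨1, [0, 0, 1, 0, 3, 3, 0, 3]⟩,
⟨0, [2, 2, 0, 1, 0, 0, 2, 3]⟩,
⟨1, [0, 0, 1, 1, 2, 1, 3, 2]⟩,
⟨1, [0, 0, 3, 1, 4, 1, 0, 1]⟩,
⟨1, [0, 0, 0, 0, 3, 2, 4, 1]⟩,
⟨2, [4, 1, 0, 1, 1, 1, 0, 0, 0, 1, 0, 0]⟩,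
⟨0, [4, 0, 0, 4, 1, 0, 1, 0]⟩,
⟨2, [0, 0, 0, 0, 0, 0, 2, 1, 4, 1, 1, 0]⟩,
⟨1, [3, 2, 3, 1, 0, 0, 1, 0]⟩,
⟨1, [0, 1, 1, 0, 2, 0, 3, 3]⟩,
⟨1, [2, 2, 2, 0, 1, 2, 1, 0]⟩,
⟨2, [0, 0, 0, 0, 0, 0, 0, 1, 3, 4, 0, 1]⟩,
⟨2, [0, 0, 0, 0, 0, 0, 1, 3, 0, 1, 0, 4]⟩,
⟨2, [0, 0, 0, 0, 0, 0, 4, 1, 0, 1, 0, 3]⟩,
⟨1, [1, 3, 3, 1, 1, 0, 1, 0]⟩,
⟨1, [3, 1, 3, 0, 0, 0, 1, 2]⟩,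
⟨0, [2, 2, 2, 1, 0, 0, 3, 0]⟩,
⟨1, [0, 0, 1, 2, 2, 0, 1, 4]⟩,
⟨0, [4, 1, 1, 1, 1, 1, 0, 1]⟩,
⟨1, [0, 2, 0, 0, 1, 1, 3, 3]⟩,
⟨1, [0, 1, 1, 2, 1, 1, 1, 3]⟩,
⟨1, [2, 3, 2, 1, 0, 1, 1, 0]⟩,
⟨1, [2, 1, 3, 0, 0, 0, 3, 1]⟩,
⟨1, [0, 0, 1, 2, 3, 0, 0, 4]⟩,
⟨2, [3, 3, 1, 0, 0, 0, 0, 0, 1, 0, 1, 0]⟩,
⟨2, [1, 0, 0, 0, 0, 0, 1, 0, 0, 3, 2, 2]⟩,
⟨1, [2, 0, 1, 2, 2, 2, 0, 1]⟩,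
⟨1, [0, 1, 4, 4, 1, 0, 0, 0]⟩,
⟨1, [0, 0, 2, 1, 2, 2, 1, 2]⟩,
⟨1, [1, 3, 4, 0, 0, 1, 1, 0]⟩,
⟨1, [0, 4, 1, 3, 1, 1, 0, 0]⟩,
⟨0, [3, 3, 3, 1, 0, 0, 0, 0]⟩,
⟨1, [1, 3, 0, 1, 4, 1, 0, 0]⟩,
⟨1, [2, 2, 3, 1, 1, 0, 0, 1]⟩,
⟨1, [1, 0, 0, 1, 2, 2, 0, 4]⟩,
⟨0, [2, 2, 2, 1, 1, 0, 1, 1]⟩,
⟨2, [0, 0, 0, 0, 0, 0, 0, 1, 3, 1, 1, 3]⟩,
⟨2, [0, 0, 0, 0, 0, 0, 4, 1, 1, 2, 1, 0]⟩,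
⟨1, [3, 0, 3, 0, 0, 0, 0, 4]⟩,
⟨1, [2, 2, 3, 0, 1, 1, 1, 0]⟩,
⟨2, [1, 0, 0, 0, 0, 0, 2, 1, 0, 0, 4, 1]⟩,
⟨0, [3, 2, 2, 1, 0, 0, 1, 1]⟩,
⟨2, [1, 1, 0, 0, 0, 0, 0, 2, 3, 1, 0, 1]⟩,
⟨1, [2, 4, 2, 1, 0, 0, 0, 1]⟩,
⟨2, [1, 1, 1, 1, 1, 0, 0, 1, 1, 0, 1, 1]⟩,
⟨2, [1, 1, 1, 1, 1, 1, 0, 1, 0, 0, 1, 1]⟩,
⟨1, [0, 0, 1, 0, 3, 2, 3, 1]⟩,
⟨2, [0, 0, 0, 0, 0, 0, 1, 4, 0, 0, 1, 3]⟩,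
⟨1, [1, 0, 0, 0, 4, 2, 0, 3]⟩,
⟨1, [0, 2, 3, 0, 0, 1, 1, 3]⟩,
⟨1, [2, 1, 0, 2, 2, 2, 1, 0]⟩,
⟨2, [3, 2, 2, 1, 0, 0, 0, 0, 0, 0, 1, 0]⟩,
⟨1, [2, 4, 0, 0, 1, 0, 3, 0]⟩,
⟨0, [4, 3, 1, 1, 0, 0, 0, 1]⟩,
⟨2, [0, 0, 0, 0, 0, 0, 3, 1, 0, 4, 1, 0]⟩,
⟨1, [0, 1, 0, 3, 1, 0, 1, 4]⟩,
⟨0, [3, 1, 1, 1, 1, 0, 3, 0]⟩,
⟨1, [1, 0, 0, 2, 1, 2, 0, 4]⟩,
⟨1, [0, 2, 1, 1, 0, 1, 2, 3]⟩,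
⟨2, [0, 0, 0, 0, 0, 0, 0, 0, 4, 1, 0, 4]⟩,
⟨1, [0, 1, 1, 2, 1, 2, 0, 3]⟩,
⟨1, [4, 0, 1, 4, 1, 0, 0, 0]⟩,
⟨1, [1, 0, 0, 3, 0, 2, 0, 4]⟩,
⟨1, [1, 0, 4, 0, 4, 0, 1, 0]⟩,
⟨1, [0, 0, 1, 2, 0, 2, 1, 4]⟩,
⟨1, [0, 1, 2, 0, 0, 1, 4, 2]⟩,
⟨2, [0, 0, 0, 0, 0, 0, 0, 1, 3, 3, 1, 1]⟩,
⟨0, [3, 0, 0, 3, 3, 1, 0, 0]⟩,
⟨2, [0, 0, 0, 0, 0, 0, 0, 4, 0, 4, 0, 1]⟩,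
⟨1, [2, 3, 2, 1, 1, 0, 0, 1]⟩,
⟨1, [1, 2, 2, 0, 1, 0, 4, 0]⟩,
⟨0, [3, 3, 0, 1, 0, 0, 3, 0]⟩,
⟨2, [1, 0, 1, 0, 0, 0, 2, 3, 0, 1, 1, 0]⟩,
⟨1, [0, 1, 0, 1, 0, 3, 2, 3]⟩,
⟨1, [1, 3, 4, 1, 0, 0, 1, 0]⟩,
⟨2, [0, 0, 0, 0, 0, 0, 1, 4, 0, 4, 0, 0]⟩,
⟨1, [0, 1, 2, 2, 2, 2, 0, 1]⟩,
⟨1, [3, 1, 0, 1, 1, 4, 0, 0]⟩,
⟨1, [0, 0, 1, 0, 1, 2, 1, 5]⟩,
⟨0, [2, 1, 1, 1, 1, 1, 0, 3]⟩,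
⟨1, [0, 0, 2, 2, 3, 2, 1, 0]⟩,
⟨1, [0, 2, 3, 1, 0, 0, 2, 2]⟩,
⟨2, [1, 0, 0, 1, 0, 0, 1, 2, 3, 1, 0, 0]⟩,
⟨1, [2, 2, 2, 0, 0, 3, 1, 0]⟩,
⟨1, [1, 4, 2, 0, 1, 0, 0, 2]⟩,
⟨1, [0, 1, 0, 1, 1, 3, 0, 4]⟩,
⟨1, [0, 2, 1, 1, 1, 0, 2, 3]⟩,
⟨2, [1, 0, 0, 0, 0, 0, 0, 1, 3, 0, 4, 0]⟩,
⟨1, [0, 1, 0, 0, 1, 2, 4, 2]⟩,
⟨2, [0, 0, 0, 0, 0, 0, 3, 1, 0, 4, 0, 1]⟩,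
⟨1, [0, 1, 0, 1, 1, 4, 0, 3]⟩,
⟨1, [0, 2, 1, 1, 2, 0, 3, 1]⟩,
⟨1, [0, 0, 1, 1, 1, 2, 2, 3]⟩,
⟨1, [2, 1, 2, 0, 0, 1, 0, 4]⟩,
⟨1, [0, 0, 0, 0, 2, 4, 1, 3]⟩,
⟨1, [3, 1, 0, 1, 0, 0, 2, 3]⟩,
⟨1, [0, 1, 0, 3, 0, 2, 2, 2]⟩,
⟨1, [0, 0, 0, 4, 2, 4, 0, 0]⟩,
⟨1, [1, 2, 3, 0, 0, 1, 3, 0]⟩,
⟨1, [1, 0, 0, 3, 1, 3, 2, 0]⟩,
⟨1, [0, 2, 0, 2, 3, 3, 0, 0]⟩,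
⟨2, [1, 0, 0, 0, 0, 0, 2, 2, 2, 0, 2, 0]⟩,
⟨1, [0, 0, 1, 1, 0, 4, 2, 2]⟩,
⟨0, [3, 1, 1, 2, 1, 1, 1, 0]⟩,
⟨0, [2, 1, 0, 1, 1, 0, 4, 1]⟩,
⟨1, [0, 1, 2, 1, 0, 1, 3, 2]⟩,
⟨1, [1, 4, 2, 0, 1, 0, 2, 0]⟩,
⟨1, [4, 1, 0, 1, 3, 1, 0, 0]⟩,
⟨2, [0, 0, 0, 0, 0, 0, 4, 0, 1, 1, 2, 1]⟩,
⟨2, [0, 0, 0, 0, 0, 0, 4, 0, 0, 0, 1, 4]⟩,
⟨1, [0, 0, 2, 1, 2, 2, 2, 1]⟩,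
⟨1, [2, 1, 2, 0, 2, 0, 2, 1]⟩,
⟨1, [0, 0, 0, 3, 2, 2, 0, 3]⟩,
⟨1, [0, 2, 2, 0, 3, 1, 2, 0]⟩,
⟨1, [0, 0, 1, 2, 2, 0, 4, 1]⟩,
⟨1, [0, 1, 2, 3, 0, 2, 1, 1]⟩,
⟨1, [2, 4, 1, 1, 0, 0, 2, 0]⟩,
⟨1, [1, 0, 1, 0, 2, 1, 3, 2]⟩,
⟨1, [0, 1, 0, 2, 3, 0, 0, 4]⟩,
⟨2, [2, 2, 1, 1, 0, 0, 0, 1, 0, 0, 1, 1]⟩,
⟨1, [0, 0, 1, 2, 1, 4, 0, 2]⟩,
⟨2, [0, 0, 0, 0, 0, 0, 1, 1, 3, 0, 1, 3]⟩,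
⟨2, [1, 1, 1, 1, 1, 1, 0, 1, 1, 1, 0, 0]⟩,
⟨1, [1, 3, 0, 0, 2, 2, 2, 0]⟩,
⟨0, [1, 1, 1, 1, 1, 0, 2, 3]⟩,
⟨1, [1, 1, 4, 1, 0, 3, 0, 0]⟩,
⟨2, [3, 2, 2, 0, 0, 0, 0, 1, 0, 1, 0, 0]⟩,
⟨2, [0, 0, 0, 0, 0, 0, 3, 1, 0, 1, 1, 3]⟩,
⟨1, [2, 1, 2, 0, 1, 3, 0, 1]⟩,
⟨1, [1, 0, 4, 1, 4, 0, 0, 0]⟩,
⟨0, [2, 2, 0, 1, 0, 1, 2, 2]⟩,
⟨1, [2, 2, 4, 1, 0, 0, 1, 0]⟩,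
⟨1, [1, 0, 0, 2, 3, 1, 3, 0]⟩,
⟨0, [1, 1, 0, 2, 2, 0, 0, 4]⟩,
⟨1, [0, 1, 1, 1, 1, 1, 0, 5]⟩,
⟨2, [0, 0, 0, 0, 0, 0, 3, 2, 2, 2, 0, 0]⟩,
⟨1, [0, 1, 1, 1, 1, 2, 3, 1]⟩,
⟨2, [0, 0, 0, 0, 0, 0, 1, 1, 3, 3, 0, 1]⟩,
⟨1, [0, 1, 0, 2, 1, 1, 2, 3]⟩,
⟨2, [1, 1, 1, 1, 1, 1, 1, 0, 1, 0, 1, 0]⟩,
⟨2, [0, 0, 0, 0, 0, 0, 1, 0, 1, 2, 3, 2]⟩,
⟨1, [0, 3, 2, 0, 0, 0, 4, 1]⟩,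
⟨1, [0, 1, 0, 3, 2, 3, 1, 0]⟩,
⟨1, [2, 0, 3, 0, 0, 1, 2, 2]⟩,
⟨1, [1, 3, 3, 1, 1, 0, 0, 1]⟩,
⟨1, [0, 1, 0, 3, 2, 0, 2, 2]⟩,
⟨1, [3, 3, 2, 0, 1, 0, 0, 1]⟩,
⟨1, [0, 4, 2, 0, 1, 1, 1, 1]⟩,
⟨1, [0, 0, 1, 0, 4, 2, 3, 0]⟩,
⟨1, [1, 4, 0, 1, 4, 0, 0, 0]⟩,
⟨1, [0, 1, 1, 1, 0, 1, 4, 2]⟩,
⟨0, [3, 2, 1, 3, 0, 0, 1, 0]⟩,
⟨2, [0, 0, 0, 0, 0, 0, 0, 4, 1, 3, 0, 1]⟩,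
⟨1, [0, 0, 0, 0, 4, 2, 3, 1]⟩,
⟨1, [0, 4, 1, 1, 1, 3, 0, 0]⟩,
⟨0, [3, 3, 1, 2, 0, 0, 1, 0]⟩,
⟨1, [1, 3, 2, 0, 0, 0, 3, 1]⟩,
⟨1, [0, 3, 3, 1, 0, 0, 3, 0]⟩,
⟨1, [0, 4, 2, 1, 0, 0, 3, 0]⟩,
⟨2, [1, 1, 1, 1, 1, 1, 1, 1, 0, 1, 0, 0]⟩,
⟨2, [1, 0, 0, 0, 0, 1, 3, 0, 3, 1, 0, 0]⟩,
⟨2, [1, 0, 0, 0, 0, 0, 0, 0, 1, 2, 4, 1]⟩,
⟨1, [2, 2, 2, 2, 1, 0, 1, 0]⟩,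
⟨0, [3, 3, 0, 1, 0, 0, 0, 3]⟩,
⟨0, [3, 2, 1, 3, 0, 0, 0, 1]⟩,
⟨1, [0, 1, 1, 0, 1, 1, 2, 4]⟩,
⟨0, [4, 3, 1, 2, 0, 0, 0, 0]⟩,
⟨1, [0, 0, 1, 0, 4, 2, 0, 3]⟩,
⟨2, [1, 0, 0, 0, 0, 0, 2, 3, 2, 1, 0, 0]⟩,
⟨1, [1, 2, 0, 2, 2, 2, 1, 0]⟩,
⟨2, [1, 0, 0, 1, 0, 0, 3, 1, 0, 1, 1, 1]⟩,
⟨1, [3, 1, 1, 1, 0, 4, 0, 0]⟩,
⟨2, [1, 0, 0, 1, 0, 0, 0, 0, 0, 3, 2, 2]⟩,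
⟨1, [0, 2, 3, 1, 1, 1, 1, 1]⟩,
⟨1, [0, 0, 1, 3, 0, 2, 1, 3]⟩,
⟨1, [3, 1, 0, 4, 1, 1, 0, 0]⟩,
⟨1, [0, 1, 3, 0, 2, 2, 0, 2]⟩,
⟨1, [3, 0, 2, 0, 1, 0, 2, 2]⟩,
⟨1, [3, 1, 3, 0, 1, 0, 2, 0]⟩,
⟨1, [0, 0, 1, 0, 2, 3, 4, 0]⟩,
⟨1, [3, 2, 2, 0, 0, 2, 0, 1]⟩,
⟨2, [1, 0, 0, 1, 0, 0, 1, 1, 4, 0, 0, 1]⟩,
⟨1, [1, 3, 3, 1, 0, 1, 0, 1]⟩,
⟨2, [1, 0, 1, 1, 1, 1, 1, 1, 1, 0, 0, 1]⟩,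
⟨1, [3, 3, 1, 1, 0, 0, 2, 0]⟩,
⟨1, [2, 2, 1, 0, 0, 1, 4, 0]⟩,
⟨1, [1, 0, 0, 1, 3, 3, 0, 2]⟩,
⟨1, [2, 0, 4, 0, 0, 1, 3, 0]⟩,
⟨2, [4, 1, 0, 1, 1, 1, 0, 0, 0, 0, 1, 0]⟩,
⟨1, [0, 0, 2, 1, 3, 1, 2, 1]⟩,
⟨1, [0, 1, 0, 2, 3, 1, 3, 0]⟩,
⟨2, [1, 1, 0, 1, 0, 0, 1, 4, 1, 0, 0, 0]⟩,
⟨1, [0, 1, 4, 4, 0, 0, 0, 1]⟩,
⟨2, [1, 0, 0, 1, 0, 0, 1, 4, 1, 0, 1, 0]⟩,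
⟨1, [1, 3, 1, 0, 1, 4, 0, 0]⟩,
⟨1, [0, 1, 0, 1, 4, 2, 0, 2]⟩,
⟨1, [0, 0, 1, 1, 3, 3, 0, 2]⟩,
⟨1, [1, 1, 0, 2, 3, 2, 0, 1]⟩,
⟨2, [0, 0, 0, 0, 0, 0, 1, 4, 0, 1, 3, 0]⟩,
⟨1, [0, 3, 1, 2, 2, 1, 0, 1]⟩,
⟨1, [2, 4, 2, 0, 1, 0, 0, 1]⟩,
⟨0, [1, 0, 0, 1, 1, 0, 5, 2]⟩,
⟨0, [3, 3, 1, 0, 0, 0, 1, 2]⟩,
⟨2, [1, 0, 0, 0, 0, 0, 1, 3, 3, 0, 1, 0]⟩,
⟨2, [1, 0, 0, 0, 0, 0, 0, 3, 1, 0, 0, 4]⟩,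
⟨1, [1, 4, 2, 0, 0, 1, 0, 2]⟩,
⟨1, [0, 0, 1, 1, 1, 2, 1, 4]⟩,
⟨1, [2, 3, 0, 0, 1, 0, 1, 3]⟩,
⟨2, [0, 0, 0, 0, 0, 0, 0, 3, 1, 1, 4, 0]⟩,
⟨1, [0, 2, 2, 0, 1, 1, 0, 4]⟩,
⟨1, [0, 1, 0, 1, 2, 4, 0, 2]⟩,
⟨0, [2, 1, 1, 1, 1, 0, 1, 3]⟩,
⟨0, [2, 2, 1, 1, 1, 1, 2, 0]⟩,
⟨1, [2, 3, 3, 0, 0, 0, 1, 1]⟩,
⟨0, [3, 1, 1, 1, 1, 1, 2, 0]⟩,
⟨1, [1, 4, 1, 0, 1, 3, 0, 0]⟩,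
⟨0, [4, 4, 0, 0, 0, 0, 0, 2]⟩,
⟨1, [3, 1, 1, 1, 4, 0, 0, 0]⟩,
⟨1, [2, 0, 0, 3, 2, 2, 1, 0]⟩,
⟨1, [2, 2, 1, 0, 0, 1, 0, 4]⟩,
⟨2, [0, 0, 0, 0, 0, 0, 3, 1, 0, 0, 4, 1]⟩,
⟨1, [1, 0, 4, 4, 0, 1, 0, 0]⟩,
⟨1, [1, 1, 2, 2, 1, 1, 1, 1]⟩,
⟨0, [4, 2, 0, 0, 0, 0, 1, 3]⟩,
⟨2, [4, 0, 0, 1, 1, 1, 0, 1, 0, 0, 0, 1]⟩,
⟨1, [0, 0, 1, 3, 1, 0, 2, 3]⟩,
⟨1, [1, 4, 2, 1, 0, 0, 2, 0]⟩,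
⟨1, [0, 0, 1, 3, 1, 1, 4, 0]⟩,
⟨2, [0, 0, 0, 0, 0, 0, 4, 0, 1, 1, 3, 0]⟩,
⟨1, [3, 1, 1, 0, 4, 1, 0, 0]⟩,
⟨2, [0, 0, 0, 0, 0, 0, 1, 0, 4, 3, 0, 1]⟩,
⟨1, [0, 1, 2, 0, 0, 2, 3, 2]⟩,
⟨1, [1, 0, 0, 0, 2, 2, 4, 1]⟩,
⟨2, [1, 0, 0, 0, 0, 0, 0, 0, 4, 0, 4, 0]⟩,
⟨1, [1, 2, 2, 0, 1, 0, 0, 4]⟩,
⟨2, [0, 0, 0, 0, 0, 0, 1, 1, 4, 0, 2, 1]⟩,
⟨2, [1, 1, 0, 1, 1, 0, 1, 0, 1, 1, 1, 1]⟩,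
⟨1, [1, 1, 3, 1, 2, 1, 1, 0]⟩,
⟨2, [1, 0, 1, 0, 0, 0, 0, 3, 2, 0, 1, 1]⟩,
⟨1, [0, 1, 0, 0, 0, 3, 2, 4]⟩,
⟨1, [1, 4, 0, 4, 0, 1, 0, 0]⟩,
⟨1, [0, 2, 0, 3, 1, 1, 2, 1]⟩,
⟨1, [1, 3, 3, 1, 0, 0, 2, 0]⟩,
⟨2, [1, 0, 0, 1, 0, 0, 1, 1, 1, 3, 1, 0]⟩,
⟨1, [0, 0, 1, 1, 1, 4, 0, 3]⟩,
⟨1, [0, 1, 0, 2, 3, 1, 0, 3]⟩,
⟨1, [0, 0, 1, 1, 4, 2, 0, 2]⟩,
⟨1, [0, 3, 2, 0, 1, 0, 0, 4]⟩,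
⟨1, [0, 3, 0, 1, 2, 1, 1, 2]⟩,
⟨1, [0, 2, 0, 2, 3, 2, 1, 0]⟩,
⟨1, [0, 0, 1, 3, 0, 2, 2, 2]⟩,
⟨2, [0, 0, 0, 0, 0, 0, 0, 0, 4, 0, 1, 4]⟩,
⟨1, [1, 4, 1, 0, 3, 1, 0, 0]⟩,
⟨1, [0, 1, 4, 0, 0, 2, 2, 1]⟩,
⟨1, [0, 0, 1, 0, 0, 4, 4, 1]⟩,
⟨1, [0, 1, 3, 2, 2, 1, 1, 0]⟩,
⟨1, [0, 0, 1, 1, 0, 1, 2, 5]⟩,
⟨1, [0, 0, 1, 1, 2, 2, 0, 4]⟩,
⟨0, [4, 1, 0, 0, 0, 0, 5, 0]⟩,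
⟨2, [0, 0, 0, 0, 0, 0, 3, 1, 1, 1, 3, 0]⟩,
⟨1, [0, 0, 0, 2, 1, 2, 4, 1]⟩,
⟨1, [0, 0, 1, 3, 1, 2, 3, 0]⟩,
⟨1, [0, 0, 0, 1, 2, 3, 1, 3]⟩,
⟨1, [0, 0, 1, 2, 4, 2, 0, 1]⟩,
⟨1, [0, 2, 2, 0, 0, 0, 5, 1]⟩,
⟨1, [0, 2, 3, 0, 0, 0, 1, 4]⟩,
⟨2, [4, 1, 1, 1, 1, 0, 0, 0, 1, 0, 0, 0]⟩,
⟨2, [0, 0, 0, 0, 0, 0, 4, 0, 1, 0, 3, 1]⟩,
⟨1, [2, 1, 0, 2, 2, 2, 0, 1]⟩,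
⟨2, [0, 0, 0, 0, 0, 0, 0, 0, 4, 1, 1, 3]⟩,
⟨1, [0, 2, 2, 1, 0, 0, 5, 0]⟩,
⟨1, [1, 0, 1, 2, 3, 2, 1, 0]⟩,
⟨2, [1, 0, 0, 1, 0, 0, 1, 3, 2, 0, 0, 1]⟩,
⟨2, [1, 0, 0, 1, 0, 0, 3, 0, 3, 0, 1, 0]⟩,
⟨1, [0, 1, 1, 0, 2, 1, 3, 2]⟩,
⟨0, [3, 1, 1, 1, 0, 0, 2, 2]⟩,
⟨1, [0, 1, 1, 0, 1, 2, 2, 3]⟩,
⟨1, [2, 3, 0, 0, 1, 0, 4, 0]⟩,
⟨1, [0, 0, 1, 3, 3, 1, 0, 2]⟩,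
⟨0, [3, 1, 1, 1, 1, 1, 1, 1]⟩,
⟨2, [0, 0, 0, 0, 0, 0, 1, 0, 3, 4, 1, 0]⟩,
⟨1, [0, 2, 4, 0, 0, 0, 3, 1]⟩,
⟨1, [3, 1, 1, 1, 1, 2, 1, 0]⟩,
⟨1, [1, 3, 1, 1, 2, 1, 1, 0]⟩,
⟨1, [1, 0, 0, 3, 0, 3, 0, 3]⟩,
⟨2, [1, 0, 0, 0, 1, 0, 1, 4, 1, 1, 0, 0]⟩,
⟨0, [2, 0, 0, 2, 1, 0, 4, 1]⟩,
⟨1, [2, 1, 1, 1, 2, 1, 1, 1]⟩,
⟨1, [1, 2, 2, 0, 0, 2, 2, 1]⟩,
⟨1, [1, 2, 4, 0, 0, 1, 2, 0]⟩,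
⟨1, [0, 1, 1, 1, 2, 1, 3, 1]⟩,
⟨2, [0, 0, 0, 0, 0, 0, 4, 0, 0, 1, 4, 0]⟩,
⟨1, [0, 0, 0, 3, 1, 2, 3, 1]⟩,
⟨1, [1, 0, 0, 2, 2, 4, 1, 0]⟩,
⟨1, [0, 4, 2, 0, 0, 1, 3, 0]⟩,
⟨2, [1, 1, 0, 0, 0, 0, 2, 0, 0, 1, 4, 0]⟩,
⟨1, [0, 1, 0, 4, 2, 2, 1, 0]⟩,
⟨1, [3, 0, 3, 0, 0, 1, 3, 0]⟩,
⟨2, [2, 1, 1, 1, 1, 0, 1, 0, 1, 0, 1, 0]⟩,
⟨1, [0, 1, 1, 0, 1, 2, 3, 2]⟩,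
⟨1, [1, 4, 1, 1, 1, 2, 0, 0]⟩,
⟨1, [1, 0, 0, 3, 1, 3, 0, 2]⟩,
⟨1, [3, 3, 2, 0, 0, 2, 0, 0]⟩,
⟨1, [1, 1, 0, 2, 1, 2, 3, 0]⟩,
⟨0, [2, 1, 0, 1, 1, 1, 0, 4]⟩,
⟨0, [1, 0, 0, 1, 1, 0, 4, 3]⟩,
⟨1, [0, 0, 0, 3, 2, 2, 3, 0]⟩,
⟨1, [1, 0, 0, 3, 3, 1, 2, 0]⟩,
⟨2, [2, 2, 1, 1, 0, 0, 0, 1, 0, 2, 0, 0]⟩,
⟨2, [1, 0, 0, 1, 0, 0, 1, 3, 2, 0, 1, 0]⟩,
⟨1, [0, 0, 2, 2, 2, 1, 2, 1]⟩,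
⟨2, [0, 0, 0, 0, 0, 0, 1, 0, 4, 0, 0, 4]⟩,
⟨2, [0, 0, 0, 0, 0, 0, 1, 4, 1, 2, 0, 1]⟩,
⟨1, [4, 2, 1, 1, 0, 0, 2, 0]⟩,
⟨0, [3, 0, 0, 3, 2, 2, 0, 0]⟩,
⟨1, [3, 3, 2, 0, 0, 1, 1, 0]⟩,
⟨1, [1, 0, 1, 0, 2, 2, 0, 4]⟩,
⟨2, [3, 2, 2, 1, 0, 0, 1, 0, 0, 0, 0, 0]⟩,
⟨1, [1, 1, 4, 0, 0, 1, 3, 0]⟩,
⟨1, [1, 4, 1, 1, 0, 2, 0, 1]⟩,
⟨2, [0, 0, 0, 0, 0, 0, 1, 3, 0, 1, 1, 3]⟩,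
⟨1, [0, 2, 2, 0, 0, 0, 1, 5]⟩,
⟨1, [1, 2, 2, 1, 1, 0, 0, 3]⟩,
⟨1, [2, 1, 2, 0, 1, 1, 0, 3]⟩,
⟨1, [2, 4, 1, 0, 1, 0, 0, 2]⟩,
⟨2, [2, 0, 0, 2, 2, 2, 1, 0, 0, 0, 0, 0]⟩,
⟨0, [2, 2, 1, 1, 1, 1, 1, 1]⟩,
⟨2, [0, 0, 0, 0, 0, 0, 1, 0, 3, 0, 4, 1]⟩,
⟨2, [0, 0, 0, 0, 0, 0, 3, 0, 1, 4, 1, 0]⟩,
⟨1, [0, 0, 0, 3, 2, 0, 1, 4]⟩,
⟨2, [0, 0, 0, 0, 0, 0, 0, 0, 4, 1, 4, 0]⟩,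
⟨2, [0, 0, 0, 0, 0, 0, 4, 0, 4, 1, 0, 0]⟩,
⟨1, [0, 0, 1, 1, 4, 2, 2, 0]⟩,
⟨1, [0, 1, 0, 3, 1, 3, 2, 0]⟩,
⟨1, [1, 1, 4, 0, 1, 0, 3, 0]⟩,
⟨1, [2, 1, 3, 1, 0, 0, 3, 0]⟩,
⟨1, [1, 2, 1, 3, 0, 0, 2, 1]⟩,
⟨2, [0, 0, 0, 0, 0, 0, 0, 4, 1, 0, 1, 3]⟩,
⟨0, [3, 2, 0, 1, 0, 0, 1, 3]⟩,
⟨1, [2, 3, 1, 1, 0, 0, 3, 0]⟩,
⟨1, [0, 1, 0, 1, 2, 3, 3, 0]⟩,
⟨0, [4, 2, 0, 1, 1, 0, 2, 0]⟩,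
⟨0, [2, 2, 0, 1, 1, 1, 3, 0]⟩,
⟨1, [3, 1, 0, 1, 4, 1, 0, 0]⟩,
⟨2, [1, 0, 0, 1, 0, 0, 1, 0, 0, 1, 4, 1]⟩,
⟨1, [0, 0, 0, 3, 0, 2, 1, 4]⟩,
⟨0, [3, 1, 1, 3, 1, 0, 1, 0]⟩,
⟨2, [1, 0, 0, 0, 0, 0, 2, 0, 1, 0, 1, 4]⟩,
⟨1, [4, 1, 2, 1, 0, 0, 2, 0]⟩,
⟨1, [1, 2, 4, 0, 1, 0, 0, 2]⟩,
⟨1, [0, 1, 0, 3, 3, 1, 2, 0]⟩,
⟨1, [2, 1, 1, 1, 4, 1, 0, 0]⟩,
⟨1, [0, 3, 2, 0, 0, 1, 0, 4]⟩,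
⟨2, [0, 0, 0, 0, 0, 0, 1, 0, 4, 1, 3, 0]⟩,
⟨1, [0, 2, 4, 0, 1, 0, 0, 3]⟩,
⟨1, [3, 1, 1, 1, 1, 2, 0, 1]⟩,
⟨1, [4, 2, 2, 1, 0, 0, 1, 0]⟩,
⟨1, [0, 0, 1, 1, 1, 0, 2, 5]⟩,
⟨1, [0, 1, 1, 1, 2, 0, 3, 2]⟩,
⟨1, [2, 4, 1, 0, 0, 1, 2, 0]⟩,
⟨1, [1, 0, 0, 2, 2, 4, 0, 1]⟩,
⟨2, [0, 0, 0, 0, 0, 0, 2, 2, 3, 0, 1, 1]⟩,
⟨1, [0, 0, 2, 1, 2, 1, 4, 0]⟩,
⟨1, [4, 1, 2, 0, 0, 1, 0, 2]⟩,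
⟨1, [0, 1, 0, 0, 2, 0, 3, 4]⟩,
⟨1, [3, 3, 2, 1, 0, 0, 0, 1]⟩,
⟨1, [3, 0, 1, 0, 2, 2, 0, 2]⟩,
⟨2, [1, 1, 1, 1, 1, 0, 0, 1, 0, 1, 1, 1]⟩,
⟨1, [1, 2, 4, 0, 1, 0, 2, 0]⟩,
⟨1, [0, 0, 1, 1, 2, 1, 4, 1]⟩,
⟨1, [2, 3, 3, 0, 1, 0, 1, 0]⟩,
⟨1, [2, 2, 3, 1, 0, 1, 1, 0]⟩,
⟨1, [3, 3, 2, 0, 1, 0, 1, 0]⟩,
⟨1, [0, 1, 0, 1, 3, 1, 0, 4]⟩,
⟨1, [1, 1, 2, 1, 4, 1, 0, 0]⟩,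
⟨0, [1, 1, 1, 1, 1, 1, 0, 4]⟩,
⟨1, [0, 1, 0, 1, 1, 2, 1, 4]⟩,
⟨1, [2, 0, 4, 0, 1, 0, 0, 3]⟩,
⟨1, [2, 4, 0, 0, 1, 0, 0, 3]⟩,
⟨0, [4, 1, 1, 3, 0, 0, 1, 0]⟩,
⟨2, [1, 1, 1, 1, 1, 0, 1, 0, 1, 1, 0, 1]⟩,
⟨1, [1, 3, 3, 0, 0, 0, 2, 1]⟩,
⟨2, [0, 0, 0, 0, 0, 0, 1, 0, 2, 1, 4, 1]⟩,
⟨1, [0, 2, 0, 0, 1, 0, 4, 3]⟩,
⟨2, [1, 0, 0, 0, 0, 0, 0, 0, 1, 2, 2, 3]⟩,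
⟨2, [0, 0, 0, 0, 0, 0, 1, 0, 1, 4, 2, 1]⟩,
⟨1, [0, 2, 4, 0, 0, 1, 0, 3]⟩,
⟨1, [0, 1, 2, 0, 1, 1, 4, 1]⟩,
⟨2, [0, 0, 0, 0, 0, 0, 4, 1, 1, 1, 0, 2]⟩,
⟨0, [2, 1, 0, 2, 0, 0, 1, 4]⟩,
⟨1, [3, 1, 1, 4, 0, 1, 0, 0]⟩,
⟨2, [0, 0, 0, 0, 0, 0, 1, 1, 4, 1, 1, 1]⟩,
⟨1, [0, 4, 2, 1, 0, 0, 0, 3]⟩,
⟨0, [1, 1, 0, 1, 1, 0, 4, 2]⟩,
⟨2, [4, 1, 1, 1, 1, 1, 0, 0, 0, 0, 0, 0]⟩,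
⟨1, [0, 0, 1, 2, 2, 1, 4, 0]⟩,
⟨1, [2, 2, 1, 0, 1, 0, 4, 0]⟩,
⟨1, [3, 3, 1, 0, 0, 1, 0, 2]⟩,
⟨1, [1, 0, 1, 1, 0, 0, 3, 4]⟩,
⟨1, [0, 3, 0, 2, 1, 1, 2, 1]⟩,
⟨1, [0, 1, 3, 0, 1, 0, 4, 1]⟩,
⟨1, [0, 0, 1, 0, 2, 3, 2, 2]⟩,
⟨2, [1, 1, 0, 0, 0, 0, 0, 2, 3, 1, 1, 0]⟩,
⟨1, [1, 2, 1, 1, 1, 2, 1, 1]⟩,
⟨2, [4, 1, 1, 0, 0, 1, 0, 1, 0, 1, 0, 0]⟩,
⟨1, [0, 4, 1, 4, 0, 1, 0, 0]⟩,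
⟨1, [0, 1, 0, 0, 1, 4, 2, 2]⟩,
⟨1, [0, 2, 2, 0, 2, 2, 1, 1]⟩,
⟨1, [0, 0, 0, 1, 3, 3, 2, 1]⟩,
⟨1, [1, 3, 1, 4, 0, 1, 0, 0]⟩,
⟨1, [1, 1, 4, 3, 0, 1, 0, 0]⟩,
⟨2, [3, 2, 1, 1, 0, 0, 0, 0, 1, 1, 0, 0]⟩,
⟨2, [1, 0, 1, 0, 0, 0, 2, 3, 0, 0, 1, 1]⟩,
⟨1, [0, 2, 1, 1, 1, 1, 3, 1]⟩,
⟨1, [4, 1, 1, 3, 1, 0, 0, 0]⟩,
⟨2, [1, 0, 0, 0, 0, 0, 0, 1, 0, 2, 2, 3]⟩,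
⟨1, [3, 1, 3, 0, 1, 0, 0, 2]⟩,
⟨1, [2, 0, 0, 2, 3, 2, 0, 1]⟩,
⟨1, [0, 1, 0, 1, 1, 1, 5, 1]⟩,
⟨1, [0, 1, 1, 2, 0, 2, 0, 4]⟩,
⟨1, [0, 1, 0, 2, 2, 0, 5, 0]⟩,
⟨0, [4, 3, 1, 1, 0, 0, 1, 0]⟩,
⟨1, [1, 0, 0, 1, 4, 2, 2, 0]⟩,
⟨1, [3, 3, 0, 1, 0, 0, 0, 3]⟩,
⟨1, [0, 1, 3, 1, 0, 1, 1, 3]⟩,
⟨2, [0, 0, 0, 0, 0, 0, 1, 4, 1, 0, 1, 2]⟩,
⟨2, [1, 1, 0, 1, 0, 1, 0, 1, 1, 1, 1, 1]⟩,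
⟨1, [0, 1, 0, 0, 2, 3, 2, 2]⟩,
⟨2, [1, 0, 0, 0, 0, 0, 0, 4, 0, 0, 4, 0]⟩,
⟨0, [1, 1, 0, 1, 1, 1, 4, 1]⟩,
⟨2, [3, 1, 0, 1, 1, 0, 1, 0, 0, 1, 1, 0]⟩,
⟨1, [0, 1, 0, 3, 2, 2, 1, 1]⟩,
⟨2, [2, 1, 1, 1, 1, 1, 0, 1, 0, 1, 0, 0]⟩,
⟨1, [0, 0, 1, 0, 1, 1, 2, 5]⟩,
⟨1, [0, 1, 0, 0, 3, 2, 4, 0]⟩,
⟨1, [3, 0, 1, 0, 1, 0, 2, 3]⟩,
⟨1, [0, 4, 2, 0, 0, 1, 0, 3]⟩,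
⟨1, [0, 1, 1, 0, 1, 1, 5, 1]⟩,
⟨1, [0, 1, 0, 2, 4, 1, 2, 0]⟩,
⟨2, [1, 0, 0, 0, 1, 0, 0, 1, 1, 4, 0, 1]⟩,
⟨1, [2, 0, 3, 0, 1, 0, 3, 1]⟩,
⟨2, [1, 0, 0, 0, 0, 0, 1, 0, 1, 2, 2, 2]⟩,
⟨2, [1, 0, 0, 0, 0, 0, 0, 4, 3, 1, 0, 0]⟩,
⟨1, [0, 1, 0, 0, 2, 2, 0, 5]⟩,
⟨1, [1, 0, 0, 2, 1, 4, 2, 0]⟩,
⟨0, [1, 1, 1, 1, 1, 1, 4, 0]⟩,
⟨1, [3, 0, 2, 1, 0, 0, 4, 0]⟩,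
⟨1, [0, 2, 3, 0, 0, 1, 2, 2]⟩,
⟨2, [0, 0, 0, 0, 0, 0, 1, 1, 3, 3, 1, 0]⟩,
⟨1, [0, 0, 1, 0, 0, 2, 4, 3]⟩,
⟨1, [3, 2, 1, 0, 0, 1, 0, 3]⟩,
⟨1, [3, 2, 2, 1, 1, 0, 1, 0]⟩,
⟨1, [0, 2, 3, 0, 0, 1, 4, 0]⟩,
⟨1, [0, 0, 1, 1, 3, 1, 0, 4]⟩,
⟨2, [0, 0, 0, 0, 0, 0, 4, 1, 1, 2, 0, 1]⟩,
⟨0, [1, 0, 0, 1, 1, 0, 2, 5]⟩,
⟨1, [0, 3, 1, 1, 2, 2, 0, 1]⟩,
⟨1, [2, 2, 2, 0, 3, 0, 1, 0]⟩,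
⟨1, [0, 0, 1, 3, 1, 3, 2, 0]⟩,
⟨1, [1, 3, 3, 0, 1, 0, 0, 2]⟩,
⟨1, [0, 2, 2, 1, 0, 0, 1, 4]⟩,
⟨1, [0, 0, 1, 0, 1, 2, 2, 4]⟩,
⟨1, [0, 3, 3, 0, 0, 1, 3, 0]⟩,
⟨1, [0, 1, 0, 1, 2, 1, 2, 3]⟩,
⟨1, [2, 3, 2, 0, 2, 0, 1, 0]⟩,
⟨2, [3, 2, 2, 0, 0, 0, 0, 1, 0, 0, 1, 0]⟩,
⟨2, [3, 2, 1, 1, 0, 0, 0, 0, 1, 0, 1, 0]⟩,
⟨2, [1, 0, 0, 0, 0, 0, 1, 1, 1, 4, 1, 0]⟩,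
⟨1, [0, 1, 0, 1, 0, 2, 3, 3]⟩,
⟨0, [3, 1, 1, 1, 1, 0, 0, 3]⟩,
⟨1, [0, 1, 0, 3, 1, 2, 3, 0]⟩,
⟨1, [2, 1, 2, 0, 1, 0, 2, 2]⟩,
⟨2, [1, 0, 0, 0, 0, 0, 0, 3, 4, 0, 0, 1]⟩,
⟨1, [1, 2, 0, 2, 2, 2, 0, 1]⟩,
⟨2, [3, 1, 1, 3, 0, 0, 0, 0, 1, 0, 0, 0]⟩,
⟨1, [0, 1, 1, 3, 2, 2, 1, 0]⟩,
⟨1, [0, 1, 0, 2, 2, 1, 4, 0]⟩,
⟨2, [3, 2, 2, 1, 0, 0, 0, 0, 0, 1, 0, 0]⟩,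
⟨1, [0, 1, 1, 0, 2, 0, 2, 4]⟩,
⟨0, [2, 2, 2, 2, 1, 0, 0, 1]⟩,
⟨1, [0, 2, 4, 1, 0, 0, 3, 0]⟩,
⟨0, [3, 1, 1, 1, 1, 1, 0, 2]⟩,
⟨1, [0, 1, 0, 1, 4, 2, 2, 0]⟩,
⟨1, [1, 1, 2, 1, 1, 0, 1, 3]⟩,
⟨1, [0, 4, 1, 1, 3, 1, 0, 0]⟩,
⟨1, [2, 1, 1, 2, 1, 1, 1, 1]⟩,
⟨2, [0, 0, 0, 0, 0, 0, 4, 1, 0, 2, 1, 1]⟩,
⟨0, [3, 0, 2, 0, 0, 0, 1, 4]⟩,
⟨1, [0, 1, 0, 2, 0, 1, 2, 4]⟩,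
⟨1, [0, 4, 1, 4, 1, 0, 0, 0]⟩,
⟨0, [4, 4, 2, 0, 0, 0, 0, 0]⟩,
⟨1, [0, 0, 1, 3, 3, 2, 0, 1]⟩,
⟨1, [0, 0, 1, 1, 4, 1, 0, 3]⟩,
⟨1, [0, 0, 1, 3, 2, 0, 4, 0]⟩,
⟨1, [2, 2, 4, 0, 0, 0, 1, 1]⟩,
⟨1, [0, 0, 1, 2, 2, 0, 5, 0]⟩,
⟨1, [3, 1, 1, 0, 1, 4, 0, 0]⟩,
⟨1, [0, 1, 2, 0, 2, 0, 3, 2]⟩,
⟨1, [0, 1, 0, 2, 3, 3, 1, 0]⟩,
⟨1, [3, 1, 2, 0, 1, 0, 0, 3]⟩,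
⟨2, [1, 0, 0, 0, 0, 0, 0, 1, 4, 0, 0, 3]⟩,
⟨1, [4, 1, 0, 4, 0, 1, 0, 0]⟩,
⟨2, [1, 0, 0, 0, 0, 0, 0, 1, 0, 3, 2, 2]⟩,
⟨1, [2, 2, 2, 0, 3, 0, 0, 1]⟩,
⟨1, [0, 1, 0, 1, 0, 2, 4, 2]⟩,
⟨1, [0, 1, 4, 0, 0, 1, 1, 3]⟩,
⟨1, [2, 4, 2, 0, 0, 1, 1, 0]⟩,
⟨2, [1, 0, 0, 0, 0, 0, 0, 0, 4, 0, 0, 4]⟩,
⟨2, [4, 0, 0, 4, 0, 0, 0, 1, 0, 0, 0, 0]⟩,
⟨1, [0, 3, 2, 0, 0, 1, 1, 3]⟩,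
⟨1, [0, 0, 1, 0, 2, 2, 0, 5]⟩,
⟨2, [0, 0, 0, 0, 0, 0, 2, 1, 0, 1, 4, 1]⟩,
⟨0, [2, 2, 0, 1, 0, 0, 5, 0]⟩,
⟨1, [0, 2, 0, 2, 3, 2, 0, 1]⟩,
⟨2, [1, 0, 0, 0, 0, 0, 2, 2, 3, 1, 0, 0]⟩,
⟨1, [0, 1, 4, 0, 0, 1, 4, 0]⟩,
⟨1, [1, 3, 1, 0, 0, 1, 4, 0]⟩,
⟨1, [1, 3, 4, 0, 1, 0, 1, 0]⟩,
⟨0, [4, 4, 0, 0, 0, 0, 2, 0]⟩,
⟨2, [0, 0, 0, 0, 0, 0, 1, 3, 0, 1, 3, 1]⟩,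
⟨2, [0, 0, 0, 0, 0, 0, 1, 3, 1, 3, 0, 1]⟩,
⟨0, [2, 2, 0, 0, 0, 0, 1, 5]⟩,
⟨0, [3, 2, 2, 2, 0, 0, 0, 1]⟩,
⟨2, [3, 1, 1, 3, 0, 0, 0, 1, 0, 0, 0, 0]⟩,
⟨2, [0, 0, 0, 0, 0, 0, 0, 4, 1, 1, 3, 0]⟩,
⟨2, [0, 0, 0, 0, 0, 0, 0, 4, 1, 1, 2, 1]⟩,
⟨2, [0, 0, 0, 0, 0, 0, 4, 1, 0, 3, 1, 0]⟩,
⟨0, [1, 1, 0, 1, 0, 0, 3, 4]⟩,
⟨1, [3, 1, 1, 0, 2, 0, 1, 2]⟩,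
⟨0, [2, 3, 0, 1, 0, 0, 4, 0]⟩,
⟨1, [1, 0, 0, 1, 3, 2, 0, 3]⟩,
⟨1, [0, 1, 1, 2, 2, 1, 0, 3]⟩,
⟨1, [0, 0, 1, 0, 2, 1, 4, 2]⟩,
⟨1, [0, 0, 0, 0, 4, 2, 1, 3]⟩,
⟨2, [1, 1, 0, 0, 0, 0, 2, 0, 3, 1, 1, 0]⟩,
⟨1, [0, 1, 0, 2, 2, 0, 0, 5]⟩,
⟨1, [0, 0, 1, 2, 4, 2, 1, 0]⟩,
⟨1, [3, 2, 2, 0, 1, 1, 1, 0]⟩,
⟨2, [0, 0, 0, 0, 0, 0, 1, 3, 0, 1, 4, 0]⟩,
⟨2, [1, 1, 1, 1, 1, 1, 0, 1, 0, 1, 1, 0]⟩,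
⟨1, [2, 3, 2, 0, 2, 0, 0, 1]⟩,
⟨1, [0, 0, 1, 2, 3, 3, 1, 0]⟩,
⟨2, [2, 1, 1, 1, 1, 1, 0, 0, 1, 0, 1, 0]⟩,
⟨1, [2, 3, 3, 0, 2, 0, 0, 0]⟩,
⟨1, [1, 1, 1, 3, 1, 1, 1, 1]⟩,
⟨2, [0, 0, 0, 0, 0, 0, 1, 4, 0, 3, 1, 0]⟩,
⟨2, [0, 0, 0, 0, 0, 0, 3, 0, 1, 1, 0, 4]⟩,
⟨1, [0, 1, 0, 1, 1, 4, 3, 0]⟩,
⟨0, [3, 1, 1, 2, 1, 1, 0, 1]⟩,
⟨1, [0, 1, 0, 1, 3, 0, 4, 1]⟩,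
⟨1, [0, 0, 0, 1, 2, 3, 3, 1]⟩,
⟨1, [0, 2, 4, 0, 0, 1, 3, 0]⟩,
⟨1, [0, 2, 2, 0, 0, 1, 1, 4]⟩,
⟨1, [0, 2, 1, 2, 2, 2, 0, 1]⟩,
⟨1, [0, 2, 3, 0, 0, 1, 3, 1]⟩,
⟨0, [3, 3, 0, 1, 1, 0, 2, 0]⟩,
⟨1, [0, 0, 3, 1, 1, 4, 1, 0]⟩,
⟨1, [2, 1, 2, 1, 1, 1, 1, 1]⟩,
⟨2, [0, 0, 0, 0, 0, 0, 3, 1, 1, 0, 1, 3]⟩,
⟨1, [1, 0, 0, 2, 2, 1, 4, 0]⟩,
⟨1, [4, 0, 1, 3, 1, 1, 0, 0]⟩,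
⟨1, [2, 0, 0, 2, 3, 2, 1, 0]⟩,
⟨2, [0, 0, 0, 0, 0, 0, 4, 1, 0, 4, 0, 0]⟩,
⟨1, [1, 4, 3, 0, 1, 0, 0, 1]⟩,
⟨2, [1, 1, 0, 0, 0, 0, 2, 0, 3, 0, 1, 1]⟩,
⟨2, [1, 0, 0, 0, 0, 0, 0, 1, 4, 3, 0, 0]⟩,
⟨1, [4, 2, 2, 0, 0, 1, 1, 0]⟩,
⟨1, [0, 1, 1, 1, 0, 1, 5, 1]⟩,
⟨1, [0, 1, 0, 3, 3, 0, 3, 0]⟩,
⟨0, [2, 1, 1, 2, 1, 0, 3, 0]⟩,
⟨1, [0, 1, 0, 2, 1, 2, 0, 4]⟩,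
⟨1, [0, 1, 0, 4, 2, 1, 2, 0]⟩,
⟨0, [3, 2, 0, 1, 0, 0, 4, 0]⟩,
⟨2, [0, 0, 0, 0, 0, 0, 3, 0, 1, 1, 1, 3]⟩,
⟨1, [0, 3, 2, 1, 1, 1, 1, 1]⟩,
⟨1, [0, 1, 1, 0, 2, 2, 4, 0]⟩,
⟨1, [0, 1, 2, 3, 0, 0, 2, 2]⟩,
⟨1, [2, 3, 2, 1, 1, 0, 1, 0]⟩,
⟨1, [0, 1, 2, 1, 1, 0, 2, 3]⟩,
⟨2, [0, 0, 0, 0, 0, 0, 4, 1, 0, 0, 0, 4]⟩,
⟨1, [0, 0, 0, 2, 1, 2, 1, 4]⟩,
⟨1, [0, 2, 0, 2, 2, 3, 1, 0]⟩,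
⟨0, [1, 0, 0, 2, 0, 0, 3, 4]⟩,
⟨2, [0, 0, 0, 0, 0, 0, 2, 0, 1, 1, 4, 1]⟩,
⟨2, [4, 1, 1, 0, 1, 0, 0, 0, 1, 1, 0, 0]⟩,
⟨0, [2, 0, 0, 1, 0, 0, 3, 4]⟩,
⟨1, [0, 0, 1, 0, 3, 2, 4, 0]⟩,
⟨1, [0, 3, 4, 1, 0, 0, 0, 2]⟩,
⟨2, [0, 0, 0, 0, 0, 0, 1, 0, 4, 4, 0, 0]⟩,
⟨0, [2, 2, 1, 1, 0, 0, 2, 2]⟩,
⟨2, [1, 0, 0, 1, 0, 0, 0, 1, 1, 0, 1, 4]⟩,
⟨1, [0, 0, 2, 3, 1, 1, 1, 2]⟩,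
⟨0, [2, 1, 1, 2, 1, 1, 1, 1]⟩,
⟨0, [1, 1, 0, 1, 1, 1, 1, 4]⟩,
⟨2, [1, 0, 0, 0, 0, 0, 1, 2, 4, 0, 0, 1]⟩,
⟨1, [1, 2, 2, 0, 3, 1, 0, 1]⟩,
⟨2, [1, 0, 0, 0, 0, 0, 1, 0, 0, 2, 2, 3]⟩,
⟨1, [0, 3, 2, 0, 0, 1, 4, 0]⟩,
⟨1, [3, 1, 2, 0, 1, 0, 3, 0]⟩,
⟨0, [1, 1, 1, 1, 1, 0, 3, 2]⟩,
⟨2, [0, 0, 0, 0, 0, 0, 1, 0, 0, 3, 4, 1]⟩,
⟨1, [2, 3, 2, 1, 0, 1, 0, 1]⟩,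
⟨2, [1, 1, 0, 1, 0, 0, 4, 1, 1, 0, 0, 0]⟩,
⟨1, [0, 1, 4, 0, 4, 1, 0, 0]⟩,
⟨1, [0, 3, 2, 0, 1, 0, 2, 2]⟩,
⟨1, [0, 1, 0, 1, 1, 1, 2, 4]⟩,
⟨1, [0, 1, 0, 1, 1, 2, 2, 3]⟩,
⟨1, [0, 1, 0, 2, 2, 1, 0, 4]⟩,
⟨1, [3, 0, 1, 1, 3, 1, 1, 0]⟩,
⟨2, [0, 0, 0, 0, 0, 0, 4, 1, 0, 1, 3, 0]⟩,
⟨2, [1, 1, 1, 1, 1, 1, 0, 1, 0, 1, 0, 1]⟩,
⟨1, [0, 1, 0, 1, 2, 0, 1, 5]⟩,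
⟨1, [0, 1, 4, 1, 3, 1, 0, 0]⟩,
⟨1, [0, 4, 1, 1, 0, 4, 0, 0]⟩,
⟨1, [2, 1, 3, 1, 0, 0, 0, 3]⟩,
⟨2, [1, 0, 0, 1, 0, 0, 1, 1, 1, 0, 1, 3]⟩,
⟨1, [3, 1, 2, 1, 0, 0, 0, 3]⟩,
⟨1, [0, 4, 1, 0, 4, 0, 1, 0]⟩,
⟨2, [0, 0, 0, 0, 0, 0, 2, 0, 1, 1, 1, 4]⟩,
⟨1, [1, 2, 2, 1, 0, 3, 1, 0]⟩,
⟨2, [4, 2, 1, 1, 0, 0, 0, 0, 1, 0, 0, 0]⟩,
⟨1, [0, 4, 1, 0, 4, 0, 0, 1]⟩,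
⟨2, [0, 0, 0, 0, 0, 0, 0, 3, 1, 0, 4, 1]⟩,
⟨1, [0, 2, 1, 1, 1, 4, 1, 0]⟩,
⟨0, [3, 3, 0, 0, 0, 0, 3, 1]⟩,
⟨1, [0, 1, 0, 3, 3, 2, 0, 1]⟩,
⟨1, [0, 1, 0, 0, 1, 2, 3, 3]⟩,
⟨2, [0, 0, 0, 0, 0, 0, 1, 2, 1, 1, 0, 4]⟩,
⟨1, [2, 1, 2, 0, 0, 2, 1, 2]⟩,
⟨0, [2, 2, 0, 1, 1, 1, 0, 3]⟩,
⟨1, [1, 0, 3, 2, 2, 1, 1, 0]⟩,
⟨1, [2, 2, 1, 0, 1, 1, 3, 0]⟩,
⟨1, [1, 1, 0, 0, 1, 0, 3, 4]⟩,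
⟨2, [3, 2, 1, 0, 0, 0, 1, 0, 0, 0, 1, 1]⟩,
⟨2, [0, 0, 0, 0, 0, 0, 0, 1, 3, 1, 4, 0]⟩,
⟨1, [2, 2, 1, 0, 0, 1, 2, 2]⟩,
⟨2, [0, 0, 0, 0, 0, 0, 1, 4, 1, 1, 2, 0]⟩,
⟨0, [1, 1, 0, 1, 1, 1, 3, 2]⟩,
⟨1, [2, 2, 4, 1, 0, 0, 0, 1]⟩,
⟨1, [1, 0, 0, 3, 2, 3, 1, 0]⟩,
⟨1, [0, 2, 0, 0, 1, 1, 2, 4]⟩,
⟨1, [1, 2, 2, 0, 0, 2, 1, 2]⟩,
⟨1, [0, 0, 0, 1, 2, 2, 4, 1]⟩,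
⟨2, [0, 0, 0, 0, 0, 0, 1, 3, 1, 1, 3, 0]⟩,
⟨1, [1, 2, 2, 0, 0, 1, 2, 2]⟩,
⟨1, [0, 1, 1, 0, 2, 1, 5, 0]⟩,
⟨0, [3, 0, 0, 1, 1, 0, 3, 2]⟩,
⟨0, [2, 2, 2, 2, 1, 1, 0, 0]⟩,
⟨2, [0, 0, 0, 0, 0, 0, 0, 2, 1, 1, 1, 4]⟩,
⟨2, [3, 2, 2, 1, 0, 0, 0, 0, 0, 0, 0, 1]⟩,
⟨2, [0, 0, 0, 0, 0, 0, 1, 1, 4, 2, 1, 0]⟩,
⟨0, [2, 1, 1, 1, 1, 0, 3, 1]⟩,
⟨2, [0, 0, 0, 0, 0, 0, 1, 1, 0, 4, 1, 2]⟩,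
⟨1, [3, 2, 2, 0, 0, 0, 3, 0]⟩,
⟨1, [3, 2, 2, 0, 2, 0, 0, 1]⟩,
⟨1, [0, 0, 0, 3, 0, 3, 3, 1]⟩,
⟨0, [4, 1, 0, 0, 0, 0, 0, 5]⟩,
⟨1, [2, 2, 2, 3, 0, 0, 0, 1]⟩,
⟨1, [0, 0, 0, 2, 2, 4, 0, 2]⟩,
⟨2, [1, 0, 0, 0, 0, 0, 0, 4, 1, 0, 3, 0]⟩,
⟨1, [0, 1, 0, 2, 2, 1, 2, 2]⟩,
⟨0, [2, 1, 0, 2, 1, 0, 2, 2]⟩,
⟨1, [1, 2, 2, 0, 1, 3, 1, 0]⟩,
⟨1, [0, 2, 2, 2, 0, 2, 1, 1]⟩,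
⟨1, [2, 1, 4, 0, 0, 1, 2, 0]⟩,
⟨1, [0, 1, 0, 3, 1, 0, 3, 2]⟩,
⟨1, [0, 0, 1, 2, 3, 1, 3, 0]⟩,
⟨1, [1, 0, 0, 3, 2, 2, 1, 1]⟩,
⟨1, [0, 0, 1, 2, 1, 3, 0, 3]⟩,
⟨1, [0, 1, 0, 3, 3, 2, 1, 0]⟩,
⟨1, [4, 1, 0, 0, 1, 4, 0, 0]⟩,
⟨1, [0, 1, 4, 0, 1, 4, 0, 0]⟩,
⟨1, [0, 1, 0, 1, 3, 1, 4, 0]⟩,
⟨0, [4, 1, 1, 3, 0, 0, 0, 1]⟩,
⟨2, [0, 0, 0, 0, 0, 0, 0, 1, 4, 3, 1, 0]⟩,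
⟨2, [1, 0, 0, 1, 0, 0, 0, 0, 1, 1, 2, 3]⟩,
⟨1, [0, 2, 1, 1, 0, 1, 3, 2]⟩,
⟨2, [0, 0, 0, 0, 0, 0, 1, 4, 0, 0, 4, 0]⟩,
⟨1, [2, 2, 2, 3, 0, 0, 1, 0]⟩,
⟨1, [0, 3, 3, 0, 0, 0, 4, 0]⟩,
⟨2, [1, 1, 1, 1, 1, 1, 0, 1, 1, 0, 1, 0]⟩,
⟨2, [0, 0, 0, 0, 0, 0, 3, 1, 0, 1, 4, 0]⟩,
⟨1, [0, 0, 2, 1, 1, 2, 0, 4]⟩,
⟨1, [0, 0, 1, 1, 1, 2, 4, 1]⟩,
⟨1, [0, 0, 1, 0, 2, 0, 4, 3]⟩,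
⟨1, [1, 0, 0, 4, 2, 1, 2, 0]⟩,
⟨2, [3, 1, 2, 1, 0, 0, 0, 1, 0, 1, 0, 0]⟩,
⟨1, [0, 1, 0, 0, 4, 2, 3, 0]⟩,
⟨1, [0, 0, 1, 1, 1, 1, 1, 5]⟩,
⟨2, [0, 0, 0, 0, 0, 0, 4, 0, 0, 0, 4, 1]⟩,
⟨0, [1, 0, 0, 2, 2, 0, 0, 5]⟩,
⟨0, [2, 1, 1, 1, 1, 0, 2, 2]⟩,
⟨1, [1, 0, 1, 1, 1, 1, 0, 5]⟩,
⟨1, [0, 2, 2, 1, 0, 0, 0, 5]⟩,
⟨1, [1, 0, 0, 0, 2, 2, 0, 5]⟩,
⟨1, [0, 1, 4, 0, 4, 0, 0, 1]⟩,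
⟨2, [0, 0, 0, 0, 0, 0, 1, 0, 1, 1, 4, 2]⟩,
⟨1, [0, 0, 3, 0, 0, 2, 2, 3]⟩,
⟨1, [0, 2, 1, 1, 0, 2, 1, 3]⟩,
⟨1, [1, 0, 0, 0, 2, 3, 4, 0]⟩,
⟨1, [3, 0, 1, 0, 0, 0, 2, 4]⟩,
⟨1, [0, 1, 1, 2, 2, 1, 3, 0]⟩,
⟨0, [2, 2, 2, 2, 1, 0, 1, 0]⟩,
⟨0, [4, 1, 1, 3, 1, 0, 0, 0]⟩,
⟨2, [1, 1, 1, 1, 0, 1, 0, 1, 1, 1, 1, 0]⟩,
⟨1, [0, 1, 4, 0, 0, 1, 2, 2]⟩,
⟨1, [2, 2, 4, 0, 1, 0, 0, 1]⟩,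
⟨1, [1, 2, 4, 1, 0, 0, 0, 2]⟩,
⟨1, [0, 2, 1, 0, 3, 0, 2, 2]⟩,
⟨2, [0, 0, 0, 0, 0, 0, 4, 1, 0, 0, 1, 3]⟩,
⟨1, [1, 1, 1, 1, 1, 1, 4, 0]⟩,
⟨0, [4, 0, 0, 0, 0, 0, 3, 3]⟩,
⟨1, [1, 0, 0, 1, 2, 2, 4, 0]⟩,
⟨1, [0, 2, 2, 0, 0, 1, 4, 1]⟩,
⟨2, [1, 0, 0, 0, 0, 0, 0, 4, 3, 0, 1, 0]⟩,
⟨1, [0, 1, 0, 1, 1, 2, 4, 1]⟩,
⟨1, [1, 1, 1, 2, 2, 2, 1, 0]⟩,
⟨1, [0, 1, 0, 1, 2, 3, 0, 3]⟩,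
⟨1, [0, 0, 1, 2, 1, 0, 3, 3]⟩,
⟨1, [0, 0, 0, 2, 3, 2, 3, 0]⟩,
⟨2, [4, 1, 1, 2, 0, 0, 0, 0, 1, 0, 0, 0]⟩,
⟨1, [0, 0, 2, 2, 3, 0, 0, 3]⟩,
⟨1, [0, 1, 0, 2, 3, 0, 4, 0]⟩,
⟨1, [1, 2, 1, 1, 2, 1, 1, 1]⟩,
⟨1, [0, 3, 3, 0, 1, 0, 3, 0]⟩,
⟨1, [2, 3, 1, 0, 0, 1, 3, 0]⟩,
⟨2, [1, 0, 0, 0, 0, 0, 3, 0, 0, 1, 3, 1]⟩,
⟨2, [0, 0, 0, 0, 0, 0, 1, 1, 1, 1, 1, 4]⟩,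
⟨1, [2, 2, 0, 0, 1, 1, 0, 4]⟩,
⟨1, [1, 1, 4, 0, 3, 1, 0, 0]⟩,
⟨1, [1, 2, 4, 1, 0, 0, 2, 0]⟩,
⟨1, [1, 1, 1, 1, 1, 3, 1, 1]⟩,
⟨1, [0, 1, 0, 0, 2, 4, 3, 0]⟩,
⟨1, [0, 2, 0, 1, 0, 1, 3, 3]⟩,
⟨1, [1, 0, 0, 2, 3, 0, 4, 0]⟩,
⟨2, [0, 0, 0, 0, 0, 0, 3, 0, 1, 3, 1, 1]⟩,
⟨1, [0, 1, 1, 0, 1, 1, 1, 5]⟩,
⟨1, [2, 1, 2, 0, 0, 0, 1, 4]⟩,
⟨1, [0, 4, 1, 4, 0, 0, 1, 0]⟩,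
⟨1, [1, 3, 1, 3, 1, 0, 1, 0]⟩,
⟨0, [3, 3, 2, 1, 0, 0, 0, 1]⟩,
⟨1, [0, 1, 1, 1, 1, 0, 4, 2]⟩,
⟨1, [2, 4, 0, 0, 0, 1, 3, 0]⟩,
⟨1, [0, 0, 0, 3, 1, 3, 1, 2]⟩,
⟨1, [1, 0, 0, 2, 0, 2, 0, 5]⟩,
⟨1, [0, 0, 2, 2, 2, 3, 1, 0]⟩,
⟨1, [1, 0, 4, 1, 1, 3, 0, 0]⟩,
⟨1, [2, 1, 4, 1, 0, 0, 0, 2]⟩,
⟨2, [1, 1, 1, 1, 1, 1, 1, 1, 0, 0, 1, 0]⟩,
⟨2, [1, 1, 0, 1, 1, 1, 1, 0, 1, 1, 1, 0]⟩,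
⟨1, [4, 1, 1, 0, 3, 1, 0, 0]⟩,
⟨2, [2, 2, 1, 1, 0, 0, 1, 0, 0, 0, 1, 1]⟩,
⟨1, [1, 1, 1, 2, 1, 2, 1, 1]⟩,
⟨1, [3, 2, 1, 0, 0, 1, 3, 0]⟩,
⟨2, [0, 0, 0, 0, 0, 0, 4, 0, 1, 3, 1, 0]⟩,
⟨1, [0, 2, 0, 2, 2, 1, 2, 1]⟩,
⟨0, [4, 2, 2, 1, 0, 0, 1, 0]⟩,
⟨2, [0, 0, 0, 0, 0, 0, 1, 0, 3, 1, 3, 1]⟩,
⟨1, [0, 0, 0, 2, 2, 1, 1, 4]⟩,
⟨1, [1, 0, 0, 2, 3, 1, 0, 3]⟩,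
⟨1, [3, 0, 2, 0, 2, 1, 1, 1]⟩,
⟨2, [0, 0, 0, 0, 0, 0, 0, 3, 1, 1, 0, 4]⟩,
⟨1, [0, 1, 4, 1, 1, 3, 0, 0]⟩,
⟨1, [0, 0, 0, 2, 2, 4, 2, 0]⟩,
⟨0, [1, 0, 0, 1, 1, 1, 3, 3]⟩,
⟨1, [1, 3, 3, 1, 0, 1, 1, 0]⟩,
⟨1, [2, 2, 3, 0, 1, 1, 0, 1]⟩,
⟨0, [1, 1, 0, 3, 3, 0, 2, 0]⟩,
⟨1, [0, 0, 1, 1, 3, 2, 3, 0]⟩,
⟨2, [0, 0, 0, 0, 0, 0, 1, 0, 3, 1, 0, 4]⟩,
⟨0, [2, 2, 0, 0, 0, 0, 5, 1]⟩,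
⟨0, [2, 1, 0, 1, 1, 0, 3, 2]⟩,
⟨0, [2, 1, 1, 1, 1, 0, 4, 0]⟩,
⟨1, [0, 1, 0, 2, 1, 3, 0, 3]⟩,
⟨1, [3, 2, 2, 1, 1, 0, 0, 1]⟩,
⟨1, [0, 1, 4, 0, 0, 4, 1, 0]⟩,
⟨1, [4, 0, 1, 1, 3, 1, 0, 0]⟩,
⟨2, [0, 0, 0, 0, 0, 0, 1, 2, 0, 1, 1, 4]⟩,
⟨2, [1, 0, 0, 1, 0, 0, 0, 0, 1, 1, 1, 4]⟩,
⟨1, [0, 0, 1, 0, 0, 3, 2, 4]⟩,
⟨1, [2, 1, 3, 0, 0, 1, 3, 0]⟩,
⟨1, [0, 1, 0, 3, 3, 0, 1, 2]⟩,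
⟨1, [0, 0, 1, 2, 0, 3, 0, 4]⟩,
⟨1, [1, 2, 2, 1, 0, 0, 4, 0]⟩,
⟨2, [0, 0, 0, 0, 0, 0, 1, 1, 1, 1, 4, 1]⟩,
⟨1, [0, 1, 2, 1, 1, 1, 1, 3]⟩,
⟨1, [3, 1, 1, 2, 1, 1, 0, 1]⟩,
⟨2, [1, 0, 0, 0, 0, 0, 1, 0, 0, 2, 3, 2]⟩,
⟨2, [0, 0, 0, 0, 0, 0, 3, 1, 1, 0, 3, 1]⟩,
⟨1, [0, 1, 0, 0, 3, 2, 0, 4]⟩,
⟨2, [0, 0, 0, 0, 0, 0, 0, 1, 4, 0, 3, 1]⟩,
⟨1, [2, 2, 4, 0, 0, 1, 1, 0]⟩,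
⟨2, [0, 0, 0, 0, 0, 0, 1, 2, 1, 0, 1, 4]⟩,
⟨1, [0, 1, 0, 1, 3, 3, 2, 0]⟩,
⟨1, [0, 1, 0, 3, 0, 3, 3, 0]⟩,
⟨1, [0, 1, 1, 2, 2, 0, 0, 4]⟩,
⟨0, [3, 1, 1, 3, 1, 0, 0, 1]⟩,
⟨1, [2, 4, 4, 0, 0, 0, 0, 0]⟩,
⟨2, [1, 0, 0, 0, 0, 0, 0, 4, 0, 4, 0, 0]⟩,
⟨0, [2, 2, 0, 1, 0, 0, 3, 2]⟩,
⟨2, [0, 0, 0, 0, 0, 0, 1, 3, 0, 4, 0, 1]⟩,
⟨2, [2, 0, 0, 2, 2, 2, 0, 0, 1, 0, 0, 0]⟩,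
⟨0, [2, 0, 0, 2, 2, 2, 0, 2]⟩,
⟨1, [0, 1, 0, 2, 3, 2, 1, 1]⟩,
⟨1, [0, 0, 1, 1, 2, 3, 3, 0]⟩,
⟨1, [0, 2, 0, 1, 2, 2, 1, 2]⟩,
⟨1, [2, 2, 3, 1, 1, 0, 1, 0]⟩,
⟨1, [0, 0, 3, 1, 0, 2, 2, 2]⟩,
⟨0, [2, 1, 0, 1, 1, 0, 1, 4]⟩,
⟨2, [1, 0, 0, 1, 0, 0, 3, 3, 0, 0, 1, 0]⟩,
⟨0, [4, 1, 0, 1, 1, 0, 2, 1]⟩,
⟨1, [1, 0, 0, 3, 2, 1, 3, 0]⟩,
⟨1, [1, 2, 2, 3, 0, 1, 0, 1]⟩,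
⟨1, [3, 0, 2, 0, 0, 1, 4, 0]⟩,
⟨1, [1, 0, 0, 2, 4, 1, 0, 2]⟩,
⟨1, [0, 0, 2, 0, 0, 2, 3, 3]⟩,
⟨1, [0, 2, 2, 0, 1, 3, 0, 2]⟩,
⟨1, [2, 2, 4, 0, 1, 0, 1, 0]⟩,
⟨1, [2, 1, 2, 1, 0, 1, 3, 0]⟩,
⟨0, [2, 1, 0, 2, 2, 2, 0, 1]⟩,
⟨1, [0, 3, 1, 0, 1, 1, 1, 3]⟩,
⟨1, [1, 0, 1, 0, 2, 2, 4, 0]⟩,
⟨1, [0, 1, 1, 1, 0, 2, 5, 0]⟩,
⟨1, [0, 1, 0, 0, 1, 1, 3, 4]⟩,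
⟨2, [1, 0, 0, 0, 1, 0, 0, 1, 4, 1, 0, 1]⟩,
⟨1, [3, 2, 3, 0, 0, 1, 0, 1]⟩,
⟨0, [3, 2, 2, 1, 1, 0, 1, 0]⟩,
⟨1, [0, 3, 3, 0, 0, 1, 1, 2]⟩,
⟨1, [2, 2, 3, 1, 0, 1, 0, 1]⟩,
⟨1, [0, 2, 3, 1, 0, 0, 4, 0]⟩,
⟨2, [0, 0, 0, 0, 0, 0, 2, 2, 3, 2, 0, 0]⟩,
⟨2, [0, 0, 0, 0, 0, 0, 0, 1, 3, 1, 3, 1]⟩,
⟨1, [1, 0, 1, 0, 1, 0, 3, 4]⟩,
⟨2, [0, 0, 0, 0, 0, 0, 1, 2, 0, 1, 4, 1]⟩,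
⟨2, [1, 0, 0, 0, 0, 0, 1, 2, 4, 1, 0, 0]⟩,
⟨0, [2, 2, 0, 1, 0, 0, 0, 5]⟩,
⟨1, [0, 1, 0, 1, 4, 1, 0, 3]⟩,
⟨0, [1, 1, 0, 2, 1, 1, 1, 3]⟩,
⟨1, [0, 1, 0, 1, 2, 1, 3, 2]⟩,
⟨1, [1, 1, 2, 1, 1, 4, 0, 0]⟩,
⟨1, [1, 1, 1, 2, 2, 2, 0, 1]⟩,
⟨1, [0, 3, 2, 0, 1, 2, 1, 1]⟩,
⟨1, [0, 2, 3, 0, 1, 0, 3, 1]⟩,
⟨1, [0, 1, 4, 0, 1, 0, 2, 2]⟩,
⟨1, [0, 4, 2, 0, 0, 0, 1, 3]⟩,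
⟨2, [1, 0, 0, 0, 0, 0, 3, 0, 1, 0, 0, 4]⟩,
⟨1, [2, 3, 3, 0, 0, 1, 0, 1]⟩,
⟨1, [0, 4, 1, 0, 3, 1, 1, 0]⟩,
⟨0, [3, 1, 0, 3, 1, 1, 1, 0]⟩,
⟨1, [2, 2, 3, 0, 0, 2, 0, 1]⟩,
⟨2, [0, 0, 0, 0, 0, 0, 4, 1, 1, 1, 1, 1]⟩,
⟨1, [2, 4, 0, 0, 0, 1, 0, 3]⟩,
⟨1, [1, 1, 0, 3, 2, 2, 0, 1]⟩,
⟨1, [0, 1, 1, 1, 1, 2, 1, 3]⟩,
⟨1, [1, 1, 4, 3, 1, 0, 0, 0]⟩,
⟨1, [0, 0, 1, 0, 3, 2, 1, 3]⟩,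
⟨1, [0, 0, 1, 3, 2, 3, 0, 1]⟩,
⟨1, [1, 1, 3, 0, 1, 4, 0, 0]⟩,
⟨1, [1, 2, 2, 2, 0, 0, 1, 2]⟩,
⟨1, [0, 2, 1, 0, 1, 0, 4, 2]⟩,
⟨2, [0, 0, 0, 0, 0, 0, 1, 3, 1, 0, 3, 1]⟩,
⟨2, [1, 1, 0, 0, 0, 0, 0, 2, 3, 0, 1, 1]⟩,
⟨0, [3, 2, 0, 1, 1, 1, 2, 0]⟩,
⟨1, [2, 1, 1, 0, 1, 0, 3, 2]⟩,
⟨2, [0, 0, 0, 0, 0, 0, 0, 4, 1, 0, 3, 1]⟩,
⟨1, [3, 2, 1, 0, 1, 0, 3, 0]⟩,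
⟨0, [2, 0, 0, 2, 2, 0, 2, 2]⟩,
⟨2, [1, 0, 0, 0, 0, 0, 1, 4, 2, 0, 0, 1]⟩,
⟨0, [2, 2, 0, 2, 2, 0, 1, 1]⟩,
⟨0, [2, 1, 1, 2, 2, 0, 1, 1]⟩,
⟨1, [1, 4, 1, 1, 0, 0, 0, 3]⟩,
⟨0, [2, 2, 1, 2, 1, 1, 1, 0]⟩,
⟨1, [3, 1, 1, 0, 0, 2, 1, 2]⟩,
⟨1, [0, 4, 4, 0, 0, 0, 0, 2]⟩,
⟨1, [0, 1, 0, 1, 2, 0, 3, 3]⟩,
⟨2, [1, 1, 1, 1, 1, 1, 1, 0, 0, 0, 1, 1]⟩,
⟨0, [3, 3, 0, 0, 0, 0, 1, 3]⟩,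
⟨1, [1, 4, 1, 0, 0, 1, 0, 3]⟩,
⟨2, [0, 0, 0, 0, 0, 0, 4, 0, 1, 0, 0, 4]⟩,
⟨1, [1, 0, 0, 3, 2, 3, 0, 1]⟩,
⟨2, [1, 0, 0, 1, 0, 0, 1, 1, 0, 1, 2, 2]⟩,
⟨1, [0, 1, 1, 0, 0, 2, 4, 2]⟩,
⟨1, [0, 0, 1, 1, 1, 1, 2, 4]⟩,
⟨0, [3, 3, 3, 0, 0, 0, 1, 0]⟩,
⟨1, [0, 2, 3, 0, 1, 0, 4, 0]⟩,
⟨1, [0, 2, 3, 0, 0, 0, 4, 1]⟩,
⟨1, [0, 0, 1, 2, 4, 1, 0, 2]⟩,
⟨1, [2, 3, 2, 0, 1, 1, 1, 0]⟩,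
⟨1, [1, 4, 3, 1, 0, 0, 1, 0]⟩,
⟨1, [0, 0, 0, 0, 3, 3, 3, 1]⟩,
⟨2, [1, 0, 0, 1, 0, 0, 1, 0, 0, 1, 1, 4]⟩,
⟨1, [0, 0, 0, 0, 2, 2, 1, 5]⟩,
⟨1, [0, 2, 2, 0, 1, 0, 0, 5]⟩,
⟨2, [4, 0, 0, 4, 0, 0, 0, 0, 1, 0, 0, 0]⟩,
⟨1, [0, 2, 2, 0, 0, 1, 5, 0]⟩,
⟨2, [0, 0, 0, 0, 0, 0, 0, 3, 1, 4, 1, 0]⟩,
⟨1, [0, 2, 3, 0, 0, 1, 0, 4]⟩,
⟨0, [3, 2, 1, 1, 0, 0, 0, 3]⟩,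
⟨1, [0, 2, 2, 1, 1, 1, 0, 3]⟩,
⟨1, [3, 2, 2, 0, 1, 1, 0, 1]⟩,
⟨1, [1, 0, 0, 4, 2, 1, 0, 2]⟩,
⟨1, [2, 2, 2, 1, 2, 0, 0, 1]⟩,
⟨2, [0, 0, 0, 0, 0, 0, 1, 2, 0, 4, 1, 1]⟩,
⟨1, [3, 2, 2, 1, 0, 1, 1, 0]⟩,
⟨1, [1, 0, 0, 2, 4, 2, 0, 1]⟩,
⟨2, [0, 0, 0, 0, 0, 0, 2, 3, 2, 0, 1, 1]⟩,
⟨1, [0, 1, 0, 2, 1, 3, 3, 0]⟩,
⟨1, [4, 0, 1, 1, 1, 3, 0, 0]⟩,
⟨1, [1, 0, 2, 2, 2, 2, 1, 0]⟩,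
⟨0, [4, 3, 0, 1, 0, 0, 2, 0]⟩,
⟨1, [2, 0, 0, 2, 2, 3, 0, 1]⟩,
⟨1, [0, 0, 1, 3, 3, 1, 2, 0]⟩,
⟨1, [1, 2, 1, 0, 0, 1, 3, 2]⟩,
⟨1, [0, 0, 1, 3, 3, 0, 0, 3]⟩,
⟨1, [0, 1, 0, 0, 1, 1, 5, 2]⟩,
⟨1, [0, 2, 1, 1, 4, 1, 0, 1]⟩,
⟨1, [1, 2, 2, 0, 1, 1, 0, 3]⟩,
⟨1, [2, 2, 2, 0, 2, 1, 1, 0]⟩,
⟨1, [1, 4, 0, 1, 0, 4, 0, 0]⟩,
⟨1, [4, 3, 0, 0, 0, 1, 0, 2]⟩,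
⟨2, [0, 0, 0, 0, 0, 0, 0, 2, 1, 1, 4, 1]⟩,
⟨2, [4, 0, 0, 1, 1, 1, 0, 0, 1, 0, 0, 1]⟩,
⟨1, [4, 1, 1, 0, 1, 3, 0, 0]⟩,
⟨2, [0, 0, 0, 0, 0, 0, 0, 1, 2, 4, 1, 1]⟩,
⟨2, [0, 0, 0, 0, 0, 0, 3, 1, 1, 1, 0, 3]⟩,
⟨1, [0, 1, 1, 0, 0, 2, 2, 4]⟩,
⟨2, [1, 0, 0, 0, 0, 0, 0, 0, 1, 4, 2, 1]⟩,
⟨1, [0, 0, 1, 1, 4, 1, 3, 0]⟩,
⟨1, [0, 0, 2, 2, 1, 2, 3, 0]⟩,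
⟨2, [0, 0, 0, 0, 0, 0, 1, 4, 1, 2, 1, 0]⟩,
⟨1, [0, 0, 1, 1, 1, 0, 4, 3]⟩,
⟨2, [0, 0, 0, 0, 0, 0, 1, 0, 4, 0, 1, 3]⟩,
⟨1, [3, 3, 1, 0, 0, 1, 2, 0]⟩,
⟨1, [0, 0, 1, 0, 0, 2, 3, 4]⟩,
⟨1, [1, 1, 1, 0, 1, 1, 2, 3]⟩,
⟨2, [0, 0, 0, 0, 0, 0, 4, 0, 1, 4, 0, 0]⟩,
⟨1, [2, 1, 2, 2, 0, 0, 2, 1]⟩,
⟨2, [0, 0, 0, 0, 0, 0, 4, 0, 1, 2, 1, 1]⟩,
⟨2, [4, 1, 0, 1, 1, 1, 0, 0, 0, 0, 0, 1]⟩,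
⟨0, [2, 2, 2, 1, 1, 1, 0, 1]⟩,
⟨1, [0, 1, 2, 0, 0, 1, 5, 1]⟩,
⟨1, [1, 2, 2, 1, 1, 0, 3, 0]⟩,
⟨1, [2, 0, 4, 0, 1, 0, 3, 0]⟩,
⟨1, [0, 0, 0, 0, 2, 2, 5, 1]⟩,
⟨2, [1, 1, 1, 1, 0, 1, 1, 1, 1, 0, 1, 0]⟩,
⟨1, [0, 1, 0, 0, 2, 1, 2, 4]⟩,
⟨1, [1, 1, 1, 0, 2, 2, 0, 3]⟩,
⟨2, [4, 1, 0, 3, 1, 0, 0, 0, 0, 0, 0, 0]⟩,
⟨1, [0, 0, 1, 2, 1, 2, 4, 0]⟩,
⟨1, [2, 3, 3, 1, 0, 0, 1, 0]⟩,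
⟨1, [0, 0, 2, 2, 3, 3, 0, 0]⟩,
⟨1, [0, 2, 1, 2, 2, 2, 1, 0]⟩,
⟨1, [0, 0, 1, 2, 3, 0, 4, 0]⟩,
⟨1, [0, 3, 1, 0, 0, 1, 2, 3]⟩,
⟨1, [1, 4, 1, 3, 1, 0, 0, 0]⟩,
⟨1, [2, 3, 3, 0, 0, 2, 0, 0]⟩,
⟨2, [1, 1, 1, 0, 1, 1, 1, 1, 1, 1, 0, 0]⟩,
⟨2, [1, 0, 0, 0, 0, 0, 0, 4, 1, 1, 2, 0]⟩,
⟨1, [2, 2, 1, 0, 1, 3, 0, 1]⟩,
⟨1, [0, 3, 0, 1, 1, 0, 2, 3]⟩,
⟨1, [0, 3, 3, 0, 0, 0, 1, 3]⟩,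
⟨0, [2, 1, 1, 2, 1, 1, 0, 2]⟩,
⟨1, [3, 2, 1, 1, 0, 0, 3, 0]⟩,
⟨1, [0, 0, 1, 3, 2, 1, 0, 3]⟩,
⟨0, [1, 1, 1, 1, 0, 0, 3, 3]⟩,
⟨1, [0, 1, 0, 2, 0, 3, 0, 4]⟩,
⟨1, [1, 2, 2, 0, 0, 0, 4, 1]⟩,
⟨1, [1, 2, 1, 1, 1, 3, 1, 0]⟩,
⟨0, [1, 1, 0, 1, 1, 0, 5, 1]⟩,
⟨1, [0, 1, 4, 0, 3, 1, 0, 1]⟩,
⟨2, [1, 1, 1, 1, 0, 1, 0, 1, 0, 1, 1, 1]⟩,
⟨0, [2, 2, 0, 1, 1, 0, 4, 0]⟩,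
⟨1, [0, 1, 0, 1, 2, 2, 0, 4]⟩,
⟨1, [2, 2, 3, 0, 3, 0, 0, 0]⟩,
⟨1, [1, 2, 2, 1, 3, 0, 1, 0]⟩,
⟨1, [2, 4, 0, 1, 0, 0, 0, 3]⟩,
⟨1, [0, 0, 1, 0, 2, 1, 2, 4]⟩,
⟨1, [0, 3, 2, 0, 0, 1, 2, 2]⟩,
⟨2, [0, 0, 0, 0, 0, 0, 4, 1, 0, 3, 0, 1]⟩,
⟨1, [0, 0, 0, 0, 0, 1, 4, 5]⟩,
⟨1, [3, 3, 1, 0, 1, 0, 0, 2]⟩,
⟨1, [0, 0, 1, 3, 0, 3, 0, 3]⟩,
⟨2, [1, 0, 0, 0, 0, 0, 0, 1, 3, 4, 0, 0]⟩,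
⟨1, [2, 1, 2, 1, 0, 0, 0, 4]⟩,
⟨2, [1, 1, 1, 1, 1, 1, 0, 1, 1, 0, 0, 1]⟩,
⟨1, [2, 2, 2, 0, 0, 3, 0, 1]⟩,
⟨1, [0, 1, 0, 2, 1, 4, 0, 2]⟩,
⟨1, [0, 1, 0, 1, 3, 0, 1, 4]⟩,
⟨1, [3, 1, 2, 0, 0, 1, 0, 3]⟩,
⟨2, [0, 0, 0, 0, 0, 0, 4, 2, 1, 0, 1, 1]⟩,
⟨1, [0, 0, 0, 3, 3, 1, 2, 1]⟩,
⟨1, [4, 1, 0, 1, 0, 4, 0, 0]⟩,
⟨2, [3, 2, 0, 2, 0, 0, 1, 0, 0, 1, 0, 0]⟩,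
⟨0, [1, 1, 0, 1, 1, 0, 3, 3]⟩,
⟨1, [1, 0, 0, 2, 1, 2, 4, 0]⟩,
⟨1, [1, 2, 1, 1, 3, 1, 1, 0]⟩,
⟨1, [0, 2, 2, 1, 1, 1, 3, 0]⟩,
⟨2, [0, 0, 0, 0, 0, 0, 1, 1, 1, 4, 1, 1]⟩,
⟨1, [0, 0, 1, 2, 1, 4, 2, 0]⟩,
⟨1, [2, 4, 2, 0, 0, 0, 2, 0]⟩,
⟨2, [1, 0, 0, 0, 0, 0, 1, 1, 1, 0, 4, 1]⟩,
⟨1, [0, 1, 0, 0, 4, 1, 2, 2]⟩,
⟨2, [1, 0, 0, 0, 0, 0, 0, 1, 4, 0, 3, 0]⟩,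
⟨2, [0, 0, 0, 0, 0, 0, 2, 0, 1, 4, 1, 1]⟩,
⟨2, [0, 0, 0, 0, 0, 0, 4, 1, 1, 0, 2, 1]⟩,
⟨2, [1, 0, 0, 0, 0, 0, 3, 0, 1, 0, 4, 0]⟩,
⟨2, [0, 0, 0, 0, 0, 0, 1, 3, 1, 0, 1, 3]⟩,
⟨1, [3, 2, 2, 1, 0, 1, 0, 1]⟩,
⟨1, [0, 0, 1, 3, 3, 0, 3, 0]⟩,
⟨1, [3, 1, 2, 1, 0, 0, 3, 0]⟩,
⟨1, [1, 0, 1, 2, 2, 3, 0, 1]⟩,
⟨1, [1, 3, 0, 0, 0, 0, 2, 4]⟩,
⟨1, [2, 2, 4, 2, 0, 0, 0, 0]⟩,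
⟨1, [0, 4, 1, 0, 0, 4, 0, 1]⟩,
⟨1, [0, 0, 1, 1, 2, 4, 2, 0]⟩,
⟨1, [0, 1, 1, 0, 2, 4, 1, 1]⟩,
⟨1, [0, 0, 1, 3, 0, 1, 4, 1]⟩,
⟨1, [2, 1, 2, 1, 1, 0, 0, 3]⟩,
⟨1, [0, 0, 3, 2, 2, 2, 0, 1]⟩,
⟨1, [0, 0, 1, 0, 2, 2, 1, 4]⟩,
⟨1, [1, 1, 0, 2, 2, 1, 3, 0]⟩,
⟨1, [0, 1, 0, 0, 2, 3, 4, 0]⟩,
⟨2, [0, 0, 0, 0, 0, 0, 2, 2, 3, 1, 0, 1]⟩,
⟨2, [1, 0, 0, 1, 0, 0, 0, 1, 1, 0, 4, 1]⟩,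
⟨2, [1, 0, 0, 0, 0, 0, 1, 1, 0, 2, 2, 2]⟩,
⟨1, [0, 1, 0, 3, 1, 2, 0, 3]⟩,
⟨1, [1, 4, 3, 0, 0, 1, 1, 0]⟩,
⟨2, [0, 0, 0, 0, 0, 0, 0, 4, 1, 3, 1, 0]⟩,
⟨1, [0, 3, 2, 0, 0, 0, 1, 4]⟩,
⟨1, [0, 1, 0, 1, 1, 3, 4, 0]⟩,
⟨1, [1, 4, 1, 2, 1, 1, 0, 0]⟩,
⟨0, [1, 2, 1, 1, 1, 0, 3, 1]⟩,
⟨1, [0, 0, 0, 3, 2, 3, 1, 1]⟩,
⟨1, [0, 0, 1, 4, 1, 2, 0, 2]⟩,
⟨0, [1, 1, 1, 1, 1, 0, 0, 5]⟩,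
⟨2, [1, 0, 0, 0, 0, 0, 1, 3, 3, 0, 0, 1]⟩,
⟨1, [1, 0, 0, 2, 4, 1, 2, 0]⟩,
⟨1, [0, 0, 1, 0, 3, 2, 2, 2]⟩,
⟨1, [0, 1, 0, 0, 2, 3, 3, 1]⟩,
⟨2, [1, 1, 1, 1, 1, 0, 3, 0, 0, 0, 0, 1]⟩,
⟨1, [2, 2, 2, 1, 1, 1, 0, 1]⟩,
⟨1, [2, 4, 1, 0, 0, 1, 0, 2]⟩,
⟨1, [3, 3, 1, 0, 1, 0, 2, 0]⟩,
⟨0, [2, 2, 2, 1, 0, 0, 0, 3]⟩,
⟨1, [2, 1, 2, 0, 1, 0, 0, 4]⟩,
⟨2, [1, 0, 0, 1, 0, 0, 0, 1, 0, 1, 3, 2]⟩,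
⟨1, [0, 0, 0, 0, 3, 3, 1, 3]⟩,
⟨1, [3, 2, 2, 0, 0, 1, 1, 1]⟩,
⟨2, [0, 0, 0, 0, 0, 0, 0, 3, 1, 3, 1, 1]⟩,
⟨1, [1, 0, 0, 0, 2, 4, 0, 3]⟩,
⟨2, [1, 0, 0, 0, 0, 0, 3, 2, 2, 0, 0, 1]⟩,
⟨1, [0, 0, 2, 1, 1, 0, 4, 2]⟩,
⟨1, [0, 1, 0, 2, 4, 2, 1, 0]⟩,
⟨1, [0, 0, 1, 2, 2, 4, 1, 0]⟩,
⟨2, [0, 0, 0, 0, 0, 0, 4, 0, 1, 3, 0, 1]⟩,
⟨2, [0, 0, 0, 0, 0, 0, 1, 0, 4, 1, 0, 3]⟩,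
⟨1, [0, 4, 2, 0, 1, 0, 3, 0]⟩,
⟨1, [1, 0, 4, 1, 0, 4, 0, 0]⟩,
⟨0, [2, 1, 1, 2, 2, 0, 2, 0]⟩,
⟨1, [0, 1, 1, 1, 2, 1, 1, 3]⟩,
⟨1, [1, 1, 2, 1, 3, 1, 0, 1]⟩,
⟨0, [2, 1, 1, 2, 2, 1, 0, 1]⟩,
⟨2, [0, 0, 0, 0, 0, 0, 1, 1, 4, 0, 1, 2]⟩,
⟨1, [1, 3, 1, 1, 1, 2, 0, 1]⟩,
⟨2, [1, 0, 0, 0, 0, 0, 3, 1, 0, 0, 0, 4]⟩,
⟨2, [4, 0, 0, 3, 1, 0, 0, 0, 0, 0, 0, 1]⟩,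
⟨2, [1, 0, 0, 0, 0, 0, 3, 2, 2, 0, 1, 0]⟩,
⟨1, [0, 0, 0, 2, 1, 3, 3, 1]⟩,
⟨1, [1, 1, 2, 1, 1, 2, 1, 1]⟩,
⟨1, [3, 2, 3, 1, 0, 0, 0, 1]⟩,
⟨1, [0, 0, 1, 3, 2, 0, 2, 2]⟩,
⟨0, [3, 1, 0, 3, 1, 1, 0, 1]⟩,
⟨0, [3, 3, 1, 2, 0, 0, 0, 1]⟩,
⟨2, [1, 0, 0, 1, 0, 0, 1, 2, 2, 1, 0, 1]⟩,
⟨0, [2, 1, 0, 2, 2, 2, 1, 0]⟩,
⟨1, [0, 0, 1, 3, 2, 3, 1, 0]⟩,
⟨2, [1, 0, 0, 0, 0, 0, 0, 4, 1, 3, 0, 0]⟩,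
⟨0, [4, 2, 0, 0, 0, 0, 3, 1]⟩,
⟨2, [1, 0, 0, 1, 0, 0, 1, 1, 4, 0, 1, 0]⟩,
⟨1, [0, 1, 0, 2, 0, 2, 1, 4]⟩,
⟨1, [2, 1, 3, 0, 0, 1, 0, 3]⟩,
⟨1, [0, 0, 1, 1, 1, 3, 4, 0]⟩,
⟨1, [0, 2, 2, 1, 0, 1, 4, 0]⟩,
⟨1, [0, 0, 0, 3, 2, 0, 4, 1]⟩,
⟨1, [0, 1, 1, 0, 1, 2, 1, 4]⟩,
⟨1, [0, 1, 1, 2, 2, 3, 0, 1]⟩,
⟨1, [0, 1, 0, 1, 1, 0, 5, 2]⟩,
⟨1, [3, 1, 3, 0, 0, 1, 0, 2]⟩,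
⟨2, [1, 0, 0, 1, 1, 0, 0, 0, 0, 4, 1, 1]⟩,
⟨1, [0, 1, 3, 0, 1, 4, 1, 0]⟩,
⟨1, [1, 2, 2, 3, 1, 0, 0, 1]⟩,
⟨1, [0, 2, 0, 3, 1, 1, 1, 2]⟩,
⟨1, [0, 1, 2, 0, 0, 2, 2, 3]⟩,
⟨2, [0, 0, 0, 0, 0, 0, 1, 1, 3, 1, 0, 3]⟩,
⟨2, [1, 0, 0, 0, 0, 0, 0, 4, 1, 0, 0, 3]⟩,
⟨2, [0, 0, 0, 0, 0, 0, 1, 0, 3, 1, 1, 3]⟩,
⟨0, [3, 3, 1, 1, 0, 0, 2, 0]⟩,
⟨1, [2, 2, 1, 1, 0, 1, 0, 3]⟩,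
⟨1, [1, 4, 1, 0, 0, 1, 3, 0]⟩,
⟨1, [1, 0, 0, 4, 3, 0, 0, 2]⟩,
⟨1, [1, 3, 3, 0, 0, 1, 0, 2]⟩,
⟨1, [2, 4, 2, 0, 1, 0, 1, 0]⟩,
⟨1, [0, 2, 1, 0, 1, 1, 2, 3]⟩,
⟨1, [2, 2, 1, 1, 1, 0, 0, 3]⟩,
⟨1, [1, 1, 1, 3, 2, 0, 1, 1]⟩,
⟨1, [2, 0, 4, 1, 0, 0, 3, 0]⟩,
⟨1, [1, 0, 0, 3, 2, 0, 0, 4]⟩,
⟨1, [0, 1, 0, 1, 2, 1, 4, 1]⟩,
⟨0, [2, 1, 0, 2, 0, 0, 3, 2]⟩,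
⟨1, [1, 4, 0, 4, 1, 0, 0, 0]⟩,
⟨0, [4, 1, 0, 4, 0, 0, 0, 1]⟩,
⟨1, [1, 0, 0, 2, 2, 1, 0, 4]⟩,
⟨1, [0, 1, 0, 0, 4, 2, 0, 3]⟩,
⟨1, [0, 2, 2, 0, 1, 0, 1, 4]⟩,
⟨1, [0, 0, 1, 2, 1, 2, 0, 4]⟩,
⟨1, [0, 2, 0, 1, 3, 1, 2, 1]⟩,
⟨1, [0, 2, 0, 3, 2, 2, 1, 0]⟩,
⟨2, [2, 2, 2, 1, 1, 0, 0, 0, 0, 1, 0, 0]⟩,
⟨0, [3, 3, 1, 1, 0, 0, 0, 2]⟩,
⟨1, [0, 0, 1, 0, 2, 3, 1, 3]⟩,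
⟨1, [0, 0, 1, 1, 3, 1, 4, 0]⟩,
⟨1, [2, 2, 3, 0, 2, 0, 1, 0]⟩,
⟨0, [3, 0, 0, 2, 2, 2, 0, 1]⟩,
⟨1, [1, 1, 2, 1, 1, 3, 0, 1]⟩,
⟨0, [2, 1, 0, 2, 0, 0, 2, 3]⟩,
⟨1, [1, 3, 1, 4, 1, 0, 0, 0]⟩,
⟨1, [4, 2, 1, 0, 0, 1, 0, 2]⟩,
⟨2, [3, 0, 0, 4, 0, 0, 2, 0, 0, 0, 0, 0]⟩,
⟨2, [1, 0, 0, 0, 0, 0, 0, 1, 1, 2, 2, 2]⟩,
⟨1, [1, 0, 3, 4, 1, 1, 0, 0]⟩,
⟨1, [0, 1, 0, 1, 3, 2, 3, 0]⟩,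
⟨2, [0, 0, 0, 0, 0, 0, 0, 0, 4, 4, 1, 0]⟩,
⟨1, [2, 2, 1, 1, 0, 0, 4, 0]⟩,
⟨1, [1, 2, 1, 1, 4, 1, 0, 0]⟩,
⟨1, [0, 1, 2, 0, 1, 2, 1, 3]⟩,
⟨1, [0, 1, 0, 2, 2, 4, 1, 0]⟩,
⟨1, [1, 1, 3, 1, 1, 2, 0, 1]⟩,
⟨1, [2, 2, 1, 1, 0, 0, 2, 2]⟩,
⟨2, [0, 0, 0, 0, 0, 0, 0, 1, 2, 1, 4, 1]⟩,
⟨1, [0, 0, 0, 1, 3, 3, 1, 2]⟩,
⟨0, [3, 2, 0, 1, 0, 0, 0, 4]⟩,
⟨1, [1, 1, 4, 0, 1, 3, 0, 0]⟩,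
⟨0, [1, 1, 0, 1, 1, 1, 0, 5]⟩,
⟨1, [1, 1, 1, 0, 2, 2, 3, 0]⟩,
⟨2, [1, 1, 1, 1, 1, 0, 1, 1, 1, 0, 0, 1]⟩,
⟨0, [1, 1, 0, 1, 1, 1, 5, 0]⟩,
⟨1, [1, 2, 2, 1, 1, 1, 1, 1]⟩,
⟨0, [3, 2, 0, 0, 0, 0, 4, 1]⟩,
⟨2, [4, 1, 1, 1, 1, 0, 0, 1, 0, 0, 0, 0]⟩,
⟨2, [2, 2, 2, 2, 0, 0, 0, 0, 0, 0, 1, 0]⟩,
⟨0, [2, 0, 0, 2, 2, 2, 1, 1]⟩,
⟨2, [4, 1, 1, 1, 0, 0, 0, 0, 1, 0, 1, 0]⟩,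
⟨1, [1, 0, 1, 3, 2, 2, 0, 1]⟩,
⟨1, [0, 1, 0, 4, 2, 1, 0, 2]⟩,
⟨1, [0, 0, 1, 1, 2, 2, 4, 0]⟩,
⟨0, [3, 2, 2, 1, 1, 0, 0, 1]⟩,
⟨1, [1, 4, 3, 0, 0, 1, 0, 1]⟩,
⟨1, [0, 4, 1, 4, 0, 0, 0, 1]⟩,
⟨1, [1, 0, 0, 3, 1, 2, 0, 3]⟩,
⟨0, [2, 0, 0, 1, 0, 0, 4, 3]⟩,
⟨2, [0, 0, 0, 0, 0, 0, 1, 1, 3, 0, 3, 1]⟩,
⟨1, [3, 3, 0, 1, 0, 0, 3, 0]⟩,
⟨2, [1, 0, 0, 0, 0, 0, 3, 0, 1, 0, 1, 3]⟩,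
⟨1, [0, 0, 1, 3, 2, 1, 3, 0]⟩,
⟨2, [4, 0, 0, 1, 1, 1, 0, 0, 1, 0, 1, 0]⟩,
⟨1, [3, 1, 2, 0, 0, 1, 3, 0]⟩,
⟨1, [1, 4, 1, 1, 0, 2, 1, 0]⟩,
⟨1, [0, 3, 1, 1, 1, 4, 0, 0]⟩,
⟨1, [1, 4, 2, 1, 0, 0, 0, 2]⟩,
⟨2, [1, 0, 0, 1, 0, 0, 3, 0, 1, 1, 1, 1]⟩,
⟨1, [2, 0, 2, 1, 1, 0, 4, 0]⟩,
⟨1, [0, 3, 2, 0, 1, 0, 3, 1]⟩,
⟨1, [2, 3, 2, 2, 0, 0, 0, 1]⟩,
⟨1, [0, 0, 2, 0, 1, 1, 2, 4]⟩,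
⟨0, [1, 0, 0, 2, 2, 0, 1, 4]⟩,
⟨1, [2, 0, 0, 2, 2, 3, 1, 0]⟩,
⟨1, [2, 1, 2, 1, 0, 1, 0, 3]⟩,
⟨2, [1, 1, 0, 0, 0, 0, 1, 1, 1, 1, 2, 1]⟩,
⟨1, [0, 0, 1, 3, 0, 3, 3, 0]⟩,
⟨1, [0, 0, 1, 4, 2, 2, 0, 1]⟩,
⟨1, [0, 1, 1, 1, 2, 2, 0, 3]⟩,
⟨1, [0, 0, 3, 0, 2, 0, 2, 3]⟩,
⟨2, [0, 0, 0, 0, 0, 0, 1, 1, 3, 1, 3, 0]⟩,
⟨1, [0, 0, 0, 2, 2, 1, 4, 1]⟩,
⟨0, [1, 1, 0, 1, 1, 0, 1, 5]⟩,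
⟨1, [1, 3, 1, 1, 2, 1, 0, 1]⟩,
⟨0, [1, 1, 1, 1, 1, 0, 5, 0]⟩,
⟨1, [0, 0, 2, 1, 0, 0, 3, 4]⟩,
⟨1, [1, 0, 0, 2, 1, 3, 0, 3]⟩,
⟨1, [0, 0, 1, 4, 2, 2, 1, 0]⟩,
⟨0, [3, 1, 0, 1, 1, 0, 2, 2]⟩,
⟨1, [2, 4, 1, 0, 1, 0, 2, 0]⟩,
⟨1, [0, 1, 0, 2, 0, 2, 0, 5]⟩,
⟨1, [0, 1, 4, 1, 1, 2, 1, 0]⟩,
⟨2, [1, 0, 0, 0, 1, 0, 1, 1, 4, 0, 0, 1]⟩,
⟨1, [0, 3, 4, 0, 0, 1, 2, 0]⟩,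
⟨1, [1, 1, 1, 1, 2, 2, 1, 1]⟩,
⟨1, [1, 1, 4, 0, 0, 1, 0, 3]⟩,
⟨0, [2, 1, 0, 2, 1, 1, 3, 0]⟩,
⟨1, [0, 1, 2, 1, 1, 4, 1, 0]⟩,
⟨2, [0, 0, 0, 0, 0, 0, 4, 1, 2, 1, 1, 0]⟩,
⟨2, [1, 0, 0, 0, 0, 0, 3, 0, 0, 1, 1, 3]⟩,
⟨2, [1, 0, 0, 0, 0, 0, 0, 0, 1, 2, 3, 2]⟩,
⟨2, [1, 0, 0, 1, 0, 0, 1, 4, 1, 1, 0, 0]⟩,
⟨2, [1, 1, 0, 0, 0, 0, 2, 0, 3, 1, 0, 1]⟩,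
⟨2, [1, 0, 0, 1, 0, 0, 0, 1, 0, 1, 1, 4]⟩,
⟨1, [0, 1, 0, 3, 2, 3, 0, 1]⟩,
⟨1, [0, 1, 2, 1, 1, 0, 3, 2]⟩,
⟨1, [1, 1, 3, 1, 2, 1, 0, 1]⟩,
⟨1, [0, 1, 2, 0, 2, 0, 2, 3]⟩,
⟨2, [1, 0, 0, 1, 0, 0, 0, 0, 1, 1, 4, 1]⟩,
⟨1, [1, 2, 2, 0, 0, 0, 1, 4]⟩,
⟨1, [0, 0, 2, 2, 2, 1, 0, 3]⟩,
⟨1, [0, 1, 2, 1, 4, 1, 1, 0]⟩,
⟨1, [2, 1, 3, 0, 1, 0, 3, 0]⟩,
⟨1, [0, 0, 0, 2, 3, 1, 3, 1]⟩,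
⟨1, [0, 0, 1, 4, 1, 2, 2, 0]⟩,
⟨1, [1, 0, 1, 1, 2, 2, 3, 0]⟩,
⟨2, [1, 0, 0, 1, 0, 0, 1, 2, 3, 0, 0, 1]⟩,
⟨2, [1, 1, 0, 1, 0, 0, 0, 1, 0, 1, 0, 4]⟩,
⟨1, [0, 0, 1, 3, 1, 1, 0, 4]⟩,
⟨1, [0, 0, 1, 1, 2, 4, 0, 2]⟩,
⟨2, [1, 0, 0, 1, 0, 0, 0, 0, 1, 1, 3, 2]⟩,
⟨1, [1, 2, 1, 2, 1, 1, 1, 1]⟩,
⟨1, [0, 2, 1, 0, 0, 1, 4, 2]⟩,
⟨1, [0, 1, 0, 2, 4, 2, 0, 1]⟩,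
⟨1, [0, 0, 1, 0, 3, 3, 3, 0]⟩,
⟨1, [1, 1, 4, 1, 3, 0, 0, 0]⟩,
⟨1, [0, 1, 1, 2, 3, 2, 0, 1]⟩,
⟨1, [0, 0, 0, 2, 0, 4, 1, 3]⟩,
⟨1, [0, 1, 3, 1, 2, 2, 0, 1]⟩,
⟨2, [0, 0, 0, 0, 0, 0, 0, 4, 0, 4, 1, 0]⟩,
⟨2, [4, 1, 1, 2, 1, 0, 0, 0, 0, 0, 0, 0]⟩,
⟨1, [1, 3, 4, 0, 1, 0, 0, 1]⟩,
⟨0, [2, 1, 1, 2, 2, 0, 0, 2]⟩,
⟨1, [3, 2, 2, 1, 0, 0, 1, 1]⟩,
⟨2, [1, 0, 0, 1, 0, 0, 0, 4, 1, 0, 1, 1]⟩,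
⟨1, [0, 0, 1, 0, 2, 4, 3, 0]⟩,
⟨1, [0, 2, 2, 0, 1, 0, 4, 1]⟩,
⟨1, [0, 3, 1, 1, 4, 1, 0, 0]⟩,
⟨1, [0, 4, 1, 0, 1, 4, 0, 0]⟩,
⟨1, [0, 1, 0, 0, 2, 3, 0, 4]⟩,
⟨2, [0, 0, 0, 0, 0, 0, 0, 1, 4, 1, 3, 0]⟩,
⟨0, [1, 1, 0, 1, 1, 1, 2, 3]⟩,
⟨1, [2, 3, 3, 0, 1, 0, 0, 1]⟩,
⟨2, [3, 2, 2, 0, 0, 0, 0, 0, 1, 0, 1, 0]⟩,
⟨0, [2, 1, 1, 0, 0, 0, 4, 2]⟩,
⟨1, [0, 0, 1, 1, 1, 1, 4, 2]⟩,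
⟨2, [4, 0, 0, 4, 0, 0, 0, 0, 0, 0, 0, 1]⟩,
⟨1, [1, 1, 0, 0, 2, 2, 0, 4]⟩,
⟨1, [2, 2, 1, 1, 0, 1, 3, 0]⟩,
⟨1, [0, 1, 0, 0, 2, 2, 5, 0]⟩,
⟨1, [0, 2, 0, 3, 2, 2, 0, 1]⟩,
⟨2, [0, 0, 0, 0, 0, 0, 1, 4, 0, 2, 1, 1]⟩,
⟨1, [1, 3, 0, 1, 1, 4, 0, 0]⟩,
⟨1, [0, 1, 0, 1, 1, 1, 4, 2]⟩,
⟨1, [0, 0, 1, 0, 1, 1, 4, 3]⟩,
⟨1, [2, 1, 4, 0, 1, 0, 0, 2]⟩,
⟨1, [0, 1, 0, 0, 2, 1, 4, 2]⟩,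
⟨2, [0, 0, 0, 0, 0, 0, 1, 4, 1, 1, 1, 1]⟩,
⟨1, [0, 1, 2, 0, 1, 1, 5, 0]⟩,
⟨1, [1, 0, 0, 1, 2, 4, 0, 2]⟩,
⟨1, [1, 0, 3, 1, 1, 4, 0, 0]⟩,
⟨1, [3, 1, 2, 0, 0, 0, 3, 1]⟩,
⟨1, [0, 1, 3, 1, 3, 1, 0, 1]⟩,
⟨1, [1, 2, 2, 0, 1, 1, 3, 0]⟩,
⟨1, [0, 2, 1, 1, 1, 4, 0, 1]⟩,
⟨2, [1, 1, 1, 1, 1, 0, 0, 1, 1, 1, 0, 1]⟩,
⟨1, [0, 1, 4, 0, 4, 0, 1, 0]⟩,
⟨1, [0, 1, 0, 2, 1, 2, 2, 2]⟩,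
⟨1, [1, 4, 1, 1, 3, 0, 0, 0]⟩,
⟨1, [3, 2, 2, 0, 2, 0, 1, 0]⟩,
⟨1, [0, 3, 3, 0, 0, 1, 0, 3]⟩,
⟨2, [1, 0, 0, 1, 0, 0, 0, 1, 1, 1, 2, 2]⟩,
⟨1, [0, 3, 0, 0, 0, 2, 3, 2]⟩,
⟨1, [1, 0, 4, 0, 1, 4, 0, 0]⟩,
⟨1, [1, 0, 0, 0, 2, 4, 3, 0]⟩,
⟨0, [3, 0, 0, 2, 2, 2, 1, 0]⟩,
⟨1, [2, 2, 1, 1, 0, 0, 0, 4]⟩,
⟨1, [0, 2, 2, 0, 0, 1, 0, 5]⟩,
⟨2, [1, 0, 0, 1, 0, 0, 1, 2, 3, 0, 1, 0]⟩,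
⟨1, [0, 3, 4, 1, 0, 0, 2, 0]⟩,
⟨1, [0, 2, 0, 2, 1, 2, 1, 2]⟩,
⟨1, [0, 0, 2, 3, 1, 1, 2, 1]⟩,
⟨2, [0, 0, 0, 0, 0, 0, 3, 1, 0, 0, 1, 4]⟩,
⟨1, [0, 2, 4, 0, 0, 0, 1, 3]⟩,
⟨1, [0, 0, 1, 3, 3, 2, 1, 0]⟩,
⟨2, [2, 0, 0, 2, 2, 2, 0, 1, 0, 0, 0, 0]⟩,
⟨1, [3, 2, 2, 0, 1, 0, 1, 1]⟩,
⟨1, [1, 0, 0, 3, 3, 0, 0, 3]⟩,
⟨1, [0, 3, 0, 2, 2, 2, 1, 0]⟩,
⟨1, [2, 1, 4, 1, 0, 0, 2, 0]⟩,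
⟨1, [0, 0, 1, 0, 3, 0, 1, 5]⟩,
⟨1, [0, 0, 3, 0, 2, 1, 2, 2]⟩,
⟨1, [0, 0, 0, 0, 2, 4, 3, 1]⟩,
⟨2, [0, 0, 0, 0, 0, 0, 1, 4, 0, 1, 0, 3]⟩,
⟨2, [0, 0, 0, 0, 0, 0, 0, 0, 4, 0, 4, 1]⟩,
⟨1, [2, 2, 3, 0, 0, 2, 1, 0]⟩,
⟨0, [4, 2, 0, 1, 1, 0, 0, 2]⟩,
⟨1, [4, 0, 1, 0, 1, 4, 0, 0]⟩,
⟨1, [1, 0, 0, 4, 1, 2, 0, 2]⟩,
⟨1, [0, 1, 0, 1, 3, 2, 0, 3]⟩,
⟨0, [2, 0, 0, 2, 2, 2, 2, 0]⟩,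
⟨0, [2, 0, 0, 2, 1, 0, 3, 2]⟩,
⟨2, [1, 0, 0, 1, 0, 0, 3, 2, 2, 0, 0, 0]⟩,
⟨1, [1, 3, 4, 1, 0, 0, 0, 1]⟩,
⟨1, [0, 2, 2, 1, 1, 0, 0, 4]⟩,
⟨1, [1, 0, 2, 1, 1, 0, 5, 0]⟩,
⟨0, [3, 2, 0, 1, 1, 0, 0, 3]⟩,
⟨1, [1, 0, 2, 0, 0, 2, 3, 2]⟩,
⟨1, [1, 0, 0, 2, 4, 2, 1, 0]⟩,
⟨1, [2, 1, 2, 0, 1, 0, 4, 0]⟩,
⟨2, [0, 0, 0, 0, 0, 0, 0, 1, 3, 0, 1, 4]⟩,
⟨1, [1, 1, 4, 1, 1, 2, 0, 0]⟩,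
⟨1, [0, 1, 0, 0, 3, 2, 2, 2]⟩,
⟨1, [2, 1, 2, 0, 0, 0, 4, 1]⟩,
⟨1, [1, 1, 3, 1, 1, 1, 1, 1]⟩,
⟨1, [0, 1, 1, 1, 1, 1, 5, 0]⟩,
⟨1, [2, 1, 2, 0, 1, 1, 3, 0]⟩,
⟨1, [1, 3, 1, 1, 1, 2, 1, 0]⟩,
⟨1, [1, 3, 4, 0, 0, 1, 0, 1]⟩,
⟨1, [3, 3, 0, 0, 0, 1, 3, 0]⟩,
⟨2, [4, 1, 1, 1, 0, 0, 0, 1, 0, 0, 0, 1]⟩,
⟨1, [0, 1, 2, 1, 1, 4, 0, 1]⟩,
⟨1, [1, 0, 1, 2, 3, 2, 0, 1]⟩,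
⟨1, [1, 4, 3, 0, 1, 0, 1, 0]⟩,
⟨1, [1, 0, 0, 0, 3, 3, 0, 3]⟩,
⟨2, [1, 0, 1, 0, 0, 0, 0, 3, 2, 1, 0, 1]⟩,
⟨1, [0, 0, 0, 2, 4, 2, 1, 1]⟩,
⟨1, [3, 0, 1, 0, 0, 0, 4, 2]⟩,
⟨1, [1, 1, 3, 4, 1, 0, 0, 0]⟩,
⟨1, [0, 1, 3, 4, 1, 1, 0, 0]⟩,
⟨1, [1, 0, 0, 3, 0, 3, 3, 0]⟩,
⟨1, [0, 1, 0, 2, 1, 1, 3, 2]⟩,
⟨1, [0, 2, 2, 0, 1, 1, 4, 0]⟩,
⟨1, [1, 1, 3, 4, 0, 1, 0, 0]⟩,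
⟨2, [0, 0, 0, 0, 0, 0, 1, 4, 0, 0, 3, 1]⟩,
⟨1, [0, 1, 0, 2, 4, 1, 0, 2]⟩,
⟨1, [2, 3, 0, 0, 0, 1, 4, 0]⟩,
⟨2, [2, 2, 2, 2, 0, 0, 0, 0, 0, 0, 0, 1]⟩,
⟨0, [3, 2, 2, 2, 0, 0, 1, 0]⟩,
⟨1, [2, 1, 1, 1, 1, 4, 0, 0]⟩,
⟨0, [2, 1, 1, 2, 1, 1, 2, 0]⟩,
⟨1, [3, 2, 0, 0, 0, 1, 2, 2]⟩,
⟨1, [1, 1, 0, 2, 2, 3, 0, 1]⟩,
⟨2, [0, 0, 0, 0, 0, 0, 2, 1, 0, 4, 1, 1]⟩,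
⟨2, [0, 0, 0, 0, 0, 0, 1, 0, 1, 2, 4, 1]⟩,
⟨1, [0, 1, 0, 0, 3, 3, 3, 0]⟩,
⟨1, [0, 1, 0, 1, 2, 2, 4, 0]⟩,
⟨1, [3, 0, 2, 0, 0, 1, 2, 2]⟩,
⟨1, [0, 3, 0, 1, 2, 1, 2, 1]⟩,
⟨1, [0, 4, 1, 0, 4, 1, 0, 0]⟩,
⟨2, [0, 0, 0, 0, 0, 0, 1, 1, 4, 1, 2, 0]⟩,
⟨1, [0, 2, 0, 3, 2, 3, 0, 0]⟩,
⟨1, [1, 3, 1, 0, 4, 1, 0, 0]⟩,
⟨1, [1, 2, 1, 1, 1, 4, 0, 0]⟩,
⟨2, [1, 0, 0, 0, 0, 0, 0, 4, 3, 0, 0, 1]⟩,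
⟨1, [0, 1, 0, 2, 0, 1, 4, 2]⟩,
⟨1, [3, 0, 3, 1, 0, 0, 3, 0]⟩,
⟨2, [1, 0, 0, 1, 0, 0, 0, 1, 0, 1, 4, 1]⟩,
⟨2, [0, 0, 0, 0, 0, 0, 0, 1, 1, 3, 3, 1]⟩,
⟨1, [0, 0, 3, 1, 4, 1, 1, 0]⟩,
⟨2, [1, 1, 1, 1, 1, 1, 1, 0, 1, 0, 0, 1]⟩,
⟨1, [0, 0, 1, 0, 2, 2, 5, 0]⟩,
⟨1, [2, 1, 3, 0, 0, 0, 1, 3]⟩,
⟨1, [0, 0, 2, 0, 2, 0, 3, 3]⟩,
⟨1, [1, 4, 1, 3, 0, 1, 0, 0]⟩,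
⟨2, [0, 0, 0, 0, 0, 0, 2, 4, 1, 0, 1, 1]⟩,
⟨2, [4, 1, 1, 1, 0, 0, 0, 0, 1, 0, 0, 1]⟩,
⟨1, [1, 0, 0, 4, 2, 2, 1, 0]⟩,
⟨1, [0, 4, 1, 1, 4, 0, 0, 0]⟩,
⟨1, [1, 1, 0, 0, 1, 1, 2, 4]⟩,
⟨0, [3, 3, 2, 1, 0, 0, 1, 0]⟩,
⟨1, [2, 2, 1, 0, 1, 1, 0, 3]⟩,
⟨2, [0, 0, 0, 0, 0, 0, 1, 1, 4, 2, 0, 1]⟩,
⟨1, [4, 0, 1, 0, 4, 1, 0, 0]⟩,
⟨1, [0, 0, 2, 1, 1, 0, 2, 4]⟩,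
⟨1, [0, 1, 0, 0, 0, 3, 3, 3]⟩,
⟨1, [1, 1, 0, 0, 2, 2, 4, 0]⟩,
⟨1, [2, 1, 4, 0, 0, 1, 0, 2]⟩,
⟨1, [0, 0, 1, 1, 2, 3, 0, 3]⟩,
⟨0, [3, 2, 1, 1, 0, 0, 3, 0]⟩,
⟨1, [0, 1, 1, 1, 1, 1, 1, 4]⟩,
⟨1, [0, 1, 1, 0, 2, 1, 2, 3]⟩,
⟨2, [1, 0, 1, 1, 1, 0, 0, 1, 1, 1, 1, 1]⟩,
⟨1, [4, 2, 2, 0, 1, 0, 1, 0]⟩,
⟨1, [0, 2, 2, 3, 1, 0, 2, 0]⟩,
⟨1, [0, 1, 1, 0, 2, 0, 4, 2]⟩,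
⟨1, [2, 0, 0, 3, 2, 2, 0, 1]⟩,
⟨2, [0, 0, 0, 0, 0, 0, 1, 0, 3, 1, 4, 0]⟩,
⟨0, [3, 2, 0, 1, 0, 0, 3, 1]⟩,
⟨1, [3, 0, 3, 0, 1, 0, 3, 0]⟩,
⟨1, [1, 3, 1, 1, 4, 0, 0, 0]⟩,
⟨1, [1, 0, 0, 1, 2, 4, 2, 0]⟩,
⟨1, [0, 1, 2, 0, 3, 0, 2, 2]⟩,
⟨1, [0, 0, 1, 0, 2, 3, 0, 4]⟩,
⟨1, [1, 4, 0, 3, 1, 1, 0, 0]⟩,
⟨2, [0, 0, 0, 0, 0, 0, 4, 1, 0, 0, 3, 1]⟩,
⟨2, [1, 1, 1, 1, 1, 0, 1, 1, 0, 1, 0, 1]⟩,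
⟨1, [0, 1, 0, 2, 2, 3, 1, 1]⟩,
⟨2, [0, 0, 0, 0, 0, 0, 2, 4, 1, 1, 0, 1]⟩,
⟨1, [1, 1, 2, 1, 3, 1, 1, 0]⟩,
⟨1, [0, 1, 0, 0, 1, 4, 0, 4]⟩,
⟨2, [1, 0, 0, 1, 0, 0, 0, 1, 0, 1, 2, 3]⟩,
⟨1, [0, 1, 1, 0, 1, 1, 4, 2]⟩,
⟨0, [4, 1, 0, 4, 0, 0, 1, 0]⟩,
⟨2, [3, 2, 1, 0, 0, 0, 1, 0, 0, 1, 0, 1]⟩,
⟨2, [1, 0, 0, 0, 0, 0, 2, 3, 2, 0, 1, 0]⟩,
⟨1, [3, 3, 1, 1, 0, 0, 0, 2]⟩,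
⟨1, [0, 2, 4, 0, 1, 0, 3, 0]⟩,
⟨2, [2, 2, 1, 0, 0, 0, 1, 0, 1, 0, 1, 1]⟩,
⟨1, [4, 1, 0, 0, 4, 1, 0, 0]⟩,
⟨1, [4, 1, 0, 4, 1, 0, 0, 0]⟩,
⟨2, [1, 0, 0, 0, 0, 0, 0, 4, 0, 0, 0, 4]⟩,
⟨1, [1, 2, 1, 1, 1, 3, 0, 1]⟩,
⟨1, [1, 0, 0, 2, 1, 4, 0, 2]⟩,
⟨1, [2, 3, 1, 0, 0, 0, 3, 1]⟩,
⟨1, [0, 1, 0, 3, 2, 1, 3, 0]⟩,
⟨2, [1, 0, 0, 1, 0, 0, 1, 2, 2, 1, 1, 0]⟩,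
⟨1, [0, 0, 4, 0, 3, 1, 1, 1]⟩,
⟨1, [2, 0, 3, 0, 1, 0, 0, 4]⟩,
⟨1, [2, 2, 1, 0, 3, 1, 0, 1]⟩,
⟨1, [0, 2, 0, 1, 2, 2, 2, 1]⟩,
⟨1, [0, 1, 4, 1, 2, 1, 0, 1]⟩,
⟨1, [3, 2, 3, 0, 1, 0, 1, 0]⟩,
⟨1, [1, 3, 3, 1, 0, 0, 0, 2]⟩,
⟨1, [1, 0, 0, 0, 2, 2, 1, 4]⟩,
⟨1, [0, 1, 1, 1, 1, 1, 2, 3]⟩,
⟨1, [1, 2, 1, 1, 3, 1, 0, 1]⟩,
⟨1, [0, 1, 0, 0, 0, 2, 4, 3]⟩,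
⟨1, [2, 1, 0, 0, 1, 1, 5, 0]⟩,
⟨2, [1, 0, 0, 0, 0, 0, 1, 0, 4, 0, 3, 0]⟩,
⟨0, [2, 1, 0, 1, 1, 0, 2, 3]⟩,
⟨2, [1, 0, 0, 0, 0, 0, 0, 3, 4, 0, 1, 0]⟩,
⟨2, [1, 0, 0, 1, 0, 0, 1, 3, 2, 1, 0, 0]⟩,
⟨2, [1, 0, 0, 0, 0, 1, 0, 1, 4, 1, 1, 0]⟩,
⟨1, [1, 0, 0, 4, 1, 2, 2, 0]⟩,
⟨0, [4, 2, 2, 1, 0, 0, 0, 1]⟩,
⟨2, [1, 1, 1, 1, 1, 1, 0, 0, 1, 1, 1, 0]⟩,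
⟨2, [0, 0, 0, 0, 0, 0, 4, 0, 1, 0, 1, 3]⟩,
⟨2, [0, 0, 0, 0, 0, 0, 0, 1, 4, 0, 1, 3]⟩,
⟨1, [1, 0, 0, 1, 4, 2, 0, 2]⟩,
⟨1, [0, 0, 1, 2, 1, 3, 3, 0]⟩,
⟨1, [1, 1, 2, 1, 1, 3, 1, 0]⟩,
⟨1, [0, 3, 0, 1, 1, 2, 1, 2]⟩,
⟨1, [0, 1, 0, 0, 1, 2, 2, 4]⟩,
⟨1, [2, 4, 2, 1, 0, 0, 1, 0]⟩,
⟨1, [0, 1, 4, 1, 0, 4, 0, 0]⟩,
⟨1, [4, 2, 2, 0, 0, 1, 0, 1]⟩,
⟨1, [2, 2, 2, 1, 1, 1, 1, 0]⟩,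
⟨2, [2, 1, 1, 1, 1, 1, 0, 1, 0, 0, 0, 1]⟩,
⟨1, [1, 4, 0, 1, 1, 3, 0, 0]⟩,
⟨1, [1, 0, 0, 0, 2, 2, 5, 0]⟩,
⟨2, [0, 0, 0, 0, 0, 0, 2, 3, 2, 0, 0, 2]⟩,
⟨2, [2, 2, 2, 1, 1, 0, 0, 0, 0, 0, 1, 0]⟩]

noncomputable def gads : List Gt := [
⟨2, [⟨0, 0, [(68, 3)]⟩, ⟨1, 2, []⟩, ⟨8, 3, []⟩, ⟨16, 3, []⟩], [1, 1, 2, 2, 2, 12, 12], 2, [(25, 1), (69, 1), (92, 1), (93, 2)]⟩,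
⟨2, [⟨2, 2, []⟩, ⟨1, 4, []⟩], [3, 1, 1], 1, [(3, 1)]⟩,
⟨0, [⟨10, 2, []⟩, ⟨192, 2, []⟩], [3, 3, 3], 1, [(66, 1), (72, 1), (130, 1), (136, 1)]⟩,
⟨2, [⟨0, 0, [(33, 2)]⟩, ⟨66, 4, []⟩], [3, 1, 1], 1, [(35, 1), (97, 1)]⟩,
⟨2, [⟨72, 2, []⟩, ⟨128, 4, []⟩], [3, 1, 1], 1, [(136, 1), (192, 1)]⟩,
⟨2, [⟨0, 0, [(48, 2)]⟩, ⟨72, 4, []⟩], [3, 1, 1], 1, [(56, 1), (112, 1)]⟩,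
⟨2, [⟨130, 2, []⟩, ⟨4, 3, []⟩, ⟨8, 3, []⟩, ⟨16, 3, []⟩, ⟨64, 4, []⟩], [3, 3, 17, 12, 12], 2, [(28, 1), (70, 1), (88, 1), (94, 2), (196, 1), (220, 2)]⟩,
⟨0, [⟨34, 2, []⟩, ⟨128, 2, []⟩], [3, 3, 3], 1, [(130, 1), (160, 1)]⟩,
⟨2, [⟨36, 4, []⟩, ⟨16, 4, []⟩, ⟨128, 4, []⟩], [7], 1, [(148, 1), (176, 1)]⟩,
⟨2, [⟨18, 2, []⟩, ⟨64, 4, []⟩], [3, 1, 1], 1, [(66, 1), (80, 1)]⟩,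
⟨0, [⟨6, 2, []⟩, ⟨65, 2, []⟩], [3, 3, 3], 1, [(3, 1), (5, 1), (66, 1), (68, 1)]⟩,
⟨2, [⟨36, 2, []⟩, ⟨64, 4, []⟩], [3, 1, 1], 1, [(68, 1), (96, 1)]⟩,
⟨2, [⟨0, 0, [(65, 3)]⟩, ⟨4, 2, []⟩, ⟨8, 3, []⟩, ⟨32, 3, []⟩], [1, 1, 2, 2, 2, 12, 12], 2, [(44, 1), (69, 1), (105, 1), (109, 2)]⟩,
⟨2, [⟨12, 4, []⟩, ⟨48, 4, []⟩, ⟨64, 4, []⟩], [7], 1, [(84, 1), (88, 1), (100, 1), (104, 1)]⟩,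
⟨2, [⟨18, 5, []⟩, ⟨4, 3, []⟩, ⟨128, 5, []⟩], [2, 2], 1, [(134, 1), (148, 1)]⟩,
⟨2, [⟨17, 4, []⟩, ⟨34, 4, []⟩, ⟨8, 4, []⟩], [7], 1, [(11, 1), (26, 1), (41, 1), (56, 1)]⟩,
⟨2, [⟨0, 0, [(129, 3)]⟩, ⟨2, 2, []⟩, ⟨16, 3, []⟩, ⟨32, 3, []⟩], [1, 1, 2, 2, 2, 12, 12], 2, [(50, 1), (131, 1), (177, 1), (179, 2)]⟩,
⟨0, [⟨129, 2, []⟩, ⟨72, 2, []⟩], [3, 3, 3], 1, [(9, 1), (65, 1), (136, 1), (192, 1)]⟩,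
⟨2, [⟨1, 2, []⟩, ⟨2, 2, []⟩, ⟨16, 3, []⟩, ⟨32, 3, []⟩, ⟨128, 3, []⟩], [3, 3, 3, 28, 28], 2, [(3, 1), (176, 1), (179, 2)]⟩,
⟨1, [⟨32, 2, []⟩, ⟨144, 2, []⟩], [3, 3, 3], 1, [(48, 1), (160, 1)]⟩,
⟨1, [⟨16, 3, []⟩, ⟨64, 3, []⟩], [3, 3], 1, [(80, 1)]⟩,
⟨2, [⟨20, 4, []⟩, ⟨40, 4, []⟩, ⟨64, 4, []⟩], [7], 1, [(76, 1), (88, 1), (100, 1), (112, 1)]⟩,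
⟨2, [⟨160, 4, []⟩, ⟨2, 4, []⟩, ⟨65, 4, []⟩], [7], 1, [(35, 1), (98, 1), (131, 1), (194, 1)]⟩,
⟨2, [⟨0, 0, [(17, 2)]⟩, ⟨12, 4, []⟩], [3, 1, 1], 1, [(21, 1), (25, 1)]⟩,
⟨0, [⟨8, 2, []⟩, ⟨144, 2, []⟩], [3, 3, 3], 1, [(24, 1), (136, 1)]⟩,
⟨2, [⟨32, 3, []⟩, ⟨64, 5, []⟩, ⟨128, 5, []⟩], [1, 1], 1, [(224, 1)]⟩,
⟨2, [⟨17, 4, []⟩, ⟨36, 4, []⟩, ⟨2, 4, []⟩], [7], 1, [(7, 1), (22, 1), (35, 1), (50, 1)]⟩,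
⟨2, [⟨32, 3, []⟩, ⟨12, 3, []⟩], [3, 3], 1, [(36, 1), (40, 1)]⟩,
⟨2, [⟨1, 2, []⟩, ⟨4, 2, []⟩, ⟨8, 3, []⟩, ⟨32, 3, []⟩, ⟨128, 3, []⟩], [3, 3, 3, 28, 28], 2, [(5, 1), (168, 1), (173, 2)]⟩,
⟨1, [⟨132, 2, []⟩, ⟨8, 2, []⟩], [3, 3, 3], 1, [(12, 1), (136, 1)]⟩,
⟨2, [⟨20, 4, []⟩, ⟨2, 4, []⟩, ⟨64, 4, []⟩], [7], 1, [(70, 1), (82, 1)]⟩,
⟨2, [⟨0, 0, [(10, 2)]⟩, ⟨160, 4, []⟩], [3, 1, 1], 1, [(42, 1), (138, 1)]⟩,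
⟨2, [⟨32, 4, []⟩, ⟨5, 4, []⟩, ⟨64, 4, []⟩], [7], 1, [(97, 1), (100, 1)]⟩,
⟨1, [⟨129, 2, []⟩, ⟨32, 2, []⟩], [3, 3, 3], 1, [(33, 1), (160, 1)]⟩,
⟨0, [⟨20, 2, []⟩, ⟨1, 2, []⟩], [3, 3, 3], 1, [(5, 1), (17, 1)]⟩,
⟨2, [⟨20, 4, []⟩, ⟨8, 2, []⟩], [3, 2, 2], 1, [(12, 1), (24, 1)]⟩,
⟨0, [⟨72, 2, []⟩, ⟨1, 2, []⟩], [3, 3, 3], 1, [(9, 1), (65, 1)]⟩,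
⟨2, [⟨4, 3, []⟩, ⟨192, 3, []⟩], [3, 3], 1, [(68, 1), (132, 1)]⟩,
⟨2, [⟨68, 3, []⟩, ⟨2, 3, []⟩], [3, 3], 1, [(6, 1), (66, 1)]⟩,
⟨0, [⟨129, 2, []⟩, ⟨8, 2, []⟩], [3, 3, 3], 1, [(9, 1), (136, 1)]⟩,
⟨1, [⟨17, 2, []⟩, ⟨128, 2, []⟩], [3, 3, 3], 1, [(129, 1), (144, 1)]⟩,
⟨2, [⟨6, 4, []⟩, ⟨129, 4, []⟩, ⟨64, 4, []⟩], [7], 1, [(67, 1), (69, 1), (194, 1), (196, 1)]⟩,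
⟨0, [⟨72, 2, []⟩, ⟨4, 2, []⟩], [3, 3, 3], 1, [(12, 1), (68, 1)]⟩,
⟨2, [⟨16, 2, []⟩, ⟨32, 2, []⟩, ⟨4, 3, []⟩, ⟨2, 4, []⟩, ⟨128, 4, []⟩], [3, 3, 3, 12, 20], 2, [(50, 1), (134, 1), (176, 1), (182, 2)]⟩,
⟨2, [⟨16, 2, []⟩, ⟨32, 2, []⟩, ⟨2, 3, []⟩, ⟨4, 3, []⟩, ⟨64, 3, []⟩], [3, 3, 3, 28, 28], 2, [(48, 1), (70, 1), (118, 2)]⟩,
⟨2, [⟨1, 2, []⟩, ⟨2, 4, []⟩], [3, 1, 1], 1, [(3, 1)]⟩,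
⟨2, [⟨16, 3, []⟩, ⟨192, 3, []⟩], [3, 3], 1, [(80, 1), (144, 1)]⟩,
⟨1, [⟨36, 2, []⟩, ⟨128, 2, []⟩], [3, 3, 3], 1, [(132, 1), (160, 1)]⟩,
⟨2, [⟨8, 2, []⟩, ⟨16, 2, []⟩, ⟨1, 3, []⟩, ⟨4, 3, []⟩, ⟨128, 5, []⟩], [3, 3, 3, 12, 12], 2, [(133, 1), (152, 1), (157, 2)]⟩,
⟨2, [⟨3, 4, []⟩, ⟨40, 4, []⟩, ⟨64, 4, []⟩], [7], 1, [(73, 1), (74, 1), (97, 1), (98, 1)]⟩,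
⟨0, [⟨9, 2, []⟩, ⟨80, 2, []⟩], [3, 3, 3], 1, [(17, 1), (24, 1), (65, 1), (72, 1)]⟩,
⟨0, [⟨8, 2, []⟩, ⟨160, 2, []⟩], [3, 3, 3], 1, [(40, 1), (136, 1)]⟩,
⟨2, [⟨18, 3, []⟩, ⟨64, 3, []⟩], [3, 3], 1, [(66, 1), (80, 1)]⟩,
⟨2, [⟨0, 0, [(40, 2)]⟩, ⟨18, 4, []⟩], [3, 1, 1], 1, [(42, 1), (56, 1)]⟩,
⟨1, [⟨32, 4, []⟩, ⟨128, 2, []⟩], [3, 2, 2], 1, [(160, 1)]⟩,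
⟨2, [⟨160, 4, []⟩, ⟨4, 4, []⟩, ⟨66, 4, []⟩], [7], 1, [(38, 1), (100, 1), (134, 1), (196, 1)]⟩,
⟨1, [⟨9, 2, []⟩, ⟨2, 2, []⟩], [3, 3, 3], 1, [(3, 1), (10, 1)]⟩,
⟨1, [⟨18, 2, []⟩, ⟨8, 2, []⟩], [3, 3, 3], 1, [(10, 1), (24, 1)]⟩,
⟨2, [⟨32, 4, []⟩, ⟨3, 4, []⟩, ⟨128, 4, []⟩], [7], 1, [(161, 1), (162, 1)]⟩,
⟨0, [⟨144, 2, []⟩, ⟨1, 2, []⟩], [3, 3, 3], 1, [(17, 1), (129, 1)]⟩,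
⟨2, [⟨1, 2, []⟩, ⟨2, 2, []⟩, ⟨32, 3, []⟩, ⟨16, 4, []⟩, ⟨64, 4, []⟩], [3, 3, 3, 12, 20], 2, [(19, 1), (67, 1), (112, 1), (115, 2)]⟩,
⟨2, [⟨10, 4, []⟩, ⟨20, 4, []⟩, ⟨64, 4, []⟩], [7], 1, [(70, 1), (76, 1), (82, 1), (88, 1)]⟩,
⟨2, [⟨18, 5, []⟩, ⟨4, 3, []⟩, ⟨64, 5, []⟩], [2, 2], 1, [(70, 1), (84, 1)]⟩,
⟨2, [⟨32, 4, []⟩, ⟨80, 4, []⟩, ⟨128, 4, []⟩], [7], 1, [(176, 1), (224, 1)]⟩,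
⟨2, [⟨4, 4, []⟩, ⟨8, 2, []⟩], [3, 2, 2], 1, [(12, 1)]⟩,
⟨2, [⟨16, 4, []⟩, ⟨128, 2, []⟩], [3, 2, 2], 1, [(144, 1)]⟩,
⟨1, [⟨17, 2, []⟩, ⟨2, 2, []⟩], [3, 3, 3], 1, [(3, 1), (18, 1)]⟩,
⟨2, [⟨8, 4, []⟩, ⟨16, 4, []⟩, ⟨128, 4, []⟩], [7], 1, [(152, 1)]⟩,
⟨1, [⟨16, 2, []⟩, ⟨72, 2, []⟩], [3, 3, 3], 1, [(24, 1), (80, 1)]⟩,
⟨1, [⟨4, 2, []⟩, ⟨2, 4, []⟩], [3, 1, 1], 1, [(6, 1)]⟩,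
⟨2, [⟨65, 2, []⟩, ⟨2, 3, []⟩, ⟨16, 3, []⟩, ⟨32, 3, []⟩, ⟨128, 4, []⟩], [3, 3, 17, 12, 12], 2, [(50, 1), (131, 1), (176, 1), (179, 2), (194, 1), (242, 2)]⟩,
⟨2, [⟨16, 4, []⟩, ⟨5, 4, []⟩, ⟨64, 4, []⟩], [7], 1, [(81, 1), (84, 1)]⟩,
⟨2, [⟨40, 2, []⟩, ⟨192, 4, []⟩], [3, 1, 1], 1, [(72, 1), (96, 1), (136, 1), (160, 1)]⟩,
⟨1, [⟨8, 2, []⟩, ⟨16, 4, []⟩], [3, 1, 1], 1, [(24, 1)]⟩,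
⟨2, [⟨0, 0, [(36, 2)]⟩, ⟨72, 4, []⟩], [3, 1, 1], 1, [(44, 1), (100, 1)]⟩,
⟨1, [⟨1, 3, []⟩, ⟨4, 3, []⟩], [3, 3], 1, [(5, 1)]⟩,
⟨2, [⟨12, 5, []⟩, ⟨16, 3, []⟩, ⟨128, 5, []⟩], [2, 2], 1, [(148, 1), (152, 1)]⟩,
⟨1, [⟨32, 4, []⟩, ⟨64, 2, []⟩], [3, 2, 2], 1, [(96, 1)]⟩,
⟨0, [⟨17, 2, []⟩, ⟨128, 2, []⟩], [3, 3, 3], 1, [(129, 1), (144, 1)]⟩,
⟨2, [⟨36, 4, []⟩, ⟨8, 4, []⟩, ⟨64, 4, []⟩], [7], 1, [(76, 1), (104, 1)]⟩,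
⟨2, [⟨16, 4, []⟩, ⟨32, 4, []⟩, ⟨64, 4, []⟩], [7], 1, [(112, 1)]⟩,
⟨2, [⟨17, 4, []⟩, ⟨2, 4, []⟩, ⟨64, 4, []⟩], [7], 1, [(67, 1), (82, 1)]⟩,
⟨2, [⟨4, 3, []⟩, ⟨0, 0, [(48, 3)]⟩], [3, 3], 1, [(52, 1)]⟩,
⟨1, [⟨2, 2, []⟩, ⟨65, 2, []⟩], [3, 3, 3], 1, [(3, 1), (66, 1)]⟩,
⟨2, [⟨1, 2, []⟩, ⟨2, 2, []⟩, ⟨32, 3, []⟩, ⟨16, 4, []⟩, ⟨128, 4, []⟩], [3, 3, 3, 12, 20], 2, [(19, 1), (131, 1), (176, 1), (179, 2)]⟩,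
⟨2, [⟨66, 5, []⟩, ⟨8, 3, []⟩, ⟨48, 5, []⟩], [2, 2], 1, [(26, 1), (42, 1), (88, 1), (104, 1)]⟩,
⟨2, [⟨17, 4, []⟩, ⟨32, 4, []⟩, ⟨64, 4, []⟩], [7], 1, [(97, 1), (112, 1)]⟩,
⟨2, [⟨10, 4, []⟩, ⟨32, 2, []⟩], [3, 2, 2], 1, [(34, 1), (40, 1)]⟩,
⟨2, [⟨16, 2, []⟩, ⟨2, 3, []⟩, ⟨4, 3, []⟩, ⟨64, 3, []⟩, ⟨128, 4, []⟩], [9, 9, 17, 6, 6], 2, [(70, 1), (134, 1), (208, 1), (214, 2)]⟩,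
⟨2, [⟨130, 2, []⟩, ⟨64, 4, []⟩], [3, 1, 1], 1, [(66, 1), (192, 1)]⟩,
⟨2, [⟨0, 0, [(34, 2)]⟩, ⟨80, 4, []⟩], [3, 1, 1], 1, [(50, 1), (98, 1)]⟩,
⟨1, [⟨10, 2, []⟩, ⟨16, 2, []⟩], [3, 3, 3], 1, [(18, 1), (24, 1)]⟩,
⟨1, [⟨34, 2, []⟩, ⟨132, 2, []⟩], [3, 3, 3], 1, [(6, 1), (36, 1), (130, 1), (160, 1)]⟩,
⟨2, [⟨32, 4, []⟩, ⟨6, 4, []⟩, ⟨128, 4, []⟩], [7], 1, [(162, 1), (164, 1)]⟩,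
⟨1, [⟨33, 2, []⟩, ⟨8, 2, []⟩], [3, 3, 3], 1, [(9, 1), (40, 1)]⟩,
⟨2, [⟨33, 4, []⟩, ⟨18, 4, []⟩, ⟨8, 4, []⟩], [7], 1, [(11, 1), (25, 1), (42, 1), (56, 1)]⟩,
⟨2, [⟨0, 0, [(10, 2)]⟩, ⟨80, 4, []⟩], [3, 1, 1], 1, [(26, 1), (74, 1)]⟩,
⟨2, [⟨16, 2, []⟩, ⟨32, 2, []⟩, ⟨4, 3, []⟩, ⟨2, 4, []⟩, ⟨64, 4, []⟩], [3, 3, 3, 12, 20], 2, [(50, 1), (70, 1), (112, 1), (118, 2)]⟩,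
⟨1, [⟨132, 2, []⟩, ⟨96, 2, []⟩], [3, 3, 3], 1, [(36, 1), (68, 1), (160, 1), (192, 1)]⟩,
⟨2, [⟨4, 4, []⟩, ⟨32, 4, []⟩, ⟨72, 4, []⟩], [7], 1, [(44, 1), (100, 1)]⟩,
⟨2, [⟨32, 4, []⟩, ⟨2, 2, []⟩], [3, 2, 2], 1, [(34, 1)]⟩,
⟨0, [⟨80, 2, []⟩, ⟨128, 2, []⟩], [3, 3, 3], 1, [(144, 1), (192, 1)]⟩,
⟨0, [⟨136, 2, []⟩, ⟨2, 2, []⟩], [3, 3, 3], 1, [(10, 1), (130, 1)]⟩,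
⟨2, [⟨34, 4, []⟩, ⟨24, 4, []⟩, ⟨128, 4, []⟩], [7], 1, [(138, 1), (146, 1), (168, 1), (176, 1)]⟩,
⟨2, [⟨0, 0, [(12, 2)]⟩, ⟨80, 4, []⟩], [3, 1, 1], 1, [(28, 1), (76, 1)]⟩,
⟨2, [⟨144, 3, []⟩, ⟨8, 3, []⟩], [3, 3], 1, [(24, 1), (136, 1)]⟩,
⟨1, [⟨36, 2, []⟩, ⟨2, 2, []⟩], [3, 3, 3], 1, [(6, 1), (34, 1)]⟩,
⟨2, [⟨132, 2, []⟩, ⟨2, 3, []⟩, ⟨16, 3, []⟩, ⟨32, 3, []⟩, ⟨64, 4, []⟩], [3, 3, 17, 12, 12], 2, [(50, 1), (70, 1), (112, 1), (118, 2), (194, 1), (242, 2)]⟩,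
⟨2, [⟨8, 2, []⟩, ⟨16, 2, []⟩, ⟨1, 3, []⟩, ⟨2, 3, []⟩, ⟨64, 5, []⟩], [3, 3, 3, 12, 12], 2, [(67, 1), (88, 1), (91, 2)]⟩,
⟨2, [⟨33, 5, []⟩, ⟨2, 3, []⟩, ⟨64, 5, []⟩], [2, 2], 1, [(67, 1), (98, 1)]⟩,
⟨1, [⟨16, 2, []⟩, ⟨136, 2, []⟩], [3, 3, 3], 1, [(24, 1), (144, 1)]⟩,
⟨1, [⟨3, 2, []⟩, ⟨96, 2, []⟩], [3, 3, 3], 1, [(33, 1), (34, 1), (65, 1), (66, 1)]⟩,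
⟨1, [⟨5, 2, []⟩, ⟨2, 2, []⟩], [3, 3, 3], 1, [(3, 1), (6, 1)]⟩,
⟨2, [⟨17, 4, []⟩, ⟨10, 4, []⟩, ⟨32, 4, []⟩], [7], 1, [(35, 1), (41, 1), (50, 1), (56, 1)]⟩,
⟨2, [⟨2, 3, []⟩, ⟨0, 0, [(48, 3)]⟩], [3, 3], 1, [(50, 1)]⟩,
⟨2, [⟨4, 4, []⟩, ⟨16, 2, []⟩], [3, 2, 2], 1, [(20, 1)]⟩,
⟨2, [⟨136, 3, []⟩, ⟨16, 3, []⟩], [3, 3], 1, [(24, 1), (144, 1)]⟩,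
⟨2, [⟨2, 3, []⟩, ⟨8, 3, []⟩], [3, 3], 1, [(10, 1)]⟩,
⟨2, [⟨32, 3, []⟩, ⟨64, 3, []⟩], [3, 3], 1, [(96, 1)]⟩,
⟨2, [⟨32, 3, []⟩, ⟨128, 3, []⟩], [3, 3], 1, [(160, 1)]⟩,
⟨0, [⟨130, 2, []⟩, ⟨96, 2, []⟩], [3, 3, 3], 1, [(34, 1), (66, 1), (160, 1), (192, 1)]⟩,
⟨1, [⟨16, 2, []⟩, ⟨96, 2, []⟩], [3, 3, 3], 1, [(48, 1), (80, 1)]⟩,
⟨2, [⟨16, 3, []⟩, ⟨64, 3, []⟩], [3, 3], 1, [(80, 1)]⟩,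
⟨2, [⟨0, 0, [(5, 2)]⟩, ⟨64, 4, []⟩], [3, 1, 1], 1, [(69, 1)]⟩,
⟨1, [⟨22, 2, []⟩, ⟨160, 2, []⟩], [3, 3, 3], 1, [(34, 1), (36, 1), (48, 1), (130, 1), (132, 1), (144, 1)]⟩,
⟨1, [⟨12, 2, []⟩, ⟨176, 2, []⟩], [3, 3, 3], 1, [(20, 1), (24, 1), (36, 1), (40, 1), (132, 1), (136, 1)]⟩,
⟨2, [⟨136, 3, []⟩, ⟨32, 3, []⟩], [3, 3], 1, [(40, 1), (160, 1)]⟩,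
⟨1, [⟨16, 2, []⟩, ⟨32, 4, []⟩], [3, 1, 1], 1, [(48, 1)]⟩,
⟨1, [⟨48, 2, []⟩, ⟨130, 2, []⟩], [3, 3, 3], 1, [(18, 1), (34, 1), (144, 1), (160, 1)]⟩,
⟨2, [⟨20, 5, []⟩, ⟨32, 3, []⟩, ⟨64, 5, []⟩], [2, 2], 1, [(100, 1), (112, 1)]⟩,
⟨1, [⟨132, 2, []⟩, ⟨32, 2, []⟩], [3, 3, 3], 1, [(36, 1), (160, 1)]⟩,
⟨2, [⟨12, 4, []⟩, ⟨160, 4, []⟩, ⟨64, 4, []⟩], [7], 1, [(100, 1), (104, 1), (196, 1), (200, 1)]⟩,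
⟨2, [⟨2, 3, []⟩, ⟨16, 3, []⟩], [3, 3], 1, [(18, 1)]⟩,
⟨1, [⟨40, 2, []⟩, ⟨68, 2, []⟩], [3, 3, 3], 1, [(12, 1), (36, 1), (72, 1), (96, 1)]⟩,
⟨2, [⟨12, 4, []⟩, ⟨32, 2, []⟩], [3, 2, 2], 1, [(36, 1), (40, 1)]⟩,
⟨2, [⟨1, 2, []⟩, ⟨4, 2, []⟩, ⟨16, 3, []⟩, ⟨32, 4, []⟩, ⟨64, 4, []⟩], [3, 3, 3, 12, 20], 2, [(37, 1), (69, 1), (112, 1), (117, 2)]⟩,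
⟨1, [⟨10, 2, []⟩, ⟨128, 2, []⟩], [3, 3, 3], 1, [(130, 1), (136, 1)]⟩,
⟨2, [⟨66, 3, []⟩, ⟨1, 3, []⟩], [3, 3], 1, [(3, 1), (65, 1)]⟩,
⟨2, [⟨132, 4, []⟩, ⟨32, 4, []⟩, ⟨80, 4, []⟩], [7], 1, [(52, 1), (100, 1), (176, 1), (224, 1)]⟩,
⟨1, [⟨72, 2, []⟩, ⟨1, 2, []⟩], [3, 3, 3], 1, [(9, 1), (65, 1)]⟩,
⟨1, [⟨66, 2, []⟩, ⟨144, 2, []⟩], [3, 3, 3], 1, [(18, 1), (80, 1), (130, 1), (192, 1)]⟩,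
⟨2, [⟨132, 2, []⟩, ⟨2, 3, []⟩, ⟨8, 3, []⟩, ⟨32, 3, []⟩, ⟨64, 4, []⟩], [3, 3, 17, 12, 12], 2, [(42, 1), (70, 1), (104, 1), (110, 2), (194, 1), (234, 2)]⟩,
⟨2, [⟨20, 4, []⟩, ⟨3, 4, []⟩, ⟨128, 4, []⟩], [7], 1, [(133, 1), (134, 1), (145, 1), (146, 1)]⟩,
⟨2, [⟨17, 4, []⟩, ⟨4, 4, []⟩, ⟨128, 4, []⟩], [7], 1, [(133, 1), (148, 1)]⟩,
⟨0, [⟨65, 2, []⟩, ⟨136, 2, []⟩], [3, 3, 3], 1, [(9, 1), (72, 1), (129, 1), (192, 1)]⟩,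
⟨1, [⟨1, 2, []⟩, ⟨64, 4, []⟩], [3, 1, 1], 1, [(65, 1)]⟩,
⟨0, [⟨68, 2, []⟩, ⟨136, 2, []⟩], [3, 3, 3], 1, [(12, 1), (72, 1), (132, 1), (192, 1)]⟩,
⟨2, [⟨36, 5, []⟩, ⟨16, 3, []⟩, ⟨64, 5, []⟩], [2, 2], 1, [(84, 1), (112, 1)]⟩,
⟨1, [⟨12, 2, []⟩, ⟨112, 2, []⟩], [3, 3, 3], 1, [(20, 1), (24, 1), (36, 1), (40, 1), (68, 1), (72, 1)]⟩,
⟨1, [⟨28, 2, []⟩, ⟨66, 2, []⟩], [3, 3, 3], 1, [(6, 1), (10, 1), (18, 1), (68, 1), (72, 1), (80, 1)]⟩,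
⟨0, [⟨10, 2, []⟩, ⟨65, 2, []⟩], [3, 3, 3], 1, [(3, 1), (9, 1), (66, 1), (72, 1)]⟩,
⟨2, [⟨2, 2, []⟩, ⟨4, 2, []⟩, ⟨8, 3, []⟩, ⟨32, 3, []⟩, ⟨128, 5, []⟩], [3, 3, 3, 12, 12], 2, [(134, 1), (168, 1), (174, 2)]⟩,
⟨0, [⟨9, 2, []⟩, ⟨128, 4, []⟩], [3, 1, 1], 1, [(129, 1), (136, 1)]⟩,
⟨0, [⟨24, 2, []⟩, ⟨129, 2, []⟩], [3, 3, 3], 1, [(9, 1), (17, 1), (136, 1), (144, 1)]⟩,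
⟨2, [⟨2, 4, []⟩, ⟨68, 4, []⟩, ⟨128, 4, []⟩], [7], 1, [(134, 1), (194, 1)]⟩,
⟨2, [⟨2, 2, []⟩, ⟨8, 3, []⟩, ⟨32, 3, []⟩, ⟨128, 3, []⟩, ⟨64, 4, []⟩], [9, 9, 17, 6, 6], 2, [(104, 1), (168, 1), (194, 1), (234, 2)]⟩,
⟨2, [⟨34, 4, []⟩, ⟨5, 4, []⟩, ⟨64, 4, []⟩], [7], 1, [(67, 1), (70, 1), (97, 1), (100, 1)]⟩,
⟨2, [⟨2, 4, []⟩, ⟨40, 4, []⟩, ⟨64, 4, []⟩], [7], 1, [(74, 1), (98, 1)]⟩,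
⟨2, [⟨5, 2, []⟩, ⟨64, 4, []⟩], [3, 1, 1], 1, [(65, 1), (68, 1)]⟩,
⟨1, [⟨5, 2, []⟩, ⟨48, 2, []⟩], [3, 3, 3], 1, [(17, 1), (20, 1), (33, 1), (36, 1)]⟩,
⟨1, [⟨32, 2, []⟩, ⟨136, 2, []⟩], [3, 3, 3], 1, [(40, 1), (160, 1)]⟩,
⟨1, [⟨68, 2, []⟩, ⟨16, 2, []⟩], [3, 3, 3], 1, [(20, 1), (80, 1)]⟩,
⟨1, [⟨9, 2, []⟩, ⟨128, 2, []⟩], [3, 3, 3], 1, [(129, 1), (136, 1)]⟩,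
⟨2, [⟨18, 4, []⟩, ⟨4, 4, []⟩, ⟨64, 4, []⟩], [7], 1, [(70, 1), (84, 1)]⟩,
⟨2, [⟨129, 2, []⟩, ⟨4, 3, []⟩, ⟨8, 3, []⟩, ⟨16, 3, []⟩, ⟨64, 4, []⟩], [3, 3, 17, 12, 12], 2, [(28, 1), (69, 1), (88, 1), (93, 2), (196, 1), (220, 2)]⟩,
⟨1, [⟨136, 2, []⟩, ⟨4, 2, []⟩], [3, 3, 3], 1, [(12, 1), (132, 1)]⟩,
⟨2, [⟨1, 2, []⟩, ⟨2, 2, []⟩, ⟨8, 3, []⟩, ⟨32, 3, []⟩, ⟨64, 3, []⟩], [3, 3, 3, 28, 28], 2, [(3, 1), (104, 1), (107, 2)]⟩,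
⟨1, [⟨18, 2, []⟩, ⟨40, 2, []⟩], [3, 3, 3], 1, [(10, 1), (24, 1), (34, 1), (48, 1)]⟩,
⟨2, [⟨129, 2, []⟩, ⟨64, 4, []⟩], [3, 1, 1], 1, [(65, 1), (192, 1)]⟩,
⟨2, [⟨4, 3, []⟩, ⟨64, 5, []⟩, ⟨128, 5, []⟩], [1, 1], 1, [(196, 1)]⟩,
⟨1, [⟨20, 2, []⟩, ⟨168, 2, []⟩], [3, 3, 3], 1, [(12, 1), (24, 1), (36, 1), (48, 1), (132, 1), (144, 1)]⟩,
⟨0, [⟨130, 2, []⟩, ⟨64, 2, []⟩], [3, 3, 3], 1, [(66, 1), (192, 1)]⟩,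
⟨2, [⟨9, 2, []⟩, ⟨128, 4, []⟩], [3, 1, 1], 1, [(129, 1), (136, 1)]⟩,
⟨1, [⟨16, 2, []⟩, ⟨64, 4, []⟩], [3, 1, 1], 1, [(80, 1)]⟩,
⟨2, [⟨0, 0, [(144, 3)]⟩, ⟨32, 2, []⟩, ⟨2, 3, []⟩, ⟨4, 3, []⟩], [1, 1, 2, 2, 2, 12, 12], 2, [(38, 1), (150, 1), (176, 1), (182, 2)]⟩,
⟨1, [⟨36, 2, []⟩, ⟨128, 4, []⟩], [3, 1, 1], 1, [(132, 1), (160, 1)]⟩,
⟨1, [⟨160, 2, []⟩, ⟨2, 2, []⟩], [3, 3, 3], 1, [(34, 1), (130, 1)]⟩,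
⟨2, [⟨130, 5, []⟩, ⟨32, 3, []⟩, ⟨24, 5, []⟩], [2, 2], 1, [(42, 1), (50, 1), (168, 1), (176, 1)]⟩,
⟨1, [⟨10, 2, []⟩, ⟨1, 2, []⟩], [3, 3, 3], 1, [(3, 1), (9, 1)]⟩,
⟨2, [⟨65, 3, []⟩, ⟨4, 3, []⟩], [3, 3], 1, [(5, 1), (68, 1)]⟩,
⟨2, [⟨32, 4, []⟩, ⟨6, 4, []⟩, ⟨64, 4, []⟩], [7], 1, [(98, 1), (100, 1)]⟩,
⟨0, [⟨6, 2, []⟩, ⟨1, 2, []⟩], [3, 3, 3], 1, [(3, 1), (5, 1)]⟩,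
⟨2, [⟨16, 4, []⟩, ⟨6, 4, []⟩, ⟨128, 4, []⟩], [7], 1, [(146, 1), (148, 1)]⟩,
⟨2, [⟨8, 4, []⟩, ⟨2, 4, []⟩, ⟨129, 4, []⟩], [7], 1, [(11, 1), (138, 1)]⟩,
⟨2, [⟨4, 2, []⟩, ⟨16, 3, []⟩, ⟨32, 3, []⟩, ⟨128, 3, []⟩, ⟨64, 4, []⟩], [9, 9, 17, 6, 6], 2, [(112, 1), (176, 1), (196, 1), (244, 2)]⟩,
⟨1, [⟨50, 2, []⟩, ⟨68, 2, []⟩], [3, 3, 3], 1, [(6, 1), (20, 1), (36, 1), (66, 1), (80, 1), (96, 1)]⟩,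
⟨2, [⟨16, 2, []⟩, ⟨32, 4, []⟩], [3, 1, 1], 1, [(48, 1)]⟩,
⟨2, [⟨34, 4, []⟩, ⟨5, 4, []⟩, ⟨128, 4, []⟩], [7], 1, [(131, 1), (134, 1), (161, 1), (164, 1)]⟩,
⟨0, [⟨72, 2, []⟩, ⟨128, 2, []⟩], [3, 3, 3], 1, [(136, 1), (192, 1)]⟩,
⟨1, [⟨68, 2, []⟩, ⟨32, 2, []⟩], [3, 3, 3], 1, [(36, 1), (96, 1)]⟩,
⟨1, [⟨3, 2, []⟩, ⟨4, 2, []⟩], [3, 3, 3], 1, [(5, 1), (6, 1)]⟩,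
⟨1, [⟨130, 2, []⟩, ⟨8, 2, []⟩], [3, 3, 3], 1, [(10, 1), (136, 1)]⟩,
⟨2, [⟨20, 2, []⟩, ⟨64, 4, []⟩], [3, 1, 1], 1, [(68, 1), (80, 1)]⟩,
⟨1, [⟨130, 2, []⟩, ⟨96, 2, []⟩], [3, 3, 3], 1, [(34, 1), (66, 1), (160, 1), (192, 1)]⟩,
⟨2, [⟨0, 0, [(3, 2)]⟩, ⟨64, 4, []⟩], [3, 1, 1], 1, [(67, 1)]⟩,
⟨2, [⟨2, 4, []⟩, ⟨4, 4, []⟩, ⟨128, 4, []⟩], [7], 1, [(134, 1)]⟩,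
⟨2, [⟨36, 5, []⟩, ⟨16, 3, []⟩, ⟨128, 5, []⟩], [2, 2], 1, [(148, 1), (176, 1)]⟩,
⟨1, [⟨28, 2, []⟩, ⟨130, 2, []⟩], [3, 3, 3], 1, [(6, 1), (10, 1), (18, 1), (132, 1), (136, 1), (144, 1)]⟩,
⟨2, [⟨0, 0, [(24, 2)]⟩, ⟨64, 4, []⟩], [3, 1, 1], 1, [(88, 1)]⟩,
⟨2, [⟨12, 3, []⟩, ⟨64, 3, []⟩], [3, 3], 1, [(68, 1), (72, 1)]⟩,
⟨2, [⟨32, 4, []⟩, ⟨2, 4, []⟩, ⟨68, 4, []⟩], [7], 1, [(38, 1), (98, 1)]⟩,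
⟨1, [⟨64, 2, []⟩, ⟨128, 4, []⟩], [3, 1, 1], 1, [(192, 1)]⟩,
⟨2, [⟨8, 2, []⟩, ⟨32, 2, []⟩, ⟨1, 3, []⟩, ⟨4, 3, []⟩, ⟨64, 5, []⟩], [3, 3, 3, 12, 12], 2, [(69, 1), (104, 1), (109, 2)]⟩,
⟨1, [⟨44, 2, []⟩, ⟨66, 2, []⟩], [3, 3, 3], 1, [(6, 1), (10, 1), (34, 1), (68, 1), (72, 1), (96, 1)]⟩,
⟨2, [⟨20, 5, []⟩, ⟨2, 3, []⟩, ⟨64, 5, []⟩], [2, 2], 1, [(70, 1), (82, 1)]⟩,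
⟨2, [⟨32, 3, []⟩, ⟨132, 3, []⟩], [3, 3], 1, [(36, 1), (160, 1)]⟩,
⟨2, [⟨2, 2, []⟩, ⟨4, 2, []⟩, ⟨8, 3, []⟩, ⟨32, 3, []⟩, ⟨128, 3, []⟩], [3, 3, 3, 28, 28], 2, [(6, 1), (168, 1), (174, 2)]⟩,
⟨0, [⟨3, 2, []⟩, ⟨80, 2, []⟩], [3, 3, 3], 1, [(17, 1), (18, 1), (65, 1), (66, 1)]⟩,
⟨2, [⟨65, 2, []⟩, ⟨2, 3, []⟩, ⟨8, 3, []⟩, ⟨32, 3, []⟩, ⟨128, 4, []⟩], [3, 3, 17, 12, 12], 2, [(42, 1), (131, 1), (168, 1), (171, 2), (194, 1), (234, 2)]⟩,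
⟨0, [⟨33, 2, []⟩, ⟨64, 2, []⟩], [3, 3, 3], 1, [(65, 1), (96, 1)]⟩,
⟨2, [⟨40, 2, []⟩, ⟨144, 4, []⟩], [3, 1, 1], 1, [(24, 1), (48, 1), (136, 1), (160, 1)]⟩,
⟨2, [⟨66, 2, []⟩, ⟨4, 3, []⟩, ⟨16, 3, []⟩, ⟨32, 3, []⟩, ⟨128, 4, []⟩], [3, 3, 17, 12, 12], 2, [(52, 1), (134, 1), (176, 1), (182, 2), (196, 1), (244, 2)]⟩,
⟨0, [⟨12, 2, []⟩, ⟨64, 2, []⟩], [3, 3, 3], 1, [(68, 1), (72, 1)]⟩,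
⟨2, [⟨129, 2, []⟩, ⟨2, 3, []⟩, ⟨8, 3, []⟩, ⟨16, 3, []⟩, ⟨64, 4, []⟩], [3, 3, 17, 12, 12], 2, [(26, 1), (67, 1), (88, 1), (91, 2), (194, 1), (218, 2)]⟩,
⟨2, [⟨0, 0, [(34, 2)]⟩, ⟨64, 4, []⟩], [3, 1, 1], 1, [(98, 1)]⟩,
⟨2, [⟨12, 4, []⟩, ⟨64, 4, []⟩, ⟨128, 4, []⟩], [7], 1, [(196, 1), (200, 1)]⟩,
⟨2, [⟨129, 2, []⟩, ⟨4, 3, []⟩, ⟨16, 3, []⟩, ⟨32, 3, []⟩, ⟨64, 4, []⟩], [3, 3, 17, 12, 12], 2, [(52, 1), (69, 1), (112, 1), (117, 2), (196, 1), (244, 2)]⟩,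
⟨0, [⟨3, 2, []⟩, ⟨24, 2, []⟩], [3, 3, 3], 1, [(9, 1), (10, 1), (17, 1), (18, 1)]⟩,
⟨2, [⟨2, 4, []⟩, ⟨32, 2, []⟩], [3, 2, 2], 1, [(34, 1)]⟩,
⟨2, [⟨20, 4, []⟩, ⟨33, 4, []⟩, ⟨2, 4, []⟩], [7], 1, [(7, 1), (19, 1), (38, 1), (50, 1)]⟩,
⟨2, [⟨12, 4, []⟩, ⟨16, 4, []⟩, ⟨64, 4, []⟩], [7], 1, [(84, 1), (88, 1)]⟩,
⟨2, [⟨40, 4, []⟩, ⟨80, 4, []⟩, ⟨128, 4, []⟩], [7], 1, [(152, 1), (176, 1), (200, 1), (224, 1)]⟩,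
⟨1, [⟨33, 2, []⟩, ⟨130, 2, []⟩], [3, 3, 3], 1, [(3, 1), (34, 1), (129, 1), (160, 1)]⟩,
⟨0, [⟨48, 2, []⟩, ⟨132, 2, []⟩], [3, 3, 3], 1, [(20, 1), (36, 1), (144, 1), (160, 1)]⟩,
⟨2, [⟨20, 2, []⟩, ⟨128, 4, []⟩], [3, 1, 1], 1, [(132, 1), (144, 1)]⟩,
⟨2, [⟨6, 3, []⟩, ⟨1, 3, []⟩], [3, 3], 1, [(3, 1), (5, 1)]⟩,
⟨2, [⟨80, 4, []⟩, ⟨4, 4, []⟩, ⟨129, 4, []⟩], [7], 1, [(21, 1), (69, 1), (148, 1), (196, 1)]⟩,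
⟨2, [⟨48, 2, []⟩, ⟨192, 4, []⟩], [3, 1, 1], 1, [(80, 1), (96, 1), (144, 1), (160, 1)]⟩,
⟨1, [⟨12, 2, []⟩, ⟨32, 2, []⟩], [3, 3, 3], 1, [(36, 1), (40, 1)]⟩,
⟨2, [⟨36, 4, []⟩, ⟨144, 4, []⟩, ⟨64, 4, []⟩], [7], 1, [(84, 1), (112, 1), (196, 1), (224, 1)]⟩,
⟨0, [⟨1, 2, []⟩, ⟨132, 2, []⟩], [3, 3, 3], 1, [(5, 1), (129, 1)]⟩,
⟨2, [⟨1, 2, []⟩, ⟨4, 2, []⟩, ⟨32, 3, []⟩, ⟨16, 4, []⟩, ⟨128, 4, []⟩], [3, 3, 3, 12, 20], 2, [(21, 1), (133, 1), (176, 1), (181, 2)]⟩,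
⟨2, [⟨32, 4, []⟩, ⟨4, 4, []⟩, ⟨130, 4, []⟩], [7], 1, [(38, 1), (164, 1)]⟩,
⟨2, [⟨6, 2, []⟩, ⟨65, 4, []⟩], [3, 1, 1], 1, [(3, 1), (5, 1), (66, 1), (68, 1)]⟩,
⟨2, [⟨20, 4, []⟩, ⟨2, 4, []⟩, ⟨128, 4, []⟩], [7], 1, [(134, 1), (146, 1)]⟩,
⟨2, [⟨130, 5, []⟩, ⟨16, 3, []⟩, ⟨40, 5, []⟩], [2, 2], 1, [(26, 1), (50, 1), (152, 1), (176, 1)]⟩,
⟨2, [⟨1, 2, []⟩, ⟨4, 2, []⟩, ⟨8, 3, []⟩, ⟨16, 3, []⟩, ⟨128, 5, []⟩], [3, 3, 3, 12, 12], 2, [(133, 1), (152, 1), (157, 2)]⟩,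
⟨2, [⟨0, 0, [(132, 3)]⟩, ⟨34, 3, []⟩], [3, 3], 1, [(134, 1), (164, 1)]⟩,
⟨2, [⟨2, 2, []⟩, ⟨4, 2, []⟩, ⟨16, 3, []⟩, ⟨32, 3, []⟩, ⟨192, 5, []⟩], [3, 3, 3, 12, 12], 2, [(70, 1), (112, 1), (118, 2), (134, 1), (176, 1), (182, 2)]⟩,
⟨2, [⟨0, 0, [(48, 2)]⟩, ⟨10, 4, []⟩], [3, 1, 1], 1, [(50, 1), (56, 1)]⟩,
⟨1, [⟨17, 2, []⟩, ⟨4, 2, []⟩], [3, 3, 3], 1, [(5, 1), (20, 1)]⟩,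
⟨2, [⟨0, 0, [(24, 2)]⟩, ⟨128, 4, []⟩], [3, 1, 1], 1, [(152, 1)]⟩,
⟨2, [⟨0, 0, [(40, 2)]⟩, ⟨128, 4, []⟩], [3, 1, 1], 1, [(168, 1)]⟩,
⟨2, [⟨16, 4, []⟩, ⟨64, 2, []⟩], [3, 2, 2], 1, [(80, 1)]⟩,
⟨1, [⟨3, 2, []⟩, ⟨80, 2, []⟩], [3, 3, 3], 1, [(17, 1), (18, 1), (65, 1), (66, 1)]⟩,
⟨2, [⟨4, 3, []⟩, ⟨160, 3, []⟩], [3, 3], 1, [(36, 1), (132, 1)]⟩,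
⟨2, [⟨0, 0, [(24, 2)]⟩, ⟨36, 4, []⟩], [3, 1, 1], 1, [(28, 1), (56, 1)]⟩,
⟨1, [⟨10, 2, []⟩, ⟨48, 2, []⟩], [3, 3, 3], 1, [(18, 1), (24, 1), (34, 1), (40, 1)]⟩,
⟨2, [⟨18, 4, []⟩, ⟨40, 4, []⟩, ⟨128, 4, []⟩], [7], 1, [(138, 1), (152, 1), (162, 1), (176, 1)]⟩,
⟨1, [⟨2, 2, []⟩, ⟨64, 4, []⟩], [3, 1, 1], 1, [(66, 1)]⟩,
⟨0, [⟨96, 2, []⟩, ⟨128, 2, []⟩], [3, 3, 3], 1, [(160, 1), (192, 1)]⟩,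
⟨2, [⟨20, 5, []⟩, ⟨32, 3, []⟩, ⟨128, 5, []⟩], [2, 2], 1, [(164, 1), (176, 1)]⟩,
⟨2, [⟨34, 5, []⟩, ⟨16, 3, []⟩, ⟨64, 5, []⟩], [2, 2], 1, [(82, 1), (112, 1)]⟩,
⟨2, [⟨8, 2, []⟩, ⟨32, 2, []⟩, ⟨2, 3, []⟩, ⟨4, 3, []⟩, ⟨64, 5, []⟩], [3, 3, 3, 12, 12], 2, [(70, 1), (104, 1), (110, 2)]⟩,
⟨2, [⟨2, 2, []⟩, ⟨8, 3, []⟩, ⟨32, 3, []⟩, ⟨64, 3, []⟩, ⟨128, 4, []⟩], [9, 9, 17, 6, 6], 2, [(104, 1), (168, 1), (194, 1), (234, 2)]⟩,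
⟨1, [⟨34, 2, []⟩, ⟨144, 2, []⟩], [3, 3, 3], 1, [(18, 1), (48, 1), (130, 1), (160, 1)]⟩,
⟨2, [⟨32, 2, []⟩, ⟨2, 3, []⟩, ⟨4, 3, []⟩, ⟨128, 3, []⟩, ⟨64, 4, []⟩], [9, 9, 17, 6, 6], 2, [(70, 1), (134, 1), (224, 1), (230, 2)]⟩,
⟨1, [⟨17, 2, []⟩, ⟨64, 2, []⟩], [3, 3, 3], 1, [(65, 1), (80, 1)]⟩,
⟨2, [⟨8, 4, []⟩, ⟨32, 4, []⟩, ⟨64, 4, []⟩], [7], 1, [(104, 1)]⟩,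
⟨2, [⟨2, 3, []⟩, ⟨17, 3, []⟩], [3, 3], 1, [(3, 1), (18, 1)]⟩,
⟨2, [⟨1, 2, []⟩, ⟨2, 2, []⟩, ⟨16, 3, []⟩, ⟨32, 3, []⟩, ⟨64, 3, []⟩], [3, 3, 3, 28, 28], 2, [(3, 1), (112, 1), (115, 2)]⟩,
⟨2, [⟨34, 4, []⟩, ⟨144, 4, []⟩, ⟨64, 4, []⟩], [7], 1, [(82, 1), (112, 1), (194, 1), (224, 1)]⟩,
⟨2, [⟨36, 5, []⟩, ⟨2, 3, []⟩, ⟨64, 5, []⟩], [2, 2], 1, [(70, 1), (98, 1)]⟩,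
⟨2, [⟨8, 2, []⟩, ⟨16, 2, []⟩, ⟨1, 3, []⟩, ⟨2, 3, []⟩, ⟨128, 3, []⟩], [3, 3, 3, 28, 28], 2, [(24, 1), (131, 1), (155, 2)]⟩,
⟨2, [⟨33, 4, []⟩, ⟨10, 4, []⟩, ⟨16, 4, []⟩], [7], 1, [(19, 1), (25, 1), (50, 1), (56, 1)]⟩,
⟨2, [⟨20, 3, []⟩, ⟨64, 3, []⟩], [3, 3], 1, [(68, 1), (80, 1)]⟩,
⟨2, [⟨48, 2, []⟩, ⟨128, 4, []⟩], [3, 1, 1], 1, [(144, 1), (160, 1)]⟩,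
⟨2, [⟨130, 4, []⟩, ⟨32, 4, []⟩, ⟨72, 4, []⟩], [7], 1, [(42, 1), (98, 1), (168, 1), (224, 1)]⟩,
⟨2, [⟨1, 2, []⟩, ⟨2, 2, []⟩, ⟨8, 3, []⟩, ⟨32, 3, []⟩, ⟨128, 3, []⟩], [3, 3, 3, 28, 28], 2, [(3, 1), (168, 1), (171, 2)]⟩,
⟨1, [⟨66, 2, []⟩, ⟨136, 2, []⟩], [3, 3, 3], 1, [(10, 1), (72, 1), (130, 1), (192, 1)]⟩,
⟨1, [⟨10, 2, []⟩, ⟨64, 4, []⟩], [3, 1, 1], 1, [(66, 1), (72, 1)]⟩,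
⟨2, [⟨18, 4, []⟩, ⟨96, 4, []⟩, ⟨128, 4, []⟩], [7], 1, [(162, 1), (176, 1), (194, 1), (208, 1)]⟩,
⟨2, [⟨16, 2, []⟩, ⟨1, 3, []⟩, ⟨2, 3, []⟩, ⟨128, 3, []⟩, ⟨64, 4, []⟩], [9, 9, 17, 6, 6], 2, [(67, 1), (131, 1), (208, 1), (211, 2)]⟩,
⟨2, [⟨40, 4, []⟩, ⟨144, 2, []⟩], [3, 2, 2], 1, [(24, 1), (48, 1), (136, 1), (160, 1)]⟩,
⟨0, [⟨33, 2, []⟩, ⟨128, 2, []⟩], [3, 3, 3], 1, [(129, 1), (160, 1)]⟩,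
⟨2, [⟨10, 4, []⟩, ⟨48, 4, []⟩, ⟨64, 4, []⟩], [7], 1, [(82, 1), (88, 1), (98, 1), (104, 1)]⟩,
⟨0, [⟨33, 2, []⟩, ⟨192, 2, []⟩], [3, 3, 3], 1, [(65, 1), (96, 1), (129, 1), (160, 1)]⟩,
⟨1, [⟨17, 2, []⟩, ⟨96, 2, []⟩], [3, 3, 3], 1, [(33, 1), (48, 1), (65, 1), (80, 1)]⟩,
⟨2, [⟨16, 4, []⟩, ⟨3, 4, []⟩, ⟨128, 4, []⟩], [7], 1, [(145, 1), (146, 1)]⟩,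
⟨1, [⟨48, 2, []⟩, ⟨129, 2, []⟩], [3, 3, 3], 1, [(17, 1), (33, 1), (144, 1), (160, 1)]⟩,
⟨1, [⟨36, 2, []⟩, ⟨88, 2, []⟩], [3, 3, 3], 1, [(12, 1), (20, 1), (40, 1), (48, 1), (68, 1), (96, 1)]⟩,
⟨2, [⟨34, 4, []⟩, ⟨16, 4, []⟩, ⟨64, 4, []⟩], [7], 1, [(82, 1), (112, 1)]⟩,
⟨2, [⟨2, 3, []⟩, ⟨144, 3, []⟩], [3, 3], 1, [(18, 1), (130, 1)]⟩,
⟨1, [⟨65, 2, []⟩, ⟨32, 2, []⟩], [3, 3, 3], 1, [(33, 1), (96, 1)]⟩,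
⟨1, [⟨34, 2, []⟩, ⟨16, 2, []⟩], [3, 3, 3], 1, [(18, 1), (48, 1)]⟩,
⟨2, [⟨12, 3, []⟩, ⟨128, 3, []⟩], [3, 3], 1, [(132, 1), (136, 1)]⟩,
⟨1, [⟨2, 3, []⟩, ⟨4, 3, []⟩], [3, 3], 1, [(6, 1)]⟩,
⟨2, [⟨32, 4, []⟩, ⟨128, 2, []⟩], [3, 2, 2], 1, [(160, 1)]⟩,
⟨0, [⟨144, 2, []⟩, ⟨4, 2, []⟩], [3, 3, 3], 1, [(20, 1), (132, 1)]⟩,
⟨0, [⟨18, 2, []⟩, ⟨128, 2, []⟩], [3, 3, 3], 1, [(130, 1), (144, 1)]⟩,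
⟨1, [⟨68, 2, []⟩, ⟨144, 2, []⟩], [3, 3, 3], 1, [(20, 1), (80, 1), (132, 1), (192, 1)]⟩,
⟨2, [⟨66, 4, []⟩, ⟨8, 4, []⟩, ⟨144, 4, []⟩], [7], 1, [(26, 1), (88, 1), (138, 1), (200, 1)]⟩,
⟨1, [⟨160, 2, []⟩, ⟨4, 2, []⟩], [3, 3, 3], 1, [(36, 1), (132, 1)]⟩,
⟨2, [⟨36, 5, []⟩, ⟨16, 3, []⟩, ⟨66, 5, []⟩], [2, 2], 1, [(22, 1), (50, 1), (84, 1), (112, 1)]⟩,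
⟨0, [⟨9, 2, []⟩, ⟨192, 2, []⟩], [3, 3, 3], 1, [(65, 1), (72, 1), (129, 1), (136, 1)]⟩,
⟨2, [⟨66, 5, []⟩, ⟨32, 3, []⟩, ⟨24, 5, []⟩], [2, 2], 1, [(42, 1), (50, 1), (104, 1), (112, 1)]⟩,
⟨1, [⟨136, 2, []⟩, ⟨2, 2, []⟩], [3, 3, 3], 1, [(10, 1), (130, 1)]⟩,
⟨1, [⟨2, 2, []⟩, ⟨132, 2, []⟩], [3, 3, 3], 1, [(6, 1), (130, 1)]⟩,
⟨0, [⟨17, 2, []⟩, ⟨136, 2, []⟩], [3, 3, 3], 1, [(9, 1), (24, 1), (129, 1), (144, 1)]⟩,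
⟨2, [⟨132, 3, []⟩, ⟨64, 3, []⟩], [3, 3], 1, [(68, 1), (192, 1)]⟩,
⟨2, [⟨80, 3, []⟩, ⟨128, 3, []⟩], [3, 3], 1, [(144, 1), (192, 1)]⟩,
⟨2, [⟨48, 2, []⟩, ⟨64, 4, []⟩], [3, 1, 1], 1, [(80, 1), (96, 1)]⟩,
⟨1, [⟨24, 2, []⟩, ⟨128, 4, []⟩], [3, 1, 1], 1, [(136, 1), (144, 1)]⟩,
⟨2, [⟨17, 3, []⟩, ⟨64, 3, []⟩], [3, 3], 1, [(65, 1), (80, 1)]⟩,
⟨2, [⟨16, 3, []⟩, ⟨34, 3, []⟩], [3, 3], 1, [(18, 1), (48, 1)]⟩,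
⟨2, [⟨10, 2, []⟩, ⟨64, 4, []⟩], [3, 1, 1], 1, [(66, 1), (72, 1)]⟩,
⟨2, [⟨32, 4, []⟩, ⟨4, 4, []⟩, ⟨66, 4, []⟩], [7], 1, [(38, 1), (100, 1)]⟩,
⟨1, [⟨38, 2, []⟩, ⟨144, 2, []⟩], [3, 3, 3], 1, [(18, 1), (20, 1), (48, 1), (130, 1), (132, 1), (160, 1)]⟩,
⟨1, [⟨65, 2, []⟩, ⟨128, 2, []⟩], [3, 3, 3], 1, [(129, 1), (192, 1)]⟩,
⟨1, [⟨68, 2, []⟩, ⟨8, 2, []⟩], [3, 3, 3], 1, [(12, 1), (72, 1)]⟩,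
⟨2, [⟨1, 2, []⟩, ⟨2, 2, []⟩, ⟨8, 3, []⟩, ⟨16, 3, []⟩, ⟨128, 5, []⟩], [3, 3, 3, 12, 12], 2, [(131, 1), (152, 1), (155, 2)]⟩,
⟨2, [⟨16, 3, []⟩, ⟨0, 0, [(6, 3)]⟩], [3, 3], 1, [(22, 1)]⟩,
⟨2, [⟨1, 3, []⟩, ⟨2, 3, []⟩], [3, 3], 1, [(3, 1)]⟩,
⟨1, [⟨6, 2, []⟩, ⟨160, 2, []⟩], [3, 3, 3], 1, [(34, 1), (36, 1), (130, 1), (132, 1)]⟩,
⟨2, [⟨0, 0, [(5, 2)]⟩, ⟨128, 4, []⟩], [3, 1, 1], 1, [(133, 1)]⟩,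
⟨0, [⟨80, 2, []⟩, ⟨1, 2, []⟩], [3, 3, 3], 1, [(17, 1), (65, 1)]⟩,
⟨2, [⟨10, 4, []⟩, ⟨33, 4, []⟩, ⟨4, 4, []⟩], [7], 1, [(7, 1), (13, 1), (38, 1), (44, 1)]⟩,
⟨2, [⟨10, 5, []⟩, ⟨32, 3, []⟩, ⟨64, 5, []⟩], [2, 2], 1, [(98, 1), (104, 1)]⟩,
⟨2, [⟨16, 4, []⟩, ⟨4, 4, []⟩, ⟨66, 4, []⟩], [7], 1, [(22, 1), (84, 1)]⟩,
⟨1, [⟨129, 2, []⟩, ⟨96, 2, []⟩], [3, 3, 3], 1, [(33, 1), (65, 1), (160, 1), (192, 1)]⟩,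
⟨1, [⟨5, 2, []⟩, ⟨144, 2, []⟩], [3, 3, 3], 1, [(17, 1), (20, 1), (129, 1), (132, 1)]⟩,
⟨0, [⟨10, 2, []⟩, ⟨80, 2, []⟩], [3, 3, 3], 1, [(18, 1), (24, 1), (66, 1), (72, 1)]⟩,
⟨2, [⟨32, 4, []⟩, ⟨5, 4, []⟩, ⟨128, 4, []⟩], [7], 1, [(161, 1), (164, 1)]⟩,
⟨1, [⟨5, 2, []⟩, ⟨66, 2, []⟩], [3, 3, 3], 1, [(3, 1), (6, 1), (65, 1), (68, 1)]⟩,
⟨2, [⟨20, 5, []⟩, ⟨2, 3, []⟩, ⟨128, 5, []⟩], [2, 2], 1, [(134, 1), (146, 1)]⟩,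
⟨0, [⟨48, 2, []⟩, ⟨68, 2, []⟩], [3, 3, 3], 1, [(20, 1), (36, 1), (80, 1), (96, 1)]⟩,
⟨1, [⟨40, 2, []⟩, ⟨192, 2, []⟩], [3, 3, 3], 1, [(72, 1), (96, 1), (136, 1), (160, 1)]⟩,
⟨2, [⟨10, 4, []⟩, ⟨16, 2, []⟩], [3, 2, 2], 1, [(18, 1), (24, 1)]⟩,
⟨0, [⟨32, 2, []⟩, ⟨136, 2, []⟩], [3, 3, 3], 1, [(40, 1), (160, 1)]⟩,
⟨1, [⟨25, 2, []⟩, ⟨130, 2, []⟩], [3, 3, 3], 1, [(3, 1), (10, 1), (18, 1), (129, 1), (136, 1), (144, 1)]⟩,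
⟨0, [⟨1, 3, []⟩, ⟨2, 3, []⟩], [3, 3], 1, [(3, 1)]⟩,
⟨2, [⟨36, 5, []⟩, ⟨2, 3, []⟩, ⟨128, 5, []⟩], [2, 2], 1, [(134, 1), (162, 1)]⟩,
⟨1, [⟨3, 2, []⟩, ⟨160, 2, []⟩], [3, 3, 3], 1, [(33, 1), (34, 1), (129, 1), (130, 1)]⟩,
⟨0, [⟨18, 2, []⟩, ⟨96, 2, []⟩], [3, 3, 3], 1, [(34, 1), (48, 1), (66, 1), (80, 1)]⟩,
⟨2, [⟨0, 0, [(18, 2)]⟩, ⟨128, 4, []⟩], [3, 1, 1], 1, [(146, 1)]⟩,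
⟨2, [⟨0, 0, [(40, 2)]⟩, ⟨64, 4, []⟩], [3, 1, 1], 1, [(104, 1)]⟩,
⟨1, [⟨2, 2, []⟩, ⟨4, 4, []⟩], [3, 1, 1], 1, [(6, 1)]⟩,
⟨2, [⟨4, 3, []⟩, ⟨33, 3, []⟩], [3, 3], 1, [(5, 1), (36, 1)]⟩,
⟨2, [⟨20, 4, []⟩, ⟨64, 4, []⟩, ⟨128, 4, []⟩], [7], 1, [(196, 1), (208, 1)]⟩,
⟨0, [⟨8, 2, []⟩, ⟨80, 2, []⟩], [3, 3, 3], 1, [(24, 1), (72, 1)]⟩,
⟨2, [⟨136, 4, []⟩, ⟨4, 4, []⟩, ⟨65, 4, []⟩], [7], 1, [(13, 1), (76, 1), (133, 1), (196, 1)]⟩,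
⟨2, [⟨18, 5, []⟩, ⟨32, 3, []⟩, ⟨128, 5, []⟩], [2, 2], 1, [(162, 1), (176, 1)]⟩,
⟨0, [⟨33, 2, []⟩, ⟨8, 2, []⟩], [3, 3, 3], 1, [(9, 1), (40, 1)]⟩,
⟨0, [⟨96, 2, []⟩, ⟨1, 2, []⟩], [3, 3, 3], 1, [(33, 1), (65, 1)]⟩,
⟨2, [⟨3, 2, []⟩, ⟨192, 4, []⟩], [3, 1, 1], 1, [(65, 1), (66, 1), (129, 1), (130, 1)]⟩,
⟨1, [⟨64, 2, []⟩, ⟨128, 2, []⟩], [3, 3, 3], 1, [(192, 1)]⟩,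
⟨2, [⟨40, 4, []⟩, ⟨16, 2, []⟩], [3, 2, 2], 1, [(24, 1), (48, 1)]⟩,
⟨2, [⟨20, 4, []⟩, ⟨3, 4, []⟩, ⟨64, 4, []⟩], [7], 1, [(69, 1), (70, 1), (81, 1), (82, 1)]⟩,
⟨2, [⟨8, 2, []⟩, ⟨32, 2, []⟩, ⟨1, 3, []⟩, ⟨4, 3, []⟩, ⟨64, 3, []⟩], [3, 3, 3, 28, 28], 2, [(40, 1), (69, 1), (109, 2)]⟩,
⟨2, [⟨0, 0, [(24, 2)]⟩, ⟨34, 4, []⟩], [3, 1, 1], 1, [(26, 1), (56, 1)]⟩,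
⟨0, [⟨11, 2, []⟩, ⟨96, 2, []⟩], [3, 3, 3], 1, [(33, 1), (34, 1), (40, 1), (65, 1), (66, 1), (72, 1)]⟩,
⟨2, [⟨68, 4, []⟩, ⟨32, 4, []⟩, ⟨136, 4, []⟩], [7], 1, [(44, 1), (104, 1), (164, 1), (224, 1)]⟩,
⟨2, [⟨18, 4, []⟩, ⟨36, 4, []⟩, ⟨64, 4, []⟩], [7], 1, [(70, 1), (84, 1), (98, 1), (112, 1)]⟩,
⟨1, [⟨132, 2, []⟩, ⟨72, 2, []⟩], [3, 3, 3], 1, [(12, 1), (68, 1), (136, 1), (192, 1)]⟩,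
⟨0, [⟨24, 2, []⟩, ⟨128, 4, []⟩], [3, 1, 1], 1, [(136, 1), (144, 1)]⟩,
⟨1, [⟨18, 2, []⟩, ⟨192, 2, []⟩], [3, 3, 3], 1, [(66, 1), (80, 1), (130, 1), (144, 1)]⟩,
⟨2, [⟨33, 4, []⟩, ⟨24, 4, []⟩, ⟨64, 4, []⟩], [7], 1, [(73, 1), (81, 1), (104, 1), (112, 1)]⟩,
⟨2, [⟨80, 2, []⟩, ⟨128, 4, []⟩], [3, 1, 1], 1, [(144, 1), (192, 1)]⟩,
⟨2, [⟨4, 4, []⟩, ⟨129, 4, []⟩, ⟨64, 4, []⟩], [7], 1, [(69, 1), (196, 1)]⟩,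
⟨2, [⟨8, 4, []⟩, ⟨2, 2, []⟩], [3, 2, 2], 1, [(10, 1)]⟩,
⟨2, [⟨17, 4, []⟩, ⟨8, 4, []⟩, ⟨64, 4, []⟩], [7], 1, [(73, 1), (88, 1)]⟩,
⟨1, [⟨36, 2, []⟩, ⟨72, 2, []⟩], [3, 3, 3], 1, [(12, 1), (40, 1), (68, 1), (96, 1)]⟩,
⟨2, [⟨130, 5, []⟩, ⟨8, 3, []⟩, ⟨48, 5, []⟩], [2, 2], 1, [(26, 1), (42, 1), (152, 1), (168, 1)]⟩,
⟨1, [⟨44, 2, []⟩, ⟨130, 2, []⟩], [3, 3, 3], 1, [(6, 1), (10, 1), (34, 1), (132, 1), (136, 1), (160, 1)]⟩,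
⟨1, [⟨24, 2, []⟩, ⟨68, 2, []⟩], [3, 3, 3], 1, [(12, 1), (20, 1), (72, 1), (80, 1)]⟩,
⟨2, [⟨24, 3, []⟩, ⟨32, 3, []⟩], [3, 3], 1, [(40, 1), (48, 1)]⟩,
⟨1, [⟨144, 2, []⟩, ⟨1, 2, []⟩], [3, 3, 3], 1, [(17, 1), (129, 1)]⟩,
⟨2, [⟨8, 2, []⟩, ⟨16, 2, []⟩, ⟨2, 3, []⟩, ⟨4, 3, []⟩, ⟨128, 3, []⟩], [3, 3, 3, 28, 28], 2, [(24, 1), (134, 1), (158, 2)]⟩,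
⟨2, [⟨16, 2, []⟩, ⟨64, 4, []⟩], [3, 1, 1], 1, [(80, 1)]⟩,
⟨1, [⟨35, 2, []⟩, ⟨144, 2, []⟩], [3, 3, 3], 1, [(17, 1), (18, 1), (48, 1), (129, 1), (130, 1), (160, 1)]⟩,
⟨0, [⟨96, 2, []⟩, ⟨4, 2, []⟩], [3, 3, 3], 1, [(36, 1), (68, 1)]⟩,
⟨0, [⟨40, 2, []⟩, ⟨192, 2, []⟩], [3, 3, 3], 1, [(72, 1), (96, 1), (136, 1), (160, 1)]⟩,
⟨1, [⟨20, 2, []⟩, ⟨130, 2, []⟩], [3, 3, 3], 1, [(6, 1), (18, 1), (132, 1), (144, 1)]⟩,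
⟨1, [⟨33, 2, []⟩, ⟨4, 2, []⟩], [3, 3, 3], 1, [(5, 1), (36, 1)]⟩,
⟨1, [⟨3, 2, []⟩, ⟨128, 4, []⟩], [3, 1, 1], 1, [(129, 1), (130, 1)]⟩,
⟨2, [⟨24, 4, []⟩, ⟨2, 2, []⟩], [3, 2, 2], 1, [(10, 1), (18, 1)]⟩,
⟨2, [⟨32, 4, []⟩, ⟨4, 2, []⟩], [3, 2, 2], 1, [(36, 1)]⟩,
⟨2, [⟨8, 2, []⟩, ⟨32, 2, []⟩, ⟨1, 3, []⟩, ⟨2, 3, []⟩, ⟨128, 3, []⟩], [3, 3, 3, 28, 28], 2, [(40, 1), (131, 1), (171, 2)]⟩,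
⟨2, [⟨129, 2, []⟩, ⟨2, 3, []⟩, ⟨8, 3, []⟩, ⟨32, 3, []⟩, ⟨64, 4, []⟩], [3, 3, 17, 12, 12], 2, [(42, 1), (67, 1), (104, 1), (107, 2), (194, 1), (234, 2)]⟩,
⟨2, [⟨2, 3, []⟩, ⟨32, 3, []⟩], [3, 3], 1, [(34, 1)]⟩,
⟨0, [⟨6, 2, []⟩, ⟨192, 2, []⟩], [3, 3, 3], 1, [(66, 1), (68, 1), (130, 1), (132, 1)]⟩,
⟨1, [⟨36, 2, []⟩, ⟨192, 2, []⟩], [3, 3, 3], 1, [(68, 1), (96, 1), (132, 1), (160, 1)]⟩,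
⟨2, [⟨2, 2, []⟩, ⟨128, 4, []⟩], [3, 1, 1], 1, [(130, 1)]⟩,
⟨2, [⟨130, 3, []⟩, ⟨64, 3, []⟩], [3, 3], 1, [(66, 1), (192, 1)]⟩,
⟨2, [⟨136, 2, []⟩, ⟨16, 4, []⟩], [3, 1, 1], 1, [(24, 1), (144, 1)]⟩,
⟨0, [⟨129, 2, []⟩, ⟨64, 4, []⟩], [3, 1, 1], 1, [(65, 1), (192, 1)]⟩,
⟨2, [⟨8, 2, []⟩, ⟨16, 2, []⟩, ⟨2, 3, []⟩, ⟨4, 3, []⟩, ⟨128, 5, []⟩], [3, 3, 3, 12, 12], 2, [(134, 1), (152, 1), (158, 2)]⟩,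
⟨2, [⟨4, 4, []⟩, ⟨40, 4, []⟩, ⟨64, 4, []⟩], [7], 1, [(76, 1), (100, 1)]⟩,
⟨2, [⟨16, 3, []⟩, ⟨65, 3, []⟩], [3, 3], 1, [(17, 1), (80, 1)]⟩,
⟨0, [⟨2, 2, []⟩, ⟨132, 2, []⟩], [3, 3, 3], 1, [(6, 1), (130, 1)]⟩,
⟨2, [⟨9, 4, []⟩, ⟨36, 4, []⟩, ⟨64, 4, []⟩], [7], 1, [(69, 1), (76, 1), (97, 1), (104, 1)]⟩,
⟨2, [⟨80, 4, []⟩, ⟨2, 4, []⟩, ⟨129, 4, []⟩], [7], 1, [(19, 1), (67, 1), (146, 1), (194, 1)]⟩,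
⟨1, [⟨40, 2, []⟩, ⟨80, 2, []⟩], [3, 3, 3], 1, [(24, 1), (48, 1), (72, 1), (96, 1)]⟩,
⟨2, [⟨6, 4, []⟩, ⟨8, 2, []⟩], [3, 2, 2], 1, [(10, 1), (12, 1)]⟩,
⟨1, [⟨2, 2, []⟩, ⟨129, 2, []⟩], [3, 3, 3], 1, [(3, 1), (130, 1)]⟩,
⟨1, [⟨52, 2, []⟩, ⟨130, 2, []⟩], [3, 3, 3], 1, [(6, 1), (18, 1), (34, 1), (132, 1), (144, 1), (160, 1)]⟩,
⟨2, [⟨144, 3, []⟩, ⟨64, 3, []⟩], [3, 3], 1, [(80, 1), (192, 1)]⟩,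
⟨1, [⟨6, 2, []⟩, ⟨65, 2, []⟩], [3, 3, 3], 1, [(3, 1), (5, 1), (66, 1), (68, 1)]⟩,
⟨2, [⟨34, 4, []⟩, ⟨16, 2, []⟩], [3, 2, 2], 1, [(18, 1), (48, 1)]⟩,
⟨1, [⟨10, 2, []⟩, ⟨4, 2, []⟩], [3, 3, 3], 1, [(6, 1), (12, 1)]⟩,
⟨2, [⟨0, 0, [(17, 2)]⟩, ⟨66, 4, []⟩], [3, 1, 1], 1, [(19, 1), (81, 1)]⟩,
⟨1, [⟨22, 2, []⟩, ⟨72, 2, []⟩], [3, 3, 3], 1, [(10, 1), (12, 1), (24, 1), (66, 1), (68, 1), (80, 1)]⟩,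
⟨1, [⟨132, 2, []⟩, ⟨64, 2, []⟩], [3, 3, 3], 1, [(68, 1), (192, 1)]⟩,
⟨2, [⟨16, 2, []⟩, ⟨32, 2, []⟩, ⟨1, 3, []⟩, ⟨4, 3, []⟩, ⟨64, 5, []⟩], [3, 3, 3, 12, 12], 2, [(69, 1), (112, 1), (117, 2)]⟩,
⟨2, [⟨6, 4, []⟩, ⟨48, 4, []⟩, ⟨128, 4, []⟩], [7], 1, [(146, 1), (148, 1), (162, 1), (164, 1)]⟩,
⟨2, [⟨1, 2, []⟩, ⟨4, 2, []⟩, ⟨8, 3, []⟩, ⟨32, 3, []⟩, ⟨64, 5, []⟩], [3, 3, 3, 12, 12], 2, [(69, 1), (104, 1), (109, 2)]⟩,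
⟨2, [⟨16, 4, []⟩, ⟨5, 4, []⟩, ⟨128, 4, []⟩], [7], 1, [(145, 1), (148, 1)]⟩,
⟨1, [⟨68, 2, []⟩, ⟨160, 2, []⟩], [3, 3, 3], 1, [(36, 1), (96, 1), (132, 1), (192, 1)]⟩,
⟨0, [⟨33, 2, []⟩, ⟨130, 2, []⟩], [3, 3, 3], 1, [(3, 1), (34, 1), (129, 1), (160, 1)]⟩,
⟨2, [⟨32, 2, []⟩, ⟨8, 4, []⟩], [3, 1, 1], 1, [(40, 1)]⟩,
⟨2, [⟨18, 3, []⟩, ⟨128, 3, []⟩], [3, 3], 1, [(130, 1), (144, 1)]⟩,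
⟨1, [⟨130, 2, []⟩, ⟨16, 2, []⟩], [3, 3, 3], 1, [(18, 1), (144, 1)]⟩,
⟨2, [⟨17, 4, []⟩, ⟨4, 4, []⟩, ⟨64, 4, []⟩], [7], 1, [(69, 1), (84, 1)]⟩,
⟨1, [⟨36, 2, []⟩, ⟨80, 2, []⟩], [3, 3, 3], 1, [(20, 1), (48, 1), (68, 1), (96, 1)]⟩,
⟨2, [⟨36, 2, []⟩, ⟨128, 4, []⟩], [3, 1, 1], 1, [(132, 1), (160, 1)]⟩,
⟨2, [⟨33, 2, []⟩, ⟨128, 4, []⟩], [3, 1, 1], 1, [(129, 1), (160, 1)]⟩,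
⟨2, [⟨66, 4, []⟩, ⟨16, 4, []⟩, ⟨160, 4, []⟩], [7], 1, [(50, 1), (112, 1), (146, 1), (208, 1)]⟩,
⟨2, [⟨1, 2, []⟩, ⟨2, 2, []⟩, ⟨8, 3, []⟩, ⟨16, 3, []⟩, ⟨64, 3, []⟩], [3, 3, 3, 28, 28], 2, [(3, 1), (88, 1), (91, 2)]⟩,
⟨2, [⟨2, 3, []⟩, ⟨160, 3, []⟩], [3, 3], 1, [(34, 1), (130, 1)]⟩,
⟨2, [⟨1, 2, []⟩, ⟨4, 2, []⟩, ⟨16, 3, []⟩, ⟨32, 3, []⟩, ⟨64, 5, []⟩], [3, 3, 3, 12, 12], 2, [(69, 1), (112, 1), (117, 2)]⟩,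
⟨0, [⟨66, 2, []⟩, ⟨144, 2, []⟩], [3, 3, 3], 1, [(18, 1), (80, 1), (130, 1), (192, 1)]⟩,
⟨1, [⟨40, 2, []⟩, ⟨144, 2, []⟩], [3, 3, 3], 1, [(24, 1), (48, 1), (136, 1), (160, 1)]⟩,
⟨2, [⟨96, 4, []⟩, ⟨2, 4, []⟩, ⟨132, 4, []⟩], [7], 1, [(38, 1), (70, 1), (162, 1), (194, 1)]⟩,
⟨1, [⟨36, 2, []⟩, ⟨24, 2, []⟩], [3, 3, 3], 1, [(12, 1), (20, 1), (40, 1), (48, 1)]⟩,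
⟨0, [⟨66, 2, []⟩, ⟨128, 2, []⟩], [3, 3, 3], 1, [(130, 1), (192, 1)]⟩,
⟨2, [⟨10, 3, []⟩, ⟨128, 3, []⟩], [3, 3], 1, [(130, 1), (136, 1)]⟩,
⟨2, [⟨8, 3, []⟩, ⟨192, 3, []⟩], [3, 3], 1, [(72, 1), (136, 1)]⟩,
⟨0, [⟨2, 2, []⟩, ⟨128, 4, []⟩], [3, 1, 1], 1, [(130, 1)]⟩,
⟨2, [⟨8, 2, []⟩, ⟨32, 2, []⟩, ⟨2, 3, []⟩, ⟨4, 4, []⟩, ⟨64, 4, []⟩], [3, 3, 3, 12, 20], 2, [(44, 1), (70, 1), (104, 1), (110, 2)]⟩,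
⟨1, [⟨66, 2, []⟩, ⟨8, 2, []⟩], [3, 3, 3], 1, [(10, 1), (72, 1)]⟩,
⟨0, [⟨48, 2, []⟩, ⟨136, 2, []⟩], [3, 3, 3], 1, [(24, 1), (40, 1), (144, 1), (160, 1)]⟩,
⟨2, [⟨4, 3, []⟩, ⟨128, 3, []⟩], [3, 3], 1, [(132, 1)]⟩,
⟨2, [⟨68, 4, []⟩, ⟨8, 4, []⟩, ⟨144, 4, []⟩], [7], 1, [(28, 1), (88, 1), (140, 1), (200, 1)]⟩,
⟨2, [⟨8, 4, []⟩, ⟨16, 4, []⟩, ⟨64, 4, []⟩], [7], 1, [(88, 1)]⟩,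
⟨2, [⟨68, 3, []⟩, ⟨128, 3, []⟩], [3, 3], 1, [(132, 1), (192, 1)]⟩,
⟨0, [⟨33, 2, []⟩, ⟨72, 2, []⟩], [3, 3, 3], 1, [(9, 1), (40, 1), (65, 1), (96, 1)]⟩,
⟨2, [⟨8, 4, []⟩, ⟨4, 4, []⟩, ⟨129, 4, []⟩], [7], 1, [(13, 1), (140, 1)]⟩,
⟨1, [⟨32, 3, []⟩, ⟨128, 3, []⟩], [3, 3], 1, [(160, 1)]⟩,
⟨1, [⟨16, 3, []⟩, ⟨32, 3, []⟩], [3, 3], 1, [(48, 1)]⟩,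
⟨0, [⟨9, 2, []⟩, ⟨64, 2, []⟩], [3, 3, 3], 1, [(65, 1), (72, 1)]⟩,
⟨2, [⟨34, 3, []⟩, ⟨64, 3, []⟩], [3, 3], 1, [(66, 1), (96, 1)]⟩,
⟨0, [⟨12, 2, []⟩, ⟨128, 2, []⟩], [3, 3, 3], 1, [(132, 1), (136, 1)]⟩,
⟨2, [⟨24, 4, []⟩, ⟨32, 2, []⟩], [3, 2, 2], 1, [(40, 1), (48, 1)]⟩,
⟨2, [⟨129, 3, []⟩, ⟨64, 3, []⟩], [3, 3], 1, [(65, 1), (192, 1)]⟩,
⟨2, [⟨16, 4, []⟩, ⟨64, 4, []⟩, ⟨128, 4, []⟩], [7], 1, [(208, 1)]⟩,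
⟨1, [⟨24, 2, []⟩, ⟨160, 2, []⟩], [3, 3, 3], 1, [(40, 1), (48, 1), (136, 1), (144, 1)]⟩,
⟨2, [⟨8, 2, []⟩, ⟨16, 2, []⟩, ⟨2, 3, []⟩, ⟨4, 4, []⟩, ⟨128, 4, []⟩], [3, 3, 3, 12, 20], 2, [(28, 1), (134, 1), (152, 1), (158, 2)]⟩,
⟨2, [⟨36, 4, []⟩, ⟨64, 4, []⟩, ⟨128, 4, []⟩], [7], 1, [(196, 1), (224, 1)]⟩,
⟨2, [⟨3, 4, []⟩, ⟨132, 2, []⟩], [3, 2, 2], 1, [(5, 1), (6, 1), (129, 1), (130, 1)]⟩,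
⟨2, [⟨24, 2, []⟩, ⟨128, 4, []⟩], [3, 1, 1], 1, [(136, 1), (144, 1)]⟩,
⟨2, [⟨3, 3, []⟩, ⟨4, 3, []⟩], [3, 3], 1, [(5, 1), (6, 1)]⟩,
⟨1, [⟨33, 2, []⟩, ⟨16, 2, []⟩], [3, 3, 3], 1, [(17, 1), (48, 1)]⟩,
⟨2, [⟨2, 2, []⟩, ⟨4, 2, []⟩, ⟨16, 3, []⟩, ⟨32, 4, []⟩, ⟨64, 4, []⟩], [3, 3, 3, 12, 20], 2, [(38, 1), (70, 1), (112, 1), (118, 2)]⟩,
⟨0, [⟨9, 2, []⟩, ⟨66, 2, []⟩], [3, 3, 3], 1, [(3, 1), (10, 1), (65, 1), (72, 1)]⟩,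
⟨2, [⟨48, 4, []⟩, ⟨136, 2, []⟩], [3, 2, 2], 1, [(24, 1), (40, 1), (144, 1), (160, 1)]⟩,
⟨2, [⟨130, 4, []⟩, ⟨16, 4, []⟩, ⟨96, 4, []⟩], [7], 1, [(50, 1), (82, 1), (176, 1), (208, 1)]⟩,
⟨1, [⟨4, 2, []⟩, ⟨64, 4, []⟩], [3, 1, 1], 1, [(68, 1)]⟩,
⟨1, [⟨33, 2, []⟩, ⟨2, 2, []⟩], [3, 3, 3], 1, [(3, 1), (34, 1)]⟩,
⟨2, [⟨66, 2, []⟩, ⟨4, 4, []⟩], [3, 1, 1], 1, [(6, 1), (68, 1)]⟩,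
⟨2, [⟨136, 3, []⟩, ⟨64, 3, []⟩], [3, 3], 1, [(72, 1), (192, 1)]⟩,
⟨1, [⟨12, 2, []⟩, ⟨64, 2, []⟩], [3, 3, 3], 1, [(68, 1), (72, 1)]⟩,
⟨1, [⟨6, 2, []⟩, ⟨129, 2, []⟩], [3, 3, 3], 1, [(3, 1), (5, 1), (130, 1), (132, 1)]⟩,
⟨2, [⟨48, 4, []⟩, ⟨4, 2, []⟩], [3, 2, 2], 1, [(20, 1), (36, 1)]⟩,
⟨2, [⟨40, 2, []⟩, ⟨80, 4, []⟩], [3, 1, 1], 1, [(24, 1), (48, 1), (72, 1), (96, 1)]⟩,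
⟨2, [⟨0, 0, [(36, 2)]⟩, ⟨144, 4, []⟩], [3, 1, 1], 1, [(52, 1), (164, 1)]⟩,
⟨2, [⟨10, 4, []⟩, ⟨4, 2, []⟩], [3, 2, 2], 1, [(6, 1), (12, 1)]⟩,
⟨1, [⟨66, 2, []⟩, ⟨16, 2, []⟩], [3, 3, 3], 1, [(18, 1), (80, 1)]⟩,
⟨0, [⟨18, 2, []⟩, ⟨65, 2, []⟩], [3, 3, 3], 1, [(3, 1), (17, 1), (66, 1), (80, 1)]⟩,
⟨2, [⟨1, 2, []⟩, ⟨2, 2, []⟩, ⟨8, 3, []⟩, ⟨16, 3, []⟩, ⟨64, 5, []⟩], [3, 3, 3, 12, 12], 2, [(67, 1), (88, 1), (91, 2)]⟩,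
⟨2, [⟨66, 3, []⟩, ⟨4, 3, []⟩], [3, 3], 1, [(6, 1), (68, 1)]⟩,
⟨2, [⟨34, 4, []⟩, ⟨80, 4, []⟩, ⟨128, 4, []⟩], [7], 1, [(146, 1), (176, 1), (194, 1), (224, 1)]⟩,
⟨1, [⟨128, 2, []⟩, ⟨64, 4, []⟩], [3, 1, 1], 1, [(192, 1)]⟩,
⟨2, [⟨160, 3, []⟩, ⟨64, 3, []⟩], [3, 3], 1, [(96, 1), (192, 1)]⟩,
⟨0, [⟨160, 2, []⟩, ⟨2, 2, []⟩], [3, 3, 3], 1, [(34, 1), (130, 1)]⟩,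
⟨0, [⟨12, 2, []⟩, ⟨1, 2, []⟩], [3, 3, 3], 1, [(5, 1), (9, 1)]⟩,
⟨1, [⟨20, 2, []⟩, ⟨64, 2, []⟩], [3, 3, 3], 1, [(68, 1), (80, 1)]⟩,
⟨2, [⟨9, 2, []⟩, ⟨64, 4, []⟩], [3, 1, 1], 1, [(65, 1), (72, 1)]⟩,
⟨2, [⟨72, 2, []⟩, ⟨16, 4, []⟩], [3, 1, 1], 1, [(24, 1), (80, 1)]⟩,
⟨1, [⟨1, 3, []⟩, ⟨2, 3, []⟩], [3, 3], 1, [(3, 1)]⟩,
⟨2, [⟨4, 4, []⟩, ⟨8, 4, []⟩, ⟨160, 4, []⟩], [7], 1, [(44, 1), (140, 1)]⟩,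
⟨2, [⟨2, 2, []⟩, ⟨4, 2, []⟩, ⟨16, 3, []⟩, ⟨32, 3, []⟩, ⟨128, 5, []⟩], [3, 3, 3, 12, 12], 2, [(134, 1), (176, 1), (182, 2)]⟩,
⟨1, [⟨34, 2, []⟩, ⟨133, 2, []⟩], [3, 3, 3], 1, [(3, 1), (6, 1), (33, 1), (36, 1), (130, 1), (160, 1)]⟩,
⟨2, [⟨18, 4, []⟩, ⟨12, 4, []⟩, ⟨32, 4, []⟩], [7], 1, [(38, 1), (42, 1), (52, 1), (56, 1)]⟩,
⟨2, [⟨16, 2, []⟩, ⟨32, 2, []⟩, ⟨2, 3, []⟩, ⟨4, 3, []⟩, ⟨192, 5, []⟩], [3, 3, 3, 12, 12], 2, [(70, 1), (112, 1), (118, 2), (134, 1), (176, 1), (182, 2)]⟩,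
⟨1, [⟨36, 2, []⟩, ⟨16, 2, []⟩], [3, 3, 3], 1, [(20, 1), (48, 1)]⟩,
⟨2, [⟨0, 0, [(3, 2)]⟩, ⟨128, 4, []⟩], [3, 1, 1], 1, [(131, 1)]⟩,
⟨1, [⟨65, 2, []⟩, ⟨16, 2, []⟩], [3, 3, 3], 1, [(17, 1), (80, 1)]⟩,
⟨2, [⟨32, 3, []⟩, ⟨68, 3, []⟩], [3, 3], 1, [(36, 1), (96, 1)]⟩,
⟨2, [⟨32, 4, []⟩, ⟨2, 4, []⟩, ⟨129, 4, []⟩], [7], 1, [(35, 1), (162, 1)]⟩,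
⟨2, [⟨160, 2, []⟩, ⟨16, 3, []⟩, ⟨2, 3, []⟩, ⟨4, 3, []⟩, ⟨64, 4, []⟩], [3, 3, 17, 12, 12], 2, [(22, 1), (70, 1), (112, 1), (118, 2), (208, 1), (214, 2)]⟩,
⟨1, [⟨14, 2, []⟩, ⟨144, 2, []⟩], [3, 3, 3], 1, [(18, 1), (20, 1), (24, 1), (130, 1), (132, 1), (136, 1)]⟩,
⟨2, [⟨4, 2, []⟩, ⟨16, 3, []⟩, ⟨32, 3, []⟩, ⟨64, 3, []⟩, ⟨128, 4, []⟩], [9, 9, 17, 6, 6], 2, [(112, 1), (176, 1), (196, 1), (244, 2)]⟩,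
⟨2, [⟨2, 2, []⟩, ⟨4, 2, []⟩, ⟨16, 3, []⟩, ⟨32, 3, []⟩, ⟨128, 3, []⟩], [3, 3, 3, 28, 28], 2, [(6, 1), (176, 1), (182, 2)]⟩,
⟨0, [⟨40, 2, []⟩, ⟨129, 2, []⟩], [3, 3, 3], 1, [(9, 1), (33, 1), (136, 1), (160, 1)]⟩,
⟨1, [⟨20, 2, []⟩, ⟨192, 2, []⟩], [3, 3, 3], 1, [(68, 1), (80, 1), (132, 1), (144, 1)]⟩,
⟨1, [⟨6, 2, []⟩, ⟨144, 2, []⟩], [3, 3, 3], 1, [(18, 1), (20, 1), (130, 1), (132, 1)]⟩,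
⟨1, [⟨72, 2, []⟩, ⟨4, 2, []⟩], [3, 3, 3], 1, [(12, 1), (68, 1)]⟩,
⟨2, [⟨34, 4, []⟩, ⟨64, 4, []⟩, ⟨128, 4, []⟩], [7], 1, [(194, 1), (224, 1)]⟩,
⟨1, [⟨32, 2, []⟩, ⟨72, 2, []⟩], [3, 3, 3], 1, [(40, 1), (96, 1)]⟩,
⟨2, [⟨96, 4, []⟩, ⟨4, 4, []⟩, ⟨129, 4, []⟩], [7], 1, [(37, 1), (69, 1), (164, 1), (196, 1)]⟩,
⟨1, [⟨48, 2, []⟩, ⟨72, 2, []⟩], [3, 3, 3], 1, [(24, 1), (40, 1), (80, 1), (96, 1)]⟩,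
⟨2, [⟨66, 2, []⟩, ⟨4, 3, []⟩, ⟨8, 3, []⟩, ⟨16, 3, []⟩, ⟨128, 4, []⟩], [3, 3, 17, 12, 12], 2, [(28, 1), (134, 1), (152, 1), (158, 2), (196, 1), (220, 2)]⟩,
⟨2, [⟨0, 0, [(68, 3)]⟩, ⟨34, 3, []⟩], [3, 3], 1, [(70, 1), (100, 1)]⟩,
⟨2, [⟨18, 4, []⟩, ⟨8, 4, []⟩, ⟨64, 4, []⟩], [7], 1, [(74, 1), (88, 1)]⟩,
⟨1, [⟨10, 2, []⟩, ⟨32, 2, []⟩], [3, 3, 3], 1, [(34, 1), (40, 1)]⟩,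
⟨2, [⟨0, 0, [(48, 2)]⟩, ⟨136, 4, []⟩], [3, 1, 1], 1, [(56, 1), (176, 1)]⟩,
⟨2, [⟨2, 2, []⟩, ⟨4, 2, []⟩, ⟨8, 3, []⟩, ⟨16, 3, []⟩, ⟨128, 3, []⟩], [3, 3, 3, 28, 28], 2, [(6, 1), (152, 1), (158, 2)]⟩,
⟨1, [⟨26, 2, []⟩, ⟨132, 2, []⟩], [3, 3, 3], 1, [(6, 1), (12, 1), (20, 1), (130, 1), (136, 1), (144, 1)]⟩,
⟨2, [⟨132, 2, []⟩, ⟨64, 4, []⟩], [3, 1, 1], 1, [(68, 1), (192, 1)]⟩,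
⟨1, [⟨6, 2, []⟩, ⟨1, 2, []⟩], [3, 3, 3], 1, [(3, 1), (5, 1)]⟩,
⟨2, [⟨2, 4, []⟩, ⟨40, 4, []⟩, ⟨128, 4, []⟩], [7], 1, [(138, 1), (162, 1)]⟩,
⟨2, [⟨2, 3, []⟩, ⟨192, 3, []⟩], [3, 3], 1, [(66, 1), (130, 1)]⟩,
⟨1, [⟨17, 2, []⟩, ⟨8, 2, []⟩], [3, 3, 3], 1, [(9, 1), (24, 1)]⟩,
⟨2, [⟨4, 3, []⟩, ⟨48, 5, []⟩, ⟨64, 5, []⟩], [1, 1], 1, [(84, 1), (100, 1)]⟩,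
⟨2, [⟨32, 3, []⟩, ⟨130, 3, []⟩], [3, 3], 1, [(34, 1), (160, 1)]⟩,
⟨2, [⟨48, 4, []⟩, ⟨136, 4, []⟩, ⟨64, 4, []⟩], [7], 1, [(88, 1), (104, 1), (208, 1), (224, 1)]⟩,
⟨1, [⟨3, 2, []⟩, ⟨68, 2, []⟩], [3, 3, 3], 1, [(5, 1), (6, 1), (65, 1), (66, 1)]⟩,
⟨1, [⟨33, 2, []⟩, ⟨70, 2, []⟩], [3, 3, 3], 1, [(3, 1), (5, 1), (34, 1), (36, 1), (65, 1), (96, 1)]⟩,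
⟨2, [⟨0, 0, [(160, 3)]⟩, ⟨16, 2, []⟩, ⟨2, 3, []⟩, ⟨4, 3, []⟩], [1, 1, 2, 2, 2, 12, 12], 2, [(22, 1), (166, 1), (176, 1), (182, 2)]⟩,
⟨0, [⟨40, 2, []⟩, ⟨16, 2, []⟩], [3, 3, 3], 1, [(24, 1), (48, 1)]⟩,
⟨1, [⟨8, 2, []⟩, ⟨144, 2, []⟩], [3, 3, 3], 1, [(24, 1), (136, 1)]⟩,
⟨2, [⟨1, 2, []⟩, ⟨4, 2, []⟩, ⟨8, 3, []⟩, ⟨32, 3, []⟩, ⟨128, 5, []⟩], [3, 3, 3, 12, 12], 2, [(133, 1), (168, 1), (173, 2)]⟩,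
⟨1, [⟨10, 2, []⟩, ⟨64, 2, []⟩], [3, 3, 3], 1, [(66, 1), (72, 1)]⟩,
⟨2, [⟨16, 2, []⟩, ⟨128, 4, []⟩], [3, 1, 1], 1, [(144, 1)]⟩,
⟨2, [⟨0, 0, [(20, 2)]⟩, ⟨130, 4, []⟩], [3, 1, 1], 1, [(22, 1), (148, 1)]⟩,
⟨1, [⟨8, 2, []⟩, ⟨128, 4, []⟩], [3, 1, 1], 1, [(136, 1)]⟩,
⟨1, [⟨3, 2, []⟩, ⟨144, 2, []⟩], [3, 3, 3], 1, [(17, 1), (18, 1), (129, 1), (130, 1)]⟩,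
⟨1, [⟨8, 3, []⟩, ⟨32, 3, []⟩], [3, 3], 1, [(40, 1)]⟩,
⟨0, [⟨17, 2, []⟩, ⟨8, 2, []⟩], [3, 3, 3], 1, [(9, 1), (24, 1)]⟩,
⟨2, [⟨144, 4, []⟩, ⟨2, 4, []⟩, ⟨68, 4, []⟩], [7], 1, [(22, 1), (82, 1), (134, 1), (194, 1)]⟩,
⟨2, [⟨0, 0, [(160, 3)]⟩, ⟨8, 2, []⟩, ⟨1, 3, []⟩, ⟨4, 3, []⟩], [1, 1, 2, 2, 2, 12, 12], 2, [(13, 1), (165, 1), (168, 1), (173, 2)]⟩,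
⟨2, [⟨8, 2, []⟩, ⟨16, 2, []⟩, ⟨1, 3, []⟩, ⟨2, 3, []⟩, ⟨128, 5, []⟩], [3, 3, 3, 12, 12], 2, [(131, 1), (152, 1), (155, 2)]⟩,
⟨2, [⟨36, 4, []⟩, ⟨3, 4, []⟩, ⟨64, 4, []⟩], [7], 1, [(69, 1), (70, 1), (97, 1), (98, 1)]⟩,
⟨2, [⟨4, 4, []⟩, ⟨48, 4, []⟩, ⟨128, 4, []⟩], [7], 1, [(148, 1), (164, 1)]⟩,
⟨1, [⟨24, 2, []⟩, ⟨132, 2, []⟩], [3, 3, 3], 1, [(12, 1), (20, 1), (136, 1), (144, 1)]⟩,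
⟨2, [⟨10, 4, []⟩, ⟨4, 4, []⟩, ⟨64, 4, []⟩], [7], 1, [(70, 1), (76, 1)]⟩,
⟨1, [⟨18, 2, []⟩, ⟨32, 2, []⟩], [3, 3, 3], 1, [(34, 1), (48, 1)]⟩,
⟨2, [⟨0, 0, [(66, 3)]⟩, ⟨4, 2, []⟩, ⟨16, 3, []⟩, ⟨32, 3, []⟩], [1, 1, 2, 2, 2, 12, 12], 2, [(52, 1), (70, 1), (114, 1), (118, 2)]⟩,
⟨2, [⟨10, 5, []⟩, ⟨16, 3, []⟩, ⟨64, 5, []⟩], [2, 2], 1, [(82, 1), (88, 1)]⟩,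
⟨2, [⟨132, 4, []⟩, ⟨32, 4, []⟩, ⟨72, 4, []⟩], [7], 1, [(44, 1), (100, 1), (168, 1), (224, 1)]⟩,
⟨2, [⟨1, 2, []⟩, ⟨2, 2, []⟩, ⟨8, 3, []⟩, ⟨32, 3, []⟩, ⟨64, 5, []⟩], [3, 3, 3, 12, 12], 2, [(67, 1), (104, 1), (107, 2)]⟩,
⟨2, [⟨0, 0, [(48, 2)]⟩, ⟨66, 4, []⟩], [3, 1, 1], 1, [(50, 1), (112, 1)]⟩,
⟨2, [⟨2, 2, []⟩, ⟨4, 2, []⟩, ⟨16, 3, []⟩, ⟨32, 4, []⟩, ⟨128, 4, []⟩], [3, 3, 3, 12, 20], 2, [(38, 1), (134, 1), (176, 1), (182, 2)]⟩,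
⟨2, [⟨130, 3, []⟩, ⟨1, 3, []⟩], [3, 3], 1, [(3, 1), (129, 1)]⟩,
⟨1, [⟨48, 2, []⟩, ⟨64, 4, []⟩], [3, 1, 1], 1, [(80, 1), (96, 1)]⟩,
⟨2, [⟨0, 0, [(6, 2)]⟩, ⟨128, 4, []⟩], [3, 1, 1], 1, [(134, 1)]⟩,
⟨2, [⟨10, 4, []⟩, ⟨48, 4, []⟩, ⟨128, 4, []⟩], [7], 1, [(146, 1), (152, 1), (162, 1), (168, 1)]⟩,
⟨1, [⟨130, 2, []⟩, ⟨80, 2, []⟩], [3, 3, 3], 1, [(18, 1), (66, 1), (144, 1), (192, 1)]⟩,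
⟨2, [⟨1, 2, []⟩, ⟨128, 4, []⟩], [3, 1, 1], 1, [(129, 1)]⟩,
⟨2, [⟨129, 4, []⟩, ⟨8, 4, []⟩, ⟨80, 4, []⟩], [7], 1, [(25, 1), (73, 1), (152, 1), (200, 1)]⟩,
⟨2, [⟨20, 4, []⟩, ⟨8, 4, []⟩, ⟨128, 4, []⟩], [7], 1, [(140, 1), (152, 1)]⟩,
⟨2, [⟨10, 4, []⟩, ⟨36, 4, []⟩, ⟨16, 4, []⟩], [7], 1, [(22, 1), (28, 1), (50, 1), (56, 1)]⟩,
⟨2, [⟨1, 2, []⟩, ⟨4, 2, []⟩, ⟨8, 3, []⟩, ⟨16, 3, []⟩, ⟨64, 5, []⟩], [3, 3, 3, 12, 12], 2, [(69, 1), (88, 1), (93, 2)]⟩,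
⟨1, [⟨129, 2, []⟩, ⟨64, 2, []⟩], [3, 3, 3], 1, [(65, 1), (192, 1)]⟩,
⟨2, [⟨2, 4, []⟩, ⟨16, 2, []⟩], [3, 2, 2], 1, [(18, 1)]⟩,
⟨2, [⟨8, 3, []⟩, ⟨36, 3, []⟩], [3, 3], 1, [(12, 1), (40, 1)]⟩,
⟨2, [⟨3, 2, []⟩, ⟨68, 4, []⟩], [3, 1, 1], 1, [(5, 1), (6, 1), (65, 1), (66, 1)]⟩,
⟨2, [⟨0, 0, [(40, 2)]⟩, ⟨144, 4, []⟩], [3, 1, 1], 1, [(56, 1), (168, 1)]⟩,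
⟨0, [⟨5, 2, []⟩, ⟨192, 2, []⟩], [3, 3, 3], 1, [(65, 1), (68, 1), (129, 1), (132, 1)]⟩,
⟨2, [⟨4, 4, []⟩, ⟨32, 2, []⟩], [3, 2, 2], 1, [(36, 1)]⟩,
⟨0, [⟨9, 2, []⟩, ⟨128, 2, []⟩], [3, 3, 3], 1, [(129, 1), (136, 1)]⟩,
⟨0, [⟨9, 2, []⟩, ⟨68, 2, []⟩], [3, 3, 3], 1, [(5, 1), (12, 1), (65, 1), (72, 1)]⟩,
⟨2, [⟨36, 3, []⟩, ⟨128, 3, []⟩], [3, 3], 1, [(132, 1), (160, 1)]⟩,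
⟨0, [⟨40, 2, []⟩, ⟨80, 2, []⟩], [3, 3, 3], 1, [(24, 1), (48, 1), (72, 1), (96, 1)]⟩,
⟨2, [⟨4, 3, []⟩, ⟨34, 3, []⟩], [3, 3], 1, [(6, 1), (36, 1)]⟩,
⟨1, [⟨32, 3, []⟩, ⟨64, 3, []⟩], [3, 3], 1, [(96, 1)]⟩,
⟨0, [⟨132, 2, []⟩, ⟨8, 2, []⟩], [3, 3, 3], 1, [(12, 1), (136, 1)]⟩,
⟨1, [⟨34, 2, []⟩, ⟨64, 2, []⟩], [3, 3, 3], 1, [(66, 1), (96, 1)]⟩,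
⟨1, [⟨3, 2, []⟩, ⟨72, 2, []⟩], [3, 3, 3], 1, [(9, 1), (10, 1), (65, 1), (66, 1)]⟩,
⟨2, [⟨65, 2, []⟩, ⟨2, 3, []⟩, ⟨8, 3, []⟩, ⟨16, 3, []⟩, ⟨128, 4, []⟩], [3, 3, 17, 12, 12], 2, [(26, 1), (131, 1), (152, 1), (155, 2), (194, 1), (218, 2)]⟩,
⟨0, [⟨48, 2, []⟩, ⟨192, 2, []⟩], [3, 3, 3], 1, [(80, 1), (96, 1), (144, 1), (160, 1)]⟩,
⟨2, [⟨132, 2, []⟩, ⟨2, 3, []⟩, ⟨8, 3, []⟩, ⟨16, 3, []⟩, ⟨64, 4, []⟩], [3, 3, 17, 12, 12], 2, [(26, 1), (70, 1), (88, 1), (94, 2), (194, 1), (218, 2)]⟩,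
⟨2, [⟨0, 0, [(3, 2)]⟩, ⟨132, 4, []⟩], [3, 1, 1], 1, [(7, 1), (131, 1)]⟩,
⟨0, [⟨18, 2, []⟩, ⟨64, 2, []⟩], [3, 3, 3], 1, [(66, 1), (80, 1)]⟩,
⟨2, [⟨2, 3, []⟩, ⟨128, 3, []⟩], [3, 3], 1, [(130, 1)]⟩,
⟨2, [⟨0, 0, [(36, 2)]⟩, ⟨10, 4, []⟩], [3, 1, 1], 1, [(38, 1), (44, 1)]⟩,
⟨2, [⟨2, 3, []⟩, ⟨72, 3, []⟩], [3, 3], 1, [(10, 1), (66, 1)]⟩,
⟨0, [⟨160, 2, []⟩, ⟨4, 2, []⟩], [3, 3, 3], 1, [(36, 1), (132, 1)]⟩,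
⟨2, [⟨32, 4, []⟩, ⟨72, 4, []⟩, ⟨128, 4, []⟩], [7], 1, [(168, 1), (224, 1)]⟩,
⟨1, [⟨24, 2, []⟩, ⟨64, 4, []⟩], [3, 1, 1], 1, [(72, 1), (80, 1)]⟩,
⟨1, [⟨68, 2, []⟩, ⟨128, 2, []⟩], [3, 3, 3], 1, [(132, 1), (192, 1)]⟩,
⟨1, [⟨10, 2, []⟩, ⟨192, 2, []⟩], [3, 3, 3], 1, [(66, 1), (72, 1), (130, 1), (136, 1)]⟩,
⟨2, [⟨2, 3, []⟩, ⟨4, 3, []⟩], [3, 3], 1, [(6, 1)]⟩,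
⟨1, [⟨18, 2, []⟩, ⟨64, 2, []⟩], [3, 3, 3], 1, [(66, 1), (80, 1)]⟩,
⟨2, [⟨1, 3, []⟩, ⟨128, 3, []⟩], [3, 3], 1, [(129, 1)]⟩,
⟨1, [⟨18, 2, []⟩, ⟨69, 2, []⟩], [3, 3, 3], 1, [(3, 1), (6, 1), (17, 1), (20, 1), (66, 1), (80, 1)]⟩,
⟨0, [⟨48, 2, []⟩, ⟨8, 2, []⟩], [3, 3, 3], 1, [(24, 1), (40, 1)]⟩,
⟨1, [⟨48, 2, []⟩, ⟨132, 2, []⟩], [3, 3, 3], 1, [(20, 1), (36, 1), (144, 1), (160, 1)]⟩,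
⟨2, [⟨0, 0, [(6, 2)]⟩, ⟨144, 4, []⟩], [3, 1, 1], 1, [(22, 1), (134, 1)]⟩,
⟨2, [⟨18, 4, []⟩, ⟨5, 4, []⟩, ⟨64, 4, []⟩], [7], 1, [(67, 1), (70, 1), (81, 1), (84, 1)]⟩,
⟨2, [⟨66, 3, []⟩, ⟨128, 3, []⟩], [3, 3], 1, [(130, 1), (192, 1)]⟩,
⟨1, [⟨68, 2, []⟩, ⟨136, 2, []⟩], [3, 3, 3], 1, [(12, 1), (72, 1), (132, 1), (192, 1)]⟩,
⟨2, [⟨6, 2, []⟩, ⟨128, 4, []⟩], [3, 1, 1], 1, [(130, 1), (132, 1)]⟩,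
⟨2, [⟨6, 4, []⟩, ⟨16, 2, []⟩], [3, 2, 2], 1, [(18, 1), (20, 1)]⟩,
⟨2, [⟨36, 4, []⟩, ⟨2, 4, []⟩, ⟨64, 4, []⟩], [7], 1, [(70, 1), (98, 1)]⟩,
⟨0, [⟨5, 2, []⟩, ⟨2, 2, []⟩], [3, 3, 3], 1, [(3, 1), (6, 1)]⟩,
⟨2, [⟨132, 3, []⟩, ⟨2, 3, []⟩], [3, 3], 1, [(6, 1), (130, 1)]⟩,
⟨2, [⟨5, 3, []⟩, ⟨2, 3, []⟩], [3, 3], 1, [(3, 1), (6, 1)]⟩,
⟨1, [⟨12, 2, []⟩, ⟨96, 2, []⟩], [3, 3, 3], 1, [(36, 1), (40, 1), (68, 1), (72, 1)]⟩,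
⟨2, [⟨65, 2, []⟩, ⟨4, 3, []⟩, ⟨8, 3, []⟩, ⟨16, 3, []⟩, ⟨128, 4, []⟩], [3, 3, 17, 12, 12], 2, [(28, 1), (133, 1), (152, 1), (157, 2), (196, 1), (220, 2)]⟩,
⟨0, [⟨5, 2, []⟩, ⟨96, 2, []⟩], [3, 3, 3], 1, [(33, 1), (36, 1), (65, 1), (68, 1)]⟩,
⟨2, [⟨1, 2, []⟩, ⟨2, 2, []⟩, ⟨16, 3, []⟩, ⟨32, 4, []⟩, ⟨64, 4, []⟩], [3, 3, 3, 12, 20], 2, [(35, 1), (67, 1), (112, 1), (115, 2)]⟩,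
⟨0, [⟨10, 2, []⟩, ⟨128, 2, []⟩], [3, 3, 3], 1, [(130, 1), (136, 1)]⟩,
⟨2, [⟨160, 2, []⟩, ⟨64, 4, []⟩], [3, 1, 1], 1, [(96, 1), (192, 1)]⟩,
⟨1, [⟨20, 2, []⟩, ⟨40, 2, []⟩], [3, 3, 3], 1, [(12, 1), (24, 1), (36, 1), (48, 1)]⟩,
⟨2, [⟨0, 0, [(20, 2)]⟩, ⟨160, 4, []⟩], [3, 1, 1], 1, [(52, 1), (148, 1)]⟩,
⟨2, [⟨68, 3, []⟩, ⟨1, 3, []⟩], [3, 3], 1, [(5, 1), (65, 1)]⟩,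
⟨2, [⟨2, 3, []⟩, ⟨136, 3, []⟩], [3, 3], 1, [(10, 1), (130, 1)]⟩,
⟨2, [⟨16, 3, []⟩, ⟨32, 3, []⟩], [3, 3], 1, [(48, 1)]⟩,
⟨1, [⟨12, 2, []⟩, ⟨130, 2, []⟩], [3, 3, 3], 1, [(6, 1), (10, 1), (132, 1), (136, 1)]⟩,
⟨2, [⟨18, 4, []⟩, ⟨32, 4, []⟩, ⟨64, 4, []⟩], [7], 1, [(98, 1), (112, 1)]⟩,
⟨1, [⟨4, 2, []⟩, ⟨130, 2, []⟩], [3, 3, 3], 1, [(6, 1), (132, 1)]⟩,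
⟨1, [⟨48, 2, []⟩, ⟨65, 2, []⟩], [3, 3, 3], 1, [(17, 1), (33, 1), (80, 1), (96, 1)]⟩,
⟨2, [⟨129, 2, []⟩, ⟨2, 3, []⟩, ⟨16, 3, []⟩, ⟨32, 3, []⟩, ⟨64, 4, []⟩], [3, 3, 17, 12, 12], 2, [(50, 1), (67, 1), (112, 1), (115, 2), (194, 1), (242, 2)]⟩,
⟨1, [⟨17, 2, []⟩, ⟨192, 2, []⟩], [3, 3, 3], 1, [(65, 1), (80, 1), (129, 1), (144, 1)]⟩,
⟨0, [⟨18, 2, []⟩, ⟨1, 2, []⟩], [3, 3, 3], 1, [(3, 1), (17, 1)]⟩,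
⟨2, [⟨3, 2, []⟩, ⟨64, 4, []⟩], [3, 1, 1], 1, [(65, 1), (66, 1)]⟩,
⟨2, [⟨16, 2, []⟩, ⟨32, 2, []⟩, ⟨2, 3, []⟩, ⟨4, 3, []⟩, ⟨64, 5, []⟩], [3, 3, 3, 12, 12], 2, [(70, 1), (112, 1), (118, 2)]⟩,
⟨2, [⟨136, 5, []⟩, ⟨4, 3, []⟩, ⟨3, 5, []⟩], [2, 2], 1, [(13, 1), (14, 1), (133, 1), (134, 1)]⟩,
⟨2, [⟨68, 2, []⟩, ⟨2, 3, []⟩, ⟨16, 3, []⟩, ⟨32, 3, []⟩, ⟨128, 4, []⟩], [3, 3, 17, 12, 12], 2, [(50, 1), (134, 1), (176, 1), (182, 2), (194, 1), (242, 2)]⟩,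
⟨2, [⟨10, 4, []⟩, ⟨5, 4, []⟩, ⟨128, 4, []⟩], [7], 1, [(131, 1), (134, 1), (137, 1), (140, 1)]⟩,
⟨1, [⟨96, 2, []⟩, ⟨1, 2, []⟩], [3, 3, 3], 1, [(33, 1), (65, 1)]⟩,
⟨1, [⟨40, 2, []⟩, ⟨128, 4, []⟩], [3, 1, 1], 1, [(136, 1), (160, 1)]⟩,
⟨0, [⟨3, 2, []⟩, ⟨68, 2, []⟩], [3, 3, 3], 1, [(5, 1), (6, 1), (65, 1), (66, 1)]⟩,
⟨1, [⟨3, 2, []⟩, ⟨132, 2, []⟩], [3, 3, 3], 1, [(5, 1), (6, 1), (129, 1), (130, 1)]⟩,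
⟨2, [⟨8, 2, []⟩, ⟨16, 2, []⟩, ⟨2, 3, []⟩, ⟨4, 3, []⟩, ⟨64, 5, []⟩], [3, 3, 3, 12, 12], 2, [(70, 1), (88, 1), (94, 2)]⟩,
⟨2, [⟨2, 4, []⟩, ⟨24, 4, []⟩, ⟨64, 4, []⟩], [7], 1, [(74, 1), (82, 1)]⟩,
⟨2, [⟨48, 4, []⟩, ⟨8, 2, []⟩], [3, 2, 2], 1, [(24, 1), (40, 1)]⟩,
⟨2, [⟨0, 0, [(65, 3)]⟩, ⟨2, 2, []⟩, ⟨8, 3, []⟩, ⟨16, 3, []⟩], [1, 1, 2, 2, 2, 12, 12], 2, [(26, 1), (67, 1), (89, 1), (91, 2)]⟩,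
⟨2, [⟨34, 4, []⟩, ⟨4, 4, []⟩, ⟨128, 4, []⟩], [7], 1, [(134, 1), (164, 1)]⟩,
⟨1, [⟨12, 2, []⟩, ⟨48, 2, []⟩], [3, 3, 3], 1, [(20, 1), (24, 1), (36, 1), (40, 1)]⟩,
⟨1, [⟨40, 2, []⟩, ⟨66, 2, []⟩], [3, 3, 3], 1, [(10, 1), (34, 1), (72, 1), (96, 1)]⟩,
⟨0, [⟨6, 2, []⟩, ⟨160, 2, []⟩], [3, 3, 3], 1, [(34, 1), (36, 1), (130, 1), (132, 1)]⟩,
⟨2, [⟨8, 2, []⟩, ⟨32, 2, []⟩, ⟨1, 3, []⟩, ⟨4, 3, []⟩, ⟨128, 3, []⟩], [3, 3, 3, 28, 28], 2, [(40, 1), (133, 1), (173, 2)]⟩,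
⟨2, [⟨8, 2, []⟩, ⟨16, 2, []⟩, ⟨4, 3, []⟩, ⟨2, 4, []⟩, ⟨128, 4, []⟩], [3, 3, 3, 12, 20], 2, [(26, 1), (134, 1), (152, 1), (158, 2)]⟩,
⟨2, [⟨40, 2, []⟩, ⟨64, 4, []⟩], [3, 1, 1], 1, [(72, 1), (96, 1)]⟩,
⟨2, [⟨12, 4, []⟩, ⟨144, 4, []⟩, ⟨64, 4, []⟩], [7], 1, [(84, 1), (88, 1), (196, 1), (200, 1)]⟩,
⟨2, [⟨2, 4, []⟩, ⟨16, 4, []⟩, ⟨160, 4, []⟩], [7], 1, [(50, 1), (146, 1)]⟩,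
⟨2, [⟨8, 2, []⟩, ⟨32, 2, []⟩, ⟨4, 3, []⟩, ⟨2, 4, []⟩, ⟨64, 4, []⟩], [3, 3, 3, 12, 20], 2, [(42, 1), (70, 1), (104, 1), (110, 2)]⟩,
⟨2, [⟨0, 0, [(65, 3)]⟩, ⟨2, 2, []⟩, ⟨16, 3, []⟩, ⟨32, 3, []⟩], [1, 1, 2, 2, 2, 12, 12], 2, [(50, 1), (67, 1), (113, 1), (115, 2)]⟩,
⟨1, [⟨2, 2, []⟩, ⟨128, 4, []⟩], [3, 1, 1], 1, [(130, 1)]⟩,
⟨2, [⟨9, 3, []⟩, ⟨128, 3, []⟩], [3, 3], 1, [(129, 1), (136, 1)]⟩,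
⟨2, [⟨36, 4, []⟩, ⟨16, 4, []⟩, ⟨64, 4, []⟩], [7], 1, [(84, 1), (112, 1)]⟩,
⟨2, [⟨0, 0, [(9, 2)]⟩, ⟨34, 4, []⟩], [3, 1, 1], 1, [(11, 1), (41, 1)]⟩,
⟨0, [⟨10, 2, []⟩, ⟨1, 2, []⟩], [3, 3, 3], 1, [(3, 1), (9, 1)]⟩,
⟨0, [⟨36, 2, []⟩, ⟨192, 2, []⟩], [3, 3, 3], 1, [(68, 1), (96, 1), (132, 1), (160, 1)]⟩,
⟨2, [⟨0, 0, [(36, 2)]⟩, ⟨64, 4, []⟩], [3, 1, 1], 1, [(100, 1)]⟩,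
⟨2, [⟨8, 3, []⟩, ⟨128, 3, []⟩], [3, 3], 1, [(136, 1)]⟩,
⟨2, [⟨4, 4, []⟩, ⟨64, 4, []⟩, ⟨128, 4, []⟩], [7], 1, [(196, 1)]⟩,
⟨2, [⟨8, 2, []⟩, ⟨64, 4, []⟩], [3, 1, 1], 1, [(72, 1)]⟩,
⟨2, [⟨4, 3, []⟩, ⟨8, 3, []⟩], [3, 3], 1, [(12, 1)]⟩,
⟨2, [⟨9, 4, []⟩, ⟨20, 4, []⟩, ⟨2, 4, []⟩], [7], 1, [(7, 1), (14, 1), (19, 1), (26, 1)]⟩,
⟨2, [⟨8, 2, []⟩, ⟨32, 2, []⟩, ⟨1, 3, []⟩, ⟨4, 3, []⟩, ⟨128, 5, []⟩], [3, 3, 3, 12, 12], 2, [(133, 1), (168, 1), (173, 2)]⟩,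
⟨2, [⟨36, 4, []⟩, ⟨2, 2, []⟩], [3, 2, 2], 1, [(6, 1), (34, 1)]⟩,
⟨2, [⟨0, 0, [(6, 2)]⟩, ⟨65, 4, []⟩], [3, 1, 1], 1, [(7, 1), (70, 1)]⟩,
⟨2, [⟨8, 2, []⟩, ⟨16, 2, []⟩, ⟨4, 3, []⟩, ⟨2, 4, []⟩, ⟨64, 4, []⟩], [3, 3, 3, 12, 20], 2, [(26, 1), (70, 1), (88, 1), (94, 2)]⟩,
⟨0, [⟨1, 3, []⟩, ⟨8, 3, []⟩], [3, 3], 1, [(9, 1)]⟩,
⟨0, [⟨5, 2, []⟩, ⟨64, 4, []⟩], [3, 1, 1], 1, [(65, 1), (68, 1)]⟩,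
⟨2, [⟨17, 4, []⟩, ⟨32, 4, []⟩, ⟨128, 4, []⟩], [7], 1, [(161, 1), (176, 1)]⟩,
⟨2, [⟨8, 4, []⟩, ⟨4, 2, []⟩], [3, 2, 2], 1, [(12, 1)]⟩,
⟨2, [⟨2, 2, []⟩, ⟨4, 2, []⟩, ⟨16, 3, []⟩, ⟨32, 3, []⟩, ⟨64, 3, []⟩], [3, 3, 3, 28, 28], 2, [(6, 1), (112, 1), (118, 2)]⟩,
⟨2, [⟨16, 4, []⟩, ⟨2, 4, []⟩, ⟨65, 4, []⟩], [7], 1, [(19, 1), (82, 1)]⟩,
⟨2, [⟨16, 4, []⟩, ⟨3, 4, []⟩, ⟨64, 4, []⟩], [7], 1, [(81, 1), (82, 1)]⟩,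
⟨2, [⟨160, 3, []⟩, ⟨8, 3, []⟩], [3, 3], 1, [(40, 1), (136, 1)]⟩,
⟨2, [⟨0, 0, [(129, 3)]⟩, ⟨4, 2, []⟩, ⟨8, 3, []⟩, ⟨16, 3, []⟩], [1, 1, 2, 2, 2, 12, 12], 2, [(28, 1), (133, 1), (153, 1), (157, 2)]⟩,
⟨1, [⟨144, 2, []⟩, ⟨64, 2, []⟩], [3, 3, 3], 1, [(80, 1), (192, 1)]⟩,
⟨0, [⟨9, 2, []⟩, ⟨96, 2, []⟩], [3, 3, 3], 1, [(33, 1), (40, 1), (65, 1), (72, 1)]⟩,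
⟨0, [⟨65, 2, []⟩, ⟨128, 2, []⟩], [3, 3, 3], 1, [(129, 1), (192, 1)]⟩,
⟨2, [⟨12, 4, []⟩, ⟨32, 4, []⟩, ⟨64, 4, []⟩], [7], 1, [(100, 1), (104, 1)]⟩,
⟨2, [⟨10, 2, []⟩, ⟨128, 4, []⟩], [3, 1, 1], 1, [(130, 1), (136, 1)]⟩,
⟨2, [⟨40, 2, []⟩, ⟨128, 4, []⟩], [3, 1, 1], 1, [(136, 1), (160, 1)]⟩,
⟨0, [⟨136, 2, []⟩, ⟨4, 2, []⟩], [3, 3, 3], 1, [(12, 1), (132, 1)]⟩,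
⟨2, [⟨0, 0, [(9, 2)]⟩, ⟨66, 4, []⟩], [3, 1, 1], 1, [(11, 1), (73, 1)]⟩,
⟨1, [⟨20, 2, []⟩, ⟨2, 2, []⟩], [3, 3, 3], 1, [(6, 1), (18, 1)]⟩,
⟨2, [⟨0, 0, [(34, 2)]⟩, ⟨12, 4, []⟩], [3, 1, 1], 1, [(38, 1), (42, 1)]⟩,
⟨2, [⟨129, 3, []⟩, ⟨2, 3, []⟩], [3, 3], 1, [(3, 1), (130, 1)]⟩,
⟨1, [⟨6, 2, []⟩, ⟨64, 4, []⟩], [3, 1, 1], 1, [(66, 1), (68, 1)]⟩,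
⟨2, [⟨6, 4, []⟩, ⟨65, 2, []⟩], [3, 2, 2], 1, [(3, 1), (5, 1), (66, 1), (68, 1)]⟩,
⟨2, [⟨72, 5, []⟩, ⟨2, 3, []⟩, ⟨5, 5, []⟩], [2, 2], 1, [(11, 1), (14, 1), (67, 1), (70, 1)]⟩,
⟨2, [⟨8, 2, []⟩, ⟨16, 2, []⟩, ⟨1, 3, []⟩, ⟨4, 3, []⟩, ⟨64, 3, []⟩], [3, 3, 3, 28, 28], 2, [(24, 1), (69, 1), (93, 2)]⟩,
⟨2, [⟨17, 4, []⟩, ⟨12, 4, []⟩, ⟨32, 4, []⟩], [7], 1, [(37, 1), (41, 1), (52, 1), (56, 1)]⟩,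
⟨0, [⟨40, 2, []⟩, ⟨65, 2, []⟩], [3, 3, 3], 1, [(9, 1), (33, 1), (72, 1), (96, 1)]⟩,
⟨0, [⟨36, 2, []⟩, ⟨16, 2, []⟩], [3, 3, 3], 1, [(20, 1), (48, 1)]⟩,
⟨2, [⟨96, 3, []⟩, ⟨8, 3, []⟩], [3, 3], 1, [(40, 1), (72, 1)]⟩,
⟨2, [⟨0, 0, [(34, 2)]⟩, ⟨68, 4, []⟩], [3, 1, 1], 1, [(38, 1), (98, 1)]⟩,
⟨2, [⟨12, 5, []⟩, ⟨32, 3, []⟩, ⟨64, 5, []⟩], [2, 2], 1, [(100, 1), (104, 1)]⟩,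
⟨0, [⟨68, 2, []⟩, ⟨128, 2, []⟩], [3, 3, 3], 1, [(132, 1), (192, 1)]⟩,
⟨1, [⟨32, 2, []⟩, ⟨80, 2, []⟩], [3, 3, 3], 1, [(48, 1), (96, 1)]⟩,
⟨2, [⟨0, 0, [(80, 3)]⟩, ⟨32, 2, []⟩, ⟨2, 3, []⟩, ⟨4, 3, []⟩], [1, 1, 2, 2, 2, 12, 12], 2, [(38, 1), (86, 1), (112, 1), (118, 2)]⟩,
⟨1, [⟨1, 2, []⟩, ⟨132, 2, []⟩], [3, 3, 3], 1, [(5, 1), (129, 1)]⟩,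
⟨2, [⟨1, 2, []⟩, ⟨64, 4, []⟩], [3, 1, 1], 1, [(65, 1)]⟩,
⟨1, [⟨4, 4, []⟩, ⟨128, 2, []⟩], [3, 2, 2], 1, [(132, 1)]⟩,
⟨2, [⟨8, 2, []⟩, ⟨32, 2, []⟩, ⟨1, 3, []⟩, ⟨2, 3, []⟩, ⟨64, 5, []⟩], [3, 3, 3, 12, 12], 2, [(67, 1), (104, 1), (107, 2)]⟩,
⟨2, [⟨36, 4, []⟩, ⟨2, 4, []⟩, ⟨128, 4, []⟩], [7], 1, [(134, 1), (162, 1)]⟩,
⟨2, [⟨32, 4, []⟩, ⟨3, 4, []⟩, ⟨64, 4, []⟩], [7], 1, [(97, 1), (98, 1)]⟩,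
⟨2, [⟨1, 2, []⟩, ⟨4, 2, []⟩, ⟨8, 3, []⟩, ⟨16, 3, []⟩, ⟨64, 3, []⟩], [3, 3, 3, 28, 28], 2, [(5, 1), (88, 1), (93, 2)]⟩,
⟨0, [⟨20, 2, []⟩, ⟨128, 2, []⟩], [3, 3, 3], 1, [(132, 1), (144, 1)]⟩,
⟨2, [⟨24, 4, []⟩, ⟨96, 2, []⟩], [3, 2, 2], 1, [(40, 1), (48, 1), (72, 1), (80, 1)]⟩,
⟨2, [⟨65, 5, []⟩, ⟨8, 3, []⟩, ⟨48, 5, []⟩], [2, 2], 1, [(25, 1), (41, 1), (88, 1), (104, 1)]⟩,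
⟨1, [⟨6, 2, []⟩, ⟨136, 2, []⟩], [3, 3, 3], 1, [(10, 1), (12, 1), (130, 1), (132, 1)]⟩,
⟨2, [⟨4, 4, []⟩, ⟨130, 4, []⟩, ⟨64, 4, []⟩], [7], 1, [(70, 1), (196, 1)]⟩,
⟨2, [⟨18, 2, []⟩, ⟨128, 4, []⟩], [3, 1, 1], 1, [(130, 1), (144, 1)]⟩,
⟨2, [⟨16, 3, []⟩, ⟨132, 3, []⟩], [3, 3], 1, [(20, 1), (144, 1)]⟩,
⟨1, [⟨10, 2, []⟩, ⟨129, 2, []⟩], [3, 3, 3], 1, [(3, 1), (9, 1), (130, 1), (136, 1)]⟩,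
⟨2, [⟨72, 3, []⟩, ⟨16, 3, []⟩], [3, 3], 1, [(24, 1), (80, 1)]⟩,
⟨0, [⟨36, 2, []⟩, ⟨2, 2, []⟩], [3, 3, 3], 1, [(6, 1), (34, 1)]⟩,
⟨2, [⟨32, 2, []⟩, ⟨1, 3, []⟩, ⟨4, 3, []⟩, ⟨64, 3, []⟩, ⟨128, 4, []⟩], [9, 9, 17, 6, 6], 2, [(69, 1), (133, 1), (224, 1), (229, 2)]⟩,
⟨0, [⟨24, 2, []⟩, ⟨192, 2, []⟩], [3, 3, 3], 1, [(72, 1), (80, 1), (136, 1), (144, 1)]⟩,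
⟨1, [⟨6, 2, []⟩, ⟨80, 2, []⟩], [3, 3, 3], 1, [(18, 1), (20, 1), (66, 1), (68, 1)]⟩,
⟨2, [⟨0, 0, [(6, 2)]⟩, ⟨129, 4, []⟩], [3, 1, 1], 1, [(7, 1), (134, 1)]⟩,
⟨0, [⟨1, 2, []⟩, ⟨130, 2, []⟩], [3, 3, 3], 1, [(3, 1), (129, 1)]⟩,
⟨2, [⟨33, 4, []⟩, ⟨4, 4, []⟩, ⟨64, 4, []⟩], [7], 1, [(69, 1), (100, 1)]⟩,
⟨0, [⟨17, 2, []⟩, ⟨192, 2, []⟩], [3, 3, 3], 1, [(65, 1), (80, 1), (129, 1), (144, 1)]⟩,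
⟨2, [⟨10, 4, []⟩, ⟨4, 4, []⟩, ⟨128, 4, []⟩], [7], 1, [(134, 1), (140, 1)]⟩,
⟨0, [⟨1, 2, []⟩, ⟨128, 4, []⟩], [3, 1, 1], 1, [(129, 1)]⟩,
⟨2, [⟨2, 2, []⟩, ⟨4, 2, []⟩, ⟨8, 3, []⟩, ⟨16, 3, []⟩, ⟨128, 5, []⟩], [3, 3, 3, 12, 12], 2, [(134, 1), (152, 1), (158, 2)]⟩,
⟨2, [⟨16, 4, []⟩, ⟨6, 4, []⟩, ⟨64, 4, []⟩], [7], 1, [(82, 1), (84, 1)]⟩,
⟨0, [⟨12, 2, []⟩, ⟨16, 2, []⟩], [3, 3, 3], 1, [(20, 1), (24, 1)]⟩,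
⟨2, [⟨12, 4, []⟩, ⟨32, 4, []⟩, ⟨128, 4, []⟩], [7], 1, [(164, 1), (168, 1)]⟩,
⟨2, [⟨4, 4, []⟩, ⟨65, 4, []⟩, ⟨128, 4, []⟩], [7], 1, [(133, 1), (196, 1)]⟩,
⟨0, [⟨12, 2, []⟩, ⟨80, 2, []⟩], [3, 3, 3], 1, [(20, 1), (24, 1), (68, 1), (72, 1)]⟩,
⟨2, [⟨40, 3, []⟩, ⟨16, 3, []⟩], [3, 3], 1, [(24, 1), (48, 1)]⟩,
⟨2, [⟨34, 5, []⟩, ⟨4, 3, []⟩, ⟨64, 5, []⟩], [2, 2], 1, [(70, 1), (100, 1)]⟩,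
⟨1, [⟨66, 2, []⟩, ⟨32, 2, []⟩], [3, 3, 3], 1, [(34, 1), (96, 1)]⟩,
⟨1, [⟨6, 2, []⟩, ⟨128, 4, []⟩], [3, 1, 1], 1, [(130, 1), (132, 1)]⟩,
⟨0, [⟨40, 2, []⟩, ⟨132, 2, []⟩], [3, 3, 3], 1, [(12, 1), (36, 1), (136, 1), (160, 1)]⟩,
⟨2, [⟨20, 4, []⟩, ⟨40, 4, []⟩, ⟨128, 4, []⟩], [7], 1, [(140, 1), (152, 1), (164, 1), (176, 1)]⟩,
⟨2, [⟨8, 3, []⟩, ⟨32, 3, []⟩], [3, 3], 1, [(40, 1)]⟩,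
⟨2, [⟨0, 0, [(18, 2)]⟩, ⟨136, 4, []⟩], [3, 1, 1], 1, [(26, 1), (146, 1)]⟩,
⟨0, [⟨2, 2, []⟩, ⟨129, 2, []⟩], [3, 3, 3], 1, [(3, 1), (130, 1)]⟩,
⟨2, [⟨2, 3, []⟩, ⟨20, 3, []⟩], [3, 3], 1, [(6, 1), (18, 1)]⟩,
⟨2, [⟨8, 2, []⟩, ⟨32, 2, []⟩, ⟨1, 3, []⟩, ⟨2, 3, []⟩, ⟨128, 5, []⟩], [3, 3, 3, 12, 12], 2, [(131, 1), (168, 1), (171, 2)]⟩,
⟨1, [⟨64, 3, []⟩, ⟨128, 3, []⟩], [3, 3], 1, [(192, 1)]⟩,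
⟨2, [⟨0, 0, [(68, 3)]⟩, ⟨2, 2, []⟩, ⟨16, 3, []⟩, ⟨32, 3, []⟩], [1, 1, 2, 2, 2, 12, 12], 2, [(50, 1), (70, 1), (116, 1), (118, 2)]⟩,
⟨2, [⟨6, 2, []⟩, ⟨129, 4, []⟩], [3, 1, 1], 1, [(3, 1), (5, 1), (130, 1), (132, 1)]⟩,
⟨2, [⟨12, 5, []⟩, ⟨32, 3, []⟩, ⟨128, 5, []⟩], [2, 2], 1, [(164, 1), (168, 1)]⟩,
⟨2, [⟨18, 4, []⟩, ⟨36, 4, []⟩, ⟨128, 4, []⟩], [7], 1, [(134, 1), (148, 1), (162, 1), (176, 1)]⟩,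
⟨2, [⟨65, 5, []⟩, ⟨32, 3, []⟩, ⟨24, 5, []⟩], [2, 2], 1, [(41, 1), (49, 1), (104, 1), (112, 1)]⟩,
⟨1, [⟨33, 2, []⟩, ⟨152, 2, []⟩], [3, 3, 3], 1, [(9, 1), (17, 1), (40, 1), (48, 1), (129, 1), (160, 1)]⟩,
⟨2, [⟨34, 4, []⟩, ⟨4, 4, []⟩, ⟨64, 4, []⟩], [7], 1, [(70, 1), (100, 1)]⟩,
⟨0, [⟨24, 2, []⟩, ⟨65, 2, []⟩], [3, 3, 3], 1, [(9, 1), (17, 1), (72, 1), (80, 1)]⟩,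
⟨2, [⟨8, 2, []⟩, ⟨128, 4, []⟩], [3, 1, 1], 1, [(136, 1)]⟩,
⟨2, [⟨33, 4, []⟩, ⟨64, 4, []⟩, ⟨128, 4, []⟩], [7], 1, [(193, 1), (224, 1)]⟩,
⟨1, [⟨5, 2, []⟩, ⟨128, 4, []⟩], [3, 1, 1], 1, [(129, 1), (132, 1)]⟩,
⟨2, [⟨0, 0, [(48, 2)]⟩, ⟨128, 4, []⟩], [3, 1, 1], 1, [(176, 1)]⟩,
⟨2, [⟨96, 4, []⟩, ⟨4, 4, []⟩, ⟨130, 4, []⟩], [7], 1, [(38, 1), (70, 1), (164, 1), (196, 1)]⟩,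
⟨2, [⟨0, 0, [(12, 2)]⟩, ⟨160, 4, []⟩], [3, 1, 1], 1, [(44, 1), (140, 1)]⟩,
⟨2, [⟨5, 4, []⟩, ⟨2, 2, []⟩], [3, 2, 2], 1, [(3, 1), (6, 1)]⟩,
⟨2, [⟨2, 4, []⟩, ⟨16, 4, []⟩, ⟨136, 4, []⟩], [7], 1, [(26, 1), (146, 1)]⟩,
⟨2, [⟨12, 4, []⟩, ⟨2, 2, []⟩], [3, 2, 2], 1, [(6, 1), (10, 1)]⟩,
⟨2, [⟨4, 4, []⟩, ⟨24, 4, []⟩, ⟨128, 4, []⟩], [7], 1, [(140, 1), (148, 1)]⟩,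
⟨0, [⟨48, 2, []⟩, ⟨72, 2, []⟩], [3, 3, 3], 1, [(24, 1), (40, 1), (80, 1), (96, 1)]⟩,
⟨1, [⟨36, 2, []⟩, ⟨3, 2, []⟩], [3, 3, 3], 1, [(5, 1), (6, 1), (33, 1), (34, 1)]⟩,
⟨1, [⟨48, 2, []⟩, ⟨192, 2, []⟩], [3, 3, 3], 1, [(80, 1), (96, 1), (144, 1), (160, 1)]⟩,
⟨1, [⟨34, 2, []⟩, ⟨128, 2, []⟩], [3, 3, 3], 1, [(130, 1), (160, 1)]⟩,
⟨2, [⟨10, 5, []⟩, ⟨32, 3, []⟩, ⟨128, 5, []⟩], [2, 2], 1, [(162, 1), (168, 1)]⟩,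
⟨0, [⟨1, 2, []⟩, ⟨68, 2, []⟩], [3, 3, 3], 1, [(5, 1), (65, 1)]⟩,
⟨2, [⟨0, 0, [(40, 2)]⟩, ⟨80, 4, []⟩], [3, 1, 1], 1, [(56, 1), (104, 1)]⟩,
⟨2, [⟨10, 4, []⟩, ⟨32, 4, []⟩, ⟨64, 4, []⟩], [7], 1, [(98, 1), (104, 1)]⟩,
⟨2, [⟨1, 3, []⟩, ⟨64, 3, []⟩], [3, 3], 1, [(65, 1)]⟩,
⟨2, [⟨0, 0, [(24, 2)]⟩, ⟨160, 4, []⟩], [3, 1, 1], 1, [(56, 1), (152, 1)]⟩,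
⟨1, [⟨130, 2, []⟩, ⟨72, 2, []⟩], [3, 3, 3], 1, [(10, 1), (66, 1), (136, 1), (192, 1)]⟩,
⟨0, [⟨65, 2, []⟩, ⟨8, 2, []⟩], [3, 3, 3], 1, [(9, 1), (72, 1)]⟩,
⟨2, [⟨2, 3, []⟩, ⟨33, 3, []⟩], [3, 3], 1, [(3, 1), (34, 1)]⟩,
⟨2, [⟨5, 2, []⟩, ⟨130, 4, []⟩], [3, 1, 1], 1, [(3, 1), (6, 1), (129, 1), (132, 1)]⟩,
⟨2, [⟨17, 2, []⟩, ⟨64, 4, []⟩], [3, 1, 1], 1, [(65, 1), (80, 1)]⟩,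
⟨2, [⟨24, 4, []⟩, ⟨160, 4, []⟩, ⟨64, 4, []⟩], [7], 1, [(104, 1), (112, 1), (200, 1), (208, 1)]⟩,
⟨2, [⟨1, 2, []⟩, ⟨2, 2, []⟩, ⟨8, 3, []⟩, ⟨32, 3, []⟩, ⟨128, 5, []⟩], [3, 3, 3, 12, 12], 2, [(131, 1), (168, 1), (171, 2)]⟩,
⟨1, [⟨2, 3, []⟩, ⟨64, 3, []⟩], [3, 3], 1, [(66, 1)]⟩,
⟨2, [⟨144, 2, []⟩, ⟨32, 3, []⟩, ⟨2, 3, []⟩, ⟨4, 3, []⟩, ⟨64, 4, []⟩], [3, 3, 17, 12, 12], 2, [(38, 1), (70, 1), (112, 1), (118, 2), (224, 1), (230, 2)]⟩,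
⟨1, [⟨48, 2, []⟩, ⟨128, 4, []⟩], [3, 1, 1], 1, [(144, 1), (160, 1)]⟩,
⟨2, [⟨9, 4, []⟩, ⟨2, 2, []⟩], [3, 2, 2], 1, [(3, 1), (10, 1)]⟩,
⟨1, [⟨40, 2, []⟩, ⟨65, 2, []⟩], [3, 3, 3], 1, [(9, 1), (33, 1), (72, 1), (96, 1)]⟩,
⟨1, [⟨16, 2, []⟩, ⟨128, 4, []⟩], [3, 1, 1], 1, [(144, 1)]⟩,
⟨2, [⟨18, 4, []⟩, ⟨132, 4, []⟩, ⟨64, 4, []⟩], [7], 1, [(70, 1), (84, 1), (194, 1), (208, 1)]⟩,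
⟨1, [⟨72, 2, []⟩, ⟨2, 2, []⟩], [3, 3, 3], 1, [(10, 1), (66, 1)]⟩,
⟨0, [⟨24, 2, []⟩, ⟨132, 2, []⟩], [3, 3, 3], 1, [(12, 1), (20, 1), (136, 1), (144, 1)]⟩,
⟨2, [⟨4, 2, []⟩, ⟨128, 4, []⟩], [3, 1, 1], 1, [(132, 1)]⟩,
⟨2, [⟨34, 5, []⟩, ⟨16, 3, []⟩, ⟨128, 5, []⟩], [2, 2], 1, [(146, 1), (176, 1)]⟩,
⟨2, [⟨72, 3, []⟩, ⟨128, 3, []⟩], [3, 3], 1, [(136, 1), (192, 1)]⟩,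
⟨2, [⟨8, 2, []⟩, ⟨32, 2, []⟩, ⟨2, 3, []⟩, ⟨4, 3, []⟩, ⟨64, 3, []⟩], [3, 3, 3, 28, 28], 2, [(40, 1), (70, 1), (110, 2)]⟩,
⟨2, [⟨129, 2, []⟩, ⟨4, 3, []⟩, ⟨8, 3, []⟩, ⟨32, 3, []⟩, ⟨64, 4, []⟩], [3, 3, 17, 12, 12], 2, [(44, 1), (69, 1), (104, 1), (109, 2), (196, 1), (236, 2)]⟩,
⟨0, [⟨33, 2, []⟩, ⟨24, 2, []⟩], [3, 3, 3], 1, [(9, 1), (17, 1), (40, 1), (48, 1)]⟩,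
⟨0, [⟨10, 2, []⟩, ⟨5, 2, []⟩], [3, 3, 3], 1, [(3, 1), (6, 1), (9, 1), (12, 1)]⟩,
⟨1, [⟨10, 2, []⟩, ⟨68, 2, []⟩], [3, 3, 3], 1, [(6, 1), (12, 1), (66, 1), (72, 1)]⟩,
⟨1, [⟨42, 2, []⟩, ⟨132, 2, []⟩], [3, 3, 3], 1, [(6, 1), (12, 1), (36, 1), (130, 1), (136, 1), (160, 1)]⟩,
⟨2, [⟨0, 0, [(144, 3)]⟩, ⟨12, 3, []⟩], [3, 3], 1, [(148, 1), (152, 1)]⟩,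
⟨2, [⟨20, 4, []⟩, ⟨2, 2, []⟩], [3, 2, 2], 1, [(6, 1), (18, 1)]⟩,
⟨2, [⟨17, 4, []⟩, ⟨4, 2, []⟩], [3, 2, 2], 1, [(5, 1), (20, 1)]⟩,
⟨2, [⟨34, 3, []⟩, ⟨128, 3, []⟩], [3, 3], 1, [(130, 1), (160, 1)]⟩,
⟨2, [⟨0, 0, [(3, 2)]⟩, ⟨68, 4, []⟩], [3, 1, 1], 1, [(7, 1), (67, 1)]⟩,
⟨2, [⟨0, 0, [(12, 2)]⟩, ⟨130, 4, []⟩], [3, 1, 1], 1, [(14, 1), (140, 1)]⟩,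
⟨1, [⟨34, 2, []⟩, ⟨8, 2, []⟩], [3, 3, 3], 1, [(10, 1), (40, 1)]⟩,
⟨2, [⟨68, 2, []⟩, ⟨128, 4, []⟩], [3, 1, 1], 1, [(132, 1), (192, 1)]⟩,
⟨2, [⟨132, 5, []⟩, ⟨32, 3, []⟩, ⟨24, 5, []⟩], [2, 2], 1, [(44, 1), (52, 1), (168, 1), (176, 1)]⟩,
⟨1, [⟨34, 2, []⟩, ⟨65, 2, []⟩], [3, 3, 3], 1, [(3, 1), (33, 1), (66, 1), (96, 1)]⟩,
⟨2, [⟨6, 4, []⟩, ⟨1, 2, []⟩], [3, 2, 2], 1, [(3, 1), (5, 1)]⟩,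
⟨2, [⟨34, 5, []⟩, ⟨4, 3, []⟩, ⟨128, 5, []⟩], [2, 2], 1, [(134, 1), (164, 1)]⟩,
⟨2, [⟨0, 0, [(6, 2)]⟩, ⟨17, 4, []⟩], [3, 1, 1], 1, [(7, 1), (22, 1)]⟩,
⟨1, [⟨40, 2, []⟩, ⟨129, 2, []⟩], [3, 3, 3], 1, [(9, 1), (33, 1), (136, 1), (160, 1)]⟩,
⟨2, [⟨65, 2, []⟩, ⟨4, 3, []⟩, ⟨8, 3, []⟩, ⟨32, 3, []⟩, ⟨128, 4, []⟩], [3, 3, 17, 12, 12], 2, [(44, 1), (133, 1), (168, 1), (173, 2), (196, 1), (236, 2)]⟩,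
⟨0, [⟨1, 2, []⟩, ⟨64, 4, []⟩], [3, 1, 1], 1, [(65, 1)]⟩,
⟨2, [⟨0, 0, [(5, 2)]⟩, ⟨130, 4, []⟩], [3, 1, 1], 1, [(7, 1), (133, 1)]⟩,
⟨1, [⟨20, 2, []⟩, ⟨104, 2, []⟩], [3, 3, 3], 1, [(12, 1), (24, 1), (36, 1), (48, 1), (68, 1), (80, 1)]⟩,
⟨2, [⟨130, 3, []⟩, ⟨4, 3, []⟩], [3, 3], 1, [(6, 1), (132, 1)]⟩,
⟨2, [⟨2, 3, []⟩, ⟨12, 3, []⟩], [3, 3], 1, [(6, 1), (10, 1)]⟩,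
⟨0, [⟨65, 2, []⟩, ⟨144, 2, []⟩], [3, 3, 3], 1, [(17, 1), (80, 1), (129, 1), (192, 1)]⟩,
⟨1, [⟨144, 2, []⟩, ⟨2, 2, []⟩], [3, 3, 3], 1, [(18, 1), (130, 1)]⟩,
⟨1, [⟨9, 2, []⟩, ⟨64, 2, []⟩], [3, 3, 3], 1, [(65, 1), (72, 1)]⟩,
⟨1, [⟨20, 2, []⟩, ⟨8, 2, []⟩], [3, 3, 3], 1, [(12, 1), (24, 1)]⟩,
⟨1, [⟨48, 2, []⟩, ⟨136, 2, []⟩], [3, 3, 3], 1, [(24, 1), (40, 1), (144, 1), (160, 1)]⟩,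
⟨2, [⟨4, 4, []⟩, ⟨40, 4, []⟩, ⟨128, 4, []⟩], [7], 1, [(140, 1), (164, 1)]⟩,
⟨2, [⟨129, 2, []⟩, ⟨4, 4, []⟩], [3, 1, 1], 1, [(5, 1), (132, 1)]⟩,
⟨2, [⟨16, 3, []⟩, ⟨68, 3, []⟩], [3, 3], 1, [(20, 1), (80, 1)]⟩,
⟨2, [⟨1, 4, []⟩, ⟨64, 2, []⟩], [3, 2, 2], 1, [(65, 1)]⟩,
⟨2, [⟨8, 4, []⟩, ⟨2, 4, []⟩, ⟨65, 4, []⟩], [7], 1, [(11, 1), (74, 1)]⟩,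
⟨2, [⟨24, 2, []⟩, ⟨192, 4, []⟩], [3, 1, 1], 1, [(72, 1), (80, 1), (136, 1), (144, 1)]⟩,
⟨2, [⟨8, 4, []⟩, ⟨128, 2, []⟩], [3, 2, 2], 1, [(136, 1)]⟩,
⟨1, [⟨130, 2, []⟩, ⟨32, 2, []⟩], [3, 3, 3], 1, [(34, 1), (160, 1)]⟩,
⟨2, [⟨5, 4, []⟩, ⟨130, 2, []⟩], [3, 2, 2], 1, [(3, 1), (6, 1), (129, 1), (132, 1)]⟩,
⟨1, [⟨80, 2, []⟩, ⟨2, 2, []⟩], [3, 3, 3], 1, [(18, 1), (66, 1)]⟩,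
⟨1, [⟨14, 2, []⟩, ⟨80, 2, []⟩], [3, 3, 3], 1, [(18, 1), (20, 1), (24, 1), (66, 1), (68, 1), (72, 1)]⟩,
⟨2, [⟨6, 4, []⟩, ⟨32, 2, []⟩], [3, 2, 2], 1, [(34, 1), (36, 1)]⟩,
⟨2, [⟨9, 4, []⟩, ⟨34, 4, []⟩, ⟨4, 4, []⟩], [7], 1, [(7, 1), (14, 1), (37, 1), (44, 1)]⟩,
⟨1, [⟨10, 2, []⟩, ⟨96, 2, []⟩], [3, 3, 3], 1, [(34, 1), (40, 1), (66, 1), (72, 1)]⟩,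
⟨1, [⟨36, 2, []⟩, ⟨130, 2, []⟩], [3, 3, 3], 1, [(6, 1), (34, 1), (132, 1), (160, 1)]⟩,
⟨2, [⟨4, 3, []⟩, ⟨10, 3, []⟩], [3, 3], 1, [(6, 1), (12, 1)]⟩,
⟨2, [⟨4, 4, []⟩, ⟨32, 4, []⟩, ⟨80, 4, []⟩], [7], 1, [(52, 1), (100, 1)]⟩,
⟨2, [⟨8, 2, []⟩, ⟨32, 2, []⟩, ⟨1, 3, []⟩, ⟨2, 3, []⟩, ⟨64, 3, []⟩], [3, 3, 3, 28, 28], 2, [(40, 1), (67, 1), (107, 2)]⟩,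
⟨2, [⟨16, 4, []⟩, ⟨4, 2, []⟩], [3, 2, 2], 1, [(20, 1)]⟩,
⟨2, [⟨65, 2, []⟩, ⟨4, 4, []⟩], [3, 1, 1], 1, [(5, 1), (68, 1)]⟩,
⟨1, [⟨33, 2, []⟩, ⟨134, 2, []⟩], [3, 3, 3], 1, [(3, 1), (5, 1), (34, 1), (36, 1), (129, 1), (160, 1)]⟩,
⟨2, [⟨10, 4, []⟩, ⟨16, 4, []⟩, ⟨64, 4, []⟩], [7], 1, [(82, 1), (88, 1)]⟩,
⟨2, [⟨1, 2, []⟩, ⟨2, 2, []⟩, ⟨16, 3, []⟩, ⟨32, 3, []⟩, ⟨64, 5, []⟩], [3, 3, 3, 12, 12], 2, [(67, 1), (112, 1), (115, 2)]⟩,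
⟨0, [⟨1, 2, []⟩, ⟨66, 2, []⟩], [3, 3, 3], 1, [(3, 1), (65, 1)]⟩,
⟨2, [⟨0, 0, [(9, 2)]⟩, ⟨160, 4, []⟩], [3, 1, 1], 1, [(41, 1), (137, 1)]⟩,
⟨1, [⟨5, 2, []⟩, ⟨130, 2, []⟩], [3, 3, 3], 1, [(3, 1), (6, 1), (129, 1), (132, 1)]⟩,
⟨1, [⟨18, 2, []⟩, ⟨4, 2, []⟩], [3, 3, 3], 1, [(6, 1), (20, 1)]⟩,
⟨1, [⟨4, 4, []⟩, ⟨64, 2, []⟩], [3, 2, 2], 1, [(68, 1)]⟩,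
⟨2, [⟨17, 4, []⟩, ⟨40, 4, []⟩, ⟨64, 4, []⟩], [7], 1, [(73, 1), (88, 1), (97, 1), (112, 1)]⟩,
⟨0, [⟨20, 2, []⟩, ⟨64, 2, []⟩], [3, 3, 3], 1, [(68, 1), (80, 1)]⟩,
⟨2, [⟨4, 2, []⟩, ⟨8, 3, []⟩, ⟨32, 3, []⟩, ⟨128, 3, []⟩, ⟨64, 4, []⟩], [9, 9, 17, 6, 6], 2, [(104, 1), (168, 1), (196, 1), (236, 2)]⟩,
⟨2, [⟨4, 3, []⟩, ⟨48, 5, []⟩, ⟨128, 5, []⟩], [1, 1], 1, [(148, 1), (164, 1)]⟩,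
⟨2, [⟨20, 4, []⟩, ⟨160, 4, []⟩, ⟨64, 4, []⟩], [7], 1, [(100, 1), (112, 1), (196, 1), (208, 1)]⟩,
⟨1, [⟨65, 2, []⟩, ⟨8, 2, []⟩], [3, 3, 3], 1, [(9, 1), (72, 1)]⟩,
⟨2, [⟨2, 2, []⟩, ⟨8, 3, []⟩, ⟨16, 3, []⟩, ⟨128, 3, []⟩, ⟨64, 4, []⟩], [9, 9, 17, 6, 6], 2, [(88, 1), (152, 1), (194, 1), (218, 2)]⟩,
⟨1, [⟨20, 2, []⟩, ⟨96, 2, []⟩], [3, 3, 3], 1, [(36, 1), (48, 1), (68, 1), (80, 1)]⟩,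
⟨2, [⟨0, 0, [(66, 3)]⟩, ⟨1, 2, []⟩, ⟨16, 3, []⟩, ⟨32, 3, []⟩], [1, 1, 2, 2, 2, 12, 12], 2, [(49, 1), (67, 1), (114, 1), (115, 2)]⟩,
⟨2, [⟨36, 4, []⟩, ⟨24, 4, []⟩, ⟨128, 4, []⟩], [7], 1, [(140, 1), (148, 1), (168, 1), (176, 1)]⟩,
⟨2, [⟨10, 4, []⟩, ⟨160, 4, []⟩, ⟨64, 4, []⟩], [7], 1, [(98, 1), (104, 1), (194, 1), (200, 1)]⟩,
⟨2, [⟨129, 3, []⟩, ⟨4, 3, []⟩], [3, 3], 1, [(5, 1), (132, 1)]⟩,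
⟨1, [⟨6, 2, []⟩, ⟨72, 2, []⟩], [3, 3, 3], 1, [(10, 1), (12, 1), (66, 1), (68, 1)]⟩,
⟨1, [⟨10, 2, []⟩, ⟨176, 2, []⟩], [3, 3, 3], 1, [(18, 1), (24, 1), (34, 1), (40, 1), (130, 1), (136, 1)]⟩,
⟨2, [⟨36, 3, []⟩, ⟨64, 3, []⟩], [3, 3], 1, [(68, 1), (96, 1)]⟩,
⟨1, [⟨24, 2, []⟩, ⟨96, 2, []⟩], [3, 3, 3], 1, [(40, 1), (48, 1), (72, 1), (80, 1)]⟩,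
⟨2, [⟨10, 4, []⟩, ⟨16, 4, []⟩, ⟨128, 4, []⟩], [7], 1, [(146, 1), (152, 1)]⟩,
⟨1, [⟨33, 2, []⟩, ⟨68, 2, []⟩], [3, 3, 3], 1, [(5, 1), (36, 1), (65, 1), (96, 1)]⟩,
⟨1, [⟨33, 2, []⟩, ⟨64, 2, []⟩], [3, 3, 3], 1, [(65, 1), (96, 1)]⟩,
⟨2, [⟨8, 2, []⟩, ⟨32, 4, []⟩], [3, 1, 1], 1, [(40, 1)]⟩,
⟨1, [⟨24, 2, []⟩, ⟨130, 2, []⟩], [3, 3, 3], 1, [(10, 1), (18, 1), (136, 1), (144, 1)]⟩,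
⟨1, [⟨20, 2, []⟩, ⟨128, 2, []⟩], [3, 3, 3], 1, [(132, 1), (144, 1)]⟩,
⟨1, [⟨9, 2, []⟩, ⟨4, 2, []⟩], [3, 3, 3], 1, [(5, 1), (12, 1)]⟩,
⟨0, [⟨129, 2, []⟩, ⟨64, 2, []⟩], [3, 3, 3], 1, [(65, 1), (192, 1)]⟩,
⟨2, [⟨68, 5, []⟩, ⟨8, 3, []⟩, ⟨48, 5, []⟩], [2, 2], 1, [(28, 1), (44, 1), (88, 1), (104, 1)]⟩,
⟨2, [⟨16, 3, []⟩, ⟨9, 3, []⟩], [3, 3], 1, [(17, 1), (24, 1)]⟩,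
⟨2, [⟨0, 0, [(34, 2)]⟩, ⟨136, 4, []⟩], [3, 1, 1], 1, [(42, 1), (162, 1)]⟩,
⟨0, [⟨66, 2, []⟩, ⟨8, 2, []⟩], [3, 3, 3], 1, [(10, 1), (72, 1)]⟩,
⟨2, [⟨130, 4, []⟩, ⟨32, 4, []⟩, ⟨80, 4, []⟩], [7], 1, [(50, 1), (98, 1), (176, 1), (224, 1)]⟩,
⟨2, [⟨66, 2, []⟩, ⟨4, 3, []⟩, ⟨8, 3, []⟩, ⟨32, 3, []⟩, ⟨128, 4, []⟩], [3, 3, 17, 12, 12], 2, [(44, 1), (134, 1), (168, 1), (174, 2), (196, 1), (236, 2)]⟩,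
⟨1, [⟨36, 2, []⟩, ⟨131, 2, []⟩], [3, 3, 3], 1, [(5, 1), (6, 1), (33, 1), (34, 1), (132, 1), (160, 1)]⟩,
⟨2, [⟨16, 4, []⟩, ⟨4, 4, []⟩, ⟨65, 4, []⟩], [7], 1, [(21, 1), (84, 1)]⟩,
⟨0, [⟨18, 2, []⟩, ⟨192, 2, []⟩], [3, 3, 3], 1, [(66, 1), (80, 1), (130, 1), (144, 1)]⟩,
⟨2, [⟨68, 4, []⟩, ⟨16, 4, []⟩, ⟨160, 4, []⟩], [7], 1, [(52, 1), (112, 1), (148, 1), (208, 1)]⟩,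
⟨2, [⟨2, 4, []⟩, ⟨8, 4, []⟩, ⟨144, 4, []⟩], [7], 1, [(26, 1), (138, 1)]⟩,
⟨2, [⟨5, 2, []⟩, ⟨128, 4, []⟩], [3, 1, 1], 1, [(129, 1), (132, 1)]⟩,
⟨2, [⟨0, 0, [(68, 3)]⟩, ⟨1, 2, []⟩, ⟨16, 3, []⟩, ⟨32, 3, []⟩], [1, 1, 2, 2, 2, 12, 12], 2, [(49, 1), (69, 1), (116, 1), (117, 2)]⟩,
⟨2, [⟨16, 2, []⟩, ⟨32, 2, []⟩, ⟨2, 3, []⟩, ⟨4, 4, []⟩, ⟨64, 4, []⟩], [3, 3, 3, 12, 20], 2, [(52, 1), (70, 1), (112, 1), (118, 2)]⟩,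
⟨2, [⟨4, 3, []⟩, ⟨136, 3, []⟩], [3, 3], 1, [(12, 1), (132, 1)]⟩,
⟨2, [⟨36, 4, []⟩, ⟨3, 4, []⟩, ⟨128, 4, []⟩], [7], 1, [(133, 1), (134, 1), (161, 1), (162, 1)]⟩,
⟨1, [⟨72, 2, []⟩, ⟨128, 2, []⟩], [3, 3, 3], 1, [(136, 1), (192, 1)]⟩,
⟨2, [⟨128, 2, []⟩, ⟨64, 4, []⟩], [3, 1, 1], 1, [(192, 1)]⟩,
⟨2, [⟨32, 4, []⟩, ⟨64, 4, []⟩, ⟨128, 4, []⟩], [7], 1, [(224, 1)]⟩,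
⟨0, [⟨32, 2, []⟩, ⟨80, 2, []⟩], [3, 3, 3], 1, [(48, 1), (96, 1)]⟩,
⟨2, [⟨4, 4, []⟩, ⟨32, 4, []⟩, ⟨144, 4, []⟩], [7], 1, [(52, 1), (164, 1)]⟩,
⟨1, [⟨33, 2, []⟩, ⟨128, 2, []⟩], [3, 3, 3], 1, [(129, 1), (160, 1)]⟩,
⟨2, [⟨4, 2, []⟩, ⟨2, 4, []⟩], [3, 1, 1], 1, [(6, 1)]⟩,
⟨2, [⟨2, 4, []⟩, ⟨16, 4, []⟩, ⟨96, 4, []⟩], [7], 1, [(50, 1), (82, 1)]⟩,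
⟨2, [⟨48, 3, []⟩, ⟨8, 3, []⟩], [3, 3], 1, [(24, 1), (40, 1)]⟩,
⟨2, [⟨4, 2, []⟩, ⟨8, 3, []⟩, ⟨16, 3, []⟩, ⟨64, 3, []⟩, ⟨128, 4, []⟩], [9, 9, 17, 6, 6], 2, [(88, 1), (152, 1), (196, 1), (220, 2)]⟩,
⟨2, [⟨80, 2, []⟩, ⟨32, 3, []⟩, ⟨2, 3, []⟩, ⟨4, 3, []⟩, ⟨128, 4, []⟩], [3, 3, 17, 12, 12], 2, [(38, 1), (134, 1), (176, 1), (182, 2), (224, 1), (230, 2)]⟩,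
⟨1, [⟨80, 2, []⟩, ⟨128, 2, []⟩], [3, 3, 3], 1, [(144, 1), (192, 1)]⟩,
⟨2, [⟨8, 2, []⟩, ⟨32, 2, []⟩, ⟨1, 3, []⟩, ⟨4, 4, []⟩, ⟨128, 4, []⟩], [3, 3, 3, 12, 20], 2, [(44, 1), (133, 1), (168, 1), (173, 2)]⟩,
⟨2, [⟨160, 4, []⟩, ⟨2, 4, []⟩, ⟨68, 4, []⟩], [7], 1, [(38, 1), (98, 1), (134, 1), (194, 1)]⟩,
⟨2, [⟨2, 3, []⟩, ⟨36, 3, []⟩], [3, 3], 1, [(6, 1), (34, 1)]⟩,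
⟨2, [⟨24, 2, []⟩, ⟨160, 4, []⟩], [3, 1, 1], 1, [(40, 1), (48, 1), (136, 1), (144, 1)]⟩,
⟨2, [⟨24, 2, []⟩, ⟨96, 4, []⟩], [3, 1, 1], 1, [(40, 1), (48, 1), (72, 1), (80, 1)]⟩,
⟨2, [⟨129, 5, []⟩, ⟨8, 3, []⟩, ⟨48, 5, []⟩], [2, 2], 1, [(25, 1), (41, 1), (152, 1), (168, 1)]⟩,
⟨1, [⟨18, 2, []⟩, ⟨128, 2, []⟩], [3, 3, 3], 1, [(130, 1), (144, 1)]⟩,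
⟨1, [⟨6, 2, []⟩, ⟨40, 2, []⟩], [3, 3, 3], 1, [(10, 1), (12, 1), (34, 1), (36, 1)]⟩,
⟨2, [⟨34, 2, []⟩, ⟨128, 4, []⟩], [3, 1, 1], 1, [(130, 1), (160, 1)]⟩,
⟨1, [⟨21, 2, []⟩, ⟨96, 2, []⟩], [3, 3, 3], 1, [(33, 1), (36, 1), (48, 1), (65, 1), (68, 1), (80, 1)]⟩,
⟨2, [⟨4, 4, []⟩, ⟨16, 4, []⟩, ⟨136, 4, []⟩], [7], 1, [(28, 1), (148, 1)]⟩,
⟨1, [⟨1, 2, []⟩, ⟨128, 4, []⟩], [3, 1, 1], 1, [(129, 1)]⟩,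
⟨2, [⟨10, 4, []⟩, ⟨64, 4, []⟩, ⟨128, 4, []⟩], [7], 1, [(194, 1), (200, 1)]⟩,
⟨1, [⟨34, 2, []⟩, ⟨192, 2, []⟩], [3, 3, 3], 1, [(66, 1), (96, 1), (130, 1), (160, 1)]⟩,
⟨2, [⟨32, 4, []⟩, ⟨4, 4, []⟩, ⟨65, 4, []⟩], [7], 1, [(37, 1), (100, 1)]⟩,
⟨2, [⟨80, 3, []⟩, ⟨8, 3, []⟩], [3, 3], 1, [(24, 1), (72, 1)]⟩,
⟨2, [⟨130, 2, []⟩, ⟨4, 4, []⟩], [3, 1, 1], 1, [(6, 1), (132, 1)]⟩,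
⟨2, [⟨16, 4, []⟩, ⟨2, 4, []⟩, ⟨132, 4, []⟩], [7], 1, [(22, 1), (146, 1)]⟩,
⟨1, [⟨20, 2, []⟩, ⟨64, 4, []⟩], [3, 1, 1], 1, [(68, 1), (80, 1)]⟩,
⟨2, [⟨1, 2, []⟩, ⟨4, 2, []⟩, ⟨16, 3, []⟩, ⟨32, 3, []⟩, ⟨64, 3, []⟩], [3, 3, 3, 28, 28], 2, [(5, 1), (112, 1), (117, 2)]⟩,
⟨1, [⟨40, 2, []⟩, ⟨64, 4, []⟩], [3, 1, 1], 1, [(72, 1), (96, 1)]⟩,
⟨2, [⟨32, 4, []⟩, ⟨64, 2, []⟩], [3, 2, 2], 1, [(96, 1)]⟩,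
⟨1, [⟨144, 2, []⟩, ⟨4, 2, []⟩], [3, 3, 3], 1, [(20, 1), (132, 1)]⟩,
⟨0, [⟨24, 2, []⟩, ⟨68, 2, []⟩], [3, 3, 3], 1, [(12, 1), (20, 1), (72, 1), (80, 1)]⟩,
⟨2, [⟨1, 2, []⟩, ⟨4, 2, []⟩, ⟨16, 3, []⟩, ⟨32, 4, []⟩, ⟨128, 4, []⟩], [3, 3, 3, 12, 20], 2, [(37, 1), (133, 1), (176, 1), (181, 2)]⟩,
⟨2, [⟨2, 2, []⟩, ⟨64, 4, []⟩], [3, 1, 1], 1, [(66, 1)]⟩,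
⟨1, [⟨32, 2, []⟩, ⟨16, 4, []⟩], [3, 1, 1], 1, [(48, 1)]⟩,
⟨2, [⟨40, 4, []⟩, ⟨80, 2, []⟩], [3, 2, 2], 1, [(24, 1), (48, 1), (72, 1), (96, 1)]⟩,
⟨0, [⟨8, 2, []⟩, ⟨128, 4, []⟩], [3, 1, 1], 1, [(136, 1)]⟩,
⟨1, [⟨34, 2, []⟩, ⟨24, 2, []⟩], [3, 3, 3], 1, [(10, 1), (18, 1), (40, 1), (48, 1)]⟩,
⟨2, [⟨96, 3, []⟩, ⟨16, 3, []⟩], [3, 3], 1, [(48, 1), (80, 1)]⟩,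
⟨2, [⟨0, 0, [(12, 2)]⟩, ⟨66, 4, []⟩], [3, 1, 1], 1, [(14, 1), (76, 1)]⟩,
⟨1, [⟨9, 2, []⟩, ⟨16, 2, []⟩], [3, 3, 3], 1, [(17, 1), (24, 1)]⟩,
⟨2, [⟨4, 4, []⟩, ⟨24, 4, []⟩, ⟨64, 4, []⟩], [7], 1, [(76, 1), (84, 1)]⟩,
⟨2, [⟨18, 4, []⟩, ⟨5, 4, []⟩, ⟨128, 4, []⟩], [7], 1, [(131, 1), (134, 1), (145, 1), (148, 1)]⟩,
⟨2, [⟨10, 4, []⟩, ⟨36, 4, []⟩, ⟨64, 4, []⟩], [7], 1, [(70, 1), (76, 1), (98, 1), (104, 1)]⟩,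
⟨2, [⟨4, 4, []⟩, ⟨66, 4, []⟩, ⟨128, 4, []⟩], [7], 1, [(134, 1), (196, 1)]⟩,
⟨2, [⟨2, 4, []⟩, ⟨48, 4, []⟩, ⟨128, 4, []⟩], [7], 1, [(146, 1), (162, 1)]⟩,
⟨1, [⟨10, 2, []⟩, ⟨160, 2, []⟩], [3, 3, 3], 1, [(34, 1), (40, 1), (130, 1), (136, 1)]⟩,
⟨0, [⟨6, 2, []⟩, ⟨129, 2, []⟩], [3, 3, 3], 1, [(3, 1), (5, 1), (130, 1), (132, 1)]⟩,
⟨1, [⟨20, 2, []⟩, ⟨32, 2, []⟩], [3, 3, 3], 1, [(36, 1), (48, 1)]⟩,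
⟨0, [⟨24, 2, []⟩, ⟨64, 4, []⟩], [3, 1, 1], 1, [(72, 1), (80, 1)]⟩,
⟨1, [⟨34, 2, []⟩, ⟨1, 2, []⟩], [3, 3, 3], 1, [(3, 1), (33, 1)]⟩,
⟨0, [⟨36, 2, []⟩, ⟨64, 2, []⟩], [3, 3, 3], 1, [(68, 1), (96, 1)]⟩,
⟨2, [⟨32, 2, []⟩, ⟨128, 4, []⟩], [3, 1, 1], 1, [(160, 1)]⟩,
⟨2, [⟨129, 4, []⟩, ⟨32, 4, []⟩, ⟨80, 4, []⟩], [7], 1, [(49, 1), (97, 1), (176, 1), (224, 1)]⟩,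
⟨2, [⟨2, 3, []⟩, ⟨96, 3, []⟩], [3, 3], 1, [(34, 1), (66, 1)]⟩,
⟨2, [⟨33, 4, []⟩, ⟨4, 4, []⟩, ⟨128, 4, []⟩], [7], 1, [(133, 1), (164, 1)]⟩,
⟨2, [⟨9, 4, []⟩, ⟨34, 4, []⟩, ⟨16, 4, []⟩], [7], 1, [(19, 1), (26, 1), (49, 1), (56, 1)]⟩,
⟨2, [⟨32, 3, []⟩, ⟨66, 3, []⟩], [3, 3], 1, [(34, 1), (96, 1)]⟩,
⟨2, [⟨1, 2, []⟩, ⟨4, 2, []⟩, ⟨8, 3, []⟩, ⟨32, 3, []⟩, ⟨64, 3, []⟩], [3, 3, 3, 28, 28], 2, [(5, 1), (104, 1), (109, 2)]⟩,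
⟨2, [⟨0, 0, [(18, 2)]⟩, ⟨132, 4, []⟩], [3, 1, 1], 1, [(22, 1), (146, 1)]⟩,
⟨2, [⟨136, 2, []⟩, ⟨64, 4, []⟩], [3, 1, 1], 1, [(72, 1), (192, 1)]⟩,
⟨2, [⟨10, 4, []⟩, ⟨32, 4, []⟩, ⟨128, 4, []⟩], [7], 1, [(162, 1), (168, 1)]⟩,
⟨1, [⟨24, 2, []⟩, ⟨32, 2, []⟩], [3, 3, 3], 1, [(40, 1), (48, 1)]⟩,
⟨0, [⟨5, 2, []⟩, ⟨160, 2, []⟩], [3, 3, 3], 1, [(33, 1), (36, 1), (129, 1), (132, 1)]⟩,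
⟨2, [⟨2, 2, []⟩, ⟨4, 4, []⟩], [3, 1, 1], 1, [(6, 1)]⟩,
⟨1, [⟨36, 2, []⟩, ⟨66, 2, []⟩], [3, 3, 3], 1, [(6, 1), (34, 1), (68, 1), (96, 1)]⟩,
⟨1, [⟨80, 2, []⟩, ⟨4, 2, []⟩], [3, 3, 3], 1, [(20, 1), (68, 1)]⟩,
⟨2, [⟨17, 4, []⟩, ⟨40, 4, []⟩, ⟨128, 4, []⟩], [7], 1, [(137, 1), (152, 1), (161, 1), (176, 1)]⟩,
⟨0, [⟨33, 2, []⟩, ⟨2, 2, []⟩], [3, 3, 3], 1, [(3, 1), (34, 1)]⟩,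
⟨1, [⟨40, 2, []⟩, ⟨16, 2, []⟩], [3, 3, 3], 1, [(24, 1), (48, 1)]⟩,
⟨1, [⟨4, 2, []⟩, ⟨128, 4, []⟩], [3, 1, 1], 1, [(132, 1)]⟩,
⟨2, [⟨8, 2, []⟩, ⟨32, 2, []⟩, ⟨4, 3, []⟩, ⟨2, 4, []⟩, ⟨128, 4, []⟩], [3, 3, 3, 12, 20], 2, [(42, 1), (134, 1), (168, 1), (174, 2)]⟩,
⟨2, [⟨66, 4, []⟩, ⟨8, 4, []⟩, ⟨160, 4, []⟩], [7], 1, [(42, 1), (104, 1), (138, 1), (200, 1)]⟩,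
⟨2, [⟨10, 4, []⟩, ⟨17, 4, []⟩, ⟨4, 4, []⟩], [7], 1, [(7, 1), (13, 1), (22, 1), (28, 1)]⟩,
⟨0, [⟨3, 2, []⟩, ⟨132, 2, []⟩], [3, 3, 3], 1, [(5, 1), (6, 1), (129, 1), (130, 1)]⟩,
⟨2, [⟨33, 3, []⟩, ⟨64, 3, []⟩], [3, 3], 1, [(65, 1), (96, 1)]⟩,
⟨2, [⟨9, 4, []⟩, ⟨18, 4, []⟩, ⟨32, 4, []⟩], [7], 1, [(35, 1), (42, 1), (49, 1), (56, 1)]⟩,
⟨2, [⟨66, 2, []⟩, ⟨128, 4, []⟩], [3, 1, 1], 1, [(130, 1), (192, 1)]⟩,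
⟨1, [⟨5, 2, []⟩, ⟨160, 2, []⟩], [3, 3, 3], 1, [(33, 1), (36, 1), (129, 1), (132, 1)]⟩,
⟨0, [⟨33, 2, []⟩, ⟨152, 2, []⟩], [3, 3, 3], 1, [(9, 1), (17, 1), (40, 1), (48, 1), (129, 1), (160, 1)]⟩,
⟨2, [⟨3, 2, []⟩, ⟨132, 4, []⟩], [3, 1, 1], 1, [(5, 1), (6, 1), (129, 1), (130, 1)]⟩,
⟨1, [⟨8, 2, []⟩, ⟨96, 2, []⟩], [3, 3, 3], 1, [(40, 1), (72, 1)]⟩,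
⟨1, [⟨40, 2, []⟩, ⟨132, 2, []⟩], [3, 3, 3], 1, [(12, 1), (36, 1), (136, 1), (160, 1)]⟩,
⟨2, [⟨9, 4, []⟩, ⟨20, 4, []⟩, ⟨32, 4, []⟩], [7], 1, [(37, 1), (44, 1), (49, 1), (56, 1)]⟩,
⟨1, [⟨66, 2, []⟩, ⟨160, 2, []⟩], [3, 3, 3], 1, [(34, 1), (96, 1), (130, 1), (192, 1)]⟩,
⟨2, [⟨32, 2, []⟩, ⟨64, 4, []⟩], [3, 1, 1], 1, [(96, 1)]⟩,
⟨2, [⟨2, 4, []⟩, ⟨4, 4, []⟩, ⟨64, 4, []⟩], [7], 1, [(70, 1)]⟩,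
⟨1, [⟨129, 2, []⟩, ⟨16, 2, []⟩], [3, 3, 3], 1, [(17, 1), (144, 1)]⟩,
⟨2, [⟨36, 4, []⟩, ⟨24, 4, []⟩, ⟨64, 4, []⟩], [7], 1, [(76, 1), (84, 1), (104, 1), (112, 1)]⟩,
⟨0, [⟨17, 2, []⟩, ⟨104, 2, []⟩], [3, 3, 3], 1, [(9, 1), (24, 1), (33, 1), (48, 1), (65, 1), (80, 1)]⟩,
⟨2, [⟨0, 0, [(17, 2)]⟩, ⟨10, 4, []⟩], [3, 1, 1], 1, [(19, 1), (25, 1)]⟩,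
⟨2, [⟨132, 3, []⟩, ⟨1, 3, []⟩], [3, 3], 1, [(5, 1), (129, 1)]⟩,
⟨2, [⟨0, 0, [(33, 2)]⟩, ⟨10, 4, []⟩], [3, 1, 1], 1, [(35, 1), (41, 1)]⟩,
⟨2, [⟨12, 4, []⟩, ⟨80, 4, []⟩, ⟨128, 4, []⟩], [7], 1, [(148, 1), (152, 1), (196, 1), (200, 1)]⟩,
⟨0, [⟨33, 2, []⟩, ⟨88, 2, []⟩], [3, 3, 3], 1, [(9, 1), (17, 1), (40, 1), (48, 1), (65, 1), (96, 1)]⟩,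
⟨2, [⟨16, 2, []⟩, ⟨32, 2, []⟩, ⟨2, 3, []⟩, ⟨4, 4, []⟩, ⟨128, 4, []⟩], [3, 3, 3, 12, 20], 2, [(52, 1), (134, 1), (176, 1), (182, 2)]⟩,
⟨1, [⟨4, 2, []⟩, ⟨129, 2, []⟩], [3, 3, 3], 1, [(5, 1), (132, 1)]⟩,
⟨2, [⟨68, 5, []⟩, ⟨32, 3, []⟩, ⟨24, 5, []⟩], [2, 2], 1, [(44, 1), (52, 1), (104, 1), (112, 1)]⟩,
⟨2, [⟨16, 3, []⟩, ⟨130, 3, []⟩], [3, 3], 1, [(18, 1), (144, 1)]⟩,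
⟨2, [⟨65, 3, []⟩, ⟨2, 3, []⟩], [3, 3], 1, [(3, 1), (66, 1)]⟩,
⟨2, [⟨2, 4, []⟩, ⟨24, 4, []⟩, ⟨128, 4, []⟩], [7], 1, [(138, 1), (146, 1)]⟩,
⟨2, [⟨24, 4, []⟩, ⟨4, 2, []⟩], [3, 2, 2], 1, [(12, 1), (20, 1)]⟩,
⟨1, [⟨33, 2, []⟩, ⟨192, 2, []⟩], [3, 3, 3], 1, [(65, 1), (96, 1), (129, 1), (160, 1)]⟩,
⟨0, [⟨12, 2, []⟩, ⟨192, 2, []⟩], [3, 3, 3], 1, [(68, 1), (72, 1), (132, 1), (136, 1)]⟩,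
⟨2, [⟨32, 4, []⟩, ⟨136, 4, []⟩, ⟨64, 4, []⟩], [7], 1, [(104, 1), (224, 1)]⟩,
⟨2, [⟨0, 0, [(10, 2)]⟩, ⟨96, 4, []⟩], [3, 1, 1], 1, [(42, 1), (74, 1)]⟩,
⟨2, [⟨2, 4, []⟩, ⟨16, 4, []⟩, ⟨72, 4, []⟩], [7], 1, [(26, 1), (82, 1)]⟩,
⟨2, [⟨4, 3, []⟩, ⟨18, 3, []⟩], [3, 3], 1, [(6, 1), (20, 1)]⟩,
⟨1, [⟨42, 2, []⟩, ⟨68, 2, []⟩], [3, 3, 3], 1, [(6, 1), (12, 1), (36, 1), (66, 1), (72, 1), (96, 1)]⟩,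
⟨2, [⟨3, 4, []⟩, ⟨4, 2, []⟩], [3, 2, 2], 1, [(5, 1), (6, 1)]⟩,
⟨0, [⟨2, 2, []⟩, ⟨68, 2, []⟩], [3, 3, 3], 1, [(6, 1), (66, 1)]⟩,
⟨0, [⟨136, 2, []⟩, ⟨1, 2, []⟩], [3, 3, 3], 1, [(9, 1), (129, 1)]⟩,
⟨0, [⟨9, 2, []⟩, ⟨48, 2, []⟩], [3, 3, 3], 1, [(17, 1), (24, 1), (33, 1), (40, 1)]⟩,
⟨2, [⟨10, 3, []⟩, ⟨64, 3, []⟩], [3, 3], 1, [(66, 1), (72, 1)]⟩,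
⟨2, [⟨2, 2, []⟩, ⟨4, 2, []⟩, ⟨8, 3, []⟩, ⟨32, 3, []⟩, ⟨64, 5, []⟩], [3, 3, 3, 12, 12], 2, [(70, 1), (104, 1), (110, 2)]⟩,
⟨0, [⟨3, 2, []⟩, ⟨192, 2, []⟩], [3, 3, 3], 1, [(65, 1), (66, 1), (129, 1), (130, 1)]⟩,
⟨0, [⟨136, 2, []⟩, ⟨64, 2, []⟩], [3, 3, 3], 1, [(72, 1), (192, 1)]⟩,
⟨0, [⟨10, 2, []⟩, ⟨64, 2, []⟩], [3, 3, 3], 1, [(66, 1), (72, 1)]⟩,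
⟨2, [⟨32, 3, []⟩, ⟨18, 3, []⟩], [3, 3], 1, [(34, 1), (48, 1)]⟩,
⟨1, [⟨6, 2, []⟩, ⟨192, 2, []⟩], [3, 3, 3], 1, [(66, 1), (68, 1), (130, 1), (132, 1)]⟩,
⟨1, [⟨96, 2, []⟩, ⟨4, 2, []⟩], [3, 3, 3], 1, [(36, 1), (68, 1)]⟩,
⟨0, [⟨80, 2, []⟩, ⟨4, 2, []⟩], [3, 3, 3], 1, [(20, 1), (68, 1)]⟩,
⟨2, [⟨10, 4, []⟩, ⟨20, 4, []⟩, ⟨128, 4, []⟩], [7], 1, [(134, 1), (140, 1), (146, 1), (152, 1)]⟩,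
⟨2, [⟨1, 2, []⟩, ⟨4, 2, []⟩, ⟨16, 3, []⟩, ⟨32, 3, []⟩, ⟨128, 3, []⟩], [3, 3, 3, 28, 28], 2, [(5, 1), (176, 1), (181, 2)]⟩,
⟨1, [⟨8, 2, []⟩, ⟨32, 4, []⟩], [3, 1, 1], 1, [(40, 1)]⟩,
⟨2, [⟨33, 2, []⟩, ⟨64, 4, []⟩], [3, 1, 1], 1, [(65, 1), (96, 1)]⟩,
⟨2, [⟨12, 4, []⟩, ⟨48, 4, []⟩, ⟨128, 4, []⟩], [7], 1, [(148, 1), (152, 1), (164, 1), (168, 1)]⟩,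
⟨2, [⟨20, 4, []⟩, ⟨8, 4, []⟩, ⟨64, 4, []⟩], [7], 1, [(76, 1), (88, 1)]⟩,
⟨2, [⟨65, 2, []⟩, ⟨4, 3, []⟩, ⟨16, 3, []⟩, ⟨32, 3, []⟩, ⟨128, 4, []⟩], [3, 3, 17, 12, 12], 2, [(52, 1), (133, 1), (176, 1), (181, 2), (196, 1), (244, 2)]⟩,
⟨2, [⟨65, 2, []⟩, ⟨128, 4, []⟩], [3, 1, 1], 1, [(129, 1), (192, 1)]⟩,
⟨2, [⟨0, 0, [(48, 2)]⟩, ⟨130, 4, []⟩], [3, 1, 1], 1, [(50, 1), (176, 1)]⟩,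
⟨1, [⟨16, 3, []⟩, ⟨128, 3, []⟩], [3, 3], 1, [(144, 1)]⟩,
⟨2, [⟨2, 2, []⟩, ⟨16, 3, []⟩, ⟨32, 3, []⟩, ⟨64, 3, []⟩, ⟨128, 4, []⟩], [9, 9, 17, 6, 6], 2, [(112, 1), (176, 1), (194, 1), (242, 2)]⟩,
⟨2, [⟨12, 4, []⟩, ⟨16, 2, []⟩], [3, 2, 2], 1, [(20, 1), (24, 1)]⟩,
⟨2, [⟨6, 2, []⟩, ⟨192, 4, []⟩], [3, 1, 1], 1, [(66, 1), (68, 1), (130, 1), (132, 1)]⟩,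
⟨2, [⟨36, 4, []⟩, ⟨8, 4, []⟩, ⟨128, 4, []⟩], [7], 1, [(140, 1), (168, 1)]⟩,
⟨2, [⟨0, 0, [(132, 3)]⟩, ⟨1, 2, []⟩, ⟨8, 3, []⟩, ⟨32, 3, []⟩], [1, 1, 2, 2, 2, 12, 12], 2, [(41, 1), (133, 1), (172, 1), (173, 2)]⟩,
⟨1, [⟨24, 2, []⟩, ⟨192, 2, []⟩], [3, 3, 3], 1, [(72, 1), (80, 1), (136, 1), (144, 1)]⟩,
⟨2, [⟨33, 4, []⟩, ⟨12, 4, []⟩, ⟨16, 4, []⟩], [7], 1, [(21, 1), (25, 1), (52, 1), (56, 1)]⟩,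
⟨2, [⟨0, 0, [(34, 2)]⟩, ⟨132, 4, []⟩], [3, 1, 1], 1, [(38, 1), (162, 1)]⟩,
⟨2, [⟨17, 5, []⟩, ⟨2, 3, []⟩, ⟨128, 5, []⟩], [2, 2], 1, [(131, 1), (146, 1)]⟩,
⟨2, [⟨4, 3, []⟩, ⟨48, 3, []⟩], [3, 3], 1, [(20, 1), (36, 1)]⟩,
⟨0, [⟨5, 2, []⟩, ⟨136, 2, []⟩], [3, 3, 3], 1, [(9, 1), (12, 1), (129, 1), (132, 1)]⟩,
⟨2, [⟨20, 2, []⟩, ⟨192, 4, []⟩], [3, 1, 1], 1, [(68, 1), (80, 1), (132, 1), (144, 1)]⟩,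
⟨1, [⟨160, 2, []⟩, ⟨64, 2, []⟩], [3, 3, 3], 1, [(96, 1), (192, 1)]⟩,
⟨2, [⟨1, 2, []⟩, ⟨4, 2, []⟩, ⟨32, 3, []⟩, ⟨16, 4, []⟩, ⟨64, 4, []⟩], [3, 3, 3, 12, 20], 2, [(21, 1), (69, 1), (112, 1), (117, 2)]⟩,
⟨0, [⟨64, 2, []⟩, ⟨128, 2, []⟩], [3, 3, 3], 1, [(192, 1)]⟩,
⟨2, [⟨33, 4, []⟩, ⟨2, 4, []⟩, ⟨128, 4, []⟩], [7], 1, [(131, 1), (162, 1)]⟩,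
⟨2, [⟨4, 3, []⟩, ⟨96, 3, []⟩], [3, 3], 1, [(36, 1), (68, 1)]⟩,
⟨1, [⟨12, 2, []⟩, ⟨1, 2, []⟩], [3, 3, 3], 1, [(5, 1), (9, 1)]⟩,
⟨0, [⟨129, 2, []⟩, ⟨96, 2, []⟩], [3, 3, 3], 1, [(33, 1), (65, 1), (160, 1), (192, 1)]⟩,
⟨2, [⟨4, 3, []⟩, ⟨72, 3, []⟩], [3, 3], 1, [(12, 1), (68, 1)]⟩,
⟨1, [⟨96, 2, []⟩, ⟨128, 2, []⟩], [3, 3, 3], 1, [(160, 1), (192, 1)]⟩,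
⟨0, [⟨130, 2, []⟩, ⟨8, 2, []⟩], [3, 3, 3], 1, [(10, 1), (136, 1)]⟩,
⟨2, [⟨4, 4, []⟩, ⟨32, 4, []⟩, ⟨136, 4, []⟩], [7], 1, [(44, 1), (164, 1)]⟩,
⟨2, [⟨144, 3, []⟩, ⟨32, 3, []⟩], [3, 3], 1, [(48, 1), (160, 1)]⟩,
⟨2, [⟨72, 4, []⟩, ⟨2, 4, []⟩, ⟨132, 4, []⟩], [7], 1, [(14, 1), (70, 1), (138, 1), (194, 1)]⟩,
⟨2, [⟨132, 5, []⟩, ⟨16, 3, []⟩, ⟨40, 5, []⟩], [2, 2], 1, [(28, 1), (52, 1), (152, 1), (176, 1)]⟩,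
⟨1, [⟨25, 2, []⟩, ⟨66, 2, []⟩], [3, 3, 3], 1, [(3, 1), (10, 1), (18, 1), (65, 1), (72, 1), (80, 1)]⟩,
⟨2, [⟨68, 2, []⟩, ⟨2, 3, []⟩, ⟨8, 3, []⟩, ⟨32, 3, []⟩, ⟨128, 4, []⟩], [3, 3, 17, 12, 12], 2, [(42, 1), (134, 1), (168, 1), (174, 2), (194, 1), (234, 2)]⟩,
⟨2, [⟨36, 4, []⟩, ⟨8, 2, []⟩], [3, 2, 2], 1, [(12, 1), (40, 1)]⟩,
⟨1, [⟨5, 2, []⟩, ⟨96, 2, []⟩], [3, 3, 3], 1, [(33, 1), (36, 1), (65, 1), (68, 1)]⟩,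
⟨0, [⟨64, 2, []⟩, ⟨128, 4, []⟩], [3, 1, 1], 1, [(192, 1)]⟩,
⟨2, [⟨144, 2, []⟩, ⟨64, 4, []⟩], [3, 1, 1], 1, [(80, 1), (192, 1)]⟩,
⟨2, [⟨2, 4, []⟩, ⟨64, 4, []⟩, ⟨128, 4, []⟩], [7], 1, [(194, 1)]⟩,
⟨1, [⟨160, 2, []⟩, ⟨1, 2, []⟩], [3, 3, 3], 1, [(33, 1), (129, 1)]⟩,
⟨2, [⟨0, 0, [(20, 2)]⟩, ⟨72, 4, []⟩], [3, 1, 1], 1, [(28, 1), (84, 1)]⟩,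
⟨2, [⟨0, 0, [(17, 2)]⟩, ⟨68, 4, []⟩], [3, 1, 1], 1, [(21, 1), (81, 1)]⟩,
⟨2, [⟨17, 5, []⟩, ⟨2, 3, []⟩, ⟨64, 5, []⟩], [2, 2], 1, [(67, 1), (82, 1)]⟩,
⟨2, [⟨10, 5, []⟩, ⟨16, 3, []⟩, ⟨128, 5, []⟩], [2, 2], 1, [(146, 1), (152, 1)]⟩,
⟨2, [⟨0, 0, [(65, 3)]⟩, ⟨4, 2, []⟩, ⟨16, 3, []⟩, ⟨32, 3, []⟩], [1, 1, 2, 2, 2, 12, 12], 2, [(52, 1), (69, 1), (113, 1), (117, 2)]⟩,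
⟨2, [⟨66, 4, []⟩, ⟨32, 4, []⟩, ⟨144, 4, []⟩], [7], 1, [(50, 1), (112, 1), (162, 1), (224, 1)]⟩,
⟨1, [⟨1, 2, []⟩, ⟨130, 2, []⟩], [3, 3, 3], 1, [(3, 1), (129, 1)]⟩,
⟨2, [⟨8, 2, []⟩, ⟨32, 2, []⟩, ⟨2, 3, []⟩, ⟨4, 4, []⟩, ⟨128, 4, []⟩], [3, 3, 3, 12, 20], 2, [(44, 1), (134, 1), (168, 1), (174, 2)]⟩,
⟨1, [⟨48, 2, []⟩, ⟨66, 2, []⟩], [3, 3, 3], 1, [(18, 1), (34, 1), (80, 1), (96, 1)]⟩,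
⟨2, [⟨34, 4, []⟩, ⟨4, 2, []⟩], [3, 2, 2], 1, [(6, 1), (36, 1)]⟩,
⟨1, [⟨16, 2, []⟩, ⟨8, 4, []⟩], [3, 1, 1], 1, [(24, 1)]⟩,
⟨2, [⟨80, 4, []⟩, ⟨2, 4, []⟩, ⟨132, 4, []⟩], [7], 1, [(22, 1), (70, 1), (146, 1), (194, 1)]⟩,
⟨2, [⟨18, 4, []⟩, ⟨33, 4, []⟩, ⟨4, 4, []⟩], [7], 1, [(7, 1), (21, 1), (38, 1), (52, 1)]⟩,
⟨2, [⟨6, 4, []⟩, ⟨48, 4, []⟩, ⟨64, 4, []⟩], [7], 1, [(82, 1), (84, 1), (98, 1), (100, 1)]⟩,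
⟨1, [⟨34, 2, []⟩, ⟨136, 2, []⟩], [3, 3, 3], 1, [(10, 1), (40, 1), (130, 1), (160, 1)]⟩,
⟨1, [⟨16, 2, []⟩, ⟨160, 2, []⟩], [3, 3, 3], 1, [(48, 1), (144, 1)]⟩,
⟨1, [⟨34, 2, []⟩, ⟨88, 2, []⟩], [3, 3, 3], 1, [(10, 1), (18, 1), (40, 1), (48, 1), (66, 1), (96, 1)]⟩,
⟨2, [⟨4, 4, []⟩, ⟨16, 4, []⟩, ⟨160, 4, []⟩], [7], 1, [(52, 1), (148, 1)]⟩,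
⟨0, [⟨40, 2, []⟩, ⟨68, 2, []⟩], [3, 3, 3], 1, [(12, 1), (36, 1), (72, 1), (96, 1)]⟩,
⟨2, [⟨36, 4, []⟩, ⟨80, 4, []⟩, ⟨128, 4, []⟩], [7], 1, [(148, 1), (176, 1), (196, 1), (224, 1)]⟩,
⟨2, [⟨1, 3, []⟩, ⟨4, 3, []⟩], [3, 3], 1, [(5, 1)]⟩,
⟨2, [⟨32, 3, []⟩, ⟨192, 3, []⟩], [3, 3], 1, [(96, 1), (160, 1)]⟩,
⟨0, [⟨34, 2, []⟩, ⟨64, 2, []⟩], [3, 3, 3], 1, [(66, 1), (96, 1)]⟩,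
⟨2, [⟨4, 3, []⟩, ⟨80, 3, []⟩], [3, 3], 1, [(20, 1), (68, 1)]⟩,
⟨2, [⟨4, 2, []⟩, ⟨64, 4, []⟩], [3, 1, 1], 1, [(68, 1)]⟩,
⟨2, [⟨0, 0, [(24, 2)]⟩, ⟨96, 4, []⟩], [3, 1, 1], 1, [(56, 1), (88, 1)]⟩,
⟨0, [⟨144, 2, []⟩, ⟨64, 2, []⟩], [3, 3, 3], 1, [(80, 1), (192, 1)]⟩,
⟨2, [⟨4, 4, []⟩, ⟨16, 4, []⟩, ⟨72, 4, []⟩], [7], 1, [(28, 1), (84, 1)]⟩,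
⟨1, [⟨96, 2, []⟩, ⟨2, 2, []⟩], [3, 3, 3], 1, [(34, 1), (66, 1)]⟩,
⟨2, [⟨132, 4, []⟩, ⟨8, 4, []⟩, ⟨96, 4, []⟩], [7], 1, [(44, 1), (76, 1), (168, 1), (200, 1)]⟩,
⟨1, [⟨18, 2, []⟩, ⟨160, 2, []⟩], [3, 3, 3], 1, [(34, 1), (48, 1), (130, 1), (144, 1)]⟩,
⟨2, [⟨168, 5, []⟩, ⟨16, 3, []⟩, ⟨65, 5, []⟩], [2, 2], 1, [(25, 1), (49, 1), (88, 1), (112, 1), (145, 1), (208, 1)]⟩,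
⟨2, [⟨16, 2, []⟩, ⟨1, 3, []⟩, ⟨2, 3, []⟩, ⟨64, 3, []⟩, ⟨128, 4, []⟩], [9, 9, 17, 6, 6], 2, [(67, 1), (131, 1), (208, 1), (211, 2)]⟩,
⟨2, [⟨0, 0, [(6, 2)]⟩, ⟨33, 4, []⟩], [3, 1, 1], 1, [(7, 1), (38, 1)]⟩,
⟨2, [⟨17, 4, []⟩, ⟨2, 4, []⟩, ⟨128, 4, []⟩], [7], 1, [(131, 1), (146, 1)]⟩,
⟨2, [⟨20, 3, []⟩, ⟨128, 3, []⟩], [3, 3], 1, [(132, 1), (144, 1)]⟩,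
⟨1, [⟨9, 2, []⟩, ⟨32, 2, []⟩], [3, 3, 3], 1, [(33, 1), (40, 1)]⟩,
⟨2, [⟨129, 5, []⟩, ⟨16, 3, []⟩, ⟨40, 5, []⟩], [2, 2], 1, [(25, 1), (49, 1), (152, 1), (176, 1)]⟩,
⟨1, [⟨6, 2, []⟩, ⟨48, 2, []⟩], [3, 3, 3], 1, [(18, 1), (20, 1), (34, 1), (36, 1)]⟩,
⟨2, [⟨65, 3, []⟩, ⟨128, 3, []⟩], [3, 3], 1, [(129, 1), (192, 1)]⟩,
⟨0, [⟨32, 2, []⟩, ⟨72, 2, []⟩], [3, 3, 3], 1, [(40, 1), (96, 1)]⟩,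
⟨1, [⟨1, 2, []⟩, ⟨68, 2, []⟩], [3, 3, 3], 1, [(5, 1), (65, 1)]⟩,
⟨2, [⟨32, 3, []⟩, ⟨9, 3, []⟩], [3, 3], 1, [(33, 1), (40, 1)]⟩,
⟨2, [⟨0, 0, [(129, 3)]⟩, ⟨2, 2, []⟩, ⟨8, 3, []⟩, ⟨32, 3, []⟩], [1, 1, 2, 2, 2, 12, 12], 2, [(42, 1), (131, 1), (169, 1), (171, 2)]⟩,
⟨0, [⟨18, 2, []⟩, ⟨40, 2, []⟩], [3, 3, 3], 1, [(10, 1), (24, 1), (34, 1), (48, 1)]⟩,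
⟨1, [⟨32, 2, []⟩, ⟨128, 4, []⟩], [3, 1, 1], 1, [(160, 1)]⟩,
⟨1, [⟨4, 2, []⟩, ⟨65, 2, []⟩], [3, 3, 3], 1, [(5, 1), (68, 1)]⟩,
⟨2, [⟨34, 4, []⟩, ⟨8, 2, []⟩], [3, 2, 2], 1, [(10, 1), (40, 1)]⟩,
⟨2, [⟨17, 4, []⟩, ⟨12, 4, []⟩, ⟨128, 4, []⟩], [7], 1, [(133, 1), (137, 1), (148, 1), (152, 1)]⟩,
⟨2, [⟨32, 2, []⟩, ⟨16, 4, []⟩], [3, 1, 1], 1, [(48, 1)]⟩,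
⟨2, [⟨2, 2, []⟩, ⟨4, 2, []⟩, ⟨32, 3, []⟩, ⟨16, 4, []⟩, ⟨64, 4, []⟩], [3, 3, 3, 12, 20], 2, [(22, 1), (70, 1), (112, 1), (118, 2)]⟩,
⟨2, [⟨8, 2, []⟩, ⟨32, 2, []⟩, ⟨2, 3, []⟩, ⟨4, 3, []⟩, ⟨128, 3, []⟩], [3, 3, 3, 28, 28], 2, [(40, 1), (134, 1), (174, 2)]⟩,
⟨2, [⟨16, 4, []⟩, ⟨32, 4, []⟩, ⟨128, 4, []⟩], [7], 1, [(176, 1)]⟩,
⟨1, [⟨40, 2, []⟩, ⟨130, 2, []⟩], [3, 3, 3], 1, [(10, 1), (34, 1), (136, 1), (160, 1)]⟩,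
⟨0, [⟨5, 2, []⟩, ⟨66, 2, []⟩], [3, 3, 3], 1, [(3, 1), (6, 1), (65, 1), (68, 1)]⟩,
⟨2, [⟨0, 0, [(48, 2)]⟩, ⟨12, 4, []⟩], [3, 1, 1], 1, [(52, 1), (56, 1)]⟩,
⟨1, [⟨80, 2, []⟩, ⟨1, 2, []⟩], [3, 3, 3], 1, [(17, 1), (65, 1)]⟩,
⟨2, [⟨132, 4, []⟩, ⟨8, 4, []⟩, ⟨80, 4, []⟩], [7], 1, [(28, 1), (76, 1), (152, 1), (200, 1)]⟩,
⟨2, [⟨18, 4, []⟩, ⟨40, 4, []⟩, ⟨64, 4, []⟩], [7], 1, [(74, 1), (88, 1), (98, 1), (112, 1)]⟩,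
⟨1, [⟨66, 2, []⟩, ⟨128, 2, []⟩], [3, 3, 3], 1, [(130, 1), (192, 1)]⟩,
⟨1, [⟨20, 2, []⟩, ⟨66, 2, []⟩], [3, 3, 3], 1, [(6, 1), (18, 1), (68, 1), (80, 1)]⟩,
⟨1, [⟨5, 2, []⟩, ⟨192, 2, []⟩], [3, 3, 3], 1, [(65, 1), (68, 1), (129, 1), (132, 1)]⟩,
⟨0, [⟨129, 2, []⟩, ⟨80, 2, []⟩], [3, 3, 3], 1, [(17, 1), (65, 1), (144, 1), (192, 1)]⟩,
⟨2, [⟨33, 4, []⟩, ⟨20, 4, []⟩, ⟨128, 4, []⟩], [7], 1, [(133, 1), (145, 1), (164, 1), (176, 1)]⟩,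
⟨2, [⟨48, 2, []⟩, ⟨136, 4, []⟩], [3, 1, 1], 1, [(24, 1), (40, 1), (144, 1), (160, 1)]⟩,
⟨2, [⟨68, 4, []⟩, ⟨32, 4, []⟩, ⟨144, 4, []⟩], [7], 1, [(52, 1), (112, 1), (164, 1), (224, 1)]⟩,
⟨2, [⟨65, 4, []⟩, ⟨32, 4, []⟩, ⟨136, 4, []⟩], [7], 1, [(41, 1), (104, 1), (161, 1), (224, 1)]⟩,
⟨2, [⟨72, 2, []⟩, ⟨32, 4, []⟩], [3, 1, 1], 1, [(40, 1), (96, 1)]⟩,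
⟨2, [⟨132, 5, []⟩, ⟨8, 3, []⟩, ⟨48, 5, []⟩], [2, 2], 1, [(28, 1), (44, 1), (152, 1), (168, 1)]⟩,
⟨2, [⟨20, 4, []⟩, ⟨32, 4, []⟩, ⟨64, 4, []⟩], [7], 1, [(100, 1), (112, 1)]⟩,
⟨1, [⟨72, 2, []⟩, ⟨128, 4, []⟩], [3, 1, 1], 1, [(136, 1), (192, 1)]⟩,
⟨2, [⟨8, 2, []⟩, ⟨16, 2, []⟩, ⟨1, 3, []⟩, ⟨2, 3, []⟩, ⟨64, 3, []⟩], [3, 3, 3, 28, 28], 2, [(24, 1), (67, 1), (91, 2)]⟩,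
⟨2, [⟨16, 2, []⟩, ⟨32, 2, []⟩, ⟨1, 3, []⟩, ⟨4, 3, []⟩, ⟨128, 5, []⟩], [3, 3, 3, 12, 12], 2, [(133, 1), (176, 1), (181, 2)]⟩,
⟨2, [⟨0, 0, [(65, 3)]⟩, ⟨4, 2, []⟩, ⟨8, 3, []⟩, ⟨16, 3, []⟩], [1, 1, 2, 2, 2, 12, 12], 2, [(28, 1), (69, 1), (89, 1), (93, 2)]⟩,
⟨2, [⟨64, 2, []⟩, ⟨128, 4, []⟩], [3, 1, 1], 1, [(192, 1)]⟩,
⟨2, [⟨1, 2, []⟩, ⟨2, 2, []⟩, ⟨16, 3, []⟩, ⟨32, 3, []⟩, ⟨128, 5, []⟩], [3, 3, 3, 12, 12], 2, [(131, 1), (176, 1), (179, 2)]⟩,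
⟨2, [⟨1, 2, []⟩, ⟨4, 4, []⟩], [3, 1, 1], 1, [(5, 1)]⟩,
⟨1, [⟨9, 2, []⟩, ⟨68, 2, []⟩], [3, 3, 3], 1, [(5, 1), (12, 1), (65, 1), (72, 1)]⟩,
⟨2, [⟨32, 2, []⟩, ⟨2, 3, []⟩, ⟨4, 3, []⟩, ⟨64, 3, []⟩, ⟨128, 4, []⟩], [9, 9, 17, 6, 6], 2, [(70, 1), (134, 1), (224, 1), (230, 2)]⟩,
⟨2, [⟨0, 0, [(132, 3)]⟩, ⟨1, 2, []⟩, ⟨16, 3, []⟩, ⟨32, 3, []⟩], [1, 1, 2, 2, 2, 12, 12], 2, [(49, 1), (133, 1), (180, 1), (181, 2)]⟩,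
⟨1, [⟨12, 2, []⟩, ⟨16, 2, []⟩], [3, 3, 3], 1, [(20, 1), (24, 1)]⟩,
⟨2, [⟨12, 5, []⟩, ⟨16, 3, []⟩, ⟨64, 5, []⟩], [2, 2], 1, [(84, 1), (88, 1)]⟩,
⟨1, [⟨36, 2, []⟩, ⟨64, 2, []⟩], [3, 3, 3], 1, [(68, 1), (96, 1)]⟩,
⟨0, [⟨10, 2, []⟩, ⟨4, 2, []⟩], [3, 3, 3], 1, [(6, 1), (12, 1)]⟩,
⟨2, [⟨18, 4, []⟩, ⟨4, 2, []⟩], [3, 2, 2], 1, [(6, 1), (20, 1)]⟩,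
⟨1, [⟨8, 2, []⟩, ⟨64, 4, []⟩], [3, 1, 1], 1, [(72, 1)]⟩,
⟨2, [⟨6, 4, []⟩, ⟨129, 2, []⟩], [3, 2, 2], 1, [(3, 1), (5, 1), (130, 1), (132, 1)]⟩,
⟨1, [⟨8, 2, []⟩, ⟨160, 2, []⟩], [3, 3, 3], 1, [(40, 1), (136, 1)]⟩,
⟨2, [⟨20, 4, []⟩, ⟨32, 4, []⟩, ⟨128, 4, []⟩], [7], 1, [(164, 1), (176, 1)]⟩,
⟨2, [⟨9, 4, []⟩, ⟨48, 4, []⟩, ⟨128, 4, []⟩], [7], 1, [(145, 1), (152, 1), (161, 1), (168, 1)]⟩,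
⟨1, [⟨36, 2, []⟩, ⟨8, 2, []⟩], [3, 3, 3], 1, [(12, 1), (40, 1)]⟩,
⟨0, [⟨72, 2, []⟩, ⟨2, 2, []⟩], [3, 3, 3], 1, [(10, 1), (66, 1)]⟩,
⟨2, [⟨17, 2, []⟩, ⟨128, 4, []⟩], [3, 1, 1], 1, [(129, 1), (144, 1)]⟩,
⟨2, [⟨1, 2, []⟩, ⟨2, 2, []⟩, ⟨8, 3, []⟩, ⟨16, 3, []⟩, ⟨128, 3, []⟩], [3, 3, 3, 28, 28], 2, [(3, 1), (152, 1), (155, 2)]⟩,
⟨2, [⟨1, 2, []⟩, ⟨2, 2, []⟩, ⟨16, 3, []⟩, ⟨32, 4, []⟩, ⟨128, 4, []⟩], [3, 3, 3, 12, 20], 2, [(35, 1), (131, 1), (176, 1), (179, 2)]⟩,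
⟨2, [⟨16, 3, []⟩, ⟨128, 3, []⟩], [3, 3], 1, [(144, 1)]⟩,
⟨2, [⟨8, 4, []⟩, ⟨32, 4, []⟩, ⟨128, 4, []⟩], [7], 1, [(168, 1)]⟩,
⟨2, [⟨4, 3, []⟩, ⟨64, 3, []⟩], [3, 3], 1, [(68, 1)]⟩,
⟨2, [⟨34, 4, []⟩, ⟨24, 4, []⟩, ⟨64, 4, []⟩], [7], 1, [(74, 1), (82, 1), (104, 1), (112, 1)]⟩,
⟨1, [⟨4, 2, []⟩, ⟨66, 2, []⟩], [3, 3, 3], 1, [(6, 1), (68, 1)]⟩,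
⟨1, [⟨136, 2, []⟩, ⟨64, 2, []⟩], [3, 3, 3], 1, [(72, 1), (192, 1)]⟩,
⟨2, [⟨4, 3, []⟩, ⟨144, 3, []⟩], [3, 3], 1, [(20, 1), (132, 1)]⟩,
⟨2, [⟨5, 4, []⟩, ⟨66, 2, []⟩], [3, 2, 2], 1, [(3, 1), (6, 1), (65, 1), (68, 1)]⟩,
⟨2, [⟨10, 4, []⟩, ⟨96, 4, []⟩, ⟨128, 4, []⟩], [7], 1, [(162, 1), (168, 1), (194, 1), (200, 1)]⟩,
⟨2, [⟨0, 0, [(18, 2)]⟩, ⟨160, 4, []⟩], [3, 1, 1], 1, [(50, 1), (146, 1)]⟩,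
⟨2, [⟨18, 4, []⟩, ⟨64, 4, []⟩, ⟨128, 4, []⟩], [7], 1, [(194, 1), (208, 1)]⟩,
⟨2, [⟨80, 3, []⟩, ⟨32, 3, []⟩], [3, 3], 1, [(48, 1), (96, 1)]⟩,
⟨1, [⟨12, 2, []⟩, ⟨2, 2, []⟩], [3, 3, 3], 1, [(6, 1), (10, 1)]⟩,
⟨2, [⟨10, 4, []⟩, ⟨5, 4, []⟩, ⟨64, 4, []⟩], [7], 1, [(67, 1), (70, 1), (73, 1), (76, 1)]⟩,
⟨1, [⟨14, 2, []⟩, ⟨160, 2, []⟩], [3, 3, 3], 1, [(34, 1), (36, 1), (40, 1), (130, 1), (132, 1), (136, 1)]⟩,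
⟨2, [⟨2, 3, []⟩, ⟨80, 3, []⟩], [3, 3], 1, [(18, 1), (66, 1)]⟩,
⟨0, [⟨24, 2, []⟩, ⟨160, 2, []⟩], [3, 3, 3], 1, [(40, 1), (48, 1), (136, 1), (144, 1)]⟩,
⟨0, [⟨36, 2, []⟩, ⟨1, 2, []⟩], [3, 3, 3], 1, [(5, 1), (33, 1)]⟩,
⟨1, [⟨34, 2, []⟩, ⟨80, 2, []⟩], [3, 3, 3], 1, [(18, 1), (48, 1), (66, 1), (96, 1)]⟩,
⟨2, [⟨9, 4, []⟩, ⟨36, 4, []⟩, ⟨16, 4, []⟩], [7], 1, [(21, 1), (28, 1), (49, 1), (56, 1)]⟩,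
⟨2, [⟨16, 2, []⟩, ⟨8, 4, []⟩], [3, 1, 1], 1, [(24, 1)]⟩,
⟨2, [⟨18, 4, []⟩, ⟨4, 4, []⟩, ⟨128, 4, []⟩], [7], 1, [(134, 1), (148, 1)]⟩,
⟨0, [⟨144, 2, []⟩, ⟨2, 2, []⟩], [3, 3, 3], 1, [(18, 1), (130, 1)]⟩,
⟨1, [⟨9, 2, []⟩, ⟨192, 2, []⟩], [3, 3, 3], 1, [(65, 1), (72, 1), (129, 1), (136, 1)]⟩,
⟨2, [⟨4, 4, []⟩, ⟨64, 2, []⟩], [3, 2, 2], 1, [(68, 1)]⟩,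
⟨2, [⟨160, 3, []⟩, ⟨16, 3, []⟩], [3, 3], 1, [(48, 1), (144, 1)]⟩,
⟨1, [⟨1, 3, []⟩, ⟨64, 3, []⟩], [3, 3], 1, [(65, 1)]⟩,
⟨0, [⟨3, 2, []⟩, ⟨160, 2, []⟩], [3, 3, 3], 1, [(33, 1), (34, 1), (129, 1), (130, 1)]⟩,
⟨2, [⟨0, 0, [(129, 3)]⟩, ⟨4, 2, []⟩, ⟨16, 3, []⟩, ⟨32, 3, []⟩], [1, 1, 2, 2, 2, 12, 12], 2, [(52, 1), (133, 1), (177, 1), (181, 2)]⟩,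
⟨1, [⟨48, 2, []⟩, ⟨68, 2, []⟩], [3, 3, 3], 1, [(20, 1), (36, 1), (80, 1), (96, 1)]⟩,
⟨2, [⟨8, 3, []⟩, ⟨16, 3, []⟩], [3, 3], 1, [(24, 1)]⟩,
⟨1, [⟨6, 2, []⟩, ⟨96, 2, []⟩], [3, 3, 3], 1, [(34, 1), (36, 1), (66, 1), (68, 1)]⟩,
⟨2, [⟨2, 2, []⟩, ⟨8, 3, []⟩, ⟨16, 3, []⟩, ⟨64, 3, []⟩, ⟨128, 4, []⟩], [9, 9, 17, 6, 6], 2, [(88, 1), (152, 1), (194, 1), (218, 2)]⟩,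
⟨2, [⟨0, 0, [(48, 2)]⟩, ⟨129, 4, []⟩], [3, 1, 1], 1, [(49, 1), (176, 1)]⟩,
⟨1, [⟨132, 2, []⟩, ⟨80, 2, []⟩], [3, 3, 3], 1, [(20, 1), (68, 1), (144, 1), (192, 1)]⟩,
⟨2, [⟨18, 4, []⟩, ⟨32, 4, []⟩, ⟨128, 4, []⟩], [7], 1, [(162, 1), (176, 1)]⟩,
⟨1, [⟨8, 2, []⟩, ⟨80, 2, []⟩], [3, 3, 3], 1, [(24, 1), (72, 1)]⟩,
⟨2, [⟨18, 2, []⟩, ⟨192, 4, []⟩], [3, 1, 1], 1, [(66, 1), (80, 1), (130, 1), (144, 1)]⟩,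
⟨1, [⟨2, 3, []⟩, ⟨128, 3, []⟩], [3, 3], 1, [(130, 1)]⟩,
⟨0, [⟨2, 2, []⟩, ⟨65, 2, []⟩], [3, 3, 3], 1, [(3, 1), (66, 1)]⟩,
⟨2, [⟨10, 4, []⟩, ⟨20, 4, []⟩, ⟨32, 4, []⟩], [7], 1, [(38, 1), (44, 1), (50, 1), (56, 1)]⟩,
⟨2, [⟨129, 4, []⟩, ⟨32, 4, []⟩, ⟨72, 4, []⟩], [7], 1, [(41, 1), (97, 1), (168, 1), (224, 1)]⟩,
⟨1, [⟨129, 2, []⟩, ⟨8, 2, []⟩], [3, 3, 3], 1, [(9, 1), (136, 1)]⟩,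
⟨2, [⟨0, 0, [(18, 2)]⟩, ⟨72, 4, []⟩], [3, 1, 1], 1, [(26, 1), (82, 1)]⟩,
⟨2, [⟨1, 2, []⟩, ⟨4, 2, []⟩, ⟨16, 3, []⟩, ⟨32, 3, []⟩, ⟨128, 5, []⟩], [3, 3, 3, 12, 12], 2, [(133, 1), (176, 1), (181, 2)]⟩,
⟨2, [⟨2, 2, []⟩, ⟨4, 2, []⟩, ⟨8, 3, []⟩, ⟨32, 3, []⟩, ⟨64, 3, []⟩], [3, 3, 3, 28, 28], 2, [(6, 1), (104, 1), (110, 2)]⟩,
⟨1, [⟨36, 2, []⟩, ⟨1, 2, []⟩], [3, 3, 3], 1, [(5, 1), (33, 1)]⟩,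
⟨2, [⟨16, 4, []⟩, ⟨2, 2, []⟩], [3, 2, 2], 1, [(18, 1)]⟩,
⟨0, [⟨3, 2, []⟩, ⟨64, 4, []⟩], [3, 1, 1], 1, [(65, 1), (66, 1)]⟩,
⟨2, [⟨8, 2, []⟩, ⟨32, 2, []⟩, ⟨2, 3, []⟩, ⟨4, 3, []⟩, ⟨128, 5, []⟩], [3, 3, 3, 12, 12], 2, [(134, 1), (168, 1), (174, 2)]⟩,
⟨2, [⟨24, 4, []⟩, ⟨96, 4, []⟩, ⟨128, 4, []⟩], [7], 1, [(168, 1), (176, 1), (200, 1), (208, 1)]⟩,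
⟨2, [⟨16, 2, []⟩, ⟨2, 3, []⟩, ⟨4, 3, []⟩, ⟨128, 3, []⟩, ⟨64, 4, []⟩], [9, 9, 17, 6, 6], 2, [(70, 1), (134, 1), (208, 1), (214, 2)]⟩,
⟨1, [⟨48, 2, []⟩, ⟨8, 2, []⟩], [3, 3, 3], 1, [(24, 1), (40, 1)]⟩,
⟨0, [⟨24, 2, []⟩, ⟨96, 2, []⟩], [3, 3, 3], 1, [(40, 1), (48, 1), (72, 1), (80, 1)]⟩,
⟨1, [⟨24, 2, []⟩, ⟨66, 2, []⟩], [3, 3, 3], 1, [(10, 1), (18, 1), (72, 1), (80, 1)]⟩,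
⟨2, [⟨34, 4, []⟩, ⟨16, 4, []⟩, ⟨128, 4, []⟩], [7], 1, [(146, 1), (176, 1)]⟩,
⟨1, [⟨4, 3, []⟩, ⟨64, 3, []⟩], [3, 3], 1, [(68, 1)]⟩,
⟨2, [⟨8, 4, []⟩, ⟨64, 2, []⟩], [3, 2, 2], 1, [(72, 1)]⟩,
⟨2, [⟨34, 4, []⟩, ⟨68, 4, []⟩, ⟨128, 4, []⟩], [7], 1, [(134, 1), (164, 1), (194, 1), (224, 1)]⟩,
⟨0, [⟨3, 2, []⟩, ⟨144, 2, []⟩], [3, 3, 3], 1, [(17, 1), (18, 1), (129, 1), (130, 1)]⟩,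
⟨2, [⟨72, 3, []⟩, ⟨32, 3, []⟩], [3, 3], 1, [(40, 1), (96, 1)]⟩,
⟨2, [⟨8, 2, []⟩, ⟨16, 2, []⟩, ⟨1, 3, []⟩, ⟨4, 3, []⟩, ⟨64, 5, []⟩], [3, 3, 3, 12, 12], 2, [(69, 1), (88, 1), (93, 2)]⟩,
⟨1, [⟨12, 2, []⟩, ⟨3, 2, []⟩], [3, 3, 3], 1, [(5, 1), (6, 1), (9, 1), (10, 1)]⟩,
⟨2, [⟨17, 4, []⟩, ⟨2, 2, []⟩], [3, 2, 2], 1, [(3, 1), (18, 1)]⟩,
⟨2, [⟨5, 2, []⟩, ⟨192, 4, []⟩], [3, 1, 1], 1, [(65, 1), (68, 1), (129, 1), (132, 1)]⟩,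
⟨2, [⟨33, 4, []⟩, ⟨2, 4, []⟩, ⟨64, 4, []⟩], [7], 1, [(67, 1), (98, 1)]⟩,
⟨1, [⟨34, 2, []⟩, ⟨68, 2, []⟩], [3, 3, 3], 1, [(6, 1), (36, 1), (66, 1), (96, 1)]⟩,
⟨1, [⟨130, 2, []⟩, ⟨64, 2, []⟩], [3, 3, 3], 1, [(66, 1), (192, 1)]⟩,
⟨0, [⟨17, 2, []⟩, ⟨132, 2, []⟩], [3, 3, 3], 1, [(5, 1), (20, 1), (129, 1), (144, 1)]⟩,
⟨2, [⟨130, 4, []⟩, ⟨8, 4, []⟩, ⟨80, 4, []⟩], [7], 1, [(26, 1), (74, 1), (152, 1), (200, 1)]⟩,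
⟨0, [⟨18, 2, []⟩, ⟨8, 2, []⟩], [3, 3, 3], 1, [(10, 1), (24, 1)]⟩,
⟨1, [⟨10, 2, []⟩, ⟨65, 2, []⟩], [3, 3, 3], 1, [(3, 1), (9, 1), (66, 1), (72, 1)]⟩,
⟨2, [⟨8, 2, []⟩, ⟨16, 4, []⟩], [3, 1, 1], 1, [(24, 1)]⟩,
⟨2, [⟨6, 2, []⟩, ⟨64, 4, []⟩], [3, 1, 1], 1, [(66, 1), (68, 1)]⟩,
⟨2, [⟨2, 2, []⟩, ⟨4, 2, []⟩, ⟨16, 3, []⟩, ⟨32, 3, []⟩, ⟨64, 5, []⟩], [3, 3, 3, 12, 12], 2, [(70, 1), (112, 1), (118, 2)]⟩,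
⟨1, [⟨4, 3, []⟩, ⟨128, 3, []⟩], [3, 3], 1, [(132, 1)]⟩,
⟨2, [⟨160, 2, []⟩, ⟨20, 4, []⟩], [3, 1, 1], 1, [(36, 1), (48, 1), (132, 1), (144, 1)]⟩,
⟨2, [⟨8, 2, []⟩, ⟨16, 2, []⟩, ⟨1, 3, []⟩, ⟨4, 3, []⟩, ⟨128, 3, []⟩], [3, 3, 3, 28, 28], 2, [(24, 1), (133, 1), (157, 2)]⟩,
⟨0, [⟨17, 2, []⟩, ⟨64, 2, []⟩], [3, 3, 3], 1, [(65, 1), (80, 1)]⟩,
⟨2, [⟨12, 4, []⟩, ⟨16, 4, []⟩, ⟨128, 4, []⟩], [7], 1, [(148, 1), (152, 1)]⟩,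
⟨2, [⟨24, 4, []⟩, ⟨160, 2, []⟩], [3, 2, 2], 1, [(40, 1), (48, 1), (136, 1), (144, 1)]⟩,
⟨2, [⟨3, 4, []⟩, ⟨68, 2, []⟩], [3, 2, 2], 1, [(5, 1), (6, 1), (65, 1), (66, 1)]⟩,
⟨2, [⟨4, 3, []⟩, ⟨32, 3, []⟩], [3, 3], 1, [(36, 1)]⟩,
⟨1, [⟨17, 2, []⟩, ⟨32, 2, []⟩], [3, 3, 3], 1, [(33, 1), (48, 1)]⟩,
⟨2, [⟨2, 2, []⟩, ⟨4, 2, []⟩, ⟨8, 3, []⟩, ⟨16, 3, []⟩, ⟨64, 3, []⟩], [3, 3, 3, 28, 28], 2, [(6, 1), (88, 1), (94, 2)]⟩,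
⟨0, [⟨13, 2, []⟩, ⟨96, 2, []⟩], [3, 3, 3], 1, [(33, 1), (36, 1), (40, 1), (65, 1), (68, 1), (72, 1)]⟩,
⟨0, [⟨33, 2, []⟩, ⟨136, 2, []⟩], [3, 3, 3], 1, [(9, 1), (40, 1), (129, 1), (160, 1)]⟩,
⟨2, [⟨68, 5, []⟩, ⟨16, 3, []⟩, ⟨40, 5, []⟩], [2, 2], 1, [(28, 1), (52, 1), (88, 1), (112, 1)]⟩,
⟨1, [⟨34, 2, []⟩, ⟨4, 2, []⟩], [3, 3, 3], 1, [(6, 1), (36, 1)]⟩,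
⟨1, [⟨18, 2, []⟩, ⟨68, 2, []⟩], [3, 3, 3], 1, [(6, 1), (20, 1), (66, 1), (80, 1)]⟩,
⟨2, [⟨16, 4, []⟩, ⟨160, 4, []⟩, ⟨64, 4, []⟩], [7], 1, [(112, 1), (208, 1)]⟩,
⟨2, [⟨0, 0, [(160, 3)]⟩, ⟨12, 3, []⟩], [3, 3], 1, [(164, 1), (168, 1)]⟩,
⟨2, [⟨0, 0, [(18, 2)]⟩, ⟨64, 4, []⟩], [3, 1, 1], 1, [(82, 1)]⟩,
⟨1, [⟨5, 2, []⟩, ⟨80, 2, []⟩], [3, 3, 3], 1, [(17, 1), (20, 1), (65, 1), (68, 1)]⟩,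
⟨2, [⟨4, 3, []⟩, ⟨17, 3, []⟩], [3, 3], 1, [(5, 1), (20, 1)]⟩,
⟨2, [⟨16, 3, []⟩, ⟨12, 3, []⟩], [3, 3], 1, [(20, 1), (24, 1)]⟩,
⟨2, [⟨4, 3, []⟩, ⟨16, 3, []⟩], [3, 3], 1, [(20, 1)]⟩,
⟨1, [⟨36, 2, []⟩, ⟨144, 2, []⟩], [3, 3, 3], 1, [(20, 1), (48, 1), (132, 1), (160, 1)]⟩,
⟨2, [⟨8, 2, []⟩, ⟨16, 2, []⟩, ⟨2, 3, []⟩, ⟨4, 4, []⟩, ⟨64, 4, []⟩], [3, 3, 3, 12, 20], 2, [(28, 1), (70, 1), (88, 1), (94, 2)]⟩,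
⟨2, [⟨8, 3, []⟩, ⟨64, 3, []⟩], [3, 3], 1, [(72, 1)]⟩,
⟨2, [⟨2, 4, []⟩, ⟨32, 4, []⟩, ⟨144, 4, []⟩], [7], 1, [(50, 1), (162, 1)]⟩,
⟨2, [⟨40, 4, []⟩, ⟨144, 4, []⟩, ⟨64, 4, []⟩], [7], 1, [(88, 1), (112, 1), (200, 1), (224, 1)]⟩,
⟨2, [⟨4, 4, []⟩, ⟨48, 4, []⟩, ⟨64, 4, []⟩], [7], 1, [(84, 1), (100, 1)]⟩,
⟨2, [⟨17, 4, []⟩, ⟨34, 4, []⟩, ⟨4, 4, []⟩], [7], 1, [(7, 1), (22, 1), (37, 1), (52, 1)]⟩,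
⟨0, [⟨10, 2, []⟩, ⟨129, 2, []⟩], [3, 3, 3], 1, [(3, 1), (9, 1), (130, 1), (136, 1)]⟩,
⟨2, [⟨12, 2, []⟩, ⟨64, 4, []⟩], [3, 1, 1], 1, [(68, 1), (72, 1)]⟩,
⟨1, [⟨1, 2, []⟩, ⟨66, 2, []⟩], [3, 3, 3], 1, [(3, 1), (65, 1)]⟩,
⟨2, [⟨48, 2, []⟩, ⟨72, 4, []⟩], [3, 1, 1], 1, [(24, 1), (40, 1), (80, 1), (96, 1)]⟩,
⟨2, [⟨16, 2, []⟩, ⟨32, 2, []⟩, ⟨2, 3, []⟩, ⟨4, 3, []⟩, ⟨128, 3, []⟩], [3, 3, 3, 28, 28], 2, [(48, 1), (134, 1), (182, 2)]⟩,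
⟨2, [⟨9, 3, []⟩, ⟨64, 3, []⟩], [3, 3], 1, [(65, 1), (72, 1)]⟩,
⟨2, [⟨48, 4, []⟩, ⟨72, 2, []⟩], [3, 2, 2], 1, [(24, 1), (40, 1), (80, 1), (96, 1)]⟩,
⟨1, [⟨132, 2, []⟩, ⟨16, 2, []⟩], [3, 3, 3], 1, [(20, 1), (144, 1)]⟩,
⟨1, [⟨12, 2, []⟩, ⟨128, 2, []⟩], [3, 3, 3], 1, [(132, 1), (136, 1)]⟩,
⟨2, [⟨4, 4, []⟩, ⟨128, 2, []⟩], [3, 2, 2], 1, [(132, 1)]⟩,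
⟨1, [⟨8, 3, []⟩, ⟨128, 3, []⟩], [3, 3], 1, [(136, 1)]⟩,
⟨2, [⟨96, 2, []⟩, ⟨16, 3, []⟩, ⟨2, 3, []⟩, ⟨4, 3, []⟩, ⟨128, 4, []⟩], [3, 3, 17, 12, 12], 2, [(22, 1), (134, 1), (176, 1), (182, 2), (208, 1), (214, 2)]⟩,
⟨1, [⟨9, 2, []⟩, ⟨66, 2, []⟩], [3, 3, 3], 1, [(3, 1), (10, 1), (65, 1), (72, 1)]⟩,
⟨2, [⟨32, 4, []⟩, ⟨144, 4, []⟩, ⟨64, 4, []⟩], [7], 1, [(112, 1), (224, 1)]⟩,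
⟨2, [⟨0, 0, [(48, 2)]⟩, ⟨65, 4, []⟩], [3, 1, 1], 1, [(49, 1), (112, 1)]⟩,
⟨2, [⟨4, 2, []⟩, ⟨8, 3, []⟩, ⟨32, 3, []⟩, ⟨64, 3, []⟩, ⟨128, 4, []⟩], [9, 9, 17, 6, 6], 2, [(104, 1), (168, 1), (196, 1), (236, 2)]⟩,
⟨2, [⟨65, 4, []⟩, ⟨16, 4, []⟩, ⟨160, 4, []⟩], [7], 1, [(49, 1), (112, 1), (145, 1), (208, 1)]⟩,
⟨2, [⟨9, 4, []⟩, ⟨64, 4, []⟩, ⟨128, 4, []⟩], [7], 1, [(193, 1), (200, 1)]⟩,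
⟨2, [⟨2, 4, []⟩, ⟨48, 4, []⟩, ⟨64, 4, []⟩], [7], 1, [(82, 1), (98, 1)]⟩,
⟨2, [⟨32, 3, []⟩, ⟨20, 3, []⟩], [3, 3], 1, [(36, 1), (48, 1)]⟩,
⟨1, [⟨2, 2, []⟩, ⟨68, 2, []⟩], [3, 3, 3], 1, [(6, 1), (66, 1)]⟩,
⟨2, [⟨4, 2, []⟩, ⟨8, 3, []⟩, ⟨16, 3, []⟩, ⟨128, 3, []⟩, ⟨64, 4, []⟩], [9, 9, 17, 6, 6], 2, [(88, 1), (152, 1), (196, 1), (220, 2)]⟩,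
⟨0, [⟨16, 2, []⟩, ⟨136, 2, []⟩], [3, 3, 3], 1, [(24, 1), (144, 1)]⟩,
⟨2, [⟨3, 2, []⟩, ⟨128, 4, []⟩], [3, 1, 1], 1, [(129, 1), (130, 1)]⟩,
⟨2, [⟨34, 2, []⟩, ⟨64, 4, []⟩], [3, 1, 1], 1, [(66, 1), (96, 1)]⟩,
⟨2, [⟨1, 2, []⟩, ⟨4, 2, []⟩, ⟨8, 3, []⟩, ⟨16, 3, []⟩, ⟨128, 3, []⟩], [3, 3, 3, 28, 28], 2, [(5, 1), (152, 1), (157, 2)]⟩,
⟨2, [⟨12, 2, []⟩, ⟨128, 4, []⟩], [3, 1, 1], 1, [(132, 1), (136, 1)]⟩,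
⟨1, [⟨5, 2, []⟩, ⟨136, 2, []⟩], [3, 3, 3], 1, [(9, 1), (12, 1), (129, 1), (132, 1)]⟩,
⟨0, [⟨9, 2, []⟩, ⟨144, 2, []⟩], [3, 3, 3], 1, [(17, 1), (24, 1), (129, 1), (136, 1)]⟩,
⟨2, [⟨16, 2, []⟩, ⟨32, 2, []⟩, ⟨2, 3, []⟩, ⟨4, 3, []⟩, ⟨128, 5, []⟩], [3, 3, 3, 12, 12], 2, [(134, 1), (176, 1), (182, 2)]⟩,
⟨0, [⟨132, 2, []⟩, ⟨64, 2, []⟩], [3, 3, 3], 1, [(68, 1), (192, 1)]⟩,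
⟨2, [⟨9, 4, []⟩, ⟨20, 4, []⟩, ⟨64, 4, []⟩], [7], 1, [(69, 1), (76, 1), (81, 1), (88, 1)]⟩,
⟨0, [⟨128, 2, []⟩, ⟨64, 4, []⟩], [3, 1, 1], 1, [(192, 1)]⟩,
⟨2, [⟨8, 2, []⟩, ⟨16, 2, []⟩, ⟨2, 3, []⟩, ⟨4, 3, []⟩, ⟨64, 3, []⟩], [3, 3, 3, 28, 28], 2, [(24, 1), (70, 1), (94, 2)]⟩,
⟨2, [⟨96, 2, []⟩, ⟨16, 4, []⟩], [3, 1, 1], 1, [(48, 1), (80, 1)]⟩,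
⟨1, [⟨20, 2, []⟩, ⟨1, 2, []⟩], [3, 3, 3], 1, [(5, 1), (17, 1)]⟩,
⟨2, [⟨96, 3, []⟩, ⟨128, 3, []⟩], [3, 3], 1, [(160, 1), (192, 1)]⟩,
⟨2, [⟨0, 0, [(24, 2)]⟩, ⟨33, 4, []⟩], [3, 1, 1], 1, [(25, 1), (56, 1)]⟩,
⟨1, [⟨42, 2, []⟩, ⟨65, 2, []⟩], [3, 3, 3], 1, [(3, 1), (9, 1), (33, 1), (66, 1), (72, 1), (96, 1)]⟩,
⟨2, [⟨17, 4, []⟩, ⟨64, 4, []⟩, ⟨128, 4, []⟩], [7], 1, [(193, 1), (208, 1)]⟩,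
⟨1, [⟨136, 2, []⟩, ⟨1, 2, []⟩], [3, 3, 3], 1, [(9, 1), (129, 1)]⟩,
⟨2, [⟨33, 4, []⟩, ⟨12, 4, []⟩, ⟨128, 4, []⟩], [7], 1, [(133, 1), (137, 1), (164, 1), (168, 1)]⟩,
⟨2, [⟨16, 3, []⟩, ⟨10, 3, []⟩], [3, 3], 1, [(18, 1), (24, 1)]⟩,
⟨2, [⟨64, 3, []⟩, ⟨128, 3, []⟩], [3, 3], 1, [(192, 1)]⟩,
⟨1, [⟨10, 2, []⟩, ⟨132, 2, []⟩], [3, 3, 3], 1, [(6, 1), (12, 1), (130, 1), (136, 1)]⟩,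
⟨1, [⟨6, 2, []⟩, ⟨24, 2, []⟩], [3, 3, 3], 1, [(10, 1), (12, 1), (18, 1), (20, 1)]⟩,
⟨2, [⟨65, 4, []⟩, ⟨8, 4, []⟩, ⟨144, 4, []⟩], [7], 1, [(25, 1), (88, 1), (137, 1), (200, 1)]⟩,
⟨2, [⟨0, 0, [(34, 2)]⟩, ⟨72, 4, []⟩], [3, 1, 1], 1, [(42, 1), (98, 1)]⟩,
⟨2, [⟨5, 2, []⟩, ⟨66, 4, []⟩], [3, 1, 1], 1, [(3, 1), (6, 1), (65, 1), (68, 1)]⟩,
⟨2, [⟨66, 5, []⟩, ⟨16, 3, []⟩, ⟨40, 5, []⟩], [2, 2], 1, [(26, 1), (50, 1), (88, 1), (112, 1)]⟩,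
⟨2, [⟨33, 4, []⟩, ⟨20, 4, []⟩, ⟨8, 4, []⟩], [7], 1, [(13, 1), (25, 1), (44, 1), (56, 1)]⟩,
⟨2, [⟨17, 4, []⟩, ⟨34, 4, []⟩, ⟨64, 4, []⟩], [7], 1, [(67, 1), (82, 1), (97, 1), (112, 1)]⟩,
⟨0, [⟨3, 2, []⟩, ⟨96, 2, []⟩], [3, 3, 3], 1, [(33, 1), (34, 1), (65, 1), (66, 1)]⟩,
⟨1, [⟨37, 2, []⟩, ⟨144, 2, []⟩], [3, 3, 3], 1, [(17, 1), (20, 1), (48, 1), (129, 1), (132, 1), (160, 1)]⟩,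
⟨2, [⟨0, 0, [(65, 3)]⟩, ⟨2, 2, []⟩, ⟨8, 3, []⟩, ⟨32, 3, []⟩], [1, 1, 2, 2, 2, 12, 12], 2, [(42, 1), (67, 1), (105, 1), (107, 2)]⟩,
⟨1, [⟨12, 2, []⟩, ⟨192, 2, []⟩], [3, 3, 3], 1, [(68, 1), (72, 1), (132, 1), (136, 1)]⟩,
⟨2, [⟨33, 5, []⟩, ⟨2, 3, []⟩, ⟨128, 5, []⟩], [2, 2], 1, [(131, 1), (162, 1)]⟩,
⟨0, [⟨68, 2, []⟩, ⟨8, 2, []⟩], [3, 3, 3], 1, [(12, 1), (72, 1)]⟩,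
⟨2, [⟨0, 0, [(5, 2)]⟩, ⟨66, 4, []⟩], [3, 1, 1], 1, [(7, 1), (69, 1)]⟩,
⟨2, [⟨48, 4, []⟩, ⟨72, 4, []⟩, ⟨128, 4, []⟩], [7], 1, [(152, 1), (168, 1), (208, 1), (224, 1)]⟩,
⟨1, [⟨3, 2, []⟩, ⟨192, 2, []⟩], [3, 3, 3], 1, [(65, 1), (66, 1), (129, 1), (130, 1)]⟩,
⟨1, [⟨36, 2, []⟩, ⟨152, 2, []⟩], [3, 3, 3], 1, [(12, 1), (20, 1), (40, 1), (48, 1), (132, 1), (160, 1)]⟩,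
⟨2, [⟨2, 2, []⟩, ⟨16, 3, []⟩, ⟨32, 3, []⟩, ⟨128, 3, []⟩, ⟨64, 4, []⟩], [9, 9, 17, 6, 6], 2, [(112, 1), (176, 1), (194, 1), (242, 2)]⟩,
⟨1, [⟨8, 3, []⟩, ⟨16, 3, []⟩], [3, 3], 1, [(24, 1)]⟩,
⟨1, [⟨5, 2, []⟩, ⟨64, 4, []⟩], [3, 1, 1], 1, [(65, 1), (68, 1)]⟩,
⟨1, [⟨10, 2, []⟩, ⟨112, 2, []⟩], [3, 3, 3], 1, [(18, 1), (24, 1), (34, 1), (40, 1), (66, 1), (72, 1)]⟩,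
⟨2, [⟨12, 4, []⟩, ⟨2, 4, []⟩, ⟨128, 4, []⟩], [7], 1, [(134, 1), (138, 1)]⟩,
⟨1, [⟨52, 2, []⟩, ⟨66, 2, []⟩], [3, 3, 3], 1, [(6, 1), (18, 1), (34, 1), (68, 1), (80, 1), (96, 1)]⟩,
⟨2, [⟨17, 4, []⟩, ⟨36, 4, []⟩, ⟨8, 4, []⟩], [7], 1, [(13, 1), (28, 1), (41, 1), (56, 1)]⟩,
⟨2, [⟨130, 2, []⟩, ⟨4, 3, []⟩, ⟨16, 3, []⟩, ⟨32, 3, []⟩, ⟨64, 4, []⟩], [3, 3, 17, 12, 12], 2, [(52, 1), (70, 1), (112, 1), (118, 2), (196, 1), (244, 2)]⟩,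
⟨0, [⟨5, 2, []⟩, ⟨130, 2, []⟩], [3, 3, 3], 1, [(3, 1), (6, 1), (129, 1), (132, 1)]⟩,
⟨2, [⟨36, 4, []⟩, ⟨1, 2, []⟩], [3, 2, 2], 1, [(5, 1), (33, 1)]⟩,
⟨2, [⟨32, 3, []⟩, ⟨10, 3, []⟩], [3, 3], 1, [(34, 1), (40, 1)]⟩,
⟨0, [⟨34, 2, []⟩, ⟨1, 2, []⟩], [3, 3, 3], 1, [(3, 1), (33, 1)]⟩,
⟨1, [⟨32, 2, []⟩, ⟨64, 4, []⟩], [3, 1, 1], 1, [(96, 1)]⟩,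
⟨2, [⟨24, 2, []⟩, ⟨64, 4, []⟩], [3, 1, 1], 1, [(72, 1), (80, 1)]⟩,
⟨1, [⟨8, 3, []⟩, ⟨64, 3, []⟩], [3, 3], 1, [(72, 1)]⟩,
⟨1, [⟨20, 2, []⟩, ⟨128, 4, []⟩], [3, 1, 1], 1, [(132, 1), (144, 1)]⟩,
⟨2, [⟨0, 0, [(6, 2)]⟩, ⟨64, 4, []⟩], [3, 1, 1], 1, [(70, 1)]⟩,
⟨2, [⟨18, 5, []⟩, ⟨32, 3, []⟩, ⟨64, 5, []⟩], [2, 2], 1, [(98, 1), (112, 1)]⟩,
⟨2, [⟨1, 3, []⟩, ⟨32, 3, []⟩], [3, 3], 1, [(33, 1)]⟩,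
⟨1, [⟨18, 2, []⟩, ⟨1, 2, []⟩], [3, 3, 3], 1, [(3, 1), (17, 1)]⟩,
⟨2, [⟨129, 5, []⟩, ⟨32, 3, []⟩, ⟨24, 5, []⟩], [2, 2], 1, [(41, 1), (49, 1), (168, 1), (176, 1)]⟩,
⟨0, [⟨160, 2, []⟩, ⟨1, 2, []⟩], [3, 3, 3], 1, [(33, 1), (129, 1)]⟩,
⟨2, [⟨0, 0, [(48, 2)]⟩, ⟨64, 4, []⟩], [3, 1, 1], 1, [(112, 1)]⟩,
⟨0, [⟨65, 2, []⟩, ⟨160, 2, []⟩], [3, 3, 3], 1, [(33, 1), (96, 1), (129, 1), (192, 1)]⟩,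
⟨2, [⟨2, 4, []⟩, ⟨128, 2, []⟩], [3, 2, 2], 1, [(130, 1)]⟩,
⟨1, [⟨68, 2, []⟩, ⟨128, 4, []⟩], [3, 1, 1], 1, [(132, 1), (192, 1)]⟩,
⟨0, [⟨8, 2, []⟩, ⟨96, 2, []⟩], [3, 3, 3], 1, [(40, 1), (72, 1)]⟩,
⟨0, [⟨80, 2, []⟩, ⟨2, 2, []⟩], [3, 3, 3], 1, [(18, 1), (66, 1)]⟩,
⟨2, [⟨0, 0, [(20, 2)]⟩, ⟨66, 4, []⟩], [3, 1, 1], 1, [(22, 1), (84, 1)]⟩,
⟨2, [⟨32, 3, []⟩, ⟨0, 0, [(6, 3)]⟩], [3, 3], 1, [(38, 1)]⟩,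
⟨2, [⟨2, 3, []⟩, ⟨64, 3, []⟩], [3, 3], 1, [(66, 1)]⟩,
⟨1, [⟨49, 2, []⟩, ⟨66, 2, []⟩], [3, 3, 3], 1, [(3, 1), (18, 1), (34, 1), (65, 1), (80, 1), (96, 1)]⟩,
⟨0, [⟨6, 2, []⟩, ⟨96, 2, []⟩], [3, 3, 3], 1, [(34, 1), (36, 1), (66, 1), (68, 1)]⟩,
⟨0, [⟨40, 2, []⟩, ⟨144, 2, []⟩], [3, 3, 3], 1, [(24, 1), (48, 1), (136, 1), (160, 1)]⟩,
⟨1, [⟨19, 2, []⟩, ⟨96, 2, []⟩], [3, 3, 3], 1, [(33, 1), (34, 1), (48, 1), (65, 1), (66, 1), (80, 1)]⟩,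
⟨2, [⟨16, 3, []⟩, ⟨66, 3, []⟩], [3, 3], 1, [(18, 1), (80, 1)]⟩,
⟨2, [⟨2, 4, []⟩, ⟨64, 2, []⟩], [3, 2, 2], 1, [(66, 1)]⟩]

theorem base_ok : base.all (fun q => q.ok 8 3 [7, 56] big4 big4 [(0, 1, 0, 0), (0, 2, 0, 1), (0, 4, 0, 3), (0, 5, 0, 4), (0, 3, 0, 0)]) = true := by
  decide +kernel

theorem gb_ok : gb.all (fun c => c.ok 8 3 bl) = true := by decide +kernel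

theorem gads_ok : gads.all (fun g => g.okV 8 3 [0, 0, 2]) = true := by decide +kernel

theorem cmp_ok : cmpR names cnf (clsu 3 base ++ (gb.map (Gb.cl bl) ++ gads.map Gt.cl)) = true := by
  decide +kernel

end DN04

theorem instn_04 : instNS 2 3 [0, 0, 2] DN04.bl [(0, 1, 0, 0), (0, 2, 0, 1), (0, 4, 0, 3), (0, 5, 0, 4), (0, 3, 0, 0)] DN04.base DN04.gb DN04.gads DN04.names DN04.cnf DN04.db DN04.prf = true :=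
  instNS_of DN04.base_ok DN04.gb_ok DN04.gads_ok (by decide +kernel) DN04.okc DN04.cmp_ok DN04.chk_ok

/-- there is no configuration of this instance. -/
theorem noN_04 {V : Type v} [DecidableEq V] {ι : Type u} [Fintype ι] {B : ι → Finset V}
    {Q : Finset V} {x : ℕ → V} {C : ℕ → Finset V} (h : CfN B Q 2 3 x C [0, 0, 2] DN04.bl) : False :=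
  h.absurd_srt (s := 0) (by decide) rfl instn_04

end Pool.Agent.Hyp6
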