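import Pool.Agent.Hyp6.CfB
import Pool.Agent.Hyp6.InsN.M15

/-!
# HYP6: instance with bounds 15: n = 1, r = 2, values [0, 2], inner blocks [9]

719 base clauses, 134 given clauses, 382 gadgets, 636 learned clauses.
-/

set_option autoImplicit false
set_option maxRecDepth 100000

namespace Pool.Agent.Hyp6

open Rup

universe u v

namespace DN15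

noncomputable def base : List Ru := [
.rs (.mono 0 1 3 1),
.rs (.ab2 1 72),
.rs (.join 1 32 6 5 3 4 [(5, 2)]),
.rs (.lip 0 24 30 7),
.rs (.lipl 0 48 58 1 10),
.rs (.join 0 2 5 2 2 0 [(1, 0)]),
.rs (.join 1 4 3 4 3 1 [(2, 0)]),
.rs (.l2 1 33 48 5 2 2),
.rs (.lipl 1 88 121 1 33),
.rs (.le 1 12 4 2 1),
.rs (.join 0 2 4 2 1 1 [(1, 0)]),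
.rs (.part [5, 122] [0, 1] [] []),
.rs (.join 0 4 4 2 0 3 [(2, 1)]),
.rs (.join 0 8 6 2 1 1 [(3, 0)]),
.rs (.l2 0 40 72 3 1 1),
.rs (.ordE 0 16 1),
.rs (.deg 4 [0, 3]),
.rs (.ordE 0 32 1),
.degU 4 [(0, 2), (1, 3)],
.rs (.l2 1 20 80 4 1 1),
.rs (.join 1 2 3 4 1 3 [(1, 0)]),
.rs (.l2 1 17 80 4 3 1),
.rs (.le 0 36 32 5 2),
.rs (.ab2 0 72),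
.rs (.l2 0 3 9 0 1 1),
.rs (.join 1 2 3 4 2 3 [(1, 1)]),
.rs (.join 1 8 4 4 3 1 [(3, 0)]),
.rs (.ab2 0 36),
.rs (.part [2, 77] [0, 0] [48] []),
.rs (.join 0 2 3 4 1 3 [(1, 0)]),
.rs (.l2 0 33 34 5 1 1),
.rs (.join 1 2 3 3 1 3 [(1, 1)]),
.rs (.join 1 16 5 4 3 1 [(4, 0)]),
.rs (.ab2 1 40),
.rs (.lip 0 3 27 56),
.rs (.lipl 1 73 91 0 18),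
.rs (.lip 0 48 54 7),
.rs (.le 0 48 32 5 1),
.rs (.part [20, 98] [0, 0] [9] []),
.rs (.ab 0 2),
.rs (.join 0 1 1 2 2 0 [(0, 0)]),
.rs (.l2 1 36 40 5 3 1),
.rs (.mono 0 4 68 1),
.rs (.deg 6 [0, 4]),
.rs (.join 1 1 4 4 3 2 [(0, 1)]),
.rs (.join 1 8 4 3 1 2 [(3, 0)]),
.rs (.hall [0] [0, 2, 6]),
.rs (.l2 1 20 36 2 1 1),
.rs (.deg 5 [2, 1]),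
.rs (.lipl 1 27 63 1 36),
.rs (.part [12, 115] [0, 1] [] []),
.rs (.join 0 1 1 2 1 1 [(0, 0)]),
.rs (.l2 0 5 20 2 1 1),
.rs (.ab2 1 24),
.rs (.mono 1 32 96 1),
.rs (.join 1 1 5 4 2 3 [(0, 1)]),
.rs (.join 1 4 3 4 3 2 [(2, 1)]),
.rs (.lipl 1 112 124 1 12),
.rs (.l2 1 10 12 3 2 2),
.rs (.l2 0 9 24 3 1 1),
.rs (.mono 0 2 10 1),
.rs (.join 1 1 6 4 2 2 [(0, 0)]),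
.rs (.join 0 4 3 2 1 1 [(2, 0)]),
.rs (.join 0 4 3 2 1 2 [(2, 1)]),
.rs (.ab2 1 68),
.degU 1 [(0, 1), (1, 4)],
.rs (.l2 1 33 34 5 2 1),
.rs (.lip 0 1 57 56),
.rs (.l2 0 6 34 1 1 1),
.rs (.join 0 16 5 2 2 0 [(4, 0)]),
.rs (.part [68, 3] [0, 0] [56] []),
.rs (.join 1 1 5 4 2 4 [(0, 2)]),
.rs (.join 1 16 6 4 3 2 [(4, 1)]),
.rs (.join 1 1 4 4 1 3 [(0, 0)]),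
.rs (.join 1 4 5 5 2 4 [(2, 1)]),
.rs (.l2 1 17 48 4 2 3),
.rs (.le 0 6 4 2 3),
.rs (.mono 0 2 18 1),
.rs (.le 0 18 2 1 1),
.rs (.join 1 2 2 4 1 3 [(1, 0)]),
.rs (.mono 0 1 5 1),
.rs (.lip 1 65 121 56),
.rs (.join 1 16 6 4 2 3 [(4, 1)]),
.rs (.l2 1 6 68 2 1 2),
.rs (.join 0 2 4 2 0 3 [(1, 1)]),
.rs (.lip 0 40 45 7),
.rs (.join 0 1 3 2 0 2 [(0, 0)]),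
.rs (.deg 1 [1, 2]),
.rs (.join 1 1 2 4 2 2 [(0, 0)]),
.rs (.join 1 2 4 4 3 1 [(1, 0)]),
.rs (.join 1 1 2 5 3 3 [(0, 1)]),
.rs (.hall [0] [3, 4, 6]),
.rs (.lipl 1 13 79 1 66),
.rs (.join 0 2 2 2 2 0 [(1, 0)]),
.rs (.part [18, 69] [0, 0] [40] []),
.rs (.l2 0 6 10 1 1 1),
.rs (.mono 0 4 6 1),
.rs (.lipl 1 45 63 1 18),
.rs (.l2 0 33 48 5 1 1),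
.rs (.join 0 1 3 2 2 0 [(0, 0)]),
.rs (.lipl 1 88 122 1 34),
.rs (.mono 0 64 96 1),
.rs (.lipl 0 24 58 1 34),
.rs (.le 0 17 16 4 2),
.rs (.part [36, 91] [0, 1] [] []),
.rs (.join 1 1 5 3 3 0 [(0, 0)]),
.rs (.join 1 4 5 5 4 1 [(2, 0)]),
.rs (.join 1 2 5 5 4 1 [(1, 0)]),
.rs (.part [20, 107] [0, 1] [] []),
.rs (.join 1 16 5 4 1 3 [(4, 0)]),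
.rs (.mono 0 16 20 1),
.rs (.join 1 2 3 5 4 1 [(1, 0)]),
.rs (.mono 0 2 66 1),
.rs (.deg 4 [1, 2]),
.rs (.join 1 1 2 3 1 2 [(0, 0)]),
.rs (.le 0 18 2 1 2),
.rs (.join 1 4 4 4 3 1 [(2, 0)]),
.degU 3 [(1, 4)],
.rs (.part [45, 82] [1, 0] [] []),
.rs (.join 0 4 4 2 1 1 [(2, 0)]),
.rs (.join 1 16 5 4 2 2 [(4, 0)]),
.rs (.part [65, 62] [0, 1] [] []),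
.rs (.join 1 2 4 4 3 3 [(1, 2)]),
.rs (.join 0 2 5 2 1 2 [(1, 1)]),
.rs (.join 0 32 6 2 1 1 [(5, 0)]),
.rs (.lipl 1 76 109 1 33),
.rs (.un 0 1),
.rs (.join 0 8 5 2 0 2 [(3, 0)]),
.rs (.lipl 1 44 110 0 66),
.rs (.deg 6 [1, 3]),
.rs (.part [18, 104] [0, 0] [5] []),
.rs (.lip 0 6 54 56),
.rs (.part [18, 45] [0, 0] [64] []),
.rs (.join 1 1 4 5 1 4 [(0, 0)]),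
.rs (.lip 0 40 47 7),
.rs (.le 1 34 2 1 2),
.rs (.part [66, 5] [0, 0] [56] []),
.rs (.lip 1 98 122 56),
.rs (.join 0 1 1 2 0 2 [(0, 0)]),
.rs (.l2 0 66 96 6 1 1),
.rs (.ordE 0 4 2),
.rs (.l2 0 5 9 0 1 1),
.rs (.deg 4 [3, 0]),
.rs (.join 0 2 4 2 0 2 [(1, 0)]),
.rs (.l2 0 18 24 4 1 1),
.rs (.join 1 1 5 5 3 3 [(0, 1)]),
.rs (.join 1 1 5 3 3 1 [(0, 1)]),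
.rs (.join 0 2 6 2 2 0 [(1, 0)]),
.rs (.l2 1 17 33 0 2 2),
.rs (.l2 1 5 17 0 2 1),
.rs (.ab2 0 24),
.rs (.lipl 1 28 94 0 66),
.rs (.mono 0 32 36 1),
.rs (.join 0 4 4 2 2 1 [(2, 1)]),
.rs (.le 0 36 32 5 1),
.rs (.le 0 33 32 5 1),
.rs (.lip 1 96 103 7),
.rs (.lip 1 70 126 56),
.rs (.join 1 1 1 4 3 1 [(0, 0)]),
.rs (.un 0 3),
.rs (.mono 1 16 80 1),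
.rs (.l2 0 9 17 0 1 1),
.degU 5 [(0, 2), (1, 3)],
.rs (.l2 0 10 40 3 1 1),
.rs (.join 1 16 6 4 3 1 [(4, 0)]),
.rs (.mono 1 4 68 1),
.rs (.join 1 1 5 4 3 2 [(0, 1)]),
.rs (.le 0 12 4 2 1),
.rs (.join 1 2 3 4 3 3 [(1, 2)]),
.rs (.l2 1 10 18 1 1 2),
.rs (.hall [0] [0, 1, 6]),
.rs (.deg 1 [2, 1]),
.rs (.join 1 4 3 3 0 3 [(2, 0)]),
.rs (.deg 5 [0, 3]),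
.rs (.join 1 2 5 4 3 3 [(1, 2)]),
.rs (.part [6, 121] [0, 1] [] []),
.rs (.join 0 2 6 2 3 0 [(1, 1)]),
.rs (.lipl 1 41 121 1 80),
.rs (.join 1 8 5 5 2 3 [(3, 0)]),
.rs (.l2 0 6 20 2 1 1),
.rs (.lipl 1 70 87 1 17),
.rs (.join 0 8 4 2 1 1 [(3, 0)]),
.rs (.lipl 1 97 109 1 12),
.rs (.join 1 4 5 5 2 3 [(2, 0)]),
.rs (.join 1 2 3 4 2 2 [(1, 0)]),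
.rs (.join 0 32 6 2 2 0 [(5, 0)]),
.rs (.le 0 80 64 6 2),
.rs (.join 1 2 6 4 3 2 [(1, 1)]),
.rs (.join 0 8 5 2 2 0 [(3, 0)]),
.rs (.lip 1 84 87 7),
.rs (.l2 1 20 68 2 1 1),
.rs (.deg 1 [3, 0]),
.rs (.join 1 8 4 3 3 0 [(3, 0)]),
.rs (.join 1 8 4 4 2 2 [(3, 0)]),
.rs (.l2 1 3 65 0 1 1),
.degU 6 [(0, 2), (1, 4)],
.rs (.mono 0 16 48 1),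
.rs (.join 0 16 5 2 0 2 [(4, 0)]),
.rs (.l2 0 18 66 1 1 1),
.rs (.lip 0 48 51 7),
.rs (.le 0 6 4 2 2),
.rs (.l2 0 9 10 3 1 1),
.rs (.join 1 4 3 3 1 3 [(2, 1)]),
.rs (.join 1 1 1 4 1 3 [(0, 0)]),
.rs (.ab2 0 3),
.rs (.lip 0 72 79 7),
.rs (.part [30, 97] [1, 0] [] []),
.degU 5 [(0, 1), (1, 4)],
.rs (.join 1 4 4 5 1 4 [(2, 0)]),
.rs (.join 1 4 5 5 1 4 [(2, 0)]),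
.rs (.part [80, 42] [0, 0] [5] []),
.rs (.l2 1 24 40 3 1 1),
.rs (.join 0 1 2 2 1 2 [(0, 1)]),
.rs (.ordE 0 2 1),
.rs (.join 0 2 2 2 1 1 [(1, 0)]),
.rs (.join 1 2 2 4 3 2 [(1, 1)]),
.rs (.lipl 1 76 93 1 17),
.rs (.join 0 2 2 2 0 2 [(1, 0)]),
.rs (.join 1 8 5 3 2 1 [(3, 0)]),
.rs (.part [96, 31] [0, 1] [] []),
.rs (.lipl 1 21 117 0 96),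
.rs (.join 0 4 5 2 2 0 [(2, 0)]),
.rs (.part [20, 104] [0, 0] [3] []),
.rs (.join 0 4 4 2 0 2 [(2, 0)]),
.rs (.mono 0 64 80 1),
.rs (.un 1 2),
.rs (.part [80, 44] [0, 0] [3] []),
.rs (.lip 1 66 75 9),
.rs (.part [32, 92] [0, 0] [3] []),
.rs (.l2 0 20 68 2 1 1),
.rs (.join 1 1 2 4 1 3 [(0, 0)]),
.rs (.l2 0 3 18 1 1 1),
.rs (.mono 1 2 66 1),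
.rs (.join 0 2 5 2 0 2 [(1, 0)]),
.rs (.join 0 2 3 2 1 2 [(1, 1)]),
.rs (.ab2 0 12),
.rs (.le 0 66 64 6 2),
.degU 0 [(0, 1), (1, 3)],
.rs (.join 0 2 4 2 2 1 [(1, 1)]),
.rs (.part [27, 100] [1, 0] [] []),
.rs (.ab2 0 5),
.rs (.join 0 8 5 2 2 2 [(3, 2)]),
.rs (.join 0 8 6 2 2 0 [(3, 0)]),
.rs (.join 1 2 2 4 2 2 [(1, 0)]),
.rs (.join 0 8 5 2 1 1 [(3, 0)]),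
.rs (.mono 0 4 20 1),
.rs (.mono 0 64 66 1),
.rs (.ab 0 4),
.rs (.l2 0 5 65 0 1 1),
.rs (.part [46, 81] [1, 0] [] []),
.rs (.join 1 1 4 4 3 3 [(0, 2)]),
.rs (.lipl 1 81 91 1 10),
.rs (.lipl 1 14 31 1 17),
.rs (.mono 0 2 34 1),
.rs (.le 0 17 16 4 1),
.rs (.l2 1 5 36 2 2 1),
.rs (.mono 0 8 72 1),
.rs (.le 0 33 32 5 2),
.rs (.l2 0 65 80 6 1 1),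
.rs (.mono 0 4 5 1),
.rs (.ordE 0 16 2),
.rs (.lip 1 64 71 7),
.rs (.lip 0 24 29 7),
.rs (.l2 0 5 33 0 1 1),
.rs (.part [2, 85] [0, 0] [40] []),
.rs (.l2 0 3 17 0 1 1),
.rs (.l2 1 33 96 5 3 1),
.rs (.lipl 1 42 110 0 68),
.rs (.l2 1 10 12 3 1 1),
.rs (.mono 0 16 18 1),
.rs (.join 1 1 1 4 2 3 [(0, 1)]),
.rs (.join 0 16 6 2 2 0 [(4, 0)]),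
.rs (.part [48, 79] [0, 1] [] []),
.rs (.deg 3 [2, 0]),
.rs (.part [18, 108] [0, 0] [1] []),
.rs (.deg 2 [2, 1]),
.rs (.lip 1 80 87 7),
.rs (.deg 0 [2, 0]),
.rs (.le 0 6 2 1 3),
.rs (.ab2 1 3),
.rs (.part [40, 87] [0, 1] [] []),
.rs (.join 1 1 6 4 2 3 [(0, 1)]),
.rs (.part [64, 23] [0, 0] [40] []),
.rs (.lipl 1 35 115 0 80),
.rs (.l2 0 33 96 5 1 1),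
.rs (.l2 0 66 80 6 1 1),
.rs (.part [68, 19] [0, 0] [40] []),
.rs (.join 1 8 6 4 3 1 [(3, 0)]),
.rs (.l2 1 34 66 1 1 1),
.rs (.join 0 1 6 2 1 1 [(0, 0)]),
.rs (.l2 0 17 80 4 1 1),
.rs (.join 1 8 5 3 1 2 [(3, 0)]),
.rs (.join 1 8 5 4 1 3 [(3, 0)]),
.rs (.le 1 33 1 0 3),
.rs (.join 0 1 1 2 1 2 [(0, 1)]),
.rs (.lipl 1 49 61 1 12),
.rs (.join 1 2 6 4 3 1 [(1, 0)]),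
.rs (.join 1 2 4 5 4 1 [(1, 0)]),
.rs (.join 1 1 4 4 3 1 [(0, 0)]),
.rs (.ordE 1 32 1),
.rs (.l2 1 33 36 5 2 1),
.rs (.l2 0 68 96 6 1 1),
.rs (.lipl 0 10 46 1 36),
.rs (.ab 0 3),
.rs (.le 1 10 2 1 1),
.rs (.l2 0 10 66 1 1 1),
.rs (.join 1 4 3 5 3 3 [(2, 1)]),
.rs (.join 0 1 2 2 2 0 [(0, 0)]),
.rs (.lip 0 6 46 56),
.rs (.join 1 1 5 4 1 3 [(0, 0)]),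
.rs (.le 1 33 32 5 2),
.rs (.lipl 1 73 107 1 34),
.rs (.ab2 0 20),
.rs (.l2 1 17 33 0 1 1),
.rs (.lipl 1 81 93 1 12),
.rs (.lipl 1 76 94 1 18),
.rs (.le 0 20 16 4 2),
.rs (.join 1 8 5 4 2 2 [(3, 0)]),
.rs (.join 0 2 5 2 1 1 [(1, 0)]),
.rs (.le 1 12 4 2 2),
.rs (.le 0 24 8 3 2),
.rs (.join 0 2 2 2 1 2 [(1, 1)]),
.rs (.l2 1 36 68 2 1 1),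
.rs (.lipl 0 48 60 1 12),
.rs (.join 0 4 4 2 2 0 [(2, 0)]),
.rs (.join 0 4 3 3 1 3 [(2, 1)]),
.rs (.join 0 8 4 2 2 0 [(3, 0)]),
.rs (.lipl 1 19 115 0 96),
.rs (.ab2 0 33),
.rs (.l2 1 10 66 1 3 1),
.rs (.mono 0 4 36 1),
.rs (.le 0 65 64 6 1),
.rs (.part [80, 40] [0, 0] [7] []),
.rs (.mono 0 8 10 1),
.rs (.join 0 1 3 2 1 1 [(0, 0)]),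
.rs (.ab2 1 96),
.rs (.join 0 32 6 2 3 0 [(5, 1)]),
.rs (.l2 0 18 34 1 1 1),
.degU 0 [(0, 2), (1, 2)],
.rs (.l2 1 40 72 3 1 1),
.rs (.join 1 4 4 4 3 3 [(2, 2)]),
.degU 3 [(0, 1), (1, 3)],
.rs (.le 0 68 64 6 1),
.rs (.ordE 1 64 2),
.rs (.ordE 1 2 2),
.rs (.part [29, 98] [1, 0] [] []),
.rs (.l2 0 24 72 3 1 1),
.rs (.ab 0 6),
.rs (.part [34, 93] [0, 1] [] []),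
.rs (.join 1 1 4 3 3 0 [(0, 0)]),
.rs (.join 1 8 4 3 2 1 [(3, 0)]),
.rs (.hall [0] [3, 5, 6]),
.rs (.lip 1 84 124 56),
.rs (.lipl 0 40 60 1 20),
.rs (.part [10, 117] [0, 1] [] []),
.rs (.join 1 1 5 4 3 3 [(0, 2)]),
.rs (.le 1 17 16 4 1),
.rs (.join 1 32 6 4 1 3 [(5, 0)]),
.rs (.l2 1 17 18 4 2 1),
.rs (.l2 0 36 68 2 1 1),
.rs (.l2 0 9 33 0 1 1),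
.degU 4 [(1, 5)],
.rs (.lipl 1 88 124 1 36),
.rs (.join 1 2 3 5 3 3 [(1, 1)]),
.rs (.part [64, 7] [0, 0] [56] []),
.rs (.le 0 6 2 1 2),
.rs (.le 0 80 64 6 1),
.rs (.le 1 17 16 4 2),
.rs (.l2 1 12 24 3 2 2),
.rs (.part [96, 22] [0, 0] [9] []),
.rs (.le 0 40 8 3 2),
.rs (.mono 0 16 80 1),
.rs (.l2 0 20 48 4 1 1),
.rs (.hall [0] [3, 4, 5]),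
.rs (.lipl 1 100 117 1 17),
.rs (.join 0 8 5 2 1 2 [(3, 1)]),
.rs (.ab2 0 48),
.degU 0 [(1, 4)],
.rs (.l2 0 6 68 2 1 1),
.rs (.part [8, 119] [0, 1] [] []),
.rs (.join 0 1 5 2 2 0 [(0, 0)]),
.rs (.l2 1 10 34 1 2 1),
.rs (.join 0 16 5 2 2 1 [(4, 1)]),
.rs (.lip 1 112 119 7),
.rs (.lipl 0 17 51 1 34),
.rs (.join 0 4 5 2 0 2 [(2, 0)]),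
.rs (.join 0 16 6 2 1 1 [(4, 0)]),
.rs (.l2 1 17 48 4 2 1),
.rs (.le 0 40 8 3 3),
.rs (.le 0 34 2 1 2),
.rs (.ab 1 6),
.rs (.le 0 48 32 5 2),
.rs (.ab2 0 34),
.rs (.mono 0 64 72 1),
.rs (.part [34, 29] [0, 0] [64] []),
.rs (.join 1 1 1 3 1 2 [(0, 0)]),
.rs (.lip 0 6 15 9),
.rs (.part [20, 105] [0, 0] [2] []),
.rs (.hall [1] [0, 1, 2]),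
.rs (.deg 3 [1, 1]),
.rs (.part [55, 72] [1, 0] [] []),
.rs (.mono 0 64 65 1),
.degU 2 [(0, 2), (1, 3)],
.rs (.le 0 36 4 2 1),
.rs (.lip 0 48 53 7),
.rs (.join 1 1 6 3 1 2 [(0, 0)]),
.rs (.join 1 4 3 5 4 1 [(2, 0)]),
.rs (.le 0 34 32 5 1),
.rs (.join 1 1 4 3 3 1 [(0, 1)]),
.rs (.join 1 1 4 5 2 3 [(0, 0)]),
.rs (.join 1 32 6 4 3 3 [(5, 2)]),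
.rs (.ab 0 0),
.rs (.lip 1 82 122 56),
.rs (.part [105, 22] [1, 0] [] []),
.rs (.le 0 9 8 3 1),
.rs (.un 0 2),
.rs (.join 1 2 3 4 4 2 [(1, 2)]),
.rs (.l2 0 68 80 6 1 1),
.rs (.un 1 5),
.rs (.part [80, 38] [0, 0] [9] []),
.rs (.le 1 10 8 3 3),
.rs (.part [2, 69] [0, 0] [56] []),
.rs (.mono 0 1 33 1),
.rs (.join 1 4 4 4 1 3 [(2, 0)]),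
.rs (.join 1 32 6 4 3 1 [(5, 0)]),
.rs (.l2 0 10 24 3 1 1),
.rs (.l2 0 36 40 5 1 1),
.rs (.lipl 1 84 117 1 33),
.rs (.l2 0 20 80 4 1 1),
.rs (.l2 1 18 80 4 1 1),
.rs (.join 1 2 6 5 3 4 [(1, 2)]),
.rs (.part [80, 47] [0, 1] [] []),
.rs (.le 0 9 1 0 1),
.rs (.join 1 16 6 4 1 3 [(4, 0)]),
.rs (.lip 0 3 51 56),
.rs (.join 0 4 5 2 2 1 [(2, 1)]),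
.rs (.part [68, 59] [0, 1] [] []),
.rs (.lipl 1 74 91 1 17),
.rs (.deg 0 [0, 2]),
.rs (.join 1 2 5 4 3 1 [(1, 0)]),
.rs (.part [32, 90] [0, 0] [5] []),
.rs (.lip 0 6 30 56),
.rs (.l2 0 12 24 3 1 1),
.rs (.join 0 4 6 2 0 2 [(2, 0)]),
.rs (.l2 1 48 96 5 1 2),
.rs (.join 1 2 5 4 1 4 [(1, 1)]),
.rs (.join 0 1 2 2 0 2 [(0, 0)]),
.rs (.le 0 48 16 4 2),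
.rs (.join 1 1 3 4 3 2 [(0, 1)]),
.rs (.join 1 4 3 4 2 2 [(2, 0)]),
.rs (.ab 0 1),
.rs (.lip 0 24 27 7),
.rs (.le 0 5 1 0 1),
.rs (.l2 1 34 96 5 1 1),
.rs (.part [66, 61] [0, 1] [] []),
.rs (.l2 1 18 34 1 1 1),
.rs (.lipl 1 97 107 1 10),
.rs (.join 1 2 3 4 3 1 [(1, 0)]),
.rs (.lip 0 10 15 7),
.rs (.ab2 0 66),
.rs (.lip 0 40 46 7),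
.rs (.lip 1 66 122 56),
.rs (.lipl 1 73 93 1 20),
.rs (.part [51, 76] [1, 0] [] []),
.rs (.lipl 1 73 91 1 18),
.rs (.join 1 1 4 4 2 3 [(0, 1)]),
.rs (.part [20, 43] [0, 0] [64] []),
.rs (.join 1 4 6 4 1 3 [(2, 0)]),
.rs (.deg 6 [4, 0]),
.rs (.part [18, 109] [0, 1] [] []),
.rs (.join 1 4 5 4 3 1 [(2, 0)]),
.rs (.ab2 0 96),
.rs (.part [68, 50] [0, 0] [9] []),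
.rs (.join 1 1 2 3 2 2 [(0, 1)]),
.rs (.part [72, 55] [0, 1] [] []),
.rs (.l2 0 36 96 5 1 1),
.rs (.mono 0 32 34 1),
.rs (.join 1 4 5 4 1 3 [(2, 0)]),
.rs (.part [64, 54] [0, 0] [9] []),
.rs (.l2 1 12 36 2 1 2),
.rs (.l2 1 33 65 0 1 2),
.rs (.part [64, 58] [0, 0] [5] []),
.rs (.join 1 16 6 5 3 4 [(4, 2)]),
.rs (.lipl 1 43 63 1 20),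
.rs (.deg 4 [2, 1]),
.rs (.un 0 5),
.rs (.ab2 0 17),
.rs (.part [15, 112] [1, 0] [] []),
.rs (.ab2 1 66),
.rs (.l2 1 6 18 1 1 1),
.rs (.ordE 0 4 1),
.rs (.join 1 4 3 4 3 3 [(2, 2)]),
.rs (.join 1 4 3 4 1 3 [(2, 0)]),
.rs (.join 1 8 5 5 3 3 [(3, 1)]),
.rs (.part [79, 48] [1, 0] [] []),
.rs (.join 0 4 6 2 2 0 [(2, 0)]),
.rs (.part [96, 24] [0, 0] [7] []),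
.rs (.join 1 2 3 5 3 2 [(1, 0)]),
.rs (.le 0 3 1 0 2),
.rs (.join 0 8 4 2 0 2 [(3, 0)]),
.rs (.join 0 1 5 2 2 1 [(0, 1)]),
.rs (.ab2 1 6),
.rs (.join 0 1 5 4 3 1 [(0, 0)]),
.rs (.mono 0 2 6 1),
.rs (.ordE 1 4 2),
.rs (.le 0 20 4 2 2),
.rs (.ordE 0 1 1),
.rs (.mono 0 16 24 1),
.rs (.lip 0 65 105 56),
.rs (.part [66, 52] [0, 0] [9] []),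
.rs (.join 0 16 5 2 2 2 [(4, 2)]),
.rs (.ab2 0 68),
.rs (.le 0 5 1 0 2),
.rs (.deg 3 [0, 2]),
.rs (.l2 0 5 17 0 1 1),
.rs (.join 1 32 6 4 2 3 [(5, 1)]),
.rs (.join 1 1 5 4 3 1 [(0, 0)]),
.rs (.join 0 2 3 2 0 2 [(1, 0)]),
.rs (.un 0 0),
.rs (.part [52, 75] [0, 1] [] []),
.rs (.join 1 2 5 4 1 3 [(1, 0)]),
.rs (.ordE 0 16 3),
.rs (.ab2 1 65),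
.rs (.lipl 1 74 107 1 33),
.rs (.join 1 32 6 5 1 4 [(5, 0)]),
.rs (.le 0 18 16 4 2),
.rs (.join 1 1 5 4 2 2 [(0, 0)]),
.rs (.lipl 1 11 79 1 68),
.rs (.join 1 8 4 5 3 3 [(3, 1)]),
.rs (.join 1 2 5 5 1 4 [(1, 0)]),
.rs (.ab2 1 80),
.rs (.le 1 10 2 1 2),
.rs (.l2 0 18 48 4 1 1),
.rs (.l2 1 12 68 2 3 1),
.rs (.join 0 2 4 2 2 0 [(1, 0)]),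
.rs (.join 1 8 5 4 2 3 [(3, 1)]),
.rs (.join 1 8 6 3 1 2 [(3, 0)]),
.rs (.join 1 2 6 4 2 2 [(1, 0)]),
.rs (.deg 2 [3, 0]),
.rs (.join 1 1 1 5 3 3 [(0, 1)]),
.rs (.ordE 0 8 1),
.rs (.join 0 2 3 2 1 1 [(1, 0)]),
.rs (.part [58, 69] [1, 0] [] []),
.rs (.ordE 1 64 3),
.rs (.part [64, 63] [0, 1] [] []),
.rs (.deg 2 [1, 2]),
.rs (.l2 0 5 12 2 1 1),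
.rs (.l2 0 34 66 1 1 1),
.rs (.mono 0 32 40 1),
.rs (.deg 6 [2, 2]),
.rs (.part [56, 71] [0, 1] [] []),
.rs (.part [9, 118] [0, 1] [] []),
.rs (.join 0 1 4 2 2 1 [(0, 1)]),
.rs (.join 0 16 6 2 3 0 [(4, 1)]),
.rs (.part [47, 80] [1, 0] [] []),
.rs (.lipl 1 73 93 0 20),
.rs (.mono 0 8 40 1),
.rs (.part [64, 39] [0, 0] [24] []),
.rs (.ab2 0 80),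
.rs (.part [16, 104] [0, 0] [7] []),
.rs (.part [18, 100] [0, 0] [9] []),
.rs (.le 0 20 16 4 1),
.rs (.l2 0 9 40 3 1 1),
.rs (.join 0 16 5 2 1 1 [(4, 0)]),
.rs (.join 0 1 5 2 1 1 [(0, 0)]),
.rs (.le 0 24 8 3 1),
.degU 3 [(0, 2), (1, 2)],
.rs (.mono 0 2 3 1),
.rs (.join 1 1 6 4 3 1 [(0, 0)]),
.rs (.part [2, 101] [0, 0] [24] []),
.rs (.part [33, 94] [0, 1] [] []),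
.rs (.l2 0 3 34 1 1 1),
.rs (.lip 1 72 79 7),
.degU 2 [(0, 1), (1, 4)],
.rs (.part [1, 126] [0, 1] [] []),
.rs (.join 1 2 3 3 0 3 [(1, 0)]),
.rs (.ab 0 5),
.rs (.join 0 1 4 2 2 0 [(0, 0)]),
.rs (.part [53, 74] [1, 0] [] []),
.rs (.join 1 1 2 4 2 3 [(0, 1)]),
.rs (.join 1 1 4 5 3 3 [(0, 1)]),
.rs (.join 0 2 2 2 2 1 [(1, 1)]),
.rs (.ordE 1 32 2),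
.rs (.join 1 1 1 4 2 2 [(0, 0)]),
.rs (.join 1 4 5 4 3 3 [(2, 2)]),
.rs (.join 0 2 4 1 0 1 [(1, 0)]),
.rs (.ab2 0 18),
.rs (.part [54, 73] [1, 0] [] []),
.rs (.l2 1 18 66 1 1 1),
.rs (.mono 0 16 17 1),
.rs (.l2 0 65 96 6 1 1),
.rs (.part [66, 21] [0, 0] [40] []),
.rs (.part [4, 67] [0, 0] [56] []),
.rs (.le 0 20 4 2 1),
.rs (.un 1 4),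
.rs (.mono 0 32 33 1),
.rs (.join 1 8 4 4 1 3 [(3, 0)]),
.rs (.join 0 2 6 2 1 1 [(1, 0)]),
.rs (.join 1 4 6 4 3 1 [(2, 0)]),
.rs (.join 1 16 5 4 3 2 [(4, 1)]),
.rs (.join 1 1 5 5 2 3 [(0, 0)]),
.rs (.join 1 2 4 4 1 3 [(1, 0)]),
.rs (.part [60, 67] [1, 0] [] []),
.rs (.ab2 1 48),
.rs (.mono 0 32 48 1),
.rs (.l2 0 66 72 6 1 1),
.rs (.join 1 4 4 5 4 1 [(2, 0)]),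
.rs (.un 1 1),
.rs (.lip 0 3 59 56),
.rs (.lipl 1 73 109 1 36),
.rs (.lip 1 70 79 9),
.rs (.le 0 10 2 1 2),
.rs (.part [64, 56] [0, 0] [7] []),
.rs (.join 1 8 5 3 3 0 [(3, 0)]),
.rs (.le 0 3 1 0 1),
.rs (.deg 6 [3, 1]),
.rs (.join 1 4 6 4 2 3 [(2, 1)]),
.rs (.join 0 1 4 2 1 1 [(0, 0)]),
.rs (.lip 0 5 61 56),
.rs (.le 0 10 2 1 1),
.rs (.part [34, 84] [0, 0] [9] []),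
.degU 1 [(0, 2), (1, 3)],
.rs (.ordE 1 8 1),
.rs (.le 0 18 16 4 1),
.rs (.l2 1 33 65 0 2 1),
.rs (.l2 1 5 65 0 1 1),
.rs (.lipl 1 37 117 0 80),
.rs (.join 0 16 5 2 1 2 [(4, 1)]),
.rs (.le 0 12 4 2 2),
.rs (.l2 1 5 20 2 1 3),
.rs (.un 0 6),
.rs (.mono 0 1 65 1),
.rs (.ordE 0 32 2),
.rs (.deg 0 [1, 1]),
.rs (.lipl 1 14 47 1 33),
.rs (.l2 0 48 80 4 1 1),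
.rs (.lip 1 6 62 56),
.rs (.lipl 1 74 94 1 20),
.rs (.ab2 0 40),
.rs (.lipl 1 26 94 0 68),
.rs (.part [32, 89] [0, 0] [6] []),
.rs (.join 0 1 6 2 2 0 [(0, 0)]),
.rs (.join 1 1 2 3 3 0 [(0, 0)]),
.rs (.l2 0 68 72 6 1 1),
.rs (.join 1 2 6 4 1 3 [(1, 0)]),
.rs (.join 0 2 6 2 2 1 [(1, 1)]),
.rs (.hall [0] [0, 1, 2]),
.rs (.mono 0 64 68 1),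
.rs (.join 1 16 6 5 1 4 [(4, 0)]),
.rs (.deg 5 [3, 0]),
.rs (.le 0 6 2 1 1),
.rs (.join 1 1 4 4 2 2 [(0, 0)]),
.rs (.l2 1 34 36 5 1 1),
.rs (.lipl 1 104 124 1 20),
.rs (.l2 1 6 10 1 1 2),
.rs (.lipl 1 49 59 1 10),
.rs (.lipl 1 25 121 1 96),
.rs (.join 1 2 6 4 2 3 [(1, 1)]),
.rs (.lipl 1 104 121 1 17),
.rs (.join 0 4 4 2 3 0 [(2, 1)]),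
.rs (.join 1 16 5 4 3 3 [(4, 2)]),
.rs (.ordE 1 1 1),
.rs (.l2 1 36 96 5 1 1),
.rs (.join 0 18 5 2 1 1 [(1, 0), (4, 0)]),
.rs (.le 1 33 32 5 1),
.rs (.join 1 2 3 4 3 2 [(1, 1)]),
.rs (.mono 0 8 12 1),
.rs (.l2 1 24 72 3 1 1),
.rs (.deg 2 [0, 3]),
.rs (.ordE 1 16 2),
.degU 4 [(0, 1), (1, 4)],
.rs (.join 1 8 4 4 2 3 [(3, 1)]),
.rs (.join 0 4 5 2 1 1 [(2, 0)]),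
.rs (.part [3, 124] [0, 1] [] []),
.rs (.join 0 4 6 2 1 1 [(2, 0)]),
.rs (.join 1 4 3 5 3 2 [(2, 0)]),
.rs (.l2 1 17 20 4 2 1),
.rs (.part [64, 60] [0, 0] [3] []),
.rs (.join 1 1 5 5 1 4 [(0, 0)]),
.rs (.deg 1 [0, 3]),
.rs (.deg 5 [1, 2]),
.rs (.join 1 2 2 4 3 3 [(1, 2)]),
.rs (.join 0 8 4 2 1 2 [(3, 1)]),
.rs (.ab2 0 6),
.rs (.lip 0 48 55 7),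
.rs (.le 0 96 64 6 2),
.rs (.join 0 1 2 2 1 1 [(0, 0)]),
.rs (.ab2 0 65),
.rs (.lip 1 48 55 7),
.rs (.part [61, 66] [1, 0] [] []),
.rs (.part [59, 68] [1, 0] [] []),
.rs (.join 1 1 1 3 3 0 [(0, 0)]),
.rs (.lipl 1 70 103 1 33),
.rs (.part [17, 110] [0, 1] [] []),
.rs (.lip 1 68 124 56),
.rs (.ordE 0 64 1),
.rs (.un 0 4),
.rs (.join 1 2 2 4 3 1 [(1, 0)]),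
.rs (.join 0 2 2 2 2 2 [(1, 2)]),
.rs (.le 0 48 16 4 1),
.rs (.lipl 1 112 122 1 10),
.rs (.ab2 1 5),
.rs (.part [24, 103] [0, 1] [] []),
.rs (.lip 0 5 53 56),
.rs (.part [32, 88] [0, 0] [7] []),
.rs (.mono 0 4 12 1),
.rs (.part [36, 82] [0, 0] [9] []),
.rs (.join 1 2 4 5 2 4 [(1, 1)]),
.rs (.le 0 34 2 1 1),
.rs (.part [57, 70] [1, 0] [] []),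
.rs (.le 0 6 4 2 1),
.rs (.part [68, 35] [0, 0] [24] []),
.rs (.lipl 1 29 63 1 34),
.rs (.join 1 4 6 4 3 2 [(2, 1)]),
.rs (.join 0 4 3 2 0 2 [(2, 0)]),
.rs (.l2 0 3 65 0 1 1),
.rs (.mono 0 1 17 1),
.rs (.part [4, 75] [0, 0] [48] []),
.rs (.mono 0 8 24 1)]

/-- the bounds. -/
def bl : List Bnd := [⟨false, [(0, 0), (0, 1), (0, 2), (0, 3), (0, 4), (0, 5), (0, 6)], 9⟩, ⟨true, [(0, 0), (0, 1), (0, 2), (0, 3), (0, 4), (0, 5)], 3⟩]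

noncomputable def gb : List Gb := [
⟨0, [3, 1, 2, 0, 0, 1, 3]⟩,
⟨0, [0, 1, 0, 2, 3, 3, 1]⟩,
⟨0, [1, 0, 0, 1, 1, 2, 5]⟩,
⟨0, [0, 1, 0, 1, 4, 1, 3]⟩,
⟨0, [0, 1, 0, 2, 0, 3, 4]⟩,
⟨0, [0, 0, 1, 2, 3, 0, 4]⟩,
⟨0, [1, 1, 4, 0, 0, 4, 0]⟩,
⟨0, [2, 0, 3, 0, 0, 1, 4]⟩,
⟨0, [0, 2, 3, 0, 1, 0, 4]⟩,
⟨0, [1, 1, 4, 0, 4, 0, 0]⟩,
⟨0, [2, 3, 3, 0, 2, 0, 0]⟩,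
⟨0, [0, 0, 1, 0, 3, 3, 3]⟩,
⟨0, [0, 0, 0, 1, 4, 3, 2]⟩,
⟨0, [1, 0, 0, 2, 2, 2, 3]⟩,
⟨0, [2, 1, 2, 1, 2, 1, 1]⟩,
⟨0, [1, 2, 1, 1, 0, 0, 5]⟩,
⟨0, [0, 0, 1, 1, 1, 4, 3]⟩,
⟨0, [0, 1, 0, 1, 1, 4, 3]⟩,
⟨0, [0, 0, 1, 2, 3, 3, 1]⟩,
⟨0, [0, 3, 2, 0, 1, 0, 4]⟩,
⟨0, [1, 0, 0, 0, 3, 3, 3]⟩,
⟨0, [1, 2, 1, 1, 2, 1, 2]⟩,
⟨1, [0, 1, 0, 0, 1, 0]⟩,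
⟨0, [0, 2, 2, 1, 1, 1, 3]⟩,
⟨0, [1, 4, 1, 0, 4, 0, 0]⟩,
⟨0, [3, 3, 4, 0, 0, 0, 0]⟩,
⟨0, [0, 0, 1, 1, 3, 2, 3]⟩,
⟨0, [2, 2, 2, 0, 1, 2, 1]⟩,
⟨0, [0, 0, 1, 2, 3, 1, 3]⟩,
⟨0, [2, 4, 0, 0, 0, 0, 4]⟩,
⟨0, [1, 1, 2, 2, 2, 1, 1]⟩,
⟨0, [0, 0, 3, 1, 1, 4, 1]⟩,
⟨0, [2, 2, 2, 0, 1, 1, 2]⟩,
⟨0, [2, 1, 3, 0, 0, 1, 3]⟩,
⟨0, [2, 3, 3, 2, 0, 0, 0]⟩,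
⟨0, [2, 2, 0, 0, 2, 2, 2]⟩,
⟨0, [0, 0, 1, 2, 0, 3, 4]⟩,
⟨0, [2, 2, 1, 1, 1, 1, 2]⟩,
⟨0, [1, 1, 1, 2, 2, 1, 2]⟩,
⟨0, [1, 4, 1, 0, 0, 4, 0]⟩,
⟨0, [2, 1, 2, 0, 1, 0, 4]⟩,
⟨0, [2, 1, 2, 0, 0, 1, 4]⟩,
⟨0, [0, 3, 3, 0, 1, 0, 3]⟩,
⟨0, [2, 2, 1, 0, 1, 0, 4]⟩,
⟨0, [0, 1, 0, 3, 2, 1, 3]⟩,
⟨0, [0, 0, 3, 1, 4, 1, 1]⟩,
⟨0, [3, 1, 2, 0, 1, 0, 3]⟩,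
⟨1, [1, 0, 0, 1, 0, 0]⟩,
⟨0, [2, 2, 2, 0, 0, 0, 4]⟩,
⟨0, [1, 1, 4, 0, 1, 0, 3]⟩,
⟨0, [0, 1, 1, 1, 3, 2, 2]⟩,
⟨0, [1, 4, 1, 0, 3, 0, 1]⟩,
⟨0, [1, 1, 4, 0, 3, 0, 1]⟩,
⟨1, [0, 0, 1, 1, 0, 0]⟩,
⟨0, [0, 3, 3, 0, 0, 1, 3]⟩,
⟨0, [2, 1, 2, 1, 1, 2, 1]⟩,
⟨0, [0, 2, 2, 0, 0, 1, 5]⟩,
⟨0, [0, 2, 2, 0, 1, 0, 5]⟩,
⟨0, [1, 1, 2, 1, 2, 1, 2]⟩,
⟨1, [0, 1, 0, 0, 0, 1]⟩,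
⟨0, [0, 1, 0, 0, 2, 3, 4]⟩,
⟨0, [2, 1, 2, 0, 1, 1, 3]⟩,
⟨0, [0, 3, 2, 0, 0, 1, 4]⟩,
⟨0, [0, 0, 1, 2, 1, 2, 4]⟩,
⟨0, [2, 3, 0, 0, 1, 0, 4]⟩,
⟨0, [2, 3, 1, 0, 0, 1, 3]⟩,
⟨0, [2, 2, 1, 1, 2, 1, 1]⟩,
⟨0, [2, 3, 3, 0, 1, 0, 1]⟩,
⟨0, [2, 3, 3, 0, 0, 1, 1]⟩,
⟨0, [2, 3, 1, 0, 1, 0, 3]⟩,
⟨0, [0, 1, 0, 2, 3, 1, 3]⟩,
⟨0, [1, 1, 4, 0, 0, 1, 3]⟩,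
⟨1, [0, 1, 0, 1, 0, 0]⟩,
⟨0, [0, 0, 1, 2, 1, 3, 3]⟩,
⟨1, [0, 0, 1, 0, 1, 0]⟩,
⟨0, [0, 0, 2, 2, 3, 3, 0]⟩,
⟨0, [0, 0, 1, 3, 2, 1, 3]⟩,
⟨0, [1, 3, 2, 0, 1, 1, 2]⟩,
⟨0, [3, 4, 0, 0, 0, 1, 2]⟩,
⟨0, [0, 2, 0, 2, 3, 3, 0]⟩,
⟨0, [2, 0, 0, 2, 3, 3, 0]⟩,
⟨0, [0, 3, 0, 1, 4, 1, 1]⟩,
⟨0, [0, 2, 2, 0, 1, 2, 3]⟩,
⟨0, [1, 4, 1, 0, 0, 3, 1]⟩,
⟨0, [0, 0, 0, 3, 2, 1, 4]⟩,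
⟨0, [1, 4, 1, 0, 0, 1, 3]⟩,
⟨0, [2, 1, 3, 0, 1, 0, 3]⟩,
⟨0, [0, 1, 0, 2, 1, 3, 3]⟩,
⟨0, [1, 1, 3, 0, 1, 1, 3]⟩,
⟨0, [0, 2, 3, 0, 0, 1, 4]⟩,
⟨0, [0, 1, 1, 0, 3, 3, 2]⟩,
⟨0, [0, 1, 0, 2, 1, 2, 4]⟩,
⟨0, [1, 3, 3, 1, 0, 0, 2]⟩,
⟨0, [2, 3, 3, 0, 0, 2, 0]⟩,
⟨0, [1, 2, 3, 0, 1, 1, 2]⟩,
⟨1, [0, 0, 1, 0, 0, 1]⟩,
⟨0, [0, 1, 0, 0, 2, 2, 5]⟩,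
⟨0, [0, 0, 1, 3, 1, 2, 3]⟩,
⟨0, [3, 2, 1, 0, 1, 0, 3]⟩,
⟨0, [1, 2, 1, 2, 2, 1, 1]⟩,
⟨0, [1, 2, 1, 2, 1, 2, 1]⟩,
⟨0, [3, 2, 1, 0, 0, 1, 3]⟩,
⟨0, [2, 2, 2, 1, 0, 0, 3]⟩,
⟨0, [2, 3, 0, 0, 0, 1, 4]⟩,
⟨0, [0, 1, 0, 2, 2, 1, 4]⟩,
⟨0, [0, 0, 1, 0, 2, 2, 5]⟩,
⟨0, [1, 1, 1, 0, 2, 2, 3]⟩,
⟨0, [0, 1, 1, 2, 2, 2, 2]⟩,
⟨0, [0, 3, 0, 1, 1, 4, 1]⟩,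
⟨0, [1, 1, 4, 0, 0, 3, 1]⟩,
⟨0, [1, 2, 1, 1, 1, 2, 2]⟩,
⟨0, [1, 1, 0, 2, 1, 2, 3]⟩,
⟨0, [0, 1, 0, 3, 1, 2, 3]⟩,
⟨0, [0, 1, 0, 0, 3, 3, 3]⟩,
⟨0, [0, 1, 0, 2, 3, 0, 4]⟩,
⟨0, [0, 0, 0, 2, 0, 3, 5]⟩,
⟨0, [0, 1, 0, 0, 3, 2, 4]⟩,
⟨0, [0, 0, 1, 0, 2, 3, 4]⟩,
⟨0, [0, 1, 0, 3, 4, 2, 0]⟩,
⟨0, [1, 1, 2, 2, 1, 2, 1]⟩,
⟨0, [0, 3, 3, 0, 1, 1, 2]⟩,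
⟨1, [1, 0, 0, 0, 0, 1]⟩,
⟨0, [0, 0, 1, 3, 2, 4, 0]⟩,
⟨0, [2, 1, 2, 1, 1, 1, 2]⟩,
⟨0, [2, 2, 1, 0, 0, 1, 4]⟩,
⟨0, [1, 4, 1, 0, 1, 0, 3]⟩,
⟨0, [0, 1, 1, 1, 2, 3, 2]⟩,
⟨0, [1, 1, 2, 1, 1, 2, 2]⟩,
⟨0, [0, 0, 1, 2, 2, 1, 4]⟩,
⟨0, [0, 0, 0, 1, 4, 1, 4]⟩,
⟨0, [0, 3, 3, 1, 0, 0, 3]⟩,
⟨0, [1, 1, 2, 1, 0, 0, 5]⟩,
⟨1, [1, 0, 0, 0, 1, 0]⟩,
⟨0, [2, 0, 3, 0, 1, 0, 4]⟩]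

noncomputable def gads : List Gt := [
⟨0, [⟨8, 2, []⟩, ⟨20, 2, []⟩], [3, 3, 3], 1, [(12, 1), (24, 1)]⟩,
⟨1, [⟨40, 4, []⟩, ⟨20, 4, []⟩, ⟨64, 4, []⟩], [7], 1, [(76, 1), (88, 1), (100, 1), (112, 1)]⟩,
⟨1, [⟨34, 4, []⟩, ⟨0, 0, [(80, 2)]⟩], [3, 2, 2], 1, [(82, 1), (112, 1)]⟩,
⟨1, [⟨0, 0, [(9, 2)]⟩, ⟨4, 3, []⟩, ⟨32, 3, []⟩, ⟨64, 3, []⟩], [1, 1, 1, 6, 6, 8, 8], 2, [(45, 1), (73, 1), (100, 1), (109, 2)]⟩,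
⟨0, [⟨20, 2, []⟩, ⟨2, 2, []⟩], [3, 3, 3], 1, [(6, 1), (18, 1)]⟩,
⟨1, [⟨3, 3, []⟩, ⟨4, 3, []⟩], [3, 3], 1, [(5, 1), (6, 1)]⟩,
⟨1, [⟨0, 0, [(96, 3)]⟩, ⟨16, 3, []⟩], [3, 3], 1, [(112, 1)]⟩,
⟨0, [⟨10, 4, []⟩, ⟨1, 2, []⟩], [3, 2, 2], 1, [(3, 1), (9, 1)]⟩,
⟨0, [⟨66, 2, []⟩, ⟨8, 2, []⟩], [3, 3, 3], 1, [(10, 1), (72, 1)]⟩,
⟨1, [⟨5, 4, []⟩, ⟨2, 4, []⟩, ⟨64, 4, []⟩], [7], 1, [(67, 1), (70, 1)]⟩,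
⟨1, [⟨0, 0, [(48, 3)]⟩, ⟨4, 3, []⟩], [3, 3], 1, [(52, 1)]⟩,
⟨1, [⟨1, 2, []⟩, ⟨2, 3, []⟩, ⟨4, 3, []⟩, ⟨8, 2, []⟩, ⟨64, 3, []⟩], [7, 7, 9, 24, 24], 2, [(7, 1), (70, 1), (72, 1), (79, 2)]⟩,
⟨1, [⟨24, 3, []⟩, ⟨32, 3, []⟩], [3, 3], 1, [(40, 1), (48, 1)]⟩,
⟨1, [⟨2, 4, []⟩, ⟨4, 4, []⟩, ⟨80, 4, []⟩], [7], 1, [(22, 1), (70, 1)]⟩,
⟨1, [⟨2, 4, []⟩, ⟨4, 4, []⟩, ⟨40, 4, []⟩], [7], 1, [(14, 1), (38, 1)]⟩,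
⟨1, [⟨3, 4, []⟩, ⟨36, 4, []⟩, ⟨64, 4, []⟩], [7], 1, [(69, 1), (70, 1), (97, 1), (98, 1)]⟩,
⟨0, [⟨20, 2, []⟩, ⟨64, 2, []⟩], [3, 3, 3], 1, [(68, 1), (80, 1)]⟩,
⟨1, [⟨34, 5, []⟩, ⟨4, 3, []⟩, ⟨64, 5, []⟩], [2, 2], 1, [(70, 1), (100, 1)]⟩,
⟨1, [⟨3, 5, []⟩, ⟨36, 5, []⟩, ⟨64, 3, []⟩], [4, 4], 1, [(69, 1), (70, 1), (97, 1), (98, 1)]⟩,
⟨1, [⟨17, 4, []⟩, ⟨66, 4, []⟩, ⟨4, 4, []⟩], [7], 1, [(7, 1), (22, 1), (69, 1), (84, 1)]⟩,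
⟨1, [⟨10, 4, []⟩, ⟨48, 4, []⟩, ⟨64, 4, []⟩], [7], 1, [(82, 1), (88, 1), (98, 1), (104, 1)]⟩,
⟨0, [⟨10, 2, []⟩, ⟨5, 2, []⟩], [3, 3, 3], 1, [(3, 1), (6, 1), (9, 1), (12, 1)]⟩,
⟨1, [⟨36, 4, []⟩, ⟨2, 4, []⟩, ⟨64, 4, []⟩], [7], 1, [(70, 1), (98, 1)]⟩,
⟨1, [⟨0, 0, [(6, 3)]⟩, ⟨64, 3, []⟩], [3, 3], 1, [(70, 1)]⟩,
⟨1, [⟨12, 5, []⟩, ⟨0, 0, [(17, 3)]⟩, ⟨66, 5, []⟩], [2, 2], 1, [(23, 1), (27, 1), (85, 1), (89, 1)]⟩,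
⟨0, [⟨2, 2, []⟩, ⟨64, 2, []⟩], [3, 3, 3], 1, [(66, 1)]⟩,
⟨0, [⟨17, 2, []⟩, ⟨2, 2, []⟩], [3, 3, 3], 1, [(3, 1), (18, 1)]⟩,
⟨1, [⟨0, 0, [(10, 2)]⟩, ⟨64, 4, []⟩], [3, 1, 1], 1, [(74, 1)]⟩,
⟨0, [⟨20, 2, []⟩, ⟨32, 2, []⟩], [3, 3, 3], 1, [(36, 1), (48, 1)]⟩,
⟨1, [⟨8, 3, []⟩, ⟨0, 0, [(80, 3)]⟩], [3, 3], 1, [(88, 1)]⟩,
⟨0, [⟨10, 2, []⟩, ⟨32, 2, []⟩], [3, 3, 3], 1, [(34, 1), (40, 1)]⟩,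
⟨1, [⟨33, 4, []⟩, ⟨66, 4, []⟩, ⟨4, 4, []⟩], [7], 1, [(7, 1), (38, 1), (69, 1), (100, 1)]⟩,
⟨1, [⟨16, 4, []⟩, ⟨32, 2, []⟩], [3, 2, 2], 1, [(48, 1)]⟩,
⟨0, [⟨68, 2, []⟩, ⟨32, 2, []⟩], [3, 3, 3], 1, [(36, 1), (96, 1)]⟩,
⟨1, [⟨3, 4, []⟩, ⟨4, 4, []⟩, ⟨64, 4, []⟩], [7], 1, [(69, 1), (70, 1)]⟩,
⟨1, [⟨12, 4, []⟩, ⟨64, 2, []⟩], [3, 2, 2], 1, [(68, 1), (72, 1)]⟩,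
⟨0, [⟨20, 2, []⟩, ⟨3, 2, []⟩], [3, 3, 3], 1, [(5, 1), (6, 1), (17, 1), (18, 1)]⟩,
⟨0, [⟨96, 2, []⟩, ⟨4, 2, []⟩], [3, 3, 3], 1, [(36, 1), (68, 1)]⟩,
⟨1, [⟨0, 0, [(17, 2)]⟩, ⟨64, 4, []⟩], [3, 1, 1], 1, [(81, 1)]⟩,
⟨1, [⟨0, 0, [(24, 2)]⟩, ⟨64, 4, []⟩], [3, 1, 1], 1, [(88, 1)]⟩,
⟨0, [⟨10, 2, []⟩, ⟨64, 2, []⟩], [3, 3, 3], 1, [(66, 1), (72, 1)]⟩,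
⟨0, [⟨12, 2, []⟩, ⟨16, 2, []⟩], [3, 3, 3], 1, [(20, 1), (24, 1)]⟩,
⟨1, [⟨32, 2, []⟩, ⟨16, 3, []⟩, ⟨1, 3, []⟩, ⟨2, 3, []⟩, ⟨64, 4, []⟩], [3, 3, 17, 12, 12], 2, [(19, 1), (67, 1), (112, 1), (115, 2)]⟩,
⟨1, [⟨0, 0, [(3, 2)]⟩, ⟨4, 4, []⟩], [3, 1, 1], 1, [(7, 1)]⟩,
⟨1, [⟨16, 4, []⟩, ⟨32, 4, []⟩, ⟨66, 4, []⟩], [7], 1, [(50, 1), (112, 1)]⟩,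
⟨1, [⟨0, 0, [(5, 2)]⟩, ⟨64, 4, []⟩], [3, 1, 1], 1, [(69, 1)]⟩,
⟨1, [⟨12, 5, []⟩, ⟨16, 3, []⟩, ⟨64, 5, []⟩], [2, 2], 1, [(84, 1), (88, 1)]⟩,
⟨1, [⟨33, 4, []⟩, ⟨2, 4, []⟩, ⟨64, 4, []⟩], [7], 1, [(67, 1), (98, 1)]⟩,
⟨1, [⟨34, 4, []⟩, ⟨0, 0, [(68, 2)]⟩], [3, 2, 2], 1, [(70, 1), (100, 1)]⟩,
⟨1, [⟨1, 2, []⟩, ⟨2, 2, []⟩, ⟨8, 3, []⟩, ⟨32, 3, []⟩, ⟨64, 3, []⟩], [3, 3, 3, 28, 28], 2, [(3, 1), (104, 1), (107, 2)]⟩,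
⟨1, [⟨1, 2, []⟩, ⟨2, 2, []⟩, ⟨8, 3, []⟩, ⟨16, 3, []⟩, ⟨64, 3, []⟩], [3, 3, 3, 28, 28], 2, [(3, 1), (88, 1), (91, 2)]⟩,
⟨0, [⟨4, 2, []⟩, ⟨32, 2, []⟩], [3, 3, 3], 1, [(36, 1)]⟩,
⟨0, [⟨72, 2, []⟩, ⟨32, 2, []⟩], [3, 3, 3], 1, [(40, 1), (96, 1)]⟩,
⟨1, [⟨2, 3, []⟩, ⟨4, 3, []⟩], [3, 3], 1, [(6, 1)]⟩,
⟨0, [⟨5, 2, []⟩, ⟨2, 2, []⟩], [3, 3, 3], 1, [(3, 1), (6, 1)]⟩,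
⟨1, [⟨2, 2, []⟩, ⟨64, 4, []⟩], [3, 1, 1], 1, [(66, 1)]⟩,
⟨1, [⟨24, 4, []⟩, ⟨0, 0, [(68, 2)]⟩], [3, 2, 2], 1, [(76, 1), (84, 1)]⟩,
⟨1, [⟨0, 0, [(80, 2)]⟩, ⟨32, 4, []⟩], [3, 1, 1], 1, [(112, 1)]⟩,
⟨1, [⟨36, 5, []⟩, ⟨16, 3, []⟩, ⟨64, 5, []⟩], [2, 2], 1, [(84, 1), (112, 1)]⟩,
⟨1, [⟨33, 5, []⟩, ⟨0, 0, [(12, 3)]⟩, ⟨80, 5, []⟩], [2, 2], 1, [(29, 1), (60, 1), (77, 1), (108, 1)]⟩,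
⟨0, [⟨18, 2, []⟩, ⟨32, 2, []⟩], [3, 3, 3], 1, [(34, 1), (48, 1)]⟩,
⟨1, [⟨40, 4, []⟩, ⟨16, 4, []⟩, ⟨64, 4, []⟩], [7], 1, [(88, 1), (112, 1)]⟩,
⟨1, [⟨2, 4, []⟩, ⟨4, 4, []⟩, ⟨64, 4, []⟩], [7], 1, [(70, 1)]⟩,
⟨0, [⟨96, 2, []⟩, ⟨20, 2, []⟩], [3, 3, 3], 1, [(36, 1), (48, 1), (68, 1), (80, 1)]⟩,
⟨1, [⟨0, 0, [(66, 2)]⟩, ⟨4, 4, []⟩], [3, 1, 1], 1, [(70, 1)]⟩,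
⟨0, [⟨1, 2, []⟩, ⟨34, 2, []⟩], [3, 3, 3], 1, [(3, 1), (33, 1)]⟩,
⟨1, [⟨3, 4, []⟩, ⟨12, 4, []⟩, ⟨64, 4, []⟩], [7], 1, [(69, 1), (70, 1), (73, 1), (74, 1)]⟩,
⟨1, [⟨0, 0, [(36, 3)]⟩, ⟨2, 3, []⟩], [3, 3], 1, [(38, 1)]⟩,
⟨0, [⟨36, 2, []⟩, ⟨2, 2, []⟩], [3, 3, 3], 1, [(6, 1), (34, 1)]⟩,
⟨1, [⟨2, 3, []⟩, ⟨64, 3, []⟩], [3, 3], 1, [(66, 1)]⟩,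
⟨1, [⟨40, 4, []⟩, ⟨4, 4, []⟩, ⟨64, 4, []⟩], [7], 1, [(76, 1), (100, 1)]⟩,
⟨1, [⟨4, 4, []⟩, ⟨2, 2, []⟩], [3, 2, 2], 1, [(6, 1)]⟩,
⟨0, [⟨1, 2, []⟩, ⟨18, 2, []⟩], [3, 3, 3], 1, [(3, 1), (17, 1)]⟩,
⟨0, [⟨9, 2, []⟩, ⟨64, 2, []⟩], [3, 3, 3], 1, [(65, 1), (72, 1)]⟩,
⟨1, [⟨2, 2, []⟩, ⟨4, 2, []⟩, ⟨16, 3, []⟩, ⟨32, 3, []⟩, ⟨64, 5, []⟩], [3, 3, 3, 12, 12], 2, [(70, 1), (112, 1), (118, 2)]⟩,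
⟨1, [⟨17, 5, []⟩, ⟨0, 0, [(12, 3)]⟩, ⟨96, 5, []⟩], [2, 2], 1, [(45, 1), (60, 1), (77, 1), (92, 1)]⟩,
⟨1, [⟨4, 4, []⟩, ⟨32, 4, []⟩, ⟨64, 4, []⟩], [7], 1, [(100, 1)]⟩,
⟨1, [⟨5, 4, []⟩, ⟨2, 4, []⟩, ⟨72, 4, []⟩], [7], 1, [(11, 1), (14, 1), (67, 1), (70, 1)]⟩,
⟨1, [⟨0, 0, [(24, 2)]⟩, ⟨32, 4, []⟩], [3, 1, 1], 1, [(56, 1)]⟩,
⟨1, [⟨33, 4, []⟩, ⟨10, 4, []⟩, ⟨64, 4, []⟩], [7], 1, [(67, 1), (73, 1), (98, 1), (104, 1)]⟩,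
⟨1, [⟨10, 5, []⟩, ⟨32, 3, []⟩, ⟨64, 5, []⟩], [2, 2], 1, [(98, 1), (104, 1)]⟩,
⟨1, [⟨20, 4, []⟩, ⟨32, 4, []⟩, ⟨64, 4, []⟩], [7], 1, [(100, 1), (112, 1)]⟩,
⟨0, [⟨18, 2, []⟩, ⟨4, 2, []⟩], [3, 3, 3], 1, [(6, 1), (20, 1)]⟩,
⟨0, [⟨65, 2, []⟩, ⟨4, 2, []⟩], [3, 3, 3], 1, [(5, 1), (68, 1)]⟩,
⟨0, [⟨5, 2, []⟩, ⟨24, 2, []⟩], [3, 3, 3], 1, [(9, 1), (12, 1), (17, 1), (20, 1)]⟩,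
⟨1, [⟨24, 4, []⟩, ⟨33, 4, []⟩, ⟨64, 4, []⟩], [7], 1, [(73, 1), (81, 1), (104, 1), (112, 1)]⟩,
⟨1, [⟨17, 5, []⟩, ⟨2, 3, []⟩, ⟨64, 5, []⟩], [2, 2], 1, [(67, 1), (82, 1)]⟩,
⟨1, [⟨1, 2, []⟩, ⟨68, 4, []⟩], [3, 1, 1], 1, [(5, 1), (65, 1)]⟩,
⟨1, [⟨40, 5, []⟩, ⟨16, 3, []⟩, ⟨64, 5, []⟩], [2, 2], 1, [(88, 1), (112, 1)]⟩,
⟨1, [⟨33, 5, []⟩, ⟨4, 3, []⟩, ⟨80, 5, []⟩], [2, 2], 1, [(21, 1), (52, 1), (69, 1), (100, 1)]⟩,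
⟨0, [⟨68, 2, []⟩, ⟨18, 2, []⟩], [3, 3, 3], 1, [(6, 1), (20, 1), (66, 1), (80, 1)]⟩,
⟨1, [⟨40, 4, []⟩, ⟨17, 4, []⟩, ⟨64, 4, []⟩], [7], 1, [(73, 1), (88, 1), (97, 1), (112, 1)]⟩,
⟨1, [⟨24, 3, []⟩, ⟨64, 3, []⟩], [3, 3], 1, [(72, 1), (80, 1)]⟩,
⟨1, [⟨8, 2, []⟩, ⟨32, 2, []⟩, ⟨2, 3, []⟩, ⟨4, 3, []⟩, ⟨64, 5, []⟩], [3, 3, 3, 12, 12], 2, [(70, 1), (104, 1), (110, 2)]⟩,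
⟨1, [⟨1, 2, []⟩, ⟨2, 4, []⟩], [3, 1, 1], 1, [(3, 1)]⟩,
⟨1, [⟨3, 4, []⟩, ⟨20, 4, []⟩, ⟨64, 4, []⟩], [7], 1, [(69, 1), (70, 1), (81, 1), (82, 1)]⟩,
⟨0, [⟨12, 2, []⟩, ⟨64, 2, []⟩], [3, 3, 3], 1, [(68, 1), (72, 1)]⟩,
⟨1, [⟨0, 0, [(6, 3)]⟩, ⟨0, 0, [(48, 3)]⟩], [3, 3], 1, [(54, 1)]⟩,
⟨1, [⟨8, 3, []⟩, ⟨16, 3, []⟩, ⟨32, 3, []⟩, ⟨1, 2, []⟩, ⟨4, 2, []⟩], [7, 7, 24, 24, 24], 2, [(5, 1), (56, 1), (61, 2)]⟩,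
⟨0, [⟨80, 2, []⟩, ⟨4, 2, []⟩], [3, 3, 3], 1, [(20, 1), (68, 1)]⟩,
⟨1, [⟨16, 2, []⟩, ⟨32, 3, []⟩, ⟨1, 3, []⟩, ⟨2, 3, []⟩, ⟨64, 4, []⟩], [3, 3, 17, 12, 12], 2, [(35, 1), (67, 1), (112, 1), (115, 2)]⟩,
⟨1, [⟨12, 3, []⟩, ⟨0, 0, [(48, 3)]⟩], [3, 3], 1, [(52, 1), (56, 1)]⟩,
⟨1, [⟨8, 3, []⟩, ⟨32, 3, []⟩], [3, 3], 1, [(40, 1)]⟩,
⟨1, [⟨20, 5, []⟩, ⟨32, 3, []⟩, ⟨64, 5, []⟩], [2, 2], 1, [(100, 1), (112, 1)]⟩,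
⟨1, [⟨40, 4, []⟩, ⟨2, 4, []⟩, ⟨68, 4, []⟩], [7], 1, [(14, 1), (38, 1), (74, 1), (98, 1)]⟩,
⟨0, [⟨8, 2, []⟩, ⟨96, 2, []⟩], [3, 3, 3], 1, [(40, 1), (72, 1)]⟩,
⟨0, [⟨5, 2, []⟩, ⟨66, 2, []⟩], [3, 3, 3], 1, [(3, 1), (6, 1), (65, 1), (68, 1)]⟩,
⟨0, [⟨8, 2, []⟩, ⟨80, 2, []⟩], [3, 3, 3], 1, [(24, 1), (72, 1)]⟩,
⟨0, [⟨6, 2, []⟩, ⟨80, 2, []⟩], [3, 3, 3], 1, [(18, 1), (20, 1), (66, 1), (68, 1)]⟩,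
⟨1, [⟨2, 2, []⟩, ⟨4, 3, []⟩, ⟨8, 3, []⟩, ⟨32, 3, []⟩, ⟨64, 4, []⟩], [3, 3, 17, 12, 12], 2, [(44, 1), (70, 1), (104, 1), (110, 2)]⟩,
⟨1, [⟨0, 0, [(20, 3)]⟩, ⟨32, 3, []⟩], [3, 3], 1, [(52, 1)]⟩,
⟨1, [⟨36, 4, []⟩, ⟨0, 0, [(66, 2)]⟩], [3, 2, 2], 1, [(70, 1), (98, 1)]⟩,
⟨0, [⟨34, 2, []⟩, ⟨5, 2, []⟩], [3, 3, 3], 1, [(3, 1), (6, 1), (33, 1), (36, 1)]⟩,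
⟨1, [⟨40, 4, []⟩, ⟨18, 4, []⟩, ⟨64, 4, []⟩], [7], 1, [(74, 1), (88, 1), (98, 1), (112, 1)]⟩,
⟨1, [⟨8, 2, []⟩, ⟨16, 2, []⟩, ⟨2, 3, []⟩, ⟨4, 3, []⟩, ⟨64, 5, []⟩], [3, 3, 3, 12, 12], 2, [(70, 1), (88, 1), (94, 2)]⟩,
⟨1, [⟨8, 2, []⟩, ⟨16, 2, []⟩, ⟨1, 3, []⟩, ⟨2, 3, []⟩, ⟨64, 3, []⟩], [3, 3, 3, 28, 28], 2, [(24, 1), (67, 1), (91, 2)]⟩,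
⟨1, [⟨4, 2, []⟩, ⟨66, 4, []⟩], [3, 1, 1], 1, [(6, 1), (68, 1)]⟩,
⟨0, [⟨18, 2, []⟩, ⟨40, 2, []⟩], [3, 3, 3], 1, [(10, 1), (24, 1), (34, 1), (48, 1)]⟩,
⟨1, [⟨17, 4, []⟩, ⟨68, 4, []⟩, ⟨2, 4, []⟩], [7], 1, [(7, 1), (22, 1), (67, 1), (82, 1)]⟩,
⟨1, [⟨33, 4, []⟩, ⟨10, 4, []⟩, ⟨4, 4, []⟩], [7], 1, [(7, 1), (13, 1), (38, 1), (44, 1)]⟩,
⟨1, [⟨4, 4, []⟩, ⟨16, 4, []⟩, ⟨64, 4, []⟩], [7], 1, [(84, 1)]⟩,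
⟨1, [⟨10, 4, []⟩, ⟨96, 4, []⟩, ⟨16, 4, []⟩], [7], 1, [(50, 1), (56, 1), (82, 1), (88, 1)]⟩,
⟨1, [⟨2, 4, []⟩, ⟨64, 2, []⟩], [3, 2, 2], 1, [(66, 1)]⟩,
⟨1, [⟨32, 3, []⟩, ⟨64, 3, []⟩], [3, 3], 1, [(96, 1)]⟩,
⟨1, [⟨17, 3, []⟩, ⟨0, 0, [(6, 3)]⟩], [3, 3], 1, [(7, 1), (22, 1)]⟩,
⟨1, [⟨16, 3, []⟩, ⟨32, 3, []⟩], [3, 3], 1, [(48, 1)]⟩,
⟨1, [⟨32, 2, []⟩, ⟨16, 3, []⟩, ⟨1, 3, []⟩, ⟨4, 3, []⟩, ⟨64, 4, []⟩], [3, 3, 17, 12, 12], 2, [(21, 1), (69, 1), (112, 1), (117, 2)]⟩,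
⟨1, [⟨12, 4, []⟩, ⟨48, 4, []⟩, ⟨64, 4, []⟩], [7], 1, [(84, 1), (88, 1), (100, 1), (104, 1)]⟩,
⟨1, [⟨0, 0, [(80, 3)]⟩, ⟨32, 3, []⟩], [3, 3], 1, [(112, 1)]⟩,
⟨0, [⟨17, 2, []⟩, ⟨4, 2, []⟩], [3, 3, 3], 1, [(5, 1), (20, 1)]⟩,
⟨1, [⟨1, 2, []⟩, ⟨4, 2, []⟩, ⟨16, 3, []⟩, ⟨32, 3, []⟩, ⟨64, 5, []⟩], [3, 3, 3, 12, 12], 2, [(69, 1), (112, 1), (117, 2)]⟩,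
⟨0, [⟨80, 2, []⟩, ⟨2, 2, []⟩], [3, 3, 3], 1, [(18, 1), (66, 1)]⟩,
⟨0, [⟨1, 2, []⟩, ⟨66, 2, []⟩], [3, 3, 3], 1, [(3, 1), (65, 1)]⟩,
⟨1, [⟨48, 4, []⟩, ⟨64, 2, []⟩], [3, 2, 2], 1, [(80, 1), (96, 1)]⟩,
⟨1, [⟨12, 5, []⟩, ⟨32, 3, []⟩, ⟨66, 5, []⟩], [2, 2], 1, [(38, 1), (42, 1), (100, 1), (104, 1)]⟩,
⟨0, [⟨65, 2, []⟩, ⟨16, 2, []⟩], [3, 3, 3], 1, [(17, 1), (80, 1)]⟩,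
⟨1, [⟨10, 4, []⟩, ⟨32, 4, []⟩, ⟨64, 4, []⟩], [7], 1, [(98, 1), (104, 1)]⟩,
⟨0, [⟨34, 2, []⟩, ⟨24, 2, []⟩], [3, 3, 3], 1, [(10, 1), (18, 1), (40, 1), (48, 1)]⟩,
⟨0, [⟨5, 2, []⟩, ⟨40, 2, []⟩], [3, 3, 3], 1, [(9, 1), (12, 1), (33, 1), (36, 1)]⟩,
⟨1, [⟨18, 4, []⟩, ⟨4, 4, []⟩, ⟨64, 4, []⟩], [7], 1, [(70, 1), (84, 1)]⟩,
⟨0, [⟨1, 3, []⟩, ⟨2, 3, []⟩], [3, 3], 1, [(3, 1)]⟩,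
⟨0, [⟨4, 2, []⟩, ⟨16, 2, []⟩], [3, 3, 3], 1, [(20, 1)]⟩,
⟨0, [⟨1, 2, []⟩, ⟨4, 4, []⟩], [3, 1, 1], 1, [(5, 1)]⟩,
⟨0, [⟨66, 2, []⟩, ⟨32, 2, []⟩], [3, 3, 3], 1, [(34, 1), (96, 1)]⟩,
⟨1, [⟨10, 4, []⟩, ⟨17, 4, []⟩, ⟨32, 4, []⟩], [7], 1, [(35, 1), (41, 1), (50, 1), (56, 1)]⟩,
⟨0, [⟨1, 2, []⟩, ⟨36, 2, []⟩], [3, 3, 3], 1, [(5, 1), (33, 1)]⟩,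
⟨0, [⟨72, 2, []⟩, ⟨2, 2, []⟩], [3, 3, 3], 1, [(10, 1), (66, 1)]⟩,
⟨1, [⟨5, 4, []⟩, ⟨34, 4, []⟩, ⟨64, 4, []⟩], [7], 1, [(67, 1), (70, 1), (97, 1), (100, 1)]⟩,
⟨1, [⟨24, 4, []⟩, ⟨4, 4, []⟩, ⟨66, 4, []⟩], [7], 1, [(14, 1), (22, 1), (76, 1), (84, 1)]⟩,
⟨1, [⟨2, 4, []⟩, ⟨4, 2, []⟩], [3, 2, 2], 1, [(6, 1)]⟩,
⟨0, [⟨1, 2, []⟩, ⟨64, 2, []⟩], [3, 3, 3], 1, [(65, 1)]⟩,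
⟨1, [⟨34, 4, []⟩, ⟨4, 4, []⟩, ⟨64, 4, []⟩], [7], 1, [(70, 1), (100, 1)]⟩,
⟨1, [⟨4, 2, []⟩, ⟨64, 4, []⟩], [3, 1, 1], 1, [(68, 1)]⟩,
⟨1, [⟨24, 4, []⟩, ⟨32, 4, []⟩, ⟨64, 4, []⟩], [7], 1, [(104, 1), (112, 1)]⟩,
⟨1, [⟨3, 4, []⟩, ⟨0, 0, [(80, 2)]⟩], [3, 2, 2], 1, [(81, 1), (82, 1)]⟩,
⟨1, [⟨65, 3, []⟩, ⟨2, 3, []⟩], [3, 3], 1, [(3, 1), (66, 1)]⟩,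
⟨1, [⟨33, 4, []⟩, ⟨68, 4, []⟩, ⟨2, 4, []⟩], [7], 1, [(7, 1), (38, 1), (67, 1), (98, 1)]⟩,
⟨1, [⟨24, 4, []⟩, ⟨34, 4, []⟩, ⟨64, 4, []⟩], [7], 1, [(74, 1), (82, 1), (104, 1), (112, 1)]⟩,
⟨1, [⟨40, 3, []⟩, ⟨64, 3, []⟩], [3, 3], 1, [(72, 1), (96, 1)]⟩,
⟨0, [⟨9, 2, []⟩, ⟨2, 2, []⟩], [3, 3, 3], 1, [(3, 1), (10, 1)]⟩,
⟨0, [⟨17, 2, []⟩, ⟨40, 2, []⟩], [3, 3, 3], 1, [(9, 1), (24, 1), (33, 1), (48, 1)]⟩,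
⟨1, [⟨34, 5, []⟩, ⟨16, 3, []⟩, ⟨64, 5, []⟩], [2, 2], 1, [(82, 1), (112, 1)]⟩,
⟨1, [⟨10, 4, []⟩, ⟨80, 4, []⟩, ⟨32, 4, []⟩], [7], 1, [(50, 1), (56, 1), (98, 1), (104, 1)]⟩,
⟨1, [⟨6, 4, []⟩, ⟨24, 4, []⟩, ⟨64, 4, []⟩], [7], 1, [(74, 1), (76, 1), (82, 1), (84, 1)]⟩,
⟨0, [⟨36, 2, []⟩, ⟨16, 2, []⟩], [3, 3, 3], 1, [(20, 1), (48, 1)]⟩,
⟨0, [⟨12, 2, []⟩, ⟨3, 2, []⟩], [3, 3, 3], 1, [(5, 1), (6, 1), (9, 1), (10, 1)]⟩,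
⟨1, [⟨5, 4, []⟩, ⟨18, 4, []⟩, ⟨64, 4, []⟩], [7], 1, [(67, 1), (70, 1), (81, 1), (84, 1)]⟩,
⟨0, [⟨33, 4, []⟩, ⟨8, 2, []⟩], [3, 2, 2], 1, [(9, 1), (40, 1)]⟩,
⟨1, [⟨17, 5, []⟩, ⟨4, 3, []⟩, ⟨64, 5, []⟩], [2, 2], 1, [(69, 1), (84, 1)]⟩,
⟨0, [⟨12, 2, []⟩, ⟨34, 2, []⟩], [3, 3, 3], 1, [(6, 1), (10, 1), (36, 1), (40, 1)]⟩,
⟨1, [⟨16, 2, []⟩, ⟨32, 2, []⟩, ⟨2, 3, []⟩, ⟨4, 3, []⟩, ⟨64, 5, []⟩], [3, 3, 3, 12, 12], 2, [(70, 1), (112, 1), (118, 2)]⟩,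
⟨0, [⟨33, 2, []⟩, ⟨2, 2, []⟩], [3, 3, 3], 1, [(3, 1), (34, 1)]⟩,
⟨0, [⟨5, 2, []⟩, ⟨64, 2, []⟩], [3, 3, 3], 1, [(65, 1), (68, 1)]⟩,
⟨1, [⟨4, 4, []⟩, ⟨64, 2, []⟩], [3, 2, 2], 1, [(68, 1)]⟩,
⟨1, [⟨0, 0, [(3, 2)]⟩, ⟨64, 4, []⟩], [3, 1, 1], 1, [(67, 1)]⟩,
⟨0, [⟨1, 2, []⟩, ⟨50, 2, []⟩], [3, 3, 3], 1, [(3, 1), (17, 1), (33, 1)]⟩,
⟨0, [⟨16, 3, []⟩, ⟨32, 3, []⟩], [3, 3], 1, [(48, 1)]⟩,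
⟨1, [⟨0, 0, [(34, 3)]⟩, ⟨64, 3, []⟩], [3, 3], 1, [(98, 1)]⟩,
⟨0, [⟨65, 2, []⟩, ⟨2, 2, []⟩], [3, 3, 3], 1, [(3, 1), (66, 1)]⟩,
⟨1, [⟨9, 4, []⟩, ⟨34, 4, []⟩, ⟨64, 4, []⟩], [7], 1, [(67, 1), (74, 1), (97, 1), (104, 1)]⟩,
⟨1, [⟨34, 4, []⟩, ⟨16, 4, []⟩, ⟨64, 4, []⟩], [7], 1, [(82, 1), (112, 1)]⟩,
⟨0, [⟨8, 2, []⟩, ⟨16, 4, []⟩], [3, 1, 1], 1, [(24, 1)]⟩,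
⟨1, [⟨1, 2, []⟩, ⟨66, 4, []⟩], [3, 1, 1], 1, [(3, 1), (65, 1)]⟩,
⟨0, [⟨36, 2, []⟩, ⟨24, 2, []⟩], [3, 3, 3], 1, [(12, 1), (20, 1), (40, 1), (48, 1)]⟩,
⟨1, [⟨9, 4, []⟩, ⟨20, 4, []⟩, ⟨64, 4, []⟩], [7], 1, [(69, 1), (76, 1), (81, 1), (88, 1)]⟩,
⟨1, [⟨16, 3, []⟩, ⟨33, 5, []⟩, ⟨64, 5, []⟩], [1, 1], 1, [(81, 1), (112, 1)]⟩,
⟨0, [⟨9, 2, []⟩, ⟨32, 2, []⟩], [3, 3, 3], 1, [(33, 1), (40, 1)]⟩,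
⟨1, [⟨1, 3, []⟩, ⟨0, 0, [(66, 3)]⟩], [3, 3], 1, [(67, 1)]⟩,
⟨1, [⟨3, 4, []⟩, ⟨4, 4, []⟩, ⟨72, 4, []⟩], [7], 1, [(13, 1), (14, 1), (69, 1), (70, 1)]⟩,
⟨1, [⟨24, 4, []⟩, ⟨2, 4, []⟩, ⟨64, 4, []⟩], [7], 1, [(74, 1), (82, 1)]⟩,
⟨1, [⟨65, 4, []⟩, ⟨2, 4, []⟩, ⟨4, 4, []⟩], [7], 1, [(7, 1), (70, 1)]⟩,
⟨0, [⟨8, 3, []⟩, ⟨16, 3, []⟩], [3, 3], 1, [(24, 1)]⟩,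
⟨1, [⟨0, 0, [(6, 3)]⟩, ⟨16, 3, []⟩], [3, 3], 1, [(22, 1)]⟩,
⟨1, [⟨0, 0, [(66, 3)]⟩, ⟨4, 3, []⟩], [3, 3], 1, [(70, 1)]⟩,
⟨1, [⟨16, 2, []⟩, ⟨32, 3, []⟩, ⟨1, 3, []⟩, ⟨4, 3, []⟩, ⟨64, 4, []⟩], [3, 3, 17, 12, 12], 2, [(37, 1), (69, 1), (112, 1), (117, 2)]⟩,
⟨0, [⟨40, 2, []⟩, ⟨80, 2, []⟩], [3, 3, 3], 1, [(24, 1), (48, 1), (72, 1), (96, 1)]⟩,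
⟨0, [⟨1, 2, []⟩, ⟨2, 4, []⟩], [3, 1, 1], 1, [(3, 1)]⟩,
⟨1, [⟨33, 5, []⟩, ⟨2, 3, []⟩, ⟨64, 5, []⟩], [2, 2], 1, [(67, 1), (98, 1)]⟩,
⟨1, [⟨72, 3, []⟩, ⟨16, 3, []⟩], [3, 3], 1, [(24, 1), (80, 1)]⟩,
⟨1, [⟨8, 2, []⟩, ⟨32, 4, []⟩], [3, 1, 1], 1, [(40, 1)]⟩,
⟨1, [⟨8, 2, []⟩, ⟨16, 3, []⟩, ⟨32, 3, []⟩, ⟨1, 2, []⟩, ⟨64, 3, []⟩], [7, 7, 9, 24, 24], 2, [(56, 1), (65, 1), (112, 1), (121, 2)]⟩,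
⟨0, [⟨48, 2, []⟩, ⟨66, 2, []⟩], [3, 3, 3], 1, [(18, 1), (34, 1), (80, 1), (96, 1)]⟩,
⟨1, [⟨17, 4, []⟩, ⟨4, 4, []⟩, ⟨64, 4, []⟩], [7], 1, [(69, 1), (84, 1)]⟩,
⟨0, [⟨8, 2, []⟩, ⟨48, 2, []⟩], [3, 3, 3], 1, [(24, 1), (40, 1)]⟩,
⟨1, [⟨33, 3, []⟩, ⟨0, 0, [(6, 3)]⟩], [3, 3], 1, [(7, 1), (38, 1)]⟩,
⟨0, [⟨24, 2, []⟩, ⟨64, 2, []⟩], [3, 3, 3], 1, [(72, 1), (80, 1)]⟩,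
⟨1, [⟨8, 2, []⟩, ⟨32, 2, []⟩, ⟨1, 3, []⟩, ⟨2, 3, []⟩, ⟨64, 3, []⟩], [3, 3, 3, 28, 28], 2, [(40, 1), (67, 1), (107, 2)]⟩,
⟨1, [⟨16, 4, []⟩, ⟨32, 4, []⟩, ⟨5, 4, []⟩], [7], 1, [(49, 1), (52, 1)]⟩,
⟨1, [⟨12, 4, []⟩, ⟨33, 4, []⟩, ⟨16, 4, []⟩], [7], 1, [(21, 1), (25, 1), (52, 1), (56, 1)]⟩,
⟨1, [⟨18, 4, []⟩, ⟨0, 0, [(68, 2)]⟩], [3, 2, 2], 1, [(70, 1), (84, 1)]⟩,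
⟨1, [⟨16, 4, []⟩, ⟨32, 4, []⟩, ⟨68, 4, []⟩], [7], 1, [(52, 1), (112, 1)]⟩,
⟨1, [⟨5, 3, []⟩, ⟨2, 3, []⟩], [3, 3], 1, [(3, 1), (6, 1)]⟩,
⟨0, [⟨3, 2, []⟩, ⟨24, 2, []⟩], [3, 3, 3], 1, [(9, 1), (10, 1), (17, 1), (18, 1)]⟩,
⟨1, [⟨17, 5, []⟩, ⟨0, 0, [(10, 3)]⟩, ⟨96, 5, []⟩], [2, 2], 1, [(43, 1), (58, 1), (75, 1), (90, 1)]⟩,
⟨1, [⟨16, 2, []⟩, ⟨64, 4, []⟩], [3, 1, 1], 1, [(80, 1)]⟩,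
⟨0, [⟨40, 2, []⟩, ⟨64, 2, []⟩], [3, 3, 3], 1, [(72, 1), (96, 1)]⟩,
⟨0, [⟨18, 2, []⟩, ⟨64, 2, []⟩], [3, 3, 3], 1, [(66, 1), (80, 1)]⟩,
⟨0, [⟨8, 2, []⟩, ⟨34, 2, []⟩], [3, 3, 3], 1, [(10, 1), (40, 1)]⟩,
⟨1, [⟨16, 4, []⟩, ⟨32, 4, []⟩, ⟨3, 4, []⟩], [7], 1, [(49, 1), (50, 1)]⟩,
⟨1, [⟨16, 4, []⟩, ⟨64, 2, []⟩], [3, 2, 2], 1, [(80, 1)]⟩,
⟨0, [⟨1, 2, []⟩, ⟨6, 2, []⟩], [3, 3, 3], 1, [(3, 1), (5, 1)]⟩,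
⟨1, [⟨65, 3, []⟩, ⟨4, 3, []⟩], [3, 3], 1, [(5, 1), (68, 1)]⟩,
⟨0, [⟨72, 2, []⟩, ⟨16, 2, []⟩], [3, 3, 3], 1, [(24, 1), (80, 1)]⟩,
⟨1, [⟨32, 2, []⟩, ⟨64, 4, []⟩], [3, 1, 1], 1, [(96, 1)]⟩,
⟨1, [⟨20, 5, []⟩, ⟨2, 3, []⟩, ⟨64, 5, []⟩], [2, 2], 1, [(70, 1), (82, 1)]⟩,
⟨1, [⟨10, 3, []⟩, ⟨0, 0, [(48, 3)]⟩], [3, 3], 1, [(50, 1), (56, 1)]⟩,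
⟨0, [⟨34, 2, []⟩, ⟨64, 2, []⟩], [3, 3, 3], 1, [(66, 1), (96, 1)]⟩,
⟨1, [⟨3, 5, []⟩, ⟨20, 5, []⟩, ⟨64, 3, []⟩], [4, 4], 1, [(69, 1), (70, 1), (81, 1), (82, 1)]⟩,
⟨1, [⟨0, 0, [(68, 2)]⟩, ⟨2, 4, []⟩], [3, 1, 1], 1, [(70, 1)]⟩,
⟨0, [⟨36, 2, []⟩, ⟨64, 2, []⟩], [3, 3, 3], 1, [(68, 1), (96, 1)]⟩,
⟨0, [⟨16, 2, []⟩, ⟨64, 2, []⟩], [3, 3, 3], 1, [(80, 1)]⟩,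
⟨1, [⟨5, 4, []⟩, ⟨32, 4, []⟩, ⟨80, 4, []⟩], [7], 1, [(49, 1), (52, 1), (97, 1), (100, 1)]⟩,
⟨0, [⟨33, 2, []⟩, ⟨18, 2, []⟩], [3, 3, 3], 1, [(3, 1), (17, 1), (34, 1), (48, 1)]⟩,
⟨1, [⟨8, 2, []⟩, ⟨64, 4, []⟩], [3, 1, 1], 1, [(72, 1)]⟩,
⟨1, [⟨8, 2, []⟩, ⟨16, 4, []⟩], [3, 1, 1], 1, [(24, 1)]⟩,
⟨1, [⟨10, 4, []⟩, ⟨64, 2, []⟩], [3, 2, 2], 1, [(66, 1), (72, 1)]⟩,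
⟨0, [⟨3, 2, []⟩, ⟨40, 2, []⟩], [3, 3, 3], 1, [(9, 1), (10, 1), (33, 1), (34, 1)]⟩,
⟨0, [⟨34, 2, []⟩, ⟨4, 2, []⟩], [3, 3, 3], 1, [(6, 1), (36, 1)]⟩,
⟨0, [⟨4, 2, []⟩, ⟨64, 2, []⟩], [3, 3, 3], 1, [(68, 1)]⟩,
⟨1, [⟨32, 4, []⟩, ⟨16, 2, []⟩], [3, 2, 2], 1, [(48, 1)]⟩,
⟨0, [⟨1, 2, []⟩, ⟨68, 2, []⟩], [3, 3, 3], 1, [(5, 1), (65, 1)]⟩,
⟨0, [⟨24, 2, []⟩, ⟨96, 2, []⟩], [3, 3, 3], 1, [(40, 1), (48, 1), (72, 1), (80, 1)]⟩,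
⟨1, [⟨3, 4, []⟩, ⟨0, 0, [(96, 2)]⟩], [3, 2, 2], 1, [(97, 1), (98, 1)]⟩,
⟨0, [⟨80, 2, []⟩, ⟨1, 2, []⟩], [3, 3, 3], 1, [(17, 1), (65, 1)]⟩,
⟨1, [⟨0, 0, [(9, 2)]⟩, ⟨4, 3, []⟩, ⟨16, 3, []⟩, ⟨64, 3, []⟩], [1, 1, 1, 6, 6, 8, 8], 2, [(29, 1), (73, 1), (84, 1), (93, 2)]⟩,
⟨1, [⟨1, 3, []⟩, ⟨2, 3, []⟩, ⟨4, 3, []⟩, ⟨8, 2, []⟩, ⟨32, 2, []⟩], [7, 7, 24, 24, 24], 2, [(7, 1), (40, 1), (47, 2)]⟩,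
⟨0, [⟨9, 2, []⟩, ⟨16, 2, []⟩], [3, 3, 3], 1, [(17, 1), (24, 1)]⟩,
⟨1, [⟨8, 3, []⟩, ⟨0, 0, [(96, 3)]⟩], [3, 3], 1, [(104, 1)]⟩,
⟨1, [⟨12, 5, []⟩, ⟨0, 0, [(33, 3)]⟩, ⟨66, 5, []⟩], [2, 2], 1, [(39, 1), (43, 1), (101, 1), (105, 1)]⟩,
⟨1, [⟨40, 4, []⟩, ⟨16, 4, []⟩, ⟨65, 4, []⟩], [7], 1, [(25, 1), (49, 1), (88, 1), (112, 1)]⟩,
⟨1, [⟨17, 4, []⟩, ⟨10, 4, []⟩, ⟨64, 4, []⟩], [7], 1, [(67, 1), (73, 1), (82, 1), (88, 1)]⟩,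
⟨0, [⟨17, 2, []⟩, ⟨64, 2, []⟩], [3, 3, 3], 1, [(65, 1), (80, 1)]⟩,
⟨1, [⟨18, 4, []⟩, ⟨0, 0, [(96, 2)]⟩], [3, 2, 2], 1, [(98, 1), (112, 1)]⟩,
⟨1, [⟨18, 4, []⟩, ⟨32, 4, []⟩, ⟨64, 4, []⟩], [7], 1, [(98, 1), (112, 1)]⟩,
⟨1, [⟨17, 4, []⟩, ⟨64, 2, []⟩], [3, 2, 2], 1, [(65, 1), (80, 1)]⟩,
⟨0, [⟨32, 2, []⟩, ⟨64, 2, []⟩], [3, 3, 3], 1, [(96, 1)]⟩,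
⟨1, [⟨1, 2, []⟩, ⟨4, 2, []⟩, ⟨8, 3, []⟩, ⟨32, 3, []⟩, ⟨64, 3, []⟩], [3, 3, 3, 28, 28], 2, [(5, 1), (104, 1), (109, 2)]⟩,
⟨0, [⟨96, 2, []⟩, ⟨2, 2, []⟩], [3, 3, 3], 1, [(34, 1), (66, 1)]⟩,
⟨1, [⟨4, 3, []⟩, ⟨10, 5, []⟩, ⟨64, 5, []⟩], [1, 1], 1, [(70, 1), (76, 1)]⟩,
⟨0, [⟨6, 2, []⟩, ⟨72, 2, []⟩], [3, 3, 3], 1, [(10, 1), (12, 1), (66, 1), (68, 1)]⟩,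
⟨1, [⟨33, 4, []⟩, ⟨64, 2, []⟩], [3, 2, 2], 1, [(65, 1), (96, 1)]⟩,
⟨1, [⟨10, 5, []⟩, ⟨16, 3, []⟩, ⟨64, 5, []⟩], [2, 2], 1, [(82, 1), (88, 1)]⟩,
⟨0, [⟨68, 2, []⟩, ⟨16, 2, []⟩], [3, 3, 3], 1, [(20, 1), (80, 1)]⟩,
⟨1, [⟨33, 5, []⟩, ⟨2, 3, []⟩, ⟨80, 5, []⟩], [2, 2], 1, [(19, 1), (50, 1), (67, 1), (98, 1)]⟩,
⟨1, [⟨36, 4, []⟩, ⟨16, 4, []⟩, ⟨64, 4, []⟩], [7], 1, [(84, 1), (112, 1)]⟩,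
⟨0, [⟨2, 3, []⟩, ⟨4, 3, []⟩], [3, 3], 1, [(6, 1)]⟩,
⟨1, [⟨0, 0, [(40, 2)]⟩, ⟨64, 4, []⟩], [3, 1, 1], 1, [(104, 1)]⟩,
⟨1, [⟨8, 2, []⟩, ⟨80, 4, []⟩], [3, 1, 1], 1, [(24, 1), (72, 1)]⟩,
⟨1, [⟨8, 2, []⟩, ⟨48, 4, []⟩], [3, 1, 1], 1, [(24, 1), (40, 1)]⟩,
⟨1, [⟨5, 5, []⟩, ⟨34, 5, []⟩, ⟨64, 3, []⟩], [4, 4], 1, [(67, 1), (70, 1), (97, 1), (100, 1)]⟩,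
⟨1, [⟨8, 2, []⟩, ⟨96, 4, []⟩], [3, 1, 1], 1, [(40, 1), (72, 1)]⟩,
⟨0, [⟨3, 2, []⟩, ⟨4, 2, []⟩], [3, 3, 3], 1, [(5, 1), (6, 1)]⟩,
⟨1, [⟨10, 5, []⟩, ⟨96, 5, []⟩, ⟨16, 3, []⟩], [4, 4], 1, [(50, 1), (56, 1), (82, 1), (88, 1)]⟩,
⟨1, [⟨8, 2, []⟩, ⟨32, 2, []⟩, ⟨1, 3, []⟩, ⟨4, 3, []⟩, ⟨64, 3, []⟩], [3, 3, 3, 28, 28], 2, [(40, 1), (69, 1), (109, 2)]⟩,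
⟨1, [⟨17, 4, []⟩, ⟨2, 4, []⟩, ⟨64, 4, []⟩], [7], 1, [(67, 1), (82, 1)]⟩,
⟨1, [⟨20, 4, []⟩, ⟨0, 0, [(66, 2)]⟩], [3, 2, 2], 1, [(70, 1), (82, 1)]⟩,
⟨0, [⟨33, 2, []⟩, ⟨4, 2, []⟩], [3, 3, 3], 1, [(5, 1), (36, 1)]⟩,
⟨0, [⟨40, 2, []⟩, ⟨16, 2, []⟩], [3, 3, 3], 1, [(24, 1), (48, 1)]⟩,
⟨1, [⟨1, 3, []⟩, ⟨2, 3, []⟩], [3, 3], 1, [(3, 1)]⟩,
⟨1, [⟨33, 5, []⟩, ⟨4, 3, []⟩, ⟨64, 5, []⟩], [2, 2], 1, [(69, 1), (100, 1)]⟩,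
⟨1, [⟨10, 4, []⟩, ⟨16, 4, []⟩, ⟨64, 4, []⟩], [7], 1, [(82, 1), (88, 1)]⟩,
⟨0, [⟨2, 2, []⟩, ⟨32, 2, []⟩], [3, 3, 3], 1, [(34, 1)]⟩,
⟨1, [⟨12, 5, []⟩, ⟨80, 5, []⟩, ⟨32, 3, []⟩], [4, 4], 1, [(52, 1), (56, 1), (100, 1), (104, 1)]⟩,
⟨0, [⟨6, 2, []⟩, ⟨96, 2, []⟩], [3, 3, 3], 1, [(34, 1), (36, 1), (66, 1), (68, 1)]⟩,
⟨1, [⟨33, 4, []⟩, ⟨12, 4, []⟩, ⟨64, 4, []⟩], [7], 1, [(69, 1), (73, 1), (100, 1), (104, 1)]⟩,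
⟨1, [⟨0, 0, [(5, 2)]⟩, ⟨2, 4, []⟩], [3, 1, 1], 1, [(7, 1)]⟩,
⟨1, [⟨5, 4, []⟩, ⟨32, 4, []⟩, ⟨64, 4, []⟩], [7], 1, [(97, 1), (100, 1)]⟩,
⟨0, [⟨48, 2, []⟩, ⟨68, 2, []⟩], [3, 3, 3], 1, [(20, 1), (36, 1), (80, 1), (96, 1)]⟩,
⟨1, [⟨5, 3, []⟩, ⟨64, 3, []⟩], [3, 3], 1, [(65, 1), (68, 1)]⟩,
⟨1, [⟨0, 0, [(12, 2)]⟩, ⟨64, 4, []⟩], [3, 1, 1], 1, [(76, 1)]⟩,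
⟨1, [⟨72, 3, []⟩, ⟨32, 3, []⟩], [3, 3], 1, [(40, 1), (96, 1)]⟩,
⟨0, [⟨20, 2, []⟩, ⟨40, 2, []⟩], [3, 3, 3], 1, [(12, 1), (24, 1), (36, 1), (48, 1)]⟩,
⟨0, [⟨2, 2, []⟩, ⟨16, 2, []⟩], [3, 3, 3], 1, [(18, 1)]⟩,
⟨1, [⟨1, 2, []⟩, ⟨64, 4, []⟩], [3, 1, 1], 1, [(65, 1)]⟩,
⟨1, [⟨12, 4, []⟩, ⟨32, 4, []⟩, ⟨64, 4, []⟩], [7], 1, [(100, 1), (104, 1)]⟩,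
⟨1, [⟨5, 5, []⟩, ⟨18, 5, []⟩, ⟨64, 3, []⟩], [4, 4], 1, [(67, 1), (70, 1), (81, 1), (84, 1)]⟩,
⟨1, [⟨1, 3, []⟩, ⟨4, 3, []⟩], [3, 3], 1, [(5, 1)]⟩,
⟨0, [⟨9, 2, []⟩, ⟨4, 2, []⟩], [3, 3, 3], 1, [(5, 1), (12, 1)]⟩,
⟨1, [⟨9, 4, []⟩, ⟨18, 4, []⟩, ⟨64, 4, []⟩], [7], 1, [(67, 1), (74, 1), (81, 1), (88, 1)]⟩,
⟨1, [⟨17, 4, []⟩, ⟨2, 4, []⟩, ⟨4, 4, []⟩], [7], 1, [(7, 1), (22, 1)]⟩,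
⟨1, [⟨1, 3, []⟩, ⟨2, 3, []⟩, ⟨4, 3, []⟩, ⟨8, 2, []⟩, ⟨16, 2, []⟩], [7, 7, 24, 24, 24], 2, [(7, 1), (24, 1), (31, 2)]⟩,
⟨0, [⟨8, 2, []⟩, ⟨18, 2, []⟩], [3, 3, 3], 1, [(10, 1), (24, 1)]⟩,
⟨1, [⟨3, 4, []⟩, ⟨32, 4, []⟩, ⟨64, 4, []⟩], [7], 1, [(97, 1), (98, 1)]⟩,
⟨1, [⟨9, 4, []⟩, ⟨36, 4, []⟩, ⟨64, 4, []⟩], [7], 1, [(69, 1), (76, 1), (97, 1), (104, 1)]⟩,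
⟨0, [⟨48, 2, []⟩, ⟨64, 2, []⟩], [3, 3, 3], 1, [(80, 1), (96, 1)]⟩,
⟨1, [⟨33, 4, []⟩, ⟨12, 4, []⟩, ⟨2, 4, []⟩], [7], 1, [(7, 1), (11, 1), (38, 1), (42, 1)]⟩,
⟨0, [⟨66, 2, []⟩, ⟨16, 2, []⟩], [3, 3, 3], 1, [(18, 1), (80, 1)]⟩,
⟨1, [⟨24, 5, []⟩, ⟨36, 5, []⟩, ⟨64, 3, []⟩], [4, 4], 1, [(76, 1), (84, 1), (104, 1), (112, 1)]⟩,
⟨1, [⟨5, 4, []⟩, ⟨16, 4, []⟩, ⟨64, 4, []⟩], [7], 1, [(81, 1), (84, 1)]⟩,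
⟨1, [⟨36, 4, []⟩, ⟨0, 0, [(80, 2)]⟩], [3, 2, 2], 1, [(84, 1), (112, 1)]⟩,
⟨0, [⟨12, 3, []⟩, ⟨0, 0, [(48, 3)]⟩], [3, 3], 1, [(52, 1), (56, 1)]⟩,
⟨0, [⟨8, 2, []⟩, ⟨32, 4, []⟩], [3, 1, 1], 1, [(40, 1)]⟩,
⟨1, [⟨0, 0, [(40, 2)]⟩, ⟨16, 4, []⟩], [3, 1, 1], 1, [(56, 1)]⟩,
⟨1, [⟨32, 3, []⟩, ⟨17, 5, []⟩, ⟨64, 5, []⟩], [1, 1], 1, [(97, 1), (112, 1)]⟩,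
⟨0, [⟨3, 2, []⟩, ⟨64, 2, []⟩], [3, 3, 3], 1, [(65, 1), (66, 1)]⟩,
⟨1, [⟨6, 4, []⟩, ⟨64, 2, []⟩], [3, 2, 2], 1, [(66, 1), (68, 1)]⟩,
⟨0, [⟨8, 2, []⟩, ⟨36, 2, []⟩], [3, 3, 3], 1, [(12, 1), (40, 1)]⟩,
⟨1, [⟨34, 4, []⟩, ⟨4, 4, []⟩, ⟨16, 4, []⟩], [7], 1, [(22, 1), (52, 1)]⟩,
⟨1, [⟨1, 2, []⟩, ⟨6, 4, []⟩], [3, 1, 1], 1, [(3, 1), (5, 1)]⟩,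
⟨0, [⟨24, 2, []⟩, ⟨32, 2, []⟩], [3, 3, 3], 1, [(40, 1), (48, 1)]⟩,
⟨1, [⟨32, 4, []⟩, ⟨64, 2, []⟩], [3, 2, 2], 1, [(96, 1)]⟩,
⟨1, [⟨5, 4, []⟩, ⟨10, 4, []⟩, ⟨64, 4, []⟩], [7], 1, [(67, 1), (70, 1), (73, 1), (76, 1)]⟩,
⟨1, [⟨1, 2, []⟩, ⟨4, 4, []⟩], [3, 1, 1], 1, [(5, 1)]⟩,
⟨1, [⟨17, 4, []⟩, ⟨0, 0, [(6, 2)]⟩], [3, 2, 2], 1, [(7, 1), (22, 1)]⟩,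
⟨1, [⟨10, 5, []⟩, ⟨80, 5, []⟩, ⟨32, 3, []⟩], [4, 4], 1, [(50, 1), (56, 1), (98, 1), (104, 1)]⟩,
⟨1, [⟨0, 0, [(36, 3)]⟩, ⟨64, 3, []⟩], [3, 3], 1, [(100, 1)]⟩,
⟨1, [⟨16, 4, []⟩, ⟨32, 4, []⟩, ⟨64, 4, []⟩], [7], 1, [(112, 1)]⟩,
⟨1, [⟨4, 3, []⟩, ⟨64, 3, []⟩], [3, 3], 1, [(68, 1)]⟩,
⟨1, [⟨17, 5, []⟩, ⟨36, 5, []⟩, ⟨2, 3, []⟩], [4, 4], 1, [(7, 1), (22, 1), (35, 1), (50, 1)]⟩,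
⟨0, [⟨33, 2, []⟩, ⟨64, 2, []⟩], [3, 3, 3], 1, [(65, 1), (96, 1)]⟩,
⟨0, [⟨18, 2, []⟩, ⟨5, 2, []⟩], [3, 3, 3], 1, [(3, 1), (6, 1), (17, 1), (20, 1)]⟩,
⟨1, [⟨12, 5, []⟩, ⟨32, 3, []⟩, ⟨64, 5, []⟩], [2, 2], 1, [(100, 1), (104, 1)]⟩,
⟨0, [⟨12, 2, []⟩, ⟨18, 2, []⟩], [3, 3, 3], 1, [(6, 1), (10, 1), (20, 1), (24, 1)]⟩,
⟨1, [⟨17, 4, []⟩, ⟨6, 4, []⟩, ⟨64, 4, []⟩], [7], 1, [(67, 1), (69, 1), (82, 1), (84, 1)]⟩,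
⟨1, [⟨4, 2, []⟩, ⟨2, 3, []⟩, ⟨8, 3, []⟩, ⟨16, 3, []⟩, ⟨64, 4, []⟩], [3, 3, 17, 12, 12], 2, [(26, 1), (70, 1), (88, 1), (94, 2)]⟩,
⟨1, [⟨0, 0, [(6, 3)]⟩, ⟨32, 3, []⟩], [3, 3], 1, [(38, 1)]⟩,
⟨1, [⟨1, 2, []⟩, ⟨4, 2, []⟩, ⟨8, 3, []⟩, ⟨16, 3, []⟩, ⟨64, 3, []⟩], [3, 3, 3, 28, 28], 2, [(5, 1), (88, 1), (93, 2)]⟩,
⟨0, [⟨17, 2, []⟩, ⟨36, 2, []⟩], [3, 3, 3], 1, [(5, 1), (20, 1), (33, 1), (48, 1)]⟩,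
⟨1, [⟨24, 4, []⟩, ⟨4, 4, []⟩, ⟨64, 4, []⟩], [7], 1, [(76, 1), (84, 1)]⟩,
⟨1, [⟨12, 4, []⟩, ⟨80, 4, []⟩, ⟨32, 4, []⟩], [7], 1, [(52, 1), (56, 1), (100, 1), (104, 1)]⟩,
⟨1, [⟨40, 3, []⟩, ⟨16, 3, []⟩], [3, 3], 1, [(24, 1), (48, 1)]⟩,
⟨1, [⟨3, 3, []⟩, ⟨64, 3, []⟩], [3, 3], 1, [(65, 1), (66, 1)]⟩,
⟨1, [⟨0, 0, [(33, 2)]⟩, ⟨64, 4, []⟩], [3, 1, 1], 1, [(97, 1)]⟩,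
⟨1, [⟨8, 3, []⟩, ⟨16, 3, []⟩, ⟨32, 3, []⟩, ⟨1, 2, []⟩, ⟨2, 2, []⟩], [7, 7, 24, 24, 24], 2, [(3, 1), (56, 1), (59, 2)]⟩,
⟨0, [⟨12, 2, []⟩, ⟨32, 2, []⟩], [3, 3, 3], 1, [(36, 1), (40, 1)]⟩,
⟨1, [⟨12, 4, []⟩, ⟨16, 4, []⟩, ⟨64, 4, []⟩], [7], 1, [(84, 1), (88, 1)]⟩,
⟨1, [⟨0, 0, [(34, 3)]⟩, ⟨16, 3, []⟩], [3, 3], 1, [(50, 1)]⟩,
⟨1, [⟨40, 5, []⟩, ⟨18, 5, []⟩, ⟨64, 3, []⟩], [4, 4], 1, [(74, 1), (88, 1), (98, 1), (112, 1)]⟩,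
⟨1, [⟨5, 4, []⟩, ⟨16, 4, []⟩, ⟨96, 4, []⟩], [7], 1, [(49, 1), (52, 1), (81, 1), (84, 1)]⟩,
⟨0, [⟨10, 2, []⟩, ⟨16, 2, []⟩], [3, 3, 3], 1, [(18, 1), (24, 1)]⟩,
⟨1, [⟨3, 4, []⟩, ⟨16, 4, []⟩, ⟨64, 4, []⟩], [7], 1, [(81, 1), (82, 1)]⟩,
⟨1, [⟨33, 4, []⟩, ⟨6, 4, []⟩, ⟨64, 4, []⟩], [7], 1, [(67, 1), (69, 1), (98, 1), (100, 1)]⟩,
⟨1, [⟨24, 5, []⟩, ⟨34, 5, []⟩, ⟨64, 3, []⟩], [4, 4], 1, [(74, 1), (82, 1), (104, 1), (112, 1)]⟩,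
⟨1, [⟨2, 3, []⟩, ⟨12, 5, []⟩, ⟨64, 5, []⟩], [1, 1], 1, [(70, 1), (74, 1)]⟩,
⟨1, [⟨8, 3, []⟩, ⟨16, 3, []⟩], [3, 3], 1, [(24, 1)]⟩,
⟨1, [⟨0, 0, [(48, 3)]⟩, ⟨64, 3, []⟩], [3, 3], 1, [(112, 1)]⟩,
⟨1, [⟨10, 4, []⟩, ⟨16, 4, []⟩, ⟨32, 4, []⟩], [7], 1, [(50, 1), (56, 1)]⟩,
⟨1, [⟨12, 5, []⟩, ⟨96, 5, []⟩, ⟨16, 3, []⟩], [4, 4], 1, [(52, 1), (56, 1), (84, 1), (88, 1)]⟩,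
⟨1, [⟨1, 2, []⟩, ⟨2, 2, []⟩, ⟨16, 3, []⟩, ⟨32, 3, []⟩, ⟨64, 5, []⟩], [3, 3, 3, 12, 12], 2, [(67, 1), (112, 1), (115, 2)]⟩,
⟨1, [⟨33, 4, []⟩, ⟨4, 4, []⟩, ⟨64, 4, []⟩], [7], 1, [(69, 1), (100, 1)]⟩,
⟨1, [⟨24, 4, []⟩, ⟨32, 4, []⟩, ⟨65, 4, []⟩], [7], 1, [(41, 1), (49, 1), (104, 1), (112, 1)]⟩,
⟨0, [⟨1, 2, []⟩, ⟨20, 2, []⟩], [3, 3, 3], 1, [(5, 1), (17, 1)]⟩,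
⟨0, [⟨6, 2, []⟩, ⟨64, 2, []⟩], [3, 3, 3], 1, [(66, 1), (68, 1)]⟩,
⟨1, [⟨2, 4, []⟩, ⟨4, 4, []⟩, ⟨24, 4, []⟩], [7], 1, [(14, 1), (22, 1)]⟩,
⟨1, [⟨20, 4, []⟩, ⟨0, 0, [(96, 2)]⟩], [3, 2, 2], 1, [(100, 1), (112, 1)]⟩,
⟨0, [⟨36, 2, []⟩, ⟨3, 2, []⟩], [3, 3, 3], 1, [(5, 1), (6, 1), (33, 1), (34, 1)]⟩,
⟨0, [⟨34, 2, []⟩, ⟨20, 2, []⟩], [3, 3, 3], 1, [(6, 1), (18, 1), (36, 1), (48, 1)]⟩,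
⟨1, [⟨17, 4, []⟩, ⟨12, 4, []⟩, ⟨64, 4, []⟩], [7], 1, [(69, 1), (73, 1), (84, 1), (88, 1)]⟩,
⟨1, [⟨20, 4, []⟩, ⟨2, 4, []⟩, ⟨64, 4, []⟩], [7], 1, [(70, 1), (82, 1)]⟩,
⟨0, [⟨3, 2, []⟩, ⟨68, 2, []⟩], [3, 3, 3], 1, [(5, 1), (6, 1), (65, 1), (66, 1)]⟩,
⟨1, [⟨4, 2, []⟩, ⟨2, 3, []⟩, ⟨8, 3, []⟩, ⟨32, 3, []⟩, ⟨64, 4, []⟩], [3, 3, 17, 12, 12], 2, [(42, 1), (70, 1), (104, 1), (110, 2)]⟩,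
⟨1, [⟨33, 4, []⟩, ⟨2, 4, []⟩, ⟨4, 4, []⟩], [7], 1, [(7, 1), (38, 1)]⟩,
⟨1, [⟨24, 4, []⟩, ⟨36, 4, []⟩, ⟨64, 4, []⟩], [7], 1, [(76, 1), (84, 1), (104, 1), (112, 1)]⟩,
⟨1, [⟨8, 2, []⟩, ⟨16, 2, []⟩, ⟨1, 3, []⟩, ⟨4, 3, []⟩, ⟨64, 3, []⟩], [3, 3, 3, 28, 28], 2, [(24, 1), (69, 1), (93, 2)]⟩,
⟨1, [⟨17, 5, []⟩, ⟨2, 3, []⟩, ⟨96, 5, []⟩], [2, 2], 1, [(35, 1), (50, 1), (67, 1), (82, 1)]⟩,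
⟨1, [⟨0, 0, [(18, 3)]⟩, ⟨32, 3, []⟩], [3, 3], 1, [(50, 1)]⟩,
⟨1, [⟨16, 3, []⟩, ⟨64, 3, []⟩], [3, 3], 1, [(80, 1)]⟩,
⟨1, [⟨12, 4, []⟩, ⟨16, 4, []⟩, ⟨32, 4, []⟩], [7], 1, [(52, 1), (56, 1)]⟩,
⟨1, [⟨40, 4, []⟩, ⟨2, 4, []⟩, ⟨64, 4, []⟩], [7], 1, [(74, 1), (98, 1)]⟩,
⟨0, [⟨8, 2, []⟩, ⟨64, 2, []⟩], [3, 3, 3], 1, [(72, 1)]⟩,
⟨1, [⟨2, 2, []⟩, ⟨4, 3, []⟩, ⟨8, 3, []⟩, ⟨16, 3, []⟩, ⟨64, 4, []⟩], [3, 3, 17, 12, 12], 2, [(28, 1), (70, 1), (88, 1), (94, 2)]⟩,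
⟨0, [⟨33, 2, []⟩, ⟨24, 2, []⟩], [3, 3, 3], 1, [(9, 1), (17, 1), (40, 1), (48, 1)]⟩]

theorem base_ok : base.all (fun q => q.ok 7 2 [7, 56, 9] big4 big4 []) = true := by
  decide +kernel

theorem gb_ok : gb.all (fun c => c.ok 7 2 bl) = true := by decide +kernel

theorem gads_ok : gads.all (fun g => g.okV 7 2 [0, 2]) = true := by decide +kernel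

theorem cmp_ok : cmpR names cnf (clsu 2 base ++ (gb.map (Gb.cl bl) ++ gads.map Gt.cl)) = true := by
  decide +kernel

end DN15

theorem instn_15 : instN 1 2 [0, 2] [9] DN15.bl DN15.base DN15.gb DN15.gads DN15.names DN15.cnf DN15.db DN15.prf = true :=
  instN_of DN15.base_ok DN15.gb_ok DN15.gads_ok (by decide +kernel) DN15.okc DN15.cmp_ok DN15.chk_ok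

/-- there is no configuration of this instance. -/
theorem noN_15 {V : Type v} [DecidableEq V] {ι : Type u} [Fintype ι] {B : ι → Finset V}
    {Q : Finset V} {x : ℕ → V} {C : ℕ → Finset V} (h : CfR B Q (6 + 1) 2 x C [0, 2] [9])
    (hb : ∀ b ∈ DN15.bl, b.Holds (ecB B x (6 + 1) C)) : False :=
  h.absurd_bnd hb instn_15

end Pool.Agent.Hyp6
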