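import Pool.Agent.Hyp6.CfB
import Pool.Agent.Hyp6.InsN.M17

/-!
# HYP6: instance with bounds 17: n = 1, r = 2, values [0, 2], inner blocks [64]

610 base clauses, 115 given clauses, 332 gadgets, 631 learned clauses.
-/

set_option autoImplicit false
set_option maxRecDepth 100000

namespace Pool.Agent.Hyp6

open Rup

universe u v

namespace DN17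

noncomputable def base : List Ru := [
.rs (.join 1 8 4 3 1 2 [(3, 0)]),
.rs (.join 1 4 3 4 3 1 [(2, 0)]),
.rs (.join 1 8 6 4 3 3 [(3, 2)]),
.rs (.l2 1 34 40 5 1 2),
.rs (.join 1 4 4 4 1 3 [(2, 0)]),
.rs (.l2 1 10 24 3 2 1),
.rs (.deg 4 [0, 3]),
.rs (.join 1 16 5 4 2 3 [(4, 1)]),
.rs (.lip 1 82 122 56),
.rs (.deg 3 [2, 1]),
.rs (.join 1 1 2 4 3 3 [(0, 2)]),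
.rs (.lipl 1 28 124 1 96),
.rs (.ordE 0 32 2),
.rs (.join 0 4 5 2 1 1 [(2, 0)]),
.rs (.mono 1 66 70 1),
.rs (.lipl 1 98 107 0 9),
.rs (.ordE 1 4 3),
.rs (.deg 2 [3, 0]),
.rs (.deg 3 [3, 0]),
.rs (.lipl 1 38 103 1 65),
.rs (.l2 0 5 9 0 1 1),
.rs (.ab2 0 18),
.rs (.l2 1 9 40 3 1 1),
.rs (.deg 5 [3, 0]),
.rs (.ab2 1 96),
.rs (.l2 1 12 40 3 2 2),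
.rs (.mono 1 65 73 1),
.rs (.join 1 2 2 4 3 3 [(1, 2)]),
.rs (.ab2 0 24),
.rs (.join 1 8 4 4 3 3 [(3, 2)]),
.rs (.lipl 1 35 103 1 68),
.rs (.lipl 1 13 31 0 18),
.rs (.join 0 32 6 2 1 1 [(5, 0)]),
.rs (.deg 5 [0, 3]),
.rs (.deg 1 [2, 1]),
.rs (.lipl 1 46 111 1 65),
.rs (.mono 0 64 65 1),
.rs (.ab2 1 3),
.rs (.deg 2 [1, 2]),
.rs (.part [53, 74] [1, 0] [] []),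
.rs (.join 1 4 6 4 4 0 [(2, 0)]),
.rs (.lipl 1 74 107 0 33),
.rs (.lipl 1 14 47 1 33),
.rs (.hall [0] [3, 4, 5]),
.rs (.part [55, 72] [1, 0] [] []),
.rs (.part [18, 109] [0, 1] [] []),
.rs (.join 0 1 6 2 2 0 [(0, 0)]),
.rs (.ab 0 5),
.rs (.l2 1 3 17 0 1 1),
.rs (.join 1 8 5 3 2 2 [(3, 1)]),
.rs (.lipl 1 25 91 0 66),
.rs (.lipl 1 41 109 0 68),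
.rs (.part [64, 56] [0, 0] [7] []),
.rs (.le 1 66 64 6 1),
.rs (.lip 0 24 27 7),
.rs (.ab 0 6),
.degU 5 [(0, 2), (1, 3)],
.rs (.join 0 2 6 2 2 0 [(1, 0)]),
.rs (.ordE 1 4 2),
.rs (.ordE 0 4 1),
.rs (.part [33, 94] [0, 1] [] []),
.rs (.hall [0] [3, 4, 6]),
.rs (.l2 0 12 40 3 1 1),
.rs (.part [1, 126] [0, 1] [] []),
.rs (.lip 0 40 46 7),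
.rs (.join 0 1 3 2 1 1 [(0, 0)]),
.rs (.part [18, 69] [0, 0] [40] []),
.degU 3 [(0, 1), (1, 4)],
.rs (.part [6, 121] [0, 1] [] []),
.rs (.join 1 4 5 4 3 1 [(2, 0)]),
.rs (.part [20, 104] [0, 0] [3] []),
.rs (.l2 1 6 36 2 2 1),
.rs (.join 1 1 5 5 3 2 [(0, 0)]),
.rs (.join 0 2 6 2 1 1 [(1, 0)]),
.rs (.l2 1 3 17 0 2 1),
.rs (.un 0 3),
.rs (.join 1 16 5 3 2 1 [(4, 0)]),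
.rs (.join 1 4 4 4 2 3 [(2, 1)]),
.rs (.ab2 0 17),
.rs (.lipl 1 38 47 0 9),
.rs (.join 1 2 5 4 2 3 [(1, 1)]),
.rs (.join 1 8 5 4 2 2 [(3, 0)]),
.rs (.deg 5 [1, 2]),
.degU 2 [(0, 2), (1, 3)],
.rs (.lipl 1 25 61 1 36),
.rs (.lipl 1 54 119 1 65),
.rs (.l2 1 34 48 5 1 1),
.rs (.lipl 1 49 59 0 10),
.rs (.l2 1 3 18 1 2 1),
.rs (.join 1 1 1 3 1 2 [(0, 0)]),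
.rs (.join 0 16 6 2 2 1 [(4, 1)]),
.rs (.lipl 1 19 87 1 68),
.rs (.ab2 1 72),
.rs (.join 1 8 5 3 2 1 [(3, 0)]),
.rs (.ordE 1 1 2),
.rs (.ab2 1 5),
.rs (.l2 0 3 5 0 1 1),
.rs (.join 0 2 3 2 1 1 [(1, 0)]),
.rs (.join 1 4 5 5 3 2 [(2, 0)]),
.rs (.join 1 32 6 4 2 2 [(5, 0)]),
.rs (.ordE 1 8 1),
.rs (.deg 6 [3, 0]),
.rs (.l2 1 5 9 0 1 2),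
.rs (.lip 0 3 59 56),
.rs (.join 1 4 5 4 3 2 [(2, 1)]),
.rs (.join 0 4 3 2 1 1 [(2, 0)]),
.rs (.deg 3 [0, 3]),
.rs (.lipl 1 52 61 1 9),
.rs (.join 1 2 3 4 2 3 [(1, 1)]),
.rs (.lip 1 68 124 56),
.rs (.l2 0 10 24 3 1 1),
.rs (.lipl 1 100 117 0 17),
.rs (.deg 4 [3, 0]),
.rs (.l2 0 20 36 2 1 1),
.rs (.ordE 1 32 3),
.rs (.join 1 4 6 4 1 3 [(2, 0)]),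
.rs (.ab2 0 48),
.rs (.join 0 2 5 2 1 1 [(1, 0)]),
.rs (.l2 0 65 96 6 1 1),
.rs (.mono 1 64 65 1),
.rs (.lip 0 6 54 56),
.rs (.lipl 1 98 110 0 12),
.rs (.mono 0 8 12 1),
.rs (.deg 6 [2, 1]),
.degU 5 [(0, 1), (1, 4)],
.rs (.join 1 2 5 4 3 1 [(1, 0)]),
.rs (.part [66, 61] [0, 1] [] []),
.rs (.join 0 1 2 2 1 1 [(0, 0)]),
.rs (.join 1 8 4 3 2 2 [(3, 1)]),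
.rs (.l2 1 34 48 5 1 2),
.rs (.lip 1 72 79 7),
.rs (.l2 1 6 20 2 1 1),
.rs (.deg 1 [1, 2]),
.rs (.deg 4 [2, 1]),
.rs (.lipl 0 18 83 0 65),
.rs (.lip 1 65 121 56),
.rs (.lip 0 6 46 56),
.rs (.l2 1 5 20 2 1 1),
.rs (.ordE 1 8 2),
.rs (.le 0 80 64 6 1),
.rs (.join 1 1 4 4 2 2 [(0, 0)]),
.degU 4 [(0, 1), (1, 4)],
.degU 4 [(0, 2), (1, 3)],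
.rs (.lipl 1 11 47 0 36),
.rs (.deg 6 [1, 2]),
.rs (.lipl 1 14 47 0 33),
.rs (.join 1 1 1 4 3 1 [(0, 0)]),
.rs (.mono 1 65 81 1),
.rs (.part [34, 69] [0, 0] [24] []),
.rs (.join 1 1 3 5 2 3 [(0, 0)]),
.rs (.l2 1 18 24 4 1 2),
.rs (.l2 1 12 24 3 1 2),
.rs (.l2 1 5 6 2 1 3),
.rs (.l2 0 24 40 3 1 1),
.rs (.lipl 1 21 87 1 66),
.rs (.join 1 8 4 4 3 2 [(3, 1)]),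
.rs (.lipl 1 42 122 1 80),
.rs (.ordE 1 32 1),
.rs (.un 0 5),
.rs (.deg 3 [1, 2]),
.rs (.lip 0 5 61 56),
.rs (.hall [0] [4, 5, 6]),
.rs (.le 0 65 64 6 1),
.rs (.mono 0 64 72 1),
.rs (.l2 1 6 34 1 1 2),
.rs (.join 1 2 2 3 1 2 [(1, 0)]),
.rs (.ab2 0 6),
.rs (.lipl 1 13 47 0 34),
.rs (.join 1 4 4 5 3 2 [(2, 0)]),
.rs (.l2 1 12 40 3 2 1),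
.rs (.deg 4 [1, 2]),
.rs (.mono 0 64 96 1),
.rs (.join 1 2 6 4 2 2 [(1, 0)]),
.rs (.l2 0 5 36 2 1 1),
.rs (.join 1 1 1 3 2 1 [(0, 0)]),
.rs (.lipl 1 11 47 1 36),
.rs (.ab2 0 34),
.rs (.lip 0 3 27 56),
.rs (.ab2 1 48),
.rs (.lipl 1 25 93 0 68),
.rs (.lipl 1 41 61 0 20),
.rs (.lipl 1 81 91 0 10),
.rs (.lipl 1 26 91 0 65),
.rs (.join 1 2 4 4 3 1 [(1, 0)]),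
.rs (.lipl 1 52 124 1 72),
.rs (.ordE 1 2 2),
.rs (.lipl 1 52 61 0 9),
.rs (.join 0 4 4 2 1 1 [(2, 0)]),
.rs (.ordE 0 2 1),
.rs (.ordE 1 1 1),
.rs (.deg 0 [0, 3]),
.rs (.join 1 8 5 4 3 1 [(3, 0)]),
.rs (.ab2 0 96),
.rs (.join 1 1 6 4 2 2 [(0, 0)]),
.rs (.un 0 1),
.rs (.le 0 96 64 6 1),
.rs (.lipl 1 25 121 1 96),
.rs (.join 1 1 1 3 2 2 [(0, 1)]),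
.rs (.join 1 2 2 4 1 3 [(1, 0)]),
.rs (.deg 2 [2, 1]),
.rs (.lipl 1 28 62 0 34),
.rs (.l2 0 66 72 6 1 1),
.rs (.part [30, 97] [1, 0] [] []),
.rs (.l2 1 3 17 0 1 2),
.rs (.join 1 1 1 4 3 3 [(0, 2)]),
.rs (.lip 0 48 53 7),
.rs (.lipl 1 26 62 1 36),
.rs (.join 1 2 5 5 2 3 [(1, 0)]),
.rs (.join 1 2 3 4 3 2 [(1, 1)]),
.rs (.join 0 16 6 2 1 1 [(4, 0)]),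
.rs (.part [66, 5] [0, 0] [56] []),
.rs (.l2 0 66 80 6 1 1),
.rs (.join 1 2 2 3 2 2 [(1, 1)]),
.degU 6 [(0, 1), (1, 4)],
.rs (.part [17, 110] [0, 1] [] []),
.rs (.mono 1 64 72 1),
.rs (.ab2 0 40),
.degU 6 [(0, 2), (1, 3)],
.rs (.join 1 1 6 4 4 0 [(0, 0)]),
.rs (.ordE 0 64 3),
.rs (.join 1 1 4 4 3 1 [(0, 0)]),
.rs (.lip 0 48 55 7),
.rs (.mono 1 68 76 1),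
.rs (.join 1 16 5 3 2 2 [(4, 1)]),
.rs (.lipl 1 50 59 1 9),
.rs (.un 1 6),
.rs (.l2 1 34 40 5 2 1),
.rs (.l2 1 20 24 4 1 2),
.rs (.l2 0 5 33 0 1 1),
.rs (.l2 1 3 10 1 1 2),
.rs (.lipl 1 82 91 0 9),
.rs (.part [29, 98] [1, 0] [] []),
.rs (.join 1 1 5 4 2 3 [(0, 1)]),
.rs (.join 1 1 3 4 3 1 [(0, 0)]),
.rs (.join 1 1 4 4 2 3 [(0, 1)]),
.rs (.mono 0 1 9 1),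
.rs (.mono 1 64 68 1),
.rs (.lipl 1 82 115 0 33),
.rs (.ordE 0 8 1),
.rs (.deg 1 [3, 0]),
.rs (.join 1 8 4 4 3 1 [(3, 0)]),
.rs (.l2 0 66 96 6 1 1),
.rs (.join 1 2 4 4 3 2 [(1, 1)]),
.rs (.l2 1 18 24 4 1 1),
.rs (.lipl 1 14 31 0 17),
.rs (.lipl 1 22 31 1 9),
.rs (.join 1 16 5 4 3 3 [(4, 2)]),
.rs (.part [1, 70] [0, 0] [56] []),
.rs (.join 0 32 6 2 2 0 [(5, 0)]),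
.rs (.join 1 16 5 4 3 2 [(4, 1)]),
.rs (.lipl 1 44 62 0 18),
.rs (.l2 1 5 33 0 1 2),
.rs (.lipl 1 50 122 1 72),
.rs (.mono 1 68 84 1),
.rs (.join 1 1 5 4 1 3 [(0, 0)]),
.rs (.l2 1 24 48 4 3 1),
.rs (.ordE 0 64 2),
.rs (.l2 1 3 10 1 2 1),
.rs (.join 1 1 5 4 3 2 [(0, 1)]),
.rs (.join 1 8 4 3 2 1 [(3, 0)]),
.rs (.l2 1 18 48 4 1 1),
.rs (.hall [0] [1, 2, 6]),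
.rs (.join 1 16 5 4 3 1 [(4, 0)]),
.rs (.le 1 96 64 6 1),
.rs (.part [4, 123] [0, 1] [] []),
.rs (.part [9, 118] [0, 1] [] []),
.rs (.lip 0 3 51 56),
.rs (.deg 0 [3, 0]),
.rs (.ab2 0 80),
.rs (.join 1 4 3 5 2 3 [(2, 0)]),
.rs (.ordE 1 16 1),
.rs (.part [4, 67] [0, 0] [56] []),
.rs (.part [20, 107] [0, 1] [] []),
.rs (.ab2 0 36),
.rs (.ab2 1 65),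
.rs (.l2 1 18 24 4 2 1),
.rs (.join 0 16 6 2 2 0 [(4, 0)]),
.rs (.join 1 2 3 5 3 2 [(1, 0)]),
.rs (.join 1 1 2 4 1 3 [(0, 0)]),
.rs (.l2 1 17 48 4 1 1),
.rs (.le 1 72 64 6 1),
.rs (.join 1 1 2 4 3 1 [(0, 0)]),
.rs (.join 1 8 5 5 3 3 [(3, 1)]),
.rs (.join 1 2 5 5 3 2 [(1, 0)]),
.rs (.mono 0 16 18 1),
.rs (.deg 6 [0, 3]),
.rs (.l2 1 20 48 4 1 2),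
.rs (.l2 0 6 10 1 1 1),
.rs (.lipl 1 11 79 1 68),
.rs (.join 1 1 2 3 2 2 [(0, 1)]),
.rs (.hall [0] [0, 1, 6]),
.rs (.ab 0 3),
.rs (.lipl 1 27 123 1 96),
.rs (.l2 1 10 40 3 1 2),
.rs (.join 0 8 4 2 0 2 [(3, 0)]),
.rs (.join 0 16 5 2 1 1 [(4, 0)]),
.rs (.part [2, 125] [0, 1] [] []),
.rs (.join 1 1 4 4 1 3 [(0, 0)]),
.rs (.join 0 1 4 2 1 1 [(0, 0)]),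
.rs (.lipl 1 73 93 0 20),
.rs (.l2 0 68 72 6 1 1),
.rs (.l2 1 5 12 2 2 1),
.rs (.l2 1 5 17 0 2 1),
.rs (.part [59, 68] [1, 0] [] []),
.rs (.l2 1 36 48 5 1 1),
.rs (.lipl 1 13 79 1 66),
.rs (.l2 0 18 34 1 1 1),
.rs (.lipl 1 35 47 1 12),
.rs (.lipl 1 76 94 0 18),
.rs (.lipl 1 76 93 0 17),
.rs (.lipl 1 38 47 1 9),
.rs (.join 0 8 6 2 2 0 [(3, 0)]),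
.rs (.lipl 1 14 79 1 65),
.rs (.ab2 0 72),
.rs (.part [10, 117] [0, 1] [] []),
.rs (.join 1 2 2 3 2 1 [(1, 0)]),
.rs (.join 1 2 5 4 2 2 [(1, 0)]),
.rs (.part [16, 104] [0, 0] [7] []),
.rs (.mono 1 66 74 1),
.rs (.join 1 4 3 4 3 2 [(2, 1)]),
.rs (.part [3, 124] [0, 1] [] []),
.rs (.lipl 1 45 125 1 80),
.rs (.l2 0 6 18 1 1 1),
.rs (.ab2 1 40),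
.rs (.part [83, 44] [1, 0] [] []),
.rs (.ordE 1 16 3),
.rs (.l2 0 3 33 0 1 1),
.rs (.part [46, 81] [1, 0] [] []),
.rs (.join 1 2 6 4 4 0 [(1, 0)]),
.rs (.join 1 8 6 4 2 2 [(3, 0)]),
.rs (.join 1 4 4 4 3 1 [(2, 0)]),
.rs (.l2 1 9 40 3 1 2),
.rs (.part [8, 112] [0, 0] [7] []),
.rs (.ab2 0 9),
.rs (.ab2 0 5),
.rs (.join 0 8 5 2 1 1 [(3, 0)]),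
.rs (.join 1 1 6 5 4 3 [(0, 2)]),
.rs (.deg 5 [2, 1]),
.rs (.join 1 1 3 4 1 3 [(0, 0)]),
.rs (.un 0 4),
.rs (.mono 1 72 88 1),
.rs (.mono 0 8 72 1),
.rs (.part [96, 31] [0, 1] [] []),
.rs (.l2 1 18 34 1 1 1),
.rs (.lipl 1 41 121 1 80),
.rs (.mono 0 64 68 1),
.rs (.le 1 65 64 6 1),
.rs (.join 1 1 5 4 3 1 [(0, 0)]),
.rs (.ab 0 4),
.rs (.l2 0 65 68 6 1 1),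
.rs (.lipl 1 97 115 0 18),
.rs (.l2 1 12 24 3 2 1),
.rs (.part [65, 6] [0, 0] [56] []),
.rs (.join 1 4 3 4 2 3 [(2, 1)]),
.rs (.ordE 1 16 2),
.rs (.part [24, 103] [0, 1] [] []),
.rs (.lipl 1 49 61 0 12),
.rs (.join 1 1 5 4 2 2 [(0, 0)]),
.rs (.le 0 72 64 6 1),
.rs (.l2 1 5 20 2 1 2),
.rs (.part [8, 119] [0, 1] [] []),
.rs (.l2 0 12 20 2 1 1),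
.rs (.ab 0 0),
.rs (.part [9, 54] [0, 0] [64] []),
.rs (.join 1 1 3 4 2 2 [(0, 0)]),
.rs (.lip 0 24 29 7),
.rs (.join 1 2 4 4 1 3 [(1, 0)]),
.rs (.part [34, 29] [0, 0] [64] []),
.rs (.join 1 8 5 4 1 3 [(3, 0)]),
.rs (.join 1 16 6 4 2 2 [(4, 0)]),
.rs (.lip 0 6 30 56),
.rs (.lip 0 5 29 56),
.rs (.mono 1 65 69 1),
.rs (.lipl 1 42 62 1 20),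
.rs (.part [34, 93] [0, 1] [] []),
.rs (.l2 1 9 24 3 1 2),
.rs (.mono 0 8 24 1),
.rs (.join 1 2 5 4 3 2 [(1, 1)]),
.rs (.lip 0 5 53 56),
.rs (.join 1 1 3 5 3 2 [(0, 0)]),
.rs (.le 1 80 64 6 1),
.rs (.ab2 1 68),
.rs (.join 0 1 6 2 1 1 [(0, 0)]),
.rs (.join 1 4 5 4 1 3 [(2, 0)]),
.rs (.join 1 8 6 4 4 0 [(3, 0)]),
.rs (.part [5, 122] [0, 1] [] []),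
.rs (.ordE 0 8 3),
.rs (.l2 1 17 48 4 1 2),
.rs (.lipl 1 41 59 1 18),
.rs (.join 1 1 1 4 1 3 [(0, 0)]),
.rs (.part [45, 82] [1, 0] [] []),
.rs (.l2 1 6 34 1 1 1),
.rs (.l2 1 9 40 3 2 1),
.rs (.join 1 32 6 4 4 0 [(5, 0)]),
.degU 1 [(0, 2), (1, 3)],
.rs (.deg 0 [1, 2]),
.rs (.l2 1 6 18 1 2 1),
.rs (.part [2, 69] [0, 0] [56] []),
.rs (.l2 1 3 9 0 1 2),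
.rs (.hall [0] [3, 5, 6]),
.rs (.part [96, 24] [0, 0] [7] []),
.rs (.lipl 1 84 118 0 34),
.rs (.lipl 1 42 59 0 17),
.rs (.l2 1 12 24 3 1 1),
.rs (.join 0 4 6 2 1 1 [(2, 0)]),
.rs (.lip 0 40 43 7),
.rs (.join 1 8 5 4 3 2 [(3, 1)]),
.rs (.le 0 66 64 6 1),
.rs (.part [27, 100] [1, 0] [] []),
.rs (.l2 0 9 17 0 1 1),
.rs (.part [20, 67] [0, 0] [40] []),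
.rs (.part [17, 104] [0, 0] [6] []),
.rs (.lip 0 40 45 7),
.rs (.lipl 1 84 117 0 33),
.rs (.lipl 1 13 47 1 34),
.rs (.part [80, 47] [0, 1] [] []),
.rs (.lip 0 24 31 7),
.rs (.l2 0 6 34 1 1 1),
.rs (.join 1 1 2 4 3 2 [(0, 1)]),
.rs (.join 1 2 6 4 3 1 [(1, 0)]),
.rs (.l2 1 33 48 5 2 1),
.rs (.le 0 66 64 6 2),
.rs (.l2 1 3 33 0 1 2),
.rs (.join 1 4 5 5 2 3 [(2, 0)]),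
.rs (.l2 1 20 24 4 1 1),
.rs (.join 1 1 5 5 2 3 [(0, 0)]),
.rs (.mono 1 68 100 1),
.rs (.join 1 4 3 5 3 2 [(2, 0)]),
.rs (.join 1 4 3 4 1 3 [(2, 0)]),
.rs (.lipl 1 49 115 0 66),
.rs (.le 0 80 64 6 2),
.rs (.join 0 2 4 2 1 1 [(1, 0)]),
.rs (.l2 1 5 33 0 1 1),
.rs (.part [18, 45] [0, 0] [64] []),
.rs (.part [10, 53] [0, 0] [64] []),
.rs (.l2 1 40 48 5 2 2),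
.rs (.ordE 1 8 3),
.rs (.join 1 16 5 4 1 3 [(4, 0)]),
.rs (.part [65, 62] [0, 1] [] []),
.rs (.l2 1 6 20 2 1 2),
.rs (.mono 1 65 67 1),
.rs (.l2 1 24 48 4 1 1),
.rs (.deg 1 [0, 3]),
.rs (.l2 1 33 48 5 1 2),
.rs (.ab2 0 65),
.rs (.part [33, 30] [0, 0] [64] []),
.rs (.ab2 1 6),
.rs (.join 0 4 6 2 2 0 [(2, 0)]),
.rs (.l2 1 12 24 3 2 2),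
.rs (.part [12, 112] [0, 0] [3] []),
.rs (.join 1 4 4 4 2 2 [(2, 0)]),
.rs (.part [51, 76] [1, 0] [] []),
.rs (.part [40, 87] [0, 1] [] []),
.rs (.ab 0 2),
.rs (.l2 1 9 24 3 2 1),
.rs (.l2 0 9 40 3 1 1),
.rs (.part [31, 96] [1, 0] [] []),
.rs (.mono 1 64 66 1),
.rs (.join 1 32 6 4 3 1 [(5, 0)]),
.rs (.lipl 1 74 110 0 36),
.rs (.join 1 1 3 4 2 3 [(0, 1)]),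
.rs (.lip 0 48 54 7),
.rs (.lipl 1 45 111 1 66),
.rs (.join 1 4 6 4 3 1 [(2, 0)]),
.rs (.join 1 16 6 4 3 1 [(4, 0)]),
.rs (.l2 1 3 9 0 2 1),
.rs (.join 1 16 6 4 3 3 [(4, 2)]),
.rs (.ab2 1 24),
.rs (.lipl 1 100 118 0 18),
.rs (.join 0 8 4 2 1 1 [(3, 0)]),
.rs (.l2 0 9 33 0 1 1),
.rs (.join 1 1 2 4 2 3 [(0, 1)]),
.rs (.part [64, 7] [0, 0] [56] []),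
.rs (.lipl 1 28 61 0 33),
.rs (.l2 0 65 66 6 1 1),
.rs (.join 1 1 2 3 1 2 [(0, 0)]),
.rs (.ordE 1 64 1),
.rs (.join 1 2 2 4 3 1 [(1, 0)]),
.rs (.lipl 1 49 61 1 12),
.rs (.l2 1 3 33 0 2 1),
.rs (.l2 0 65 80 6 1 1),
.rs (.part [10, 69] [0, 0] [48] []),
.rs (.part [12, 51] [0, 0] [64] []),
.rs (.ordE 0 4 3),
.rs (.lipl 1 44 124 1 80),
.rs (.part [16, 111] [0, 1] [] []),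
.rs (.l2 1 5 20 2 2 1),
.rs (.lipl 1 21 31 1 10),
.rs (.l2 1 3 34 1 1 2),
.rs (.part [48, 79] [0, 1] [] []),
.rs (.join 1 16 5 3 1 2 [(4, 0)]),
.rs (.lip 0 3 43 56),
.rs (.part [68, 59] [0, 1] [] []),
.rs (.l2 1 33 40 5 1 1),
.rs (.lipl 1 37 103 1 66),
.rs (.mono 1 72 104 1),
.degU 2 [(0, 1), (1, 4)],
.rs (.join 1 4 4 5 2 3 [(2, 0)]),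
.rs (.l2 1 36 40 5 2 1),
.rs (.l2 1 33 40 5 1 2),
.rs (.deg 0 [2, 1]),
.rs (.join 1 2 6 5 4 3 [(1, 2)]),
.rs (.l2 0 3 17 0 1 1),
.rs (.ordE 1 1 3),
.rs (.ab2 0 3),
.rs (.l2 0 68 80 6 1 1),
.rs (.ab 0 1),
.rs (.join 1 1 6 4 3 1 [(0, 0)]),
.rs (.join 0 2 6 2 3 0 [(1, 1)]),
.rs (.l2 1 6 10 1 1 2),
.rs (.l2 0 72 96 6 1 1),
.rs (.lipl 1 44 61 1 17),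
.rs (.ordE 0 64 1),
.rs (.lipl 1 11 31 0 20),
.rs (.mono 0 16 24 1),
.rs (.join 0 2 2 2 1 1 [(1, 0)]),
.rs (.lipl 1 37 47 0 10),
.rs (.l2 0 68 96 6 1 1),
.rs (.l2 1 5 33 0 2 1),
.rs (.part [54, 73] [1, 0] [] []),
.rs (.join 1 1 4 5 2 3 [(0, 0)]),
.rs (.join 1 32 6 4 3 3 [(5, 2)]),
.rs (.lipl 1 70 79 1 9),
.rs (.un 0 6),
.rs (.l2 0 5 20 2 1 1),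
.rs (.part [32, 88] [0, 0] [7] []),
.rs (.lipl 1 73 91 0 18),
.rs (.ordE 0 1 1),
.rs (.part [68, 3] [0, 0] [56] []),
.rs (.lipl 1 28 61 1 33),
.rs (.join 1 2 4 5 3 2 [(1, 0)]),
.rs (.l2 1 17 48 4 2 1),
.rs (.deg 2 [0, 3]),
.rs (.lipl 1 49 121 1 72),
.rs (.join 1 1 4 4 3 2 [(0, 1)]),
.rs (.l2 1 6 20 2 2 1),
.rs (.lipl 1 19 31 1 12),
.rs (.l2 1 24 48 4 2 1),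
.degU 3 [(0, 2), (1, 3)],
.rs (.lipl 1 26 122 1 96),
.rs (.ab2 0 66),
.rs (.lip 0 48 51 7),
.rs (.lip 1 96 103 7),
.rs (.mono 0 32 40 1),
.rs (.lipl 1 81 93 0 12),
.rs (.lipl 1 97 117 0 20),
.rs (.ab2 0 68),
.rs (.lipl 1 37 47 1 10),
.rs (.part [36, 91] [0, 1] [] []),
.rs (.join 1 1 2 3 2 1 [(0, 0)]),
.rs (.mono 0 64 66 1),
.rs (.l2 0 10 34 1 1 1),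
.rs (.ordE 0 8 2),
.rs (.part [72, 48] [0, 0] [7] []),
.rs (.join 1 2 4 5 2 3 [(1, 0)]),
.rs (.join 1 8 4 4 1 3 [(3, 0)]),
.rs (.join 1 1 4 5 3 2 [(0, 0)]),
.rs (.ordE 0 32 1),
.rs (.lipl 1 53 125 1 72),
.rs (.l2 1 34 48 5 2 2),
.rs (.part [43, 84] [1, 0] [] []),
.rs (.l2 1 5 6 2 2 1),
.rs (.l2 1 34 40 5 1 1),
.rs (.join 0 8 6 2 1 1 [(3, 0)]),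
.rs (.lipl 1 22 87 1 65),
.rs (.part [20, 43] [0, 0] [64] []),
.rs (.l2 1 17 24 4 2 1),
.rs (.lipl 1 28 93 0 65),
.rs (.join 0 1 5 2 1 1 [(0, 0)]),
.rs (.mono 0 32 48 1),
.rs (.join 1 1 3 4 3 2 [(0, 1)]),
.rs (.l2 0 3 10 1 1 1),
.rs (.l2 1 6 10 1 2 1),
.rs (.part [17, 46] [0, 0] [64] []),
.rs (.mono 1 66 98 1),
.rs (.lipl 1 35 47 0 12),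
.rs (.part [34, 88] [0, 0] [5] []),
.rs (.join 0 1 1 2 1 1 [(0, 0)]),
.rs (.join 1 2 5 4 1 3 [(1, 0)]),
.rs (.join 1 8 5 3 1 2 [(3, 0)]),
.rs (.l2 1 36 40 5 1 2),
.rs (.join 1 2 3 4 3 1 [(1, 0)]),
.rs (.join 1 1 2 4 2 2 [(0, 0)]),
.rs (.mono 1 65 97 1),
.rs (.ab2 1 66),
.rs (.join 1 8 5 4 3 3 [(3, 2)]),
.rs (.part [61, 66] [1, 0] [] []),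
.rs (.part [12, 115] [0, 1] [] []),
.rs (.lip 1 66 122 56),
.rs (.hall [0] [0, 2, 6]),
.rs (.join 1 16 6 4 4 0 [(4, 0)]),
.rs (.hall [0] [0, 1, 2]),
.rs (.ab2 1 80),
.rs (.l2 0 65 72 6 1 1),
.rs (.join 1 8 6 4 3 1 [(3, 0)]),
.rs (.lip 0 24 30 7),
.rs (.part [80, 40] [0, 0] [7] []),
.rs (.join 1 2 3 5 2 3 [(1, 0)]),
.rs (.lip 1 80 87 7),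
.rs (.le 1 68 64 6 1),
.rs (.l2 1 36 48 5 2 1),
.rs (.lipl 1 25 61 0 36),
.rs (.mono 0 16 48 1),
.rs (.join 1 4 6 4 2 2 [(2, 0)]),
.rs (.l2 1 3 34 1 2 1),
.rs (.ab2 0 10),
.rs (.l2 0 17 48 4 1 1),
.rs (.lipl 1 50 115 0 65),
.degU 0 [(0, 2), (1, 3)],
.rs (.part [36, 27] [0, 0] [64] [])]

/-- the bounds. -/
def bl : List Bnd := [⟨false, [(0, 0), (0, 1), (0, 2), (0, 3), (0, 4), (0, 5), (0, 6)], 9⟩, ⟨true, [(0, 0), (0, 1), (0, 2), (0, 3), (0, 4), (0, 5)], 3⟩]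

noncomputable def gb : List Gb := [
⟨0, [0, 0, 1, 2, 3, 3, 1]⟩,
⟨0, [0, 0, 1, 0, 4, 2, 3]⟩,
⟨0, [2, 2, 1, 1, 2, 0, 2]⟩,
⟨0, [4, 2, 0, 0, 1, 0, 3]⟩,
⟨0, [2, 2, 1, 1, 0, 2, 2]⟩,
⟨0, [3, 3, 0, 0, 1, 0, 3]⟩,
⟨1, [0, 1, 0, 0, 0, 1]⟩,
⟨0, [0, 0, 1, 0, 3, 3, 3]⟩,
⟨0, [0, 0, 1, 3, 3, 2, 1]⟩,
⟨0, [1, 2, 2, 1, 2, 0, 2]⟩,
⟨0, [0, 1, 0, 3, 3, 0, 3]⟩,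
⟨0, [2, 0, 4, 1, 0, 0, 3]⟩,
⟨0, [0, 2, 4, 0, 1, 0, 3]⟩,
⟨0, [4, 0, 2, 1, 0, 0, 3]⟩,
⟨0, [0, 0, 0, 4, 2, 4, 0]⟩,
⟨0, [1, 0, 0, 0, 2, 4, 3]⟩,
⟨0, [0, 1, 0, 4, 0, 2, 3]⟩,
⟨0, [0, 1, 0, 0, 2, 4, 3]⟩,
⟨0, [2, 1, 2, 1, 0, 2, 2]⟩,
⟨0, [2, 3, 3, 0, 1, 0, 1]⟩,
⟨0, [2, 4, 0, 1, 0, 0, 3]⟩,
⟨0, [0, 0, 1, 4, 0, 2, 3]⟩,
⟨0, [2, 2, 3, 0, 0, 0, 3]⟩,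
⟨0, [4, 2, 0, 1, 0, 0, 3]⟩,
⟨0, [4, 2, 0, 0, 0, 1, 3]⟩,
⟨1, [0, 1, 0, 1, 0, 0]⟩,
⟨0, [3, 2, 3, 1, 0, 0, 1]⟩,
⟨0, [3, 2, 3, 0, 1, 0, 1]⟩,
⟨0, [0, 0, 1, 3, 3, 3, 0]⟩,
⟨0, [2, 4, 4, 0, 0, 0, 0]⟩,
⟨0, [0, 0, 1, 3, 2, 3, 1]⟩,
⟨0, [0, 2, 4, 0, 0, 1, 3]⟩,
⟨0, [2, 3, 3, 0, 0, 1, 1]⟩,
⟨0, [2, 3, 3, 1, 0, 0, 1]⟩,
⟨1, [1, 0, 0, 0, 1, 0]⟩,
⟨0, [0, 2, 4, 1, 0, 0, 3]⟩,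
⟨0, [3, 3, 2, 0, 0, 1, 1]⟩,
⟨0, [0, 1, 0, 0, 3, 3, 3]⟩,
⟨0, [3, 3, 1, 0, 3, 0, 0]⟩,
⟨0, [3, 0, 0, 3, 1, 3, 0]⟩,
⟨0, [2, 2, 2, 2, 2, 0, 0]⟩,
⟨0, [0, 0, 0, 3, 2, 2, 3]⟩,
⟨0, [0, 0, 0, 2, 2, 3, 3]⟩,
⟨0, [1, 0, 0, 2, 4, 0, 3]⟩,
⟨0, [0, 3, 3, 0, 1, 0, 3]⟩,
⟨0, [1, 0, 0, 0, 3, 3, 3]⟩,
⟨0, [0, 0, 0, 2, 4, 4, 0]⟩,
⟨0, [1, 0, 0, 3, 3, 2, 1]⟩,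
⟨0, [0, 1, 0, 3, 3, 2, 1]⟩,
⟨0, [0, 0, 3, 3, 1, 3, 0]⟩,
⟨1, [0, 0, 1, 1, 0, 0]⟩,
⟨0, [3, 2, 3, 0, 0, 1, 1]⟩,
⟨0, [0, 1, 0, 2, 4, 0, 3]⟩,
⟨0, [1, 0, 0, 3, 2, 3, 1]⟩,
⟨0, [3, 0, 0, 3, 3, 1, 0]⟩,
⟨0, [1, 0, 0, 0, 4, 2, 3]⟩,
⟨0, [3, 3, 0, 0, 0, 1, 3]⟩,
⟨0, [0, 0, 1, 0, 2, 4, 3]⟩,
⟨0, [0, 1, 0, 0, 4, 2, 3]⟩,
⟨1, [0, 0, 1, 0, 0, 1]⟩,
⟨0, [3, 0, 3, 0, 1, 0, 3]⟩,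
⟨0, [0, 3, 3, 0, 0, 1, 3]⟩,
⟨0, [3, 2, 2, 0, 0, 0, 3]⟩,
⟨0, [2, 0, 4, 0, 1, 0, 3]⟩,
⟨0, [2, 2, 2, 0, 2, 2, 0]⟩,
⟨0, [2, 2, 2, 0, 4, 0, 0]⟩,
⟨0, [1, 0, 0, 2, 3, 3, 1]⟩,
⟨0, [0, 1, 0, 2, 3, 3, 1]⟩,
⟨0, [3, 3, 2, 1, 0, 0, 1]⟩,
⟨0, [1, 0, 0, 4, 0, 2, 3]⟩,
⟨0, [4, 4, 2, 0, 0, 0, 0]⟩,
⟨0, [3, 3, 3, 1, 0, 0, 0]⟩,
⟨0, [2, 0, 4, 0, 0, 1, 3]⟩,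
⟨0, [3, 3, 0, 1, 0, 0, 3]⟩,
⟨1, [0, 0, 1, 0, 1, 0]⟩,
⟨0, [1, 0, 0, 3, 3, 0, 3]⟩,
⟨0, [3, 3, 2, 0, 1, 0, 1]⟩,
⟨0, [0, 0, 4, 2, 2, 2, 0]⟩,
⟨0, [1, 2, 2, 1, 0, 2, 2]⟩,
⟨0, [0, 4, 2, 0, 0, 1, 3]⟩,
⟨0, [2, 4, 0, 0, 1, 0, 3]⟩,
⟨1, [0, 1, 0, 0, 1, 0]⟩,
⟨0, [3, 0, 3, 1, 0, 0, 3]⟩,
⟨0, [0, 4, 2, 0, 1, 0, 3]⟩,
⟨1, [1, 0, 0, 0, 0, 1]⟩,
⟨0, [2, 1, 2, 1, 2, 0, 2]⟩,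
⟨0, [0, 0, 0, 2, 3, 2, 3]⟩,
⟨0, [0, 1, 0, 4, 2, 0, 3]⟩,
⟨0, [3, 3, 1, 0, 0, 3, 0]⟩,
⟨0, [3, 3, 3, 0, 0, 1, 0]⟩,
⟨0, [4, 0, 2, 0, 0, 1, 3]⟩,
⟨0, [1, 0, 0, 4, 2, 0, 3]⟩,
⟨0, [0, 0, 1, 3, 3, 0, 3]⟩,
⟨0, [1, 0, 0, 2, 0, 4, 3]⟩,
⟨0, [0, 3, 3, 1, 0, 0, 3]⟩,
⟨0, [3, 1, 3, 0, 0, 3, 0]⟩,
⟨0, [4, 0, 2, 0, 1, 0, 3]⟩,
⟨0, [0, 0, 1, 2, 4, 0, 3]⟩,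
⟨0, [0, 0, 1, 2, 0, 4, 3]⟩,
⟨0, [0, 0, 0, 4, 4, 2, 0]⟩,
⟨0, [2, 0, 2, 2, 2, 2, 0]⟩,
⟨0, [3, 0, 3, 0, 0, 1, 3]⟩,
⟨0, [0, 0, 1, 3, 0, 3, 3]⟩,
⟨0, [0, 1, 0, 3, 2, 3, 1]⟩,
⟨0, [0, 0, 1, 4, 2, 0, 3]⟩,
⟨0, [4, 2, 4, 0, 0, 0, 0]⟩,
⟨1, [1, 0, 0, 1, 0, 0]⟩,
⟨0, [1, 0, 0, 3, 0, 3, 3]⟩,
⟨0, [2, 4, 0, 0, 0, 1, 3]⟩,
⟨0, [0, 4, 2, 1, 0, 0, 3]⟩,
⟨0, [0, 1, 0, 3, 3, 3, 0]⟩,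
⟨0, [2, 3, 2, 0, 0, 0, 3]⟩,
⟨0, [0, 1, 0, 3, 0, 3, 3]⟩,
⟨0, [1, 3, 3, 0, 0, 3, 0]⟩,
⟨0, [0, 1, 0, 2, 0, 4, 3]⟩]

noncomputable def gads : List Gt := [
⟨1, [⟨18, 5, []⟩, ⟨36, 5, []⟩, ⟨64, 3, []⟩], [4, 4], 1, [(70, 1), (84, 1), (98, 1), (112, 1)]⟩,
⟨0, [⟨18, 2, []⟩, ⟨72, 2, []⟩], [3, 3, 3], 1, [(10, 1), (24, 1), (66, 1), (80, 1)]⟩,
⟨0, [⟨8, 2, []⟩, ⟨68, 2, []⟩], [3, 3, 3], 1, [(12, 1), (72, 1)]⟩,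
⟨1, [⟨8, 4, []⟩, ⟨64, 2, []⟩], [3, 2, 2], 1, [(72, 1)]⟩,
⟨1, [⟨32, 3, []⟩, ⟨64, 3, []⟩], [3, 3], 1, [(96, 1)]⟩,
⟨1, [⟨96, 4, []⟩, ⟨8, 4, []⟩, ⟨18, 4, []⟩], [7], 1, [(42, 1), (56, 1), (74, 1), (88, 1)]⟩,
⟨1, [⟨16, 3, []⟩, ⟨40, 5, []⟩, ⟨66, 5, []⟩], [1, 1], 1, [(26, 1), (50, 1), (88, 1), (112, 1)]⟩,
⟨1, [⟨12, 4, []⟩, ⟨48, 4, []⟩, ⟨64, 4, []⟩], [7], 1, [(84, 1), (88, 1), (100, 1), (104, 1)]⟩,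
⟨1, [⟨1, 3, []⟩, ⟨4, 3, []⟩, ⟨8, 3, []⟩, ⟨16, 3, []⟩, ⟨64, 4, []⟩], [3, 3, 12, 12, 16], 2, [(29, 1), (69, 1), (88, 1), (93, 2)]⟩,
⟨1, [⟨1, 3, []⟩, ⟨4, 3, []⟩, ⟨16, 4, []⟩, ⟨32, 4, []⟩, ⟨64, 3, []⟩], [3, 3, 12, 16, 16], 2, [(53, 1), (69, 1), (112, 1), (117, 2)]⟩,
⟨1, [⟨4, 3, []⟩, ⟨64, 3, []⟩], [3, 3], 1, [(68, 1)]⟩,
⟨1, [⟨1, 4, []⟩, ⟨2, 3, []⟩, ⟨16, 4, []⟩, ⟨8, 3, []⟩, ⟨64, 3, []⟩], [3, 10, 12, 16, 16], 2, [(27, 1), (67, 1), (81, 1), (88, 1), (91, 2)]⟩,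
⟨1, [⟨16, 3, []⟩, ⟨32, 3, []⟩, ⟨2, 4, []⟩, ⟨5, 4, []⟩, ⟨64, 3, []⟩], [3, 3, 12, 16, 16], 2, [(51, 1), (54, 1), (67, 1), (70, 1), (112, 1), (115, 2), (118, 2)]⟩,
⟨0, [⟨96, 2, []⟩, ⟨16, 2, []⟩], [3, 3, 3], 1, [(48, 1), (80, 1)]⟩,
⟨1, [⟨2, 3, []⟩, ⟨4, 3, []⟩, ⟨0, 0, [(24, 2)]⟩, ⟨32, 2, []⟩, ⟨64, 3, []⟩], [19, 19, 12, 12, 12], 2, [(56, 1), (70, 1), (126, 2)]⟩,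
⟨1, [⟨1, 3, []⟩, ⟨2, 3, []⟩, ⟨16, 3, []⟩, ⟨32, 3, []⟩, ⟨64, 4, []⟩], [3, 3, 12, 12, 16], 2, [(51, 1), (67, 1), (112, 1), (115, 2)]⟩,
⟨0, [⟨17, 2, []⟩, ⟨64, 2, []⟩], [3, 3, 3], 1, [(65, 1), (80, 1)]⟩,
⟨1, [⟨4, 4, []⟩, ⟨64, 2, []⟩], [3, 2, 2], 1, [(68, 1)]⟩,
⟨1, [⟨2, 4, []⟩, ⟨4, 4, []⟩, ⟨96, 4, []⟩], [7], 1, [(38, 1), (70, 1)]⟩,
⟨0, [⟨36, 2, []⟩, ⟨65, 2, []⟩], [3, 3, 3], 1, [(5, 1), (33, 1), (68, 1), (96, 1)]⟩,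
⟨1, [⟨40, 4, []⟩, ⟨16, 4, []⟩, ⟨64, 4, []⟩], [7], 1, [(88, 1), (112, 1)]⟩,
⟨0, [⟨24, 2, []⟩, ⟨65, 2, []⟩], [3, 3, 3], 1, [(9, 1), (17, 1), (72, 1), (80, 1)]⟩,
⟨1, [⟨34, 4, []⟩, ⟨16, 4, []⟩, ⟨64, 4, []⟩], [7], 1, [(82, 1), (112, 1)]⟩,
⟨1, [⟨8, 3, []⟩, ⟨32, 3, []⟩, ⟨1, 4, []⟩, ⟨2, 4, []⟩, ⟨64, 3, []⟩], [3, 3, 12, 16, 16], 2, [(43, 1), (67, 1), (104, 1), (107, 2)]⟩,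
⟨1, [⟨17, 5, []⟩, ⟨12, 5, []⟩, ⟨64, 3, []⟩], [4, 4], 1, [(69, 1), (73, 1), (84, 1), (88, 1)]⟩,
⟨0, [⟨32, 2, []⟩, ⟨66, 2, []⟩], [3, 3, 3], 1, [(34, 1), (96, 1)]⟩,
⟨0, [⟨16, 2, []⟩, ⟨64, 2, []⟩], [3, 3, 3], 1, [(80, 1)]⟩,
⟨0, [⟨2, 2, []⟩, ⟨96, 2, []⟩], [3, 3, 3], 1, [(34, 1), (66, 1)]⟩,
⟨1, [⟨33, 4, []⟩, ⟨16, 4, []⟩, ⟨64, 4, []⟩], [7], 1, [(81, 1), (112, 1)]⟩,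
⟨0, [⟨4, 2, []⟩, ⟨96, 2, []⟩], [3, 3, 3], 1, [(36, 1), (68, 1)]⟩,
⟨1, [⟨33, 4, []⟩, ⟨20, 4, []⟩, ⟨64, 4, []⟩], [7], 1, [(69, 1), (81, 1), (100, 1), (112, 1)]⟩,
⟨1, [⟨2, 4, []⟩, ⟨4, 4, []⟩, ⟨80, 4, []⟩], [7], 1, [(22, 1), (70, 1)]⟩,
⟨1, [⟨16, 4, []⟩, ⟨32, 2, []⟩], [3, 2, 2], 1, [(48, 1)]⟩,
⟨1, [⟨9, 5, []⟩, ⟨20, 5, []⟩, ⟨64, 3, []⟩], [4, 4], 1, [(69, 1), (76, 1), (81, 1), (88, 1)]⟩,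
⟨1, [⟨34, 4, []⟩, ⟨4, 4, []⟩, ⟨64, 4, []⟩], [7], 1, [(70, 1), (100, 1)]⟩,
⟨1, [⟨8, 4, []⟩, ⟨32, 4, []⟩, ⟨68, 4, []⟩], [7], 1, [(44, 1), (104, 1)]⟩,
⟨0, [⟨4, 2, []⟩, ⟨80, 2, []⟩], [3, 3, 3], 1, [(20, 1), (68, 1)]⟩,
⟨0, [⟨65, 2, []⟩, ⟨4, 2, []⟩], [3, 3, 3], 1, [(5, 1), (68, 1)]⟩,
⟨0, [⟨9, 2, []⟩, ⟨68, 2, []⟩], [3, 3, 3], 1, [(5, 1), (12, 1), (65, 1), (72, 1)]⟩,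
⟨1, [⟨18, 4, []⟩, ⟨5, 4, []⟩, ⟨64, 4, []⟩], [7], 1, [(67, 1), (70, 1), (81, 1), (84, 1)]⟩,
⟨0, [⟨65, 2, []⟩, ⟨2, 2, []⟩], [3, 3, 3], 1, [(3, 1), (66, 1)]⟩,
⟨1, [⟨1, 4, []⟩, ⟨4, 2, []⟩], [3, 2, 2], 1, [(5, 1)]⟩,
⟨1, [⟨1, 3, []⟩, ⟨2, 3, []⟩, ⟨0, 0, [(40, 2)]⟩, ⟨16, 2, []⟩, ⟨64, 3, []⟩], [19, 19, 12, 12, 12], 2, [(56, 1), (67, 1), (123, 2)]⟩,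
⟨1, [⟨3, 3, []⟩, ⟨64, 3, []⟩], [3, 3], 1, [(65, 1), (66, 1)]⟩,
⟨1, [⟨1, 4, []⟩, ⟨2, 4, []⟩, ⟨80, 4, []⟩], [7], 1, [(19, 1), (67, 1)]⟩,
⟨0, [⟨66, 2, []⟩, ⟨4, 2, []⟩], [3, 3, 3], 1, [(6, 1), (68, 1)]⟩,
⟨0, [⟨80, 2, []⟩, ⟨32, 2, []⟩], [3, 3, 3], 1, [(48, 1), (96, 1)]⟩,
⟨1, [⟨1, 3, []⟩, ⟨0, 0, [(66, 3)]⟩], [3, 3], 1, [(67, 1)]⟩,
⟨0, [⟨24, 2, []⟩, ⟨66, 2, []⟩], [3, 3, 3], 1, [(10, 1), (18, 1), (72, 1), (80, 1)]⟩,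
⟨1, [⟨8, 3, []⟩, ⟨32, 3, []⟩], [3, 3], 1, [(40, 1)]⟩,
⟨1, [⟨8, 3, []⟩, ⟨32, 3, []⟩, ⟨2, 4, []⟩, ⟨4, 4, []⟩, ⟨64, 3, []⟩], [3, 3, 12, 16, 16], 2, [(46, 1), (70, 1), (104, 1), (110, 2)]⟩,
⟨0, [⟨4, 2, []⟩, ⟨64, 2, []⟩], [3, 3, 3], 1, [(68, 1)]⟩,
⟨1, [⟨16, 3, []⟩, ⟨64, 3, []⟩], [3, 3], 1, [(80, 1)]⟩,
⟨0, [⟨32, 2, []⟩, ⟨64, 2, []⟩], [3, 3, 3], 1, [(96, 1)]⟩,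
⟨1, [⟨96, 4, []⟩, ⟨8, 4, []⟩, ⟨6, 4, []⟩], [7], 1, [(42, 1), (44, 1), (74, 1), (76, 1)]⟩,
⟨0, [⟨16, 2, []⟩, ⟨68, 2, []⟩], [3, 3, 3], 1, [(20, 1), (80, 1)]⟩,
⟨1, [⟨2, 4, []⟩, ⟨4, 3, []⟩, ⟨8, 4, []⟩, ⟨32, 3, []⟩, ⟨64, 3, []⟩], [3, 10, 12, 16, 16], 2, [(46, 1), (70, 1), (74, 1), (104, 1), (110, 2)]⟩,
⟨0, [⟨40, 2, []⟩, ⟨64, 2, []⟩], [3, 3, 3], 1, [(72, 1), (96, 1)]⟩,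
⟨1, [⟨17, 4, []⟩, ⟨34, 4, []⟩, ⟨64, 4, []⟩], [7], 1, [(67, 1), (82, 1), (97, 1), (112, 1)]⟩,
⟨1, [⟨8, 2, []⟩, ⟨48, 4, []⟩], [3, 1, 1], 1, [(24, 1), (40, 1)]⟩,
⟨1, [⟨1, 3, []⟩, ⟨4, 3, []⟩, ⟨8, 4, []⟩, ⟨16, 4, []⟩, ⟨64, 3, []⟩], [3, 3, 12, 16, 16], 2, [(29, 1), (69, 1), (88, 1), (93, 2)]⟩,
⟨1, [⟨33, 5, []⟩, ⟨20, 5, []⟩, ⟨64, 3, []⟩], [4, 4], 1, [(69, 1), (81, 1), (100, 1), (112, 1)]⟩,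
⟨0, [⟨12, 2, []⟩, ⟨64, 2, []⟩], [3, 3, 3], 1, [(68, 1), (72, 1)]⟩,
⟨0, [⟨1, 2, []⟩, ⟨24, 2, []⟩], [3, 3, 3], 1, [(9, 1), (17, 1)]⟩,
⟨0, [⟨2, 2, []⟩, ⟨4, 2, []⟩], [3, 3, 3], 1, [(6, 1)]⟩,
⟨0, [⟨3, 2, []⟩, ⟨48, 2, []⟩], [3, 3, 3], 1, [(17, 1), (18, 1), (33, 1), (34, 1)]⟩,
⟨1, [⟨2, 4, []⟩, ⟨64, 2, []⟩], [3, 2, 2], 1, [(66, 1)]⟩,
⟨1, [⟨9, 5, []⟩, ⟨34, 5, []⟩, ⟨64, 3, []⟩], [4, 4], 1, [(67, 1), (74, 1), (97, 1), (104, 1)]⟩,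
⟨1, [⟨4, 4, []⟩, ⟨1, 3, []⟩, ⟨32, 4, []⟩, ⟨16, 3, []⟩, ⟨64, 3, []⟩], [3, 10, 12, 16, 16], 2, [(53, 1), (69, 1), (100, 1), (112, 1), (117, 2)]⟩,
⟨0, [⟨16, 2, []⟩, ⟨32, 2, []⟩], [3, 3, 3], 1, [(48, 1)]⟩,
⟨1, [⟨1, 4, []⟩, ⟨4, 3, []⟩, ⟨16, 4, []⟩, ⟨8, 3, []⟩, ⟨64, 3, []⟩], [3, 10, 12, 16, 16], 2, [(29, 1), (69, 1), (81, 1), (88, 1), (93, 2)]⟩,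
⟨1, [⟨10, 4, []⟩, ⟨32, 4, []⟩, ⟨64, 4, []⟩], [7], 1, [(98, 1), (104, 1)]⟩,
⟨1, [⟨32, 4, []⟩, ⟨64, 2, []⟩], [3, 2, 2], 1, [(96, 1)]⟩,
⟨0, [⟨24, 2, []⟩, ⟨68, 2, []⟩], [3, 3, 3], 1, [(12, 1), (20, 1), (72, 1), (80, 1)]⟩,
⟨0, [⟨16, 2, []⟩, ⟨6, 2, []⟩], [3, 3, 3], 1, [(18, 1), (20, 1)]⟩,
⟨1, [⟨2, 4, []⟩, ⟨4, 3, []⟩, ⟨16, 4, []⟩, ⟨32, 3, []⟩, ⟨64, 3, []⟩], [3, 10, 12, 16, 16], 2, [(54, 1), (70, 1), (82, 1), (112, 1), (118, 2)]⟩,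
⟨1, [⟨1, 4, []⟩, ⟨4, 3, []⟩, ⟨8, 4, []⟩, ⟨16, 3, []⟩, ⟨64, 3, []⟩], [3, 10, 12, 16, 16], 2, [(29, 1), (69, 1), (73, 1), (88, 1), (93, 2)]⟩,
⟨1, [⟨17, 4, []⟩, ⟨36, 4, []⟩, ⟨64, 4, []⟩], [7], 1, [(69, 1), (84, 1), (97, 1), (112, 1)]⟩,
⟨1, [⟨4, 4, []⟩, ⟨1, 3, []⟩, ⟨16, 4, []⟩, ⟨32, 3, []⟩, ⟨64, 3, []⟩], [3, 10, 12, 16, 16], 2, [(53, 1), (69, 1), (84, 1), (112, 1), (117, 2)]⟩,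
⟨0, [⟨20, 2, []⟩, ⟨96, 2, []⟩], [3, 3, 3], 1, [(36, 1), (48, 1), (68, 1), (80, 1)]⟩,
⟨0, [⟨6, 2, []⟩, ⟨96, 2, []⟩], [3, 3, 3], 1, [(34, 1), (36, 1), (66, 1), (68, 1)]⟩,
⟨1, [⟨8, 3, []⟩, ⟨16, 3, []⟩, ⟨4, 4, []⟩, ⟨3, 4, []⟩, ⟨64, 3, []⟩], [3, 3, 12, 16, 16], 2, [(29, 1), (30, 1), (69, 1), (70, 1), (88, 1), (93, 2), (94, 2)]⟩,
⟨1, [⟨17, 4, []⟩, ⟨2, 4, []⟩, ⟨64, 4, []⟩], [7], 1, [(67, 1), (82, 1)]⟩,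
⟨0, [⟨10, 2, []⟩, ⟨96, 2, []⟩], [3, 3, 3], 1, [(34, 1), (40, 1), (66, 1), (72, 1)]⟩,
⟨1, [⟨2, 3, []⟩, ⟨0, 0, [(65, 3)]⟩], [3, 3], 1, [(67, 1)]⟩,
⟨1, [⟨34, 5, []⟩, ⟨20, 5, []⟩, ⟨64, 3, []⟩], [4, 4], 1, [(70, 1), (82, 1), (100, 1), (112, 1)]⟩,
⟨1, [⟨2, 3, []⟩, ⟨4, 3, []⟩, ⟨8, 4, []⟩, ⟨48, 4, []⟩, ⟨64, 3, []⟩], [3, 3, 12, 16, 16], 2, [(30, 1), (46, 1), (70, 1), (88, 1), (94, 2), (104, 1), (110, 2)]⟩,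
⟨1, [⟨68, 4, []⟩, ⟨2, 4, []⟩, ⟨24, 4, []⟩], [7], 1, [(14, 1), (22, 1), (74, 1), (82, 1)]⟩,
⟨1, [⟨20, 4, []⟩, ⟨40, 4, []⟩, ⟨64, 4, []⟩], [7], 1, [(76, 1), (88, 1), (100, 1), (112, 1)]⟩,
⟨0, [⟨24, 2, []⟩, ⟨64, 2, []⟩], [3, 3, 3], 1, [(72, 1), (80, 1)]⟩,
⟨1, [⟨1, 3, []⟩, ⟨2, 3, []⟩, ⟨8, 3, []⟩, ⟨16, 3, []⟩, ⟨64, 4, []⟩], [3, 3, 12, 12, 16], 2, [(27, 1), (67, 1), (88, 1), (91, 2)]⟩,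
⟨1, [⟨33, 4, []⟩, ⟨6, 4, []⟩, ⟨64, 4, []⟩], [7], 1, [(67, 1), (69, 1), (98, 1), (100, 1)]⟩,
⟨1, [⟨5, 3, []⟩, ⟨64, 3, []⟩], [3, 3], 1, [(65, 1), (68, 1)]⟩,
⟨1, [⟨2, 4, []⟩, ⟨1, 3, []⟩, ⟨8, 4, []⟩, ⟨32, 3, []⟩, ⟨64, 3, []⟩], [3, 10, 12, 16, 16], 2, [(43, 1), (67, 1), (74, 1), (104, 1), (107, 2)]⟩,
⟨1, [⟨8, 3, []⟩, ⟨64, 3, []⟩], [3, 3], 1, [(72, 1)]⟩,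
⟨0, [⟨16, 2, []⟩, ⟨5, 2, []⟩], [3, 3, 3], 1, [(17, 1), (20, 1)]⟩,
⟨0, [⟨2, 2, []⟩, ⟨64, 2, []⟩], [3, 3, 3], 1, [(66, 1)]⟩,
⟨1, [⟨65, 4, []⟩, ⟨4, 4, []⟩, ⟨40, 4, []⟩], [7], 1, [(13, 1), (37, 1), (76, 1), (100, 1)]⟩,
⟨1, [⟨6, 3, []⟩, ⟨64, 3, []⟩], [3, 3], 1, [(66, 1), (68, 1)]⟩,
⟨1, [⟨96, 4, []⟩, ⟨8, 4, []⟩, ⟨17, 4, []⟩], [7], 1, [(41, 1), (56, 1), (73, 1), (88, 1)]⟩,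
⟨0, [⟨8, 2, []⟩, ⟨66, 2, []⟩], [3, 3, 3], 1, [(10, 1), (72, 1)]⟩,
⟨0, [⟨1, 2, []⟩, ⟨96, 2, []⟩], [3, 3, 3], 1, [(33, 1), (65, 1)]⟩,
⟨0, [⟨1, 2, []⟩, ⟨72, 2, []⟩], [3, 3, 3], 1, [(9, 1), (65, 1)]⟩,
⟨1, [⟨4, 4, []⟩, ⟨1, 2, []⟩], [3, 2, 2], 1, [(5, 1)]⟩,
⟨0, [⟨40, 2, []⟩, ⟨80, 2, []⟩], [3, 3, 3], 1, [(24, 1), (48, 1), (72, 1), (96, 1)]⟩,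
⟨1, [⟨9, 4, []⟩, ⟨2, 4, []⟩, ⟨64, 4, []⟩], [7], 1, [(67, 1), (74, 1)]⟩,
⟨0, [⟨20, 2, []⟩, ⟨64, 2, []⟩], [3, 3, 3], 1, [(68, 1), (80, 1)]⟩,
⟨1, [⟨34, 4, []⟩, ⟨12, 4, []⟩, ⟨64, 4, []⟩], [7], 1, [(70, 1), (74, 1), (100, 1), (104, 1)]⟩,
⟨1, [⟨8, 4, []⟩, ⟨32, 4, []⟩, ⟨80, 4, []⟩], [7], 1, [(56, 1), (104, 1)]⟩,
⟨1, [⟨10, 4, []⟩, ⟨20, 4, []⟩, ⟨64, 4, []⟩], [7], 1, [(70, 1), (76, 1), (82, 1), (88, 1)]⟩,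
⟨0, [⟨2, 2, []⟩, ⟨48, 2, []⟩], [3, 3, 3], 1, [(18, 1), (34, 1)]⟩,
⟨1, [⟨16, 4, []⟩, ⟨8, 2, []⟩], [3, 2, 2], 1, [(24, 1)]⟩,
⟨0, [⟨8, 2, []⟩, ⟨32, 2, []⟩], [3, 3, 3], 1, [(40, 1)]⟩,
⟨1, [⟨33, 4, []⟩, ⟨2, 4, []⟩, ⟨64, 4, []⟩], [7], 1, [(67, 1), (98, 1)]⟩,
⟨0, [⟨2, 2, []⟩, ⟨80, 2, []⟩], [3, 3, 3], 1, [(18, 1), (66, 1)]⟩,
⟨1, [⟨16, 3, []⟩, ⟨32, 3, []⟩, ⟨1, 4, []⟩, ⟨6, 4, []⟩, ⟨64, 3, []⟩], [3, 3, 12, 16, 16], 2, [(51, 1), (53, 1), (67, 1), (69, 1), (112, 1), (115, 2), (117, 2)]⟩,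
⟨0, [⟨80, 2, []⟩, ⟨8, 2, []⟩], [3, 3, 3], 1, [(24, 1), (72, 1)]⟩,
⟨1, [⟨32, 2, []⟩, ⟨24, 4, []⟩], [3, 1, 1], 1, [(40, 1), (48, 1)]⟩,
⟨1, [⟨1, 3, []⟩, ⟨4, 3, []⟩, ⟨8, 4, []⟩, ⟨32, 4, []⟩, ⟨64, 3, []⟩], [3, 3, 12, 16, 16], 2, [(45, 1), (69, 1), (104, 1), (109, 2)]⟩,
⟨0, [⟨66, 2, []⟩, ⟨1, 2, []⟩], [3, 3, 3], 1, [(3, 1), (65, 1)]⟩,
⟨0, [⟨17, 2, []⟩, ⟨66, 2, []⟩], [3, 3, 3], 1, [(3, 1), (18, 1), (65, 1), (80, 1)]⟩,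
⟨1, [⟨33, 4, []⟩, ⟨24, 4, []⟩, ⟨64, 4, []⟩], [7], 1, [(73, 1), (81, 1), (104, 1), (112, 1)]⟩,
⟨0, [⟨8, 2, []⟩, ⟨65, 2, []⟩], [3, 3, 3], 1, [(9, 1), (72, 1)]⟩,
⟨1, [⟨96, 4, []⟩, ⟨8, 4, []⟩, ⟨20, 4, []⟩], [7], 1, [(44, 1), (56, 1), (76, 1), (88, 1)]⟩,
⟨1, [⟨1, 2, []⟩, ⟨6, 4, []⟩], [3, 1, 1], 1, [(3, 1), (5, 1)]⟩,
⟨1, [⟨16, 3, []⟩, ⟨32, 3, []⟩, ⟨4, 4, []⟩, ⟨3, 4, []⟩, ⟨64, 3, []⟩], [3, 3, 12, 16, 16], 2, [(53, 1), (54, 1), (69, 1), (70, 1), (112, 1), (117, 2), (118, 2)]⟩,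
⟨1, [⟨1, 3, []⟩, ⟨4, 3, []⟩], [3, 3], 1, [(5, 1)]⟩,
⟨0, [⟨72, 2, []⟩, ⟨32, 2, []⟩], [3, 3, 3], 1, [(40, 1), (96, 1)]⟩,
⟨1, [⟨2, 3, []⟩, ⟨4, 3, []⟩, ⟨8, 4, []⟩, ⟨32, 4, []⟩, ⟨64, 3, []⟩], [3, 3, 12, 16, 16], 2, [(46, 1), (70, 1), (104, 1), (110, 2)]⟩,
⟨0, [⟨33, 2, []⟩, ⟨80, 2, []⟩], [3, 3, 3], 1, [(17, 1), (48, 1), (65, 1), (96, 1)]⟩,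
⟨1, [⟨8, 4, []⟩, ⟨16, 4, []⟩, ⟨68, 4, []⟩], [7], 1, [(28, 1), (88, 1)]⟩,
⟨1, [⟨1, 3, []⟩, ⟨2, 3, []⟩, ⟨16, 4, []⟩, ⟨32, 4, []⟩, ⟨64, 3, []⟩], [3, 3, 12, 16, 16], 2, [(51, 1), (67, 1), (112, 1), (115, 2)]⟩,
⟨1, [⟨80, 4, []⟩, ⟨8, 4, []⟩, ⟨33, 4, []⟩], [7], 1, [(25, 1), (56, 1), (73, 1), (104, 1)]⟩,
⟨1, [⟨24, 3, []⟩, ⟨64, 3, []⟩], [3, 3], 1, [(72, 1), (80, 1)]⟩,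
⟨1, [⟨80, 4, []⟩, ⟨32, 4, []⟩, ⟨12, 4, []⟩], [7], 1, [(52, 1), (56, 1), (100, 1), (104, 1)]⟩,
⟨1, [⟨1, 4, []⟩, ⟨4, 4, []⟩, ⟨96, 4, []⟩], [7], 1, [(37, 1), (69, 1)]⟩,
⟨1, [⟨34, 4, []⟩, ⟨24, 4, []⟩, ⟨64, 4, []⟩], [7], 1, [(74, 1), (82, 1), (104, 1), (112, 1)]⟩,
⟨1, [⟨68, 4, []⟩, ⟨2, 4, []⟩, ⟨33, 4, []⟩], [7], 1, [(7, 1), (38, 1), (67, 1), (98, 1)]⟩,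
⟨1, [⟨2, 4, []⟩, ⟨4, 3, []⟩, ⟨32, 4, []⟩, ⟨8, 3, []⟩, ⟨64, 3, []⟩], [3, 10, 12, 16, 16], 2, [(46, 1), (70, 1), (98, 1), (104, 1), (110, 2)]⟩,
⟨1, [⟨9, 4, []⟩, ⟨36, 4, []⟩, ⟨64, 4, []⟩], [7], 1, [(69, 1), (76, 1), (97, 1), (104, 1)]⟩,
⟨0, [⟨96, 2, []⟩, ⟨8, 2, []⟩], [3, 3, 3], 1, [(40, 1), (72, 1)]⟩,
⟨1, [⟨2, 4, []⟩, ⟨4, 4, []⟩, ⟨65, 4, []⟩], [7], 1, [(7, 1), (70, 1)]⟩,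
⟨1, [⟨4, 4, []⟩, ⟨2, 3, []⟩, ⟨16, 4, []⟩, ⟨32, 3, []⟩, ⟨64, 3, []⟩], [3, 10, 12, 16, 16], 2, [(54, 1), (70, 1), (84, 1), (112, 1), (118, 2)]⟩,
⟨0, [⟨36, 2, []⟩, ⟨72, 2, []⟩], [3, 3, 3], 1, [(12, 1), (40, 1), (68, 1), (96, 1)]⟩,
⟨0, [⟨18, 2, []⟩, ⟨64, 2, []⟩], [3, 3, 3], 1, [(66, 1), (80, 1)]⟩,
⟨1, [⟨2, 3, []⟩, ⟨4, 3, []⟩, ⟨8, 3, []⟩, ⟨16, 3, []⟩, ⟨64, 4, []⟩], [3, 3, 12, 12, 16], 2, [(30, 1), (70, 1), (88, 1), (94, 2)]⟩,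
⟨0, [⟨24, 2, []⟩, ⟨96, 2, []⟩], [3, 3, 3], 1, [(40, 1), (48, 1), (72, 1), (80, 1)]⟩,
⟨1, [⟨33, 4, []⟩, ⟨12, 4, []⟩, ⟨64, 4, []⟩], [7], 1, [(69, 1), (73, 1), (100, 1), (104, 1)]⟩,
⟨0, [⟨10, 2, []⟩, ⟨36, 2, []⟩], [3, 3, 3], 1, [(6, 1), (12, 1), (34, 1), (40, 1)]⟩,
⟨1, [⟨1, 4, []⟩, ⟨2, 4, []⟩, ⟨96, 4, []⟩], [7], 1, [(35, 1), (67, 1)]⟩,
⟨1, [⟨8, 3, []⟩, ⟨32, 3, []⟩, ⟨1, 4, []⟩, ⟨4, 4, []⟩, ⟨64, 3, []⟩], [3, 3, 12, 16, 16], 2, [(45, 1), (69, 1), (104, 1), (109, 2)]⟩,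
⟨1, [⟨68, 4, []⟩, ⟨2, 4, []⟩, ⟨40, 4, []⟩], [7], 1, [(14, 1), (38, 1), (74, 1), (98, 1)]⟩,
⟨0, [⟨1, 2, []⟩, ⟨80, 2, []⟩], [3, 3, 3], 1, [(17, 1), (65, 1)]⟩,
⟨1, [⟨16, 4, []⟩, ⟨32, 4, []⟩, ⟨65, 4, []⟩], [7], 1, [(49, 1), (112, 1)]⟩,
⟨1, [⟨12, 4, []⟩, ⟨32, 4, []⟩, ⟨64, 4, []⟩], [7], 1, [(100, 1), (104, 1)]⟩,
⟨1, [⟨16, 3, []⟩, ⟨0, 0, [(96, 3)]⟩], [3, 3], 1, [(112, 1)]⟩,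
⟨1, [⟨1, 4, []⟩, ⟨2, 4, []⟩, ⟨68, 4, []⟩], [7], 1, [(7, 1), (67, 1)]⟩,
⟨1, [⟨2, 3, []⟩, ⟨0, 0, [(5, 3)]⟩], [3, 3], 1, [(7, 1)]⟩,
⟨1, [⟨96, 4, []⟩, ⟨8, 4, []⟩, ⟨5, 4, []⟩], [7], 1, [(41, 1), (44, 1), (73, 1), (76, 1)]⟩,
⟨0, [⟨32, 2, []⟩, ⟨68, 2, []⟩], [3, 3, 3], 1, [(36, 1), (96, 1)]⟩,
⟨1, [⟨4, 3, []⟩, ⟨0, 0, [(3, 3)]⟩], [3, 3], 1, [(7, 1)]⟩,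
⟨1, [⟨32, 3, []⟩, ⟨0, 0, [(24, 3)]⟩], [3, 3], 1, [(56, 1)]⟩,
⟨0, [⟨40, 2, []⟩, ⟨65, 2, []⟩], [3, 3, 3], 1, [(9, 1), (33, 1), (72, 1), (96, 1)]⟩,
⟨1, [⟨20, 4, []⟩, ⟨8, 4, []⟩, ⟨64, 4, []⟩], [7], 1, [(76, 1), (88, 1)]⟩,
⟨1, [⟨1, 4, []⟩, ⟨2, 2, []⟩], [3, 2, 2], 1, [(3, 1)]⟩,
⟨1, [⟨10, 4, []⟩, ⟨48, 4, []⟩, ⟨64, 4, []⟩], [7], 1, [(82, 1), (88, 1), (98, 1), (104, 1)]⟩,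
⟨1, [⟨16, 3, []⟩, ⟨32, 3, []⟩, ⟨2, 4, []⟩, ⟨4, 4, []⟩, ⟨64, 3, []⟩], [3, 3, 12, 16, 16], 2, [(54, 1), (70, 1), (112, 1), (118, 2)]⟩,
⟨1, [⟨10, 5, []⟩, ⟨36, 5, []⟩, ⟨64, 3, []⟩], [4, 4], 1, [(70, 1), (76, 1), (98, 1), (104, 1)]⟩,
⟨0, [⟨17, 2, []⟩, ⟨96, 2, []⟩], [3, 3, 3], 1, [(33, 1), (48, 1), (65, 1), (80, 1)]⟩,
⟨1, [⟨2, 3, []⟩, ⟨4, 3, []⟩, ⟨8, 3, []⟩, ⟨32, 3, []⟩, ⟨64, 4, []⟩], [3, 3, 12, 12, 16], 2, [(46, 1), (70, 1), (104, 1), (110, 2)]⟩,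
⟨1, [⟨1, 3, []⟩, ⟨2, 3, []⟩, ⟨8, 3, []⟩, ⟨32, 3, []⟩, ⟨64, 4, []⟩], [3, 3, 12, 12, 16], 2, [(43, 1), (67, 1), (104, 1), (107, 2)]⟩,
⟨1, [⟨34, 4, []⟩, ⟨20, 4, []⟩, ⟨64, 4, []⟩], [7], 1, [(70, 1), (82, 1), (100, 1), (112, 1)]⟩,
⟨0, [⟨48, 2, []⟩, ⟨64, 2, []⟩], [3, 3, 3], 1, [(80, 1), (96, 1)]⟩,
⟨1, [⟨2, 3, []⟩, ⟨4, 3, []⟩, ⟨16, 4, []⟩, ⟨40, 4, []⟩, ⟨64, 3, []⟩], [3, 3, 12, 16, 16], 2, [(30, 1), (54, 1), (70, 1), (88, 1), (94, 2), (112, 1), (118, 2)]⟩,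
⟨0, [⟨9, 2, []⟩, ⟨64, 2, []⟩], [3, 3, 3], 1, [(65, 1), (72, 1)]⟩,
⟨0, [⟨18, 2, []⟩, ⟨96, 2, []⟩], [3, 3, 3], 1, [(34, 1), (48, 1), (66, 1), (80, 1)]⟩,
⟨0, [⟨8, 2, []⟩, ⟨3, 2, []⟩], [3, 3, 3], 1, [(9, 1), (10, 1)]⟩,
⟨1, [⟨2, 4, []⟩, ⟨4, 2, []⟩], [3, 2, 2], 1, [(6, 1)]⟩,
⟨0, [⟨6, 2, []⟩, ⟨65, 2, []⟩], [3, 3, 3], 1, [(3, 1), (5, 1), (66, 1), (68, 1)]⟩,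
⟨1, [⟨17, 4, []⟩, ⟨4, 4, []⟩, ⟨64, 4, []⟩], [7], 1, [(69, 1), (84, 1)]⟩,
⟨1, [⟨66, 4, []⟩, ⟨1, 4, []⟩, ⟨36, 4, []⟩], [7], 1, [(7, 1), (35, 1), (69, 1), (97, 1)]⟩,
⟨0, [⟨17, 2, []⟩, ⟨10, 2, []⟩], [3, 3, 3], 1, [(3, 1), (9, 1), (18, 1), (24, 1)]⟩,
⟨1, [⟨1, 4, []⟩, ⟨2, 4, []⟩, ⟨72, 4, []⟩], [7], 1, [(11, 1), (67, 1)]⟩,
⟨1, [⟨1, 3, []⟩, ⟨0, 0, [(6, 3)]⟩], [3, 3], 1, [(7, 1)]⟩,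
⟨0, [⟨72, 2, []⟩, ⟨16, 2, []⟩], [3, 3, 3], 1, [(24, 1), (80, 1)]⟩,
⟨1, [⟨17, 5, []⟩, ⟨34, 5, []⟩, ⟨64, 3, []⟩], [4, 4], 1, [(67, 1), (82, 1), (97, 1), (112, 1)]⟩,
⟨0, [⟨18, 2, []⟩, ⟨36, 2, []⟩], [3, 3, 3], 1, [(6, 1), (20, 1), (34, 1), (48, 1)]⟩,
⟨1, [⟨16, 4, []⟩, ⟨32, 4, []⟩, ⟨68, 4, []⟩], [7], 1, [(52, 1), (112, 1)]⟩,
⟨1, [⟨12, 4, []⟩, ⟨16, 4, []⟩, ⟨64, 4, []⟩], [7], 1, [(84, 1), (88, 1)]⟩,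
⟨1, [⟨48, 4, []⟩, ⟨8, 4, []⟩, ⟨64, 4, []⟩], [7], 1, [(88, 1), (104, 1)]⟩,
⟨1, [⟨2, 3, []⟩, ⟨4, 3, []⟩, ⟨16, 3, []⟩, ⟨32, 3, []⟩, ⟨64, 4, []⟩], [3, 3, 12, 12, 16], 2, [(54, 1), (70, 1), (112, 1), (118, 2)]⟩,
⟨1, [⟨9, 4, []⟩, ⟨34, 4, []⟩, ⟨64, 4, []⟩], [7], 1, [(67, 1), (74, 1), (97, 1), (104, 1)]⟩,
⟨0, [⟨20, 2, []⟩, ⟨72, 2, []⟩], [3, 3, 3], 1, [(12, 1), (24, 1), (68, 1), (80, 1)]⟩,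
⟨1, [⟨1, 4, []⟩, ⟨64, 2, []⟩], [3, 2, 2], 1, [(65, 1)]⟩,
⟨1, [⟨1, 3, []⟩, ⟨2, 3, []⟩], [3, 3], 1, [(3, 1)]⟩,
⟨1, [⟨2, 4, []⟩, ⟨4, 3, []⟩, ⟨16, 4, []⟩, ⟨8, 3, []⟩, ⟨64, 3, []⟩], [3, 10, 12, 16, 16], 2, [(30, 1), (70, 1), (82, 1), (88, 1), (94, 2)]⟩,
⟨0, [⟨5, 2, []⟩, ⟨24, 2, []⟩], [3, 3, 3], 1, [(9, 1), (12, 1), (17, 1), (20, 1)]⟩,
⟨0, [⟨5, 2, []⟩, ⟨80, 2, []⟩], [3, 3, 3], 1, [(17, 1), (20, 1), (65, 1), (68, 1)]⟩,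
⟨1, [⟨8, 4, []⟩, ⟨16, 2, []⟩], [3, 2, 2], 1, [(24, 1)]⟩,
⟨1, [⟨33, 4, []⟩, ⟨8, 4, []⟩, ⟨64, 4, []⟩], [7], 1, [(73, 1), (104, 1)]⟩,
⟨1, [⟨48, 3, []⟩, ⟨64, 3, []⟩], [3, 3], 1, [(80, 1), (96, 1)]⟩,
⟨0, [⟨3, 2, []⟩, ⟨64, 2, []⟩], [3, 3, 3], 1, [(65, 1), (66, 1)]⟩,
⟨0, [⟨12, 2, []⟩, ⟨96, 2, []⟩], [3, 3, 3], 1, [(36, 1), (40, 1), (68, 1), (72, 1)]⟩,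
⟨1, [⟨8, 4, []⟩, ⟨16, 4, []⟩, ⟨66, 4, []⟩], [7], 1, [(26, 1), (88, 1)]⟩,
⟨1, [⟨1, 3, []⟩, ⟨4, 3, []⟩, ⟨32, 4, []⟩, ⟨24, 4, []⟩, ⟨64, 3, []⟩], [3, 3, 12, 16, 16], 2, [(45, 1), (53, 1), (69, 1), (104, 1), (109, 2), (112, 1), (117, 2)]⟩,
⟨0, [⟨3, 2, []⟩, ⟨80, 2, []⟩], [3, 3, 3], 1, [(17, 1), (18, 1), (65, 1), (66, 1)]⟩,
⟨1, [⟨8, 4, []⟩, ⟨32, 2, []⟩], [3, 2, 2], 1, [(40, 1)]⟩,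
⟨1, [⟨16, 4, []⟩, ⟨64, 2, []⟩], [3, 2, 2], 1, [(80, 1)]⟩,
⟨0, [⟨5, 2, []⟩, ⟨40, 2, []⟩], [3, 3, 3], 1, [(9, 1), (12, 1), (33, 1), (36, 1)]⟩,
⟨1, [⟨65, 4, []⟩, ⟨4, 4, []⟩, ⟨34, 4, []⟩], [7], 1, [(7, 1), (37, 1), (70, 1), (100, 1)]⟩,
⟨1, [⟨1, 4, []⟩, ⟨4, 4, []⟩, ⟨80, 4, []⟩], [7], 1, [(21, 1), (69, 1)]⟩,
⟨1, [⟨72, 4, []⟩, ⟨16, 4, []⟩, ⟨5, 4, []⟩], [7], 1, [(25, 1), (28, 1), (81, 1), (84, 1)]⟩,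
⟨1, [⟨16, 3, []⟩, ⟨32, 3, []⟩, ⟨1, 4, []⟩, ⟨4, 4, []⟩, ⟨64, 3, []⟩], [3, 3, 12, 16, 16], 2, [(53, 1), (69, 1), (112, 1), (117, 2)]⟩,
⟨1, [⟨1, 3, []⟩, ⟨2, 3, []⟩, ⟨32, 4, []⟩, ⟨24, 4, []⟩, ⟨64, 3, []⟩], [3, 3, 12, 16, 16], 2, [(43, 1), (51, 1), (67, 1), (104, 1), (107, 2), (112, 1), (115, 2)]⟩,
⟨1, [⟨9, 4, []⟩, ⟨48, 4, []⟩, ⟨64, 4, []⟩], [7], 1, [(81, 1), (88, 1), (97, 1), (104, 1)]⟩,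
⟨0, [⟨1, 2, []⟩, ⟨4, 2, []⟩], [3, 3, 3], 1, [(5, 1)]⟩,
⟨1, [⟨1, 3, []⟩, ⟨64, 3, []⟩], [3, 3], 1, [(65, 1)]⟩,
⟨1, [⟨2, 3, []⟩, ⟨64, 3, []⟩], [3, 3], 1, [(66, 1)]⟩,
⟨1, [⟨1, 4, []⟩, ⟨4, 3, []⟩, ⟨32, 4, []⟩, ⟨16, 3, []⟩, ⟨64, 3, []⟩], [3, 10, 12, 16, 16], 2, [(53, 1), (69, 1), (97, 1), (112, 1), (117, 2)]⟩,
⟨1, [⟨16, 3, []⟩, ⟨40, 5, []⟩, ⟨65, 5, []⟩], [1, 1], 1, [(25, 1), (49, 1), (88, 1), (112, 1)]⟩,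
⟨1, [⟨65, 4, []⟩, ⟨4, 4, []⟩, ⟨10, 4, []⟩], [7], 1, [(7, 1), (13, 1), (70, 1), (76, 1)]⟩,
⟨0, [⟨2, 2, []⟩, ⟨24, 2, []⟩], [3, 3, 3], 1, [(10, 1), (18, 1)]⟩,
⟨1, [⟨18, 4, []⟩, ⟨4, 4, []⟩, ⟨64, 4, []⟩], [7], 1, [(70, 1), (84, 1)]⟩,
⟨1, [⟨2, 4, []⟩, ⟨1, 3, []⟩, ⟨32, 4, []⟩, ⟨8, 3, []⟩, ⟨64, 3, []⟩], [3, 10, 12, 16, 16], 2, [(43, 1), (67, 1), (98, 1), (104, 1), (107, 2)]⟩,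
⟨1, [⟨96, 4, []⟩, ⟨16, 4, []⟩, ⟨3, 4, []⟩], [7], 1, [(49, 1), (50, 1), (81, 1), (82, 1)]⟩,
⟨1, [⟨2, 3, []⟩, ⟨4, 3, []⟩, ⟨8, 4, []⟩, ⟨16, 4, []⟩, ⟨64, 3, []⟩], [3, 3, 12, 16, 16], 2, [(30, 1), (70, 1), (88, 1), (94, 2)]⟩,
⟨0, [⟨33, 2, []⟩, ⟨72, 2, []⟩], [3, 3, 3], 1, [(9, 1), (40, 1), (65, 1), (96, 1)]⟩,
⟨0, [⟨16, 2, []⟩, ⟨65, 2, []⟩], [3, 3, 3], 1, [(17, 1), (80, 1)]⟩,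
⟨1, [⟨9, 4, []⟩, ⟨18, 4, []⟩, ⟨64, 4, []⟩], [7], 1, [(67, 1), (74, 1), (81, 1), (88, 1)]⟩,
⟨1, [⟨2, 2, []⟩, ⟨5, 4, []⟩], [3, 1, 1], 1, [(3, 1), (6, 1)]⟩,
⟨1, [⟨33, 5, []⟩, ⟨12, 5, []⟩, ⟨64, 3, []⟩], [4, 4], 1, [(69, 1), (73, 1), (100, 1), (104, 1)]⟩,
⟨0, [⟨4, 2, []⟩, ⟨72, 2, []⟩], [3, 3, 3], 1, [(12, 1), (68, 1)]⟩,
⟨1, [⟨96, 4, []⟩, ⟨16, 4, []⟩, ⟨5, 4, []⟩], [7], 1, [(49, 1), (52, 1), (81, 1), (84, 1)]⟩,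
⟨1, [⟨8, 3, []⟩, ⟨16, 3, []⟩, ⟨1, 4, []⟩, ⟨4, 4, []⟩, ⟨64, 3, []⟩], [3, 3, 12, 16, 16], 2, [(29, 1), (69, 1), (88, 1), (93, 2)]⟩,
⟨0, [⟨5, 2, []⟩, ⟨72, 2, []⟩], [3, 3, 3], 1, [(9, 1), (12, 1), (65, 1), (68, 1)]⟩,
⟨1, [⟨1, 4, []⟩, ⟨4, 4, []⟩, ⟨72, 4, []⟩], [7], 1, [(13, 1), (69, 1)]⟩,
⟨1, [⟨4, 4, []⟩, ⟨2, 3, []⟩, ⟨8, 4, []⟩, ⟨16, 3, []⟩, ⟨64, 3, []⟩], [3, 10, 12, 16, 16], 2, [(30, 1), (70, 1), (76, 1), (88, 1), (94, 2)]⟩,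
⟨1, [⟨66, 4, []⟩, ⟨1, 4, []⟩, ⟨40, 4, []⟩], [7], 1, [(11, 1), (35, 1), (73, 1), (97, 1)]⟩,
⟨1, [⟨8, 4, []⟩, ⟨16, 4, []⟩, ⟨65, 4, []⟩], [7], 1, [(25, 1), (88, 1)]⟩,
⟨1, [⟨8, 3, []⟩, ⟨16, 3, []⟩], [3, 3], 1, [(24, 1)]⟩,
⟨1, [⟨4, 4, []⟩, ⟨48, 4, []⟩, ⟨8, 4, []⟩], [7], 1, [(28, 1), (44, 1)]⟩,
⟨1, [⟨32, 4, []⟩, ⟨16, 2, []⟩], [3, 2, 2], 1, [(48, 1)]⟩,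
⟨1, [⟨9, 4, []⟩, ⟨32, 4, []⟩, ⟨64, 4, []⟩], [7], 1, [(97, 1), (104, 1)]⟩,
⟨1, [⟨1, 3, []⟩, ⟨4, 3, []⟩, ⟨8, 3, []⟩, ⟨32, 3, []⟩, ⟨64, 4, []⟩], [3, 3, 12, 12, 16], 2, [(45, 1), (69, 1), (104, 1), (109, 2)]⟩,
⟨1, [⟨2, 3, []⟩, ⟨4, 3, []⟩, ⟨16, 4, []⟩, ⟨32, 4, []⟩, ⟨64, 3, []⟩], [3, 3, 12, 16, 16], 2, [(54, 1), (70, 1), (112, 1), (118, 2)]⟩,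
⟨0, [⟨10, 2, []⟩, ⟨64, 2, []⟩], [3, 3, 3], 1, [(66, 1), (72, 1)]⟩,
⟨0, [⟨6, 2, []⟩, ⟨80, 2, []⟩], [3, 3, 3], 1, [(18, 1), (20, 1), (66, 1), (68, 1)]⟩,
⟨0, [⟨4, 2, []⟩, ⟨24, 2, []⟩], [3, 3, 3], 1, [(12, 1), (20, 1)]⟩,
⟨0, [⟨16, 2, []⟩, ⟨66, 2, []⟩], [3, 3, 3], 1, [(18, 1), (80, 1)]⟩,
⟨1, [⟨16, 4, []⟩, ⟨32, 4, []⟩, ⟨66, 4, []⟩], [7], 1, [(50, 1), (112, 1)]⟩,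
⟨0, [⟨5, 2, []⟩, ⟨64, 2, []⟩], [3, 3, 3], 1, [(65, 1), (68, 1)]⟩,
⟨1, [⟨8, 3, []⟩, ⟨32, 3, []⟩, ⟨1, 4, []⟩, ⟨6, 4, []⟩, ⟨64, 3, []⟩], [3, 3, 12, 16, 16], 2, [(43, 1), (45, 1), (67, 1), (69, 1), (104, 1), (107, 2), (109, 2)]⟩,
⟨1, [⟨9, 5, []⟩, ⟨18, 5, []⟩, ⟨64, 3, []⟩], [4, 4], 1, [(67, 1), (74, 1), (81, 1), (88, 1)]⟩,
⟨1, [⟨18, 5, []⟩, ⟨12, 5, []⟩, ⟨64, 3, []⟩], [4, 4], 1, [(70, 1), (74, 1), (84, 1), (88, 1)]⟩,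
⟨1, [⟨8, 4, []⟩, ⟨32, 4, []⟩, ⟨66, 4, []⟩], [7], 1, [(42, 1), (104, 1)]⟩,
⟨1, [⟨33, 4, []⟩, ⟨18, 4, []⟩, ⟨64, 4, []⟩], [7], 1, [(67, 1), (81, 1), (98, 1), (112, 1)]⟩,
⟨1, [⟨8, 4, []⟩, ⟨32, 4, []⟩, ⟨65, 4, []⟩], [7], 1, [(41, 1), (104, 1)]⟩,
⟨0, [⟨68, 2, []⟩, ⟨2, 2, []⟩], [3, 3, 3], 1, [(6, 1), (66, 1)]⟩,
⟨0, [⟨12, 2, []⟩, ⟨65, 2, []⟩], [3, 3, 3], 1, [(5, 1), (9, 1), (68, 1), (72, 1)]⟩,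
⟨0, [⟨4, 2, []⟩, ⟨40, 2, []⟩], [3, 3, 3], 1, [(12, 1), (36, 1)]⟩,
⟨0, [⟨1, 2, []⟩, ⟨64, 2, []⟩], [3, 3, 3], 1, [(65, 1)]⟩,
⟨0, [⟨48, 2, []⟩, ⟨65, 2, []⟩], [3, 3, 3], 1, [(17, 1), (33, 1), (80, 1), (96, 1)]⟩,
⟨1, [⟨2, 4, []⟩, ⟨1, 2, []⟩], [3, 2, 2], 1, [(3, 1)]⟩,
⟨1, [⟨8, 3, []⟩, ⟨16, 3, []⟩, ⟨1, 4, []⟩, ⟨2, 4, []⟩, ⟨64, 3, []⟩], [3, 3, 12, 16, 16], 2, [(27, 1), (67, 1), (88, 1), (91, 2)]⟩,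
⟨1, [⟨17, 4, []⟩, ⟨12, 4, []⟩, ⟨64, 4, []⟩], [7], 1, [(69, 1), (73, 1), (84, 1), (88, 1)]⟩,
⟨1, [⟨4, 2, []⟩, ⟨3, 4, []⟩], [3, 1, 1], 1, [(5, 1), (6, 1)]⟩,
⟨1, [⟨9, 4, []⟩, ⟨20, 4, []⟩, ⟨64, 4, []⟩], [7], 1, [(69, 1), (76, 1), (81, 1), (88, 1)]⟩,
⟨0, [⟨6, 2, []⟩, ⟨24, 2, []⟩], [3, 3, 3], 1, [(10, 1), (12, 1), (18, 1), (20, 1)]⟩,
⟨1, [⟨2, 3, []⟩, ⟨4, 3, []⟩, ⟨32, 4, []⟩, ⟨24, 4, []⟩, ⟨64, 3, []⟩], [3, 3, 12, 16, 16], 2, [(46, 1), (54, 1), (70, 1), (104, 1), (110, 2), (112, 1), (118, 2)]⟩,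
⟨1, [⟨68, 4, []⟩, ⟨1, 4, []⟩, ⟨24, 4, []⟩], [7], 1, [(13, 1), (21, 1), (73, 1), (81, 1)]⟩,
⟨1, [⟨8, 3, []⟩, ⟨16, 3, []⟩, ⟨2, 4, []⟩, ⟨4, 4, []⟩, ⟨64, 3, []⟩], [3, 3, 12, 16, 16], 2, [(30, 1), (70, 1), (88, 1), (94, 2)]⟩,
⟨1, [⟨4, 4, []⟩, ⟨2, 3, []⟩, ⟨32, 4, []⟩, ⟨16, 3, []⟩, ⟨64, 3, []⟩], [3, 10, 12, 16, 16], 2, [(54, 1), (70, 1), (100, 1), (112, 1), (118, 2)]⟩,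
⟨1, [⟨4, 4, []⟩, ⟨2, 2, []⟩], [3, 2, 2], 1, [(6, 1)]⟩,
⟨1, [⟨16, 4, []⟩, ⟨32, 4, []⟩, ⟨72, 4, []⟩], [7], 1, [(56, 1), (112, 1)]⟩,
⟨1, [⟨16, 2, []⟩, ⟨40, 4, []⟩], [3, 1, 1], 1, [(24, 1), (48, 1)]⟩,
⟨0, [⟨8, 2, []⟩, ⟨64, 2, []⟩], [3, 3, 3], 1, [(72, 1)]⟩,
⟨1, [⟨68, 4, []⟩, ⟨2, 4, []⟩, ⟨9, 4, []⟩], [7], 1, [(7, 1), (14, 1), (67, 1), (74, 1)]⟩,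
⟨1, [⟨1, 4, []⟩, ⟨2, 3, []⟩, ⟨8, 4, []⟩, ⟨16, 3, []⟩, ⟨64, 3, []⟩], [3, 10, 12, 16, 16], 2, [(27, 1), (67, 1), (73, 1), (88, 1), (91, 2)]⟩,
⟨1, [⟨66, 4, []⟩, ⟨1, 4, []⟩, ⟨24, 4, []⟩], [7], 1, [(11, 1), (19, 1), (73, 1), (81, 1)]⟩,
⟨1, [⟨2, 3, []⟩, ⟨4, 3, []⟩], [3, 3], 1, [(6, 1)]⟩,
⟨0, [⟨32, 2, []⟩, ⟨65, 2, []⟩], [3, 3, 3], 1, [(33, 1), (96, 1)]⟩,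
⟨1, [⟨40, 3, []⟩, ⟨64, 3, []⟩], [3, 3], 1, [(72, 1), (96, 1)]⟩,
⟨1, [⟨1, 4, []⟩, ⟨2, 3, []⟩, ⟨32, 4, []⟩, ⟨16, 3, []⟩, ⟨64, 3, []⟩], [3, 10, 12, 16, 16], 2, [(51, 1), (67, 1), (97, 1), (112, 1), (115, 2)]⟩,
⟨1, [⟨1, 4, []⟩, ⟨4, 4, []⟩, ⟨66, 4, []⟩], [7], 1, [(7, 1), (69, 1)]⟩,
⟨1, [⟨8, 4, []⟩, ⟨16, 4, []⟩, ⟨96, 4, []⟩], [7], 1, [(56, 1), (88, 1)]⟩,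
⟨1, [⟨16, 3, []⟩, ⟨0, 0, [(72, 3)]⟩], [3, 3], 1, [(88, 1)]⟩,
⟨1, [⟨80, 4, []⟩, ⟨32, 4, []⟩, ⟨9, 4, []⟩], [7], 1, [(49, 1), (56, 1), (97, 1), (104, 1)]⟩,
⟨1, [⟨66, 4, []⟩, ⟨1, 4, []⟩, ⟨12, 4, []⟩], [7], 1, [(7, 1), (11, 1), (69, 1), (73, 1)]⟩,
⟨0, [⟨8, 2, []⟩, ⟨16, 2, []⟩], [3, 3, 3], 1, [(24, 1)]⟩,
⟨1, [⟨8, 3, []⟩, ⟨32, 3, []⟩, ⟨4, 4, []⟩, ⟨3, 4, []⟩, ⟨64, 3, []⟩], [3, 3, 12, 16, 16], 2, [(45, 1), (46, 1), (69, 1), (70, 1), (104, 1), (109, 2), (110, 2)]⟩,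
⟨0, [⟨3, 2, []⟩, ⟨72, 2, []⟩], [3, 3, 3], 1, [(9, 1), (10, 1), (65, 1), (66, 1)]⟩,
⟨0, [⟨6, 2, []⟩, ⟨64, 2, []⟩], [3, 3, 3], 1, [(66, 1), (68, 1)]⟩,
⟨1, [⟨8, 3, []⟩, ⟨16, 3, []⟩, ⟨1, 4, []⟩, ⟨6, 4, []⟩, ⟨64, 3, []⟩], [3, 3, 12, 16, 16], 2, [(27, 1), (29, 1), (67, 1), (69, 1), (88, 1), (91, 2), (93, 2)]⟩,
⟨1, [⟨17, 4, []⟩, ⟨6, 4, []⟩, ⟨64, 4, []⟩], [7], 1, [(67, 1), (69, 1), (82, 1), (84, 1)]⟩,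
⟨1, [⟨80, 4, []⟩, ⟨8, 4, []⟩, ⟨36, 4, []⟩], [7], 1, [(28, 1), (56, 1), (76, 1), (104, 1)]⟩,
⟨0, [⟨34, 2, []⟩, ⟨65, 2, []⟩], [3, 3, 3], 1, [(3, 1), (33, 1), (66, 1), (96, 1)]⟩,
⟨0, [⟨5, 2, []⟩, ⟨96, 2, []⟩], [3, 3, 3], 1, [(33, 1), (36, 1), (65, 1), (68, 1)]⟩,
⟨1, [⟨33, 5, []⟩, ⟨10, 5, []⟩, ⟨64, 3, []⟩], [4, 4], 1, [(67, 1), (73, 1), (98, 1), (104, 1)]⟩,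
⟨1, [⟨1, 3, []⟩, ⟨2, 3, []⟩, ⟨8, 4, []⟩, ⟨32, 4, []⟩, ⟨64, 3, []⟩], [3, 3, 12, 16, 16], 2, [(43, 1), (67, 1), (104, 1), (107, 2)]⟩,
⟨1, [⟨4, 4, []⟩, ⟨1, 3, []⟩, ⟨8, 4, []⟩, ⟨16, 3, []⟩, ⟨64, 3, []⟩], [3, 10, 12, 16, 16], 2, [(29, 1), (69, 1), (76, 1), (88, 1), (93, 2)]⟩,
⟨1, [⟨1, 3, []⟩, ⟨4, 3, []⟩, ⟨16, 3, []⟩, ⟨32, 3, []⟩, ⟨64, 4, []⟩], [3, 3, 12, 12, 16], 2, [(53, 1), (69, 1), (112, 1), (117, 2)]⟩,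
⟨1, [⟨16, 3, []⟩, ⟨32, 3, []⟩, ⟨1, 4, []⟩, ⟨2, 4, []⟩, ⟨64, 3, []⟩], [3, 3, 12, 16, 16], 2, [(51, 1), (67, 1), (112, 1), (115, 2)]⟩,
⟨1, [⟨32, 3, []⟩, ⟨0, 0, [(80, 3)]⟩], [3, 3], 1, [(112, 1)]⟩,
⟨1, [⟨10, 5, []⟩, ⟨20, 5, []⟩, ⟨64, 3, []⟩], [4, 4], 1, [(70, 1), (76, 1), (82, 1), (88, 1)]⟩,
⟨0, [⟨3, 2, []⟩, ⟨96, 2, []⟩], [3, 3, 3], 1, [(33, 1), (34, 1), (65, 1), (66, 1)]⟩,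
⟨0, [⟨36, 2, []⟩, ⟨64, 2, []⟩], [3, 3, 3], 1, [(68, 1), (96, 1)]⟩,
⟨1, [⟨2, 4, []⟩, ⟨4, 4, []⟩, ⟨72, 4, []⟩], [7], 1, [(14, 1), (70, 1)]⟩,
⟨0, [⟨34, 2, []⟩, ⟨64, 2, []⟩], [3, 3, 3], 1, [(66, 1), (96, 1)]⟩,
⟨1, [⟨1, 3, []⟩, ⟨4, 3, []⟩, ⟨16, 4, []⟩, ⟨40, 4, []⟩, ⟨64, 3, []⟩], [3, 3, 12, 16, 16], 2, [(29, 1), (53, 1), (69, 1), (88, 1), (93, 2), (112, 1), (117, 2)]⟩,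
⟨1, [⟨9, 5, []⟩, ⟨36, 5, []⟩, ⟨64, 3, []⟩], [4, 4], 1, [(69, 1), (76, 1), (97, 1), (104, 1)]⟩,
⟨1, [⟨16, 3, []⟩, ⟨32, 3, []⟩], [3, 3], 1, [(48, 1)]⟩,
⟨1, [⟨16, 3, []⟩, ⟨0, 0, [(40, 3)]⟩], [3, 3], 1, [(56, 1)]⟩,
⟨1, [⟨1, 4, []⟩, ⟨48, 4, []⟩, ⟨8, 4, []⟩], [7], 1, [(25, 1), (41, 1)]⟩,
⟨1, [⟨32, 4, []⟩, ⟨8, 2, []⟩], [3, 2, 2], 1, [(40, 1)]⟩,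
⟨1, [⟨1, 3, []⟩, ⟨2, 3, []⟩, ⟨8, 4, []⟩, ⟨16, 4, []⟩, ⟨64, 3, []⟩], [3, 3, 12, 16, 16], 2, [(27, 1), (67, 1), (88, 1), (91, 2)]⟩,
⟨1, [⟨8, 3, []⟩, ⟨16, 3, []⟩, ⟨2, 4, []⟩, ⟨5, 4, []⟩, ⟨64, 3, []⟩], [3, 3, 12, 16, 16], 2, [(27, 1), (30, 1), (67, 1), (70, 1), (88, 1), (91, 2), (94, 2)]⟩,
⟨1, [⟨34, 4, []⟩, ⟨5, 4, []⟩, ⟨64, 4, []⟩], [7], 1, [(67, 1), (70, 1), (97, 1), (100, 1)]⟩,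
⟨1, [⟨9, 4, []⟩, ⟨4, 4, []⟩, ⟨64, 4, []⟩], [7], 1, [(69, 1), (76, 1)]⟩,
⟨1, [⟨8, 3, []⟩, ⟨32, 3, []⟩, ⟨2, 4, []⟩, ⟨5, 4, []⟩, ⟨64, 3, []⟩], [3, 3, 12, 16, 16], 2, [(43, 1), (46, 1), (67, 1), (70, 1), (104, 1), (107, 2), (110, 2)]⟩,
⟨0, [⟨68, 2, []⟩, ⟨1, 2, []⟩], [3, 3, 3], 1, [(5, 1), (65, 1)]⟩,
⟨0, [⟨40, 2, []⟩, ⟨66, 2, []⟩], [3, 3, 3], 1, [(10, 1), (34, 1), (72, 1), (96, 1)]⟩,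
⟨0, [⟨1, 2, []⟩, ⟨2, 2, []⟩], [3, 3, 3], 1, [(3, 1)]⟩,
⟨0, [⟨2, 2, []⟩, ⟨72, 2, []⟩], [3, 3, 3], 1, [(10, 1), (66, 1)]⟩,
⟨1, [⟨80, 4, []⟩, ⟨8, 4, []⟩, ⟨6, 4, []⟩], [7], 1, [(26, 1), (28, 1), (74, 1), (76, 1)]⟩,
⟨1, [⟨1, 3, []⟩, ⟨2, 3, []⟩, ⟨8, 4, []⟩, ⟨48, 4, []⟩, ⟨64, 3, []⟩], [3, 3, 12, 16, 16], 2, [(27, 1), (43, 1), (67, 1), (88, 1), (91, 2), (104, 1), (107, 2)]⟩,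
⟨1, [⟨8, 3, []⟩, ⟨0, 0, [(48, 3)]⟩], [3, 3], 1, [(56, 1)]⟩,
⟨0, [⟨48, 2, []⟩, ⟨68, 2, []⟩], [3, 3, 3], 1, [(20, 1), (36, 1), (80, 1), (96, 1)]⟩,
⟨1, [⟨34, 4, []⟩, ⟨8, 4, []⟩, ⟨64, 4, []⟩], [7], 1, [(74, 1), (104, 1)]⟩,
⟨0, [⟨33, 2, []⟩, ⟨64, 2, []⟩], [3, 3, 3], 1, [(65, 1), (96, 1)]⟩,
⟨0, [⟨5, 2, []⟩, ⟨48, 2, []⟩], [3, 3, 3], 1, [(17, 1), (20, 1), (33, 1), (36, 1)]⟩,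
⟨0, [⟨6, 2, []⟩, ⟨72, 2, []⟩], [3, 3, 3], 1, [(10, 1), (12, 1), (66, 1), (68, 1)]⟩,
⟨0, [⟨9, 2, []⟩, ⟨34, 2, []⟩], [3, 3, 3], 1, [(3, 1), (10, 1), (33, 1), (40, 1)]⟩]

theorem base_ok : base.all (fun q => q.ok 7 2 [7, 56, 64] big4 big4 []) = true := by
  decide +kernel

theorem gb_ok : gb.all (fun c => c.ok 7 2 bl) = true := by decide +kernel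

theorem gads_ok : gads.all (fun g => g.okV 7 2 [0, 2]) = true := by decide +kernel

theorem cmp_ok : cmpR names cnf (clsu 2 base ++ (gb.map (Gb.cl bl) ++ gads.map Gt.cl)) = true := by
  decide +kernel

end DN17

theorem instn_17 : instN 1 2 [0, 2] [64] DN17.bl DN17.base DN17.gb DN17.gads DN17.names DN17.cnf DN17.db DN17.prf = true :=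
  instN_of DN17.base_ok DN17.gb_ok DN17.gads_ok (by decide +kernel) DN17.okc DN17.cmp_ok DN17.chk_ok

/-- there is no configuration of this instance. -/
theorem noN_17 {V : Type v} [DecidableEq V] {ι : Type u} [Fintype ι] {B : ι → Finset V}
    {Q : Finset V} {x : ℕ → V} {C : ℕ → Finset V} (h : CfR B Q (6 + 1) 2 x C [0, 2] [64])
    (hb : ∀ b ∈ DN17.bl, b.Holds (ecB B x (6 + 1) C)) : False :=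
  h.absurd_bnd hb instn_17

end Pool.Agent.Hyp6
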