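import Pool.Agent.Hyp6.CfB

/-!
# HYP6: instance with bounds 21: n = 1, r = 2, values [0, 0], inner blocks [1, 1]

97 base clauses, 5 given clauses, 40 gadgets, 68 learned clauses.
-/

set_option autoImplicit false
set_option maxRecDepth 100000

namespace Pool.Agent.Hyp6

open Rup

universe u v

namespace DN21

noncomputable def names : Tr :=
 (.node 57 (.node 28 (.node 13 (.node 6 (.node 2 (.node 0 (.leaf 514)
 (.node 1 (.leaf 2115)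
 (.leaf 131)))
 (.node 4 (.node 3 (.leaf 2179)
 (.leaf 2562))
 (.node 5 (.leaf 2307)
 (.leaf 67))))
 (.node 9 (.node 7 (.leaf 259)
 (.node 8 (.leaf 65)
 (.leaf 2564)))
 (.node 11 (.node 10 (.leaf 18881)
 (.leaf 516))
 (.node 12 (.leaf 9)
 (.leaf 66)))))
 (.node 20 (.node 16 (.node 14 (.leaf 257)
 (.node 15 (.leaf 129)
 (.leaf 513)))
 (.node 18 (.node 17 (.leaf 2306)
 (.leaf 130))
 (.node 19 (.leaf 2114)
 (.leaf 33))))
 (.node 24 (.node 22 (.node 21 (.leaf 2178)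
 (.leaf 2561))
 (.node 23 (.leaf 16833)
 (.leaf 17)))
 (.node 26 (.node 25 (.leaf 16961)
 (.leaf 16905))
 (.node 27 (.leaf 8769)
 (.leaf 515))))))
 (.node 42 (.node 35 (.node 31 (.node 29 (.leaf 16913)
 (.node 30 (.leaf 19329)
 (.leaf 644)))
 (.node 33 (.node 32 (.leaf 2563)
 (.leaf 517))
 (.node 34 (.leaf 16929)
 (.leaf 258))))
 (.node 38 (.node 36 (.leaf 17025)
 (.node 37 (.leaf 2058)
 (.leaf 19137)))
 (.node 40 (.node 39 (.leaf 2116)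
 (.leaf 2308))
 (.node 41 (.leaf 17153)
 (.leaf 2177)))))
 (.node 49 (.node 45 (.node 43 (.leaf 17217)
 (.node 44 (.leaf 68)
 (.leaf 2082)))
 (.node 47 (.node 46 (.leaf 2066)
 (.leaf 2628))
 (.node 48 (.leaf 2180)
 (.leaf 17281))))
 (.node 53 (.node 51 (.node 50 (.leaf 74)
 (.leaf 19265))
 (.node 52 (.leaf 18618)
 (.leaf 18561)))
 (.node 55 (.node 54 (.leaf 16641)
 (.leaf 8266))
 (.node 56 (.leaf 98)
 (.leaf 8289)))))))
 (.node 86 (.node 71 (.node 64 (.node 60 (.node 58 (.leaf 10818)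
 (.node 59 (.leaf 11010)
 (.leaf 18746)))
 (.node 62 (.node 61 (.leaf 18689)
 (.leaf 10817))
 (.node 63 (.leaf 10881)
 (.leaf 8834))))
 (.node 67 (.node 65 (.leaf 8233)
 (.node 66 (.leaf 18625)
 (.leaf 2692)))
 (.node 69 (.node 68 (.leaf 8217)
 (.leaf 19130))
 (.node 70 (.leaf 19073)
 (.leaf 138)))))
 (.node 78 (.node 74 (.node 72 (.leaf 8329)
 (.node 73 (.leaf 19002)
 (.leaf 18473)))
 (.node 76 (.node 75 (.leaf 16449)
 (.leaf 8833))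
 (.node 77 (.leaf 19258)
 (.leaf 19201))))
 (.node 82 (.node 80 (.node 79 (.leaf 2305)
 (.leaf 8273))
 (.node 81 (.leaf 8465)
 (.leaf 18)))
 (.node 84 (.node 83 (.leaf 162)
 (.leaf 8353))
 (.node 85 (.leaf 82)
 (.leaf 16897))))))
 (.node 100 (.node 93 (.node 89 (.node 87 (.leaf 2565)
 (.node 88 (.leaf 2113)
 (.leaf 35)))
 (.node 91 (.node 90 (.leaf 19)
 (.leaf 16705))
 (.node 92 (.leaf 26)
 (.leaf 18930))))
 (.node 96 (.node 94 (.leaf 18481)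
 (.node 95 (.leaf 17089)
 (.leaf 18497)))
 (.node 98 (.node 97 (.leaf 8835)
 (.leaf 18817))
 (.node 99 (.leaf 16513)
 (.leaf 34)))))
 (.node 107 (.node 103 (.node 101 (.leaf 8265)
 (.node 102 (.leaf 10)
 (.leaf 18554)))
 (.node 105 (.node 104 (.leaf 18457)
 (.leaf 16577))
 (.node 106 (.leaf 274)
 (.leaf 19066))))
 (.node 111 (.node 109 (.node 108 (.leaf 19009)
 (.leaf 18945))
 (.node 110 (.leaf 2820)
 (.leaf 580)))
 (.node 113 (.node 112 (.leaf 42)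
 (.leaf 18753))
 (.node 114 (.leaf 132)
 (.leaf 16769))))))))

noncomputable def base : List Ru := [
.rs (.deg 0 [0, 1]),
.rs (.lip 1 16 23 7),
.rs (.ordE 1 8 2),
.rs (.part [32, 88] [0, 0] [7] []),
.rs (.le 0 9 8 3 2),
.rs (.ordE 1 8 3),
.rs (.join 0 4 3 2 1 1 [(2, 0)]),
.rs (.deg 5 [0, 3]),
.rs (.l2 1 72 96 6 2 2),
.rs (.lip 1 32 39 7),
.rs (.l2 1 72 80 6 1 1),
.rs (.l2 0 72 80 6 1 2),
.rs (.le 0 5 1 0 1),
.rs (.part [96, 24] [0, 0] [7] []),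
.rs (.ordE 1 16 1),
.rs (.join 1 16 6 4 3 1 [(4, 0)]),
.rs (.le 0 3 1 0 1),
.rs (.lip 1 80 87 7),
.rs (.join 0 1 4 2 1 1 [(0, 0)]),
.rs (.part [56, 71] [0, 1] [] []),
.rs (.part [66, 5] [0, 0] [56] []),
.rs (.ab 1 4),
.rs (.part [8, 112] [0, 0] [7] []),
.rs (.l2 0 72 80 6 1 1),
.rs (.lip 1 96 103 7),
.rs (.ab 1 5),
.rs (.hall [0] [1, 2, 6]),
.rs (.ab 0 5),
.rs (.part [104, 23] [0, 1] [] []),
.rs (.hall [0] [0, 1, 2]),
.rs (.deg 4 [2, 1]),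
.rs (.l2 0 10 34 1 1 1),
.rs (.join 0 4 4 2 1 1 [(2, 0)]),
.rs (.ordE 1 32 2),
.rs (.join 0 2 3 2 1 1 [(1, 0)]),
.rs (.part [64, 56] [0, 0] [7] []),
.rs (.ordE 1 64 4),
.rs (.deg 3 [3, 0]),
.rs (.deg 2 [2, 1]),
.rs (.deg 1 [2, 1]),
.rs (.part [40, 87] [0, 1] [] []),
.rs (.join 0 1 1 2 0 2 [(0, 0)]),
.rs (.lip 1 6 62 56),
.rs (.join 0 16 6 4 3 1 [(4, 0)]),
.rs (.ordE 0 8 2),
.rs (.join 1 8 6 4 3 2 [(3, 1)]),
.rs (.ordE 1 16 3),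
.rs (.part [88, 39] [0, 1] [] []),
.rs (.ab 1 3),
.rs (.join 0 16 6 4 3 3 [(4, 2)]),
.rs (.deg 6 [2, 2]),
.rs (.ordE 0 16 2),
.rs (.deg 6 [4, 0]),
.rs (.part [72, 48] [0, 0] [7] []),
.rs (.ab 0 4),
.rs (.l2 0 12 20 2 1 1),
.rs (.hall [0] [3, 5, 6]),
.rs (.l2 0 9 17 0 1 1),
.rs (.part [112, 15] [0, 1] [] []),
.rs (.join 0 1 3 2 2 1 [(0, 1)]),
.rs (.part [68, 3] [0, 0] [56] []),
.rs (.lip 1 8 15 7),
.rs (.deg 3 [0, 3]),
.rs (.ordE 1 32 1),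
.rs (.deg 4 [1, 2]),
.rs (.part [16, 104] [0, 0] [7] []),
.rs (.part [24, 103] [0, 1] [] []),
.rs (.deg 6 [3, 1]),
.rs (.deg 4 [0, 3]),
.rs (.join 0 2 5 2 1 1 [(1, 0)]),
.rs (.deg 3 [2, 1]),
.rs (.lip 1 72 79 7),
.rs (.deg 3 [1, 2]),
.rs (.ordE 1 64 2),
.rs (.lip 1 64 71 7),
.rs (.join 1 32 6 4 3 2 [(5, 1)]),
.rs (.part [65, 62] [0, 1] [] []),
.rs (.deg 6 [1, 3]),
.rs (.deg 5 [2, 1]),
.rs (.join 0 16 6 4 3 2 [(4, 1)]),
.rs (.deg 5 [1, 2]),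
.rs (.join 0 1 3 2 1 1 [(0, 0)]),
.rs (.join 0 8 6 4 3 1 [(3, 0)]),
.rs (.ordE 0 64 2),
.rs (.join 0 1 2 2 0 2 [(0, 0)]),
.rs (.ab 1 6),
.rs (.ordE 1 64 3),
.rs (.deg 6 [0, 4]),
.rs (.ab 0 6),
.rs (.join 1 8 6 4 3 1 [(3, 0)]),
.rs (.part [80, 40] [0, 0] [7] []),
.rs (.ordE 0 64 4),
.rs (.ordE 1 64 1),
.rs (.deg 4 [3, 0]),
.rs (.part [48, 79] [0, 1] [] []),
.rs (.ab 0 3),
.rs (.l2 0 72 80 6 1 3)]

/-- the bounds. -/
def bl : List Bnd := [⟨false, [(0, 0), (0, 1), (0, 2), (0, 3), (0, 4), (0, 5), (0, 6)], 9⟩, ⟨true, [(0, 0), (0, 1), (0, 2), (0, 3), (0, 4), (0, 5)], 3⟩]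

noncomputable def gb : List Gb := [
⟨0, [0, 1, 0, 3, 3, 3, 0]⟩,
⟨0, [0, 0, 1, 3, 3, 3, 0]⟩,
⟨0, [0, 0, 3, 0, 1, 1, 5]⟩,
⟨0, [0, 0, 0, 4, 2, 0, 4]⟩,
⟨0, [0, 3, 0, 0, 1, 1, 5]⟩]

noncomputable def gads : List Gt := [
⟨1, [⟨16, 2, []⟩, ⟨64, 2, []⟩], [3, 3, 3], 1, [(80, 1)]⟩,
⟨1, [⟨8, 3, []⟩, ⟨16, 3, []⟩, ⟨64, 4, []⟩], [7, 3], 1, [(88, 1)]⟩,
⟨0, [⟨8, 3, []⟩, ⟨16, 4, []⟩, ⟨32, 3, []⟩], [7, 5], 1, [(56, 1)]⟩,
⟨1, [⟨16, 3, []⟩, ⟨32, 3, []⟩, ⟨72, 4, []⟩], [7, 3], 1, [(56, 1), (112, 1)]⟩,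
⟨1, [⟨1, 2, []⟩, ⟨2, 2, []⟩], [3, 3, 3], 1, [(3, 1)]⟩,
⟨0, [⟨16, 2, []⟩, ⟨32, 2, []⟩], [3, 3, 3], 1, [(48, 1)]⟩,
⟨0, [⟨8, 3, []⟩, ⟨16, 3, []⟩, ⟨64, 4, []⟩], [7, 3], 1, [(88, 1)]⟩,
⟨1, [⟨32, 2, []⟩, ⟨64, 2, []⟩], [3, 3, 3], 1, [(96, 1)]⟩,
⟨1, [⟨16, 3, []⟩, ⟨8, 4, []⟩, ⟨32, 3, []⟩], [7, 5], 1, [(56, 1)]⟩,
⟨0, [⟨8, 2, []⟩, ⟨64, 2, []⟩], [3, 3, 3], 1, [(72, 1)]⟩,
⟨0, [⟨8, 2, []⟩, ⟨16, 2, []⟩], [3, 3, 3], 1, [(24, 1)]⟩,
⟨0, [⟨32, 2, []⟩, ⟨64, 2, []⟩], [3, 3, 3], 1, [(96, 1)]⟩,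
⟨0, [⟨8, 3, []⟩, ⟨32, 3, []⟩, ⟨80, 4, []⟩], [7, 3], 1, [(56, 1), (104, 1)]⟩,
⟨1, [⟨8, 3, []⟩, ⟨32, 3, []⟩, ⟨80, 4, []⟩], [7, 3], 1, [(56, 1), (104, 1)]⟩,
⟨1, [⟨16, 3, []⟩, ⟨32, 3, []⟩, ⟨64, 4, []⟩], [7, 3], 1, [(112, 1)]⟩,
⟨1, [⟨8, 3, []⟩, ⟨32, 4, []⟩, ⟨16, 3, []⟩], [7, 5], 1, [(56, 1)]⟩,
⟨0, [⟨16, 3, []⟩, ⟨32, 3, []⟩, ⟨72, 4, []⟩], [7, 3], 1, [(56, 1), (112, 1)]⟩,
⟨1, [⟨16, 3, []⟩, ⟨32, 4, []⟩, ⟨64, 3, []⟩], [7, 5], 1, [(112, 1)]⟩,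
⟨0, [⟨34, 2, []⟩, ⟨64, 2, []⟩], [3, 3, 3], 1, [(66, 1), (96, 1)]⟩,
⟨0, [⟨17, 2, []⟩, ⟨64, 2, []⟩], [3, 3, 3], 1, [(65, 1), (80, 1)]⟩,
⟨1, [⟨8, 2, []⟩, ⟨32, 2, []⟩], [3, 3, 3], 1, [(40, 1)]⟩,
⟨0, [⟨5, 2, []⟩, ⟨64, 2, []⟩], [3, 3, 3], 1, [(65, 1), (68, 1)]⟩,
⟨0, [⟨9, 2, []⟩, ⟨64, 2, []⟩], [3, 3, 3], 1, [(65, 1), (72, 1)]⟩,
⟨0, [⟨10, 2, []⟩, ⟨64, 2, []⟩], [3, 3, 3], 1, [(66, 1), (72, 1)]⟩,
⟨0, [⟨12, 2, []⟩, ⟨64, 2, []⟩], [3, 3, 3], 1, [(68, 1), (72, 1)]⟩,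
⟨1, [⟨8, 3, []⟩, ⟨16, 4, []⟩, ⟨32, 3, []⟩], [7, 5], 1, [(56, 1)]⟩,
⟨0, [⟨8, 2, []⟩, ⟨32, 2, []⟩], [3, 3, 3], 1, [(40, 1)]⟩,
⟨1, [⟨2, 2, []⟩, ⟨4, 2, []⟩], [3, 3, 3], 1, [(6, 1)]⟩,
⟨1, [⟨8, 3, []⟩, ⟨32, 3, []⟩, ⟨64, 4, []⟩], [7, 3], 1, [(104, 1)]⟩,
⟨1, [⟨8, 3, []⟩, ⟨16, 3, []⟩, ⟨96, 4, []⟩], [7, 3], 1, [(56, 1), (88, 1)]⟩,
⟨0, [⟨16, 3, []⟩, ⟨8, 4, []⟩, ⟨32, 3, []⟩], [7, 5], 1, [(56, 1)]⟩,
⟨1, [⟨1, 2, []⟩, ⟨4, 2, []⟩], [3, 3, 3], 1, [(5, 1)]⟩,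
⟨1, [⟨8, 2, []⟩, ⟨16, 2, []⟩], [3, 3, 3], 1, [(24, 1)]⟩,
⟨0, [⟨8, 3, []⟩, ⟨32, 3, []⟩, ⟨64, 4, []⟩], [7, 3], 1, [(104, 1)]⟩,
⟨1, [⟨16, 2, []⟩, ⟨32, 2, []⟩], [3, 3, 3], 1, [(48, 1)]⟩,
⟨1, [⟨8, 2, []⟩, ⟨64, 2, []⟩], [3, 3, 3], 1, [(72, 1)]⟩,
⟨0, [⟨3, 2, []⟩, ⟨64, 2, []⟩], [3, 3, 3], 1, [(65, 1), (66, 1)]⟩,
⟨0, [⟨16, 2, []⟩, ⟨64, 2, []⟩], [3, 3, 3], 1, [(80, 1)]⟩,
⟨0, [⟨16, 3, []⟩, ⟨32, 3, []⟩, ⟨64, 4, []⟩], [7, 3], 1, [(112, 1)]⟩,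
⟨0, [⟨20, 2, []⟩, ⟨64, 2, []⟩], [3, 3, 3], 1, [(68, 1), (80, 1)]⟩]

noncomputable def cnf : List (List ℕ) := [
[24, 74],
[105, 106],
[3, 38],
[108, 76],
[111, 26],
[79, 2],
[41, 17, 112, 114],
[28, 80],
[117, 119, 18],
[121, 122],
[125, 127, 8],
[55, 129, 56],
[131, 24],
[82, 132],
[43, 84],
[7, 45, 134, 126],
[137, 24],
[139, 140],
[25, 31, 142, 144],
[46, 146],
[58, 148],
[85, 107],
[150, 60],
[55, 153, 0],
[155, 156],
[159, 123],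
[48, 40, 32],
[29, 109],
[86, 104],
[24, 48, 40],
[4, 42],
[161, 163, 164],
[41, 31, 166, 168],
[11, 34],
[49, 17, 170, 160],
[172, 20],
[175, 18],
[88, 176],
[178, 90],
[180, 92],
[182, 138],
[165, 184, 136],
[187, 188],
[5, 33, 62, 152],
[13, 26],
[3, 9, 94, 116],
[97, 6],
[190, 120],
[177, 193],
[5, 57, 62, 194],
[56, 64],
[5, 36],
[66, 44],
[50, 196],
[31, 199],
[115, 169, 200],
[16, 28, 32],
[203, 145, 204],
[98, 206],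
[205, 17, 100, 110],
[68, 208],
[207, 192],
[16, 78],
[35, 158],
[36, 6],
[198, 102],
[210, 154],
[22, 8],
[30, 96],
[49, 29, 212, 162],
[12, 38],
[215, 216],
[26, 2],
[65, 8],
[147, 218],
[11, 9, 220, 118],
[52, 186],
[0, 18],
[14, 34],
[5, 1, 62, 128],
[70, 10],
[25, 17, 100, 202],
[13, 33, 222, 54],
[57, 0],
[201, 224, 130],
[45, 219],
[19, 64],
[32, 174],
[33, 173],
[3, 45, 94, 124],
[72, 226],
[67, 22],
[9, 44],
[228, 84],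
[230, 214],
[17, 151],
[55, 195, 22],
[49, 13, 5, 15],
[41, 13, 5, 15],
[179, 31, 29, 67],
[89, 37, 23],
[181, 31, 29, 67],
[43, 9, 141],
[3, 7, 19, 77],
[13, 229, 15, 47],
[7, 11, 95, 21, 61],
[75, 93, 209],
[37, 71, 231],
[13, 5, 23, 191],
[35, 9, 157],
[7, 79, 11, 21],
[27, 1, 51],
[27, 37, 211],
[71, 1, 83],
[13, 15, 63, 47, 87],
[3, 11, 135, 21, 103],
[7, 11, 19, 61],
[3, 81, 7, 21],
[5, 15, 223, 47, 99],
[7, 81, 65, 61],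
[213, 1, 59, 83],
[143, 1, 53, 73],
[39, 35, 227],
[225, 1, 53, 69],
[101, 1, 53, 51],
[171, 1, 59, 51],
[113, 1, 69, 51],
[3, 97, 11, 21],
[27, 71, 183],
[93, 91, 189],
[3, 11, 19, 103],
[3, 7, 221, 21, 77],
[5, 89, 15, 47],
[75, 91, 149],
[39, 43, 133],
[13, 15, 23, 87],
[43, 35, 197],
[39, 9, 217],
[185, 1, 53, 59],
[37, 1, 73],
[5, 15, 23, 99],
[167, 1, 69, 73]]

noncomputable def db : Tr :=
 (.node 105 (.node 52 (.node 26 (.node 13 (.node 6 (.node 3 (.node 1 (.leaf 0x4c001a)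
 (.node 2 (.leaf 0x6c006b)
 (.leaf 0x280005)))
 (.node 4 (.leaf 0x4e006e)
 (.node 5 (.leaf 0x1c0071)
 (.leaf 0x40051))))
 (.node 9 (.node 7 (.leaf 0x7400720013002b)
 (.node 8 (.leaf 0x52001e)
 (.leaf 0x1400790077)))
 (.node 11 (.node 10 (.leaf 0x7c007b)
 (.leaf 0xa0081007f))
 (.node 12 (.leaf 0x3a00830039)
 (.leaf 0x1a0085)))))
 (.node 19 (.node 16 (.node 14 (.leaf 0x860054)
 (.node 15 (.leaf 0x56002d)
 (.leaf 0x800088002f0009)))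
 (.node 17 (.leaf 0x1a008b)
 (.node 18 (.leaf 0x8e008d)
 (.leaf 0x9200900021001b))))
 (.node 22 (.node 20 (.leaf 0x940030)
 (.node 21 (.leaf 0x96003c)
 (.leaf 0x6d0057)))
 (.node 24 (.node 23 (.leaf 0x3e0098)
 (.leaf 0x2009b0039))
 (.node 25 (.leaf 0x9e009d)
 (.leaf 0x7d00a1))))))
 (.node 39 (.node 32 (.node 29 (.node 27 (.leaf 0x22002a0032)
 (.node 28 (.leaf 0x6f001f)
 (.leaf 0x6a0058)))
 (.node 30 (.leaf 0x2a0032001a)
 (.node 31 (.leaf 0x2c0006)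
 (.leaf 0xa600a500a3))))
 (.node 35 (.node 33 (.leaf 0xaa00a80021002b)
 (.node 34 (.leaf 0x24000d)
 (.leaf 0xa200ac00130033)))
 (.node 37 (.node 36 (.leaf 0x1600ae)
 (.leaf 0x1400b1))
 (.node 38 (.leaf 0xb2005a)
 (.leaf 0x5c00b4)))))
 (.node 45 (.node 42 (.node 40 (.leaf 0x5e00b6)
 (.node 41 (.leaf 0x8c00b8)
 (.leaf 0x8a00ba00a7)))
 (.node 43 (.leaf 0xbe00bd)
 (.node 44 (.leaf 0x9a004000230007)
 (.leaf 0x1c000f))))
 (.node 48 (.node 46 (.leaf 0x760060000b0005)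
 (.node 47 (.leaf 0x80063)
 (.leaf 0x7a00c0)))
 (.node 50 (.node 49 (.leaf 0xc300b3)
 (.leaf 0xc40040003b0007))
 (.node 51 (.leaf 0x42003a)
 (.leaf 0x260007)))))))
 (.node 78 (.node 65 (.node 58 (.node 55 (.node 53 (.leaf 0x2e0044)
 (.node 54 (.leaf 0xc60034)
 (.leaf 0xc90021)))
 (.node 56 (.leaf 0xca00ab0075)
 (.node 57 (.leaf 0x22001e0012)
 (.leaf 0xce009300cd))))
 (.node 61 (.node 59 (.leaf 0xd00064)
 (.node 60 (.leaf 0x700066001300cf)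
 (.leaf 0xd20046)))
 (.node 63 (.node 62 (.leaf 0xc200d1)
 (.leaf 0x500012))
 (.node 64 (.leaf 0xa00025)
 (.leaf 0x80026)))))
 (.node 71 (.node 68 (.node 66 (.leaf 0x6800c8)
 (.node 67 (.leaf 0x9c00d4)
 (.leaf 0xa0018)))
 (.node 69 (.leaf 0x620020)
 (.node 70 (.leaf 0xa400d6001f0033)
 (.leaf 0x28000e))))
 (.node 74 (.node 72 (.leaf 0xda00d9)
 (.node 73 (.leaf 0x4001c)
 (.leaf 0xa0043)))
 (.node 76 (.node 75 (.leaf 0xdc0095)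
 (.leaf 0x7800de000b000d))
 (.node 77 (.leaf 0xbc0036)
 (.leaf 0x140002))))))
 (.node 91 (.node 84 (.node 81 (.node 79 (.leaf 0x240010)
 (.node 80 (.leaf 0x82004000030007)
 (.leaf 0xc0048)))
 (.node 82 (.leaf 0xcc00660013001b)
 (.node 83 (.leaf 0x3800e00023000f)
 (.leaf 0x2003b))))
 (.node 87 (.node 85 (.leaf 0x8400e200cb)
 (.node 86 (.leaf 0xdd002f)
 (.leaf 0x420015)))
 (.node 89 (.node 88 (.leaf 0xb00022)
 (.leaf 0xaf0023))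
 (.node 90 (.leaf 0x7e0060002f0005)
 (.leaf 0xe4004a)))))
 (.node 98 (.node 94 (.node 92 (.leaf 0x180045)
 (.node 93 (.leaf 0x2e000b)
 (.leaf 0x5600e6)))
 (.node 96 (.node 95 (.leaf 0xd800e8)
 (.leaf 0x990013))
 (.node 97 (.leaf 0x1800c50039)
 (.leaf 0x110007000f0033))))
 (.node 101 (.node 99 (.leaf 0x110007000f002b)
 (.node 100 (.leaf 0x45001f002100b5)
 (.leaf 0x190027005b)))
 (.node 103 (.node 102 (.leaf 0x45001f002100b7)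
 (.leaf 0x8f000b002d))
 (.node 104 (.leaf 0x4f001500090005)
 (.leaf 0x31001100e7000f))))))))
 (.node 157 (.node 131 (.node 118 (.node 111 (.node 108 (.node 106 (.leaf 0x3f00170061000d0009)
 (.node 107 (.leaf 0xd3005f004d)
 (.leaf 0xe900490027)))
 (.node 109 (.leaf 0xc100190007000f)
 (.node 110 (.leaf 0x9f000b0025)
 (.leaf 0x17000d00510009))))
 (.node 114 (.node 112 (.leaf 0x350003001d)
 (.node 113 (.leaf 0xd50027001d)
 (.leaf 0x5500030049)))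
 (.node 116 (.node 115 (.leaf 0x59003100410011000f)
 (.leaf 0x6900170089000d0005))
 (.node 117 (.leaf 0x3f0015000d0009)
 (.leaf 0x17000900530005)))))
 (.node 124 (.node 121 (.node 119 (.leaf 0x65003100e100110007)
 (.node 120 (.leaf 0x3f004300530009)
 (.leaf 0x55003d000300d7)))
 (.node 122 (.leaf 0x4b003700030091)
 (.node 123 (.leaf 0xe500250029)
 (.leaf 0x470037000300e3))))
 (.node 127 (.node 125 (.leaf 0x35003700030067)
 (.node 126 (.leaf 0x35003d000300ad)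
 (.leaf 0x35004700030073)))
 (.node 129 (.node 128 (.leaf 0x17000d00630005)
 (.leaf 0xb90049001d))
 (.node 130 (.leaf 0xbf005d005f)
 (.leaf 0x690015000d0005))))))
 (.node 144 (.node 137 (.node 134 (.node 132 (.leaf 0x4f001700df00090005)
 (.node 133 (.leaf 0x310011005b0007)
 (.leaf 0x97005d004d)))
 (.node 135 (.leaf 0x87002d0029)
 (.node 136 (.leaf 0x5900190011000f)
 (.leaf 0xc70025002d))))
 (.node 140 (.node 138 (.leaf 0xdb000b0029)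
 (.node 139 (.leaf 0x3d0037000300bb)
 (.leaf 0x4b00030027)))
 (.node 142 (.node 141 (.leaf 0x65001900110007)
 (.leaf 0x4b0047000300a9))
 (.node 143 (.leaf 0x190003002d0028)
 (.leaf 0xe900e700310024)))))
 (.node 150 (.node 147 (.node 145 (.leaf 0x2500280019)
 (.node 146 (.leaf 0xe50025)
 (.leaf 0xe900e70024)))
 (.node 148 (.leaf 0x2100130090006600ce001b)
 (.node 149 (.leaf 0x1f001300ac00d600a60033)
 (.leaf 0x4b0003003500170045))))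
 (.node 153 (.node 151 (.leaf 0x4b00030035000a)
 (.node 152 (.leaf 0x90005000d000b003f)
 (.leaf 0x5000d0009000b)))
 (.node 155 (.node 154 (.leaf 0x250003)
 (.leaf 0x15000d0009))
 (.node 156 (.leaf 0x25000d)
 (.leaf 0xe90025)))))))
 (.node 183 (.node 170 (.node 163 (.node 160 (.node 158 (.leaf 0xe90005)
 (.node 159 (.leaf 0xe9)
 (.leaf 0xd8)))
 (.node 161 (.leaf 0xda)
 (.node 162 (.leaf 0x3008f002d)
 (.leaf 0x1100070019))))
 (.node 166 (.node 164 (.leaf 0x300230007000f)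
 (.node 165 (.leaf 0x1d0014)
 (.leaf 0x9001d)))
 (.node 168 (.node 167 (.leaf 0x29)
 (.leaf 0x5))
 (.node 169 (.leaf 0xe)
 (.leaf 0x1c)))))
 (.node 176 (.node 173 (.node 171 (.leaf 0x14)
 (.node 172 (.leaf 0x9)
 (.leaf 0x42)))
 (.node 174 (.leaf 0x26)
 (.node 175 (.leaf 0xa)
 (.leaf 0xd5))))
 (.node 179 (.node 177 (.leaf 0x2e)
 (.node 178 (.leaf 0x9c)
 (.leaf 0xdd)))
 (.node 181 (.node 180 (.leaf 0x9e)
 (.leaf 0x95))
 (.node 182 (.leaf 0x25)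
 (.leaf 0x30))))))
 (.node 196 (.node 189 (.node 186 (.node 184 (.leaf 0xd)
 (.node 185 (.leaf 0x10)
 (.leaf 0xe7)))
 (.node 187 (.leaf 0x48)
 (.node 188 (.leaf 0x56)
 (.leaf 0xb9))))
 (.node 192 (.node 190 (.leaf 0x6d)
 (.node 191 (.leaf 0x8c)
 (.leaf 0x6b)))
 (.node 194 (.node 193 (.leaf 0x8e)
 (.leaf 0x58))
 (.node 195 (.leaf 0x2d)
 (.leaf 0x41)))))
 (.node 203 (.node 199 (.node 197 (.leaf 0x6)
 (.node 198 (.leaf 0x33)
 (.leaf 0x2b)))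
 (.node 201 (.node 200 (.leaf 0x5b)
 (.leaf 0x22))
 (.node 202 (.leaf 0xb2)
 (.leaf 0x3))))
 (.node 206 (.node 204 (.leaf 0x9a)
 (.node 205 (.leaf 0xc3)
 (.leaf 0x39)))
 (.node 208 (.node 207 (.leaf 0xd1)
 (.leaf 0xe0))
 (.node 209 (.leaf 0x64)
 (.leaf 0x0)))))))))

noncomputable def prf : List ℕ := [
0x5000580003f0001e0000600045000470008b000710008c000780007f,
0x560002f00036000780006b000170001900087000730008b00027000460000e000660007d000280004500038000410001d0008100008000700004e0005b0004800023000260003e000400006d,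
0x1b0004f0003f0001f0000f0004d00067000770007e00022000290004600039000420000100071000230004900047000600008600076000500007900030000510008a0008d,
0x400001c000100004300068000210007f0005b0002a0000800072000500005d000200004e00078000230004d000000007a0003100052000480008b0008e00016,
0xb0008400003000200003e0005f0004800036000350005d000730003c0005e00047000260007e000410000200070,
0x590004100080,
0x74000710004e,
0x5d000740008e00077000000006b000400001c000170000a00007000160001900080000580000f0002a0008400088000940000100059000180001b000480006a000130006d0006e0002f00031000900008d0001f00050000150004c00056000260004400023000870000e0004e000680002500076000610005400009,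
0x8b0003c0008600061000000002c000220007f00054000360005f00057000510002700016000720003d0003e000710003f0004c000550004d0004500024000880000f0004f000690002600077000620000a,
0x130004b000930008e0007b000690008f0002d00021000730003e0003f0007200022,
0x94000300007c000730005f000400003f000740002900059000380008100000,
0x200048000270008b0001200052000500006c0002900063000100007a00058000650000d0003e00007,
0x3a0005b000830009400025000010005000043,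
0x180005900052000640002a000560005a0006c0000000058000820002d00051000440004d00001,
0x630003c000430008500078000240002600094000800009800034000530001b000730008a000350007d0005b00068000300004b0000000052000450004e00002,
0x640003d000440008600079000250002700095000810009900035000460004f0002b0008f000160009a0005c0007e00069000310004c0007b00000,
0x900002c000170004a000570006b00016000540005a000370008c000750001d0005500000000810007f0009c0006a0008800032000400004d0000b0004f0007c00001,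
0x4000000,
0x5800000,
0x5d000120003a0001a000930002f000500007f00007,
0x6400071000670007c000150003d0006e,
0x71000420009700050000530003000086000a10008d000450003a0002c0006800065000720007d0001e0008f000580004d000460005f000000005400009,
0x5d0001a0000000060000010008500002000920007b000230005300055000820000a0004c000560007f00003,
0x8d00052000790002e000320006a0008800067000a3000740008f000010007f000470008a000200003c000420004300056000370008c000620003400071000860003e00091000930005a0007c0005e0004f000240001b00048000540005b0000a0004e0000000004,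
0x1f000980008700034000030005500057000840000c00052000730005c000620001c00005,
0xa400000,
0x6100001,
0x6000001,
0x500000,
0x500001,
0x5500001,
0x6c00001,
0x6400001,
0x3e0000500001,
0x5300001,
0x6e00001,
0x5c00001,
0x9a00001,
0x6900001,
0x470000600001,
0xa200001,
0x9500001,
0x6900002,
0x50000000001000002,
0x6900002,
0x5d00001,
0x3b0001200001,
0xa700001,
0x9500001,
0xbd00001,
0xae00001,
0xa400001,
0x5b0001300001,
0x500000a0000c0001a00001,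
0xa500001,
0x630001c0000c00000,
0x630001d0000d00001,
0x42000100000e00002,
0xad0000200001,
0xa300001,
0x26000050002100001,
0x9f000060000700002,
0x9b00002,
0xb50000200001,
0x9000001,
0x7c000260000600001,
0x9500001,
0x5a000180001a0000c0000000001]

end DN21

theorem instn_21 : instN 1 2 [0, 0] [1, 1] DN21.bl DN21.base DN21.gb DN21.gads DN21.names DN21.cnf DN21.db DN21.prf = true := by decide +kernel

/-- there is no configuration of this instance. -/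
theorem noN_21 {V : Type v} [DecidableEq V] {ι : Type u} [Fintype ι] {B : ι → Finset V}
    {Q : Finset V} {x : ℕ → V} {C : ℕ → Finset V} (h : CfR B Q (6 + 1) 2 x C [0, 0] [1, 1])
    (hb : ∀ b ∈ DN21.bl, b.Holds (ecB B x (6 + 1) C)) : False :=
  h.absurd_bnd hb instn_21

end Pool.Agent.Hyp6
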